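import Mathlib

namespace Pool.Agent.H60.PrimeWalk

/-- `gap n = p_n - p_{n-1}` with `p_0 = 2, p_1 = 3, …` (used for `n ≥ 1`). -/
noncomputable def gap (n : ℕ) : ℤ := (Nat.nth Nat.Prime n : ℤ) - (Nat.nth Nat.Prime (n - 1) : ℤ)

/-- `score n = ∑_{k = 2}^{n} sign (gap k - gap (k - 1))`. -/
noncomputable def score (n : ℕ) : ℤ := ∑ k ∈ Finset.Icc 2 n, Int.sign (gap k - gap (k - 1))

end Pool.Agent.H60.PrimeWalk
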