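import Mathlib
import Pool.Agent.H60.PrimeWalkDefs

namespace Pool.Agent.H60.PrimeWalk

/-- continuation-style evaluation of a number. -/
noncomputable def frc {α : Type} (n : ℕ) (f : ℕ → α) : α :=
  Nat.rec (f 0) (fun k _ => f (Nat.succ k)) n

lemma frc_eq {α : Type} (n : ℕ) (f : ℕ → α) : frc n f = f n := by
  cases n <;> rfl

/-- bits at the multiples of `p` below `p * 2 ^ k`. -/
noncomputable def rep (p : ℕ) : ℕ → ℕ
  | 0 => 1
  | k + 1 => frc (rep p k) fun r => Nat.lor r (Nat.shiftLeft r (Nat.mul p (Nat.pow 2 k)))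

lemma testBit_rep (p : ℕ) (hp : 0 < p) (k i : ℕ) :
    (rep p k).testBit i = true ↔ p ∣ i ∧ i < p * 2 ^ k := by
  induction k generalizing i with
  | zero =>
    rw [rep, pow_zero, mul_one, Nat.testBit_one_eq_true_iff_self_eq_zero]
    constructor
    · rintro rfl; exact ⟨dvd_zero _, hp⟩
    · rintro ⟨h1, h2⟩; exact Nat.eq_zero_of_dvd_of_lt h1 h2
  | succ k ih =>
    have e : rep p (k + 1) = rep p k ||| (rep p k <<< (p * 2 ^ k)) := by
      rw [rep, frc_eq]; rfl
    rw [e, Nat.testBit_or, Nat.testBit_shiftLeft, Bool.or_eq_true, Bool.and_eq_true, ih, ih,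
      decide_eq_true_iff, pow_succ, ← mul_assoc]
    constructor
    · rintro (⟨h1, h2⟩ | ⟨h1, h2, h3⟩)
      · exact ⟨h1, by omega⟩
      · exact ⟨(Nat.dvd_sub_iff_left h1 (dvd_mul_right _ _)).1 h2, by omega⟩
    · rintro ⟨h1, h2⟩
      by_cases h : i < p * 2 ^ k
      · exact Or.inl ⟨h1, h⟩
      · exact Or.inr ⟨by omega, Nat.dvd_sub h1 (dvd_mul_right _ _), by omega⟩

/-- bits `i` (at least for `i < 2 ^ e`) with `p ∣ A + i`. -/
noncomputable def pat (A e p : ℕ) : ℕ :=
  Nat.shiftLeft (rep p (Nat.sub e (Nat.log2 p))) (Nat.mod (Nat.sub p (Nat.mod A p)) p)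

lemma testBit_pat (A e p : ℕ) (hp : 0 < p) (i : ℕ) (hi : i < 2 ^ e) :
    (pat A e p).testBit i = true ↔ p ∣ A + i := by
  have e1 : pat A e p = rep p (e - p.log2) <<< ((p - A % p) % p) := rfl
  set r := (p - A % p) % p with hr
  have h1 : p ∣ A + r := by
    have hA := Nat.mod_lt A hp
    rw [Nat.dvd_iff_mod_eq_zero, hr, Nat.add_mod_mod, ← Nat.mod_add_mod,
      Nat.add_sub_cancel' hA.le, Nat.mod_self]
  have h2 : r < p := Nat.mod_lt _ hp
  have h3 : 2 ^ e ≤ p * 2 ^ (e - p.log2) := by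
    calc 2 ^ e ≤ 2 ^ (p.log2 + (e - p.log2)) := Nat.pow_le_pow_right (by norm_num) (by omega)
      _ = 2 ^ p.log2 * 2 ^ (e - p.log2) := pow_add _ _ _
      _ ≤ p * 2 ^ (e - p.log2) := Nat.mul_le_mul_right _ (Nat.log2_self_le (by omega))
  rw [e1, Nat.testBit_shiftLeft, Bool.and_eq_true, testBit_rep p hp, decide_eq_true_iff]
  constructor
  · rintro ⟨h4, h5, _⟩
    have : A + i = A + r + (i - r) := by omega
    rw [this]; exact dvd_add h1 h5
  · intro h4
    have h5 : r ≤ i := by
      by_contra h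
      have h6 : p ∣ r - i := by
        have : r - i = A + r - (A + i) := by omega
        rw [this]; exact Nat.dvd_sub h1 h4
      have := Nat.le_of_dvd (by omega) h6
      omega
    refine ⟨h5, ?_, by omega⟩
    have : i - r = A + i - (A + r) := by omega
    rw [this]; exact Nat.dvd_sub h4 h1

/-- `d` is visibly composite. -/
def skip (d : ℕ) : Bool :=
  Nat.ble 14 d && (Nat.beq (Nat.mod d 2) 0 || Nat.beq (Nat.mod d 3) 0 || Nat.beq (Nat.mod d 5) 0 ||
    Nat.beq (Nat.mod d 7) 0 || Nat.beq (Nat.mod d 11) 0 || Nat.beq (Nat.mod d 13) 0)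

lemma skip_not_prime (d : ℕ) (h : skip d = true) : ¬ d.Prime := by
  simp only [skip, Bool.and_eq_true, Bool.or_eq_true, Nat.ble_eq, Nat.beq_eq] at h
  intro hp
  obtain ⟨h0, h⟩ := h
  have key : ∀ q, 2 ≤ q → q < 14 → Nat.mod d q = 0 → False := fun q h1 h2 h3 => by
    rcases hp.eq_one_or_self_of_dvd q (Nat.dvd_of_mod_eq_zero h3) with h | h <;> omega
  rcases h with ((((h | h) | h) | h) | h) | h <;> exact key _ (by norm_num) (by norm_num) h

/-- union of the patterns of all `d` with `2 ≤ d < k + 2`, visibly composite `d` left out. -/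
noncomputable def comp (A e : ℕ) : ℕ → ℕ → ℕ
  | 0, acc => acc
  | k + 1, acc => cond (skip (Nat.add k 2)) (comp A e k acc)
      (frc (Nat.lor acc (pat A e (Nat.add k 2))) fun a => comp A e k a)

lemma testBit_comp (A e : ℕ) (i : ℕ) (hi : i < 2 ^ e) (k acc : ℕ) :
    (comp A e k acc).testBit i = true ↔
      acc.testBit i = true ∨ ∃ d, d < k ∧ skip (d + 2) = false ∧ (d + 2) ∣ A + i := by
  induction k generalizing acc with
  | zero => simp [comp]
  | succ k ih =>
    have e1 : comp A e (k + 1) acc = cond (skip (k + 2)) (comp A e k acc)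
        (comp A e k (acc ||| pat A e (k + 2))) := by
      rw [comp, frc_eq]; rfl
    rw [e1]
    cases h : skip (k + 2)
    · rw [cond_false, ih, Nat.testBit_or, Bool.or_eq_true, testBit_pat A e _ (by omega) i hi]
      constructor
      · rintro ((h1 | h1) | ⟨d, h1, h2⟩)
        · exact Or.inl h1
        · exact Or.inr ⟨k, by omega, h, h1⟩
        · exact Or.inr ⟨d, by omega, h2⟩
      · rintro (h1 | ⟨d, h1, h2⟩)
        · exact Or.inl (Or.inl h1)
        · rcases Nat.lt_succ_iff_lt_or_eq.1 h1 with h3 | rfl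
          · exact Or.inr ⟨d, h3, h2⟩
          · exact Or.inl (Or.inr h2.2)
    · rw [cond_true, ih]
      constructor
      · rintro (h1 | ⟨d, h1, h2⟩)
        · exact Or.inl h1
        · exact Or.inr ⟨d, by omega, h2⟩
      · rintro (h1 | ⟨d, h1, h2⟩)
        · exact Or.inl h1
        · rcases Nat.lt_succ_iff_lt_or_eq.1 h1 with h3 | rfl
          · exact Or.inr ⟨d, h3, h2⟩
          · rw [h] at h2; exact absurd h2.1 (by simp)

/-- bit `i < 2 ^ e` is set iff `A + i` is prime, provided `K + 2 ≤ A` and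
`A + 2 ^ e ≤ (K + 2) ^ 2`. -/
noncomputable def mask (A e K : ℕ) : ℕ :=
  Nat.xor (Nat.mod (comp A e K 0) (Nat.pow 2 (Nat.pow 2 e))) (Nat.sub (Nat.pow 2 (Nat.pow 2 e)) 1)

lemma testBit_mask (A e K : ℕ) (h1 : K + 2 ≤ A) (h2 : A + 2 ^ e ≤ (K + 2) ^ 2) (i : ℕ)
    (hi : i < 2 ^ e) : (mask A e K).testBit i = true ↔ (A + i).Prime := by
  have e1 : mask A e K = (comp A e K 0 % 2 ^ 2 ^ e) ^^^ (2 ^ 2 ^ e - 1) := rfl
  rw [e1, Nat.testBit_xor, Nat.testBit_mod_two_pow, Nat.testBit_two_pow_sub_one,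
    decide_eq_true hi, Bool.true_and, Bool.xor_true, Bool.not_eq_true', ← Bool.not_eq_true,
    testBit_comp A e i hi]
  simp only [Nat.zero_testBit, Bool.false_eq_true, false_or, not_exists, not_and]
  constructor
  · intro h
    by_contra hp
    have h3 := Nat.minFac_sq_le_self (n := A + i) (by omega) hp
    have h4 : (A + i).minFac.Prime := Nat.minFac_prime (by omega)
    have h5 := h4.two_le
    have h6 : (A + i).minFac < K + 2 := lt_of_pow_lt_pow_left₀ 2 (by omega) (by omega)
    have h7 : (A + i).minFac - 2 + 2 = (A + i).minFac := by omega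
    refine h ((A + i).minFac - 2) (by omega) ?_ (by rw [h7]; exact Nat.minFac_dvd _)
    rw [h7]
    cases h8 : skip (A + i).minFac
    · rfl
    · exact absurd h4 (skip_not_prime _ h8)
  · intro hp d hd _ h
    rcases hp.eq_one_or_self_of_dvd _ h with h | h <;> omega

/-! ### The walk along the primes -/

lemma ctz_spec (w : ℕ) (hw : w ≠ 0) : ∃ t, Nat.succ (Nat.xor w (Nat.sub w 1)) = 2 ^ (t + 1) ∧
    w.testBit t = true ∧ ∀ j < t, w.testBit j = false := by
  obtain ⟨t, m, hm, rfl⟩ := Nat.exists_eq_two_pow_mul_odd hw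
  obtain ⟨m, rfl⟩ := hm
  have hp : 0 < 2 ^ t := by positivity
  have e1 : 2 ^ t * (2 * m + 1) = 2 ^ (t + 1) * m + 2 ^ t := by ring
  have e2 : 2 ^ t * (2 * m + 1) - 1 = 2 ^ (t + 1) * m + (2 ^ t - 1) := by rw [e1]; omega
  have h1 : 2 ^ t < 2 ^ (t + 1) := by rw [pow_succ]; omega
  have e3 : Nat.xor (2 ^ t * (2 * m + 1)) (Nat.sub (2 ^ t * (2 * m + 1)) 1) = 2 ^ (t + 1) - 1 := by
    show (2 ^ t * (2 * m + 1)) ^^^ (2 ^ t * (2 * m + 1) - 1) = _
    rw [e2, e1]
    refine Nat.eq_of_testBit_eq fun j => ?_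
    rw [Nat.testBit_xor, Nat.testBit_two_pow_mul_add _ h1,
      Nat.testBit_two_pow_mul_add _ (by omega), Nat.testBit_two_pow_sub_one,
      Nat.testBit_two_pow_sub_one, Nat.testBit_two_pow]
    by_cases h : j < t + 1
    · rw [if_pos h, if_pos h]
      rcases Nat.lt_succ_iff_lt_or_eq.1 h with h' | h'
      · simp [h, h', h'.ne']
      · simp [h']
    · simp [h]
  refine ⟨t, by rw [e3]; omega, ?_, fun j hj => ?_⟩
  · rw [e1, Nat.testBit_two_pow_mul_add _ h1, if_pos (by omega), Nat.testBit_two_pow_self]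
  · rw [e1, Nat.testBit_two_pow_mul_add _ h1, if_pos (by omega),
      Nat.testBit_two_pow_of_ne (by omega)]

/-- After all numbers `< x`: the last prime is `p_n = x - d`, the last gap is `g`, and
`V = n + 2 ^ 32 (score n + n)`. -/
def Inv (x d g V : ℕ) : Prop :=
  ∃ n, 1 ≤ n ∧ Nat.count Nat.Prime x = n + 1 ∧ Nat.nth Nat.Prime n + d = x ∧ gap n = g ∧
    (V : ℤ) = n + 4294967296 * (score n + n)

lemma Inv.skip {x d g V : ℕ} (h : Inv x d g V) (t : ℕ) (ht : ∀ j < t, ¬ (x + j).Prime) :
    Inv (x + t) (d + t) g V := by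
  induction t with
  | zero => exact h
  | succ t ih =>
    obtain ⟨n, h1, h2, h3, h4⟩ := ih fun j hj => ht j (by omega)
    refine ⟨n, h1, ?_, by omega, h4⟩
    rw [← add_assoc, Nat.count_succ, if_neg (ht t (by omega)), h2]

noncomputable def inc (g g' : ℕ) : ℕ :=
  Bool.rec 8589934593 (Bool.rec 1 4294967297 (Nat.beq g' g)) (Nat.ble g' g)

lemma Inv.step {x d g V : ℕ} (h : Inv x d g V) (hx : x.Prime) :
    Inv (x + 1) 1 d (V + inc g d) := by
  obtain ⟨n, h1, h2, h3, h4, h5⟩ := h
  have h6 : Nat.nth Nat.Prime (n + 1) = x := by rw [← h2, Nat.nth_count hx]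
  have h8 : gap (n + 1) = (d : ℤ) := by
    rw [gap, Nat.add_sub_cancel, h6, ← h3]; push_cast; ring
  refine ⟨n + 1, by omega, by rw [Nat.count_succ, if_pos hx, h2], by rw [h6], h8, ?_⟩
  rw [score, Finset.sum_Icc_succ_top (by omega), ← score, Nat.add_sub_cancel, h8, h4]
  push_cast
  rw [h5]
  unfold inc
  rcases lt_trichotomy d g with h | h | h
  · have : Nat.beq d g = false := by
      rw [← Bool.not_eq_true, Nat.beq_eq]; omega
    rw [Nat.ble_eq_true_of_le h.le, this, Int.sign_eq_neg_one_of_neg (by omega)]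
    push_cast
    ring
  · subst h
    rw [Nat.ble_self_eq_true, Nat.beq_refl]
    simp only [sub_self, Int.sign_zero]
    push_cast
    ring
  · have : Nat.ble d g = false := by
      rw [← Bool.not_eq_true, Nat.ble_eq]; omega
    rw [this, Int.sign_eq_one_of_pos (by omega)]
    push_cast
    ring

lemma inc_pow (g g' : ℕ) : inc (2 ^ g) (2 ^ g') = inc g g' := by
  have h1 : Nat.ble (2 ^ g') (2 ^ g) = Nat.ble g' g := by
    rw [Bool.eq_iff_iff, Nat.ble_eq, Nat.ble_eq]
    exact Nat.pow_le_pow_iff_right (by norm_num)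
  have h2 : Nat.beq (2 ^ g') (2 ^ g) = Nat.beq g' g := by
    rw [Bool.eq_iff_iff, Nat.beq_eq, Nat.beq_eq]
    exact Nat.pow_right_inj (by norm_num)
  rw [inc, inc, h1, h2]

/-- the same invariant with the distances stored as powers of two. -/
def Inv2 (x D G V : ℕ) : Prop := ∃ d g, Inv x (d + 1) g V ∧ D = 2 ^ d ∧ G = 2 ^ g

/-- run through the set bits of the word `w`; the top bit only marks the end of the word. -/
noncomputable def walk (k : ℕ → ℕ → ℕ → Bool) (f : ℕ) : ℕ → ℕ → ℕ → ℕ → Bool :=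
  Nat.rec (fun _ _ _ _ => false) (fun _ ih w D G V =>
    frc (Nat.xor w (Nat.sub w 1)) fun z =>
      frc (Nat.mul D (Nat.succ z)) fun G' =>
        Nat.rec (k (Nat.div G' 2) G V)
          (fun u _ => frc (Nat.add V (inc G G')) fun V' => ih (Nat.succ u) 1 G' V')
          (Nat.div w (Nat.succ z))) f

lemma walk_spec (k : ℕ → ℕ → ℕ → Bool) (f r w x D G V : ℕ)
    (hw : ∀ i, w.testBit i = true ↔ i = r ∨ (i < r ∧ (x + i).Prime)) (h : Inv2 x D G V)
    (hr : walk k f w D G V = true) :
    ∃ D' G' V', Inv2 (x + r) D' G' V' ∧ k D' G' V' = true := by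
  induction f generalizing r w x D G V with
  | zero => simp [walk] at hr
  | succ f ih =>
    have hw0 : w ≠ 0 := by
      rintro rfl
      simpa using (hw r).2 (Or.inl rfl)
    obtain ⟨t, h0, h1, h2⟩ := ctz_spec w hw0
    obtain ⟨d, g, h, rfl, rfl⟩ := h
    have e : walk k (f + 1) w (2 ^ d) (2 ^ g) V = frc (Nat.xor w (Nat.sub w 1)) fun z =>
        frc (Nat.mul (2 ^ d) (Nat.succ z)) fun G' => Nat.rec (k (Nat.div G' 2) (2 ^ g) V)
          (fun u _ => frc (Nat.add V (inc (2 ^ g) G')) fun V' => walk k f (Nat.succ u) 1 G' V')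
          (Nat.div w (Nat.succ z)) := rfl
    have e1 : Nat.mul (2 ^ d) (2 ^ (t + 1)) = 2 ^ (d + 1 + t) := by
      show 2 ^ d * 2 ^ (t + 1) = _
      ring
    have e2 : Nat.div (2 ^ (d + 1 + t)) 2 = 2 ^ (d + t) := by
      show 2 ^ (d + 1 + t) / 2 = _
      rw [add_right_comm, pow_succ, Nat.mul_div_cancel _ (by norm_num)]
    rw [e] at hr
    simp only [frc_eq] at hr
    rw [h0, e1, e2, inc_pow] at hr
    have h3 : t ≤ r := by
      rcases (hw t).1 h1 with h | h <;> omega
    have h4 := h.skip t fun j hj hp => by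
      have := (hw j).2 (Or.inr ⟨by omega, hp⟩)
      rw [h2 j hj] at this
      exact absurd this (by simp)
    have h5 : ∀ i, (Nat.div w (2 ^ (t + 1))).testBit i = w.testBit (t + 1 + i) := fun i => by
      rw [add_comm (t + 1)]
      exact Nat.testBit_div_two_pow w i
    generalize Nat.div w (2 ^ (t + 1)) = w' at hr h5
    cases w' with
    | zero =>
      have h6 : t = r := by
        by_contra h7
        have := h5 (r - (t + 1))
        rw [show t + 1 + (r - (t + 1)) = r by omega, (hw r).2 (Or.inl rfl)] at this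
        simp at this
      exact ⟨_, _, _, ⟨d + t, g, by rw [← h6, add_right_comm d]; exact h4, rfl, rfl⟩, hr⟩
    | succ u =>
      have h6 : t < r := by
        obtain ⟨i, hi⟩ := Nat.exists_testBit_of_ne_zero (Nat.succ_ne_zero u)
        have h7 := h5 i
        rw [hi] at h7
        rcases (hw _).1 h7.symm with h | h <;> omega
      have h7 : (x + t).Prime := by
        rcases (hw t).1 h1 with h | h
        · omega
        · exact h.2
      have := ih (r - (t + 1)) (u + 1) (x + t + 1) 1 _ _ (fun i => by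
        rw [h5, hw, show x + (t + 1 + i) = x + t + 1 + i by ring]
        constructor
        · rintro (h | ⟨h, h'⟩)
          · exact Or.inl (by omega)
          · exact Or.inr ⟨by omega, h'⟩
        · rintro (h | ⟨h, h'⟩)
          · exact Or.inl (by omega)
          · exact Or.inr ⟨by omega, h'⟩) ⟨0, d + 1 + t, h4.step h7, rfl, rfl⟩ hr
      rwa [show x + t + 1 + (r - (t + 1)) = x + r by omega] at this

/-- run through `c` words of `W` bits of `m`. -/
noncomputable def words (W : ℕ) (k : ℕ → ℕ → ℕ → Bool) (c : ℕ) : ℕ → ℕ → ℕ → ℕ → Bool :=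
  Nat.rec (fun _ d g V => k d g V) (fun _ ih m d g V =>
    frc (Nat.add (Nat.pow 2 W) (Nat.mod m (Nat.pow 2 W))) fun w =>
      frc (Nat.shiftRight m W) fun m' => walk (ih m') (Nat.succ W) w d g V) c

lemma words_spec (W : ℕ) (k : ℕ → ℕ → ℕ → Bool) (c m x d g V : ℕ)
    (hm : ∀ i < c * W, m.testBit i = true ↔ (x + i).Prime) (h : Inv2 x d g V)
    (hr : words W k c m d g V = true) :
    ∃ d' g' V', Inv2 (x + c * W) d' g' V' ∧ k d' g' V' = true := by
  induction c generalizing m x d g V with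
  | zero => exact ⟨d, g, V, by simpa using h, hr⟩
  | succ c ih =>
    have e : words W k (c + 1) m d g V =
        frc (Nat.add (Nat.pow 2 W) (Nat.mod m (Nat.pow 2 W))) fun w =>
          frc (Nat.shiftRight m W) fun m' => walk (words W k c m') (Nat.succ W) w d g V := rfl
    rw [e] at hr
    simp only [frc_eq] at hr
    obtain ⟨d', g', V', h1, h2⟩ := walk_spec _ _ W (2 ^ W + m % 2 ^ W) x d g V
      (fun i => by
        have h0 : m % 2 ^ W < 2 ^ W := Nat.mod_lt _ (by positivity)
        have := Nat.testBit_two_pow_mul_add 1 h0 i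
        rw [mul_one] at this
        rw [this]
        split_ifs with hi
        · rw [Nat.testBit_mod_two_pow, Bool.and_eq_true, decide_eq_true_iff, hm i (by nlinarith)]
          constructor
          · exact fun h => Or.inr h
          · rintro (h | h)
            · omega
            · exact h
        · rw [Nat.testBit_one_eq_true_iff_self_eq_zero]
          constructor
          · intro h; left; omega
          · rintro (h | h) <;> omega) h hr
    have := ih (m >>> W) (x + W) d' g' V' (fun i hi => by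
      rw [Nat.testBit_shiftRight, hm _ (by nlinarith), add_assoc]) h1 h2
    have e : x + (c + 1) * W = x + W + c * W := by ring
    rwa [e]

def fin (d g V d' g' V' : ℕ) : Bool := Nat.beq d' d && (Nat.beq g' g && Nat.beq V' V)

noncomputable def seg (A e K W c d g V d' g' V' : ℕ) : Bool :=
  (Nat.ble (K + 2) A && (Nat.ble (A + 2 ^ e) ((K + 2) ^ 2) && Nat.ble (c * W) (2 ^ e))) &&
    frc (mask A e K) fun m => words W (fin d' g' V') c m d g V

theorem seg_spec (A e K W c d g V d' g' V' : ℕ) (h : Inv2 A d g V)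
    (hr : seg A e K W c d g V d' g' V' = true) : Inv2 (A + c * W) d' g' V' := by
  simp only [seg, frc_eq, Bool.and_eq_true, Nat.ble_eq] at hr
  obtain ⟨⟨h1, h2, h3⟩, h4⟩ := hr
  obtain ⟨a, b, c', h5, h6⟩ := words_spec W _ c _ A d g V
    (fun i hi => testBit_mask A e K h1 h2 i (by omega)) h h4
  simp only [fin, Bool.and_eq_true, Nat.beq_eq] at h6
  obtain ⟨rfl, rfl, rfl⟩ := h6
  exact h5

lemma inv_start : Inv2 4 1 2 4294967297 := by
  refine ⟨0, 1, ⟨1, le_rfl, by decide, by rw [Nat.nth_prime_one_eq_three], ?_, by simp [score]⟩,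
    rfl, rfl⟩
  simp [gap]

lemma Inv2.decode {x d g V : ℕ} (h : Inv2 x d g V) (hx : x < 4294967296) :
    score (V % 4294967296) = (V / 4294967296 : ℕ) - (V % 4294967296 : ℕ) := by
  obtain ⟨_, _, ⟨n, h1, h2, h3, h4, h5⟩, -⟩ := h
  have h6 : n + 1 ≤ x := h2 ▸ Nat.count_le _
  have h7 : V % 4294967296 = n := by omega
  rw [h7]
  omega

end Pool.Agent.H60.PrimeWalk
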