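import Mathlib

/-! Elementary Grothendieck residues through the transformation law. -/

open MvPolynomial Matrix

set_option linter.unusedSectionVars false

namespace H60.AF

variable {ι : Type} [Fintype ι] [DecidableEq ι] {R : Type*} [CommRing R]

/-- The exponent `(L, …, L)`. -/
noncomputable def T (ι : Type) [Fintype ι] (L : ℕ) : ι →₀ ℕ :=
  Finsupp.equivFunOnFinite.symm (fun _ => L)

omit [DecidableEq ι] in
@[simp] lemma T_apply (L : ℕ) (r : ι) : T ι L r = L := by simp [T]

omit [DecidableEq ι] in
lemma T_degree (L : ℕ) : (T ι L).degree = Fintype.card ι * L := by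
  rw [Finsupp.degree_eq_sum]; simp

lemma coeff_mul_X_pow_zero (m : ι →₀ ℕ) (r : ι) (k : ℕ) (h : m r < k) (y : MvPolynomial ι R) :
    coeff m (y * X r ^ k) = 0 := by
  rw [X_pow_eq_monomial, coeff_mul_monomial', if_neg]
  intro hle
  have := hle r
  simp at this
  omega

lemma wd1 (L : ℕ) (u : R) (v : ι → MvPolynomial ι R) (N M : Matrix ι ι (MvPolynomial ι R)) (i : ι)
    (hN : N *ᵥ v = fun r => C u * X r ^ (L + 1))
    (hM : M *ᵥ v = fun r => if r = i then 0 else C u * X r ^ (L + 1)) (g : MvPolynomial ι R) :
    u * coeff (T ι L) (g * M.det) = 0 := by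
  have h1 : ∀ j, M.det * v j = ∑ r, M.adjugate j r * (M *ᵥ v) r := by
    intro j
    have : (M.adjugate * M) *ᵥ v = M.det • v := by
      rw [adjugate_mul, smul_mulVec, one_mulVec]
    have h2 := congrFun this j
    rw [← mulVec_mulVec] at h2
    simpa [mulVec, dotProduct] using h2.symm
  have h2 : g * M.det * (C u * X i ^ (L + 1))
      = ∑ j, ∑ r, (N i j * g * M.adjugate j r) * (M *ᵥ v) r := by
    have := congrFun hN i
    simp only [mulVec, dotProduct] at this
    rw [← this, Finset.mul_sum]
    refine Finset.sum_congr rfl fun j _ => ?_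
    have h3 := h1 j
    calc g * M.det * (N i j * v j) = N i j * g * (M.det * v j) := by ring
      _ = _ := by
        rw [h3, Finset.mul_sum]
        exact Finset.sum_congr rfl fun r _ => by ring
  have h3 := congrArg (coeff (T ι L + Finsupp.single i (L + 1))) h2
  have h4 : coeff (T ι L + Finsupp.single i (L + 1)) (g * M.det * (C u * X i ^ (L + 1)))
      = u * coeff (T ι L) (g * M.det) := by
    rw [X_pow_eq_monomial, C_mul_monomial, coeff_mul_monomial]; ring
  rw [← h4, h3, coeff_sum]
  refine Finset.sum_eq_zero fun j _ => ?_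
  rw [coeff_sum]
  refine Finset.sum_eq_zero fun r _ => ?_
  rw [hM]
  by_cases hr : r = i
  · simp [hr]
  · simp only [hr, if_false]
    rw [← mul_assoc]
    apply coeff_mul_X_pow_zero
    simp [hr]

/-- The residue does not depend on the chosen transformation matrix. -/
lemma wd (L : ℕ) (u : R) (v : ι → MvPolynomial ι R) (N N' : Matrix ι ι (MvPolynomial ι R))
    (hN : N *ᵥ v = fun r => C u * X r ^ (L + 1))
    (hN' : N' *ᵥ v = fun r => C u * X r ^ (L + 1)) (g : MvPolynomial ι R) :
    u * coeff (T ι L) (g * N.det) = u * coeff (T ι L) (g * N'.det) := by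
  let mix : Finset ι → Matrix ι ι (MvPolynomial ι R) := fun S r => if r ∈ S then N' r else N r
  have key : ∀ S : Finset ι,
      u * coeff (T ι L) (g * N.det) = u * coeff (T ι L) (g * (mix S).det) := by
    intro S
    induction S using Finset.induction_on with
    | empty => have : mix ∅ = N := by ext r j; simp [mix]
               rw [this]
    | insert i S hi ih =>
      rw [ih]
      have e1 : mix (insert i S) = (mix S).updateRow i (N' i) := by
        funext r
        by_cases hr : r = i
        · rw [hr, updateRow_self]; simp [mix]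
        · rw [updateRow_ne hr]; simp [mix, hr]
      have e2 : mix S = (mix S).updateRow i (N i) := by
        funext r
        by_cases hr : r = i
        · rw [hr, updateRow_self]; simp [mix, hi]
        · rw [updateRow_ne hr]
      have e3 : ((mix S).updateRow i (N' i)).det
          = ((mix S).updateRow i (N i)).det + ((mix S).updateRow i (N' i - N i)).det := by
        rw [← det_updateRow_add]; simp
      have e4 := wd1 L u v N ((mix S).updateRow i (N' i - N i)) i hN (by
        funext r
        by_cases hr : r = i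
        · have a1 : N i ⬝ᵥ v = _ := congrFun hN i
          have a2 : N' i ⬝ᵥ v = _ := congrFun hN' i
          show ((mix S).updateRow i (N' i - N i)) r ⬝ᵥ v = _
          rw [hr, updateRow_self, sub_dotProduct, a1, a2]; simp
        · have a1 : N r ⬝ᵥ v = _ := congrFun hN r
          have a2 : N' r ⬝ᵥ v = _ := congrFun hN' r
          show ((mix S).updateRow i (N' i - N i)) r ⬝ᵥ v = _
          rw [updateRow_ne hr, if_neg hr]
          simp only [mix]
          split_ifs
          · exact a2
          · exact a1) g
      rw [e1, e3, ← e2, mul_add, coeff_add, mul_add, e4, add_zero]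
  have : mix Finset.univ = N' := by ext r j; simp [mix]
  rw [key Finset.univ, this]

lemma prod_X_pow_eq (L : ℕ) : (∏ r : ι, (X r : MvPolynomial ι R) ^ L) = monomial (T ι L) 1 := by
  rw [monomial_eq, Finsupp.prod_fintype _ _ (by simp)]; simp

/-- Normalisation: a matrix taking `X` to `u X^(L+1)`. -/
lemma wd_X (L : ℕ) (u : R) (N : Matrix ι ι (MvPolynomial ι R))
    (hN : N *ᵥ (fun r => X r) = fun r => C u * X r ^ (L + 1)) :
    u * coeff (T ι L) N.det = u * u ^ Fintype.card ι := by
  have := wd L u (fun r => X r) N (diagonal fun r => C u * X r ^ L) hN (by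
    funext r; rw [mulVec_diagonal]; ring) 1
  rw [one_mul, one_mul] at this
  rw [this, det_diagonal, Finset.prod_mul_distrib, prod_X_pow_eq, Finset.prod_const,
    Finset.card_univ, ← C_pow, coeff_C_mul]
  simp

/-- The residue functional kills the ideal. -/
lemma det_mul_mem (L : ℕ) (u : R) (v : ι → MvPolynomial ι R) (N : Matrix ι ι (MvPolynomial ι R))
    (hN : N *ᵥ v = fun r => C u * X r ^ (L + 1)) (j : ι) :
    ∃ y : ι → MvPolynomial ι R, N.det * v j = ∑ r, y r * X r ^ (L + 1) := by
  have : (N.adjugate * N) *ᵥ v = N.det • v := by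
    rw [adjugate_mul, smul_mulVec, one_mulVec]
  have h2 := congrFun this j
  rw [← mulVec_mulVec, hN] at h2
  refine ⟨fun r => N.adjugate j r * C u, ?_⟩
  simp only [mulVec, dotProduct, Pi.smul_apply, smul_eq_mul] at h2
  rw [← h2]
  exact Finset.sum_congr rfl fun r _ => by ring

omit [Fintype ι] in
lemma coeff_mul_homog (t : ι →₀ ℕ) (x y : MvPolynomial ι R) (hx : x.IsHomogeneous t.degree) :
    coeff t (x * y) = coeff t x * coeff 0 y := by
  rw [coeff_mul, Finset.sum_eq_single (t, 0)]
  · rintro ⟨a, b⟩ hab hne
    have hab : a + b = t := by simpa using hab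
    simp only
    by_cases ha : a.degree = t.degree
    · exfalso
      have : a.degree + b.degree = t.degree := by rw [← map_add, hab]
      have hb : b = 0 := by
        rw [← Finsupp.degree_eq_zero_iff]; omega
      apply hne
      subst hb
      simpa using hab
    · rw [hx.coeff_eq_zero ha, zero_mul]
  · simp

omit [Fintype ι] [DecidableEq ι] in
lemma sub_C_aeval_mem {S : Type*} [CommRing S] (z : ι → S) (p : MvPolynomial ι S) :
    p - C (eval z p) ∈ Ideal.span (Set.range fun j => (X j : MvPolynomial ι S) - C (z j)) := by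
  induction p using MvPolynomial.induction_on with
  | C a => simp
  | add p q hp hq =>
    have : p + q - C (eval z (p + q)) = (p - C (eval z p)) + (q - C (eval z q)) := by
      simp only [map_add]; ring
    rw [this]; exact Ideal.add_mem _ hp hq
  | mul_X p j hp =>
    have : p * X j - C (eval z (p * X j))
        = (p - C (eval z p)) * X j + C (eval z p) * (X j - C (z j)) := by
      simp only [map_mul, eval_X]; ring
    rw [this]
    exact Ideal.add_mem _ (Ideal.mul_mem_right _ _ hp)
      (Ideal.mul_mem_left _ _ (Ideal.subset_span ⟨j, rfl⟩))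

lemma geom_coeff {S : Type*} [CommRing S] (z : ι → S) (L : ℕ) :
    coeff (T ι L) (∏ r : ι, ∑ t ∈ Finset.range (L + 1),
      (X r : MvPolynomial ι S) ^ t * C (z r) ^ (L + 1 - 1 - t)) = 1 := by
  rw [Finset.prod_univ_sum, coeff_sum, Finset.sum_eq_single (fun _ => L)]
  · simp [prod_X_pow_eq]
  · intro p _ hne
    have : (∏ r : ι, (X r : MvPolynomial ι S) ^ p r * C (z r) ^ (L + 1 - 1 - p r))
        = monomial (Finsupp.equivFunOnFinite.symm p) (∏ r, z r ^ (L + 1 - 1 - p r)) := by
      rw [monomial_eq, Finsupp.prod_fintype _ _ (by simp), Finset.prod_mul_distrib, map_prod]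
      simp [mul_comm]
    rw [this, coeff_monomial, if_neg]
    intro h
    apply hne
    funext r
    simpa using DFunLike.congr_fun h r
  · intro h; exfalso; apply h; simp

/-- Bezoutian argument: in the critical degree the quotient has rank one. -/
lemma bezout (L : ℕ) (F : ι → MvPolynomial ι R) (E : Matrix ι ι (MvPolynomial ι R))
    (hE : E *ᵥ F = fun r => C 1 * X r ^ (L + 1)) :
    ∃ β : MvPolynomial ι R, ∀ g : MvPolynomial ι R,
      (g * E.det).IsHomogeneous (T ι L).degree →
        g - C (coeff (T ι L) (g * E.det)) * β ∈ Ideal.span (Set.range F) := by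
  let I := Ideal.span (Set.range F)
  let S := MvPolynomial ι R ⧸ I
  let φ : R →+* S := (Ideal.Quotient.mk I).comp C
  let z : ι → S := fun j => Ideal.Quotient.mk I (X j)
  have hev : ∀ p : MvPolynomial ι R, eval z (map φ p) = Ideal.Quotient.mk I p := by
    intro p
    induction p using MvPolynomial.induction_on with
    | C a => simp [φ]
    | add p q hp hq => simp [hp, hq]
    | mul_X p j hp => simp [hp, z]
  have hF0 : ∀ j, eval z (map φ (F j)) = 0 := fun j => by
    rw [hev, Ideal.Quotient.eq_zero_iff_mem]; exact Ideal.subset_span ⟨j, rfl⟩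
  have hz : ∀ r, z r ^ (L + 1) = 0 := by
    intro r
    have := congrFun hE r
    simp only [mulVec, dotProduct, map_one, one_mul] at this
    simp only [z]
    rw [← map_pow, ← this, Ideal.Quotient.eq_zero_iff_mem]
    exact Ideal.sum_mem _ fun j _ => Ideal.mul_mem_left _ _ (Ideal.subset_span ⟨j, rfl⟩)
  have hB : ∀ i, ∃ c : ι → MvPolynomial ι S,
      ∑ j, c j * (X j - C (z j)) = map φ (F i) := by
    intro i
    have := sub_C_aeval_mem z (map φ (F i))
    rw [hF0, map_zero, sub_zero] at this
    exact Ideal.mem_span_range_iff_exists_fun.1 this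
  choose B hB using hB
  let B' : Matrix ι ι (MvPolynomial ι S) := Matrix.of B
  let v : ι → MvPolynomial ι S := fun j => X j - C (z j)
  have hBv : B' *ᵥ v = fun i => map φ (F i) := by
    funext i; simpa [mulVec, dotProduct, B', v] using hB i
  let G : ι → MvPolynomial ι S := fun r =>
    ∑ t ∈ Finset.range (L + 1), (X r : MvPolynomial ι S) ^ t * C (z r) ^ (L + 1 - 1 - t)
  have hG : ∀ r, G r * v r = X r ^ (L + 1) := by
    intro r
    have := geom_sum₂_mul (X r : MvPolynomial ι S) (C (z r)) (L + 1)
    simp only [G, v]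
    rw [this, ← C_pow, hz, C_0]; ring
  have hN1 : ((map φ).mapMatrix E * B') *ᵥ v = fun r => C 1 * X r ^ (L + 1) := by
    rw [← mulVec_mulVec, hBv]
    funext r
    have := congrArg (map φ) (congrFun hE r)
    simpa [mulVec, dotProduct] using this
  have hN2 : (diagonal G) *ᵥ v = fun r => C 1 * X r ^ (L + 1) := by
    funext r; rw [mulVec_diagonal, hG]; simp
  obtain ⟨β, hβ⟩ := Ideal.Quotient.mk_surjective (coeff 0 B'.det)
  refine ⟨β, fun g hg => ?_⟩
  have h1 := wd L 1 v _ _ hN1 hN2 (map φ g)
  rw [one_mul, one_mul, det_mul, ← RingHom.map_det, ← mul_assoc, ← map_mul,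
    coeff_mul_homog _ _ _ (hg.map φ), coeff_map, det_diagonal] at h1
  have h2 : coeff (T ι L) (map φ g * ∏ r, G r) = eval z (map φ g) := by
    obtain ⟨c, hc⟩ := Ideal.mem_span_range_iff_exists_fun.1 (sub_C_aeval_mem z (map φ g))
    have : map φ g = C (eval z (map φ g)) + ∑ j, c j * v j := by
      simp only [v]; rw [hc]; ring
    conv_lhs => rw [this]
    rw [add_mul, coeff_add, coeff_C_mul, geom_coeff, mul_one, Finset.sum_mul, coeff_sum,
      Finset.sum_eq_zero, add_zero]
    intro j _
    rw [← Finset.mul_prod_erase Finset.univ G (Finset.mem_univ j)]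
    have : c j * v j * (G j * ∏ x ∈ Finset.univ.erase j, G x)
        = (c j * ∏ x ∈ Finset.univ.erase j, G x) * X j ^ (L + 1) := by
      rw [← hG]; ring
    rw [this]
    exact coeff_mul_X_pow_zero _ _ _ (by simp) _
  rw [← Ideal.Quotient.eq_zero_iff_mem, map_sub, map_mul, hβ, ← hev, ← h2, ← h1]
  exact sub_self _

attribute [local instance] MvPolynomial.gradedAlgebra in
omit [Fintype ι] in
lemma comp_mul (m e : ℕ) (x F : MvPolynomial ι R) (hF : F.IsHomogeneous e) :
    homogeneousComponent (m + e) (x * F) = homogeneousComponent m x * F := by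
  have := DirectSum.coe_decompose_mul_add_of_right_mem (homogeneousSubmodule ι R)
    (a := x) (b := F) (i := m) (j := e) hF
  rw [← decomposition.decompose'_apply, ← decomposition.decompose'_apply]
  exact this

lemma det_homog (m : ℕ) (E : Matrix ι ι (MvPolynomial ι R)) (hE : ∀ i j, (E i j).IsHomogeneous m) :
    E.det.IsHomogeneous (Fintype.card ι * m) := by
  rw [det_apply]
  refine IsHomogeneous.sum _ _ _ fun σ _ => ?_
  have := IsHomogeneous.prod Finset.univ (fun i => E (σ i) i) (fun _ => m) fun i _ => hE _ _
  simp only [Finset.sum_const, Finset.card_univ, smul_eq_mul] at this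
  rcases Int.units_eq_one_or (Equiv.Perm.sign σ) with h | h
  · rw [h, one_smul]; exact this
  · rw [h, Units.neg_smul, one_smul]; exact this.neg

lemma homog_matrix (L e : ℕ) (he : e ≤ L + 1) (u : R) (F : ι → MvPolynomial ι R)
    (hF : ∀ j, (F j).IsHomogeneous e) (E : Matrix ι ι (MvPolynomial ι R))
    (hE : E *ᵥ F = fun r => C u * X r ^ (L + 1)) :
    ∃ E' : Matrix ι ι (MvPolynomial ι R), (E' *ᵥ F = fun r => C u * X r ^ (L + 1)) ∧
      ∀ i j, (E' i j).IsHomogeneous (L + 1 - e) := by
  refine ⟨Matrix.of fun i j => homogeneousComponent (L + 1 - e) (E i j), ?_,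
    fun i j => homogeneousComponent_isHomogeneous _ _⟩
  funext r
  have := congrArg (homogeneousComponent (L + 1 - e + e)) (congrFun hE r)
  simp only [mulVec, dotProduct, map_sum] at this
  simp only [mulVec, dotProduct, of_apply]
  rw [Finset.sum_congr rfl fun j _ => (comp_mul _ e _ _ (hF j)).symm, this,
    Nat.sub_add_cancel he]
  exact homogeneousComponent_eq_self (isHomogeneous_C_mul_X_pow _ _ _)

end H60.AF
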