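import Mathlib

/-! Combinatorial data for Davie's Banach space without the approximation property. -/

namespace H60.AP
open Finset

theorem choice_small {P J C : Type} [Fintype P] [Fintype J] [Fintype C] [Nonempty C]
    [DecidableEq J] (X : P → J → C → ℝ) (K t L : ℝ) (ht : 0 < t) (hK : t * K ≤ 1)
    (hL : 2 * (Fintype.card P : ℝ) ≤ Real.exp L)
    (h0 : ∀ p j, ∑ c, X p j c = 0) (hb : ∀ p j c, |X p j c| ≤ K) :
    ∃ c : J → C, ∀ p, |∑ j, X p j (c j)| ≤ L / t + t * K ^ 2 * Fintype.card J := by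
  classical
  have key : ∀ (s : ℝ), |s| = t → ∀ p, ∑ c : J → C, Real.exp (s * ∑ j, X p j (c j)) ≤
      ∑ _c : J → C, Real.exp (t ^ 2 * K ^ 2 * Fintype.card J) := by
    intro s hs p
    have h1 : ∑ c : J → C, Real.exp (s * ∑ j, X p j (c j)) =
        ∏ j, ∑ c, Real.exp (s * X p j c) := by
      rw [Finset.prod_univ_sum]
      simp only [Fintype.piFinset_univ]
      refine Finset.sum_congr rfl fun c _ => ?_
      rw [Finset.mul_sum, Real.exp_sum]
    have h2 : ∀ j, ∑ c, Real.exp (s * X p j c) ≤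
        Fintype.card C * Real.exp (t ^ 2 * K ^ 2) := by
      intro j
      have : ∀ c, Real.exp (s * X p j c) ≤ 1 + s * X p j c + t ^ 2 * K ^ 2 := by
        intro c
        have hle : |s * X p j c| ≤ t * K := by
          rw [abs_mul, hs]; exact mul_le_mul_of_nonneg_left (hb p j c) ht.le
        have h3 := Real.abs_exp_sub_one_sub_id_le (hle.trans hK)
        have h4 : (s * X p j c) ^ 2 ≤ (t * K) ^ 2 := by
          rw [← sq_abs]; exact pow_le_pow_left₀ (abs_nonneg _) hle 2
        have := (abs_le.1 h3).2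
        nlinarith
      calc ∑ c, Real.exp (s * X p j c) ≤ ∑ c, (1 + s * X p j c + t ^ 2 * K ^ 2) :=
            Finset.sum_le_sum fun c _ => this c
        _ = Fintype.card C * (t ^ 2 * K ^ 2 + 1) := by
            rw [Finset.sum_add_distrib, Finset.sum_add_distrib, ← Finset.mul_sum, h0]
            simp; ring
        _ ≤ _ := mul_le_mul_of_nonneg_left (Real.add_one_le_exp _) (by positivity)
    rw [h1]
    calc ∏ j, ∑ c, Real.exp (s * X p j c)
        ≤ ∏ _j : J, (Fintype.card C * Real.exp (t ^ 2 * K ^ 2)) :=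
          Finset.prod_le_prod (fun j _ => Finset.sum_nonneg fun c _ => (Real.exp_pos _).le)
            fun j _ => h2 j
      _ = _ := by
          simp only [Finset.prod_const, Finset.card_univ, Finset.sum_const, Fintype.card_fun,
            nsmul_eq_mul, mul_pow]
          rw [← Real.exp_nat_mul]; push_cast; ring_nf
  set E := Real.exp (t ^ 2 * K ^ 2 * Fintype.card J) with hE
  have hsum : ∑ c : J → C, (∑ p, (Real.exp (t * ∑ j, X p j (c j)) +
      Real.exp (-t * ∑ j, X p j (c j)))) ≤ ∑ _c : J → C, Real.exp L * E := by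
    rw [Finset.sum_comm]
    calc _ ≤ ∑ _p : P, (∑ _c : J → C, E + ∑ _c : J → C, E) := by
          refine Finset.sum_le_sum fun p _ => ?_
          rw [Finset.sum_add_distrib]
          exact add_le_add (key t (abs_of_pos ht) p) (key (-t) (by rw [abs_neg, abs_of_pos ht]) p)
      _ = ∑ _c : J → C, (2 * (Fintype.card P : ℝ)) * E := by
          simp only [Finset.sum_const, Finset.card_univ, nsmul_eq_mul]; ring
      _ ≤ _ := Finset.sum_le_sum fun c _ =>
          mul_le_mul_of_nonneg_right hL (Real.exp_pos _).le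
  obtain ⟨c, -, hc⟩ := Finset.exists_le_of_sum_le Finset.univ_nonempty hsum
  refine ⟨c, fun p => ?_⟩
  have h5 : Real.exp (t * |∑ j, X p j (c j)|) ≤ Real.exp L * E := by
    refine le_trans ?_ hc
    refine le_trans ?_ (Finset.single_le_sum (f := fun p => Real.exp (t * ∑ j, X p j (c j)) +
      Real.exp (-t * ∑ j, X p j (c j))) (fun q _ => by positivity) (Finset.mem_univ p))
    rcases abs_cases (∑ j, X p j (c j)) with h | h
    · rw [h.1]; linarith [Real.exp_pos (-t * ∑ j, X p j (c j))]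
    · rw [h.1, mul_neg, ← neg_mul]; linarith [Real.exp_pos (t * ∑ j, X p j (c j))]
  rw [hE, ← Real.exp_add, Real.exp_le_exp] at h5
  rw [div_add' _ _ _ ht.ne', le_div_iff₀ ht]
  nlinarith

/-- binary words of length `k` -/
def J : ℕ → Type
  | 0 => Unit
  | k + 1 => Bool × J k

instance instF : ∀ k, Fintype (J k)
  | 0 => inferInstanceAs (Fintype Unit)
  | k + 1 => haveI := instF k; inferInstanceAs (Fintype (Bool × J k))

instance instD : ∀ k, DecidableEq (J k)
  | 0 => inferInstanceAs (DecidableEq Unit)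
  | k + 1 => haveI := instD k; inferInstanceAs (DecidableEq (Bool × J k))

theorem card_J : ∀ k, Fintype.card (J k) = 2 ^ k
  | 0 => rfl
  | k + 1 => by
    have : Fintype.card (J (k + 1)) = Fintype.card (Bool × J k) := Fintype.card_congr (Equiv.refl _)
    rw [this, Fintype.card_prod, card_J k, Fintype.card_bool, pow_succ, mul_comm]

theorem sum_J (k : ℕ) (f : J (k + 1) → ℝ) :
    ∑ x, f x = ∑ y : J k, (f (true, y) + f (false, y)) := by
  have : ∑ x, f x = ∑ x : Bool × J k, (fun x : Bool × J k => f x) x := rfl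
  refine this.trans ?_
  rw [Fintype.sum_prod_type, Fintype.sum_bool, ← Finset.sum_add_distrib]

/-- Sylvester–Hadamard matrices -/
def w : ∀ k, J k → J k → ℝ
  | 0, _, _ => 1
  | k + 1, a, g => (if a.1 && g.1 then -1 else 1) * w k a.2 g.2

theorem w_sq : ∀ k (a g : J k), w k a g * w k a g = 1
  | 0, _, _ => by simp [w]
  | k + 1, a, g => by
    have := w_sq k a.2 g.2
    simp only [w]
    split_ifs <;> linarith

theorem w_orth : ∀ k (a b : J k), ∑ g, w k a g * w k b g = if a = b then 2 ^ k else 0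
  | 0, a, b => by
    have : a = b := Subsingleton.elim (α := Unit) _ _
    subst this
    simp [w, card_J]
  | k + 1, (a, x), (b, y) => by
    have ih := w_orth k x y
    rw [sum_J]
    have hab : (((a, x) : J (k + 1)) = (b, y)) ↔ a = b ∧ x = y := Prod.ext_iff (α := Bool) (β := J k)
    refine Eq.trans ?_ (if_congr hab rfl rfl).symm
    simp only [w]
    cases a <;> cases b
    · simp only [Bool.false_and, Bool.false_eq_true, if_false, one_mul, true_and]
      rw [Finset.sum_add_distrib, ih]; split_ifs <;> ring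
    · simp
    · simp
    · simp only [Bool.true_and, Bool.false_eq_true, if_false, if_true, one_mul, true_and]
      simp only [neg_mul, one_mul, mul_neg, neg_neg]
      rw [Finset.sum_add_distrib, ih]; split_ifs <;> ring

def emb (c : Fin 3) : Bool × Bool := ![(true, true), (true, false), (false, true)] c

theorem emb_inj : Function.Injective emb := by decide

/-- three orthogonal characters in each block -/
def ch (k : ℕ) (b : J k) (c : Fin 3) (g : J (k + 2)) : ℝ :=
  w (k + 2) (((emb c).1, (emb c).2, b) : Bool × Bool × J k) g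

theorem ch_sq (k : ℕ) (b : J k) (c : Fin 3) (g : J (k + 2)) : ch k b c g * ch k b c g = 1 :=
  w_sq _ _ _

theorem abs_of_sq {x : ℝ} (h : x * x = 1) : |x| = 1 := by
  rcases mul_self_eq_one_iff.1 h with h | h <;> simp [h]

theorem ch_abs (k : ℕ) (b : J k) (c : Fin 3) (g : J (k + 2)) : |ch k b c g| = 1 :=
  abs_of_sq (ch_sq k b c g)

theorem ch_orth (k : ℕ) (b b' : J k) (c c' : Fin 3) :
    ∑ g, ch k b c g * ch k b' c' g = if b = b' ∧ c = c' then 2 ^ (k + 2) else 0 := by
  refine (w_orth (k + 2) _ _).trans ?_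
  congr 1
  apply propext
  constructor
  · intro h
    have h' : (((emb c).1, (emb c).2, b) : Bool × Bool × J k) = ((emb c').1, (emb c').2, b') := h
    simp only [Prod.mk.injEq] at h'
    exact ⟨h'.2.2, emb_inj (Prod.ext h'.1 h'.2.1)⟩
  · rintro ⟨rfl, rfl⟩; rfl

/-- the error bound -/
noncomputable def dl (k : ℕ) : ℝ := (8 * k + 28) * (3 / 4) ^ k

theorem bound_aux (k : ℕ) (n : ℝ) (hn : n ≤ 2 ^ (k + 1)) :
    (2 * k + 6) / ((2 / 3) ^ k / 4) + ((2 / 3) ^ k / 4) * 4 ^ 2 * n ≤ 2 ^ (k + 1) * dl k := by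
  have h1 : ((2:ℝ) / 3) ^ k * (3 / 2) ^ k = 1 := by rw [← mul_pow]; norm_num
  have h2 : (2:ℝ) ^ k * (3 / 4) ^ k = (3 / 2) ^ k := by rw [← mul_pow]; norm_num
  have h3 : ((2:ℝ) / 3) ^ k * 2 ^ k ≤ (3 / 2) ^ k := by
    rw [← mul_pow]; exact pow_le_pow_left₀ (by norm_num) (by norm_num) k
  have hp : (0:ℝ) < (2 / 3) ^ k := by positivity
  have h4 : (2 * (k:ℝ) + 6) / ((2 / 3) ^ k / 4) = (8 * k + 24) * (3 / 2) ^ k := by
    rw [div_eq_iff (by positivity)]
    linear_combination (-(2 * (k:ℝ) + 6)) * h1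
  have h5 : ((2:ℝ) / 3) ^ k / 4 * 4 ^ 2 * n ≤ 8 * (3 / 2) ^ k := by
    have : ((2:ℝ) / 3) ^ k * n ≤ (2 / 3) ^ k * 2 ^ (k + 1) := mul_le_mul_of_nonneg_left hn hp.le
    rw [pow_succ] at this
    nlinarith
  have h6 : (2:ℝ) ^ (k + 1) * dl k = (16 * k + 56) * (3 / 2) ^ k := by
    rw [dl, pow_succ, ← h2]; ring
  rw [h4, h6]
  have : (0:ℝ) ≤ (3 / 2) ^ k := by positivity
  have : (0:ℝ) ≤ k * (3 / 2) ^ k := by positivity
  nlinarith

theorem card_aux (k : ℕ) (n : ℕ) (hn : n ≤ 2 ^ (k + 2) * 2 ^ (k + 3)) :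
    2 * (n : ℝ) ≤ Real.exp (2 * k + 6) := by
  have h1 : (n : ℝ) ≤ 2 ^ (k + 2) * 2 ^ (k + 3) := by exact_mod_cast hn
  have h2 : (2:ℝ) ≤ Real.exp 1 := by have := Real.add_one_le_exp (1:ℝ); linarith
  have h3 : Real.exp (2 * k + 6) = Real.exp 1 ^ (2 * k + 6) := by
    rw [← Real.exp_nat_mul]; push_cast; ring_nf
  rw [h3]
  calc 2 * (n:ℝ) ≤ 2 * (2 ^ (k + 2) * 2 ^ (k + 3)) := by linarith
    _ = 2 ^ (2 * k + 6) := by ring
    _ ≤ _ := pow_le_pow_left₀ (by norm_num) h2 _

theorem small_t (k : ℕ) : ((2:ℝ) / 3) ^ k / 4 * 4 ≤ 1 := by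
  have : ((2:ℝ) / 3) ^ k ≤ 1 := pow_le_one₀ (by norm_num) (by norm_num)
  linarith

/-- Davie's data -/
structure Data where
  σ : ∀ k, J k → J (k + 2) → ℝ
  τ : ∀ k, J (k + 1) → J (k + 2) → ℝ
  σa : ∀ k j g, |σ k j g| = 1
  τa : ∀ k j g, |τ k j g| = 1
  σσ : ∀ k i j, ∑ g, σ k i g * σ k j g = if i = j then 2 ^ (k + 2) else 0
  ττ : ∀ k i j, ∑ g, τ k i g * τ k j g = if i = j then 2 ^ (k + 2) else 0
  στ : ∀ k i j, ∑ g, σ k i g * τ k j g = 0
  ha : ∀ k g h, |∑ j, τ k j g * τ k j h - 2 * ∑ j, σ k j g * σ k j h| ≤ 2 ^ (k + 1) * dl k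
  hb : ∀ k g h, |∑ j, τ k j g * σ (k + 1) j h| ≤ 2 ^ (k + 1) * dl k

def sh (i : Bool) : Fin 3 := if i then 1 else 2

theorem exists_data : Nonempty Data := by
  have hA : ∀ k, ∃ c : J k → Fin 3, ∀ p : J (k + 2) × J (k + 2),
      |∑ j, (ch k j (c j + 1) p.1 * ch k j (c j + 1) p.2 +
        ch k j (c j + 2) p.1 * ch k j (c j + 2) p.2 - 2 * (ch k j (c j) p.1 * ch k j (c j) p.2))|
        ≤ 2 ^ (k + 1) * dl k := by
    intro k
    obtain ⟨c, hc⟩ := choice_small (P := J (k + 2) × J (k + 2)) (J := J k) (C := Fin 3)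
      (fun p j c => ch k j (c + 1) p.1 * ch k j (c + 1) p.2 +
        ch k j (c + 2) p.1 * ch k j (c + 2) p.2 - 2 * (ch k j c p.1 * ch k j c p.2)) 4
      ((2 / 3) ^ k / 4) (2 * k + 6) (by positivity) (small_t k)
      (card_aux k _ (by
        rw [Fintype.card_prod, card_J]
        exact Nat.mul_le_mul_left _ (Nat.pow_le_pow_right (by norm_num) (by omega))))
      (fun p j => by
        rw [Fin.sum_univ_three]
        have e1 : (0 : Fin 3) + 1 = 1 := rfl
        have e2 : (0 : Fin 3) + 2 = 2 := rfl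
        have e3 : (1 : Fin 3) + 1 = 2 := rfl
        have e4 : (1 : Fin 3) + 2 = 0 := rfl
        have e5 : (2 : Fin 3) + 1 = 0 := rfl
        have e6 : (2 : Fin 3) + 2 = 1 := rfl
        rw [e1, e2, e3, e4, e5, e6]; ring)
      (fun p j c => by
        have h : ∀ d, |ch k j d p.1 * ch k j d p.2| = 1 := fun d => by
          rw [abs_mul, ch_abs, ch_abs, one_mul]
        have h1 := abs_le.1 (h c).le
        have h2 := abs_le.1 (h (c + 1)).le
        have h3 := abs_le.1 (h (c + 2)).le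
        rw [abs_le]; constructor <;> linarith [h1.1, h1.2, h2.1, h2.2, h3.1, h3.2])
    refine ⟨c, fun p => (hc p).trans (bound_aux k _ ?_)⟩
    rw [card_J]; push_cast
    exact pow_le_pow_right₀ (by norm_num) (by omega)
  choose c hc using hA
  let τ : ∀ k, J (k + 1) → J (k + 2) → ℝ := fun k j g => ch k j.2 (c k j.2 + sh j.1) g
  have hB : ∀ k, ∃ e : J (k + 1) → Bool, ∀ p : J (k + 2) × J (k + 3),
      |∑ j, (if e j then 1 else -1) * (τ k j p.1 * ch (k + 1) j (c (k + 1) j) p.2)|
        ≤ 2 ^ (k + 1) * dl k := by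
    intro k
    obtain ⟨e, he⟩ := choice_small (P := J (k + 2) × J (k + 3)) (J := J (k + 1)) (C := Bool)
      (fun p j e => (if e then 1 else -1) * (τ k j p.1 * ch (k + 1) j (c (k + 1) j) p.2)) 4
      ((2 / 3) ^ k / 4) (2 * k + 6) (by positivity) (small_t k)
      (card_aux k _ (by rw [Fintype.card_prod, card_J, card_J]))
      (fun p j => by simp)
      (fun p j e => by
        rw [abs_mul, abs_mul, ch_abs, ch_abs]
        split_ifs <;> norm_num)
    refine ⟨e, fun p => (he p).trans (bound_aux k _ ?_)⟩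
    rw [card_J]; push_cast; exact le_rfl
  choose e he using hB
  let ε : ∀ k, J k → ℝ := fun k => match k with
    | 0 => fun _ => 1
    | k + 1 => fun j => if e k j then 1 else -1
  have hε : ∀ k j, ε k j * ε k j = 1 := by
    intro k j
    cases k with
    | zero => simp [ε]
    | succ k => simp only [ε]; split_ifs <;> norm_num
  have hsh : ∀ (d : Fin 3) (i : Bool), d ≠ d + sh i := by decide
  have hsh2 : ∀ (d : Fin 3) (i i' : Bool), d + sh i = d + sh i' ↔ i = i' := by decide
  refine ⟨⟨fun k j g => ε k j * ch k j (c k j) g, τ, ?_, ?_, ?_, ?_, ?_, ?_, ?_⟩⟩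
  · intro k j g; rw [abs_mul, ch_abs, abs_of_sq (hε k j), one_mul]
  · intro k j g; exact ch_abs _ _ _ _
  · intro k i j
    have : ∑ g, ε k i * ch k i (c k i) g * (ε k j * ch k j (c k j) g) =
        ε k i * ε k j * ∑ g, ch k i (c k i) g * ch k j (c k j) g := by
      rw [Finset.mul_sum]; exact Finset.sum_congr rfl fun g _ => by ring
    rw [this, ch_orth]
    by_cases h : i = j
    · subst h; simp [hε]
    · simp [h]
  · rintro k ⟨i, x⟩ ⟨j, y⟩
    simp only [τ]
    rw [ch_orth]
    congr 1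
    apply propext
    have hab : (((i, x) : J (k + 1)) = (j, y)) ↔ i = j ∧ x = y :=
      Prod.ext_iff (α := Bool) (β := J k)
    refine Iff.trans ?_ hab.symm
    constructor
    · rintro ⟨rfl, h⟩; exact ⟨(hsh2 _ _ _).1 h, rfl⟩
    · rintro ⟨rfl, rfl⟩; exact ⟨rfl, rfl⟩
  · intro k i j
    have : ∑ g, ε k i * ch k i (c k i) g * τ k j g =
        ε k i * ∑ g, ch k i (c k i) g * ch k j.2 (c k j.2 + sh j.1) g := by
      rw [Finset.mul_sum]; exact Finset.sum_congr rfl fun g _ => by simp only [τ]; ring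
    rw [this, ch_orth, if_neg, mul_zero]
    rintro ⟨rfl, h⟩
    exact hsh _ _ h
  · intro k g h
    refine le_of_eq_of_le ?_ (hc k (g, h))
    congr 1
    rw [sum_J, Finset.mul_sum, ← Finset.sum_sub_distrib]
    refine Finset.sum_congr rfl fun j _ => ?_
    simp only [τ, sh, if_true, Bool.false_eq_true, if_false]
    linear_combination (-2 * (ch k j (c k j) g * ch k j (c k j) h)) * hε k j
  · intro k g h
    refine le_of_eq_of_le ?_ (he k (g, h))
    congr 1
    refine Finset.sum_congr rfl fun j _ => ?_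
    simp only [ε]; ring

end H60.AP
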