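import Pool.Agent.H60.APa

/-! Davie's Banach space without the approximation property. -/

namespace H60.AP
open Finset Filter Topology
open scoped ENNReal

noncomputable section

variable (D : Data)

/-- real values of the generators -/
def er (k : ℕ) (j : J (k + 1)) : ∀ l, J (l + 2) → ℝ :=
  Pi.single (M := fun l => J (l + 2) → ℝ) k (D.τ k j) +
    Pi.single (M := fun l => J (l + 2) → ℝ) (k + 1) (D.σ (k + 1) j)

theorem er_self (k : ℕ) (j : J (k + 1)) : er D k j k = D.τ k j := by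
  simp [er]

theorem er_succ (k : ℕ) (j : J (k + 1)) : er D k j (k + 1) = D.σ (k + 1) j := by
  simp [er]

theorem er_ne (k : ℕ) (j : J (k + 1)) {l : ℕ} (h1 : l ≠ k) (h2 : l ≠ k + 1) : er D k j l = 0 := by
  simp [er, h1, h2]

theorem er_abs (k : ℕ) (j : J (k + 1)) (l : ℕ) (g : J (l + 2)) : |er D k j l g| ≤ 1 := by
  by_cases h1 : l = k
  · subst h1; rw [er_self, D.τa]
  by_cases h2 : l = k + 1
  · subst h2; rw [er_succ, D.σa]
  rw [er_ne D k j h1 h2]; simp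

theorem τ_er (k : ℕ) (j : J (k + 1)) (l : ℕ) (i : J (l + 1)) :
    (2 ^ (k + 2) : ℝ)⁻¹ * ∑ g, D.τ k j g * er D l i k g =
      (2 ^ (k + 1 + 2) : ℝ)⁻¹ * ∑ g, D.σ (k + 1) j g * er D l i (k + 1) g := by
  by_cases h1 : l = k
  · subst h1
    rw [er_self, er_succ, D.ττ, D.σσ]
    split_ifs
    · rw [inv_mul_cancel₀ (by positivity), inv_mul_cancel₀ (by positivity)]
    · simp
  by_cases h2 : k = l + 1
  · subst h2
    rw [er_succ, er_ne D l i (l := l + 1 + 1) (by omega) (by omega)]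
    have := D.στ (l + 1) i j
    simp only [mul_comm (D.σ _ _ _)] at this
    simp [this]
  by_cases h3 : l = k + 1
  · subst h3
    rw [er_self, er_ne D (k + 1) i (l := k) (by omega) (by omega), D.στ]
    simp
  rw [er_ne D l i (l := k) (by omega) (by omega), er_ne D l i (l := k + 1) (by omega) (by omega)]
  simp

variable (𝕜 : Type) [RCLike 𝕜]

/-- the ambient `ℓ^∞` space -/
abbrev Z := lp (fun l : ℕ => J (l + 2) → 𝕜) ∞

theorem mem_of_bound (f : ∀ l, J (l + 2) → 𝕜) (C : ℝ) (hC : 0 ≤ C) (h : ∀ l g, ‖f l g‖ ≤ C) :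
    Memℓp f ∞ :=
  memℓp_infty ⟨C, by
    rintro _ ⟨l, rfl⟩
    exact (pi_norm_le_iff_of_nonneg hC).2 (h l)⟩

def e (k : ℕ) (j : J (k + 1)) : Z 𝕜 :=
  ⟨fun l g => (er D k j l g : 𝕜), mem_of_bound 𝕜 _ 1 zero_le_one fun l g => by
    rw [RCLike.norm_ofReal]; exact er_abs D k j l g⟩

theorem e_apply (k : ℕ) (j : J (k + 1)) (l : ℕ) (g : J (l + 2)) :
    e D 𝕜 k j l g = (er D k j l g : 𝕜) := rfl

variable {𝕜}

theorem norm_le_of (f : Z 𝕜) (C : ℝ) (hC : 0 ≤ C) (h : ∀ l g, ‖f l g‖ ≤ C) : ‖f‖ ≤ C :=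
  lp.norm_le_of_forall_le hC fun l => (pi_norm_le_iff_of_nonneg hC).2 (h l)

theorem apply_le (f : Z 𝕜) (l : ℕ) (g : J (l + 2)) : ‖f l g‖ ≤ ‖f‖ :=
  (norm_le_pi_norm (f l) g).trans (lp.norm_apply_le_norm (by simp) f l)

theorem e_norm (k : ℕ) (j : J (k + 1)) : ‖e D 𝕜 k j‖ ≤ 1 :=
  norm_le_of _ 1 zero_le_one fun l g => by
    rw [e_apply, RCLike.norm_ofReal]; exact er_abs D k j l g

variable (𝕜) in
/-- point evaluation -/
def ev (l : ℕ) (g : J (l + 2)) : Z 𝕜 →L[𝕜] 𝕜 :=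
  LinearMap.mkContinuous
    { toFun := fun f => f l g
      map_add' := fun _ _ => rfl
      map_smul' := fun _ _ => rfl } 1 fun f => by rw [one_mul]; exact apply_le f l g

theorem ev_apply (l : ℕ) (g : J (l + 2)) (f : Z 𝕜) : ev 𝕜 l g f = f l g := rfl

variable (𝕜) in
/-- averaging functionals -/
def fn (l : ℕ) (v : J (l + 2) → ℝ) : Z 𝕜 →L[𝕜] 𝕜 :=
  ((2 ^ (l + 2) : 𝕜)⁻¹) • ∑ g, (v g : 𝕜) • ev 𝕜 l g

theorem fn_apply (l : ℕ) (v : J (l + 2) → ℝ) (f : Z 𝕜) :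
    fn 𝕜 l v f = (2 ^ (l + 2) : 𝕜)⁻¹ * ∑ g, (v g : 𝕜) * f l g := by
  simp [fn, ev_apply]

theorem avg_le {ι : Type} [Fintype ι] (n : ℕ) (hn : Fintype.card ι = 2 ^ n) (a : ι → 𝕜) (C : ℝ)
    (h : ∀ i, ‖a i‖ ≤ C) : ‖(2 ^ n : 𝕜)⁻¹ * ∑ i, a i‖ ≤ C := by
  have h1 : ‖∑ i, a i‖ ≤ 2 ^ n * C := by
    refine (norm_sum_le _ _).trans ((Finset.sum_le_sum fun i _ => h i).trans ?_)
    simp [hn]
  rw [norm_mul, norm_inv, norm_pow, RCLike.norm_two, inv_mul_le_iff₀ (by positivity)]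
  exact h1

theorem fn_le (l : ℕ) (v : J (l + 2) → ℝ) (hv : ∀ g, |v g| = 1) (f : Z 𝕜) :
    ‖fn 𝕜 l v f‖ ≤ ‖f‖ := by
  rw [fn_apply]
  refine avg_le _ (card_J _) _ _ fun g => ?_
  rw [norm_mul, RCLike.norm_ofReal, hv, one_mul]
  exact apply_le f l g

theorem fn_e (l : ℕ) (v : J (l + 2) → ℝ) (k : ℕ) (j : J (k + 1)) :
    fn 𝕜 l v (e D 𝕜 k j) = (((2 ^ (l + 2) : ℝ)⁻¹ * ∑ g, v g * er D k j l g : ℝ) : 𝕜) := by
  rw [fn_apply]; simp only [e_apply]; push_cast; rfl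

variable (𝕜) in
def E0 : Submodule 𝕜 (Z 𝕜) := Submodule.span 𝕜 (Set.range fun p : Σ k, J (k + 1) => e D 𝕜 p.1 p.2)

variable (𝕜) in
/-- Davie's space -/
def E : Submodule 𝕜 (Z 𝕜) := (E0 D 𝕜).topologicalClosure

instance : CompleteSpace (E D 𝕜) := (Submodule.isClosed_topologicalClosure _).completeSpace_coe

variable (𝕜) in
def e' (k : ℕ) (j : J (k + 1)) : E D 𝕜 :=
  ⟨e D 𝕜 k j, Submodule.le_topologicalClosure _ (Submodule.subset_span ⟨⟨k, j⟩, rfl⟩)⟩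

theorem fn_eq (k : ℕ) (j : J (k + 1)) (y : E D 𝕜) :
    fn 𝕜 k (D.τ k j) y = fn 𝕜 (k + 1) (D.σ (k + 1) j) y := by
  have h : E D 𝕜 ≤ LinearMap.ker (fn 𝕜 k (D.τ k j) - fn 𝕜 (k + 1) (D.σ (k + 1) j)).toLinearMap := by
    refine Submodule.topologicalClosure_minimal _ ?_ (ContinuousLinearMap.isClosed_ker _)
    refine Submodule.span_le.2 ?_
    rintro _ ⟨⟨l, i⟩, rfl⟩
    simp only [SetLike.mem_coe, LinearMap.mem_ker, ContinuousLinearMap.coe_coe,
      _root_.sub_apply]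
    rw [fn_e, fn_e, τ_er, sub_self]
  have := h y.2
  simp only [LinearMap.mem_ker, ContinuousLinearMap.coe_coe, _root_.sub_apply] at this
  exact sub_eq_zero.1 this

/-- the trace functionals -/
def β (k : ℕ) (T : E D 𝕜 →L[𝕜] E D 𝕜) : 𝕜 :=
  (2 ^ (k + 1) : 𝕜)⁻¹ * ∑ j, fn 𝕜 k (D.τ k j) (T (e' D 𝕜 k j))

variable (𝕜) in
def φ (k : ℕ) (g : J (k + 1 + 2)) : E D 𝕜 :=
  (2 ^ (k + 2) : 𝕜)⁻¹ • (∑ j, (D.τ (k + 1) j g : 𝕜) • e' D 𝕜 (k + 1) j -
    (2 : 𝕜) • ∑ j, (D.σ (k + 1) j g : 𝕜) • e' D 𝕜 k j)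

theorem β_sub (k : ℕ) (T : E D 𝕜 →L[𝕜] E D 𝕜) :
    β D (k + 1) T - β D k T =
      (2 ^ (k + 1 + 2) : 𝕜)⁻¹ * ∑ g, ev 𝕜 (k + 1) g (T (φ D 𝕜 k g)) := by
  have h1 : β D k T = (2 ^ (k + 1) : 𝕜)⁻¹ *
      ∑ j, fn 𝕜 (k + 1) (D.σ (k + 1) j) (T (e' D 𝕜 k j)) := by
    simp only [β, fn_eq]
  rw [h1, β]
  simp only [fn_apply, φ, map_smul, map_sub, map_sum, Submodule.coe_smul, Submodule.coe_sub,
    Submodule.coe_sum, smul_eq_mul, ev_apply]
  simp only [← Finset.mul_sum, Finset.sum_sub_distrib]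
  rw [Finset.sum_comm (f := fun j g => (D.τ (k + 1) j g : 𝕜) * _),
    Finset.sum_comm (f := fun j g => (D.σ (k + 1) j g : 𝕜) * _)]
  have : (2 : 𝕜) ≠ 0 := two_ne_zero
  field_simp
  ring

theorem dl_nonneg (k : ℕ) : 0 ≤ dl k := by unfold dl; positivity

theorem φ_norm (k : ℕ) (g : J (k + 1 + 2)) : ‖φ D 𝕜 k g‖ ≤ dl k + dl (k + 1) := by
  have hd := dl_nonneg k
  have hd' := dl_nonneg (k + 1)
  refine norm_le_of (φ D 𝕜 k g : Z 𝕜) _ (by positivity) fun l h => ?_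
  have h1 : (φ D 𝕜 k g : Z 𝕜) l h = (((2 ^ (k + 2) : ℝ)⁻¹ *
      (∑ j, D.τ (k + 1) j g * er D (k + 1) j l h -
        2 * ∑ j, D.σ (k + 1) j g * er D k j l h) : ℝ) : 𝕜) := by
    rw [← ev_apply]
    simp only [φ, map_smul, map_sub, map_sum, Submodule.coe_smul, Submodule.coe_sub,
      Submodule.coe_sum, smul_eq_mul, ev_apply, e', e_apply]
    push_cast
    rfl
  rw [h1, RCLike.norm_ofReal, abs_mul, abs_inv, abs_of_pos (by positivity : (0:ℝ) < 2 ^ (k + 2)),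
    inv_mul_le_iff₀ (by positivity)]
  have p1 : (0:ℝ) ≤ 2 ^ (k + 2) * dl k := by positivity
  have p2 : (0:ℝ) ≤ 2 ^ (k + 2) * dl (k + 1) := by positivity
  by_cases c1 : l = k
  · subst c1
    simp only [er_self, er_ne D (l + 1) _ (l := l) (by omega) (by omega), Pi.zero_apply, mul_zero,
      Finset.sum_const_zero, zero_sub, abs_neg, abs_mul, abs_two]
    have := D.hb l h g
    simp only [mul_comm (D.τ _ _ _)] at this
    have e : (2:ℝ) ^ (l + 2) = 2 * 2 ^ (l + 1) := by ring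
    nlinarith
  by_cases c2 : l = k + 1
  · subst c2
    simp only [er_self, er_succ]
    have := D.ha (k + 1) g h
    linarith
  by_cases c3 : l = k + 1 + 1
  · subst c3
    simp only [er_succ, er_ne D k _ (l := k + 1 + 1) (by omega) (by omega), Pi.zero_apply,
      mul_zero, Finset.sum_const_zero, sub_zero]
    have := D.hb (k + 1) g h
    linarith
  simp only [er_ne D k _ c1 c2, er_ne D (k + 1) _ c2 c3, Pi.zero_apply, mul_zero,
    Finset.sum_const_zero, sub_zero, abs_zero]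
  positivity

theorem β_one (k : ℕ) : β D k (1 : E D 𝕜 →L[𝕜] E D 𝕜) = 1 := by
  have : ∀ j, fn 𝕜 k (D.τ k j) (e' D 𝕜 k j) = 1 := by
    intro j
    have := fn_e (𝕜 := 𝕜) D k (D.τ k j) k j
    rw [er_self, D.ττ, if_pos rfl, inv_mul_cancel₀ (by positivity)] at this
    exact this.trans (by simp)
  simp only [β, one_apply_eq_self, this, Finset.sum_const, Finset.card_univ, card_J]
  simp

theorem β_rank_one (ψ : E D 𝕜 →L[𝕜] 𝕜) (y : E D 𝕜) :
    Tendsto (fun k => (2 ^ (k + 1) : 𝕜)⁻¹ * ∑ j, ψ (e' D 𝕜 k j) * fn 𝕜 k (D.τ k j) y) atTop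
      (𝓝 0) := by
  have hb : ∀ k (z : Z 𝕜), ‖(2 ^ (k + 1) : 𝕜)⁻¹ * ∑ j, ψ (e' D 𝕜 k j) * fn 𝕜 k (D.τ k j) z‖ ≤
      ‖ψ‖ * ‖z‖ := by
    intro k z
    refine avg_le _ (card_J _) _ _ fun j => ?_
    rw [norm_mul]
    refine mul_le_mul ?_ (fn_le _ _ (D.τa k j) z) (norm_nonneg _) ψ.opNorm_nonneg
    refine (ψ.le_opNorm _).trans ?_
    have : ‖e' D 𝕜 k j‖ ≤ 1 := e_norm D k j
    nlinarith [ψ.opNorm_nonneg]
  have h0 : ∀ z ∈ E0 D 𝕜, ∀ᶠ k in atTop, ∀ j, fn 𝕜 k (D.τ k j) z = 0 := by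
    intro z hz
    induction hz using Submodule.span_induction with
    | mem x hx =>
      obtain ⟨⟨l, i⟩, rfl⟩ := hx
      filter_upwards [eventually_ge_atTop (l + 2)] with k hk j
      rw [fn_e, er_ne D l i (by omega) (by omega)]; simp
    | zero => simp
    | add x y _ _ hx hy =>
      filter_upwards [hx, hy] with k h1 h2 j
      rw [map_add, h1, h2, add_zero]
    | smul a x _ hx =>
      filter_upwards [hx] with k h1 j
      rw [map_smul, h1, smul_zero]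
  rw [NormedAddGroup.tendsto_nhds_zero]
  intro ε hε
  have hy : (y : Z 𝕜) ∈ closure (E0 D 𝕜 : Set (Z 𝕜)) := y.2
  obtain ⟨z, hz, hd⟩ := Metric.mem_closure_iff.1 hy (ε / (‖ψ‖ + 1)) (by positivity)
  filter_upwards [h0 z hz] with k hk
  have : ∀ j, fn 𝕜 k (D.τ k j) y = fn 𝕜 k (D.τ k j) (y - z) := fun j => by
    rw [map_sub, hk, sub_zero]
  simp only [this]
  refine (hb k _).trans_lt ?_
  rw [dist_eq_norm, lt_div_iff₀ (by positivity)] at hd
  nlinarith [norm_nonneg ((y : Z 𝕜) - z)]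

theorem β_finite (T : E D 𝕜 →L[𝕜] E D 𝕜)
    (hT : FiniteDimensional 𝕜 (LinearMap.range T.toLinearMap)) :
    Tendsto (fun k => β D k T) atTop (𝓝 0) := by
  let b := Module.finBasis 𝕜 (LinearMap.range T.toLinearMap)
  let T' : E D 𝕜 →L[𝕜] LinearMap.range T.toLinearMap :=
    T.codRestrict _ fun x => LinearMap.mem_range_self _ x
  let ψ := fun i => (LinearMap.toContinuousLinearMap (b.coord i)).comp T'
  have hx : ∀ x, T x = ∑ i, ψ i x • (b i : E D 𝕜) := by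
    intro x
    have := congrArg Subtype.val (b.sum_repr (T' x))
    simp only [Submodule.coe_sum, Submodule.coe_smul] at this
    exact this.symm
  have h1 : ∀ k, β D k T = ∑ i, (2 ^ (k + 1) : 𝕜)⁻¹ *
      ∑ j, ψ i (e' D 𝕜 k j) * fn 𝕜 k (D.τ k j) (b i : E D 𝕜) := by
    intro k
    rw [← Finset.mul_sum, Finset.sum_comm, β]
    simp only [hx, Submodule.coe_sum, Submodule.coe_smul, map_sum, map_smul, smul_eq_mul]
  simp only [h1]
  simpa using tendsto_finsetSum Finset.univ fun i _ => β_rank_one D (ψ i) (b i)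

theorem dl_tendsto : Tendsto (fun k => (dl k + dl (k + 1)) / (7 / 8) ^ k) atTop (𝓝 0) := by
  have h1 := tendsto_pow_const_mul_const_pow_of_abs_lt_one 1 (r := (6:ℝ) / 7)
    (by rw [abs_of_pos] <;> norm_num)
  have h2 := tendsto_pow_atTop_nhds_zero_of_lt_one (r := (6:ℝ) / 7) (by norm_num) (by norm_num)
  have := (h1.const_mul 14).add (h2.const_mul 55)
  simp only [mul_zero, add_zero] at this
  refine this.congr fun k => ?_
  have h3 : ((3:ℝ) / 4) ^ k = (6 / 7) ^ k * (7 / 8) ^ k := by rw [← mul_pow]; norm_num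
  rw [eq_div_iff (by positivity), dl, dl, pow_succ (3 / 4 : ℝ), h3]
  push_cast; ring

/-- Davie's space fails the approximation property -/
theorem not_AP : ∃ K : Set (E D 𝕜), IsCompact K ∧ ∀ T : E D 𝕜 →L[𝕜] E D 𝕜,
    FiniteDimensional 𝕜 (LinearMap.range T.toLinearMap) → ∃ x ∈ K, 1 / 10 < ‖T x - x‖ := by
  let x : (Σ k, J (k + 1 + 2)) → E D 𝕜 := fun p => (((8 / 7) ^ p.1 : ℝ) : 𝕜) • φ D 𝕜 p.1 p.2
  have hx : Tendsto x cofinite (𝓝 0) := by
    have h1 : Tendsto (fun p : Σ k, J (k + 1 + 2) => p.1) cofinite atTop := by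
      rw [← Nat.cofinite_eq_atTop]
      refine Filter.Tendsto.cofinite_of_finite_preimage_singleton fun k => ?_
      refine Set.Finite.to_subtype ((Set.finite_range (Sigma.mk k)).subset ?_)
      rintro ⟨l, g⟩ h
      obtain rfl : l = k := h
      exact ⟨g, rfl⟩
    refine squeeze_zero_norm (fun p => ?_) (dl_tendsto.comp h1)
    simp only [x, Function.comp]
    rw [norm_smul, RCLike.norm_ofReal, abs_of_pos (by positivity), div_eq_inv_mul (_ + _), ← inv_pow,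
      inv_div]
    exact mul_le_mul_of_nonneg_left (φ_norm D _ _) (by positivity)
  refine ⟨insert 0 (Set.range x) ∪ Set.range (e' D 𝕜 0),
    hx.isCompact_insert_range_of_cofinite.union (Set.finite_range _).isCompact, fun T hT => ?_⟩
  by_contra hcon
  push Not at hcon
  have h0 : ‖β D 0 (T - 1)‖ ≤ 1 / 10 := by
    refine avg_le _ (card_J _) _ _ fun j => (fn_le _ _ (D.τa 0 j) _).trans ?_
    exact hcon _ (Or.inr ⟨j, rfl⟩)
  have hs : ∀ k, ‖β D (k + 1) (T - 1) - β D k (T - 1)‖ ≤ 1 / 10 * (7 / 8) ^ k := by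
    intro k
    rw [β_sub]
    refine avg_le _ (card_J _) _ _ fun g => ?_
    rw [ev_apply]
    refine (apply_le _ _ _).trans ?_
    have h1 := hcon _ (Or.inl (Or.inr ⟨⟨k, g⟩, rfl⟩))
    have h2 : T (x ⟨k, g⟩) - x ⟨k, g⟩ = (((8 / 7) ^ k : ℝ) : 𝕜) • (T - 1) (φ D 𝕜 k g) := by
      simp [x, smul_sub]
    rw [h2, norm_smul, RCLike.norm_ofReal, abs_of_pos (by positivity)] at h1
    have h3 : ((8:ℝ) / 7) ^ k * (7 / 8) ^ k = 1 := by rw [← mul_pow]; norm_num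
    have h4 := mul_le_mul_of_nonneg_right h1 (by positivity : (0:ℝ) ≤ (7 / 8) ^ k)
    have h5 : ‖(((T - 1) (φ D 𝕜 k g) : E D 𝕜) : Z 𝕜)‖ = ‖(T - 1) (φ D 𝕜 k g)‖ := rfl
    rw [h5]
    calc ‖(T - 1) (φ D 𝕜 k g)‖ = (8 / 7) ^ k * ‖(T - 1) (φ D 𝕜 k g)‖ * (7 / 8) ^ k := by
          linear_combination (-‖(T - 1) (φ D 𝕜 k g)‖) * h3
      _ ≤ _ := h4
  have hn : ∀ k, ‖β D k (T - 1)‖ ≤ 1 / 10 * (9 - 8 * (7 / 8) ^ k) := by
    intro k
    induction k with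
    | zero => norm_num at h0 ⊢; exact h0
    | succ k ih =>
      have := norm_add_le (β D (k + 1) (T - 1) - β D k (T - 1)) (β D k (T - 1))
      rw [sub_add_cancel] at this
      have := hs k
      rw [pow_succ]; linarith
  have hl : Tendsto (fun k => ‖β D k (T - 1)‖) atTop (𝓝 ‖(0 : 𝕜) - 1‖) := by
    refine Tendsto.norm (((β_finite D T hT).sub_const 1).congr fun k => ?_)
    rw [← β_one (𝕜 := 𝕜) D k]
    simp only [β, _root_.sub_apply, Submodule.coe_sub, map_sub,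
      Finset.sum_sub_distrib, mul_sub]
  have := le_of_tendsto' hl (b := 9 / 10) fun k => (hn k).trans (by
    have : (0:ℝ) ≤ (7 / 8) ^ k := by positivity
    linarith)
  norm_num at this

end

end H60.AP
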