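import Mathlib

namespace Pool.Agent.H60.AffineQuartic

open Polynomial

variable {F : Type*} [Field F] [Finite F] [CharP F 2]

/-- The additive map w to w^2 + w in characteristic two. -/
def wp (F : Type*) [Field F] [CharP F 2] : F →+ F where
  toFun w := w ^ 2 + w
  map_zero' := by simp
  map_add' x y := by
    rw [add_pow_char x y 2]; ring

lemma card_ker_wp : Nat.card (wp F).ker = 2 := by
  have : ((wp F).ker : Set F) = {0, 1} := by
    ext x
    simp only [SetLike.mem_coe, AddMonoidHom.mem_ker, wp, AddMonoidHom.coe_mk, ZeroHom.coe_mk,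
      Set.mem_insert_iff, Set.mem_singleton_iff]
    constructor
    · intro h
      have h2 : x * (x + 1) = 0 := by rw [← h]; ring
      rcases mul_eq_zero.1 h2 with h | h
      · exact Or.inl h
      · right
        have := CharTwo.add_self_eq_zero (1 : F)
        linear_combination h - this
    · rintro (rfl | rfl)
      · simp
      · simpa using CharTwo.add_self_eq_zero (1 : F)
  change Nat.card ((wp F).ker : Set F) = 2
  rw [this, Nat.card_coe_set_eq, Set.ncard_pair zero_ne_one]

lemma index_range_wp : (wp F).range.index = 2 := by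
  rw [AddSubgroup.index_range, card_ker_wp]

lemma natDegree_g (a b : F) : (C a * X + C b + X ^ 4 : F[X]).natDegree = 4 := by
  compute_degree!

lemma not_irred_of_factor (a b c w : F) (hc : c ≠ 0) (ha : a = c ^ 3)
    (hw : w ^ 2 + w = b / (a * c)) : ¬ Irreducible (C a * X + C b + X ^ 4 : F[X]) := by
  have h2 : (2 : F) = 0 := CharTwo.two_eq_zero
  have h2' : (2 : F[X]) = 0 := CharTwo.two_eq_zero
  have hb : b = c ^ 4 * (w ^ 2 + w) := by
    rw [hw, ha]; field_simp
  have hfac : (C a * X + C b + X ^ 4 : F[X]) =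
      (X ^ 2 + C c * X + C (c ^ 2 * w)) * (X ^ 2 + C c * X + C (c ^ 2 * w + c ^ 2)) := by
    rw [ha, hb]
    simp only [map_add, map_mul, map_pow]
    linear_combination (-(C c * X ^ 3) - C c ^ 2 * X ^ 2 - C c ^ 2 * C w * X ^ 2
      - C c ^ 3 * C w * X) * h2'
  intro h
  rw [hfac] at h
  have d1 : (X ^ 2 + C c * X + C (c ^ 2 * w) : F[X]).natDegree = 2 := by compute_degree!
  have d2 : (X ^ 2 + C c * X + C (c ^ 2 * w + c ^ 2) : F[X]).natDegree = 2 := by compute_degree!
  rcases h.isUnit_or_isUnit rfl with h | h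
  · have := natDegree_eq_zero_of_isUnit h; omega
  · have := natDegree_eq_zero_of_isUnit h; omega

theorem not_irreducible (ω : F) (hω : ω ^ 2 + ω + 1 = 0) (a b : F) :
    ¬ Irreducible (C a * X + C b + X ^ 4 : F[X]) := by
  have h2 : (2 : F) = 0 := CharTwo.two_eq_zero
  by_cases hinj : Function.Injective (fun y : F => y ^ 4 + a * y)
  · obtain ⟨y, hy⟩ := Finite.injective_iff_surjective.1 hinj (-b)
    intro h
    refine h.not_isRoot_of_natDegree_ne_one (x := y) (by rw [natDegree_g]; norm_num) ?_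
    simp only at hy
    simp only [IsRoot.def, eval_add, eval_mul, eval_C, eval_X, eval_pow]
    linear_combination hy
  · simp only [Function.Injective, not_forall] at hinj
    obtain ⟨x, y, hxy, hne⟩ := hinj
    set c := x - y with hc
    have hc0 : c ≠ 0 := sub_ne_zero.2 hne
    have hc4 : c ^ 4 = x ^ 4 + y ^ 4 := by
      rw [hc]
      linear_combination (-2 * x ^ 3 * y + 3 * x ^ 2 * y ^ 2 - 2 * x * y ^ 3) * h2
    have ha : a = c ^ 3 := by
      have : c * (a - c ^ 3) = 0 := by
        have e : c * (a - c ^ 3) = a * (x - y) - c ^ 4 := by rw [hc]; ring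
        rw [e, hc4]
        linear_combination hxy - (x ^ 4) * h2
      rcases mul_eq_zero.1 this with h | h
      · exact absurd h hc0
      · exact sub_eq_zero.1 h
    have hω3 : ω ^ 3 = 1 := by linear_combination (ω - 1) * hω
    have hω0 : ω ≠ 0 := by rintro rfl; simp at hω
    have ha0 : a ≠ 0 := by rw [ha]; exact pow_ne_zero _ hc0
    by_cases h0 : b / (a * c) ∈ (wp F).range
    · obtain ⟨w, hw⟩ := h0
      exact not_irred_of_factor a b c w hc0 ha hw
    by_cases h1 : b / (a * (c * ω)) ∈ (wp F).range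
    · obtain ⟨w, hw⟩ := h1
      exact not_irred_of_factor a b (c * ω) w (mul_ne_zero hc0 hω0)
        (by rw [mul_pow, hω3, ha, mul_one]) hw
    have h3 : b / (a * c) + b / (a * (c * ω)) ∈ (wp F).range :=
      (AddSubgroup.add_mem_iff_of_index_two index_range_wp).2 (by tauto)
    have e : b / (a * c) + b / (a * (c * ω)) = b / (a * (c * ω ^ 2)) := by
      field_simp
      linear_combination b * hω - b * h2 * 1 + 0
    rw [e] at h3
    obtain ⟨w, hw⟩ := h3
    exact not_irred_of_factor a b (c * ω ^ 2) w (mul_ne_zero hc0 (pow_ne_zero _ hω0))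
      (by rw [mul_pow, ← pow_mul, mul_comm 2 3, pow_mul, hω3, ha, one_pow, mul_one]) hw

lemma exists_omega (k : ℕ) (hk : k ≠ 0) :
    ∃ ω : GaloisField 2 (2 * k), ω ^ 2 + ω + 1 = 0 := by
  classical
  haveI : Fact (Nat.Prime 3) := ⟨by norm_num⟩
  have hcard : Nat.card (GaloisField 2 (2 * k))ˣ = 2 ^ (2 * k) - 1 := by
    rw [Nat.card_units, GaloisField.card 2 (2 * k) (by omega)]
  have hdvd : 3 ∣ Nat.card (GaloisField 2 (2 * k))ˣ := by
    rw [hcard, pow_mul]
    simpa using Nat.sub_dvd_pow_sub_pow 4 1 k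
  obtain ⟨x, hx⟩ := exists_prime_orderOf_dvd_card' 3 hdvd
  refine ⟨x, ?_⟩
  have h3 : (x : GaloisField 2 (2 * k)) ^ 3 = 1 := by
    rw [← Units.val_pow_eq_pow_val, ← hx, pow_orderOf_eq_one, Units.val_one]
  have h1 : (x : GaloisField 2 (2 * k)) ≠ 1 := by
    intro h
    have : x = 1 := Units.ext h
    rw [this, orderOf_one] at hx
    norm_num at hx
  have : ((x : GaloisField 2 (2 * k)) - 1) * ((x : GaloisField 2 (2 * k)) ^ 2 + x + 1) = 0 := by
    linear_combination h3
  rcases mul_eq_zero.1 this with h | h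
  · exact absurd (sub_eq_zero.1 h) h1
  · exact h

lemma irreducible_f (K : Type*) [Field K] :
    Irreducible (MvPolynomial.X 0 + MvPolynomial.X 1 ^ 4 : MvPolynomial (Fin 2) K) := by
  rw [← MulEquiv.irreducible_iff (MvPolynomial.finSuccEquiv K 1)]
  have e : MvPolynomial.finSuccEquiv K 1
      (MvPolynomial.X 0 + MvPolynomial.X 1 ^ 4 : MvPolynomial (Fin 2) K)
      = X - C (-(MvPolynomial.X 0 ^ 4)) := by
    rw [map_add, map_pow, MvPolynomial.finSuccEquiv_X_zero,
      show (1 : Fin 2) = (0 : Fin 1).succ from rfl, MvPolynomial.finSuccEquiv_X_succ]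
    simp
  rw [e]
  exact irreducible_X_sub_C _

lemma totalDegree_f (K : Type*) [Field K] :
    (MvPolynomial.X 0 + MvPolynomial.X 1 ^ 4 : MvPolynomial (Fin 2) K).totalDegree = 4 := by
  rw [MvPolynomial.totalDegree_add_eq_right_of_totalDegree_lt, MvPolynomial.totalDegree_X_pow]
  rw [MvPolynomial.totalDegree_X_pow, MvPolynomial.totalDegree_X]
  norm_num

end Pool.Agent.H60.AffineQuartic
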