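import Mathlib

/-! Belief propagation in the two-community block model: definitions and locality. -/

namespace H60.BP
open MeasureTheory unitInterval Finset

noncomputable section

/-- index set of the i.i.d. uniform `[0,1]` variables: labels, unordered pairs, initial messages
(ordered pairs), tie-breaking coins -/
abbrev Idx (n : ℕ) := Fin n ⊕ Sym2 (Fin n) ⊕ (Fin n × Fin n) ⊕ Fin n

/-- the sample space, with the product of Lebesgue measures on `[0,1]` -/
abbrev Om (n : ℕ) := Idx n → I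

variable {n : ℕ}

/-- a fair sign from a uniform variable -/
def sgn (u : I) : ℝ := if (u : ℝ) < 1 / 2 then 1 else -1

/-- the label `σ_i` -/
def lab (ω : Om n) (i : Fin n) : ℝ := sgn (ω (.inl i))

/-- adjacency in `G(n, a/n, b/n)` -/
def Adj (a b : ℝ) (ω : Om n) (i j : Fin n) : Prop :=
  i ≠ j ∧ (ω (.inr (.inl s(i, j))) : ℝ) < if lab ω i = lab ω j then a / n else b / n

/-- initial messages, uniform on `[-1,1]` -/
def h0 (ω : Om n) (i j : Fin n) : ℝ := 2 * (ω (.inr (.inr (.inl (i, j)))) : ℝ) - 1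

/-- tie-breaking coins -/
def coin (ω : Om n) (i : Fin n) : ℝ := sgn (ω (.inr (.inr (.inr i))))

open Classical in
/-- the messages `h^t_{i→j}` -/
def msg (f : ℝ → ℝ) (A : Fin n → Fin n → Prop) (h : Fin n → Fin n → ℝ) :
    ℕ → Fin n → Fin n → ℝ
  | 0, i, j => h i j
  | t + 1, i, j => ∑ k, if A i k ∧ k ≠ j then f (msg f A h t k i) else 0

open Classical in
/-- the field `∑_{k ∈ ∂i} f(h^t_{k→i})` -/
def fld (f : ℝ → ℝ) (A : Fin n → Fin n → Prop) (h : Fin n → Fin n → ℝ) (t : ℕ) (i : Fin n) : ℝ :=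
  ∑ k, if A i k then f (msg f A h t k i) else 0

/-- the estimate `σ̂_i` after `t` rounds -/
def est (f : ℝ → ℝ) (A : Fin n → Fin n → Prop) (h : Fin n → Fin n → ℝ) (c : Fin n → ℝ) (t : ℕ)
    (i : Fin n) : ℝ :=
  if 0 < fld f A h t i then 1 else if fld f A h t i < 0 then -1 else c i

/-- `f(h) = artanh(θ tanh h)`, `θ = (a-b)/(a+b)` -/
def fBP (a b : ℝ) (x : ℝ) : ℝ := Real.artanh ((a - b) / (a + b) * Real.tanh x)

/-- `|n⁻¹ ∑ σ̂_i σ_i|` for BP after `t` rounds -/
def overlap (a b : ℝ) (t : ℕ) (ω : Om n) : ℝ :=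
  |1 / (n : ℝ) * ∑ i, est (fBP a b) (Adj a b ω) (h0 ω) (coin ω) t i * lab ω i|

theorem msg_loc (f : ℝ → ℝ) {A A' : Fin n → Fin n → Prop} {h h' : Fin n → Fin n → ℝ}
    (S : Finset (Fin n)) (hA : ∀ i ∈ S, ∀ k, A i k ↔ A' i k) (hS : ∀ i ∈ S, ∀ k, A' i k → k ∈ S)
    (hh : ∀ i ∈ S, ∀ j ∈ S, h i j = h' i j) :
    ∀ t, ∀ i ∈ S, ∀ j ∈ S, msg f A h t i j = msg f A' h' t i j := by
  intro t
  induction t with
  | zero => exact hh
  | succ t ih =>
    intro i hi j _
    simp only [msg]
    refine Finset.sum_congr rfl fun k _ => ?_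
    by_cases hk : A' i k ∧ k ≠ j
    · rw [if_pos hk, if_pos ⟨(hA i hi k).2 hk.1, hk.2⟩, ih k (hS i hi k hk.1) i hi]
    · rw [if_neg hk, if_neg fun h => hk ⟨(hA i hi k).1 h.1, h.2⟩]

theorem est_loc (f : ℝ → ℝ) {A A' : Fin n → Fin n → Prop} {h h' : Fin n → Fin n → ℝ}
    {c c' : Fin n → ℝ}
    (S : Finset (Fin n)) (hA : ∀ i ∈ S, ∀ k, A i k ↔ A' i k) (hS : ∀ i ∈ S, ∀ k, A' i k → k ∈ S)
    (hh : ∀ i ∈ S, ∀ j ∈ S, h i j = h' i j) (hc : ∀ i ∈ S, c i = c' i) (t : ℕ) :
    ∀ i ∈ S, est f A h c t i = est f A' h' c' t i := by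
  intro i hi
  have : fld f A h t i = fld f A' h' t i := by
    simp only [fld]
    refine Finset.sum_congr rfl fun k _ => ?_
    by_cases hk : A' i k
    · rw [if_pos hk, if_pos ((hA i hi k).2 hk), msg_loc f S hA hS hh t k (hS i hi k hk) i hi]
    · rw [if_neg hk, if_neg fun h => hk ((hA i hi k).1 h)]
  simp only [est, this, hc i hi]

theorem msg_perm (f : ℝ → ℝ) (A : Fin n → Fin n → Prop) (h : Fin n → Fin n → ℝ)
    (e : Equiv.Perm (Fin n)) : ∀ t i j, msg f (fun i j => A (e i) (e j)) (fun i j => h (e i) (e j))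
      t i j = msg f A h t (e i) (e j) := by
  intro t
  induction t with
  | zero => intro i j; rfl
  | succ t ih =>
    intro i j
    simp only [msg]
    refine Fintype.sum_equiv e _ _ fun k => ?_
    rw [ih]
    by_cases hk : A (e i) (e k) ∧ k ≠ j
    · rw [if_pos hk, if_pos ⟨hk.1, by simpa using hk.2⟩]
    · rw [if_neg hk, if_neg fun h => hk ⟨h.1, by simpa using h.2⟩]

theorem est_perm (f : ℝ → ℝ) (A : Fin n → Fin n → Prop) (h : Fin n → Fin n → ℝ) (c : Fin n → ℝ)
    (e : Equiv.Perm (Fin n)) (t : ℕ) (i : Fin n) :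
    est f (fun i j => A (e i) (e j)) (fun i j => h (e i) (e j)) (fun i => c (e i)) t i =
      est f A h c t (e i) := by
  have : fld f (fun i j => A (e i) (e j)) (fun i j => h (e i) (e j)) t i = fld f A h t (e i) := by
    simp only [fld]
    refine Fintype.sum_equiv e _ _ fun k => ?_
    rw [msg_perm]
  simp only [est, this]

theorem sgn_abs (u : I) : |sgn u| = 1 := by unfold sgn; split_ifs <;> simp

theorem est_abs (f : ℝ → ℝ) (A : Fin n → Fin n → Prop) (h : Fin n → Fin n → ℝ) (ω : Om n) (t : ℕ)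
    (i : Fin n) : |est f A h (coin ω) t i| = 1 := by
  unfold est; split_ifs <;> simp [coin, sgn_abs]

theorem meas_co (x : Idx n) : Measurable fun ω : Om n => (ω x : ℝ) :=
  measurable_subtype_coe.comp (measurable_pi_apply x)

theorem meas_sgn (x : Idx n) : Measurable fun ω : Om n => sgn (ω x) :=
  Measurable.ite (measurableSet_lt (meas_co x) measurable_const) measurable_const measurable_const

theorem meas_est {f : ℝ → ℝ} (hf : Measurable f) (A : Om n → Fin n → Fin n → Prop)
    (hA : ∀ i k, MeasurableSet {ω | A ω i k}) (t : ℕ) (i : Fin n) :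
    Measurable fun ω => est f (A ω) (h0 ω) (coin ω) t i := by
  have h1 : ∀ t i j, Measurable fun ω => msg f (A ω) (h0 ω) t i j := by
    intro t
    induction t with
    | zero => intro i j; exact ((meas_co _).const_mul 2).sub_const 1
    | succ t ih =>
      intro i j
      simp only [msg]
      refine Finset.measurable_sum _ fun k _ => Measurable.ite ?_ (hf.comp (ih k i)) measurable_const
      exact (hA i k).inter (MeasurableSet.const _)
  have h2 : Measurable fun ω => fld f (A ω) (h0 ω) t i := by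
    simp only [fld]
    exact Finset.measurable_sum _ fun k _ =>
      Measurable.ite (hA i k) (hf.comp (h1 t k i)) measurable_const
  exact Measurable.ite (measurableSet_lt measurable_const h2) measurable_const
    (Measurable.ite (measurableSet_lt h2 measurable_const) measurable_const (meas_sgn _))

theorem meas_fBP (a b : ℝ) : Measurable (fBP a b) := by
  have h : Measurable Real.tanh := by
    have : Real.tanh = fun x => Real.sinh x / Real.cosh x := funext Real.tanh_eq_sinh_div_cosh
    rw [this]; fun_prop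
  unfold fBP Real.artanh
  fun_prop

/-- independence of events depending on disjoint sets of coordinates -/
theorem indep {ι : Type} [Fintype ι] (D : Set ι) {E F : Set (ι → I)} (hE : MeasurableSet E)
    (hF : MeasurableSet F) (h1 : ∀ ω ω' : ι → I, (∀ i ∈ D, ω i = ω' i) → ω ∈ E → ω' ∈ E)
    (h2 : ∀ ω ω' : ι → I, (∀ i ∉ D, ω i = ω' i) → ω ∈ F → ω' ∈ F) :
    (volume : Measure (ι → I)).real (E ∩ F) = volume.real E * volume.real F := by
  classical
  have hi : ProbabilityTheory.iIndepFun (fun (i : ι) (ω : ι → I) => ω i)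
      (volume : Measure (ι → I)) :=
    ProbabilityTheory.iIndepFun_pi (X := fun _ => id) fun _ => aemeasurable_id
  have := hi.indepFun_finset (univ.filter (· ∈ D)) (univ.filter (· ∉ D))
    (Finset.disjoint_filter_filter_not _ _ _) (fun i => measurable_pi_apply i)
  have key : ∀ (T : Finset ι) (G : Set (ι → I)), MeasurableSet G →
      (∀ ω ω' : ι → I, (∀ i ∈ T, ω i = ω' i) → ω ∈ G → ω' ∈ G) →
      ∃ G' : Set (T → I), MeasurableSet G' ∧ (fun (ω : ι → I) (i : T) => ω i) ⁻¹' G' = G := by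
    intro T G hG h
    refine ⟨(fun (x : T → I) (i : ι) => if hi : i ∈ T then x ⟨i, hi⟩ else 0) ⁻¹' G, ?_, ?_⟩
    · refine measurable_pi_lambda _ (fun i => ?_) hG
      by_cases hi : i ∈ T
      · simp only [dif_pos hi]; exact measurable_pi_apply _
      · simp only [dif_neg hi]; exact measurable_const
    · ext ω
      constructor
      · intro hω; exact h _ _ (fun i hi => by simp [hi]) hω
      · intro hω; exact h _ _ (fun i hi => by simp [hi]) hω
  obtain ⟨E', hE', rfl⟩ := key (univ.filter (· ∈ D)) E hE fun ω ω' h =>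
    h1 ω ω' fun i hi => h i (by simp [hi])
  obtain ⟨F', hF', rfl⟩ := key (univ.filter (· ∉ D)) F hF fun ω ω' h =>
    h2 ω ω' fun i hi => h i (by simp [hi])
  rw [Measure.real, this.measure_inter_preimage_eq_mul _ _ hE' hF', ENNReal.toReal_mul]
  rfl

/-- cylinder probabilities -/
theorem cyl {ι : Type} [Fintype ι] (T : Finset ι) (B : ι → Set I) (r : ℝ)
    (hB : ∀ i ∈ T, (volume : Measure I).real (B i) = r) :
    (volume : Measure (ι → I)).real {ω | ∀ i ∈ T, ω i ∈ B i} = r ^ T.card := by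
  classical
  have : {ω : ι → I | ∀ i ∈ T, ω i ∈ B i} = Set.univ.pi fun i => if i ∈ T then B i else Set.univ := by
    ext ω
    simp only [Set.mem_ofPred_eq, Set.mem_pi, Set.mem_univ, true_imp_iff]
    refine forall_congr' fun i => ?_
    split_ifs with h <;> simp [h]
  rw [this, Measure.real, volume_pi_pi, ENNReal.toReal_prod]
  have h2 : ∀ i, (volume (if i ∈ T then B i else Set.univ)).toReal = if i ∈ T then r else 1 := by
    intro i
    split_ifs with h
    · exact hB i h
    · simp
  simp only [h2]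
  rw [Finset.prod_ite_mem, Finset.univ_inter, Finset.prod_const]

theorem vol_ge (p : ℝ) (h0 : 0 ≤ p) (h1 : p ≤ 1) :
    (volume : Measure I).real {u | ¬ (u : ℝ) < p} = 1 - p := by
  have : {u : I | ¬ (u : ℝ) < p} = Set.Ici ⟨p, h0, h1⟩ := by
    ext u; simp only [Set.mem_ofPred_eq, not_lt, Set.mem_Ici]; rfl
  rw [this, Measure.real, volume_Ici, ENNReal.toReal_ofReal (by simpa using h1)]

theorem vol_lt (p : ℝ) (h0 : 0 ≤ p) (h1 : p ≤ 1) :
    (volume : Measure I).real {u | (u : ℝ) < p} = p := by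
  have : {u : I | (u : ℝ) < p} = Set.Iio ⟨p, h0, h1⟩ := by
    ext u; simp only [Set.mem_ofPred_eq, Set.mem_Iio]; rfl
  rw [this, Measure.real, volume_Iio, ENNReal.toReal_ofReal (by simpa using h0)]

end

end H60.BP
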