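import Pool.Agent.H60.BPa

/-! One community: relabelling invariance and removal of an isolated vertex. -/

namespace H60.BP
open MeasureTheory unitInterval Finset

noncomputable section

variable {n : ℕ} (f : ℝ → ℝ) (p : ℝ) (t : ℕ)

def ed (i k : Fin n) : Idx n := .inr (.inl s(i, k))

def AS (S : Finset (Fin n)) (ω : Om n) (i k : Fin n) : Prop :=
  i ≠ k ∧ i ∈ S ∧ k ∈ S ∧ (ω (ed i k) : ℝ) < p

def X (S : Finset (Fin n)) (ω : Om n) : ℝ := ∑ i ∈ S, est f (AS p S ω) (h0 ω) (coin ω) t i

/-- coordinates used by the community `S` -/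
def Dep (S : Finset (Fin n)) : Set (Idx n) := fun x => match x with
  | .inl _ => False
  | .inr (.inl e) => ∀ i ∈ e, i ∈ S
  | .inr (.inr (.inl q)) => q.1 ∈ S
  | .inr (.inr (.inr i)) => i ∈ S

theorem X_dep (S : Finset (Fin n)) (ω ω' : Om n) (h : ∀ x ∈ Dep S, ω x = ω' x) :
    X f p t S ω = X f p t S ω' := by
  refine Finset.sum_congr rfl (est_loc f S (fun i hi k => ?_) (fun i _ k hk => hk.2.2.1)
    (fun i hi j _ => ?_) (fun i hi => ?_) t)
  · refine and_congr_right fun _ => and_congr_right fun _ => and_congr_right fun hk => ?_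
    rw [h (ed i k)]
    intro j hj
    rcases Sym2.mem_iff.1 hj with rfl | rfl <;> assumption
  · simp only [h0]; rw [h _ hi]
  · simp only [coin]; rw [h _ hi]

theorem X_meas (hf : Measurable f) (S : Finset (Fin n)) : Measurable (X f p t S) :=
  Finset.measurable_sum _ fun i _ => meas_est hf (AS p S) (fun _ _ =>
    (MeasurableSet.const _).inter ((MeasurableSet.const _).inter ((MeasurableSet.const _).inter
      (measurableSet_lt (meas_co _) measurable_const)))) t i

theorem X_abs (S : Finset (Fin n)) (ω : Om n) : |X f p t S ω| ≤ n := by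
  refine (Finset.abs_sum_le_sum_abs _ _).trans ?_
  simp only [est_abs, Finset.sum_const, nsmul_eq_mul, mul_one]
  exact_mod_cast (card_le_univ S).trans (by simp)

def sE (e : Equiv.Perm (Fin n)) : Sym2 (Fin n) ≃ Sym2 (Fin n) where
  toFun := Sym2.map e
  invFun := Sym2.map e.symm
  left_inv x := by rw [Sym2.map_map]; simp
  right_inv x := by rw [Sym2.map_map]; simp

def iE (e : Equiv.Perm (Fin n)) : Idx n ≃ Idx n :=
  Equiv.sumCongr e (Equiv.sumCongr (sE e) (Equiv.sumCongr (Equiv.prodCongr e e) e))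

theorem X_perm (e : Equiv.Perm (Fin n)) (S : Finset (Fin n)) (ω : Om n) :
    X f p t S (fun x => ω (iE e x)) = X f p t (S.map e.toEmbedding) ω := by
  rw [X, X, Finset.sum_map]
  refine Finset.sum_congr rfl fun i _ => ?_
  rw [Equiv.coe_toEmbedding, ← est_perm]
  congr 1
  funext i k
  apply propext
  simp only [AS, ne_eq, EmbeddingLike.apply_eq_iff_eq, Finset.mem_map_equiv, Equiv.symm_apply_apply]
  rfl

def ph (S : Finset (Fin n)) (u v : ℝ) : ℝ :=
  (volume : Measure (Om n)).real (X f p t S ⁻¹' Set.Icc u v)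

theorem ph_eq (hf : Measurable f) {S S' : Finset (Fin n)} (h : S.card = S'.card) (u v : ℝ) :
    ph f p t S u v = ph f p t S' u v := by
  obtain ⟨e, he⟩ : ∃ e : Equiv.Perm (Fin n), S.map e.toEmbedding = S' := by
    let g := Finset.equivOfCardEq h
    refine ⟨g.extendSubtype, Finset.eq_of_subset_of_card_le ?_ (by simp [h])⟩
    intro x hx
    obtain ⟨y, hy, rfl⟩ := Finset.mem_map.1 hx
    exact Equiv.extendSubtype_mem g y hy
  have hm : MeasurePreserving (fun (ω : Om n) x => ω (iE e x)) volume volume :=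
    volume_preserving_arrowCongr' (iE e).symm (MeasurableEquiv.refl I) (MeasurePreserving.id _)
  rw [ph, ph, ← he, ← hm.measureReal_preimage
    ((X_meas f p t hf S) measurableSet_Icc).nullMeasurableSet]
  congr 1
  ext ω
  simp only [Set.mem_preimage, X_perm]

def TT (S : Finset (Fin n)) (v : Fin n) : Finset (Idx n) := (S.erase v).image (ed v)

def iso (S : Finset (Fin n)) (v : Fin n) : Set (Om n) :=
  {ω | ∀ x ∈ TT S v, ω x ∈ {u : I | ¬ (u : ℝ) < p}}

theorem ed_inj (v : Fin n) : Function.Injective (ed v) := by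
  intro i j h
  simp only [ed, Sum.inr.injEq, Sum.inl.injEq] at h
  exact Sym2.congr_right.1 h

theorem card_TT {S : Finset (Fin n)} {v : Fin n} (hv : v ∈ S) : (TT S v).card = S.card - 1 := by
  rw [TT, card_image_of_injective _ (ed_inj v), card_erase_of_mem hv]

theorem card_inter {S : Finset (Fin n)} {v w : Fin n} (h : v ≠ w) :
    (TT S v ∩ TT S w).card ≤ 1 := by
  refine (card_le_card (t := {ed v w}) fun x hx => ?_).trans (by simp)
  obtain ⟨h1, h2⟩ := mem_inter.1 hx
  obtain ⟨i, -, rfl⟩ := mem_image.1 h1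
  obtain ⟨j, -, hj⟩ := mem_image.1 h2
  simp only [ed, Sum.inr.injEq, Sum.inl.injEq, Sym2.eq_iff] at hj
  rcases hj with hj | hj
  · exact absurd hj.1.symm h
  · rw [hj.1]; simp

theorem iso_meas (S : Finset (Fin n)) (v : Fin n) : MeasurableSet (iso p S v) := by
  have : iso p S v = ⋂ x ∈ TT S v, {ω : Om n | (ω x : ℝ) < p}ᶜ := by
    ext ω; simp [iso]
  rw [this]
  exact Finset.measurableSet_biInter _ fun x _ =>
    (measurableSet_lt (meas_co x) measurable_const).compl

theorem X_iso {S : Finset (Fin n)} {v : Fin n} (hv : v ∈ S) {ω : Om n} (h : ω ∈ iso p S v) :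
    |X f p t S ω - X f p t (S.erase v) ω| = 1 := by
  have : ∑ i ∈ S.erase v, est f (AS p S ω) (h0 ω) (coin ω) t i = X f p t (S.erase v) ω := by
    refine Finset.sum_congr rfl (est_loc f _ (fun i hi k => ?_) (fun i _ k hk => hk.2.2.1)
      (fun _ _ _ _ => rfl) (fun _ _ => rfl) t)
    constructor
    · rintro ⟨h1, h2, h3, h4⟩
      refine ⟨h1, hi, mem_erase.2 ⟨?_, h3⟩, h4⟩
      rintro rfl
      refine h (ed k i) (mem_image_of_mem _ hi) ?_
      have : ed k i = ed i k := by simp only [ed, Sym2.eq_swap]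
      rw [this]; exact h4
    · rintro ⟨h1, h2, h3, h4⟩
      exact ⟨h1, mem_of_mem_erase h2, mem_of_mem_erase h3, h4⟩
  rw [X, ← Finset.add_sum_erase _ _ hv, this, add_sub_cancel_right, est_abs]

variable {p}

theorem iso_vol (h0 : 0 ≤ p) (h1 : p ≤ 1) {S : Finset (Fin n)} {v : Fin n} (hv : v ∈ S) :
    (volume : Measure (Om n)).real (iso p S v) = (1 - p) ^ (S.card - 1) := by
  rw [iso, cyl _ _ (1 - p) fun _ _ => vol_ge p h0 h1, card_TT hv]

theorem iso_vol2 (h0 : 0 ≤ p) (h1 : p < 1) {S : Finset (Fin n)} {v w : Fin n} (hv : v ∈ S)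
    (hw : w ∈ S) (h : v ≠ w) : (volume : Measure (Om n)).real (iso p S v ∩ iso p S w) ≤
      ((1 - p) ^ (S.card - 1)) ^ 2 / (1 - p) := by
  have : iso p S v ∩ iso p S w = {ω | ∀ x ∈ TT S v ∪ TT S w, ω x ∈ {u : I | ¬ (u : ℝ) < p}} := by
    ext ω
    simp only [iso, Set.mem_inter_iff, Set.mem_ofPred_eq, mem_union, or_imp, forall_and]
  rw [this, cyl _ _ (1 - p) fun _ _ => vol_ge p h0 h1.le, le_div_iff₀ (by linarith), ← pow_succ,
    ← pow_mul]
  refine pow_le_pow_of_le_one (by linarith) (by linarith) ?_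
  have h2 := card_union_add_card_inter (TT S v) (TT S w)
  have h3 := card_inter (S := S) h
  rw [card_TT hv, card_TT hw] at h2
  omega

/-- indicator functions -/
def χ (E : Set (Om n)) (ω : Om n) : ℝ := E.indicator 1 ω

theorem χ_int {E : Set (Om n)} (hE : MeasurableSet E) : Integrable (χ E) volume :=
  (integrable_const (1:ℝ)).indicator hE

theorem χ_integral {E : Set (Om n)} (hE : MeasurableSet E) : ∫ ω, χ E ω = volume.real E :=
  integral_indicator_one hE

theorem step (hf : Measurable f) (h0 : 0 ≤ p) (h1 : p < 1) {S S' : Finset (Fin n)}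
    (hS : S'.card + 1 = S.card) (u v η : ℝ) (hη : 0 < η) :
    ph f p t S' u v - (η / 2 + (1 / (S.card * (1 - p) ^ (S.card - 1)) + 1 / (1 - p) - 1) / (2 * η))
      ≤ ph f p t S (u - 1) (v + 1) := by
  set q := (1 - p) ^ (S.card - 1) with hq
  have hq0 : 0 < q := pow_pos (by linarith) _
  have hs : (0:ℝ) < S.card := by exact_mod_cast (by omega : 0 < S.card)
  set A := X f p t S ⁻¹' Set.Icc (u - 1) (v + 1)
  have hA : MeasurableSet A := X_meas f p t hf S measurableSet_Icc
  let B := fun w => iso p S w ∩ X f p t (S.erase w) ⁻¹' Set.Icc u v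
  have hB : ∀ w, MeasurableSet (B w) := fun w =>
    (iso_meas p S w).inter (X_meas f p t hf _ measurableSet_Icc)
  have hBv : ∀ w ∈ S, volume.real (B w) = q * ph f p t S' u v := by
    intro w hw
    rw [ph_eq f p t hf (S' := S.erase w) (by rw [card_erase_of_mem hw]; omega), hq,
      ← iso_vol h0 h1.le hw, mul_comm, show B w = _ from Set.inter_comm _ _]
    refine indep (Dep (S.erase w)) (X_meas f p t hf _ measurableSet_Icc) (iso_meas p S w)
      (fun ω ω' h hω => ?_) (fun ω ω' h hω x hx => ?_)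
    · rw [Set.mem_preimage, ← X_dep f p t _ ω ω' h]; exact hω
    · rw [← h x]
      · exact hω x hx
      · obtain ⟨i, -, rfl⟩ := mem_image.1 hx
        intro hd
        have := hd w (Sym2.mem_mk_left _ _)
        simp at this
  have hII : ∀ w z, MeasurableSet (iso p S w ∩ iso p S z) := fun w z =>
    (iso_meas p S w).inter (iso_meas p S z)
  have hpt : ∀ ω, (∑ w ∈ S, χ (B w) ω) / (S.card * q) ≤ χ A ω + (η / 2 +
      ((∑ w ∈ S, ∑ z ∈ S, χ (iso p S w ∩ iso p S z) ω) / (S.card * q) ^ 2 -
        2 * ((∑ w ∈ S, χ (iso p S w) ω) / (S.card * q)) + 1) / (2 * η)) := by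
    intro ω
    have e1 : ∑ w ∈ S, ∑ z ∈ S, χ (iso p S w ∩ iso p S z) ω = (∑ w ∈ S, χ (iso p S w) ω) ^ 2 := by
      rw [sq, Finset.sum_mul_sum]
      refine Finset.sum_congr rfl fun w _ => Finset.sum_congr rfl fun z _ => ?_
      simp only [χ, Set.inter_indicator_one, Pi.mul_apply]
    have e2 : ∑ w ∈ S, χ (B w) ω ≤ χ A ω * ∑ w ∈ S, χ (iso p S w) ω := by
      rw [Finset.mul_sum]
      refine Finset.sum_le_sum fun w hw => ?_
      by_cases hω : ω ∈ B w
      · have hω' : ω ∈ A := by
          have h3 := abs_le.1 (X_iso f p t hw hω.1).le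
          exact ⟨by linarith [hω.2.1, h3.1], by linarith [hω.2.2, h3.2]⟩
        simp [χ, hω, hω', hω.1]
      · simp only [χ, Set.indicator_of_notMem hω]
        exact mul_nonneg (Set.indicator_nonneg (fun _ _ => zero_le_one) _)
          (Set.indicator_nonneg (fun _ _ => zero_le_one) _)
    rw [e1, ← div_pow]
    have e3 := div_le_div_of_nonneg_right e2 (mul_pos hs hq0).le
    rw [mul_div_assoc] at e3
    set L := (∑ w ∈ S, χ (iso p S w) ω) / (S.card * q)
    have e4 : L - 1 ≤ η / 2 + (L ^ 2 - 2 * L + 1) / (2 * η) := by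
      rw [← sub_le_iff_le_add', le_div_iff₀ (by positivity)]
      nlinarith [sq_nonneg (L - 1 - η)]
    have e5 : 0 ≤ η / 2 + (L ^ 2 - 2 * L + 1) / (2 * η) := by
      have : 0 ≤ L ^ 2 - 2 * L + 1 := by nlinarith [sq_nonneg (L - 1)]
      positivity
    by_cases hω : ω ∈ A
    · simp only [χ, Set.indicator_of_mem hω, Pi.one_apply] at e3 ⊢; linarith
    · simp only [χ, Set.indicator_of_notMem hω] at e3 ⊢; linarith
  have i1 : Integrable (fun ω => ∑ w ∈ S, χ (B w) ω) volume :=
    integrable_finsetSum _ fun w _ => χ_int (hB w)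
  have i2 : Integrable (fun ω => ∑ w ∈ S, ∑ z ∈ S, χ (iso p S w ∩ iso p S z) ω) volume :=
    integrable_finsetSum _ fun w _ => integrable_finsetSum _ fun z _ => χ_int (hII w z)
  have i3 : Integrable (fun ω => ∑ w ∈ S, χ (iso p S w) ω) volume :=
    integrable_finsetSum _ fun w _ => χ_int (iso_meas p S w)
  have j1 : ∫ ω, ∑ w ∈ S, χ (B w) ω = S.card * q * ph f p t S' u v := by
    rw [integral_finsetSum _ fun w _ => χ_int (hB w),
      Finset.sum_congr rfl fun w hw => (χ_integral (hB w)).trans (hBv w hw)]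
    simp [mul_assoc]
  have j3 : ∫ ω, ∑ w ∈ S, χ (iso p S w) ω = S.card * q := by
    rw [integral_finsetSum _ fun w _ => χ_int (iso_meas p S w),
      Finset.sum_congr rfl fun w hw => (χ_integral (iso_meas p S w)).trans (iso_vol h0 h1.le hw)]
    simp [hq]
  have j2 : ∫ ω, ∑ w ∈ S, ∑ z ∈ S, χ (iso p S w ∩ iso p S z) ω ≤
      S.card * (q + S.card * (q ^ 2 / (1 - p))) := by
    rw [integral_finsetSum _ fun w _ => integrable_finsetSum _ fun z _ => χ_int (hII w z)]
    rw [← nsmul_eq_mul, ← Finset.sum_const]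
    refine Finset.sum_le_sum fun w hw => ?_
    rw [integral_finsetSum _ fun z _ => χ_int (hII w z), ← Finset.add_sum_erase _ _ hw,
      χ_integral (hII w w), Set.inter_self, iso_vol h0 h1.le hw]
    refine add_le_add le_rfl ?_
    have hp : 0 ≤ q ^ 2 / (1 - p) := div_nonneg (by positivity) (by linarith)
    refine (Finset.sum_le_card_nsmul _ _ (q ^ 2 / (1 - p)) fun z hz => ?_).trans ?_
    · rw [χ_integral (hII w z)]
      exact iso_vol2 h0 h1 hw (mem_of_mem_erase hz) (ne_of_mem_erase hz).symm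
    · rw [nsmul_eq_mul]
      exact mul_le_mul_of_nonneg_right (by exact_mod_cast card_erase_le) hp
  have k1 := ((i2.div_const ((S.card * q) ^ 2)).sub' ((i3.div_const (S.card * q)).const_mul 2))
  have k2 := (k1.fun_add (integrable_const 1)).div_const (2 * η)
  have := integral_mono (i1.div_const (S.card * q))
    ((χ_int hA).fun_add ((integrable_const (η / 2)).fun_add k2)) hpt
  rw [integral_div, j1, integral_add (χ_int hA) ((integrable_const (η / 2)).fun_add k2),
    integral_add (integrable_const _) k2, integral_div (2 * η), integral_add k1 (integrable_const _),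
    integral_sub (i2.div_const _) ((i3.div_const _).const_mul 2), integral_div (_ ^ 2),
    integral_const_mul, integral_div (_ * q), j3, χ_integral hA] at this
  simp only [integral_const, probReal_univ, smul_eq_mul, one_mul] at this
  rw [mul_div_cancel_left₀ _ (mul_pos hs hq0).ne', div_self (mul_pos hs hq0).ne'] at this
  have j4 := div_le_div_of_nonneg_right j2 (pow_pos (mul_pos hs hq0) 2).le
  have j5 : S.card * (q + S.card * (q ^ 2 / (1 - p))) / (S.card * q) ^ 2 =
      1 / (S.card * q) + 1 / (1 - p) := by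
    have : 1 - p ≠ 0 := by linarith
    field_simp
  rw [j5] at j4
  have j6 := div_le_div_of_nonneg_right (show (∫ ω, ∑ w ∈ S, ∑ z ∈ S,
    χ (iso p S w ∩ iso p S z) ω) / (S.card * q) ^ 2 - 2 * 1 + 1 ≤
      1 / (S.card * q) + 1 / (1 - p) - 1 by linarith) (by positivity : 0 ≤ 2 * η)
  change _ ≤ volume.real A
  linarith

end

end H60.BP
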