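import Pool.Agent.H60.BPb

/-! BP fails for `b = 0`. -/

namespace H60.BP
open MeasureTheory unitInterval Finset Filter Topology

noncomputable section

variable {n : ℕ} (f : ℝ → ℝ) {p : ℝ} (t : ℕ)

theorem steps (hf : Measurable f) (h0 : 0 ≤ p) (h1 : p < 1) (η err : ℝ) (hη : 0 < η) (m : ℕ)
    (herr : ∀ s : ℕ, m ≤ s → s ≤ n →
      η / 2 + (1 / (s * (1 - p) ^ (s - 1)) + 1 / (1 - p) - 1) / (2 * η) ≤ err)
    {S : Finset (Fin n)} (hS : m ≤ S.card) (u v : ℝ) :
    ∀ (r : ℕ) (T : Finset (Fin n)), T.card = S.card + r →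
      ph f p t S u v - r * err ≤ ph f p t T (u - r) (v + r) := by
  intro r
  induction r with
  | zero => intro T hT; simp [ph_eq f p t hf (S := T) (S' := S) hT]
  | succ r ih =>
    intro T hT
    obtain ⟨w, hw⟩ : T.Nonempty := card_pos.1 (by omega)
    have h2 := ih (T.erase w) (by rw [card_erase_of_mem hw]; omega)
    have h3 := step f t hf h0 h1 (S := T) (S' := T.erase w) (by rw [card_erase_of_mem hw]; omega)
      (u - r) (v + r) η hη
    have h4 := herr T.card (by omega) ((card_le_univ T).trans (by simp))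
    push_cast
    rw [← sub_sub, ← add_assoc]
    linarith

theorem exists_bin (S : Finset (Fin n)) (w : ℝ) (hw : 0 < w) (K : ℕ)
    (hK : 2 * n < K * w) : ∃ u, 1 / (K : ℝ) ≤ ph f p t S u (u + w) := by
  have hK0 : 0 < K := by
    rcases Nat.eq_zero_or_pos K with rfl | h
    · simp at hK; linarith [Nat.cast_nonneg (α := ℝ) n]
    · exact h
  have hc : (Set.univ : Set (Om n)) ⊆
      ⋃ k ∈ range K, X f p t S ⁻¹' Set.Icc (k * w - n) (k * w - n + w) := by
    intro ω _
    have h := abs_le.1 (X_abs f p t S ω)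
    have h0 : 0 ≤ (X f p t S ω + n) / w := div_nonneg (by linarith) hw.le
    simp only [Set.mem_iUnion]
    refine ⟨⌊(X f p t S ω + n) / w⌋₊, mem_range.2 ((Nat.floor_lt h0).2 ?_), ?_, ?_⟩
    · rw [div_lt_iff₀ hw]; linarith
    · have := Nat.floor_le h0
      rw [le_div_iff₀ hw] at this; linarith
    · have := Nat.lt_floor_add_one ((X f p t S ω + n) / w)
      rw [div_lt_iff₀ hw] at this; linarith
  have h1 := (measureReal_mono (μ := volume) hc (measure_ne_top _ _)).trans (measureReal_biUnion_finset_le _ _)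
  rw [probReal_univ] at h1
  have h2 : ∑ _k ∈ range K, 1 / (K : ℝ) ≤ ∑ k ∈ range K, ph f p t S (k * w - n) (k * w - n + w) := by
    refine le_trans (le_of_eq ?_) h1
    have : (K : ℝ) ≠ 0 := by positivity
    simp; field_simp
  obtain ⟨k, -, hk⟩ := Finset.exists_le_of_sum_le (nonempty_range_iff.2 hK0.ne') h2
  exact ⟨_, hk⟩

def Lab (S : Finset (Fin n)) : Set (Om n) := {ω | ∀ i, i ∈ S ↔ (ω (.inl i) : ℝ) < 1 / 2}

theorem Lab_meas (S : Finset (Fin n)) : MeasurableSet (Lab S) := by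
  have : Lab S = ⋂ i, {ω : Om n | i ∈ S ↔ (ω (.inl i) : ℝ) < 1 / 2} := by ext ω; simp [Lab]
  rw [this]
  refine MeasurableSet.iInter fun i => ?_
  by_cases h : i ∈ S
  · simp only [h, true_iff]; exact measurableSet_lt (meas_co _) measurable_const
  · simp only [h, false_iff]; exact (measurableSet_lt (meas_co _) measurable_const).compl

theorem Lab_vol (S : Finset (Fin n)) : (volume : Measure (Om n)).real (Lab S) = (1 / 2) ^ n := by
  classical
  have : Lab S = {ω | ∀ x ∈ (univ : Finset (Fin n)).image (Sum.inl : Fin n → Idx n), ω x ∈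
      (if x ∈ S.image (Sum.inl : Fin n → Idx n) then {u : I | (u : ℝ) < 1 / 2}
        else {u : I | ¬ (u : ℝ) < 1 / 2})} := by
    ext ω
    simp only [Lab, Set.mem_ofPred_eq, forall_mem_image, mem_univ, forall_const]
    refine forall_congr' fun i => ?_
    by_cases h : i ∈ S <;> simp [h]
  rw [this, cyl _ _ (1 / 2), card_image_of_injective _ Sum.inl_injective]
  · simp
  · intro x _
    split_ifs
    · exact vol_lt _ (by norm_num) (by norm_num)
    · rw [vol_ge _ (by norm_num) (by norm_num)]; norm_num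

theorem overlap_eq (a : ℝ) (S : Finset (Fin n)) {ω : Om n} (h : ω ∈ Lab S) :
    overlap a 0 t ω = |X (fBP a 0) (a / n) t S ω - X (fBP a 0) (a / n) t Sᶜ ω| / n := by
  have l1 : ∀ i ∈ S, lab ω i = 1 := fun i hi => if_pos ((h i).1 hi)
  have l2 : ∀ i ∈ Sᶜ, lab ω i = -1 := fun i hi => if_neg fun h' => mem_compl.1 hi ((h i).2 h')
  have key : ∀ (T : Finset (Fin n)) (c : ℝ), (∀ i ∈ T, lab ω i = c) → (∀ i ∉ T, lab ω i ≠ c) →
      ∑ i ∈ T, est (fBP a 0) (Adj a 0 ω) (h0 ω) (coin ω) t i * lab ω i =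
        X (fBP a 0) (a / n) t T ω * c := by
    intro T c h1 h2
    rw [X, Finset.sum_mul]
    refine Finset.sum_congr rfl fun i hi => ?_
    rw [h1 i hi, est_loc _ T (A' := AS (a / n) T ω) (fun i hi k => ?_) (fun i _ k hk => hk.2.2.1)
      (fun _ _ _ _ => rfl) (fun _ _ => rfl) t i hi]
    refine and_congr_right fun _ => ?_
    by_cases hk : k ∈ T
    · rw [if_pos (by rw [h1 i hi, h1 k hk])]
      simp [hi, hk, ed]
    · rw [if_neg (by rw [h1 i hi]; exact (h2 k hk).symm)]
      simp [hk, (ω _).2.1]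
  rw [overlap, ← Finset.sum_add_sum_compl S, key S 1 l1 fun i hi => ?_, key Sᶜ (-1) l2 fun i hi => ?_,
    abs_mul, abs_of_nonneg (by positivity)]
  · rw [mul_one, mul_neg, mul_one, ← sub_eq_add_neg]; ring
  · rw [l1 i (by simpa using hi)]; norm_num
  · rw [l2 i (by simpa using hi)]; norm_num

theorem Dep_disj (S : Finset (Fin n)) (x : Idx n) (h1 : x ∈ Dep Sᶜ) : x ∉ Dep S := by
  intro h2
  rcases x with i | e | q | i
  · exact h1
  · induction e using Sym2.ind with
    | _ i j => exact mem_compl.1 (h1 i (Sym2.mem_mk_left _ _)) (h2 i (Sym2.mem_mk_left _ _))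
  · exact mem_compl.1 h1 h2
  · exact mem_compl.1 h1 h2

theorem joint (hf : Measurable f) (S : Finset (Fin n)) (u v u' v' : ℝ) :
    (volume : Measure (Om n)).real
      (Lab S ∩ (X f p t S ⁻¹' Set.Icc u v ∩ X f p t Sᶜ ⁻¹' Set.Icc u' v')) =
      (1 / 2) ^ n * (ph f p t S u v * ph f p t Sᶜ u' v') := by
  have m1 := X_meas f p t hf S (measurableSet_Icc (a := u) (b := v))
  have m2 := X_meas f p t hf Sᶜ (measurableSet_Icc (a := u') (b := v'))
  have hr : ∀ (T : Finset (Fin n)), ∀ x ∈ Dep T, x ∉ Set.range (Sum.inl : Fin n → Idx n) := by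
    rintro T _ hx ⟨i, rfl⟩; exact hx
  rw [indep (Set.range Sum.inl) (Lab_meas S) (m1.inter m2), Lab_vol, indep (Dep S) m1 m2]
  · rfl
  · intro ω ω' h hω
    rw [Set.mem_preimage, ← X_dep f p t _ ω ω' h]; exact hω
  · intro ω ω' h hω
    rw [Set.mem_preimage, ← X_dep f p t _ ω ω' fun x hx => h x (Dep_disj S x hx)]; exact hω
  · intro ω ω' h hω i
    rw [← h _ ⟨i, rfl⟩]; exact hω i
  · intro ω ω' h hω
    rw [Set.mem_inter_iff, Set.mem_preimage, Set.mem_preimage,
      ← X_dep f p t _ ω ω' fun x hx => h x (hr _ x hx),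
      ← X_dep f p t _ ω ω' fun x hx => h x (hr _ x hx)]
    exact hω

theorem cb_lower (N : ℕ) (hN : 1 ≤ N) : (16 : ℝ) ^ N ≤ 4 * N * (N.centralBinom : ℝ) ^ 2 := by
  induction N, hN using Nat.le_induction with
  | base => norm_num [Nat.centralBinom]
  | succ N hN ih =>
    have h : ((N : ℝ) + 1) * (N + 1).centralBinom = 2 * (2 * N + 1) * N.centralBinom := by
      exact_mod_cast Nat.succ_mul_centralBinom_succ N
    have hN' : (1 : ℝ) ≤ N := by exact_mod_cast hN
    push_cast
    refine le_of_mul_le_mul_left (a := (N + 1 : ℝ)) ?_ (by positivity)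
    have e : ((N : ℝ) + 1) * (4 * (N + 1) * ((N + 1).centralBinom : ℝ) ^ 2) =
        16 * (2 * N + 1) ^ 2 * (N.centralBinom : ℝ) ^ 2 := by
      linear_combination (4 * ((N + 1) * ((N + 1).centralBinom : ℝ) +
        2 * (2 * N + 1) * N.centralBinom)) * h
    rw [e, pow_succ]
    have := sq_nonneg (N.centralBinom : ℝ)
    nlinarith

theorem near (N : ℕ) (hN : 1 ≤ N) : ∀ j ≤ N,
    (1 - (j : ℝ) ^ 2 / N) * N.centralBinom ≤ ((2 * N).choose (N - j) : ℝ) := by
  have hN' : (0 : ℝ) < N := by exact_mod_cast hN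
  intro j
  induction j with
  | zero => intro _; simp [Nat.centralBinom]
  | succ j ih =>
    intro hj
    have h1 := ih (by omega)
    have h2 : (((2 * N).choose (N - j) : ℝ)) * (N - j) = (2 * N).choose (N - (j + 1)) * (N + j + 1) := by
      have := Nat.choose_succ_right_eq (2 * N) (N - (j + 1))
      rw [show N - (j + 1) + 1 = N - j by omega, show 2 * N - (N - (j + 1)) = N + j + 1 by omega] at this
      have h3 : ((N - j : ℕ) : ℝ) = N - j := Nat.cast_sub (by omega)
      rw [← h3]; exact_mod_cast this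
    have hj' : (j : ℝ) + 1 ≤ N := by exact_mod_cast hj
    have hj0 : (0 : ℝ) ≤ j := by positivity
    have hc : (0 : ℝ) ≤ N.centralBinom := by positivity
    refine le_of_mul_le_mul_right (a := (N + j + 1 : ℝ)) ?_ (by positivity)
    rw [← h2]
    refine le_trans ?_ (mul_le_mul_of_nonneg_right h1 (by linarith))
    rw [mul_right_comm, mul_right_comm _ (N.centralBinom : ℝ)]
    refine mul_le_mul_of_nonneg_right ?_ hc
    push_cast
    rw [one_sub_div hN'.ne', one_sub_div hN'.ne', div_mul_eq_mul_div, div_mul_eq_mul_div]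
    refine div_le_div_of_nonneg_right ?_ hN'.le
    nlinarith [mul_nonneg hj0 hj0, mul_nonneg (mul_nonneg hj0 hj0) hj0]

theorem bad_lower (a ε : ℝ) (N ρ K : ℕ) (t : ℕ) (η err : ℝ) (hη : 0 < η) (hε : 0 < ε)
    (ha : 0 ≤ a) (haN : a < 2 * N) (hN : 1 ≤ N) (hρ : 2 * ρ ≤ N) (hρε : 2 * (ρ : ℝ) < ε * N)
    (hK : 4 < K * ε)
    (herr : ∀ s : ℕ, N - ρ ≤ s → s ≤ 2 * N → η / 2 + (1 / (s * (1 - a / (2 * N : ℕ)) ^ (s - 1)) +
      1 / (1 - a / (2 * N : ℕ)) - 1) / (2 * η) ≤ err) (he0 : 0 ≤ err)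
    (hre : 2 * ρ * err ≤ 1 / (2 * K)) :
    (∑ j ∈ range (ρ + 1), ((2 * N).choose (N - j) : ℝ)) * ((1 / 2) ^ (2 * N) * (1 / (2 * K ^ 2))) ≤
      (volume : Measure (Om (2 * N))).real {ω | overlap a 0 t ω < ε} := by
  classical
  have hN' : (0 : ℝ) < N := by exact_mod_cast hN
  have hK0 : (0 : ℝ) < K := by
    by_contra h
    have : (K : ℝ) = 0 := le_antisymm (not_lt.1 h) (by positivity)
    rw [this] at hK; linarith
  set p : ℝ := a / (2 * N : ℕ) with hp
  have hp0 : 0 ≤ p := by positivity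
  have hp1 : p < 1 := by rw [hp, div_lt_one (by positivity)]; push_cast; exact haN
  have hf := meas_fBP a 0
  let 𝒮 : Finset (Finset (Fin (2 * N))) :=
    (range (ρ + 1)).biUnion fun j => powersetCard (N - j) univ
  have hc : (𝒮.card : ℝ) = ∑ j ∈ range (ρ + 1), ((2 * N).choose (N - j) : ℝ) := by
    rw [card_biUnion]
    · simp
    · intro i hi j hj hij
      have := mem_range.1 hi
      have := mem_range.1 hj
      refine Finset.disjoint_left.2 fun S h1 h2 => hij ?_
      have := (mem_powersetCard.1 h1).2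
      have := (mem_powersetCard.1 h2).2
      omega
  have hS : ∀ S ∈ 𝒮, ∃ E : Set (Om (2 * N)), MeasurableSet E ∧ E ⊆ Lab S ∧
      E ⊆ {ω | overlap a 0 t ω < ε} ∧
      (1 / 2) ^ (2 * N) * (1 / (2 * (K : ℝ) ^ 2)) ≤ volume.real E := by
    intro S hS
    obtain ⟨j, hj, hSj⟩ := mem_biUnion.1 hS
    have hj' := mem_range.1 hj
    have hcard := (mem_powersetCard.1 hSj).2
    obtain ⟨u, hu⟩ := exists_bin (fBP a 0) (p := p) t S (ε * N) (by positivity) K (by
      push_cast; nlinarith)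
    have h2 := steps (fBP a 0) t hf hp0 hp1 η err hη (N - ρ) herr (S := S) (by omega) u (u + ε * N)
      (2 * j) Sᶜ (by rw [card_compl, Fintype.card_fin]; omega)
    have hjρ : (j : ℝ) ≤ ρ := by exact_mod_cast (by omega : j ≤ ρ)
    refine ⟨Lab S ∩ (X (fBP a 0) p t S ⁻¹' Set.Icc u (u + ε * N) ∩ X (fBP a 0) p t Sᶜ ⁻¹'
      Set.Icc (u - (2 * j : ℕ)) (u + ε * N + (2 * j : ℕ))), (Lab_meas S).inter
        ((X_meas _ p t hf S measurableSet_Icc).inter (X_meas _ p t hf _ measurableSet_Icc)),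
      Set.inter_subset_left, ?_, ?_⟩
    · rintro ω ⟨h1, h3, h4⟩
      rw [Set.mem_ofPred_eq, overlap_eq t a S h1, ← hp, div_lt_iff₀ (by positivity), abs_lt]
      obtain ⟨h5, h6⟩ := h3
      obtain ⟨h7, h8⟩ := h4
      push_cast at h7 h8 ⊢
      constructor <;> linarith
    · rw [joint _ t hf]
      refine mul_le_mul_of_nonneg_left ?_ (by positivity)
      have h3 : ((2 * j : ℕ) : ℝ) * err ≤ 1 / (2 * K) := by
        push_cast
        exact (mul_le_mul_of_nonneg_right (by linarith) he0).trans hre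
      have h4 : 1 / (2 * (K : ℝ) ^ 2) = 1 / K * (1 / K - 1 / (2 * K)) := by field_simp; ring
      rw [h4]
      refine mul_le_mul hu (by linarith) ?_ measureReal_nonneg
      rw [sub_nonneg]
      exact one_div_le_one_div_of_le hK0 (by linarith)
  choose! E hE using hS
  rw [← hc, ← nsmul_eq_mul, ← Finset.sum_const]
  refine (Finset.sum_le_sum fun S hS => (hE S hS).2.2.2).trans ?_
  rw [← measureReal_biUnion_finset ?_ fun S hS => (hE S hS).1]
  · exact measureReal_mono (Set.iUnion₂_subset fun S hS => (hE S hS).2.2.1)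
  · intro S hS T hT hST
    refine Set.disjoint_left.2 fun ω h1 h2 => hST ?_
    ext i
    rw [(hE S hS).2.1 h1 i, (hE T hT).2.1 h2 i]

theorem bad_eventually (a ε : ℝ) (ha : 0 ≤ a) (hε : 0 < ε) : ∃ c > 0, ∀ᶠ N : ℕ in atTop, ∀ t : ℕ,
    c ≤ (volume : Measure (Om (2 * N))).real {ω | overlap a 0 t ω < ε} := by
  obtain ⟨K, hK⟩ := exists_nat_gt (4 / ε)
  rw [div_lt_iff₀ hε] at hK
  have hK0 : (0 : ℝ) < K := by
    by_contra h
    have : (K : ℝ) = 0 := le_antisymm (not_lt.1 h) (by positivity)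
    rw [this] at hK; linarith
  set c0 := Real.exp (-a) / 2 with hc0
  have hc0p : 0 < c0 := by positivity
  set C := 2 / c0 + a with hC
  have hC0 : 0 ≤ C := by positivity
  set δ := min (1 / 2) (1 / (2 * K * (1 + C))) with hδ
  have hδ0 : 0 < δ := by positivity
  have hδ1 : δ ≤ 1 / 2 := min_le_left _ _
  have hδ2 : δ * (1 + C) ≤ 1 / (2 * K) := by
    have := min_le_right (1 / 2) (1 / (2 * K * (1 + C)))
    rw [← hδ, le_div_iff₀ (by positivity)] at this
    rw [le_div_iff₀ (by positivity)]; linarith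
  refine ⟨3 / 8 * δ * (1 / (2 * K ^ 2)), by positivity, ?_⟩
  have h2 : Tendsto (fun N : ℕ => 2 * N) atTop atTop :=
    tendsto_atTop_mono (fun N => by simp only [id]; omega) tendsto_id
  have h3 := ((Real.tendsto_one_add_div_pow_exp (-a)).comp h2).eventually
    (lt_mem_nhds (show c0 < Real.exp (-a) by linarith [Real.exp_pos (-a)]))
  filter_upwards [h3, eventually_ge_atTop 1,
    tendsto_natCast_atTop_atTop (R := ℝ).eventually_ge_atTop a,
    tendsto_natCast_atTop_atTop (R := ℝ).eventually_gt_atTop (1 / ε ^ 2)] with N h3 hN hNa hNε t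
  have hN' : (1 : ℝ) ≤ N := by exact_mod_cast hN
  set R := Real.sqrt N with hR
  have hR1 : 1 ≤ R := Real.one_le_sqrt.2 hN'
  have hRR : R * R = N := Real.mul_self_sqrt (by positivity)
  have hRε : 1 < ε * R := by
    rw [div_lt_iff₀ (by positivity)] at hNε
    by_contra h
    have h4 : 0 ≤ ε * R := by positivity
    nlinarith
  set ρ := ⌊δ * R⌋₊ with hρ
  have hρ1 : (ρ : ℝ) ≤ δ * R := Nat.floor_le (by positivity)
  have hρ2 : δ * R < ρ + 1 := Nat.lt_floor_add_one _
  have hρ3 : 2 * (ρ : ℝ) ≤ R := by nlinarith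
  have hρ4 : 2 * ρ ≤ N := by
    have : 2 * (ρ : ℝ) ≤ N := by nlinarith
    exact_mod_cast this
  refine le_trans ?_ (bad_lower a ε N ρ K t (1 / R) ((1 + C) / (2 * R)) (by positivity) hε ha
    (by linarith) hN hρ4 (by nlinarith) hK (fun s hs1 hs2 => ?_) (by positivity) ?_)
  · rw [← mul_assoc]
    refine mul_le_mul_of_nonneg_right ?_ (by positivity)
    have hcb : (0 : ℝ) ≤ N.centralBinom := by positivity
    have h4 : ∑ _j ∈ range (ρ + 1), 3 / 4 * (N.centralBinom : ℝ) ≤
        ∑ j ∈ range (ρ + 1), ((2 * N).choose (N - j) : ℝ) := by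
      refine Finset.sum_le_sum fun j hj => le_trans ?_ (near N hN j (by
        have := mem_range.1 hj; omega))
      refine mul_le_mul_of_nonneg_right ?_ hcb
      have hj' : (j : ℝ) ≤ ρ := by exact_mod_cast Nat.lt_succ_iff.1 (mem_range.1 hj)
      have : (j : ℝ) ^ 2 / N ≤ 1 / 4 := by
        rw [div_le_iff₀ (by positivity)]
        have : (0 : ℝ) ≤ j := by positivity
        nlinarith
      linarith
    have h5 : (4 : ℝ) ^ N ≤ 2 * R * N.centralBinom := by
      refine (pow_le_pow_iff_left₀ (by positivity) (by positivity) two_ne_zero).1 ?_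
      have := cb_lower N hN
      rw [← pow_mul, mul_comm N 2, pow_mul]
      norm_num
      nlinarith
    rw [Finset.sum_const, card_range, nsmul_eq_mul] at h4
    rw [pow_mul, show ((1 : ℝ) / 2) ^ 2 = 4⁻¹ by norm_num, inv_pow, ← div_eq_mul_inv,
      le_div_iff₀ (by positivity)]
    push_cast at h4
    nlinarith [mul_le_mul_of_nonneg_left h5 hδ0.le, mul_le_mul_of_nonneg_right hρ2.le hcb]
  · set p : ℝ := a / (2 * N : ℕ) with hp
    have hp' : p * (2 * N) = a := by rw [hp]; push_cast; field_simp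
    have hp0 : 0 ≤ p := by positivity
    have hp1 : p ≤ 1 / 2 := by nlinarith
    have h4 : c0 ≤ (1 - p) ^ (s - 1) := by
      have : (1 - p) ^ (2 * N) ≤ (1 - p) ^ (s - 1) :=
        pow_le_pow_of_le_one (by linarith) (by linarith) (by omega)
      refine le_trans (le_of_lt ?_) this
      simpa only [Function.comp, neg_div, ← sub_eq_add_neg] using h3
    have h5 : (N : ℝ) ≤ 2 * s := by exact_mod_cast (by omega : N ≤ 2 * s)
    have h6 : 1 / (s * (1 - p) ^ (s - 1)) ≤ 2 / c0 / N := by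
      rw [div_div, div_le_div_iff₀ (by nlinarith) (by positivity)]
      nlinarith
    have h7 : 1 / (1 - p) - 1 ≤ a / N := by
      have : a / N = 2 * p := by rw [← hp']; field_simp
      rw [this, sub_le_iff_le_add, div_le_iff₀ (by linarith)]
      nlinarith
    have h8 : 1 / (s * (1 - p) ^ (s - 1)) + 1 / (1 - p) - 1 ≤ C / (R * R) := by
      rw [hRR, hC, add_div]; linarith
    have h9 := div_le_div_of_nonneg_right h8 (by positivity : 0 ≤ 2 * (1 / R))
    have : (1 + C) / (2 * R) = 1 / R / 2 + C / (R * R) / (2 * (1 / R)) := by field_simp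
    linarith
  · refine le_trans ?_ hδ2
    rw [mul_div_assoc', div_le_iff₀ (by positivity)]
    nlinarith

end

end H60.BP
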