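import Mathlib

namespace Pool.Agent.H60.Bose

/-- affine equivalence of subsets of `ℤ/M` -/
def AffEq (M : ℕ) (A B : Set (ZMod M)) : Prop :=
  ∃ (d : ℕ) (s : ZMod M), Nat.Coprime d M ∧ B = (fun a => (d : ZMod M) * a + s) '' A

variable (F : Type) {K : Type} [Field F] [Field K] [Algebra F K] (θ : K)

/-- `θ^b` has degree `n` over `F` -/
def Adm (n b : ℕ) : Prop := (minpoly F (θ ^ b)).natDegree = n

/-- `{a mod M : θ^a = θ^b + v, v ∈ F}` -/
def BoseSet (M b : ℕ) : Set (ZMod M) := {a | ∃ v : F, θ ^ a.val = θ ^ b + algebraMap F K v}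

/-- `{a mod M : θ^a = u θ^b + v, u, v ∈ F}` -/
def SingerSet (M b : ℕ) : Set (ZMod M) :=
  {a | ∃ u v : F, θ ^ a.val = algebraMap F K u * θ ^ b + algebraMap F K v}

/-- admissible pairs satisfying (i), (ii) or (iii) -/
def RelB (p q h b e : ℕ) : Prop :=
  Adm F θ h b ∧ Adm F θ h e ∧
    (b ≡ e [MOD (q ^ h - 1) / (q - 1)] ∨ (∃ v : F, θ ^ b - θ ^ e = algebraMap F K v) ∨
      ∃ i : ℕ, b ≡ p ^ i * e [MOD q ^ h - 1])

/-- admissible pairs satisfying (iv), (v), (vi) or (vii) -/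
def RelS (p q h b e : ℕ) : Prop :=
  Adm F θ (h + 1) b ∧ Adm F θ (h + 1) e ∧
    (b ≡ e [MOD (q ^ (h + 1) - 1) / (q - 1)] ∨ (∃ i : ℕ, b ≡ p ^ i * e [MOD q ^ (h + 1) - 1]) ∨
      (∃ v : F, θ ^ b - θ ^ e = algebraMap F K v) ∨
      ∃ r t w c : F, (r, t) ≠ (0, 0) ∧
        algebraMap F K r * θ ^ b + algebraMap F K t * θ ^ (e + b) + algebraMap F K w * θ ^ e
          = algebraMap F K c)

end Pool.Agent.H60.Bose
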