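import Mathlib
import Pool.Agent.H60.BoseDefs

namespace Pool.Agent.H60.Bose

open Polynomial

section model
variable {R : Type*} [CommRing R] (x : R)

def ev : List ℕ → R
  | [] => 0
  | a :: l => a + x * ev l

def addm (p t : ℕ) : List ℕ → List ℕ → List ℕ
  | a :: l, r :: m => ((a + t * r) % p) :: addm p t l m
  | _, _ => []

theorem cast_mod {p : ℕ} (hp : (p : R) = 0) (n : ℕ) : ((n % p : ℕ) : R) = n := by
  conv_rhs => rw [← Nat.div_add_mod n p]
  push_cast; rw [hp]; ring

theorem ev_addm {p : ℕ} (hp : (p : R) = 0) (t : ℕ) : ∀ l m : List ℕ, l.length = m.length →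
    ev x (addm p t l m) = ev x l + t * ev x m ∧ (addm p t l m).length = m.length
  | [], [], _ => by simp [addm, ev]
  | [], _ :: _, h => by simp at h
  | _ :: _, [], h => by simp at h
  | a :: l, r :: m, h => by
    have ih := ev_addm hp t l m (by simpa using h)
    refine ⟨?_, by simp [addm, ih.2]⟩
    simp only [addm, ev, ih.1, cast_mod hp]
    push_cast; ring

theorem ev_last : ∀ l : List ℕ, x * ev x l = x * ev x l.dropLast + (l.getLastD 0 : ℕ) * x ^ l.length
  | [] => by simp [ev]
  | [a] => by simp [ev]; ring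
  | a :: b :: l => by
    have ih := ev_last (b :: l)
    have e1 : (a :: b :: l).dropLast = a :: (b :: l).dropLast := rfl
    have e2 : (a :: b :: l).getLastD 0 = (b :: l).getLastD 0 := rfl
    have e3 : ev x (a :: b :: l) = a + x * ev x (b :: l) := rfl
    have e4 : ev x (a :: (b :: l).dropLast) = a + x * ev x (b :: l).dropLast := rfl
    rw [e1, e2, e3, e4, ih]
    simp only [List.length_cons]; ring

def step (p : ℕ) (red l : List ℕ) : List ℕ := addm p (l.getLastD 0) (0 :: l.dropLast) red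

def pw (p : ℕ) (red : List ℕ) : ℕ → List ℕ
  | 0 => 1 :: List.replicate (red.length - 1) 0
  | k + 1 => step p red (pw p red k)

theorem ev_rep (n : ℕ) : ev x (List.replicate n 0) = 0 := by
  induction n with
  | zero => rfl
  | succ n ih => simp [List.replicate_succ, ev, ih]

theorem ev_pw {p : ℕ} (hp : (p : R) = 0) (red : List ℕ) (h0 : 0 < red.length)
    (hx : x ^ red.length = ev x red) (k : ℕ) :
    ev x (pw p red k) = x ^ k ∧ (pw p red k).length = red.length := by
  induction k with
  | zero => exact ⟨by simp [pw, ev, ev_rep], by simp [pw]; omega⟩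
  | succ k ih =>
    have h := ev_addm x hp ((pw p red k).getLastD 0) (0 :: (pw p red k).dropLast) red
      (by simp [ih.2]; omega)
    refine ⟨?_, h.2⟩
    have h2 := ev_last x (pw p red k)
    rw [ih.1, ih.2, hx] at h2
    simp only [pw, step]
    rw [h.1, pow_succ', h2]
    simp [ev]

def add1 (p : ℕ) : List ℕ → List ℕ
  | [] => [1]
  | a :: l => ((a + 1) % p) :: l

theorem ev_add1 {p : ℕ} (hp : (p : R) = 0) (l : List ℕ) : ev x (add1 p l) = ev x l + 1 := by
  cases l with
  | nil => simp [add1, ev]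
  | cons a l => simp only [add1, ev, cast_mod hp]; push_cast; ring

theorem zech {p : ℕ} (hp : (p : R) = 0) (red : List ℕ) (h0 : 0 < red.length)
    (hx : x ^ red.length = ev x red) {b c : ℕ} (h : pw p red c = add1 p (pw p red b)) :
    x ^ c = x ^ b + 1 := by
  rw [← (ev_pw x hp red h0 hx c).1, h, ev_add1 x hp, (ev_pw x hp red h0 hx b).1]

end model

theorem exists_root (p n : ℕ) [Fact p.Prime] (hn : n ≠ 0) (f : (ZMod p)[X]) (hf : f.degree ≠ 0)
    (h : (AdjoinRoot.root f) ^ p ^ n = AdjoinRoot.root f) :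
    ∃ θ : GaloisField p n, aeval θ f = 0 := by
  have hd : f ∣ X ^ p ^ n - X := by
    rw [← AdjoinRoot.mk_eq_zero, map_sub, map_pow, AdjoinRoot.mk_X, h, sub_self]
  have hs := FiniteField.splits_X_pow_nat_card_sub_X (p := p) (K := GaloisField p n)
  rw [GaloisField.card p n hn] at hs
  have hne : (X ^ p ^ n - X : (ZMod p)[X]) ≠ 0 :=
    FiniteField.X_pow_card_pow_sub_X_ne_zero _ hn (Fact.out : p.Prime).one_lt
  have h2 := hs.of_dvd (Polynomial.map_ne_zero hne) (Polynomial.map_dvd _ hd)
  obtain ⟨a, ha⟩ := h2.exists_eval_eq_zero (by rwa [Polynomial.degree_map])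
  exact ⟨a, by rwa [Polynomial.eval_map_algebraMap] at ha⟩

theorem adm_of (p n : ℕ) [Fact p.Prime] (hn : n ≠ 0) (θ : GaloisField p n)
    (ho : orderOf θ = p ^ n - 1) (b j : ℕ) (hb : (θ ^ b) ^ j = θ) : Adm (ZMod p) θ n b := by
  unfold Adm
  have hp : 1 < p ^ n := Nat.one_lt_pow hn (Fact.out : p.Prime).one_lt
  have h1 : θ ^ (p ^ n - 1) = 1 := ho ▸ pow_orderOf_eq_one θ
  have h0 : θ ≠ 0 := by
    rintro rfl
    rw [zero_pow (by omega)] at h1
    exact zero_ne_one h1
  conv_rhs => rw [← GaloisField.finrank p hn]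
  rw [← Field.primitive_element_iff_minpoly_natDegree_eq, eq_top_iff]
  intro y _
  by_cases hy : y = 0
  · rw [hy]; exact zero_mem _
  · have hu : orderOf (Units.mk0 θ h0) = Nat.card (GaloisField p n)ˣ := by
      rw [Nat.card_units, GaloisField.card p n hn, ← ho, ← orderOf_units]; rfl
    have ht : Subgroup.zpowers (Units.mk0 θ h0) = ⊤ := by
      rw [← Subgroup.card_eq_iff_eq_top, Nat.card_zpowers, hu]
    have hm : Units.mk0 y hy ∈ Subgroup.zpowers (Units.mk0 θ h0) := ht ▸ Subgroup.mem_top _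
    obtain ⟨k, hk⟩ := (mem_powers_iff_mem_zpowers.2 hm)
    have hk' : θ ^ k = y := by simpa using congrArg Units.val hk
    have := pow_mem (pow_mem (IntermediateField.mem_adjoin_simple_self (ZMod p) (θ ^ b)) j) k
    rwa [hb, hk'] at this

theorem frob_back {K : Type*} [Field K] (T : K → Prop) (p n : ℕ) (hn : n ≠ 0)
    (hK : ∀ y : K, y ^ p ^ n = y) (hT : ∀ y, T y → T (y ^ p)) (i : ℕ) (y : K) :
    T (y ^ p ^ i) ↔ T y := by
  have h1 : ∀ i y, T y → T (y ^ p ^ i) := by
    intro i y hy
    induction i with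
    | zero => simpa using hy
    | succ i ih => rw [pow_succ, pow_mul]; exact hT _ ih
  refine ⟨fun h => ?_, h1 i y⟩
  have h2 := h1 ((n - 1) * i) _ h
  have h3 : ∀ k, y ^ p ^ (n * k) = y := by
    intro k
    induction k with
    | zero => simp
    | succ k ih => rw [Nat.mul_succ, pow_add, pow_mul, ih, hK]
  rw [← pow_mul, ← pow_add] at h2
  have : i + (n - 1) * i = n * i := by
    obtain ⟨m, rfl⟩ : ∃ m, n = m + 1 := ⟨n - 1, by omega⟩
    simp; ring
  rwa [this, h3] at h2

end Pool.Agent.H60.Bose
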