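import Mathlib

set_option autoImplicit false

namespace Pool.Agent.H60.Br

open Finset Polynomial

/-- products of the Euclid-type sequence -/
def PP {S : Type*} [CommRing S] (y : S) : ℕ → S
  | 0 => 1
  | i + 1 => PP y i * (1 + y * PP y i)

def uu {S : Type*} [CommRing S] (y : S) (i : ℕ) : S := 1 + y * PP y i

theorem map_PP {S T : Type*} [CommRing S] [CommRing T] (f : S →+* T) (y : S) (i : ℕ) :
    f (PP y i) = PP (f y) i := by
  induction i with
  | zero => simp [PP]
  | succ i ih => simp [PP, ih]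

theorem map_uu {S T : Type*} [CommRing S] [CommRing T] (f : S →+* T) (y : S) (i : ℕ) :
    f (uu y i) = uu (f y) i := by simp [uu, map_PP]

theorem uu_dvd {S : Type*} [CommRing S] (y : S) {i j : ℕ} (h : i < j) : uu y i ∣ PP y j := by
  induction j with
  | zero => omega
  | succ j ih =>
    rcases Nat.lt_succ_iff_lt_or_eq.mp h with h | h
    · exact (ih h).mul_right _
    · subst h; exact Dvd.intro_left _ rfl

theorem uu_coprime {S : Type*} [CommRing S] (y : S) {i j : ℕ} (h : i ≠ j) :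
    IsCoprime (uu y i) (uu y j) := by
  have key : ∀ i j, i < j → IsCoprime (uu y i) (uu y j) := by
    intro i j h
    obtain ⟨c, hc⟩ := uu_dvd y h
    exact ⟨-(y * c), 1, by rw [uu.eq_1 y j, hc]; ring⟩
  rcases lt_or_gt_of_ne h with h | h
  · exact key i j h
  · exact (key j i h).symm

/-- a non-trivial pair of exponent vectors with disjoint supports -/
def Nt {N : ℕ} (a b : Fin N → ℕ) : Prop := (∀ i, a i = 0 ∨ b i = 0) ∧ ∃ i, a i ≠ 0 ∨ b i ≠ 0

theorem unit_of_rel {S : Type*} [CommRing S] (y : S) {N : ℕ} {a b : Fin N → ℕ} (h : Nt a b)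
    (e : ∏ i : Fin N, uu y i ^ a i = ∏ i : Fin N, uu y i ^ b i) : ∃ i : ℕ, IsUnit (uu y i) := by
  have key : ∀ a b : Fin N → ℕ, (∀ i, a i = 0 ∨ b i = 0) → ∀ i, a i ≠ 0 →
      ∏ i : Fin N, uu y i ^ a i = ∏ i : Fin N, uu y i ^ b i → IsUnit (uu y i) := by
    intro a b h i hi e
    have h1 : uu y i ∣ ∏ i : Fin N, uu y i ^ b i := by
      rw [← e]
      exact (dvd_pow_self _ hi).trans (dvd_prod_of_mem (fun i : Fin N => uu y i ^ a i) (mem_univ i))
    have h2 : IsCoprime (uu y i) (∏ i : Fin N, uu y i ^ b i) := by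
      refine IsCoprime.prod_right fun j _ => ?_
      by_cases hj : i = j
      · subst hj
        rw [(h i).resolve_left hi, pow_zero]; exact isCoprime_one_right
      · exact (uu_coprime y (fun e => hj (Fin.ext e))).pow_right
    exact h2.isUnit_of_dvd h1
  obtain ⟨i, hi | hi⟩ := h.2
  · exact ⟨i, key a b h.1 i hi e⟩
  · exact ⟨i, key b a (fun i => (h.1 i).symm) i hi e.symm⟩

theorem PP_pos {y : ℤ} (hy : 0 < y) (i : ℕ) : 0 < PP y i := by
  induction i with
  | zero => simp [PP]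
  | succ i ih => simp only [PP]; positivity

theorem int_rel {y : ℤ} (hy : 0 < y) {N : ℕ} {a b : Fin N → ℕ} (h : Nt a b) :
    ∏ i : Fin N, uu y i ^ a i ≠ ∏ i : Fin N, uu y i ^ b i := by
  intro e
  obtain ⟨i, hi⟩ := unit_of_rel y h e
  have := mul_pos hy (PP_pos hy i)
  rcases Int.isUnit_iff.mp hi with h1 | h1 <;> simp only [uu] at h1 <;> omega

theorem poly_rel {k : Type*} [CommRing k] [IsDomain k] {N : ℕ} {a b : Fin N → ℕ} (h : Nt a b) :
    ∏ i : Fin N, uu (X : k[X]) i ^ a i ≠ ∏ i : Fin N, uu (X : k[X]) i ^ b i := by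
  intro e
  obtain ⟨i, hi⟩ := unit_of_rel X h e
  have h0 : ∀ i, (PP (X : k[X]) i).coeff 0 = 1 := by
    intro i
    induction i with
    | zero => simp [PP]
    | succ i ih => simp [PP, ih]
  obtain ⟨r, -, hr⟩ := Polynomial.isUnit_iff.mp hi
  have := congrArg (fun f : k[X] => f.coeff 1) hr
  simp [uu, h0, Polynomial.coeff_one] at this

variable {V : Type*} [AddCommGroup V] [Module ℚ V] [FiniteDimensional ℚ V]

theorem intrel (v : Fin (Module.finrank ℚ V + 1) → V) :
    ∃ a b : Fin (Module.finrank ℚ V + 1) → ℕ, Nt a b ∧ ∑ i, a i • v i = ∑ i, b i • v i := by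
  have h1 : ¬ LinearIndependent ℚ v := fun h => by
    have := h.fintype_card_le_finrank
    simp at this
  rw [← LinearIndependent.iff_fractionRing ℤ ℚ, Fintype.not_linearIndependent_iff] at h1
  obtain ⟨g, hg, i, hi⟩ := h1
  refine ⟨fun i => (g i).toNat, fun i => (-g i).toNat, ⟨fun i => by dsimp only; omega, i, by dsimp only; omega⟩, ?_⟩
  rw [← sub_eq_zero, ← sum_sub_distrib, ← hg]
  refine sum_congr rfl fun i _ => ?_
  rw [← natCast_zsmul, ← natCast_zsmul, ← sub_smul]
  congr 1; dsimp only; omega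

structure Log {U : Type*} [CommRing U] (I : Ideal U) (ψ : U → V) : Prop where
  mul : ∀ u v, u - 1 ∈ I → v - 1 ∈ I → ψ (u * v) = ψ u + ψ v
  inj : ∀ u v, u - 1 ∈ I → v - 1 ∈ I → ψ u = ψ v → u = v

variable {U : Type*} [CommRing U] {I : Ideal U} {ψ : U → V}

theorem mM {u v : U} (hu : u - 1 ∈ I) (hv : v - 1 ∈ I) : u * v - 1 ∈ I := by
  have : u * v - 1 = u * (v - 1) + (u - 1) := by ring
  rw [this]; exact I.add_mem (I.mul_mem_left _ hv) hu

theorem pM {u : U} (hu : u - 1 ∈ I) (k : ℕ) : u ^ k - 1 ∈ I := by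
  induction k with
  | zero => simp
  | succ k ih => rw [pow_succ]; exact mM ih hu

theorem prodM {ι : Type*} (s : Finset ι) {u : ι → U} (hu : ∀ i, u i - 1 ∈ I) :
    ∏ i ∈ s, u i - 1 ∈ I :=
  prod_induction u (fun x => x - 1 ∈ I) (fun _ _ => mM) (by simp) (fun i _ => hu i)

omit [FiniteDimensional ℚ V] [Module ℚ V] in
theorem Log.one (h : Log I ψ) : ψ 1 = 0 := by
  have := h.mul 1 1 (by simp) (by simp)
  simpa using this

omit [FiniteDimensional ℚ V] [Module ℚ V] in
theorem Log.pow (h : Log I ψ) {u : U} (hu : u - 1 ∈ I) (k : ℕ) : ψ (u ^ k) = k • ψ u := by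
  induction k with
  | zero => simp [h.one]
  | succ k ih => rw [pow_succ, h.mul _ _ (pM hu k) hu, ih, succ_nsmul]

omit [FiniteDimensional ℚ V] [Module ℚ V] in
theorem Log.prod (h : Log I ψ) {ι : Type*} (s : Finset ι) {u : ι → U} (hu : ∀ i, u i - 1 ∈ I) :
    ψ (∏ i ∈ s, u i) = ∑ i ∈ s, ψ (u i) := by
  classical
  induction s using Finset.induction_on with
  | empty => simp [h.one]
  | insert a s ha ih => rw [prod_insert ha, sum_insert ha, h.mul _ _ (hu a) (prodM s hu), ih]

omit [FiniteDimensional ℚ V] [Module ℚ V] in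
theorem Log.prod_eq (h : Log I ψ) {ι : Type*} [Fintype ι] {u : ι → U} (hu : ∀ i, u i - 1 ∈ I)
    {a b : ι → ℕ} (e : ∑ i, a i • ψ (u i) = ∑ i, b i • ψ (u i)) :
    ∏ i, u i ^ a i = ∏ i, u i ^ b i := by
  apply h.inj _ _ (prodM _ fun i => pM (hu i) _) (prodM _ fun i => pM (hu i) _)
  rw [h.prod _ fun i => pM (hu i) _, h.prod _ fun i => pM (hu i) _]
  simp only [h.pow (hu _)]; exact e

theorem Log.rel (h : Log I ψ) {y : U} (hy : y ∈ I) :
    ∃ (N : ℕ) (a b : Fin N → ℕ), Nt a b ∧ ∏ i : Fin N, uu y i ^ a i = ∏ i : Fin N, uu y i ^ b i := by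
  obtain ⟨a, b, hab, e⟩ := intrel (fun i => ψ (uu y i))
  exact ⟨_, a, b, hab, h.prod_eq (u := fun i : Fin _ => uu y i)
    (fun i => by simpa [uu] using I.mul_mem_right _ hy) e⟩

omit [FiniteDimensional ℚ V] [Module ℚ V] in
theorem Log.cancel (h : Log I ψ) {u y : U} (hu : u - 1 ∈ I) (hy : y ∈ I) (e : u * y = 0) :
    y = 0 := by
  have h1 := h.mul u (1 + y) hu (by simpa using hy)
  rw [mul_add, mul_one, e, add_zero] at h1
  have h2 : ψ (1 + y) = ψ 1 := by rw [h.one]; simpa using h1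
  simpa using h.inj _ _ (by simpa using hy) (by simp) h2

theorem Log.core (h : Log I ψ) {x : U} (hx : x ∈ I) (k : Type) [CommRing k] [IsDomain k]
    (hs : Function.Surjective (Int.castRingHom k)) (hk : ∀ m : ℤ, (m : k) = 0 → (m : U) * x = 0) :
    ∃ (d : ℕ) (b : ℤ) (w : U), w ∈ I ∧ (b : k) ≠ 0 ∧ x ^ (d + 1) * w = x ^ (d + 1) * b := by
  obtain ⟨N, a, b, hab, e⟩ := h.rel hx
  set g : ℤ[X] := ∏ i : Fin N, uu X i ^ a i - ∏ i : Fin N, uu X i ^ b i with hg
  have hg0 : aeval x g = 0 := by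
    have := map_uu (aeval x : ℤ[X] →ₐ[ℤ] U).toRingHom X
    simp only [AlgHom.toRingHom_eq_coe, RingHom.coe_coe, aeval_X] at this
    simp only [hg, map_sub, map_prod, map_pow, this, e, sub_self]
  have hg1 : g.map (Int.castRingHom k) ≠ 0 := by
    have := map_uu (mapRingHom (Int.castRingHom k)) X
    simp only [coe_mapRingHom, map_X] at this
    simp only [hg, Polynomial.map_sub, Polynomial.map_prod, Polynomial.map_pow, this]
    exact sub_ne_zero.mpr (poly_rel hab)
  obtain ⟨q, hq, hq0⟩ := exists_eq_pow_rootMultiplicity_mul_and_not_dvd _ hg1 0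
  simp only [map_zero, sub_zero] at hq hq0
  generalize rootMultiplicity 0 (g.map (Int.castRingHom k)) = d at hq
  obtain ⟨q', rfl⟩ := Polynomial.map_surjective _ hs q
  have h1 : x * aeval x (g - X ^ d * q') = 0 := by
    rw [aeval_eq_sum_range, mul_sum]
    refine sum_eq_zero fun i _ => ?_
    have : (((g - X ^ d * q').coeff i : ℤ) : k) = 0 := by
      have e1 : (g - X ^ d * q').map (Int.castRingHom k) = 0 := by
        rw [Polynomial.map_sub, hq]; simp
      have := congrArg (fun f : k[X] => f.coeff i) e1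
      simpa only [coeff_map, coeff_zero, eq_intCast] using this
    have := hk _ this
    rw [zsmul_eq_mul]
    linear_combination x ^ i * this
  refine ⟨d, q'.coeff 0, -(x * aeval x q'.divX), I.neg_mem (I.mul_mem_right _ hx), ?_, ?_⟩
  · intro e0
    apply hq0
    rw [X_dvd_iff, coeff_map]; simpa using e0
  · have e2 := congrArg (aeval x) (X_mul_divX_add q')
    simp only [map_add, map_mul, aeval_X, eq_intCast, map_intCast] at e2
    simp only [map_sub, hg0, map_mul, map_pow, aeval_X, ← e2] at h1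
    linear_combination h1

theorem Log.tf_prime (h : Log I ψ) {x : U} (hx : x ∈ I) {p : ℕ} (hp : p.Prime)
    (e : (p : U) * x = 0) : x = 0 := by
  have := Fact.mk hp
  have hk : ∀ m : ℤ, (m : ZMod p) = 0 → (m : U) * x = 0 := by
    intro m hm
    obtain ⟨c, rfl⟩ := (ZMod.intCast_zmod_eq_zero_iff_dvd m p).mp hm
    push_cast
    linear_combination (c : U) * e
  obtain ⟨d, b, w, hw, hb, e1⟩ := h.core hx (ZMod p) (ZMod.ringHom_surjective _) hk
  obtain ⟨c, hc⟩ := ZMod.ringHom_surjective (Int.castRingHom (ZMod p)) (-(b : ZMod p)⁻¹)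
  have h1 := hk (1 + c * b) (by
    push_cast
    rw [show ((c : ℤ) : ZMod p) = -(b : ZMod p)⁻¹ from hc]
    field_simp; ring)
  have h2 : x ^ (d + 1) = 0 := by
    apply h.cancel (u := 1 + c * w) (by simpa using I.mul_mem_left _ hw)
      (I.pow_mem_of_mem hx _ (by omega))
    push_cast at h1
    linear_combination (c : U) * e1 + x ^ d * h1
  have h3 : ∀ j : ℕ, (1 + x) ^ p ^ j = 1 + x ^ p ^ j := by
    intro j
    induction j with
    | zero => simp
    | succ j ih =>
      rw [pow_succ, pow_mul, ih, pow_mul]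
      obtain ⟨r, hr⟩ := exists_add_pow_prime_eq hp (1 : U) (x ^ p ^ j)
      obtain ⟨m, hm⟩ : ∃ m, p ^ j = m + 1 := ⟨p ^ j - 1, by have := pow_pos hp.pos j; omega⟩
      rw [hr, one_pow, hm]
      linear_combination (x ^ m * r) * e
  have h4 := h3 (d + 1)
  have h5 : d + 1 ≤ p ^ (d + 1) := (Nat.lt_pow_self hp.one_lt).le
  rw [pow_eq_zero_of_le h5 h2, add_zero] at h4
  have h6 := h.pow (u := 1 + x) (by simpa using hx) (p ^ (d + 1))
  rw [h4, h.one, ← Nat.cast_smul_eq_nsmul ℚ] at h6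
  have h7 : ψ (1 + x) = ψ 1 := by
    rw [h.one]
    exact (smul_eq_zero.mp h6.symm).resolve_left (by exact_mod_cast (pow_pos hp.pos _).ne')
  simpa using h.inj _ _ (by simpa using hx) (by simp) h7

theorem Log.tf (h : Log I ψ) {k : ℕ} (hk : k ≠ 0) {x : U} (hx : x ∈ I) (e : (k : U) * x = 0) :
    x = 0 := by
  induction k using Nat.recOnMul generalizing x with
  | zero => exact absurd rfl hk
  | one => simpa using e
  | prime p hp => exact h.tf_prime hx hp e
  | mul a b iha ihb =>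
    apply ihb (right_ne_zero_of_mul hk) hx
    apply iha (left_ne_zero_of_mul hk) (I.mul_mem_left _ hx)
    push_cast at e; linear_combination e

theorem Log.tfz (h : Log I ψ) {k : ℤ} (hk : k ≠ 0) {x : U} (hx : x ∈ I) (e : (k : U) * x = 0) :
    x = 0 := by
  apply h.tf (k := k.natAbs) (by omega) hx
  rcases Int.natAbs_eq k with h1 | h1
  · rw [h1] at e; simpa using e
  · rw [h1] at e; simpa using e

theorem Log.nil (h : Log I ψ) {x : U} (hx : x ∈ I) : IsNilpotent x := by
  obtain ⟨d, b, w, hw, hb, e1⟩ := h.core hx ℤ (fun m => ⟨m, rfl⟩) (fun m hm => by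
    rw [show m = 0 from hm]; simp)
  obtain ⟨N, a, c, hac, e⟩ := h.rel (y := w * w) (I.mul_mem_left _ hw)
  let J : Ideal U := (LinearMap.mulLeft U (x ^ (d + 1))).ker
  have hJ : Ideal.Quotient.mk J (w * w) = Ideal.Quotient.mk J ((b * b : ℤ) : U) := by
    rw [Ideal.Quotient.eq]
    change x ^ (d + 1) * _ = 0
    push_cast
    linear_combination (w + b) * e1
  have h2 : ∀ i, Ideal.Quotient.mk J (uu (w * w) i) = Ideal.Quotient.mk J ((uu (b * b) i : ℤ) : U) := by
    intro i
    rw [map_uu, hJ, ← map_uu]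
    congr 1
    exact (map_uu (Int.castRingHom U) _ i).symm
  have h3 := congrArg (Ideal.Quotient.mk J) e
  simp only [map_prod, map_pow, h2] at h3
  have h4 : ((∏ i : Fin N, uu (b * b) i ^ a i - ∏ i : Fin N, uu (b * b) i ^ c i : ℤ) : U) ∈ J := by
    rw [← Ideal.Quotient.eq_zero_iff_mem]
    push_cast
    simp only [map_sub, map_prod, map_pow, h3, sub_self]
  refine ⟨d + 1, h.tfz (sub_ne_zero.mpr (int_rel (mul_self_pos.mpr hb) hac))
    (I.pow_mem_of_mem hx _ (by omega)) ?_⟩
  rw [mul_comm]; exact h4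

end Pool.Agent.H60.Br
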