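import Pool.Agent.H60.BrA

set_option autoImplicit false

namespace Pool.Agent.H60.Br

open Finset

variable {V : Type*} [AddCommGroup V] [Module ℚ V] [FiniteDimensional ℚ V]
variable {U : Type*} [CommRing U] {I : Ideal U} {ψ : U → V}

/-- if `y^m (k + y s) = 0`-type cancellation -/
theorem Log.nilcancel (h : Log I ψ) {k : ℕ} (hk : k ≠ 0) {y s w : U} (hy : y ∈ I) (hw : w ∈ I)
    (e : w * (k + y * s) = 0) : w = 0 := by
  obtain ⟨m, hm⟩ := h.nil hy
  have : ∀ j, y ^ (m - j) * w = 0 := by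
    intro j
    induction j with
    | zero => simp [hm]
    | succ j ih =>
      by_cases hj : m ≤ j
      · rw [show m - (j + 1) = m - j by omega]; exact ih
      · apply h.tf hk (I.mul_mem_left _ hw)
        rw [show m - j = m - (j + 1) + 1 by omega] at ih
        linear_combination y ^ (m - (j + 1)) * e - s * ih
  simpa using this m

theorem one_add_pow' (y : U) (k : ℕ) : ∃ s, (1 + y) ^ k = 1 + y * (k + y * s) := by
  induction k with
  | zero => exact ⟨0, by simp⟩
  | succ k ih =>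
    obtain ⟨s, hs⟩ := ih
    exact ⟨s + k + y * s, by rw [pow_succ, hs]; push_cast; ring⟩

def Dv (I : Ideal U) (p : ℕ) (a : U) : Prop := ∀ n : ℕ, ∃ b ∈ I, a = (p : U) ^ n * b

theorem Dv.mem {p : ℕ} {a : U} (h : Dv I p a) : a ∈ I := by
  obtain ⟨b, hb, e⟩ := h 0
  simpa [e] using hb

theorem Dv.mul {p : ℕ} {a : U} (h : Dv I p a) (c : U) : Dv I p (a * c) := by
  intro n
  obtain ⟨b, hb, e⟩ := h n
  exact ⟨b * c, I.mul_mem_right _ hb, by rw [e]; ring⟩

theorem Dv.add {p : ℕ} {a c : U} (h : Dv I p a) (h' : Dv I p c) : Dv I p (a + c) := by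
  intro n
  obtain ⟨b, hb, e⟩ := h n
  obtain ⟨b', hb', e'⟩ := h' n
  exact ⟨b + b', I.add_mem hb hb', by rw [e, e']; ring⟩

theorem Log.div (h : Log I ψ) {p : ℕ} (hp : p ≠ 0) {a : U} (ha : Dv I p a) :
    ∃ b, Dv I p b ∧ a = p * b := by
  obtain ⟨b, hb, e⟩ := ha 1
  refine ⟨b, fun n => ?_, by simpa using e⟩
  obtain ⟨c, hc, e'⟩ := ha (n + 1)
  refine ⟨c, hc, sub_eq_zero.mp (h.tf hp (I.sub_mem hb (I.mul_mem_left _ hc)) ?_)⟩
  linear_combination e' - e

theorem Log.root (h : Log I ψ) {p : ℕ} (hp : p ≠ 0) (m : ℕ) :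
    ∀ a, Dv I p a → a ^ (m + 1) = 0 → ∃ b, Dv I p b ∧ (1 + b) ^ p = 1 + a := by
  induction m with
  | zero => intro a _ e; exact ⟨0, fun n => ⟨0, I.zero_mem, by simp⟩, by
      rw [show a = 0 by simpa using e, add_zero, one_pow]⟩
  | succ m ih =>
    intro a ha e
    obtain ⟨b, hb, rfl⟩ := h.div hp ha
    have hb0 : b ^ (m + 2) = 0 := by
      apply h.tf (pow_ne_zero (m + 2) hp) (I.pow_mem_of_mem hb.mem _ (by omega))
      push_cast; rw [← mul_pow]; exact e
    obtain ⟨s, hs⟩ := one_add_pow' b p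
    obtain ⟨v, hv⟩ : IsUnit ((1 + b) ^ p) := (IsNilpotent.isUnit_one_add ⟨_, hb0⟩).pow p
    obtain ⟨c, hc, e1⟩ := ih (b * (-(b * s) * ↑v⁻¹)) (hb.mul _) (by
      rw [show b * (-(b * s) * ↑v⁻¹) = b ^ 2 * (-s * ↑v⁻¹) by ring, mul_pow, ← pow_mul,
        pow_eq_zero_of_le (show m + 2 ≤ 2 * (m + 1) by omega) hb0, zero_mul])
    refine ⟨b + c + b * c, (hb.add hc).add (hb.mul _), ?_⟩
    rw [show 1 + (b + c + b * c) = (1 + b) * (1 + c) by ring, mul_pow, e1]
    have hvv : (1 + b) ^ p * ↑v⁻¹ = 1 := by rw [← hv]; simp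
    linear_combination hs - b * b * s * hvv

theorem Log.dv_log (h : Log I ψ) {p : ℕ} (hp : p ≠ 0) (n : ℕ) {a : U} (ha : Dv I p a) :
    ∃ b ∈ I, ψ (1 + a) = p ^ n • ψ (1 + b) := by
  induction n generalizing a with
  | zero => exact ⟨a, ha.mem, by simp⟩
  | succ n ih =>
    obtain ⟨m, hm⟩ := h.nil ha.mem
    obtain ⟨b, hb, e⟩ := h.root hp m a ha (by rw [pow_succ, hm, zero_mul])
    obtain ⟨c, hc, e'⟩ := ih hb
    exact ⟨c, hc, by rw [← e, h.pow (by simpa using hb.mem), e', smul_smul, pow_succ']⟩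

theorem pow_mem_ideal (p : ℕ) (y : U) (j : ℕ) :
    (1 + y) ^ p ^ j - 1 ∈ (Ideal.span {(p : U)} ⊔ Ideal.span {y}) ^ j * Ideal.span {y} := by
  induction j with
  | zero => simp
  | succ j ih =>
    set w := (1 + y) ^ p ^ j - 1 with hw
    obtain ⟨s, hs⟩ := one_add_pow' w p
    have e : (1 + y) ^ p ^ (j + 1) - 1 = (p + w * s) * w := by
      rw [pow_succ, pow_mul, show (1 + y) ^ p ^ j = 1 + w by rw [hw]; ring, hs]; ring
    rw [e, pow_succ', mul_assoc]
    refine Ideal.mul_mem_mul ?_ ih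
    refine Ideal.add_mem _ (Ideal.mem_sup_left (Ideal.mem_span_singleton_self _))
      (Ideal.mem_sup_right (Ideal.mul_mem_right _ _ (Ideal.mul_le_right ih)))

theorem Log.log_dv (h : Log I ψ) {p : ℕ} (hp : p ≠ 0) {a : U} (ha : a ∈ I)
    (hd : ∀ n : ℕ, ∃ b ∈ I, ψ (1 + a) = p ^ n • ψ (1 + b)) : Dv I p a := by
  intro k
  obtain ⟨m, hm⟩ := h.nil ha
  obtain ⟨b, hb, e⟩ := hd (k + m)
  have e1 : 1 + a = (1 + b) ^ p ^ (k + m) :=
    h.inj _ _ (by simpa using ha) (pM (by simpa using hb) _)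
      (by rw [e, h.pow (by simpa using hb)])
  obtain ⟨s, hs⟩ := one_add_pow' b (p ^ (k + m))
  have e2 : a = b * ((p ^ (k + m) : ℕ) + b * s) := by linear_combination e1 + hs
  have hbm : b ^ (m + 1) = 0 := by
    have : ∀ j, b ^ (m + 1) * ((p ^ (k + m) : ℕ) + b * s) ^ j = 0 → b ^ (m + 1) = 0 := by
      intro j
      induction j with
      | zero => simp
      | succ j ih =>
        intro e
        apply ih
        apply h.nilcancel (pow_ne_zero (k + m) hp) (s := s) hb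
          (I.mul_mem_right _ (I.pow_mem_of_mem hb _ (by omega)))
        rw [← e]; ring
    apply this m
    rw [pow_succ', mul_assoc, ← mul_pow, ← e2, hm, mul_zero]
  have h1 := pow_mem_ideal p b (k + m)
  rw [← e1, add_sub_cancel_left] at h1
  have h2 := Ideal.mul_mono_left (Ideal.sup_pow_add_le_pow_sup_pow (n := k) (m := m)) h1
  rw [Ideal.sup_mul, Ideal.span_singleton_pow, Ideal.span_singleton_pow,
    Ideal.span_singleton_mul_span_singleton, Ideal.span_singleton_mul_span_singleton, ← pow_succ,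
    hbm, Ideal.span_singleton_eq_bot.mpr rfl, sup_bot_eq, Ideal.mem_span_singleton] at h2
  obtain ⟨c, hc⟩ := h2
  exact ⟨b * c, I.mul_mem_right _ hb, by rw [hc]; ring⟩

theorem Log.ann (h : Log I ψ) {w y : U} (hw : w ∈ I) (hy : y ∈ I) {ι : Type*} [Fintype ι]
    {z : ι → U} (hz : ∀ i, z i ∈ I) (h0 : ∀ i, z i * w = 0) {k : ℕ} (hk : k ≠ 0) {a : ι → ℤ}
    (e : k • ψ (1 + y) = ∑ i, a i • ψ (1 + z i)) : y * w = 0 := by
  have hz' : ∀ i, (1 + z i) - 1 ∈ I := fun i => by simpa using hz i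
  have hy' : (1 + y) - 1 ∈ I := by simpa using hy
  have e1 : (1 + y) ^ k * ∏ i, (1 + z i) ^ (-a i).toNat = ∏ i, (1 + z i) ^ (a i).toNat := by
    apply h.inj _ _ (mM (pM hy' _) (prodM _ fun i => pM (hz' i) _)) (prodM _ fun i => pM (hz' i) _)
    rw [h.mul _ _ (pM hy' _) (prodM _ fun i => pM (hz' i) _), h.prod _ fun i => pM (hz' i) _,
      h.prod _ fun i => pM (hz' i) _, h.pow hy', e, ← sum_add_distrib]
    refine sum_congr rfl fun i _ => ?_
    rw [h.pow (hz' i), h.pow (hz' i), ← natCast_zsmul, ← natCast_zsmul, ← add_smul]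
    congr 1; omega
  let J : Ideal U := (LinearMap.mulLeft U w).ker
  have hJ : ∀ c : ι → ℕ, w * ∏ i, (1 + z i) ^ c i = w := by
    intro c
    have : ∏ i, (1 + z i) ^ c i - 1 ∈ J := prodM (I := J) _ fun i => pM (by
      change w * _ = 0
      linear_combination h0 i) _
    change w * _ = 0 at this
    linear_combination this
  obtain ⟨s, hs⟩ := one_add_pow' y k
  apply h.nilcancel hk (s := s) hy (I.mul_mem_left _ hw)
  have e2 := congrArg (w * ·) e1
  beta_reduce at e2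
  rw [hJ, mul_left_comm, hJ, hs] at e2
  linear_combination e2

/-! ### non-unital version -/

structure NLog {R : Type*} [NonUnitalCommRing R] (φ : R → V) : Prop where
  mul : ∀ a b, φ (a + b + a * b) = φ a + φ b
  inj : Function.Injective φ

variable {R : Type*} [NonUnitalCommRing R] {φ : R → V}

def augI (R : Type*) [NonUnitalCommRing R] : Ideal (Unitization ℤ R) :=
  RingHom.ker (Unitization.fstHom ℤ R).toRingHom

theorem mem_augI {u : Unitization ℤ R} : u ∈ augI R ↔ u.fst = 0 := Iff.rfl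

theorem inr_mem (a : R) : (a : Unitization ℤ R) ∈ augI R := by simp [mem_augI]

theorem of_mem {u : Unitization ℤ R} (h : u ∈ augI R) : ∃ a : R, u = a :=
  ⟨u.snd, by ext <;> simp [mem_augI.mp h]⟩

omit [Module ℚ V] [FiniteDimensional ℚ V] in
theorem NLog.log (h : NLog φ) : Log (augI R) (fun u : Unitization ℤ R => φ u.snd) := by
  have key : ∀ u : Unitization ℤ R, u - 1 ∈ augI R → u.fst = 1 := by
    intro u hu
    have := mem_augI.mp hu
    rw [sub_eq_add_neg, Unitization.fst_add, Unitization.fst_neg, Unitization.fst_one] at this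
    linarith
  constructor
  · intro u v hu hv
    rw [Unitization.snd_mul, key u hu, key v hv, one_smul, one_smul, add_comm v.snd, h.mul]
  · intro u v hu hv e
    ext
    · rw [key u hu, key v hv]
    · exact h.inj e

def cst (U : Type*) [CommRing U] (k : ℕ) : U := k
theorem cst_succ (U : Type*) [CommRing U] (k : ℕ) : cst U (k + 1) = cst U k + 1 := by simp [cst]
theorem cst_zero (U : Type*) [CommRing U] : cst U 0 = 0 := by simp [cst]
theorem cst_pow (U : Type*) [CommRing U] (k n : ℕ) : cst U (k ^ n) = cst U k ^ n := by simp [cst]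

theorem inr_nsmul (k : ℕ) (b : R) :
    ((k • b : R) : Unitization ℤ R) = cst (Unitization ℤ R) k * b := by
  induction k with
  | zero => simp [cst_zero]
  | succ k ih => rw [succ_nsmul, Unitization.inr_add, ih, cst_succ, add_mul, one_mul]

def NDv (p : ℕ) (a : R) : Prop := ∀ n : ℕ, ∃ b, a = p ^ n • b

theorem ndv_iff {p : ℕ} {a : R} : NDv p a ↔ Dv (augI R) p (a : Unitization ℤ R) := by
  refine forall_congr' fun n => ⟨?_, ?_⟩
  · rintro ⟨b, rfl⟩
    exact ⟨b, inr_mem b, by rw [inr_nsmul, cst_pow]; rfl⟩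
  · rintro ⟨b, hb, e⟩
    obtain ⟨b, rfl⟩ := of_mem hb
    refine ⟨b, Unitization.inr_injective (R := ℤ) ?_⟩
    rw [e, inr_nsmul, cst_pow]; rfl

theorem NLog.tf (h : NLog φ) {k : ℕ} (hk : k ≠ 0) {x : R} (e : k • x = 0) : x = 0 := by
  apply Unitization.inr_injective (R := ℤ)
  rw [Unitization.inr_zero]
  apply h.log.tf hk (inr_mem x)
  rw [← nsmul_eq_mul, ← Unitization.inr_smul, e, Unitization.inr_zero]

theorem NLog.dv_iff (h : NLog φ) {p : ℕ} (hp : p ≠ 0) {a : R} :
    NDv p a ↔ ∀ n : ℕ, ∃ b, φ a = p ^ n • φ b := by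
  rw [ndv_iff]
  constructor
  · intro ha n
    obtain ⟨b, -, e⟩ := h.log.dv_log hp n ha
    exact ⟨b.snd, by simpa using e⟩
  · intro ha
    refine h.log.log_dv hp (inr_mem a) fun n => ?_
    obtain ⟨b, e⟩ := ha n
    exact ⟨b, inr_mem b, by simpa using e⟩

theorem NLog.ann (h : NLog φ) {w y : R} {ι : Type*} [Fintype ι]
    {z : ι → R} (h0 : ∀ i, z i * w = 0) {k : ℕ} (hk : k ≠ 0) {a : ι → ℤ}
    (e : k • φ y = ∑ i, a i • φ (z i)) : y * w = 0 := by
  apply Unitization.inr_injective (R := ℤ)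
  rw [Unitization.inr_zero, Unitization.inr_mul]
  refine h.log.ann (inr_mem w) (inr_mem y) (z := fun i => (z i : Unitization ℤ R))
    (fun i => inr_mem _) (fun i => ?_) hk (a := a) (by simpa using e)
  rw [← Unitization.inr_mul, h0, Unitization.inr_zero]

theorem NDv.mul {p : ℕ} {a : R} (h : NDv p a) (c : R) : NDv p (a * c) := by
  intro n
  obtain ⟨b, e⟩ := h n
  exact ⟨b * c, by rw [e, smul_mul_assoc]⟩

end Pool.Agent.H60.Br
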