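import Pool.Agent.H60.BrB

set_option autoImplicit false

namespace Pool.Agent.H60.Br

open Finset

variable {A : Type*} [AddCommGroup A] [Group A]

def IsBr (A : Type*) [AddCommGroup A] [Group A] : Prop :=
  ∀ a b c : A, a * (b + c) = a * b - a + a * c

def st (a b : A) : A := a * b - a - b

theorem mul_eq (a b : A) : a * b = a + b + st a b := by unfold st; abel

theorem IsBr.mul_zero (h : IsBr A) (a : A) : a * 0 = a := by
  have := h a 0 0
  rw [add_zero] at this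
  have h2 : a * 0 - a = 0 := by simpa using this
  exact sub_eq_zero.mp h2

theorem IsBr.one (h : IsBr A) : (1 : A) = 0 := by
  have := h.mul_zero 1
  rw [one_mul] at this; exact this.symm

theorem IsBr.st_add (h : IsBr A) (a b c : A) : st a (b + c) = st a b + st a c := by
  unfold st; rw [h]; abel

def IsBr.L (h : IsBr A) (a : A) : A →+ A := AddMonoidHom.mk' (st a) (h.st_add a)

theorem IsBr.st_zero (h : IsBr A) (a : A) : st a 0 = 0 := map_zero (h.L a)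
theorem IsBr.st_neg (h : IsBr A) (a b : A) : st a (-b) = -st a b := map_neg (h.L a) b
theorem IsBr.st_sub (h : IsBr A) (a b c : A) : st a (b - c) = st a b - st a c := map_sub (h.L a) b c
theorem IsBr.st_nsmul (h : IsBr A) (a b : A) (k : ℕ) : st a (k • b) = k • st a b :=
  map_nsmul (h.L a) k b
theorem IsBr.st_zsmul (h : IsBr A) (a b : A) (k : ℤ) : st a (k • b) = k • st a b :=
  map_zsmul (h.L a) k b

theorem IsBr.zero_st (h : IsBr A) (a : A) : st 0 a = 0 := by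
  unfold st; rw [← h.one, one_mul, h.one]; abel

theorem IsBr.st_mul (h : IsBr A) (a b c : A) :
    st (a * b) c = st a (st b c) + st a c + st b c := by
  have e : st a (st b c) = st a (b * c) - st a b - st a c := by
    rw [← h.st_sub, ← h.st_sub]; rfl
  rw [e]; unfold st; rw [mul_assoc]; abel

variable {V : Type*} [AddCommGroup V]

structure Sys (S T : AddSubgroup A) (φ : A → V) : Prop where
  br : IsBr A
  cl : ∀ a ∈ S, ∀ b ∈ S, st a b ∈ S
  tl : ∀ a ∈ S, ∀ t ∈ T, st a t ∈ T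
  cm : ∀ a ∈ S, ∀ b ∈ S, st a b - st b a ∈ T
  mul : ∀ a ∈ S, ∀ b ∈ S, φ (a * b) = φ a + φ b
  eq : ∀ a ∈ S, ∀ b ∈ S, (φ a = φ b ↔ a - b ∈ T)

variable {S T : AddSubgroup A} {φ : A → V}

theorem Sys.congr (h : Sys S T φ) {a a' b b' : A} (ha : a ∈ S) (ha' : a' ∈ S)
    (hb' : b' ∈ S) (e1 : a - a' ∈ T) (e2 : b - b' ∈ T) : st a b - st a' b' ∈ T := by
  have h1 := h.tl a ha _ e2
  have h2 := h.tl b' hb' _ e1
  have h3 := h.cm a ha b' hb'
  have h4 := h.cm b' hb' a' ha'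
  rw [h.br.st_sub] at h1 h2
  have := T.add_mem (T.add_mem h1 h2) (T.add_mem h3 h4)
  convert this using 1; abel

def Sys.R (_h : Sys S T φ) : Type _ := S ⧸ T.addSubgroupOf S

noncomputable instance (h : Sys S T φ) : AddCommGroup h.R :=
  inferInstanceAs (AddCommGroup (S ⧸ T.addSubgroupOf S))

def Sys.mk' (h : Sys S T φ) : S →+ h.R := QuotientAddGroup.mk' (T.addSubgroupOf S)

theorem Sys.mk_eq (h : Sys S T φ) {a b : S} : h.mk' a = h.mk' b ↔ (a : A) - b ∈ T := by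
  change (QuotientAddGroup.mk a : S ⧸ T.addSubgroupOf S) = QuotientAddGroup.mk b ↔ _
  rw [QuotientAddGroup.eq_iff_sub_mem, AddSubgroup.mem_addSubgroupOf]; rfl

theorem Sys.sur (h : Sys S T φ) (x : h.R) : ∃ a, h.mk' a = x :=
  QuotientAddGroup.mk'_surjective _ x

noncomputable def Sys.out (h : Sys S T φ) (x : h.R) : S := (h.sur x).choose

theorem Sys.mk_out (h : Sys S T φ) (x : h.R) : h.mk' (h.out x) = x := (h.sur x).choose_spec

def Sys.stS (h : Sys S T φ) (a b : S) : S := ⟨st a b, h.cl _ a.2 _ b.2⟩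

noncomputable instance (h : Sys S T φ) : Mul h.R :=
  ⟨fun x y => h.mk' (h.stS (h.out x) (h.out y))⟩

theorem Sys.mk_mul (h : Sys S T φ) (a b : S) : h.mk' a * h.mk' b = h.mk' (h.stS a b) := by
  change h.mk' _ = _
  rw [h.mk_eq]
  exact h.congr (h.out _).2 a.2 b.2 (h.mk_eq.mp (h.mk_out _)) (h.mk_eq.mp (h.mk_out _))

theorem Sys.mul_comm' (h : Sys S T φ) (x y : h.R) : x * y = y * x := by
  obtain ⟨a, rfl⟩ := h.sur x
  obtain ⟨b, rfl⟩ := h.sur y
  rw [h.mk_mul, h.mk_mul, h.mk_eq]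
  exact h.cm _ a.2 _ b.2

theorem Sys.mul_add' (h : Sys S T φ) (x y z : h.R) : x * (y + z) = x * y + x * z := by
  obtain ⟨a, rfl⟩ := h.sur x
  obtain ⟨b, rfl⟩ := h.sur y
  obtain ⟨c, rfl⟩ := h.sur z
  rw [← map_add, h.mk_mul, h.mk_mul, h.mk_mul, ← map_add]
  congr 1
  exact Subtype.ext (h.br.st_add _ _ _)

theorem Sys.mul_zero' (h : Sys S T φ) (x : h.R) : x * 0 = 0 := by
  have := h.mul_add' x 0 0
  rw [add_zero] at this
  simpa using this

theorem Sys.mul_assoc' (h : Sys S T φ) (x y z : h.R) : x * y * z = x * (y * z) := by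
  have e : (x + y + x * y) * z = x * (y * z) + x * z + y * z := by
    obtain ⟨a, rfl⟩ := h.sur x
    obtain ⟨b, rfl⟩ := h.sur y
    obtain ⟨c, rfl⟩ := h.sur z
    simp only [h.mk_mul, ← map_add]
    congr 1
    apply Subtype.ext
    change st ((a : A) + b + st (a : A) b) c = st (a : A) (st (b : A) c) + st (a : A) c + st (b : A) c
    rw [← mul_eq, h.br.st_mul]
  rw [h.mul_comm', h.mul_add', h.mul_add', h.mul_comm' z, h.mul_comm' z, h.mul_comm' z] at e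
  have e2 : x * y * z = (x * z + y * z + x * y * z) - x * z - y * z := by abel
  rw [e2, e]; abel

noncomputable instance (h : Sys S T φ) : NonUnitalCommRing h.R where
  left_distrib := h.mul_add'
  right_distrib x y z := by rw [h.mul_comm', h.mul_add', h.mul_comm' z, h.mul_comm' z]
  zero_mul x := by rw [h.mul_comm', h.mul_zero']
  mul_zero := h.mul_zero'
  mul_assoc := h.mul_assoc'
  mul_comm := h.mul_comm'

noncomputable def Sys.ph (h : Sys S T φ) (x : h.R) : V := φ (h.out x)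

theorem Sys.ph_mk (h : Sys S T φ) (a : S) : h.ph (h.mk' a) = φ a :=
  (h.eq _ (h.out _).2 _ a.2).mpr (h.mk_eq.mp (h.mk_out _))

theorem Sys.nlog (h : Sys S T φ) : NLog h.ph := by
  constructor
  · intro x y
    obtain ⟨a, rfl⟩ := h.sur x
    obtain ⟨b, rfl⟩ := h.sur y
    rw [h.mk_mul, ← map_add, ← map_add, h.ph_mk, h.ph_mk, h.ph_mk, ← h.mul _ a.2 _ b.2, mul_eq]
    rfl
  · intro x y e
    obtain ⟨a, rfl⟩ := h.sur x
    obtain ⟨b, rfl⟩ := h.sur y
    rw [h.ph_mk, h.ph_mk] at e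
    exact h.mk_eq.mpr ((h.eq _ a.2 _ b.2).mp e)

theorem Sys.mk_zero (h : Sys S T φ) {a : S} : h.mk' a = 0 ↔ (a : A) ∈ T := by
  rw [← map_zero h.mk', h.mk_eq]; simp

variable [Module ℚ V] [FiniteDimensional ℚ V]

theorem Sys.tf (h : Sys S T φ) {k : ℕ} (hk : k ≠ 0) {a : A} (ha : a ∈ S) (e : k • a ∈ T) :
    a ∈ T := by
  apply (h.mk_zero (a := ⟨a, ha⟩)).mp
  apply h.nlog.tf hk
  rw [← map_nsmul, h.mk_zero]; exact e

/-- multiplicative `p`-divisibility inside `S` -/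
def MD (S : AddSubgroup A) (φ : A → V) (p : ℕ) (a : A) : Prop :=
  ∀ n : ℕ, ∃ b ∈ S, φ a = p ^ n • φ b

theorem Sys.md_iff (h : Sys S T φ) {p : ℕ} (hp : p ≠ 0) (a : S) :
    NDv p (h.mk' a) ↔ MD S φ p a := by
  rw [h.nlog.dv_iff hp]
  refine forall_congr' fun n => ⟨?_, ?_⟩
  · rintro ⟨y, e⟩
    obtain ⟨b, rfl⟩ := h.sur y
    exact ⟨b, b.2, by rwa [h.ph_mk, h.ph_mk] at e⟩
  · rintro ⟨b, hb, e⟩
    exact ⟨h.mk' ⟨b, hb⟩, by rwa [h.ph_mk, h.ph_mk]⟩

theorem Sys.md_add (h : Sys S T φ) {p : ℕ} (hp : p ≠ 0) {a : A} (ha : a ∈ S)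
    (hd : ∀ n : ℕ, ∃ b ∈ S, a = p ^ n • b) : MD S φ p a := by
  apply (h.md_iff hp ⟨a, ha⟩).mp
  intro n
  obtain ⟨b, hb, e⟩ := hd n
  exact ⟨h.mk' ⟨b, hb⟩, by rw [← map_nsmul]; congr 1; exact Subtype.ext e⟩

theorem Sys.md_left (h : Sys S T φ) {p : ℕ} (hp : p ≠ 0) {a c : A} (ha : a ∈ S) (hc : c ∈ S)
    (hd : MD S φ p a) : MD S φ p (st a c) := by
  have := ((h.md_iff hp ⟨a, ha⟩).mpr hd).mul (h.mk' ⟨c, hc⟩)
  rw [h.mk_mul] at this
  exact (h.md_iff hp _).mp this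

theorem Sys.md_right (h : Sys S T φ) {p : ℕ} (hp : p ≠ 0) {a c : A} (ha : a ∈ S) (hc : c ∈ S)
    (hd : MD S φ p c) : MD S φ p (st a c) := by
  have := ((h.md_iff hp ⟨c, hc⟩).mpr hd).mul (h.mk' ⟨a, ha⟩)
  rw [mul_comm, h.mk_mul] at this
  exact (h.md_iff hp _).mp this

theorem Sys.ann (h : Sys S T φ) {w y : A} (hw : w ∈ S) (hy : y ∈ S) {ι : Type*} [Fintype ι]
    {z : ι → A} (hz : ∀ i, z i ∈ S) (h0 : ∀ i, st (z i) w ∈ T) {k : ℕ} (hk : k ≠ 0) {a : ι → ℤ}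
    (e : k • φ y = ∑ i, a i • φ (z i)) : st y w ∈ T := by
  have := h.nlog.ann (w := h.mk' ⟨w, hw⟩) (y := h.mk' ⟨y, hy⟩) (z := fun i => h.mk' ⟨z i, hz i⟩)
    (fun i => by rw [h.mk_mul, h.mk_zero]; exact h0 i) hk (a := a) (by simpa [h.ph_mk] using e)
  rwa [h.mk_mul, h.mk_zero] at this

end Pool.Agent.H60.Br
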