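import Pool.Agent.H60.BrC

set_option autoImplicit false

namespace Pool.Agent.H60.Br

open Finset

def Loc (p : ℕ) [Fact p.Prime] : Subring ℚ where
  carrier := {r | padicNorm p r ≤ 1}
  mul_mem' {a b} ha hb := by
    simp only [Set.mem_ofPred_eq, padicNorm.mul] at *
    exact mul_le_one₀ ha (padicNorm.nonneg _) hb
  one_mem' := by simp
  add_mem' {a b} ha hb := padicNorm.nonarchimedean.trans (max_le ha hb)
  zero_mem' := by simp
  neg_mem' {a} ha := by simpa using ha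

theorem mem_Loc {p : ℕ} [Fact p.Prime] {r : ℚ} : r ∈ Loc p ↔ padicNorm p r ≤ 1 := Iff.rfl

theorem inv_mem_Loc {p : ℕ} [Fact p.Prime] {m : ℕ} (h : ¬ p ∣ m) : (m : ℚ)⁻¹ ∈ Loc p := by
  rw [mem_Loc, ← one_div, padicNorm.div, (padicNorm.nat_eq_one_iff m).mpr h]; simp

theorem Loc_zero {p : ℕ} [hp : Fact p.Prime] {r : ℚ}
    (h : ∀ n : ℕ, ∃ s ∈ Loc p, r = (p : ℚ) ^ n * s) : r = 0 := by
  by_contra hr
  have h1 : 0 < padicNorm p r := lt_of_le_of_ne (padicNorm.nonneg _) (padicNorm.nonzero hr).symm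
  have hp1 : (1 : ℚ) < p := by exact_mod_cast hp.out.one_lt
  obtain ⟨n, hn⟩ := exists_pow_lt_of_lt_one h1 (inv_lt_one_of_one_lt₀ hp1)
  obtain ⟨s, hs, e⟩ := h n
  have h2 : padicNorm p ((p : ℚ) ^ n) = (p : ℚ)⁻¹ ^ n := by
    induction n with
    | zero => simp
    | succ n _ =>
      have : ∀ m : ℕ, padicNorm p ((p : ℚ) ^ m) = (p : ℚ)⁻¹ ^ m := by
        intro m
        induction m with
        | zero => simp
        | succ m ih => rw [pow_succ, padicNorm.mul, ih, padicNorm.padicNorm_p_of_prime, pow_succ]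
      exact this _
  rw [e, padicNorm.mul, h2] at hn
  have h3 : (0 : ℚ) < (p : ℚ)⁻¹ ^ n := by positivity
  have := mul_le_mul_of_nonneg_left (mem_Loc.mp hs) h3.le
  linarith

theorem half_not : (1 / 2 : ℚ) ∉ Loc 2 := by
  rw [mem_Loc, padicNorm.div]
  have := padicNorm.padicNorm_p_of_prime (p := 2)
  simp only [Nat.cast_ofNat] at this
  rw [this]; norm_num

abbrev V3 := Fin 3 → ℚ

def pr : Fin 6 → ℕ := ![3, 5, 7, 11, 13, 17]
def ss : Fin 6 → ℕ := ![0, 2, 0, 2, 4, 0]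
def tt : Fin 6 → ℕ := ![0, 0, 2, 2, 0, 4]

instance (i : Fin 6) : Fact (pr i).Prime := ⟨by fin_cases i <;> simp [pr] <;> norm_num⟩

def dt (i : Fin 6) (v : V3) : ℚ := v 0 + ss i * v 1 + tt i * v 2

structure Mem (u v : V3) : Prop where
  u0 : u 0 ∈ Loc 2
  u1 : u 1 ∈ Loc 2
  u2 : u 2 ∈ Loc 2
  v0 : v 0 + u 1 * u 2 / 2 ∈ Loc 2
  v1 : v 1 + u 2 * u 0 / 2 ∈ Loc 2
  v2 : v 2 + u 0 * u 1 / 2 ∈ Loc 2
  a : ∀ i, u 1 - ss i * u 0 ∈ Loc (pr i)
  b : ∀ i, u 2 - tt i * u 0 ∈ Loc (pr i)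
  c : ∀ i, dt i v ∈ Loc (pr i)

def cr (u v : V3) : V3 :=
  ![(u 1 * v 2 - u 2 * v 1) / 2, (u 2 * v 0 - u 0 * v 2) / 2, (u 0 * v 1 - u 1 * v 0) / 2]

theorem half_mem (i : Fin 6) : (2 : ℚ)⁻¹ ∈ Loc (pr i) := by
  have := inv_mem_Loc (p := pr i) (m := 2) (by fin_cases i <;> simp [pr])
  simpa using this

theorem Mem.mul {u v u' v' : V3} (h : Mem u v) (h' : Mem u' v') :
    Mem (u + u') (v + v' + cr u u') where
  u0 := add_mem h.u0 h'.u0
  u1 := add_mem h.u1 h'.u1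
  u2 := add_mem h.u2 h'.u2
  v0 := by
    convert add_mem (add_mem h.v0 h'.v0) (mul_mem h.u1 h'.u2) using 1
    simp [cr]; ring
  v1 := by
    convert add_mem (add_mem h.v1 h'.v1) (mul_mem h.u2 h'.u0) using 1
    simp [cr]; ring
  v2 := by
    convert add_mem (add_mem h.v2 h'.v2) (mul_mem h.u0 h'.u1) using 1
    simp [cr]; ring
  a i := by
    convert add_mem (h.a i) (h'.a i) using 1
    simp; ring
  b i := by
    convert add_mem (h.b i) (h'.b i) using 1
    simp; ring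
  c i := by
    convert add_mem (add_mem (h.c i) (h'.c i)) (mul_mem (half_mem i)
      (sub_mem (mul_mem (h.a i) (h'.b i)) (mul_mem (h.b i) (h'.a i)))) using 1
    simp [cr, dt]; ring

theorem Mem.inv {u v : V3} (h : Mem u v) : Mem (-u) (-v) where
  u0 := neg_mem h.u0
  u1 := neg_mem h.u1
  u2 := neg_mem h.u2
  v0 := by
    convert sub_mem (mul_mem h.u1 h.u2) h.v0 using 1
    simp; ring
  v1 := by
    convert sub_mem (mul_mem h.u2 h.u0) h.v1 using 1
    simp; ring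
  v2 := by
    convert sub_mem (mul_mem h.u0 h.u1) h.v2 using 1
    simp; ring
  a i := by
    convert neg_mem (h.a i) using 1
    simp; ring
  b i := by
    convert neg_mem (h.b i) using 1
    simp; ring
  c i := by
    convert neg_mem (h.c i) using 1
    simp [dt]; ring

theorem memInt (u v : Fin 3 → ℤ) (h0 : u 1 * u 2 = 0) (h1 : u 2 * u 0 = 0) (h2 : u 0 * u 1 = 0) :
    Mem (fun k => u k) (fun k => v k) where
  u0 := intCast_mem _ _
  u1 := intCast_mem _ _
  u2 := intCast_mem _ _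
  v0 := by rw [← Int.cast_mul, h0]; simp
  v1 := by rw [← Int.cast_mul, h1]; simp
  v2 := by rw [← Int.cast_mul, h2]; simp
  a _ := sub_mem (intCast_mem _ _) (mul_mem (natCast_mem _ _) (intCast_mem _ _))
  b _ := sub_mem (intCast_mem _ _) (mul_mem (natCast_mem _ _) (intCast_mem _ _))
  c _ := add_mem (add_mem (intCast_mem _ _) (mul_mem (natCast_mem _ _) (intCast_mem _ _)))
    (mul_mem (natCast_mem _ _) (intCast_mem _ _))

theorem ip2 (i : Fin 6) (n : ℕ) : ((pr i : ℚ) ^ n)⁻¹ ∈ Loc 2 := by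
  rw [← inv_pow]
  exact pow_mem (inv_mem_Loc (by fin_cases i <;> simp [pr])) n

theorem ipj {i j : Fin 6} (h : j ≠ i) (n : ℕ) : ((pr i : ℚ) ^ n)⁻¹ ∈ Loc (pr j) := by
  rw [← inv_pow]
  refine pow_mem (inv_mem_Loc ?_) n
  revert i j; decide

def xx (i : Fin 6) : V3 := ![1, ss i, tt i]

theorem memX (i : Fin 6) (n : ℕ) : Mem (((pr i : ℚ) ^ n)⁻¹ • xx i) 0 := by
  obtain ⟨s, hs⟩ : 2 ∣ ss i := by revert i; decide
  obtain ⟨t, ht⟩ : 2 ∣ tt i := by clear hs; revert i; decide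
  have h2 := ip2 i n
  refine ⟨?_, ?_, ?_, ?_, ?_, ?_, fun j => ?_, fun j => ?_, fun j => by simp [dt]⟩
  · simpa [xx] using h2
  · simpa [xx] using mul_mem h2 (natCast_mem _ (ss i))
  · simpa [xx] using mul_mem h2 (natCast_mem _ (tt i))
  · convert mul_mem (mul_mem h2 h2) (natCast_mem _ (s * tt i)) using 1
    simp [xx, hs]; ring
  · convert mul_mem (mul_mem h2 h2) (natCast_mem _ t) using 1
    simp [xx, ht]; ring
  · convert mul_mem (mul_mem h2 h2) (natCast_mem _ s) using 1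
    simp [xx, hs]; ring
  · by_cases hj : j = i
    · subst hj; simp [xx, mul_comm]
    · convert mul_mem (ipj hj n) (sub_mem (natCast_mem _ (ss i)) (natCast_mem _ (ss j))) using 1
      simp [xx]; ring
  · by_cases hj : j = i
    · subst hj; simp [xx, mul_comm]
    · convert mul_mem (ipj hj n) (sub_mem (natCast_mem _ (tt i)) (natCast_mem _ (tt j))) using 1
      simp [xx]; ring

theorem memZ {v : V3} (h : Mem 0 v) {i : Fin 6} (hi : dt i v = 0) (n : ℕ) :
    Mem 0 (((pr i : ℚ) ^ n)⁻¹ • v) := by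
  have h2 := ip2 i n
  refine ⟨by simp, by simp, by simp, ?_, ?_, ?_, fun j => by simp, fun j => by simp, fun j => ?_⟩
  · simpa using mul_mem h2 h.v0
  · simpa using mul_mem h2 h.v1
  · simpa using mul_mem h2 h.v2
  · have e : dt j (((pr i : ℚ) ^ n)⁻¹ • v) = ((pr i : ℚ) ^ n)⁻¹ * dt j v := by simp [dt]; ring
    rw [e]
    by_cases hj : j = i
    · subst hj; simp [hi]
    · exact mul_mem (ipj hj n) (h.c j)

theorem divq {u : V3} {i : Fin 6} (h : ∀ n : ℕ, ∃ u' v', Mem u' v' ∧ u = pr i ^ n • u') :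
    u 1 = ss i * u 0 ∧ u 2 = tt i * u 0 := by
  constructor <;> apply sub_eq_zero.mp <;> apply Loc_zero (p := pr i) <;> intro n <;>
    obtain ⟨u', v', hm, rfl⟩ := h n
  · exact ⟨_, hm.a i, by simp; ring⟩
  · exact ⟨_, hm.b i, by simp; ring⟩

theorem divc {v : V3} {i : Fin 6} (h : ∀ n : ℕ, ∃ u' v', Mem u' v' ∧ v = pr i ^ n • v') :
    dt i v = 0 := by
  apply Loc_zero (p := pr i)
  intro n
  obtain ⟨u', v', hm, rfl⟩ := h n
  exact ⟨_, hm.c i, by simp [dt]; ring⟩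

@[ext] structure Hs where
  q : V3
  c : V3

instance : Group Hs where
  mul a b := ⟨a.q + b.q, a.c + b.c + cr a.q b.q⟩
  one := ⟨0, 0⟩
  inv a := ⟨-a.q, -a.c⟩
  mul_assoc a b c := by
    apply Hs.ext
    · exact add_assoc _ _ _
    · change a.c + b.c + cr a.q b.q + c.c + cr (a.q + b.q) c.q
        = a.c + (b.c + c.c + cr b.q c.q) + cr a.q (b.q + c.q)
      ext k; fin_cases k <;> simp [cr] <;> ring
  one_mul a := by
    apply Hs.ext
    · exact zero_add _
    · change 0 + a.c + cr 0 a.q = a.c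
      ext k; fin_cases k <;> simp [cr]
  mul_one a := by
    apply Hs.ext
    · exact add_zero _
    · change a.c + 0 + cr a.q 0 = a.c
      ext k; fin_cases k <;> simp [cr]
  inv_mul_cancel a := by
    apply Hs.ext
    · exact neg_add_cancel _
    · change -a.c + a.c + cr (-a.q) a.q = 0
      ext k; fin_cases k <;> simp [cr] <;> ring

def GG : Subgroup Hs where
  carrier := {a | Mem a.q a.c}
  mul_mem' ha hb := Mem.mul ha hb
  one_mem' := memInt 0 0 rfl rfl rfl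
  inv_mem' ha := Mem.inv ha

structure Mod (A : Type*) [Group A] where
  q : A → V3
  c : A → V3
  q_mul : ∀ a b, q (a * b) = q a + q b
  c_mul : ∀ a b, c (a * b) = c a + c b + cr (q a) (q b)
  ext : ∀ a b, q a = q b → c a = c b → a = b
  mem : ∀ a, Mem (q a) (c a)
  sur : ∀ u v, Mem u v → ∃ a, q a = u ∧ c a = v

def modOf {A : Type*} [Group A] (e : A ≃* GG) : Mod A where
  q a := (e a).1.q
  c a := (e a).1.c
  q_mul a b := by rw [map_mul]; rfl
  c_mul a b := by rw [map_mul]; rfl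
  ext a b h1 h2 := e.injective (Subtype.ext (Hs.ext h1 h2))
  mem a := (e a).2
  sur u v h := ⟨e.symm ⟨⟨u, v⟩, h⟩, by simp, by simp⟩

end Pool.Agent.H60.Br
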