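import Pool.Agent.H60.BrD

set_option autoImplicit false

namespace Pool.Agent.H60.Br

open Finset

theorem clear_den {ι : Type*} [Fintype ι] (r : ι → ℚ) :
    ∃ k : ℕ, k ≠ 0 ∧ ∃ α : ι → ℤ, ∀ i, (α i : ℚ) = k * r i := by
  refine ⟨∏ i, (r i).den, prod_ne_zero_iff.mpr fun i _ => (r i).den_ne_zero, ?_⟩
  have : ∀ i, ∃ α : ℤ, (α : ℚ) = (∏ i, (r i).den : ℕ) * r i := by
    intro i
    obtain ⟨m, hm⟩ := dvd_prod_of_mem (fun i => (r i).den) (mem_univ i)
    refine ⟨m * (r i).num, ?_⟩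
    rw [hm]; push_cast
    rw [← Rat.mul_den_eq_num]; ring
  choose α hα using this
  exact ⟨α, hα⟩

theorem clear_sum {V : Type*} [AddCommGroup V] [Module ℚ V] {ι : Type*} [Fintype ι] {r : ι → ℚ}
    {k : ℕ} {α : ι → ℤ} (hα : ∀ i, (α i : ℚ) = k * r i) (f : ι → V) :
    k • ∑ i, r i • f i = ∑ i, α i • f i := by
  rw [smul_sum]
  refine sum_congr rfl fun i _ => ?_
  rw [← Int.cast_smul_eq_zsmul ℚ, hα, mul_smul, Nat.cast_smul_eq_nsmul]

variable {A : Type*} [AddCommGroup A] [Group A]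

section
variable {V : Type*} [AddCommGroup V] [Module ℚ V] [FiniteDimensional ℚ V]
variable {S T : AddSubgroup A} {φ : A → V}

theorem Sys.annQ (h : Sys S T φ) {w y : A} (hw : w ∈ S) (hy : y ∈ S) {ι : Type*} [Fintype ι]
    {z : ι → A} (hz : ∀ i, z i ∈ S) (h0 : ∀ i, st (z i) w ∈ T) {r : ι → ℚ}
    (e : φ y = ∑ i, r i • φ (z i)) : st y w ∈ T := by
  obtain ⟨k, hk, α, hα⟩ := clear_den r
  exact h.ann hw hy hz h0 hk (a := α) (by rw [e, clear_sum hα])

theorem Sys.two (h : Sys S T φ) {z : Fin 4 → A} (hz : ∀ i, z i ∈ S)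
    (h0 : ∀ i j, i ≠ j → st (z i) (z j) ∈ T) (W : A → Prop) (hW : ∀ y, W y → y ∈ S)
    (hs : ∀ y, W y → ∀ j, ∃ r : Fin 4 → ℚ, r j = 0 ∧ φ y = ∑ i, r i • φ (z i))
    {y w : A} (hy : W y) (hw : W w) : st y w ∈ T := by
  obtain ⟨r, -, e⟩ := hs y hy 0
  refine h.annQ (hW w hw) (hW y hy) hz (fun j => ?_) e
  obtain ⟨r', e0, e'⟩ := hs w hw j
  have h1 : st w (z j) ∈ T := by
    refine h.annQ (hz j) (hW w hw) (z := fun i => if i = j then 0 else z i) (fun i => ?_)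
      (fun i => ?_) (r := r') (e'.trans (sum_congr rfl fun i _ => ?_))
    · split_ifs
      · exact S.zero_mem
      · exact hz i
    · split_ifs with hi
      · rw [h.br.zero_st]; exact T.zero_mem
      · exact h0 i j hi
    · split_ifs with hi
      · rw [hi, e0, zero_smul, zero_smul]
      · rfl
  have := T.add_mem (h.cm _ (hz j) _ (hW w hw)) h1
  simpa using this
end

namespace Mod
variable (m : Mod A)

omit [AddCommGroup A] in
theorem q_one : m.q 1 = 0 := by simpa using m.q_mul 1 1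

omit [AddCommGroup A] in
theorem c_mul' {a b : A} (h : m.q a = 0 ∨ m.q b = 0) : m.c (a * b) = m.c a + m.c b := by
  rw [m.c_mul]
  rcases h with h | h <;> rw [h] <;> ext k <;> fin_cases k <;> simp [cr]

omit [AddCommGroup A] in
theorem c_one : m.c 1 = 0 := by simpa using m.c_mul' (a := 1) (b := 1) (Or.inl m.q_one)

omit [AddCommGroup A] in
theorem q_inv (a : A) : m.q a⁻¹ = -m.q a := by
  have := m.q_mul a⁻¹ a
  rw [inv_mul_cancel, m.q_one] at this
  exact eq_neg_of_add_eq_zero_left this.symm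

omit [AddCommGroup A] in
theorem q_pow (a : A) (n : ℕ) : m.q (a ^ n) = n • m.q a := by
  induction n with
  | zero => simp [m.q_one]
  | succ n ih => rw [pow_succ, m.q_mul, ih, succ_nsmul]

omit [AddCommGroup A] in
theorem cen {z : A} (hz : m.q z = 0) (a : A) : z * a = a * z :=
  m.ext _ _ (by rw [m.q_mul, m.q_mul, add_comm])
    (by rw [m.c_mul' (Or.inl hz), m.c_mul' (Or.inr hz), add_comm])

theorem stc {z : A} (hz : m.q z = 0) (a : A) : st z a = st a z := by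
  unfold st; rw [m.cen hz]; abel

omit [AddCommGroup A] in
theorem fac {a b : A} (e : m.q a = m.q b) : ∃ z, m.q z = 0 ∧ a = z * b :=
  ⟨a * b⁻¹, by rw [m.q_mul, m.q_inv, e, add_neg_cancel], by simp⟩

end Mod

def DD (b : A) : Prop := ∀ a a' : A, st (a + a') b = st a b + st a' b

theorem IsBr.assoc (h : IsBr A) (a b : A) {c : A} (hc : DD c) : st (st a b) c = st a (st b c) := by
  have := h.st_mul a b c
  rw [mul_eq, hc, hc] at this
  have e : st (st a b) c = st a c + st b c + st (st a b) c - st a c - st b c := by abel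
  rw [e, this]; abel

def IsBr.EE (h : IsBr A) : AddSubgroup A where
  carrier := {b | DD b ∧ ∀ d, DD d → st b d = st d b}
  add_mem' {b b'} hb hb' := ⟨fun a a' => by
    rw [h.st_add, h.st_add, h.st_add, hb.1, hb'.1]; abel, fun d hd => by
    rw [hd, h.st_add, hb.2 d hd, hb'.2 d hd]⟩
  zero_mem' := ⟨fun a a' => by simp [h.st_zero], fun d _ => by rw [h.st_zero, h.zero_st]⟩
  neg_mem' {b} hb := ⟨fun a a' => by
    rw [h.st_neg, h.st_neg, h.st_neg, hb.1]; abel, fun d hd => by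
    have := hd b (-b)
    rw [add_neg_cancel, h.zero_st] at this
    rw [h.st_neg, ← hb.2 d hd]
    exact eq_neg_of_add_eq_zero_right this.symm⟩

theorem sysE (h : IsBr A) (m : Mod A) : Sys h.EE ⊥ (fun a => (m.q a, m.c a)) where
  br := h
  cl b hb b' hb' := ⟨fun a a' => by
    rw [← h.assoc _ _ hb'.1, ← h.assoc _ _ hb'.1, ← h.assoc _ _ hb'.1, hb.1, hb'.1], fun d hd => by
    rw [h.assoc _ _ hd, hb'.2 d hd, ← h.assoc _ _ hb'.1, hb.2 d hd, h.assoc _ _ hb'.1]⟩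
  tl a _ t ht := by rw [AddSubgroup.mem_bot.mp ht, h.st_zero]; exact zero_mem _
  cm a ha b hb := by rw [ha.2 b hb.1, sub_self]; exact zero_mem _
  mul a ha b hb := by
    have e : a * b = b * a := by rw [mul_eq, mul_eq, ha.2 b hb.1, add_comm a]
    have e2 := congrArg m.c e
    rw [m.c_mul, m.c_mul] at e2
    rw [m.q_mul, m.c_mul, Prod.mk_add_mk]
    congr 1
    ext k
    have := congrFun e2 k
    fin_cases k <;> simp [cr] at this ⊢ <;> linarith
  eq a _ b _ := by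
    rw [AddSubgroup.mem_bot, sub_eq_zero, Prod.mk.injEq]
    exact ⟨fun e => m.ext _ _ e.1 e.2, fun e => by simp [e]⟩

theorem memE (h : IsBr A) (m : Mod A) {z : A} (hz : m.q z = 0) : z ∈ h.EE :=
  ⟨fun a a' => by simp only [← m.stc hz, h.st_add], fun d _ => m.stc hz d⟩

omit [AddCommGroup A] in
theorem rootZ (m : Mod A) {z : A} (hz : m.q z = 0) {i : Fin 6} (hi : dt i (m.c z) = 0) (n : ℕ) :
    ∃ b, m.q b = 0 ∧ m.c z = pr i ^ n • m.c b := by
  obtain ⟨b, e1, e2⟩ := m.sur _ _ (memZ (hz ▸ m.mem z) hi n)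
  refine ⟨b, e1, ?_⟩
  have : (pr i : ℚ) ≠ 0 := by exact_mod_cast (Fact.out : (pr i).Prime).ne_zero
  rw [e2, ← Nat.cast_smul_eq_nsmul ℚ, smul_smul]
  push_cast
  rw [mul_inv_cancel₀ (pow_ne_zero _ this), one_smul]

def cc : Fin 4 → V3 := ![![0, 0, 1], ![0, 1, 0], ![2, 0, -1], ![2, -1, 0]]

theorem mem_cc (j : Fin 4) : Mem 0 (cc j) := by
  fin_cases j
  · convert memInt 0 ![0, 0, 1] rfl rfl rfl using 1 <;> ext k <;> fin_cases k <;> simp [cc]
  · convert memInt 0 ![0, 1, 0] rfl rfl rfl using 1 <;> ext k <;> fin_cases k <;> simp [cc]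
  · convert memInt 0 ![2, 0, -1] rfl rfl rfl using 1 <;> ext k <;> fin_cases k <;> simp [cc]
  · convert memInt 0 ![2, -1, 0] rfl rfl rfl using 1 <;> ext k <;> fin_cases k <;> simp [cc]

theorem span_cc (v : V3) (j : Fin 4) : ∃ r : Fin 4 → ℚ, r j = 0 ∧ v = ∑ i, r i • cc i := by
  refine ⟨![![0, v 1 + v 0 / 2 + v 2, -v 2, v 0 / 2 + v 2],
    ![v 2 + v 0 / 2 + v 1, 0, v 0 / 2 + v 1, -v 1], ![v 2, v 1 + v 0 / 2, 0, v 0 / 2],
    ![v 2 + v 0 / 2, v 1, v 0 / 2, 0]] j, by fin_cases j <;> rfl, ?_⟩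
  ext k
  fin_cases j <;> fin_cases k <;> simp [cc, Fin.sum_univ_four] <;> ring

theorem span_xx (v : V3) (j : Fin 4) :
    ∃ r : Fin 4 → ℚ, r j = 0 ∧ v = ∑ i : Fin 4, r i • xx (i.castAdd 2) := by
  refine ⟨![![0, v 0 - v 2 / 2, v 0 - v 1 / 2, v 1 / 2 + v 2 / 2 - v 0],
    ![v 0 - v 2 / 2, 0, v 2 / 2 - v 1 / 2, v 1 / 2], ![v 0 - v 1 / 2, v 1 / 2 - v 2 / 2, 0, v 2 / 2],
    ![v 0 - v 1 / 2 - v 2 / 2, v 1 / 2, v 2 / 2, 0]] j, by fin_cases j <;> rfl, ?_⟩
  ext k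
  fin_cases j <;> fin_cases k <;> simp [xx, ss, tt, Fin.sum_univ_four, Fin.castAdd, Fin.castLE] <;> ring

theorem two_pts {u : V3} {i j : Fin 6} (hij : i ≠ j) (hi : u 1 = ss i * u 0 ∧ u 2 = tt i * u 0)
    (hj : u 1 = ss j * u 0 ∧ u 2 = tt j * u 0) : u = 0 := by
  have h0 : u 0 = 0 := by
    by_contra h0
    have e1 : ss i = ss j := by exact_mod_cast mul_right_cancel₀ h0 (hi.1.symm.trans hj.1)
    have e2 : tt i = tt j := by exact_mod_cast mul_right_cancel₀ h0 (hi.2.symm.trans hj.2)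
    apply hij
    clear hi hj hij
    revert i j; decide
  ext k; fin_cases k <;> simp [hi.1, hi.2, h0]

def P1 : Fin 4 → Fin 6 := ![0, 0, 2, 1]
def P2 : Fin 4 → Fin 6 := ![1, 2, 3, 3]

theorem P12 (j : Fin 4) : P1 j ≠ P2 j := by revert j; decide
theorem dt1 (j : Fin 4) : dt (P1 j) (cc j) = 0 := by fin_cases j <;> simp [dt, P1, cc, ss, tt]
theorem dt2 (j : Fin 4) : dt (P2 j) (cc j) = 0 := by fin_cases j <;> simp [dt, P2, cc, ss, tt]
theorem cc_ne (j : Fin 4) : cc j ≠ 0 := by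
  intro e
  have h1 := congrFun e 1
  have h2 := congrFun e 2
  fin_cases j <;> simp [cc] at h1 h2

theorem three_pts {v : V3} {i j : Fin 4} (hij : i ≠ j) (h1 : dt (P1 i) v = 0) (h2 : dt (P2 i) v = 0)
    (h3 : dt (P1 j) v = 0) (h4 : dt (P2 j) v = 0) : v = 0 := by
  ext k
  fin_cases i <;> fin_cases j <;> simp [dt, P1, P2, ss, tt] at hij h1 h2 h3 h4 <;>
    fin_cases k <;> simp <;> linarith

theorem line {v : V3} {j : Fin 4} (h1 : dt (P1 j) v = 0) (h2 : dt (P2 j) v = 0) :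
    ∃ f : ℚ, v = f • cc j := by
  refine ⟨![v 2, v 1, -v 2, -v 1] j, ?_⟩
  ext k
  fin_cases j <;> simp [dt, P1, P2, ss, tt] at h1 h2 <;> fin_cases k <;> simp [cc] <;> linarith

theorem pr_ne (i : Fin 6) : pr i ≠ 0 := (Fact.out : (pr i).Prime).ne_zero

theorem zz (h : IsBr A) (m : Mod A) {z w : A} (hz : m.q z = 0) (hw : m.q w = 0) : st z w = 0 := by
  choose C hC1 hC2 using fun j => m.sur _ _ (mem_cc j)
  have s := sysE h m
  have md : ∀ j i, dt i (cc j) = 0 → MD h.EE (fun a => (m.q a, m.c a)) (pr i) (C j) := by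
    intro j i hi n
    obtain ⟨b, e1, e2⟩ := rootZ m (hC1 j) (i := i) (by rw [hC2, hi]) n
    exact ⟨b, memE h m e1, by simp [hC1, e1, e2]⟩
  have dv : ∀ y i, MD h.EE (fun a => (m.q a, m.c a)) (pr i) y →
      (m.q y 1 = ss i * m.q y 0 ∧ m.q y 2 = tt i * m.q y 0) ∧ dt i (m.c y) = 0 := by
    intro y i hy
    refine ⟨divq fun n => ?_, divc fun n => ?_⟩ <;> obtain ⟨b, -, e⟩ := hy n
    · exact ⟨_, _, m.mem b, congrArg Prod.fst e⟩
    · exact ⟨_, _, m.mem b, congrArg Prod.snd e⟩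
  have hE : ∀ j, C j ∈ h.EE := fun j => memE h m (hC1 j)
  refine AddSubgroup.mem_bot.mp (s.two hE (fun i j hij => ?_) (fun y => m.q y = 0)
    (fun y => memE h m) (fun y hy j => ?_) hz hw)
  · have h1 := dv _ _ (s.md_left (pr_ne _) (hE i) (hE j) (md i _ (dt1 i)))
    have h2 := dv _ _ (s.md_left (pr_ne _) (hE i) (hE j) (md i _ (dt2 i)))
    have h3 := dv _ _ (s.md_right (pr_ne _) (hE i) (hE j) (md j _ (dt1 j)))
    have h4 := dv _ _ (s.md_right (pr_ne _) (hE i) (hE j) (md j _ (dt2 j)))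
    rw [AddSubgroup.mem_bot, ← h.one]
    exact m.ext _ _ (by rw [m.q_one]; exact two_pts (P12 i) h1.1 h2.1)
      (by rw [m.c_one]; exact three_pts hij h1.2 h2.2 h3.2 h4.2)
  · obtain ⟨r, e0, e⟩ := span_cc (m.c y) j
    refine ⟨r, e0, Prod.ext ?_ ?_⟩
    · simp [hy, hC1, Prod.fst_sum]
    · simpa [hC2, Prod.snd_sum] using e

end Pool.Agent.H60.Br
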