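import Pool.Agent.H60.BrE

set_option autoImplicit false

namespace Pool.Agent.H60.Br

open Finset

variable {A : Type*} [AddCommGroup A] [Group A]

theorem zadd (h : IsBr A) (m : Mod A) {z w : A} (hz : m.q z = 0) (hw : m.q w = 0) :
    z + w = z * w := by rw [mul_eq, zz h m hz hw, add_zero]

def ZZ (h : IsBr A) (m : Mod A) : AddSubgroup A where
  carrier := {z | m.q z = 0}
  add_mem' {z w} hz hw := by
    change m.q _ = 0
    rw [zadd h m hz hw, m.q_mul, hz, hw, add_zero]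
  zero_mem' := by change m.q _ = 0; rw [← h.one, m.q_one]
  neg_mem' {z} hz := by
    have h1 : m.q z⁻¹ = 0 := by rw [m.q_inv, hz, neg_zero]
    have := zadd h m hz h1
    rw [mul_inv_cancel, h.one] at this
    change m.q _ = 0
    rw [← eq_neg_of_add_eq_zero_right this, h1]

def cH (h : IsBr A) (m : Mod A) : ZZ h m →+ V3 :=
  AddMonoidHom.mk' (fun z => m.c z) fun z w => by
    change m.c ((z : A) + w) = _
    rw [zadd h m z.2 w.2, m.c_mul' (Or.inl z.2)]

theorem cH_inj (h : IsBr A) (m : Mod A) : Function.Injective (cH h m) :=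
  fun z w e => Subtype.ext (m.ext _ _ (z.2.trans w.2.symm) e)

theorem c_add (h : IsBr A) (m : Mod A) {z w : A} (hz : m.q z = 0) (hw : m.q w = 0) :
    m.c (z + w) = m.c z + m.c w := map_add (cH h m) ⟨z, hz⟩ ⟨w, hw⟩

theorem c_nsmul (h : IsBr A) (m : Mod A) {z : A} (hz : m.q z = 0) (k : ℕ) :
    m.c (k • z) = k • m.c z := map_nsmul (cH h m) k ⟨z, hz⟩

theorem c_zsmul (h : IsBr A) (m : Mod A) {z : A} (hz : m.q z = 0) (k : ℤ) :
    m.c (k • z) = k • m.c z := map_zsmul (cH h m) k ⟨z, hz⟩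

theorem z_eq (h : IsBr A) (m : Mod A) {z : A} (hz : m.q z = 0) (hc : m.c z = 0) : z = 0 := by
  rw [← h.one]; exact m.ext _ _ (by rw [hz, m.q_one]) (by rw [hc, m.c_one])

theorem lin (h : IsBr A) (m : Mod A) {ι : Type*} [Fintype ι] {w : A} (hw : m.q w = 0) {z : ι → A}
    (hz : ∀ i, m.q (z i) = 0) {r : ι → ℚ} (e : m.c w = ∑ i, r i • m.c (z i)) :
    ∃ k : ℕ, k ≠ 0 ∧ ∃ α : ι → ℤ, (∀ i, (α i : ℚ) = k * r i) ∧ k • w = ∑ i, α i • z i := by
  obtain ⟨k, hk, α, hα⟩ := clear_den r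
  refine ⟨k, hk, α, hα, ?_⟩
  have : k • (⟨w, hw⟩ : ZZ h m) = ∑ i, α i • ⟨z i, hz i⟩ := by
    apply cH_inj h m
    rw [map_nsmul, map_sum]
    simp only [map_zsmul]
    change k • m.c w = ∑ i, α i • m.c (z i)
    rw [e, clear_sum hα]
  simpa using congrArg (ZZ h m).subtype this

def KK (h : IsBr A) (m : Mod A) : AddSubgroup A where
  carrier := {a | ∀ z, m.q z = 0 → st z a = 0}
  add_mem' {a b} ha hb z hz := by rw [h.st_add, ha z hz, hb z hz, add_zero]
  zero_mem' z _ := h.st_zero z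
  neg_mem' {a} ha z hz := by rw [h.st_neg, ha z hz, neg_zero]

theorem K_left (h : IsBr A) (m : Mod A) (b : A) {a : A} (ha : a ∈ KK h m) : st b a ∈ KK h m := by
  intro z hz
  have e1 := h.st_mul z b a
  rw [m.cen hz, h.st_mul, ha z hz, h.st_zero] at e1
  have e : st z (st b a) = st z (st b a) + 0 + st b a - (0 + st b a + 0) := by abel
  rw [e, ← e1, sub_self]

theorem K_cen (h : IsBr A) (m : Mod A) (a : A) {w : A} (hw : m.q w = 0) : st a w ∈ KK h m := by
  intro z hz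
  have e1 := h.st_mul z w a
  rw [← zadd h m hz hw, m.stc ((ZZ h m).add_mem hz hw), h.st_add, ← m.stc hz, m.stc hw] at e1
  have e : st z (st a w) = st z (st a w) + st z a + st a w - (st z a + st a w) := by abel
  rw [e, ← e1, sub_self]

theorem comm_K (h : IsBr A) (m : Mod A) {a b : A} (ha : a ∈ KK h m) (hb : b ∈ KK h m) :
    ∃ z, m.q z = 0 ∧ a * b = z * (b * a) ∧ st a b = z + st b a := by
  obtain ⟨z, hz, e⟩ := m.fac (a := a * b) (b := b * a) (by rw [m.q_mul, m.q_mul, add_comm])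
  refine ⟨z, hz, e, ?_⟩
  have h1 : b * a ∈ KK h m := by
    rw [mul_eq]; exact add_mem (add_mem hb ha) (K_left h m b ha)
  rw [mul_eq z, h1 z hz, mul_eq, mul_eq] at e
  have e2 : st a b = a + b + st a b - a - b := by abel
  rw [e2, e]; abel

theorem sysK (h : IsBr A) (m : Mod A) : Sys (KK h m) (ZZ h m) m.q where
  br := h
  cl a _ b hb := K_left h m a hb
  tl a ha t ht := by rw [← m.stc ht, ha t ht]; exact zero_mem _
  cm a ha b hb := by
    obtain ⟨z, hz, -, e⟩ := comm_K h m ha hb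
    rw [e, add_sub_cancel_right]; exact hz
  mul a _ b _ := m.q_mul a b
  eq a _ b hb := by
    constructor
    · intro e
      obtain ⟨z, hz, rfl⟩ := m.fac e
      rw [mul_eq, hb z hz, add_zero, add_sub_cancel_right]; exact hz
    · intro e
      have e1 : a = (a - b) * b := by rw [mul_eq, hb _ e]; abel
      rw [e1, m.q_mul, show m.q (a - b) = 0 from e, zero_add]

theorem rootZ' (h : IsBr A) (m : Mod A) {z : A} (hz : m.q z = 0) {i : Fin 6}
    (hi : dt i (m.c z) = 0) (n : ℕ) :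
    ∃ b, m.q b = 0 ∧ m.c z = pr i ^ n • m.c b ∧ z = pr i ^ n • b := by
  obtain ⟨b, e1, e2⟩ := rootZ m hz hi n
  exact ⟨b, e1, e2, m.ext _ _ (hz.trans ((ZZ h m).nsmul_mem e1 _).symm)
    (by rw [c_nsmul h m e1, e2])⟩

theorem Vq (h : IsBr A) (m : Mod A) (a : A) {z : A} (hz : m.q z = 0) {i : Fin 6}
    (hi : dt i (m.c z) = 0) :
    m.q (st a z) 1 = ss i * m.q (st a z) 0 ∧ m.q (st a z) 2 = tt i * m.q (st a z) 0 := by
  have := (sysK h m).md_add (pr_ne i) (K_cen h m a hz) fun n => by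
    obtain ⟨b, e1, -, e2⟩ := rootZ' h m hz hi n
    exact ⟨st a b, K_cen h m a e1, by rw [← h.st_nsmul, ← e2]⟩
  refine divq fun n => ?_
  obtain ⟨b, -, e⟩ := this n
  exact ⟨_, _, m.mem b, e⟩

theorem dt_smul (i : Fin 6) (k : ℕ) (v : V3) : dt i (k • v) = k * dt i v := by
  simp [dt]; ring

theorem Wc (h : IsBr A) (m : Mod A) (a : A) {z : A} (hz : m.q z = 0) {i j : Fin 6} (hij : i ≠ j)
    (hi : dt i (m.c z) = 0) (hj : dt j (m.c z) = 0) :
    m.q (st a z) = 0 ∧ dt i (m.c (st a z)) = 0 := by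
  refine ⟨two_pts hij (Vq h m a hz hi) (Vq h m a hz hj), divc fun n => ?_⟩
  obtain ⟨b, e1, e2, e3⟩ := rootZ' h m hz hi n
  have hp : ((pr i ^ n : ℕ) : ℚ) ≠ 0 := by exact_mod_cast pow_ne_zero n (pr_ne i)
  rw [e2, dt_smul] at hi hj
  have h1 := two_pts hij (Vq h m a e1 ((mul_eq_zero.mp hi).resolve_left hp))
    (Vq h m a e1 ((mul_eq_zero.mp hj).resolve_left hp))
  exact ⟨_, _, m.mem (st a b), by rw [← c_nsmul h m h1, ← h.st_nsmul, ← e3]⟩

omit [AddCommGroup A] in
theorem nohom (m : Mod A) (g : A →* ℚ) (hg : ∀ a b, m.q a = m.q b → g a = g b) {y : ℤ}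
    (hy : 0 < y) (hs : ∀ n : ℤ, ∃ a, g a = 1 + y * n) : False := by
  choose a ha using hs
  obtain ⟨α, β, hn, e⟩ := intrel (V := V3) (fun i => m.q (a (PP y i)))
  apply int_rel hy hn
  generalize Module.finrank ℚ V3 + 1 = N at α β hn e
  let qh : A →* Multiplicative V3 :=
    MonoidHom.mk' (fun a => Multiplicative.ofAdd (m.q a)) fun a b => by rw [m.q_mul]; rfl
  have k1 : ∀ γ : Fin N → ℕ,
      m.q (List.ofFn fun i => a (PP y i) ^ γ i).prod = ∑ i, γ i • m.q (a (PP y i)) := by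
    intro γ
    have := map_list_prod qh (List.ofFn fun i => a (PP y i) ^ γ i)
    rw [List.map_ofFn, List.prod_ofFn] at this
    have e2 := congrArg Multiplicative.toAdd this
    simpa [qh, m.q_pow] using e2
  have k2 : ∀ γ : Fin N → ℕ,
      g (List.ofFn fun i => a (PP y i) ^ γ i).prod = ((∏ i : Fin N, uu y i ^ γ i : ℤ) : ℚ) := by
    intro γ
    rw [map_list_prod, List.map_ofFn, List.prod_ofFn]
    simp [ha, uu]
  have := hg _ _ ((k1 α).trans (e.trans (k1 β).symm))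
  rw [k2, k2] at this
  exact_mod_cast this

theorem annC (h : IsBr A) (m : Mod A) {j : Fin 4} {C : A} (h1 : m.q C = 0) (h2 : m.c C = cc j)
    (a : A) : st a C = 0 := by
  have w : ∀ a z, m.q z = 0 → ∀ r : ℚ, m.c z = r • cc j →
      m.q (st a z) = 0 ∧ ∃ f : ℚ, m.c (st a z) = f • cc j := by
    intro a z hz r e
    have d1 : dt (P1 j) (m.c z) = 0 := by
      have := dt1 j
      rw [e]; simp only [dt, Pi.smul_apply, smul_eq_mul] at this ⊢; linear_combination r * this
    have d2 : dt (P2 j) (m.c z) = 0 := by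
      have := dt2 j
      rw [e]; simp only [dt, Pi.smul_apply, smul_eq_mul] at this ⊢; linear_combination r * this
    exact ⟨(Wc h m a hz (P12 j) d1 d2).1,
      line (Wc h m a hz (P12 j) d1 d2).2 (Wc h m a hz (P12 j).symm d2 d1).2⟩
  have w0 := fun a => (w a C h1 1 (by rw [h2, one_smul])).1
  choose f hf using fun a => (w a C h1 1 (by rw [h2, one_smul])).2
  have inj : ∀ r s : ℚ, r • cc j = s • cc j → r = s := fun r s e =>
    smul_left_injective ℚ (cc_ne j) e
  have fadd : ∀ a b, f (a + b) = f a + f b := by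
    intro a b
    apply inj
    rw [add_smul, ← hf, ← hf, ← hf, ← c_add h m (w0 a) (w0 b), ← m.stc h1, h.st_add, m.stc h1,
      m.stc h1]
  have fmul : ∀ a b, f (a * b) = f a * f b + f a + f b := by
    intro a b
    apply inj
    have hw := (w a _ (w0 b) _ (hf b)).1
    obtain ⟨k, hk, α, hα, e⟩ := lin h m (w0 b) (z := fun _ : Unit => C) (fun _ => h1)
      (r := fun _ => f b) (by simp [hf, h2])
    have e1 := congrArg (fun x => m.c (st a x)) e
    simp only [univ_unique, sum_singleton, h.st_nsmul, h.st_zsmul, c_nsmul h m hw,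
      c_zsmul h m (w0 a), hf] at e1
    rw [← Int.cast_smul_eq_zsmul ℚ, hα, ← Nat.cast_smul_eq_nsmul ℚ, mul_smul] at e1
    have e2 := smul_right_injective V3 (show (k : ℚ) ≠ 0 by exact_mod_cast hk) e1
    rw [← hf, h.st_mul, c_add h m ((ZZ h m).add_mem hw (w0 a)) (w0 b), c_add h m hw (w0 a), e2,
      hf, hf, smul_smul, add_smul, add_smul, mul_comm]
  have fz : ∀ z, m.q z = 0 → f z = 0 := by
    intro z hz
    apply inj
    rw [← hf, zz h m hz h1, ← h.one, m.c_one, zero_smul]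
  let F : A →+ ℚ := AddMonoidHom.mk' f fadd
  let g : A →* ℚ := ⟨⟨fun a => 1 + f a, by simp [fz 1 m.q_one]⟩, fun a b => by
    simp only [fmul]; ring⟩
  have f0 : f a = 0 := by
    by_contra hne
    have hn : (f a).num ≠ 0 := Rat.num_ne_zero.mpr hne
    refine nohom m g (fun a b e => ?_) (mul_self_pos.mpr hn) fun n => ⟨((f a).num * n * (f a).den) • a, ?_⟩
    · obtain ⟨z, hz, rfl⟩ := m.fac e
      rw [map_mul, show g z = 1 by simp [g, fz z hz], one_mul]
    · change 1 + F _ = _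
      rw [map_zsmul]
      change 1 + _ • f a = _
      rw [zsmul_eq_mul]; push_cast
      linear_combination ((f a).num * n : ℚ) * Rat.mul_den_eq_num (f a)
  exact z_eq h m (w0 a) (by rw [hf, f0, zero_smul])

theorem allK (h : IsBr A) (m : Mod A) (a : A) : a ∈ KK h m := by
  intro z hz
  choose C hC1 hC2 using fun j => m.sur _ _ (mem_cc j)
  obtain ⟨r, -, e⟩ := span_cc (m.c z) 0
  obtain ⟨k, hk, α, -, e1⟩ := lin h m hz hC1 (r := r) (by simpa [hC2] using e)
  have e2 : k • st a z = 0 := by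
    rw [← h.st_nsmul, e1]
    change h.L a _ = 0
    rw [map_sum]
    refine sum_eq_zero fun i _ => ?_
    change st a _ = 0
    rw [h.st_zsmul, annC h m (hC1 i) (hC2 i), smul_zero]
  have e3 : m.q (st a z) = 0 :=
    (sysK h m).tf hk (K_cen h m a hz) (by rw [e2]; exact zero_mem _)
  rw [m.stc hz]
  apply z_eq h m e3
  have e4 := c_nsmul h m e3 k
  rw [e2, ← h.one, m.c_one, ← Nat.cast_smul_eq_nsmul ℚ] at e4
  exact (smul_eq_zero.mp e4.symm).resolve_left (by exact_mod_cast hk)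

omit [AddCommGroup A] in
theorem rootX (m : Mod A) (i : Fin 6) (n : ℕ) : ∃ b, xx i = pr i ^ n • m.q b := by
  obtain ⟨b, e1, -⟩ := m.sur _ _ (memX i n)
  refine ⟨b, ?_⟩
  have : (pr i : ℚ) ≠ 0 := by exact_mod_cast pr_ne i
  rw [e1, ← Nat.cast_smul_eq_nsmul ℚ, smul_smul]
  push_cast
  rw [mul_inv_cancel₀ (pow_ne_zero _ this), one_smul]

theorem allZ (h : IsBr A) (m : Mod A) (a b : A) : m.q (st a b) = 0 := by
  have s := sysK h m
  have k := allK h m
  choose X hX using fun i => rootX m i 0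
  simp only [pow_zero, one_smul] at hX
  have md : ∀ i, MD (KK h m) m.q (pr i) (X i) := by
    intro i n
    obtain ⟨b, e⟩ := rootX m i n
    exact ⟨b, k b, by rw [← hX, e]⟩
  have dv : ∀ y i, MD (KK h m) m.q (pr i) y →
      m.q y 1 = ss i * m.q y 0 ∧ m.q y 2 = tt i * m.q y 0 := by
    intro y i hy
    refine divq fun n => ?_
    obtain ⟨b, -, e⟩ := hy n
    exact ⟨_, _, m.mem b, e⟩
  refine s.two (z := fun i => X (i.castAdd 2)) (fun _ => k _) (fun i j hij => ?_) (fun _ => True)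
    (fun y _ => k y) (fun y _ j => ?_) trivial trivial
  · exact two_pts (fun e => hij (Fin.castAdd_injective _ _ e))
      (dv _ _ (s.md_left (pr_ne _) (k _) (k _) (md _)))
      (dv _ _ (s.md_right (pr_ne _) (k _) (k _) (md _)))
  · simpa only [← hX] using span_xx (m.q y) j

theorem final (h : IsBr A) (m : Mod A) : False := by
  have k := allK h m
  have z := allZ h m
  have b1 : ∀ a a' b, m.c (st (a * a') b) = m.c (st a b) + m.c (st a' b) := by
    intro a a' b
    rw [h.st_mul, ← m.stc (z a' b), k a _ (z a' b), zero_add, c_add h m (z _ _) (z _ _)]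
  have b2 : ∀ a a' b, m.q a = m.q a' → st a b = st a' b := by
    intro a a' b e
    obtain ⟨w, hw, rfl⟩ := m.fac e
    rw [h.st_mul, k _ w hw, k _ w hw, zero_add, zero_add]
  have b3 : ∀ a b (n : ℕ), m.c (st (a ^ n) b) = n • m.c (st a b) := by
    intro a b n
    induction n with
    | zero => rw [pow_zero, h.one, h.zero_st, ← h.one, m.c_one, zero_smul]
    | succ n ih => rw [pow_succ, b1, ih, succ_nsmul]
  have b4 : ∀ a b, m.c (st a b) = m.c (st b a) + cr (m.q a) (m.q b) - cr (m.q b) (m.q a) := by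
    intro a b
    obtain ⟨w, hw, e1, e2⟩ := comm_K h m (k a) (k b)
    have e3 := congrArg m.c e1
    rw [m.c_mul' (a := w) (Or.inl hw), m.c_mul, m.c_mul] at e3
    rw [e2, c_add h m hw (z _ _)]
    have : m.c w = m.c w + (m.c b + m.c a + cr (m.q b) (m.q a)) - m.c b - m.c a
      - cr (m.q b) (m.q a) := by abel
    rw [this, ← e3]; abel
  obtain ⟨E0, q0, -⟩ := m.sur _ _ (memInt ![1, 0, 0] 0 rfl rfl rfl)
  obtain ⟨E1, q1, -⟩ := m.sur _ _ (memInt ![0, 1, 0] 0 rfl rfl rfl)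
  obtain ⟨E2, q2, -⟩ := m.sur _ _ (memInt ![0, 0, 1] 0 rfl rfl rfl)
  have b5 : ∀ i b, dt i (m.c (st E0 b) + ss i • m.c (st E1 b) + tt i • m.c (st E2 b)) = 0 := by
    intro i b
    rw [← b3, ← b3, ← b1, ← b1]
    refine divc fun n => ?_
    obtain ⟨x, e⟩ := rootX m i n
    refine ⟨_, _, m.mem (st x b), ?_⟩
    rw [← b3, b2]
    rw [m.q_pow, ← e, m.q_mul, m.q_mul, m.q_pow, m.q_pow, q0, q1, q2]
    ext l; fin_cases l <;> simp [xx]
  have b6 : ∀ b, m.c (st E0 b) 1 + m.c (st E1 b) 0 = 0 ∧ m.c (st E0 b) 2 + m.c (st E2 b) 0 = 0 ∧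
      m.c (st E1 b) 2 + m.c (st E2 b) 1 = 0 := by
    intro b
    have t0 := b5 0 b
    have t1 := b5 1 b
    have t2 := b5 2 b
    have t3 := b5 3 b
    have t4 := b5 4 b
    have t5 := b5 5 b
    simp [dt, ss, tt] at t0 t1 t2 t3 t4 t5
    refine ⟨?_, ?_, ?_⟩ <;> linarith
  have c1 := congrFun (b4 E0 E1) 2
  have c2 := congrFun (b4 E1 E2) 0
  have c3 := congrFun (b4 E2 E0) 1
  rw [Pi.sub_apply, Pi.add_apply] at c1 c2 c3
  simp [cr, q0, q1, q2] at c1 c2 c3
  have c4 := (m.mem (st E0 E1)).v2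
  rw [z] at c4
  apply half_not
  convert c4 using 1
  simp only [Pi.zero_apply]
  linarith [(b6 E0).2.2, (b6 E1).2.1, (b6 E2).1]

end Pool.Agent.H60.Br
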