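import Mathlib

set_option autoImplicit false

namespace Pool.Agent.H60.CX

open Set Complex ComplexConjugate Filter Topology

structure Jor (γ : ℝ → ℂ) : Prop where
  c2 : ContDiff ℝ 2 γ
  per : Function.Periodic γ 1
  inj : InjOn γ (Ico 0 1)
  ne : ∀ t, deriv γ t ≠ 0

noncomputable def sec (f : ℝ → ℂ) (t t' : ℝ) : ℂ := ∫ u in (0 : ℝ)..1, deriv f (t + u * (t' - t))

lemma sec_cont {f : ℝ → ℂ} (hf : ContDiff ℝ 1 f) : Continuous fun p : ℝ × ℝ => sec f p.1 p.2 := by
  have := hf.continuous_deriv le_rfl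
  unfold sec
  exact intervalIntegral.continuous_parametric_intervalIntegral_of_continuous'
    (f := fun (p : ℝ × ℝ) (u : ℝ) => deriv f (p.1 + u * (p.2 - p.1))) (by fun_prop) 0 1

lemma sec_self (f : ℝ → ℂ) (t : ℝ) : sec f t t = deriv f t := by simp [sec]

lemma sec_mul {f : ℝ → ℂ} (hf : ContDiff ℝ 1 f) (t t' : ℝ) :
    ((t' - t : ℝ) : ℂ) * sec f t t' = f t' - f t := by
  have hd := hf.differentiable one_ne_zero
  have hc := hf.continuous_deriv le_rfl
  have h1 : ∀ u ∈ uIcc (0 : ℝ) 1, HasDerivAt (fun u => f (t + u * (t' - t)))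
      (((t' - t : ℝ) : ℂ) * deriv f (t + u * (t' - t))) u := by
    intro u _
    have h2 : HasDerivAt (fun u : ℝ => t + u * (t' - t)) (t' - t) u := by
      simpa using ((hasDerivAt_id u).mul_const (t' - t)).const_add t
    have h3 := (hd _).hasDerivAt.scomp u h2
    rw [real_smul] at h3
    exact h3
  have := intervalIntegral.integral_eq_sub_of_hasDerivAt h1
    (Continuous.intervalIntegrable (by fun_prop) _ _)
  rw [intervalIntegral.integral_const_mul] at this
  simpa [sec] using this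

namespace Jor
variable {γ : ℝ → ℂ} (h : Jor γ)
include h

lemma c1 : ContDiff ℝ 1 γ := h.c2.of_le (by norm_num)
lemma d1 : ContDiff ℝ 1 (deriv γ) := h.c2.deriv'
lemma cont : Continuous γ := h.c2.continuous
lemma dcont : Continuous (deriv γ) := h.d1.continuous
lemma ddcont : Continuous (deriv (deriv γ)) := h.d1.continuous_deriv le_rfl
lemma hd (t : ℝ) : HasDerivAt γ (deriv γ t) t := (h.c1.differentiable one_ne_zero t).hasDerivAt
lemma hdd (t : ℝ) : HasDerivAt (deriv γ) (deriv (deriv γ) t) t :=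
  (h.d1.differentiable one_ne_zero t).hasDerivAt

lemma dper : Function.Periodic (deriv γ) 1 := by
  intro t
  rw [← deriv_comp_add_const]
  congr 1
  funext x; exact h.per x

lemma ddper : Function.Periodic (deriv (deriv γ)) 1 := by
  intro t
  rw [← deriv_comp_add_const]
  congr 1
  funext x; exact h.dper x

lemma fract (t : ℝ) : γ (Int.fract t) = γ t := by
  rw [Int.fract]; simpa using h.per.sub_int_mul_eq (x := t) ⌊t⌋

lemma inj' {t t' : ℝ} (e : γ t = γ t') : ∃ n : ℤ, t' = t + n := by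
  have := h.inj ⟨Int.fract_nonneg t, Int.fract_lt_one t⟩ ⟨Int.fract_nonneg t', Int.fract_lt_one t'⟩
    (by rw [h.fract, h.fract, e])
  refine ⟨⌊t'⌋ - ⌊t⌋, ?_⟩
  rw [Int.fract, Int.fract] at this
  push_cast; linarith

lemma eq_of {t t' : ℝ} (e : γ t = γ t') (hl : |t' - t| < 1) : t = t' := by
  obtain ⟨n, hn⟩ := h.inj' e
  rw [hn, add_sub_cancel_left] at hl
  have : n = 0 := by
    have : |n| < 1 := by exact_mod_cast hl
    exact Int.abs_lt_one_iff.1 this
  rw [hn, this]; simp

lemma sec_ne {t t' : ℝ} (hl : |t' - t| < 1) : sec γ t t' ≠ 0 := by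
  intro h0
  have := sec_mul h.c1 t t'
  rw [h0, mul_zero, eq_comm, sub_eq_zero] at this
  have h1 := h.eq_of this.symm hl
  rw [← h1, sec_self] at h0
  exact h.ne t h0

lemma range_eq : range γ = γ '' Icc 0 1 := by
  refine subset_antisymm ?_ (image_subset_range _ _)
  rintro _ ⟨t, rfl⟩
  exact ⟨Int.fract t, ⟨Int.fract_nonneg t, (Int.fract_lt_one t).le⟩, h.fract t⟩

lemma range_eq' : range γ = γ '' Ico 0 1 := by
  refine subset_antisymm ?_ (image_subset_range _ _)
  rintro _ ⟨t, rfl⟩
  exact ⟨Int.fract t, ⟨Int.fract_nonneg t, (Int.fract_lt_one t)⟩, h.fract t⟩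

lemma compact : IsCompact (range γ) := h.range_eq ▸ isCompact_Icc.image h.cont

lemma shift (a : ℝ) : Jor fun t => γ (t + a) where
  c2 := h.c2.comp (contDiff_id.add contDiff_const)
  per := fun t => by simp only; rw [add_right_comm]; exact h.per _
  inj := fun t ht t' ht' e => by
    have := h.eq_of e (by rw [abs_lt]; constructor <;> linarith [ht.1, ht.2, ht'.1, ht'.2])
    linarith
  ne := fun t => by rw [deriv_comp_add_const]; exact h.ne _

lemma neg : Jor fun t => γ (-t) where
  c2 := h.c2.comp contDiff_neg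
  per := fun t => by simp only; rw [neg_add, ← sub_eq_add_neg]; exact h.per.sub_eq _
  inj := fun t ht t' ht' e => by
    have := h.eq_of e (by rw [abs_lt]; constructor <;> linarith [ht.1, ht.2, ht'.1, ht'.2])
    linarith
  ne := fun t => by rw [deriv_comp_neg]; exact neg_ne_zero.2 (h.ne _)

end Jor

/-- tubular coordinates -/
noncomputable def tb (γ : ℝ → ℂ) (w : ℂ) : ℂ := γ w.re + w.im * (I * deriv γ w.re)

noncomputable def tbD (γ : ℝ → ℂ) (w : ℂ) : ℂ →L[ℝ] ℂ :=
  reCLM.smulRight (deriv γ w.re + w.im * (I * deriv (deriv γ) w.re)) +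
    imCLM.smulRight (I * deriv γ w.re)

noncomputable def jac (γ : ℝ → ℂ) (w : ℂ) : ℝ :=
  ((deriv γ w.re + w.im * (I * deriv (deriv γ) w.re)) * conj (deriv γ w.re)).re

lemma tbD_det (γ : ℝ → ℂ) (w : ℂ) : (tbD γ w).det = jac γ w := by
  rw [ContinuousLinearMap.det, ← LinearMap.det_toMatrix basisOneI, Matrix.det_fin_two]
  simp [LinearMap.toMatrix_apply, tbD, jac]
  ring

namespace Jor
variable {γ : ℝ → ℂ} (h : Jor γ)
include h

lemma tb_deriv (w : ℂ) : HasFDerivAt (tb γ) (tbD γ w) w := by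
  have h1 : HasFDerivAt (fun w : ℂ => γ w.re) (reCLM.smulRight (deriv γ w.re)) w :=
    (h.hd w.re).hasFDerivAt.comp w reCLM.hasFDerivAt |>.congr_fderiv (by ext <;> simp)
  have h2 : HasFDerivAt (fun w : ℂ => I * deriv γ w.re)
      (reCLM.smulRight (I * deriv (deriv γ) w.re)) w :=
    ((h.hdd w.re).const_mul I).hasFDerivAt.comp w reCLM.hasFDerivAt |>.congr_fderiv
      (by ext <;> simp)
  have h3 : HasFDerivAt (fun w : ℂ => (w.im : ℂ)) (ofRealCLM.comp imCLM) w :=
    (ofRealCLM.comp imCLM).hasFDerivAt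
  refine (h1.add (h3.mul h2)).congr_fderiv ?_
  refine ContinuousLinearMap.ext fun v => ?_
  simp [tbD]
  ring

lemma tb_c1 : ContDiff ℝ 1 (tb γ) := by
  have h1 := h.c1
  have h2 := h.d1
  unfold tb
  refine (h1.comp reCLM.contDiff).add (ContDiff.mul (ofRealCLM.contDiff.comp imCLM.contDiff) ?_)
  exact contDiff_const.mul (h2.comp reCLM.contDiff)

lemma tb_cont : Continuous (tb γ) := h.tb_c1.continuous

lemma jac_cont : Continuous (jac γ) := by
  have h1 := h.dcont
  have h2 := h.ddcont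
  unfold jac
  fun_prop

lemma tb_add (w : ℂ) (n : ℤ) : tb γ (w + n) = tb γ w := by
  simp only [tb, add_re, intCast_re, add_im, intCast_im, add_zero]
  have h1 := h.per.int_mul n w.re
  have h2 := h.dper.int_mul n w.re
  simp only [mul_one] at h1 h2
  rw [h1, h2]

lemma jac_add (w : ℂ) (n : ℤ) : jac γ (w + n) = jac γ w := by
  simp only [jac, add_re, intCast_re, add_im, intCast_im, add_zero]
  have h1 := h.ddper.int_mul n w.re
  have h2 := h.dper.int_mul n w.re
  simp only [mul_one] at h1 h2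
  rw [h1, h2]

omit h in
/-- a positive continuous function on the real segment stays positive on a thin strip -/
lemma strip_pos {F : ℂ → ℝ} (hF : Continuous F) (hp : ∀ t : ℝ, 0 < F t)
    (hper : ∀ w (n : ℤ), F (w + n) = F w) : ∃ δ > 0, ∃ m > 0, ∀ w : ℂ, |w.im| ≤ δ → m ≤ F w := by
  obtain ⟨m, m0, hm⟩ := (isCompact_Icc (a := (0 : ℝ)) (b := 1)).exists_forall_le'
    (f := fun t : ℝ => F t) (by fun_prop) (fun t _ => hp t)
  have hK : IsCompact ((fun t : ℝ => (t : ℂ)) '' Icc 0 1) := isCompact_Icc.image continuous_ofReal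
  have ho : IsOpen {w | m / 2 < F w} := isOpen_lt continuous_const hF
  obtain ⟨δ, δ0, hδ⟩ := hK.exists_cthickening_subset_open ho (by
    rintro _ ⟨t, ht, rfl⟩; have := hm t ht; simp only [mem_setOf_eq]; linarith)
  refine ⟨δ, δ0, m / 2, by positivity, fun w hw => ?_⟩
  have h1 : w + ((-⌊w.re⌋ : ℤ) : ℂ) ∈ Metric.cthickening δ ((fun t : ℝ => (t : ℂ)) '' Icc 0 1) := by
    refine Metric.mem_cthickening_of_dist_le _ ((Int.fract w.re : ℝ) : ℂ) _ _
      (mem_image_of_mem _ ⟨Int.fract_nonneg _, (Int.fract_lt_one _).le⟩) ?_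
    have : w + ((-⌊w.re⌋ : ℤ) : ℂ) - (Int.fract w.re : ℝ) = w.im * I := by
      rw [Int.fract]
      apply Complex.ext <;> simp [-Int.self_sub_floor]
    rw [dist_eq_norm, this]; simpa using hw
  have := hδ h1
  simp only [mem_setOf_eq, hper] at this
  exact this.le

lemma tb_inj : ∃ δ > 0, ∀ w w' : ℂ, |w.im| ≤ δ → |w'.im| ≤ δ → tb γ w = tb γ w' →
    ∃ n : ℤ, w' = w + n := by
  let K : Set (ℝ × ℝ) := Icc 0 1 ×ˢ Icc (-1 / 2) (1 / 2)
  have hK : IsCompact K := isCompact_Icc.prod isCompact_Icc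
  have hs := sec_cont h.c1
  have hs' := sec_cont h.d1
  have hc := h.cont
  have hd := h.dcont
  have e1 : Continuous fun p : ℝ × ℝ => sec γ p.1 (p.1 + p.2) :=
    hs.comp (f := fun p : ℝ × ℝ => (p.1, p.1 + p.2)) (by fun_prop)
  have e2 : Continuous fun p : ℝ × ℝ => sec (deriv γ) p.1 (p.1 + p.2) :=
    hs'.comp (f := fun p : ℝ × ℝ => (p.1, p.1 + p.2)) (by fun_prop)
  obtain ⟨m, m0, hm⟩ := hK.exists_forall_le' (a := 0) (f := fun p : ℝ × ℝ =>
    max (sec γ p.1 (p.1 + p.2) * conj (deriv γ p.1)).re ‖γ (p.1 + p.2) - γ p.1‖)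
    (by fun_prop) (by
      rintro ⟨t, u⟩ ⟨-, hu⟩
      by_cases h0 : u = 0
      · subst h0
        refine lt_max_of_lt_left ?_
        simp only [add_zero, sec_self, mul_conj, ofReal_re]
        exact normSq_pos.2 (h.ne t)
      · refine lt_max_of_lt_right (norm_pos_iff.2 (sub_ne_zero.2 fun e => h0 ?_))
        have := h.eq_of e (by simp only [abs_lt]; constructor <;> linarith [hu.1, hu.2])
        linarith)
  obtain ⟨C, hC⟩ := hK.exists_bound_of_continuousOn (f := fun p : ℝ × ℝ =>
    ‖sec (deriv γ) p.1 (p.1 + p.2)‖ * ‖deriv γ p.1‖ + ‖deriv γ p.1‖ + ‖deriv γ (p.1 + p.2)‖)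
    (by fun_prop)
  have C0 : 0 ≤ C := (norm_nonneg _).trans (hC (0, 0) ⟨by simp, by norm_num⟩)
  have core : ∀ w w' : ℂ, |w.im| ≤ m / (2 * (C + 1)) → |w'.im| ≤ m / (2 * (C + 1)) →
      w.re ∈ Icc (0 : ℝ) 1 → w'.re - w.re ∈ Icc (-1 / 2 : ℝ) (1 / 2) → tb γ w = tb γ w' →
      w' = w := by
    intro w w' a1 a2 a3 a4 e
    have b1 := hm (w.re, w'.re - w.re) ⟨a3, a4⟩
    have b2 := hC (w.re, w'.re - w.re) ⟨a3, a4⟩
    simp only [add_sub_cancel] at b1 b2
    rw [Real.norm_of_nonneg (by positivity)] at b2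
    have hδ : m / (2 * (C + 1)) * C < m := by
      rw [div_mul_eq_mul_div, div_lt_iff₀ (by positivity)]; nlinarith
    have δ0 : 0 < m / (2 * (C + 1)) := by positivity
    set δ := m / (2 * (C + 1))
    have hre : w.re = w'.re := by
      by_contra hne
      rcases le_max_iff.1 b1 with b | b
      · have s1 := sec_mul h.c1 w.re w'.re
        have s2 := sec_mul h.d1 w.re w'.re
        have hne' : ((w'.re - w.re : ℝ) : ℂ) ≠ 0 := by
          exact_mod_cast sub_ne_zero.2 (Ne.symm hne)
        have key : ((w'.re - w.re : ℝ) : ℂ) * ((sec γ w.re w'.re +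
            w'.im * (I * sec (deriv γ) w.re w'.re)) * conj (deriv γ w.re)) =
            ((w.im - w'.im : ℝ) : ℂ) * I * (deriv γ w.re * conj (deriv γ w.re)) := by
          simp only [tb] at e
          push_cast at s1 s2 ⊢
          linear_combination conj (deriv γ w.re) * (s1 + w'.im * I * s2 - e)
        have k2 := congrArg Complex.re key
        rw [mul_conj, re_ofReal_mul] at k2
        simp only [mul_re, ofReal_re, I_re, mul_zero, ofReal_im, I_im, mul_one, sub_self, zero_mul,
          mul_im, add_zero] at k2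
        have k3 : ((sec γ w.re w'.re + w'.im * (I * sec (deriv γ) w.re w'.re)) *
            conj (deriv γ w.re)).re = 0 :=
          (mul_eq_zero.1 (by simpa using k2)).resolve_left (sub_ne_zero.2 (Ne.symm hne))
        rw [add_mul, add_re] at k3
        have k4 := (abs_le.1 (abs_re_le_norm
          (w'.im * (I * sec (deriv γ) w.re w'.re) * conj (deriv γ w.re)))).1
        simp only [norm_mul, norm_real, Real.norm_eq_abs, norm_I, one_mul, norm_conj] at k4
        have k5 : |w'.im| * ‖sec (deriv γ) w.re w'.re‖ * ‖deriv γ w.re‖ ≤ δ * C := by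
          rw [mul_assoc]
          exact mul_le_mul a2 (by linarith [norm_nonneg (deriv γ w.re), norm_nonneg (deriv γ w'.re)])
            (by positivity) δ0.le
        linarith
      · have : γ w'.re - γ w.re = w.im * (I * deriv γ w.re) - w'.im * (I * deriv γ w'.re) := by
          simp only [tb] at e; linear_combination -e
        rw [this] at b
        have k := norm_sub_le (w.im * (I * deriv γ w.re)) (w'.im * (I * deriv γ w'.re))
        simp only [norm_mul, norm_real, Real.norm_eq_abs, norm_I, one_mul] at k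
        have k1 := mul_le_mul_of_nonneg_right a1 (norm_nonneg (deriv γ w.re))
        have k2 := mul_le_mul_of_nonneg_right a2 (norm_nonneg (deriv γ w'.re))
        have k3 : δ * (‖deriv γ w.re‖ + ‖deriv γ w'.re‖) ≤ δ * C :=
          mul_le_mul_of_nonneg_left (by
            linarith [mul_nonneg (norm_nonneg (sec (deriv γ) w.re w'.re))
              (norm_nonneg (deriv γ w.re))]) δ0.le
        linarith
    simp only [tb, hre, add_right_inj] at e
    have := mul_right_cancel₀ (mul_ne_zero I_ne_zero (h.ne _)) e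
    exact Complex.ext hre.symm (by exact_mod_cast this.symm)
  refine ⟨m / (2 * (C + 1)), by positivity, fun w w' a1 a2 e => ?_⟩
  have := core (w + ((-⌊w.re⌋ : ℤ) : ℂ)) (w' + ((-⌊w.re⌋ - round (w'.re - w.re) : ℤ) : ℂ))
    (by simpa using a1) (by simpa using a2) (by
      have := Int.fract_nonneg w.re
      have := Int.fract_lt_one w.re
      simp only [Int.fract] at *
      constructor <;> simp <;> linarith) (by
      have := abs_le.1 (abs_sub_round (w'.re - w.re))
      constructor <;> simp <;> linarith) (by rw [h.tb_add, h.tb_add, e])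
  refine ⟨round (w'.re - w.re), ?_⟩
  push_cast at this
  linear_combination this

lemma jac_pos : ∃ δ > 0, ∃ m > 0, ∀ w : ℂ, |w.im| ≤ δ → m ≤ jac γ w :=
  strip_pos h.jac_cont (fun t => by
    simp only [jac, ofReal_re, ofReal_im, ofReal_zero, zero_mul, add_zero, mul_conj]
    exact normSq_pos.2 (h.ne t)) h.jac_add

lemma tb_nhds {w : ℂ} (hw : jac γ w ≠ 0) : map (tb γ) (𝓝 w) = 𝓝 (tb γ w) := by
  have h1 : HasStrictFDerivAt (tb γ) (tbD γ w) w := by
    have := h.tb_c1.hasStrictFDerivAt (x := w) one_ne_zero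
    rwa [(h.tb_deriv w).fderiv] at this
  have h2 : (tbD γ w).det ≠ 0 := by rwa [tbD_det]
  exact HasStrictFDerivAt.map_nhds_eq_of_equiv (f' := (tbD γ w).toContinuousLinearEquivOfDetNeZero h2)
    (by simpa using h1)

end Jor

end Pool.Agent.H60.CX
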