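import Pool.Agent.H60.CXa

set_option autoImplicit false

namespace Pool.Agent.H60.CX

open Set Complex ComplexConjugate Filter Topology InnerProductSpace

lemma sub_of_conn {U S : Set ℂ} (hU : IsOpen U) (hS : IsPreconnected S)
    (hd : ∀ z ∈ S, z ∉ frontier U) (hne : (S ∩ U).Nonempty) : S ⊆ U := by
  refine hS.subset_left_of_subset_union hU isClosed_closure.isOpen_compl
    (disjoint_compl_right.mono_left subset_closure) (fun z hz => ?_) hne
  by_cases h : z ∈ closure U
  · left
    by_contra h'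
    exact hd z hz (by rw [hU.frontier_eq]; exact ⟨h, h'⟩)
  · exact Or.inr h

def Left (γ : ℝ → ℂ) (U : Set ℂ) : Prop := ∃ δ > 0, ∀ w : ℂ, 0 < w.im → w.im < δ → tb γ w ∈ U

lemma tb_neg (γ : ℝ → ℂ) (w : ℂ) : tb (fun t => γ (-t)) w = tb γ (-w) := by
  simp [tb, deriv_comp_neg]

lemma tb_shift (γ : ℝ → ℂ) (a : ℝ) (w : ℂ) : tb (fun t => γ (t + a)) w = tb γ (w + a) := by
  simp [tb, deriv_comp_add_const]

lemma Left.shift {γ : ℝ → ℂ} {U : Set ℂ} (h : Left γ U) (a : ℝ) : Left (fun t => γ (t + a)) U := by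
  obtain ⟨δ, δ0, h⟩ := h
  exact ⟨δ, δ0, fun w h1 h2 => by rw [tb_shift]; exact h _ (by simpa) (by simpa)⟩

lemma tb_real (γ : ℝ → ℂ) (t : ℝ) : tb γ t = γ t := by simp [tb]

lemma Jor.avoid {γ : ℝ → ℂ} (h : Jor γ) {Γ : Set ℂ} (hΓ : IsClosed Γ) (hd : Disjoint (range γ) Γ) :
    ∃ δ > 0, ∀ w : ℂ, |w.im| ≤ δ → tb γ w ∉ Γ := by
  rcases Γ.eq_empty_or_nonempty with rfl | hne
  · exact ⟨1, one_pos, fun _ _ => notMem_empty _⟩
  obtain ⟨δ, δ0, m, m0, hm⟩ := Jor.strip_pos (F := fun w => Metric.infDist (tb γ w) Γ)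
    ((Metric.continuous_infDist_pt Γ).comp h.tb_cont) (fun t => by
      rw [tb_real]
      exact (hΓ.notMem_iff_infDist_pos hne).1 (Set.disjoint_left.1 hd ⟨t, rfl⟩))
    (fun w n => by simp only [h.tb_add])
  refine ⟨δ, δ0, fun w hw hmem => ?_⟩
  have := hm w hw
  rw [Metric.infDist_zero_of_mem hmem] at this
  linarith

lemma Jor.side {γ : ℝ → ℂ} (h : Jor γ) {U Γ : Set ℂ} (hU : IsOpen U) (hΓ : IsClosed Γ)
    (hd : Disjoint (range γ) Γ) (hf : frontier U = range γ ∪ Γ) :
    Left γ U ∨ Left (fun t => γ (-t)) U := by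
  obtain ⟨δ₁, a1, h1⟩ := h.tb_inj
  obtain ⟨δ₂, a2, h2⟩ := h.avoid hΓ hd
  obtain ⟨δ₃, a3, m, m0, h3⟩ := h.jac_pos
  set δ := min δ₁ δ₂ with hδ
  have δ0 : 0 < δ := lt_min a1 a2
  have hnf : ∀ w : ℂ, |w.im| < δ → w.im ≠ 0 → tb γ w ∉ frontier U := by
    intro w hw h0
    rw [hf]
    rintro (⟨t, ht⟩ | hm)
    · obtain ⟨n, hn⟩ := h1 t w (by simpa using a1.le) (hw.le.trans (min_le_left _ _))
        (by rw [tb_real, ht])
      apply h0; rw [hn]; simp
    · exact h2 w (hw.le.trans (min_le_right _ _)) hm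
  have hcl : tb γ (0 : ℝ) ∈ closure U := by
    rw [tb_real]; exact frontier_subset_closure (hf ▸ Or.inl ⟨0, rfl⟩)
  have hn : tb γ '' {w | |w.im| < δ} ∈ 𝓝 (tb γ (0 : ℝ)) := by
    rw [← h.tb_nhds (by have := h3 (0 : ℝ) (by simpa using a3.le); linarith)]
    exact image_mem_map ((isOpen_lt (by fun_prop) continuous_const).mem_nhds (by simpa using δ0))
  obtain ⟨_, ⟨w, hw, rfl⟩, hwU⟩ := mem_closure_iff_nhds.1 hcl _ hn
  simp only [mem_setOf_eq] at hw
  rcases lt_trichotomy w.im 0 with h0 | h0 | h0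
  · right
    have hc : Convex ℝ {w : ℂ | -δ < w.im ∧ w.im < 0} :=
      (convex_halfSpace_im_gt _).inter (convex_halfSpace_im_lt _)
    have := sub_of_conn hU (hc.isPreconnected.image _ h.tb_cont.continuousOn) (by
      rintro _ ⟨v, hv, rfl⟩
      exact hnf v (abs_lt.2 ⟨hv.1, by linarith [hv.2]⟩) hv.2.ne)
      ⟨_, ⟨w, ⟨(abs_lt.1 hw).1, h0⟩, rfl⟩, hwU⟩
    exact ⟨δ, δ0, fun v h1 h2 => by
      rw [tb_neg]; exact this ⟨_, ⟨by simpa, by simpa⟩, rfl⟩⟩
  · exfalso
    have : w = (w.re : ℂ) := by apply Complex.ext <;> simp [h0]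
    rw [this, tb_real] at hwU
    have h4 : γ w.re ∈ frontier U := hf ▸ Or.inl ⟨_, rfl⟩
    rw [hU.frontier_eq] at h4
    exact h4.2 hwU
  · left
    have hc : Convex ℝ {w : ℂ | 0 < w.im ∧ w.im < δ} :=
      (convex_halfSpace_im_gt _).inter (convex_halfSpace_im_lt _)
    have := sub_of_conn hU (hc.isPreconnected.image _ h.tb_cont.continuousOn) (by
      rintro _ ⟨v, hv, rfl⟩
      exact hnf v (abs_lt.2 ⟨by linarith [hv.1], hv.2⟩) hv.1.ne')
      ⟨_, ⟨w, ⟨h0, (abs_lt.1 hw).2⟩, rfl⟩, hwU⟩
    exact ⟨δ, δ0, fun v h1 h2 => this ⟨_, ⟨h1, h2⟩, rfl⟩⟩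

lemma Jor.disc {γ : ℝ → ℂ} (h : Jor γ) {U Γ : Set ℂ} (hU : IsOpen U) (hΓ : IsClosed Γ)
    (hd : Disjoint (range γ) Γ) (hf : frontier U = range γ ∪ Γ) (hl : Left γ U) (t : ℝ) :
    ∃ r : ℝ, 0 < r ∧ Metric.ball (γ t + r * (I * deriv γ t)) (r * ‖deriv γ t‖) ⊆ U := by
  obtain ⟨δ, δ0, hδ⟩ := hl
  obtain ⟨ρ, ρ0, hρ⟩ := Metric.isOpen_iff.1 hΓ.isOpen_compl (γ t) (Set.disjoint_left.1 hd ⟨t, rfl⟩)
  obtain ⟨K, hK⟩ := (isCompact_Icc (a := t - 1) (b := t + 1)).exists_bound_of_continuousOn
    h.ddcont.continuousOn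
  have K0 : 0 ≤ K := (norm_nonneg _).trans (hK t ⟨by linarith, by linarith⟩)
  obtain ⟨c, c0, hc⟩ := (isCompact_Icc (a := t - 1 / 2) (b := t + 1 / 2)).exists_forall_le'
    (f := fun t' => ‖sec γ t t'‖) (a := 0)
    (((sec_cont h.c1).comp (f := fun t' => (t, t')) (by fun_prop)).norm.continuousOn)
    (fun t' ht' => norm_pos_iff.2 (h.sec_ne (by
      rw [abs_lt]; constructor <;> linarith [ht'.1, ht'.2])))
  have n0 : 0 < ‖deriv γ t‖ := norm_pos_iff.2 (h.ne t)
  set n := ‖deriv γ t‖ with hn
  have ev : ∀ᶠ r : ℝ in 𝓝[>] 0, 0 < r ∧ r < δ ∧ r < ρ / (2 * n) ∧ r < c ^ 2 / (2 * K * n + 1) :=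
    Eventually.and self_mem_nhdsWithin (Eventually.filter_mono nhdsWithin_le_nhds
      ((eventually_lt_nhds δ0).and ((eventually_lt_nhds (by positivity)).and
        (eventually_lt_nhds (by positivity)))))
  obtain ⟨r, r0, r1, r2, r3⟩ := ev.exists
  refine ⟨r, r0, sub_of_conn hU (convex_ball _ _).isPreconnected (fun z hz => ?_)
    ⟨γ t + r * (I * deriv γ t), Metric.mem_ball_self (by positivity), ?_⟩⟩
  · rw [hf]
    rw [Metric.mem_ball, dist_eq_norm] at hz
    rintro (⟨t', rfl⟩ | hm)
    · set u := t' - t - round (t' - t) with hu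
      have u1 := abs_le.1 (abs_sub_round (t' - t))
      have e1 : γ t' = γ (t + u) := by
        have := h.per.sub_int_mul_eq (x := t') (round (t' - t))
        rw [← this]; congr 1; rw [hu]; ring
      have e2 := sec_mul h.c1 t (t + u)
      rw [add_sub_cancel_left] at e2
      have e3 : ‖sec γ t (t + u) - deriv γ t‖ ≤ K * |u| := by
        have : sec γ t (t + u) - deriv γ t =
            ∫ s in (0 : ℝ)..1, (deriv γ (t + s * (t + u - t)) - deriv γ t) := by
          have := h.dcont
          rw [intervalIntegral.integral_sub (Continuous.intervalIntegrable (by fun_prop) _ _)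
            (by simp)]
          simp [sec]
        rw [this]
        refine (intervalIntegral.norm_integral_le_of_norm_le_const (C := K * |u|)
          fun s hs => ?_).trans (by simp)
        rw [uIoc_of_le zero_le_one] at hs
        have hsu : |s * u| ≤ |u| := by
          rw [abs_mul, abs_of_pos hs.1]; exact mul_le_of_le_one_left (abs_nonneg _) hs.2
        have hu2 : |u| ≤ 1 / 2 := abs_le.2 u1
        have := (convex_Icc (t - 1) (t + 1)).norm_image_sub_le_of_norm_deriv_le
          (f := deriv γ) (x := t) (y := t + s * (t + u - t))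
          (fun x _ => (h.hdd x).differentiableAt) hK ⟨by linarith, by linarith⟩
          (by rw [add_sub_cancel_left]
              constructor <;> linarith [(abs_le.1 (hsu.trans hu2)).1, (abs_le.1 (hsu.trans hu2)).2])
        refine this.trans ?_
        rw [add_sub_cancel_left, add_sub_cancel_left, Real.norm_eq_abs]
        gcongr
      have e4 := hc (t + u) ⟨by linarith [u1.1], by linarith [u1.2]⟩
      set S := sec γ t (t + u)
      have e5 : γ t' - (γ t + r * (I * deriv γ t)) = u * S - r * (I * deriv γ t) := by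
        rw [e1, e2]; ring
      rw [e5, ← sq_lt_sq₀ (norm_nonneg _) (by positivity), Complex.sq_norm, normSq_sub] at hz
      have e6 : normSq (u * S) = u ^ 2 * ‖S‖ ^ 2 := by
        rw [normSq_mul, normSq_ofReal, normSq_eq_norm_sq]; ring
      have e7 : normSq (r * (I * deriv γ t)) = (r * n) ^ 2 := by
        rw [normSq_mul, normSq_mul, normSq_ofReal, normSq_I, normSq_eq_norm_sq]; ring
      have e8 : ((u : ℂ) * S * conj (r * (I * deriv γ t))).re =
          u * r * ((S - deriv γ t) * conj (I * deriv γ t)).re := by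
        simp; ring
      have e9 : |((S - deriv γ t) * conj (I * deriv γ t)).re| ≤ K * |u| * n := by
        refine (abs_re_le_norm _).trans ?_
        rw [norm_mul, norm_conj, norm_mul, norm_I, one_mul]
        gcongr
      rw [e6, e7, e8] at hz
      have e10 : u * r * ((S - deriv γ t) * conj (I * deriv γ t)).re ≤ r * K * n * u ^ 2 := by
        refine (le_abs_self _).trans ?_
        rw [abs_mul, abs_mul, abs_of_pos r0, ← sq_abs u]
        calc |u| * r * |((S - deriv γ t) * conj (I * deriv γ t)).re| ≤ |u| * r * (K * |u| * n) := by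
              gcongr
          _ = _ := by ring
      rw [lt_div_iff₀ (by positivity)] at r3
      have e11 : c ^ 2 ≤ ‖S‖ ^ 2 := by gcongr
      nlinarith [sq_nonneg u, mul_le_mul_of_nonneg_left e11 (sq_nonneg u),
        mul_le_mul_of_nonneg_left r3.le (sq_nonneg u), mul_nonneg r0.le (sq_nonneg u)]
    · refine hρ ?_ hm
      rw [Metric.mem_ball, dist_eq_norm]
      have := norm_add_le (z - (γ t + r * (I * deriv γ t))) (r * (I * deriv γ t))
      rw [lt_div_iff₀ (by positivity)] at r2
      simp only [norm_mul, norm_real, Real.norm_of_nonneg r0.le, norm_I, one_mul] at this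
      rw [show z - (γ t + r * (I * deriv γ t)) + r * (I * deriv γ t) = z - γ t by ring] at this
      linarith
  · have := hδ (t + r * I) (by simpa) (by simpa)
    simpa [tb] using this

structure Dom (U : Set ℂ) (ψ : ℂ → ℝ) : Prop where
  op : IsOpen U
  conn : IsConnected U
  bdd : Bornology.IsBounded U
  c2 : ContDiff ℝ 2 ψ
  harm : ∀ z ∈ U, HarmonicAt ψ z

noncomputable def gr (ψ : ℂ → ℝ) (z : ℂ) : ℂ := fderiv ℝ ψ z 1 - I * fderiv ℝ ψ z I

noncomputable def grD (ψ : ℂ → ℝ) (z : ℂ) : ℂ := fderiv ℝ (gr ψ) z 1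

lemma fderiv_eq (ψ : ℂ → ℝ) (z v : ℂ) : fderiv ℝ ψ z v = (gr ψ z * v).re := by
  conv_lhs => rw [show v = v.re • (1 : ℂ) + v.im • I by simp]
  rw [map_add, map_smul, map_smul]
  simp [gr]; ring

lemma norm_fderiv (ψ : ℂ → ℝ) (z : ℂ) : ‖fderiv ℝ ψ z‖ = ‖gr ψ z‖ := by
  refine le_antisymm (ContinuousLinearMap.opNorm_le_bound _ (norm_nonneg _) fun v => ?_) ?_
  · rw [fderiv_eq, ← norm_mul]; exact abs_re_le_norm _
  · have := (fderiv ℝ ψ z).le_opNorm (conj (gr ψ z))
    rw [fderiv_eq, mul_conj, ofReal_re, normSq_eq_norm_sq, norm_conj,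
      Real.norm_of_nonneg (by positivity)] at this
    rcases (norm_nonneg (gr ψ z)).eq_or_lt with h | h
    · rw [← h]; exact norm_nonneg _
    · nlinarith

lemma gr_c1 {ψ : ℂ → ℝ} (h : ContDiff ℝ 2 ψ) : ContDiff ℝ 1 (gr ψ) := by
  have h1 : ContDiff ℝ 1 (fderiv ℝ ψ) := h.fderiv_right (by norm_num)
  unfold gr
  exact (ofRealCLM.contDiff.comp (h1.clm_apply contDiff_const)).sub
    (contDiff_const.mul (ofRealCLM.contDiff.comp (h1.clm_apply contDiff_const)))

namespace Dom
variable {U : Set ℂ} {ψ : ℂ → ℝ} (h : Dom U ψ)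
include h

lemma cont : Continuous ψ := h.c2.continuous
lemma diff : Differentiable ℝ ψ := h.c2.differentiable (by norm_num)
lemma gcont : Continuous (gr ψ) := (gr_c1 h.c2).continuous
lemma gDcont : Continuous (grD ψ) :=
  ((gr_c1 h.c2).continuous_fderiv one_ne_zero).clm_apply continuous_const
lemma hol {z : ℂ} (hz : z ∈ U) : AnalyticAt ℂ (gr ψ) z := 
  HarmonicAt.analyticAt_complex_partial (h.harm z hz)
lemma compact : IsCompact (closure U) := h.bdd.isCompact_closure

lemma fderiv_gr {z : ℂ} (hz : z ∈ closure U) (v : ℂ) : fderiv ℝ (gr ψ) z v = grD ψ z * v := by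
  have hc : IsClosed {z | fderiv ℝ (gr ψ) z v = grD ψ z * v} :=
    isClosed_eq (((gr_c1 h.c2).continuous_fderiv one_ne_zero).clm_apply continuous_const)
      (h.gDcont.mul continuous_const)
  refine closure_minimal (fun z hz => ?_) hc hz
  have h1 := (h.hol hz).differentiableAt.hasDerivAt.hasFDerivAt.restrictScalars ℝ
  simp only [mem_setOf_eq, grD, h1.fderiv]
  simp [mul_comm]

lemma hasDerivAt {z : ℂ} (hz : z ∈ U) : HasDerivAt (gr ψ) (grD ψ z) z := by
  have h0 := (h.hol hz).differentiableAt.hasDerivAt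
  have h1 := h0.hasFDerivAt.restrictScalars ℝ
  have : grD ψ z = deriv (gr ψ) z := by simp [grD, h1.fderiv]
  rwa [this]

lemma affine (a b : ℝ) : Dom U fun z => a * ψ z + b where
  op := h.op
  conn := h.conn
  bdd := h.bdd
  c2 := (contDiff_const.mul h.c2).add contDiff_const
  harm := fun z hz => ((h.harm z hz).const_smul (c := a)).add (harmonicAt_const b)

lemma strict_max {L : ℝ} (hf : ∀ z ∈ frontier U, ψ z ≤ L) {z₀ : ℂ} (h0 : z₀ ∈ closure U)
    (h1 : ψ z₀ < L) : ∀ z ∈ U, ψ z < L := by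
  obtain ⟨p, hp, hmax⟩ := h.compact.exists_isMaxOn ⟨z₀, h0⟩ h.cont.continuousOn
  have key : ∀ q ∈ U, ψ q ≠ ψ p ∨ ψ p < L := by
    intro q hq
    by_contra hcon
    push_neg at hcon
    have hop : IsOpen {z | z ∈ U ∧ ψ z = ψ p} := by
      rw [isOpen_iff_mem_nhds]
      rintro z ⟨hz, e⟩
      obtain ⟨r, r0, hr⟩ := Metric.isOpen_iff.1 h.op z hz
      obtain ⟨F, hF, hre⟩ := HarmonicOnNhd.exists_analyticOnNhd_ball_re_eq (f := ψ) (z := z) (R := r)
        fun x hx => h.harm x (hr hx)
      have hb := Metric.ball_mem_nhds z r0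
      have := Complex.norm_eventually_eq_of_isLocalMax (f := fun x => exp (F x)) (c := z)
        (by filter_upwards [hb] with x hx using (hF x hx).differentiableAt.cexp) (by
          filter_upwards [hb] with x hx
          simp only [Function.comp, norm_exp]
          have e1 : (F x).re = ψ x := hre hx
          have e2 : (F z).re = ψ z := hre (Metric.mem_ball_self r0)
          rw [e1, e2, e]
          exact Real.exp_le_exp.2 (hmax (subset_closure (hr hx))))
      filter_upwards [this, hb] with x hx hxb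
      simp only [norm_exp, Real.exp_eq_exp] at hx
      have e1 : (F x).re = ψ x := hre hxb
      have e2 : (F z).re = ψ z := hre (Metric.mem_ball_self r0)
      exact ⟨hr hxb, by rw [← e1, hx, e2, e]⟩
    have hsub := h.conn.isPreconnected.subset_left_of_subset_union hop
      (isOpen_ne_fun h.cont (continuous_const (y := ψ p)))
      (Set.disjoint_left.2 fun z hz hz' => hz' hz.2)
      (fun z hz => by by_cases e : ψ z = ψ p; exacts [Or.inl ⟨hz, e⟩, Or.inr e])
      ⟨q, hq, hq, hcon.1⟩
    have : ψ z₀ = ψ p := closure_minimal (fun z hz => (hsub hz).2)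
      (isClosed_eq h.cont continuous_const) h0
    linarith [hcon.2]
  intro z hz
  have hzp : ψ z ≤ ψ p := hmax (subset_closure hz)
  by_cases hpU : p ∈ U
  · rcases key p hpU with e | e
    · exact absurd rfl e
    · linarith
  · have : ψ p ≤ L := hf p (by rw [h.op.frontier_eq]; exact ⟨hp, hpU⟩)
    rcases key z hz with e | e
    · exact (lt_of_le_of_ne hzp e).trans_le this
    · linarith

lemma hopf {L : ℝ} (hlt : ∀ z ∈ U, ψ z < L) {p n : ℂ} (hp : ψ p = L) (hn : n ≠ 0) {r : ℝ}
    (r0 : 0 < r) (hb : Metric.ball (p + r * n) (r * ‖n‖) ⊆ U) : fderiv ℝ ψ p n < 0 := by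
  have n0 : 0 < ‖n‖ := norm_pos_iff.2 hn
  set c := p + r * n with hc
  set R := r * ‖n‖ with hR
  have R0 : 0 < R := by positivity
  obtain ⟨F, hF, hre⟩ := HarmonicOnNhd.exists_analyticOnNhd_ball_re_eq (f := ψ) (z := c) (R := R)
    fun x hx => h.harm x (hb hx)
  obtain ⟨m, m0, hm⟩ := (isCompact_sphere c (R / 2)).exists_forall_le' (f := fun z => L - ψ z)
    (a := 0) (continuous_const.sub h.cont).continuousOn (fun z hz => sub_pos.2 (hlt z (hb (by
      rw [Metric.mem_sphere] at hz; rw [Metric.mem_ball]; linarith))))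
  set k := 1 / m with hk
  have k0 : 0 < k := by positivity
  have key : ∀ s : ℝ, 0 < s → s < r / 2 → ψ (p + s * n) - ψ p ≤ -(s / (2 * r * k)) := by
    intro s s0 s1
    set R' := (r - s / 2) * ‖n‖ with hR'
    have R1 : R' < R := by rw [hR', hR]; nlinarith
    have R2 : R / 2 < R' := by rw [hR', hR]; nlinarith
    let A : Set ℂ := Metric.ball c R' \ Metric.closedBall c (R / 2)
    have hcl : closure A ⊆ Metric.closedBall c R' \ Metric.ball c (R / 2) :=
      closure_minimal (diff_subset_diff Metric.ball_subset_closedBall Metric.ball_subset_closedBall)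
        (Metric.isClosed_closedBall.sdiff Metric.isOpen_ball)
    have hd : ∀ z ∈ closure A,
        DifferentiableAt ℂ (fun z => exp (k * (F z - L)) * (R' / (z - c))) z := by
      intro z hz
      obtain ⟨h1, h2⟩ := hcl hz
      have h3 := (hF z (Metric.closedBall_subset_ball R1 h1)).differentiableAt
      have h4 : z - c ≠ 0 := by
        rintro e; rw [sub_eq_zero] at e; apply h2; rw [e]; exact Metric.mem_ball_self (by linarith)
      fun_prop (disch := assumption)
    have hnorm : ∀ z ∈ Metric.closedBall c R', ‖exp (k * (F z - L)) * (R' / (z - c))‖ =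
        Real.exp (k * (ψ z - L)) * (R' / ‖z - c‖) := by
      intro z hz
      have e1 : (F z).re = ψ z := hre (Metric.closedBall_subset_ball R1 hz)
      rw [norm_mul, norm_exp, norm_div, norm_real, Real.norm_of_nonneg (by linarith), ← e1]
      simp
    have hz : p + s * n - c = -(((r - s : ℝ) : ℂ) * n) := by rw [hc]; push_cast; ring
    have hz' : ‖p + s * n - c‖ = (r - s) * ‖n‖ := by
      rw [hz, norm_neg, norm_mul, norm_real, Real.norm_of_nonneg (by linarith)]
    have hA : p + s * n ∈ A := by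
      constructor
      · rw [Metric.mem_ball, dist_eq_norm, hz', hR']; nlinarith
      · rw [Metric.mem_closedBall, dist_eq_norm, hz', hR, not_le]; nlinarith
    have := Complex.norm_le_of_forall_mem_frontier_norm_le (U := A)
      (Metric.isBounded_ball.subset diff_subset) (C := 1)
      ⟨fun z hz => (hd z (subset_closure hz)).differentiableWithinAt,
        fun z hz => (hd z hz).continuousAt.continuousWithinAt⟩ (fun z hz => by
        have ho : IsOpen A := Metric.isOpen_ball.sdiff Metric.isClosed_closedBall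
        rw [ho.frontier_eq] at hz
        obtain ⟨h1, h2⟩ := hcl hz.1
        rw [hnorm z h1]
        rw [Metric.mem_closedBall, dist_eq_norm] at h1
        rw [Metric.mem_ball, dist_eq_norm, not_lt] at h2
        rcases h1.eq_or_lt with h1 | h1
        · rw [h1, div_self (by linarith), mul_one, Real.exp_le_one_iff]
          have := hlt z (hb (by rw [Metric.mem_ball, dist_eq_norm]; linarith))
          nlinarith
        · have h3 : ‖z - c‖ = R / 2 := by
            by_contra h3
            exact hz.2 ⟨by rwa [Metric.mem_ball, dist_eq_norm], by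
              rw [Metric.mem_closedBall, dist_eq_norm, not_le]; exact lt_of_le_of_ne h2 (Ne.symm h3)⟩
          have h4 := hm z (by rwa [Metric.mem_sphere, dist_eq_norm])
          have h5 : k * (ψ z - L) ≤ -1 := by
            have : k * m = 1 := by rw [hk]; field_simp
            nlinarith
          have h6 : Real.exp (k * (ψ z - L)) ≤ 1 / 2 := by
            refine (Real.exp_le_exp.2 h5).trans ?_
            rw [Real.exp_neg, inv_le_comm₀ (Real.exp_pos _) (by norm_num)]
            linarith [Real.add_one_le_exp 1]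
          have h7 : R' / ‖z - c‖ ≤ 2 := by rw [h3, div_le_iff₀ (by linarith)]; linarith
          calc _ ≤ 1 / 2 * 2 := mul_le_mul h6 h7 (div_nonneg (by linarith) (norm_nonneg _)) (by norm_num)
            _ = 1 := by norm_num) (subset_closure hA)
    rw [hnorm _ (Metric.ball_subset_closedBall hA.1), hz', hR',
      mul_div_mul_right _ _ n0.ne', ← mul_div_assoc, div_le_one (by linarith)] at this
    have h8 := Real.add_one_le_exp (k * (ψ (p + s * n) - L))
    have h9 : k * (ψ (p + s * n) - L) ≤ -(s / (2 * r)) := by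
      have : (k * (ψ (p + s * n) - L) + 1) * (r - s / 2) ≤ r - s :=
        (mul_le_mul_of_nonneg_right h8 (by linarith)).trans this
      have h10 : k * (ψ (p + s * n) - L) * (r - s / 2) ≤ -(s / 2) := by linarith
      have h11 : k * (ψ (p + s * n) - L) ≤ 0 := by
        by_contra h; push_neg at h; nlinarith
      rw [le_neg, div_le_iff₀ (by positivity)]
      nlinarith
    rw [hp, ← div_div, le_neg, div_le_iff₀ k0]
    linarith
  have hd : HasDerivAt (fun s : ℝ => ψ (p + s * n)) (fderiv ℝ ψ p n) 0 := by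
    have h1 : HasDerivAt (fun s : ℝ => p + s * n) n 0 := by
      simpa using (ofRealCLM.hasDerivAt (x := 0)).mul_const n |>.const_add p
    have h2 : HasFDerivAt ψ (fderiv ℝ ψ p) (p + (0 : ℝ) * n) := by
      simpa using (h.diff p).hasFDerivAt
    exact h2.comp_hasDerivAt 0 h1
  have := le_of_tendsto hd.tendsto_slope_zero_right (b := -(1 / (2 * r * k))) (by
    filter_upwards [Ioo_mem_nhdsGT (show 0 < r / 2 by positivity)] with s hs
    have := key s hs.1 hs.2
    simp only [zero_add, ofReal_zero, zero_mul, add_zero, smul_eq_mul]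
    rw [inv_mul_le_iff₀ hs.1]
    refine this.trans (le_of_eq ?_)
    ring)
  have h2 : 0 < 1 / (2 * r * k) := by positivity
  linarith

end Dom

end Pool.Agent.H60.CX
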