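import Pool.Agent.H60.CXb

set_option autoImplicit false

namespace Pool.Agent.H60.CX

open Set Complex ComplexConjugate Filter Topology MeasureTheory

noncomputable def BB (k : ℕ) (x : ℝ) : ℝ := Real.smoothTransition (k * x + 2)
noncomputable def bb (k : ℕ) (x : ℝ) : ℝ := deriv Real.smoothTransition (k * x + 2) * k

lemma sT_c1 : ContDiff ℝ 1 Real.smoothTransition := Real.smoothTransition.contDiff

lemma BB_deriv (k : ℕ) (x : ℝ) : HasDerivAt (BB k) (bb k x) x := by
  have h1 : HasDerivAt (fun x : ℝ => k * x + 2) k x := by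
    simpa using ((hasDerivAt_id x).const_mul (k : ℝ)).add_const 2
  exact (sT_c1.differentiable one_ne_zero _).hasDerivAt.comp x h1

lemma bb_cont (k : ℕ) : Continuous (bb k) := by
  have := sT_c1.continuous_deriv le_rfl
  unfold bb; fun_prop

lemma BB_cont (k : ℕ) : Continuous (BB k) := continuous_iff_continuousAt.2 fun x =>
  (BB_deriv k x).continuousAt

lemma bb_nonneg (k : ℕ) (x : ℝ) : 0 ≤ bb k x :=
  mul_nonneg Real.smoothTransition.monotone.deriv_nonneg (Nat.cast_nonneg _)

lemma BB_zero {k : ℕ} {x : ℝ} (h : k * x + 2 ≤ 0) : BB k x = 0 :=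
  Real.smoothTransition.zero_of_nonpos h
lemma BB_one {k : ℕ} {x : ℝ} (h : 1 ≤ k * x + 2) : BB k x = 1 :=
  Real.smoothTransition.one_of_one_le h
lemma BB_mem (k : ℕ) (x : ℝ) : 0 ≤ BB k x ∧ BB k x ≤ 1 :=
  ⟨Real.smoothTransition.nonneg _, Real.smoothTransition.le_one _⟩

lemma bb_zero {k : ℕ} {x : ℝ} (h : k * x + 2 < 0) : bb k x = 0 := by
  have : Real.smoothTransition =ᶠ[𝓝 (k * x + 2)] fun _ => 0 := by
    filter_upwards [eventually_lt_nhds h] with y hy using Real.smoothTransition.zero_of_nonpos hy.le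
  rw [bb, this.deriv_eq]; simp

lemma ev_lt {η : ℝ} (h : 0 < η) : ∀ᶠ k : ℕ in atTop, ∀ x ≤ -η, k * x + 2 < 0 := by
  filter_upwards [tendsto_natCast_atTop_atTop.eventually (eventually_gt_atTop (2 / η))] with k hk x hx
  rw [div_lt_iff₀ h] at hk
  nlinarith [(Nat.cast_nonneg k : (0 : ℝ) ≤ k)]

section oneD
variable {u a F : ℝ → ℝ} {δ a₀ : ℝ} (δ0 : 0 < δ) (a0 : 0 < a₀) (hu : ∀ s, HasDerivAt u (-a s) s)
  (ha : Continuous a) (hal : ∀ s ∈ Icc 0 δ, a₀ ≤ a s) (u0 : u 0 = 0) (hF : Continuous F)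
include δ0 hu ha u0

lemma mass (k : ℕ) : ∫ s in (0 : ℝ)..δ, bb k (u s) * a s = 1 - BB k (u δ) := by
  have hc : Continuous u := continuous_iff_continuousAt.2 fun x => (hu x).continuousAt
  have := bb_cont k
  rw [intervalIntegral.integral_eq_sub_of_hasDerivAt (f := fun s => -BB k (u s))
    (fun s _ => ((BB_deriv k (u s)).comp s (hu s)).neg.congr_deriv (by ring))
    (Continuous.intervalIntegrable (by fun_prop) _ _), u0, BB_one (x := 0) (by simp)]
  ring

include a0 hal hF

lemma oneD_bound {C : ℝ} (hC : ∀ s ∈ Icc 0 δ, |F s| ≤ C) (k : ℕ) :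
    |∫ s in (0 : ℝ)..δ, bb k (u s) * F s| ≤ C / a₀ := by
  have hc : Continuous u := continuous_iff_continuousAt.2 fun x => (hu x).continuousAt
  have := bb_cont k
  have C0 : 0 ≤ C := (abs_nonneg _).trans (hC 0 ⟨le_rfl, δ0.le⟩)
  refine (intervalIntegral.abs_integral_le_integral_abs δ0.le).trans ?_
  calc _ ≤ ∫ s in (0 : ℝ)..δ, C / a₀ * (bb k (u s) * a s) := by
        refine intervalIntegral.integral_mono_on δ0.le
          (Continuous.intervalIntegrable (by fun_prop) _ _)
          (Continuous.intervalIntegrable (by fun_prop) _ _) fun s hs => ?_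
        rw [abs_mul, abs_of_nonneg (bb_nonneg _ _), mul_left_comm]
        refine mul_le_mul_of_nonneg_left ((hC s hs).trans ?_) (bb_nonneg _ _)
        rw [div_mul_eq_mul_div, le_div_iff₀ a0]
        exact mul_le_mul_of_nonneg_left (hal s hs) C0
    _ ≤ _ := by
        rw [intervalIntegral.integral_const_mul, mass δ0 hu ha u0]
        exact mul_le_of_le_one_right (by positivity) (by linarith [(BB_mem k (u δ)).1])

lemma oneD_lim : Tendsto (fun k : ℕ => ∫ s in (0 : ℝ)..δ, bb k (u s) * F s) atTop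
    (𝓝 (F 0 / a 0)) := by
  have hc : Continuous u := continuous_iff_continuousAt.2 fun x => (hu x).continuousAt
  have hle : ∀ s ∈ Icc 0 δ, u s ≤ -(a₀ * s) := by
    intro s hs
    have := (convex_Icc 0 δ).image_sub_le_mul_sub_of_deriv_le (f := u) (C := -a₀) hc.continuousOn
      (fun x _ => (hu x).differentiableAt.differentiableWithinAt) (fun x hx => by
        rw [(hu x).deriv]; linarith [hal x (interior_subset hx)]) 0 ⟨le_rfl, δ0.le⟩ s hs hs.1
    rw [u0] at this; linarith
  have a00 : 0 < a 0 := a0.trans_le (hal 0 ⟨le_rfl, δ0.le⟩)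
  rw [Metric.tendsto_atTop']
  intro ε ε0
  have hG : ContinuousAt (fun s => F s - F 0 / a 0 * a s) 0 := by fun_prop
  obtain ⟨ρ, ρ0, hρ⟩ := Metric.continuousAt_iff.1 hG (ε / 2 * a₀) (by positivity)
  obtain ⟨N, hN⟩ := eventually_atTop.1 ((ev_lt (show 0 < a₀ * ρ by positivity)).and
    (ev_lt (show 0 < a₀ * δ by positivity)))
  refine ⟨N, fun k hk => ?_⟩
  obtain ⟨h1, h2⟩ := hN k hk.le
  have := bb_cont k
  have hm := mass δ0 hu ha u0 k
  rw [BB_zero (h2 _ (hle δ ⟨δ0.le, le_rfl⟩)).le, sub_zero] at hm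
  have e : (∫ s in (0 : ℝ)..δ, bb k (u s) * F s) - F 0 / a 0 =
      ∫ s in (0 : ℝ)..δ, bb k (u s) * (F s - F 0 / a 0 * a s) := by
    simp only [mul_sub, mul_left_comm (bb k _) (F 0 / a 0)]
    rw [intervalIntegral.integral_sub (Continuous.intervalIntegrable (by fun_prop) _ _)
      (Continuous.intervalIntegrable (by fun_prop) _ _), intervalIntegral.integral_const_mul, hm,
      mul_one]
  rw [Real.dist_eq, e]
  refine lt_of_le_of_lt ((intervalIntegral.abs_integral_le_integral_abs δ0.le).trans ?_)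
    (half_lt_self ε0)
  calc _ ≤ ∫ s in (0 : ℝ)..δ, ε / 2 * (bb k (u s) * a s) := by
        refine intervalIntegral.integral_mono_on δ0.le
          (Continuous.intervalIntegrable (by fun_prop) _ _)
          (Continuous.intervalIntegrable (by fun_prop) _ _) fun s hs => ?_
        rw [abs_mul, abs_of_nonneg (bb_nonneg _ _), mul_left_comm]
        rcases lt_or_ge s ρ with h | h
        · refine mul_le_mul_of_nonneg_left ?_ (bb_nonneg _ _)
          have h3 := hρ (x := s) (by rw [Real.dist_eq, sub_zero, abs_of_nonneg hs.1]; exact h)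
          rw [Real.dist_eq, div_mul_cancel₀ _ a00.ne', sub_self, sub_zero] at h3
          nlinarith [hal s hs]
        · rw [bb_zero (h1 _ ((hle s hs).trans (by nlinarith)))]; simp
    _ = _ := by rw [intervalIntegral.integral_const_mul, hm, mul_one]

end oneD

structure Bd (U : Set ℂ) (ψ : ℂ → ℝ) (γ : ℝ → ℂ) : Prop where
  j : Jor γ
  d : Dom U ψ
  l : Left γ U
  fr : ∀ t, γ t ∈ frontier U
  zero : ∀ t, ψ (γ t) = 0
  neg : ∀ z ∈ closure U, z ∉ range γ → ψ z < 0
  hopf : ∀ t, fderiv ℝ ψ (γ t) (I * deriv γ t) < 0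

namespace Bd
variable {U : Set ℂ} {ψ : ℂ → ℝ} {γ : ℝ → ℂ} (h : Bd U ψ γ)
include h

lemma gdir (t : ℝ) : gr ψ (γ t) * deriv γ t = I * (‖gr ψ (γ t)‖ * ‖deriv γ t‖ : ℝ) ∧
    gr ψ (γ t) ≠ 0 := by
  have h1 : HasDerivAt (fun t => ψ (γ t)) (fderiv ℝ ψ (γ t) (deriv γ t)) t :=
    (h.d.diff _).hasFDerivAt.comp_hasDerivAt t (h.j.hd t)
  have h2 : (fun t => ψ (γ t)) = fun _ => 0 := funext h.zero
  rw [h2] at h1
  have h3 := h1.unique (hasDerivAt_const t 0)
  have h4 := h.hopf t
  rw [fderiv_eq] at h3 h4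
  rw [mul_left_comm] at h4
  simp only [mul_re I, I_re, zero_mul, I_im, one_mul, zero_sub] at h4
  constructor
  · rw [← norm_mul]
    set x := gr ψ (γ t) * deriv γ t
    have : ‖x‖ = x.im := by
      rw [← abs_im_eq_norm.2 h3, abs_of_pos (by linarith)]
    apply Complex.ext <;> simp [h3, this]
  · intro h0; rw [h0] at h4; simp at h4

lemma notMem {z : ℂ} (hz : z ∈ U) : z ∉ range γ := by
  rintro ⟨t, rfl⟩
  have := h.fr t
  rw [h.d.op.frontier_eq] at this
  exact this.2 hz

theorem layer {Φ : ℂ → ℝ} (hΦ : Continuous Φ) :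
    Tendsto (fun k : ℕ => ∫ z in U, bb k (ψ z) * Φ z) atTop
      (𝓝 (∫ t in (0 : ℝ)..1, Φ (γ t) * ‖deriv γ t‖ / ‖gr ψ (γ t)‖)) := by
  have hj := h.j
  have c1 := hj.tb_cont
  have c2 := hj.dcont
  have c3 := h.d.gcont
  have c4 := hj.jac_cont
  have c5 := h.d.cont
  let a : ℂ → ℝ := fun w => -(gr ψ (tb γ w) * (I * deriv γ w.re)).re
  have ca : Continuous a := by
    have c6 := c3.comp c1
    have c7 := c2.comp continuous_re
    exact (continuous_re.comp (c6.mul (continuous_const.mul c7))).neg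
  obtain ⟨δ₁, a1, h1⟩ := hj.tb_inj
  obtain ⟨δ₂, a2, m, m0, h2⟩ := hj.jac_pos
  obtain ⟨δ₃, a3, a₀, a0, h3⟩ := Jor.strip_pos (F := a) ca (fun t => by
    have := h.hopf t
    rw [fderiv_eq] at this
    simp only [a, tb_real, ofReal_re]; linarith) (fun w n => by
      have := hj.dper.int_mul n w.re
      simp only [mul_one] at this
      simp only [a, hj.tb_add, add_re, intCast_re, this])
  obtain ⟨δ₄, a4, h4⟩ := h.l
  set δ := min (min δ₁ δ₂) (min δ₃ δ₄) with hδ
  have δ0 : 0 < δ := by positivity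
  have d1 : δ ≤ δ₁ := (min_le_left _ _).trans (min_le_left _ _)
  have d2 : δ ≤ δ₂ := (min_le_left _ _).trans (min_le_right _ _)
  have d3 : δ ≤ δ₃ := (min_le_right _ _).trans (min_le_left _ _)
  have d4 : δ ≤ δ₄ := (min_le_right _ _).trans (min_le_right _ _)
  have hu : ∀ t s : ℝ, HasDerivAt (fun s : ℝ => ψ (tb γ (t + s * I))) (-a (t + s * I)) s := by
    intro t s
    have e : ∀ s : ℝ, tb γ (t + s * I) = γ t + s * (I * deriv γ t) := fun s => by simp [tb]
    have h5 : HasDerivAt (fun s : ℝ => γ t + s * (I * deriv γ t)) (I * deriv γ t) s := by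
      simpa using (ofRealCLM.hasDerivAt (x := s)).mul_const (I * deriv γ t) |>.const_add (γ t)
    have h6 := (h.d.diff _).hasFDerivAt.comp_hasDerivAt s h5
    rw [fderiv_eq] at h6
    simp only [a, e, neg_neg]
    exact h6.congr_deriv (by simp)
  let Q : Set ℂ := {w | w.re ∈ Ico (0 : ℝ) 1 ∧ w.im ∈ Ioo 0 δ}
  have hQm : MeasurableSet Q :=
    (measurableSet_Ico.preimage measurable_re).inter (measurableSet_Ioo.preimage measurable_im)
  have hQi : InjOn (tb γ) Q := by
    intro w hw w' hw' e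
    obtain ⟨n, hn⟩ := h1 w w' (by rw [abs_of_pos hw.2.1]; linarith [hw.2.2])
      (by rw [abs_of_pos hw'.2.1]; linarith [hw'.2.2]) e
    have h5 := congrArg Complex.re hn
    simp only [add_re, intCast_re] at h5
    have : n = 0 := by
      have : |(n : ℝ)| < 1 := by
        rw [abs_lt]; constructor <;> linarith [hw.1.1, hw.1.2, hw'.1.1, hw'.1.2]
      exact Int.abs_lt_one_iff.1 (by exact_mod_cast this)
    rw [hn, this]; simp
  let V := tb γ '' {w | |w.im| < δ}
  have hV : IsOpen V := by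
    rw [isOpen_iff_mem_nhds]
    rintro _ ⟨w, hw, rfl⟩
    rw [← hj.tb_nhds (by have := h2 w (le_trans (le_of_lt hw) d2); linarith)]
    exact image_mem_map ((isOpen_lt (by fun_prop) continuous_const).mem_nhds hw)
  obtain ⟨η, η0, hη⟩ := (h.d.compact.diff hV).exists_forall_le' (f := fun z => -ψ z) (a := 0)
    (by fun_prop) (fun z hz => neg_pos.2 (h.neg z hz.1 (by
      rintro ⟨t, rfl⟩
      exact hz.2 ⟨t, by simpa using δ0, tb_real γ t⟩)))
  have hUV : ∀ z ∈ U, z ∈ V → z ∈ tb γ '' Q := by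
    rintro _ hz ⟨w, hw, rfl⟩
    simp only [mem_setOf_eq] at hw
    have hneg := h.neg _ (subset_closure hz) (h.notMem hz)
    have hpos : 0 < w.im := by
      by_contra hle
      push_neg at hle
      have := (convex_Icc (-δ) 0).image_sub_le_mul_sub_of_deriv_le
        (f := fun s : ℝ => ψ (tb γ (w.re + s * I))) (C := 0) (by fun_prop)
        (fun x _ => (hu _ x).differentiableAt.differentiableWithinAt) (fun x hx => by
          rw [(hu _ x).deriv]
          have hx := interior_subset hx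
          have := h3 (w.re + x * I) (by
            simp only [add_im, ofReal_im, mul_im, ofReal_re, I_im, mul_one, I_re, mul_zero,
              add_zero, zero_add]
            rw [abs_le]; constructor <;> linarith [hx.1, hx.2])
          linarith) w.im ⟨(abs_lt.1 hw).1.le, hle⟩ 0 ⟨by linarith, le_rfl⟩ hle
      simp only [ofReal_zero, zero_mul, add_zero, tb_real, h.zero, re_add_im] at this
      linarith
    refine ⟨w + ((-⌊w.re⌋ : ℤ) : ℂ), ⟨?_, by simpa using ⟨hpos, (abs_lt.1 hw).2⟩⟩, hj.tb_add _ _⟩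
    have := Int.fract_nonneg w.re
    have := Int.fract_lt_one w.re
    simp only [Int.fract] at *
    constructor <;> simp <;> linarith
  let F : ℝ → ℝ → ℝ := fun t s => jac γ (t + s * I) * Φ (tb γ (t + s * I))
  have cF : Continuous fun p : ℝ × ℝ => F p.1 p.2 := by fun_prop
  have e1 : ∀ᶠ k : ℕ in atTop, ∫ t in (0 : ℝ)..1, ∫ s in (0 : ℝ)..δ,
      bb k (ψ (tb γ (t + s * I))) * F t s = ∫ z in U, bb k (ψ z) * Φ z := by
    filter_upwards [ev_lt η0] with k hk
    have cb := bb_cont k
    rw [setIntegral_eq_of_subset_of_forall_diff_eq_zero (s := tb γ '' Q) h.d.op.measurableSet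
      (by rintro _ ⟨w, hw, rfl⟩; exact h4 w hw.2.1 (by linarith [hw.2.2])) (fun z hz => by
        rw [bb_zero (hk _ (by
          have := hη z ⟨subset_closure hz.1, fun hv => hz.2 (hUV z hz.1 hv)⟩
          linarith)), zero_mul]),
      integral_image_eq_integral_abs_det_fderiv_smul volume hQm
        (fun w _ => (hj.tb_deriv w).hasFDerivWithinAt) hQi,
      ← (volume_preserving_equiv_real_prod.symm).setIntegral_preimage_emb
        measurableEquivRealProd.symm.measurableEmbedding]
    have e2 : measurableEquivRealProd.symm ⁻¹' Q = Ico (0 : ℝ) 1 ×ˢ Ioo 0 δ := by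
      ext p; simp [Q, measurableEquivRealProd_symm_apply]
    have e3 : ∀ p : ℝ × ℝ, measurableEquivRealProd.symm p = p.1 + p.2 * I := fun p => by
      apply Complex.ext <;> simp [measurableEquivRealProd_symm_apply]
    rw [e2, setIntegral_congr_fun (measurableSet_Ico.prod measurableSet_Ioo)
      (g := fun p : ℝ × ℝ => bb k (ψ (tb γ (p.1 + p.2 * I))) * F p.1 p.2) (fun p hp => by
        have := h2 (p.1 + p.2 * I) (by
          simp only [add_im, ofReal_im, mul_im, ofReal_re, I_im, mul_one, I_re, mul_zero,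
            add_zero, zero_add]
          rw [abs_of_pos hp.2.1]; linarith [hp.2.2])
        simp only [e3, tbD_det, smul_eq_mul, F]
        rw [abs_of_pos (by linarith)]; ring), Measure.volume_eq_prod, setIntegral_prod _ (by
          refine (ContinuousOn.integrableOn_compact (isCompact_Icc.prod isCompact_Icc)
            (Continuous.continuousOn (by fun_prop))).mono_set
            (prod_mono Ico_subset_Icc_self Ioo_subset_Icc_self))]
    simp only [intervalIntegral.integral_of_le zero_le_one, intervalIntegral.integral_of_le δ0.le,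
      integral_Ioc_eq_integral_Ioo, integral_Ico_eq_integral_Ioo]
  refine Tendsto.congr' e1 ?_
  obtain ⟨C, hC⟩ := ((isCompact_Icc (a := (0 : ℝ)) (b := 1)).prod
    (isCompact_Icc (a := (0 : ℝ)) (b := δ))).exists_bound_of_continuousOn cF.continuousOn
  have hal : ∀ t : ℝ, ∀ s ∈ Icc 0 δ, a₀ ≤ a (t + s * I) := fun t s hs => h3 _ (by
    simp only [add_im, ofReal_im, mul_im, ofReal_re, I_im, mul_one, I_re, mul_zero,
      add_zero, zero_add]
    rw [abs_of_nonneg hs.1]; linarith [hs.2])
  have u0 : ∀ t : ℝ, ψ (tb γ (t + (0 : ℝ) * I)) = 0 := fun t => by simp [tb_real, h.zero]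
  refine intervalIntegral.tendsto_integral_filter_of_dominated_convergence (fun _ => C / a₀)
    (Eventually.of_forall fun k => ?_) (Eventually.of_forall fun k => ae_of_all _ fun t ht => ?_)
    (by simp) (ae_of_all _ fun t _ => ?_)
  · have cb := bb_cont k
    exact (intervalIntegral.continuous_parametric_intervalIntegral_of_continuous'
      (f := fun t s : ℝ => bb k (ψ (tb γ (t + s * I))) * F t s) (by
        unfold Function.uncurry; fun_prop) 0 δ).aestronglyMeasurable
  · rw [uIoc_of_le zero_le_one] at ht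
    exact oneD_bound δ0 a0 (hu t) (by fun_prop) (hal t) (u0 t) (by fun_prop)
      (fun s hs => hC (t, s) ⟨⟨ht.1.le, ht.2⟩, hs⟩) k
  · have := oneD_lim (F := F t) δ0 a0 (hu t) (by fun_prop) (hal t) (u0 t) (by fun_prop)
    convert this using 2
    obtain ⟨g1, g2⟩ := h.gdir t
    have n1 := norm_pos_iff.2 g2
    have n2 := norm_pos_iff.2 (hj.ne t)
    simp only [F, a, jac, ofReal_zero, zero_mul, add_zero, tb_real, ofReal_re, ofReal_im, mul_conj,
      mul_left_comm (gr ψ (γ t)), g1, normSq_eq_norm_sq]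
    rw [← mul_assoc, I_mul_I]
    simp only [neg_mul, one_mul, neg_re, ofReal_re, neg_neg]
    field_simp

end Bd

end Pool.Agent.H60.CX
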