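import Mathlib

set_option autoImplicit false

namespace Pool.Agent.H60.UP

open Complex Set unitInterval

/-- two continuous logarithms of the same function have the same variation -/
lemma lift_var {L L' : I → ℂ} (hL : Continuous L) (hL' : Continuous L')
    (h : ∀ t, exp (L t) = exp (L' t)) : L 1 - L 0 = L' 1 - L' 0 := by
  have key : L = fun t => L' t + (L 0 - L' 0) := by
    refine Complex.isCoveringMap_exp.eq_of_comp_eq hL (by fun_prop) ?_ 0 (by simp)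
    funext t
    simp only [Function.comp, Subtype.mk.injEq]
    rw [exp_add, exp_sub, h t, h 0, div_self (exp_ne_zero _), mul_one]
  have := congrFun key 1
  rw [this]; ring

/-- null relative winding of the two paths around `z` -/
def W (γ₁ γ₂ : I → ℂ) (z : ℂ) : Prop :=
  ∃ L₁ L₂ : I → ℂ, Continuous L₁ ∧ Continuous L₂ ∧ (∀ t, exp (L₁ t) = γ₁ t - z) ∧
    (∀ t, exp (L₂ t) = γ₂ t - z) ∧ L₁ 0 = L₂ 0 ∧ L₁ 1 = L₂ 1

lemma W_of_slit {γ₁ γ₂ : I → ℂ} (h₁ : Continuous γ₁) (h₂ : Continuous γ₂)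
    (e0 : γ₁ 0 = γ₂ 0) (e1 : γ₁ 1 = γ₂ 1) {z k : ℂ} (hk : k ≠ 0)
    (s₁ : ∀ t, (γ₁ t - z) / k ∈ slitPlane) (s₂ : ∀ t, (γ₂ t - z) / k ∈ slitPlane) :
    W γ₁ γ₂ z := by
  refine ⟨fun t => log ((γ₁ t - z) / k) + log k, fun t => log ((γ₂ t - z) / k) + log k,
    ?_, ?_, ?_, ?_, by simp [e0], by simp [e1]⟩
  · exact (Continuous.clog (by fun_prop) s₁).add continuous_const
  · exact (Continuous.clog (by fun_prop) s₂).add continuous_const
  · intro t
    rw [exp_add, exp_log (slitPlane_ne_zero (s₁ t)), exp_log hk, div_mul_cancel₀ _ hk]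
  · intro t
    rw [exp_add, exp_log (slitPlane_ne_zero (s₂ t)), exp_log hk, div_mul_cancel₀ _ hk]

lemma W_near {γ₁ γ₂ : I → ℂ} (h₁ : Continuous γ₁) (h₂ : Continuous γ₂)
    (e0 : γ₁ 0 = γ₂ 0) (e1 : γ₁ 1 = γ₂ 1) {z z' : ℂ}
    (s₁ : ∀ t, ‖z - z'‖ < ‖γ₁ t - z‖) (s₂ : ∀ t, ‖z - z'‖ < ‖γ₂ t - z‖) (h : W γ₁ γ₂ z) :
    W γ₁ γ₂ z' := by
  obtain ⟨L₁, L₂, c₁, c₂, x₁, x₂, f0, f1⟩ := h
  have sl : ∀ a : ℂ, ‖z - z'‖ < ‖a - z‖ → (a - z') / (a - z) ∈ slitPlane := by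
    intro a ha
    have hne : a - z ≠ 0 := by
      intro h0; rw [h0, norm_zero] at ha; exact absurd ha (not_lt.2 (norm_nonneg _))
    have : (a - z') / (a - z) = 1 + (z - z') / (a - z) := by field_simp; ring
    rw [this]
    apply mem_slitPlane_of_norm_lt_one
    rw [norm_div, div_lt_one (norm_pos_iff.2 hne)]; exact ha
  have ne : ∀ a : ℂ, ‖z - z'‖ < ‖a - z‖ → a - z ≠ 0 := by
    intro a ha h0; rw [h0, norm_zero] at ha; exact absurd ha (not_lt.2 (norm_nonneg _))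
  refine ⟨fun t => L₁ t + log ((γ₁ t - z') / (γ₁ t - z)),
    fun t => L₂ t + log ((γ₂ t - z') / (γ₂ t - z)), ?_, ?_, ?_, ?_, by simp [e0, f0],
    by simp [e1, f1]⟩
  · refine c₁.add (Continuous.clog ?_ fun t => sl _ (s₁ t))
    exact Continuous.div (by fun_prop) (by fun_prop) fun t => ne _ (s₁ t)
  · refine c₂.add (Continuous.clog ?_ fun t => sl _ (s₂ t))
    exact Continuous.div (by fun_prop) (by fun_prop) fun t => ne _ (s₂ t)
  · intro t
    rw [exp_add, exp_log (slitPlane_ne_zero (sl _ (s₁ t))), x₁, mul_div_cancel₀ _ (ne _ (s₁ t))]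
  · intro t
    rw [exp_add, exp_log (slitPlane_ne_zero (sl _ (s₂ t))), x₂, mul_div_cancel₀ _ (ne _ (s₂ t))]

lemma W_locally {γ₁ γ₂ : I → ℂ} (h₁ : Continuous γ₁) (h₂ : Continuous γ₂)
    (e0 : γ₁ 0 = γ₂ 0) (e1 : γ₁ 1 = γ₂ 1) {z : ℂ} (hz : z ∉ range γ₁ ∪ range γ₂) :
    ∃ r > 0, ∀ z' ∈ Metric.ball z r, z' ∉ range γ₁ ∪ range γ₂ ∧ (W γ₁ γ₂ z ↔ W γ₁ γ₂ z') := by
  have hc : IsClosed (range γ₁ ∪ range γ₂) :=
    ((isCompact_range h₁).union (isCompact_range h₂)).isClosed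
  obtain ⟨r, hr, hb⟩ := Metric.isOpen_iff.1 hc.isOpen_compl z hz
  have far : ∀ a ∈ range γ₁ ∪ range γ₂, r ≤ ‖a - z‖ := by
    intro a ha
    by_contra hlt
    exact hb (by rw [Metric.mem_ball, dist_eq_norm]; exact not_le.1 hlt) ha
  refine ⟨r / 3, by positivity, fun z' hz' => ⟨hb (Metric.ball_subset_ball (by linarith) hz'), ?_⟩⟩
  rw [Metric.mem_ball, dist_eq_norm] at hz'
  have hz'' : ‖z - z'‖ < r / 3 := by rw [norm_sub_rev]; exact hz'
  have tri : ∀ a ∈ range γ₁ ∪ range γ₂, ‖z' - z‖ < ‖a - z'‖ := by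
    intro a ha
    have h1 := far a ha
    have h2 : ‖a - z‖ ≤ ‖a - z'‖ + ‖z' - z‖ := norm_sub_le_norm_sub_add_norm_sub _ _ _
    linarith
  constructor
  · apply W_near h₁ h₂ e0 e1
    · intro t; have := far (γ₁ t) (Or.inl ⟨t, rfl⟩); linarith
    · intro t; have := far (γ₂ t) (Or.inr ⟨t, rfl⟩); linarith
  · apply W_near h₁ h₂ e0 e1
    · intro t; exact tri _ (Or.inl ⟨t, rfl⟩)
    · intro t; exact tri _ (Or.inr ⟨t, rfl⟩)

lemma W_lower {γ₁ γ₂ : I → ℂ} (h₁ : Continuous γ₁) (h₂ : Continuous γ₂)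
    (e0 : γ₁ 0 = γ₂ 0) (e1 : γ₁ 1 = γ₂ 1) (i₁ : ∀ t, 0 ≤ (γ₁ t).im) (i₂ : ∀ t, 0 ≤ (γ₂ t).im)
    {z : ℂ} (hz : z.im < 0) : W γ₁ γ₂ z := by
  have sl : ∀ a : ℂ, 0 ≤ a.im → (a - z) / Complex.I ∈ slitPlane := by
    intro a ha
    left
    rw [div_I]; simp; linarith
  exact W_of_slit h₁ h₂ e0 e1 I_ne_zero (fun t => sl _ (i₁ t)) (fun t => sl _ (i₂ t))

/-- maximum principle in the region enclosed by two paths in the closed upper half plane -/
lemma max_enclosed {γ₁ γ₂ : I → ℂ} (h₁ : Continuous γ₁) (h₂ : Continuous γ₂)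
    (e0 : γ₁ 0 = γ₂ 0) (e1 : γ₁ 1 = γ₂ 1) (i₁ : ∀ t, 0 ≤ (γ₁ t).im) (i₂ : ∀ t, 0 ≤ (γ₂ t).im)
    {G : ℂ → ℂ} (hG : ∀ z : ℂ, 0 < z.im → DifferentiableAt ℂ G z) {B : ℝ}
    (hB : ∀ a ∈ range γ₁ ∪ range γ₂, ContinuousAt G a ∧ ‖G a‖ ≤ B) {w : ℂ} (hw : B < ‖G w‖) :
    W γ₁ γ₂ w := by
  by_contra hW
  set Γ := range γ₁ ∪ range γ₂ with hΓ
  set U : Set ℂ := {z | z ∉ Γ ∧ ¬ W γ₁ γ₂ z} with hU
  have hwU : w ∈ U := ⟨fun h => absurd (hB w h).2 (not_le.2 hw), hW⟩
  have hcomp : IsCompact Γ := (isCompact_range h₁).union (isCompact_range h₂)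
  obtain ⟨R, hR⟩ := hcomp.isBounded.exists_norm_le
  have hUb : Bornology.IsBounded U := by
    rw [isBounded_iff_forall_norm_le]
    refine ⟨R, fun z hz => ?_⟩
    by_contra hlt
    push_neg at hlt
    have hR0 : 0 ≤ R := (norm_nonneg _).trans (hR (γ₁ 0) (Or.inl ⟨0, rfl⟩))
    have hz0 : z ≠ 0 := by rintro rfl; simp at hlt; linarith
    have sl : ∀ a ∈ Γ, (a - z) / (-z) ∈ slitPlane := by
      intro a ha
      have : (a - z) / (-z) = 1 + (-(a / z)) := by field_simp; ring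
      rw [this]
      apply mem_slitPlane_of_norm_lt_one
      rw [norm_neg, norm_div, div_lt_one (norm_pos_iff.2 hz0)]
      exact (hR a ha).trans_lt hlt
    exact hz.2 (W_of_slit h₁ h₂ e0 e1 (neg_ne_zero.2 hz0) (fun t => sl _ (Or.inl ⟨t, rfl⟩))
      (fun t => sl _ (Or.inr ⟨t, rfl⟩)))
  have hUim : ∀ z ∈ U, 0 < z.im := by
    intro z hz
    by_contra hle
    push_neg at hle
    obtain ⟨r, hr, hb⟩ := W_locally h₁ h₂ e0 e1 hz.1
    have := hb (z - (r / 2 : ℝ) * Complex.I) (by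
      rw [Metric.mem_ball, dist_eq_norm]; simp [abs_of_pos hr]; linarith)
    exact hz.2 (this.2.2 (W_lower h₁ h₂ e0 e1 i₁ i₂ (by simp; linarith)))
  have hcl : ∀ z ∈ closure U, z ∈ U ∨ z ∈ Γ := by
    intro z hz
    by_cases hzΓ : z ∈ Γ
    · exact Or.inr hzΓ
    · left
      obtain ⟨r, hr, hb⟩ := W_locally h₁ h₂ e0 e1 hzΓ
      obtain ⟨z', hz', hd⟩ := Metric.mem_closure_iff.1 hz r hr
      have := hb z' (by rw [Metric.mem_ball, dist_comm]; exact hd)
      exact ⟨hzΓ, fun h => hz'.2 (this.2.1 h)⟩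
  have hUo : IsOpen U := by
    rw [Metric.isOpen_iff]
    intro z hz
    obtain ⟨r, hr, hb⟩ := W_locally h₁ h₂ e0 e1 hz.1
    exact ⟨r, hr, fun z' hz' => ⟨(hb z' hz').1, fun h => hz.2 ((hb z' hz').2.2 h)⟩⟩
  have hd : DiffContOnCl ℂ G U := by
    refine ⟨fun z hz => (hG z (hUim z hz)).differentiableWithinAt, fun z hz => ?_⟩
    rcases hcl z hz with h | h
    · exact (hG z (hUim z h)).continuousAt.continuousWithinAt
    · exact (hB z h).1.continuousWithinAt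
  have := Complex.norm_le_of_forall_mem_frontier_norm_le hUb hd (C := B) (fun z hz => by
    rw [hUo.frontier_eq] at hz
    rcases hcl z hz.1 with h | h
    · exact absurd h hz.2
    · exact (hB z h).2) (subset_closure hwU)
  linarith

lemma im_phi (x w : ℂ) (hw : w ≠ 0) (hx : x + w ≠ 0) :
    ((x - w) / (x + w)).im * normSq (x / w + 1) = 2 * (x / w).im := by
  have h1 : x / w + 1 ≠ 0 := by
    intro h; apply hx; have : x / w + 1 = (x + w) / w := by field_simp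
    rw [this, div_eq_zero_iff] at h; tauto
  have : (x - w) / (x + w) = 1 - 2 / (x / w + 1) := by field_simp; ring
  rw [this]
  have hn : normSq (x / w + 1) ≠ 0 := by simpa using h1
  generalize x / w = q at *
  simp [div_im]
  field_simp

/-- the key planar lemma -/
theorem no_loop {γ : I → ℂ} (hγ : Continuous γ) (iγ : ∀ t, 0 ≤ (γ t).im)
    {G : ℂ → ℂ} (hG : ∀ z : ℂ, 0 < z.im → DifferentiableAt ℂ G z) {B : ℝ}
    (hB : ∀ t, ContinuousAt G (γ t) ∧ ‖G (γ t)‖ ≤ B)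
    (hu : ∀ τ : ℝ, 0 ≤ τ → τ ≤ 1 → ContinuousAt G (τ * γ 0) ∧ ‖G (τ * γ 0)‖ ≤ B)
    (hv : ∀ τ : ℝ, 0 ≤ τ → τ ≤ 1 → ContinuousAt G (τ * γ 1) ∧ ‖G (τ * γ 1)‖ ≤ B)
    {w : ℂ} (hwi : 0 < w.im) (hw : B < ‖G w‖)
    (hav : ∀ t, ∀ τ : ℝ, 0 ≤ τ → τ ≤ 1 → γ t ≠ τ * w)
    (su : (γ 0 / w).im < 0) (sv : 0 < (γ 1 / w).im) : False := by
  set u := γ 0 with hu0
  set v := γ 1 with hv0
  let δ : I → ℂ := fun t => ((max (1 - 2 * (t : ℝ)) 0 : ℝ) : ℂ) * u +
    ((max (2 * (t : ℝ) - 1) 0 : ℝ) : ℂ) * v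
  have hδ : Continuous δ := by fun_prop
  have δ0 : δ 0 = u := by simp [δ]
  have δ1 : δ 1 = v := by norm_num [δ]
  have δc : ∀ t, ∃ τ : ℝ, 0 ≤ τ ∧ τ ≤ 1 ∧ (δ t = τ * u ∨ δ t = τ * v) := by
    intro t
    have t0 := t.2.1
    have t1 := t.2.2
    rcases le_total (2 * (t : ℝ)) 1 with h | h
    · refine ⟨1 - 2 * t, by linarith, by linarith, Or.inl ?_⟩
      simp only [δ]
      rw [max_eq_left (by linarith), max_eq_right (by linarith)]; simp
    · refine ⟨2 * t - 1, by linarith, by linarith, Or.inr ?_⟩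
      simp only [δ]
      rw [max_eq_right (by linarith), max_eq_left (by linarith)]; simp
  have iδ : ∀ t, 0 ≤ (δ t).im := by
    intro t
    obtain ⟨τ, h0, -, h | h⟩ := δc t <;> rw [h] <;> simp
    · exact mul_nonneg h0 (iγ 0)
    · exact mul_nonneg h0 (iγ 1)
  have hw0 : w ≠ 0 := by rintro rfl; simp at hwi
  have Ww : W γ δ w := by
    refine max_enclosed hγ hδ δ0.symm δ1.symm iγ iδ hG (B := B) ?_ hw
    rintro a (⟨t, rfl⟩ | ⟨t, rfl⟩)
    · exact hB t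
    · obtain ⟨τ, h0, h1, h | h⟩ := δc t <;> rw [h]
      · exact hu τ h0 h1
      · exact hv τ h0 h1
  have Wn : W γ δ (-w) := W_lower hγ hδ δ0.symm δ1.symm iγ iδ (by simpa using hwi)
  obtain ⟨L₁, L₂, c₁, c₂, x₁, x₂, f0, f1⟩ := Ww
  obtain ⟨K₁, K₂, d₁, d₂, y₁, y₂, g0, g1⟩ := Wn
  have hne : ∀ x : ℂ, 0 ≤ x.im → x + w ≠ 0 := by
    intro x hx h
    have := congrArg Complex.im h
    simp at this; linarith
  have s₁ : ∀ t, (γ t - w) / (γ t + w) ∈ slitPlane := by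
    intro t
    by_contra hs
    rw [mem_slitPlane_iff] at hs
    push_neg at hs
    set q := (γ t - w) / (γ t + w) with hq
    have hqr : q = (q.re : ℂ) := by apply Complex.ext <;> simp [hs.2]
    have h1 : γ t - w = q * (γ t + w) := by rw [hq, div_mul_cancel₀ _ (hne _ (iγ t))]
    have hd : (1 - q.re) ≠ 0 := by linarith [hs.1]
    have hd' : (1 - (q.re : ℂ)) ≠ 0 := by exact_mod_cast hd
    have h2 : γ t = (((1 + q.re) / (1 - q.re) : ℝ) : ℂ) * w := by
      push_cast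
      rw [hqr] at h1
      field_simp
      linear_combination h1
    have h3 := iγ t
    rw [h2] at h3
    simp only [mul_im, ofReal_re, ofReal_im, zero_mul, add_zero] at h3
    refine hav t _ (nonneg_of_mul_nonneg_left h3 hwi) ?_ h2
    rw [div_le_one (by linarith [hs.1])]; linarith [hs.1]
  have s₂ : ∀ t, -((δ t - w) / (δ t + w)) ∈ slitPlane := by
    intro t
    by_contra hs
    rw [mem_slitPlane_iff] at hs
    push_neg at hs
    have him : ((δ t - w) / (δ t + w)).im = 0 := by simpa using hs.2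
    have h2 := im_phi (δ t) w hw0 (hne _ (iδ t))
    rw [him, zero_mul] at h2
    have h0 : δ t = 0 := by
      obtain ⟨τ, h0, -, h | h⟩ := δc t
      · rw [h, mul_div_assoc] at h2
        simp only [mul_im, ofReal_re, ofReal_im, zero_mul, add_zero] at h2
        have : τ = 0 := by
          rcases mul_eq_zero.1 (show τ * (u / w).im = 0 by linarith) with h | h
          · exact h
          · linarith
        rw [h, this]; simp
      · rw [h, mul_div_assoc] at h2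
        simp only [mul_im, ofReal_re, ofReal_im, zero_mul, add_zero] at h2
        have : τ = 0 := by
          rcases mul_eq_zero.1 (show τ * (v / w).im = 0 by linarith) with h | h
          · exact h
          · linarith
        rw [h, this]; simp
    have h3 := hs.1
    rw [h0] at h3
    simp [hw0] at h3
    linarith
  have v₁ := lift_var (L := fun t => L₁ t - K₁ t) (L' := fun t => log ((γ t - w) / (γ t + w)))
    (c₁.sub d₁) (Continuous.clog (Continuous.div (by fun_prop) (by fun_prop)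
      fun t => hne _ (iγ t)) s₁) (fun t => by
        rw [exp_sub, x₁, y₁, exp_log (slitPlane_ne_zero (s₁ t)), sub_neg_eq_add])
  have v₂ := lift_var (L := fun t => L₂ t - K₂ t)
    (L' := fun t => log (-((δ t - w) / (δ t + w))) + Real.pi * Complex.I)
    (c₂.sub d₂) ((Continuous.clog (Continuous.neg (Continuous.div (by fun_prop) (by fun_prop)
      fun t => hne _ (iδ t))) s₂).add continuous_const) (fun t => by
        rw [exp_sub, x₂, y₂, exp_add, exp_log (slitPlane_ne_zero (s₂ t)), sub_neg_eq_add,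
          exp_pi_mul_I]; ring)
  simp only [f0, f1, g0, g1, δ0, δ1, ← hu0, ← hv0] at v₁ v₂
  have key := congrArg Complex.im (v₁.symm.trans v₂)
  have pu : ((u - w) / (u + w)).im < 0 := by
    have := im_phi u w hw0 (hne _ (iγ 0))
    by_contra h
    push_neg at h
    nlinarith [normSq_nonneg (u / w + 1)]
  have pv : 0 < ((v - w) / (v + w)).im := by
    have := im_phi v w hw0 (hne _ (iγ 1))
    by_contra h
    push_neg at h
    nlinarith [normSq_nonneg (v / w + 1)]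
  simp only [sub_im, add_im, log_im] at key
  rw [arg_neg_eq_arg_sub_pi_of_im_pos pv, arg_neg_eq_arg_add_pi_of_im_neg pu] at key
  linarith [Real.pi_pos]

end Pool.Agent.H60.UP
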