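import Pool.Agent.H60.CXc
import Pool.Agent.H60.UPa

set_option autoImplicit false

namespace Pool.Agent.H60.CX

open Set Complex ComplexConjugate Filter Topology MeasureTheory unitInterval

lemma exists_log {F : ℝ × ℝ → ℂ} (hF : Continuous F) (h0 : ∀ p, F p ≠ 0) :
    ∃ L : ℝ × ℝ → ℂ, Continuous L ∧ ∀ p, exp (L p) = F p := by
  obtain ⟨L, ⟨-, hL⟩, -⟩ := Complex.isCoveringMap_exp.existsUnique_continuousMap_lifts
    (A := ℝ × ℝ) ⟨fun p => (⟨F p, h0 p⟩ : {z : ℂ // z ≠ 0}), by fun_prop⟩ 0 (log (F 0))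
    (Subtype.ext (exp_log (h0 0)))
  exact ⟨L, L.continuous, fun p => congrArg Subtype.val (congrFun hL p)⟩

lemma arg_pos_mul_I {x : ℝ} (hx : 0 < x) : arg (x * Complex.I) = Real.pi / 2 := by
  rw [arg_real_mul _ hx, arg_I]

lemma arg_neg_mul_I {x : ℝ} (hx : 0 < x) : arg (-(x * Complex.I)) = -(Real.pi / 2) := by
  rw [← mul_neg, arg_real_mul _ hx, arg_neg_I]

/-- Hopf's Umlaufsatz -/
theorem Jor.umlauf {γ : ℝ → ℂ} (h : Jor γ) (hmin : ∀ t, (γ 0).im ≤ (γ t).im) {x : ℝ} (x0 : 0 < x)
    (hx : deriv γ 0 = x) : ∃ ϑ : I → ℂ, Continuous ϑ ∧ (∀ t, exp (ϑ t) = deriv γ t) ∧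
      (ϑ 1 - ϑ 0).im = 2 * Real.pi := by
  let E : ℝ → ℝ → ℂ := fun t t' => sec γ t t' - sec γ t' (t + 1)
  have hs := sec_cont h.c1
  have hE : Continuous fun p : ℝ × ℝ => E p.1 p.2 :=
    hs.sub (hs.comp (f := fun p : ℝ × ℝ => (p.2, p.1 + 1)) (by fun_prop))
  have s1 : ∀ t, sec γ t (t + 1) = 0 := fun t => by
    have := sec_mul h.c1 t (t + 1)
    simpa [h.per t] using this
  have E0 : ∀ t, E t t = deriv γ t := fun t => by simp [E, s1, sec_self]
  have E1 : ∀ t, E t (t + 1) = -deriv γ t := fun t => by simp [E, s1, sec_self, h.dper t]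
  have Em : ∀ t t', (((t' - t) * (1 - (t' - t)) : ℝ) : ℂ) * E t t' = γ t' - γ t := by
    intro t t'
    have a1 := sec_mul h.c1 t t'
    have a2 := sec_mul h.c1 t' (t + 1)
    rw [h.per t] at a2
    simp only [E]
    push_cast at a1 a2 ⊢
    linear_combination (1 - ((t' : ℂ) - t)) * a1 - ((t' : ℂ) - t) * a2
  have Ene : ∀ t t', 0 ≤ t' - t → t' - t ≤ 1 → E t t' ≠ 0 := by
    intro t t' a1 a2 h0
    rcases a1.eq_or_lt with a1 | a1
    · rw [show t' = t by linarith, E0] at h0; exact h.ne t h0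
    rcases a2.eq_or_lt with a2 | a2
    · rw [show t' = t + 1 by linarith, E1, neg_eq_zero] at h0; exact h.ne t h0
    have := Em t t'
    rw [h0, mul_zero, eq_comm, sub_eq_zero] at this
    have := h.eq_of this.symm (by rw [abs_lt]; constructor <;> linarith)
    linarith
  let cl : ℝ → ℝ := fun x => max 0 (min 1 x)
  have cl0 : ∀ x, 0 ≤ cl x := fun x => le_max_left _ _
  have cl1 : ∀ x, cl x ≤ 1 := fun x => max_le zero_le_one (min_le_left _ _)
  have clI : ∀ t : I, cl t = t := fun t => by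
    simp only [cl]; rw [min_eq_right t.2.2, max_eq_right t.2.1]
  have c0 : cl 0 = 0 := by simp [cl]
  have c1 : cl 1 = 1 := by simp [cl]
  obtain ⟨L, hL, hLe⟩ := exists_log (F := fun p : ℝ × ℝ => E (cl p.1 * cl p.2) (cl p.2))
    (hE.comp (f := fun p : ℝ × ℝ => (cl p.1 * cl p.2, cl p.2)) (by fun_prop)) (fun p =>
      Ene _ _ (by nlinarith [cl0 p.1, cl1 p.1, cl0 p.2]) (by
        nlinarith [cl0 p.1, cl1 p.2, cl0 p.2]))
  have E01 : E 0 1 = -x := by have := E1 0; rwa [zero_add, hx] at this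
  have E00 : E 0 0 = x := by rw [E0, hx]
  have E11 : E 1 1 = x := by rw [E0, ← hx]; simpa using h.dper 0
  have vb := UP.lift_var (L := fun t : I => L (t, 0)) (L' := fun _ => log x) (by fun_prop)
    continuous_const (fun t => by
      rw [hLe, exp_log (by exact_mod_cast x0.ne')]; simp [c0, E00])
  have sl : ∀ b : I, E 0 b * (-Complex.I) ∈ slitPlane := by
    intro b
    have hne := Ene 0 b (by simpa using b.2.1) (by simpa using b.2.2)
    have him : 0 ≤ (E 0 b).im := by
      rcases b.2.1.eq_or_lt with a1 | a1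
      · rw [← a1, E00]; simp
      rcases b.2.2.eq_or_lt with a2 | a2
      · rw [a2, E01]; simp
      have := congrArg Complex.im (Em 0 b)
      rw [im_ofReal_mul, sub_im (γ b)] at this
      refine nonneg_of_mul_nonneg_right (a := ((b : ℝ) - 0) * (1 - (b - 0))) (by
        linarith [hmin b]) (by nlinarith)
    rw [mem_slitPlane_iff]
    by_contra hc
    push_neg at hc
    apply hne
    simp at hc
    exact Complex.ext hc.2 (le_antisymm hc.1 him)
  have vl := UP.lift_var (L := fun t : I => L (0, t))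
    (L' := fun b : I => log (E 0 b * (-Complex.I)) + log Complex.I) (by fun_prop)
    ((Continuous.clog ((hE.comp (f := fun b : I => ((0 : ℝ), (b : ℝ))) (by fun_prop)).mul
      continuous_const) sl).add continuous_const) (fun t => by
      rw [hLe, exp_add, exp_log (slitPlane_ne_zero (sl t)), exp_log I_ne_zero, mul_assoc]
      simp [c0, clI])
  have st : ∀ a : I, E a 1 * Complex.I ∈ slitPlane := by
    intro a
    have hne := Ene a 1 (by simpa using a.2.2) (by simpa using a.2.1)
    have him : (E a 1).im ≤ 0 := by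
      rcases a.2.1.eq_or_lt with a1 | a1
      · rw [← a1, E01]; simp
      rcases a.2.2.eq_or_lt with a2 | a2
      · rw [a2, E11]; simp
      have := congrArg Complex.im (Em a 1)
      rw [im_ofReal_mul, sub_im (γ 1), show γ 1 = γ 0 by simpa using h.per 0] at this
      by_contra hc
      push_neg at hc
      have h3 : 0 < (1 - (a : ℝ)) * (1 - (1 - a)) := by nlinarith
      nlinarith [hmin a, mul_pos h3 hc]
    rw [mem_slitPlane_iff]
    by_contra hc
    push_neg at hc
    apply hne
    simp at hc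
    exact Complex.ext hc.2 (le_antisymm him hc.1)
  have vt := UP.lift_var (L := fun t : I => L (t, 1))
    (L' := fun a : I => log (E a 1 * Complex.I) + log (-Complex.I)) (by fun_prop)
    ((Continuous.clog ((hE.comp (f := fun b : I => ((b : ℝ), (1 : ℝ))) (by fun_prop)).mul
      continuous_const) st).add continuous_const) (fun t => by
      rw [hLe, exp_add, exp_log (slitPlane_ne_zero (st t)), exp_log (neg_ne_zero.2 I_ne_zero),
        mul_assoc]
      simp [c1, clI])
  refine ⟨fun t => L (1, t), by fun_prop, fun t => by rw [hLe]; simp [c1, clI, E0], ?_⟩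
  simp only [Icc.coe_one, Icc.coe_zero, E01, E00, E11] at vb vl vt ⊢
  have wb := congrArg Complex.im vb
  have wl := congrArg Complex.im vl
  have wt := congrArg Complex.im vt
  simp only [sub_im, add_im, log_im, neg_mul_neg, mul_neg, neg_mul, arg_pos_mul_I x0,
    arg_neg_mul_I x0, neg_neg] at wb wl wt ⊢
  linarith

lemma log_integral {f f' : ℝ → ℂ} (hf : ∀ t, HasDerivAt f (f' t) t) (hc : Continuous f')
    (h0 : ∀ t, f t ≠ 0) (t : ℝ) : exp (log (f 0) + ∫ s in (0 : ℝ)..t, f' s / f s) = f t := by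
  have hfc : Continuous f := continuous_iff_continuousAt.2 fun x => (hf x).continuousAt
  have hq : Continuous fun s => f' s / f s := hc.div hfc h0
  have hd : ∀ t, HasDerivAt (fun t => f t * exp (-∫ s in (0 : ℝ)..t, f' s / f s)) 0 t := by
    intro t
    have h1 := (hq.integral_hasStrictDerivAt 0 t).hasDerivAt
    refine ((hf t).mul h1.neg.cexp).congr_deriv ?_
    have := h0 t
    field_simp
    simp
  have := is_const_of_deriv_eq_zero (fun t => (hd t).differentiableAt) (fun t => (hd t).deriv) t 0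
  simp only [intervalIntegral.integral_same, neg_zero, exp_zero, mul_one] at this
  rw [exp_add, exp_log (h0 0), ← this, mul_assoc, ← exp_add]
  simp

theorem Bd.wind {U : Set ℂ} {ψ : ℂ → ℝ} {γ : ℝ → ℂ} (h : Bd U ψ γ)
    (hmin : ∀ z ∈ closure U, (γ 0).im ≤ z.im) :
    ∫ t in (0 : ℝ)..1, (grD ψ (γ t) * deriv γ t / gr ψ (γ t)).im = -(2 * Real.pi) := by
  have hj := h.j
  have hcl : ∀ t, γ t ∈ closure U := fun t => frontier_subset_closure (h.fr t)
  have hm : ∀ t, (γ 0).im ≤ (γ t).im := fun t => hmin _ (hcl t)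
  have him : (deriv γ 0).im = 0 := by
    have h1 : HasDerivAt (fun t => (γ t).im) (deriv γ 0).im 0 :=
      imCLM.hasFDerivAt.comp_hasDerivAt 0 (hj.hd 0)
    exact IsLocalMin.hasDerivAt_eq_zero (Eventually.of_forall hm) h1
  have hre : 0 < (deriv γ 0).re := by
    obtain ⟨δ, δ0, hδ⟩ := h.l
    have := hmin _ (subset_closure (hδ ((δ / 2 : ℝ) * Complex.I) (by simpa) (by simpa)))
    simp [tb] at this
    have h1 : 0 ≤ (deriv γ 0).re := nonneg_of_mul_nonneg_right this (by positivity)
    refine lt_of_le_of_ne h1 fun h2 => hj.ne 0 (Complex.ext h2.symm him)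
  obtain ⟨ϑ, c, e, v⟩ := hj.umlauf hm hre (by apply Complex.ext <;> simp [him])
  have hf : ∀ t, HasDerivAt (fun t => gr ψ (γ t)) (grD ψ (γ t) * deriv γ t) t := by
    intro t
    have := ((gr_c1 h.d.c2).differentiable one_ne_zero (γ t)).hasFDerivAt.comp_hasDerivAt t (hj.hd t)
    rwa [h.d.fderiv_gr (hcl t)] at this
  have c1 := h.d.gcont
  have c2 := h.d.gDcont
  have c3 := hj.cont
  have c4 := hj.dcont
  have hne : ∀ t, gr ψ (γ t) ≠ 0 := fun t => (h.gdir t).2
  have hq : Continuous fun s => grD ψ (γ s) * deriv γ s / gr ψ (γ s) :=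
    Continuous.div (by fun_prop) (by fun_prop) hne
  have hpos : ∀ t, 0 < ‖gr ψ (γ t)‖ * ‖deriv γ t‖ := fun t =>
    mul_pos (norm_pos_iff.2 (hne t)) (norm_pos_iff.2 (hj.ne t))
  have key := UP.lift_var
    (L := fun t : I => log (gr ψ (γ 0)) + ∫ s in (0 : ℝ)..t, grD ψ (γ s) * deriv γ s / gr ψ (γ s))
    (L' := fun t : I => log Complex.I + (Real.log (‖gr ψ (γ t)‖ * ‖deriv γ t‖) : ℝ) - ϑ t)
    (continuous_const.add ((intervalIntegral.continuous_primitive
      (fun a b => hq.intervalIntegrable a b) 0).comp continuous_subtype_val))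
    ((continuous_const.add (continuous_ofReal.comp (Continuous.log (by fun_prop)
      fun t : I => (hpos t).ne'))).sub c) (fun t => by
      rw [log_integral hf (by fun_prop) hne, exp_sub, exp_add, exp_log I_ne_zero, ← ofReal_exp,
        Real.exp_log (hpos t), e, eq_div_iff (hj.ne t), (h.gdir t).1])
  have k2 := congrArg Complex.im key
  simp only [Icc.coe_one, Icc.coe_zero, intervalIntegral.integral_same, add_zero,
    add_sub_cancel_left, sub_im, add_im, ofReal_im] at k2 v
  rw [← imCLM_apply, ← ContinuousLinearMap.intervalIntegral_comp_comm _ (hq.intervalIntegrable _ _)]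
    at k2
  simp only [imCLM_apply] at k2
  linarith

end Pool.Agent.H60.CX
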