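import Pool.Agent.H60.CXa

set_option autoImplicit false

namespace Pool.Agent.H60.CX

open Set Complex ComplexConjugate Filter Topology MeasureTheory

namespace Jor
variable {γ : ℝ → ℂ} (h : Jor γ)
include h

lemma haus_loc {κ : ℝ} (k0 : 0 < κ) (k1 : κ < 1) (t₀ : ℝ) : ∃ ρ > 0, ∀ E : Set ℝ, MeasurableSet E →
    E ⊆ Metric.ball t₀ ρ → ENNReal.ofReal κ * ∫⁻ t in E, ENNReal.ofReal ‖deriv γ t‖ ≤
      Measure.hausdorffMeasure 1 (γ '' E) := by
  set v := deriv γ t₀ with hv
  have v0 : 0 < ‖v‖ := norm_pos_iff.2 (h.ne t₀)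
  let π : ℂ → ℝ := fun z => (z * (conj v / ‖v‖)).re
  have hπ : LipschitzWith 1 π := by
    refine LipschitzWith.of_dist_le_mul fun z w => ?_
    rw [Real.dist_eq, dist_eq_norm, ← sub_re, ← sub_mul]
    refine (abs_re_le_norm _).trans ?_
    rw [norm_mul, norm_div, norm_conj, norm_real, norm_norm, div_self v0.ne']
    simp
  have hd : ∀ t, HasDerivAt (fun t => π (γ t)) (π (deriv γ t)) t := fun t =>
    reCLM.hasFDerivAt.comp_hasDerivAt t ((h.hd t).mul_const _)
  have hc := h.dcont
  have h0 : κ * ‖deriv γ t₀‖ < π (deriv γ t₀) := by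
    have : π v = ‖v‖ := by
      simp only [π]
      rw [← mul_div_assoc, mul_conj, normSq_eq_norm_sq, ← ofReal_div, ofReal_re]
      field_simp
    rw [← hv, this]; nlinarith
  obtain ⟨ρ, ρ0, hρ⟩ := Metric.isOpen_iff.1 (isOpen_lt (f := fun t => κ * ‖deriv γ t‖)
    (g := fun t => π (deriv γ t)) (by fun_prop) (hπ.continuous.comp hc)) t₀ h0
  refine ⟨ρ, ρ0, fun E hE hEb => ?_⟩
  have hpos : ∀ t ∈ Metric.ball t₀ ρ, κ * ‖deriv γ t‖ < π (deriv γ t) := fun t ht => hρ ht
  have hmono : StrictMonoOn (fun t => π (γ t)) (Metric.ball t₀ ρ) :=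
    strictMonoOn_of_deriv_pos (convex_ball _ _) (hπ.continuous.comp h.cont).continuousOn
      fun t ht => by
        rw [(hd t).deriv]
        exact lt_of_le_of_lt (by positivity) (hpos t (interior_subset ht))
  have h1 := lintegral_image_eq_lintegral_abs_deriv_mul hE (fun t _ => (hd t).hasDerivWithinAt)
    (hmono.injOn.mono hEb) (fun _ => 1)
  have h2 := hπ.hausdorffMeasure_image_le zero_le_one (γ '' E)
  rw [hausdorffMeasure_real, image_image] at h2
  simp only [lintegral_const, one_mul, MeasurableSet.univ, Measure.restrict_apply, univ_inter,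
    mul_one] at h1
  simp only [ENNReal.coe_one, ENNReal.one_rpow, one_mul] at h2
  rw [← lintegral_const_mul' _ _ ENNReal.ofReal_ne_top]
  refine le_trans (setLIntegral_mono' hE fun t ht => ?_) (h1 ▸ h2)
  rw [← ENNReal.ofReal_mul k0.le]
  exact ENNReal.ofReal_le_ofReal ((hpos t (hEb ht)).le.trans (le_abs_self _))

lemma haus_le {E : Set ℝ} (hE : MeasurableSet E) (hs : E ⊆ Ico 0 1) :
    ∫⁻ t in E, ENNReal.ofReal ‖deriv γ t‖ ≤ Measure.hausdorffMeasure 1 (γ '' E) := by
  refine ENNReal.le_of_forall_lt_one_mul_le fun a ha => ?_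
  rcases eq_zero_or_pos a with rfl | a0
  · simp
  have hat : a ≠ ⊤ := ha.ne_top
  rw [← ENNReal.ofReal_toReal hat]
  have k0 : 0 < a.toReal := ENNReal.toReal_pos a0.ne' hat
  have k1 : a.toReal < 1 := by simpa using (ENNReal.toReal_lt_toReal hat ENNReal.one_ne_top).2 ha
  set κ := a.toReal
  have key := (isCompact_Icc (a := (0 : ℝ)) (b := 1)).induction_on
    (p := fun S => ∃ S', MeasurableSet S' ∧ S ⊆ S' ∧ ∀ E : Set ℝ, MeasurableSet E → E ⊆ Ico 0 1 →
      E ⊆ S' → ENNReal.ofReal κ * ∫⁻ t in E, ENNReal.ofReal ‖deriv γ t‖ ≤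
        Measure.hausdorffMeasure 1 (γ '' E))
    ⟨∅, MeasurableSet.empty, subset_rfl, fun E _ _ h => by simp [subset_empty_iff.1 h]⟩
    (fun s t hst ⟨S', h1, h2, h3⟩ => ⟨S', h1, hst.trans h2, h3⟩)
    (fun s t ⟨S, s1, s2, s3⟩ ⟨T, t1, t2, t3⟩ => ⟨S ∪ T, s1.union t1, union_subset_union s2 t2,
      fun E e1 e2 e3 => by
        have a1 := s3 (E ∩ S) (e1.inter s1) (inter_subset_left.trans e2) inter_subset_right
        have a2 := t3 (E \ S) (e1.diff s1) (diff_subset.trans e2) (fun x hx =>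
          (e3 hx.1).resolve_left hx.2)
        have a3 : γ '' E = γ '' (E ∩ S) ∪ γ '' (E \ S) := by rw [← image_union, inter_union_diff]
        rw [a3, measure_union, ← lintegral_inter_add_diff _ E s1, mul_add]
        · exact add_le_add a1 a2
        · exact Set.disjoint_image_image fun x hx y hy e =>
            hy.2 (h.inj (e2 hx.1) (e2 hy.1) e ▸ hx.2)
        · exact (e1.diff s1).image_of_continuousOn_injOn h.cont.continuousOn
            (h.inj.mono (diff_subset.trans e2))⟩)
    (fun t _ => by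
      obtain ⟨ρ, ρ0, hρ⟩ := h.haus_loc k0 k1 t
      exact ⟨Metric.ball t ρ, mem_nhdsWithin_of_mem_nhds (Metric.ball_mem_nhds _ ρ0), _,
        measurableSet_ball, subset_rfl, fun E e1 _ e3 => hρ E e1 e3⟩)
  obtain ⟨S, -, s2, s3⟩ := key
  exact s3 E hE hs ((hs.trans Ico_subset_Icc_self).trans s2)

lemma haus_fin : Measure.hausdorffMeasure 1 (range γ) ≠ ⊤ := by
  obtain ⟨K, hK⟩ := (h.c1.contDiffOn (s := Icc 0 1)).exists_lipschitzOnWith one_ne_zero
    (convex_Icc 0 1) isCompact_Icc
  have := hK.hausdorffMeasure_image_le zero_le_one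
  rw [h.range_eq]
  refine ne_top_of_le_ne_top ?_ this
  rw [hausdorffMeasure_real]
  simp

lemma haus_int {f : ℂ → ℝ} (hf : Continuous f) :
    IntegrableOn f (range γ) (Measure.hausdorffMeasure 1) := by
  obtain ⟨C, hC⟩ := h.compact.exists_bound_of_continuousOn hf.continuousOn
  exact Measure.integrableOn_of_bounded (M := C) h.haus_fin hf.aestronglyMeasurable
    (ae_restrict_of_forall_mem h.compact.measurableSet hC)

theorem haus_ge {f : ℂ → ℝ} (hf : Continuous f) (f0 : ∀ z, 0 ≤ f z) :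
    ∫ t in (0 : ℝ)..1, f (γ t) * ‖deriv γ t‖ ≤
      ∫ z in range γ, f z ∂(Measure.hausdorffMeasure 1) := by
  have hc := h.dcont
  have hm : Measurable fun t => ENNReal.ofReal ‖deriv γ t‖ := by fun_prop
  have hle : Measure.map γ ((volume.restrict (Ico 0 1)).withDensity
      fun t => ENNReal.ofReal ‖deriv γ t‖) ≤ (Measure.hausdorffMeasure 1).restrict (range γ) := by
    rw [Measure.le_iff]
    intro A hA
    have hA' := h.cont.measurable hA
    rw [Measure.map_apply h.cont.measurable hA, withDensity_apply _ hA',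
      Measure.restrict_restrict hA', Measure.restrict_apply hA]
    refine (h.haus_le (hA'.inter measurableSet_Ico) inter_subset_right).trans (measure_mono ?_)
    rintro _ ⟨t, ht, rfl⟩
    exact ⟨ht.1, t, rfl⟩
  refine le_trans (le_of_eq ?_) (integral_mono_measure hle (ae_of_all _ f0) (h.haus_int hf))
  rw [integral_map h.cont.aemeasurable hf.aestronglyMeasurable,
    integral_withDensity_eq_integral_toReal_smul hm (by simp),
    intervalIntegral.integral_of_le zero_le_one, integral_Ioc_eq_integral_Ioo,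
    integral_Ico_eq_integral_Ioo]
  simp [mul_comm]

end Jor

end Pool.Agent.H60.CX
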