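import Pool.Agent.H60.CXd

set_option autoImplicit false

namespace Pool.Agent.H60.CX

open Set Complex ComplexConjugate Filter Topology MeasureTheory

/-- twice the `∂̄` operator -/
noncomputable def db (F : ℂ → ℂ) (z : ℂ) : ℂ := fderiv ℝ F z 1 + I * fderiv ℝ F z I

lemma db_mul {F G : ℂ → ℂ} {z : ℂ} (hF : DifferentiableAt ℝ F z) (hG : DifferentiableAt ℝ G z) :
    db (fun z => F z * G z) z = db F z * G z + F z * db G z := by
  simp only [db, fderiv_fun_mul hF hG]
  simp; ring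

lemma db_comp {φ F : ℂ → ℂ} {z c : ℂ} (hφ : HasDerivAt φ c (F z)) (hF : DifferentiableAt ℝ F z) :
    db (fun z => φ (F z)) z = c * db F z := by
  have := ((hφ.hasFDerivAt.restrictScalars ℝ).comp z hF.hasFDerivAt).fderiv
  simp only [db]
  erw [this]
  simp; ring

lemma db_hol {F : ℂ → ℂ} {z c : ℂ} (hF : HasDerivAt F c z) : db F z = 0 := by
  simp only [db, (hF.hasFDerivAt.restrictScalars ℝ).fderiv]
  simp
  linear_combination c * I_mul_I

lemma db_conj {F : ℂ → ℂ} {z c : ℂ} (hF : HasDerivAt F c z) :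
    db (fun z => conj (F z)) z = 2 * conj c := by
  have := (conjCLE.toContinuousLinearMap.hasFDerivAt.comp z
    (hF.hasFDerivAt.restrictScalars ℝ)).fderiv
  simp only [db]
  erw [this]
  simp
  linear_combination (-conj c) * I_mul_I

lemma db_add_const (F : ℂ → ℂ) (z c : ℂ) : db (fun z => F z + c) z = db F z := by
  simp only [db, fderiv_add_const]

lemma db_real {ψ : ℂ → ℝ} {ξ : ℝ → ℝ} {z : ℂ} {c : ℝ} (hξ : HasDerivAt ξ c (ψ z))
    (hψ : DifferentiableAt ℝ ψ z) : db (fun z => (ξ (ψ z) : ℂ)) z = c * conj (gr ψ z) := by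
  have := (ofRealCLM.hasFDerivAt.comp z (hξ.hasFDerivAt.comp z hψ.hasFDerivAt)).fderiv
  simp only [db]
  erw [this]
  simp [gr]; ring

lemma div_zero {U K : Set ℂ} (hU : IsOpen U) (hK : IsCompact K) (hKU : K ⊆ U) {W : ℂ → ℂ}
    (hW : ContDiffOn ℝ 1 W U) (h0 : ∀ z ∈ U, z ∉ K → W z = 0) :
    IntegrableOn (db W) U ∧ ∫ z in U, db W z = 0 := by
  let V := U.indicator W
  have e1 : ∀ z ∈ U, V =ᶠ[𝓝 z] W := fun z hz => by
    filter_upwards [hU.mem_nhds hz] with x hx using indicator_of_mem hx _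
  have e2 : ∀ z ∉ K, V z = 0 := fun z hz => by
    by_cases h : z ∈ U
    · simp only [V, indicator_of_mem h, h0 z h hz]
    · exact indicator_of_notMem h _
  have e3 : ∀ z ∉ K, V =ᶠ[𝓝 z] fun _ => 0 := fun z hz => by
    filter_upwards [hK.isClosed.isOpen_compl.mem_nhds hz] with x hx using e2 x hx
  have hV : ContDiff ℝ 1 V := by
    rw [contDiff_iff_contDiffAt]
    intro z
    by_cases h : z ∈ U
    · exact (hW.contDiffAt (hU.mem_nhds h)).congr_of_eventuallyEq (e1 z h)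
    · exact contDiffAt_const.congr_of_eventuallyEq (e3 z fun h' => h (hKU h'))
  have hs : HasCompactSupport V := HasCompactSupport.intro hK e2
  have hi : ∀ v, Integrable fun z => fderiv ℝ V z v := fun v =>
    ((hV.continuous_fderiv one_ne_zero).clm_apply continuous_const).integrable_of_hasCompactSupport
      (hs.fderiv_apply ℝ v)
  have hz : ∀ v, ∫ z, fderiv ℝ V z v = 0 := fun v => by
    have := integral_mul_fderiv_eq_neg_fderiv_mul_of_integrable (f := fun _ => (1 : ℂ)) (g := V)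
      (v := v) (μ := volume) (by simp) (by simpa using hi v)
      (by simpa using hV.continuous.integrable_of_hasCompactSupport hs)
      (fun _ _ => differentiableAt_const _) (fun x _ => hV.differentiable one_ne_zero x)
    simpa using this
  have hid : Integrable (db V) := (hi 1).add ((hi I).const_mul I)
  have e4 : ∀ z ∈ U, db V z = db W z := fun z hz => by simp only [db, (e1 z hz).fderiv_eq]
  refine ⟨(hid.integrableOn).congr_fun e4 hU.measurableSet, ?_⟩
  rw [← setIntegral_congr_fun hU.measurableSet e4,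
    setIntegral_eq_integral_of_forall_compl_eq_zero (fun z hz => by
      simp [db, (e3 z fun h' => hz (hKU h')).fderiv_eq])]
  unfold db
  rw [integral_add (hi 1) ((hi I).const_mul I), integral_const_mul, hz, hz]; simp

noncomputable def θθ (L : ℝ) (k : ℕ) (x : ℝ) : ℝ := (1 - BB k (-x)) * (1 - BB k (x - L))

lemma BB_c1 (k : ℕ) : ContDiff ℝ 1 (BB k) := sT_c1.comp (by fun_prop)

lemma θθ_c1 (L : ℝ) (k : ℕ) : ContDiff ℝ 1 (θθ L k) :=
  (contDiff_const.sub ((BB_c1 k).comp contDiff_neg)).mul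
    (contDiff_const.sub ((BB_c1 k).comp (contDiff_id.sub contDiff_const)))

lemma θθ_mem (L : ℝ) (k : ℕ) (x : ℝ) : 0 ≤ θθ L k x ∧ θθ L k x ≤ 1 := by
  obtain ⟨a1, a2⟩ := BB_mem k (-x)
  obtain ⟨b1, b2⟩ := BB_mem k (x - L)
  exact ⟨mul_nonneg (by linarith) (by linarith), mul_le_one₀ (by linarith) (by linarith) (by linarith)⟩

lemma θθ_deriv {L : ℝ} {k : ℕ} (hk : 4 ≤ k * L) (x : ℝ) :
    HasDerivAt (θθ L k) (bb k (-x) - bb k (x - L)) x := by
  have h1 := ((BB_deriv k (-x)).comp x (hasDerivAt_neg x)).const_sub 1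
  have h2 := ((BB_deriv k (x - L)).comp x ((hasDerivAt_id x).sub_const L)).const_sub 1
  refine (h1.mul h2).congr_deriv ?_
  simp only [Function.comp, id]
  rcases lt_or_ge (k * -x + 2) 0 with a | a
  · rw [bb_zero a, BB_zero a.le]; ring
  · have b : k * (x - L) + 2 ≤ 0 := by linarith
    rcases b.eq_or_lt with b' | b'
    · rw [BB_zero b, BB_zero (x := -x) (by linarith)]; ring
    · rw [BB_zero b, bb_zero b']; ring

lemma θθ_lim {L x : ℝ} (h0 : 0 < x) (h1 : x < L) : ∀ᶠ k : ℕ in atTop, θθ L k x = 1 := by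
  filter_upwards [ev_lt h0, ev_lt (sub_pos.2 h1)] with k a b
  rw [θθ, BB_zero (a _ le_rfl).le, BB_zero (b _ (by linarith)).le]; simp

lemma gr_affine {ψ : ℂ → ℝ} (h : Differentiable ℝ ψ) (a b : ℝ) :
    gr (fun z => a * ψ z + b) = fun z => a * gr ψ z := by
  funext z
  simp only [gr, fderiv_add_const, fderiv_const_mul (h z)]
  simp; ring

structure Ann (U : Set ℂ) (ψ : ℂ → ℝ) (L : ℝ) (γ₁ γ₂ : ℝ → ℂ) : Prop where
  d : Dom U ψ
  b1 : Bd U (fun z => -1 * ψ z + 0) γ₁
  b2 : Bd U (fun z => 1 * ψ z + -L) γ₂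
  L0 : 0 < L
  fr : frontier U = range γ₁ ∪ range γ₂

noncomputable def bdry (ψ : ℂ → ℝ) (γ : ℝ → ℂ) (N : ℂ → ℝ) : ℝ :=
  ∫ t in (0 : ℝ)..1, N (γ t) * ‖deriv γ t‖ / ‖gr ψ (γ t)‖

namespace Ann
variable {U : Set ℂ} {ψ : ℂ → ℝ} {L : ℝ} {γ₁ γ₂ : ℝ → ℂ} (h : Ann U ψ L γ₁ γ₂)
include h

lemma z1 (t : ℝ) : ψ (γ₁ t) = 0 := by simpa using h.b1.zero t
lemma z2 (t : ℝ) : ψ (γ₂ t) = L := by have := h.b2.zero t; linarith
lemma mem {z : ℂ} (hz : z ∈ U) : 0 < ψ z ∧ ψ z < L := by
  have a := h.b1.neg z (subset_closure hz) (h.b1.notMem hz)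
  have b := h.b2.neg z (subset_closure hz) (h.b2.notMem hz)
  constructor <;> linarith
lemma g1 (t : ℝ) : gr ψ (γ₁ t) ≠ 0 := by
  have := (h.b1.gdir t).2
  rw [gr_affine h.d.diff] at this
  exact right_ne_zero_of_mul this
lemma g2 (t : ℝ) : gr ψ (γ₂ t) ≠ 0 := by
  have := (h.b2.gdir t).2
  rw [gr_affine h.d.diff] at this
  exact right_ne_zero_of_mul this

lemma intg {f : ℂ → ℝ} (hf : Continuous f) : IntegrableOn f U :=
  (hf.continuousOn.integrableOn_compact h.d.compact).mono_set subset_closure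

lemma weak {η η' : ℝ → ℝ} (hη : ∀ x, HasDerivAt η (η' x) x) (hc : Continuous η') {F : ℂ → ℂ}
    (hF : ContDiffOn ℝ 1 F U) {k : ℕ} (hk : 4 ≤ k * L) :
    IntegrableOn (fun z => ((bb k (-ψ z) - bb k (ψ z - L)) * η (ψ z) + θθ L k (ψ z) * η' (ψ z)) *
      (conj (gr ψ z) * F z).re + θθ L k (ψ z) * η (ψ z) * (db F z).re) U ∧
    ∫ z in U, ((bb k (-ψ z) - bb k (ψ z - L)) * η (ψ z) + θθ L k (ψ z) * η' (ψ z)) *
      (conj (gr ψ z) * F z).re + θθ L k (ψ z) * η (ψ z) * (db F z).re = 0 := by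
  have k0 : (0 : ℝ) < k := by
    rcases (Nat.cast_nonneg k : (0 : ℝ) ≤ k).eq_or_lt with e | e
    · rw [← e] at hk; linarith
    · exact e
  have hη1 : ContDiff ℝ 1 η := contDiff_one_iff_deriv.2
    ⟨fun x => (hη x).differentiableAt, by rwa [funext fun x => (hη x).deriv]⟩
  have hψ1 : ContDiff ℝ 1 ψ := h.d.c2.of_le (by norm_num)
  have hW : ContDiff ℝ 1 fun z => ((θθ L k (ψ z) * η (ψ z) : ℝ) : ℂ) :=
    ofRealCLM.contDiff.comp (((θθ_c1 L k).mul hη1).comp hψ1)
  obtain ⟨a1, a2⟩ := div_zero (W := fun z => ((θθ L k (ψ z) * η (ψ z) : ℝ) : ℂ) * F z) h.d.op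
    (K := closure U ∩ ψ ⁻¹' Icc (1 / k) (L - 1 / k))
    (h.d.compact.inter_right (isClosed_Icc.preimage h.d.cont)) (by
      rintro z ⟨hz, hz'⟩
      by_contra hU
      have : z ∈ frontier U := by rw [h.d.op.frontier_eq]; exact ⟨hz, hU⟩
      have k1 : (0 : ℝ) < 1 / k := by positivity
      rw [h.fr] at this
      rcases this with ⟨t, rfl⟩ | ⟨t, rfl⟩
      · have := hz'.1; rw [h.z1] at this; linarith
      · have := hz'.2; rw [h.z2] at this; linarith) (hW.contDiffOn.mul hF) (fun z hz hK => by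
      have : θθ L k (ψ z) = 0 := by
        have h3 : ¬ (1 / k ≤ ψ z ∧ ψ z ≤ L - 1 / k) := fun e => hK ⟨subset_closure hz, e⟩
        rw [not_and_or, not_le, not_le] at h3
        rcases h3 with e | e
        · rw [lt_div_iff₀ k0] at e
          rw [θθ, BB_one (x := -ψ z) (by linarith)]; simp
        · rw [sub_lt_comm, lt_div_iff₀ k0] at e
          rw [θθ, BB_one (x := ψ z - L) (by linarith)]; simp
      simp [this])
  have e : ∀ z ∈ U, (db (fun z => ((θθ L k (ψ z) * η (ψ z) : ℝ) : ℂ) * F z) z).re =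
      ((bb k (-ψ z) - bb k (ψ z - L)) * η (ψ z) + θθ L k (ψ z) * η' (ψ z)) *
      (conj (gr ψ z) * F z).re + θθ L k (ψ z) * η (ψ z) * (db F z).re := by
    intro z hz
    rw [db_mul (hW.differentiable one_ne_zero z)
      ((hF.contDiffAt (h.d.op.mem_nhds hz)).differentiableAt one_ne_zero),
      db_real (ξ := fun x => θθ L k x * η x) ((θθ_deriv hk _).mul (hη _)) (h.d.diff z),
      add_re, mul_assoc, re_ofReal_mul, re_ofReal_mul]
  refine ⟨IntegrableOn.congr_fun (f := fun z => (db _ z).re) a1.re e h.d.op.measurableSet, ?_⟩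
  rw [← setIntegral_congr_fun h.d.op.measurableSet e]
  have := integral_re a1
  rw [a2] at this
  simpa using this

lemma lim1 {R : ℂ → ℝ} (hR : Continuous R) :
    Tendsto (fun k : ℕ => ∫ z in U, θθ L k (ψ z) * R z) atTop (𝓝 (∫ z in U, R z)) := by
  have c := h.d.cont
  refine tendsto_integral_of_dominated_convergence (fun z => ‖R z‖) (fun k => ?_) (h.intg hR.norm)
    (fun k => ae_of_all _ fun z => ?_) (ae_restrict_of_forall_mem h.d.op.measurableSet fun z hz => ?_)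
  · exact (((θθ_c1 L k).continuous.comp c).mul hR).aestronglyMeasurable
  · rw [norm_mul, Real.norm_of_nonneg (θθ_mem _ _ _).1]
    exact mul_le_of_le_one_left (norm_nonneg _) (θθ_mem _ _ _).2
  · exact tendsto_const_nhds.congr' (by
      filter_upwards [θθ_lim (h.mem hz).1 (h.mem hz).2] with k hk
      rw [hk, one_mul])

lemma lim2 {η η' : ℝ → ℝ} (hη : Continuous η) (hc : Continuous η') {N : ℂ → ℝ}
    (hN : Continuous N) : Tendsto (fun k : ℕ => ∫ z in U,
      ((bb k (-ψ z) - bb k (ψ z - L)) * η (ψ z) + θθ L k (ψ z) * η' (ψ z)) * N z) atTop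
      (𝓝 (η 0 * bdry ψ γ₁ N - η L * bdry ψ γ₂ N + ∫ z in U, η' (ψ z) * N z)) := by
  have c := h.d.cont
  have a1 := h.b1.layer (Φ := fun z => η (ψ z) * N z) (by fun_prop)
  have a2 := h.b2.layer (Φ := fun z => η (ψ z) * N z) (by fun_prop)
  have a3 := h.lim1 (R := fun z => η' (ψ z) * N z) (by fun_prop)
  rw [gr_affine h.d.diff] at a1 a2
  simp only [h.z1, h.z2, neg_mul, one_mul, add_zero, ofReal_neg, ofReal_one,
    norm_neg, ← sub_eq_add_neg, mul_assoc, mul_div_assoc, intervalIntegral.integral_const_mul]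
    at a1 a2
  simp only [bdry, mul_div_assoc]
  refine ((a1.sub a2).add a3).congr fun k => ?_
  have := bb_cont k
  have := (θθ_c1 L k).continuous
  rw [← integral_sub (h.intg (by fun_prop)) (h.intg (by fun_prop)),
    ← integral_add (h.intg (by fun_prop)) (h.intg (by fun_prop))]
  congr 1; funext z; ring

lemma evk : ∀ᶠ k : ℕ in atTop, 4 ≤ k * L := by
  filter_upwards [tendsto_natCast_atTop_atTop.eventually (eventually_ge_atTop (4 / L))] with k hk
  rwa [div_le_iff₀ h.L0] at hk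

theorem green {η η' : ℝ → ℝ} (hη : ∀ x, HasDerivAt η (η' x) x) (hc : Continuous η') {F : ℂ → ℂ}
    (hF : ContDiffOn ℝ 1 F U) {N R : ℂ → ℝ} (hN : Continuous N) (hR : Continuous R)
    (eN : ∀ z ∈ U, (conj (gr ψ z) * F z).re = N z) (eR : ∀ z ∈ U, (db F z).re = R z) :
    η 0 * bdry ψ γ₁ N - η L * bdry ψ γ₂ N + (∫ z in U, η' (ψ z) * N z) +
      ∫ z in U, η (ψ z) * R z = 0 := by
  have c := h.d.cont
  have cη : Continuous η := continuous_iff_continuousAt.2 fun x => (hη x).continuousAt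
  refine tendsto_nhds_unique ((h.lim2 cη hc hN).add (h.lim1 (R := fun z => η (ψ z) * R z)
    (by fun_prop))) (tendsto_const_nhds.congr' ?_)
  filter_upwards [h.evk] with k hk
  have := bb_cont k
  have := (θθ_c1 L k).continuous
  rw [← integral_add (h.intg (by fun_prop)) (h.intg (by fun_prop)), ← (h.weak hη hc hF hk).2]
  refine setIntegral_congr_fun h.d.op.measurableSet fun z hz => ?_
  simp only [eN z hz, eR z hz]; ring

theorem green_le {η η' : ℝ → ℝ} (hη : ∀ x, HasDerivAt η (η' x) x) (hc : Continuous η')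
    (η0 : ∀ x, 0 < x → x < L → 0 ≤ η x) {F : ℂ → ℂ}
    (hF : ContDiffOn ℝ 1 F U) {N : ℂ → ℝ} (hN : Continuous N)
    (eN : ∀ z ∈ U, (conj (gr ψ z) * F z).re = N z) (eR : ∀ z ∈ U, 0 ≤ (db F z).re) :
    η 0 * bdry ψ γ₁ N - η L * bdry ψ γ₂ N + (∫ z in U, η' (ψ z) * N z) ≤ 0 := by
  have c := h.d.cont
  have cη : Continuous η := continuous_iff_continuousAt.2 fun x => (hη x).continuousAt
  refine le_of_tendsto (h.lim2 cη hc hN) ?_
  filter_upwards [h.evk] with k hk
  have := bb_cont k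
  have := (θθ_c1 L k).continuous
  obtain ⟨a1, a2⟩ := h.weak hη hc hF hk
  rw [← a2]
  refine setIntegral_mono_on (h.intg (by fun_prop)) a1 h.d.op.measurableSet fun z hz => ?_
  rw [eN z hz]
  exact le_add_of_nonneg_right (mul_nonneg (mul_nonneg (θθ_mem _ _ _).1
    (η0 _ (h.mem hz).1 (h.mem hz).2)) (eR z hz))

end Ann

end Pool.Agent.H60.CX
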