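import Pool.Agent.H60.CXf

set_option autoImplicit false

namespace Pool.Agent.H60.CX

open Set Complex ComplexConjugate Filter Topology MeasureTheory

lemma le_at_zero {f g : ℝ → ℝ} (hf : Continuous f) (hg : Continuous g)
    (h : ∀ ε, ε ≠ 0 → f ε ≤ g ε) : f 0 ≤ g 0 :=
  closure_minimal (s := {0}ᶜ) (t := {ε | f ε ≤ g ε}) h (isClosed_le hf hg)
    (dense_compl_singleton 0 0)

noncomputable def rr (ψ : ℂ → ℝ) (ε : ℝ) (z : ℂ) : ℝ := ‖gr ψ z‖ ^ 2 + ε ^ 2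
noncomputable def vv (ψ : ℂ → ℝ) (ε : ℝ) (z : ℂ) : ℝ := Real.log (rr ψ ε z) / 2
noncomputable def nn (ψ : ℂ → ℝ) (ε : ℝ) (z : ℂ) : ℝ :=
  (conj (gr ψ z) * (conj (gr ψ z) * grD ψ z)).re * (rr ψ ε z)⁻¹

lemma rr_pos (ψ : ℂ → ℝ) {ε : ℝ} (hε : ε ≠ 0) (z : ℂ) : 0 < rr ψ ε z := by
  unfold rr; positivity

lemma grD_affine {ψ : ℂ → ℝ} (h : ContDiff ℝ 2 ψ) (b : ℝ) :
    gr (fun z => 1 * ψ z + b) = gr ψ ∧ grD (fun z => 1 * ψ z + b) = grD ψ := by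
  have : gr (fun z => 1 * ψ z + b) = gr ψ := by
    rw [gr_affine (h.differentiable (by norm_num))]; simp
  exact ⟨this, by unfold grD; rw [this]⟩

namespace Dom
variable {U : Set ℂ} {ψ : ℂ → ℝ} (h : Dom U ψ)
include h

lemma rr_c1 (ε : ℝ) : ContDiff ℝ 1 (rr ψ ε) := ((gr_c1 h.c2).norm_sq ℝ).add contDiff_const

lemma vv_c1 {ε : ℝ} (hε : ε ≠ 0) : ContDiff ℝ 1 (vv ψ ε) :=
  ((h.rr_c1 ε).log fun z => (rr_pos ψ hε z).ne').div_const 2

lemma nn_cont {ε : ℝ} (hε : ε ≠ 0) : Continuous (nn ψ ε) := by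
  have c := continuous_conj.comp h.gcont
  exact Continuous.mul (continuous_re.comp (c.mul (c.mul h.gDcont))) ((h.rr_c1 ε).continuous.inv₀ fun z => (rr_pos ψ hε z).ne')

lemma gr_rr (ε : ℝ) {z : ℂ} (hz : z ∈ U) :
    conj (gr (rr ψ ε) z) = 2 * gr ψ z * conj (grD ψ z) := by
  have h1 := db_real (ψ := rr ψ ε) (ξ := id) (z := z) (hasDerivAt_id _)
    ((h.rr_c1 ε).differentiable one_ne_zero z)
  have h2 : (fun z => ((id (rr ψ ε z) : ℝ) : ℂ)) = fun z => gr ψ z * conj (gr ψ z) + (ε : ℂ) ^ 2 := by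
    funext z; simp [rr, mul_conj']
  have d1 := (gr_c1 h.c2).differentiable one_ne_zero z
  rw [h2, db_add_const, db_mul (G := fun z => conj (gr ψ z)) d1 (conjCLE.differentiableAt.comp z d1), db_hol (h.hasDerivAt hz),
    db_conj (h.hasDerivAt hz)] at h1
  simp only [ofReal_one, one_mul] at h1
  rw [← h1]; ring

lemma holD {z : ℂ} (hz : z ∈ U) : AnalyticAt ℂ (grD ψ) z :=
  (h.hol hz).deriv.congr (by
    filter_upwards [h.op.mem_nhds hz] with w hw using (h.hasDerivAt hw).deriv)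

end Dom

namespace Ann
variable {U : Set ℂ} {ψ : ℂ → ℝ} {L : ℝ} {γ₁ γ₂ : ℝ → ℂ} (h : Ann U ψ L γ₁ γ₂)
include h

lemma flux {η η' : ℝ → ℝ} (hη : ∀ x, HasDerivAt η (η' x) x) (hc : Continuous η') :
    η 0 * bdry ψ γ₁ (fun z => ‖gr ψ z‖ ^ 2) - η L * bdry ψ γ₂ (fun z => ‖gr ψ z‖ ^ 2) +
      (∫ z in U, η' (ψ z) * ‖gr ψ z‖ ^ 2) = 0 := by
  have c := h.d.gcont
  have := h.green hη hc (F := gr ψ) (gr_c1 h.d.c2).contDiffOn (N := fun z => ‖gr ψ z‖ ^ 2)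
    (R := fun _ => 0) (by fun_prop) continuous_const
    (fun z _ => by rw [conj_mul', ← ofReal_pow, ofReal_re])
    (fun z hz => by rw [db_hol (h.d.hasDerivAt hz)]; simp)
  simpa using this

lemma logm {η η' : ℝ → ℝ} (hη : ∀ x, HasDerivAt η (η' x) x) (hc : Continuous η') {ε : ℝ}
    (hε : ε ≠ 0) :
    η 0 * bdry ψ γ₁ (fun z => vv ψ ε z * ‖gr ψ z‖ ^ 2) -
      η L * bdry ψ γ₂ (fun z => vv ψ ε z * ‖gr ψ z‖ ^ 2) +
      (∫ z in U, η' (ψ z) * (vv ψ ε z * ‖gr ψ z‖ ^ 2)) + ∫ z in U, η (ψ z) * nn ψ ε z = 0 := by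
  have c := h.d.gcont
  have c1 := (h.d.vv_c1 hε).continuous
  have hV : ContDiff ℝ 1 fun z => (vv ψ ε z : ℂ) := ofRealCLM.contDiff.comp (h.d.vv_c1 hε)
  refine h.green hη hc (F := fun z => (vv ψ ε z : ℂ) * gr ψ z) (hV.mul (gr_c1 h.d.c2)).contDiffOn
    (by fun_prop) (h.d.nn_cont hε) (fun z _ => ?_) (fun z hz => ?_)
  · rw [mul_left_comm, re_ofReal_mul, conj_mul', ← ofReal_pow, ofReal_re]
  · have r0 := rr_pos ψ hε z
    rw [db_mul (hV.differentiable one_ne_zero z) ((gr_c1 h.d.c2).differentiable one_ne_zero z),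
      db_hol (h.d.hasDerivAt hz)]
    have := db_real (ψ := rr ψ ε) (ξ := fun x => Real.log x / 2) (z := z)
      ((Real.hasDerivAt_log r0.ne').div_const 2) ((h.d.rr_c1 ε).differentiable one_ne_zero z)
    unfold vv
    rw [this, h.d.gr_rr ε hz, mul_zero, add_zero, mul_assoc, re_ofReal_mul, nn, ← conj_re]
    simp only [map_mul, conj_conj, map_ofNat]
    rw [mul_assoc, mul_assoc, show (2 : ℂ) = (2 : ℝ) by simp, re_ofReal_mul]
    ring_nf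

lemma subh {η η' : ℝ → ℝ} (hη : ∀ x, HasDerivAt η (η' x) x) (hc : Continuous η')
    (η0 : ∀ x, 0 < x → x < L → 0 ≤ η x) {ε : ℝ} (hε : ε ≠ 0) :
    η 0 * bdry ψ γ₁ (nn ψ ε) - η L * bdry ψ γ₂ (nn ψ ε) + (∫ z in U, η' (ψ z) * nn ψ ε z) ≤ 0 := by
  have hV : ContDiff ℝ 1 fun z => (((rr ψ ε z)⁻¹ : ℝ) : ℂ) :=
    ofRealCLM.contDiff.comp ((h.d.rr_c1 ε).inv fun z => (rr_pos ψ hε z).ne')
  have hC : ContDiff ℝ 1 fun z => conj (gr ψ z) := conjCLE.contDiff.comp (gr_c1 h.d.c2)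
  have hG : ∀ z ∈ U, ContDiffAt ℝ 1 (grD ψ) z := fun z hz =>
    (h.d.holD hz).contDiffAt.restrict_scalars ℝ
  refine h.green_le hη hc η0 (F := fun z => (((rr ψ ε z)⁻¹ : ℝ) : ℂ) * (conj (gr ψ z) * grD ψ z))
    (hV.contDiffOn.mul (hC.contDiffOn.mul fun z hz => (hG z hz).contDiffWithinAt))
    (h.d.nn_cont hε) (fun z _ => ?_) (fun z hz => ?_)
  · rw [mul_left_comm, re_ofReal_mul, nn, mul_comm]
  · have r0 := rr_pos ψ hε z
    have d1 := hC.differentiable one_ne_zero z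
    have d2 := (hG z hz).differentiableAt one_ne_zero
    rw [db_mul (hV.differentiable one_ne_zero z) (d1.fun_mul d2), db_mul d1 d2,
      db_hol (h.d.holD hz).differentiableAt.hasDerivAt, db_conj (h.d.hasDerivAt hz),
      db_real (ξ := fun x => x⁻¹) (hasDerivAt_inv r0.ne')
        ((h.d.rr_c1 ε).differentiable one_ne_zero z), h.d.gr_rr ε hz]
    have e : ((-((rr ψ ε z) ^ 2)⁻¹ : ℝ) : ℂ) * (2 * gr ψ z * conj (grD ψ z)) *
        (conj (gr ψ z) * grD ψ z) + (((rr ψ ε z)⁻¹ : ℝ) : ℂ) *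
        (2 * conj (grD ψ z) * grD ψ z + conj (gr ψ z) * 0) =
        ((2 * ‖grD ψ z‖ ^ 2 * ε ^ 2 / (rr ψ ε z) ^ 2 : ℝ) : ℂ) := by
      have e1 : ((rr ψ ε z : ℝ) : ℂ) = gr ψ z * conj (gr ψ z) + (ε : ℂ) ^ 2 := by
        simp [rr, mul_conj']
      have e2 : ((rr ψ ε z : ℝ) : ℂ) ≠ 0 := ofReal_ne_zero.2 r0.ne'
      push_cast
      rw [← conj_mul']
      field_simp
      rw [e1]; ring
    rw [e, ofReal_re]
    positivity

end Ann

lemma bdry_cont {ψ : ℂ → ℝ} (hψ : Continuous (gr ψ)) {γ : ℝ → ℂ} (hj : Jor γ)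
    (hg : ∀ t, gr ψ (γ t) ≠ 0) {N : ℝ → ℂ → ℝ} (hN : Continuous fun p : ℝ × ℝ => N p.1 (γ p.2)) :
    Continuous fun ε => bdry ψ γ (N ε) := by
  have := hj.cont
  have := hj.dcont
  unfold bdry
  refine intervalIntegral.continuous_parametric_intervalIntegral_of_continuous' ?_ 0 1
  exact (hN.mul (by fun_prop)).div (by fun_prop) fun p => norm_ne_zero_iff.2 (hg _)

lemma rr_cont {ψ : ℂ → ℝ} (hψ : Continuous (gr ψ)) {γ : ℝ → ℂ} (hj : Jor γ)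
    (hg : ∀ t, gr ψ (γ t) ≠ 0) : (Continuous fun p : ℝ × ℝ => rr ψ p.1 (γ p.2)) ∧
      ∀ p : ℝ × ℝ, rr ψ p.1 (γ p.2) ≠ 0 := by
  have := hj.cont
  unfold rr
  refine ⟨by fun_prop, fun p => ?_⟩
  have := hg p.2
  positivity

lemma M_cont {ψ : ℂ → ℝ} (hψ : Continuous (gr ψ)) {γ : ℝ → ℂ} (hj : Jor γ)
    (hg : ∀ t, gr ψ (γ t) ≠ 0) :
    Continuous fun ε => bdry ψ γ (fun z => vv ψ ε z * ‖gr ψ z‖ ^ 2) := by
  have := hj.cont
  obtain ⟨a, b⟩ := rr_cont hψ hj hg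
  exact bdry_cont hψ hj hg (N := fun ε z => vv ψ ε z * ‖gr ψ z‖ ^ 2)
    (((a.log b).div_const 2).mul (by fun_prop))

lemma S_cont {ψ : ℂ → ℝ} (hψ : Continuous (gr ψ)) (hD : Continuous (grD ψ)) {γ : ℝ → ℂ}
    (hj : Jor γ) (hg : ∀ t, gr ψ (γ t) ≠ 0) : Continuous fun ε => bdry ψ γ (nn ψ ε) := by
  have := hj.cont
  obtain ⟨a, b⟩ := rr_cont hψ hj hg
  have c := (continuous_conj.comp hψ).comp (hj.cont.comp (continuous_snd (X := ℝ)))
  exact bdry_cont hψ hj hg (N := nn ψ) (Continuous.mul (continuous_re.comp (c.mul (c.mul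
    (hD.comp (hj.cont.comp continuous_snd))))) (a.inv₀ b))

lemma jensen {ψ : ℂ → ℝ} (hψ : Continuous (gr ψ)) {γ : ℝ → ℂ} (hj : Jor γ)
    (hg : ∀ t, gr ψ (γ t) ≠ 0) (m : ℝ) :
    Real.exp m * ((1 - m) * bdry ψ γ (fun z => ‖gr ψ z‖ ^ 2) +
      bdry ψ γ (fun z => vv ψ 0 z * ‖gr ψ z‖ ^ 2)) ≤
      ∫ t in (0 : ℝ)..1, ‖gr ψ (γ t)‖ ^ 2 * ‖deriv γ t‖ := by
  have := hj.cont
  have := hj.dcont
  have n0 : ∀ t, ‖gr ψ (γ t)‖ ≠ 0 := fun t => norm_ne_zero_iff.2 (hg t)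
  have e : ∀ t, vv ψ 0 (γ t) = Real.log ‖gr ψ (γ t)‖ := fun t => by simp [vv, rr]
  have c1 : Continuous fun t => Real.log ‖gr ψ (γ t)‖ := Continuous.log (by fun_prop) n0
  have c2 : Continuous fun t => ‖gr ψ (γ t)‖ ^ 2 * ‖deriv γ t‖ / ‖gr ψ (γ t)‖ :=
    Continuous.div (by fun_prop) (by fun_prop) n0
  have c3 : Continuous fun t =>
      Real.log ‖gr ψ (γ t)‖ * ‖gr ψ (γ t)‖ ^ 2 * ‖deriv γ t‖ / ‖gr ψ (γ t)‖ :=
    Continuous.div (by fun_prop) (by fun_prop) n0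
  simp only [bdry, e]
  rw [← intervalIntegral.integral_const_mul, ← intervalIntegral.integral_add
    ((c2.const_mul _).intervalIntegrable _ _) (c3.intervalIntegrable _ _),
    ← intervalIntegral.integral_const_mul]
  refine intervalIntegral.integral_mono_on zero_le_one
    ((continuous_const.mul ((continuous_const.mul c2).add c3)).intervalIntegrable _ _)
    (Continuous.intervalIntegrable (by fun_prop) _ _) fun t _ => ?_
  have n1 : 0 < ‖gr ψ (γ t)‖ := norm_pos_iff.2 (hg t)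
  have k := Real.add_one_le_exp (Real.log ‖gr ψ (γ t)‖ - m)
  rw [Real.exp_sub, Real.exp_log n1, le_div_iff₀ (Real.exp_pos m)] at k
  have := mul_le_mul_of_nonneg_right k (mul_nonneg n1.le (norm_nonneg (deriv γ t)))
  refine le_trans (le_of_eq ?_) (this.trans (le_of_eq ?_))
  · field_simp; ring
  · ring

lemma flux_pos {ψ : ℂ → ℝ} (hψ : Continuous (gr ψ)) {γ : ℝ → ℂ} (hj : Jor γ)
    (hg : ∀ t, gr ψ (γ t) ≠ 0) : 0 < bdry ψ γ (fun z => ‖gr ψ z‖ ^ 2) := by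
  have := hj.cont
  have := hj.dcont
  refine intervalIntegral.intervalIntegral_pos_of_pos (Continuous.intervalIntegrable
    (Continuous.div (by fun_prop) (by fun_prop) fun t => norm_ne_zero_iff.2 (hg t)) _ _)
    (fun t => ?_) zero_lt_one
  have := hg t
  have := hj.ne t
  positivity

end Pool.Agent.H60.CX
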