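import Pool.Agent.H60.CXg
import Pool.Agent.H60.CXe

set_option autoImplicit false

namespace Pool.Agent.H60.CX

open Set Complex ComplexConjugate Filter Topology MeasureTheory

lemma final_alg {A Φ L m₂ x B : ℝ} (hΦ : 0 < Φ) (hL : 0 < L) (hx : 2 * Real.pi * L ≤ x * Φ)
    (hA : Φ * L * (Real.exp (-2 * m₂) - Real.exp (-2 * (m₂ + x))) / (2 * x) ≤ A)
    (hB : Real.exp (m₂ + x) * Φ + Real.exp m₂ * Φ ≤ B) :
    ∃ a b : ℝ, 0 < a ∧ a < b ∧ Real.pi * (b ^ 2 - a ^ 2) = A ∧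
      (1 / a + 1 / b) / Real.log (b / a) ≤ B / (L * Φ) := by
  have p0 := Real.pi_pos
  have x0 : 0 < x := by
    by_contra hc
    push Not at hc
    nlinarith [mul_pos p0 hL]
  set E := Real.exp m₂ with hE
  set X := Real.exp x with hX
  have E0 : 0 < E := Real.exp_pos _
  have X1 : 1 < X := Real.one_lt_exp_iff.2 x0
  have X0 : 0 < X := by linarith
  have e1 : Real.exp (-2 * m₂) = (E ^ 2)⁻¹ := by
    rw [hE, ← Real.exp_nat_mul, ← Real.exp_neg]; congr 1; push_cast; ring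
  have e2 : Real.exp (-2 * (m₂ + x)) = (E ^ 2)⁻¹ * (X ^ 2)⁻¹ := by
    rw [hE, hX, ← Real.exp_nat_mul, ← Real.exp_nat_mul, ← Real.exp_neg, ← Real.exp_neg,
      ← Real.exp_add]; congr 1; push_cast; ring
  rw [e1, e2] at hA
  rw [Real.exp_add] at hB
  have q0 : 0 < 1 - (X ^ 2)⁻¹ := sub_pos.2 (inv_lt_one_of_one_lt₀ (by nlinarith))
  set q := 1 - (X ^ 2)⁻¹ with hq
  have hA' : Φ * L * (E ^ 2)⁻¹ * q / (2 * x) ≤ A := by
    refine le_trans (le_of_eq ?_) hA
    rw [hq]; ring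
  have A0 : 0 < A := lt_of_lt_of_le (by positivity) hA'
  set b := √(A / (Real.pi * q)) with hb
  have b0 : 0 < b := Real.sqrt_pos.2 (by positivity)
  have b2 : b ^ 2 = A / (Real.pi * q) := Real.sq_sqrt (by positivity)
  refine ⟨b / X, b, by positivity, div_lt_self b0 X1, ?_, ?_⟩
  · rw [div_pow, show b ^ 2 - b ^ 2 / X ^ 2 = b ^ 2 * q by rw [hq]; ring, b2]
    field_simp
  · rw [show b / (b / X) = X by field_simp, hX, Real.log_exp, ← hX]
    have key : L ≤ b * x * E := by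
      refine (sq_le_sq₀ hL.le (by positivity)).1 ?_
      have h1 : Φ * L * (E ^ 2)⁻¹ / (2 * x * Real.pi) ≤ b ^ 2 := by
        rw [b2, le_div_iff₀ (by positivity)]
        refine le_trans (le_of_eq ?_) hA'
        field_simp
      have h2 := mul_le_mul_of_nonneg_right h1 (show 0 ≤ (x * E) ^ 2 by positivity)
      refine le_trans ?_ (h2.trans (le_of_eq (by ring)))
      rw [show Φ * L * (E ^ 2)⁻¹ / (2 * x * Real.pi) * (x * E) ^ 2 = L * (x * Φ) / (2 * Real.pi) by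
        field_simp, le_div_iff₀ (by positivity)]
      nlinarith
    refine le_trans ?_ (div_le_div_of_nonneg_right hB (by positivity))
    rw [show (1 / (b / X) + 1 / b) / x = (X + 1) / (b * x) by field_simp,
      show (E * X * Φ + E * Φ) / (L * Φ) = (X + 1) * E / L by field_simp,
      div_le_div_iff₀ (by positivity) hL]
    nlinarith

namespace Ann
variable {U : Set ℂ} {ψ : ℂ → ℝ} {L : ℝ} {γ₁ γ₂ : ℝ → ℂ} (h : Ann U ψ L γ₁ γ₂)
include h

lemma S_zero (hmin : ∀ z ∈ closure U, (γ₂ 0).im ≤ z.im) :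
    bdry ψ γ₂ (nn ψ 0) = -(2 * Real.pi) := by
  have w := h.b2.wind hmin
  have d := h.b2.gdir
  obtain ⟨e1, e2⟩ := grD_affine h.d.c2 (-L)
  rw [e1, e2] at w
  rw [e1] at d
  rw [← w, bdry]
  congr 1; funext t
  obtain ⟨d1, d2⟩ := d t
  have n0 : ‖gr ψ (γ₂ t)‖ ≠ 0 := norm_ne_zero_iff.2 d2
  have n1 : ((‖gr ψ (γ₂ t)‖ : ℝ) : ℂ) ≠ 0 := ofReal_ne_zero.2 n0
  have e3 : grD ψ (γ₂ t) * deriv γ₂ t / gr ψ (γ₂ t) =
      I * (((‖gr ψ (γ₂ t)‖ ^ 2)⁻¹ * ‖deriv γ₂ t‖ / ‖gr ψ (γ₂ t)‖ : ℝ) *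
        (conj (gr ψ (γ₂ t)) * (conj (gr ψ (γ₂ t)) * grD ψ (γ₂ t)))) := by
    have k := conj_mul' (gr ψ (γ₂ t))
    push_cast at d1 ⊢
    field_simp
    set g := gr ψ (γ₂ t)
    set G := grD ψ (γ₂ t)
    set n : ℂ := ((‖g‖ : ℝ) : ℂ)
    have : G * deriv γ₂ t * n ^ 3 * (g * n) = I * ‖deriv γ₂ t‖ * conj g ^ 2 * G * g * (g * n) := by
      linear_combination G * n ^ 4 * d1 - I * ‖deriv γ₂ t‖ * G * n * (conj g * g + n ^ 2) * k
    have := mul_right_cancel₀ (mul_ne_zero d2 n1) this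
    linear_combination this
  rw [e3, I_mul_im, re_ofReal_mul]
  simp only [nn, rr]
  ring_nf

theorem main (hmin : ∀ z ∈ closure U, (γ₂ 0).im ≤ z.im) :
    ∃ a b : ℝ, 0 < a ∧ a < b ∧ Real.pi * (b ^ 2 - a ^ 2) = (volume U).toReal ∧
      (1 / a + 1 / b) / Real.log (b / a) ≤
      ((∫ t in (0 : ℝ)..1, ‖gr ψ (γ₁ t)‖ ^ 2 * ‖deriv γ₁ t‖) +
        ∫ t in (0 : ℝ)..1, ‖gr ψ (γ₂ t)‖ ^ 2 * ‖deriv γ₂ t‖) / ∫ z in U, ‖gr ψ z‖ ^ 2 := by
  have cg := h.d.gcont
  have cψ := h.d.cont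
  have L0 := h.L0
  have Φ0 := flux_pos cg h.b2.j h.g2
  have J1 := jensen cg h.b1.j h.g1
  have J2 := jensen cg h.b2.j h.g2
  have F1 := h.flux (η := fun _ => 1) (η' := fun _ => 0) (fun x => hasDerivAt_const _ _)
    continuous_const
  simp only [one_mul, zero_mul, integral_zero, add_zero, sub_eq_zero] at F1
  have F := @h.flux
  rw [F1] at F J1
  set Φ := bdry ψ γ₂ fun z => ‖gr ψ z‖ ^ 2 with hΦ
  have F2 := F (η := fun x => x) (η' := fun _ => 1) (fun x => hasDerivAt_id x) continuous_const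
  simp only [one_mul, zero_mul, zero_sub, neg_add_eq_zero] at F2
  have cM1 := M_cont cg h.b1.j h.g1
  have cM2 := M_cont cg h.b2.j h.g2
  have cS := S_cont cg h.d.gDcont h.b2.j h.g2
  have G := @h.logm
  set M₁ := fun ε => bdry ψ γ₁ fun z => vv ψ ε z * ‖gr ψ z‖ ^ 2 with hM₁
  set M₂ := fun ε => bdry ψ γ₂ fun z => vv ψ ε z * ‖gr ψ z‖ ^ 2 with hM₂
  have hx : M₂ 0 - M₁ 0 ≤ L * bdry ψ γ₂ (nn ψ 0) := by
    refine le_at_zero (f := fun ε => M₂ ε - M₁ ε) (g := fun ε => L * bdry ψ γ₂ (nn ψ ε))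
      (cM2.sub cM1) (cS.const_mul L) fun ε hε => ?_
    have a1 := G (η := fun _ => 1) (η' := fun _ => 0) (fun x => hasDerivAt_const _ _)
      continuous_const hε
    have a2 := h.subh (η := fun x => x) (η' := fun _ => 1) (fun x => hasDerivAt_id x)
      continuous_const (fun x a _ => a.le) hε
    simp only [one_mul, zero_mul, integral_zero, add_zero] at a1 a2
    simp only [hM₁, hM₂]
    linarith
  rw [h.S_zero hmin] at hx
  obtain ⟨m₂, hm₂⟩ : ∃ m₂, M₂ 0 = m₂ * Φ := ⟨M₂ 0 / Φ, by field_simp⟩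
  obtain ⟨x, hm₁⟩ : ∃ x, M₁ 0 = (m₂ + x) * Φ := ⟨M₁ 0 / Φ - m₂, by field_simp; ring⟩
  have hx' : 2 * Real.pi * L ≤ x * Φ := by linarith
  have x0 : 0 < x := by
    by_contra hc
    push Not at hc
    nlinarith [mul_pos Real.pi_pos L0]
  rw [← F2]
  refine final_alg (m₂ := m₂) Φ0 L0 hx' ?_ (add_le_add ?_ ?_)
  rotate_left
  · refine le_trans (le_of_eq ?_) (J1 (m₂ + x))
    change _ = _ * (_ + M₁ 0)
    rw [hm₁]; ring
  · refine le_trans (le_of_eq ?_) (J2 m₂)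
    change _ = _ * (_ + M₂ 0)
    rw [hm₂]; ring
  set c := 2 * x / L with hc
  have c0 : 0 < c := by positivity
  let ℓ : ℝ → ℝ := fun t => m₂ + x - c / 2 * t
  let χ : ℝ → ℝ := fun t => Real.exp (-2 * ℓ t)
  have ℓ0 : ℓ 0 = m₂ + x := by simp [ℓ]
  have ℓL : ℓ L = m₂ := by simp only [ℓ, hc]; field_simp; ring
  set κ := (χ L - χ 0) / (c ^ 2 * L) with hκ
  let φ : ℝ → ℝ := fun t => χ t / c - κ
  let η : ℝ → ℝ := fun t => κ * t - (χ t - χ 0) / c ^ 2
  let Ξ : ℝ → ℝ := fun t => χ t / c + 2 * (φ t * ℓ t - c / 2 * η t)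
  have dℓ : ∀ t, HasDerivAt ℓ (-(c / 2)) t := fun t => by
    simpa using ((hasDerivAt_id t).const_mul (c / 2)).const_sub (m₂ + x)
  have dχ : ∀ t, HasDerivAt χ (c * χ t) t := fun t =>
    (((dℓ t).const_mul (-2)).exp).congr_deriv (by simp only [χ]; ring)
  have dφ : ∀ t, HasDerivAt φ (χ t) t := fun t =>
    (((dχ t).div_const c).sub_const κ).congr_deriv (by field_simp)
  have dη : ∀ t, HasDerivAt η (-φ t) t := fun t =>
    (((hasDerivAt_id t).const_mul κ).sub (((dχ t).sub_const (χ 0)).div_const (c ^ 2))).congr_deriv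
      (by simp only [φ]; field_simp; ring)
  have dΞ : ∀ t, HasDerivAt Ξ (χ t * (1 + 2 * ℓ t)) t := fun t =>
    (((dχ t).div_const c).add ((((dφ t).mul (dℓ t)).sub ((dη t).const_mul (c / 2))).const_mul
      2)).congr_deriv (by field_simp; ring)
  have cℓ : Continuous ℓ := continuous_iff_continuousAt.2 fun t => (dℓ t).continuousAt
  have cχ : Continuous χ := continuous_iff_continuousAt.2 fun t => (dχ t).continuousAt
  have cφ : Continuous φ := continuous_iff_continuousAt.2 fun t => (dφ t).continuousAt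
  have η0 : η 0 = 0 := by simp [η]
  have ηL : η L = 0 := by simp only [η, hκ]; field_simp; ring
  have ηp : ∀ t, 0 < t → t < L → 0 ≤ η t := fun t t0 t1 => by
    have := convexOn_exp.2 (mem_univ (-2 * ℓ 0)) (mem_univ (-2 * ℓ L))
      (sub_nonneg.2 ((div_le_one L0).2 t1.le)) (div_nonneg t0.le L0.le) (by ring)
    simp only [smul_eq_mul] at this
    rw [show (1 - t / L) * (-2 * ℓ 0) + t / L * (-2 * ℓ L) = -2 * ℓ t by
      simp only [ℓ]; field_simp; ring] at this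
    change χ t ≤ (1 - t / L) * χ 0 + t / L * χ L at this
    have e : η t = ((1 - t / L) * χ 0 + t / L * χ L - χ t) / c ^ 2 := by
      simp only [η, hκ]; field_simp; ring
    rw [e]
    exact div_nonneg (sub_nonneg.2 this) (by positivity)
  have F3 := F dΞ (by fun_prop)
  have key : (Ξ L - Ξ 0) * Φ - 2 * (φ L * M₂ 0 - φ 0 * M₁ 0) ≤ (volume U).toReal := by
    refine le_at_zero (f := fun ε => (Ξ L - Ξ 0) * Φ - 2 * (φ L * M₂ ε - φ 0 * M₁ ε))
      (g := fun _ => (volume U).toReal) (by fun_prop) continuous_const fun ε hε => ?_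
    have a1 := G dφ cχ hε
    have a2 := h.subh dη cφ.neg ηp hε
    simp only [η0, ηL, zero_mul, sub_zero, zero_add, neg_mul, integral_neg] at a2
    have cv := (h.d.vv_c1 hε).continuous
    have a3 : ∫ z in U, (χ (ψ z) * (1 + 2 * ℓ (ψ z)) * ‖gr ψ z‖ ^ 2 -
        2 * (χ (ψ z) * (vv ψ ε z * ‖gr ψ z‖ ^ 2))) ≤ ∫ _ in U, (1 : ℝ) := by
      refine setIntegral_mono_on (h.intg (by fun_prop)) (h.intg continuous_const)
        h.d.op.measurableSet fun z _ => ?_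
      have r0 := rr_pos ψ hε z
      have k := Real.add_one_le_exp (-2 * vv ψ ε z - -2 * ℓ (ψ z))
      rw [Real.exp_sub, le_div_iff₀ (Real.exp_pos _), show -2 * vv ψ ε z = -Real.log (rr ψ ε z) by
        unfold vv; ring, Real.exp_neg, Real.exp_log r0] at k
      have k2 := mul_le_mul_of_nonneg_right k (sq_nonneg ‖gr ψ z‖)
      have k3 : (rr ψ ε z)⁻¹ * ‖gr ψ z‖ ^ 2 ≤ 1 := by
        rw [inv_mul_le_iff₀ r0, mul_one]; exact le_add_of_nonneg_right (sq_nonneg _)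
      refine le_trans (le_of_eq ?_) (k2.trans k3)
      simp only [χ, vv]; ring
    rw [integral_sub (h.intg (by fun_prop)) (h.intg (by fun_prop)), integral_const_mul] at a3
    simp only [integral_const, smul_eq_mul, mul_one, measureReal_restrict_apply_univ] at a3
    simp only [hM₁, hM₂]
    rw [← measureReal_def]
    linarith
  refine le_trans (le_of_eq ?_) key
  rw [hm₁, hm₂]
  simp only [Ξ, η0, ηL, ℓ0, ℓL]
  simp only [χ, ℓ0, ℓL, hc]
  field_simp
  ring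

end Ann

end Pool.Agent.H60.CX
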