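import Pool.Agent.H60.CXh

set_option autoImplicit false

namespace Pool.Agent.H60.CX

open Set Complex ComplexConjugate Filter Topology MeasureTheory

lemma mkBd {U Γ : Set ℂ} {ψ : ℂ → ℝ} {γ : ℝ → ℂ} (hj : Jor γ) (hd : Dom U ψ) (hΓ : IsClosed Γ)
    (hne : Γ.Nonempty) (hdis : Disjoint (range γ) Γ) (hf : frontier U = range γ ∪ Γ)
    (hl : Left γ U) (h0 : ∀ z ∈ range γ, ψ z = 0) (h1 : ∀ z ∈ Γ, ψ z < 0) : Bd U ψ γ := by
  obtain ⟨z₀, hz₀⟩ := hne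
  have hlt := hd.strict_max (L := 0) (fun z hz => by
    rw [hf] at hz
    exact hz.elim (fun e => (h0 z e).le) fun e => (h1 z e).le)
    (frontier_subset_closure (hf ▸ Or.inr hz₀)) (h1 _ hz₀)
  refine ⟨hj, hd, hl, fun t => hf ▸ Or.inl ⟨t, rfl⟩, fun t => h0 _ ⟨t, rfl⟩, fun z hz hz' => ?_,
    fun t => ?_⟩
  · by_cases hU : z ∈ U
    · exact hlt z hU
    · have : z ∈ frontier U := by rw [hd.op.frontier_eq]; exact ⟨hz, hU⟩
      rw [hf] at this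
      exact h1 z (this.resolve_left hz')
  · obtain ⟨r, r0, hr⟩ := hj.disc hd.op hΓ hdis hf hl t
    exact hd.hopf hlt (h0 _ ⟨t, rfl⟩) (mul_ne_zero I_ne_zero (hj.ne t)) r0 (by simpa using hr)

lemma orient {U Γ : Set ℂ} {γ : ℝ → ℂ} (hj : Jor γ) (hU : IsOpen U) (hΓ : IsClosed Γ)
    (hdis : Disjoint (range γ) Γ) (hf : frontier U = range γ ∪ Γ) {p : ℂ} (hp : p ∈ range γ) :
    ∃ γ', Jor γ' ∧ range γ' = range γ ∧ Left γ' U ∧ γ' 0 = p := by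
  have key : ∀ γ', Jor γ' → range γ' = range γ → Left γ' U →
      ∃ γ', Jor γ' ∧ range γ' = range γ ∧ Left γ' U ∧ γ' 0 = p := by
    intro γ' a b c
    rw [← b] at hp
    obtain ⟨t, ht⟩ := hp
    exact ⟨_, a.shift t, ((add_right_surjective t).range_comp γ').trans b, c.shift t, by simpa⟩
  rcases hj.side hU hΓ hdis hf with e | e
  · exact key γ hj rfl e
  · exact key _ hj.neg (neg_surjective.range_comp γ) e

theorem core {U : Set ℂ} {ψ : ℂ → ℝ} {γ₁ γ₂ : ℝ → ℂ} (j1 : Jor γ₁) (j2 : Jor γ₂) (hd : Dom U ψ)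
    (hdis : Disjoint (range γ₁) (range γ₂)) (hf : frontier U = range γ₁ ∪ range γ₂) {c₁ c₂ : ℝ}
    (hc : c₁ ≠ c₂) (h1 : ∀ t, ψ (γ₁ t) = c₁) (h2 : ∀ t, ψ (γ₂ t) = c₂) {p : ℂ}
    (hp : p ∈ range γ₂) (hmin : ∀ z ∈ closure U, p.im ≤ z.im) :
    ∃ a b : ℝ, 0 < a ∧ a < b ∧ Real.pi * (b ^ 2 - a ^ 2) = (volume U).toReal ∧
      (1 / a + 1 / b) / Real.log (b / a) ≤
      (∫ z in frontier U, ‖fderiv ℝ ψ z‖ ^ 2 ∂(Measure.hausdorffMeasure 1)) /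
        ∫ z in U, ‖fderiv ℝ ψ z‖ ^ 2 := by
  obtain ⟨s, s1, s2⟩ : ∃ s : ℝ, |s| = 1 ∧ 0 < s * (c₂ - c₁) := by
    rcases hc.lt_or_gt with e | e
    · exact ⟨1, by simp, by linarith⟩
    · exact ⟨-1, by simp, by linarith⟩
  have hf' : frontier U = range γ₂ ∪ range γ₁ := by rw [hf, union_comm]
  obtain ⟨σ₁, a1, a2, a3, -⟩ := orient j1 hd.op j2.compact.isClosed hdis hf ⟨0, rfl⟩
  obtain ⟨σ₂, b1, b2, b3, b4⟩ := orient j2 hd.op j1.compact.isClosed hdis.symm hf' hp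
  have hd' := hd.affine s (-(s * c₁))
  have hA : Ann U (fun z => s * ψ z + -(s * c₁)) (s * (c₂ - c₁)) σ₁ σ₂ := by
    refine ⟨hd', mkBd a1 (hd'.affine _ _) j2.compact.isClosed (range_nonempty _) (a2 ▸ hdis)
      (a2 ▸ hf) a3 ?_ ?_, mkBd b1 (hd'.affine _ _) j1.compact.isClosed (range_nonempty _)
      (b2 ▸ hdis.symm) (b2 ▸ hf') b3 ?_ ?_, s2, by rw [a2, b2, hf]⟩
    · rw [a2]; rintro _ ⟨t, rfl⟩; simp only [h1]; ring
    · rintro _ ⟨t, rfl⟩; simp only [h2]; linarith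
    · rw [b2]; rintro _ ⟨t, rfl⟩; simp only [h2]; ring
    · rintro _ ⟨t, rfl⟩; simp only [h1]; linarith
  obtain ⟨a, b, r1, r2, r3, r4⟩ := hA.main (b4 ▸ hmin)
  refine ⟨a, b, r1, r2, r3, r4.trans ?_⟩
  rw [gr_affine hd.diff]
  simp only [norm_mul, norm_real, Real.norm_eq_abs, s1, one_mul, norm_fderiv]
  have cg := hd.gcont
  have cf : Continuous fun z => ‖gr ψ z‖ ^ 2 := by fun_prop
  refine div_le_div_of_nonneg_right ?_ (integral_nonneg fun z => by positivity)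
  rw [hf, setIntegral_union hdis j2.compact.measurableSet (j1.haus_int cf) (j2.haus_int cf),
    ← a2, ← b2]
  exact add_le_add (a1.haus_ge cf fun z => by positivity) (b1.haus_ge cf fun z => by positivity)

theorem full {U : Set ℂ} {ψ : ℂ → ℝ} {γ₁ γ₂ : ℝ → ℂ} (j1 : Jor γ₁) (j2 : Jor γ₂) (hd : Dom U ψ)
    (hdis : Disjoint (range γ₁) (range γ₂)) (hf : frontier U = range γ₁ ∪ range γ₂) {c₁ c₂ : ℝ}
    (hc : c₁ ≠ c₂) (h1 : ∀ t, ψ (γ₁ t) = c₁) (h2 : ∀ t, ψ (γ₂ t) = c₂) :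
    ∃ a b : ℝ, 0 < a ∧ a < b ∧ Real.pi * (b ^ 2 - a ^ 2) = (volume U).toReal ∧
      (1 / a + 1 / b) / Real.log (b / a) ≤
      (∫ z in frontier U, ‖fderiv ℝ ψ z‖ ^ 2 ∂(Measure.hausdorffMeasure 1)) /
        ∫ z in U, ‖fderiv ℝ ψ z‖ ^ 2 := by
  obtain ⟨p, hp, hmin⟩ := hd.compact.exists_isMinOn (hd.conn.nonempty.mono subset_closure)
    continuous_im.continuousOn
  have : p ∈ frontier U := by
    rw [hd.op.frontier_eq]
    refine ⟨hp, fun hU => ?_⟩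
    obtain ⟨ε, ε0, hε⟩ := Metric.isOpen_iff.1 hd.op p hU
    have h3 : p - (ε / 2 : ℝ) * I ∈ U := hε (by
      rw [mem_ball_iff_norm, sub_sub_cancel_left, norm_neg, norm_mul, norm_I, norm_real,
        Real.norm_of_nonneg (by positivity)]; linarith)
    have := hmin (subset_closure h3)
    simp at this
    linarith
  rcases hf ▸ this with e | e
  · exact core j2 j1 hd hdis.symm (by rw [hf, union_comm]) hc.symm h2 h1 e hmin
  · exact core j1 j2 hd hdis hf hc h1 h2 e hmin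

end Pool.Agent.H60.CX
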