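import Mathlib

/-! Cogrowth series of subsets of a free group: free products, conjugates, loops. -/

set_option autoImplicit false

namespace Pool.Agent.H60.Cog

open FreeGroup PowerSeries
open scoped Classical

variable {α : Type} [Fintype α] [DecidableEq α]

/-- first letter of the reduced word -/
def hd (g : FreeGroup α) : Option (α × Bool) := g.toWord.head?

omit [Fintype α] in
lemma hd_eq_none {g : FreeGroup α} : hd g = none ↔ g = 1 := by
  simp [hd]

omit [Fintype α] in
lemma toWord_mul_of (x y : FreeGroup α) (h : ∀ a ∈ hd x⁻¹, ∀ b ∈ hd y, a ≠ b) :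
    toWord (x * y) = toWord x ++ toWord y := by
  rw [toWord_mul]
  apply IsReduced.reduce_eq
  refine List.IsChain.append isReduced_toWord isReduced_toWord ?_
  intro l hl b hb h1
  have : (l.1, !l.2) ∈ hd x⁻¹ := by
    simp only [hd, toWord_inv, invRev, List.head?_reverse, List.getLast?_map, Option.mem_def]
    rw [Option.mem_def.1 hl]; rfl
  have h2 := h _ this b hb
  by_contra h3
  apply h2
  ext
  · exact h1
  · revert h3; cases l.2 <;> cases b.2 <;> simp

omit [Fintype α] in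
lemma norm_mul_of (x y : FreeGroup α) (h : ∀ a ∈ hd x⁻¹, ∀ b ∈ hd y, a ≠ b) :
    (x * y).norm = x.norm + y.norm := by
  simp only [FreeGroup.norm, toWord_mul_of x y h, List.length_append]

omit [Fintype α] in
lemma hd_mul_of (x y : FreeGroup α) (h : ∀ a ∈ hd x⁻¹, ∀ b ∈ hd y, a ≠ b) (hx : x ≠ 1) :
    hd (x * y) = hd x := by
  have : toWord x ≠ [] := by simpa using hx
  simp only [hd, toWord_mul_of x y h]
  cases hw : toWord x with
  | nil => exact absurd hw this
  | cons a l => rfl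

lemma finite_norm (n : ℕ) : {g : FreeGroup α | g.norm = n}.Finite :=
  (List.finite_length_eq (α × Bool) n).preimage toWord_injective.injOn

/-- elements of `X` of length `n` -/
noncomputable def sph (X : Set (FreeGroup α)) (n : ℕ) : Finset (FreeGroup α) :=
  (finite_norm n).toFinset.filter (· ∈ X)

@[simp] lemma mem_sph {X : Set (FreeGroup α)} {n : ℕ} {g : FreeGroup α} :
    g ∈ sph X n ↔ g ∈ X ∧ g.norm = n := by
  simp [sph, and_comm]

/-- the counting series -/
noncomputable def gf (X : Set (FreeGroup α)) : ℤ⟦X⟧ := mk fun n => ((sph X n).card : ℤ)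

lemma gf_one : gf ({1} : Set (FreeGroup α)) = 1 := by
  ext n
  rw [gf, coeff_mk, coeff_one]
  split_ifs with h
  · subst h
    have : sph ({1} : Set (FreeGroup α)) 0 = {1} := by ext g; simp
    rw [this]; simp
  · have : sph ({1} : Set (FreeGroup α)) n = ∅ := by
      ext g
      simp only [mem_sph, Set.mem_singleton_iff, Finset.notMem_empty, iff_false, not_and]
      rintro rfl; simpa using fun h' => h h'.symm
    rw [this]; simp

lemma gf_union {X Y : Set (FreeGroup α)} (h : Disjoint X Y) : gf (X ∪ Y) = gf X + gf Y := by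
  ext n
  simp only [gf, coeff_mk, map_add]
  have : sph (X ∪ Y) n = sph X n ∪ sph Y n := by ext g; simp [or_and_right]
  rw [this, Finset.card_union_of_disjoint]
  · push_cast; rfl
  · rw [Finset.disjoint_left]
    intro g h1 h2
    exact Set.disjoint_left.1 h (mem_sph.1 h1).1 (mem_sph.1 h2).1

lemma gf_fiber {ι : Type} [Fintype ι] (X : Set (FreeGroup α)) (f : FreeGroup α → ι) :
    gf X = ∑ o : ι, gf {g | g ∈ X ∧ f g = o} := by
  ext n
  simp only [gf, coeff_mk, map_sum]
  rw [Finset.card_eq_sum_card_fiberwise (f := f) (t := Finset.univ) (by simp)]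
  push_cast
  refine Finset.sum_congr rfl fun o _ => ?_
  congr 2
  ext g; simp; tauto

lemma gf_mul {X Y Z : Set (FreeGroup α)}
    (h1 : ∀ x ∈ X, ∀ y ∈ Y, x * y ∈ Z ∧ (x * y).norm = x.norm + y.norm)
    (h2 : ∀ z ∈ Z, ∃ x ∈ X, ∃ y ∈ Y, x * y = z)
    (h3 : ∀ x ∈ X, ∀ y ∈ Y, ∀ x' ∈ X, ∀ y' ∈ Y, x * y = x' * y' → x = x') :
    gf Z = gf X * gf Y := by
  ext n
  simp only [gf, coeff_mk, coeff_mul]
  have : ((Finset.HasAntidiagonal.antidiagonal n).sigma fun p : ℕ × ℕ => sph X p.1 ×ˢ sph Y p.2).card = (sph Z n).card := by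
    refine Finset.card_bij (fun q _ => q.2.1 * q.2.2) ?_ ?_ ?_
    · rintro ⟨p, x, y⟩ hq
      simp only [Finset.mem_sigma, Finset.HasAntidiagonal.mem_antidiagonal, Finset.mem_product, mem_sph] at hq
      obtain ⟨hp, ⟨hx, nx⟩, hy, ny⟩ := hq
      exact mem_sph.2 ⟨(h1 x hx y hy).1, by rw [(h1 x hx y hy).2, nx, ny, hp]⟩
    · rintro ⟨p, x, y⟩ hq ⟨p', x', y'⟩ hq' e
      simp only [Finset.mem_sigma, Finset.HasAntidiagonal.mem_antidiagonal, Finset.mem_product, mem_sph] at hq hq'
      obtain ⟨hp, ⟨hx, nx⟩, hy, ny⟩ := hq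
      obtain ⟨hp', ⟨hx', nx'⟩, hy', ny'⟩ := hq'
      have e1 : x = x' := h3 x hx y hy x' hx' y' hy' e
      subst e1
      have e2 : y = y' := mul_left_cancel e
      subst e2
      have : p = p' := Prod.ext (nx.symm.trans nx') (ny.symm.trans ny')
      subst this
      rfl
    · intro z hz
      obtain ⟨hz, nz⟩ := mem_sph.1 hz
      obtain ⟨x, hx, y, hy, rfl⟩ := h2 z hz
      refine ⟨⟨(x.norm, y.norm), x, y⟩, ?_, rfl⟩
      simp [hx, hy, ← nz, (h1 x hx y hy).2]
  rw [← this, Finset.card_sigma]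
  push_cast
  simp [Finset.card_product]

lemma gf_shift {Y : Set (FreeGroup α)} (φ : FreeGroup α → FreeGroup α) (k : ℕ)
    (hi : Function.Injective φ) (hn : ∀ y ∈ Y, (φ y).norm = y.norm + k) :
    gf (φ '' Y) = X ^ k * gf Y := by
  ext n
  rw [coeff_X_pow_mul']
  simp only [gf, coeff_mk]
  split_ifs with h
  · congr 1
    rw [← Finset.card_image_of_injective (sph Y (n - k)) hi]
    congr 1
    ext g
    simp only [mem_sph, Set.mem_image, Finset.mem_image]
    constructor
    · rintro ⟨⟨y, hy, rfl⟩, e⟩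
      exact ⟨y, ⟨hy, by rw [hn y hy] at e; omega⟩, rfl⟩
    · rintro ⟨y, ⟨hy, e⟩, rfl⟩
      exact ⟨⟨y, hy, rfl⟩, by rw [hn y hy]; omega⟩
  · have : sph (φ '' Y) n = ∅ := by
      ext g
      simp only [mem_sph, Set.mem_image, Finset.notMem_empty, iff_false, not_and]
      rintro ⟨y, hy, rfl⟩ e
      rw [hn y hy] at e; omega
    rw [this]; simp

lemma gf_sub_one (K : Subgroup (FreeGroup α)) :
    gf (K : Set (FreeGroup α)) = 1 + gf {g | g ∈ K ∧ g ≠ 1} := by
  rw [← gf_one (α := α), ← gf_union]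
  · congr 1
    ext g
    by_cases h : g = 1 <;> simp [h]
  · simp

/-- every non-trivial element starts with the letter `s` -/
def Starts (K : Subgroup (FreeGroup α)) (s : α) : Prop := ∀ g ∈ K, ∀ a ∈ hd g, a.1 = s

/-- alternating products -/
inductive NF (K : α → Subgroup (FreeGroup α)) : FreeGroup α → Prop
  | one : NF K 1
  | mul (s : α) (k h : FreeGroup α) : k ∈ K s → k ≠ 1 → NF K h → (∀ b ∈ hd h, b.1 ≠ s) →
      NF K (k * h)

omit [Fintype α] in
lemma nocancel {K : Subgroup (FreeGroup α)} {s : α} (hK : Starts K s) {k h : FreeGroup α}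
    (hk : k ∈ K) (hh : ∀ b ∈ hd h, b.1 ≠ s) : ∀ a ∈ hd k⁻¹, ∀ b ∈ hd h, a ≠ b := by
  rintro a ha b hb rfl
  exact hh a hb (hK _ (K.inv_mem hk) a ha)

omit [Fintype α] in
lemma NF.mem {K : α → Subgroup (FreeGroup α)} {g : FreeGroup α} (h : NF K g) : g ∈ ⨆ s, K s := by
  induction h with
  | one => exact one_mem _
  | mul s k h hk _ _ _ ih => exact mul_mem (Subgroup.mem_iSup_of_mem s hk) ih

omit [Fintype α] in
lemma NF.split {K : α → Subgroup (FreeGroup α)} (hK : ∀ s, Starts (K s) s) {g : FreeGroup α}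
    (h : NF K g) (s : α) : ∃ k ∈ K s, ∃ h, NF K h ∧ (∀ b ∈ hd h, b.1 ≠ s) ∧ k * h = g := by
  cases h with
  | one => exact ⟨1, one_mem _, 1, NF.one, by simp [hd], by simp⟩
  | mul t k h hk hk1 hh hb =>
    by_cases e : t = s
    · subst e; exact ⟨k, hk, h, hh, hb, rfl⟩
    · refine ⟨1, one_mem _, k * h, NF.mul t k h hk hk1 hh hb, ?_, by simp⟩
      rw [hd_mul_of k h (nocancel (hK t) hk hb) hk1]
      intro b hb'
      rw [hK t k hk b hb']; exact e

omit [Fintype α] in
lemma nf_of_mem {K : α → Subgroup (FreeGroup α)} (hK : ∀ s, Starts (K s) s) {g : FreeGroup α}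
    (hg : g ∈ ⨆ s, K s) : NF K g := by
  have : ∀ h, NF K h → NF K (g * h) := by
    refine Subgroup.iSup_induction K (C := fun g => ∀ h, NF K h → NF K (g * h)) hg ?_ ?_ ?_
    · intro s k hk h hh
      obtain ⟨k', hk', h', hh', hb, rfl⟩ := hh.split hK s
      rw [← mul_assoc]
      by_cases e : k * k' = 1
      · rw [e, one_mul]; exact hh'
      · exact NF.mul s _ _ (mul_mem hk hk') e hh' hb
    · intro h hh; simpa using hh
    · intro x y hx hy h hh
      rw [mul_assoc]; exact hx _ (hy _ hh)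
  simpa using this 1 NF.one

omit [Fintype α] in
lemma hd_iSup {K : α → Subgroup (FreeGroup α)} (hK : ∀ s, Starts (K s) s) {g : FreeGroup α}
    (hg : g ∈ ⨆ s, K s) (a : α × Bool) (ha : a ∈ hd g) : ∃ s, ∃ k ∈ K s, a ∈ hd k := by
  have := nf_of_mem hK hg
  cases this with
  | one => simp [hd] at ha
  | mul t k h hk hk1 hh hb =>
    rw [hd_mul_of k h (nocancel (hK t) hk hb) hk1] at ha
    exact ⟨t, k, hk, ha⟩

omit [Fintype α] in
lemma eq_one_of {K : Subgroup (FreeGroup α)} {s : α} (hK : Starts K s) {k h h' : FreeGroup α}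
    (hk : k ∈ K) (hh : ∀ b ∈ hd h, b.1 ≠ s) (hh' : ∀ b ∈ hd h', b.1 ≠ s) (e : k * h = h') :
    k = 1 := by
  by_contra h1
  have h2 := hd_mul_of k h (nocancel hK hk hh) h1
  rw [e] at h2
  cases h3 : hd k with
  | none => exact h1 (hd_eq_none.1 h3)
  | some a => exact hh' a (by rw [h2, h3]; rfl) (hK k hk a (by rw [h3]; rfl))

lemma gf_iSup_factor {K : α → Subgroup (FreeGroup α)} (hK : ∀ s, Starts (K s) s) (s : α) :
    gf ((⨆ s, K s : Subgroup (FreeGroup α)) : Set (FreeGroup α))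
      = gf (K s : Set (FreeGroup α)) * gf {h | h ∈ ⨆ s, K s ∧ ∀ b ∈ hd h, b.1 ≠ s} := by
  refine gf_mul ?_ ?_ ?_
  · intro x hx y hy
    exact ⟨mul_mem (Subgroup.mem_iSup_of_mem s hx) hy.1,
      norm_mul_of x y (nocancel (hK s) hx hy.2)⟩
  · intro z hz
    obtain ⟨k, hk, h, hh, hb, e⟩ := (nf_of_mem hK hz).split hK s
    exact ⟨k, hk, h, ⟨hh.mem, hb⟩, e⟩
  · intro x hx y hy x' hx' y' hy' e
    have : x'⁻¹ * x = 1 := eq_one_of (hK s) (mul_mem (inv_mem hx') hx) hy.2 hy'.2
      (by rw [mul_assoc, e]; simp)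
    exact (inv_mul_eq_one.1 this).symm

lemma gf_split (H : Subgroup (FreeGroup α)) :
    gf (H : Set (FreeGroup α)) - 1
      = ∑ s : α, (gf (H : Set (FreeGroup α)) - gf {h | h ∈ H ∧ ∀ b ∈ hd h, b.1 ≠ s}) := by
  have h1 := gf_fiber (H : Set (FreeGroup α)) fun g => (hd g).map Prod.fst
  rw [Fintype.sum_option] at h1
  have h2 : {g | g ∈ (H : Set (FreeGroup α)) ∧ (hd g).map Prod.fst = none} = {1} := by
    ext g
    simp only [SetLike.mem_coe, Option.map_eq_none_iff, hd_eq_none, Set.mem_ofPred_eq,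
      Set.mem_singleton_iff]
    exact ⟨fun h => h.2, fun h => ⟨h ▸ one_mem _, h⟩⟩
  rw [h2, gf_one] at h1
  rw [sub_eq_of_eq_add' h1]
  refine Finset.sum_congr rfl fun s _ => ?_
  rw [eq_sub_iff_add_eq, ← gf_union]
  · congr 1
    ext g
    cases h : hd g with
    | none => simp [h]
    | some a =>
      simp only [SetLike.mem_coe, Set.mem_union, Set.mem_ofPred_eq, h, Option.map_some,
        Option.some.injEq, Option.mem_def, forall_eq']
      tauto
  · rw [Set.disjoint_left]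
    rintro g ⟨-, h3⟩ ⟨-, h4⟩
    cases h : hd g with
    | none => simp [h] at h3
    | some a => exact h4 a (by rw [h]; rfl) (by simpa [h] using h3)

/-- free product formula modulo `X^d` -/
lemma gf_iSup {K : α → Subgroup (FreeGroup α)} (hK : ∀ s, Starts (K s) s) (d : ℕ)
    (φ : α → ℤ⟦X⟧) (hφ : ∀ s, X ^ d ∣ gf (K s : Set (FreeGroup α)) * (1 - φ s) - 1) :
    X ^ d ∣ gf ((⨆ s, K s : Subgroup (FreeGroup α)) : Set (FreeGroup α)) * (1 - ∑ s, φ s) - 1 := by
  have h1 := gf_split (⨆ s, K s)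
  set G := gf ((⨆ s, K s : Subgroup (FreeGroup α)) : Set (FreeGroup α)) with hG
  have : G * (1 - ∑ s, φ s) - 1 = ∑ s, (gf {h | h ∈ ⨆ s, K s ∧ ∀ b ∈ hd h, b.1 ≠ s})
      * (gf (K s : Set (FreeGroup α)) * (1 - φ s) - 1) := by
    have e : G * (1 - ∑ s, φ s) - 1 = (G - 1) - ∑ s, G * φ s := by
      rw [← Finset.mul_sum]; ring
    rw [e, h1, ← Finset.sum_sub_distrib]
    refine Finset.sum_congr rfl fun s _ => ?_
    rw [hG, gf_iSup_factor hK s]; ring
  rw [this]
  exact Finset.dvd_sum fun s _ => (hφ s).mul_left _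

/-- conjugate subgroup -/
def cj (s : α) (K : Subgroup (FreeGroup α)) : Subgroup (FreeGroup α) :=
  K.map (MulAut.conj (of s)).toMonoidHom

omit [Fintype α] in
lemma cj_word {s : α} {K : Subgroup (FreeGroup α)} (hK : ∀ g ∈ K, (s, false) ∉ hd g)
    {g : FreeGroup α} (hg : g ∈ K) (h1 : g ≠ 1) :
    hd (of s * g * (of s)⁻¹) = some (s, true) ∧ (of s * g * (of s)⁻¹).norm = g.norm + 2 := by
  have a1 : hd (of s)⁻¹ = some (s, false) := by simp [hd, invRev]
  have a2 : hd (of s) = some (s, true) := by simp [hd]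
  have c1 : ∀ a ∈ hd g⁻¹, ∀ b ∈ hd (of s)⁻¹, a ≠ b := by
    rintro a ha b hb rfl
    rw [a1] at hb
    exact hK _ (K.inv_mem hg) (by rw [Option.mem_def.1 ha]; exact hb.symm)
  have c2 : ∀ a ∈ hd (of s)⁻¹, ∀ b ∈ hd (g * (of s)⁻¹), a ≠ b := by
    rw [hd_mul_of g _ c1 h1]
    rintro a ha b hb rfl
    rw [a1] at ha
    exact hK _ hg (by rw [Option.mem_def.1 hb]; exact ha.symm)
  rw [mul_assoc]
  refine ⟨by rw [hd_mul_of _ _ c2 (of_ne_one s), a2], ?_⟩
  rw [norm_mul_of _ _ c2, norm_mul_of _ _ c1]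
  simp; ring

omit [Fintype α] in
lemma cj_hd {s : α} {K : Subgroup (FreeGroup α)} (hK : ∀ g ∈ K, (s, false) ∉ hd g)
    {g : FreeGroup α} (hg : g ∈ cj s K) (a : α × Bool) (ha : a ∈ hd g) : a = (s, true) := by
  obtain ⟨k, hk, rfl⟩ := hg
  by_cases h1 : k = 1
  · subst h1; simp [hd] at ha
  · have := (cj_word hK hk h1).1
    simp only [MulEquiv.toMonoidHom_eq_coe, MonoidHom.coe_coe, MulAut.conj_apply] at ha
    rw [this] at ha
    exact (Option.some.inj ha).symm

lemma gf_cj {s : α} {K : Subgroup (FreeGroup α)} (hK : ∀ g ∈ K, (s, false) ∉ hd g) :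
    gf (cj s K : Set (FreeGroup α)) = 1 + X ^ 2 * (gf (K : Set (FreeGroup α)) - 1) := by
  rw [gf_sub_one, gf_sub_one K, add_sub_cancel_left,
    ← gf_shift (fun g => of s * g * (of s)⁻¹) 2 (fun a b h => by simpa using h)
      (fun y hy => (cj_word hK hy.1 hy.2).2)]
  congr 2
  ext g
  simp only [cj, Subgroup.mem_map, MulEquiv.toMonoidHom_eq_coe, MonoidHom.coe_coe,
    MulAut.conj_apply, Set.mem_ofPred_eq, Set.mem_image]
  constructor
  · rintro ⟨⟨k, hk, rfl⟩, h⟩
    exact ⟨k, ⟨hk, by rintro rfl; simp at h⟩, rfl⟩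
  · rintro ⟨k, ⟨hk, h⟩, rfl⟩
    exact ⟨⟨k, hk, rfl⟩, by simpa using h⟩

omit [Fintype α] in
lemma loop_starts (s : α) (l : ℕ) : Starts (Subgroup.zpowers (of s ^ l)) s := by
  rintro g ⟨j, rfl⟩ a ha
  obtain ⟨j, rfl | rfl⟩ := Int.eq_nat_or_neg j
  · simp only [zpow_natCast, ← pow_mul, hd, toWord_of_pow] at ha
    rw [List.eq_of_mem_replicate (List.mem_of_mem_head? ha)]
  · simp only [zpow_neg, zpow_natCast, ← pow_mul, hd, toWord_inv, toWord_of_pow, invRev,
      List.map_replicate, List.reverse_replicate] at ha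
    rw [List.eq_of_mem_replicate (List.mem_of_mem_head? ha)]

lemma gf_loop (s : α) (l : ℕ) (hl : 0 < l) :
    gf (Subgroup.zpowers (of s ^ l) : Set (FreeGroup α)) * (1 - X ^ l) = 1 + X ^ l := by
  set P : Set (FreeGroup α) := Set.range fun j : ℕ => of s ^ (l * j) with hP
  have n1 : ∀ y ∈ P, (of s ^ l * y).norm = y.norm + l := by
    rintro y ⟨j, rfl⟩
    simp only [← pow_add, norm_of_pow]; ring
  have e1 : gf P = 1 + X ^ l * gf P := by
    rw [← gf_shift (fun g => of s ^ l * g) l (fun a b h => by simpa using h) n1,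
      ← gf_one (α := α), ← gf_union]
    · congr 1
      ext g
      simp only [hP, Set.mem_range, Set.singleton_union, Set.mem_insert_iff, Set.mem_image,
        exists_exists_eq_and]
      constructor
      · rintro ⟨j, rfl⟩
        cases j with
        | zero => simp
        | succ j => exact Or.inr ⟨j, by rw [← pow_add]; congr 1; ring⟩
      · rintro (rfl | ⟨j, rfl⟩)
        · exact ⟨0, by simp⟩
        · exact ⟨j + 1, by rw [← pow_add]; congr 1; ring⟩
    · rw [Set.disjoint_singleton_left]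
      rintro ⟨y, hy, e⟩
      have := n1 y hy
      simp only at e
      rw [e, FreeGroup.norm_one] at this; omega
  have e2 : gf (Subgroup.zpowers (of s ^ l) : Set (FreeGroup α)) = gf P + X ^ l * gf P := by
    rw [← gf_shift (fun g => (of s ^ l * g)⁻¹) l (fun a b h => by simpa using h)
      (fun y hy => by rw [norm_inv_eq, n1 y hy]), ← gf_union]
    · congr 1
      ext g
      simp only [hP, SetLike.mem_coe, Subgroup.mem_zpowers_iff, Set.mem_union, Set.mem_range,
        Set.mem_image, exists_exists_eq_and]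
      constructor
      · rintro ⟨j, rfl⟩
        cases j with
        | ofNat j => exact Or.inl ⟨j, by simp [pow_mul]⟩
        | negSucc j => exact Or.inr ⟨j, by rw [zpow_negSucc, pow_succ', pow_mul]⟩
      · rintro (⟨j, rfl⟩ | ⟨j, rfl⟩)
        · exact ⟨j, by simp [pow_mul]⟩
        · exact ⟨Int.negSucc j, by rw [zpow_negSucc, pow_succ', pow_mul]⟩
    · rw [Set.disjoint_left]
      rintro g ⟨i, rfl⟩ ⟨y, ⟨j, rfl⟩, e⟩
      simp only at e
      have : of s ^ (l + l * j + l * i) = 1 := by rw [pow_add, pow_add, ← e]; simp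
      have h2 := congrArg FreeGroup.norm this
      rw [norm_of_pow, FreeGroup.norm_one] at h2; omega
  rw [e2]
  linear_combination (1 + X ^ l) * e1

end Pool.Agent.H60.Cog
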