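import Pool.Agent.H60.CogA

/-! Subgroups built along a tree of states and their cogrowth series. -/

set_option autoImplicit false

namespace Pool.Agent.H60.Cog

open FreeGroup PowerSeries
open scoped Classical

variable {α : Type} [Fintype α] [DecidableEq α] {St : Type}

/-- the finite stages -/
noncomputable def HH (isA : α → Prop) (ch : St → α → St) (lp : St → α → ℕ) :
    ℕ → St → Subgroup (FreeGroup α)
  | 0, _ => ⊥
  | d + 1, σ => ⨆ s, if isA s then cj s (HH isA ch lp d (ch σ s))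
      else Subgroup.zpowers (of s ^ lp σ s)

/-- the factors -/
noncomputable def KK (isA : α → Prop) (ch : St → α → St) (lp : St → α → ℕ) (d : ℕ) (σ : St)
    (s : α) : Subgroup (FreeGroup α) :=
  if isA s then cj s (HH isA ch lp d (ch σ s)) else Subgroup.zpowers (of s ^ lp σ s)

variable (isA : α → Prop) (ch : St → α → St) (lp : St → α → ℕ)

omit [Fintype α] [DecidableEq α] in
lemma HH_succ (d : ℕ) (σ : St) : HH isA ch lp (d + 1) σ = ⨆ s, KK isA ch lp d σ s := rfl

omit [Fintype α] in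
lemma KK_starts_of (d : ℕ)
    (h : ∀ σ s, isA s → ∀ g ∈ HH isA ch lp d σ, (s, false) ∉ hd g) (σ : St) (s : α) :
    Starts (KK isA ch lp d σ s) s := by
  unfold KK
  split_ifs with hs
  · intro g hg a ha
    rw [cj_hd (h _ s hs) hg a ha]
  · exact loop_starts s _

omit [Fintype α] in
lemma HH_hd (d : ℕ) : ∀ σ s, isA s → ∀ g ∈ HH isA ch lp d σ, (s, false) ∉ hd g := by
  induction d with
  | zero =>
    intro σ s _ g hg
    rw [HH, Subgroup.mem_bot] at hg
    subst hg; simp [hd]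
  | succ d ih =>
    intro σ s hs g hg ha
    obtain ⟨t, k, hk, hak⟩ := hd_iSup (KK_starts_of isA ch lp d ih σ) hg _ ha
    have e : s = t := KK_starts_of isA ch lp d ih σ t k hk _ hak
    subst e
    rw [KK, if_pos hs] at hk
    simpa using cj_hd (ih _ s hs) hk _ hak

omit [Fintype α] in
lemma KK_starts (d : ℕ) (σ : St) (s : α) : Starts (KK isA ch lp d σ s) s :=
  KK_starts_of isA ch lp d (HH_hd isA ch lp d) σ s

omit [Fintype α] [DecidableEq α] in
lemma HH_le (d : ℕ) : ∀ σ, HH isA ch lp d σ ≤ HH isA ch lp (d + 1) σ := by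
  induction d with
  | zero => intro σ; exact bot_le
  | succ d ih =>
    intro σ
    rw [HH_succ, HH_succ]
    refine iSup_mono fun s => ?_
    unfold KK
    split_ifs
    · exact Subgroup.map_mono (ih _)
    · exact le_rfl

omit [Fintype α] [DecidableEq α] in
lemma HH_mono (σ : St) : Monotone fun d => HH isA ch lp d σ :=
  monotone_nat_of_le_succ fun d => HH_le isA ch lp d σ

omit [Fintype α] in
lemma HH_ne (a : α) (ha : isA a) (live : St → Prop) (h1 : ∀ σ, live σ → live (ch σ a))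
    (h2 : ∀ σ, live σ → ∃ s, ¬ isA s ∧ lp σ s ≠ 0) (d : ℕ) :
    ∀ σ, live σ → ¬ HH isA ch lp (d + 1) σ ≤ HH isA ch lp d σ := by
  induction d with
  | zero =>
    intro σ hσ h
    obtain ⟨s, hs, hl⟩ := h2 σ hσ
    have : of s ^ lp σ s ∈ HH isA ch lp 1 σ := by
      rw [HH_succ]
      refine Subgroup.mem_iSup_of_mem s ?_
      rw [KK, if_neg hs]; exact Subgroup.mem_zpowers _
    have h3 := h this
    rw [HH, Subgroup.mem_bot] at h3
    have h4 := congrArg FreeGroup.norm h3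
    rw [norm_of_pow, FreeGroup.norm_one] at h4
    exact hl h4
  | succ d ih =>
    intro σ hσ h
    apply ih _ (h1 σ hσ)
    intro g hg
    have hk : of a * g * (of a)⁻¹ ∈ KK isA ch lp (d + 1) σ a := by
      rw [KK, if_pos ha]; exact ⟨g, hg, rfl⟩
    have hk2 : of a * g * (of a)⁻¹ ∈ HH isA ch lp (d + 1) σ :=
      h (by rw [HH_succ]; exact Subgroup.mem_iSup_of_mem a hk)
    rw [HH_succ] at hk2
    obtain ⟨k, hk3, h', -, hb, e⟩ :=
      (nf_of_mem (KK_starts isA ch lp d σ) hk2).split (KK_starts isA ch lp d σ) a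
    have hle : KK isA ch lp d σ a ≤ KK isA ch lp (d + 1) σ a := by
      rw [KK, KK, if_pos ha, if_pos ha]; exact Subgroup.map_mono (HH_le isA ch lp d _)
    have e1 : (of a * g * (of a)⁻¹)⁻¹ * k = 1 := by
      have hm := mul_mem (inv_mem hk) (hle hk3)
      refine eq_one_of (KK_starts isA ch lp (d + 1) σ a) hm hb (h' := 1) (by simp [hd]) ?_
      rw [mul_assoc, e]; group
    rw [inv_mul_eq_one] at e1
    rw [← e1, KK, if_pos ha] at hk3
    obtain ⟨g', hg', e2⟩ := hk3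
    have : g' = g := by simpa using e2
    exact this ▸ hg'

lemma HH_gf (β : St → ℤ⟦X⟧) (φ : St → α → ℤ⟦X⟧) (hsum : ∀ σ, β σ = ∑ s, φ σ s)
    (hA : ∀ σ s, isA s → ∃ γ : ℤ⟦X⟧, φ σ s = X ^ 2 * γ ∧ β (ch σ s) * (1 + (1 - X ^ 2) * γ) = γ)
    (hB : ∀ σ s, ¬ isA s →
      (lp σ s = 0 ∧ φ σ s = 0) ∨ (0 < lp σ s ∧ φ σ s * (1 + X ^ lp σ s) = 2 * X ^ lp σ s))
    (d : ℕ) : ∀ σ, X ^ d ∣ gf (HH isA ch lp d σ : Set (FreeGroup α)) * (1 - β σ) - 1 := by
  induction d with
  | zero => intro σ; simp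
  | succ d ih =>
    intro σ
    rw [HH_succ, hsum]
    refine gf_iSup (KK_starts isA ch lp d σ) _ _ fun s => ?_
    unfold KK
    split_ifs with hs
    · obtain ⟨γ, e1, e2⟩ := hA σ s hs
      obtain ⟨c, hc⟩ := ih (ch σ s)
      rw [gf_cj (HH_hd isA ch lp d _ s hs), e1]
      refine ⟨X * (1 + (1 - X ^ 2) * γ) * c, ?_⟩
      linear_combination (X ^ 2 * (1 + (1 - X ^ 2) * γ)) * hc
        + (X ^ 2 * gf (HH isA ch lp d (ch σ s) : Set (FreeGroup α))) * e2
    · rcases hB σ s hs with ⟨e1, e2⟩ | ⟨e1, e2⟩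
      · rw [e1, e2]
        simp [gf_one]
      · have h1 := gf_loop s _ e1
        have h2 : (1 + X ^ lp σ s : ℤ⟦X⟧) ≠ 0 := by
          intro h
          have := congrArg constantCoeff h
          simp [e1.ne'] at this
        have : gf (Subgroup.zpowers (of s ^ lp σ s) : Set (FreeGroup α)) * (1 - φ σ s) - 1 = 0 := by
          apply mul_right_cancel₀ h2
          linear_combination h1 - gf (Subgroup.zpowers (of s ^ lp σ s) : Set (FreeGroup α)) * e2
        rw [this]; exact dvd_zero _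

omit [Fintype α] in
lemma stage (σ : St) (F : Finset (FreeGroup α))
    (hF : ∀ g ∈ F, g ∈ ⨆ d, HH isA ch lp d σ) : ∃ d, ∀ g ∈ F, g ∈ HH isA ch lp d σ := by
  induction F using Finset.induction_on with
  | empty => exact ⟨0, by simp⟩
  | insert a F _ ih =>
    obtain ⟨d, hd⟩ := ih fun g hg => hF g (Finset.mem_insert_of_mem hg)
    obtain ⟨e, he⟩ := (Subgroup.mem_iSup_of_directed (HH_mono isA ch lp σ).directed_le).1
      (hF a (Finset.mem_insert_self _ _))
    refine ⟨max d e, fun g hg => ?_⟩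
    rcases Finset.mem_insert.1 hg with rfl | hg
    · exact HH_mono isA ch lp σ (le_max_right _ _) he
    · exact HH_mono isA ch lp σ (le_max_left _ _) (hd g hg)

theorem tree (β : St → ℤ⟦X⟧) (φ : St → α → ℤ⟦X⟧) (hsum : ∀ σ, β σ = ∑ s, φ σ s)
    (hA : ∀ σ s, isA s → ∃ γ : ℤ⟦X⟧, φ σ s = X ^ 2 * γ ∧ β (ch σ s) * (1 + (1 - X ^ 2) * γ) = γ)
    (hB : ∀ σ s, ¬ isA s →
      (lp σ s = 0 ∧ φ σ s = 0) ∨ (0 < lp σ s ∧ φ σ s * (1 + X ^ lp σ s) = 2 * X ^ lp σ s))
    (a : α) (ha : isA a) (live : St → Prop) (h1 : ∀ σ, live σ → live (ch σ a))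
    (h2 : ∀ σ, live σ → ∃ s, ¬ isA s ∧ lp σ s ≠ 0) (σ : St) (hσ : live σ) :
    ∃ H : Subgroup (FreeGroup α), ¬ H.FG ∧ gf (H : Set (FreeGroup α)) * (1 - β σ) = 1 := by
  refine ⟨⨆ d, HH isA ch lp d σ, ?_, ?_⟩
  · rintro ⟨F, hF⟩
    obtain ⟨d, hd⟩ := stage isA ch lp σ F fun g hg => hF ▸ Subgroup.subset_closure hg
    apply HH_ne isA ch lp a ha live h1 h2 d σ hσ
    refine (le_iSup (fun d => HH isA ch lp d σ) (d + 1)).trans ?_
    rw [← hF, Subgroup.closure_le]
    exact hd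
  · rw [← sub_eq_zero]
    ext n
    obtain ⟨d, hd⟩ := stage isA ch lp σ ((Finset.range (n + 1)).biUnion
      (sph ((⨆ d, HH isA ch lp d σ : Subgroup (FreeGroup α)) : Set (FreeGroup α)))) (by
        intro g hg
        obtain ⟨i, -, hi⟩ := Finset.mem_biUnion.1 hg
        exact (mem_sph.1 hi).1)
    have e1 : X ^ (n + 1) ∣ gf ((⨆ d, HH isA ch lp d σ : Subgroup (FreeGroup α)) : Set (FreeGroup α))
        - gf (HH isA ch lp (max d (n + 1)) σ : Set (FreeGroup α)) := by
      rw [X_pow_dvd_iff]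
      intro i hi
      simp only [gf, map_sub, coeff_mk, sub_eq_zero]
      congr 2
      ext g
      simp only [mem_sph, SetLike.mem_coe]
      refine and_congr_left fun hn => ⟨fun hg => ?_, fun hg => Subgroup.mem_iSup_of_mem _ hg⟩
      exact HH_mono isA ch lp σ (le_max_left _ _) (hd g (Finset.mem_biUnion.2
        ⟨i, Finset.mem_range.2 hi, mem_sph.2 ⟨hg, hn⟩⟩))
    have e2 := (pow_dvd_pow X (le_max_right d (n + 1))).trans
      (HH_gf isA ch lp β φ hsum hA hB (max d (n + 1)) σ)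
    have e3 := (e1.mul_right (1 - β σ)).add e2
    have e4 := X_pow_dvd_iff.1 e3 n (Nat.lt_succ_self n)
    rw [map_zero, ← e4]
    congr 1
    ring

end Pool.Agent.H60.Cog
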