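import Mathlib

/-! Weighted `ℓ¹` bounds for integer power series and the greedy splitting step. -/

set_option autoImplicit false

namespace Pool.Agent.H60.Cog

open PowerSeries Finset

/-- truncated weighted norm -/
noncomputable def nm (f : ℤ⟦X⟧) (n : ℕ) : ℝ :=
  ∑ k ∈ range n, |((coeff k f : ℤ) : ℝ)| * (3 / 4 : ℝ) ^ k

/-- norm bound -/
def Bd (f : ℤ⟦X⟧) (M : ℝ) : Prop := ∀ n, nm f n ≤ M

lemma nm_nonneg (f : ℤ⟦X⟧) (n : ℕ) : 0 ≤ nm f n := sum_nonneg fun _ _ => by positivity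

lemma Bd.nonneg {f : ℤ⟦X⟧} {M : ℝ} (h : Bd f M) : 0 ≤ M := (nm_nonneg f 0).trans (h 0)

lemma Bd.mono {f : ℤ⟦X⟧} {M M' : ℝ} (h : Bd f M) (h' : M ≤ M') : Bd f M' :=
  fun n => (h n).trans h'

lemma nm_add (f g : ℤ⟦X⟧) (n : ℕ) : nm (f + g) n ≤ nm f n + nm g n := by
  unfold nm
  rw [← sum_add_distrib]
  refine sum_le_sum fun k _ => ?_
  rw [← add_mul, map_add, Int.cast_add]
  gcongr
  exact abs_add_le _ _

lemma nm_neg (f : ℤ⟦X⟧) (n : ℕ) : nm (-f) n = nm f n := by simp [nm]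

lemma nm_mul (f g : ℤ⟦X⟧) (n : ℕ) : nm (f * g) n ≤ nm f n * nm g n := by
  have h1 : nm (f * g) n ≤ ∑ k ∈ range n, ∑ p ∈ HasAntidiagonal.antidiagonal k,
      (|((coeff p.1 f : ℤ) : ℝ)| * (3 / 4 : ℝ) ^ p.1) * (|((coeff p.2 g : ℤ) : ℝ)| * (3 / 4 : ℝ) ^ p.2) := by
    refine sum_le_sum fun k _ => ?_
    rw [coeff_mul, Int.cast_sum]
    refine (mul_le_mul_of_nonneg_right (abs_sum_le_sum_abs _ _) (by positivity)).trans ?_
    rw [sum_mul]
    refine le_of_eq (sum_congr rfl fun p hp => ?_)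
    rw [← HasAntidiagonal.mem_antidiagonal.1 hp, Int.cast_mul, abs_mul, pow_add]; ring
  refine h1.trans ?_
  unfold nm
  rw [sum_mul_sum, ← sum_product', sum_sigma']
  rw [← sum_image (s := (range n).sigma fun k => HasAntidiagonal.antidiagonal k)
    (g := fun q : (Σ _ : ℕ, ℕ × ℕ) => q.2) (f := fun p : ℕ × ℕ =>
      (|((coeff p.1 f : ℤ) : ℝ)| * (3 / 4 : ℝ) ^ p.1) * (|((coeff p.2 g : ℤ) : ℝ)| * (3 / 4 : ℝ) ^ p.2))]
  · refine sum_le_sum_of_subset_of_nonneg ?_ fun _ _ _ => by positivity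
    intro p hp
    simp only [mem_image, mem_sigma, mem_range, HasAntidiagonal.mem_antidiagonal] at hp
    obtain ⟨q, ⟨h2, h3⟩, rfl⟩ := hp
    simp only [mem_product, mem_range]
    omega
  · rintro ⟨k, p⟩ h2 ⟨k', p'⟩ h3 e
    simp only [coe_sigma, Set.mem_sigma_iff, mem_coe, HasAntidiagonal.mem_antidiagonal] at h2 h3 e
    subst e
    have : k = k' := h2.2.symm.trans h3.2
    subst this; rfl

lemma Bd.add {f g : ℤ⟦X⟧} {M M' : ℝ} (h : Bd f M) (h' : Bd g M') : Bd (f + g) (M + M') :=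
  fun n => (nm_add f g n).trans (add_le_add (h n) (h' n))

lemma Bd.neg {f : ℤ⟦X⟧} {M : ℝ} (h : Bd f M) : Bd (-f) M := fun n => by rw [nm_neg]; exact h n

lemma Bd.sub {f g : ℤ⟦X⟧} {M M' : ℝ} (h : Bd f M) (h' : Bd g M') : Bd (f - g) (M + M') := by
  rw [sub_eq_add_neg]; exact h.add h'.neg

lemma Bd.mul {f g : ℤ⟦X⟧} {M M' : ℝ} (h : Bd f M) (h' : Bd g M') : Bd (f * g) (M * M') :=
  fun n => (nm_mul f g n).trans (mul_le_mul (h n) (h' n) (nm_nonneg _ _) h.nonneg)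

lemma bd_single (f : ℤ⟦X⟧) (j : ℕ) (h : ∀ k, k ≠ j → coeff k f = 0) :
    Bd f (|((coeff j f : ℤ) : ℝ)| * (3 / 4 : ℝ) ^ j) := by
  intro n
  unfold nm
  by_cases hj : j ∈ range n
  · rw [sum_eq_single_of_mem j hj fun k _ hk => by simp [h k hk]]
  · rw [sum_eq_zero fun k hk => by simp [h k (by rintro rfl; exact hj hk)]]
    positivity

lemma bd_C (c : ℤ) : Bd (C c) |(c : ℝ)| := by
  have := bd_single (C c) 0 fun k hk => by rw [coeff_C, if_neg hk]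
  rwa [coeff_zero_C, pow_zero, mul_one] at this

lemma bd_X_pow (j : ℕ) : Bd (X ^ j) ((3 / 4 : ℝ) ^ j) := by
  have := bd_single (X ^ j) j fun k hk => by rw [coeff_X_pow, if_neg hk]
  rwa [coeff_X_pow, if_pos rfl, Int.cast_one, abs_one, one_mul] at this

lemma bd_X : Bd X (3 / 4) := by simpa using bd_X_pow 1

lemma bd_one : Bd 1 1 := by simpa using bd_X_pow 0

lemma bd_two : Bd 2 2 := by
  have := bd_one.add bd_one
  rwa [one_add_one_eq_two, one_add_one_eq_two] at this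

lemma bd_zero : Bd 0 0 := fun n => by simp [nm]

lemma bd_coeff (f : ℤ⟦X⟧) (c : ℝ) (h : ∀ k, |((coeff k f : ℤ) : ℝ)| ≤ c) : Bd f (4 * c) := by
  intro n
  have hc : 0 ≤ c := (abs_nonneg _).trans (h 0)
  have h1 : nm f n ≤ ∑ k ∈ range n, c * (3 / 4 : ℝ) ^ k :=
    sum_le_sum fun k _ => mul_le_mul_of_nonneg_right (h k) (by positivity)
  rw [← mul_sum, geom_sum_eq (by norm_num)] at h1
  have : (0 : ℝ) ≤ c * (3 / 4) ^ n := by positivity
  have e : c * (((3 / 4 : ℝ) ^ n - 1) / (3 / 4 - 1)) = 4 * c - 4 * (c * (3 / 4) ^ n) := by ring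
  linarith

lemma Bd.of_C_mul {f : ℤ⟦X⟧} {M : ℝ} {D : ℤ} (hD : 0 < D) (h : Bd (C D * f) M) :
    Bd f (M / D) := by
  intro n
  have hD' : (0 : ℝ) < D := by exact_mod_cast hD
  rw [le_div_iff₀ hD']
  refine le_trans (le_of_eq ?_) (h n)
  unfold nm
  rw [sum_mul]
  refine sum_congr rfl fun k _ => ?_
  rw [coeff_C_mul, Int.cast_mul, abs_mul, abs_of_pos hD']; ring

lemma split0 (f : ℤ⟦X⟧) : ∃ (c : ℤ) (f' : ℤ⟦X⟧), f = C c + X * f' :=
  ⟨constantCoeff f, _, by rw [add_comm]; exact eq_X_mul_shift_add_const f⟩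

lemma Bd.split {f : ℤ⟦X⟧} {M : ℝ} (h : Bd f M) :
    ∃ (c : ℤ) (f' : ℤ⟦X⟧), f = C c + X * f' ∧ |(c : ℝ)| ≤ M ∧ Bd f' (4 / 3 * M) := by
  obtain ⟨c, f', e⟩ := split0 f
  have key : ∀ n, nm f (n + 1) = |(c : ℝ)| + 3 / 4 * nm f' n := by
    intro n
    unfold nm
    rw [sum_range_succ', mul_sum, add_comm]
    congr 1
    · simp [e]
    · refine sum_congr rfl fun k _ => ?_
      simp only [e, map_add, coeff_succ_X_mul, coeff_C, Nat.succ_ne_zero, if_false, zero_add]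
      ring
  refine ⟨c, f', e, ?_, fun n => ?_⟩
  · have := h 1
    rw [key 0] at this
    linarith [nm_nonneg f' 0]
  · have := h (n + 1)
    rw [key] at this
    linarith [abs_nonneg (c : ℝ)]

lemma exists_inv (f : ℤ⟦X⟧) : ∃ y : ℤ⟦X⟧, (1 + X * f) * y = 1 :=
  ⟨invOfUnit (1 + X * f) 1, mul_invOfUnit _ _ (by simp)⟩

lemma bd_inv {t y : ℤ⟦X⟧} (h : (1 + t) * y = 1) (ht : Bd t (1 / 2)) : Bd y 2 := by
  intro n
  have e : y = 1 + -(t * y) := by linear_combination h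
  have h1 : nm y n ≤ nm 1 n + nm (t * y) n := by
    conv_lhs => rw [e]
    exact (nm_add _ _ n).trans (by rw [nm_neg])
  have h2 := nm_mul t y n
  have h3 := mul_le_mul_of_nonneg_right (ht n) (nm_nonneg y n)
  linarith [bd_one n]

/-- inverse of `1 + X^l` -/
noncomputable def yy (l : ℕ) : ℤ⟦X⟧ := invOfUnit (1 + X ^ l) 1

lemma yy_spec {l : ℕ} (hl : 0 < l) : (1 + X ^ l) * yy l = 1 :=
  mul_invOfUnit _ _ (by simp [hl.ne'])

/-- contribution of one loop -/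
noncomputable def ψ (l : ℕ) : ℤ⟦X⟧ := if l = 0 then 0 else 2 * X ^ l * yy l

lemma rounding (g : ℤ⟦X⟧) (D : ℤ) (h4 : 4 ≤ D) (h11 : D ≤ 11) :
    ∃ h0 h1 : ℤ⟦X⟧, g = h0 + C (D - 1) * h1 ∧ Bd (C D * h0 - g) 484 ∧ Bd (C D * h1 - g) 484 := by
  refine ⟨g - C (D - 1) * mk (fun k => coeff k g / D), mk (fun k => coeff k g / D), by ring, ?_, ?_⟩
  · refine (bd_coeff _ 121 fun k => ?_).mono (by norm_num)
    rw [map_sub, coeff_C_mul, map_sub, coeff_C_mul, coeff_mk]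
    have e := Int.mul_ediv_add_emod (coeff k g) D
    have h1 := Int.emod_nonneg (coeff k g) (by omega : D ≠ 0)
    have h2 := Int.emod_lt_of_pos (coeff k g) (by omega : 0 < D)
    have : D * (coeff k g - (D - 1) * (coeff k g / D)) - coeff k g = (D - 1) * (coeff k g % D) := by
      linear_combination (-(D - 1)) * e
    rw [this]
    have h3 : |(D - 1) * (coeff k g % D)| ≤ 121 := by
      rw [abs_of_nonneg (mul_nonneg (by omega) h1)]; nlinarith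
    exact_mod_cast h3
  · refine (bd_coeff _ 121 fun k => ?_).mono (by norm_num)
    simp only [map_sub, coeff_C_mul, coeff_mk]
    have e := Int.mul_ediv_add_emod (coeff k g) D
    have h1 := Int.emod_nonneg (coeff k g) (by omega : D ≠ 0)
    have h2 := Int.emod_lt_of_pos (coeff k g) (by omega : 0 < D)
    have h3 : |D * (coeff k g / D) - coeff k g| ≤ 121 := by
      rw [abs_le]; constructor <;> omega
    exact_mod_cast h3

/-- the invariant of the construction -/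
def Good (L : ℕ) (g : ℤ⟦X⟧) : Prop :=
  ∃ (N : ℤ) (a e : ℤ⟦X⟧), 4 ≤ L ∧ (3 / 4 : ℝ) ^ L ≤ 1 / 10 ^ 10 ∧
    (1 - 2 * X + X ^ 4 * e) * g = C N + X * a ∧ Bd e (1 / 1000 - 10 ^ 7 * (3 / 4 : ℝ) ^ L) ∧
    100000 ≤ N ∧ N ≤ 200000 ∧ Bd a 10000

lemma child (L : ℕ) (hL : 4 ≤ L) (hr : (3 / 4 : ℝ) ^ L ≤ 1 / 10 ^ 10) (e b η h : ℤ⟦X⟧)
    (he : Bd e (1 / 1000 - 10 ^ 7 * (3 / 4 : ℝ) ^ L)) (g3 D : ℤ) (h4 : 4 ≤ D)
    (hD1 : 150000 * D ≤ g3) (hD2 : g3 < 150000 * D + 150000) (hb : Bd b 25000) (hη : Bd η 485)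
    (hh : C D * ((1 - 2 * X + X ^ 4 * e) * h) = C g3 + X * b + (1 - 2 * X + X ^ 4 * e) * η) :
    ∃ g', Good (L + 1) g' ∧ g' * (1 + (1 - X ^ 2) * (2 * X ^ (L + 1) * h)) = h := by
  have hp : (0 : ℝ) ≤ (3 / 4) ^ L := by positivity
  have hQ : Bd (1 - 2 * X + X ^ 4 * e) 3 :=
    ((bd_one.sub (bd_two.mul bd_X)).add ((bd_X_pow 4).mul he)).mono (by nlinarith)
  obtain ⟨c, ω, e1, hc, hω⟩ := (hQ.mul hη).split
  obtain ⟨N', a', e2⟩ := split0 ((1 - 2 * X + X ^ 4 * e) * h)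
  rw [e1, e2] at hh
  have e3 : D * N' = g3 + c := by
    have := congrArg constantCoeff hh
    simpa using this
  have e4 : C D * a' = b + ω := by
    apply mul_left_cancel₀ (X_ne_zero (R := ℤ))
    have : (C D * C N' : ℤ⟦X⟧) = C g3 + C c := by rw [← map_mul, e3, map_add]
    linear_combination hh - this
  have hc' : |c| ≤ 1455 := by
    have : |(c : ℝ)| ≤ 1455 := hc.trans (by norm_num)
    exact_mod_cast this
  rw [abs_le] at hc'
  have hN1 : 100000 ≤ N' := by nlinarith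
  have hN2 : N' ≤ 200000 := by nlinarith
  have hD : (4 : ℝ) ≤ D := by exact_mod_cast h4
  have ha' : Bd a' 10000 := by
    refine (Bd.of_C_mul (D := D) (by omega) (e4 ▸ hb.add hω)).mono ?_
    rw [div_le_iff₀ (by linarith)]; linarith
  obtain ⟨k, rfl⟩ : ∃ k, L = k + 3 := ⟨L - 3, by omega⟩
  obtain ⟨y, hy⟩ := exists_inv ((1 - X ^ 2) * (2 * X ^ (k + 3) * h))
  refine ⟨h * y, ⟨N', a', e + 2 * (1 - X ^ 2) * X ^ k * (C N' + X * a'), by omega, ?_, ?_, ?_,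
    hN1, hN2, ha'⟩, ?_⟩
  · rw [pow_succ]; linarith
  · rw [← e2]
    linear_combination ((1 - 2 * X + X ^ 4 * e) * h) * hy
  · have hN : |(N' : ℝ)| ≤ 200000 := by
      have : |N'| ≤ 200000 := by rw [abs_le]; omega
      exact_mod_cast this
    have := he.add (((bd_two.mul (bd_one.sub (bd_X_pow 2))).mul (bd_X_pow k)).mul
      (((bd_C N').mono hN).add (bd_X.mul ha')))
    refine this.mono ?_
    have : (0 : ℝ) ≤ (3 / 4) ^ k := by positivity
    simp only [pow_succ]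
    nlinarith
  · linear_combination h * hy

lemma step (L : ℕ) (g : ℤ⟦X⟧) (hg : Good L g) :
    ∃ (hs : List ℤ⟦X⟧) (ls : List ℕ), hs.length ≤ 12 ∧ hs ≠ [] ∧ ls.length ≤ 1500000 ∧ ls ≠ [] ∧
      (∀ l ∈ ls, 0 < l) ∧
      2 * X ^ L * g = (hs.map fun h => X ^ 2 * (2 * X ^ (L + 1) * h)).sum + (ls.map ψ).sum ∧
      ∀ h ∈ hs, ∃ g', Good (L + 1) g' ∧ g' * (1 + (1 - X ^ 2) * (2 * X ^ (L + 1) * h)) = h := by
  obtain ⟨N, a, e, hL, hr, hq, he, hN1, hN2, ha⟩ := hg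
  obtain ⟨a1, b1, e1, c1, hb1⟩ := ha.split
  obtain ⟨a2, b2, e2, c2, hb2⟩ := hb1.split
  obtain ⟨a3, b3, e3, c3, hb3⟩ := hb2.split
  have d1 : |a1| ≤ 10000 := by exact_mod_cast c1
  have d2 : |a2| ≤ 13334 := by
    have : |(a2 : ℝ)| ≤ 13334 := c2.trans (by norm_num)
    exact_mod_cast this
  have d3 : |a3| ≤ 17778 := by
    have : |(a3 : ℝ)| ≤ 17778 := c3.trans (by norm_num)
    exact_mod_cast this
  rw [abs_le] at d1 d2 d3
  obtain ⟨n0, hn0⟩ : ∃ n : ℕ, (n : ℤ) = N := ⟨N.toNat, by omega⟩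
  obtain ⟨n1, hn1⟩ : ∃ n : ℕ, (n : ℤ) = a1 + 2 * N := ⟨(a1 + 2 * N).toNat, by omega⟩
  obtain ⟨n2, hn2⟩ : ∃ n : ℕ, (n : ℤ) = a2 + 2 * n1 := ⟨(a2 + 2 * n1).toNat, by omega⟩
  set g3 : ℤ := a3 + 2 * n2 with hg3
  set D : ℤ := g3 / 150000 with hD
  have h4 : 4 ≤ D := by omega
  have h11 : D ≤ 11 := by omega
  set P : ℤ⟦X⟧ := C (n0 : ℤ) + C (n1 : ℤ) * X + C (n2 : ℤ) * X ^ 2 with hP
  have hp : (0 : ℝ) ≤ (3 / 4) ^ L := by positivity
  have m0 : |((n0 : ℤ) : ℝ)| ≤ 200000 := by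
    have : |(n0 : ℤ)| ≤ 200000 := by rw [abs_le]; omega
    exact_mod_cast this
  have m1 : |((n1 : ℤ) : ℝ)| ≤ 410000 := by
    have : |(n1 : ℤ)| ≤ 410000 := by rw [abs_le]; omega
    exact_mod_cast this
  have m2 : |((n2 : ℤ) : ℝ)| ≤ 840000 := by
    have : |(n2 : ℤ)| ≤ 840000 := by rw [abs_le]; omega
    exact_mod_cast this
  have B0 := (bd_C _).mono m0
  have B1 := (bd_C _).mono m1
  have B2 := (bd_C _).mono m2
  have hPb : Bd P 1000000 :=
    ((B0.add (B1.mul bd_X)).add (B2.mul (bd_X_pow 2))).mono (by norm_num)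
  have hb : Bd (b3 - e * P) 25000 :=
    (hb3.sub ((he.mono (M' := 1 / 1000) (by nlinarith)).mul hPb)).mono (by norm_num)
  obtain ⟨Qi, hQi⟩ := exists_inv (-2 + X ^ 3 * e)
  set gt : ℤ⟦X⟧ := Qi * (C g3 + X * (b3 - e * P)) with hgt
  have q1 : (1 - 2 * X + X ^ 4 * e) * gt = C g3 + X * (b3 - e * P) := by
    rw [hgt]; linear_combination (C g3 + X * (b3 - e * P)) * hQi
  have q2 : g = P + X ^ 3 * gt := by
    have k0 : (C (n0 : ℤ) : ℤ⟦X⟧) = C N := by rw [hn0]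
    have k1 : (C (n1 : ℤ) : ℤ⟦X⟧) = C a1 + 2 * C N := by rw [hn1, map_add, map_mul]; rfl
    have k2 : (C (n2 : ℤ) : ℤ⟦X⟧) = C a2 + 2 * C (n1 : ℤ) := by rw [hn2, map_add, map_mul]; rfl
    have k3 : (C g3 : ℤ⟦X⟧) = C a3 + 2 * C (n2 : ℤ) := by rw [hg3, map_add, map_mul]; rfl
    have : (1 - 2 * X + X ^ 4 * e) * (g - P) = X ^ 3 * (C g3 + X * (b3 - e * P)) := by
      rw [mul_sub, hq, e1, e2, e3, k3]
      have : P = C N + C (n1 : ℤ) * X + C (n2 : ℤ) * X ^ 2 := by rw [hP, k0]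
      linear_combination (-(1 - 2 * X)) * this - X * k1 - X ^ 2 * k2
    rw [hgt]
    linear_combination Qi * this - (g - P) * hQi
  obtain ⟨k, rfl⟩ : ∃ k, L = k + 3 := ⟨L - 3, by omega⟩
  have y0 := yy_spec (l := k + 3) (by omega)
  have y1 := yy_spec (l := k + 3 + 1) (by omega)
  have y2 := yy_spec (l := k + 3 + 2) (by omega)
  have hk : (3 / 4 : ℝ) ^ k ≤ 3 / 10 ^ 10 := by rw [pow_add] at hr; nlinarith
  have hk0 : (0 : ℝ) ≤ (3 / 4) ^ k := by positivity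
  have Y0 := bd_inv y0 ((bd_X_pow _).mono (by simp only [pow_add]; nlinarith))
  have Y1 := bd_inv y1 ((bd_X_pow _).mono (by simp only [pow_add]; nlinarith))
  have Y2 := bd_inv y2 ((bd_X_pow _).mono (by simp only [pow_add]; nlinarith))
  set η : ℤ⟦X⟧ := X ^ k * (C (n0 : ℤ) * yy (k + 3) + C (n1 : ℤ) * X ^ 2 * yy (k + 3 + 1)
    + C (n2 : ℤ) * X ^ 4 * yy (k + 3 + 2)) with hη
  have hηb : Bd η 1 :=
    ((bd_X_pow k).mul (((B0.mul Y0).add ((B1.mul (bd_X_pow 2)).mul Y1)).add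
      ((B2.mul (bd_X_pow 4)).mul Y2))).mono (by nlinarith)
  obtain ⟨h0, h1, r0, r1, r2⟩ := rounding (gt + η) D h4 h11
  obtain ⟨d, hd⟩ : ∃ d : ℕ, (d : ℤ) = D - 1 := ⟨(D - 1).toNat, by omega⟩
  refine ⟨h0 :: List.replicate d h1, List.replicate n0 (k + 3) ++ List.replicate n1 (k + 3 + 1)
    ++ List.replicate n2 (k + 3 + 2), ?_, by simp, ?_, ?_, ?_, ?_, ?_⟩
  · simp only [List.length_cons, List.length_replicate]; omega
  · simp only [List.length_append, List.length_replicate]; omega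
  · intro h
    have := congrArg List.length h
    simp only [List.length_append, List.length_replicate, List.length_nil] at this; omega
  · intro l hl
    simp only [List.mem_append, List.mem_replicate] at hl
    omega
  · simp only [List.map_cons, List.map_replicate, List.sum_cons, List.sum_replicate,
      List.map_append, List.sum_append, ψ, nsmul_eq_mul]
    rw [if_neg (by omega), if_neg (by omega), if_neg (by omega)]
    rw [← hd] at r0
    simp only [map_natCast] at r0 hη hP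
    rw [q2, hP]
    linear_combination (2 * X ^ (k + 6)) * r0 - (2 * X ^ (k + 6)) * hη
      - (2 * (n0 : ℤ⟦X⟧) * X ^ (k + 3)) * y0 - (2 * (n1 : ℤ⟦X⟧) * X ^ (k + 4)) * y1
      - (2 * (n2 : ℤ⟦X⟧) * X ^ (k + 5)) * y2
  · have key : ∀ h : ℤ⟦X⟧, Bd (C D * h - (gt + η)) 484 → ∃ g', Good (k + 3 + 1) g' ∧
        g' * (1 + (1 - X ^ 2) * (2 * X ^ (k + 3 + 1) * h)) = h := by
      intro h hh
      refine child (k + 3) hL hr e (b3 - e * P) (C D * h - (gt + η) + η) h he g3 D h4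
        (by omega) (by omega) hb ((hh.add hηb).mono (by norm_num)) ?_
      linear_combination q1
    intro h hh
    rcases List.mem_cons.1 hh with rfl | hh
    · exact key _ r1
    · rw [List.eq_of_mem_replicate hh]; exact key _ r2

lemma start : ∃ (L : ℕ) (g : ℤ⟦X⟧), Good L g ∧ (1 - 2 * X) * g = 100000 := by
  obtain ⟨n, hn⟩ := exists_pow_lt_of_lt_one (show (0 : ℝ) < 1 / 10 ^ 10 by positivity)
    (show (3 / 4 : ℝ) < 1 by norm_num)
  obtain ⟨y, hy⟩ := exists_inv (-2)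
  have h0 : (0 : ℝ) ≤ (3 / 4) ^ n := by positivity
  have h1 : (3 / 4 : ℝ) ^ (n + 4) ≤ 1 / 10 ^ 10 := by rw [pow_add]; nlinarith
  have e : (1 - 2 * X) * (100000 * y) = 100000 := by linear_combination 100000 * hy
  refine ⟨n + 4, 100000 * y, ⟨100000, 0, 0, by omega, h1, ?_, bd_zero.mono (by nlinarith),
    le_rfl, by norm_num, bd_zero.mono (by norm_num)⟩, e⟩
  rw [mul_zero, add_zero, mul_zero, add_zero, e]; rfl

end Pool.Agent.H60.Cog
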