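import Pool.Agent.H60.CogB
import Pool.Agent.H60.CogC

/-! An infinitely generated subgroup with rational cogrowth series. -/

set_option autoImplicit false

namespace Pool.Agent.H60.Cog

open FreeGroup PowerSeries Finset
open scoped Classical

lemma sum_getD {β M : Type} [AddCommMonoid M] (f : β → M) (z : β) (hz : f z = 0) (l : List β) :
    ∀ n, l.length ≤ n → ∑ i ∈ range n, f (l.getD i z) = (l.map f).sum := by
  induction l with
  | nil => intro n _; simp [hz]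
  | cons a l ih =>
    intro n hn
    obtain ⟨k, rfl⟩ : ∃ k, n = k + 1 := ⟨n - 1, by simp at hn; omega⟩
    rw [sum_range_succ', List.map_cons, List.sum_cons, add_comm, ← ih k (by simpa using hn)]
    simp

/-- states -/
def St : Type := {p : ℕ × ℤ⟦X⟧ // Good p.1 p.2 ∨ p.2 = 0}

lemma node (k : ℕ) (hk : 1500000 ≤ k) (σ : St) :
    ∃ (ch : Fin (12 + k) → St) (lp : Fin (12 + k) → ℕ) (φ : Fin (12 + k) → ℤ⟦X⟧),
      2 * X ^ σ.1.1 * σ.1.2 = ∑ s, φ s ∧
      (∀ s : Fin (12 + k), s.val < 12 → ∃ γ : ℤ⟦X⟧, φ s = X ^ 2 * γ ∧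
        2 * X ^ (ch s).1.1 * (ch s).1.2 * (1 + (1 - X ^ 2) * γ) = γ) ∧
      (∀ s : Fin (12 + k), ¬ s.val < 12 →
        (lp s = 0 ∧ φ s = 0) ∨ (0 < lp s ∧ φ s * (1 + X ^ lp s) = 2 * X ^ lp s)) ∧
      (Good σ.1.1 σ.1.2 → Good (ch ⟨0, by omega⟩).1.1 (ch ⟨0, by omega⟩).1.2) ∧
      (Good σ.1.1 σ.1.2 → ∃ s : Fin (12 + k), ¬ s.val < 12 ∧ lp s ≠ 0) := by
  obtain ⟨⟨L, g⟩, hσ⟩ := σ
  by_cases hg : Good L g
  · obtain ⟨hs, ls, l1, l2, l3, l4, l5, e, hc⟩ := step L g hg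
    have hc' : ∀ i : ℕ, ∃ τ : St, 2 * X ^ τ.1.1 * τ.1.2 *
        (1 + (1 - X ^ 2) * (2 * X ^ (L + 1) * hs.getD i 0)) = 2 * X ^ (L + 1) * hs.getD i 0 ∧
        (i < hs.length → Good τ.1.1 τ.1.2) := by
      intro i
      by_cases hi : i < hs.length
      · rw [List.getD_eq_getElem _ _ hi]
        obtain ⟨g', h1, h2⟩ := hc _ (List.getElem_mem hi)
        exact ⟨⟨(L + 1, g'), Or.inl h1⟩, by rw [mul_assoc, h2], fun _ => h1⟩
      · rw [List.getD_eq_default _ _ (by omega)]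
        exact ⟨⟨(0, 0), Or.inr rfl⟩, by simp, fun h => absurd h hi⟩
    choose τ hτ1 hτ2 using hc'
    let F : ℕ → ℤ⟦X⟧ := fun i =>
      if i < 12 then X ^ 2 * (2 * X ^ (L + 1) * hs.getD i 0) else ψ (ls.getD (i - 12) 0)
    refine ⟨fun s => τ s.val, fun s => ls.getD (s.val - 12) 0, fun s => F s.val, ?_, ?_, ?_, ?_, ?_⟩
    · rw [Fin.sum_univ_eq_sum_range F, sum_range_add]
      simp only
      rw [e, ← sum_getD _ 0 (by simp) hs 12 l1, ← sum_getD ψ 0 (by simp [ψ]) ls k (by omega)]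
      refine congrArg₂ (· + ·) ?_ ?_
      · exact sum_congr rfl fun i hi => by simp only [F, if_pos (mem_range.1 hi)]
      · refine sum_congr rfl fun i _ => ?_
        have : ¬ 12 + i < 12 := by omega
        show _ = ite _ _ _
        rw [if_neg this, Nat.add_sub_cancel_left]
    · intro s hs'
      exact ⟨_, by simp only [F, if_pos hs'], hτ1 _⟩
    · intro s hs'
      simp only [F, if_neg hs', ψ]
      by_cases h0 : ls.getD (s.val - 12) 0 = 0
      · exact Or.inl ⟨h0, if_pos h0⟩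
      · refine Or.inr ⟨Nat.pos_of_ne_zero h0, ?_⟩
        rw [if_neg h0]
        linear_combination (2 * X ^ ls.getD (s.val - 12) 0) * yy_spec (Nat.pos_of_ne_zero h0)
    · exact fun _ => hτ2 0 (List.length_pos_iff.2 l2)
    · refine fun _ => ⟨⟨12, by omega⟩, by simp, ?_⟩
      have := List.length_pos_iff.2 l4
      simp only [Nat.sub_self]
      rw [List.getD_eq_getElem _ _ this]
      exact (l5 _ (List.getElem_mem this)).ne'
  · have h0 : g = 0 := hσ.resolve_left hg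
    refine ⟨fun _ => ⟨(0, 0), Or.inr rfl⟩, fun _ => 0, fun _ => 0, by simp [h0],
      fun _ _ => ⟨0, by simp, by simp⟩, fun _ _ => Or.inl ⟨rfl, rfl⟩,
      fun h => absurd h hg, fun h => absurd h hg⟩

theorem exists_subgroup (k : ℕ) (hk : 1500000 ≤ k) :
    ∃ (H : Subgroup (FreeGroup (Fin (12 + k)))) (L : ℕ), ¬ H.FG ∧ 0 < L ∧
      (1 - 2 * X - 200000 * X ^ L) * gf (H : Set (FreeGroup (Fin (12 + k)))) = 1 - 2 * X := by
  choose ch lp φ h1 h2 h3 h4 h5 using node k hk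
  obtain ⟨L, g, hg, e⟩ := start
  obtain ⟨H, hH, hgf⟩ := tree (fun s : Fin (12 + k) => s.val < 12) ch lp
    (fun σ => 2 * X ^ σ.1.1 * σ.1.2) φ h1 h2 h3 ⟨0, by omega⟩ (by simp)
    (fun σ => Good σ.1.1 σ.1.2) h4 h5 ⟨(L, g), Or.inl hg⟩ hg
  have hL : 0 < L := by
    obtain ⟨_, _, _, hL, -⟩ := hg
    omega
  refine ⟨H, L, hH, hL, ?_⟩
  simp only at hgf
  linear_combination (1 - 2 * X) * hgf
    + (2 * X ^ L * gf (H : Set (FreeGroup (Fin (12 + k))))) * e

end Pool.Agent.H60.Cog
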