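import Mathlib

namespace Pool.Agent.H60.ColPart

/-- `pA a n k` is the number of `k`-tuples `(c_0, …, c_{k-1})` of natural numbers with
`c_0 a_0 + … + c_{k-1} a_{k-1} = n` (the sequence `a` is indexed from `0`). -/
noncomputable def pA (a : ℕ → ℕ) (n k : ℕ) : ℕ :=
  Nat.card {c : Fin k → ℕ // ∑ i, c i * a i = n}

/-- The proportion `#{n ≤ N : pA a n k odd} / N` tends to `δ` as `N → ∞`. -/
def HasOddDensity (a : ℕ → ℕ) (k : ℕ) (δ : ℝ) : Prop :=
  Filter.Tendsto
    (fun N : ℕ => (((Finset.range (N + 1)).filter (fun n => pA a n k % 2 = 1)).card : ℝ) / N)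
    Filter.atTop (nhds δ)

end Pool.Agent.H60.ColPart
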