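import Mathlib
import Pool.Agent.H60.ColPartDefs

namespace Pool.Agent.H60.ColPart

open Filter Topology Finset

section density

lemma tendsto_div_of_step (f : ℕ → ℝ) (M : ℕ) (hM : 0 < M) (c : ℝ)
    (h : ∀ N, f (N + M) = f N + c) : Tendsto (fun N : ℕ => f N / N) atTop (𝓝 (c / M)) := by
  have hM' : (M : ℝ) ≠ 0 := by positivity
  set g : ℕ → ℝ := fun N => f N - N * (c / M) with hg
  have hper : Function.Periodic g M := by
    intro N
    simp only [hg, h]
    push_cast
    field_simp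
    ring
  have hb : ∀ N, |g N| ≤ ∑ r ∈ range M, |g r| := by
    intro N
    rw [← hper.map_mod_nat N]
    exact single_le_sum (f := fun r => |g r|) (fun _ _ => abs_nonneg _)
      (mem_range.2 (Nat.mod_lt _ hM))
  have h0 : Tendsto (fun N : ℕ => g N / N) atTop (𝓝 0) := by
    refine tendsto_bdd_div_atTop_nhds_zero (b := -∑ r ∈ range M, |g r|)
      (B := ∑ r ∈ range M, |g r|) ?_ ?_ tendsto_natCast_atTop_atTop
    · exact Eventually.of_forall fun N => (abs_le.1 (hb N)).1
    · exact Eventually.of_forall fun N => (abs_le.1 (hb N)).2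
  have h1 := h0.add_const (c / M)
  rw [zero_add] at h1
  refine h1.congr' ?_
  filter_upwards [eventually_gt_atTop 0] with N hN
  have : (N : ℝ) ≠ 0 := by positivity
  simp only [hg]
  field_simp
  ring

lemma tendsto_count_of_periodic (S : ℕ → Prop) [DecidablePred S] (M : ℕ) (hM : 0 < M)
    (h : ∀ n, S (n + M) ↔ S n) :
    Tendsto (fun N : ℕ => (((range (N + 1)).filter S).card : ℝ) / N) atTop
      (𝓝 ((Nat.count S M : ℝ) / M)) := by
  refine tendsto_div_of_step (fun N => (((range (N + 1)).filter S).card : ℝ)) M hM _ ?_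
  intro N
  simp only [← Nat.count_eq_card_filter_range]
  rw [show N + M + 1 = M + (N + 1) by ring, Nat.count_add]
  have : Nat.count (fun k => S (M + k)) (N + 1) = Nat.count S (N + 1) := by
    congr 1
    ext k
    rw [add_comm, h]
  rw [this]
  push_cast
  ring

lemma tendsto_count_of_antiperiodic (S : ℕ → Prop) [DecidablePred S] (M : ℕ) (hM : 0 < M)
    (h : ∀ n, S (n + M) ↔ ¬ S n) :
    Tendsto (fun N : ℕ => (((range (N + 1)).filter S).card : ℝ) / N) atTop (𝓝 (1 / 2)) := by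
  have h2 : ∀ n, S (n + (M + M)) ↔ S n := by
    intro n
    rw [← add_assoc, h, h, not_not]
  have h3 := tendsto_count_of_periodic S (M + M) (by omega) h2
  have h4 : Nat.count S (M + M) = M := by
    rw [Nat.count_add]
    have : Nat.count (fun k => S (M + k)) M = Nat.count (fun k => ¬ S k) M := by
      congr 1
      ext k
      rw [add_comm, h]
    rw [this, Nat.count_eq_card_filter_range, Nat.count_eq_card_filter_range,
      card_filter_add_card_filter_not, card_range]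
  rw [h4] at h3
  have hM' : (M : ℝ) ≠ 0 := by positivity
  convert h3 using 2
  push_cast
  field_simp
  ring

end density

section gf

open PowerSeries

variable {R : Type*} [CommRing R]

/-- The series of multiples of `a`. -/
noncomputable def G (R : Type*) [CommRing R] (a : ℕ) : R⟦X⟧ :=
  PowerSeries.mk fun n => if a ∣ n then 1 else 0

lemma one_sub_mul_G (a : ℕ) (ha : 0 < a) : (1 - X ^ a) * G R a = 1 := by
  ext n
  rw [sub_mul, one_mul, map_sub, coeff_X_pow_mul', coeff_one]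
  simp only [G, coeff_mk]
  by_cases h : a ≤ n
  · have hn : n ≠ 0 := by omega
    rw [if_pos h, if_neg hn]
    simp [Nat.dvd_sub_iff_left h (dvd_refl a)]
  · rw [if_neg h]
    by_cases hn : n = 0
    · simp [hn]
    · have : ¬ a ∣ n := fun hd => h (Nat.le_of_dvd (by omega) hd)
      simp [hn, this]

lemma coeff_prod_G (a : ℕ → ℕ) (k : ℕ) (ha : ∀ i, 0 < a i) (n : ℕ) :
    coeff n (∏ i ∈ range k, G R (a i)) = (pA a n k : R) := by
  classical
  rw [← Fin.prod_univ_eq_prod_range (fun i => G R (a i)) k, coeff_prod]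
  simp only [G, coeff_mk, prod_ite_zero, prod_const_one, mem_univ, forall_const]
  rw [sum_boole]
  congr 1
  unfold pA
  rw [← Nat.card_eq_finsetCard]
  refine Nat.card_congr ⟨fun l => ⟨fun i => l.1 i / a i, ?_⟩,
    fun c => ⟨Finsupp.equivFunOnFinite.symm (fun i => c.1 i * a i), ?_⟩, ?_, ?_⟩
  · have hl := l.2
    simp only [mem_filter, mem_finsuppAntidiag] at hl
    exact (sum_congr rfl fun i _ => Nat.div_mul_cancel (hl.2 i)).trans hl.1.1
  · simp only [mem_filter, mem_finsuppAntidiag]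
    refine ⟨⟨?_, subset_univ _⟩, fun i => ?_⟩
    · simpa using c.2
    · simp
  · intro l
    have hl := l.2
    simp only [mem_filter, mem_finsuppAntidiag] at hl
    ext i
    simpa using Nat.div_mul_cancel (hl.2 i)
  · intro c
    ext i
    simp [Nat.mul_div_cancel _ (ha i)]

lemma prod_mul_prod_G (a : ℕ → ℕ) (s : Finset ℕ) (ha : ∀ i, 0 < a i) :
    (∏ i ∈ s, (1 - X ^ a i)) * (∏ i ∈ s, G R (a i)) = 1 := by
  rw [← prod_mul_distrib]
  exact prod_eq_one fun i _ => one_sub_mul_G _ (ha i)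

end gf

lemma odd_iff_cast (m : ℕ) : m % 2 = 1 ↔ (m : ZMod 2) = 1 := by
  rw [← Nat.odd_iff, ZMod.natCast_eq_one_iff_odd]

lemma zmod2_cases (x : ZMod 2) : x = 0 ∨ x = 1 := by revert x; decide

open Polynomial in
lemma natDegree_one_sub_X_pow (a : ℕ) (ha : 0 < a) :
    (1 - X ^ a : (ZMod 2)[X]).natDegree = a := by
  rw [← neg_sub, natDegree_neg, ← C_1, natDegree_X_pow_sub_C]

open Polynomial in
lemma one_sub_X_pow_ne_zero (a : ℕ) (ha : 0 < a) : (1 - X ^ a : (ZMod 2)[X]) ≠ 0 := by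
  intro h
  have := natDegree_one_sub_X_pow a ha
  rw [h] at this
  simp at this
  omega

open Polynomial in
/-- existence of the odd density. -/
theorem exists_period (a : ℕ → ℕ) (ha : ∀ i, 0 < a i) (k : ℕ) (hk : 1 ≤ k) :
    ∃ M, 0 < M ∧ ∀ n, (pA a (n + M) k % 2 = 1 ↔ pA a n k % 2 = 1) := by
  set L := ∏ i ∈ range k, a i with hL
  have hL0 : 0 < L := prod_pos fun i _ => ha i
  set M := L * 2 ^ k with hM
  have hM0 : 0 < M := by positivity
  have hdvd : (∏ i ∈ range k, (1 - X ^ a i) : (ZMod 2)[X]) ∣ 1 - X ^ M := by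
    have h1 : (∏ i ∈ range k, (1 - X ^ a i) : (ZMod 2)[X]) ∣ ∏ i ∈ range k, (1 - X ^ L) := by
      refine prod_dvd_prod_of_dvd _ _ fun i hi => ?_
      obtain ⟨m, hm⟩ : a i ∣ L := dvd_prod_of_mem _ hi
      rw [hm, pow_mul]
      simpa using sub_dvd_pow_sub_pow (1 : (ZMod 2)[X]) (X ^ a i) m
    refine h1.trans ?_
    rw [prod_const, card_range, hM, pow_mul]
    have := sub_pow_char_pow (1 : (ZMod 2)[X]) (X ^ L) k
    rw [one_pow] at this
    rw [← this]
    exact pow_dvd_pow _ Nat.lt_two_pow_self.le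
  obtain ⟨Q, hQ⟩ := hdvd
  have hQ0 : Q ≠ 0 := by
    rintro rfl
    exact one_sub_X_pow_ne_zero M hM0 (by simpa using hQ)
  have hdeg : Q.natDegree < M := by
    have := congrArg natDegree hQ
    rw [natDegree_one_sub_X_pow M hM0, natDegree_mul
      (prod_ne_zero_iff.2 fun i _ => one_sub_X_pow_ne_zero _ (ha i)) hQ0,
      natDegree_prod _ _ (fun i _ => one_sub_X_pow_ne_zero _ (ha i))] at this
    have h2 : (1 - X ^ a 0 : (ZMod 2)[X]).natDegree ≤
        ∑ i ∈ range k, (1 - X ^ a i : (ZMod 2)[X]).natDegree :=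
      single_le_sum (f := fun i => (1 - X ^ a i : (ZMod 2)[X]).natDegree)
        (fun _ _ => Nat.zero_le _) (mem_range.2 hk)
    rw [natDegree_one_sub_X_pow _ (ha 0)] at h2
    have := ha 0
    omega
  refine ⟨M, hM0, fun n => ?_⟩
  have hps : (1 - PowerSeries.X ^ M) * (∏ i ∈ range k, G (ZMod 2) (a i)) =
      (Q : PowerSeries (ZMod 2)) := by
    have := congrArg (Polynomial.coeToPowerSeries.ringHom (R := ZMod 2)) hQ
    simp only [map_sub, map_one, map_pow, map_mul, map_prod,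
      Polynomial.coeToPowerSeries.ringHom_apply, Polynomial.coe_X] at this
    rw [this, mul_right_comm, prod_mul_prod_G a _ ha, one_mul]
  have := congrArg (PowerSeries.coeff (n + M)) hps
  rw [sub_mul, one_mul, map_sub, PowerSeries.coeff_X_pow_mul, coeff_prod_G a k ha,
    coeff_prod_G a k ha, Polynomial.coeff_coe,
    Polynomial.coeff_eq_zero_of_natDegree_lt (by omega), sub_eq_zero] at this
  rw [odd_iff_cast, odd_iff_cast, this]

theorem exists_density (a : ℕ → ℕ) (ha : ∀ i, 0 < a i) (k : ℕ) (hk : 1 ≤ k) :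
    ∃ δ, HasOddDensity a k δ := by
  obtain ⟨M, hM, h⟩ := exists_period a ha k hk
  exact ⟨_, tendsto_count_of_periodic (fun n => pA a n k % 2 = 1) M hM h⟩

/-! ### The sequence 1, 2, 4, 8, 16, 24, 32, ... -/

/-- The sequence `1, 2, 4, 8, 16, 24, 32, 40, …`. -/
def seqA (i : ℕ) : ℕ := if i < 3 then 2 ^ i else 8 * (i - 2)

lemma seqA_pos (i : ℕ) : 0 < seqA i := by
  unfold seqA
  split_ifs
  · positivity
  · omega

open PowerSeries in
lemma sup_mul {R : Type*} [CommRing R] (d : ℕ) (f g : R⟦X⟧)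
    (hf : ∀ n, ¬ d ∣ n → coeff n f = 0) (hg : ∀ n, ¬ d ∣ n → coeff n g = 0) :
    ∀ n, ¬ d ∣ n → coeff n (f * g) = 0 := by
  intro n hn
  rw [coeff_mul]
  refine sum_eq_zero fun p hp => ?_
  rw [HasAntidiagonal.mem_antidiagonal] at hp
  by_cases h1 : d ∣ p.1
  · have : ¬ d ∣ p.2 := fun h2 => hn (hp ▸ dvd_add h1 h2)
    rw [hg _ this, mul_zero]
  · rw [hf _ h1, zero_mul]

open PowerSeries in
lemma seqA_form (k : ℕ) : ∃ H : (ZMod 2)⟦X⟧, (∀ n, ¬ 8 ∣ n → coeff n H = 0) ∧
    ∏ i ∈ range (k + 3), G (ZMod 2) (seqA i) = (1 + X) * H := by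
  induction k with
  | zero =>
    refine ⟨G (ZMod 2) 8, fun n hn => by simp [G, hn], ?_⟩
    have h1 := prod_mul_prod_G (R := ZMod 2) seqA (range 3) seqA_pos
    have h2 := one_sub_mul_G (R := ZMod 2) 8 (by norm_num)
    have h3 : (∏ i ∈ range 3, (1 - X ^ seqA i) : (ZMod 2)⟦X⟧) * (1 + X) = 1 - X ^ 8 := by
      have h2' : (2 : (ZMod 2)⟦X⟧) = 0 := by
        rw [← map_ofNat (C (R := ZMod 2)) 2, show (OfNat.ofNat 2 : ZMod 2) = 0 from rfl, map_zero]
      simp only [prod_range_succ, range_zero, prod_empty, seqA]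
      norm_num
      linear_combination (-X ^ 2 + X ^ 6 - X ^ 8 + X ^ 8) * h2' + 0
    calc ∏ i ∈ range (0 + 3), G (ZMod 2) (seqA i)
        = (∏ i ∈ range 3, G (ZMod 2) (seqA i)) * ((1 - X ^ 8) * G (ZMod 2) 8) := by
          rw [h2, mul_one]
      _ = ((∏ i ∈ range 3, (1 - X ^ seqA i)) * ∏ i ∈ range 3, G (ZMod 2) (seqA i)) *
            ((1 + X) * G (ZMod 2) 8) := by rw [← h3]; ring
      _ = _ := by rw [h1, one_mul]
  | succ k ih =>
    obtain ⟨H, h1, h2⟩ := ih
    refine ⟨H * G (ZMod 2) (seqA (k + 3)), sup_mul 8 _ _ h1 fun n hn => ?_, ?_⟩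
    · have : ¬ seqA (k + 3) ∣ n := by
        intro h
        refine hn (dvd_trans ?_ h)
        simp [seqA]
      simp [G, this]
    · rw [show k + 1 + 3 = (k + 3) + 1 by ring, prod_range_succ, h2, mul_assoc]

lemma seqA_odd (k n : ℕ) (hk : 3 ≤ k) (h : pA seqA n k % 2 = 1) : n % 8 < 2 := by
  obtain ⟨k, rfl⟩ : ∃ j, k = j + 3 := ⟨k - 3, by omega⟩
  obtain ⟨H, h1, h2⟩ := seqA_form k
  rw [odd_iff_cast, ← coeff_prod_G seqA _ seqA_pos, h2] at h
  by_contra hn
  obtain ⟨m, rfl⟩ : ∃ m, n = m + 1 := ⟨n - 1, by omega⟩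
  rw [add_mul, one_mul, map_add, PowerSeries.coeff_succ_X_mul, h1 _ (by omega),
    h1 _ (by omega)] at h
  simp at h

lemma seqA_density_le (k : ℕ) (hk : 3 ≤ k) (δ : ℝ) (h : HasOddDensity seqA k δ) : δ ≤ 1 / 4 := by
  have h1 := tendsto_count_of_periodic (fun n => n % 8 < 2) 8 (by norm_num)
    (fun n => by simp)
  have h2 : ((Nat.count (fun n => n % 8 < 2) 8 : ℝ) / (8 : ℕ)) = 1 / 4 := by
    rw [show Nat.count (fun n => n % 8 < 2) 8 = 2 by decide]
    norm_num
  rw [h2] at h1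
  refine le_of_tendsto_of_tendsto' h h1 fun N => ?_
  refine div_le_div_of_nonneg_right ?_ (Nat.cast_nonneg _)
  exact_mod_cast card_le_card (monotone_filter_right _ fun n _ hn => seqA_odd k n hk hn)

/-! ### The family with density one half -/

open Polynomial in
lemma family_dvd (a : ℕ → ℕ) (h1 : Odd (a 1)) (h2 : ∀ j, ∃ o, Odd o ∧ a (j + 2) = 2 ^ j * o)
    (k : ℕ) : ∃ L, Odd L ∧ ∃ Q : (ZMod 2)[X], Q.eval 1 = 1 ∧
      (1 - X ^ (2 ^ k * L) : (ZMod 2)[X]) = (∏ i ∈ range (k + 1), (1 - X ^ a (i + 1))) * Q := by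
  induction k with
  | zero => exact ⟨a 1, h1, 1, by simp, by simp⟩
  | succ k ih =>
    obtain ⟨L, hL, Q, hQ1, hQ⟩ := ih
    obtain ⟨o, ho, hao⟩ := h2 k
    refine ⟨L * o, hL.mul ho,
      Q * (∑ i ∈ range o, (X ^ (2 ^ k * L)) ^ i) * (∑ i ∈ range L, (X ^ (2 ^ k * o)) ^ i), ?_, ?_⟩
    · simp only [eval_mul, hQ1, eval_finset_sum, eval_pow, eval_X, one_pow, sum_const,
        card_range, nsmul_eq_mul, mul_one, one_mul]
      rw [ZMod.natCast_eq_one_iff_odd.2 ho, ZMod.natCast_eq_one_iff_odd.2 hL, one_mul]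
    · rw [prod_range_succ, hao]
      have e1 := mul_neg_geom_sum (X ^ (2 ^ k * L) : (ZMod 2)[X]) o
      have e2 := mul_neg_geom_sum (X ^ (2 ^ k * o) : (ZMod 2)[X]) L
      have e3 : (1 - X ^ (2 ^ (k + 1) * (L * o)) : (ZMod 2)[X]) =
          (1 - (X ^ (2 ^ k * L)) ^ o) * (1 - (X ^ (2 ^ k * o)) ^ L) := by
        rw [← pow_mul, ← pow_mul, show 2 ^ k * o * L = 2 ^ k * L * o by ring, ← sq,
          sub_pow_char, one_pow, ← pow_mul]
        congr 2
        ring
      rw [e3, ← e1, ← e2, hQ]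
      ring

open Polynomial in
lemma family_density (a : ℕ → ℕ) (h0 : a 0 = 1) (h1 : Odd (a 1))
    (h2 : ∀ j, ∃ o, Odd o ∧ a (j + 2) = 2 ^ j * o) (k : ℕ) (hk : 2 ≤ k) :
    HasOddDensity a k (1 / 2) := by
  have ha : ∀ i, 0 < a i := by
    intro i
    match i with
    | 0 => omega
    | 1 => exact h1.pos
    | j + 2 =>
      obtain ⟨o, ho, hao⟩ := h2 j
      have := ho.pos
      rw [hao]; positivity
  obtain ⟨k, rfl⟩ : ∃ j, k = j + 2 := ⟨k - 2, by omega⟩
  obtain ⟨L, hL, Q, hQ1, hQ⟩ := family_dvd a h1 h2 k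
  set M := 2 ^ k * L with hM
  have hM0 : 0 < M := by have := hL.pos; positivity
  have hQ0 : Q ≠ 0 := by
    rintro rfl
    simp at hQ1
  have hdeg : Q.natDegree ≤ M := by
    have := congrArg natDegree hQ
    rw [natDegree_one_sub_X_pow M hM0, natDegree_mul
      (prod_ne_zero_iff.2 fun i _ => one_sub_X_pow_ne_zero _ (ha _)) hQ0] at this
    omega
  have hps : (1 - PowerSeries.X ^ M) * (∏ i ∈ range (k + 2), G (ZMod 2) (a i)) =
      (Q : PowerSeries (ZMod 2)) * G (ZMod 2) 1 := by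
    have := congrArg (Polynomial.coeToPowerSeries.ringHom (R := ZMod 2)) hQ
    simp only [map_sub, map_one, map_pow, map_mul, map_prod,
      Polynomial.coeToPowerSeries.ringHom_apply, Polynomial.coe_X] at this
    have h3 := prod_mul_prod_G (R := ZMod 2) (fun i => a (i + 1)) (range (k + 1)) (fun i => ha _)
    rw [this, prod_range_succ' (fun i => G (ZMod 2) (a i)), h0]
    linear_combination ((Q : PowerSeries (ZMod 2)) * G (ZMod 2) 1) * h3
  refine tendsto_count_of_antiperiodic (fun n => pA a n (k + 2) % 2 = 1) M hM0 fun n => ?_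
  have := congrArg (PowerSeries.coeff (n + M)) hps
  rw [sub_mul, one_mul, map_sub, PowerSeries.coeff_X_pow_mul, coeff_prod_G a _ ha,
    coeff_prod_G a _ ha, PowerSeries.coeff_mul] at this
  have h4 : ∑ p ∈ antidiagonal (n + M), PowerSeries.coeff p.1 (Q : PowerSeries (ZMod 2)) *
      PowerSeries.coeff p.2 (G (ZMod 2) 1) = 1 := by
    simp only [G, PowerSeries.coeff_mk, one_dvd, if_true, mul_one, Polynomial.coeff_coe]
    rw [Finset.Nat.sum_antidiagonal_eq_sum_range_succ (fun i _ => Q.coeff i), ← hQ1,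
      eval_eq_sum_range' (n := n + M + 1) (by omega)]
    simp
  rw [h4] at this
  simp only [odd_iff_cast]
  rcases zmod2_cases (pA a n (k + 2) : ZMod 2) with h | h <;>
  rcases zmod2_cases (pA a (n + M) (k + 2) : ZMod 2) with h' | h' <;>
  rw [h, h'] at this ⊢ <;> revert this <;> decide

end Pool.Agent.H60.ColPart
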