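import Mathlib

set_option autoImplicit false

open MeasureTheory FourierTransform SchwartzMap

namespace Pool.Agent.H60.Cova

variable {E : Type*} [NormedAddCommGroup E] [InnerProductSpace ℝ E] [FiniteDimensional ℝ E]
  [MeasurableSpace E] [BorelSpace E]

theorem fourier_cont {f : E → ℂ} (hf : Integrable f) : Continuous (𝓕 f) :=
  VectorFourier.fourierIntegral_continuous Real.continuous_fourierChar
    (L := innerₗ E) continuous_inner hf

theorem lp_fourier_ae {f : E → ℂ} (hf : Integrable f) (h2 : MemLp f 2 volume) :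
    ((𝓕 (h2.toLp f) : Lp ℂ 2 (volume : Measure E)) : E → ℂ) =ᵐ[volume] 𝓕 f := by
  apply ae_eq_of_integral_contDiff_smul_eq
  · exact (Lp.memLp _).locallyIntegrable (by norm_num)
  · exact (fourier_cont hf).locallyIntegrable
  intro g hg hgs
  have hgs' : HasCompactSupport (fun x => (g x : ℂ)) :=
    hgs.comp_left (g := fun r : ℝ => (r : ℂ)) (by simp)
  let φ : 𝓢(E, ℂ) := hgs'.toSchwartzMap (Complex.ofRealCLM.contDiff.comp hg)
  have hφ : ∀ x, φ x = (g x : ℂ) := fun x => rfl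
  have h1 := congrArg (fun T : 𝓢'(E, ℂ) => T φ)
    (Lp.fourier_toTemperedDistribution_eq (h2.toLp f))
  simp only [TemperedDistribution.fourier_apply, Lp.toTemperedDistribution_apply] at h1
  have h3 : ∫ x, (𝓕 φ : 𝓢(E, ℂ)) x • (h2.toLp f : E → ℂ) x = ∫ x, φ x • 𝓕 f x := by
    have h4 : ∫ x, (𝓕 φ : 𝓢(E, ℂ)) x • (h2.toLp f : E → ℂ) x = ∫ x, 𝓕 (φ : E → ℂ) x • f x := by
      apply integral_congr_ae
      filter_upwards [h2.coeFn_toLp] with x hx
      rw [hx]; rfl
    rw [h4]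
    simpa using! VectorFourier.integral_fourierIntegral_smul_eq_flip (L := innerₗ E)
      Real.continuous_fourierChar continuous_inner φ.integrable hf
  rw [h3] at h1
  simp only [hφ, smul_eq_mul] at h1
  simpa [Complex.real_smul] using h1.symm

theorem plancherel {f : E → ℂ} (hf : Integrable f) (h2 : MemLp f 2 volume) :
    MemLp (𝓕 f) 2 volume ∧ ∫ x, ‖𝓕 f x‖ ^ 2 = ∫ x, ‖f x‖ ^ 2 := by
  have hae := lp_fourier_ae hf h2
  have hm : MemLp (𝓕 f) 2 volume := (Lp.memLp _).ae_eq hae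
  refine ⟨hm, ?_⟩
  have key : ∀ u : Lp ℂ 2 (volume : Measure E), ∫ x, ‖u x‖ ^ 2 = ‖u‖ ^ 2 := by
    intro u
    rw [← real_inner_self_eq_norm_sq, L2.inner_def]
    simp only [real_inner_self_eq_norm_sq]
  have e1 : ∫ x, ‖𝓕 f x‖ ^ 2 = ‖(𝓕 (h2.toLp f) : Lp ℂ 2 (volume : Measure E))‖ ^ 2 := by
    rw [← key]
    apply integral_congr_ae
    filter_upwards [hae] with x hx
    rw [hx]
  have e2 : ∫ x, ‖f x‖ ^ 2 = ‖h2.toLp f‖ ^ 2 := by
    rw [← key]
    apply integral_congr_ae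
    filter_upwards [h2.coeFn_toLp] with x hx
    rw [hx]
  rw [e1, e2, Lp.norm_fourier_eq]

end Pool.Agent.H60.Cova
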