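import Pool.Agent.H60.CovaA

set_option autoImplicit false

open MeasureTheory FourierTransform Convolution
open scoped RealInnerProductSpace

namespace Pool.Agent.H60.Cova

variable {E : Type*} [NormedAddCommGroup E] [InnerProductSpace ℝ E] [FiniteDimensional ℝ E]
  [MeasurableSpace E] [BorelSpace E]

/-- weighted indicator -/
noncomputable def w (K : Set E) (σ : E) : E → ℂ :=
  K.indicator (fun x => ((Real.exp ⟪σ, x⟫ : ℝ) : ℂ))

/-- Laplace transform of the indicator -/
noncomputable def L (K : Set E) (σ : E) : ℝ := ∫ x in K, Real.exp ⟪σ, x⟫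

/-- covariogram -/
noncomputable def cov (K : Set E) (x : E) : ENNReal := volume {y | y ∈ K ∧ y - x ∈ K}

theorem w_memLp {K : Set E} (hK : IsCompact K) (σ : E) (p : ENNReal) : MemLp (w K σ) p volume := by
  unfold w
  rw [memLp_indicator_iff_restrict hK.measurableSet]
  have hc : Continuous (fun x : E => ((Real.exp ⟪σ, x⟫ : ℝ) : ℂ)) := by fun_prop
  obtain ⟨M, hM⟩ := hK.exists_bound_of_continuousOn hc.continuousOn
  have : IsFiniteMeasure (volume.restrict K) := isFiniteMeasure_restrict.mpr hK.measure_lt_top.ne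
  refine MemLp.of_bound hc.aestronglyMeasurable M ?_
  filter_upwards [ae_restrict_mem hK.measurableSet] with x hx using hM x hx

theorem w_integrable {K : Set E} (hK : IsCompact K) (σ : E) : Integrable (w K σ) :=
  memLp_one_iff_integrable.mp (w_memLp hK σ 1)

theorem w_conv {K : Set E} (hK : IsCompact K) (σ : E) (x : E) :
    (w K σ ⋆[ContinuousLinearMap.mul ℂ ℂ] w (-K) σ) x
      = ((Real.exp ⟪σ, x⟫ * (cov K x).toReal : ℝ) : ℂ) := by
  rw [convolution_def]
  have hm : MeasurableSet {y | y ∈ K ∧ y - x ∈ K} :=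
    hK.measurableSet.inter (hK.measurableSet.preimage (measurable_id.sub_const x))
  have : (fun t => (ContinuousLinearMap.mul ℂ ℂ) (w K σ t) (w (-K) σ (x - t)))
      = Set.indicator {y | y ∈ K ∧ y - x ∈ K} (fun _ => ((Real.exp ⟪σ, x⟫ : ℝ) : ℂ)) := by
    funext t
    have hneg : x - t ∈ -K ↔ t - x ∈ K := by rw [Set.mem_neg, neg_sub]
    rw [ContinuousLinearMap.mul_apply']
    unfold w
    by_cases h1 : t ∈ K
    · by_cases h2 : t - x ∈ K
      · rw [Set.indicator_of_mem h1, Set.indicator_of_mem (hneg.mpr h2),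
          Set.indicator_of_mem (show t ∈ {y | y ∈ K ∧ y - x ∈ K} from ⟨h1, h2⟩),
          ← Complex.ofReal_mul, ← Real.exp_add, ← inner_add_right]
        simp
      · rw [Set.indicator_of_notMem (fun h => h2 (hneg.mp h)),
          Set.indicator_of_notMem (show t ∉ {y | y ∈ K ∧ y - x ∈ K} from fun h => h2 h.2),
          mul_zero]
    · rw [Set.indicator_of_notMem h1,
        Set.indicator_of_notMem (show t ∉ {y | y ∈ K ∧ y - x ∈ K} from fun h => h1 h.1),
        zero_mul]
  rw [this, integral_indicator_const _ hm]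
  simp [cov, Measure.real, mul_comm]

theorem fourier_w_zero {K : Set E} (hK : IsCompact K) (σ : E) : 𝓕 (w K σ) 0 = (L K σ : ℂ) := by
  rw [Real.fourier_eq']
  simp only [inner_zero_right, mul_zero, Complex.ofReal_zero, zero_mul, Complex.exp_zero, one_smul]
  unfold w L
  rw [integral_indicator hK.measurableSet, integral_complex_ofReal]

theorem norm_sq_w {K : Set E} (hK : IsCompact K) (σ : E) :
    ∫ x, ‖w K σ x‖ ^ 2 = L K ((2 : ℝ) • σ) := by
  unfold L
  rw [← integral_indicator hK.measurableSet]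
  congr 1
  funext x
  by_cases hx : x ∈ K
  · simp only [w, Set.indicator_of_mem hx, Complex.norm_real, Real.norm_eq_abs, sq_abs,
      real_inner_smul_left]
    rw [← Real.exp_nat_mul]; norm_num
  · simp [w, Set.indicator_of_notMem hx]

theorem L_nonneg (K : Set E) (σ : E) : 0 ≤ L K σ :=
  integral_nonneg fun _ => (Real.exp_pos _).le

theorem cs_eq {a b : E → ℝ} (ha : Continuous a) (hb : Continuous b) (ha2 : MemLp a 2 volume)
    (hb2 : MemLp b 2 volume) {A B P : ℝ} (hA : ∫ x, a x ^ 2 = A) (hB : ∫ x, b x ^ 2 = B)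
    (hP : ∫ x, a x * b x = P) (h : P ^ 2 = A * B) (x : E) : P * a x = A * b x := by
  have iA : Integrable (fun x => a x ^ 2) := ha2.integrable_sq
  have iB : Integrable (fun x => b x ^ 2) := hb2.integrable_sq
  have iP : Integrable (fun x => a x * b x) := ha2.integrable_mul hb2
  have e : (fun x => (P * a x - A * b x) ^ 2)
      = fun x => (P ^ 2 * a x ^ 2 - 2 * P * A * (a x * b x)) + A ^ 2 * b x ^ 2 := by
    funext x; ring
  have iT : Integrable (fun x => (P * a x - A * b x) ^ 2) := by
    rw [e]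
    exact ((iA.const_mul _).sub (iP.const_mul _)).add (iB.const_mul _)
  have h0 : ∫ x, (P * a x - A * b x) ^ 2 = 0 := by
    have iS : Integrable (fun x => P ^ 2 * a x ^ 2 - 2 * P * A * (a x * b x)) :=
      (iA.const_mul _).sub (iP.const_mul _)
    rw [e, integral_add iS (iB.const_mul _),
      integral_sub (iA.const_mul _) (iP.const_mul _), integral_const_mul, integral_const_mul,
      integral_const_mul, hA, hB, hP]
    linear_combination (-A) * h
  have hc : Continuous (fun x => (P * a x - A * b x) ^ 2) := by fun_prop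
  have h1 := (integral_eq_zero_iff_of_nonneg (fun x => sq_nonneg _) iT).mp h0
  have h2 := congrFun ((hc.ae_eq_iff_eq volume continuous_zero).mp h1) x
  simp only [Pi.zero_apply] at h2
  have := pow_eq_zero_iff (two_ne_zero) |>.mp h2
  linarith

theorem fourier_prod {C D : Set E} (hC : IsCompact C) (hD : IsCompact D) (hs : -C = C)
    (h : ∀ x, cov D x = cov C x) (σ ξ : E) :
    𝓕 (w D σ) ξ * 𝓕 (w (-D) σ) ξ = 𝓕 (w C σ) ξ ^ 2 := by
  rw [← Real.fourier_mul_convolution_eq (w_integrable hD σ) (w_integrable hD.neg σ), sq]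
  nth_rewrite 2 [← hs]
  rw [← Real.fourier_mul_convolution_eq (w_integrable hC σ) (w_integrable hC.neg σ)]
  have : (w D σ ⋆[ContinuousLinearMap.mul ℂ ℂ] w (-D) σ)
      = (w C σ ⋆[ContinuousLinearMap.mul ℂ ℂ] w (-C) σ) := by
    funext x
    rw [w_conv hD, w_conv hC, h]
  rw [this]

theorem L_prod {C D : Set E} (hC : IsCompact C) (hD : IsCompact D) (hs : -C = C)
    (h : ∀ x, cov D x = cov C x) (σ : E) : L D σ * L (-D) σ = L C σ ^ 2 := by
  have := fourier_prod hC hD hs h σ 0
  rw [fourier_w_zero hD, fourier_w_zero hD.neg, fourier_w_zero hC] at this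
  exact_mod_cast this

theorem L_double {C D : Set E} (hC : IsCompact C) (hD : IsCompact D) (hs : -C = C)
    (h : ∀ x, cov D x = cov C x) (σ : E) :
    L C ((2 : ℝ) • σ) * L D σ = L D ((2 : ℝ) • σ) * L (-D) σ := by
  obtain ⟨m1, p1⟩ := plancherel (w_integrable hD σ) (w_memLp hD σ 2)
  obtain ⟨m2, p2⟩ := plancherel (w_integrable hD.neg σ) (w_memLp hD.neg σ 2)
  obtain ⟨-, p3⟩ := plancherel (w_integrable hC σ) (w_memLp hC σ 2)
  rw [norm_sq_w hD] at p1
  rw [norm_sq_w hD.neg] at p2
  rw [norm_sq_w hC] at p3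
  have hP : ∫ x, ‖𝓕 (w D σ) x‖ * ‖𝓕 (w (-D) σ) x‖ = L C ((2 : ℝ) • σ) := by
    rw [← p3]
    congr 1
    funext x
    rw [← norm_mul, fourier_prod hC hD hs h, norm_pow]
  have := cs_eq (fourier_cont (w_integrable hD σ)).norm (fourier_cont (w_integrable hD.neg σ)).norm
    m1.norm m2.norm p1 p2 hP (L_prod hC hD hs h _).symm 0
  rw [fourier_w_zero hD, fourier_w_zero hD.neg, Complex.norm_real, Complex.norm_real,
    Real.norm_of_nonneg (L_nonneg _ _), Real.norm_of_nonneg (L_nonneg _ _)] at this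
  exact this

end Pool.Agent.H60.Cova
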