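import Pool.Agent.H60.CovaB

set_option autoImplicit false

open MeasureTheory ProbabilityTheory Filter Topology
open scoped RealInnerProductSpace

namespace Pool.Agent.H60.Cova

theorem dyadic {r : ℝ → ℝ} {a : ℝ} (h2 : ∀ s, r (2 * s) = 2 * r s) (hd : HasDerivAt r a 0) :
    r 1 = a := by
  have h0 : r 0 = 0 := by have := h2 0; simp at this; linarith
  have hn : ∀ n : ℕ, r ((1 / 2 : ℝ) ^ n) = (1 / 2 : ℝ) ^ n * r 1 := by
    intro n
    induction n with
    | zero => simp
    | succ n ih =>
      have := h2 ((1 / 2 : ℝ) ^ (n + 1))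
      rw [show 2 * (1 / 2 : ℝ) ^ (n + 1) = (1 / 2) ^ n by ring, ih] at this
      rw [pow_succ] at *
      linarith
  have ht : Tendsto (fun n : ℕ => (1 / 2 : ℝ) ^ n) atTop (𝓝[≠] 0) := by
    refine tendsto_nhdsWithin_iff.mpr ⟨tendsto_pow_atTop_nhds_zero_of_lt_one (by norm_num)
      (by norm_num), Eventually.of_forall fun n => ?_⟩
    simp
  have h1 := (hasDerivAt_iff_tendsto_slope_zero.mp hd).comp ht
  have h3 : ((fun t => t⁻¹ • (r (0 + t) - r 0)) ∘ fun n : ℕ => (1 / 2 : ℝ) ^ n) = fun _ => r 1 := by
    funext n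
    simp only [Function.comp, zero_add, h0, sub_zero, hn, smul_eq_mul]
    field_simp
  rw [h3] at h1
  exact tendsto_nhds_unique tendsto_const_nhds h1

variable {E : Type*} [NormedAddCommGroup E] [InnerProductSpace ℝ E] [FiniteDimensional ℝ E]
  [MeasurableSpace E] [BorelSpace E]

theorem intExp {K : Set E} (hK : IsCompact K) (σ : E) :
    integrableExpSet (fun x => ⟪σ, x⟫) (volume.restrict K) = Set.univ := by
  apply Set.eq_univ_of_forall
  intro s
  exact ContinuousOn.integrableOn_compact hK (by fun_prop)

theorem mgf_eq (K : Set E) (σ : E) (s : ℝ) :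
    mgf (fun x => ⟪σ, x⟫) (volume.restrict K) s = L K (s • σ) := by
  simp only [mgf, L, real_inner_smul_left]

theorem L_pos {K : Set E} (hK : IsCompact K) (h0 : volume K ≠ 0) (σ : E) : 0 < L K σ := by
  unfold L
  rw [setIntegral_pos_iff_support_of_nonneg_ae (Eventually.of_forall fun _ => (Real.exp_pos _).le)
    (ContinuousOn.integrableOn_compact hK (by fun_prop))]
  have : Function.support (fun x : E => Real.exp ⟪σ, x⟫) = Set.univ :=
    Set.eq_univ_of_forall fun x => (Real.exp_pos _).ne'
  rw [this, Set.univ_inter]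
  exact pos_iff_ne_zero.mpr h0

theorem hasDerivAt_logL {K : Set E} (hK : IsCompact K) (h0 : volume K ≠ 0) (σ : E) :
    HasDerivAt (fun s : ℝ => Real.log (L K (s • σ))) ⟪σ, (L K 0)⁻¹ • ∫ x in K, x⟫ 0 := by
  have h1 := hasDerivAt_mgf (X := fun x => ⟪σ, x⟫) (μ := volume.restrict K) (t := 0)
    (by rw [intExp hK]; simp)
  have h2 : mgf (fun x => ⟪σ, x⟫) (volume.restrict K) = fun s => L K (s • σ) :=
    funext (mgf_eq K σ)
  rw [h2] at h1
  have h3 := h1.log (by simpa using (L_pos hK h0 0).ne')
  convert h3 using 1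
  simp only [zero_mul, Real.exp_zero, mul_one, zero_smul, real_inner_smul_right]
  have hi : IntegrableOn (fun x : E => x) K volume :=
    ContinuousOn.integrableOn_compact hK continuousOn_id
  rw [integral_inner hi σ, div_eq_inv_mul]

theorem cov_zero (K : Set E) : cov K 0 = volume K := by
  simp [cov]

theorem L_shift {C D : Set E} (hC : IsCompact C) (hD : IsCompact D) (hs : -C = C)
    (h : ∀ x, cov D x = cov C x) (h0 : volume D ≠ 0) :
    ∃ t : E, ∀ σ, L D σ = Real.exp ⟪σ, t⟫ * L C σ := by
  have h0' : volume C ≠ 0 := by rw [← cov_zero, ← h, cov_zero]; exact h0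
  refine ⟨(L D 0)⁻¹ • (∫ x in D, x) - (L C 0)⁻¹ • ∫ x in C, x, fun σ => ?_⟩
  have hd := (hasDerivAt_logL hD h0 σ).sub (hasDerivAt_logL hC h0' σ)
  have := dyadic (r := fun s : ℝ => Real.log (L D (s • σ)) - Real.log (L C (s • σ))) ?_ hd
  · simp only [one_smul] at this
    rw [inner_sub_right, ← this, Real.exp_sub, Real.exp_log (L_pos hD h0 σ),
      Real.exp_log (L_pos hC h0' σ)]
    field_simp [(L_pos hC h0' σ).ne']
  · intro s
    simp only [mul_smul]
    set τ := s • σ
    have e1 := L_double hC hD hs h τ
    have e2 := L_prod hC hD hs h τ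
    have e3 : L C ((2 : ℝ) • τ) * L D τ ^ 2 = L D ((2 : ℝ) • τ) * L C τ ^ 2 := by
      rw [← e2]; linear_combination (L D τ) * e1
    have e4 := congrArg Real.log e3
    rw [Real.log_mul (L_pos hC h0' _).ne' (pow_pos (L_pos hD h0 _) 2).ne',
      Real.log_mul (L_pos hD h0 _).ne' (pow_pos (L_pos hC h0' _) 2).ne', Real.log_pow,
      Real.log_pow] at e4
    push_cast at e4
    linarith

theorem L_translate (C : Set E) (t σ : E) :
    L ((fun y => y + t) '' C) σ = Real.exp ⟪σ, t⟫ * L C σ := by
  unfold L
  rw [(measurePreserving_add_right volume t).setIntegral_image_emb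
    (measurableEmbedding_addRight t), ← integral_const_mul]
  congr 1
  funext x
  rw [inner_add_right, Real.exp_add, mul_comm]

theorem restrict_eq_of_L {K K' : Set E} (hK : IsCompact K) (hK' : IsCompact K')
    (h0 : volume K ≠ 0) (h0' : volume K' ≠ 0) (h : ∀ σ, L K σ = L K' σ) :
    volume.restrict K = volume.restrict K' := by
  have : IsFiniteMeasure (volume.restrict K) := isFiniteMeasure_restrict.mpr hK.measure_lt_top.ne
  have : IsFiniteMeasure (volume.restrict K') := isFiniteMeasure_restrict.mpr hK'.measure_lt_top.ne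
  apply Measure.ext_of_charFun
  funext σ
  have hm : mgf (fun x => ⟪σ, x⟫) (volume.restrict K)
      = mgf (fun x => ⟪σ, x⟫) (volume.restrict K') := by
    funext s; rw [mgf_eq, mgf_eq, h]
  have h1 := eqOn_complexMGF_of_mgf' hm (by simp [h0, h0']) (x := Complex.I)
    (by rw [intExp hK]; simp)
  simp only [complexMGF] at h1
  simp only [charFun_apply, real_inner_comm σ, mul_comm _ Complex.I]
  exact h1

theorem subset_of_restrict {K K' : Set E} (hK' : IsCompact K') (hr : closure (interior K) = K)
    (h : volume.restrict K = volume.restrict K') : K ⊆ K' := by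
  have ho : IsOpen (interior K \ K') := isOpen_interior.sdiff hK'.isClosed
  have h1 : volume.restrict K (interior K \ K') = volume.restrict K' (interior K \ K') := by rw [h]
  rw [Measure.restrict_apply ho.measurableSet, Measure.restrict_apply ho.measurableSet] at h1
  have e1 : (interior K \ K') ∩ K = interior K \ K' :=
    Set.inter_eq_left.mpr fun x hx => interior_subset hx.1
  have e2 : (interior K \ K') ∩ K' = ∅ := Set.sdiff_inter_self
  rw [e1, e2, measure_empty] at h1
  have h2 := (ho.measure_eq_zero_iff volume).mp h1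
  rw [← hr]
  exact closure_minimal (Set.sdiff_eq_empty.mp h2) hK'.isClosed

theorem main {C D : Set E} (hC : IsCompact C) (hCr : closure (interior C) = C) (c : E)
    (hc : ∀ x ∈ C, (2 : ℝ) • c - x ∈ C) (hD : IsCompact D) (hDr : closure (interior D) = D)
    (h : ∀ x, cov D x = cov C x) : ∃ t : E, D = (fun y => y + t) '' C := by
  by_cases h0 : volume D = 0
  · have h0' : volume C = 0 := by rw [← cov_zero, ← h, cov_zero]; exact h0
    have e : ∀ K : Set E, closure (interior K) = K → volume K = 0 → K = ∅ := by
      intro K hK hv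
      have : interior K = ∅ := (isOpen_interior.measure_eq_zero_iff volume).mp
        (measure_mono_null interior_subset hv)
      rw [← hK, this, closure_empty]
    exact ⟨0, by rw [e D hDr h0, e C hCr h0', Set.image_empty]⟩
  have h0' : volume C ≠ 0 := by rw [← cov_zero, ← h, cov_zero]; exact h0
  set C₀ : Set E := (fun y => y + c) ⁻¹' C with hC₀
  have hC0 : IsCompact C₀ := (Homeomorph.addRight c).isCompact_preimage.mpr hC
  have hs : -C₀ = C₀ := by
    ext x
    simp only [hC₀, Set.mem_neg, Set.mem_preimage]
    constructor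
    · intro hx
      convert hc _ hx using 1
      rw [two_smul]; abel
    · intro hx
      convert hc _ hx using 1
      rw [two_smul]; abel
  have hcov : ∀ x, cov C₀ x = cov C x := by
    intro x
    unfold cov
    rw [← measure_preimage_add_right volume c {y | y ∈ C ∧ y - x ∈ C}]
    congr 1
    ext y
    simp only [hC₀, Set.mem_preimage, Set.mem_ofPred_eq, add_sub_right_comm]
  obtain ⟨t, ht⟩ := L_shift hC0 hD hs (fun x => (h x).trans (hcov x).symm) h0
  have e : (fun y => y + t) '' C₀ = (fun y => y + (t - c)) '' C := by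
    ext y
    simp only [hC₀, Set.image_add_right, Set.mem_preimage]
    rw [show y + -t + c = y + -(t - c) by abel]
  have hK : IsCompact ((fun y => y + (t - c)) '' C) := hC.image (by fun_prop)
  have hv : volume ((fun y => y + (t - c)) '' C) ≠ 0 := by
    rw [Set.image_add_right, measure_preimage_add_right]; exact h0'
  have hr := restrict_eq_of_L hD hK h0 hv (fun σ => by rw [ht, ← e, L_translate])
  have hKr : closure (interior ((fun y => y + (t - c)) '' C)) = (fun y => y + (t - c)) '' C := by
    have := (Homeomorph.addRight (t - c)).image_interior C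
    have h2 := (Homeomorph.addRight (t - c)).image_closure (interior C)
    simp only [Homeomorph.coe_addRight] at this h2
    rw [← this, ← h2, hCr]
  exact ⟨t - c, Set.Subset.antisymm (subset_of_restrict hK hDr hr)
    (subset_of_restrict hD hKr hr.symm)⟩

theorem cov_eq (K : Set E) (x : E) : volume (K ∩ ((fun y => y + x) '' K)) = cov K x := by
  unfold cov
  congr 1
  ext y
  simp [sub_eq_add_neg]

end Pool.Agent.H60.Cova
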