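import Mathlib

namespace Pool.Agent.H60.Crit

variable (G : Type) [AddCommGroup G] [Fintype G] [DecidableEq G]

/-- `Σ A`: all subset sums of `A`. -/
def sums (A : Finset G) : Finset G := A.powerset.image fun B => ∑ b ∈ B, b

/-- `Σ* A`: all sums of nonempty subsets of `A`. -/
def sumsStar (A : Finset G) : Finset G := (A.powerset.erase ∅).image fun B => ∑ b ∈ B, b

/-- `c_0(G)`. -/
noncomputable def c0 : ℕ :=
  sInf {m | ∀ A : Finset G, (0 : G) ∉ A → m ≤ A.card → sums G A = Finset.univ}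

/-- the critical number `c(G)`. -/
noncomputable def c : ℕ :=
  sInf {m | ∀ A : Finset G, (0 : G) ∉ A → m ≤ A.card → sumsStar G A = Finset.univ}

def IsP2 (A : Finset G) : Prop := (0 : G) ∉ A ∧ A.card = c0 G - 1 ∧ sums G A ≠ Finset.univ

def IsP4 (A : Finset G) : Prop := (0 : G) ∉ A ∧ A.card = c G - 1 ∧ sumsStar G A ≠ Finset.univ

end Pool.Agent.H60.Crit
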