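import Mathlib

namespace Pool.Agent.H60.CubicSq

open Polynomial

lemma monic_p : (X ^ 3 - X + 3 : ℤ[X]).Monic := by monicity!

lemma deg_p : (X ^ 3 - X + 3 : ℤ[X]).natDegree = 3 := by compute_degree!

lemma irred_p : Irreducible (X ^ 3 - X + 3 : ℤ[X]) := by
  rw [monic_p.irreducible_iff_roots_eq_zero_of_degree_le_three (by rw [deg_p]; norm_num)
    (by rw [deg_p]), Multiset.eq_zero_iff_forall_notMem]
  intro n hn
  rw [mem_roots monic_p.ne_zero, IsRoot.def] at hn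
  simp only [eval_add, eval_sub, eval_pow, eval_X, eval_ofNat] at hn
  have h2 : ((n ^ 3 - n + 3 : ℤ) : ZMod 2) = 0 := by rw [hn]; simp
  push_cast at h2
  generalize (n : ZMod 2) = x at h2
  revert x
  decide

lemma descent (P : ℤ) (h3 : 3 ∣ P) (h9 : ¬ 9 ∣ P) :
    ∀ (D : ℕ), D ≠ 0 → ∀ U V : ℤ, P * D ^ 2 ≠ U ^ 2 + V ^ 2 := by
  intro D
  induction D using Nat.strong_induction_on with
  | _ D ih =>
    intro hD U V h
    have h1 : ((U : ZMod 3) ^ 2 + (V : ZMod 3) ^ 2) = 0 := by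
      have : ((U ^ 2 + V ^ 2 : ℤ) : ZMod 3) = 0 := by
        rw [← h, ZMod.intCast_zmod_eq_zero_iff_dvd]
        exact Dvd.dvd.mul_right h3 _
      exact_mod_cast this
    have h2 : ∀ x y : ZMod 3, x ^ 2 + y ^ 2 = 0 → x = 0 ∧ y = 0 := by decide
    obtain ⟨hU, hV⟩ := h2 _ _ h1
    rw [ZMod.intCast_zmod_eq_zero_iff_dvd] at hU hV
    obtain ⟨U', rfl⟩ := hU
    obtain ⟨V', rfl⟩ := hV
    obtain ⟨P', rfl⟩ := h3
    have h4 : (3 : ℤ) ∣ P' * D ^ 2 := ⟨U' ^ 2 + V' ^ 2, by push_cast at h; linarith⟩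
    have hp : Prime (3 : ℤ) := Int.prime_three
    rcases hp.dvd_or_dvd h4 with h5 | h5
    · exact h9 (by obtain ⟨c, rfl⟩ := h5; exact ⟨c, by ring⟩)
    · have h6 : (3 : ℤ) ∣ D := hp.dvd_of_dvd_pow h5
      have h7 : 3 ∣ D := by exact_mod_cast h6
      obtain ⟨D', rfl⟩ := h7
      refine ih D' (by omega) (by omega) U' V' ?_
      push_cast at h
      linarith

lemma not_sum_sq (P : ℤ) (h3 : 3 ∣ P) (h9 : ¬ 9 ∣ P) (u v : ℚ) : (P : ℚ) ≠ u ^ 2 + v ^ 2 := by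
  intro h
  refine descent P h3 h9 (u.den * v.den) (mul_ne_zero u.den_nz v.den_nz)
    (u.num * v.den) (v.num * u.den) ?_
  have hu : (u.num : ℚ) = u * u.den := (Rat.mul_den_eq_num u).symm
  have hv : (v.num : ℚ) = v * v.den := (Rat.mul_den_eq_num v).symm
  have : (P : ℚ) * ((u.den : ℚ) * v.den) ^ 2 = (u.num * v.den) ^ 2 + (v.num * u.den) ^ 2 := by
    rw [h, hu, hv]; ring
  exact_mod_cast this

lemma good_value : ∀ (n : ℕ) (a b c : ℤ), a.natAbs = n → a ≠ 0 →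
    ∃ (x : ℚ) (m : ℤ), a * x ^ 2 + b * x + c = m ∧ m % 9 ≠ 2 ∧ m % 9 ≠ 3 ∧ m % 9 ≠ 4 := by
  intro n
  induction n using Nat.strong_induction_on with
  | _ n ih =>
    intro a b c hn ha
    by_cases h : 9 ∣ a ∧ 3 ∣ b
    · obtain ⟨⟨a', rfl⟩, ⟨b', rfl⟩⟩ := h
      obtain ⟨x, m, h1, h2⟩ := ih a'.natAbs (by omega) a' b' c rfl (by omega)
      exact ⟨x / 3, m, by push_cast; linear_combination h1, h2⟩
    · by_contra hc
      push Not at hc
      have h0 := hc 0 c (by ring)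
      have h1 := hc 1 (a + b + c) (by push_cast; ring)
      have h2 := hc (-1) (a - b + c) (by push_cast; ring)
      have h3 := hc 3 (9 * a + 3 * b + c) (by push_cast; ring)
      have h4 := hc 4 (16 * a + 4 * b + c) (by push_cast; ring)
      omega

theorem main (q₀ q₁ q₂ : ℚ[X]) (hd : q₀.natDegree = 2)
    (hi : ∀ n : ℤ, ∃ m : ℤ, q₀.eval (n : ℚ) = m) :
    ((X ^ 3 - X + 3 : ℤ[X]).map (Int.castRingHom ℚ)).comp q₀ ≠ q₁ ^ 2 + q₂ ^ 2 := by
  intro h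
  have hev : ∀ x : ℚ, q₀.eval x = q₀.coeff 2 * x ^ 2 + q₀.coeff 1 * x + q₀.coeff 0 := by
    intro x
    rw [eval_eq_sum_range, hd]
    simp only [Finset.sum_range_succ, Finset.range_zero, Finset.sum_empty]
    ring
  have hlead : q₀.coeff 2 ≠ 0 := by
    rw [← hd]
    refine leadingCoeff_ne_zero.2 ?_
    rintro rfl
    simp at hd
  obtain ⟨c, hc⟩ := hi 0
  obtain ⟨d, hd1⟩ := hi 1
  obtain ⟨e, he⟩ := hi (-1)
  rw [hev] at hc hd1 he
  push_cast at hc hd1 he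
  have ha : (2 * (d + e - 2 * c) : ℤ) ≠ 0 := by
    intro h0
    have : (2 * (d + e - 2 * c) : ℚ) = 0 := by exact_mod_cast h0
    exact hlead (by linear_combination (1 / 4) * this + (1 / 2) * (hd1 + he) - hc)
  obtain ⟨x, m, h1, h2⟩ := good_value _ (2 * (d + e - 2 * c)) (d - e) c rfl ha
  have hm : q₀.eval (2 * x) = m := by
    rw [hev, ← h1]
    push_cast
    linear_combination (2 * x ^ 2) * (hd1 + he - 2 * hc) + x * (hd1 - he) + hc
  have := congrArg (eval (2 * x)) h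
  simp only [eval_comp, hm, Polynomial.map_add, Polynomial.map_sub, Polynomial.map_pow, map_X,
    Polynomial.map_ofNat, eval_add, eval_sub, eval_pow, eval_X, eval_ofNat] at this
  have key : ∀ r : ℤ, 0 ≤ r → r < 9 → r ≠ 2 → r ≠ 3 → r ≠ 4 →
      (r ^ 3 - r + 3) % 3 = 0 ∧ (r ^ 3 - r + 3) % 9 ≠ 0 := by
    intro r h0 h9 _ _ _
    interval_cases r <;> simp_all
  obtain ⟨k1, k2⟩ := key (m % 9) (by omega) (by omega) h2.1 h2.2.1 h2.2.2
  have hcong : (9 : ℤ) ∣ (m ^ 3 - m + 3) - ((m % 9) ^ 3 - m % 9 + 3) := by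
    have : (9 : ℤ) ∣ m - m % 9 := by omega
    have h5 := this.mul_right (m ^ 2 + m * (m % 9) + (m % 9) ^ 2 - 1)
    have h6 : (m ^ 3 - m + 3) - ((m % 9) ^ 3 - m % 9 + 3) =
        (m - m % 9) * (m ^ 2 + m * (m % 9) + (m % 9) ^ 2 - 1) := by
      generalize m % 9 = r
      ring
    rw [h6]
    exact h5
  refine not_sum_sq (m ^ 3 - m + 3) (by omega) (by omega) (eval (2 * x) q₁) (eval (2 * x) q₂) ?_
  push_cast
  exact this

end Pool.Agent.H60.CubicSq
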