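import Pool.Agent.H60.D6g

/- The extra regime for five factorials. -/

namespace Pool.Agent.H60.D6

open Finset Nat Chebyshev Filter Pool.Agent.H60.Hoh

theorem window_card {N : ℕ} {τ : ℝ} (hτ : 0 < τ) (Sp : Finset ℕ) (S : Finset ℕ)
    (hS : ∀ j ∈ S, ∃ c b, j ∈ Ioc c b ∧ b ≤ N ∧ τ * (b - c : ℕ) ≤ ((Ioc c b) ∩ Sp).card) :
    (S.card : ℝ) ≤ (Nat.log 2 N + 1) * (4 / τ * Sp.card) := by
  have := classes S (range (Nat.log 2 N + 1)) (fun i j => ∃ c b, j ∈ Ioc c b ∧ Nat.log 2 (b - c) = i ∧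
    τ * (b - c : ℕ) ≤ ((Ioc c b) ∩ Sp).card) (4 / τ * Sp.card) (fun j hj => by
      obtain ⟨c, b, h1, h2, h3⟩ := hS j hj
      exact ⟨_, mem_range.2 (Nat.lt_succ_of_le (Nat.log_mono_right (show b - c ≤ N by omega))),
        c, b, h1, rfl, h3⟩) (fun i _ S' _ hS' => by
      set H := 2 ^ i
      have hH : (0 : ℝ) < H := by positivity
      have key := Finset.card_nsmul_le_card_nsmul (s := S') (t := Sp)
        (fun j n => n < j + 2 * H ∧ j < n + 2 * H) (m := τ * (H : ℝ)) (n := 4 * (H : ℝ))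
        (fun j hj => by
          obtain ⟨c, b, h1, h3, h4⟩ := hS' j hj
          have h1 := mem_Ioc.1 h1
          have a1 : H ≤ b - c := by
            have := Nat.pow_log_le_self 2 (show b - c ≠ 0 by omega)
            rwa [h3] at this
          have a2 : b - c < 2 * H := by
            have := Nat.lt_pow_succ_log_self (b := 2) (by norm_num) (b - c)
            rw [h3, pow_succ] at this; omega
          have a3 : (H : ℝ) ≤ (b - c : ℕ) := by exact_mod_cast a1
          refine (mul_le_mul_of_nonneg_left a3 (by positivity)).trans (h4.trans ?_)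
          norm_cast
          apply card_le_card
          intro n hn
          obtain ⟨h5, h6⟩ := mem_inter.1 hn
          have h5 := mem_Ioc.1 h5
          simp only [bipartiteAbove, mem_filter]
          exact ⟨h6, by omega⟩)
        (fun n hn => by
          have : (S'.bipartiteBelow (fun j n => n < j + 2 * H ∧ j < n + 2 * H) n).card ≤
              (Ico (n - 2 * H) (n + 2 * H)).card := by
            apply card_le_card
            intro j hj
            simp only [bipartiteBelow, mem_filter, mem_Ico] at hj ⊢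
            omega
          rw [Nat.card_Ico] at this
          exact_mod_cast (show _ ≤ 4 * H by omega))
      simp only [nsmul_eq_mul] at key
      rw [div_mul_eq_mul_div, le_div_iff₀ hτ]
      nlinarith)
  simpa using this

theorem sw (S P : Finset ℕ) (f : ℕ → ℕ) : ∑ n ∈ S, ∑ q ∈ P.filter (· ∣ f n), Real.log q =
    ∑ q ∈ P, ((S.filter (fun n => q ∣ f n)).card : ℝ) * Real.log q := by
  simp only [sum_filter]
  rw [sum_comm]
  refine sum_congr rfl fun q _ => ?_
  rw [← sum_filter, sum_const, nsmul_eq_mul]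

theorem oddmass2 {n0 g M : ℕ} (h0 : Odd n0) (h : ∀ i < g, ∀ q, q.Prime → q ∣ sp (n0 + 2 * i) → q ≤ M) :
    ∑ i ∈ range g, Real.log (sp (n0 + 2 * i)) ≤ g * Real.log g + Real.log 4 * M := by
  set Q := PR 0 M
  have hQ : ∀ q ∈ Q, q.Prime := fun q hq => ((mem_PR le_rfl).1 hq).1
  have p0 := h0.pos
  have e1 : ∀ i ∈ range g, Real.log (sp (n0 + 2 * i)) ≤ ∑ q ∈ Q.filter (· ∣ n0 + 2 * i), Real.log q := by
    intro i hi
    rw [log_sf (sp_sqf (by omega))]
    refine sum_le_sum_of_subset_of_nonneg ?_ fun q _ _ => Real.log_natCast_nonneg q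
    intro q hq
    have hp := Nat.prime_of_mem_primeFactors hq
    have hd := Nat.dvd_of_mem_primeFactors hq
    exact mem_filter.2 ⟨(mem_PR le_rfl).2 ⟨hp, by exact_mod_cast hp.pos, h i (mem_range.1 hi) q hp hd⟩,
      hd.trans (sp_dvd (by omega))⟩
  refine (sum_le_sum e1).trans ?_
  rw [sw]
  have e2 : ∑ q ∈ Q, (((range g).filter (fun i => q ∣ n0 + 2 * i)).card : ℝ) * Real.log q ≤
      ∑ q ∈ Q, (((Ioc 0 g).filter (fun n => q ∣ id n)).card : ℝ) * Real.log q + ∑ q ∈ Q, Real.log q := by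
    rw [← sum_add_distrib]
    refine sum_le_sum fun q hq => ?_
    have hp := hQ q hq
    have a0 := spaced ((range g).filter (fun i => q ∣ n0 + 2 * i)) g 1 q one_pos hp.pos
      (fun j hj => (mem_range.1 (mem_filter.1 hj).1).le) (fun j hj j' hj' hlt => by
        right
        have b1 := (mem_filter.1 hj).2
        have b2 := Nat.dvd_sub (mem_filter.1 hj').2 b1
        rw [show n0 + 2 * j' - (n0 + 2 * j) = 2 * (j' - j) by omega] at b2
        rcases hp.dvd_mul.1 b2 with b3 | b3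
        · rw [(Nat.prime_dvd_prime_iff_eq hp Nat.prime_two).1 b3] at b1
          obtain ⟨r, hr⟩ := h0
          omega
        · exact Nat.le_of_dvd (by omega) b3)
    have a1 : (((range g).filter (fun i => q ∣ n0 + 2 * i)).card : ℝ) ≤
        ((Ioc 0 g).filter (fun n => q ∣ id n)).card + 1 := by
      simp only [id, Nat.Ioc_filter_dvd_card_eq_div]
      exact_mod_cast (by simpa using a0)
    nlinarith [Real.log_natCast_nonneg q]
  have e3 : ∑ q ∈ Q, (((Ioc 0 g).filter (fun n => q ∣ id n)).card : ℝ) * Real.log q ≤ g * Real.log g := by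
    rw [← sw]
    have := Finset.sum_le_card_nsmul (Ioc 0 g) (fun n => ∑ q ∈ Q.filter (· ∣ id n), Real.log q) (Real.log g)
      (fun n hn => by
        have hn := mem_Ioc.1 hn
        exact (mass1 _ (fun q hq => hQ q (mem_filter.1 hq).1) hn.1.ne' (fun q hq => (mem_filter.1 hq).2)).trans
          (Real.log_le_log (by exact_mod_cast hn.1) (by exact_mod_cast hn.2)))
    simpa using this
  linarith [theta_nat M]

theorem R4_many {N j a b c K Y : ℕ} {β : ℝ} (hβ : 0 < β) (hβ1 : β ≤ 1) (hK : 1 ≤ K)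
    (hL : Real.log 4 * (3 * (2 * K + 1)) ≤ β / 4 * Real.log N) (hY : (1 - β / 2) * Real.log N ≤ Real.log Y)
    (R : Rep (2 * j) a b c 0) (hj : j ∈ Ioc c b) (hg : 2 ≤ 2 * j - a) (hh : b - c ≤ K * (2 * j - a))
    (hl : Real.log (2 * j - a : ℕ) ≤ (1 - β) * Real.log N) :
    β / 12 * (2 * j - a : ℕ) ≤ ((Ioc a (2 * j)).filter (fun n => sp n ≤ Y)).card := by
  set g := 2 * j - a with hg'
  set g' := g / 2
  set n0 := 2 * j + 1 - 2 * g'
  have hj' := mem_Ioc.1 hj
  have hgK : g ≤ K * g := Nat.le_mul_of_pos_left _ hK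
  have h1 := oddmass2 (n0 := n0) (g := g') (M := (2 * K + 1) * g) ⟨j - g', by omega⟩ (fun i hi q hq hd => by
    by_contra hc
    rw [add_mul, mul_assoc] at hc
    have hn : n0 + 2 * i ∈ Ioc a (2 * j) := mem_Ioc.2 ⟨by omega, by omega⟩
    have h6 := hd.trans (sp_dvd (by omega))
    have e := R.par q
    rw [sv_single hn h6 (by omega), sv_lt (w := 0) hq.pos] at e
    have o := sp_odd (by omega) hq hd
    obtain ⟨n, hn', h7⟩ := sv_ex (q := q) (u := c) (w := b)
      fun h8 => by rw [h8] at e; simp at e; exact (Nat.not_even_iff_odd.2 o) e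
    have := mem_Ioc.1 hn'
    rcases le_total (2 * n) (n0 + 2 * i) with h | h
    · have := Nat.le_of_dvd (by omega) (Nat.dvd_sub h6 (h7.mul_left 2))
      omega
    · have := Nat.le_of_dvd (by omega) (Nat.dvd_sub (h7.mul_left 2) h6)
      omega)
  have l4 : 0 < Real.log 4 := Real.log_pos (by norm_num)
  have hL0 : 0 < Real.log N := by
    have : 0 < Real.log 4 * (3 * (2 * K + 1)) := by positivity
    nlinarith
  set L := Real.log N
  have h3 := card_filter_add_card_filter_not (s := range g') (fun i => sp (n0 + 2 * i) ≤ Y)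
  rw [card_range] at h3
  have h2 : ((range g').filter (fun i => sp (n0 + 2 * i) ≤ Y)).card ≤
      ((Ioc a (2 * j)).filter (fun n => sp n ≤ Y)).card := by
    apply card_le_card_of_injOn (fun i => n0 + 2 * i)
    · intro i hi
      obtain ⟨a1, a2⟩ := mem_filter.1 (mem_coe.1 hi)
      have := mem_range.1 a1
      exact mem_coe.2 (mem_filter.2 ⟨mem_Ioc.2 ⟨by simp only; omega, by simp only; omega⟩, a2⟩)
    · intro i _ i' _ h
      simp only at h; omega
  set s := ((range g').filter (fun i => sp (n0 + 2 * i) ≤ Y)).card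
  set s' := ((range g').filter (fun i => ¬ sp (n0 + 2 * i) ≤ Y)).card
  have h4 : (s' : ℝ) * ((1 - β / 2) * L) ≤ ∑ i ∈ range g', Real.log (sp (n0 + 2 * i)) := by
    rw [← nsmul_eq_mul]
    refine (Finset.card_nsmul_le_sum _ _ _ fun n hn => ?_).trans
      (sum_le_sum_of_subset_of_nonneg (filter_subset _ _) fun q _ _ => Real.log_natCast_nonneg _)
    have a1 := not_le.1 (mem_filter.1 hn).2
    have a2 : 0 < Real.log Y := by nlinarith
    have a3 : (0 : ℝ) < Y := by
      rcases Nat.eq_zero_or_pos Y with rfl | h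
      · simp at a2
      · exact_mod_cast h
    exact hY.trans (Real.log_le_log a3 (by exact_mod_cast a1.le))
  have h5 : (s : ℝ) + s' = g' := by exact_mod_cast h3
  have hs0 : (0 : ℝ) ≤ s := by positivity
  have g1 : (g : ℝ) ≤ 3 * g' := by exact_mod_cast (show g ≤ 3 * g' by omega)
  have g2 : (0 : ℝ) < g' := by exact_mod_cast (show 0 < g' by omega)
  have g3 : Real.log g' ≤ (1 - β) * L :=
    (Real.log_le_log g2 (by exact_mod_cast (show g' ≤ g by omega))).trans hl
  push_cast at h1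
  have b1 := mul_le_mul_of_nonneg_left g3 g2.le
  have b2 := mul_le_mul_of_nonneg_right hL g2.le
  have b3 : Real.log 4 * ((2 * K + 1) * g) ≤ Real.log 4 * ((2 * K + 1) * (3 * g')) := by gcongr
  have b5 : (s' * (1 - β / 2)) * L ≤ (g' * (1 - 3 * β / 4)) * L := by linarith
  have b6 := le_of_mul_le_mul_right b5 hL0
  have b7 : (s' : ℝ) = g' - s := by linarith
  rw [b7] at b6
  refine le_trans ?_ (Nat.cast_le.2 h2)
  nlinarith

theorem ev_sp {β : ℝ} (hβ : 0 < β) (hβ1 : β ≤ 1) : ∀ᶠ N : ℕ in atTop,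
    (((Ioc 0 N).filter (fun n => sp n ≤ ⌈(N : ℝ) ^ (1 - β / 2)⌉₊)).card : ℝ) ≤ 9 * (N : ℝ) ^ (1 - β / 8) := by
  filter_upwards [evN (eventually_ge_atTop 1)] with N f3
  have hx : (0 : ℝ) < N := by linarith
  have c2 : ∀ s : ℝ, 0 ≤ s → (⌈(N : ℝ) ^ s⌉₊ : ℝ) ≤ 2 * (N : ℝ) ^ s := fun s hs => by
    linarith [Nat.ceil_lt_add_one (show 0 ≤ (N : ℝ) ^ s by positivity), Real.one_le_rpow f3 hs]
  have a1 := special_card N ⌈(N : ℝ) ^ (1 - β / 2)⌉₊ ⌈(N : ℝ) ^ (β / 8)⌉₊ (Nat.ceil_pos.2 (by positivity))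
  have a2 : (N : ℝ) / ⌈(N : ℝ) ^ (β / 8)⌉₊ ≤ (N : ℝ) ^ (1 - β / 8) := by
    rw [Real.rpow_sub hx, Real.rpow_one]
    exact div_le_div_of_nonneg_left hx.le (by positivity) (Nat.le_ceil _)
  have a3 : (⌈(N : ℝ) ^ (β / 8)⌉₊ : ℝ) ^ 2 * ⌈(N : ℝ) ^ (1 - β / 2)⌉₊ ≤ 8 * (N : ℝ) ^ (1 - β / 8) := by
    calc _ ≤ (2 * (N : ℝ) ^ (β / 8)) ^ 2 * (2 * (N : ℝ) ^ (1 - β / 2)) := by
          gcongr
          · exact c2 _ (by positivity)
          · exact c2 _ (by linarith)
      _ = 8 * (N : ℝ) ^ (β / 8 + β / 8 + (1 - β / 2)) := by rw [Real.rpow_add hx, Real.rpow_add hx]; ring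
      _ ≤ _ := by gcongr; linarith
  linarith

theorem ev_B4 {β : ℝ} (hβ : 0 < β) (hβ1 : β ≤ 1) {K : ℕ} (hK : 1 ≤ K) : ∀ᶠ N : ℕ in atTop, ∀ S : Finset ℕ,
    (∀ m ∈ S, ∃ j a b c, m = 2 * j ∧ Rep (2 * j) a b c 0 ∧ 2 * j ≤ N ∧ j ∈ Ioc c b ∧ 2 ≤ 2 * j - a ∧
      b - c ≤ K * (2 * j - a) ∧ Real.log (2 * j - a : ℕ) ≤ (1 - β) * Real.log N) →
      (S.card : ℝ) ≤ (N : ℝ) ^ (1 - β / 32) := by
  filter_upwards [ev_log (show 0 < β / 16 by positivity), ev_sp hβ hβ1,
    evN (ev_rpow (β / 16 + (1 - β / 8)) (1 - β / 32) (432 / β) (by linarith)),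
    evN (Real.tendsto_log_atTop.eventually_ge_atTop (Real.log 4 * (3 * (2 * K + 1)) / (β / 4))),
    evN (eventually_ge_atTop 1)] with N f0 f4 f1 f2 f3 S hS
  have hx : (0 : ℝ) < N := by linarith
  rw [div_le_iff₀' (by positivity)] at f2
  have := window_card (N := N) (show 0 < β / 12 by positivity)
    ((Ioc 0 N).filter (fun n => sp n ≤ ⌈(N : ℝ) ^ (1 - β / 2)⌉₊)) S (fun m hm => by
      obtain ⟨j, a, b, c, rfl, R, h1, h2, h3, h4, h5⟩ := hS m hm
      refine ⟨a, 2 * j, mem_Ioc.2 ⟨R.h1, le_rfl⟩, h1, (R4_many (Y := ⌈(N : ℝ) ^ (1 - β / 2)⌉₊) hβ hβ1 hK f2 (by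
        rw [← Real.log_rpow hx]
        exact Real.log_le_log (by positivity) (Nat.le_ceil _)) R h2 h3 h4 h5).trans (Nat.cast_le.2 (card_le_card ?_))⟩
      intro n hn
      simp only [mem_filter, mem_inter, mem_Ioc] at hn ⊢
      omega)
  refine this.trans (le_trans ?_ f1)
  rw [Real.rpow_add hx]
  calc _ ≤ (N : ℝ) ^ (β / 16) * (4 / (β / 12) * (9 * (N : ℝ) ^ (1 - β / 8))) := by
        gcongr
        exact f0.1
    _ = _ := by field_simp; ring

end Pool.Agent.H60.D6
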