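import Pool.Agent.H60.D5a

/- Four and five factorials. -/

namespace Pool.Agent.H60.D6

open Finset Nat Chebyshev Filter Pool.Agent.H60.Hoh

theorem mem_Ar {r N' Z' Z T m : ℕ} (hr : 0 < r) (hZ : r * Z' ≤ Z) (hm : m ∈ (AA N' Z' T).image (r * ·)) :
    ((r * N' : ℕ) : ℝ) / 2 < m ∧ m ≤ r * N' ∧ ∃ k p, m = r * k * p ∧ p.Prime ∧
      ((r * N' : ℕ) : ℝ) / (2 * Z) < p ∧ 2 ≤ k ∧ r * k ≤ Z ∧ Good T k := by
  obtain ⟨m1, h1, rfl⟩ := mem_image.1 hm
  obtain ⟨a1, a2, k, p, rfl, hp, hP, a3, a4, hk⟩ := mem_AA h1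
  have r0 : (0 : ℝ) < r := by exact_mod_cast hr
  have z0 : (0 : ℝ) < Z' := by exact_mod_cast (show 0 < Z' by omega)
  have z1 : (r : ℝ) * Z' ≤ Z := by exact_mod_cast hZ
  refine ⟨?_, Nat.mul_le_mul_left r a2, k, p, by ring, hp, lt_of_le_of_lt ?_ hP, a3,
    (Nat.mul_le_mul_left r a4).trans hZ, hk⟩
  · push_cast at a1 ⊢; nlinarith
  · push_cast
    rw [div_le_div_iff₀ (by nlinarith) (by positivity)]
    nlinarith [Nat.cast_nonneg (α := ℝ) N']

open Classical in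
theorem bad5_card {N' Z' Z T H0 W K : ℕ} {G1 G2 d0 β κ B1 B2 B4 : ℝ}
    (E : Env (2 * N') ((2 * N' : ℕ) / (2 * Z)) G1 G2 d0) (hZ : 2 * Z' ≤ Z) (hT : 2 ≤ T)
    (hW : T + H0 ≤ W) (hβ : 0 ≤ β) (hκ : 0 ≤ κ) (hH0 : T ≤ β / 12 * H0) (hK : 12 ≤ β * K)
    (hG2 : Real.log G2 ≤ (1 - β) * Real.log (2 * N' : ℕ)) (hB1 : 0 ≤ B1)
    (h1 : ∀ k l, 0 < l → l < k → k ≤ 2 * N' → ((EE (2 * N') W H0 k l).card : ℝ) ≤ B1)
    (h2 : ∀ S : Finset ℕ, (∀ j ∈ S, ∃ m a b c d, Rep m a b c d ∧ m ≤ 2 * N' ∧ j ∈ Ioc c b ∧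
      ((m - a : ℕ) : ℝ) ≤ β / 12 * (b - c : ℕ) ∧ Real.log (b - c : ℕ) ≤ (1 - β) * Real.log (2 * N' : ℕ) ∧
      d ≤ κ * (b - c : ℕ) * Real.log (2 * N' : ℕ)) → (S.card : ℝ) ≤ B2)
    (h4 : ∀ S : Finset ℕ, (∀ m ∈ S, ∃ j a b c, m = 2 * j ∧ Rep (2 * j) a b c 0 ∧ 2 * j ≤ 2 * N' ∧ j ∈ Ioc c b ∧
      2 ≤ 2 * j - a ∧ b - c ≤ K * (2 * j - a) ∧ Real.log (2 * j - a : ℕ) ≤ (1 - β) * Real.log (2 * N' : ℕ)) →
      (S.card : ℝ) ≤ B4) :
    ((((AA N' Z' T).image (2 * ·)).filter (fun m => ∃ a b c, Rep m a b c 0)).card : ℝ) ≤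
      (2 * N' : ℕ) / T + 1 + B4 + Z ^ 2 * (3 * B1 + B2) := by
  set N := 2 * N'
  set A := (AA N' Z' T).image (2 * ·)
  set Bad := A.filter (fun m => ∃ a b c, Rep m a b c 0)
  set Iso := A.filter (fun m => ∀ m' ∈ A, m' < m → T ≤ m - m')
  set S2 := (range (N + 1)).filter (fun j => ∃ m a b c d, Rep m a b c d ∧ m ≤ N ∧ j ∈ Ioc c b ∧
      ((m - a : ℕ) : ℝ) ≤ β / 12 * (b - c : ℕ) ∧
      Real.log (b - c : ℕ) ≤ (1 - β) * Real.log N ∧ d ≤ κ * (b - c : ℕ) * Real.log N)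
  set S4 := A.filter (fun m => ∃ j a b c, m = 2 * j ∧ Rep (2 * j) a b c 0 ∧ 2 * j ≤ N ∧ j ∈ Ioc c b ∧
      2 ≤ 2 * j - a ∧ b - c ≤ K * (2 * j - a) ∧ Real.log (2 * j - a : ℕ) ≤ (1 - β) * Real.log N)
  have c2 := h2 S2 fun j hj => (mem_filter.1 hj).2
  have c3 := h4 S4 fun j hj => (mem_filter.1 hj).2
  have c1 : (Iso.card : ℝ) ≤ N / T + 1 := by
    have := spaced Iso N 1 T one_pos (by omega) (fun j hj => (mem_Ar two_pos hZ (mem_filter.1 hj).1).2.1)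
      (fun j hj j' hj' h => Or.inr ((mem_filter.1 hj').2 j (mem_filter.1 hj).1 h))
    have a1 : (Iso.card : ℝ) ≤ ((N / T : ℕ) : ℝ) + 1 := by exact_mod_cast (by simpa using this)
    linarith [Nat.cast_div_le (α := ℝ) (m := N) (n := T)]
  have c4 := classes (Bad \ (Iso ∪ S4)) (Icc 1 Z ×ˢ Icc 1 Z) (fun i m => i.2 < i.1 ∧ i.1 ≤ N ∧
    m ∈ ((EE N W H0 i.1 i.2).image (· + 1) ∪ (EE N W H0 i.1 i.2).image (fun e => i.1 * ((e - 1) / i.2)) ∪
      (EE N W H0 i.1 i.2).image (fun e => i.1 * ((e + 1) / i.2))) ∪ S2.image (fun j => i.1 * (j / i.2)))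
    (3 * B1 + B2) (fun m hm => by
      obtain ⟨b1, b2⟩ := mem_sdiff.1 hm
      rw [mem_union, not_or] at b2
      obtain ⟨nI, n4⟩ := b2
      obtain ⟨hA, a, b, c, R⟩ := mem_filter.1 b1
      obtain ⟨m', hm', i1, i2⟩ : ∃ m' ∈ A, m' < m ∧ m - m' < T := by
        by_contra hc
        push Not at hc
        exact nI (mem_filter.2 ⟨hA, hc⟩)
      obtain ⟨a1, a2, k, p, rfl, hp, hP, a3, a4, hk⟩ := mem_Ar two_pos hZ hA
      obtain ⟨-, -, k', p', rfl, hp', hP', hk2, -, -⟩ := mem_Ar two_pos hZ hm'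
      obtain ⟨l, hl⟩ := detE E R a1 a2 hp (Dvd.intro_left _ rfl) hP (mem_Ioc.2 ⟨R.h1, le_rfl⟩) hp
        (Dvd.intro_left _ rfl) hP
      have := R.h1; have := R.h2
      obtain ⟨b1, b2⟩ := mem_Ioc.1 hl
      have hl0 : 0 < l := by rcases l with _ | l <;> simp at b1 ⊢
      have hlk : l < 2 * k := lt_of_mul_lt_mul_right (show l * p < 2 * k * p by omega) (Nat.zero_le _)
      have hkN : 2 * k ≤ N := le_trans (Nat.le_mul_of_pos_right _ hp.pos) a2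
      refine ⟨(2 * k, l), mem_product.2 ⟨mem_Icc.2 ⟨by omega, a4⟩, mem_Icc.2 ⟨hl0, by omega⟩⟩, hlk, hkN, ?_⟩
      have hL := E.g5
      have hC := (detC E R a1 a2 hp (Dvd.intro_left _ rfl) hP).2
      have toS2 : ((2 * k * p - a : ℕ) : ℝ) ≤ β / 12 * (b - c : ℕ) →
          2 * k * p ∈ S2.image (fun j => 2 * k * (j / l)) := fun h => by
        refine mem_image.2 ⟨l * p, mem_filter.2 ⟨mem_range.2 (by omega), _, a, b, c, 0, R, a2, hl, h, ?_, ?_⟩,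
          by rw [Nat.mul_div_cancel_left _ hl0]⟩
        · exact (Real.log_le_log (by exact_mod_cast (show 0 < b - c by omega)) hC).trans hG2
        · simp only [Nat.cast_zero]; positivity
      by_cases hg : 2 * k * p - a < T
      · by_cases hh : b - c ≤ H0
        · apply mem_union_left
          have d6 : 2 * k < p := by
            have := E.sq hP a2
            rw [sq] at this
            exact lt_of_mul_lt_mul_right this (Nat.zero_le _)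
          have hsf : Squarefree (2 * k) := (Nat.squarefree_mul ((Nat.Prime.coprime_iff_not_dvd Nat.prime_two).2
            fun h => by have := hk.rough 2 Nat.prime_two h; omega)).2 ⟨Nat.prime_two.squarefree, hk.sqf⟩
          have he : (2 * k).primeFactors.filter (· ≤ 0) = ∅ := filter_eq_empty_iff.2 fun q hq h => by
            have := (Nat.prime_of_mem_primeFactors hq).pos; omega
          obtain ⟨e, he, h⟩ := R1_mem (W := W) R a2 hp hl (by omega) hh (by omega) (Nat.zero_le _)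
            (fun h => one_one E R hsf (by rw [he]; simp) (Or.inl he) hp d6 hp.pos hl h.1 h.2)
          simp only [mem_union, mem_image]
          rcases h with h | h | h
          · exact Or.inl (Or.inl ⟨e, he, h.symm⟩)
          · exact Or.inl (Or.inr ⟨e, he, h.symm⟩)
          · exact Or.inr ⟨e, he, h.symm⟩
        · refine mem_union_right _ (toS2 ?_)
          have d1 : ((2 * k * p - a : ℕ) : ℝ) ≤ T := by exact_mod_cast hg.le
          have d2 : (H0 : ℝ) ≤ (b - c : ℕ) := by exact_mod_cast (not_le.1 hh).le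
          nlinarith
      · refine mem_union_right _ (toS2 ?_)
        by_contra hc
        obtain ⟨l', hl'⟩ := partner E R a1 a2 hp hP hl (mem_Ioc.2 ⟨by omega, i1.le⟩) hp' hP'
        have hco : Nat.Coprime k (2 * k') := by
          rw [← Nat.disjoint_primeFactors (by omega) (by omega), Finset.disjoint_left]
          intro q hq hq'
          have b1 := hk.rough q (Nat.prime_of_mem_primeFactors hq) (Nat.dvd_of_mem_primeFactors hq)
          have := Nat.le_of_dvd (by omega) (Nat.dvd_sub (((Nat.dvd_of_mem_primeFactors hq).mul_left 2).mul_right p)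
            ((Nat.dvd_of_mem_primeFactors hq').mul_right p'))
          omega
        obtain ⟨u, rfl⟩ : k ∣ l := hco.dvd_of_dvd_mul_left ⟨2 * l', by rw [← hl']; ring⟩
        obtain rfl : u = 1 := by
          rcases u with _ | _ | u
          · simp at hl0
          · rfl
          · nlinarith
        rw [mul_one] at hl
        have e : 2 * k * p = 2 * (k * p) := by ring
        have hA' := detA E R a1 a2
        refine n4 (mem_filter.2 ⟨hA, k * p, a, b, c, e, ?_⟩)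
        rw [e] at R a2 hg hA' hc
        refine ⟨R, a2, hl, by omega, ?_, ?_⟩
        · have d1 : (0 : ℝ) ≤ (2 * (k * p) - a : ℕ) := by positivity
          have d2 : (0 : ℝ) ≤ (b - c : ℕ) := by positivity
          have d3 : (0 : ℝ) ≤ K := by positivity
          have : ((b - c : ℕ) : ℝ) ≤ K * (2 * (k * p) - a : ℕ) := by nlinarith
          exact_mod_cast this
        · exact (Real.log_le_log (by exact_mod_cast (show 0 < 2 * (k * p) - a by omega))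
            (hA'.trans E.g1)).trans hG2)
    (fun i hi S' _ hS' => by
      rcases S'.eq_empty_or_nonempty with rfl | ⟨j0, hj0⟩
      · have : (0 : ℝ) ≤ S2.card := by positivity
        simp; linarith
      obtain ⟨b1, b2, -⟩ := hS' j0 hj0
      have b3 := h1 i.1 i.2 (mem_Icc.1 (mem_product.1 hi).2).1 b1 b2
      have b4 := card_le_card (show S' ⊆ _ from fun j hj => (hS' j hj).2.2)
      have b5 := b4.trans ((card_union_le _ _).trans (Nat.add_le_add ((card_union_le _ _).trans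
        (Nat.add_le_add ((card_union_le _ _).trans (Nat.add_le_add card_image_le card_image_le)) card_image_le))
        card_image_le))
      have b6 : (S'.card : ℝ) ≤ (((EE N W H0 i.1 i.2).card + (EE N W H0 i.1 i.2).card + (EE N W H0 i.1 i.2).card +
        S2.card : ℕ) : ℝ) := by exact_mod_cast b5
      push_cast at b6
      linarith)
  have c5 : (Bad.card : ℝ) ≤ (((Bad \ (Iso ∪ S4)).card + (Iso.card + S4.card) : ℕ) : ℝ) := by
    exact_mod_cast card_le_card_sdiff_add_card.trans (Nat.add_le_add_left (card_union_le _ _) _)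
  simp only [card_product, Nat.card_Icc, Nat.add_sub_cancel] at c4
  push_cast at c4 c5
  nlinarith

theorem AA_ev {β d0 ε : ℝ} (hε0 : 0 < ε) (hE : ∀ᶠ N : ℕ in atTop,
    Env N (N / (2 * (⌊(N : ℝ) ^ ε⌋₊ : ℕ))) (N ^ (1 - 2 * β)) (N ^ (1 - β)) d0) :
    ∃ T : ℕ, ∃ c : ℝ, 2 ≤ T ∧ 0 < c ∧ 2 ≤ c * T ∧ ∀ᶠ N : ℕ in atTop, 3 * c * N ≤ (AA N ⌊(N : ℝ) ^ ε⌋₊ T).card := by
  obtain ⟨t0, hG⟩ := good_sum
  obtain ⟨t, ht0, ht2⟩ : ∃ t : ℕ, t0 ≤ t ∧ (320 / ε) ^ 2 ≤ t := by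
    refine ⟨t0 + ⌈(320 / ε) ^ 2⌉₊, by omega, ?_⟩
    push_cast
    linarith [Nat.le_ceil ((320 / ε) ^ 2), Nat.cast_nonneg (α := ℝ) t0]
  have t0' : (0 : ℝ) ≤ t := by positivity
  have hs := Real.sq_sqrt (show (0 : ℝ) ≤ 2 * t + 1 by positivity)
  have hs1 : 320 / ε ≤ √(2 * t + 1) := Real.le_sqrt_of_sq_le (by linarith)
  set s := √(2 * t + 1 : ℝ)
  have hs0 : 0 < s := lt_of_lt_of_le (by positivity) hs1
  refine ⟨2 * t + 2, ε / (160 * s), by omega, by positivity, ?_, ?_⟩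
  · rw [div_le_iff₀ hε0] at hs1
    push_cast
    rw [div_mul_eq_mul_div, le_div_iff₀ (by positivity)]; nlinarith
  filter_upwards [hE, evN (Real.tendsto_log_atTop.eventually_ge_atTop (1 / (ε / (160 * s)))),
    evN (eventually_ge_atTop 1)] with N E f5 f6
  have hx : (0 : ℝ) < N := by linarith
  set Z := ⌊(N : ℝ) ^ ε⌋₊
  have hL := E.g5
  obtain ⟨G, g1, g2⟩ := hG t ht0 Z
  have b2 := AA_card E G g1
  have b3 : ε * Real.log N ≤ Real.log (Z + 1) := by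
    rw [← Real.log_rpow hx]
    exact Real.log_le_log (by positivity) (Nat.lt_floor_add_one _).le
  set c := ε / (160 * s) with hc
  have hc0 : 0 < c := by positivity
  have d1 : ε * Real.log N / (8 * s) - 1 ≤ ∑ k ∈ G, (1 : ℝ) / k := by
    refine le_trans ?_ g2; gcongr
  refine le_trans ?_ ((mul_le_mul_of_nonneg_left d1 (by positivity)).trans b2)
  have d2 : N / (5 * Real.log N) * (ε * Real.log N / (8 * s) - 1) = 4 * c * N - N / (5 * Real.log N) := by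
    rw [hc]; field_simp; ring
  have d3 : N / (5 * Real.log N) ≤ c * N := by
    rw [div_le_iff₀ hc0] at f5
    rw [div_le_iff₀ (by positivity)]; nlinarith
  linarith

theorem evr {p : ℕ → Prop} {r : ℕ} (hr : 0 < r) (h : ∀ᶠ N : ℕ in atTop, p N) : ∀ᶠ N : ℕ in atTop, p (r * N) :=
  (tendsto_id.const_mul_atTop' hr).eventually h

theorem ev_Z {ε : ℝ} (hε : 0 < ε) {r : ℕ} (hr : 0 < r) : ∀ᶠ N : ℕ in atTop,
    r * ⌊(N : ℝ) ^ ε⌋₊ ≤ ⌊((r * N : ℕ) : ℝ) ^ (2 * ε)⌋₊ := by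
  filter_upwards [evN (ev_rpow ε (2 * ε) r (by linarith))] with N f1
  apply Nat.le_floor
  have a1 : (N : ℝ) ^ (2 * ε) ≤ ((r * N : ℕ) : ℝ) ^ (2 * ε) :=
    Real.rpow_le_rpow (by positivity) (Nat.cast_le.2 (Nat.le_mul_of_pos_left _ hr)) (by positivity)
  have a2 : (⌊(N : ℝ) ^ ε⌋₊ : ℝ) ≤ (N : ℝ) ^ ε := Nat.floor_le (by positivity)
  push_cast
  push_cast at a1
  nlinarith [Nat.cast_nonneg (α := ℝ) r]

open Classical in
theorem main4 : ∃ c : ℝ, 0 < c ∧ ∀ᶠ N : ℕ in atTop, c * N ≤ (((Ioc 0 (4 * N)).filter (fun m =>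
    (∃ u, m = 4 * u ∧ 2 ≤ u) ∧ ¬ ∃ a b, Rep m a b 0 0)).card : ℝ) := by
  obtain ⟨β, d0, hβ, hβ1, hd0, hE⟩ := env_ev
  obtain ⟨T, c, hT, hc, -, hA⟩ := AA_ev (show 0 < β / 8 by positivity) (hE _ (by positivity) (by linarith))
  refine ⟨3 * c, by positivity, ?_⟩
  filter_upwards [hA, evr four_pos (hE (2 * (β / 8)) (by positivity) (by linarith)),
    ev_Z (show 0 < β / 8 by positivity) four_pos] with N f1 E f2
  refine f1.trans (Nat.cast_le.2 ?_)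
  rw [← card_image_of_injective _ (mul_right_injective₀ four_ne_zero)]
  apply card_le_card
  intro m hm
  obtain ⟨a1, a2, k, p, rfl, hp, hP, a3, a4, hk⟩ := mem_Ar four_pos f2 hm
  have := hp.pos
  refine mem_filter.2 ⟨mem_Ioc.2 ⟨by positivity, a2⟩, ⟨k * p, by ring, by nlinarith⟩, ?_⟩
  rintro ⟨a, b, R⟩
  obtain ⟨b1, b2⟩ := detC E R a1 a2 hp (Dvd.intro_left _ rfl) hP
  have b3 : (p : ℝ) ≤ (b - 0 : ℕ) := by exact_mod_cast b1
  linarith [E.G2_le, E.g7]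

open Classical in
theorem main5 : ∃ c : ℝ, 0 < c ∧ ∀ᶠ N : ℕ in atTop, c * N ≤ (((Ioc 0 (2 * N)).filter (fun m =>
    (∃ u, m = 2 * u ∧ 4 ≤ u) ∧ ¬ ∃ a b c, Rep m a b c 0)).card : ℝ) := by
  obtain ⟨β, d0, hβ, hβ1, hd0, hE⟩ := env_ev
  set ε := β / 256 with hε'
  have hε : 0 < ε := by positivity
  obtain ⟨T, c, hT, hc, hcT, hA⟩ := AA_ev hε (hE _ hε (by linarith))
  obtain ⟨H0, hH0⟩ : ∃ H0 : ℕ, (T : ℝ) ≤ β / 12 * H0 :=
    ⟨⌈T / (β / 12)⌉₊, by rw [← div_le_iff₀' (by positivity)]; exact Nat.le_ceil _⟩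
  obtain ⟨K, hK⟩ : ∃ K : ℕ, 12 ≤ β * K := ⟨⌈12 / β⌉₊, by rw [← div_le_iff₀' hβ]; exact Nat.le_ceil _⟩
  have hK1 : 1 ≤ K := by
    rcases K with _ | K
    · norm_num at hK
    · omega
  refine ⟨c, hc, ?_⟩
  filter_upwards [hA, evr two_pos (hE (2 * ε) (by positivity) (by linarith)), ev_Z hε two_pos,
    evr two_pos (ev_B1 T H0 hd0), evr two_pos (ev_B2 hβ (by linarith)), evr two_pos (ev_B4 hβ (by linarith) hK1),
    evr two_pos (evN (ev_rpow (2 * ε + 2 * ε + (1 - β / 32)) 1 (12 / c) (by linarith))),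
    evr two_pos (evN (eventually_ge_atTop 1))] with N f0 E hZ f1 f2 f3 f4 f6
  have hx : (0 : ℝ) < (2 * N : ℕ) := by linarith
  have hL := E.g5
  have hW : T + H0 ≤ ⌈4 * (T + H0) * Real.log (2 * N : ℕ) + d0⌉₊ := by
    have a1 := Nat.le_ceil (4 * (T + H0) * Real.log (2 * N : ℕ) + d0)
    have a2 : (0 : ℝ) ≤ T + H0 := by positivity
    have : ((T + H0 : ℕ) : ℝ) ≤ ⌈4 * (T + H0) * Real.log (2 * N : ℕ) + d0⌉₊ := by
      rw [Nat.cast_add]; nlinarith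
    exact_mod_cast this
  have b1 := bad5_card E hZ hT hW hβ.le (by positivity) hH0 hK (Real.log_rpow hx _).le (by positivity) f1 f2 f3
  set A := (AA N ⌊(N : ℝ) ^ ε⌋₊ T).image (2 * ·)
  have b2 : A.card = (AA N ⌊(N : ℝ) ^ ε⌋₊ T).card := card_image_of_injective _ (mul_right_injective₀ two_ne_zero)
  have b4 := card_filter_add_card_filter_not (s := A) (fun m => ∃ a b c, Rep m a b c 0)
  have b5 : A.filter (fun m => ¬ ∃ a b c, Rep m a b c 0) ⊆ (Ioc 0 (2 * N)).filter (fun m =>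
      (∃ u, m = 2 * u ∧ 4 ≤ u) ∧ ¬ ∃ a b c, Rep m a b c 0) := by
    intro m hm
    obtain ⟨a0, a5⟩ := mem_filter.1 hm
    obtain ⟨a1, a2, k, p, rfl, hp, hP, a3, a4, hk⟩ := mem_Ar two_pos hZ a0
    have := hp.two_le
    exact mem_filter.2 ⟨mem_Ioc.2 ⟨by positivity, a2⟩, ⟨k * p, by ring, by nlinarith⟩, a5⟩
  refine le_trans ?_ (Nat.cast_le.2 (card_le_card b5))
  have b6 : ((A.filter (fun m => ∃ a b c, Rep m a b c 0)).card : ℝ) +
    (A.filter (fun m => ¬ ∃ a b c, Rep m a b c 0)).card = (AA N ⌊(N : ℝ) ^ ε⌋₊ T).card := by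
    exact_mod_cast b4.trans b2
  set x : ℝ := ((2 * N : ℕ) : ℝ) with hx'
  have hxN : x = 2 * N := by rw [hx']; push_cast; ring
  set Z := ⌊x ^ (2 * ε)⌋₊
  have c2 : x / T ≤ c * N := by
    rw [div_le_iff₀ (by exact_mod_cast (show 0 < T by omega)), hxN]
    nlinarith [Nat.cast_nonneg (α := ℝ) N]
  have c3 : 1 + x ^ (1 - β / 32) + (Z : ℝ) ^ 2 * (3 * x ^ (3 / 4 : ℝ) + x ^ (1 - β / 32)) ≤ c * N := by
    have d1 : x ^ (3 / 4 : ℝ) ≤ x ^ (1 - β / 32) := Real.rpow_le_rpow_of_exponent_le f6 (by linarith)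
    have d2 : x ^ (1 - β / 32) ≤ x ^ (2 * ε + 2 * ε + (1 - β / 32)) :=
      Real.rpow_le_rpow_of_exponent_le f6 (by linarith)
    have d3 : (Z : ℝ) ≤ x ^ (2 * ε) := Nat.floor_le (by positivity)
    have d4 : 1 ≤ x ^ (2 * ε + 2 * ε + (1 - β / 32)) := Real.one_le_rpow f6 (by linarith)
    rw [Real.rpow_one, div_mul_eq_mul_div, div_le_iff₀' hc] at f4
    have d5 : (Z : ℝ) ^ 2 * (3 * x ^ (3 / 4 : ℝ) + x ^ (1 - β / 32)) ≤ 4 * x ^ (2 * ε + 2 * ε + (1 - β / 32)) := by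
      rw [Real.rpow_add hx, Real.rpow_add hx]
      calc _ ≤ (x ^ (2 * ε)) ^ 2 * (4 * x ^ (1 - β / 32)) := by gcongr; linarith
        _ = _ := by ring
    rw [hxN] at f4 d2 d4 d5 ⊢
    linarith
  linarith

theorem to_rep4 {s : Finset ℕ} {m : ℕ} (h1 : s.card ≤ 4) (h2 : m ∈ s) (h3 : ∀ a ∈ s, 0 < a ∧ a ≤ m)
    (h4 : IsSquare (∏ a ∈ s, a !)) : ∃ a b c, Rep m a b c 0 := by
  have h0 := (h3 m h2).1
  obtain ⟨a, ha, s1, a1, a2, a3⟩ := peel (s.erase m) 2 (m - 1) (by rw [card_erase_of_mem h2]; omega)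
    (fun a ha => by have := mem_erase.1 ha; have := h3 a this.2; omega)
  obtain ⟨b, hb, s2, b1, b2, b3⟩ := peel s1 1 a a1 a2
  obtain ⟨c, hc, s3, c1, -, c3⟩ := peel s2 0 b b1 b2
  rw [card_eq_zero.1 (Nat.le_zero.1 c1)] at c3
  rw [← mul_prod_erase _ _ h2, a3, b3, c3] at h4
  exact ⟨a, b, c, by omega, hb, hc, Nat.zero_le _, by simpa [mul_assoc] using h4⟩

theorem to_rep3 {s : Finset ℕ} {m : ℕ} (h1 : s.card ≤ 3) (h2 : m ∈ s) (h3 : ∀ a ∈ s, 0 < a ∧ a ≤ m)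
    (h4 : IsSquare (∏ a ∈ s, a !)) : ∃ a b, Rep m a b 0 0 := by
  have h0 := (h3 m h2).1
  obtain ⟨a, ha, s1, a1, a2, a3⟩ := peel (s.erase m) 1 (m - 1) (by rw [card_erase_of_mem h2]; omega)
    (fun a ha => by have := mem_erase.1 ha; have := h3 a this.2; omega)
  obtain ⟨b, hb, s2, b1, -, b3⟩ := peel s1 0 a a1 a2
  rw [card_eq_zero.1 (Nat.le_zero.1 b1)] at b3
  rw [← mul_prod_erase _ _ h2, a3, b3] at h4
  exact ⟨a, b, by omega, hb, Nat.zero_le _, le_rfl, by simpa [mul_assoc] using h4⟩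

theorem four {u : ℕ} (h1 : 2 ≤ u) : ∃ s : Finset ℕ, s.card = 4 ∧ 4 * u ∈ s ∧
    (∀ a ∈ s, 0 < a ∧ a ≤ 4 * u) ∧ IsSquare (∏ a ∈ s, a !) := by
  obtain ⟨k, rfl⟩ : ∃ x, u = x + 1 := ⟨u - 1, by omega⟩
  obtain ⟨m, hm⟩ : ∃ x, 4 * (k + 1) = x + 1 := ⟨4 * k + 3, by omega⟩
  rw [hm]
  have n1 : k ∉ ({k + 1, m, m + 1} : Finset ℕ) := by simp; omega
  have n4 : k + 1 ∉ ({m, m + 1} : Finset ℕ) := by simp; omega
  have n5 : m ∉ ({m + 1} : Finset ℕ) := by simp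
  refine ⟨{k, k + 1, m, m + 1}, ?_, by simp, ?_, ?_⟩
  · rw [card_insert_of_notMem n1, card_insert_of_notMem n4, card_insert_of_notMem n5, card_singleton]
  · intro a ha
    simp only [mem_insert, mem_singleton] at ha
    omega
  · rw [prod_insert n1, prod_insert n4, prod_insert n5, prod_singleton]
    refine ⟨k ! * m ! * (2 * (k + 1)), ?_⟩
    rw [Nat.factorial_succ, Nat.factorial_succ, ← hm]; ring

theorem five {u : ℕ} (h1 : 4 ≤ u) : ∃ s : Finset ℕ, s.card = 5 ∧ 2 * u ∈ s ∧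
    (∀ a ∈ s, 0 < a ∧ a ≤ 2 * u) ∧ IsSquare (∏ a ∈ s, a !) := by
  obtain ⟨k, rfl⟩ : ∃ x, u = x + 1 := ⟨u - 1, by omega⟩
  obtain ⟨m, hm⟩ : ∃ x, 2 * (k + 1) = x + 1 := ⟨2 * k + 1, by omega⟩
  rw [hm]
  have n0 : 2 ∉ ({k, k + 1, m, m + 1} : Finset ℕ) := by simp; omega
  have n1 : k ∉ ({k + 1, m, m + 1} : Finset ℕ) := by simp; omega
  have n4 : k + 1 ∉ ({m, m + 1} : Finset ℕ) := by simp; omega
  have n5 : m ∉ ({m + 1} : Finset ℕ) := by simp
  refine ⟨{2, k, k + 1, m, m + 1}, ?_, by simp, ?_, ?_⟩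
  · rw [card_insert_of_notMem n0, card_insert_of_notMem n1, card_insert_of_notMem n4, card_insert_of_notMem n5,
      card_singleton]
  · intro a ha
    simp only [mem_insert, mem_singleton] at ha
    omega
  · rw [prod_insert n0, prod_insert n1, prod_insert n4, prod_insert n5, prod_singleton]
    refine ⟨k ! * m ! * (2 * (k + 1)), ?_⟩
    rw [Nat.factorial_succ k, Nat.factorial_succ m, ← hm, Nat.factorial_two]; ring

/-- from multiples of `r` to all `n` -/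
theorem unscale {r : ℕ} (hr : 0 < r) {f g : ℕ → ℕ} (hfg : ∀ N n, r * N ≤ n → f N ≤ g n)
    (h : ∃ c : ℝ, 0 < c ∧ ∀ᶠ N : ℕ in atTop, c * N ≤ f N) :
    ∃ c : ℝ, 0 < c ∧ ∃ N : ℕ, ∀ n, N ≤ n → c * n ≤ g n := by
  obtain ⟨c, hc, h⟩ := h
  obtain ⟨N, hN⟩ := eventually_atTop.1 h
  refine ⟨c / (2 * r), by positivity, r * (N + 1), fun n hn => ?_⟩
  have a1 : N + 1 ≤ n / r := (Nat.le_div_iff_mul_le hr).2 (by linarith)
  have a2 := hN (n / r) (by omega)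
  have a3 : (f (n / r) : ℝ) ≤ g n := by exact_mod_cast hfg _ _ (Nat.mul_div_le n r)
  have a4 : (n : ℝ) ≤ 2 * r * (n / r : ℕ) := by
    have := Nat.div_add_mod n r
    have := Nat.mod_lt n hr
    exact_mod_cast (show n ≤ 2 * r * (n / r) by nlinarith)
  rw [div_mul_eq_mul_div, div_le_iff₀ (by positivity)]
  have r0 : (0 : ℝ) < r := by exact_mod_cast hr
  nlinarith

end Pool.Agent.H60.D6
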