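import Mathlib

/- Square products of factorials: valuation lemmas and the deterministic part. -/

namespace Pool.Agent.H60.D6

open Finset Nat Chebyshev

def sv (q u w : ℕ) : ℕ := ∑ n ∈ Ioc u w, n.factorization q

structure Rep (m a b c d : ℕ) : Prop where
  h1 : a < m
  h2 : b ≤ a
  h3 : c ≤ b
  h4 : d ≤ c
  sq : IsSquare (m ! * a ! * b ! * c ! * d !)

theorem fact_sv (q : ℕ) {u w : ℕ} (h : u ≤ w) :
    (w !).factorization q = (u !).factorization q + sv q u w := by
  induction w, h using Nat.le_induction with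
  | base => simp [sv]
  | succ w hw ih =>
    rw [Nat.factorial_succ, Nat.factorization_mul (by omega) (Nat.factorial_ne_zero _),
      Finsupp.add_apply, ih, sv, sv, Finset.sum_Ioc_succ_top hw]
    ring

theorem Rep.par {m a b c d : ℕ} (h : Rep m a b c d) (q : ℕ) :
    Even (sv q a m + sv q c b + sv q 0 d) := by
  obtain ⟨r, hr⟩ := h.sq
  have hr0 : r ≠ 0 := by
    rintro rfl
    have : 0 < m ! * a ! * b ! * c ! * d ! := by positivity
    omega
  have e := congrArg (fun x => x.factorization q) hr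
  simp only [Nat.factorization_mul hr0 hr0, Finsupp.add_apply] at e
  rw [Nat.factorization_mul (by positivity) (by positivity), Nat.factorization_mul (by positivity) (by positivity),
    Nat.factorization_mul (by positivity) (by positivity), Nat.factorization_mul (by positivity) (by positivity)] at e
  simp only [Finsupp.add_apply] at e
  rw [fact_sv q h.h1.le, fact_sv q h.h3, fact_sv q (Nat.zero_le d)] at e
  simp only [Nat.factorial_zero, Nat.factorization_one, Finsupp.zero_apply] at e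
  exact ⟨r.factorization q - (a !).factorization q - (c !).factorization q, by omega⟩

theorem sv_zero {q u w : ℕ} (h : ∀ n ∈ Ioc u w, ¬ q ∣ n) : sv q u w = 0 :=
  Finset.sum_eq_zero fun n hn => Nat.factorization_eq_zero_of_not_dvd (h n hn)

theorem sv_lt {q u w : ℕ} (h : w < q) : sv q u w = 0 :=
  sv_zero fun n hn hd => by
    have := mem_Ioc.1 hn
    have := Nat.le_of_dvd (by omega) hd
    omega

theorem sv_uniq {q u w n0 : ℕ} (h0 : n0 ∈ Ioc u w) (h : ∀ n ∈ Ioc u w, q ∣ n → n = n0) :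
    sv q u w = n0.factorization q :=
  Finset.sum_eq_single_of_mem n0 h0 fun n hn hne =>
    Nat.factorization_eq_zero_of_not_dvd fun hd => hne (h n hn hd)

theorem sv_single {q u w n0 : ℕ} (h0 : n0 ∈ Ioc u w) (hq : q ∣ n0) (hl : w - u ≤ q) :
    sv q u w = n0.factorization q := by
  apply sv_uniq h0
  intro n hn hd
  have a1 := mem_Ioc.1 h0
  have a2 := mem_Ioc.1 hn
  rcases lt_trichotomy n n0 with h | h | h
  · have := Nat.le_of_dvd (by omega) ((Nat.dvd_sub hq hd))
    omega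
  · exact h
  · have := Nat.le_of_dvd (by omega) ((Nat.dvd_sub hd hq))
    omega

theorem sv_self {q u w : ℕ} (hq : q.Prime) (h1 : u < q) (h2 : q ≤ w) (h3 : w < 2 * q) :
    sv q u w = 1 := by
  rw [sv_uniq (mem_Ioc.2 ⟨h1, h2⟩), hq.factorization_self]
  rintro n hn ⟨r, rfl⟩
  have a2 := mem_Ioc.1 hn
  rcases r with _ | _ | r
  · omega
  · simp
  · nlinarith

theorem sv_ex {q u w : ℕ} (h : sv q u w ≠ 0) : ∃ n ∈ Ioc u w, q ∣ n := by
  by_contra hc
  push Not at hc
  exact h (sv_zero hc)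

theorem vone {n p : ℕ} (hp : p.Prime) (hd : p ∣ n) (h0 : n ≠ 0) (h : n < p ^ 2) :
    n.factorization p = 1 := by
  have h1 := (hp.dvd_iff_one_le_factorization h0).1 hd
  have h2 : ¬ 2 ≤ n.factorization p := fun h2 =>
    absurd (Nat.le_of_dvd (by omega) ((hp.pow_dvd_iff_le_factorization h0).2 h2)) (by omega)
  omega

theorem mass1 (Q : Finset ℕ) (hQ : ∀ q ∈ Q, q.Prime) {n : ℕ} (hn : n ≠ 0) (h : ∀ q ∈ Q, q ∣ n) :
    ∑ q ∈ Q, Real.log q ≤ Real.log n := by
  have h1 : ∏ q ∈ Q, q ∣ n := Finset.prod_primes_dvd n (fun q hq => (hQ q hq).prime) h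
  have h2 := Nat.le_of_dvd (by omega) h1
  rw [← Real.log_prod (fun q hq => by exact_mod_cast (hQ q hq).ne_zero)]
  apply Real.log_le_log
  · exact Finset.prod_pos fun q hq => by exact_mod_cast (hQ q hq).pos
  · rw [← Nat.cast_prod]; exact_mod_cast h2

theorem mass (Q S : Finset ℕ) (N : ℕ) (hQ : ∀ q ∈ Q, q.Prime) (hS : ∀ n ∈ S, 0 < n ∧ n ≤ N)
    (h : ∀ q ∈ Q, ∃ n ∈ S, q ∣ n) : ∑ q ∈ Q, Real.log q ≤ S.card * Real.log N := by
  have h1 := mass1 Q hQ (n := ∏ n ∈ S, n) (Finset.prod_ne_zero_iff.2 fun n hn => (hS n hn).1.ne')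
    (fun q hq => by
      obtain ⟨n, hn, hd⟩ := h q hq
      exact hd.trans (Finset.dvd_prod_of_mem _ hn))
  refine h1.trans ?_
  push_cast
  rw [Real.log_prod (fun n hn => by exact_mod_cast (hS n hn).1.ne'), ← nsmul_eq_mul]
  exact Finset.sum_le_card_nsmul _ _ _ fun n hn =>
    Real.log_le_log (by exact_mod_cast (hS n hn).1) (by exact_mod_cast (hS n hn).2)

/-- primes in `(z, y]` -/
noncomputable def PR (z : ℝ) (y : ℕ) : Finset ℕ := (Ioc ⌊z⌋₊ y).filter Nat.Prime

theorem mem_PR {z : ℝ} (hz : 0 ≤ z) {y q : ℕ} : q ∈ PR z y ↔ q.Prime ∧ z < q ∧ q ≤ y := by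
  unfold PR
  rw [mem_filter, mem_Ioc, Nat.floor_lt hz]; tauto

theorem theta_PR {z : ℝ} {y : ℕ} (h : z ≤ y) : θ y - θ z = ∑ q ∈ PR z y, Real.log q := by
  unfold Chebyshev.theta PR
  have h1 : ⌊z⌋₊ ≤ y := by simpa using Nat.floor_mono h
  rw [Nat.floor_natCast, sum_filter, sum_filter, sum_filter,
    ← Finset.sum_Ioc_consecutive _ (Nat.zero_le ⌊z⌋₊) h1]
  ring

structure Env (N : ℕ) (P0 G1 G2 d0 : ℝ) : Prop where
  e1 : ∀ y : ℕ, (N : ℝ) / 2 ≤ y → y ≤ N → 0 < θ y - θ (y - G1)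
  e2 : ∀ y : ℕ, P0 ≤ y → y ≤ N → G1 * Real.log N < θ y - θ (y - G2)
  e3 : ∀ y : ℕ, d0 ≤ y → (y : ℝ) / 4 ≤ θ y - θ (5 * y / 8)
  g0 : 0 ≤ G1
  g1 : G1 ≤ G2
  g2 : 8 * G2 * Real.log N + d0 ≤ P0
  g3 : 2 * N * G2 ≤ P0 ^ 2
  g4 : P0 ≤ (N : ℝ) / 2
  g5 : 1 ≤ Real.log N
  g6 : 0 ≤ d0
  g7 : 1 ≤ G2

variable {N : ℕ} {P0 G1 G2 d0 : ℝ} {m a b c d : ℕ}

theorem Env.G2_le (E : Env N P0 G1 G2 d0) : 8 * G2 ≤ P0 := by
  nlinarith [E.g2, E.g5, E.g6, E.g7]

theorem Env.sq (E : Env N P0 G1 G2 d0) {p n : ℕ} (hp : P0 < p) (hn : n ≤ N) : n < p ^ 2 := by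
  have h1 := E.G2_le
  have h2 : (N : ℝ) ≤ P0 ^ 2 := by nlinarith [E.g3, E.g7, Nat.cast_nonneg (α := ℝ) N]
  have h3 : P0 ^ 2 < (p : ℝ) ^ 2 := pow_lt_pow_left₀ hp (by linarith [E.g7]) (by norm_num)
  have h4 : (n : ℝ) ≤ N := by exact_mod_cast hn
  have : (n : ℝ) < ((p ^ 2 : ℕ) : ℝ) := by push_cast; linarith
  exact_mod_cast this

theorem detA (E : Env N P0 G1 G2 d0) (R : Rep m a b c d) (h1 : (N : ℝ) / 2 < m) (h2 : m ≤ N) :
    ((m - a : ℕ) : ℝ) ≤ G1 := by
  have h3 := E.e1 m h1.le h2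
  have hG : G1 ≤ (m : ℝ) / 2 := by linarith [E.g1, E.G2_le, E.g4, E.g7]
  have hm0 : (0 : ℝ) ≤ m := by positivity
  rw [theta_PR (by linarith [E.g0])] at h3
  obtain ⟨q, hq⟩ : (PR (m - G1) m).Nonempty := by
    by_contra hc
    rw [Finset.not_nonempty_iff_eq_empty.1 hc] at h3
    simp at h3
  obtain ⟨hq1, hq2, hq3⟩ := (mem_PR (by linarith)).1 hq
  have hqa : q ≤ a := by
    by_contra hc
    have e := R.par q
    have : m < 2 * q := by
      have : (m : ℝ) < 2 * q := by linarith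
      exact_mod_cast this
    have := R.h2; have := R.h3; have := R.h4
    rw [sv_self hq1 (by omega) hq3 (by omega), sv_lt (by omega), sv_lt (by omega)] at e
    simp at e
  have : (q : ℝ) ≤ a := by exact_mod_cast hqa
  rw [Nat.cast_sub R.h1.le]; linarith

theorem detD (E : Env N P0 G1 G2 d0) (R : Rep m a b c d) (h2 : m ≤ N) :
    (d : ℝ) ≤ 4 * ((m - a : ℕ) + (b - c : ℕ)) * Real.log N + d0 := by
  have hL : 0 ≤ 4 * (((m - a : ℕ) : ℝ) + (b - c : ℕ)) * Real.log N := by
    have := E.g5; positivity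
  rcases le_total (d : ℝ) d0 with h | h
  · linarith
  have h3 := E.e3 d h
  have hd0 : (0 : ℝ) ≤ d := by positivity
  rw [theta_PR (by linarith)] at h3
  have := R.h1; have := R.h2; have := R.h3; have := R.h4
  have h4 := mass (PR (5 * d / 8) d) (Ioc a m ∪ Ioc c b) N
    (fun q hq => ((mem_PR (by positivity)).1 hq).1)
    (fun n hn => by rcases mem_union.1 hn with h | h <;> have := mem_Ioc.1 h <;> omega)
    (fun q hq => by
      obtain ⟨hq1, hq2, hq3⟩ := (mem_PR (by positivity)).1 hq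
      have e := R.par q
      have : d < 2 * q := by
        have : (d : ℝ) < 2 * q := by linarith
        exact_mod_cast this
      rw [sv_self hq1 hq1.pos hq3 this] at e
      by_cases h5 : sv q a m = 0
      · obtain ⟨n, hn, hd⟩ := sv_ex (q := q) (u := c) (w := b) (fun h6 => by rw [h5, h6] at e; simp at e)
        exact ⟨n, mem_union_right _ hn, hd⟩
      · obtain ⟨n, hn, hd⟩ := sv_ex h5
        exact ⟨n, mem_union_left _ hn, hd⟩)
  have h5 : (((Ioc a m ∪ Ioc c b).card : ℕ) : ℝ) ≤ (m - a : ℕ) + (b - c : ℕ) := by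
    have := card_union_le (Ioc a m) (Ioc c b)
    simp only [Nat.card_Ioc] at this
    exact_mod_cast this
  have h6 := mul_le_mul_of_nonneg_right h5 (show 0 ≤ Real.log N by linarith [E.g5])
  linarith [E.g6]

theorem sv_big (E : Env N P0 G1 G2 d0) (R : Rep m a b c d) (h1 : (N : ℝ) / 2 < m) (h2 : m ≤ N)
    {n p : ℕ} (hn : n ∈ Ioc a m) (hp : p.Prime) (hd : p ∣ n) (hP : P0 < p) : sv p a m = 1 := by
  have hA := detA E R h1 h2
  have := mem_Ioc.1 hn
  have hl : m - a ≤ p := by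
    have : ((m - a : ℕ) : ℝ) ≤ p := by linarith [E.g1, E.G2_le, E.g7]
    exact_mod_cast this
  rw [sv_single hn hd hl, vone hp hd (by omega) (E.sq hP (by omega))]

theorem detC (E : Env N P0 G1 G2 d0) (R : Rep m a b c d) (h1 : (N : ℝ) / 2 < m) (h2 : m ≤ N)
    {p : ℕ} (hp : p.Prime) (hd : p ∣ m) (hP : P0 < p) : p ≤ b ∧ ((b - c : ℕ) : ℝ) ≤ G2 := by
  have hA := detA E R h1 h2
  have := R.h1; have := R.h2; have := R.h3; have := R.h4
  have hb : p ≤ b := by
    by_contra hc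
    have e := R.par p
    rw [sv_big E R h1 h2 (mem_Ioc.2 ⟨R.h1, le_rfl⟩) hp hd hP, sv_lt (by omega), sv_lt (by omega)] at e
    simp at e
  refine ⟨hb, ?_⟩
  by_contra hc
  have hc := lt_of_not_ge hc
  rw [Nat.cast_sub R.h3] at hc
  have hb' : (p : ℝ) ≤ b := by exact_mod_cast hb
  have h3 := E.e2 b (by linarith) (by omega)
  have hG := E.G2_le
  have hG1 := E.g7
  rw [theta_PR (by linarith)] at h3
  have h4 := mass (PR (b - G2) b) (Ioc a m) N
    (fun q hq => ((mem_PR (by linarith)).1 hq).1)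
    (fun n hn => by have := mem_Ioc.1 hn; omega)
    (fun q hq => by
      obtain ⟨hq1, hq2, hq3⟩ := (mem_PR (by linarith)).1 hq
      have e := R.par q
      have a1 : b < 2 * q := by
        have : (b : ℝ) < 2 * q := by linarith
        exact_mod_cast this
      have a2 : c < q := by
        have : (c : ℝ) < q := by linarith
        exact_mod_cast this
      rw [sv_self hq1 a2 hq3 a1, sv_lt (show d < q by omega)] at e
      exact sv_ex fun h6 => by rw [h6] at e; simp at e)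
  rw [Nat.card_Ioc] at h4
  have h6 := mul_le_mul_of_nonneg_right hA (show 0 ≤ Real.log N by linarith [E.g5])
  linarith

theorem detD' (E : Env N P0 G1 G2 d0) (R : Rep m a b c d) (h1 : (N : ℝ) / 2 < m) (h2 : m ≤ N)
    {p : ℕ} (hp : p.Prime) (hd : p ∣ m) (hP : P0 < p) : (d : ℝ) ≤ P0 := by
  have hA := detA E R h1 h2
  have hC := (detC E R h1 h2 hp hd hP).2
  have hD := detD E R h2
  have h3 : 4 * (((m - a : ℕ) : ℝ) + (b - c : ℕ)) * Real.log N ≤ 8 * G2 * Real.log N :=
    mul_le_mul_of_nonneg_right (by linarith [E.g1]) (by linarith [E.g5])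
  linarith [E.g2]

theorem detE (E : Env N P0 G1 G2 d0) (R : Rep m a b c d) (h1 : (N : ℝ) / 2 < m) (h2 : m ≤ N)
    {p : ℕ} (hp : p.Prime) (hd : p ∣ m) (hP : P0 < p)
    {n p' : ℕ} (hn : n ∈ Ioc a m) (hp' : p'.Prime) (hd' : p' ∣ n) (hP' : P0 < p') :
    ∃ l, l * p' ∈ Ioc c b := by
  have hD := detD' E R h1 h2 hp hd hP
  have e := R.par p'
  have : d < p' := by
    have : (d : ℝ) < p' := by linarith
    exact_mod_cast this
  rw [sv_big E R h1 h2 hn hp' hd' hP', sv_lt this] at e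
  obtain ⟨j, hj, r, rfl⟩ := sv_ex (q := p') (u := c) (w := b) fun h6 => by rw [h6] at e; simp at e
  exact ⟨r, by rwa [mul_comm]⟩

theorem partner (E : Env N P0 G1 G2 d0) {k p k' p' l : ℕ} (R : Rep (k * p) a b c d)
    (h1 : (N : ℝ) / 2 < (k * p : ℕ)) (h2 : k * p ≤ N) (hp : p.Prime) (hP : P0 < p)
    (hl : l * p ∈ Ioc c b) (hn : k' * p' ∈ Ioc a (k * p)) (hp' : p'.Prime) (hP' : P0 < p') :
    ∃ l', k * l' = k' * l := by
  obtain ⟨l', hl'⟩ := detE E R h1 h2 hp (Dvd.intro_left _ rfl) hP hn hp' (Dvd.intro_left _ rfl) hP'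
  have hA := detA E R h1 h2
  have hC := (detC E R h1 h2 hp (Dvd.intro_left _ rfl) hP).2
  refine ⟨l', ?_⟩
  have := R.h1; have := R.h2; have := R.h3
  rw [Nat.cast_sub R.h1.le] at hA
  rw [Nat.cast_sub R.h3] at hC
  obtain ⟨a1, a2⟩ := mem_Ioc.1 hl
  obtain ⟨a3, a4⟩ := mem_Ioc.1 hl'
  obtain ⟨a5, a6⟩ := mem_Ioc.1 hn
  have b1 : (c : ℝ) < l * p := by exact_mod_cast a1
  have b2 : (l : ℝ) * p ≤ b := by exact_mod_cast a2
  have b3 : (c : ℝ) < l' * p' := by exact_mod_cast a3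
  have b4 : (l' : ℝ) * p' ≤ b := by exact_mod_cast a4
  have b5 : (a : ℝ) < k' * p' := by exact_mod_cast a5
  have b6 : (k' : ℝ) * p' ≤ k * p := by exact_mod_cast a6
  have b7 : (k : ℝ) * p ≤ N := by exact_mod_cast h2
  have b8 : (b : ℝ) ≤ N := by exact_mod_cast (show b ≤ N by omega)
  push_cast at hA
  have hP0 : 0 < P0 := by linarith [E.G2_le, E.g7]
  have c1 : P0 ^ 2 < (p : ℝ) * p' := by nlinarith
  have c0 : (0 : ℝ) ≤ l * p := by positivity
  have c00 : (0 : ℝ) ≤ k * p := by positivity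
  have c2 : (p : ℝ) * p' * (k * l' - k' * l) = k * p * (l' * p' - l * p) + (k * p - k' * p') * (l * p) := by
    ring
  have c3 : (k : ℝ) * p * (l' * p' - l * p) ≤ N * G2 :=
    (mul_le_mul_of_nonneg_left (show (l' : ℝ) * p' - l * p ≤ G2 by linarith) c00).trans
      (mul_le_mul_of_nonneg_right b7 (by linarith [E.g7]))
  have c4 : -(N * G2) ≤ (k : ℝ) * p * (l' * p' - l * p) := by
    have := (mul_le_mul_of_nonneg_left (show (l : ℝ) * p - l' * p' ≤ G2 by linarith) c00).trans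
      (mul_le_mul_of_nonneg_right b7 (by linarith [E.g7]))
    linarith
  have c5 : ((k : ℝ) * p - k' * p') * (l * p) ≤ G2 * N :=
    mul_le_mul (by linarith [E.g1]) (by linarith) c0 (by linarith [E.g7])
  have c6 : 0 ≤ ((k : ℝ) * p - k' * p') * (l * p) := mul_nonneg (by linarith) c0
  have hg3 := E.g3
  have hpp : 0 < (p : ℝ) * p' := by nlinarith
  have hNG : 0 ≤ N * G2 := by have := E.g7; positivity
  have d1 : (k : ℝ) * l' - k' * l < 1 := by
    by_contra hc
    nlinarith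
  have d2 : -1 < (k : ℝ) * l' - k' * l := by
    by_contra hc
    nlinarith
  have d3 : ((k * l' : ℕ) : ℝ) < ((k' * l + 1 : ℕ) : ℝ) := by push_cast; linarith
  have d4 : ((k' * l : ℕ) : ℝ) < ((k * l' + 1 : ℕ) : ℝ) := by push_cast; linarith
  have d5 : k * l' < k' * l + 1 := by exact_mod_cast d3
  have d6 : k' * l < k * l' + 1 := by exact_mod_cast d4
  omega

structure Good (T k : ℕ) : Prop where
  sqf : Squarefree k
  rough : ∀ q, q.Prime → q ∣ k → T < q
  small : ∀ d : ℕ, ∑ q ∈ k.primeFactors.filter (· ≤ d), Real.log q ≤ d / 8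

theorem log_sf {k : ℕ} (h : Squarefree k) : Real.log k = ∑ q ∈ k.primeFactors, Real.log q := by
  rw [← Real.log_prod (fun q hq => by exact_mod_cast (Nat.prime_of_mem_primeFactors hq).ne_zero)]
  rw [← Nat.cast_prod, Nat.prod_primeFactors_of_squarefree h]

/-- the case of two intervals of length one -/
theorem one_one (E : Env N P0 G1 G2 d0) {k p l : ℕ} (R : Rep (k * p) a b c d) (hsf : Squarefree k)
    (hs : ∑ q ∈ k.primeFactors.filter (· ≤ d), Real.log q ≤ d / 8)
    (hd0 : k.primeFactors.filter (· ≤ d) = ∅ ∨ d0 ≤ d)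
    (hp : p.Prime) (hkp : k < p) (hdp : d < p) (hl : l * p ∈ Ioc c b) (hg : k * p - a = 1)
    (hh : b - c = 1) : False := by
  have := R.h1; have := R.h2; have := R.h3
  obtain ⟨a1, a2⟩ := mem_Ioc.1 hl
  have hk0 : k ≠ 0 := hsf.ne_zero
  have hl0 : l ≠ 0 := by rintro rfl; omega
  have hlk : l < k := lt_of_mul_lt_mul_right (show l * p < k * p by omega) (Nat.zero_le _)
  have key : ∀ q, q.Prime → q ≠ p → Even (k.factorization q + l.factorization q + sv q 0 d) := by
    intro q hq hqp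
    have e := R.par q
    rw [sv_uniq (mem_Ioc.2 ⟨R.h1, le_rfl⟩) (fun n hn _ => by have := mem_Ioc.1 hn; omega),
      sv_uniq hl (fun n hn _ => by have := mem_Ioc.1 hn; omega),
      Nat.factorization_mul hk0 hp.ne_zero, Nat.factorization_mul hl0 hp.ne_zero] at e
    simpa [hp.factorization, Finsupp.single_apply, hqp.symm] using e
  set A1 := k.primeFactors.filter (fun q => ¬ q ≤ d)
  set A2 := k.primeFactors.filter (· ≤ d)
  set B := PR (5 * d / 8) d \ A2
  have hd0' : (0 : ℝ) ≤ d := by positivity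
  have hdisj : Disjoint A1 B := by
    rw [Finset.disjoint_left]
    intro q h1 h2
    exact (mem_filter.1 h1).2 ((mem_PR (by positivity)).1 (mem_sdiff.1 h2).1).2.2
  have h1 := mass1 (A1 ∪ B) (fun q hq => by
    rcases mem_union.1 hq with h | h
    · exact Nat.prime_of_mem_primeFactors (mem_filter.1 h).1
    · exact ((mem_PR (by positivity)).1 (mem_sdiff.1 h).1).1) hl0 (fun q hq => by
    by_contra hql
    rcases mem_union.1 hq with h | h
    · obtain ⟨b1, b2⟩ := mem_filter.1 h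
      have hq := Nat.prime_of_mem_primeFactors b1
      have b3 := Nat.le_of_mem_primeFactors b1
      have e := key q hq (by omega)
      rw [Nat.factorization_eq_zero_of_not_dvd hql, sv_lt (by omega),
        Nat.factorization_eq_one_of_squarefree hsf hq (Nat.dvd_of_mem_primeFactors b1)] at e
      simp at e
    · obtain ⟨b1, b2⟩ := mem_sdiff.1 h
      obtain ⟨hq, b3, b4⟩ := (mem_PR (by positivity)).1 b1
      have e := key q hq (by omega)
      have b5 : d < 2 * q := by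
        have : (d : ℝ) < 2 * q := by linarith
        exact_mod_cast this
      have b6 : ¬ q ∣ k := fun h => b2 (mem_filter.2 ⟨Nat.mem_primeFactors.2 ⟨hq, h, hk0⟩, b4⟩)
      rw [Nat.factorization_eq_zero_of_not_dvd hql, Nat.factorization_eq_zero_of_not_dvd b6,
        sv_self hq hq.pos b4 b5] at e
      simp at e)
  rw [sum_union hdisj] at h1
  have h2 : Real.log l < Real.log k :=
    Real.log_lt_log (by exact_mod_cast Nat.pos_of_ne_zero hl0) (by exact_mod_cast hlk)
  rw [log_sf hsf, ← sum_filter_add_sum_filter_not k.primeFactors (· ≤ d)] at h2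
  have h3 : ∑ q ∈ B, Real.log q < ∑ q ∈ A2, Real.log q := by linarith
  have h4 : 0 ≤ ∑ q ∈ B, Real.log q := sum_nonneg fun q _ => Real.log_natCast_nonneg q
  rcases hd0 with h | h
  · rw [h] at h3; simp at h3; linarith
  · have h5 := E.e3 d h
    rw [theta_PR (by linarith)] at h5
    have h6 : ∑ q ∈ PR (5 * d / 8) d, Real.log q ≤ ∑ q ∈ B ∪ A2, Real.log q :=
      sum_le_sum_of_subset_of_nonneg (by intro q hq; simp only [B, mem_union, mem_sdiff]; tauto)
        fun q _ _ => Real.log_natCast_nonneg q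
    rw [sum_union sdiff_disjoint] at h6
    linarith

end Pool.Agent.H60.D6
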