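import Pool.Agent.H60.D6a

/- Counting lemmas. -/

namespace Pool.Agent.H60.D6

open Finset Nat Chebyshev

theorem spaced (S : Finset ℕ) (N W Y : ℕ) (hW : 0 < W) (hY : 0 < Y) (hS : ∀ j ∈ S, j ≤ N)
    (h : ∀ j ∈ S, ∀ j' ∈ S, j < j' → j' - j < W ∨ Y ≤ j' - j) : S.card ≤ (N / Y + 1) * W := by
  have key : ∀ j ∈ S, ∀ j' ∈ S, j < j' → j / Y = j' / Y → j % W = j' % W → False := by
    intro j hj j' hj' hlt h1 h2
    rcases h j hj j' hj' hlt with h3 | h3
    · have := Nat.le_of_dvd (by omega) ((Nat.modEq_iff_dvd' hlt.le).1 h2)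
      omega
    · have a1 := Nat.div_add_mod j Y
      have a2 := Nat.div_add_mod j' Y
      have a3 := Nat.mod_lt j' hY
      rw [h1] at a1
      omega
  have := Finset.card_le_card_of_injOn (s := S) (t := range (N / Y + 1) ×ˢ range W)
    (fun j => (j / Y, j % W))
    (fun j hj => by
      simp only [coe_product, coe_range, Set.mem_prod, Set.mem_Iio]
      exact ⟨Nat.lt_succ_of_le (Nat.div_le_div_right (hS j hj)), Nat.mod_lt _ hW⟩)
    (fun j hj j' hj' he => by
      simp only [Prod.mk.injEq] at he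
      rcases lt_trichotomy j j' with h | h | h
      · exact (key j hj j' hj' h he.1 he.2).elim
      · exact h
      · exact (key j' hj' j hj h he.1.symm he.2.symm).elim)
  simpa using this

theorem ex_sp (n : ℕ) : ∃ s : ℕ, 0 < n → Squarefree s ∧ ∃ r, 0 < r ∧ r ^ 2 * s = n := by
  rcases Nat.eq_zero_or_pos n with rfl | hn
  · exact ⟨1, by simp⟩
  obtain ⟨a, b, -, hb, h1, h2⟩ := Nat.sq_mul_squarefree_of_pos hn
  exact ⟨a, fun _ => ⟨h2, b, hb, h1⟩⟩

/-- squarefree part -/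
noncomputable def sp (n : ℕ) : ℕ := (ex_sp n).choose

theorem sp_sqf {n : ℕ} (h : 0 < n) : Squarefree (sp n) := ((ex_sp n).choose_spec h).1

theorem sp_eq {n : ℕ} (h : 0 < n) : ∃ r, 0 < r ∧ r ^ 2 * sp n = n := ((ex_sp n).choose_spec h).2

theorem sp_dvd {n : ℕ} (h : 0 < n) : sp n ∣ n := by
  obtain ⟨r, -, hr⟩ := sp_eq h
  exact Dvd.intro_left _ hr

theorem sp_odd {n q : ℕ} (h : 0 < n) (hq : q.Prime) (hd : q ∣ sp n) : Odd (n.factorization q) := by
  obtain ⟨r, hr0, hr⟩ := sp_eq h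
  have e := congrArg (fun x => x.factorization q) hr
  rw [Nat.factorization_mul (by positivity) (sp_sqf h).ne_zero, Nat.factorization_pow] at e
  simp only [Finsupp.add_apply, Finsupp.smul_apply, smul_eq_mul] at e
  rw [Nat.factorization_eq_one_of_squarefree (sp_sqf h) hq hd] at e
  exact ⟨r.factorization q, by omega⟩

/-- few integers have small squarefree part -/
theorem special_card (N Y R : ℕ) (hR : 0 < R) :
    (((Ioc 0 N).filter (fun n => sp n ≤ Y)).card : ℝ) ≤ R ^ 2 * Y + N / R := by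
  have h1 : (Ioc 0 N).filter (fun n => sp n ≤ Y) ⊆ Ioc 0 (R ^ 2 * Y) ∪
      (Ioc R (R + N)).biUnion (fun r => (Ioc 0 N).filter (r ^ 2 ∣ ·)) := by
    intro n hn
    obtain ⟨h1, h2⟩ := mem_filter.1 hn
    have h3 := mem_Ioc.1 h1
    obtain ⟨r, hr0, hr⟩ := sp_eq h3.1
    by_cases hc : r ≤ R
    · refine mem_union_left _ (mem_Ioc.2 ⟨h3.1, ?_⟩)
      rw [← hr]; gcongr
    · refine mem_union_right _ (mem_biUnion.2 ⟨r, mem_Ioc.2 ⟨by omega, ?_⟩, mem_filter.2 ⟨h1, Dvd.intro _ hr⟩⟩)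
      have := Nat.le_of_dvd h3.1 ((dvd_pow_self r two_ne_zero).trans (Dvd.intro _ hr))
      omega
  have h2 := (card_le_card h1).trans ((card_union_le _ _).trans (Nat.add_le_add_left card_biUnion_le _))
  simp only [Nat.card_Ioc, Nat.Ioc_filter_dvd_card_eq_div, tsub_zero] at h2
  have h3 : ∀ M, ∑ r ∈ Ioc R (R + M), ((N / r ^ 2 : ℕ) : ℝ) ≤ N / R - N / (R + M : ℕ) := by
    intro M
    induction M with
    | zero => simp
    | succ M ih =>
      rw [← add_assoc, sum_Ioc_succ_top (by omega)]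
      have a1 : ((N / (R + M + 1) ^ 2 : ℕ) : ℝ) ≤ N / ((R + M + 1 : ℕ) : ℝ) ^ 2 := by
        have := Nat.cast_div_le (α := ℝ) (m := N) (n := (R + M + 1) ^ 2)
        exact_mod_cast this
      have a2 : (0 : ℝ) < (R + M : ℕ) := by exact_mod_cast (by omega : 0 < R + M)
      have a3 : (N : ℝ) / ((R + M + 1 : ℕ) : ℝ) ^ 2 ≤ N / (R + M : ℕ) - N / (R + M + 1 : ℕ) := by
        rw [Nat.cast_succ (R + M), div_sub_div _ _ a2.ne' (by linarith), div_le_div_iff₀ (by positivity) (by positivity)]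
        have : (0 : ℝ) ≤ N := by positivity
        nlinarith [mul_nonneg this (show (0 : ℝ) ≤ ((R + M : ℕ) : ℝ) + 1 by linarith)]
      linarith
  have h4 := h3 N
  have h5 : (0 : ℝ) ≤ N / (R + N : ℕ) := by positivity
  have h6 : (((Ioc 0 N).filter (fun n => sp n ≤ Y)).card : ℝ) ≤
      ((R ^ 2 * Y + ∑ r ∈ Ioc R (R + N), N / r ^ 2 : ℕ) : ℝ) := by exact_mod_cast h2
  push_cast at h6 h4 h5
  linarith

theorem supp_card (N : ℕ) (P : Finset ℕ) :
    ((Ioc 0 N).filter (fun n => (sp n).primeFactors ⊆ P)).card ≤ 2 ^ P.card * (Nat.sqrt N + 1) := by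
  have h1 : (Ioc 0 N).filter (fun n => (sp n).primeFactors ⊆ P) ⊆
      (P.powerset ×ˢ range (Nat.sqrt N + 1)).image (fun x => x.2 ^ 2 * ∏ q ∈ x.1, q) := by
    intro n hn
    obtain ⟨h1, h2⟩ := mem_filter.1 hn
    have h3 := mem_Ioc.1 h1
    obtain ⟨r, hr0, hr⟩ := sp_eq h3.1
    refine mem_image.2 ⟨((sp n).primeFactors, r), mem_product.2 ⟨mem_powerset.2 h2, ?_⟩, ?_⟩
    · refine mem_range.2 (Nat.lt_succ_of_le (Nat.le_sqrt'.2 ?_))
      exact (Nat.le_of_dvd h3.1 (Dvd.intro _ hr)).trans h3.2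
    · simp only [Nat.prod_primeFactors_of_squarefree (sp_sqf h3.1), hr]
  simpa using (card_le_card h1).trans card_image_le

theorem card_mass (P : Finset ℕ) (V : ℕ) (hV : 2 ≤ V) :
    (P.card : ℝ) ≤ V + (∑ q ∈ P, Real.log q) / Real.log V := by
  have hV' : (1 : ℝ) < V := by exact_mod_cast hV
  have hl := Real.log_pos hV'
  have h1 := card_filter_add_card_filter_not (s := P) (· < V)
  have h2 : (P.filter (· < V)).card ≤ V := by
    simpa using card_le_card (show P.filter (· < V) ⊆ range V from fun q hq => mem_range.2 (mem_filter.1 hq).2)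
  have h3 : ((P.filter (fun q => ¬ q < V)).card : ℝ) * Real.log V ≤ ∑ q ∈ P, Real.log q := by
    rw [← nsmul_eq_mul]
    refine (Finset.card_nsmul_le_sum _ _ _ fun q hq => ?_).trans
      (sum_le_sum_of_subset_of_nonneg (filter_subset _ _) fun q _ _ => Real.log_natCast_nonneg q)
    exact Real.log_le_log (by linarith) (by exact_mod_cast not_lt.1 (mem_filter.1 hq).2)
  rw [← le_div_iff₀ hl] at h3
  have h4 : (P.card : ℝ) ≤ ((V + (P.filter (fun q => ¬ q < V)).card : ℕ) : ℝ) := by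
    exact_mod_cast (by omega)
  push_cast at h4
  linarith

theorem mult_card (q c b : ℕ) (h : c ≤ b) :
    ((Ioc c b).filter (q ∣ ·)).card ≤ ((Ioc 0 (b - c)).filter (q ∣ ·)).card + 1 := by
  have h1 : (Ioc 0 b).filter (q ∣ ·) = (Ioc 0 c).filter (q ∣ ·) ∪ (Ioc c b).filter (q ∣ ·) := by
    rw [← filter_union, Ioc_union_Ioc_eq_Ioc (Nat.zero_le _) h]
  have h2 := congrArg card h1
  rw [card_union_of_disjoint (disjoint_filter_filter (Ioc_disjoint_Ioc_of_le le_rfl))] at h2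
  simp only [Nat.Ioc_filter_dvd_card_eq_div] at h2 ⊢
  rcases Nat.eq_zero_or_pos q with rfl | hq
  · simp at h2 ⊢; omega
  have h3 := Nat.add_div (a := c) (b := b - c) hq
  rw [Nat.add_sub_cancel' h] at h3
  split_ifs at h3 <;> omega

theorem theta_nat (y : ℕ) : ∑ q ∈ PR 0 y, Real.log q ≤ Real.log 4 * y := by
  have := theta_PR (z := 0) (y := y) (by positivity)
  rw [← this, Chebyshev.theta_zero, sub_zero]
  exact Chebyshev.theta_le_log4_mul_x (by positivity)

variable {N : ℕ} {m a b c d : ℕ}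

/-- the odd mass of the second interval -/
theorem oddmass (R : Rep m a b c d) (h2 : m ≤ N) :
    ∑ n ∈ Ioc c b, Real.log (sp n) ≤ (b - c : ℕ) * Real.log (b - c : ℕ) +
      Real.log 4 * ((b - c + d : ℕ) : ℝ) + (m - a : ℕ) * Real.log N := by
  have := R.h1; have := R.h2; have := R.h3
  set h := b - c with hh
  set Q := PR 0 (h + d)
  set Q' := (Ioc c b).biUnion (fun n => (sp n).primeFactors.filter (fun q => h + d < q))
  have hQ : ∀ q ∈ Q, q.Prime := fun q hq => ((mem_PR le_rfl).1 hq).1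
  have hQ' : ∀ q ∈ Q', q.Prime ∧ h + d < q ∧ ∃ n ∈ Ioc c b, q ∣ sp n := by
    intro q hq
    obtain ⟨n, hn, h3⟩ := mem_biUnion.1 hq
    obtain ⟨h4, h5⟩ := mem_filter.1 h3
    exact ⟨Nat.prime_of_mem_primeFactors h4, h5, n, hn, Nat.dvd_of_mem_primeFactors h4⟩
  have e1 : ∀ n ∈ Ioc c b, Real.log (sp n) ≤ ∑ q ∈ Q.filter (· ∣ n), Real.log q +
      ∑ q ∈ Q'.filter (· ∣ n), Real.log q := by
    intro n hn
    have hn0 : 0 < n := by have := mem_Ioc.1 hn; omega
    rw [log_sf (sp_sqf hn0), ← sum_filter_add_sum_filter_not _ (fun q => h + d < q), add_comm]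
    apply _root_.add_le_add <;> refine sum_le_sum_of_subset_of_nonneg ?_ fun q _ _ => Real.log_natCast_nonneg q
    · intro q hq
      obtain ⟨h4, h5⟩ := mem_filter.1 hq
      have hp := Nat.prime_of_mem_primeFactors h4
      exact mem_filter.2 ⟨(mem_PR le_rfl).2 ⟨hp, by exact_mod_cast hp.pos, by omega⟩,
        (Nat.dvd_of_mem_primeFactors h4).trans (sp_dvd hn0)⟩
    · intro q hq
      exact mem_filter.2 ⟨mem_biUnion.2 ⟨n, hn, hq⟩,
        (Nat.dvd_of_mem_primeFactors (mem_filter.1 hq).1).trans (sp_dvd hn0)⟩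
  have sw : ∀ (S P : Finset ℕ), ∑ n ∈ S, ∑ q ∈ P.filter (· ∣ n), Real.log q =
      ∑ q ∈ P, ((S.filter (q ∣ ·)).card : ℝ) * Real.log q := by
    intro S P
    simp only [sum_filter]
    rw [sum_comm]
    refine sum_congr rfl fun q _ => ?_
    rw [← sum_filter, sum_const, nsmul_eq_mul]
  refine (sum_le_sum e1).trans ?_
  rw [sum_add_distrib, sw, sw]
  have e2 : ∑ q ∈ Q, (((Ioc c b).filter (q ∣ ·)).card : ℝ) * Real.log q ≤
      ∑ q ∈ Q, (((Ioc 0 h).filter (q ∣ ·)).card : ℝ) * Real.log q + ∑ q ∈ Q, Real.log q := by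
    rw [← sum_add_distrib]
    refine sum_le_sum fun q _ => ?_
    have a1 : (((Ioc c b).filter (q ∣ ·)).card : ℝ) ≤ ((Ioc 0 h).filter (q ∣ ·)).card + 1 := by
      exact_mod_cast mult_card q c b R.h3
    nlinarith [Real.log_natCast_nonneg q]
  have e3 : ∑ q ∈ Q, (((Ioc 0 h).filter (q ∣ ·)).card : ℝ) * Real.log q ≤ h * Real.log h := by
    rw [← sw]
    have := Finset.sum_le_card_nsmul (Ioc 0 h) (fun n => ∑ q ∈ Q.filter (· ∣ n), Real.log q) (Real.log h)
      (fun n hn => by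
        have hn := mem_Ioc.1 hn
        exact (mass1 _ (fun q hq => hQ q (mem_filter.1 hq).1) hn.1.ne' (fun q hq => (mem_filter.1 hq).2)).trans
          (Real.log_le_log (by exact_mod_cast hn.1) (by exact_mod_cast hn.2)))
    simpa using this
  have e4 : ∑ q ∈ Q', (((Ioc c b).filter (q ∣ ·)).card : ℝ) * Real.log q ≤ ∑ q ∈ Q', Real.log q := by
    refine sum_le_sum fun q hq => ?_
    obtain ⟨hp, h3, -⟩ := hQ' q hq
    have a1 : ((Ioc c b).filter (q ∣ ·)).card ≤ 1 := by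
      have := mult_card q c b R.h3
      rw [Nat.Ioc_filter_dvd_card_eq_div, Nat.div_eq_of_lt (by omega)] at this
      exact this
    have a2 : (((Ioc c b).filter (q ∣ ·)).card : ℝ) ≤ 1 := by exact_mod_cast a1
    nlinarith [Real.log_natCast_nonneg q]
  have e5 := mass Q' (Ioc a m) N (fun q hq => (hQ' q hq).1)
    (fun n hn => by have := mem_Ioc.1 hn; omega) (fun q hq => by
      obtain ⟨hp, h3, n, hn, h4⟩ := hQ' q hq
      have hn0 : 0 < n := by have := mem_Ioc.1 hn; omega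
      have e := R.par q
      rw [sv_single hn (h4.trans (sp_dvd hn0)) (by omega), sv_lt (show d < q by omega)] at e
      have o := sp_odd hn0 hp h4
      exact sv_ex fun h6 => by rw [h6] at e; simp at e; exact (Nat.not_even_iff_odd.2 o) e)
  rw [Nat.card_Ioc] at e5
  linarith [theta_nat (h + d)]

end Pool.Agent.H60.D6
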