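import Pool.Agent.H60.D6b

/- The three regimes. -/

namespace Pool.Agent.H60.D6

open Finset Nat Chebyshev

theorem classes {ι : Type*} (S : Finset ℕ) (I : Finset ι) (P : ι → ℕ → Prop) (B : ℝ)
    (h1 : ∀ j ∈ S, ∃ i ∈ I, P i j) (h2 : ∀ i ∈ I, ∀ S' : Finset ℕ, S' ⊆ S → (∀ j ∈ S', P i j) → (S'.card : ℝ) ≤ B) :
    (S.card : ℝ) ≤ I.card * B := by
  classical
  have h3 : S ⊆ I.biUnion (fun i => S.filter (P i)) := fun j hj => by
    obtain ⟨i, hi, h⟩ := h1 j hj
    exact mem_biUnion.2 ⟨i, hi, mem_filter.2 ⟨hj, h⟩⟩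
  have h4 : (S.card : ℝ) ≤ ((∑ i ∈ I, (S.filter (P i)).card : ℕ) : ℝ) := by
    exact_mod_cast (card_le_card h3).trans card_biUnion_le
  refine h4.trans ?_
  push_cast
  rw [← nsmul_eq_mul]
  exact Finset.sum_le_card_nsmul _ _ _ fun i hi => h2 i hi _ (filter_subset _ _) fun j hj => (mem_filter.1 hj).2

variable {N : ℕ} {m a b c d : ℕ}

theorem R2_many {β κ : ℝ} {Y : ℕ} (hβ : 0 < β) (hβ1 : β ≤ 1) (hκ : Real.log 4 * κ ≤ β / 12)
    (hL : Real.log 4 ≤ β / 12 * Real.log N) (hY : (1 - β / 2) * Real.log N ≤ Real.log Y)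
    (R : Rep m a b c d) (h2 : m ≤ N) (hg : ((m - a : ℕ) : ℝ) ≤ β / 12 * (b - c : ℕ))
    (hh : Real.log (b - c : ℕ) ≤ (1 - β) * Real.log N) (hd : d ≤ κ * (b - c : ℕ) * Real.log N) :
    β / 4 * (b - c : ℕ) ≤ ((Ioc c b).filter (fun n => sp n ≤ Y)).card := by
  have h1 := oddmass R h2
  have l4 : 0 < Real.log 4 := Real.log_pos (by norm_num)
  have hL0 : 0 < Real.log N := by nlinarith
  set L := Real.log N
  have h3 := card_filter_add_card_filter_not (s := Ioc c b) (fun n => sp n ≤ Y)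
  rw [Nat.card_Ioc] at h3
  set h := b - c
  set s := ((Ioc c b).filter (fun n => sp n ≤ Y)).card
  set s' := ((Ioc c b).filter (fun n => ¬ sp n ≤ Y)).card
  have h4 : (s' : ℝ) * ((1 - β / 2) * L) ≤ ∑ n ∈ Ioc c b, Real.log (sp n) := by
    rw [← nsmul_eq_mul]
    refine (Finset.card_nsmul_le_sum _ _ _ fun n hn => ?_).trans
      (sum_le_sum_of_subset_of_nonneg (filter_subset _ _) fun q _ _ => Real.log_natCast_nonneg _)
    have a1 := not_le.1 (mem_filter.1 hn).2
    have a2 : 0 < Real.log Y := by nlinarith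
    have a3 : (0 : ℝ) < Y := by
      rcases Nat.eq_zero_or_pos Y with rfl | h
      · simp at a2
      · exact_mod_cast h
    exact hY.trans (Real.log_le_log a3 (by exact_mod_cast a1.le))
  have h5 : (s : ℝ) + s' = h := by exact_mod_cast h3
  have hh0 : (0 : ℝ) ≤ h := by positivity
  have hs0 : (0 : ℝ) ≤ s := by positivity
  push_cast at h1
  have b1 : (h : ℝ) * Real.log h ≤ h * ((1 - β) * L) := mul_le_mul_of_nonneg_left hh hh0
  have b2 : Real.log 4 * h ≤ β / 12 * L * h := mul_le_mul_of_nonneg_right hL hh0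
  have b3 : Real.log 4 * d ≤ β / 12 * (h * L) := by
    calc Real.log 4 * d ≤ Real.log 4 * (κ * h * L) := mul_le_mul_of_nonneg_left hd l4.le
      _ = Real.log 4 * κ * (h * L) := by ring
      _ ≤ _ := mul_le_mul_of_nonneg_right hκ (by positivity)
  have b4 : ((m - a : ℕ) : ℝ) * L ≤ β / 12 * h * L := mul_le_mul_of_nonneg_right hg hL0.le
  have b5 : (s' * (1 - β / 2)) * L ≤ (h * (1 - 3 * β / 4)) * L := by linarith
  have b6 := le_of_mul_le_mul_right b5 hL0
  have b7 : (s' : ℝ) = h - s := by linarith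
  rw [b7] at b6
  nlinarith

theorem R2_card {β κ : ℝ} {Y : ℕ} (hβ : 0 < β) (hβ1 : β ≤ 1) (hκ : Real.log 4 * κ ≤ β / 12)
    (hL : Real.log 4 ≤ β / 12 * Real.log N) (hY : (1 - β / 2) * Real.log N ≤ Real.log Y)
    (S : Finset ℕ) (hS : ∀ j ∈ S, ∃ m a b c d, Rep m a b c d ∧ m ≤ N ∧ j ∈ Ioc c b ∧
      ((m - a : ℕ) : ℝ) ≤ β / 12 * (b - c : ℕ) ∧
      Real.log (b - c : ℕ) ≤ (1 - β) * Real.log N ∧ d ≤ κ * (b - c : ℕ) * Real.log N) :
    (S.card : ℝ) ≤ (Nat.log 2 N + 1) * (16 / β * ((Ioc 0 N).filter (fun n => sp n ≤ Y)).card) := by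
  have := classes S (range (Nat.log 2 N + 1)) (fun i j => ∃ c b, j ∈ Ioc c b ∧ b ≤ N ∧ Nat.log 2 (b - c) = i ∧
    β / 4 * (b - c : ℕ) ≤ ((Ioc c b).filter (fun n => sp n ≤ Y)).card)
    (16 / β * ((Ioc 0 N).filter (fun n => sp n ≤ Y)).card) (fun j hj => by
      obtain ⟨m, a, b, c, d, R, h1, h2, h3, h4, h5⟩ := hS j hj
      have := R.h1; have := R.h2
      exact ⟨_, mem_range.2 (Nat.lt_succ_of_le (Nat.log_mono_right (show b - c ≤ N by omega))),
        c, b, h2, by omega, rfl, R2_many hβ hβ1 hκ hL hY R h1 h3 h4 h5⟩) (fun i _ S' _ hS' => by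
      set H := 2 ^ i
      have hH : (0 : ℝ) < H := by positivity
      have key := Finset.card_nsmul_le_card_nsmul (s := S') (t := (Ioc 0 N).filter (fun n => sp n ≤ Y))
        (fun j n => n < j + 2 * H ∧ j < n + 2 * H) (m := β / 4 * (H : ℝ)) (n := 4 * (H : ℝ))
        (fun j hj => by
          obtain ⟨c, b, h1, h2, h3, h4⟩ := hS' j hj
          have h1 := mem_Ioc.1 h1
          have a1 : H ≤ b - c := by
            have := Nat.pow_log_le_self 2 (show b - c ≠ 0 by omega)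
            rwa [h3] at this
          have a2 : b - c < 2 * H := by
            have := Nat.lt_pow_succ_log_self (b := 2) (by norm_num) (b - c)
            rw [h3, pow_succ] at this; omega
          have a3 : (H : ℝ) ≤ (b - c : ℕ) := by exact_mod_cast a1
          refine (mul_le_mul_of_nonneg_left a3 (by positivity)).trans (h4.trans ?_)
          norm_cast
          apply card_le_card
          intro n hn
          obtain ⟨h5, h6⟩ := mem_filter.1 hn
          have h5 := mem_Ioc.1 h5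
          simp only [bipartiteAbove, mem_filter, mem_Ioc]
          omega)
        (fun n hn => by
          have : (S'.bipartiteBelow (fun j n => n < j + 2 * H ∧ j < n + 2 * H) n).card ≤
              (Ico (n - 2 * H) (n + 2 * H)).card := by
            apply card_le_card
            intro j hj
            simp only [bipartiteBelow, mem_filter, mem_Ico] at hj ⊢
            omega
          rw [Nat.card_Ico] at this
          exact_mod_cast (show _ ≤ 4 * H by omega))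
      simp only [nsmul_eq_mul] at key
      rw [div_mul_eq_mul_div, le_div_iff₀ hβ]
      nlinarith)
  simpa using this

theorem dvd_choose_window {q D W x : ℕ} (hq : q.Prime) (hW : W < q) (h1 : D < x + W) (h2 : x ≤ D)
    (hd : q ∣ x) : q ∣ D.choose W := by
  have h3 : q ∣ D.descFactorial W := by
    rw [Nat.descFactorial_eq_prod_range]
    refine hd.trans ?_
    have := Finset.dvd_prod_of_mem (fun i => D - i) (mem_range.2 (show D - x < W by omega))
    simpa [Nat.sub_sub_self h2] using this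
  rw [Nat.descFactorial_eq_factorial_mul_choose] at h3
  exact (hq.dvd_mul.1 h3).resolve_left fun h => absurd (hq.dvd_factorial.1 h) (by omega)

theorem log_choose {D H : ℕ} (hH : 0 < H) (hD : 4 * H ≤ D) :
    Real.log ((D + 4 * H).choose (8 * H)) ≤ 8 * H * Real.log (D / H) := by
  have hH' : (0 : ℝ) < H := by exact_mod_cast hH
  have hD' : 4 * (H : ℝ) ≤ D := by exact_mod_cast hD
  have h1 : (((D + 4 * H).choose (8 * H) : ℕ) : ℝ) ≤ ((D + 4 * H : ℕ) : ℝ) ^ (8 * H) / (8 * H) ! :=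
    Nat.choose_le_pow_div _ _
  have h2 := Real.pow_div_factorial_le_exp (8 * H : ℝ) (by positivity) (8 * H)
  have h3 : Real.exp (8 * H) ≤ 4 ^ (8 * H) := by
    have : Real.exp (8 * H) = Real.exp 1 ^ (8 * H) := by rw [← Real.exp_nat_mul]; push_cast; ring_nf
    rw [this]
    exact pow_le_pow_left₀ (by positivity) (by linarith [Real.exp_one_lt_d9]) _
  have h4 : ((D + 4 * H : ℕ) : ℝ) ^ (8 * H) / (8 * H) ! ≤ ((D : ℝ) / H) ^ (8 * H) := by
    have a1 : ((D + 4 * H : ℕ) : ℝ) ≤ D / H / 4 * (8 * H) := by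
      push_cast; field_simp; nlinarith
    calc ((D + 4 * H : ℕ) : ℝ) ^ (8 * H) / (8 * H) ! ≤ (D / H / 4 * (8 * H)) ^ (8 * H) / (8 * H) ! := by gcongr
      _ = (D / H / 4) ^ (8 * H) * ((8 * H) ^ (8 * H) / (8 * H) !) := by rw [mul_pow]; ring
      _ ≤ (D / H / 4) ^ (8 * H) * 4 ^ (8 * H) := mul_le_mul_of_nonneg_left (h2.trans h3) (by positivity)
      _ = _ := by rw [← mul_pow]; congr 1; ring
  have h5 : 0 < (D + 4 * H).choose (8 * H) := Nat.choose_pos (by omega)
  have := Real.log_le_log (by exact_mod_cast h5) (h1.trans h4)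
  rw [Real.log_pow] at this
  exact_mod_cast this

theorem in_J (R : Rep m a b c d) {q : ℕ} (hq : q.Prime) (h1 : q ≤ d) (h2 : d < 2 * q)
    (h3 : ¬ ∃ n ∈ Ioc a m, q ∣ n) : ∃ n ∈ Ioc c b, q ∣ n := by
  have e := R.par q
  push Not at h3
  rw [sv_self hq hq.pos h1 h2, sv_zero h3] at e
  exact sv_ex fun h6 => by rw [h6] at e; simp at e

theorem R3_pair {d0 κ : ℝ} (e3 : ∀ y : ℕ, d0 ≤ y → (y : ℝ) / 4 ≤ θ y - θ (5 * y / 8))
    {m' a' b' c' d' T H j j' d1 : ℕ} (R : Rep m a b c d) (R' : Rep m' a' b' c' d') (h1 : m ≤ N) (h2 : m' ≤ N)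
    (g1 : m - a ≤ T) (g2 : m' - a' ≤ T) (j1 : j ∈ Ioc c b) (j2 : j' ∈ Ioc c' b') (hH : 0 < H)
    (k1 : b - c < 2 * H) (k2 : b' - c' < 2 * H) (d2 : d1 ≤ d) (d3 : 4 * d ≤ 5 * d1) (d4 : d1 ≤ d')
    (d5 : 4 * d' ≤ 5 * d1) (d6 : κ * H * Real.log N ≤ d1) (hT : 16 * T ≤ κ * H)
    (l1 : d0 ≤ κ * Real.log N) (l2 : 13 ≤ κ * Real.log N) (hj : j + 4 * H ≤ j') :
    κ / 64 * Real.log N ≤ Real.log ((j' - j : ℕ) / H) := by
  classical
  have hH' : (1 : ℝ) ≤ H := by exact_mod_cast hH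
  have hL := Real.log_natCast_nonneg N
  set L := Real.log N
  have c1 : 13 * (H : ℝ) ≤ d1 := by nlinarith
  have c2 : d0 ≤ d1 := by nlinarith
  have c3 := e3 d1 c2
  rw [theta_PR (by linarith)] at c3
  set Q := PR (5 * d1 / 8) d1
  have hQ : ∀ q ∈ Q, q.Prime ∧ 5 * d1 < 8 * q ∧ q ≤ d1 := fun q hq => by
    obtain ⟨a1, a2, a3⟩ := (mem_PR (by positivity)).1 hq
    refine ⟨a1, ?_, a3⟩
    have : (5 * d1 : ℝ) < 8 * q := by linarith
    exact_mod_cast this
  have c4 : 13 * H ≤ d1 := by exact_mod_cast c1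
  have := R.h1; have := R'.h1
  rw [← sum_filter_add_sum_filter_not Q (fun q => ∃ n ∈ Ioc a m ∪ Ioc a' m', q ∣ n)] at c3
  have c5 := mass (Q.filter (fun q => ∃ n ∈ Ioc a m ∪ Ioc a' m', q ∣ n)) (Ioc a m ∪ Ioc a' m') N
    (fun q hq => (hQ q (mem_filter.1 hq).1).1)
    (fun n hn => by rcases mem_union.1 hn with h | h <;> have := mem_Ioc.1 h <;> omega)
    (fun q hq => (mem_filter.1 hq).2)
  have c6 : (((Ioc a m ∪ Ioc a' m').card : ℕ) : ℝ) ≤ 2 * T := by
    have := card_union_le (Ioc a m) (Ioc a' m')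
    simp only [Nat.card_Ioc] at this
    exact_mod_cast (show _ ≤ 2 * T by omega)
  have c7 := mass1 (Q.filter (fun q => ¬ ∃ n ∈ Ioc a m ∪ Ioc a' m', q ∣ n))
    (fun q hq => (hQ q (mem_filter.1 hq).1).1)
    (n := (j' - j + 4 * H).choose (8 * H)) (Nat.choose_pos (by omega)).ne' (fun q hq => by
      obtain ⟨a1, a2⟩ := mem_filter.1 hq
      obtain ⟨a3, a4, a5⟩ := hQ q a1
      obtain ⟨n, hn, a6⟩ := in_J R a3 (by omega) (by omega) fun ⟨n, hn, h⟩ => a2 ⟨n, mem_union_left _ hn, h⟩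
      obtain ⟨n', hn', a7⟩ := in_J R' a3 (by omega) (by omega) fun ⟨n, hn, h⟩ => a2 ⟨n, mem_union_right _ hn, h⟩
      have := mem_Ioc.1 hn; have := mem_Ioc.1 hn'; have := mem_Ioc.1 j1; have := mem_Ioc.1 j2
      exact dvd_choose_window (x := n' - n) a3 (by omega) (by omega) (by omega) (Nat.dvd_sub a7 a6))
  have c8 := log_choose (D := j' - j) hH (by omega)
  have c9 := mul_le_mul_of_nonneg_right c6 hL
  have c10 := mul_le_mul_of_nonneg_right hT hL
  have c11 : H * (κ / 64 * L) ≤ H * Real.log ((j' - j : ℕ) / H) := by linarith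
  exact le_of_mul_le_mul_left c11 (by linarith)

theorem close4 {d d' : ℕ} (hd : 0 < d) (h : Nat.log 2 (d ^ 4) = Nat.log 2 (d' ^ 4)) : 4 * d' ≤ 5 * d := by
  have a1 := Nat.pow_log_le_self 2 (show d ^ 4 ≠ 0 by positivity)
  have a2 := Nat.lt_pow_succ_log_self (b := 2) (by norm_num) (d' ^ 4)
  rw [← h, pow_succ 2] at a2
  by_contra hc
  have a3 : (5 * d) ^ 4 ≤ (4 * d') ^ 4 := Nat.pow_le_pow_left (by omega) 4
  rw [mul_pow, mul_pow] at a3
  generalize d' ^ 4 = x at *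
  generalize 2 ^ log 2 (d ^ 4) = y at *
  omega

theorem R3_card {d0 κ G : ℝ} (e3 : ∀ y : ℕ, d0 ≤ y → (y : ℝ) / 4 ≤ θ y - θ (5 * y / 8))
    {T H0 y : ℕ} (hκ : 0 < κ) (hT : 32 * T ≤ κ * H0) (l1 : d0 ≤ κ * Real.log N) (l2 : 13 ≤ κ * Real.log N)
    (hy : 0 < y) (hy' : Real.log y ≤ κ / 64 * Real.log N) (hG : 0 ≤ G)
    (S : Finset ℕ) (hS : ∀ j ∈ S, ∃ m a b c d, Rep m a b c d ∧ m ≤ N ∧ j ∈ Ioc c b ∧
      m - a ≤ T ∧ H0 < b - c ∧ ((b - c : ℕ) : ℝ) ≤ G ∧ κ * (b - c : ℕ) * Real.log N ≤ d) :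
    (S.card : ℝ) ≤ (Nat.log 2 N + 1) * (Nat.log 2 (N ^ 4) + 1) * (4 * N / y + 4 * G) := by
  have hL := Real.log_natCast_nonneg N
  have := classes S (range (Nat.log 2 N + 1) ×ˢ range (Nat.log 2 (N ^ 4) + 1))
    (fun i j => ∃ m a b c d, (Rep m a b c d ∧ m ≤ N ∧ j ∈ Ioc c b ∧
      m - a ≤ T ∧ H0 < b - c ∧ ((b - c : ℕ) : ℝ) ≤ G ∧ κ * (b - c : ℕ) * Real.log N ≤ d) ∧
      Nat.log 2 (b - c) = i.1 ∧ Nat.log 2 (d ^ 4) = i.2) (4 * N / y + 4 * G) (fun j hj => by
      obtain ⟨m, a, b, c, d, h⟩ := hS j hj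
      have := h.1.h1; have := h.1.h2; have := h.1.h3; have := h.1.h4; have := h.2.1
      refine ⟨(_, _), mem_product.2 ⟨mem_range.2 (Nat.lt_succ_of_le (Nat.log_mono_right (show b - c ≤ N by omega))),
        mem_range.2 (Nat.lt_succ_of_le (Nat.log_mono_right (Nat.pow_le_pow_left (show d ≤ N by omega) 4)))⟩,
        m, a, b, c, d, h, rfl, rfl⟩) (fun i _ S' _ hS' => by
      set H := 2 ^ i.1
      have hH : 0 < H := by positivity
      have hH' : (0 : ℝ) < H := by positivity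
      have hy0 : (0 : ℝ) < y := by exact_mod_cast hy
      have cl : ∀ {b c : ℕ}, H0 < b - c → Nat.log 2 (b - c) = i.1 → H ≤ b - c ∧ b - c < 2 * H := by
        intro b c h1 h3
        refine ⟨by have := Nat.pow_log_le_self 2 (show b - c ≠ 0 by omega); rwa [h3] at this, ?_⟩
        have := Nat.lt_pow_succ_log_self (b := 2) (by norm_num) (b - c)
        rw [h3, pow_succ] at this; omega
      rcases S'.eq_empty_or_nonempty with rfl | ⟨j0, hj0⟩
      · simp; positivity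
      have hHG : (H : ℝ) ≤ G := by
        obtain ⟨m, a, b, c, d, ⟨-, -, -, -, h5, h6, -⟩, h8, -⟩ := hS' j0 hj0
        exact le_trans (by exact_mod_cast (cl h5 h8).1) h6
      have key := spaced S' N (4 * H) (H * y) (by omega) (by positivity) (fun j hj => by
        obtain ⟨m, a, b, c, d, ⟨R, h2, h3, -⟩, -⟩ := hS' j hj
        have := R.h1; have := R.h2; have := mem_Ioc.1 h3; omega) (fun j hj j' hj' hlt => by
        by_cases hc : j' - j < 4 * H
        · exact Or.inl hc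
        right
        obtain ⟨m, a, b, c, d, ⟨R, h2, h3, h4, h5, h6, h7⟩, h8, h9⟩ := hS' j hj
        obtain ⟨m', a', b', c', d', ⟨R', h2', h3', h4', h5', h6', h7'⟩, h8', h9'⟩ := hS' j' hj'
        obtain ⟨a1, a2⟩ := cl h5 h8
        obtain ⟨a1', a2'⟩ := cl h5' h8'
        have b1 : κ * H * Real.log N ≤ d := le_trans (by gcongr) h7
        have b2 : κ * H * Real.log N ≤ d' := le_trans (by gcongr) h7'
        have b0 : 0 < κ * H * Real.log N := by nlinarith
        have b3 : 0 < d := by exact_mod_cast b0.trans_le b1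
        have b4 : 0 < d' := by exact_mod_cast b0.trans_le b2
        have b5 := close4 b3 (h9.trans h9'.symm)
        have b6 := close4 b4 (h9'.trans h9.symm)
        have b7 : (H0 : ℝ) ≤ 2 * H := by exact_mod_cast (show H0 ≤ 2 * H by omega)
        have := R3_pair (d1 := min d d') e3 R R' h2 h2' h4 h4' h3 h3' hH a2 a2' (by omega) (by omega)
          (by omega) (by omega) (by push_cast; exact le_min b1 b2) (by nlinarith) l1 l2 (by omega)
        have b8 : (0 : ℝ) < (j' - j : ℕ) := by exact_mod_cast (show 0 < j' - j by omega)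
        have b9 := (Real.log_le_log_iff hy0 (by positivity)).1 (hy'.trans this)
        rw [le_div_iff₀ hH'] at b9
        exact_mod_cast (mul_comm (y : ℝ) H ▸ b9))
      have k2 : (S'.card : ℝ) ≤ (((N / (H * y) : ℕ) : ℝ) + 1) * (4 * H) := by exact_mod_cast key
      have k3 : ((N / (H * y) : ℕ) : ℝ) ≤ N / (H * y) := by
        have := Nat.cast_div_le (α := ℝ) (m := N) (n := H * y)
        exact_mod_cast this
      have k4 : (N : ℝ) / (H * y) * (4 * H) = 4 * N / y := by field_simp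
      nlinarith)
  simpa using this

end Pool.Agent.H60.D6
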