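import Pool.Agent.H60.D6c

/- The short regime and the bound for the representable elements. -/

namespace Pool.Agent.H60.D6

open Finset Nat Chebyshev

noncomputable def MM (H0 k l : ℕ) : ℕ := k * ∏ t ∈ Icc (-(H0 : ℤ)) H0, ((k : ℤ) * t + l).natAbs

theorem MM_ne {H0 k l : ℕ} (h0 : 0 < l) (h : l < k) : MM H0 k l ≠ 0 := by
  refine mul_ne_zero (by omega) (prod_ne_zero_iff.2 fun t _ h1 => ?_)
  have h2 : (k : ℤ) ∣ l := ⟨-t, by have := Int.natAbs_eq_zero.1 h1; linarith⟩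
  have := Nat.le_of_dvd h0 (Int.natCast_dvd_natCast.1 h2)
  omega

theorem MM_le {N H0 k l : ℕ} (h : l < k) (hk : k ≤ N) : MM H0 k l ≤ (N * (H0 + 1)) ^ (2 * H0 + 2) := by
  have h1 : ∏ t ∈ Icc (-(H0 : ℤ)) H0, ((k : ℤ) * t + l).natAbs ≤ (N * (H0 + 1)) ^ (2 * H0 + 1) := by
    have := Finset.prod_le_pow_card (Icc (-(H0 : ℤ)) H0) (fun t => ((k : ℤ) * t + l).natAbs) (N * (H0 + 1))
      (fun t ht => by
        have ht := mem_Icc.1 ht
        have a1 : ((k : ℤ) * t).natAbs ≤ N * H0 := by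
          rw [Int.natAbs_mul]
          exact Nat.mul_le_mul (by simpa using hk) (by omega)
        have a2 := Int.natAbs_add_le ((k : ℤ) * t) l
        simp only [Int.natAbs_natCast] at a2
        show ((k : ℤ) * t + l).natAbs ≤ N * (H0 + 1)
        rw [mul_add]; omega)
    rwa [Int.card_Icc, show ((H0 : ℤ) + 1 - -(H0 : ℤ)).toNat = 2 * H0 + 1 by omega] at this
  rw [MM, pow_succ' _ (2 * H0 + 1)]
  exact Nat.mul_le_mul (by nlinarith) h1

noncomputable def EE (N W H0 k l : ℕ) : Finset ℕ :=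
  (Ioc 0 N).filter (fun n => (sp n).primeFactors ⊆ PR 0 W ∪ (MM H0 k l).primeFactors)

theorem EE_card {N W H0 k l V : ℕ} (h0 : 0 < l) (h : l < k) (hk : k ≤ N) (hV : 2 ≤ V) :
    ((EE N W H0 k l).card : ℝ) ≤ (2 : ℝ) ^ ((V : ℝ) + (Real.log 4 * W + (2 * H0 + 2) * Real.log (N * (H0 + 1))) /
      Real.log V) * (Nat.sqrt N + 1) := by
  have h1 : ((EE N W H0 k l).card : ℝ) ≤
      ((2 ^ (PR 0 W ∪ (MM H0 k l).primeFactors).card * (Nat.sqrt N + 1) : ℕ) : ℝ) := by
    exact_mod_cast supp_card N _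
  push_cast at h1
  refine h1.trans (mul_le_mul_of_nonneg_right ?_ (by positivity))
  rw [← Real.rpow_natCast]
  apply Real.rpow_le_rpow_of_exponent_le (by norm_num)
  refine (card_mass _ V hV).trans ?_
  have hl := Real.log_pos (show (1 : ℝ) < V by exact_mod_cast hV)
  gcongr
  have h2 := sum_union_inter (s₁ := PR 0 W) (s₂ := (MM H0 k l).primeFactors) (f := fun q => Real.log q)
  have h3 : 0 ≤ ∑ q ∈ PR 0 W ∩ (MM H0 k l).primeFactors, Real.log q :=
    sum_nonneg fun q _ => Real.log_natCast_nonneg q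
  have h4 := mass1 (MM H0 k l).primeFactors (fun q hq => Nat.prime_of_mem_primeFactors hq) (MM_ne h0 h)
    (fun q hq => Nat.dvd_of_mem_primeFactors hq)
  have h5 : Real.log (MM H0 k l) ≤ Real.log (((N * (H0 + 1)) ^ (2 * H0 + 2) : ℕ) : ℝ) :=
    Real.log_le_log (by exact_mod_cast Nat.pos_of_ne_zero (MM_ne h0 h)) (by exact_mod_cast MM_le h hk)
  push_cast at h5
  rw [Real.log_pow] at h5
  push_cast at h5
  linarith [theta_nat W]

variable {N : ℕ} {P0 G1 G2 d0 : ℝ} {m a b c d : ℕ}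

theorem R1_mem {k p l W H0 : ℕ} (R : Rep (k * p) a b c d) (h2 : k * p ≤ N) (hp : p.Prime)
    (hl : l * p ∈ Ioc c b) (hg : k * p - a ≤ W) (hh : b - c ≤ H0) (hW : H0 ≤ W) (hd : d ≤ W)
    (h11 : ¬ (k * p - a = 1 ∧ b - c = 1)) :
    ∃ e ∈ EE N W H0 k l, k * p = e + 1 ∨ k * p = k * ((e - 1) / l) ∨ k * p = k * ((e + 1) / l) := by
  have := R.h1; have := R.h2; have := R.h3
  obtain ⟨a1, a2⟩ := mem_Ioc.1 hl
  have hl0 : 0 < l := by rcases l with _ | l <;> simp at a1 ⊢
  have hlk : l < k := lt_of_mul_lt_mul_right (show l * p < k * p by omega) (Nat.zero_le _)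
  have red : ∀ e, 0 < e → e ≤ N → (∀ q, q.Prime → q ∣ sp e → W < q → q ∣ MM H0 k l) → e ∈ EE N W H0 k l := by
    intro e h1 h2 h3
    refine mem_filter.2 ⟨mem_Ioc.2 ⟨h1, h2⟩, fun q hq => ?_⟩
    have hq1 := Nat.prime_of_mem_primeFactors hq
    by_cases hc : q ≤ W
    · exact mem_union_left _ ((mem_PR le_rfl).2 ⟨hq1, by exact_mod_cast hq1.pos, hc⟩)
    · exact mem_union_right _ (Nat.mem_primeFactors.2
        ⟨hq1, h3 q hq1 (Nat.dvd_of_mem_primeFactors hq) (by omega), MM_ne hl0 hlk⟩)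
  by_cases hg1 : k * p - a = 1
  · have key : ∀ e ∈ Ioc c b, (e + 1 = l * p ∨ e = l * p + 1) → e ∈ EE N W H0 k l := by
      intro e he h3
      have he' := mem_Ioc.1 he
      refine red e (by omega) (by omega) fun q hq h4 h5 => ?_
      have h6 := h4.trans (sp_dvd (by omega))
      have e1 := R.par q
      rw [sv_single he h6 (by omega), sv_lt (show d < q by omega)] at e1
      have o := sp_odd (by omega) hq h4
      obtain ⟨n, hn, h7⟩ := sv_ex (q := q) (u := a) (w := k * p)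
        fun h8 => by rw [h8] at e1; simp at e1; exact (Nat.not_even_iff_odd.2 o) e1
      have hn' := mem_Ioc.1 hn
      rw [show n = k * p by omega] at h7
      rcases hq.dvd_mul.1 h7 with h8 | h8
      · exact h8.mul_right _
      · exfalso
        have h9 : q ∣ l * p := h8.mul_left _
        rcases h3 with h3 | h3
        · rw [← h3] at h9; exact hq.not_dvd_one ((Nat.dvd_add_right h6).1 h9)
        · rw [h3] at h6; exact hq.not_dvd_one ((Nat.dvd_add_right h9).1 h6)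
    by_cases hc : l * p < b
    · refine ⟨l * p + 1, key _ (mem_Ioc.2 ⟨by omega, hc⟩) (Or.inr rfl), Or.inr (Or.inl ?_)⟩
      rw [Nat.add_sub_cancel, Nat.mul_div_cancel_left _ hl0]
    · refine ⟨l * p - 1, key _ (mem_Ioc.2 ⟨by omega, by omega⟩) (Or.inl (by omega)), Or.inr (Or.inr ?_)⟩
      rw [Nat.sub_add_cancel (by omega), Nat.mul_div_cancel_left _ hl0]
  · refine ⟨k * p - 1, red _ (by omega) (by omega) fun q hq h4 h5 => ?_, Or.inl (by omega)⟩
    have h6 := h4.trans (sp_dvd (by omega))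
    have e1 := R.par q
    rw [sv_single (show k * p - 1 ∈ Ioc a (k * p) from mem_Ioc.2 ⟨by omega, by omega⟩) h6 (by omega),
      sv_lt (show d < q by omega)] at e1
    have o := sp_odd (by omega) hq h4
    obtain ⟨n, hn, h7⟩ := sv_ex (q := q) (u := c) (w := b)
      fun h8 => by rw [h8] at e1; simp at e1; exact (Nat.not_even_iff_odd.2 o) e1
    have hn' := mem_Ioc.1 hn
    have h8 : (q : ℤ) ∣ k * ((n : ℤ) - (l * p : ℕ)) + l := by
      have b1 : (q : ℤ) ∣ (n : ℤ) := Int.natCast_dvd_natCast.2 h7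
      have b2 : (q : ℤ) ∣ ((k * p - 1 : ℕ) : ℤ) := Int.natCast_dvd_natCast.2 h6
      rw [Nat.cast_sub (by omega)] at b2
      have := (b1.mul_left k).sub (b2.mul_left l)
      have e : (k : ℤ) * n - l * ((k * p : ℕ) - (1 : ℕ)) = k * ((n : ℤ) - (l * p : ℕ)) + l := by
        push_cast; ring
      rwa [e] at this
    refine Dvd.dvd.mul_left ((Int.natCast_dvd.1 h8).trans ?_) _
    exact Finset.dvd_prod_of_mem (fun t : ℤ => ((k : ℤ) * t + l).natAbs)
      (mem_Icc.2 ⟨by omega, by omega⟩)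

open Classical in
/-- the test set -/
noncomputable def AA (N Z T : ℕ) : Finset ℕ :=
  (Ioc (N / 2) N).filter (fun m => ∃ k p, m = k * p ∧ p.Prime ∧ 2 ≤ k ∧ k ≤ Z ∧ Good T k)

theorem mem_AA {Z T m : ℕ} (hm : m ∈ AA N Z T) : (N : ℝ) / 2 < m ∧ m ≤ N ∧
    ∃ k p, m = k * p ∧ p.Prime ∧ (N : ℝ) / (2 * Z) < p ∧ 2 ≤ k ∧ k ≤ Z ∧ Good T k := by
  classical
  obtain ⟨h1, k, p, h2, h3, h4, h5, h6⟩ := mem_filter.1 hm
  have h1 := mem_Ioc.1 h1
  have h7 : (N : ℝ) < 2 * m := by exact_mod_cast (show N < 2 * m by omega)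
  refine ⟨by linarith, h1.2, k, p, h2, h3, ?_, h4, h5, h6⟩
  have h8 : (0 : ℝ) < Z := by exact_mod_cast (show 0 < Z by omega)
  have h9 : (m : ℝ) ≤ Z * p := by exact_mod_cast h2 ▸ Nat.mul_le_mul_right p h5
  rw [div_lt_iff₀ (by positivity)]; linarith

theorem short_g {Z T : ℕ} (E : Env N (N / (2 * Z)) G1 G2 d0) (hm : m ∈ AA N Z T) (R : Rep m a b c d)
    {m' : ℕ} (hm' : m' ∈ AA N Z T) (h1 : m' < m) (h2 : m - m' < T) : m - a < T := by
  obtain ⟨a1, a2, k, p, rfl, hp, hP, a3, a4, hk⟩ := mem_AA hm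
  obtain ⟨-, -, k', p', rfl, hp', hP', -, -, -⟩ := mem_AA hm'
  by_contra hc
  obtain ⟨l, hl⟩ := detE E R a1 a2 hp (Dvd.intro_left _ rfl) hP (mem_Ioc.2 ⟨R.h1, le_rfl⟩) hp
    (Dvd.intro_left _ rfl) hP
  obtain ⟨l', hl'⟩ := partner E R a1 a2 hp hP hl (mem_Ioc.2 ⟨by omega, h1.le⟩) hp' hP'
  have hco : Nat.Coprime k k' := by
    apply Nat.Coprime.symm
    rw [Nat.coprime_comm, ← Nat.disjoint_primeFactors (by omega) (by rintro rfl; have := R.h1; omega),
      Finset.disjoint_left]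
    intro q hq hq'
    have b1 := hk.rough q (Nat.prime_of_mem_primeFactors hq) (Nat.dvd_of_mem_primeFactors hq)
    have := Nat.le_of_dvd (by omega) (Nat.dvd_sub ((Nat.dvd_of_mem_primeFactors hq).mul_right p)
      ((Nat.dvd_of_mem_primeFactors hq').mul_right p'))
    omega
  have := R.h1; have := R.h2
  obtain ⟨b1, b2⟩ := mem_Ioc.1 hl
  have hl0 : 0 < l := by rcases l with _ | l <;> simp at b1 ⊢
  have hlk : l < k := lt_of_mul_lt_mul_right (show l * p < k * p by omega) (Nat.zero_le _)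
  have := Nat.le_of_dvd hl0 (hco.dvd_of_dvd_mul_left (Dvd.intro _ hl'))
  omega

open Classical in
theorem bad_card {Z T H0 W : ℕ} {β κ B1 B2 B3 : ℝ} (E : Env N (N / (2 * Z)) G1 G2 d0) (hT : 0 < T)
    (hd0 : d0 ≤ T) (hW : 4 * (T + H0) * Real.log N + d0 ≤ W) (hβ : 0 ≤ β) (hH0 : T ≤ β / 12 * H0)
    (hG2 : Real.log G2 ≤ (1 - β) * Real.log N) (hB1 : 0 ≤ B1)
    (h1 : ∀ k l, 0 < l → l < k → k ≤ N → ((EE N W H0 k l).card : ℝ) ≤ B1)
    (h2 : ∀ S : Finset ℕ, (∀ j ∈ S, ∃ m a b c d, Rep m a b c d ∧ m ≤ N ∧ j ∈ Ioc c b ∧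
      ((m - a : ℕ) : ℝ) ≤ β / 12 * (b - c : ℕ) ∧
      Real.log (b - c : ℕ) ≤ (1 - β) * Real.log N ∧ d ≤ κ * (b - c : ℕ) * Real.log N) → (S.card : ℝ) ≤ B2)
    (h3 : ∀ S : Finset ℕ, (∀ j ∈ S, ∃ m a b c d, Rep m a b c d ∧ m ≤ N ∧ j ∈ Ioc c b ∧
      m - a ≤ T ∧ H0 < b - c ∧ ((b - c : ℕ) : ℝ) ≤ G2 ∧ κ * (b - c : ℕ) * Real.log N ≤ d) → (S.card : ℝ) ≤ B3) :
    (((AA N Z T).filter (fun m => ∃ a b c d, Rep m a b c d)).card : ℝ) ≤
      N / T + 1 + Z ^ 2 * (3 * B1 + B2 + B3) := by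
  set Bad := (AA N Z T).filter (fun m => ∃ a b c d, Rep m a b c d)
  set Iso := (AA N Z T).filter (fun m => ∀ m' ∈ AA N Z T, m' < m → T ≤ m - m')
  set S2 := (range (N + 1)).filter (fun j => ∃ m a b c d, Rep m a b c d ∧ m ≤ N ∧ j ∈ Ioc c b ∧
      ((m - a : ℕ) : ℝ) ≤ β / 12 * (b - c : ℕ) ∧
      Real.log (b - c : ℕ) ≤ (1 - β) * Real.log N ∧ d ≤ κ * (b - c : ℕ) * Real.log N)
  set S3 := (range (N + 1)).filter (fun j => ∃ m a b c d, Rep m a b c d ∧ m ≤ N ∧ j ∈ Ioc c b ∧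
      m - a ≤ T ∧ H0 < b - c ∧ ((b - c : ℕ) : ℝ) ≤ G2 ∧ κ * (b - c : ℕ) * Real.log N ≤ d)
  have c2 := h2 S2 fun j hj => (mem_filter.1 hj).2
  have c3 := h3 S3 fun j hj => (mem_filter.1 hj).2
  have c1 : (Iso.card : ℝ) ≤ N / T + 1 := by
    have := spaced Iso N 1 T one_pos hT (fun j hj => (mem_AA (mem_filter.1 hj).1).2.1)
      (fun j hj j' hj' h => Or.inr ((mem_filter.1 hj').2 j (mem_filter.1 hj).1 h))
    have a1 : (Iso.card : ℝ) ≤ ((N / T : ℕ) : ℝ) + 1 := by exact_mod_cast (by simpa using this)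
    linarith [Nat.cast_div_le (α := ℝ) (m := N) (n := T)]
  have c4 := classes (Bad \ Iso) (Icc 1 Z ×ˢ Icc 1 Z) (fun i m => i.2 < i.1 ∧ i.1 ≤ N ∧
    m ∈ ((EE N W H0 i.1 i.2).image (· + 1) ∪ (EE N W H0 i.1 i.2).image (fun e => i.1 * ((e - 1) / i.2)) ∪
      (EE N W H0 i.1 i.2).image (fun e => i.1 * ((e + 1) / i.2))) ∪ (S2 ∪ S3).image (fun j => i.1 * (j / i.2)))
    (3 * B1 + B2 + B3) (fun m hm => by
      obtain ⟨b1, b2⟩ := mem_sdiff.1 hm
      obtain ⟨hA, a, b, c, d, R⟩ := mem_filter.1 b1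
      have hg : m - a < T := by
        by_contra hc
        refine b2 (mem_filter.2 ⟨hA, fun m' hm' h => ?_⟩)
        by_contra hc'
        exact hc (short_g E hA R hm' h (by omega))
      obtain ⟨a1, a2, k, p, rfl, hp, hP, a3, a4, hk⟩ := mem_AA hA
      obtain ⟨l, hl⟩ := detE E R a1 a2 hp (Dvd.intro_left _ rfl) hP (mem_Ioc.2 ⟨R.h1, le_rfl⟩) hp
        (Dvd.intro_left _ rfl) hP
      have := R.h1; have := R.h2
      obtain ⟨b1, b2⟩ := mem_Ioc.1 hl
      have hl0 : 0 < l := by rcases l with _ | l <;> simp at b1 ⊢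
      have hlk : l < k := lt_of_mul_lt_mul_right (show l * p < k * p by omega) (Nat.zero_le _)
      have hkN : k ≤ N := le_trans (Nat.le_mul_of_pos_right _ hp.pos) a2
      refine ⟨(k, l), mem_product.2 ⟨mem_Icc.2 ⟨by omega, a4⟩, mem_Icc.2 ⟨hl0, by omega⟩⟩, hlk, hkN, ?_⟩
      have hL := E.g5
      have hd0' := E.g6
      by_cases hh : b - c ≤ H0
      · apply mem_union_left
        have hD := detD E R a2
        have d1 : ((k * p - a : ℕ) : ℝ) + (b - c : ℕ) ≤ T + H0 := by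
          exact_mod_cast (show k * p - a + (b - c) ≤ T + H0 by omega)
        have d2 : (d : ℝ) ≤ W := by nlinarith
        have d3 : ((T + H0 : ℕ) : ℝ) ≤ W := by
          have : (0 : ℝ) ≤ T + H0 := by positivity
          push_cast; nlinarith
        have d4 : T + H0 ≤ W := by exact_mod_cast d3
        have d5 : d < p := by
          have := detD' E R a1 a2 hp (Dvd.intro_left _ rfl) hP
          exact_mod_cast this.trans_lt hP
        have d6 : k < p := by
          have := E.sq hP a2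
          rw [sq] at this
          exact lt_of_mul_lt_mul_right this (Nat.zero_le _)
        obtain ⟨e, he, h⟩ := R1_mem (W := W) R a2 hp hl (by omega) hh (by omega) (by exact_mod_cast d2)
          (fun h => one_one E R hk.sqf (hk.small d) (by
            by_cases hc : d ≤ T
            · left
              refine filter_eq_empty_iff.2 fun q hq h => ?_
              have := hk.rough q (Nat.prime_of_mem_primeFactors hq) (Nat.dvd_of_mem_primeFactors hq)
              omega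
            · right
              exact hd0.trans (by exact_mod_cast (not_le.1 hc).le)) hp d6 d5 hl h.1 h.2)
        simp only [mem_union, mem_image]
        rcases h with h | h | h
        · exact Or.inl (Or.inl ⟨e, he, h.symm⟩)
        · exact Or.inl (Or.inr ⟨e, he, h.symm⟩)
        · exact Or.inr ⟨e, he, h.symm⟩
      · apply mem_union_right
        refine mem_image.2 ⟨l * p, ?_, by simp only; rw [Nat.mul_div_cancel_left _ hl0]⟩
        have hC := (detC E R a1 a2 hp (Dvd.intro_left _ rfl) hP).2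
        have hr : l * p ∈ range (N + 1) := mem_range.2 (by omega)
        rcases le_total (d : ℝ) (κ * (b - c : ℕ) * Real.log N) with h | h
        · refine mem_union_left _ (mem_filter.2 ⟨hr, _, a, b, c, d, R, a2, hl, ?_, ?_, h⟩)
          · have d1 : ((k * p - a : ℕ) : ℝ) ≤ T := by exact_mod_cast hg.le
            have d2 : (H0 : ℝ) ≤ (b - c : ℕ) := by exact_mod_cast (not_le.1 hh).le
            nlinarith
          · exact (Real.log_le_log (by exact_mod_cast (show 0 < b - c by omega)) hC).trans hG2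
        · exact mem_union_right _ (mem_filter.2 ⟨hr, _, a, b, c, d, R, a2, hl, hg.le, by omega, hC, h⟩))
    (fun i hi S' _ hS' => by
      rcases S'.eq_empty_or_nonempty with rfl | ⟨j0, hj0⟩
      · have : (0 : ℝ) ≤ S2.card := by positivity
        have : (0 : ℝ) ≤ S3.card := by positivity
        simp; linarith
      obtain ⟨b1, b2, -⟩ := hS' j0 hj0
      have b3 := h1 i.1 i.2 (mem_Icc.1 (mem_product.1 hi).2).1 b1 b2
      have b4 := card_le_card (show S' ⊆ _ from fun j hj => (hS' j hj).2.2)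
      have b5 := b4.trans ((card_union_le _ _).trans (Nat.add_le_add ((card_union_le _ _).trans
        (Nat.add_le_add ((card_union_le _ _).trans (Nat.add_le_add card_image_le card_image_le)) card_image_le))
        (card_image_le.trans (card_union_le _ _))))
      have b6 : (S'.card : ℝ) ≤ (((EE N W H0 i.1 i.2).card + (EE N W H0 i.1 i.2).card + (EE N W H0 i.1 i.2).card +
        (S2.card + S3.card) : ℕ) : ℝ) := by exact_mod_cast b5
      push_cast at b6
      linarith)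
  have c5 : (Bad.card : ℝ) ≤ (((Bad \ Iso).card + Iso.card : ℕ) : ℝ) := by
    exact_mod_cast card_le_card_sdiff_add_card
  simp only [card_product, Nat.card_Icc, Nat.add_sub_cancel] at c4
  push_cast at c4 c5
  nlinarith

end Pool.Agent.H60.D6
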