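import Pool.Agent.H60.D6d

/- The test set is large. -/

namespace Pool.Agent.H60.D6

open Finset Nat Chebyshev

def Cl (R : Finset ℕ) : Prop := ∀ k ∈ R, 0 < k ∧ ∀ u, u ∣ k → u ∈ R

theorem Cl.filter {ι : Type*} {R : Finset ℕ} (h : Cl R) (s : Finset ι) (f : ι → ℕ) :
    Cl (R.filter (fun k => ∀ i ∈ s, ¬ f i ∣ k)) := fun k hk => by
  obtain ⟨h1, h2⟩ := mem_filter.1 hk
  exact ⟨(h k h1).1, fun u hu => mem_filter.2 ⟨(h k h1).2 u hu, fun i hi h3 => h2 i hi (h3.trans hu)⟩⟩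

theorem Cl.sieve {ι : Type*} {R : Finset ℕ} (h : Cl R) (s : Finset ι) (f : ι → ℕ) :
    (1 - ∑ i ∈ s, (1 : ℝ) / f i) * ∑ k ∈ R, (1 : ℝ) / k ≤
      ∑ k ∈ R.filter (fun k => ∀ i ∈ s, ¬ f i ∣ k), (1 : ℝ) / k := by
  classical
  have h1 := sum_filter_add_sum_filter_not R (fun k => ∀ i ∈ s, ¬ f i ∣ k) (fun k => (1 : ℝ) / k)
  have h2 : ∑ k ∈ R.filter (fun k => ¬ ∀ i ∈ s, ¬ f i ∣ k), (1 : ℝ) / k ≤
      ∑ i ∈ s, ∑ k ∈ R.filter (f i ∣ ·), (1 : ℝ) / k := by
    simp only [sum_filter]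
    rw [sum_comm]
    refine sum_le_sum fun k _ => ?_
    split_ifs with hc
    · exact sum_nonneg fun i _ => by positivity
    · push Not at hc
      obtain ⟨i, hi, h3⟩ := hc
      have := single_le_sum (f := fun i => if f i ∣ k then (1 : ℝ) / k else 0) (fun i _ => by positivity) hi
      simpa [h3] using this
  have h3 : ∀ i ∈ s, ∑ k ∈ R.filter (f i ∣ ·), (1 : ℝ) / k ≤ 1 / f i * ∑ k ∈ R, (1 : ℝ) / k := by
    intro i _
    have a1 : R.filter (f i ∣ ·) ⊆ R.image (f i * ·) := fun k hk => by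
      obtain ⟨b1, u, rfl⟩ := mem_filter.1 hk
      exact mem_image.2 ⟨u, (h _ b1).2 u (Dvd.intro_left _ rfl), rfl⟩
    refine (sum_le_sum_of_subset_of_nonneg a1 fun _ _ _ => by positivity).trans ?_
    refine (Finset.sum_image_le_of_nonneg fun _ _ => by positivity).trans (le_of_eq ?_)
    rw [mul_sum]
    exact sum_congr rfl fun k _ => by push_cast; rw [one_div_mul_one_div]
  have h4 := sum_le_sum h3
  rw [← sum_mul] at h4
  linarith

theorem rough_sum (z t : ℕ) : ∃ R : Finset ℕ, Cl R ∧ (∀ k ∈ R, k ≤ z ∧ ∀ q, q.Prime → q ∣ k → 2 * t + 2 < q) ∧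
    Real.log (z + 1) / (2 * √(2 * t + 1)) ≤ ∑ k ∈ R, (1 : ℝ) / k := by
  have hL : 0 ≤ Real.log (z + 1) := Real.log_nonneg (by have : (0 : ℝ) ≤ z := by positivity
                                                        linarith)
  induction t with
  | zero =>
    have hc : Cl (Icc 1 z) := fun k hk => by
      have := mem_Icc.1 hk
      refine ⟨by omega, fun u hu => mem_Icc.2 ⟨Nat.pos_of_dvd_of_pos hu (by omega), ?_⟩⟩
      exact (Nat.le_of_dvd (by omega) hu).trans this.2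
    refine ⟨_, hc.filter {2} id, fun k hk => ?_, le_trans ?_ (hc.sieve {2} id)⟩
    · obtain ⟨h1, h2⟩ := mem_filter.1 hk
      refine ⟨(mem_Icc.1 h1).2, fun q hq hd => ?_⟩
      have := hq.two_le
      have : q ≠ 2 := by rintro rfl; exact h2 2 (by simp) hd
      omega
    · have := log_add_one_le_harmonic z
      rw [harmonic_eq_sum_Icc] at this
      push_cast at this
      simp only [one_div]
      simp
      linarith
  | succ t ih =>
    obtain ⟨R, hc, h1, h2⟩ := ih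
    refine ⟨_, hc.filter {2 * t + 3} id, fun k hk => ?_, le_trans ?_ (hc.sieve {2 * t + 3} id)⟩
    · obtain ⟨h3, h4⟩ := mem_filter.1 hk
      refine ⟨(h1 k h3).1, fun q hq hd => ?_⟩
      have := (h1 k h3).2 q hq hd
      have : q ≠ 2 * t + 3 := by rintro rfl; exact h4 _ (by simp) hd
      have := hq.eq_two_or_odd
      omega
    · simp only [sum_singleton, id]
      have t0 : (0 : ℝ) ≤ t := by positivity
      refine le_trans ?_ (mul_le_mul_of_nonneg_left h2 (by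
        push_cast; rw [sub_nonneg, div_le_one (by positivity)]; linarith))
      push_cast
      have ha := Real.sq_sqrt (show (0 : ℝ) ≤ 2 * t + 1 by positivity)
      have hb := Real.sq_sqrt (show (0 : ℝ) ≤ 2 * (t + 1) + 1 by positivity)
      have ha0 := Real.sqrt_pos.2 (show (0 : ℝ) < 2 * t + 1 by positivity)
      have hb0 := Real.sqrt_pos.2 (show (0 : ℝ) < 2 * (t + 1) + 1 by positivity)
      set a := √(2 * t + 1 : ℝ)
      set b := √(2 * (t + 1) + 1 : ℝ)
      have e1 : (2 * t + 3 : ℝ) = b ^ 2 := by linarith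
      have e2 : a * b ≤ b ^ 2 - 1 := by nlinarith [sq_nonneg (a - b)]
      rw [e1, show (1 - 1 / b ^ 2) * (Real.log (z + 1) / (2 * a)) =
        Real.log (z + 1) / (2 * b) * ((b ^ 2 - 1) / (a * b)) by field_simp]
      exact le_mul_of_one_le_right (by positivity) ((one_le_div (by positivity)).2 e2)

theorem pi_small : ∃ d2 : ℕ, ∀ d ≥ d2, (2 : ℝ) ^ (PR 0 d).card * Real.exp (-(d / 8)) ≤ 1 / (d : ℝ) ^ 2 := by
  obtain ⟨V, hV, hV'⟩ : ∃ V : ℕ, 2 ≤ V ∧ 16 * Real.log 4 ≤ Real.log V :=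
    ⟨4 ^ 16, by norm_num, by push_cast [-Nat.reducePow]; rw [Real.log_pow]; simp⟩
  refine ⟨6 * 16 ^ 3 * 3 ^ V, fun d hd => ?_⟩
  have hd' : (6 * 16 ^ 3 * 3 ^ V : ℝ) ≤ d := by exact_mod_cast hd
  have hd0 : (0 : ℝ) < d := lt_of_lt_of_le (by positivity) hd'
  have h1 := card_mass (PR 0 d) V hV
  have l4 : 0 < Real.log 4 := Real.log_pos (by norm_num)
  have h2 : (∑ q ∈ PR 0 d, Real.log q) / Real.log V ≤ d / 16 := by
    rw [div_le_iff₀ (by linarith)]
    nlinarith [theta_nat d]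
  have h3 : (2 : ℝ) ^ (PR 0 d).card ≤ Real.exp (V + d / 16) := by
    refine le_trans (pow_le_pow_left₀ (by norm_num) (show (2 : ℝ) ≤ Real.exp 1 by linarith [Real.exp_one_gt_d9]) _) ?_
    rw [← Real.exp_nat_mul]
    exact Real.exp_le_exp.2 (by linarith)
  have h4 : Real.exp V ≤ 3 ^ V := by
    rw [show (V : ℝ) = V * 1 by ring, Real.exp_nat_mul]
    exact pow_le_pow_left₀ (by positivity) (by linarith [Real.exp_one_lt_d9]) _
  have h5 := Real.pow_div_factorial_le_exp (d / 16 : ℝ) (by positivity) 3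
  have h6 : Real.exp V * d ^ 2 ≤ Real.exp (d / 16) := by
    refine le_trans ?_ h5
    have : (d / 16 : ℝ) ^ 3 / (3 : ℕ)! = d / (6 * 16 ^ 3) * d ^ 2 := by norm_num [Nat.factorial]; ring
    rw [this]
    refine mul_le_mul_of_nonneg_right (h4.trans ?_) (by positivity)
    rw [le_div_iff₀ (by positivity)]; linarith
  refine (mul_le_mul_of_nonneg_right h3 (by positivity)).trans ?_
  rw [le_div_iff₀ (by positivity), ← Real.exp_add,
    show (V : ℝ) + d / 16 + -(d / 8) = V - d / 16 by ring, Real.exp_sub, div_mul_eq_mul_div,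
    div_le_one (by positivity)]
  exact h6

theorem good_sum : ∃ t0 : ℕ, ∀ t ≥ t0, ∀ z : ℕ, ∃ G : Finset ℕ, (∀ k ∈ G, 2 ≤ k ∧ k ≤ z ∧ Good (2 * t + 2) k) ∧
    Real.log (z + 1) / (8 * √(2 * t + 1)) - 1 ≤ ∑ k ∈ G, (1 : ℝ) / k := by
  classical
  obtain ⟨d2, hd2⟩ := pi_small
  refine ⟨d2, fun t ht z => ?_⟩
  obtain ⟨R, hc, h1, h2⟩ := rough_sum z t
  set T := 2 * t + 2
  have hs : ∀ n, ∑ q ∈ Ioc T n, (1 : ℝ) / (q : ℝ) ^ 2 ≤ 1 / 2 := by
    intro n
    rcases le_total T n with h | h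
    · have := sum_Ioc_inv_sq_le_sub (α := ℝ) (show T ≠ 0 by omega) h
      have a1 : (T : ℝ)⁻¹ ≤ 2⁻¹ := inv_anti₀ (by norm_num) (by exact_mod_cast (show 2 ≤ T by omega))
      have a2 : (0 : ℝ) ≤ (n : ℝ)⁻¹ := by positivity
      simp only [one_div]; linarith
    · rw [Ioc_eq_empty (by omega)]; simp
  have c1 := hc.sieve (Ioc T z) (fun q => q * q)
  have hc1 := hc.filter (Ioc T z) (fun q => q * q)
  set R1 := R.filter (fun k => ∀ q ∈ Ioc T z, ¬ q * q ∣ k)
  set s := (Ioc T (8 * z)).sigma (fun d => (PR 0 d).powerset.filter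
    (fun U => Real.exp (d / 8) ≤ ((∏ q ∈ U, q : ℕ) : ℝ)))
  have c2 := hc1.sieve s (fun i => ∏ q ∈ i.2, q)
  set R2 := R1.filter (fun k => ∀ i ∈ s, ¬ (∏ q ∈ i.2, q) ∣ k)
  have c3 : ∑ q ∈ Ioc T z, (1 : ℝ) / ((q * q : ℕ) : ℝ) ≤ 1 / 2 := by
    refine le_trans (le_of_eq (sum_congr rfl fun q _ => ?_)) (hs z)
    push_cast; ring
  have c4 : ∑ i ∈ s, (1 : ℝ) / ((∏ q ∈ i.2, q : ℕ) : ℝ) ≤ 1 / 2 := by
    rw [sum_sigma]
    refine le_trans (sum_le_sum fun d hd => ?_) (hs (8 * z))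
    refine le_trans ?_ (hd2 d (by have := mem_Ioc.1 hd; omega))
    refine (Finset.sum_le_card_nsmul _ _ (Real.exp (-(d / 8))) fun U hU => ?_).trans ?_
    · rw [Real.exp_neg, ← one_div]
      exact one_div_le_one_div_of_le (by positivity) (mem_filter.1 hU).2
    · rw [nsmul_eq_mul]
      refine mul_le_mul_of_nonneg_right ?_ (by positivity)
      exact_mod_cast (card_filter_le _ _).trans (card_powerset _).le
  have p0 : 0 ≤ ∑ k ∈ R, (1 : ℝ) / k := sum_nonneg fun _ _ => by positivity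
  have p1 : 0 ≤ ∑ k ∈ R1, (1 : ℝ) / k := sum_nonneg fun _ _ => by positivity
  refine ⟨R2.erase 1, fun k hk => ?_, ?_⟩
  · obtain ⟨a1, a2⟩ := mem_erase.1 hk
    obtain ⟨a3, a4⟩ := mem_filter.1 a2
    obtain ⟨a5, a6⟩ := mem_filter.1 a3
    have a7 := (hc k a5).1
    obtain ⟨a8, a9⟩ := h1 k a5
    have hsf : Squarefree k := Nat.squarefree_iff_prime_squarefree.2 fun q hq hd =>
      a6 q (mem_Ioc.2 ⟨a9 q hq ((Dvd.intro _ rfl).trans hd),
        (Nat.le_of_dvd a7 ((Dvd.intro _ rfl).trans hd)).trans a8⟩) hd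
    refine ⟨by omega, a8, hsf, a9, fun d => ?_⟩
    by_contra hc
    have hc := lt_of_not_ge hc
    have b1 : T < d := by
      by_contra h
      rw [filter_eq_empty_iff.2 fun q hq h => by
        have := a9 q (Nat.prime_of_mem_primeFactors hq) (Nat.dvd_of_mem_primeFactors hq); omega] at hc
      have : (0 : ℝ) ≤ d / 8 := by positivity
      simp at hc; linarith
    have b2 := mass1 (k.primeFactors.filter (· ≤ d)) (fun q hq => Nat.prime_of_mem_primeFactors (mem_filter.1 hq).1)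
      a7.ne' (fun q hq => Nat.dvd_of_mem_primeFactors (mem_filter.1 hq).1)
    have b3 : d ≤ 8 * z := by
      have := Real.log_le_self (show (0 : ℝ) ≤ k by positivity)
      have : (k : ℝ) ≤ z := by exact_mod_cast a8
      exact_mod_cast (show (d : ℝ) ≤ 8 * z by linarith)
    refine a4 ⟨d, k.primeFactors.filter (· ≤ d)⟩ (mem_sigma.2 ⟨mem_Ioc.2 ⟨b1, b3⟩, mem_filter.2 ⟨mem_powerset.2 ?_, ?_⟩⟩) ?_
    · intro q hq
      have := Nat.prime_of_mem_primeFactors (mem_filter.1 hq).1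
      exact (mem_PR le_rfl).2 ⟨this, by exact_mod_cast this.pos, (mem_filter.1 hq).2⟩
    · rw [← Real.log_prod (fun q hq => by exact_mod_cast (Nat.prime_of_mem_primeFactors (mem_filter.1 hq).1).ne_zero)] at hc
      rw [Nat.cast_prod]
      exact ((Real.lt_log_iff_exp_lt (prod_pos fun q hq => by
        exact_mod_cast (Nat.prime_of_mem_primeFactors (mem_filter.1 hq).1).pos)).1 hc).le
    · exact (prod_dvd_prod_of_subset _ _ _ (filter_subset _ _)).trans (Nat.prod_primeFactors_dvd k)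
  · have a1 : ∑ k ∈ R2, (1 : ℝ) / k ≤ ∑ k ∈ R2.erase 1, (1 : ℝ) / k + 1 := by
      by_cases h : 1 ∈ R2
      · rw [← sum_erase_add _ _ h]; simp
      · rw [erase_eq_of_notMem h]; linarith
    have a2 : Real.log (z + 1) / (8 * √(2 * t + 1)) = Real.log (z + 1) / (2 * √(2 * t + 1)) / 4 := by ring
    nlinarith

theorem AA_card {N Z T : ℕ} {G1 G2 d0 : ℝ} (E : Env N (N / (2 * Z)) G1 G2 d0) (G : Finset ℕ)
    (hG : ∀ k ∈ G, 2 ≤ k ∧ k ≤ Z ∧ Good T k) :
    N / (5 * Real.log N) * ∑ k ∈ G, (1 : ℝ) / k ≤ (AA N Z T).card := by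
  classical
  have hL := E.g5
  have key : ∀ k ∈ G, 4 * (N : ℝ) / (5 * k) ≤ (N / k : ℕ) ∧ d0 ≤ (N / k : ℕ) := by
    intro k hk
    obtain ⟨a1, a2, -⟩ := hG k hk
    have a3 : (0 : ℝ) < k := by exact_mod_cast (show 0 < k by omega)
    have a4 : (k : ℝ) ≤ Z := by exact_mod_cast a2
    have a5 : (N : ℝ) / k < (N / k : ℕ) + 1 := by
      rw [div_lt_iff₀ a3]
      exact_mod_cast (show N < (N / k + 1) * k by
        have := Nat.div_add_mod N k; have := Nat.mod_lt N (show 0 < k by omega); nlinarith)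
    have a6 : (N : ℝ) / (2 * Z) ≤ N / k / 2 := by
      rw [div_div, mul_comm]; gcongr
    have a7 := E.g2
    have a8 : 1 ≤ G2 * Real.log N := by nlinarith [E.g7]
    have a9 : 4 * (N : ℝ) / (5 * k) = 4 / 5 * (N / k) := by ring
    constructor <;> linarith [E.g6]
  have h1 : (G.sigma (fun k => PR (5 * (N / k : ℕ) / 8) (N / k))).card ≤ (AA N Z T).card := by
    have mm : ∀ x ∈ G.sigma (fun k => PR (5 * (N / k : ℕ) / 8) (N / k)), x.2.Prime ∧ x.1 * x.2 ≤ N ∧
        N < 2 * (x.1 * x.2) ∧ x.1 < x.2 := by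
      rintro ⟨k, p⟩ hx
      obtain ⟨a1, a2⟩ := mem_sigma.1 hx
      obtain ⟨a3, a4, a5⟩ := (mem_PR (by positivity)).1 a2
      obtain ⟨b1, b2, -⟩ := hG k a1
      have b3 : (0 : ℝ) < k := by exact_mod_cast (show 0 < k by omega)
      have b4 := (key k a1).1
      rw [div_le_iff₀ (by positivity)] at b4
      simp only at a3 a4 a5 ⊢
      have b5 : (N : ℝ) < 2 * (k * p) := by nlinarith
      have b6 : k * p ≤ N := (Nat.mul_le_mul_left k a5).trans (Nat.mul_div_le N k)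
      refine ⟨a3, b6, by exact_mod_cast b5, ?_⟩
      have b7 : (k : ℝ) ≤ Z := by exact_mod_cast b2
      have := E.sq (p := p) (by
        rw [div_lt_iff₀ (by linarith)]
        nlinarith [Nat.cast_nonneg (α := ℝ) p]) b6
      rw [sq] at this
      exact lt_of_mul_lt_mul_right this (Nat.zero_le _)
    apply card_le_card_of_injOn (fun x => x.1 * x.2)
    · intro x hx
      obtain ⟨a1, a2, a3, -⟩ := mm x hx
      exact mem_coe.2 (mem_filter.2 ⟨mem_Ioc.2 ⟨by simp only; omega, a2⟩, x.1, x.2, rfl, a1, hG _ (mem_sigma.1 hx).1⟩)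
    · rintro ⟨k, p⟩ hx ⟨k', p'⟩ hx' he
      obtain ⟨a1, -, a2, a3⟩ := mm _ hx
      obtain ⟨b1, -, b2, b3⟩ := mm _ hx'
      simp only at a1 a2 a3 b1 b2 b3 he
      have k0 : 0 < k := by rcases k with _ | k <;> simp at a2 ⊢
      have k1 : 0 < k' := by rcases k' with _ | k' <;> simp at b2 ⊢
      have : p = p' := by
        by_contra hc
        have c1 := Nat.le_of_dvd k1 (((Nat.coprime_primes a1 b1).2 hc).dvd_of_dvd_mul_right (Dvd.intro_left _ he))
        have c2 := Nat.le_of_dvd k0 (((Nat.coprime_primes b1 a1).2 (Ne.symm hc)).dvd_of_dvd_mul_right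
          (Dvd.intro_left _ he.symm))
        omega
      subst this
      rw [Nat.eq_of_mul_eq_mul_right a1.pos he]
  rw [card_sigma] at h1
  refine le_trans ?_ (Nat.cast_le.2 h1)
  rw [mul_sum]
  push_cast
  refine sum_le_sum fun k hk => ?_
  obtain ⟨a1, a2⟩ := key k hk
  have a3 := E.e3 _ a2
  have a0 : (0 : ℝ) ≤ (N / k : ℕ) := by positivity
  rw [theta_PR (by linarith)] at a3
  have a4 := mass _ (PR (5 * (N / k : ℕ) / 8) (N / k)) N (fun q hq => ((mem_PR (by positivity)).1 hq).1)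
    (fun q hq => by
      obtain ⟨b1, -, b2⟩ := (mem_PR (by positivity)).1 hq
      exact ⟨b1.pos, b2.trans (Nat.div_le_self _ _)⟩) (fun q hq => ⟨q, hq, dvd_rfl⟩)
  rw [show (N : ℝ) / (5 * Real.log N) * (1 / k) = 4 * N / (5 * k) / 4 / Real.log N by ring,
    div_le_iff₀ (by linarith)]
  linarith

end Pool.Agent.H60.D6
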