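import Pool.Agent.Lead.Sel.Rs2
import Pool.Agent.H49.SelZB2
import Pool.Agent.H49.SelLD
import Pool.Agent.H61.SelC
import Pool.Agent.H55.SelHoh5

/- Sharp Hoheisel type lower bound for theta in short intervals. -/

set_option autoImplicit false
open MeasureTheory Finset Filter Topology Pool.Agent.Lead.Sel ArithmeticFunction Chebyshev
open Pool.Agent.H55 Pool.Agent.H55.Hoh

namespace Pool.Agent.H60.Hoh

theorem short2 (hRS : RS) (hVB : VB) (hZB : ZB) (hVM : VM) (hPW : PW) (hFJ : FJ) :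
    ∃ u0 v0 : ℝ, 1 ≤ u0 ∧ ∀ v, v0 ≤ v → ∃ T, Real.exp (v / (40 * u0)) / 2 ≤ T ∧ T ≤ Real.exp (v / (40 * u0)) ∧
      ∀ a b : ℕ, (∀ n : ℕ, |Real.log n - v| < 1 / T → n ∈ Ioc a b) →
        Real.exp (v - 3) / 128 ≤ T * ∑ n ∈ Ioc a b, Λ n := by
  obtain ⟨C1, -, z1, h1⟩ := hRS
  obtain ⟨C2, -, z2, h2⟩ := hZB
  obtain ⟨C3, -, h3⟩ := hVM
  obtain ⟨c, hc, -, C4, -, z4, h4⟩ := hPW
  obtain ⟨v1, h5⟩ := main_term
  obtain ⟨C, hC, c1, c2, c3, c4⟩ : ∃ C : ℝ, 1 ≤ C ∧ C1 ≤ C ∧ C2 ≤ C ∧ C3 ≤ C ∧ C4 ≤ C :=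
    ⟨max 1 (max C1 (max C2 (max C3 C4))), by simp⟩
  obtain ⟨u0, A, K, K1, η, p1, p2, p3, p4, p5, p6, p7, p8, p9⟩ :=
    params hc hC (show 0 < Real.exp (-2) / 640 by positivity)
  obtain ⟨l0, h6⟩ := eventually_atTop.1 ((small_lin (show (0 : ℝ) < 1 / 40 by norm_num) p7).and
    ((eventually_ge_atTop (8 * K)).and (eventually_ge_atTop ((z1 : ℝ) + z2 + z4 + 8))))
  have hu0 : 0 < u0 := by linarith
  refine ⟨u0, max v1 (2 * u0 * max l0 1), by linarith, fun v hv => ?_⟩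
  have a1 : max l0 1 ≤ v / (2 * u0) := by
    rw [le_div_iff₀ (by positivity), mul_comm]; exact (le_max_right _ _).trans hv
  have a2 : v / u0 = 2 * (v / (2 * u0)) := by field_simp
  have a3 : 1 ≤ v / (2 * u0) := (le_max_right _ _).trans a1
  set z := ⌊Real.exp (v / u0)⌋₊ with hz
  have a4 : Real.exp (v / (2 * u0)) ≤ z := by
    have b1 := Nat.lt_floor_add_one (Real.exp (v / u0))
    have b2 := Real.add_one_le_exp (v / (2 * u0))
    rw [← hz, a2, two_mul, Real.exp_add] at b1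
    nlinarith
  have a5 : (0 : ℝ) < z := (Real.exp_pos _).trans_le a4
  obtain ⟨l, hl⟩ : ∃ l, l = Real.log z := ⟨_, rfl⟩
  have a6 : v / (2 * u0) ≤ l := hl ▸ (Real.le_log_iff_exp_le a5).2 a4
  have a7 : l ≤ v / u0 := hl ▸ (Real.log_le_iff_le_exp a5).2 (Nat.floor_le (Real.exp_pos _).le)
  obtain ⟨b1, b2, b3⟩ := h6 l ((le_max_left _ _).trans (a1.trans a6))
  have a8 : l ≤ z := hl ▸ (Real.log_le_sub_one_of_pos a5).trans (by linarith)
  have n1 : (0 : ℝ) ≤ z1 := Nat.cast_nonneg _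
  have n2 : (0 : ℝ) ≤ z2 := Nat.cast_nonneg _
  have n4 : (0 : ℝ) ≤ z4 := Nat.cast_nonneg _
  have hz2 : 2 ≤ z := by exact_mod_cast (show (2 : ℝ) ≤ z by linarith)
  have hl0 : 0 < l := by linarith
  have hv0 : 0 < v := by by_contra h; have := div_nonpos_of_nonpos_of_nonneg (not_lt.1 h) hu0.le
                         linarith
  have a9 : v / u0 ≤ v := div_le_self hv0.le (by linarith)
  obtain ⟨T, hT⟩ : ∃ T, T = Real.exp (l / 40) := ⟨_, rfl⟩
  rw [show 1 / 40 * l = l / 40 by ring, ← hT] at b1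
  have hT0 : 0 < T := hT ▸ Real.exp_pos _
  have hT8 : 8 ≤ T := by nlinarith
  refine ⟨T, ?_, ?_, fun a b hab => ?_⟩
  · have c1 : Real.exp (v / u0) / 2 ≤ z := by
      have b1 := Nat.lt_floor_add_one (Real.exp (v / u0))
      rw [← hz] at b1
      have : (2 : ℝ) ≤ z := by exact_mod_cast hz2
      linarith
    have c2 : v / u0 - Real.log 2 ≤ l := by
      rw [hl, Real.le_log_iff_exp_le a5, Real.exp_sub, Real.exp_log (by norm_num)]; exact c1
    have c3 : 0 < Real.log 2 := Real.log_pos (by norm_num)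
    rw [hT, ← Real.exp_log (show (0 : ℝ) < 2 by norm_num), ← Real.exp_sub, Real.exp_le_exp,
      show v / (40 * u0) = v / u0 / 40 by field_simp]
    linarith
  · rw [hT, Real.exp_le_exp, show v / (40 * u0) = v / u0 / 40 by field_simp]; linarith
  have u1 : u0 ≤ v / l := by rw [le_div_iff₀ hl0, mul_comm, ← le_div_iff₀ hu0]; exact a7
  have u2 : v / l ≤ 2 * u0 := by
    rw [div_le_iff₀ hl0, mul_comm, ← div_le_iff₀ (by positivity)]; exact a6
  have s1 : 1 < 1 + 1 / v := by simpa using hv0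
  have s2 : 1 + 1 / v ≤ 2 := by have := (div_le_one hv0).2 (show 1 ≤ v by linarith); linarith
  have hΛ : Ms (1 + 1 / v) Λ (C * v) := by
    obtain ⟨d1, d2⟩ := h3 _ s1 s2
    unfold Ms
    simp only [abs_of_nonneg vonMangoldt_nonneg]
    refine ⟨d1, d2.trans ?_⟩
    rw [add_sub_cancel_left, div_div_eq_mul_div, div_one]; gcongr
  have hM : Ms (1 + 1 / v) (rough z) (2 * (v / l)) := by
    unfold Ms
    simp only [abs_of_nonneg (rough_nonneg z _)]
    refine ⟨Summable.of_nonneg_of_le (fun n => mul_nonneg (rough_nonneg z n) (by positivity))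
      (fun n => mul_le_of_le_one_left (by positivity) (rough_le z n))
      (Real.summable_nat_rpow.2 (by linarith)), ((h2 z (by
        exact_mod_cast (show (z2 : ℝ) ≤ z by linarith))).2 _ s1 s2).trans ?_⟩
    rw [add_sub_cancel_left, ← hl, show 1 / (l * (1 / v)) = v / l by field_simp]; linarith
  have key := bound (N := ⌊Real.exp (v + l)⌋₊) hC (RSz.mono (h1 z (by
      exact_mod_cast (show (z1 : ℝ) ≤ z by linarith))) c1) hz2 hVB hFJ hc
    (fun v y0 K1 t q1 q2 q3 q4 q5 => (h4 z (by exact_mod_cast (show (z4 : ℝ) ≤ z by linarith))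
      v y0 K1 t q1 q2 q3 q4 q5).trans (mul_le_mul_of_nonneg_right c4 (by
        have : 0 ≤ v := le_trans (by rw [← hl]; positivity) q1
        rw [← hl]; positivity)))
    hl hT rfl p5 (by linarith) (by linarith) p3 b1 p8 hT8 (div_mul_cancel₀ v hl0.ne').symm
    (p2.trans u1) (p4.trans u1) p6
    (fun m hm => (Real.le_log_iff_exp_le ((Real.exp_pos _).trans (Nat.lt_of_floor_lt hm))).2
      (Nat.lt_of_floor_lt hm).le)
    (fun n hn => ((Real.log_le_iff_le_exp (by exact_mod_cast (mem_Ioc.1 hn).1)).2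
      ((Nat.le_floor_iff (Real.exp_pos _).le).1 (mem_Ioc.1 hn).2)).trans (by linarith)) hΛ hM
  have k1 := (abs_le.1 (key.trans (p9 _ u1 u2))).1
  have k2 : 8 ≤ 1 / (K / l) := by rw [one_div_div, le_div_iff₀ (by linarith)]; exact b2
  have k3 : 1 / (K / l) ≤ l := by rw [one_div_div]; exact div_le_self hl0.le (by linarith)
  have k4 := h5 v (K / l) z ⌊Real.exp (v + l)⌋₊ ((le_max_left _ _).trans hv) (by positivity) k2
    (by linarith) (Nat.floor_mono (Real.exp_le_exp.2 a9))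
    (Nat.floor_mono (Real.exp_le_exp.2 (by linarith)))
  have k5 := upper (z := z) (N := ⌊Real.exp (v + l)⌋₊) hv0 (by linarith) hab
  have k6 : D (1 + 1 / v) (fun y => tr T y + -1 * tr (K / l) y) ⌊Real.exp (v + l)⌋₊ (Lam z) v =
      D (1 + 1 / v) (tr T) ⌊Real.exp (v + l)⌋₊ (Lam z) v -
        D (1 + 1 / v) (tr (K / l)) ⌊Real.exp (v + l)⌋₊ (Lam z) v := by
    unfold D; rw [← sum_sub_distrib]; exact sum_congr rfl fun n _ => by ring
  have k7 : Real.exp (-2) = Real.exp (1 - v) * Real.exp (v - 3) := by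
    rw [← Real.exp_add]; congr 1; ring
  refine le_of_mul_le_mul_left ?_ (Real.exp_pos (1 - v))
  rw [← mul_div_assoc, ← k7, ← mul_assoc]; linarith


theorem psi_diff (s t : ℝ) (h : s ≤ t) : ψ t - ψ s = ∑ n ∈ Ioc ⌊s⌋₊ ⌊t⌋₊, Λ n := by
  unfold Chebyshev.psi
  rw [← Finset.sum_Ioc_consecutive _ (Nat.zero_le ⌊s⌋₊) (Nat.floor_mono h)]
  ring

theorem window : ∃ τ w0 : ℝ, 0 < τ ∧ τ ≤ 1 / 40 ∧ ∀ w ℓ, w0 ≤ w → 4 * w ^ (1 - τ) ≤ ℓ → ℓ ≤ w →
    Real.exp (-3) / 128 * w ^ (1 - τ) ≤ ψ (w + ℓ) - ψ (w - ℓ) := by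
  have zb := Pool.Agent.H49.Sel.zb rs vb
  obtain ⟨u0, v0, hu, h⟩ := short2 rs vb zb Pool.Agent.H61.SelA.vm
    (Pool.Agent.H61.SelC.pw (Pool.Agent.H49.Sel.ld zb) Pool.Agent.H61.SelA.vm) Pool.Agent.H61.SelA.fj
  refine ⟨1 / (40 * u0), Real.exp (max v0 (40 * u0)), by positivity,
    one_div_le_one_div_of_le (by norm_num) (by linarith), fun w ℓ hw hℓ hℓw => ?_⟩
  have hw0 : 0 < w := (Real.exp_pos _).trans_le hw
  have hv : max v0 (40 * u0) ≤ Real.log w := (Real.le_log_iff_exp_le hw0).2 hw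
  obtain ⟨T, h1, h2, h3⟩ := h (Real.log w) ((le_max_left _ _).trans hv)
  have e1 : Real.exp (Real.log w / (40 * u0)) = w ^ (1 / (40 * u0)) := by
    rw [Real.rpow_def_of_pos hw0]; congr 1; ring
  have e2 : 2 ≤ Real.exp (Real.log w / (40 * u0)) := by
    have : 1 ≤ Real.log w / (40 * u0) := by
      rw [le_div_iff₀ (by positivity)]; linarith [(le_max_right _ _).trans hv]
    linarith [Real.add_one_le_exp (Real.log w / (40 * u0))]
  rw [e1] at h1 h2 e2
  set W := w ^ (1 / (40 * u0)) with hW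
  have e3 : w ^ (1 - 1 / (40 * u0)) = w / W := by rw [Real.rpow_sub hw0, Real.rpow_one]
  rw [e3] at hℓ ⊢
  have hT1 : 1 ≤ T := by linarith
  have hT0 : 0 < T := by linarith
  have hW0 : 0 < W := by linarith
  have e4 : w / T ≤ 2 * (w / W) := by
    rw [← mul_div_assoc, div_le_div_iff₀ hT0 hW0]; nlinarith
  have h4 := h3 ⌊w - ℓ⌋₊ ⌊w + ℓ⌋₊ (fun n hn => by
    obtain ⟨h5, h6⟩ := abs_lt.1 hn
    have hT2 : 1 / T ≤ 1 := by rw [div_le_one hT0]; exact hT1
    have hn0 : (0 : ℝ) < n := by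
      rcases Nat.eq_zero_or_pos n with rfl | h
      · simp only [Nat.cast_zero, Real.log_zero] at h5
        linarith [(le_max_right _ _).trans hv]
      · exact_mod_cast h
    have h7 : w * Real.exp (-(1 / T)) < n := by
      rw [← Real.exp_log hw0, ← Real.exp_add, ← Real.lt_log_iff_exp_lt hn0]; linarith
    have h8 : (n : ℝ) < w * Real.exp (1 / T) := by
      rw [← Real.exp_log hw0, ← Real.exp_add, ← Real.log_lt_iff_lt_exp hn0]; linarith
    have h9 : 1 - 1 / T ≤ Real.exp (-(1 / T)) := by linarith [Real.add_one_le_exp (-(1 / T))]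
    have h10 : Real.exp (1 / T) ≤ 1 + 2 * (1 / T) := by
      have := Real.abs_exp_sub_one_le (x := 1 / T) (by rw [abs_of_pos (by positivity)]; exact hT2)
      rw [abs_of_pos (show 0 < 1 / T by positivity)] at this
      linarith [(abs_le.1 this).2]
    have h11 := mul_le_mul_of_nonneg_left h9 hw0.le
    have h12 := mul_le_mul_of_nonneg_left h10 hw0.le
    have h13 : w * (1 / T) = w / T := by ring
    have h14 : 0 < w / W := by positivity
    refine mem_Ioc.2 ⟨(Nat.floor_lt (by linarith)).2 (by linarith), Nat.le_floor (by linarith)⟩)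
  rw [psi_diff _ _ (by linarith [show 0 < w / W by positivity])]
  have h5 : 0 ≤ ∑ n ∈ Ioc ⌊w - ℓ⌋₊ ⌊w + ℓ⌋₊, Λ n := sum_nonneg fun _ _ => vonMangoldt_nonneg
  have h6 := mul_le_mul_of_nonneg_right h2 h5
  rw [Real.exp_sub, Real.exp_log hw0] at h4
  rw [← mul_div_assoc, div_le_iff₀ hW0, Real.exp_neg]
  have : (Real.exp 3)⁻¹ / 128 * w = w / Real.exp 3 / 128 := by ring
  linarith

theorem ev_rpow (a b C : ℝ) (hab : a < b) : ∀ᶠ y : ℝ in atTop, C * y ^ a ≤ y ^ b := by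
  filter_upwards [(tendsto_rpow_atTop (sub_pos.2 hab)).eventually_ge_atTop C,
    eventually_gt_atTop 0] with y h1 h2
  have : y ^ b = y ^ (b - a) * y ^ a := by rw [← Real.rpow_add h2]; congr 1; ring
  rw [this]
  exact mul_le_mul_of_nonneg_right h1 (by positivity)

theorem HL : ∃ η c y0 : ℝ, 0 < η ∧ η ≤ 1 / 80 ∧ 0 < c ∧ ∀ y h, y0 ≤ y → y ^ (1 - η) ≤ h → h ≤ y / 2 →
    c * h ≤ θ y - θ (y - h) := by
  obtain ⟨τ, w0, hτ, hτ2, hw⟩ := window
  obtain ⟨C, hC⟩ := psi_sub_theta_le_mul_sqrt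
  set c1 := Real.exp (-3) / 128 with hc1
  have hc10 : 0 < c1 := by positivity
  obtain ⟨y0, hy0⟩ := eventually_atTop.1 (((ev_rpow (1 - τ) (1 - τ / 2) 8 (by linarith)).and
    (ev_rpow (1 / 2) (1 - τ / 2) (64 * C / c1) (by linarith))).and
    ((eventually_ge_atTop (2 * w0)).and (eventually_ge_atTop 1)))
  refine ⟨τ / 2, c1 / 64, y0, by linarith, by linarith, by positivity, fun y h hy h1 h2 => ?_⟩
  obtain ⟨⟨a1, a2⟩, a3, a4⟩ := hy0 y hy
  have hy1 : 0 < y := by linarith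
  set ℓ := 4 * y ^ (1 - τ) with hℓ
  have hℓ0 : 0 < ℓ := by positivity
  have step : ∀ w, y / 2 ≤ w - ℓ → w ≤ y → c1 * ℓ / 8 ≤ ψ (w + ℓ) - ψ (w - ℓ) := by
    intro w b1 b2
    have b3 : w ^ (1 - τ) ≤ y ^ (1 - τ) := Real.rpow_le_rpow (by linarith) b2 (by linarith)
    have b4 := hw w ℓ (by linarith) (by linarith) (by linarith)
    have b5 : (y / 2) ^ (1 - τ) ≤ w ^ (1 - τ) := Real.rpow_le_rpow (by linarith) (by linarith) (by linarith)
    have b6 : y ^ (1 - τ) / 2 ≤ (y / 2) ^ (1 - τ) := by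
      rw [Real.div_rpow hy1.le (by norm_num)]
      apply div_le_div_of_nonneg_left (by positivity) (by positivity)
      calc (2 : ℝ) ^ (1 - τ) ≤ 2 ^ (1 : ℝ) := Real.rpow_le_rpow_of_exponent_le (by norm_num) (by linarith)
        _ = 2 := Real.rpow_one 2
    have b7 := mul_le_mul_of_nonneg_left (b6.trans b5) hc10.le
    rw [hℓ]; linarith
  have tile : ∀ M : ℕ, M * (2 * ℓ) ≤ h → M * (c1 * ℓ / 8) ≤ ψ y - ψ (y - M * (2 * ℓ)) := by
    intro M
    induction M with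
    | zero => simp
    | succ M ih =>
      intro hM
      push_cast at hM ⊢
      have hM0 : (0 : ℝ) ≤ M * (2 * ℓ) := by positivity
      have b1 := ih (by linarith)
      have b2 := step (y - M * (2 * ℓ) - ℓ) (by linarith) (by linarith)
      rw [show y - M * (2 * ℓ) - ℓ + ℓ = y - M * (2 * ℓ) by ring,
        show y - M * (2 * ℓ) - ℓ - ℓ = y - (M + 1) * (2 * ℓ) by ring] at b2
      linarith
  set M := ⌊h / (2 * ℓ)⌋₊ with hM
  have hh : 2 * ℓ ≤ h := by rw [hℓ]; linarith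
  have m1 : (M : ℝ) * (2 * ℓ) ≤ h := by
    rw [← le_div_iff₀ (by positivity)]; exact Nat.floor_le (div_nonneg (by linarith) (by positivity))
  have m2 : h < (M + 1) * (2 * ℓ) := by
    rw [← div_lt_iff₀ (by positivity)]; exact Nat.lt_floor_add_one _
  have m3 : (1 : ℝ) ≤ M := by
    have : 1 ≤ M := Nat.le_floor (by rw [Nat.cast_one, le_div_iff₀ (by positivity)]; linarith)
    exact_mod_cast this
  have m4 : h ≤ 4 * (M * ℓ) := by nlinarith
  have t1 := tile M m1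
  have t2 : ψ (y - h) ≤ ψ (y - M * (2 * ℓ)) := psi_mono (by linarith)
  have t3 := hC y
  have t4 := theta_le_psi (y - h)
  have t5 : C * √y ≤ c1 / 64 * h := by
    rw [Real.sqrt_eq_rpow]
    have := mul_le_mul_of_nonneg_left (a2.trans h1) (show 0 ≤ c1 / 64 by positivity)
    have e : c1 / 64 * (64 * C / c1 * y ^ (1 / 2 : ℝ)) = C * y ^ (1 / 2 : ℝ) := by field_simp
    linarith
  have t6 := mul_le_mul_of_nonneg_left m4 hc10.le
  linarith

end Pool.Agent.H60.Hoh
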