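import Pool.Agent.H60.D6e
import Pool.Agent.H60.Hoh
import Pool.Agent.H55.PNT

/- Asymptotics. -/

namespace Pool.Agent.H60.D6

open Finset Nat Chebyshev Filter Pool.Agent.H60.Hoh

theorem e3_ex : ∃ d0 : ℝ, 0 ≤ d0 ∧ ∀ y : ℕ, d0 ≤ y → (y : ℝ) / 4 ≤ θ y - θ (5 * y / 8) := by
  obtain ⟨x0, h⟩ := eventually_atTop.1
    (Pool.Agent.H55.PNT.theta_pnt.eventually (Ioo_mem_nhds (show (19 / 20 : ℝ) < 1 by norm_num)
      (show (1 : ℝ) < 21 / 20 by norm_num)))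
  refine ⟨2 * max x0 1, by positivity, fun y hy => ?_⟩
  have a1 := le_max_left x0 1
  have a2 := le_max_right x0 1
  have h1 := (h y (by linarith)).1
  have h2 := (h (5 * y / 8) (by linarith)).2
  rw [lt_div_iff₀ (by linarith)] at h1
  rw [div_lt_iff₀ (by linarith)] at h2
  linarith

theorem evN {p : ℝ → Prop} (h : ∀ᶠ x : ℝ in atTop, p x) : ∀ᶠ N : ℕ in atTop, p N :=
  tendsto_natCast_atTop_atTop.eventually h

theorem env_ev : ∃ β d0 : ℝ, 0 < β ∧ β ≤ 1 / 160 ∧ 0 ≤ d0 ∧ ∀ ε : ℝ, 0 < ε → 4 * ε ≤ β → ∀ᶠ N : ℕ in atTop,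
    Env N (N / (2 * (⌊(N : ℝ) ^ ε⌋₊ : ℕ))) (N ^ (1 - 2 * β)) (N ^ (1 - β)) d0 := by
  obtain ⟨η, c, y0, hη, hη1, hc, H⟩ := HL
  obtain ⟨d0, hd0, e3⟩ := e3_ex
  refine ⟨η / 2, d0, by linarith, by linarith, hd0, fun ε hε hε1 => ?_⟩
  rw [show 1 - 2 * (η / 2) = 1 - η by ring]
  set β := η / 2 with hβ
  have hβ0 : 0 < β := by linarith
  filter_upwards [evN (ev_rpow (1 - β) (1 - ε) 4 (by linarith)), evN (ev_rpow 0 (1 - ε) (2 * y0) (by linarith)),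
    evN (ev_rpow (1 - η + β / 2) (1 - β) (4 / (β * c)) (by linarith)),
    evN (ev_rpow (1 - β + β / 2) (1 - ε) (64 / β) (by linarith)), evN (ev_rpow 0 (1 - ε) (4 * d0) (by linarith)),
    evN (ev_rpow (1 + (1 - β)) ((1 - ε) + (1 - ε)) 8 (by linarith)),
    evN (Real.tendsto_log_atTop.eventually_ge_atTop 1), evN (eventually_ge_atTop 1)] with N f1 f2 f3 f4 f5 f6 f7 f8
  set x : ℝ := (N : ℝ) with hxN
  have hx : 0 < x := by linarith
  rw [Real.rpow_zero, mul_one] at f2 f5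
  rw [Real.rpow_add hx] at f3 f4
  rw [Real.rpow_add hx, Real.rpow_add hx, Real.rpow_one] at f6
  have z1 : 1 ≤ x ^ ε := Real.one_le_rpow f8 hε.le
  have z2 : (1 : ℝ) ≤ ⌊x ^ ε⌋₊ := by exact_mod_cast Nat.le_floor (by simpa using z1)
  have z3 : (⌊x ^ ε⌋₊ : ℝ) ≤ x ^ ε := Nat.floor_le (by positivity)
  have p1 : x ^ (1 - ε) / 2 ≤ x / (2 * ⌊x ^ ε⌋₊) := by
    rw [Real.rpow_sub hx, Real.rpow_one, div_div, mul_comm]; gcongr
  have p2 : x / (2 * ⌊x ^ ε⌋₊) ≤ x / 2 := by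
    apply div_le_div_of_nonneg_left hx.le (by norm_num); linarith
  have l1 := Real.log_le_rpow_div hx.le (show 0 < β / 2 by positivity)
  have g1 : x ^ (1 - η) ≤ x ^ (1 - β) := Real.rpow_le_rpow_of_exponent_le f8 (by linarith)
  have g0 : 0 < x ^ (1 - η) := by positivity
  have hy : ∀ y : ℕ, y ≤ N → (y : ℝ) ^ (1 - η) ≤ x ^ (1 - η) := fun y hy =>
    Real.rpow_le_rpow (by positivity) (Nat.cast_le.2 hy) (by linarith)
  refine ⟨fun y h1 h2 => ?_, fun y h1 h2 => ?_, e3, g0.le, g1, ?_, ?_, p2, f7, hd0,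
    Real.one_le_rpow f8 (by linarith)⟩
  · exact lt_of_lt_of_le (by positivity) (H y _ (by linarith) (hy y h2) (by linarith))
  · refine lt_of_lt_of_le ?_ (H y _ (by linarith) ((hy y h2).trans g1) (by linarith))
    have a1 := mul_le_mul_of_nonneg_left l1 g0.le
    have a2 := mul_le_mul_of_nonneg_left f3 hc.le
    have a3 : c * (4 / (β * c) * (x ^ (1 - η) * x ^ (β / 2))) = 2 * (x ^ (1 - η) * (x ^ (β / 2) / (β / 2))) := by
      field_simp; ring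
    have a4 : 0 < x ^ (1 - η) * (x ^ (β / 2) / (β / 2)) := by positivity
    linarith
  · have a1 := mul_le_mul_of_nonneg_left l1 (show 0 ≤ 8 * x ^ (1 - β) by positivity)
    have a3 : 64 / β * (x ^ (1 - β) * x ^ (β / 2)) = 4 * (8 * x ^ (1 - β) * (x ^ (β / 2) / (β / 2))) := by
      field_simp; ring
    linarith
  · have a1 := pow_le_pow_left₀ (by positivity) p1 2
    nlinarith

theorem natlog_le (n : ℕ) : (Nat.log 2 n : ℝ) ≤ 2 * Real.log n := by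
  rcases Nat.eq_zero_or_pos n with rfl | h
  · simp
  have h1 : ((2 ^ Nat.log 2 n : ℕ) : ℝ) ≤ n := by exact_mod_cast Nat.pow_log_le_self 2 h.ne'
  have h2 := Real.log_le_log (by positivity) h1
  push_cast at h2
  rw [Real.log_pow] at h2
  nlinarith [Real.log_two_gt_d9, Nat.cast_nonneg (α := ℝ) (Nat.log 2 n)]

theorem ev_log {σ : ℝ} (hσ : 0 < σ) : ∀ᶠ N : ℕ in atTop, (Nat.log 2 N + 1 : ℝ) ≤ (N : ℝ) ^ σ ∧
    (Nat.log 2 (N ^ 4) + 1 : ℝ) ≤ (N : ℝ) ^ σ := by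
  filter_upwards [evN (ev_rpow (σ / 2) σ (18 / σ) (by linarith)),
    evN (Real.tendsto_log_atTop.eventually_ge_atTop 1)] with N f1 f2
  have l1 := Real.log_le_rpow_div (Nat.cast_nonneg N) (show 0 < σ / 2 by positivity)
  have a1 := natlog_le N
  have a2 := natlog_le (N ^ 4)
  push_cast at a2
  rw [Real.log_pow] at a2
  push_cast at a2
  have a3 : 18 / σ * (N : ℝ) ^ (σ / 2) = 9 * ((N : ℝ) ^ (σ / 2) / (σ / 2)) := by field_simp; ring
  constructor <;> linarith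

theorem ev_B1 (T H0 : ℕ) {d0 : ℝ} (hd0 : 0 ≤ d0) : ∀ᶠ N : ℕ in atTop, ∀ k l, 0 < l → l < k → k ≤ N →
    ((EE N ⌈4 * (T + H0) * Real.log N + d0⌉₊ H0 k l).card : ℝ) ≤ (N : ℝ) ^ (3 / 4 : ℝ) := by
  set C : ℝ := Real.log 4 * (4 * (T + H0) + d0 + 1) + (2 * H0 + 2) * (H0 + 1)
  have l4 : 0 < Real.log 4 := Real.log_pos (by norm_num)
  have hC : 0 < C := by positivity
  obtain ⟨V, hV, hV'⟩ : ∃ V : ℕ, 2 ≤ V ∧ 8 * C ≤ Real.log V := by
    refine ⟨⌈Real.exp (8 * C)⌉₊ + 2, by omega, (Real.le_log_iff_exp_le (by positivity)).2 ?_⟩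
    push_cast; linarith [Nat.le_ceil (Real.exp (8 * C))]
  filter_upwards [evN (ev_rpow (1 / 8 + 1 / 2) (3 / 4) (2 * 2 ^ (V : ℝ)) (by norm_num)),
    evN (Real.tendsto_log_atTop.eventually_ge_atTop 1), evN (eventually_ge_atTop 1)] with N f1 f2 f3 k l h1 h2 h3
  refine (EE_card h1 h2 h3 hV).trans (le_trans ?_ f1)
  have hx : (0 : ℝ) < N := by linarith
  have a1 : (Nat.sqrt N : ℝ) + 1 ≤ 2 * (N : ℝ) ^ (1 / 2 : ℝ) := by
    have := Real.nat_sqrt_le_real_sqrt (a := N)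
    rw [Real.sqrt_eq_rpow] at this
    have := Real.one_le_rpow f3 (show (0 : ℝ) ≤ 1 / 2 by norm_num)
    linarith
  have a2 := (Nat.ceil_lt_add_one (show 0 ≤ 4 * (T + H0) * Real.log N + d0 by positivity)).le
  have a3 : Real.log (N * (H0 + 1)) ≤ (H0 + 1) * Real.log N := by
    rw [Real.log_mul hx.ne' (by positivity)]
    have := Real.log_le_sub_one_of_pos (show (0 : ℝ) < H0 + 1 by positivity)
    nlinarith [Nat.cast_nonneg (α := ℝ) H0]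
  have a4 : (Real.log 4 * ⌈4 * (T + H0) * Real.log N + d0⌉₊ + (2 * H0 + 2) * Real.log (N * (H0 + 1))) /
      Real.log V ≤ Real.log N * (1 / 8) := by
    rw [div_le_iff₀ (by linarith)]
    have b1 : (⌈4 * (T + H0) * Real.log N + d0⌉₊ : ℝ) ≤ (4 * (T + H0) + d0 + 1) * Real.log N := by nlinarith
    have b2 := mul_le_mul_of_nonneg_left b1 l4.le
    have b3 := mul_le_mul_of_nonneg_left a3 (show (0 : ℝ) ≤ 2 * H0 + 2 by positivity)
    have b4 := mul_le_mul_of_nonneg_left hV' (show 0 ≤ Real.log N by linarith)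
    simp only [C] at b4
    linarith
  rw [Real.rpow_add (by norm_num), Real.rpow_add hx]
  have a5 := (Real.rpow_le_rpow_of_exponent_le (show (1 : ℝ) ≤ 2 by norm_num) a4).trans
    (Real.rpow_le_rpow (by norm_num) (show (2 : ℝ) ≤ Real.exp 1 by linarith [Real.exp_one_gt_d9]) (by positivity))
  rw [← Real.exp_mul, one_mul, ← Real.rpow_def_of_pos hx] at a5
  calc _ ≤ (2 ^ (V : ℝ) * (N : ℝ) ^ (1 / 8 : ℝ)) * (2 * (N : ℝ) ^ (1 / 2 : ℝ)) := by gcongr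
    _ = _ := by ring

theorem ev_B2 {β : ℝ} (hβ : 0 < β) (hβ1 : β ≤ 1) : ∀ᶠ N : ℕ in atTop, ∀ S : Finset ℕ,
    (∀ j ∈ S, ∃ m a b c d, Rep m a b c d ∧ m ≤ N ∧ j ∈ Ioc c b ∧
      ((m - a : ℕ) : ℝ) ≤ β / 12 * (b - c : ℕ) ∧
      Real.log (b - c : ℕ) ≤ (1 - β) * Real.log N ∧ d ≤ β / 20 * (b - c : ℕ) * Real.log N) →
      (S.card : ℝ) ≤ (N : ℝ) ^ (1 - β / 32) := by
  have l4 : Real.log 4 ≤ 5 / 3 := by
    rw [show (4 : ℝ) = 2 ^ 2 by norm_num, Real.log_pow]; push_cast; linarith [Real.log_two_lt_d9]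
  filter_upwards [ev_log (show 0 < β / 16 by positivity),
    evN (ev_rpow (β / 16 + (1 - β / 8)) (1 - β / 32) (144 / β) (by linarith)),
    evN (Real.tendsto_log_atTop.eventually_ge_atTop (20 / β)), evN (eventually_ge_atTop 1)] with N f0 f1 f2 f3 S hS
  have hx : (0 : ℝ) < N := by linarith
  have := R2_card (Y := ⌈(N : ℝ) ^ (1 - β / 2)⌉₊) hβ hβ1 (by nlinarith) (by
    rw [div_le_iff₀ hβ] at f2; nlinarith) (by
    rw [← Real.log_rpow hx]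
    exact Real.log_le_log (by positivity) (Nat.le_ceil _)) S hS
  refine this.trans (le_trans ?_ f1)
  have c2 : ∀ s : ℝ, 0 ≤ s → (⌈(N : ℝ) ^ s⌉₊ : ℝ) ≤ 2 * (N : ℝ) ^ s := fun s hs => by
    linarith [Nat.ceil_lt_add_one (show 0 ≤ (N : ℝ) ^ s by positivity), Real.one_le_rpow f3 hs]
  have a1 := special_card N ⌈(N : ℝ) ^ (1 - β / 2)⌉₊ ⌈(N : ℝ) ^ (β / 8)⌉₊ (Nat.ceil_pos.2 (by positivity))
  have a2 : (N : ℝ) / ⌈(N : ℝ) ^ (β / 8)⌉₊ ≤ (N : ℝ) ^ (1 - β / 8) := by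
    rw [Real.rpow_sub hx, Real.rpow_one]
    exact div_le_div_of_nonneg_left hx.le (by positivity) (Nat.le_ceil _)
  have a3 : (⌈(N : ℝ) ^ (β / 8)⌉₊ : ℝ) ^ 2 * ⌈(N : ℝ) ^ (1 - β / 2)⌉₊ ≤ 8 * (N : ℝ) ^ (1 - β / 8) := by
    calc _ ≤ (2 * (N : ℝ) ^ (β / 8)) ^ 2 * (2 * (N : ℝ) ^ (1 - β / 2)) := by
          gcongr
          · exact c2 _ (by positivity)
          · exact c2 _ (by linarith)
      _ = 8 * (N : ℝ) ^ (β / 8 + β / 8 + (1 - β / 2)) := by rw [Real.rpow_add hx, Real.rpow_add hx]; ring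
      _ ≤ _ := by gcongr; linarith
  rw [Real.rpow_add hx]
  calc _ ≤ (N : ℝ) ^ (β / 16) * (16 / β * (9 * (N : ℝ) ^ (1 - β / 8))) := by
        gcongr
        · exact f0.1
        · linarith
    _ = _ := by ring

theorem ev_B3 {β κ d0 : ℝ} (hκ : 0 < κ) (hβ : κ ≤ β)
    (e3 : ∀ y : ℕ, d0 ≤ y → (y : ℝ) / 4 ≤ θ y - θ (5 * y / 8)) {T H0 : ℕ} (hT : 32 * T ≤ κ * H0) :
    ∀ᶠ N : ℕ in atTop, ∀ S : Finset ℕ, (∀ j ∈ S, ∃ m a b c d, Rep m a b c d ∧ m ≤ N ∧ j ∈ Ioc c b ∧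
      m - a ≤ T ∧ H0 < b - c ∧ ((b - c : ℕ) : ℝ) ≤ (N : ℝ) ^ (1 - β) ∧ κ * (b - c : ℕ) * Real.log N ≤ d) →
      (S.card : ℝ) ≤ (N : ℝ) ^ (1 - κ / 128) := by
  filter_upwards [ev_log (show 0 < κ / 512 by positivity),
    evN (ev_rpow (κ / 512 + κ / 512 + (1 - κ / 64)) (1 - κ / 128) 12 (by linarith)),
    evN (Real.tendsto_log_atTop.eventually_ge_atTop (d0 / κ)),
    evN (Real.tendsto_log_atTop.eventually_ge_atTop (13 / κ)),
    evN (eventually_ge_atTop 1)] with N f0 f1 f2 f3 f4 S hS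
  have hx : (0 : ℝ) < N := by linarith
  have y1 : 1 ≤ (N : ℝ) ^ (κ / 64) := Real.one_le_rpow f4 (by positivity)
  have y2 : 1 ≤ ⌊(N : ℝ) ^ (κ / 64)⌋₊ := Nat.le_floor (by simpa using y1)
  have y3 : (1 : ℝ) ≤ ⌊(N : ℝ) ^ (κ / 64)⌋₊ := by exact_mod_cast y2
  have y4 := Nat.lt_floor_add_one ((N : ℝ) ^ (κ / 64))
  rw [div_le_iff₀' hκ] at f2 f3
  have := R3_card e3 hκ hT f2 f3 y2 (by
    rw [← Real.log_rpow hx]
    exact Real.log_le_log (by linarith) (Nat.floor_le (by positivity))) (by positivity) S hS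
  refine this.trans (le_trans ?_ f1)
  have a1 : 4 * (N : ℝ) / ⌊(N : ℝ) ^ (κ / 64)⌋₊ ≤ 8 * (N : ℝ) ^ (1 - κ / 64) := by
    rw [Real.rpow_sub hx, Real.rpow_one, ← mul_div_assoc, div_le_div_iff₀ (by linarith) (by linarith)]
    nlinarith
  have a2 : (N : ℝ) ^ (1 - β) ≤ (N : ℝ) ^ (1 - κ / 64) := Real.rpow_le_rpow_of_exponent_le f4 (by linarith)
  rw [Real.rpow_add hx, Real.rpow_add hx]
  calc _ ≤ (N : ℝ) ^ (κ / 512) * (N : ℝ) ^ (κ / 512) * (12 * (N : ℝ) ^ (1 - κ / 64)) := by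
        gcongr
        · exact f0.1
        · exact f0.2
        · linarith
    _ = _ := by ring

open Classical in
theorem main : ∃ c : ℝ, 0 < c ∧ ∀ᶠ N : ℕ in atTop, c * N ≤ (((Ioc (N / 2) N).filter (fun m =>
    (∃ k p, m = k * p ∧ p.Prime ∧ 2 ≤ k ∧ k + 1 < p) ∧ ¬ ∃ a b c d, Rep m a b c d)).card : ℝ) := by
  obtain ⟨β, d0, hβ, hβ1, hd0, hE⟩ := env_ev
  obtain ⟨t0, hG⟩ := good_sum
  set κ := β / 20 with hκ
  set ε := κ / 512 with hε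
  have hε0 : 0 < ε := by positivity
  obtain ⟨t, ht0, ht1, ht2⟩ : ∃ t : ℕ, t0 ≤ t ∧ d0 ≤ t ∧ (160 / ε) ^ 2 ≤ t := by
    refine ⟨t0 + ⌈d0⌉₊ + ⌈(160 / ε) ^ 2⌉₊, by omega, ?_, ?_⟩ <;> push_cast
    · linarith [Nat.le_ceil d0, Nat.cast_nonneg (α := ℝ) t0, Nat.cast_nonneg (α := ℝ) ⌈(160 / ε) ^ 2⌉₊]
    · linarith [Nat.le_ceil ((160 / ε) ^ 2), Nat.cast_nonneg (α := ℝ) t0, Nat.cast_nonneg (α := ℝ) ⌈d0⌉₊]
  set T := 2 * t + 2
  have t0' : (0 : ℝ) ≤ t := by positivity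
  have hT : (T : ℝ) = 2 * t + 2 := by simp [T]
  obtain ⟨H0, hH0⟩ : ∃ H0 : ℕ, 32 * (T : ℝ) ≤ κ * H0 :=
    ⟨⌈32 * T / κ⌉₊, by rw [← div_le_iff₀' (by positivity)]; exact Nat.le_ceil _⟩
  have hs := Real.sq_sqrt (show (0 : ℝ) ≤ 2 * t + 1 by positivity)
  have hs1 : 160 / ε ≤ √(2 * t + 1) := Real.le_sqrt_of_sq_le (by linarith)
  set s := √(2 * t + 1 : ℝ)
  have hs0 : 0 < s := lt_of_lt_of_le (by positivity) hs1
  refine ⟨ε / (160 * s), by positivity, ?_⟩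
  obtain ⟨N0, hN0⟩ := (hE ε hε0 (by linarith)).exists
  filter_upwards [hE ε hε0 (by linarith), ev_B1 T H0 hd0, ev_B2 hβ (by linarith),
    ev_B3 (show 0 < κ by positivity) (show κ ≤ β by linarith) hN0.e3 hH0,
    evN (ev_rpow (ε + ε + (1 - κ / 128)) 1 (6 / (ε / (160 * s))) (by linarith)),
    evN (Real.tendsto_log_atTop.eventually_ge_atTop (1 / (ε / (160 * s)))),
    evN (eventually_ge_atTop 1)] with N E f1 f2 f3 f4 f5 f6
  have hx : (0 : ℝ) < N := by linarith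
  set Z := ⌊(N : ℝ) ^ ε⌋₊
  have hL := E.g5
  have b1 := bad_card (T := T) (H0 := H0) E (by omega) (by linarith) (Nat.le_ceil _) hβ.le
    (by nlinarith [Nat.cast_nonneg (α := ℝ) H0]) (Real.log_rpow hx _).le (by positivity) f1 f2 f3
  obtain ⟨G, g1, g2⟩ := hG t ht0 Z
  have b2 := AA_card E G g1
  have b3 : ε * Real.log N ≤ Real.log (Z + 1) := by
    rw [← Real.log_rpow hx]
    exact Real.log_le_log (by positivity) (Nat.lt_floor_add_one _).le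
  have b4 := card_filter_add_card_filter_not (s := AA N Z T) (fun m => ∃ a b c d, Rep m a b c d)
  have b5 : (AA N Z T).filter (fun m => ¬ ∃ a b c d, Rep m a b c d) ⊆ (Ioc (N / 2) N).filter (fun m =>
      (∃ k p, m = k * p ∧ p.Prime ∧ 2 ≤ k ∧ k + 1 < p) ∧ ¬ ∃ a b c d, Rep m a b c d) := by
    intro m hm
    obtain ⟨a1, a2⟩ := mem_filter.1 hm
    obtain ⟨-, a3, k, p, rfl, hp, hP, a4, -, hk⟩ := mem_AA a1
    refine mem_filter.2 ⟨(mem_filter.1 a1).1, ⟨k, p, rfl, hp, a4, ?_⟩, a2⟩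
    have := E.sq hP a3
    rw [sq] at this
    have a5 : k < p := lt_of_mul_lt_mul_right this (Nat.zero_le _)
    have a6 : ¬ 2 ∣ k := fun h => by have := hk.rough 2 Nat.prime_two h; omega
    have := hp.eq_two_or_odd
    omega
  refine le_trans ?_ (Nat.cast_le.2 (card_le_card b5))
  have b6 : (((AA N Z T).filter (fun m => ∃ a b c d, Rep m a b c d)).card : ℝ) +
    ((AA N Z T).filter (fun m => ¬ ∃ a b c d, Rep m a b c d)).card = (AA N Z T).card := by exact_mod_cast b4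
  set c := ε / (160 * s) with hc
  have hc0 : 0 < c := by positivity
  have c1 : 4 * c * N - c * N ≤ N / (5 * Real.log N) * ∑ k ∈ G, (1 : ℝ) / k := by
    have d1 : ε * Real.log N / (8 * s) - 1 ≤ ∑ k ∈ G, (1 : ℝ) / k := by
      refine le_trans ?_ g2; gcongr
    refine le_trans ?_ (mul_le_mul_of_nonneg_left d1 (by positivity))
    have d2 : N / (5 * Real.log N) * (ε * Real.log N / (8 * s) - 1) = 4 * c * N - N / (5 * Real.log N) := by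
      rw [hc]; field_simp; ring
    have d3 : N / (5 * Real.log N) ≤ c * N := by
      rw [div_le_iff₀ hc0] at f5
      rw [div_le_iff₀ (by positivity)]; nlinarith
    linarith
  have c2 : (N : ℝ) / T ≤ c * N := by
    rw [div_le_iff₀ (by positivity), hc, hT]
    rw [div_le_iff₀ hε0] at hs1
    have : 1 ≤ ε / (160 * s) * (2 * t + 2) := by
      rw [div_mul_eq_mul_div, le_div_iff₀ (by positivity)]; nlinarith
    nlinarith
  have c3 : 1 + (Z : ℝ) ^ 2 * (3 * (N : ℝ) ^ (3 / 4 : ℝ) + (N : ℝ) ^ (1 - β / 32) + (N : ℝ) ^ (1 - κ / 128)) ≤ c * N := by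
    have d1 : (N : ℝ) ^ (3 / 4 : ℝ) ≤ (N : ℝ) ^ (1 - κ / 128) := Real.rpow_le_rpow_of_exponent_le f6 (by linarith)
    have d2 : (N : ℝ) ^ (1 - β / 32) ≤ (N : ℝ) ^ (1 - κ / 128) := Real.rpow_le_rpow_of_exponent_le f6 (by linarith)
    have d3 : (Z : ℝ) ≤ (N : ℝ) ^ ε := Nat.floor_le (by positivity)
    have d4 : 1 ≤ (N : ℝ) ^ (ε + ε + (1 - κ / 128)) := Real.one_le_rpow f6 (by linarith)
    rw [Real.rpow_one, div_mul_eq_mul_div, div_le_iff₀' hc0] at f4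
    have d5 : (Z : ℝ) ^ 2 * (3 * (N : ℝ) ^ (3 / 4 : ℝ) + (N : ℝ) ^ (1 - β / 32) + (N : ℝ) ^ (1 - κ / 128)) ≤
        5 * (N : ℝ) ^ (ε + ε + (1 - κ / 128)) := by
      rw [Real.rpow_add hx, Real.rpow_add hx]
      calc _ ≤ ((N : ℝ) ^ ε) ^ 2 * (5 * (N : ℝ) ^ (1 - κ / 128)) := by gcongr; linarith
        _ = _ := by ring
    linarith
  linarith

end Pool.Agent.H60.D6
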