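import Pool.Agent.H60.D6f

/- Translation between sets of factorials and `Rep`. -/

namespace Pool.Agent.H60.D6

open Finset Nat

theorem peel (s : Finset ℕ) (n u : ℕ) (h1 : s.card ≤ n + 1) (h2 : ∀ a ∈ s, a ≤ u) :
    ∃ a ≤ u, ∃ s' : Finset ℕ, s'.card ≤ n ∧ (∀ b ∈ s', b ≤ a) ∧ ∏ b ∈ s, b ! = a ! * ∏ b ∈ s', b ! := by
  rcases s.eq_empty_or_nonempty with rfl | hs
  · exact ⟨0, Nat.zero_le _, ∅, by simp⟩
  · refine ⟨s.max' hs, h2 _ (s.max'_mem hs), s.erase (s.max' hs), ?_, fun b hb => s.le_max' b (mem_of_mem_erase hb),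
      (mul_prod_erase _ _ (s.max'_mem hs)).symm⟩
    rw [card_erase_of_mem (s.max'_mem hs)]; omega

theorem to_rep {s : Finset ℕ} {m : ℕ} (h1 : s.card ≤ 5) (h2 : m ∈ s) (h3 : ∀ a ∈ s, 0 < a ∧ a ≤ m)
    (h4 : IsSquare (∏ a ∈ s, a !)) : ∃ a b c d, Rep m a b c d := by
  have h0 := (h3 m h2).1
  obtain ⟨a, ha, s1, a1, a2, a3⟩ := peel (s.erase m) 3 (m - 1) (by rw [card_erase_of_mem h2]; omega)
    (fun a ha => by have := mem_erase.1 ha; have := h3 a this.2; omega)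
  obtain ⟨b, hb, s2, b1, b2, b3⟩ := peel s1 2 a a1 a2
  obtain ⟨c, hc, s3, c1, c2, c3⟩ := peel s2 1 b b1 b2
  obtain ⟨d, hd, s4, d1, -, d3⟩ := peel s3 0 c c1 c2
  rw [card_eq_zero.1 (Nat.le_zero.1 d1)] at d3
  rw [← mul_prod_erase _ _ h2, a3, b3, c3, d3] at h4
  exact ⟨a, b, c, d, by omega, hb, hc, hd, by simpa [mul_assoc] using h4⟩

theorem six {k p : ℕ} (h1 : 2 ≤ k) (h2 : k + 1 < p) : ∃ s : Finset ℕ, s.card = 6 ∧ k * p ∈ s ∧
    (∀ a ∈ s, 0 < a ∧ a ≤ k * p) ∧ IsSquare (∏ a ∈ s, a !) := by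
  have h3 : 2 * p ≤ k * p := Nat.mul_le_mul_right p h1
  obtain ⟨k, rfl⟩ : ∃ x, k = x + 1 := ⟨k - 1, by omega⟩
  obtain ⟨p, rfl⟩ : ∃ x, p = x + 1 := ⟨p - 1, by omega⟩
  obtain ⟨m, hm⟩ : ∃ x, (k + 1) * (p + 1) = x + 1 := ⟨(k + 1) * (p + 1) - 1, by omega⟩
  rw [hm] at h3 ⊢
  have n1 : k ∉ ({k + 1, p, p + 1, m, m + 1} : Finset ℕ) := by simp; omega
  have n2 : k + 1 ∉ ({p, p + 1, m, m + 1} : Finset ℕ) := by simp; omega
  have n3 : p ∉ ({p + 1, m, m + 1} : Finset ℕ) := by simp; omega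
  have n4 : p + 1 ∉ ({m, m + 1} : Finset ℕ) := by simp; omega
  have n5 : m ∉ ({m + 1} : Finset ℕ) := by simp
  refine ⟨{k, k + 1, p, p + 1, m, m + 1}, ?_, by simp, ?_, ?_⟩
  · rw [card_insert_of_notMem n1, card_insert_of_notMem n2, card_insert_of_notMem n3, card_insert_of_notMem n4,
      card_insert_of_notMem n5, card_singleton]
  · intro a ha
    simp only [mem_insert, mem_singleton] at ha
    omega
  · rw [prod_insert n1, prod_insert n2, prod_insert n3, prod_insert n4, prod_insert n5, prod_singleton]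
    refine ⟨k ! * p ! * m ! * (m + 1), ?_⟩
    rw [Nat.factorial_succ, Nat.factorial_succ, Nat.factorial_succ]
    calc _ = k ! * p ! * m ! * (m + 1) * (k ! * p ! * m ! * ((k + 1) * (p + 1))) := by ring
      _ = _ := by rw [hm]

end Pool.Agent.H60.D6
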