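import Mathlib

set_option autoImplicit false

namespace Pool.Agent.H60.DM

open Set Filter Topology

theorem card_le {ι κ : Type} [Finite κ] {P : ι → Prop} {Q : κ → Prop} (R : κ → ι → Prop)
    (hR : ∀ k i j, R k i → R k j → i = j) (h : ∀ i, P i → ∃ k, Q k ∧ R k i) :
    Nat.card {i // P i} ≤ Nat.card {k // Q k} := by
  choose f hf using h
  exact Nat.card_le_card_of_injective (fun i => ⟨f i.1 i.2, (hf _ _).1⟩) fun i j e =>
    Subtype.ext (hR _ _ _ (hf i.1 i.2).2 (by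
      rw [show f i.1 i.2 = f j.1 j.2 from congrArg Subtype.val e]; exact (hf j.1 j.2).2))

theorem card_mono {ι : Type} [Finite ι] {P Q : ι → Prop} (h : ∀ i, P i → Q i) :
    Nat.card {i // P i} ≤ Nat.card {i // Q i} :=
  card_le Eq (fun _ _ _ h1 h2 => h1.symm.trans h2) fun i hi => ⟨i, h i hi, rfl⟩

variable {Y Z : Type} [TopologicalSpace Y] [TopologicalSpace Z] {n : ℕ}

def Dim (Y : Type) [TopologicalSpace Y] (n : ℕ) : Prop :=
  ∀ (ι : Type) [Finite ι] (U : ι → Set Y), (∀ i, IsOpen (U i)) → (⋃ i, U i) = univ →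
    ∃ (κ : Type) (_ : Finite κ) (V : κ → Set Y), (∀ k, IsOpen (V k)) ∧ (⋃ k, V k) = univ ∧
      (∀ k, ∃ i, V k ⊆ U i) ∧ ∀ x, Nat.card {k // x ∈ V k} ≤ n + 1

def Sh (F : Set Y) (n : ℕ) : Prop :=
  ∀ (ι : Type) [Finite ι] (U : ι → Set Y), (∀ i, IsOpen (U i)) → F ⊆ ⋃ i, U i →
    ∃ V : ι → Set Y, (∀ i, IsOpen (V i)) ∧ (∀ i, V i ⊆ U i) ∧ F ⊆ ⋃ i, V i ∧
      ∀ x ∈ F, Nat.card {i // x ∈ V i} ≤ n + 1

theorem dim_iff : Dim Y n ↔ Sh (univ : Set Y) n := by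
  constructor
  · intro h ι _ U hU hc
    obtain ⟨κ, _, V, h1, h2, h3, h4⟩ := h ι U hU (univ_subset_iff.mp hc)
    choose c hc using h3
    refine ⟨fun i => ⋃ k, ⋃ _ : c k = i, V k,
      fun i => isOpen_iUnion fun k => isOpen_iUnion fun _ => h1 k,
      fun i => iUnion₂_subset fun k e => e ▸ hc k, fun x _ => ?_, fun x _ => le_trans ?_ (h4 x)⟩
    · obtain ⟨k, hk⟩ := mem_iUnion.mp (h2 ▸ mem_univ x)
      exact mem_iUnion.mpr ⟨c k, mem_iUnion₂.mpr ⟨k, rfl, hk⟩⟩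
    · refine card_le (fun k i => c k = i) (fun _ _ _ h1 h2 => h1.symm.trans h2) fun i hi => ?_
      obtain ⟨k, e, hk⟩ := mem_iUnion₂.mp hi
      exact ⟨k, hk, e⟩
  · intro h ι _ U hU hc
    obtain ⟨V, h1, h2, h3, h4⟩ := h ι U hU hc.ge
    exact ⟨ι, inferInstance, V, h1, univ_subset_iff.mp h3, fun i => ⟨i, h2 i⟩,
      fun x => h4 x trivial⟩

theorem Sh.closed {F : Set Y} (h : Sh (univ : Set Y) n) (hF : IsClosed F) : Sh F n := by
  intro ι _ U hU hc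
  obtain ⟨V, h1, h2, h3, h4⟩ := h (Option ι) (fun o => o.elim Fᶜ U)
    (fun o => by cases o; exacts [hF.isOpen_compl, hU _]) fun x _ => by
      by_cases hx : x ∈ F
      · obtain ⟨i, hi⟩ := mem_iUnion.mp (hc hx)
        exact mem_iUnion.mpr ⟨some i, hi⟩
      · exact mem_iUnion.mpr ⟨none, hx⟩
  refine ⟨fun i => V (some i), fun i => h1 _, fun i => h2 (some i), fun x hx => ?_,
    fun x _ => le_trans ?_ (h4 x trivial)⟩
  · obtain ⟨o, ho⟩ := mem_iUnion.mp (h3 (mem_univ x))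
    cases o with
    | none => exact absurd hx (h2 none ho)
    | some i => exact mem_iUnion.mpr ⟨i, ho⟩
  · exact card_le (fun k i => k = some i) (fun _ _ _ h1 h2 => Option.some.inj (h1.symm.trans h2))
      fun i hi => ⟨some i, hi, rfl⟩

theorem Sh.step {F S : Set Y} (h : Sh F n) (hF : IsClosed F) (hS : F ⊆ S) {ι : Type} [Finite ι]
    (U : ι → Set Y) (hU : ∀ i, IsOpen (U i)) (hc : S ⊆ ⋃ i, U i) :
    ∃ V : ι → Set Y, (∀ i, IsOpen (V i)) ∧ (∀ i, V i ⊆ U i) ∧ S ⊆ ⋃ i, V i ∧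
      ∀ x ∈ F, Nat.card {i // x ∈ V i} ≤ n + 1 := by
  obtain ⟨V, h1, h2, h3, h4⟩ := h ι U hU (hS.trans hc)
  refine ⟨fun i => V i ∪ (U i \ F), fun i => (h1 i).union ((hU i).sdiff hF),
    fun i => union_subset (h2 i) sdiff_subset, fun x hx => ?_, fun x hx => le_trans ?_ (h4 x hx)⟩
  · by_cases hx' : x ∈ F
    · obtain ⟨i, hi⟩ := mem_iUnion.mp (h3 hx')
      exact mem_iUnion.mpr ⟨i, Or.inl hi⟩
    · obtain ⟨i, hi⟩ := mem_iUnion.mp (hc hx)
      exact mem_iUnion.mpr ⟨i, Or.inr ⟨hi, hx'⟩⟩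
  · exact card_mono fun i hi => hi.resolve_right fun h => h.2 hx

theorem Sh.union {F F' : Set Y} (h : Sh F n) (hF : IsClosed F) (h' : Sh F' n) (hF' : IsClosed F') :
    Sh (F ∪ F') n := by
  intro ι _ U hU hc
  obtain ⟨V, h1, h2, h3, h4⟩ := h.step hF subset_union_left U hU hc
  obtain ⟨W, k1, k2, k3, k4⟩ := h'.step hF' subset_union_right V h1 h3
  refine ⟨W, k1, fun i => (k2 i).trans (h2 i), k3, fun x hx => hx.elim (fun hx => ?_) (k4 x)⟩
  exact (card_mono fun i hi => k2 i hi).trans (h4 x hx)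

theorem Sh.biUnion {J : Type} (t : Finset J) {F : J → Set Y} (h : ∀ j, Sh (F j) n)
    (hF : ∀ j, IsClosed (F j)) : Sh (⋃ j ∈ t, F j) n := by
  classical
  induction t using Finset.induction_on with
  | empty => exact fun ι _ U hU _ => ⟨U, hU, fun _ => subset_rfl, by simp, by simp⟩
  | insert j t _ ih =>
    rw [Finset.set_biUnion_insert]
    exact (h j).union (hF j) ih (isClosed_biUnion_finset fun j _ => hF j)

theorem Sh.comap [T2Space Z] {K : Set Y} (hK : IsCompact K) {e : Y → Z} (he : Continuous e)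
    (hi : Function.Injective e) (h : Sh (e '' K) n) : Sh K n := by
  intro ι _ U hU hc
  obtain ⟨V, h1, h2, h3, h4⟩ := h ι (fun i => (e '' (K \ U i))ᶜ)
    (fun i => ((hK.diff (hU i)).image he).isClosed.isOpen_compl) (by
      rintro _ ⟨x, hx, rfl⟩
      obtain ⟨i, hi'⟩ := mem_iUnion.mp (hc hx)
      exact mem_iUnion.mpr ⟨i, fun ⟨y, hy, e1⟩ => hy.2 (hi e1 ▸ hi')⟩)
  refine ⟨fun i => e ⁻¹' V i ∩ U i, fun i => ((h1 i).preimage he).inter (hU i),
    fun i => inter_subset_right, fun x hx => ?_, fun x hx =>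
      (card_mono fun i hi => hi.1).trans (h4 _ (mem_image_of_mem e hx))⟩
  obtain ⟨i, hi'⟩ := mem_iUnion.mp (h3 (mem_image_of_mem e hx))
  exact mem_iUnion.mpr ⟨i, hi', by_contra fun h5 => h2 i hi' ⟨x, ⟨hx, h5⟩, rfl⟩⟩

theorem Sh.disj {J : Type} {K O : J → Set Y} (h : ∀ j, Sh (K j) n) (hO : ∀ j, IsOpen (O j))
    (h1 : ∀ j, K j ⊆ O j) (h2 : ∀ j j', ∀ x ∈ K j, x ∈ O j' → j = j') : Sh (⋃ j, K j) n := by
  intro ι _ U hU hc
  choose V k1 k2 k3 k4 using fun j => h j ι U hU ((subset_iUnion K j).trans hc)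
  refine ⟨fun i => ⋃ j, V j i ∩ O j, fun i => isOpen_iUnion fun j => (k1 j i).inter (hO j),
    fun i => iUnion_subset fun j => inter_subset_left.trans (k2 j i), fun x hx => ?_,
    fun x hx => ?_⟩ <;> obtain ⟨j, hj⟩ := mem_iUnion.mp hx
  · obtain ⟨i, hi⟩ := mem_iUnion.mp (k3 j hj)
    exact mem_iUnion.mpr ⟨i, mem_iUnion.mpr ⟨j, hi, h1 j hj⟩⟩
  · refine (card_mono fun i hi => ?_).trans (k4 j x hj)
    obtain ⟨j', h3, h4⟩ := mem_iUnion.mp hi
    exact h2 j j' x hj h4 ▸ h3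

section grp
variable {G : Type} [TopologicalSpace G] [Group G] [IsTopologicalGroup G]

theorem decomp [LocallyCompactSpace G] [T2Space G] : ∃ (D : Set G) (t : Finset G) (C O : G → Set G),
    (∀ j, IsCompact (C j)) ∧ (∀ j, IsOpen (O j)) ∧ (∀ j, C j ⊆ O j) ∧
    (∀ j, ∀ d ∈ D, ∀ d' ∈ D, ∀ x, x * d⁻¹ ∈ O j → x * d'⁻¹ ∈ O j → d = d') ∧
    (∀ j, IsClosed (⋃ d : D, {x | x * (d : G)⁻¹ ∈ C j})) ∧
    ∀ x, ∃ j ∈ t, ∃ d ∈ D, x * d⁻¹ ∈ C j := by
  open Pointwise in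
  obtain ⟨K, hK, K1⟩ := exists_compact_mem_nhds (1 : G)
  let L : Set G := (K * K)⁻¹ * (K * K)
  have hL : IsCompact L := (hK.mul hK).inv.mul (hK.mul hK)
  obtain ⟨D, hD⟩ := zorn_subset {D : Set G | ∀ d ∈ D, ∀ d' ∈ D, d * d'⁻¹ ∈ L → d = d'}
    fun c hc hc' => ⟨⋃₀ c, fun d ⟨s, hs, h1⟩ d' ⟨s', hs', h2⟩ => by
      rcases hc'.total hs hs' with h | h
      · exact hc hs' d (h h1) d' h2
      · exact hc hs d h1 d' (h h2), fun s hs => subset_sUnion_of_mem hs⟩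
  have Li : ∀ x ∈ L, x⁻¹ ∈ L := by
    rintro _ ⟨a, ha, b, hb, rfl⟩
    exact ⟨b⁻¹, inv_mem_inv.mpr hb, a⁻¹, ha, by simp⟩
  have k1 := mem_of_mem_nhds K1
  have h1 : ∀ x, ∃ d ∈ D, x * d⁻¹ ∈ L := by
    intro x
    by_contra hx
    push Not at hx
    have : x ∈ D := hD.mem_of_prop_insert (by
      rintro d (rfl | hd) d' (rfl | hd') h
      · rfl
      · exact absurd h (hx _ hd')
      · exact absurd (by simpa using Li _ h) (hx _ hd)
      · exact hD.prop d hd d' hd' h)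
    exact hx x this ⟨_, inv_mem_inv.mpr (mul_mem_mul k1 k1), _, mul_mem_mul k1 k1, by simp⟩
  obtain ⟨t, ht⟩ := compact_covered_by_mul_left_translates hL ⟨1, mem_interior_iff_mem_nhds.mpr K1⟩
  have h2 : ∀ j : G, ∀ d ∈ D, ∀ d' ∈ D, ∀ x, j * (x * d⁻¹) ∈ K * K → j * (x * d'⁻¹) ∈ K * K →
      d = d' := fun j d hd d' hd' x a b =>
    hD.prop d hd d' hd' ⟨_, inv_mem_inv.mpr a, _, b, by simp [mul_assoc]⟩
  have h3 : K ⊆ interior (K * K) := fun x hx => mem_interior_iff_mem_nhds.mpr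
    (mem_of_superset (ContinuousAt.preimage_mem_nhds (f := fun y => x⁻¹ * y) (by fun_prop)
      (by simpa using K1)) fun y hy => ⟨x, hx, _, hy, by simp⟩)
  refine ⟨D, t, fun j => (j * ·) ⁻¹' K, fun j => (j * ·) ⁻¹' interior (K * K),
    fun j => (Homeomorph.mulLeft j).isCompact_preimage.mpr hK,
    fun j => isOpen_interior.preimage (by fun_prop), fun j => preimage_mono h3,
    fun j d hd d' hd' x a b => h2 j d hd d' hd' x (interior_subset a) (interior_subset b),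
    fun j => ?_, fun x => ?_⟩
  · refine LocallyFinite.isClosed_iUnion (fun x => ?_) fun d => hK.isClosed.preimage (by fun_prop)
    refine ⟨{y | j * x * y⁻¹ * j⁻¹ ∈ K}, ContinuousAt.preimage_mem_nhds (f := fun y => j * x * y⁻¹ * j⁻¹)
      (by fun_prop) (by simpa using K1), Subsingleton.finite ?_⟩
    rintro d ⟨y, a, b⟩ d' ⟨y', a', b'⟩
    exact Subtype.ext (h2 j d d.2 d' d'.2 x ⟨_, b, _, a, by simp [mul_assoc]⟩
      ⟨_, b', _, a', by simp [mul_assoc]⟩)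
  · obtain ⟨d, hd, h4⟩ := h1 x
    obtain ⟨j, hj, h5⟩ := mem_iUnion₂.mp (ht h4)
    exact ⟨j, hj, d, hd, h5⟩

theorem dim_of_compact [LocallyCompactSpace G] [T2Space G]
    (h : ∀ K : Set G, IsCompact K → Sh K n) : Sh (univ : Set G) n := by
  obtain ⟨D, t, C, O, h1, h2, h3, h4, h5, h6⟩ := decomp (G := G)
  have := Sh.biUnion t (n := n) (fun j => Sh.disj (K := fun d : D => {x | x * (d : G)⁻¹ ∈ C j})
    (O := fun d : D => {x | x * (d : G)⁻¹ ∈ O j})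
    (fun d => h _ ((Homeomorph.mulRight (d : G)⁻¹).isCompact_preimage.mpr (h1 j)))
    (fun d => (h2 j).preimage (by fun_prop)) (fun d x hx => h3 j hx)
    fun d d' x a b => Subtype.ext (h4 j d d.2 d' d'.2 x (h3 j a) b)) h5
  convert this using 1
  refine (eq_univ_of_forall fun x => ?_).symm
  obtain ⟨j, hj, d, hd, h7⟩ := h6 x
  exact mem_iUnion₂.mpr ⟨j, hj, mem_iUnion.mpr ⟨⟨d, hd⟩, h7⟩⟩

end grp

end Pool.Agent.H60.DM
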