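import Pool.Agent.H60.DMa

set_option autoImplicit false

namespace Pool.Agent.H60.DM

open Set Filter Topology
open scoped BoundedContinuousFunction Uniformity

variable {G : Type} [TopologicalSpace G] [Group G]

def UC (f : G → ℂ) : Prop :=
  ∀ ε : ℝ, 0 < ε → ∃ W ∈ nhds (1 : G), ∀ u ∈ W, ∀ x : G, ‖f (u * x) - f x‖ < ε

theorem UC_iff {f : G → ℂ} : UC f ↔
    Tendsto (fun p : G × G => ‖f (p.1 * p.2) - f p.2‖) (𝓝 1 ×ˢ ⊤) (𝓝 0) := by
  rw [Metric.tendsto_nhds]
  refine forall₂_congr fun ε _ => ?_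
  simp only [dist_zero_right, norm_norm, eventually_prod_iff, eventually_top]
  constructor
  · rintro ⟨W, h1, h2⟩
    exact ⟨(· ∈ W), h1, fun _ => True, fun _ => trivial, fun hu x _ => h2 _ hu x⟩
  · rintro ⟨P, h1, Q, h2, h3⟩
    exact ⟨_, h1, fun u hu x => h3 hu (h2 x)⟩

def AA (G : Type) [TopologicalSpace G] [Group G] : Subalgebra ℂ (G →ᵇ ℂ) where
  carrier := {f | UC f}
  mul_mem' {f g} hf hg := by
    refine UC_iff.mpr (squeeze_zero (fun _ => norm_nonneg _) (fun p => ?_) (by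
      simpa using ((UC_iff.mp hg).const_mul ‖f‖).add ((UC_iff.mp hf).mul_const ‖g‖)))
    have : (f * g) (p.1 * p.2) - (f * g) p.2 = f (p.1 * p.2) * (g (p.1 * p.2) - g p.2) +
      (f (p.1 * p.2) - f p.2) * g p.2 := by simp; ring
    rw [this]
    refine norm_add_le_of_le ?_ ?_ <;> rw [norm_mul] <;> gcongr <;>
      exact BoundedContinuousFunction.norm_coe_le_norm _ _
  add_mem' {f g} hf hg := by
    refine UC_iff.mpr (squeeze_zero (fun _ => norm_nonneg _) (fun p => ?_) (by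
      simpa using (UC_iff.mp hf).add (UC_iff.mp hg)))
    refine le_of_eq_of_le ?_ (norm_add_le _ _)
    congr 1; simp; ring
  algebraMap_mem' c := fun ε hε => ⟨univ, univ_mem, fun _ _ _ => by simpa using hε⟩

noncomputable abbrev Al (G : Type) [TopologicalSpace G] [Group G] : Subalgebra ℂ (G →ᵇ ℂ) :=
  Algebra.adjoin ℂ {f : G →ᵇ ℂ | ∀ ε : ℝ, 0 < ε → ∃ W ∈ nhds (1 : G), ∀ u ∈ W, ∀ x : G,
    ‖f (u * x) - f x‖ < ε}

theorem mem_Al {f : G →ᵇ ℂ} : f ∈ Al G ↔ UC f := by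
  rw [show Al G = AA G from Algebra.adjoin_eq (AA G)]; rfl

theorem Al_closed : IsClosed (Al G : Set (G →ᵇ ℂ)) := by
  refine isClosed_of_closure_subset fun f hf => mem_Al.mpr fun ε hε => ?_
  obtain ⟨g, hg, h1⟩ := Metric.mem_closure_iff.mp hf (ε / 3) (by positivity)
  obtain ⟨W, h2, h3⟩ := mem_Al.mp hg (ε / 3) (by positivity)
  refine ⟨W, h2, fun u hu x => ?_⟩
  have k1 := f.dist_coe_le_dist (g := g) (u * x)
  have k2 := f.dist_coe_le_dist (g := g) x
  have k3 := h3 u hu x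
  rw [← dist_eq_norm] at *
  linarith [dist_triangle4 (f (u * x)) (g (u * x)) (g x) (f x), dist_comm (f x) (g x)]

instance : CompleteSpace (Al G) := Al_closed.completeSpace_coe

abbrev XX (G : Type) [TopologicalSpace G] [Group G] := WeakDual.characterSpace ℂ (Al G)

noncomputable def ev (x : G) : XX G :=
  ⟨((BoundedContinuousFunction.evalCLM ℂ x).comp (Al G).toSubmodule.subtypeL :
    StrongDual ℂ (Al G)), fun h => by
      have : (1 : ℂ) = 0 := congrArg (fun φ : WeakDual ℂ (Al G) => φ 1) h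
      exact one_ne_zero this, fun _ _ => rfl⟩

theorem ev_apply (x : G) (a : Al G) : ev x a = (a : G →ᵇ ℂ) x := rfl

noncomputable def emb (φ : XX G) : Al G → ℂ := fun a => φ a

theorem emb_ind : IsInducing (emb : XX G → _) :=
  (⟨rfl⟩ : IsInducing fun (φ : WeakDual ℂ (Al G)) a => φ a).comp IsInducing.subtypeVal

theorem hat_cont (a : Al G) : Continuous fun φ : XX G => φ a :=
  (continuous_apply a).comp emb_ind.continuous

theorem ev_cont : Continuous (ev : G → XX G) :=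
  emb_ind.continuous_iff.mpr (continuous_pi fun a => (a : G →ᵇ ℂ).continuous)

variable [IsTopologicalGroup G]

theorem UC.cont {f : G → ℂ} (h : UC f) : Continuous f := by
  refine continuous_iff_continuousAt.mpr fun x => tendsto_iff_norm_sub_tendsto_zero.mpr ?_
  have : Tendsto (fun y => (y * x⁻¹, x)) (𝓝 x) (𝓝 1 ×ˢ ⊤) :=
    Tendsto.prodMk (Continuous.tendsto' (by fun_prop) _ _ (by simp)) tendsto_top
  simpa [Function.comp_def] using (UC_iff.mp h).comp this

noncomputable def mk (f : G → ℂ) (h : UC f) (C : ℝ) (hC : ∀ x, ‖f x‖ ≤ C) : Al G :=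
  ⟨BoundedContinuousFunction.ofNormedAddCommGroup f h.cont C hC, mem_Al.mpr h⟩

theorem UC_supp {f : G → ℝ} (hf : Continuous f) (hs : HasCompactSupport f) (ε : ℝ) (hε : 0 < ε) :
    ∃ W ∈ nhds (1 : G), ∀ u ∈ W, ∀ x : G, |f (u * x) - f x| < ε := by
  let _ := IsTopologicalGroup.rightUniformSpace G
  obtain ⟨W, h1, h2⟩ := mem_comap.mp
    (hs.uniformContinuous_of_continuous hf (Metric.dist_mem_uniformity hε))
  refine ⟨W, h1, fun u hu x => ?_⟩
  have := @h2 (x, u * x) (by simpa using hu)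
  rw [abs_sub_comm]; exact this

theorem ev_dense : DenseRange (ev : G → XX G) := by
  intro φ
  by_contra hc
  rw [mem_closure_iff_nhds] at hc
  push Not at hc
  obtain ⟨s, hs, h0⟩ := hc
  rw [emb_ind.nhds_eq_comap, nhds_pi] at hs
  obtain ⟨s', hs', h1⟩ := hs
  obtain ⟨I, hI, t, ht, h2⟩ := mem_pi.mp hs'
  choose ε hε h3 using fun a => Metric.mem_nhds_iff.mp (ht a)
  have hst : ∀ a : Al G, star (a : G →ᵇ ℂ) ∈ Al G := fun a => mem_Al.mpr fun ε hε => by
    simpa [← map_sub] using mem_Al.mp a.2 ε hε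
  let c : Al G → Al G := fun a => a - algebraMap ℂ _ (φ a)
  let b : Al G := ∑ a ∈ hI.toFinset, ((ε a ^ 2)⁻¹ : ℂ) • (⟨_, hst (c a)⟩ * c a)
  have hb : ∀ x, 1 ≤ ‖(b : G →ᵇ ℂ) x‖ := by
    intro x
    have e : (b : G →ᵇ ℂ) x = ((∑ a ∈ hI.toFinset, (ε a ^ 2)⁻¹ * ‖ev x a - φ a‖ ^ 2 : ℝ) : ℂ) := by
      change ev x b = _
      rw [map_sum]
      push_cast
      refine Finset.sum_congr rfl fun a _ => ?_
      rw [map_smul, map_mul, ← Complex.conj_mul']
      simp [c, ev_apply]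
    obtain ⟨a, ha, h4⟩ : ∃ a ∈ I, ε a ≤ ‖ev x a - φ a‖ := by
      by_contra h4
      push Not at h4
      have : ev x ∈ s ∩ range ev :=
        ⟨h1 (h2 fun a ha => h3 a (mem_ball_iff_norm.mpr (h4 a ha))), mem_range_self x⟩
      rw [h0] at this; exact this
    rw [e, Complex.norm_real]
    refine le_trans ?_ (le_abs_self _)
    refine le_trans ?_ (Finset.single_le_sum (f := fun a => (ε a ^ 2)⁻¹ * ‖ev x a - φ a‖ ^ 2)
      (fun a _ => by positivity) (hI.mem_toFinset.mpr ha))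
    have := hε a
    rw [inv_mul_eq_div, le_div_iff₀ (by positivity), one_mul]
    gcongr
  have h0' : ∀ x, (b : G →ᵇ ℂ) x ≠ 0 := fun x e => by
    have := hb x
    rw [e, norm_zero] at this; linarith
  have hi : ∀ x, ‖((b : G →ᵇ ℂ) x)⁻¹‖ ≤ 1 := fun x => by
    rw [norm_inv]; exact inv_le_one_of_one_le₀ (hb x)
  have hU : UC fun x => ((b : G →ᵇ ℂ) x)⁻¹ := by
    refine UC_iff.mpr (squeeze_zero (fun _ => norm_nonneg _) (fun p => ?_)
      (UC_iff.mp (mem_Al.mp b.2)))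
    rw [inv_sub_inv' (h0' _) (h0' _), norm_mul, norm_mul, norm_sub_rev]
    calc _ ≤ 1 * ‖(b : G →ᵇ ℂ) (p.1 * p.2) - (b : G →ᵇ ℂ) p.2‖ * 1 := by gcongr <;> exact hi _
      _ = _ := by simp
  have e1 : b * mk _ hU 1 hi = 1 := by
    ext x
    exact mul_inv_cancel₀ (h0' x)
  have e2 : φ b = 0 := by
    rw [map_sum]
    refine Finset.sum_eq_zero fun a _ => ?_
    rw [map_smul, map_mul, show φ (c a) = 0 by
      rw [map_sub, AlgHomClass.commutes]; exact sub_self _, mul_zero, smul_zero]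
  have := congrArg φ e1
  rw [map_mul, e2, zero_mul, map_one] at this
  exact zero_ne_one this

theorem ev_inj [LocallyCompactSpace G] [T2Space G] : Function.Injective (ev : G → XX G) := by
  intro x y e
  by_contra h
  obtain ⟨f, h1, h2, h3, h4⟩ := exists_continuous_one_zero_of_isCompact (isCompact_singleton (x := x))
    (isClosed_singleton (x := y)) (by simpa using h)
  have hU : UC fun x => (f x : ℂ) := fun ε hε => by
    simpa [← Complex.ofReal_sub] using UC_supp f.continuous h3 ε hε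
  have := congrArg (fun φ : XX G => φ (mk _ hU 1 fun x => by
    simpa [abs_le] using ⟨by linarith [(h4 x).1], (h4 x).2⟩)) e
  change (f x : ℂ) = f y at this
  rw [h1 rfl, h2 rfl] at this
  simp at this

omit [IsTopologicalGroup G] in
theorem leb {Z : Set (XX G)} (hZ : IsCompact Z) {ι : Type} {U : ι → Set (XX G)}
    (hU : ∀ i, IsOpen (U i)) (hc : Z ⊆ ⋃ i, U i) :
    ∃ W ∈ 𝓝 (1 : G), ∀ x, ev x ∈ Z → ∃ i, ∀ u ∈ W, ev (u * x) ∈ U i := by
  choose U' h1 h2 using fun i => emb_ind.isOpen_iff.mp (hU i)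
  obtain ⟨V, hV, h3⟩ := lebesgue_number_lemma (hZ.image emb_ind.continuous) h1 (by
    rintro _ ⟨z, hz, rfl⟩
    obtain ⟨i, hi⟩ := mem_iUnion.mp (hc hz)
    exact mem_iUnion.mpr ⟨i, by rwa [← h2] at hi⟩)
  have h4 : Tendsto (fun p : G × G => (emb (ev p.2), emb (ev (p.1 * p.2)))) (𝓝 1 ×ˢ ⊤) (𝓤 _) := by
    rw [Pi.uniformity, tendsto_iInf]
    intro a
    rw [tendsto_comap_iff, tendsto_uniformity_iff_dist_tendsto_zero]
    refine (UC_iff.mp (mem_Al.mp a.2)).congr fun p => ?_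
    rw [← dist_eq_norm, dist_comm]; rfl
  obtain ⟨P, k1, Q, k2, k3⟩ := eventually_prod_iff.mp (h4 hV)
  refine ⟨_, k1, fun x hx => ?_⟩
  obtain ⟨i, hi⟩ := h3 _ (mem_image_of_mem _ hx)
  exact ⟨i, fun u hu => by rw [← h2]; exact hi (k3 hu (eventually_top.mp k2 x))⟩

end Pool.Agent.H60.DM
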