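import Pool.Agent.H60.DMb

set_option autoImplicit false

namespace Pool.Agent.H60.DM

open Set Filter Topology
open scoped BoundedContinuousFunction

variable {G : Type} [TopologicalSpace G] [Group G] [IsTopologicalGroup G] {n : ℕ}

theorem exists_sup {φ : G → ℝ} (h1 : Continuous φ) (h2 : HasCompactSupport φ)
    (h3 : ∀ x, φ x ∈ Icc (0 : ℝ) 1) {J : Type} (d : J → G) : ∃ f : Al G,
    (∀ x j, φ (x * (d j)⁻¹) = 1 → ev x f = 1) ∧ ∀ x, ev x f ≠ 0 → ∃ j, φ (x * (d j)⁻¹) ≠ 0 := by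
  let Φ : G → ℝ := fun x => ⨆ j, φ (x * (d j)⁻¹)
  have k0 : ∀ x, 0 ≤ Φ x := fun x => Real.iSup_nonneg fun j => (h3 _).1
  have k1 : ∀ x, Φ x ≤ 1 := fun x => Real.iSup_le (fun j => (h3 _).2) zero_le_one
  have k2 : ∀ x j, φ (x * (d j)⁻¹) ≤ Φ x := fun x j =>
    le_ciSup (f := fun j => φ (x * (d j)⁻¹)) ⟨1, by rintro _ ⟨j, rfl⟩; exact (h3 _).2⟩ j
  have hU : UC fun x => (Φ x : ℂ) := fun ε hε => by
    obtain ⟨W, h4, h5⟩ := UC_supp h1 h2 (ε / 2) (half_pos hε)
    refine ⟨W, h4, fun u hu x => ?_⟩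
    have a : Φ (u * x) ≤ Φ x + ε / 2 := Real.iSup_le (fun j => by
      have := (abs_lt.mp (h5 u hu (x * (d j)⁻¹))).2
      rw [← mul_assoc] at this
      linarith [k2 x j]) (by linarith [k0 x])
    have b : Φ x ≤ Φ (u * x) + ε / 2 := Real.iSup_le (fun j => by
      have := (abs_lt.mp (h5 u hu (x * (d j)⁻¹))).1
      rw [← mul_assoc] at this
      linarith [k2 (u * x) j]) (by linarith [k0 (u * x)])
    rw [← Complex.ofReal_sub, Complex.norm_real, Real.norm_eq_abs, abs_lt]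
    constructor <;> linarith
  refine ⟨mk _ hU 1 fun x => by simpa [abs_of_nonneg (k0 x)] using k1 x, fun x j h => ?_,
    fun x h => ?_⟩
  · change (Φ x : ℂ) = 1
    rw [le_antisymm (k1 x) (h ▸ k2 x j)]; simp
  · by_contra h4
    push Not at h4
    apply h
    change (Φ x : ℂ) = 0
    simp [Φ, h4]

theorem Sh.hat [LocallyCompactSpace G] [T2Space G] {C O D : Set G} (hC : IsCompact C)
    (hO : IsOpen O) (hCO : C ⊆ O)
    (hD : ∀ d ∈ D, ∀ d' ∈ D, ∀ x, x * d⁻¹ ∈ O → x * d'⁻¹ ∈ O → d = d') (h : Sh C n) :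
    Sh (closure (ev '' ⋃ d : D, {x | x * (d : G)⁻¹ ∈ C})) n := by
  intro ι _ U hU hc
  obtain ⟨U', u1, u2, u3⟩ := exists_subset_iUnion_closure_subset isClosed_closure hU
    (fun _ _ => toFinite _) hc
  obtain ⟨W, w1, w2⟩ := leb (G := G) isClosed_closure.isCompact u2 u1
  obtain ⟨t, ht⟩ := hC.elim_finite_subcover (fun c : C => (· * (c : G)⁻¹) ⁻¹' interior W ∩ O)
    (fun c => (isOpen_interior.preimage (by fun_prop)).inter hO) fun x hx =>
      mem_iUnion.mpr ⟨⟨x, hx⟩, by simpa using mem_interior_iff_mem_nhds.mpr w1, hCO hx⟩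
  obtain ⟨V, v1, v2, v3, v4⟩ := h t (fun k => (· * (k.1 : G)⁻¹) ⁻¹' interior W ∩ O)
    (fun c => (isOpen_interior.preimage (by fun_prop)).inter hO) fun x hx => by
      obtain ⟨k, hk, h1⟩ := mem_iUnion₂.mp (ht hx)
      exact mem_iUnion.mpr ⟨⟨k, hk⟩, h1⟩
  obtain ⟨E, e1, e2, e3⟩ := hC.finite_compact_cover Finset.univ V (fun k _ => v1 k)
    (by simpa using v3)
  choose φ p1 p2 p3 p4 using fun k => exists_continuous_one_zero_of_isCompact (e1 k)
    (v1 k).isClosed_compl (disjoint_compl_right_iff_subset.mpr (e2 k))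
  choose idx hidx using fun (k : t) (d : D) => w2 (k.1 * d)
    (subset_closure (mem_image_of_mem _ (mem_iUnion.mpr ⟨d, by simp⟩)))
  choose f f1 f2 using fun (k : t) (i : ι) => exists_sup (φ k).continuous (p3 k) (p4 k)
    (fun d : {d : D // idx k d = i} => (d.1 : G))
  refine ⟨fun i => U i ∩ ⋃ k, {z | z (f k i) ≠ 0}, fun i => (hU i).inter (isOpen_iUnion fun k =>
    isOpen_ne_fun (hat_cont _) continuous_const), fun i => inter_subset_left, fun z hz => ?_,
    fun z hz => ?_⟩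
  · have h1 : ev '' (⋃ d : D, {x | x * (d : G)⁻¹ ∈ C}) ⊆ ⋃ p : t × ι,
        U' p.2 ∩ {z | z (f p.1 p.2) = 1} := by
      rintro _ ⟨x, hx, rfl⟩
      obtain ⟨d, hd⟩ := mem_iUnion.mp hx
      rw [e3] at hd
      obtain ⟨k, -, hk⟩ := mem_iUnion₂.mp hd
      refine mem_iUnion.mpr ⟨(k, idx k d), ?_, f1 k _ x ⟨d, rfl⟩ (p1 k hk)⟩
      simpa [mul_assoc] using hidx k d _ (interior_subset (v2 k (e2 k hk)).1)
    have h2 := closure_mono h1 hz
    rw [closure_iUnion_of_finite] at h2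
    obtain ⟨⟨k, i⟩, h3⟩ := mem_iUnion.mp h2
    have h4 : z (f k i) = 1 :=
      closure_minimal inter_subset_right (isClosed_eq (hat_cont _) continuous_const) h3
    exact mem_iUnion.mpr ⟨i, u3 i (closure_mono inter_subset_left h3),
      mem_iUnion.mpr ⟨k, by simp [h4]⟩⟩
  · have h1 : ∀ᶠ y in 𝓝 z, ∀ p : t × ι, z (f p.1 p.2) ≠ 0 → y (f p.1 p.2) ≠ 0 := by
      refine eventually_all.mpr fun p => ?_
      by_cases h2 : z (f p.1 p.2) = 0
      · simp [h2]
      · exact ((hat_cont _).continuousAt.eventually_ne h2).mono fun _ h _ => h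
    obtain ⟨_, h2, x, hx, rfl⟩ := mem_closure_iff_nhds.mp hz _ h1
    obtain ⟨d, hd⟩ := mem_iUnion.mp hx
    refine le_trans (card_le (fun k i => idx k d = i) (fun _ _ _ a b => a.symm.trans b)
      fun i hi => ?_) (v4 _ hd)
    obtain ⟨k, hk⟩ := mem_iUnion.mp hi.2
    obtain ⟨⟨d', rfl⟩, h3⟩ := f2 k i x (h2 (k, i) hk)
    have h4 : x * (d' : G)⁻¹ ∈ V k := by_contra fun h => h3 (p2 k h)
    obtain rfl : d = d' := Subtype.ext (hD d d.2 d' d'.2 x (hCO hd) (v2 k h4).2)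
    exact ⟨k, h4, rfl⟩

theorem main [LocallyCompactSpace G] [T2Space G] : Dim (XX G) n ↔ Dim G n := by
  rw [dim_iff, dim_iff]
  constructor
  · exact fun h => dim_of_compact fun K hK =>
      Sh.comap hK ev_cont ev_inj (h.closed (hK.image ev_cont).isClosed)
  · intro h
    obtain ⟨D, t, C, O, h1, h2, h3, h4, -, h6⟩ := decomp (G := G)
    have := Sh.biUnion t (fun j => Sh.hat (h1 j) (h2 j) (h3 j) (h4 j) (h.closed (h1 j).isClosed))
      fun _ => isClosed_closure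
    convert this using 1
    refine (eq_univ_of_forall fun z => closure_minimal ?_
      (isClosed_biUnion_finset fun _ _ => isClosed_closure) (ev_dense z)).symm
    rintro _ ⟨x, rfl⟩
    obtain ⟨j, hj, d, hd, h7⟩ := h6 x
    exact mem_iUnion₂.mpr ⟨j, hj, subset_closure (mem_image_of_mem _ (mem_iUnion.mpr ⟨⟨d, hd⟩, h7⟩))⟩

end Pool.Agent.H60.DM
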