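import Mathlib

set_option autoImplicit false

namespace Pool.Agent.H60.DT

open MvPolynomial

theorem dim_integral {R S : Type} [CommRing R] [CommRing S] (f : R →+* S)
    (hf : Function.Injective f) (hi : f.IsIntegral) : ringKrullDim R = ringKrullDim S := by
  let := f.toAlgebra
  have : Algebra.IsIntegral R S := ⟨hi⟩
  apply le_antisymm
  · refine iSup_le fun l => ?_
    obtain ⟨Q, -, hQ, hQ'⟩ := Ideal.exists_ideal_over_prime_of_isIntegral (S := S)
      (RelSeries.head l).asIdeal ⊥ (by
        intro x hx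
        have : x = 0 := hf (by
          have h1 : algebraMap R S x = 0 := by simpa using hx
          rw [map_zero]; exact h1)
        simp [this])
    have : Q.LiesOver (RelSeries.head l).asIdeal := ⟨hQ'.symm⟩
    obtain ⟨L, hL, -, -⟩ := Ideal.exists_ltSeries_of_hasGoingUp l Q
    rw [← hL]
    exact Order.LTSeries.length_le_krullDim L
  · refine Order.krullDim_le_of_strictMono (PrimeSpectrum.comap (algebraMap R S)) ?_
    intro p q h
    exact Ideal.IsIntegral.comap_lt_comap (R := R) (I := p.asIdeal) (J := q.asIdeal) h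

theorem dim_comap {R S : Type} [CommRing R] [CommRing S] (f : R →+* S) (P : Ideal S)
    (hi : ((Ideal.Quotient.mk P).comp f).IsIntegral) :
    ringKrullDim (R ⧸ P.comap f) = ringKrullDim (S ⧸ P) := by
  refine dim_integral (Ideal.quotientMap P f le_rfl) Ideal.quotientMap_injective ?_
  have : (Ideal.quotientMap P f le_rfl).comp (Ideal.Quotient.mk _) =
      (Ideal.Quotient.mk P).comp f := by
    ext x; simp
  rw [← this] at hi
  exact RingHom.IsIntegral.tower_top _ _ hi

theorem dim_lt {S : Type} [CommRing S] {P Q : Ideal S} [P.IsPrime] (h : P < Q) :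
    ringKrullDim (S ⧸ Q) + 1 ≤ ringKrullDim (S ⧸ P) := by
  obtain ⟨r, hrQ, hrP⟩ := SetLike.exists_of_lt h
  refine ringKrullDim_succ_le_of_surjective (Ideal.Quotient.factor h.le)
    (Ideal.Quotient.factor_surjective h.le) (r := Ideal.Quotient.mk P r) ?_ ?_
  · exact mem_nonZeroDivisors_of_ne_zero (by rwa [Ne, Ideal.Quotient.eq_zero_iff_mem])
  · simpa [Ideal.Quotient.eq_zero_iff_mem] using hrQ

theorem dim_mv (K : Type) [Field K] (σ : Type) [Fintype σ] :
    ringKrullDim (MvPolynomial σ K) = (Fintype.card σ : ℕ) := by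
  rw [MvPolynomial.ringKrullDim_of_isNoetherianRing, ringKrullDim_eq_zero_of_field]
  simp

theorem dim_bot (K : Type) [Field K] (n : ℕ) :
    ringKrullDim (MvPolynomial (Fin n) K ⧸ (⊥ : Ideal (MvPolynomial (Fin n) K))) = (n : ℕ) := by
  rw [ringKrullDim_eq_of_ringEquiv (RingEquiv.quotientBot _), dim_mv]; simp

theorem trdeg_eq {K A : Type} [Field K] [CommRing A] [IsDomain A] [Algebra K A]
    [Algebra.FiniteType K A] (s : ℕ) (h : ringKrullDim A = s) : Algebra.trdeg K A = s := by
  obtain ⟨t, g, hg, hi⟩ := exists_integral_inj_algHom_of_fg K A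
  have h1 := dim_integral g.toRingHom hg hi
  rw [dim_mv, h] at h1
  have h2 : t = s := by
    simp only [Fintype.card_fin] at h1
    exact_mod_cast h1
  subst h2
  let := g.toRingHom.toAlgebra
  have : Algebra.IsIntegral (MvPolynomial (Fin t) K) A := ⟨hi⟩
  have : IsScalarTower K (MvPolynomial (Fin t) K) A :=
    IsScalarTower.of_algebraMap_eq fun x => (g.commutes x).symm
  have : FaithfulSMul (MvPolynomial (Fin t) K) A :=
    (faithfulSMul_iff_algebraMap_injective _ _).2 hg
  have := trdeg_add_eq K (MvPolynomial (Fin t) K) (A := A)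
  rw [← this, trdeg_eq_zero (R := MvPolynomial (Fin t) K) (A := A),
    MvPolynomial.trdeg_of_isDomain]
  simp

/-- a nonzero polynomial vanishing on the cone over `Z(P)` with vertex direction `z` -/
theorem exists_cone_poly {K : Type} [Field K] {n s : ℕ} (P : Ideal (MvPolynomial (Fin n) K))
    [P.IsPrime] (h : ringKrullDim (MvPolynomial (Fin n) K ⧸ P) = s) (hs : s + 2 ≤ n)
    (z : Fin n → K) : ∃ Φ : MvPolynomial (Fin n) K, Φ ≠ 0 ∧
      ∀ y : Fin n → K, (∀ f ∈ P, aeval y f = 0) → ∀ t : K,
        aeval (fun k => y k + z k * t) Φ = 0 := by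
  set A := MvPolynomial (Fin n) K ⧸ P
  let ψ : MvPolynomial (Fin n) K →ₐ[K] Polynomial A :=
    aeval fun k => Polynomial.C (Ideal.Quotient.mk P (X k)) +
      Polynomial.C (algebraMap K A (z k)) * Polynomial.X
  have hA : Algebra.trdeg K A = s := trdeg_eq s h
  have hAT : Algebra.trdeg K (Polynomial A) = s + 1 := by
    rw [← trdeg_add_eq K A (A := Polynomial A), hA, Polynomial.trdeg_of_isDomain]
  have hni : ¬ Function.Injective ψ := by
    intro hinj
    have := trdeg_le_of_injective (R := K) (A := MvPolynomial (Fin n) K) (A' := Polynomial A)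
      ψ hinj
    rw [hAT, MvPolynomial.trdeg_of_isDomain] at this
    simp only [Cardinal.mk_fintype, Fintype.card_fin, Cardinal.lift_natCast] at this
    have h3 : n ≤ s + 1 := by exact_mod_cast this
    omega
  rw [injective_iff_map_eq_zero] at hni
  push Not at hni
  obtain ⟨Φ, hΦ, hΦ0⟩ := hni
  refine ⟨Φ, hΦ0, fun y hy t => ?_⟩
  let ev : A →ₐ[K] K := Ideal.Quotient.liftₐ P (aeval y) hy
  let E : Polynomial A →ₐ[K] K := Polynomial.eval₂AlgHom ev t (fun _ => Commute.all _ _)
  have : (aeval (fun k => y k + z k * t) : MvPolynomial (Fin n) K →ₐ[K] K) = E.comp ψ := by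
    ext k
    have h1 : ev (Ideal.Quotient.mk P (X k)) = y k := by
      change aeval y (X k) = y k
      simp
    have h2 : ev (algebraMap K A (z k)) = z k := by simp
    simp only [aeval_X, AlgHom.comp_apply, ψ, E, Polynomial.eval₂AlgHom_apply, Polynomial.eval₂_add,
      Polynomial.eval₂_mul, Polynomial.eval₂_C, Polynomial.eval₂_X, AlgHom.coe_toRingHom,
      AlgHom.toRingHom_eq_coe, RingHom.coe_coe, h1, h2]
  rw [this, AlgHom.comp_apply, hΦ, map_zero]

section Hom

variable {K : Type} [Field K] {σ τ : Type}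

/-- homogeneous ideal -/
def Hom (P : Ideal (MvPolynomial σ K)) : Prop := ∀ f ∈ P, ∀ k, homogeneousComponent k f ∈ P

theorem hc_map {L : Type} [Field L] (φ : MvPolynomial σ K →+* MvPolynomial τ L)
    (hφ : ∀ k f, IsHomogeneous f k → IsHomogeneous (φ f) k) (f : MvPolynomial σ K) (k : ℕ) :
    homogeneousComponent k (φ f) = φ (homogeneousComponent k f) := by
  induction f using MvPolynomial.induction_on' with
  | monomial d c =>
    rw [homogeneousComponent_of_mem (isHomogeneous_monomial c rfl),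
      homogeneousComponent_of_mem (hφ _ _ (isHomogeneous_monomial c rfl))]
    split_ifs <;> simp
  | add p q hp hq => simp [map_add, hp, hq]

theorem Hom.comap {L : Type} [Field L] (φ : MvPolynomial σ K →+* MvPolynomial τ L)
    (hφ : ∀ k f, IsHomogeneous f k → IsHomogeneous (φ f) k) {P : Ideal (MvPolynomial τ L)}
    (hP : Hom P) : Hom (P.comap φ) := by
  intro f hf k
  rw [Ideal.mem_comap, ← hc_map φ hφ]
  exact hP _ hf k

theorem hc_mul {g : MvPolynomial σ K} {b : ℕ} (hg : g.IsHomogeneous b) (h : MvPolynomial σ K)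
    (d : ℕ) : homogeneousComponent d (g * h) =
      if b ≤ d then g * homogeneousComponent (d - b) h else 0 := by
  induction h using MvPolynomial.induction_on' with
  | monomial e c =>
    have h1 := isHomogeneous_monomial (d := e) c rfl
    rw [homogeneousComponent_of_mem h1, homogeneousComponent_of_mem (hg.mul h1)]
    by_cases hb : b ≤ d
    · by_cases h2 : d = b + e.degree
      · rw [if_pos h2, if_pos hb, if_pos (by omega)]
      · rw [if_neg h2, if_pos hb, if_neg (by omega), mul_zero]
    · rw [if_neg hb, if_neg (by omega)]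
  | add p q hp hq =>
    rw [mul_add, map_add, hp, hq, map_add]
    split_ifs <;> simp [mul_add]

theorem aeval_smul_hom {f : MvPolynomial σ K} {k : ℕ} (hf : f.IsHomogeneous k) (c : K)
    (y : σ → K) : aeval (fun i => c * y i) f = c ^ k * aeval y f := by
  conv_lhs => rw [f.as_sum]
  conv_rhs => rw [f.as_sum]
  rw [map_sum, map_sum, Finset.mul_sum]
  refine Finset.sum_congr rfl fun e he => ?_
  rw [aeval_monomial, aeval_monomial, hf.degree_eq_sum_deg_support he]
  simp only [Finsupp.prod, mul_pow, Finset.prod_mul_distrib, Finset.prod_pow_eq_pow_sum]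
  ring

theorem Hom.cone {P : Ideal (MvPolynomial σ K)} (hP : Hom P) {y : σ → K}
    (hy : ∀ f ∈ P, aeval y f = 0) (c : K) : ∀ f ∈ P, aeval (fun i => c * y i) f = 0 := by
  intro f hf
  rw [← sum_homogeneousComponent f, map_sum]
  refine Finset.sum_eq_zero fun k _ => ?_
  rw [aeval_smul_hom (homogeneousComponent_isHomogeneous k f), hy _ (hP f hf k), mul_zero]

theorem exists_hc_ne {f : MvPolynomial σ K} (hf : f ≠ 0) : ∃ k, homogeneousComponent k f ≠ 0 := by
  by_contra h
  push Not at h
  apply hf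
  rw [← sum_homogeneousComponent f]
  exact Finset.sum_eq_zero fun k _ => h k

theorem Hom.exists_hom {P : Ideal (MvPolynomial σ K)} (hP : Hom P) (h : P ≠ ⊥) :
    ∃ f ∈ P, f ≠ 0 ∧ ∃ k, f.IsHomogeneous k := by
  obtain ⟨f, hf, hf0⟩ := Submodule.exists_mem_ne_zero_of_ne_bot h
  obtain ⟨k, hk⟩ := exists_hc_ne hf0
  exact ⟨_, hP f hf k, hk, k, homogeneousComponent_isHomogeneous k f⟩

/-- a homogeneous prime of codimension one is generated by a form -/
theorem codim_one {n : ℕ} (P : Ideal (MvPolynomial (Fin (n + 1)) K)) [hp : P.IsPrime] (hP : Hom P)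
    (h : ringKrullDim (MvPolynomial (Fin (n + 1)) K ⧸ P) = n) :
    ∃ g b, g ≠ 0 ∧ IsHomogeneous g (b + 1) ∧ P = Ideal.span {g} := by
  have hne : P ≠ ⊥ := by
    rintro rfl
    rw [dim_bot] at h
    have : n + 1 = n := by exact_mod_cast h
    omega
  obtain ⟨g0, hg0, hpr⟩ := hp.exists_mem_prime_of_ne_bot hne
  have hP0 : P = Ideal.span {g0} := by
    by_contra hc
    have : (Ideal.span {g0}).IsPrime := (Ideal.span_singleton_prime hpr.ne_zero).2 hpr
    have h1 : Ideal.span {g0} < P :=
      lt_of_le_of_ne ((Ideal.span_singleton_le_iff_mem _).2 hg0) (Ne.symm hc)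
    have h2 : (⊥ : Ideal (MvPolynomial (Fin (n + 1)) K)) < Ideal.span {g0} := by
      rw [bot_lt_iff_ne_bot, Ne, Ideal.span_singleton_eq_bot]; exact hpr.ne_zero
    have h3 := dim_lt h1
    have h4 := dim_lt h2
    rw [dim_bot] at h4
    rw [h] at h3
    have h5 : ((n : ℕ) : WithBot ℕ∞) + 1 + 1 ≤ ((n + 1 : ℕ) : WithBot ℕ∞) :=
      le_trans (by gcongr) h4
    have h6 : n + 1 + 1 ≤ n + 1 := by exact_mod_cast h5
    omega
  obtain ⟨k, hk⟩ := exists_hc_ne hpr.ne_zero
  have hmem := hP g0 hg0 k
  have hh := homogeneousComponent_isHomogeneous k g0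
  have hkle : k ≤ g0.totalDegree := by
    by_contra hc
    exact hk (homogeneousComponent_eq_zero _ _ (by omega))
  set g := homogeneousComponent k g0
  have hmem' := hmem
  rw [hP0, Ideal.mem_span_singleton] at hmem'
  obtain ⟨u, hu⟩ := hmem'
  have hu0 : u ≠ 0 := by rintro rfl; exact hk (by simpa using hu)
  have hdeg := totalDegree_mul_of_isDomain hpr.ne_zero hu0
  rw [← hu, hh.totalDegree hk] at hdeg
  have hu1 : u.totalDegree = 0 := by omega
  rw [totalDegree_eq_zero_iff_eq_C] at hu1
  have hc0 : coeff 0 u ≠ 0 := by intro h0; apply hu0; rw [hu1, h0, map_zero]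
  have hunit : IsUnit u := by rw [hu1]; exact (IsUnit.mk0 _ hc0).map C
  have hk0 : k ≠ 0 := by
    rintro rfl
    have h7 := hh.totalDegree hk
    rw [totalDegree_eq_zero_iff_eq_C] at h7
    have hc1 : coeff 0 g ≠ 0 := by intro h0; apply hk; rw [h7, h0, map_zero]
    exact hp.ne_top (Ideal.eq_top_of_isUnit_mem _ hmem (by rw [h7]; exact (IsUnit.mk0 _ hc1).map C))
  obtain ⟨b, rfl⟩ := Nat.exists_eq_succ_of_ne_zero hk0
  refine ⟨g, b, hk, hh, ?_⟩
  rw [hP0, hu, Ideal.span_singleton_mul_right_unit hunit]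

attribute [local instance] MvPolynomial.gradedAlgebra

theorem exists_hom_prime (Q : Ideal (MvPolynomial σ K)) [hQ : Q.IsPrime] :
    ∃ Q' : Ideal (MvPolynomial σ K), Q'.IsPrime ∧ Hom Q' ∧ Q' ≤ Q ∧
      ∀ f ∈ Q, ∀ k, f.IsHomogeneous k → f ∈ Q' := by
  refine ⟨(Q.homogeneousCore (homogeneousSubmodule σ K)).toIdeal, hQ.homogeneousCore, ?_,
    Ideal.toIdeal_homogeneousCore_le _ _, ?_⟩
  · intro f hf k
    exact homogeneousComponent_mem_of_mem (HomogeneousIdeal.isHomogeneous _) hf k
  · intro f hf k hk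
    exact Ideal.mem_homogeneousCore_of_homogeneous_of_mem ⟨k, hk⟩ hf

end Hom

end Pool.Agent.H60.DT
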