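import Pool.Agent.H60.DTa

set_option autoImplicit false

namespace Pool.Agent.H60.DT

open MvPolynomial Module

variable {K : Type} [Field K]

theorem lead {R σ : Type} [CommRing R] [Algebra K R] (u : σ → Polynomial R)
    (hu : ∀ i, (u i).natDegree ≤ 1) {f : MvPolynomial σ K} {D : ℕ} (hf : f.IsHomogeneous D) :
    (aeval u f).natDegree ≤ D ∧ (aeval u f).coeff D = aeval (fun i => (u i).coeff 1) f := by
  have key : ∀ (e : σ →₀ ℕ) (t : Finset σ), (∏ i ∈ t, u i ^ e i).natDegree ≤ ∑ i ∈ t, e i ∧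
      (∏ i ∈ t, u i ^ e i).coeff (∑ i ∈ t, e i) = ∏ i ∈ t, (u i).coeff 1 ^ e i := by
    intro e t
    classical
    induction t using Finset.induction_on with
    | empty => simp
    | insert a t ha ih =>
      rw [Finset.prod_insert ha, Finset.sum_insert ha, Finset.prod_insert ha]
      have h1 : (u a ^ e a).natDegree ≤ e a := by
        simpa using Polynomial.natDegree_pow_le_of_le (e a) (hu a)
      have h2 : (u a ^ e a).coeff (e a) = (u a).coeff 1 ^ e a := by
        simpa using Polynomial.coeff_pow_of_natDegree_le (m := e a) (hu a)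
      refine ⟨Polynomial.natDegree_mul_le.trans (add_le_add h1 ih.1), ?_⟩
      rw [Polynomial.coeff_mul_add_eq_of_natDegree_le h1 ih.1, h2, ih.2]
  constructor
  · rw [f.as_sum, map_sum]
    refine Polynomial.natDegree_sum_le_of_forall_le _ _ fun e he => ?_
    rw [aeval_monomial, hf.degree_eq_sum_deg_support he, Polynomial.algebraMap_apply]
    exact (Polynomial.natDegree_C_mul_le _ _).trans (key e e.support).1
  · conv_lhs => rw [f.as_sum]
    conv_rhs => rw [f.as_sum]
    rw [map_sum, map_sum, Polynomial.finsetSum_coeff]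
    refine Finset.sum_congr rfl fun e he => ?_
    rw [aeval_monomial, aeval_monomial, hf.degree_eq_sum_deg_support he,
      Polynomial.algebraMap_apply, Polynomial.coeff_C_mul]
    congr 1
    exact (key e e.support).2

variable {n : ℕ}

/-- projection from the point `q` (with `q 0 = 1`) -/
noncomputable def pj (q : Fin (n + 1) → K) :
    MvPolynomial (Fin n) K →ₐ[K] MvPolynomial (Fin (n + 1)) K :=
  aeval fun k => X k.succ - C (q k.succ) * X 0

/-- restriction to `X 0 = 0` -/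
noncomputable def rs : MvPolynomial (Fin (n + 1)) K →ₐ[K] MvPolynomial (Fin n) K :=
  aeval (Fin.cons 0 X : Fin (n + 1) → MvPolynomial (Fin n) K)

theorem pj_hom (q : Fin (n + 1) → K) (k : ℕ) (f : MvPolynomial (Fin n) K)
    (hf : f.IsHomogeneous k) : (pj q f).IsHomogeneous k := by
  have := hf.aeval (fun k : Fin n => (X k.succ - C (q k.succ) * X 0 : MvPolynomial (Fin (n + 1)) K))
    (n := 1) fun i => (isHomogeneous_X _ _).sub (isHomogeneous_C_mul_X _ _)
  rwa [one_mul] at this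

theorem rs_hom (k : ℕ) (f : MvPolynomial (Fin (n + 1)) K)
    (hf : f.IsHomogeneous k) : (rs f).IsHomogeneous k := by
  have := hf.aeval (Fin.cons 0 X : Fin (n + 1) → MvPolynomial (Fin n) K)
    (n := 1) fun i => by
      refine Fin.cases ?_ (fun j => ?_) i
      · exact isHomogeneous_zero _ _ _
      · exact isHomogeneous_X _ _
  rwa [one_mul] at this

theorem X_eq (q : Fin (n + 1) → K) (hq : q 0 = 1) (i : Fin (n + 1)) :
    (X i : MvPolynomial (Fin (n + 1)) K) =
      pj q ((Fin.cons 0 X : Fin (n + 1) → MvPolynomial (Fin n) K) i) + C (q i) * X 0 := by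
  refine Fin.cases ?_ (fun j => ?_) i
  · simp [hq]
  · simp [pj]

theorem pj_integral (q : Fin (n + 1) → K) (hq : q 0 = 1) (P : Ideal (MvPolynomial (Fin (n + 1)) K))
    {f : MvPolynomial (Fin (n + 1)) K} (hfP : f ∈ P) {D : ℕ} (hf : f.IsHomogeneous D)
    (hfq : aeval q f ≠ 0) :
    ((Ideal.Quotient.mk P).comp (pj q).toRingHom).IsIntegral := by
  set ψ := (Ideal.Quotient.mk P).comp (pj q).toRingHom with hψ
  let u : Fin (n + 1) → Polynomial (MvPolynomial (Fin n) K) := fun i =>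
    Polynomial.C (C (q i)) * Polynomial.X +
      Polynomial.C ((Fin.cons 0 X : Fin (n + 1) → MvPolynomial (Fin n) K) i)
  have hu : ∀ i, (u i).natDegree ≤ 1 := fun i => Polynomial.natDegree_linear_le
  obtain ⟨h1, h2⟩ := lead u hu hf
  have h3 : (fun i => (u i).coeff 1) = algebraMap K (MvPolynomial (Fin n) K) ∘ q := by
    funext i; simp [u]
  rw [h3, aeval_algebraMap_apply] at h2
  have h0 : ψ.IsIntegralElem (Ideal.Quotient.mk P (X 0)) := by
    refine ⟨Polynomial.C (C (aeval q f)⁻¹) * aeval u f, ?_, ?_⟩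
    · refine Polynomial.monic_of_natDegree_le_of_coeff_eq_one D
        ((Polynomial.natDegree_C_mul_le _ _).trans h1) ?_
      rw [Polynomial.coeff_C_mul, h2, algebraMap_eq, ← map_mul, inv_mul_cancel₀ hfq, map_one]
    · rw [Polynomial.eval₂_mul]
      have : (Polynomial.eval₂RingHom ψ (Ideal.Quotient.mk P (X 0))).comp (aeval u).toRingHom =
          Ideal.Quotient.mk P := by
        ext a
        · simp [hψ, pj]
        · have h5 := congrArg (Ideal.Quotient.mk P) (X_eq q hq a)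
          have h6 : ψ (C (q a)) = Ideal.Quotient.mk P (C (q a)) := by simp [hψ, pj]
          simp only [RingHom.comp_apply, Polynomial.coe_eval₂RingHom, AlgHom.toRingHom_eq_coe,
            RingHom.coe_coe, aeval_X, u, Polynomial.eval₂_add, Polynomial.eval₂_mul,
            Polynomial.eval₂_C, Polynomial.eval₂_X, h6]
          rw [h5, map_add, map_mul]
          exact add_comm _ _
      have h4 := RingHom.congr_fun this f
      simp only [RingHom.comp_apply, Polynomial.coe_eval₂RingHom, AlgHom.toRingHom_eq_coe,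
        RingHom.coe_coe] at h4
      rw [h4, Ideal.Quotient.eq_zero_iff_mem.2 hfP, mul_zero]
  have hC : ∀ a : K, ψ.IsIntegralElem (Ideal.Quotient.mk P (C a)) := by
    intro a
    have : Ideal.Quotient.mk P (C a) = ψ (C a) := by simp [hψ, pj]
    rw [this]; exact RingHom.isIntegralElem_map _
  intro x
  obtain ⟨g, rfl⟩ := Ideal.Quotient.mk_surjective x
  induction g using MvPolynomial.induction_on with
  | C a => exact hC a
  | add p r hp hr => rw [map_add]; exact hp.add _ hr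
  | mul_X p i hp =>
    rw [map_mul]
    refine hp.mul _ ?_
    rw [X_eq q hq i, map_add, map_mul]
    refine RingHom.IsIntegralElem.add _ ?_ ((hC _).mul _ h0)
    exact RingHom.isIntegralElem_map ψ

theorem exists_zero [IsAlgClosed K] {m : ℕ} {Q : Ideal (MvPolynomial (Fin m) K)} (hQ : Q ≠ ⊤) :
    ∃ y : Fin m → K, ∀ f ∈ Q, aeval y f = 0 := by
  obtain ⟨M, hM, hQM⟩ := Ideal.exists_le_maximal Q hQ
  obtain ⟨y, hy⟩ := eq_vanishingIdeal_singleton_of_isMaximal K hM
  refine ⟨y, fun f hf => ?_⟩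
  have := hQM hf
  rw [hy] at this
  exact this y rfl

theorem exists_sep [IsAlgClosed K] {m : ℕ} {P Q : Ideal (MvPolynomial (Fin m) K)} [Q.IsPrime]
    (h : ¬ P ≤ Q) : ∃ z : Fin m → K, (∀ f ∈ Q, aeval z f = 0) ∧ ¬ ∀ f ∈ P, aeval z f = 0 := by
  by_contra hc
  push Not at hc
  apply h
  rw [← IsPrime.vanishingIdeal_zeroLocus (K := K) Q]
  intro f hf z hz
  exact hc z hz f hf

theorem pj_sep [IsAlgClosed K] (q : Fin (n + 1) → K)
    (P Q : Ideal (MvPolynomial (Fin (n + 1)) K))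
    (hi : ((Ideal.Quotient.mk P).comp (pj q).toRingHom).IsIntegral) (hq : q 0 = 1)
    (z : Fin (n + 1) → K) (hz : ∀ f ∈ Q, aeval z f = 0)
    (hle : P.comap (pj q).toRingHom ≤ Q.comap (pj q).toRingHom) :
    ∃ c : K, ∀ f ∈ P, aeval (fun k => z k + c * q k) f = 0 := by
  set ψ := (Ideal.Quotient.mk P).comp (pj q).toRingHom with hψ
  let := ψ.toAlgebra
  have : Algebra.IsIntegral (MvPolynomial (Fin n) K) (MvPolynomial (Fin (n + 1)) K ⧸ P) := ⟨hi⟩
  let ε : MvPolynomial (Fin n) K →ₐ[K] K := (aeval z).comp (pj q)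
  have : (RingHom.ker ε).IsPrime := RingHom.ker_isPrime _
  obtain ⟨N, -, hN, hN'⟩ := Ideal.exists_ideal_over_prime_of_isIntegral
    (S := MvPolynomial (Fin (n + 1)) K ⧸ P) (RingHom.ker ε) ⊥ (by
      intro g hg
      have h1 : Ideal.Quotient.mk P (pj q g) = 0 := hg
      rw [Ideal.Quotient.eq_zero_iff_mem] at h1
      exact hz _ (hle h1))
  obtain ⟨y, hy⟩ := exists_zero (Q := N.comap (Ideal.Quotient.mk P))
    (Ideal.comap_ne_top _ hN.ne_top)
  refine ⟨y 0 - z 0, fun f hf => ?_⟩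
  have h1 : (fun k => z k + (y 0 - z 0) * q k) = y := by
    funext k
    refine Fin.cases ?_ (fun j => ?_) k
    · simp [hq]
    · have h2 : (X j - C (ε (X j)) : MvPolynomial (Fin n) K) ∈ RingHom.ker ε := by
        simp [RingHom.mem_ker]
      rw [← hN'] at h2
      have h3 := hy (pj q (X j - C (ε (X j)))) h2
      simp [pj, ε] at h3
      linear_combination -h3
  rw [h1]
  apply hy
  simp [Ideal.mem_comap, Ideal.Quotient.eq_zero_iff_mem.2 hf]

theorem exists_center [IsAlgClosed K] {ι : Type} (s : Finset ι)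
    (P : ι → Ideal (MvPolynomial (Fin (n + 1)) K)) (e : ι → ℕ)
    (hP : ∀ i ∈ s, (P i).IsPrime ∧ Hom (P i) ∧
      ringKrullDim (MvPolynomial (Fin (n + 1)) K ⧸ P i) = e i ∧ e i + 1 ≤ n)
    (hinc : ∀ i ∈ s, ∀ j ∈ s, i ≠ j → ¬ P i ≤ P j) :
    ∃ q : Fin (n + 1) → K, q 0 = 1 ∧
      (∀ i ∈ s, ((Ideal.Quotient.mk (P i)).comp (pj q).toRingHom).IsIntegral) ∧
      ∀ i ∈ s, ∀ j ∈ s, i ≠ j →
        ¬ (P i).comap (pj q).toRingHom ≤ (P j).comap (pj q).toRingHom := by
  classical
  have h1 : ∀ i ∈ s, ∃ f ∈ P i, f ≠ 0 ∧ ∃ k, f.IsHomogeneous k := by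
    intro i hi
    refine (hP i hi).2.1.exists_hom ?_
    intro h
    have h2 := (hP i hi).2.2.1
    rw [h, dim_bot] at h2
    have h3 : n + 1 = e i := by exact_mod_cast h2
    have := (hP i hi).2.2.2
    omega
  choose! f hf using h1
  have h2 : ∀ i ∈ s, ∀ j ∈ s, i ≠ j → ∃ z : Fin (n + 1) → K, ((∀ g ∈ P j, aeval z g = 0) ∧
      ¬ ∀ g ∈ P i, aeval z g = 0) ∧ ∃ Φ : MvPolynomial (Fin (n + 1)) K, Φ ≠ 0 ∧
      ∀ y : Fin (n + 1) → K, (∀ g ∈ P i, aeval y g = 0) → ∀ t : K,
        aeval (fun k => y k + z k * t) Φ = 0 := by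
    intro i hi j hj hij
    have := (hP j hj).1
    have := (hP i hi).1
    obtain ⟨z, hz⟩ := exists_sep (hinc i hi j hj hij)
    exact ⟨z, hz, exists_cone_poly (P i) (hP i hi).2.2.1 (by have := (hP i hi).2.2.2; omega) z⟩
  choose! z hz Φ hΦ using h2
  let Ψ : MvPolynomial (Fin (n + 1)) K :=
    X 0 * (∏ i ∈ s, f i) * ∏ x ∈ s.offDiag, Φ x.1 x.2
  have hΨ : Ψ ≠ 0 := by
    refine mul_ne_zero (mul_ne_zero (X_ne_zero _) (Finset.prod_ne_zero_iff.2 fun i hi =>
      (hf i hi).2.1)) (Finset.prod_ne_zero_iff.2 fun x hx => ?_)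
    rw [Finset.mem_offDiag] at hx
    exact (hΦ _ hx.1 _ hx.2.1 hx.2.2).1
  obtain ⟨p, hp⟩ : ∃ p : Fin (n + 1) → K, aeval p Ψ ≠ 0 := by
    by_contra hc
    push Not at hc
    exact hΨ (MvPolynomial.funext fun x => by simpa using hc x)
  simp only [Ψ, map_mul, map_prod, aeval_X, Ne, mul_eq_zero, not_or, Finset.prod_eq_zero_iff,
    not_exists, not_and] at hp
  obtain ⟨⟨hp0, hp1⟩, hp2⟩ := hp
  have hq : (fun k => (p 0)⁻¹ * p k) 0 = 1 := inv_mul_cancel₀ hp0
  have hint : ∀ i ∈ s, ((Ideal.Quotient.mk (P i)).comp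
      (pj fun k => (p 0)⁻¹ * p k).toRingHom).IsIntegral := by
    intro i hi
    obtain ⟨h3, -, k, hk⟩ := hf i hi
    refine pj_integral _ hq _ h3 hk ?_
    rw [aeval_smul_hom hk]
    exact mul_ne_zero (pow_ne_zero _ (inv_ne_zero hp0)) (hp1 i hi)
  refine ⟨_, hq, hint, fun i hi j hj hij hle => ?_⟩
  obtain ⟨c, hc⟩ := pj_sep _ (P i) (P j) (hint i hi) hq (z i j) (hz i hi j hj hij).1 hle
  have hc0 : c ≠ 0 := by
    rintro rfl
    apply (hz i hi j hj hij).2
    simpa using hc
  have h4 := (hΦ i hi j hj hij).2 _ ((hP i hi).2.1.cone hc (p 0 / c)) (-(p 0 / c))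
  apply hp2 (i, j) (Finset.mem_offDiag.2 ⟨hi, hj, hij⟩)
  convert h4 using 3
  funext k
  field_simp
  ring

end Pool.Agent.H60.DT
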