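import Pool.Agent.H60.DTb

set_option autoImplicit false

namespace Pool.Agent.H60.DT

open MvPolynomial Module

theorem lex_cons {n : ℕ} (a b : ℕ) (x y : Fin n → ℕ) :
    toLex (Fin.cons a x : Fin (n + 1) → ℕ) ≤ toLex (Fin.cons b y : Fin (n + 1) → ℕ) ↔
      a < b ∨ (a = b ∧ toLex x ≤ toLex y) := by
  have h : toLex (Fin.cons a x : Fin (n + 1) → ℕ) < toLex (Fin.cons b y : Fin (n + 1) → ℕ) ↔
      a < b ∨ (a = b ∧ toLex x < toLex y) :=
    Fin.pi_lex_lt_cons_cons (α := fun _ => ℕ) (fun {_} => (· < ·))
  have h2 : toLex (Fin.cons a x : Fin (n + 1) → ℕ) = toLex (Fin.cons b y : Fin (n + 1) → ℕ) ↔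
      a = b ∧ toLex x = toLex y := by
    rw [toLex_inj, toLex_inj, Fin.cons_inj]
  refine le_iff_lt_or_eq.trans ((or_congr h h2).trans ?_)
  rw [le_iff_lt_or_eq (a := toLex x)]
  tauto

open Classical in
/-- number of exponent vectors of degree `d` that are lexicographically `≥ α` -/
noncomputable def cnt (n d : ℕ) (α : Fin n → ℕ) : ℕ :=
  ((Finset.Nat.antidiagonalTuple n d).filter (fun β => toLex α ≤ toLex β)).card

theorem cnt1 {n d : ℕ} (a : ℕ) (x : Fin n → ℕ) :
    cnt (n + 1) d (Fin.cons a x) ≤ cnt (n + 1) (d + 1) (Fin.cons (a + 1) x) := by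
  classical
  unfold cnt
  refine Finset.card_le_card_of_injOn (fun β => Fin.cons (β 0 + 1) (Fin.tail β)) ?_ ?_
  · intro β hβ
    simp only [Finset.coe_filter, Finset.Nat.mem_antidiagonalTuple, Set.mem_setOf_eq] at hβ ⊢
    obtain ⟨h1, h2⟩ := hβ
    rw [← Fin.cons_self_tail β, lex_cons] at h2
    rw [lex_cons, Fin.sum_univ_succ] at *
    simp only [Fin.cons_zero, Fin.cons_succ, Fin.tail] at *
    refine ⟨by omega, ?_⟩
    rcases h2 with h2 | h2
    · left; omega
    · right; exact ⟨by omega, h2.2⟩
  · intro β _ γ _ h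
    simp only [Fin.cons_inj, add_left_inj] at h
    rw [← Fin.cons_self_tail β, ← Fin.cons_self_tail γ, h.1, h.2]

theorem cnt2 {n d : ℕ} (x : Fin n → ℕ) :
    cnt n d x + (if d = 0 then 0 else cnt (n + 1) (d - 1) 0) ≤ cnt (n + 1) d (Fin.cons 0 x) := by
  classical
  set T := (Finset.Nat.antidiagonalTuple (n + 1) d).filter
    (fun β => toLex (Fin.cons 0 x : Fin (n + 1) → ℕ) ≤ toLex β) with hT
  have h0 : cnt (n + 1) d (Fin.cons 0 x) = T.card := by unfold cnt; congr
  rw [h0, ← Finset.card_filter_add_card_filter_not (s := T) (fun β => β 0 = 0)]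
  refine add_le_add ?_ ?_
  · unfold cnt
    refine Finset.card_le_card_of_injOn (fun β => Fin.cons 0 β) ?_ ?_
    · intro β hβ
      simp only [hT, Finset.coe_filter, Finset.mem_filter, Finset.Nat.mem_antidiagonalTuple,
        Set.mem_setOf_eq] at hβ ⊢
      rw [lex_cons, Fin.sum_univ_succ]
      simp only [Fin.cons_zero, Fin.cons_succ]
      exact ⟨⟨by omega, Or.inr ⟨trivial, hβ.2⟩⟩, trivial⟩
    · intro β _ γ _ h
      simpa using h
  · split_ifs with hd
    · exact Nat.zero_le _
    · unfold cnt
      refine Finset.card_le_card_of_injOn (fun β => Fin.cons (β 0 + 1) (Fin.tail β)) ?_ ?_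
      · intro β hβ
        simp only [hT, Finset.coe_filter, Finset.mem_filter, Finset.Nat.mem_antidiagonalTuple,
          Set.mem_setOf_eq] at hβ ⊢
        have h1 := hβ.1
        rw [lex_cons, Fin.sum_univ_succ] at *
        simp only [Fin.cons_zero, Fin.cons_succ, Fin.tail] at *
        exact ⟨⟨by omega, Or.inl (by omega)⟩, by omega⟩
      · intro β _ γ _ h
        simp only [Fin.cons_inj, add_left_inj] at h
        rw [← Fin.cons_self_tail β, ← Fin.cons_self_tail γ, h.1, h.2]

variable {K : Type} [Field K] {ι : Type}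

/-- forms of degree `d` lying in all the ideals -/
def V {n : ℕ} (s : Finset ι) (P : ι → Ideal (MvPolynomial (Fin n) K)) (d : ℕ) :
    Submodule K (MvPolynomial (Fin n) K) where
  carrier := {f | f.IsHomogeneous d ∧ ∀ i ∈ s, f ∈ P i}
  add_mem' := fun ha hb => ⟨ha.1.add hb.1, fun i hi => (P i).add_mem (ha.2 i hi) (hb.2 i hi)⟩
  zero_mem' := ⟨isHomogeneous_zero _ _ _, fun i _ => (P i).zero_mem⟩
  smul_mem' := fun c f hf => ⟨by rw [smul_eq_C_mul]; exact hf.1.C_mul c, fun i hi => by
    rw [smul_eq_C_mul]; exact (P i).mul_mem_left _ (hf.2 i hi)⟩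

theorem mem_V {n : ℕ} {s : Finset ι} {P : ι → Ideal (MvPolynomial (Fin n) K)} {d : ℕ}
    {f : MvPolynomial (Fin n) K} : f ∈ V s P d ↔ f.IsHomogeneous d ∧ ∀ i ∈ s, f ∈ P i := Iff.rfl

instance {n : ℕ} (s : Finset ι) (P : ι → Ideal (MvPolynomial (Fin n) K)) (d : ℕ) :
    Module.Finite K (V s P d) := by
  have : Module.Finite K (homogeneousSubmodule (Fin n) K d) :=
    Module.Finite.iff_fg.2 (homogeneousSubmodule_fg _ _ d)
  exact Submodule.finiteDimensional_of_le (S₂ := homogeneousSubmodule (Fin n) K d)
    fun f hf => hf.1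

theorem proj_step {n : ℕ} (s : Finset ι) (P : ι → Ideal (MvPolynomial (Fin (n + 1)) K)) (d : ℕ)
    (q : Fin (n + 1) → K) :
    finrank K (V s P d) ≤ finrank K (V s (fun i => (P i).comap (pj q).toRingHom) d) +
      if d = 0 then 0 else finrank K (V ∅ P (d - 1)) := by
  let L : V s P d →ₗ[K] MvPolynomial (Fin (n + 1)) K :=
    (LinearMap.id - (pj q).toLinearMap ∘ₗ rs.toLinearMap) ∘ₗ (V s P d).subtype
  have hL : ∀ f : V s P d, L f = f.1 - pj q (rs f.1) := fun f => rfl
  rw [← LinearMap.finrank_range_add_finrank_ker L, add_comm]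
  refine add_le_add ?_ ?_
  · have hk : ∀ f : LinearMap.ker L, pj q (rs f.1.1) = f.1.1 := by
      intro f
      have := f.2
      rw [LinearMap.mem_ker, hL, sub_eq_zero] at this
      exact this.symm
    let M : LinearMap.ker L →ₗ[K] V s (fun i => (P i).comap (pj q).toRingHom) d :=
      LinearMap.codRestrict _ (rs.toLinearMap ∘ₗ (V s P d).subtype ∘ₗ (LinearMap.ker L).subtype)
        fun f => ⟨rs_hom _ _ f.1.2.1, fun i hi => by
          change pj q (rs f.1.1) ∈ P i
          rw [hk]; exact f.1.2.2 i hi⟩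
    refine LinearMap.finrank_le_finrank_of_injective (f := M) ?_
    intro f g h
    have h1 : rs f.1.1 = rs g.1.1 := congrArg Subtype.val h
    ext1; ext1
    rw [← hk f, ← hk g, h1]
  · have key : ∀ f : V s P d, L f = if 1 ≤ d then
        X 0 * homogeneousComponent (d - 1) ((L f).divMonomial (Finsupp.single 0 1)) else 0 := by
      intro f
      have h1 : L f ∈ Ideal.span {(X 0 : MvPolynomial (Fin (n + 1)) K)} := by
        rw [← Ideal.Quotient.eq_zero_iff_mem, hL, map_sub, sub_eq_zero]
        have : (Ideal.Quotient.mkₐ K (Ideal.span {(X 0 : MvPolynomial (Fin (n + 1)) K)})) =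
            (Ideal.Quotient.mkₐ K _).comp ((pj q).comp rs) := by
          ext i
          have h0 : Ideal.Quotient.mk (Ideal.span {(X 0 : MvPolynomial (Fin (n + 1)) K)}) (X 0)
            = 0 := Ideal.Quotient.eq_zero_iff_mem.2 (Ideal.mem_span_singleton_self _)
          refine Fin.cases ?_ (fun j => ?_) i
          · simp [rs, h0]
          · simp [rs, pj, h0]
        exact AlgHom.congr_fun this f.1
      obtain ⟨h, hh⟩ := Ideal.mem_span_singleton.1 h1
      have h2 : (L f).IsHomogeneous d := by
        rw [hL]; exact f.2.1.sub (pj_hom _ _ _ (rs_hom _ _ f.2.1))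
      have h3 : (L f).divMonomial (Finsupp.single 0 1) = h := by
        rw [hh, X, divMonomial_monomial_mul]
      rw [h3, ← hc_mul (isHomogeneous_X K 0), ← hh, homogeneousComponent_eq_self h2]
    split_ifs with hd
    · have : LinearMap.range L = ⊥ := by
        rw [LinearMap.range_eq_bot]
        ext1 f
        rw [key f, if_neg (by omega)]; rfl
      rw [this, finrank_bot]
    · refine le_trans (Submodule.finrank_mono (t := (V ∅ P (d - 1)).map
        (LinearMap.mulLeft K (X 0))) ?_) (Submodule.finrank_map_le _ _)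
      rintro _ ⟨f, rfl⟩
      rw [key f, if_pos (by omega)]
      exact ⟨_, ⟨homogeneousComponent_isHomogeneous _ _, by simp⟩, rfl⟩

theorem peel_step [DecidableEq ι] {n : ℕ} (s : Finset ι)
    (P : ι → Ideal (MvPolynomial (Fin (n + 1)) K))
    (d : ℕ) (i0 : ι) (hi0 : i0 ∈ s) (hP : ∀ i ∈ s, (P i).IsPrime)
    (hinc : ∀ j ∈ s, i0 ≠ j → ¬ P i0 ≤ P j) {g : MvPolynomial (Fin (n + 1)) K} {b : ℕ}
    (hg : g.IsHomogeneous (b + 1)) (h0 : P i0 = Ideal.span {g}) :
    finrank K (V s P d) ≤ if d = 0 then 0 else finrank K (V (s.erase i0) P (d - 1)) := by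
  have key : ∀ f ∈ V s P d, ∃ h, f = if b + 1 ≤ d then g * homogeneousComponent (d - (b + 1)) h
      else 0 := by
    intro f hf
    have h1 := hf.2 i0 hi0
    rw [h0, Ideal.mem_span_singleton] at h1
    obtain ⟨h, hh⟩ := h1
    exact ⟨h, by rw [← hc_mul hg, ← hh, homogeneousComponent_eq_self hf.1]⟩
  by_cases hb : b + 1 ≤ d
  · rw [if_neg (by omega)]
    have h1 : finrank K (V s P d) ≤ finrank K (V (s.erase i0) P (d - (b + 1))) := by
      refine le_trans (Submodule.finrank_mono (t := (V (s.erase i0) P (d - (b + 1))).map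
        (LinearMap.mulLeft K g)) ?_) (Submodule.finrank_map_le _ _)
      intro f hf
      obtain ⟨h, hh⟩ := key f hf
      rw [if_pos hb] at hh
      refine ⟨_, ⟨homogeneousComponent_isHomogeneous _ h, fun j hj => ?_⟩, hh.symm⟩
      rw [Finset.mem_erase] at hj
      have h2 := hf.2 j hj.2
      rw [hh] at h2
      refine ((hP j hj.2).mem_or_mem h2).resolve_left fun h3 => hinc j hj.2 (Ne.symm hj.1) ?_
      rw [h0]
      exact (Ideal.span_singleton_le_iff_mem _).2 h3
    refine h1.trans ?_
    let M : V (s.erase i0) P (d - (b + 1)) →ₗ[K] V (s.erase i0) P (d - 1) :=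
      LinearMap.codRestrict _ (LinearMap.mulLeft K (X 0 ^ b) ∘ₗ Submodule.subtype _)
        fun f => ⟨by
          have := (isHomogeneous_X_pow (R := K) (0 : Fin (n + 1)) b).mul f.2.1
          rwa [show b + (d - (b + 1)) = d - 1 by omega] at this,
          fun i hi => (P i).mul_mem_left _ (f.2.2 i hi)⟩
    refine LinearMap.finrank_le_finrank_of_injective (f := M) ?_
    intro f f' h
    have h1 : X 0 ^ b * f.1 = X 0 ^ b * f'.1 := congrArg Subtype.val h
    ext1
    exact mul_left_cancel₀ (pow_ne_zero _ (X_ne_zero _)) h1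
  · have : V s P d = ⊥ := by
      rw [eq_bot_iff]
      intro f hf
      obtain ⟨h, hh⟩ := key f hf
      rwa [if_neg hb] at hh
    rw [this, finrank_bot]
    exact Nat.zero_le _

theorem main_bound [IsAlgClosed K] (n : ℕ) : ∀ (d : ℕ) (s : Finset ι)
    (P : ι → Ideal (MvPolynomial (Fin n) K)) (c : ι → ℕ),
    (∀ i ∈ s, (P i).IsPrime ∧ Hom (P i) ∧ c i < n ∧
      ringKrullDim (MvPolynomial (Fin n) K ⧸ P i) = (n - 1 - c i : ℕ)) →
    (∀ i ∈ s, ∀ j ∈ s, i ≠ j → ¬ P i ≤ P j) →
    finrank K (V s P d) ≤ cnt n d fun l => (s.filter fun i => c i = l).card := by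
  classical
  induction n with
  | zero =>
    intro d s P c _ _
    rcases Nat.eq_zero_or_pos d with rfl | hd
    · have h1 : finrank K (V s P 0) ≤ finrank K (MvPolynomial (Fin 0) K) := Submodule.finrank_le _
      rw [(isEmptyAlgEquiv K (Fin 0)).toLinearEquiv.finrank_eq, finrank_self] at h1
      refine h1.trans (Finset.card_pos.2 ⟨![], ?_⟩)
      simp only [Finset.mem_filter, Finset.Nat.mem_antidiagonalTuple]
      exact ⟨by simp, le_of_eq (Subsingleton.elim _ _)⟩
    · have : V s P d = ⊥ := by
        rw [eq_bot_iff]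
        intro f hf
        by_contra h
        have := (isHomogeneous_of_isEmpty _ _ f).inj_right hf.1 h
        omega
      rw [this, finrank_bot]
      exact Nat.zero_le _
  | succ n ihn =>
    intro d
    induction d using Nat.strong_induction_on with
    | _ d ihd =>
    intro s P c hP hinc
    set α : Fin (n + 1) → ℕ := fun l => (s.filter fun i => c i = l).card with hα
    by_cases h0 : ∃ i0 ∈ s, c i0 = 0
    · obtain ⟨i0, hi0, hc0⟩ := h0
      have := (hP i0 hi0).1
      obtain ⟨g, b, -, hg, hg'⟩ := codim_one (P i0) (hP i0 hi0).2.1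
        (by rw [(hP i0 hi0).2.2.2, hc0]; simp)
      refine (peel_step s P d i0 hi0 (fun i hi => (hP i hi).1) (hinc i0 hi0) hg hg').trans ?_
      split_ifs with hd
      · exact Nat.zero_le _
      · obtain ⟨d, rfl⟩ := Nat.exists_eq_succ_of_ne_zero hd
        have h1 := ihd d (by omega) (s.erase i0) P c
          (fun i hi => hP i (Finset.mem_of_mem_erase hi))
          (fun i hi j hj => hinc i (Finset.mem_of_mem_erase hi) j (Finset.mem_of_mem_erase hj))
        refine h1.trans ?_
        have h2 : α = Fin.cons (((s.erase i0).filter fun i => c i = 0).card + 1) (Fin.tail α) := by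
          conv_lhs => rw [← Fin.cons_self_tail α]
          congr 1
          rw [Finset.filter_erase, Finset.card_erase_add_one (by simp [hi0, hc0])]
          rfl
        have h3 : (fun l : Fin (n + 1) => ((s.erase i0).filter fun i => c i = l).card) =
            Fin.cons (((s.erase i0).filter fun i => c i = 0).card) (Fin.tail α) := by
          funext l
          refine Fin.cases rfl (fun j => ?_) l
          simp only [Fin.cons_succ, Fin.tail, hα]
          rw [Finset.filter_erase, Finset.erase_eq_of_notMem (by simp [hc0])]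
        rw [h3, h2]
        exact cnt1 _ _
    · push Not at h0
      obtain ⟨q, hq, hint, hsep⟩ := exists_center s P (fun i => n - c i)
        (fun i hi => ⟨(hP i hi).1, (hP i hi).2.1, by rw [(hP i hi).2.2.2]; simp, by
          have := h0 i hi
          have := (hP i hi).2.2.1
          omega⟩) hinc
      refine (proj_step s P d q).trans ?_
      have h1 := ihn d s (fun i => (P i).comap (pj q).toRingHom) (fun i => c i - 1)
        (fun i hi => by
          have := (hP i hi).1
          have h2 := h0 i hi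
          have h3 := (hP i hi).2.2.1
          refine ⟨Ideal.comap_isPrime _ _, (hP i hi).2.1.comap _ (pj_hom q), by omega, ?_⟩
          rw [dim_comap _ _ (hint i hi), (hP i hi).2.2.2]
          congr 1
          omega) hsep
      have h2 : α = Fin.cons 0 (fun l : Fin n => (s.filter fun i => c i - 1 = l).card) := by
        funext l
        refine Fin.cases ?_ (fun j => ?_) l
        · simp only [hα, Fin.cons_zero, Finset.card_eq_zero, Finset.filter_eq_empty_iff]
          exact fun i hi => h0 i hi
        · simp only [Fin.cons_succ, hα]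
          congr 1
          refine Finset.filter_congr fun i hi => ?_
          have := h0 i hi
          simp only [Fin.val_succ]
          omega
      rw [h2]
      refine le_trans (add_le_add h1 ?_) (cnt2 _)
      split_ifs with hd
      · exact le_rfl
      · exact ihd (d - 1) (by omega) ∅ P c (by simp) (by simp)

end Pool.Agent.H60.DT
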