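import Pool.Agent.H60.DTc

set_option autoImplicit false

namespace Pool.Agent.H60.DT

open MvPolynomial Module

variable {K : Type} [Field K]

theorem map_integral {L σ : Type} [Field L] [Algebra K L] [Algebra.IsAlgebraic K L] :
    (MvPolynomial.map (σ := σ) (algebraMap K L)).IsIntegral := by
  intro g
  induction g using MvPolynomial.induction_on with
  | C a =>
    obtain ⟨p, hp, hpa⟩ := Algebra.IsIntegral.isIntegral (R := K) a
    refine ⟨p.map C, hp.map _, ?_⟩
    rw [Polynomial.eval₂_map]
    have : (MvPolynomial.map (σ := σ) (algebraMap K L)).comp C = C.comp (algebraMap K L) := by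
      ext x; simp
    rw [this, ← Polynomial.hom_eval₂, hpa, map_zero]
  | add p r hp hr => exact hp.add _ hr
  | mul_X p i hp =>
    refine hp.mul _ ?_
    rw [← map_X (algebraMap K L) i]
    exact RingHom.isIntegralElem_map _

theorem map_linInd {L σ ι : Type} [Fintype ι] [Field L] [Algebra K L] {F : ι → MvPolynomial σ K}
    (hF : LinearIndependent K F) :
    LinearIndependent L fun j => MvPolynomial.map (algebraMap K L) (F j) := by
  rw [Fintype.linearIndependent_iff] at hF ⊢
  intro g hg j
  rw [← Module.forall_dual_apply_eq_zero_iff K]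
  intro φ
  refine hF (fun j => φ (g j)) ?_ j
  ext e
  have h1 := congrArg (fun p => φ (coeff e p)) hg
  simp only [coeff_sum, coeff_smul, coeff_map, smul_eq_mul, map_sum, coeff_zero, map_zero] at h1 ⊢
  rw [← h1]
  refine Finset.sum_congr rfl fun x _ => ?_
  rw [mul_comm (g x), ← Algebra.smul_def, map_smul, smul_eq_mul, mul_comm]

theorem upper {m d r : ℕ} (F : Fin r → MvPolynomial (Fin (m + 1)) K) (hF : LinearIndependent K F)
    (hd : ∀ j, (F j).IsHomogeneous d) :
    r ≤ cnt (m + 1) d (Fin.snoc (α := fun _ => ℕ) (fun i : Fin m =>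
      Set.ncard {P ∈ (Ideal.span (Set.range F)).minimalPrimes |
        ringKrullDim (MvPolynomial (Fin (m + 1)) K ⧸ P) = (m - i : ℕ)}) 0) := by
  classical
  set I := Ideal.span (Set.range F) with hI
  let L := AlgebraicClosure K
  let μ : MvPolynomial (Fin (m + 1)) K →+* MvPolynomial (Fin (m + 1)) L :=
    MvPolynomial.map (algebraMap K L)
  have hμ : μ.IsIntegral := map_integral
  have hlift : ∀ P ∈ I.minimalPrimes, ∃ Q : Ideal (MvPolynomial (Fin (m + 1)) L),
      Q.IsPrime ∧ Hom Q ∧ Q.comap μ = P := by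
    intro P hP
    have := hP.1.1
    have hom : Hom P := by
      obtain ⟨Q', h1, h2, h3, h4⟩ := exists_hom_prime P
      have : Q' = P := le_antisymm h3 (hP.2 ⟨h1, Ideal.span_le.2 (by
        rintro _ ⟨j, rfl⟩
        exact h4 _ (hP.1.2 (Ideal.subset_span ⟨j, rfl⟩)) d (hd j))⟩ h3)
      rwa [← this]
    let := μ.toAlgebra
    have : Algebra.IsIntegral (MvPolynomial (Fin (m + 1)) K) (MvPolynomial (Fin (m + 1)) L) := ⟨hμ⟩
    obtain ⟨Q, -, hQ, hQ'⟩ := Ideal.exists_ideal_over_prime_of_isIntegral
      (S := MvPolynomial (Fin (m + 1)) L) P ⊥ (by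
        intro x hx
        have h1 : μ x = 0 := hx
        have : x = 0 := map_injective _ (algebraMap K L).injective (by rw [map_zero]; exact h1)
        simp [this])
    have hQ'' : Q.comap μ = P := hQ'
    obtain ⟨Q', h1, h2, h3, h4⟩ := exists_hom_prime Q
    refine ⟨Q', h1, h2, le_antisymm (hQ'' ▸ Ideal.comap_mono h3) fun f hf => ?_⟩
    rw [Ideal.mem_comap, ← sum_homogeneousComponent f, map_sum]
    refine Ideal.sum_mem _ fun k _ => h4 _ ?_ k ((homogeneousComponent_isHomogeneous k f).map _)
    rw [← Ideal.mem_comap, hQ'']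
    exact hom f hf k
  choose! Q hQ using hlift
  have hfin : {P ∈ I.minimalPrimes | ∃ i, i < m ∧
      ringKrullDim (MvPolynomial (Fin (m + 1)) K ⧸ P) = (m - i : ℕ)}.Finite :=
    (Ideal.finite_minimalPrimes_of_isNoetherianRing _ I).subset fun P hP => hP.1
  set s := hfin.toFinset with hs
  have hc : ∀ P ∈ s, ∃ i, i < m ∧
      ringKrullDim (MvPolynomial (Fin (m + 1)) K ⧸ P) = (m - i : ℕ) := by
    intro P hP
    exact (hfin.mem_toFinset.1 hP).2
  have hmin : ∀ P ∈ s, P ∈ I.minimalPrimes := fun P hP => (hfin.mem_toFinset.1 hP).1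
  choose! c hc using hc
  have hmain := main_bound (K := L) (m + 1) d s Q c (fun P hP => by
      obtain ⟨h1, h2, h3⟩ := hQ P (hmin P hP)
      refine ⟨h1, h2, by have := (hc P hP).1; omega, ?_⟩
      rw [← dim_comap μ (Q P) (hμ.trans _ _ (RingHom.isIntegral_of_surjective _
        Ideal.Quotient.mk_surjective)), h3, (hc P hP).2]
      simp)
    (fun P hP P' hP' hne hle => by
      have h1 := Ideal.comap_mono (f := μ) hle
      rw [(hQ P (hmin P hP)).2.2, (hQ P' (hmin P' hP')).2.2] at h1
      exact hne (le_antisymm h1 ((hmin P' hP').2 (hmin P hP).1 h1)))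
  have hr : r ≤ finrank L (V s Q d) := by
    let G : Fin r → V s Q d := fun j => ⟨μ (F j), (hd j).map _, fun P hP => by
      rw [← Ideal.mem_comap, (hQ P (hmin P hP)).2.2]
      exact (hmin P hP).1.2 (Ideal.subset_span ⟨j, rfl⟩)⟩
    have hG : LinearIndependent L G :=
      LinearIndependent.of_comp (V s Q d).subtype (map_linInd hF)
    simpa using hG.fintype_card_le_finrank
  refine hr.trans (hmain.trans (le_of_eq ?_))
  congr 1
  funext l
  refine Fin.lastCases ?_ (fun i => ?_) l
  · simp only [Fin.snoc_last, Finset.card_eq_zero, Finset.filter_eq_empty_iff, Fin.val_last]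
    exact fun P hP => (hc P hP).1.ne
  · simp only [Fin.snoc_castSucc, Fin.val_castSucc]
    rw [← Set.ncard_coe_finset]
    congr 1
    ext P
    simp only [Finset.coe_filter, Set.mem_setOf_eq]
    constructor
    · rintro ⟨hP, h1⟩
      exact ⟨hmin P hP, h1 ▸ (hc P hP).2⟩
    · rintro ⟨hP, h1⟩
      have hP' : P ∈ s := hfin.mem_toFinset.2 ⟨hP, i, i.2, h1⟩
      refine ⟨hP', ?_⟩
      have h2 := (hc P hP').2
      rw [h1] at h2
      have h3 : m - i = m - c P := by exact_mod_cast h2
      have := (hc P hP').1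
      have := i.2
      omega

section Constr

variable {m : ℕ} (a : ℕ → K)

/-- the linear forms -/
noncomputable def lf (l : Fin (m + 1)) (c : ℕ) : MvPolynomial (Fin (m + 1)) K :=
  X l - C (if l = Fin.last m then 0 else a c) * X (Fin.last m)

/-- the forms of degree `∑ β` -/
noncomputable def fm (β : Fin (m + 1) → ℕ) : MvPolynomial (Fin (m + 1)) K :=
  ∏ l, ∏ c ∈ Finset.range (β l), lf a l c

theorem fm_hom (β : Fin (m + 1) → ℕ) : (fm a β).IsHomogeneous (∑ l, β l) := by
  refine IsHomogeneous.prod _ _ _ fun l _ => ?_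
  have := IsHomogeneous.prod (Finset.range (β l)) (lf a l) (fun _ => 1)
    fun c _ => (isHomogeneous_X _ _).sub (isHomogeneous_C_mul_X _ _)
  simpa using this

theorem fm_mem {P : Ideal (MvPolynomial (Fin (m + 1)) K)} [hP : P.IsPrime] {β : Fin (m + 1) → ℕ} :
    fm a β ∈ P ↔ ∃ l, ∃ c < β l, lf a l c ∈ P := by
  simp [fm, Ideal.IsPrime.prod_mem_iff]

theorem fm_linInd {d : ℕ} (ha : Set.InjOn a (Set.Iic d)) (T : Finset (Fin (m + 1) → ℕ))
    (hT : ∀ β ∈ T, ∑ l, β l = d) : LinearIndependent K fun β : T => fm a β.1 := by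
  classical
  rw [Fintype.linearIndependent_iff]
  intro g hg
  have key : ∀ k, ∀ γ : T, d - γ.1 (Fin.last m) = k → g γ = 0 := by
    intro k
    induction k using Nat.strong_induction_on with
    | _ k ih =>
    intro γ hγ
    let pt : Fin (m + 1) → K := fun l => if l = Fin.last m then 1 else a (γ.1 l)
    have hlf : ∀ l c, aeval pt (lf a l c) = if l = Fin.last m then 1 else a (γ.1 l) - a c := by
      intro l c
      simp only [lf, map_sub, map_mul, aeval_X, aeval_C, pt]
      split_ifs <;> simp
    have hle : ∀ β : T, ∀ l, β.1 l ≤ d := fun β l => by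
      rw [← hT β.1 β.2]; exact Finset.single_le_sum (f := β.1) (by simp) (Finset.mem_univ l)
    have h1 := congrArg (aeval pt) hg
    rw [map_sum, map_zero, Finset.sum_eq_single γ] at h1
    · rw [map_smul, smul_eq_mul, mul_eq_zero] at h1
      refine h1.resolve_right ?_
      simp only [fm, map_prod, Finset.prod_eq_zero_iff, hlf, not_exists, not_and, Finset.mem_range]
      intro l _ c hc
      split_ifs
      · exact one_ne_zero
      · rw [sub_eq_zero]
        intro h2
        have := hle γ l
        have := ha (show γ.1 l ∈ Set.Iic d from hle γ l) (show c ≤ d by omega) h2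
        omega
    · intro β _ hβ
      rw [map_smul, smul_eq_mul, mul_eq_zero]
      by_cases h2 : ∃ l, l ≠ Fin.last m ∧ γ.1 l < β.1 l
      · right
        obtain ⟨l, hl, h3⟩ := h2
        simp only [fm, map_prod, Finset.prod_eq_zero_iff, hlf, Finset.mem_range]
        exact ⟨l, Finset.mem_univ _, γ.1 l, h3, by simp [hl]⟩
      · left
        push Not at h2
        have h3 := hT β.1 β.2
        have h4 := hT γ.1 γ.2
        rw [Fin.sum_univ_castSucc] at h3 h4
        have h5 : ∀ i : Fin m, β.1 i.castSucc ≤ γ.1 i.castSucc :=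
          fun i => h2 _ (Fin.castSucc_lt_last i).ne
        have h6 : ∑ i : Fin m, β.1 i.castSucc ≤ ∑ i : Fin m, γ.1 i.castSucc :=
          Finset.sum_le_sum fun i _ => h5 i
        rcases h6.lt_or_eq with h7 | h7
        · exact ih _ (by omega) β rfl
        · exfalso
          apply hβ
          ext l
          refine Fin.lastCases (by omega) (fun i => ?_) l
          exact (Finset.sum_eq_sum_iff_of_le fun i _ => h5 i).1 h7 i (Finset.mem_univ _)
    · simp
  exact fun γ => key _ γ rfl

/-- parametrisation of a linear component -/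
noncomputable def th (i : Fin (m + 1)) (w : Fin (m + 1) → ℕ) :
    MvPolynomial (Fin (m + 1)) K →ₐ[K] MvPolynomial {l : Fin (m + 1) // i < l} K :=
  aeval fun l => if h : i < l then X ⟨l, h⟩ else
    C (a (w l)) * if h : i < Fin.last m then X ⟨Fin.last m, h⟩ else 0

theorem th_lf (i : Fin (m + 1)) (w : Fin (m + 1) → ℕ) {l : Fin (m + 1)} (hl : l ≤ i) :
    th a i w (lf a l (w l)) = 0 := by
  simp only [th, lf, map_sub, map_mul, aeval_X, aeval_C, dif_neg (not_lt.2 hl), algebraMap_eq]
  by_cases h : i < Fin.last m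
  · simp [h, (lt_of_le_of_lt hl h).ne]
  · simp [h]

theorem th_ker_le (i : Fin (m + 1)) (w : Fin (m + 1) → ℕ) (P : Ideal (MvPolynomial (Fin (m + 1)) K))
    (h : ∀ l ≤ i, lf a l (w l) ∈ P) : RingHom.ker (th a i w) ≤ P := by
  have : (Ideal.Quotient.mkₐ K P) =
      (Ideal.Quotient.mkₐ K P).comp ((rename Subtype.val).comp (th a i w)) := by
    ext l
    simp only [th, AlgHom.comp_apply, aeval_X, Ideal.Quotient.mkₐ_eq_mk]
    by_cases hl : i < l
    · simp [hl]
    · rw [dif_neg hl, Ideal.Quotient.eq]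
      have h1 := h l (not_lt.1 hl)
      by_cases hi : i < Fin.last m
      · have h2 : l ≠ Fin.last m := (lt_of_le_of_lt (not_lt.1 hl) hi).ne
        simpa [hi, lf, h2] using h1
      · have h2 := h (Fin.last m) (not_lt.1 hi)
        simp only [lf, if_true, map_zero, zero_mul, sub_zero] at h2
        have h3 := P.add_mem h1 (P.mul_mem_left (C (if l = Fin.last m then 0 else a (w l))) h2)
        simpa [hi, lf] using h3
  intro f hf
  rw [← Ideal.Quotient.eq_zero_iff_mem]
  have h1 := AlgHom.congr_fun this f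
  rw [RingHom.mem_ker] at hf
  simpa [hf] using h1

theorem th_dim (i : Fin (m + 1)) (w : Fin (m + 1) → ℕ) :
    ringKrullDim (MvPolynomial (Fin (m + 1)) K ⧸ RingHom.ker (th a i w)) = (m - i : ℕ) := by
  have hs : Function.Surjective (th a i w) := by
    have : (th a i w).comp (rename Subtype.val) = AlgHom.id K _ := by
      ext l
      simp [th, l.2]
    intro g
    exact ⟨rename Subtype.val g, AlgHom.congr_fun this g⟩
  refine (ringKrullDim_eq_of_ringEquiv
    (RingHom.quotientKerEquivOfSurjective (f := (th a i w).toRingHom) hs)).trans ?_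
  rw [dim_mv]
  congr 1
  rw [Fintype.card_subtype, Finset.filter_lt_eq_Ioi, Fin.card_Ioi]
  omega

theorem th_inj {i i' : Fin (m + 1)} (hi : i < Fin.last m) {w w' : Fin (m + 1) → ℕ}
    (h : RingHom.ker (th a i' w') ≤ RingHom.ker (th a i w)) {l : Fin (m + 1)} (hl : l ≤ i)
    (hl' : l ≤ i') : a (w l) = a (w' l) := by
  have h1 := h (th_lf a i' w' hl')
  rw [RingHom.mem_ker] at h1
  have h2 := congrArg (aeval fun _ => (1 : K)) h1
  have h3 : l ≠ Fin.last m := (lt_of_le_of_lt hl hi).ne
  simpa [th, lf, not_lt.2 hl, hi, h3, sub_eq_zero] using h2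

variable {d : ℕ} {ν : Fin (m + 1) → ℕ}

theorem fm_mem_th (i : Fin (m + 1)) {c : ℕ} (hc : c < ν i) {β : Fin (m + 1) → ℕ}
    (hβ : toLex ν ≤ toLex β) : fm a β ∈ RingHom.ker (th a i (Function.update ν i c)) := by
  have : (RingHom.ker (th a i (Function.update ν i c))).IsPrime := RingHom.ker_isPrime _
  rw [fm_mem]
  have h0 : lf a i c ∈ RingHom.ker (th a i (Function.update ν i c)) := by
    have := th_lf a i (Function.update ν i c) le_rfl
    rwa [Function.update_self] at this
  rcases hβ.lt_or_eq with h | h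
  · obtain ⟨j, hj, hj'⟩ := h
    rcases lt_trichotomy j i with h1 | h1 | h1
    · refine ⟨j, ν j, hj', ?_⟩
      have := th_lf a i (Function.update ν i c) h1.le
      rwa [Function.update_of_ne h1.ne] at this
    · subst h1
      exact ⟨j, c, hc.trans hj', h0⟩
    · have h2 : ν i = β i := hj i h1
      exact ⟨i, c, h2 ▸ hc, h0⟩
  · have h2 : ν = β := toLex_inj.1 h
    exact ⟨i, c, h2 ▸ hc, h0⟩

theorem prime_over (hν : ∑ l, ν l = d) (P : Ideal (MvPolynomial (Fin (m + 1)) K)) [hP : P.IsPrime]
    (h : ∀ β, ∑ l, β l = d → toLex ν ≤ toLex β → fm a β ∈ P) :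
    ∃ i, ∃ c < ν i, RingHom.ker (th a i (Function.update ν i c)) ≤ P := by
  classical
  have hex : ∃ i, ∃ c < ν i, lf a i c ∈ P := (fm_mem a).1 (h ν hν le_rfl)
  obtain ⟨i, ⟨c, hc, hic⟩, hmin⟩ := WellFounded.has_min (wellFounded_lt (α := Fin (m + 1)))
    {i | ∃ c < ν i, lf a i c ∈ P} hex
  refine ⟨i, c, hc, th_ker_le a _ _ _ fun l hl => ?_⟩
  rcases hl.lt_or_eq with hl | rfl
  swap
  · rwa [Function.update_self]
  rw [Function.update_of_ne hl.ne]
  have hll : l < Fin.last m := lt_of_lt_of_le hl (Fin.le_last i)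
  have hlast : ∀ c, lf a (Fin.last m) c = X (Fin.last m) := fun c => by simp [lf]
  -- total degree bookkeeping
  set R := ∑ k ∈ Finset.univ.filter (fun k => l < k), ν k with hR
  have hRpos : 1 ≤ R := by
    have := Finset.single_le_sum (f := ν) (s := Finset.univ.filter (fun k => l < k))
      (by simp) (a := i) (by simpa using hl)
    omega
  have hsum : ∀ (j : Fin (m + 1)) , ∑ k, ((if l < k then 0 else ν k) + (if k = l then 1 else 0)
      + (if k = j then R - 1 else 0)) = d := by
    intro j
    rw [Finset.sum_add_distrib, Finset.sum_add_distrib, Finset.sum_ite_eq', Finset.sum_ite_eq',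
      Finset.sum_ite, ← hν, ← Finset.sum_filter_add_sum_filter_not Finset.univ (fun k => l < k) ν]
    simp only [Finset.sum_const_zero, Finset.mem_univ, if_true, ← hR]
    omega
  have hlex : ∀ j, l ≤ j → toLex ν ≤ toLex (fun k => (if l < k then 0 else ν k) +
      (if k = l then 1 else 0) + (if k = j then R - 1 else 0)) := by
    intro j hj
    refine le_of_lt ⟨l, fun k hk => ?_, ?_⟩
    · simp [not_lt.2 hk.le, hk.ne, (lt_of_lt_of_le hk hj).ne]
    · simp only [Pi.toLex_apply, lt_irrefl, if_false, if_true]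
      omega
  by_cases hX : X (Fin.last m) ∈ P
  · obtain ⟨k, c', hc', hk⟩ := (fm_mem a).1 (h _ (hsum l) (hlex l le_rfl))
    rcases lt_trichotomy k l with h1 | h1 | h1
    · simp only [not_lt.2 h1.le, h1.ne, if_false, add_zero] at hc'
      exact absurd (h1.trans hl) (hmin k ⟨c', hc', hk⟩)
    · subst h1
      have h2 := P.add_mem hk (P.mul_mem_left (C (a c' - a (ν k))) hX)
      convert h2 using 1
      simp only [lf, hll.ne, if_false, map_sub]
      ring
    · simp [h1, h1.ne'] at hc'
  · obtain ⟨k, c', hc', hk⟩ := (fm_mem a).1 (h _ (hsum (Fin.last m)) (hlex _ hll.le))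
    rcases lt_trichotomy k l with h1 | h1 | h1
    · simp only [not_lt.2 h1.le, h1.ne, (h1.trans hll).ne, if_false, add_zero] at hc'
      exact absurd (h1.trans hl) (hmin k ⟨c', hc', hk⟩)
    · subst h1
      simp only [lt_irrefl, if_false, if_true, hll.ne, add_zero] at hc'
      rcases (Nat.lt_succ_iff.1 hc').lt_or_eq with h2 | h2
      · exact absurd hl (hmin k ⟨c', h2, hk⟩)
      · rwa [← h2]
    · by_cases h2 : k = Fin.last m
      · subst h2
        rw [hlast] at hk
        exact absurd hk hX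
      · simp [h1, h1.ne', h2] at hc'

theorem th_eq (ha : Set.InjOn a (Set.Iic d)) (hν : ∑ l, ν l = d) {i i' : Fin (m + 1)}
    (hi : i < Fin.last m) {c c' : ℕ} (hc : c < ν i) (hc' : c' < ν i')
    (h : RingHom.ker (th a i' (Function.update ν i' c')) ≤
      RingHom.ker (th a i (Function.update ν i c))) : i' = i ∧ c' = c := by
  have hle : ∀ l, ν l ≤ d := fun l => by
    rw [← hν]; exact Finset.single_le_sum (f := ν) (by simp) (Finset.mem_univ l)
  have h1 := hle i
  have h2 := hle i'
  rcases lt_trichotomy i' i with h3 | h3 | h3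
  · have h4 := th_inj a hi h h3.le le_rfl
    rw [Function.update_self, Function.update_of_ne h3.ne] at h4
    have := ha (show ν i' ≤ d from h2) (show c' ≤ d by omega) h4
    omega
  · subst h3
    have h4 := th_inj a hi h le_rfl le_rfl
    rw [Function.update_self, Function.update_self] at h4
    exact ⟨rfl, (ha (show c ≤ d by omega) (show c' ≤ d by omega) h4).symm⟩
  · have h4 := th_inj a hi h le_rfl h3.le
    rw [Function.update_self, Function.update_of_ne h3.ne] at h4
    have := ha (show c ≤ d by omega) (show ν i ≤ d from h1) h4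
    omega

theorem lower (ha : Set.InjOn a (Set.Iic d)) (hν : ∑ l, ν l = d)
    (I : Ideal (MvPolynomial (Fin (m + 1)) K))
    (hI : I = Ideal.span (fm a '' {β | ∑ l, β l = d ∧ toLex ν ≤ toLex β})) (i : Fin m) :
    Set.ncard {P ∈ I.minimalPrimes |
      ringKrullDim (MvPolynomial (Fin (m + 1)) K ⧸ P) = (m - i : ℕ)} = ν i.castSucc := by
  have hle : ∀ j, ∀ c < ν j, I ≤ RingHom.ker (th a j (Function.update ν j c)) := by
    intro j c hc
    rw [hI, Ideal.span_le]
    rintro _ ⟨β, hβ, rfl⟩
    exact fm_mem_th a j hc hβ.2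
  have hov : ∀ P : Ideal (MvPolynomial (Fin (m + 1)) K), P.IsPrime → I ≤ P →
      ∃ j, ∃ c < ν j, RingHom.ker (th a j (Function.update ν j c)) ≤ P := by
    intro P hP hIP
    exact prime_over a hν P fun β h1 h2 => hIP (hI ▸ Ideal.subset_span ⟨β, ⟨h1, h2⟩, rfl⟩)
  have : {P ∈ I.minimalPrimes | ringKrullDim (MvPolynomial (Fin (m + 1)) K ⧸ P) = (m - i : ℕ)} =
      (fun c => RingHom.ker (th a i.castSucc (Function.update ν i.castSucc c))) ''
        Set.Iio (ν i.castSucc) := by
    ext P
    constructor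
    · rintro ⟨hP, hdim⟩
      obtain ⟨j, c, hc, hjc⟩ := hov P hP.1.1 hP.1.2
      have h1 : RingHom.ker (th a j (Function.update ν j c)) = P :=
        le_antisymm hjc (hP.2 ⟨RingHom.ker_isPrime _, hle j c hc⟩ hjc)
      rw [← h1, th_dim] at hdim
      have h2 : m - j = m - i := by exact_mod_cast hdim
      have h3 : j = i.castSucc := by
        ext
        have := i.2
        have := j.2
        simp only [Fin.val_castSucc]
        omega
      subst h3
      exact ⟨c, hc, h1⟩
    · rintro ⟨c, hc, rfl⟩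
      refine ⟨⟨⟨RingHom.ker_isPrime _, hle _ c hc⟩, fun Q hQ hQle => ?_⟩, th_dim a _ _⟩
      obtain ⟨j, c', hc', hjc⟩ := hov Q hQ.1 hQ.2
      obtain ⟨rfl, rfl⟩ := th_eq a ha hν (Fin.castSucc_lt_last i) hc hc' (hjc.trans hQle)
      exact hjc
  rw [this, Set.InjOn.ncard_image, Set.ncard_Iio_nat]
  intro c hc c' hc' h
  exact (th_eq a ha hν (Fin.castSucc_lt_last i) hc' hc (le_of_eq h)).2

end Constr

end Pool.Agent.H60.DT
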