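import Mathlib

/-! Endomorphisms of projective space with a marked periodic point: definitions and basics. -/

open MvPolynomial Matrix

set_option linter.unusedSectionVars false
set_option linter.style.haveILetI false

namespace H60.DY

/-- Exponent vectors of the monomials of degree `d` in `n` variables. -/
abbrev Mon (n d : ℕ) : Type := ↥((Finset.univ : Finset (Fin n)).finsuppAntidiag d)

/-- The form of degree `d` with coefficient vector `a`. -/
noncomputable def form {n d : ℕ} {K : Type} [CommRing K] (a : Mon n d → K) :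
    MvPolynomial (Fin n) K :=
  ∑ m : Mon n d, monomial m.1 (a m)

/-- Index set of the coefficients of an `(N+1)`-tuple of forms of degree `d` in `N+1` variables. -/
abbrev Coef (N d : ℕ) : Type := Fin (N + 1) × Mon (N + 1) d

/-- Coordinates on pairs (tuple of forms, vector). -/
abbrev Var (N d : ℕ) : Type := Coef N d ⊕ Fin (N + 1)

/-- The `i`-th form of the tuple with coefficient vector `f`. -/
noncomputable def poly {N d : ℕ} {K : Type} [CommRing K] (f : Coef N d → K) (i : Fin (N + 1)) :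
    MvPolynomial (Fin (N + 1)) K :=
  form fun m => f (i, m)

/-- The polynomial map `K^(N+1) → K^(N+1)` given by the tuple. -/
noncomputable def app {N d : ℕ} {K : Type} [CommRing K] (f : Coef N d → K)
    (P : Fin (N + 1) → K) : Fin (N + 1) → K :=
  fun i => eval P (poly f i)

/-- The cone over `End_d^N`: tuples without a common zero in projective space. -/
def End (N d : ℕ) : Set (Coef N d → ℂ) := {f | ∀ P, P ≠ 0 → app f P ≠ 0}

/-- `[P]` is a point of exact period `n`. -/
def ExactPer {N d : ℕ} (f : Coef N d → ℂ) (n : ℕ) (P : Fin (N + 1) → ℂ) : Prop :=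
  P ≠ 0 ∧ (∃ l : ℂ, (app f)^[n] P = l • P) ∧
    ∀ k, 0 < k → k < n → ¬ ∃ l : ℂ, (app f)^[k] P = l • P

/-- The cone over `End_d^N[n]`. -/
def EndPer (N d n : ℕ) : Set (Var N d → ℂ) :=
  {w | (w ∘ Sum.inl) ∈ End N d ∧ ExactPer (w ∘ Sum.inl) n (w ∘ Sum.inr)}

/-- `[g] = φ⁻¹ ∘ [f] ∘ φ` for the projective automorphism `φ` given by `M`. -/
def ConjBy {N d : ℕ} (M : Matrix (Fin (N + 1)) (Fin (N + 1)) ℂ) (f g : Coef N d → ℂ) : Prop :=
  M.det ≠ 0 ∧ ∃ α : ℂ, α ≠ 0 ∧ ∀ P, M *ᵥ app g P = α • app f (M *ᵥ P)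

/-- Same `PGL`-orbit of pairs: `([g],[Q]) = (φ⁻¹ ∘ [f] ∘ φ, φ⁻¹[P])`. -/
def ConjPt {N d : ℕ} (w w' : Var N d → ℂ) : Prop :=
  ∃ M, ConjBy M (w ∘ Sum.inl) (w' ∘ Sum.inl) ∧
    ∃ β : ℂ, β ≠ 0 ∧ M *ᵥ (w' ∘ Sum.inr) = β • (w ∘ Sum.inr)

/-- `T` is a Zariski closed subset of `S`. -/
def ZClosedIn {σ : Type} (S T : Set (σ → ℂ)) : Prop :=
  ∃ I : Set (MvPolynomial σ ℂ), T = {x | x ∈ S ∧ ∀ p ∈ I, eval x p = 0}

/-- `T` is Zariski irreducible: its vanishing ideal is prime. -/
def ZIrred {σ : Type} (T : Set (σ → ℂ)) : Prop := (vanishingIdeal ℂ T).IsPrime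

/-- `W` is an irreducible component of `S`: a maximal irreducible closed subset. -/
def IsComponent {σ : Type} (S W : Set (σ → ℂ)) : Prop :=
  ZClosedIn S W ∧ ZIrred W ∧ ∀ W', ZClosedIn S W' → ZIrred W' → W ⊆ W' → W' = W

/-- The field of rational functions on `W`. -/
abbrev FunField {σ : Type} (W : Set (σ → ℂ)) : Type :=
  FractionRing (MvPolynomial σ ℂ ⧸ vanishingIdeal ℂ W)

/-- The class of `p` in the fraction field of `R / I`. -/
noncomputable def toFrac {R : Type} [CommRing R] (I : Ideal R) (p : R) : FractionRing (R ⧸ I) :=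
  algebraMap (R ⧸ I) _ (Ideal.Quotient.mk I p)

/-- `x = p / q` in the fraction field of `R / I`. -/
def IsQuot {R : Type} [CommRing R] (I : Ideal R) (x : FractionRing (R ⧸ I)) (p q : R) : Prop :=
  q ∉ I ∧ x * toFrac I q = toFrac I p

/-- `p / q` takes the same value at `w` and `w'` if it is defined at both. -/
def SameVal {σ : Type} (p q : MvPolynomial σ ℂ) (w w' : σ → ℂ) : Prop :=
  eval w q ≠ 0 → eval w' q ≠ 0 → eval w p / eval w q = eval w' p / eval w' q

/-- Rational functions on `W` constant on orbits: the function field of the quotient. -/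
def InvRat {N d : ℕ} (W : Set (Var N d → ℂ)) : Set (FunField W) :=
  {x | ∃ p q, IsQuot (vanishingIdeal ℂ W) x p q ∧
    ∀ w ∈ W, ∀ w' ∈ W, ConjPt w w' → SameVal p q w w'}

/-- `S ⊆ B` is the isomorphic image of the `ℂ`-algebra `A`. -/
def IsoOnto (A : Type) {B : Type} [CommRing A] [CommRing B] [Algebra ℂ A] [Algebra ℂ B]
    (S : Set B) : Prop :=
  ∃ ι : A →ₐ[ℂ] B, Function.Injective ι ∧ Set.range ι = S

/-- `S`, a subset of the fraction field of `R / I`, is a copy of the field `ℂ(t)`. -/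
def IsRatField {R : Type} [CommRing R] [Algebra ℂ R] (I : Ideal R)
    (S : Set (FractionRing (R ⧸ I))) : Prop :=
  IsoOnto (RatFunc ℂ) S

/-- The class of a polynomial in the function field. -/
noncomputable def cls {σ : Type} (W : Set (σ → ℂ)) (p : MvPolynomial σ ℂ) : FunField W :=
  toFrac (vanishingIdeal ℂ W) p

variable {N d : ℕ} {K L : Type} [CommRing K] [CommRing L]

lemma mem_mon (m : Fin (N + 1) →₀ ℕ) :
    m ∈ (Finset.univ : Finset (Fin (N + 1))).finsuppAntidiag d ↔ m.degree = d := by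
  rw [Finset.mem_finsuppAntidiag, Finsupp.degree_eq_sum]; simp

lemma poly_homog (f : Coef N d → K) (i) : (poly f i).IsHomogeneous d :=
  IsHomogeneous.sum _ _ _ fun m _ => isHomogeneous_monomial _ ((mem_mon _).1 m.2)

lemma map_poly (ρ : K →+* L) (f : Coef N d → K) (i) : map ρ (poly f i) = poly (ρ ∘ f) i := by
  simp [poly, form, map_monomial]

lemma coeff_poly (f : Coef N d → K) (i) (m) : coeff m.1 (poly f i) = f (i, m) := by
  rw [poly, form, coeff_sum, Finset.sum_eq_single m]
  · simp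
  · intro b _ hb
    rw [coeff_monomial, if_neg]; exact fun h => hb (Subtype.ext h)
  · simp

/-- coefficient vector of a tuple of polynomials -/
noncomputable def coefOf (d : ℕ) (F : Fin (N + 1) → MvPolynomial (Fin (N + 1)) K) :
    Coef N d → K := fun s => coeff s.2.1 (F s.1)

lemma poly_coefOf (F : Fin (N + 1) → MvPolynomial (Fin (N + 1)) K)
    (hF : ∀ i, (F i).IsHomogeneous d) (i) : poly (coefOf d F) i = F i := by
  ext m
  by_cases hm : m.degree = d
  · exact coeff_poly (coefOf d F) i ⟨m, (mem_mon m).2 hm⟩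
  · rw [(hF i).coeff_eq_zero hm, (poly_homog _ _).coeff_eq_zero hm]

lemma map_coefOf (ρ : K →+* L) (F : Fin (N + 1) → MvPolynomial (Fin (N + 1)) K) :
    ρ ∘ coefOf d F = coefOf d (fun i => map ρ (F i)) := by
  funext s; simp [coefOf, coeff_map]

lemma ext_poly {f g : Coef N d → K} (h : ∀ i, poly f i = poly g i) : f = g := by
  funext ⟨i, m⟩; rw [← coeff_poly f, h, coeff_poly]

lemma map_app (ρ : K →+* L) (f : Coef N d → K) (P : Fin (N + 1) → K) :
    ρ ∘ app f P = app (ρ ∘ f) (ρ ∘ P) := by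
  funext i
  show ρ (eval₂ (RingHom.id _) P (poly f i)) = eval (ρ ∘ P) (poly (ρ ∘ f) i)
  rw [← map_poly, eval_map, eval₂_comp_left, RingHom.comp_id]

lemma map_iter (ρ : K →+* L) (f : Coef N d → K) (P : Fin (N + 1) → K) (k : ℕ) :
    ρ ∘ (app f)^[k] P = (app (ρ ∘ f))^[k] (ρ ∘ P) := by
  induction k with
  | zero => rfl
  | succ k ih => rw [Function.iterate_succ_apply', Function.iterate_succ_apply', map_app, ih]

lemma app_generic (f : Coef N d → K) (i) :
    app ((C : K →+* MvPolynomial (Fin (N + 1)) K) ∘ f) X i = poly f i := by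
  rw [app, ← map_poly, eval_map]; exact eval₂_eta _

lemma app_smul (f : Coef N d → K) (s : K) (P : Fin (N + 1) → K) :
    app f (s • P) = s ^ d • app f P := by
  funext i
  simp only [app, poly, form, map_sum, eval_monomial, Pi.smul_apply, smul_eq_mul, Finset.mul_sum]
  refine Finset.sum_congr rfl fun m _ => ?_
  have hm := (mem_mon _).1 m.2
  rw [Finsupp.prod_fintype _ _ (by simp), Finsupp.prod_fintype _ _ (by simp)]
  simp only [mul_pow, Finset.prod_mul_distrib, Finset.prod_pow_eq_pow_sum]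
  rw [← Finsupp.degree_eq_sum, hm]; ring

/-- the coefficients of `B ∘ f ∘ A` -/
noncomputable def conjC (B A : Matrix (Fin (N + 1)) (Fin (N + 1)) K) (f : Coef N d → K) :
    Coef N d → K :=
  coefOf d fun i => ∑ j, C (B i j) * bind₁ (fun k => ∑ l, C (A k l) * X l) (poly f j)

lemma app_conjC (B A : Matrix (Fin (N + 1)) (Fin (N + 1)) K) (f : Coef N d → K) (P) :
    app (conjC B A f) P = B *ᵥ app f (A *ᵥ P) := by
  funext i
  rw [app, conjC, poly_coefOf]
  · simp only [map_sum, map_mul, eval_C, mulVec, dotProduct, app]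
    refine Finset.sum_congr rfl fun j _ => ?_
    congr 1
    have := eval₂Hom_bind₁ (RingHom.id K) P (fun k => ∑ l, C (A k l) * X l) (poly f j)
    have e : A *ᵥ P = fun i => ∑ x, A i x * P x := rfl
    rw [e]
    simpa using this
  · intro i
    refine IsHomogeneous.sum _ _ _ fun j _ => IsHomogeneous.C_mul ?_ _
    simpa using (poly_homog f j).aeval (fun k => ∑ l, C (A k l) * X l)
      fun k => IsHomogeneous.sum _ _ 1 fun l _ => isHomogeneous_C_mul_X _ _

lemma map_conjC (ρ : K →+* L) (B A : Matrix (Fin (N + 1)) (Fin (N + 1)) K) (f : Coef N d → K) :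
    ρ ∘ conjC B A f = conjC (B.map ρ) (A.map ρ) (ρ ∘ f) := by
  rw [conjC, map_coefOf, conjC]
  congr 1
  funext i
  simp [map_bind₁, map_poly]

lemma conjC_conjC (B M B' A : Matrix (Fin (N + 1)) (Fin (N + 1)) K) (f : Coef N d → K) :
    conjC B M (conjC B' A f) = conjC (B * B') (A * M) f := by
  refine ext_poly fun i => ?_
  rw [← app_generic, ← app_generic, map_conjC, map_conjC, map_conjC, app_conjC, app_conjC,
    app_conjC, mulVec_mulVec, mulVec_mulVec, Matrix.map_mul, Matrix.map_mul]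

lemma ext_app {f g : Coef N d → ℂ} (h : ∀ P, app f P = app g P) : f = g :=
  ext_poly fun i => MvPolynomial.funext fun P => congrFun (h P) i

lemma conj_eq {M : Matrix (Fin (N + 1)) (Fin (N + 1)) ℂ} {f g : Coef N d → ℂ}
    (h : ConjBy M f g) : ∃ α : ℂ, g = conjC (α • M.adjugate) M f := by
  obtain ⟨hM, α, _, h⟩ := h
  refine ⟨α / M.det, ext_app fun P => ?_⟩
  have := congrArg (M.adjugate *ᵥ ·) (h P)
  simp only [mulVec_mulVec, adjugate_mul, smul_mulVec, one_mulVec, mulVec_smul] at this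
  rw [app_conjC, smul_mulVec, div_eq_inv_mul, mul_smul, ← this, smul_smul, inv_mul_cancel₀ hM,
    one_smul]

lemma vec_eq {M : Matrix (Fin (N + 1)) (Fin (N + 1)) ℂ} (hM : M.det ≠ 0) {P Q : Fin (N + 1) → ℂ}
    {β : ℂ} (h : M *ᵥ Q = β • P) : Q = (β / M.det) • M.adjugate *ᵥ P := by
  have := congrArg (M.adjugate *ᵥ ·) h
  simp only [mulVec_mulVec, adjugate_mul, smul_mulVec, one_mulVec, mulVec_smul] at this
  rw [div_eq_inv_mul, mul_smul, ← this, smul_smul, inv_mul_cancel₀ hM, one_smul]

lemma mulVec_inj {F : Type} [Field F] {M : Matrix (Fin (N + 1)) (Fin (N + 1)) F}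
    (hM : M.det ≠ 0) {P Q : Fin (N + 1) → F} (h : M *ᵥ P = M *ᵥ Q) : P = Q := by
  have := congrArg (M.adjugate *ᵥ ·) h
  simp only [mulVec_mulVec, adjugate_mul, smul_mulVec, one_mulVec] at this
  exact smul_right_injective _ hM this

lemma end_conj {M : Matrix (Fin (N + 1)) (Fin (N + 1)) ℂ} {f g : Coef N d → ℂ}
    (h : ConjBy M f g) (hf : f ∈ End N d) : g ∈ End N d := by
  obtain ⟨hM, α, hα, h⟩ := h
  intro P hP h0
  have := h P
  rw [h0, mulVec_zero] at this
  refine hf (M *ᵥ P) (fun h1 => hP (mulVec_inj hM (by rw [h1, mulVec_zero]))) ?_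
  exact (smul_eq_zero.1 this.symm).resolve_left hα

lemma endPer_conj {n : ℕ} {w w' : Var N d → ℂ} (h : ConjPt w w') (hw : w ∈ EndPer N d n) :
    w' ∈ EndPer N d n := by
  obtain ⟨M, hc, β, hβ, hP⟩ := h
  refine ⟨end_conj hc hw.1, ?_⟩
  obtain ⟨hM, α, hα, h⟩ := hc
  have key : ∀ k, ∃ γ : ℂ, γ ≠ 0 ∧ M *ᵥ (app (w' ∘ Sum.inl))^[k] (w' ∘ Sum.inr)
      = γ • (app (w ∘ Sum.inl))^[k] (w ∘ Sum.inr) := by
    intro k
    induction k with
    | zero => exact ⟨β, hβ, hP⟩
    | succ k ih =>
      obtain ⟨γ, hγ, ih⟩ := ih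
      refine ⟨α * γ ^ d, mul_ne_zero hα (pow_ne_zero _ hγ), ?_⟩
      rw [Function.iterate_succ_apply', Function.iterate_succ_apply', h, ih, app_smul, smul_smul]
  obtain ⟨h0, ⟨l, hl⟩, hne⟩ := hw.2
  refine ⟨fun h1 => ?_, ?_, fun k hk0 hk ⟨l', hl'⟩ => hne k hk0 hk ?_⟩
  · rw [h1, mulVec_zero] at hP
    exact h0 ((smul_eq_zero.1 hP.symm).resolve_left hβ)
  · obtain ⟨γ, _, hγ⟩ := key n
    refine ⟨γ * l / β, mulVec_inj hM ?_⟩
    rw [hγ, hl, mulVec_smul, hP, smul_smul, smul_smul, div_mul_cancel₀ _ hβ]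
  · obtain ⟨γ, hγ0, hγ⟩ := key k
    rw [hl', mulVec_smul, hP, smul_smul] at hγ
    refine ⟨l' * β / γ, smul_right_injective _ hγ0 ?_⟩
    simp only
    rw [← hγ, smul_smul, mul_div_cancel₀ _ hγ0]

/-- Amalgamation of two domains over a common ring with the same kernel. -/
lemma amalg {E A B : Type} [CommRing E] [CommRing A] [CommRing B] [IsDomain A] [IsDomain B]
    (α : E →+* A) (β : E →+* B) (h : RingHom.ker α = RingHom.ker β) :
    ∃ (Ω : Type) (_ : Field Ω) (_ : IsAlgClosed Ω) (α' : A →+* Ω) (β' : B →+* Ω),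
      Function.Injective α' ∧ Function.Injective β' ∧ ∀ e, α' (α e) = β' (β e) := by
  haveI : (RingHom.ker α).IsPrime := RingHom.ker_isPrime α
  let E' := E ⧸ RingHom.ker α
  let k := FractionRing E'
  let a0 : E' →+* FractionRing A := (algebraMap A (FractionRing A)).comp (RingHom.kerLift α)
  have ha0 : Function.Injective a0 :=
    (IsFractionRing.injective A _).comp (RingHom.kerLift_injective α)
  let b1 : E' →+* B := Ideal.Quotient.lift _ β fun e he => by rw [h] at he; exact he
  have hb1 : Function.Injective b1 := by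
    rw [injective_iff_map_eq_zero]
    intro x hx
    obtain ⟨e, rfl⟩ := Ideal.Quotient.mk_surjective x
    rw [Ideal.Quotient.eq_zero_iff_mem, h]; exact hx
  let b0 : E' →+* FractionRing B := (algebraMap B (FractionRing B)).comp b1
  have hb0 : Function.Injective b0 := (IsFractionRing.injective B _).comp hb1
  letI : Algebra k (FractionRing A) := (IsFractionRing.lift ha0 : k →+* _).toAlgebra
  letI : Algebra k (FractionRing B) := (IsFractionRing.lift hb0 : k →+* _).toAlgebra
  let T := TensorProduct k (FractionRing A) (FractionRing B)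
  obtain ⟨m, hm⟩ := Ideal.exists_maximal T
  letI : Field (T ⧸ m) := Ideal.Quotient.field m
  let Ω := AlgebraicClosure (T ⧸ m)
  let π : T →+* Ω := (algebraMap (T ⧸ m) Ω).comp (Ideal.Quotient.mk m)
  let iA : FractionRing A →+* Ω := π.comp (Algebra.TensorProduct.includeLeftRingHom)
  let iB : FractionRing B →+* Ω :=
    π.comp (Algebra.TensorProduct.includeRight (R := k) (A := FractionRing A)).toRingHom
  refine ⟨Ω, inferInstance, inferInstance, iA.comp (algebraMap A _), iB.comp (algebraMap B _),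
    iA.injective.comp (IsFractionRing.injective A _),
    iB.injective.comp (IsFractionRing.injective B _), fun e => ?_⟩
  have e1 : algebraMap A (FractionRing A) (α e)
      = algebraMap k (FractionRing A) (algebraMap E' k (Ideal.Quotient.mk _ e)) := by
    show _ = IsFractionRing.lift ha0 _
    rw [IsFractionRing.lift_algebraMap]; rfl
  have e2 : algebraMap B (FractionRing B) (β e)
      = algebraMap k (FractionRing B) (algebraMap E' k (Ideal.Quotient.mk _ e)) := by
    show _ = IsFractionRing.lift hb0 _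
    rw [IsFractionRing.lift_algebraMap]; rfl
  simp only [RingHom.comp_apply, e1, e2, iA, iB]
  congr 1
  have := Algebra.TensorProduct.includeLeftRingHom_comp_algebraMap (R := k)
    (A := FractionRing A) (B := FractionRing B)
  exact congrFun (congrArg DFunLike.coe this) _

end H60.DY
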