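import Pool.Agent.H60.DYa

/-! The family `[x² : y² : z² + c x z]` and its conjugates. -/

open MvPolynomial Matrix

set_option linter.unusedSectionVars false
set_option linter.style.haveILetI false

namespace H60.DY

variable {K L : Type} [CommRing K] [CommRing L]

/-- the family -/
noncomputable def fc (c : K) : Coef 2 2 → K :=
  coefOf 2 ![X 0 ^ 2, X 1 ^ 2, X 2 ^ 2 + C c * (X 0 * X 2)]

lemma app_fc (c : K) (U : Fin 3 → K) :
    app (fc c) U = ![U 0 ^ 2, U 1 ^ 2, U 2 ^ 2 + c * (U 0 * U 2)] := by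
  funext i
  rw [app, fc, poly_coefOf]
  · fin_cases i <;> simp
  · intro i
    fin_cases i
    · exact isHomogeneous_X_pow _ _
    · exact isHomogeneous_X_pow _ _
    · exact (isHomogeneous_X_pow _ _).add
        (((isHomogeneous_X K (0 : Fin 3)).mul (isHomogeneous_X K 2)).C_mul c)

lemma map_fc (ρ : K →+* L) (c : K) : ρ ∘ fc c = fc (ρ c) := by
  rw [fc, map_coefOf, fc]
  congr 1
  funext i
  fin_cases i <;> simp

/-- parameters: a matrix, two scalars and `c` -/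
abbrev Par : Type := (Fin 3 × Fin 3) ⊕ Fin 3

/-- the matrix part -/
def mA (u : Par → K) : Matrix (Fin 3) (Fin 3) K := Matrix.of fun i j => u (Sum.inl (i, j))

/-- the conjugated map -/
noncomputable def pf (u : Par → K) : Coef 2 2 → K :=
  conjC (u (Sum.inr 0) • (mA u).adjugate) (mA u) (fc (u (Sum.inr 2)))

/-- the marked vector -/
def pP (u : Par → K) (z : K) : Fin 3 → K := u (Sum.inr 1) • (mA u).adjugate *ᵥ ![1, z, 0]

/-- the pair -/
noncomputable def pw (u : Par → K) (z : K) : Var 2 2 → K := Sum.elim (pf u) (pP u z)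

lemma map_mA (ρ : K →+* L) (u : Par → K) : (mA u).map ρ = mA (ρ ∘ u) := rfl

lemma map_adj (ρ : K →+* L) (A : Matrix (Fin 3) (Fin 3) K) :
    A.adjugate.map ρ = (A.map ρ).adjugate := by
  have := RingHom.map_adjugate ρ A
  simpa [RingHom.mapMatrix_apply] using this

lemma map_smul_mat (ρ : K →+* L) (a : K) (A : Matrix (Fin 3) (Fin 3) K) :
    (a • A).map ρ = ρ a • A.map ρ := by
  ext i j; simp

lemma map_mulVec' (ρ : K →+* L) (A : Matrix (Fin 3) (Fin 3) K) (v : Fin 3 → K) :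
    ρ ∘ (A *ᵥ v) = A.map ρ *ᵥ (ρ ∘ v) := by
  funext i; exact RingHom.map_mulVec ρ A v i

lemma map_pf (ρ : K →+* L) (u : Par → K) : ρ ∘ pf u = pf (ρ ∘ u) := by
  rw [pf, map_conjC, map_fc, map_smul_mat, map_adj, map_mA]; rfl

lemma map_pP (ρ : K →+* L) (u : Par → K) (z : K) : ρ ∘ pP u z = pP (ρ ∘ u) (ρ z) := by
  funext i
  have := congrFun (map_mulVec' ρ (mA u).adjugate ![1, z, 0]) i
  have e : ρ ∘ ![1, z, 0] = ![1, ρ z, 0] := by funext j; fin_cases j <;> simp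
  rw [map_adj, map_mA, e] at this
  simp only [pP, Function.comp, Pi.smul_apply, smul_eq_mul, map_mul] at this ⊢
  rw [this]

lemma map_pw (ρ : K →+* L) (u : Par → K) (z : K) : ρ ∘ pw u z = pw (ρ ∘ u) (ρ z) := by
  rw [pw, Sum.comp_elim, map_pf, map_pP, pw]

lemma app_pf (u : Par → K) (P : Fin 3 → K) :
    app (pf u) P = u (Sum.inr 0) • (mA u).adjugate *ᵥ app (fc (u (Sum.inr 2))) (mA u *ᵥ P) := by
  rw [pf, app_conjC, smul_mulVec]

lemma mA_app_pf (u : Par → K) (P : Fin 3 → K) :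
    mA u *ᵥ app (pf u) P
      = (u (Sum.inr 0) * (mA u).det) • app (fc (u (Sum.inr 2))) (mA u *ᵥ P) := by
  rw [app_pf, mulVec_smul, mulVec_mulVec, mul_adjugate, smul_mulVec, one_mulVec, smul_smul]

/-- scalars along the cycle -/
def rr (u : Par → K) : ℕ → K
  | 0 => u (Sum.inr 1)
  | k + 1 => u (Sum.inr 0) * (rr u k * (mA u).det) ^ 2

lemma mA_line (u : Par → K) (r : K) (v : Fin 3 → K) :
    mA u *ᵥ (r • (mA u).adjugate *ᵥ v) = (r * (mA u).det) • v := by
  rw [mulVec_smul, mulVec_mulVec, mul_adjugate, smul_mulVec, one_mulVec, smul_smul]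

lemma iter_pf (u : Par → K) (z : K) (k : ℕ) :
    (app (pf u))^[k] (pP u z) = rr u k • (mA u).adjugate *ᵥ ![1, z ^ 2 ^ k, 0] := by
  induction k with
  | zero => simp [pP, rr]
  | succ k ih =>
    rw [Function.iterate_succ_apply', ih, app_pf, mA_line, app_smul, mulVec_smul, smul_smul,
      app_fc, rr]
    congr 2
    funext i; fin_cases i <;> simp [pow_succ 2 k, pow_mul]

/-- nondegenerate parameters -/
def Nd (u : Par → K) : Prop := (mA u).det ≠ 0 ∧ u (Sum.inr 0) ≠ 0 ∧ u (Sum.inr 1) ≠ 0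

lemma fc_zero {F : Type} [Field F] (c : F) (U : Fin 3 → F) (h : app (fc c) U = 0) : U = 0 := by
  rw [app_fc] at h
  have h0 : U 0 = 0 := by simpa using congrFun h 0
  have h1 : U 1 = 0 := by simpa using congrFun h 1
  have h2 : U 2 = 0 := by simpa [h0] using congrFun h 2
  funext i; fin_cases i <;> simp [h0, h1, h2]

lemma pf_zero {F : Type} [Field F] (u : Par → F) (hd : (mA u).det ≠ 0) (ha : u (Sum.inr 0) ≠ 0)
    (P : Fin 3 → F) (h : app (pf u) P = 0) : P = 0 := by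
  have := mA_app_pf u P
  rw [h, mulVec_zero] at this
  have h2 := fc_zero _ _ ((smul_eq_zero.1 this.symm).resolve_left (mul_ne_zero ha hd))
  exact mulVec_inj (N := 2) hd (by rw [h2, mulVec_zero])

lemma rr_ne {F : Type} [CommRing F] [IsDomain F] (u : Par → F) (h : Nd u) (k : ℕ) :
    rr u k ≠ 0 := by
  induction k with
  | zero => exact h.2.2
  | succ k ih => exact mul_ne_zero h.2.1 (pow_ne_zero _ (mul_ne_zero ih h.1))

lemma zeta_pow {n : ℕ} {ζ : ℂ} (hζ : IsPrimitiveRoot ζ (2 ^ n - 1)) : ζ ^ 2 ^ n = ζ := by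
  have : 2 ^ n = (2 ^ n - 1) + 1 := (Nat.sub_add_cancel Nat.one_le_two_pow).symm
  rw [this, pow_succ, hζ.pow_eq_one, one_mul]

lemma zeta_ne {n : ℕ} (hn : 1 ≤ n) {ζ : ℂ} (hζ : IsPrimitiveRoot ζ (2 ^ n - 1)) : ζ ≠ 0 := by
  refine hζ.ne_zero ?_
  have := Nat.one_lt_two_pow_iff.2 (show n ≠ 0 by omega)
  omega

lemma pw_mem {n : ℕ} (hn : 1 ≤ n) {ζ : ℂ} (hζ : IsPrimitiveRoot ζ (2 ^ n - 1)) (u : Par → ℂ)
    (hu : Nd u) : pw u ζ ∈ EndPer 2 2 n := by
  refine ⟨fun P hP h => hP (pf_zero u hu.1 hu.2.1 P h), ?_, ?_, ?_⟩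
  · intro h
    have h' : pP u ζ = 0 := h
    have := congrFun (mA_line u (u (Sum.inr 1)) ![1, ζ, 0]) 0
    rw [← pP, h', mulVec_zero] at this
    simp [hu.1, hu.2.2] at this
  · refine ⟨rr u n / u (Sum.inr 1), ?_⟩
    show (app (pf u))^[n] (pP u ζ) = _ • pP u ζ
    rw [iter_pf, zeta_pow hζ, pP, smul_smul, div_mul_cancel₀ _ hu.2.2]
  · rintro k hk0 hk ⟨l, hl⟩
    have hl' : (app (pf u))^[k] (pP u ζ) = l • pP u ζ := hl
    rw [iter_pf] at hl'
    have := congrArg (mA u *ᵥ ·) hl'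
    simp only [pP, smul_smul, mA_line] at this
    have h0 := congrFun this 0
    have h1 := congrFun this 1
    simp only [Pi.smul_apply, smul_eq_mul, cons_val_zero, cons_val_one, mul_one] at h0 h1
    rw [← h0] at h1
    have h2 := mul_left_cancel₀ (mul_ne_zero (rr_ne u hu k) hu.1) h1
    have h3 : ζ ^ (2 ^ k - 1) = 1 := by
      have e : 2 ^ k = (2 ^ k - 1) + 1 := (Nat.sub_add_cancel Nat.one_le_two_pow).symm
      rw [e, pow_succ] at h2
      exact mul_right_cancel₀ (zeta_ne hn hζ) (by rw [h2, one_mul])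
    have h4 := Nat.le_of_dvd (by
      have := Nat.one_lt_two_pow_iff.2 (show k ≠ 0 by omega)
      omega) ((hζ.pow_eq_one_iff_dvd _).1 h3)
    have h5 : 2 ^ k < 2 ^ n := Nat.pow_lt_pow_right (by norm_num) hk
    have := Nat.one_le_two_pow (n := k)
    omega

/-- coordinate ring of pairs -/
abbrev RR : Type := MvPolynomial (Var 2 2) ℂ
/-- parameter ring -/
abbrev SS : Type := MvPolynomial Par ℂ
/-- coordinate ring of tuples -/
abbrev AA : Type := MvPolynomial (Coef 2 2) ℂ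

/-- pull-back along the parametrisation -/
noncomputable def th (ζ : ℂ) : RR →ₐ[ℂ] SS := aeval (pw X (C ζ))
/-- pull-back of functions of the tuple -/
noncomputable def thV : AA →ₐ[ℂ] SS := aeval (pf X)

lemma aeval_th {Y : Type} [CommRing Y] [Algebra ℂ Y] (ζ : ℂ) (u : Par → Y) (h : RR) :
    aeval u (th ζ h) = aeval (pw u (algebraMap ℂ Y ζ)) h := by
  rw [th, comp_aeval_apply]
  have := map_pw (aeval u : SS →ₐ[ℂ] Y).toRingHom X (C ζ)
  have e : ((aeval u : SS →ₐ[ℂ] Y).toRingHom ∘ X) = u := by funext s; simp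
  rw [e] at this
  congr 2
  funext s
  have h2 := congrFun this s
  simpa using h2

lemma aeval_thV {Y : Type} [CommRing Y] [Algebra ℂ Y] (u : Par → Y) (h : AA) :
    aeval u (thV h) = aeval (pf u) h := by
  rw [thV, comp_aeval_apply]
  have := map_pf (aeval u : SS →ₐ[ℂ] Y).toRingHom X
  have e : ((aeval u : SS →ₐ[ℂ] Y).toRingHom ∘ X) = u := by funext s; simp
  rw [e] at this
  congr 2

lemma eval_th (ζ : ℂ) (u : Par → ℂ) (h : RR) : eval u (th ζ h) = eval (pw u ζ) h :=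
  aeval_th ζ u h

lemma eval_thV (u : Par → ℂ) (h : AA) : eval u (thV h) = eval (pf u) h := aeval_thV u h

lemma th_rename (ζ : ℂ) (h : AA) : th ζ (rename Sum.inl h) = thV h := by
  rw [th, aeval_rename]; rfl

/-- the nondegeneracy polynomial -/
noncomputable def ndP : SS := (mA X).det * (X (Sum.inr 0) * X (Sum.inr 1))

lemma eval_ndP (u : Par → ℂ) : eval u ndP ≠ 0 ↔ Nd u := by
  have e : (eval u : SS →+* ℂ) ∘ X = u := by funext s; simp
  rw [ndP, map_mul, RingHom.map_det, RingHom.mapMatrix_apply, map_mA, e]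
  simp [Nd]

/-- the base parameter -/
def u1 : Par → ℂ := Sum.elim (fun ij => (1 : Matrix (Fin 3) (Fin 3) ℂ) ij.1 ij.2) (fun _ => 1)

lemma mA_u1 : mA u1 = 1 := rfl

lemma nd_u1 : Nd u1 := ⟨by simp [mA_u1], by simp [u1], by simp [u1]⟩

lemma ndP_ne : ndP ≠ 0 := fun h => (eval_ndP u1).2 nd_u1 (by rw [h, map_zero])

lemma nd_X : Nd (X : Par → SS) := by
  have := ndP_ne
  simp only [ndP, mul_ne_zero_iff] at this
  exact this

lemma zero_of_nd (p : SS) (h : ∀ u, Nd u → eval u p = 0) : p = 0 := by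
  have : p * ndP = 0 := MvPolynomial.funext fun u => by
    by_cases hu : Nd u
    · simp [h u hu]
    · have : eval u ndP = 0 := by by_contra h'; exact hu ((eval_ndP u).1 h')
      simp [this]
  exact (mul_eq_zero.1 this).resolve_right ndP_ne

/-- the subvariety of maps -/
def Gam : Set (Coef 2 2 → ℂ) := {f | f ∈ End 2 2 ∧ ∀ p ∈ {p | thV p = 0}, eval f p = 0}

/-- its preimage -/
def Pre (n : ℕ) : Set (Var 2 2 → ℂ) := {w | w ∈ EndPer 2 2 n ∧ (w ∘ Sum.inl) ∈ Gam}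

/-- the component -/
def WW (n : ℕ) (ζ : ℂ) : Set (Var 2 2 → ℂ) :=
  {w | w ∈ Pre n ∧ ∀ p ∈ {p | th ζ p = 0}, eval w p = 0}

lemma pf_mem (u : Par → ℂ) (hu : Nd u) : pf u ∈ Gam :=
  ⟨fun P hP h => hP (pf_zero u hu.1 hu.2.1 P h), fun p hp => by
    rw [← eval_thV, show thV p = 0 from hp, map_zero]⟩

lemma pw_memW {n : ℕ} (hn : 1 ≤ n) {ζ : ℂ} (hζ : IsPrimitiveRoot ζ (2 ^ n - 1)) (u : Par → ℂ)
    (hu : Nd u) : pw u ζ ∈ WW n ζ :=
  ⟨⟨pw_mem hn hζ u hu, pf_mem u hu⟩, fun p hp => by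
    rw [← eval_th, show th ζ p = 0 from hp, map_zero]⟩

lemma van_Gam : vanishingIdeal ℂ Gam = RingHom.ker thV.toRingHom := by
  ext p
  refine ⟨fun h => zero_of_nd _ fun u hu => ?_, fun h f hf => hf.2 p h⟩
  exact (eval_thV u p).trans (h _ (pf_mem u hu))

lemma van_WW {n : ℕ} (hn : 1 ≤ n) {ζ : ℂ} (hζ : IsPrimitiveRoot ζ (2 ^ n - 1)) :
    vanishingIdeal ℂ (WW n ζ) = RingHom.ker (th ζ).toRingHom := by
  ext p
  refine ⟨fun h => zero_of_nd _ fun u hu => ?_, fun h f hf => hf.2 p h⟩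
  exact (eval_th ζ u p).trans (h _ (pw_memW hn hζ u hu))

/-- the action of a group element on pairs -/
noncomputable def gact (α β : K) (M : Matrix (Fin 3) (Fin 3) K) (w : Var 2 2 → K) : Var 2 2 → K :=
  Sum.elim (conjC (α • M.adjugate) M (w ∘ Sum.inl)) (β • M.adjugate *ᵥ (w ∘ Sum.inr))

/-- the action on parameters -/
def uact (α β : K) (M : Matrix (Fin 3) (Fin 3) K) (u : Par → K) : Par → K :=
  Sum.elim (fun ij => (mA u * M) ij.1 ij.2) ![α * u (Sum.inr 0), β * u (Sum.inr 1), u (Sum.inr 2)]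

lemma mA_uact (α β : K) (M : Matrix (Fin 3) (Fin 3) K) (u : Par → K) :
    mA (uact α β M u) = mA u * M := rfl

lemma conj_pf (α β : K) (M : Matrix (Fin 3) (Fin 3) K) (u : Par → K) :
    conjC (α • M.adjugate) M (pf u) = pf (uact α β M u) := by
  rw [pf, conjC_conjC, pf, mA_uact, adjugate_mul_distrib, smul_mul_smul_comm]
  rfl

lemma gact_pw (α β : K) (M : Matrix (Fin 3) (Fin 3) K) (u : Par → K) (z : K) :
    gact α β M (pw u z) = pw (uact α β M u) z := by
  rw [gact, pw, pw, Sum.elim_comp_inl, Sum.elim_comp_inr, conj_pf α β]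
  congr 1
  rw [pP, pP, mA_uact, adjugate_mul_distrib, mulVec_smul, mulVec_mulVec, smul_smul]
  rfl

lemma map_gact (ρ : K →+* L) (α β : K) (M : Matrix (Fin 3) (Fin 3) K) (w : Var 2 2 → K) :
    ρ ∘ gact α β M w = gact (ρ α) (ρ β) (M.map ρ) (ρ ∘ w) := by
  rw [gact, Sum.comp_elim, map_conjC, map_smul_mat, map_adj, gact]
  congr 1
  funext i
  have := congrFun (map_mulVec' ρ M.adjugate (w ∘ Sum.inr)) i
  rw [map_adj] at this
  simp only [Function.comp, Pi.smul_apply, smul_eq_mul, map_mul] at this ⊢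
  rw [this]; rfl

lemma conjPt_eq {w w' : Var 2 2 → ℂ} (h : ConjPt w w') : ∃ α β M, w' = gact α β M w := by
  obtain ⟨M, hc, β, _, hP⟩ := h
  obtain ⟨α, hα⟩ := conj_eq hc
  refine ⟨α, β / M.det, M, ?_⟩
  rw [gact, ← hα, ← vec_eq hc.1 hP, Sum.elim_comp_inl_inr]

/-- pull-back along a group element -/
noncomputable def tau (α β : ℂ) (M : Matrix (Fin 3) (Fin 3) ℂ) : RR →ₐ[ℂ] RR :=
  aeval (gact (C α) (C β) (M.map C) X)

lemma aeval_tau {Y : Type} [CommRing Y] [Algebra ℂ Y] (α β : ℂ) (M : Matrix (Fin 3) (Fin 3) ℂ)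
    (w : Var 2 2 → Y) (h : RR) : aeval w (tau α β M h)
      = aeval (gact (algebraMap ℂ Y α) (algebraMap ℂ Y β) (M.map (algebraMap ℂ Y)) w) h := by
  rw [tau, comp_aeval_apply]
  have := map_gact (aeval w : RR →ₐ[ℂ] Y).toRingHom (C α) (C β) (M.map C) X
  have e : ((aeval w : RR →ₐ[ℂ] Y).toRingHom ∘ X) = w := by funext s; simp
  have e2 : (M.map (C : ℂ →+* RR)).map (aeval w : RR →ₐ[ℂ] Y).toRingHom
      = M.map (algebraMap ℂ Y) := by ext i j; simp
  rw [e, e2] at this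
  congr 2
  funext s
  have h2 := congrFun this s
  simpa using h2

lemma eval_tau (α β : ℂ) (M : Matrix (Fin 3) (Fin 3) ℂ) (w : Var 2 2 → ℂ) (h : RR) :
    eval w (tau α β M h) = eval (gact α β M w) h := by
  have := aeval_tau α β M w h
  simpa using this

lemma th_tau (ζ α β : ℂ) (M : Matrix (Fin 3) (Fin 3) ℂ) (h : RR) :
    th ζ (tau α β M h) = aeval (uact (C α) (C β) (M.map C) (X : Par → SS)) (th ζ h) := by
  rw [aeval_th, th, aeval_tau, gact_pw]; rfl

lemma gam_conj {M : Matrix (Fin 3) (Fin 3) ℂ} {f g : Coef 2 2 → ℂ} (h : ConjBy M f g)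
    (hf : f ∈ Gam) : g ∈ Gam := by
  refine ⟨end_conj h hf.1, fun p hp => ?_⟩
  obtain ⟨α, hα⟩ := conj_eq h
  let τ : AA →ₐ[ℂ] AA := aeval (conjC ((C α : AA) • (M.map C).adjugate) (M.map C) X)
  have key : ∀ {Y : Type} [CommRing Y] [Algebra ℂ Y] (f : Coef 2 2 → Y), aeval f (τ p)
      = aeval (conjC (algebraMap ℂ Y α • (M.map (algebraMap ℂ Y)).adjugate)
        (M.map (algebraMap ℂ Y)) f) p := by
    intro Y _ _ f
    simp only [τ]
    rw [comp_aeval_apply]
    have := map_conjC (aeval f : AA →ₐ[ℂ] Y).toRingHom ((C α : AA) • (M.map C).adjugate)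
      (M.map C) X
    have e : ((aeval f : AA →ₐ[ℂ] Y).toRingHom ∘ X) = f := by funext s; simp
    have e2 : (M.map (C : ℂ →+* AA)).map (aeval f : AA →ₐ[ℂ] Y).toRingHom
        = M.map (algebraMap ℂ Y) := by ext i j; simp
    rw [map_smul_mat, map_adj, e, e2] at this
    congr 2
    funext s
    have h2 := congrFun this s
    simpa using h2
  have h1 : thV (τ p) = 0 := by
    rw [thV, key, conj_pf _ 1, ← aeval_thV, show thV p = 0 from hp, map_zero]
  have h2 := hf.2 _ h1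
  have h3 := key f
  rw [hα]
  simpa using h3.symm.trans h2

lemma ww_conj {n : ℕ} {ζ : ℂ} {w w' : Var 2 2 → ℂ} (h : ConjPt w w') (hw : w ∈ WW n ζ) :
    w' ∈ WW n ζ := by
  refine ⟨⟨endPer_conj h hw.1.1, ?_⟩, fun p hp => ?_⟩
  · obtain ⟨M, hc, _⟩ := h
    exact gam_conj hc hw.1.2
  · obtain ⟨α, β, M, rfl⟩ := conjPt_eq h
    rw [← eval_tau]
    refine hw.2 _ ?_
    show th ζ _ = 0
    rw [th_tau, show th ζ p = 0 from hp, map_zero]

lemma conjPt_pw (ζ : ℂ) (u u' : Par → ℂ) (hu : Nd u) (hu' : Nd u')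
    (hc : u' (Sum.inr 2) = u (Sum.inr 2)) : ConjPt (pw u ζ) (pw u' ζ) := by
  refine ⟨(mA u).adjugate * mA u', ⟨?_, u' (Sum.inr 0) * (mA u').det /
    (u (Sum.inr 0) * (mA u).det ^ 2), ?_, fun P => ?_⟩,
    u' (Sum.inr 1) * (mA u').det / u (Sum.inr 1), ?_, ?_⟩
  · rw [det_mul, det_adjugate]; exact mul_ne_zero (pow_ne_zero _ hu.1) hu'.1
  · exact div_ne_zero (mul_ne_zero hu'.2.1 hu'.1) (mul_ne_zero hu.2.1 (pow_ne_zero _ hu.1))
  · show _ *ᵥ app (pf u') P = _ • app (pf u) _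
    rw [← mulVec_mulVec, mA_app_pf, app_pf, mulVec_mulVec, ← mul_assoc, mul_adjugate,
      smul_mul_assoc, one_mul, smul_mulVec, app_smul, hc, mulVec_smul, mulVec_smul, smul_smul,
      smul_smul]
    congr 1
    have := hu.1
    have := hu.2.1
    field_simp
  · exact div_ne_zero (mul_ne_zero hu'.2.2 hu'.1) hu.2.2
  · show _ *ᵥ pP u' ζ = _ • pP u ζ
    rw [← mulVec_mulVec, pP, mA_line, mulVec_smul, pP, smul_smul, div_mul_cancel₀ _ hu.2.2]

end H60.DY
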