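import Pool.Agent.H60.DYb

/-! Maximality of the component. -/

open MvPolynomial Matrix

set_option linter.unusedSectionVars false
set_option linter.style.haveILetI false

namespace H60.DY

lemma rec_alg {k Ω : Type} [Field k] [Field Ω] [Algebra k Ω] (κ : Ω) (hκ0 : κ ≠ 0)
    (hκ : κ ∈ algebraicClosure k Ω) (e : ℕ → Ω) (he : ∀ i, e i ∈ algebraicClosure k Ω) (t : ℕ → Ω)
    (ht : ∀ i, t (i + 1) = κ * (t i ^ 2 + e i * t i)) (n : ℕ) (hn : 1 ≤ n) (h : t n = t 0) (i : ℕ) :
    t i ∈ algebraicClosure k Ω := by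
  let L := algebraicClosure k Ω
  let Z : ℕ → Polynomial L := fun i => Nat.rec Polynomial.X
    (fun i Z => Polynomial.C ⟨κ, hκ⟩ * (Z ^ 2 + Polynomial.C ⟨e i, he i⟩ * Z)) i
  have hZ : ∀ i, Z (i + 1) = Polynomial.C ⟨κ, hκ⟩ * (Z i ^ 2 + Polynomial.C ⟨e i, he i⟩ * Z i) :=
    fun i => rfl
  have h1 : ∀ i, Polynomial.aeval (t 0) (Z i) = t i := by
    intro i
    induction i with
    | zero => exact Polynomial.aeval_X _
    | succ i ih => rw [hZ, ht, ← ih]; simp
  have h2 : ∀ i, (Z i).natDegree = 2 ^ i := by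
    intro i
    induction i with
    | zero => exact Polynomial.natDegree_X
    | succ i ih =>
      have hκ' : (⟨κ, hκ⟩ : L) ≠ 0 := fun h => hκ0 (congrArg Subtype.val h)
      rw [hZ, Polynomial.natDegree_C_mul hκ', Polynomial.natDegree_add_eq_left_of_natDegree_lt,
        Polynomial.natDegree_pow, ih, pow_succ, mul_comm]
      refine (Polynomial.natDegree_C_mul_le _ _).trans_lt ?_
      rw [Polynomial.natDegree_pow, ih]
      have := Nat.one_le_two_pow (n := i)
      omega
  have h3 : IsAlgebraic L (t 0) := by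
    refine ⟨Z n - Polynomial.X, fun h0 => ?_, by rw [map_sub, h1, Polynomial.aeval_X, h, sub_self]⟩
    have := h2 n
    rw [sub_eq_zero.1 h0, Polynomial.natDegree_X] at this
    have := Nat.one_lt_two_pow_iff.2 (show n ≠ 0 by omega)
    omega
  have h4 : t 0 ∈ L := mem_algebraicClosure_iff.2 (h3.restrictScalars k)
  induction i with
  | zero => exact h4
  | succ i ih => rw [ht]; exact mul_mem hκ (add_mem (pow_mem ih _) (mul_mem (he i) ih))

lemma per_alg {k Ω : Type} [Field k] [Field Ω] [IsAlgClosed Ω] [Algebra k Ω] (u : Par → Ω)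
    (hu : ∀ s, u s ∈ algebraicClosure k Ω) (hd : (mA u).det ≠ 0) (ha : u (Sum.inr 0) ≠ 0)
    (P : Fin 3 → Ω) (hP : P 0 ≠ 0) (n : ℕ) (hn : 1 ≤ n) (l : Ω)
    (h : (app (pf u))^[n] P = l • P) (i : Fin 3) : P i / P 0 ∈ algebraicClosure k Ω := by
  have hP' : P ≠ 0 := fun h => hP (by rw [h]; rfl)
  have hne : ∀ j, (app (pf u))^[j] P ≠ 0 := by
    intro j
    induction j with
    | zero => exact hP'
    | succ j ih => rw [Function.iterate_succ_apply']; exact fun h => ih (pf_zero u hd ha _ h)
  have hl : l ≠ 0 := fun h0 => hne n (by rw [h, h0, zero_smul])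
  obtain ⟨s, hs⟩ := IsAlgClosed.exists_pow_nat_eq l⁻¹ (n := 2 ^ n - 1) (by
    have := Nat.one_lt_two_pow_iff.2 (show n ≠ 0 by omega)
    omega)
  have hs0 : s ≠ 0 := by
    rintro rfl
    rw [zero_pow (by have := Nat.one_lt_two_pow_iff.2 (show n ≠ 0 by omega); omega)] at hs
    exact inv_ne_zero hl hs.symm
  have hsc : ∀ j, (app (pf u))^[j] (s • P) = s ^ 2 ^ j • (app (pf u))^[j] P := by
    intro j
    induction j with
    | zero => simp
    | succ j ih =>
      rw [Function.iterate_succ_apply', Function.iterate_succ_apply', ih, app_smul, ← pow_mul,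
        pow_succ]
  have hfix : (app (pf u))^[n] (s • P) = s • P := by
    have : 2 ^ n = (2 ^ n - 1) + 1 := (Nat.sub_add_cancel Nat.one_le_two_pow).symm
    rw [hsc, h, smul_smul, this, pow_succ, hs]
    congr 1; field_simp
  let V : ℕ → Fin 3 → Ω := fun j => mA u *ᵥ (app (pf u))^[j] (s • P)
  let κ := u (Sum.inr 0) * (mA u).det
  have hV : ∀ j, V (j + 1) = κ • app (fc (u (Sum.inr 2))) (V j) := fun j => by
    simp only [V]; rw [Function.iterate_succ_apply', mA_app_pf]
  have hVn : V n = V 0 := by simp only [V]; rw [hfix]; rfl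
  have hdet : (mA u).det ∈ algebraicClosure k Ω := by
    rw [det_fin_three]
    simp only [mA, of_apply]
    exact sub_mem (add_mem (add_mem (sub_mem (sub_mem (mul_mem (mul_mem (hu _) (hu _)) (hu _))
      (mul_mem (mul_mem (hu _) (hu _)) (hu _))) (mul_mem (mul_mem (hu _) (hu _)) (hu _)))
      (mul_mem (mul_mem (hu _) (hu _)) (hu _))) (mul_mem (mul_mem (hu _) (hu _)) (hu _)))
      (mul_mem (mul_mem (hu _) (hu _)) (hu _))
  have hκ : κ ∈ algebraicClosure k Ω := mul_mem (hu _) hdet
  have hκ0 : κ ≠ 0 := mul_ne_zero ha hd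
  have h0 := rec_alg κ hκ0 hκ (fun _ => 0) (fun _ => zero_mem _) (fun j => V j 0)
    (fun j => by simp [hV, app_fc]) n hn (by simp only [hVn])
  have h1 := rec_alg κ hκ0 hκ (fun _ => 0) (fun _ => zero_mem _) (fun j => V j 1)
    (fun j => by simp [hV, app_fc]) n hn (by simp only [hVn])
  have h2 := rec_alg κ hκ0 hκ (fun j => u (Sum.inr 2) * V j 0) (fun j => mul_mem (hu _) (h0 j))
    (fun j => V j 2) (fun j => by simp [hV, app_fc, mul_assoc]) n hn (by simp only [hVn])
  have hV0 : ∀ j, V 0 j ∈ algebraicClosure k Ω := by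
    intro j; fin_cases j
    exacts [h0 0, h1 0, h2 0]
  have hadj : ∀ a b, (mA u).adjugate a b ∈ algebraicClosure k Ω := by
    intro a b
    rw [adjugate_fin_three]
    simp only [mA, of_apply]
    fin_cases a <;> fin_cases b <;> simp only [Fin.zero_eta, Fin.mk_one, Fin.reduceFinMk,
      cons_val', cons_val_zero, cons_val_one, cons_val_fin_one, cons_val] <;>
      first
      | exact sub_mem (mul_mem (hu _) (hu _)) (mul_mem (hu _) (hu _))
      | exact add_mem (neg_mem (mul_mem (hu _) (hu _))) (mul_mem (hu _) (hu _))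
  have key : ∀ j, (mA u).det * (s * P j) ∈ algebraicClosure k Ω := by
    intro j
    have : (mA u).adjugate *ᵥ V 0 = (mA u).det • s • P := by
      show _ *ᵥ (mA u *ᵥ (s • P)) = _
      rw [mulVec_mulVec, adjugate_mul, smul_mulVec, one_mulVec]
    have h5 := congrFun this j
    simp only [Pi.smul_apply, smul_eq_mul, mulVec, dotProduct] at h5
    rw [← h5]
    exact sum_mem fun b _ => mul_mem (hadj _ _) (hV0 _)
  have : P i / P 0 = ((mA u).det * (s * P i)) / ((mA u).det * (s * P 0)) := by field_simp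
  rw [this]
  exact div_mem (key i) (key 0)

/-- universal iterates -/
noncomputable def itU (k : ℕ) : Fin 3 → RR :=
  (app ((X : Var 2 2 → RR) ∘ Sum.inl))^[k] ((X : Var 2 2 → RR) ∘ Sum.inr)

lemma map_itU {Y : Type} [CommRing Y] (ψ : RR →+* Y) (k : ℕ) (i : Fin 3) :
    ψ (itU k i) = (app (fun s => ψ (X (Sum.inl s))))^[k] (fun s => ψ (X (Sum.inr s))) i :=
  congrFun (map_iter ψ _ _ k) i

lemma th_X0 (ζ : ℂ) : th ζ (X (Sum.inr 0)) ≠ 0 := by
  intro h
  have := eval_th ζ u1 (X (Sum.inr 0))
  rw [h] at this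
  simp only [pw, pP, mA_u1, map_zero, eval_X, Sum.elim_inr] at this
  simp [u1] at this

lemma aeval_mem {k Ω σ : Type} [Field k] [Field Ω] [Algebra k Ω] (φ : ℂ →+* Ω)
    (hφ : ∀ c, φ c ∈ algebraicClosure k Ω) (w : σ → Ω) (hw : ∀ s, w s ∈ algebraicClosure k Ω)
    (h : MvPolynomial σ ℂ) : eval₂ φ w h ∈ algebraicClosure k Ω := by
  induction h using MvPolynomial.induction_on with
  | C a => simpa using hφ a
  | add p q hp hq => rw [eval₂_add]; exact add_mem hp hq
  | mul_X p s hp => rw [eval₂_mul, eval₂_X]; exact mul_mem hp (hw s)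

/-- The core of the maximality argument, over an abstract domain `D`. -/
lemma core {n : ℕ} (hn : 1 ≤ n) (ζ : ℂ) {D : Type} [CommRing D] [IsDomain D] [Algebra ℂ D]
    (π : RR →ₐ[ℂ] D) (μ : D →+* FractionRing SS)
    (hμ : ∀ h, μ (π h) = algebraMap SS _ (th ζ h))
    (hA : ∀ a : AA, thV a = 0 → π (rename Sum.inl a) = 0)
    (hmin : ∀ i, π (X (Sum.inr 0) * itU n i - X (Sum.inr i) * itU n 0) = 0)
    (w : D) (hw : π (X (Sum.inr 0)) * w = 1) (t : ℂ) (h : RR) (hh : th ζ h = 0) :
    aeval (Sum.elim (fun s => π (X (Sum.inl s)))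
      (fun i => algebraMap ℂ D t * (π (X (Sum.inr i)) * w))) h = 0 := by
  set η := aeval (Sum.elim (fun s => π (X (Sum.inl s)))
      (fun i => algebraMap ℂ D t * (π (X (Sum.inr i)) * w))) h with hη
  have hμc : ∀ c : ℂ, μ (algebraMap ℂ D c) = algebraMap ℂ _ c := by
    intro c
    rw [← π.commutes, hμ, AlgHom.commutes, ← IsScalarTower.algebraMap_apply]
  let μ' : D →ₐ[ℂ] FractionRing SS := { μ with commutes' := hμc }
  have hμη : μ η = 0 := by
    let g : Par → FractionRing SS := algebraMap SS _ ∘ X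
    let u : Par → FractionRing SS :=
      Function.update g (Sum.inr 1) (algebraMap ℂ _ t * μ w * g (Sum.inr 1))
    have e0 : mA u = mA g := by ext i j; simp [mA, u]
    have e1 := map_pw (algebraMap SS (FractionRing SS)) X (C ζ)
    have := aeval_th ζ u h
    rw [hh, map_zero] at this
    rw [this, hη]
    show μ' _ = _
    rw [comp_aeval_apply]
    congr 2
    funext s
    rcases s with s | i
    · show μ (π _) = pf u s
      have e2 : pf u = pf g := by simp [pf, e0, u]
      rw [hμ, th, aeval_X, e2]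
      exact congrFun e1 (Sum.inl s)
    · show μ (_ * (π _ * w)) = pP u _ i
      have e3 := congrFun e1 (Sum.inr i)
      simp only [Function.comp, pw, Sum.elim_inr] at e3
      rw [map_mul, map_mul, hμc, hμ, th, aeval_X, pw, Sum.elim_inr, e3]
      have e4 : algebraMap SS (FractionRing SS) (C ζ) = algebraMap ℂ _ ζ :=
        (IsScalarTower.algebraMap_apply ℂ SS _ ζ).symm
      simp only [pP, e0, e4, Pi.smul_apply, smul_eq_mul, u, Function.update_self]
      show _ = _ * (mA g).adjugate.mulVec _ i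
      change _ * (g (Sum.inr 1) * (mA g).adjugate.mulVec _ i * _) = _
      ring
  by_contra hne
  let a0 : AA →+* D := π.toRingHom.comp (rename Sum.inl : AA →ₐ[ℂ] RR).toRingHom
  have ha0 : ∀ a, μ (a0 a) = algebraMap SS _ (thV a) := fun a => by
    show μ (π (rename Sum.inl a)) = _
    rw [hμ, th_rename]
  let α : Polynomial AA →+* D := Polynomial.eval₂RingHom a0 η
  let β : Polynomial AA →+* Polynomial SS := Polynomial.mapRingHom thV.toRingHom
  have hker : RingHom.ker α = RingHom.ker β := by
    ext Φ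
    simp only [RingHom.mem_ker]
    constructor
    · refine Polynomial.recOnHorner (M := fun Φ => α Φ = 0 → β Φ = 0) Φ (fun _ => map_zero _)
        (fun p a hp0 _ ih h0 => ?_) (fun p _ ih h0 => ?_)
      · have e1 : μ (α p) = 0 := by
          obtain ⟨q, rfl⟩ := Polynomial.X_dvd_iff.2 hp0
          simp [α, hμη]
        have e2 : α (Polynomial.C a) = a0 a := by simp [α]
        have e3 := congrArg μ h0
        rw [map_add, map_add, e1, e2, ha0, zero_add, map_zero] at e3
        have e4 : thV a = 0 := (IsFractionRing.injective SS _) (by rw [e3, map_zero])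
        have e5 : a0 a = 0 := hA a e4
        rw [map_add, e2, e5, add_zero] at h0
        rw [map_add, ih h0]
        simp [β, e4]
      · have e2 : α Polynomial.X = η := by simp [α]
        rw [map_mul, e2] at h0
        rw [map_mul, ih ((mul_eq_zero.1 h0).resolve_right hne), zero_mul]
    · intro h0
      have : ∀ i, a0 (Φ.coeff i) = 0 := fun i => hA _ (by
        have := congrArg (fun p => Polynomial.coeff p i) h0
        simpa [β] using this)
      simp [α, Polynomial.eval₂_eq_sum, Polynomial.sum, this]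
  obtain ⟨Ω, _, _, α', β', _, hβ', hc⟩ := amalg α β hker
  let χ : SS →+* Ω := β'.comp Polynomial.C
  have hχ : Function.Injective χ := hβ'.comp Polynomial.C_injective
  let k := FractionRing SS
  letI : Algebra k Ω := (IsFractionRing.lift hχ : k →+* Ω).toAlgebra
  have hχk : ∀ s, χ s = algebraMap k Ω (algebraMap SS k s) := fun s =>
    (IsFractionRing.lift_algebraMap hχ s).symm
  have hχL : ∀ s, χ s ∈ algebraicClosure k Ω := fun s => by
    rw [hχk]; exact IntermediateField.algebraMap_mem _ _
  have hcoef : ∀ a : AA, α' (a0 a) = χ (thV a) := fun a => by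
    have := hc (Polynomial.C a)
    simpa [α, β, χ] using this
  let u : Par → Ω := χ ∘ X
  let P : Fin 3 → Ω := fun i => α' (π (X (Sum.inr i)))
  have hf : (fun s => α' (π (X (Sum.inl s)))) = pf u := by
    funext s
    have := hcoef (X s)
    simp only [a0, RingHom.comp_apply, AlgHom.toRingHom_eq_coe, RingHom.coe_coe, rename_X, thV,
      aeval_X] at this
    rw [this]
    exact congrFun (map_pf χ X) s
  have hPw : P 0 * α' w = 1 := by simp only [P]; rw [← map_mul, hw, map_one]
  have hP0 : P 0 ≠ 0 := left_ne_zero_of_mul_eq_one hPw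
  have hper : (app (pf u))^[n] P = ((app (pf u))^[n] P 0 / P 0) • P := by
    funext i
    have h1 := congrArg α' (hmin i)
    have h2 : ∀ j, α' (π (itU n j)) = (app (pf u))^[n] P j := fun j => by
      rw [← hf]; exact map_itU (α'.comp π.toRingHom) n j
    simp only [map_sub, map_mul, h2, map_zero] at h1
    simp only [Pi.smul_apply, smul_eq_mul]
    field_simp
    linear_combination h1
  have hd : (mA u).det ≠ 0 := by
    rw [← map_mA, ← RingHom.mapMatrix_apply, ← RingHom.map_det]
    exact fun h => nd_X.1 (hχ (by rw [h, map_zero]))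
  have ha : u (Sum.inr 0) ≠ 0 := fun h => nd_X.2.1 (hχ (by rw [map_zero]; exact h))
  have halg := per_alg (k := k) u (fun s => hχL _) hd ha P hP0 n hn _ hper
  have hC : ∀ c : ℂ, α' (algebraMap ℂ D c) ∈ algebraicClosure k Ω := fun c => by
    have := hcoef (C c)
    have e : a0 (C c) = algebraMap ℂ D c := by
      show π (rename Sum.inl (C c)) = _
      rw [rename_C]; exact π.commutes c
    rw [← e, this]; exact hχL _
  have hηL : α' η ∈ algebraicClosure k Ω := by
    rw [hη, aeval_def, eval₂_comp_left]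
    refine aeval_mem _ hC _ (fun s => ?_) h
    rcases s with s | i
    · have := hcoef (X s)
      have e : a0 (X s) = π (X (Sum.inl s)) := by
        show π (rename Sum.inl (X s)) = _
        rw [rename_X]
      show α' (π (X (Sum.inl s))) ∈ _
      rw [← e, this]; exact hχL _
    · show α' (_ * (π _ * w)) ∈ _
      rw [map_mul, map_mul]
      refine mul_mem (hC t) ?_
      have : α' w = (P 0)⁻¹ := eq_inv_of_mul_eq_one_right hPw
      rw [this, ← div_eq_mul_inv]
      exact halg i
  have hT : α' η = β' Polynomial.X := by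
    have := hc Polynomial.X
    simpa [α, β] using this
  letI : Algebra SS Ω := χ.toAlgebra
  haveI : IsScalarTower SS k Ω := IsScalarTower.of_algebraMap_eq hχk
  obtain ⟨Φ, hΦ, hΦ0⟩ := (IsFractionRing.isAlgebraic_iff SS k Ω).2
    (mem_algebraicClosure_iff.1 hηL)
  apply hΦ
  apply hβ'
  rw [map_zero, ← hΦ0, hT, Polynomial.aeval_def]
  exact ((Polynomial.hom_eval₂ Φ Polynomial.C β' Polynomial.X).symm.trans
    (by rw [Polynomial.eval₂_C_X])).symm

lemma maximal {n : ℕ} (hn : 1 ≤ n) {ζ : ℂ} (hζ : IsPrimitiveRoot ζ (2 ^ n - 1))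
    (W' : Set (Var 2 2 → ℂ)) (hW : W' ⊆ Pre n) (hirr : ZIrred W') (hsub : WW n ζ ⊆ W')
    (h : RR) (hh : th ζ h = 0) : h ∈ vanishingIdeal ℂ W' := by
  let p := vanishingIdeal ℂ W'
  haveI : p.IsPrime := hirr
  have hle : ∀ a ∈ p, th ζ a = 0 := fun a ha => by
    have : a ∈ vanishingIdeal ℂ (WW n ζ) := fun w hw => ha w (hsub hw)
    rw [van_WW hn hζ] at this; exact this
  let D0 := RR ⧸ p
  let x0 : D0 := Ideal.Quotient.mk p (X (Sum.inr 0))
  have hx0 : x0 ≠ 0 := fun h0 => th_X0 ζ (hle _ (Ideal.Quotient.eq_zero_iff_mem.1 h0))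
  let D := Localization.Away x0
  have hpow := powers_le_nonZeroDivisors_of_noZeroDivisors hx0
  haveI : IsDomain D := IsLocalization.isDomain_localization hpow
  let π : RR →ₐ[ℂ] D := (IsScalarTower.toAlgHom ℂ D0 D).comp (Ideal.Quotient.mkₐ ℂ p)
  let μ0 : D0 →+* FractionRing SS :=
    Ideal.Quotient.lift p ((algebraMap SS _).comp (th ζ).toRingHom) fun a ha => by
      show algebraMap SS _ (th ζ a) = 0
      rw [hle a ha, map_zero]
  have hunit : IsUnit (μ0 x0) := by
    refine IsUnit.mk0 _ fun h0 => th_X0 ζ ((IsFractionRing.injective SS (FractionRing SS)) ?_)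
    rw [map_zero]; exact h0
  let μ : D →+* FractionRing SS := IsLocalization.Away.lift x0 hunit
  have hμ : ∀ h, μ (π h) = algebraMap SS _ (th ζ h) := fun h =>
    IsLocalization.Away.lift_eq x0 hunit _
  have hπ : ∀ a, π a = 0 ↔ a ∈ p := fun a => by
    rw [← Ideal.Quotient.eq_zero_iff_mem]
    exact map_eq_zero_iff (algebraMap D0 D) (IsLocalization.injective D hpow)
  let w : D := IsLocalization.Away.invSelf x0
  have hw : π (X (Sum.inr 0)) * w = 1 := IsLocalization.Away.mul_invSelf x0
  have hcore := core hn ζ π μ hμ (fun a ha => (hπ _).2 fun v hv => by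
      have := (hW hv).2.2 a ha
      rw [aeval_rename]; exact this)
    (fun i => (hπ _).2 fun v hv => by
      obtain ⟨l, hl⟩ := (hW hv).1.2.2.1
      have h2 : ∀ j, aeval v (itU n j) = l * v (Sum.inr j) := fun j => by
        have := map_itU (aeval v : RR →ₐ[ℂ] ℂ).toRingHom n j
        simp only [AlgHom.toRingHom_eq_coe, RingHom.coe_coe, aeval_X] at this
        rw [this]
        exact congrFun hl j
      simp only [map_sub, map_mul, h2, aeval_X]; ring) w hw
  let H : Polynomial D := aeval (Sum.elim (fun s => Polynomial.C (π (X (Sum.inl s))))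
    (fun i => Polynomial.X * Polynomial.C (π (X (Sum.inr i)) * w))) h
  have hH : ∀ x : D, H.eval x = aeval (Sum.elim (fun s => π (X (Sum.inl s)))
      (fun i => x * (π (X (Sum.inr i)) * w))) h := by
    intro x
    have := comp_aeval_apply (f := Sum.elim (fun s => Polynomial.C (π (X (Sum.inl s))))
      (fun i => Polynomial.X * Polynomial.C (π (X (Sum.inr i)) * w)))
      ((Polynomial.aeval x : Polynomial D →ₐ[D] D).restrictScalars ℂ) h
    rw [← Polynomial.coe_aeval_eq_eval]
    refine this.trans ?_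
    congr 2
    funext s
    rcases s with s | i <;> simp
  have hH0 : H = 0 := by
    refine Polynomial.eq_zero_of_infinite_isRoot _ ?_
    refine (Set.infinite_range_of_injective (algebraMap ℂ D).injective).mono ?_
    rintro _ ⟨t, rfl⟩
    show H.eval _ = 0
    rw [hH]; exact hcore t h hh
  have := hH (π (X (Sum.inr 0)))
  rw [hH0, Polynomial.eval_zero] at this
  refine (hπ h).1 ?_
  rw [this]
  conv_lhs => rw [← aeval_X_left_apply h, comp_aeval_apply]
  congr 2
  funext s
  rcases s with s | i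
  · rfl
  · simp only [Sum.elim_inr]; linear_combination (-π (X (Sum.inr i))) * hw

end H60.DY
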