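import Mathlib

namespace Pool.Agent.H60.ExpDD

open Finset

/-- Divided difference of `x ↦ exp (x u)` at the nodes `S`. -/
noncomputable def rho (S : Finset ℕ) (u : ℝ) : ℝ :=
  ∑ x ∈ S, Real.exp (x * u) / ∏ y ∈ S.erase x, ((x : ℝ) - y)

lemma cmp {f g f' g' : ℝ → ℝ} (hf : ∀ x, HasDerivAt f (f' x) x) (hg : ∀ x, HasDerivAt g (g' x) x)
    (h0 : f 0 ≤ g 0) (h : ∀ x, 0 ≤ x → f' x ≤ g' x) (u : ℝ) (hu : 0 ≤ u) : f u ≤ g u :=
  image_le_of_deriv_right_le_deriv_boundary (a := 0) (b := u)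
    (fun x _ => (hf x).continuousAt.continuousWithinAt) (fun x _ => (hf x).hasDerivWithinAt) h0
    (fun x _ => (hg x).continuousAt.continuousWithinAt) (fun x _ => (hg x).hasDerivWithinAt)
    (fun x hx => h x hx.1) ⟨hu, le_rfl⟩

lemma rho_deriv (S : Finset ℕ) (s : ℕ) (hs : s ∉ S) (u : ℝ) :
    HasDerivAt (rho (insert s S)) (s * rho (insert s S) u + rho S u) u := by
  have h1 : HasDerivAt (rho (insert s S))
      (∑ x ∈ insert s S, Real.exp (x * u) * x / ∏ y ∈ (insert s S).erase x, ((x : ℝ) - y)) u := by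
    unfold rho
    refine HasDerivAt.fun_sum fun x _ => ?_
    refine HasDerivAt.div_const ?_ _
    simpa using ((hasDerivAt_id u).const_mul (x : ℝ)).exp
  refine h1.congr_deriv (Eq.symm ?_)
  unfold rho
  rw [mul_sum, sum_insert hs, sum_insert hs, add_assoc, ← sum_add_distrib]
  congr 1
  · ring
  · refine sum_congr rfl fun x hx => ?_
    have hne : s ≠ x := fun h => hs (h ▸ hx)
    rw [erase_insert_of_ne hne, prod_insert (fun h => hs (mem_of_mem_erase h))]
    have h2 : (x : ℝ) - s ≠ 0 := sub_ne_zero.2 (by exact_mod_cast hne.symm)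
    have h3 : ∏ y ∈ S.erase x, ((x : ℝ) - y) ≠ 0 :=
      prod_ne_zero_iff.2 fun y hy => sub_ne_zero.2 (by exact_mod_cast (ne_of_mem_erase hy).symm)
    field_simp
    ring

lemma rho_zero (S : Finset ℕ) (m : ℕ) (h : S.card = m + 2) : rho S 0 = 0 := by
  have := Lagrange.coeff_eq_sum (s := S) (v := fun x : ℕ => (x : ℝ))
    Nat.cast_injective.injOn (P := 1)
    (by rw [Polynomial.degree_one, h]; exact_mod_cast Nat.succ_pos _)
  rw [h, Polynomial.coeff_one, if_neg (by omega)] at this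
  simpa [rho] using this.symm

lemma pow_deriv (m : ℕ) (u : ℝ) :
    HasDerivAt (fun u : ℝ => u ^ (m + 1) / (m + 1).factorial) (u ^ m / m.factorial) u := by
  refine ((hasDerivAt_pow (m + 1) u).div_const ((m + 1).factorial : ℝ)).congr_deriv ?_
  rw [Nat.factorial_succ]
  push_cast
  field_simp

lemma rho_bounds (K : ℕ) : ∀ (m : ℕ) (S : Finset ℕ), S.card = m + 1 → (∀ x ∈ S, x ≤ K) →
    ∀ u : ℝ, 0 ≤ u →
      u ^ m / m.factorial ≤ rho S u ∧ rho S u ≤ Real.exp (K * u) * (u ^ m / m.factorial) := by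
  intro m
  induction m with
  | zero =>
    intro S hS hK u hu
    obtain ⟨a, rfl⟩ := card_eq_one.1 hS
    have ha : (a : ℝ) ≤ K := by exact_mod_cast hK a (mem_singleton_self a)
    simp only [rho, sum_singleton, erase_singleton, prod_empty, div_one, pow_zero,
      Nat.factorial_zero, Nat.cast_one, mul_one]
    exact ⟨Real.one_le_exp (by positivity), Real.exp_le_exp.2 (by gcongr)⟩
  | succ m ih =>
    intro S hS hK u hu
    have h0 := rho_zero S m hS
    obtain ⟨s, T, hs, rfl, hT⟩ := card_eq_succ.1 hS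
    have ihT := ih T hT (fun x hx => hK x (mem_insert_of_mem hx))
    have hsK : (s : ℝ) ≤ K := by exact_mod_cast hK s (mem_insert_self _ _)
    have hd : ∀ (c : ℝ) (v : ℝ), HasDerivAt (fun v => Real.exp (-c * v) * rho (insert s T) v)
        (Real.exp (-c * v) * ((s - c) * rho (insert s T) v + rho T v)) v := by
      intro c v
      have e1 : HasDerivAt (fun v => Real.exp (-c * v)) (Real.exp (-c * v) * (-c)) v := by
        simpa using ((hasDerivAt_id v).const_mul (-c)).exp
      refine (e1.mul (rho_deriv T s hs v)).congr_deriv ?_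
      ring
    have hpos : ∀ v : ℝ, 0 ≤ v → 0 ≤ rho (insert s T) v := by
      intro v hv
      have := cmp (f := fun _ => 0) (f' := fun _ => 0) (fun x => hasDerivAt_const x 0) (hd s)
        (by simp [h0]) (fun x hx => by
          have := (ihT x hx).1
          have h3 : 0 ≤ x ^ m / m.factorial := by positivity
          have h4 : 0 ≤ rho T x := h3.trans this
          simp only [sub_self, zero_mul, zero_add]
          positivity) v hv
      exact nonneg_of_mul_nonneg_right this (Real.exp_pos _) |> fun h => h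
    constructor
    · refine cmp (pow_deriv m) (rho_deriv T s hs) (by simp [h0]) (fun x hx => ?_) u hu
      have := (ihT x hx).1
      have h3 : 0 ≤ (s : ℝ) * rho (insert s T) x := mul_nonneg (Nat.cast_nonneg _) (hpos x hx)
      linarith
    · have := cmp (hd K) (pow_deriv m) (by simp [h0]) (fun x hx => by
        have h1 := (ihT x hx).2
        have h2 : ((s : ℝ) - K) * rho (insert s T) x ≤ 0 :=
          mul_nonpos_of_nonpos_of_nonneg (by linarith) (hpos x hx)
        have h3 : Real.exp (-K * x) * Real.exp (K * x) = 1 := by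
          rw [← Real.exp_add]; simp
        calc Real.exp (-K * x) * (((s : ℝ) - K) * rho (insert s T) x + rho T x)
            ≤ Real.exp (-K * x) * (Real.exp (K * x) * (x ^ m / m.factorial)) := by
              gcongr; linarith
          _ = _ := by rw [← mul_assoc, h3, one_mul]) u hu
      have h3 : Real.exp (K * u) * Real.exp (-K * u) = 1 := by
        rw [← Real.exp_add]; simp
      calc rho (insert s T) u = Real.exp (K * u) * (Real.exp (-K * u) * rho (insert s T) u) := by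
            rw [← mul_assoc, h3, one_mul]
        _ ≤ _ := by gcongr

theorem pade (p1 p2 k r A B Y g : ℕ) (d : ℤ) (h2 : 1 ≤ p2) (h12 : p2 < p1) (hg : p1 ≤ p2 + g)
    (hrk : r < k) (hA : 1 ≤ A) (heq : (A : ℤ) * p1 ^ k - B * p2 ^ k = d) (hd : |d| ≤ Y)
    (hKg : (k + r) * g ≤ p2)
    (hi : Y * (r + 1) * 2 ^ r * (2 * r + 1).factorial * p1 ^ (2 * r + 1) < p2 ^ k)
    (hii : 6 * A * (k + r) ^ (6 * r + 2) * g ^ (2 * r + 1) ≤ p2 ^ (r + 1)) : False := by
  classical
  set S : Finset ℕ := range (r + 1) ∪ image (fun i => k + i) (range (r + 1)) with hS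
  have hdisj : Disjoint (range (r + 1)) (image (fun i => k + i) (range (r + 1))) := by
    rw [disjoint_left]
    intro x hx hx'
    simp only [mem_range, mem_image] at hx hx'
    obtain ⟨a, ha, rfl⟩ := hx'
    omega
  have hinj : Set.InjOn (fun i => k + i) (range (r + 1) : Finset ℕ) := fun a _ b _ h => by
    simpa using h
  have hcard : S.card = (2 * r + 1) + 1 := by
    rw [hS, card_union_of_disjoint hdisj, card_image_of_injOn hinj, card_range]
    ring
  have hmemS : ∀ x ∈ S, x ≤ r ∨ (k ≤ x ∧ x ≤ k + r) := by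
    intro x hx
    simp only [hS, mem_union, mem_range, mem_image] at hx
    rcases hx with hx | ⟨a, ha, rfl⟩ <;> omega
  set W : Finset ℤ := (Icc (-(r : ℤ)) r).erase 0 ∪ Icc ((k : ℤ) - r) (k + r) ∪
    Icc (-((k : ℤ) + r)) (-((k : ℤ) - r)) with hW
  set D : ℤ := ∏ t ∈ W, t with hD
  have hWmem : ∀ t ∈ W, t ≠ 0 ∧ |t| ≤ (k + r : ℕ) := by
    intro t ht
    simp only [hW, mem_union, mem_erase, mem_Icc] at ht
    rw [abs_le]
    push_cast
    omega
  have hD0 : D ≠ 0 := prod_ne_zero_iff.2 fun t ht => (hWmem t ht).1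
  have hWcard : W.card ≤ 6 * r + 2 := by
    have e1 := card_union_le ((Icc (-(r : ℤ)) r).erase 0 ∪ Icc ((k : ℤ) - r) (k + r))
      (Icc (-((k : ℤ) + r)) (-((k : ℤ) - r)))
    have e2 := card_union_le ((Icc (-(r : ℤ)) r).erase 0) (Icc ((k : ℤ) - r) (k + r))
    rw [card_erase_of_mem (by simp)] at e2
    simp only [Int.card_Icc] at e1 e2
    rw [hW]
    omega
  have hDle : |D| ≤ ((k + r : ℕ) : ℤ) ^ (6 * r + 2) := by
    rw [hD, Finset.abs_prod]
    calc ∏ t ∈ W, |t| ≤ ∏ t ∈ W, ((k + r : ℕ) : ℤ) :=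
          prod_le_prod (fun _ _ => abs_nonneg _) fun t ht => (hWmem t ht).2
      _ = ((k + r : ℕ) : ℤ) ^ W.card := prod_const _
      _ ≤ _ := pow_le_pow_right₀ (by push_cast; omega) hWcard
  set π : ℕ → ℤ := fun x => ∏ y ∈ S.erase x, ((x : ℤ) - y) with hπ
  have hπ0 : ∀ x, π x ≠ 0 := fun x =>
    prod_ne_zero_iff.2 fun y hy => sub_ne_zero.2 (by exact_mod_cast (ne_of_mem_erase hy).symm)
  have hπD : ∀ x ∈ S, π x ∣ D := by
    intro x hx
    have : π x = ∏ t ∈ image (fun y : ℕ => (x : ℤ) - y) (S.erase x), t := by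
      rw [prod_image (fun a _ b _ h => by simpa using h)]
    rw [this]
    refine prod_dvd_prod_of_subset _ _ _ fun t ht => ?_
    simp only [mem_image, mem_erase] at ht
    obtain ⟨y, ⟨hy1, hy2⟩, rfl⟩ := ht
    have e1 := hmemS x hx
    have e2 := hmemS y hy2
    simp only [hW, mem_union, mem_erase, mem_Icc]
    omega
  have hp2 : (0 : ℝ) < p2 := by exact_mod_cast h2
  have hp12 : (p2 : ℝ) + 1 ≤ p1 := by exact_mod_cast h12
  have hp1 : (0 : ℝ) < p1 := by linarith
  have hgr : (p1 : ℝ) ≤ p2 + g := by exact_mod_cast hg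
  have hKg' : ((k + r : ℕ) : ℝ) * g ≤ p2 := by exact_mod_cast hKg
  have hK1 : (1 : ℝ) ≤ ((k + r : ℕ) : ℝ) := by exact_mod_cast (by omega : 1 ≤ k + r)
  have hg0 : (0 : ℝ) ≤ g := Nat.cast_nonneg _
  have hgp : (g : ℝ) ≤ p2 := by nlinarith
  set w : ℝ := p1 / p2 with hw
  have hw0 : 0 < w := by positivity
  have hw1 : 1 ≤ w := by rw [hw, le_div_iff₀ hp2]; linarith
  have hw2 : w ≤ 2 := by rw [hw, div_le_iff₀ hp2]; linarith
  set u : ℝ := Real.log w with hu
  have hu0 : 0 ≤ u := Real.log_nonneg hw1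
  have hul : 1 / p1 ≤ u := by
    have := Real.one_sub_inv_le_log_of_pos hw0
    refine le_trans ?_ this
    rw [hw, inv_div, div_le_iff₀ hp1, sub_mul, div_mul_cancel₀ _ hp1.ne']
    linarith
  have huu : u ≤ g / p2 := by
    have := Real.log_le_sub_one_of_pos hw0
    refine this.trans ?_
    rw [hw, le_div_iff₀ hp2, sub_mul, div_mul_cancel₀ _ hp2.ne']
    linarith
  have hexp : ∀ x : ℕ, Real.exp (x * u) = w ^ x := by
    intro x
    rw [Real.exp_nat_mul, hu, Real.exp_log hw0]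
  set U : ℝ := ∑ i ∈ range (r + 1), w ^ i / (π i : ℝ) with hU
  set V : ℝ := ∑ i ∈ range (r + 1), w ^ i / (π (k + i) : ℝ) with hV
  have hrho : rho S u = U + w ^ k * V := by
    have e : ∀ x, (∏ y ∈ S.erase x, ((x : ℝ) - y)) = (π x : ℝ) := by
      intro x; simp [hπ]
    simp only [rho, e, hexp]
    rw [hS, sum_union hdisj, sum_image hinj, hV, mul_sum]
    congr 1
    refine sum_congr rfl fun i _ => ?_
    rw [pow_add, mul_div_assoc]
  have hint : ∀ (f : ℕ → ℕ), (∀ i ∈ range (r + 1), f i ∈ S) →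
      ∃ z : ℤ, (D : ℝ) * p2 ^ r * ∑ i ∈ range (r + 1), w ^ i / (π (f i) : ℝ) = z := by
    intro f hf
    refine ⟨∑ i ∈ range (r + 1), D / π (f i) * p1 ^ i * p2 ^ (r - i), ?_⟩
    rw [mul_sum]
    push_cast
    refine sum_congr rfl fun i hi => ?_
    obtain ⟨c, hc⟩ := hπD _ (hf i hi)
    have e0 : (π (f i) : ℝ) ≠ 0 := by exact_mod_cast hπ0 _
    rw [hc, Int.mul_ediv_cancel_left _ (hπ0 _)]
    obtain ⟨j, hj⟩ : ∃ j, r = i + j := ⟨r - i, by rw [mem_range] at hi; omega⟩
    rw [show r - i = j by omega, hw, div_pow]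
    nth_rewrite 1 [hj]
    push_cast
    field_simp
    ring
  obtain ⟨zU, hzU⟩ := hint (fun i => i) (fun i hi => mem_union_left _ hi)
  obtain ⟨zV, hzV⟩ := hint (fun i => k + i)
    (fun i hi => mem_union_right _ (mem_image_of_mem _ hi))
  rw [← hU] at hzU
  rw [← hV] at hzV
  have hVle : |V| ≤ (r + 1) * 2 ^ r := by
    refine (abs_sum_le_sum_abs _ _).trans ?_
    have : ∀ i ∈ range (r + 1), |w ^ i / (π (k + i) : ℝ)| ≤ 2 ^ r := by
      intro i hi
      have e1 : (1 : ℝ) ≤ |(π (k + i) : ℝ)| := by exact_mod_cast Int.one_le_abs (hπ0 _)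
      rw [abs_div, abs_of_pos (by positivity)]
      calc w ^ i / |(π (k + i) : ℝ)| ≤ w ^ i := div_le_self (by positivity) e1
        _ ≤ 2 ^ i := by gcongr
        _ ≤ 2 ^ r := pow_le_pow_right₀ (by norm_num) (by rw [mem_range] at hi; omega)
    refine (sum_le_card_nsmul _ _ _ this).trans ?_
    simp
  set ε : ℝ := d / p2 ^ k with hε
  have hAw : A * w ^ k = B + ε := by
    have : (A : ℝ) * p1 ^ k - B * p2 ^ k = d := by exact_mod_cast heq
    rw [hε, hw, div_pow, ← this]
    field_simp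
    ring
  obtain ⟨hlo, hup⟩ := rho_bounds (k + r) (2 * r + 1) S hcard
    (fun x hx => by have := hmemS x hx; omega) u hu0
  have hfac : (1 : ℝ) ≤ ((2 * r + 1).factorial : ℝ) := by
    exact_mod_cast Nat.factorial_pos _
  have hεV : |ε * V| < u ^ (2 * r + 1) / (2 * r + 1).factorial := by
    have e1 : |ε| ≤ Y / p2 ^ k := by
      rw [hε, abs_div, abs_of_pos (a := (p2 : ℝ) ^ k) (by positivity)]
      gcongr
      exact_mod_cast hd
    have e2 : (Y : ℝ) * (r + 1) * 2 ^ r * (2 * r + 1).factorial * p1 ^ (2 * r + 1) < p2 ^ k := by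
      exact_mod_cast hi
    calc |ε * V| ≤ Y / p2 ^ k * ((r + 1) * 2 ^ r) := by rw [abs_mul]; gcongr
      _ < (1 / p1) ^ (2 * r + 1) / (2 * r + 1).factorial := by
        rw [div_pow, one_pow, div_div, div_mul_eq_mul_div, div_lt_div_iff₀ (by positivity)
          (by positivity)]
        linarith
      _ ≤ _ := by gcongr
  have hA' : (1 : ℝ) ≤ A := by exact_mod_cast hA
  have hrho0 : 0 ≤ rho S u := le_trans (by positivity) hlo
  have hArho : rho S u ≤ A * rho S u := le_mul_of_one_le_left hrho0 hA'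
  have hsum : A * U + B * V = A * rho S u - ε * V := by
    rw [hrho]; linear_combination (-V) * hAw
  have habs := abs_lt.1 hεV
  have hpos : 0 < A * U + B * V := by rw [hsum]; linarith
  have hlt : A * U + B * V < 2 * (A * rho S u) := by rw [hsum]; linarith
  have hN : ((A * zU + B * zV : ℤ) : ℝ) = D * p2 ^ r * (A * U + B * V) := by
    push_cast
    rw [← hzU, ← hzV]
    ring
  have hD0' : (D : ℝ) ≠ 0 := by exact_mod_cast hD0
  have hN0 : (A * zU + B * zV : ℤ) ≠ 0 := by
    intro h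
    rw [h, Int.cast_zero] at hN
    exact (mul_ne_zero (mul_ne_zero hD0' (by positivity)) hpos.ne') hN.symm
  have hN1 : (1 : ℝ) ≤ |((A * zU + B * zV : ℤ) : ℝ)| := by exact_mod_cast Int.one_le_abs hN0
  have hDle' : |(D : ℝ)| ≤ ((k + r : ℕ) : ℝ) ^ (6 * r + 2) := by exact_mod_cast hDle
  have hexp3 : Real.exp (((k + r : ℕ) : ℝ) * u) ≤ 3 := by
    have : ((k + r : ℕ) : ℝ) * u ≤ 1 := by
      calc ((k + r : ℕ) : ℝ) * u ≤ ((k + r : ℕ) : ℝ) * (g / p2) := by gcongr
        _ ≤ 1 := by rw [← mul_div_assoc, div_le_one hp2]; exact hKg'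
    exact (Real.exp_le_exp.2 this).trans (Real.exp_one_lt_d9.le.trans (by norm_num))
  have hrhole : rho S u ≤ 3 * (g / p2) ^ (2 * r + 1) := by
    refine hup.trans ?_
    gcongr
    exact (div_le_self (by positivity) hfac).trans (by gcongr)
  have hii' : 6 * (A : ℝ) * ((k + r : ℕ) : ℝ) ^ (6 * r + 2) * g ^ (2 * r + 1) ≤ p2 ^ (r + 1) := by
    exact_mod_cast hii
  rw [hN, abs_mul, abs_mul, abs_of_pos hpos, abs_of_pos (a := (p2 : ℝ) ^ r) (by positivity)]
    at hN1
  have hDpos : 0 < |(D : ℝ)| := abs_pos.2 hD0'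
  have : |(D : ℝ)| * p2 ^ r * (A * U + B * V) < 1 := by
    calc |(D : ℝ)| * p2 ^ r * (A * U + B * V) < |(D : ℝ)| * p2 ^ r * (2 * (A * rho S u)) := by
          gcongr
      _ ≤ ((k + r : ℕ) : ℝ) ^ (6 * r + 2) * p2 ^ r * (2 * (A * (3 * (g / p2) ^ (2 * r + 1)))) := by
          gcongr
      _ = (6 * (A : ℝ) * ((k + r : ℕ) : ℝ) ^ (6 * r + 2) * g ^ (2 * r + 1)) / p2 ^ (r + 1) := by
          rw [div_pow]
          field_simp
          ring
      _ ≤ 1 := by rw [div_le_one (by positivity)]; exact hii'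
  linarith

end Pool.Agent.H60.ExpDD
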