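import Mathlib

namespace Pool.Agent.H60.Fact

/-- `U_m = {1!, 2!, …, m!}`. -/
def U (m : ℕ) : Finset ℕ := (Finset.Icc 1 m).image Nat.factorial

/-- `c_A(i, n)`: the number of partitions of `n` with all parts in `A` and exactly `i` parts. -/
def c (A : Finset ℕ) (i n : ℕ) : ℕ :=
  (Finset.univ.filter fun l : Nat.Partition n => (∀ a ∈ l.parts, a ∈ A) ∧ l.parts.card = i).card

/-- `S_{A,k}(n) = ∑_{i=0}^n (-1)^i i^k c_A(i,n)`. -/
def S (A : Finset ℕ) (k n : ℕ) : ℤ :=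
  ∑ i ∈ Finset.range (n + 1), (-1) ^ i * (i : ℤ) ^ k * c A i n

end Pool.Agent.H60.Fact
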