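import Mathlib
import Pool.Agent.H60.FactDefs

namespace Pool.Agent.H60.Fact

open Finset

lemma mem_U3 (a : ℕ) : a ∈ U 3 ↔ a = 1 ∨ a = 2 ∨ a = 6 := by
  have : U 3 = {1, 2, 6} := by decide
  simp [this]

lemma S_eq (A : Finset ℕ) (k n : ℕ) : S A k n =
    ∑ l ∈ univ.filter (fun l : Nat.Partition n => ∀ a ∈ l.parts, a ∈ A),
      (-1) ^ l.parts.card * (l.parts.card : ℤ) ^ k := by
  rw [← sum_fiberwise_of_maps_to (t := range (n + 1)) (g := fun l => l.parts.card)]
  · refine sum_congr rfl fun i _ => ?_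
    rw [filter_filter, sum_congr rfl (g := fun _ => (-1) ^ i * (i : ℤ) ^ k)]
    · rw [sum_const, c, nsmul_eq_mul, mul_comm]
    · intro l hl
      rw [(mem_filter.1 hl).2.2]
  · intro l _
    have := Multiset.card_nsmul_le_sum (s := l.parts) (a := 1) fun x hx => l.parts_pos hx
    rw [l.parts_sum] at this
    simpa [Nat.lt_succ_iff] using this

lemma decomp (s : Multiset ℕ) (hs : ∀ a ∈ s, a = 1 ∨ a = 2 ∨ a = 6) :
    s = Multiset.replicate (s.count 1) 1 + Multiset.replicate (s.count 2) 2 +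
      Multiset.replicate (s.count 6) 6 := by
  ext a
  simp only [Multiset.count_add, Multiset.count_replicate]
  by_cases h : a ∈ s
  · rcases hs a h with rfl | rfl | rfl <;> simp
  · rw [Multiset.count_eq_zero_of_notMem h]
    split_ifs with h1 h2 h3 <;> subst_vars <;> simp_all

lemma S_U3 (k n : ℕ) : S (U 3) k n = ∑ z ∈ range (n / 6 + 1), ∑ y ∈ range ((n - 6 * z) / 2 + 1),
    (-1) ^ (n - 5 * z - y) * ((n - 5 * z - y : ℕ) : ℤ) ^ k := by
  rw [S_eq, sum_sigma']
  have key : ∀ l : Nat.Partition n, (∀ a ∈ l.parts, a ∈ U 3) →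
      l.parts.count 1 + 2 * l.parts.count 2 + 6 * l.parts.count 6 = n ∧
      l.parts.card = l.parts.count 1 + l.parts.count 2 + l.parts.count 6 := by
    intro l hl
    have h := decomp l.parts fun a ha => (mem_U3 a).1 (hl a ha)
    have h1 := congrArg Multiset.sum h
    have h2 := congrArg Multiset.card h
    simp only [Multiset.sum_add, Multiset.sum_replicate, smul_eq_mul, l.parts_sum,
      Multiset.card_add, Multiset.card_replicate] at h1 h2
    omega
  refine sum_bij (fun l _ => ⟨l.parts.count 6, l.parts.count 2⟩) ?_ ?_ ?_ ?_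
  · intro l hl
    have := key l (mem_filter.1 hl).2
    simp only [mem_sigma, mem_range]
    omega
  · intro l hl l' hl' h
    have h1 := key l (mem_filter.1 hl).2
    have h2 := key l' (mem_filter.1 hl').2
    simp only [Sigma.mk.injEq, heq_eq_eq] at h
    ext1
    rw [decomp l.parts fun a ha => (mem_U3 a).1 ((mem_filter.1 hl).2 a ha),
      decomp l'.parts fun a ha => (mem_U3 a).1 ((mem_filter.1 hl').2 a ha), h.1, h.2,
      show l.parts.count 1 = l'.parts.count 1 by omega]
  · rintro ⟨z, y⟩ h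
    simp only [mem_sigma, mem_range] at h
    refine ⟨⟨Multiset.replicate (n - 6 * z - 2 * y) 1 + Multiset.replicate y 2 +
      Multiset.replicate z 6, ?_, ?_⟩, ?_, ?_⟩
    · intro i hi
      simp only [Multiset.mem_add, Multiset.mem_replicate] at hi
      omega
    · simp only [Multiset.sum_add, Multiset.sum_replicate, smul_eq_mul]
      omega
    · simp only [mem_filter, mem_univ, true_and, mem_U3, Multiset.mem_add, Multiset.mem_replicate]
      tauto
    · simp [Multiset.count_replicate]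
  · intro l hl
    have := key l (mem_filter.1 hl).2
    simp only
    rw [show n - 5 * l.parts.count 6 - l.parts.count 2 = l.parts.card by omega]

lemma inner (h t : ℕ) (ht : t ≤ h) :
    2 * ∑ y ∈ range (t + 1), (-1 : ℤ) ^ (h - y) * ((h - y : ℕ) : ℤ) ^ 2 =
      (-1) ^ h * h * (h + 1) + (-1) ^ (h - t) * ((h : ℤ) - t) * ((h : ℤ) - t - 1) := by
  induction t with
  | zero => simp; ring
  | succ t ih =>
    rw [sum_range_succ, mul_add, ih (by omega)]
    obtain ⟨u, rfl⟩ : ∃ u, h = u + (t + 1) := ⟨h - (t + 1), by omega⟩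
    rw [show u + (t + 1) - t = u + 1 by omega, show u + (t + 1) - (t + 1) = u by omega]
    push_cast
    ring

lemma outer (n m : ℤ) (C : ℕ) :
    3 * ∑ z ∈ range (2 * C + 1), ((-1 : ℤ) ^ z * (n - 5 * z) * (n - 5 * z + 1) -
      (m - 2 * z) * (m - 2 * z - 1)) =
      3 * (n * (n + 1) - 10 * C * n + 50 * C ^ 2 + 20 * C) -
        (2 * C + 1) * (3 * m ^ 2 - 3 * m - 12 * m * C + 16 * C ^ 2 + 10 * C) := by
  induction C with
  | zero => simp; ring
  | succ C ih =>
    rw [show 2 * (C + 1) + 1 = 2 * C + 1 + 1 + 1 by ring, sum_range_succ, sum_range_succ, mul_add,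
      mul_add, ih, pow_succ (-1 : ℤ) (2 * C + 1), pow_succ (-1 : ℤ) (2 * C), pow_mul]
    push_cast
    ring

lemma value (j : ℕ) : 6 * S (U 3) 2 (12 * j + 2) =
    3 * ((12 * j + 2) * (12 * j + 2 + 1) - 10 * j * (12 * j + 2) + 50 * j ^ 2 + 20 * j) -
      (2 * j + 1) * (3 * (6 * j + 1) ^ 2 - 3 * (6 * j + 1) - 12 * (6 * j + 1) * j + 16 * j ^ 2 +
        10 * j) := by
  rw [← outer (12 * j + 2) (6 * j + 1) j, S_U3, show (12 * j + 2) / 6 = 2 * j by omega,
    show (6 : ℤ) = 3 * 2 by norm_num, mul_assoc, mul_sum]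
  congr 1
  refine sum_congr rfl fun z hz => ?_
  rw [mem_range] at hz
  rw [inner _ _ (by omega)]
  obtain ⟨w, hw⟩ : ∃ w, 2 * j = z + w := ⟨2 * j - z, by omega⟩
  have e1 : 12 * j + 2 - 5 * z = z + 2 * (3 * w + 1) := by omega
  have e2 : (12 * j + 2 - 6 * z) / 2 = 3 * w + 1 := by omega
  have e3 : z + 2 * (3 * w + 1) - (3 * w + 1) = 2 * (j + w) + 1 := by omega
  have e4 : (z : ℤ) = 2 * j - w := by omega
  rw [e1, e2, e3, pow_add, pow_mul, pow_succ (-1 : ℤ) (2 * (j + w)), pow_mul, neg_one_sq, one_pow,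
    one_pow]
  push_cast
  rw [e4]
  ring

theorem main (N : ℕ) : ∃ n, N ≤ n ∧ (-1) ^ n * S (U 3) 2 n < 0 := by
  refine ⟨12 * (N + 3) + 2, by omega, ?_⟩
  have h := value (N + 3)
  rw [show 12 * (N + 3) + 2 = 2 * (6 * (N + 3) + 1) by ring, pow_mul] at *
  push_cast at h
  have : (0 : ℤ) ≤ N := Nat.cast_nonneg N
  norm_num
  nlinarith [pow_nonneg this 2, pow_nonneg this 3]

end Pool.Agent.H60.Fact
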