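import Mathlib

namespace Pool.Agent.H60.Fk

/-- `F k`: integers `m` that are the largest of at most `k` (and at least one) distinct positive integers
whose factorials have a square product. -/
def F (k : ℕ) : Set ℕ := {m | ∃ s : Finset ℕ, 1 ≤ s.card ∧ s.card ≤ k ∧ m ∈ s ∧
  (∀ a ∈ s, 0 < a ∧ a ≤ m) ∧ IsSquare (∏ a ∈ s, Nat.factorial a)}

end Pool.Agent.H60.Fk
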