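import Mathlib

namespace Pool.Agent.H60.PAry

/-- The series `1 / (1 - x^a) = ∑_j x^{a j}`. -/
noncomputable def geom (a : ℕ) : PowerSeries ℕ := PowerSeries.mk fun j => if a ∣ j then 1 else 0

/-- `S p m k n` is the coefficient of `x^n` in `(1 - x)^{-m} ∏_{i ≥ 0} (1 - x^{p^i})^{-k}`
(the factors with `i > n` do not affect this coefficient when `p ≥ 2`). -/
noncomputable def S (p m k n : ℕ) : ℕ :=
  PowerSeries.coeff n (geom 1 ^ m * (∏ i ∈ Finset.range (n + 1), geom (p ^ i)) ^ k)

end Pool.Agent.H60.PAry
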