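import Mathlib
import Pool.Agent.H60.ColPart
import Pool.Agent.H60.PAryDefs

namespace Pool.Agent.H60.PAry

open PowerSeries Finset
open Pool.Agent.H60.ColPart (G one_sub_mul_G)

variable {R : Type*} [CommRing R]

/-- The infinite product of the series `1 / (1 - x^{p^i})`. -/
noncomputable def B (R : Type*) [CommRing R] (p : ℕ) : R⟦X⟧ :=
  PowerSeries.mk fun n => coeff n (∏ i ∈ range (n + 1), G R (p ^ i))

lemma coeff_eq_of_dvd {f g : R⟦X⟧} {n : ℕ} (h : X ^ (n + 1) ∣ f - g) : coeff n f = coeff n g := by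
  have := X_pow_dvd_iff.1 h n (Nat.lt_succ_self n)
  rwa [map_sub, sub_eq_zero] at this

lemma prod_stable (p : ℕ) (hp : 2 ≤ p) (n N : ℕ) (h : n ≤ N) :
    (X : R⟦X⟧) ^ n ∣ ∏ i ∈ range N, G R (p ^ i) - ∏ i ∈ range n, G R (p ^ i) := by
  induction N, h using Nat.le_induction with
  | base => simp
  | succ N hN ih =>
    have h1 := one_sub_mul_G (R := R) (p ^ N) (by positivity)
    have h2 : n ≤ p ^ N := hN.trans (Nat.lt_pow_self (by omega)).le
    have e : ∏ i ∈ range (N + 1), G R (p ^ i) - ∏ i ∈ range n, G R (p ^ i) =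
        (∏ i ∈ range N, G R (p ^ i) - ∏ i ∈ range n, G R (p ^ i)) +
          X ^ p ^ N * (G R (p ^ N) * ∏ i ∈ range N, G R (p ^ i)) := by
      rw [prod_range_succ]
      linear_combination (∏ i ∈ range N, G R (p ^ i)) * h1
    rw [e]
    exact dvd_add ih ((pow_dvd_pow _ h2).mul_right _)

lemma B_congr (p : ℕ) (hp : 2 ≤ p) (n N : ℕ) (h : n ≤ N) :
    (X : R⟦X⟧) ^ n ∣ B R p - ∏ i ∈ range N, G R (p ^ i) := by
  rw [X_pow_dvd_iff]
  intro m hm
  rw [map_sub, B, coeff_mk, sub_eq_zero]
  exact (coeff_eq_of_dvd (prod_stable p hp (m + 1) N (by omega))).symm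

lemma expand_G (p : ℕ) (hp : p ≠ 0) (a : ℕ) : expand p hp (G R a) = G R (p * a) := by
  ext n
  rw [coeff_expand]
  simp only [G, coeff_mk]
  by_cases h : p ∣ n
  · obtain ⟨m, rfl⟩ := h
    simp [Nat.mul_div_cancel_left _ (Nat.pos_of_ne_zero hp), Nat.mul_dvd_mul_iff_left
      (Nat.pos_of_ne_zero hp)]
  · rw [if_neg h, if_neg fun h' => h (dvd_of_mul_right_dvd h')]

lemma B_eq (p : ℕ) (hp : 2 ≤ p) (hp0 : p ≠ 0) : B R p = G R 1 * expand p hp0 (B R p) := by
  ext n
  refine coeff_eq_of_dvd ?_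
  have h1 := B_congr (R := R) p hp (n + 1) (n + 2) (by omega)
  have h2 := B_congr (R := R) p hp (n + 1) (n + 1) le_rfl
  have h3 : (X : R⟦X⟧) ^ (n + 1) ∣
      expand p hp0 (B R p) - expand p hp0 (∏ i ∈ range (n + 1), G R (p ^ i)) := by
    rw [← map_sub]
    refine dvd_trans ?_ (map_dvd _ h2)
    rw [map_pow, expand_X, ← pow_mul]
    exact pow_dvd_pow _ (Nat.le_mul_of_pos_left _ (by omega))
  have e : ∏ i ∈ range (n + 2), G R (p ^ i) =
      G R 1 * expand p hp0 (∏ i ∈ range (n + 1), G R (p ^ i)) := by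
    rw [prod_range_succ', map_prod, mul_comm, pow_zero]
    congr 1
    refine prod_congr rfl fun i _ => ?_
    rw [expand_G, pow_succ']
  have := dvd_sub h1 (h3.mul_left (G R 1))
  rw [e] at this
  convert this using 1
  ring

lemma map_geom (a : ℕ) : PowerSeries.map (Nat.castRingHom R) (geom a) = G R a := by
  ext n
  simp [geom, G]

lemma S_cast (p : ℕ) (hp : 2 ≤ p) (m k n : ℕ) :
    (S p m k n : R) = coeff n (G R 1 ^ m * B R p ^ k) := by
  have : (S p m k n : R) = coeff n (G R 1 ^ m * (∏ i ∈ range (n + 1), G R (p ^ i)) ^ k) := by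
    have h := coeff_map (Nat.castRingHom R) n
      (geom 1 ^ m * (∏ i ∈ range (n + 1), geom (p ^ i)) ^ k)
    simp only [map_mul, map_pow, map_prod, map_geom] at h
    rw [h]
    rfl
  rw [this]
  refine (coeff_eq_of_dvd ?_).symm
  rw [← mul_sub]
  exact ((B_congr p hp (n + 1) (n + 1) le_rfl).trans (sub_dvd_pow_sub_pow _ _ k)).mul_left _

lemma constantCoeff_G (a : ℕ) : constantCoeff (G R a) = 1 := by
  simp [G]

lemma constantCoeff_B (p : ℕ) : constantCoeff (B R p) = 1 := by
  rw [← coeff_zero_eq_constantCoeff_apply, B, coeff_mk]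
  simp [G]

lemma S_zero (p m k : ℕ) : S p m k 0 = 1 := by
  simp [S, geom]

/-! ### Sections -/

lemma coeff_mul_expand (p : ℕ) (hp : p ≠ 0) (d : ℕ) (hd : d < p) (Q H : R⟦X⟧) (n : ℕ) :
    coeff (p * n + d) (Q * expand p hp H) =
      coeff n (PowerSeries.mk (fun i => coeff (p * i + d) Q) * H) := by
  rw [coeff_mul, coeff_mul]
  symm
  refine sum_bij_ne_zero (fun x _ _ => (p * x.1 + d, p * x.2)) ?_ ?_ ?_ ?_
  · intro x hx _
    rw [HasAntidiagonal.mem_antidiagonal] at hx ⊢
    rw [← hx]; ring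
  · intro x _ _ y _ _ h
    simp only [Prod.mk.injEq, add_left_inj, mul_right_inj' hp] at h
    exact Prod.ext h.1 h.2
  · intro x hx hne
    rw [HasAntidiagonal.mem_antidiagonal] at hx
    have h1 : p ∣ x.2 := by
      by_contra h
      rw [coeff_expand_of_not_dvd _ _ _ h, mul_zero] at hne
      exact hne rfl
    obtain ⟨j, hj⟩ := h1
    have h2 : j ≤ n := by
      by_contra h
      have : p * (n + 1) ≤ p * j := Nat.mul_le_mul_left _ (by omega)
      rw [mul_add] at this
      omega
    obtain ⟨i, rfl⟩ := Nat.exists_eq_add_of_le' h2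
    have h3 : x.1 = p * i + d := by rw [mul_add] at hx; omega
    refine ⟨(i, j), HasAntidiagonal.mem_antidiagonal.2 rfl, ?_, Prod.ext h3.symm hj.symm⟩
    rw [h3, hj, coeff_expand_mul] at hne
    simpa using hne
  · intro x _ _
    simp [coeff_expand_mul]

/-! ### List arithmetic -/

/-- The polynomial with the given list of coefficients. -/
noncomputable def ofL (R : Type*) [CommRing R] : List ℕ → R⟦X⟧
  | [] => 0
  | a :: l => (a : R⟦X⟧) + X * ofL R l

def addL : List ℕ → List ℕ → List ℕ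
  | [], l => l
  | a :: l, [] => a :: l
  | a :: l, b :: m => (a + b) :: addL l m

def mulL : List ℕ → List ℕ → List ℕ
  | [], _ => []
  | a :: l, c => addL (c.map (a * ·)) (0 :: mulL l c)

def eqL (M : ℕ) : List ℕ → List ℕ → Bool
  | [], l => l.all fun b => Nat.beq (b % M) 0
  | a :: l, [] => Nat.beq (a % M) 0 && eqL M l []
  | a :: l, b :: m => Nat.beq (a % M) (b % M) && eqL M l m

def powL (M : ℕ) (c : List ℕ) : ℕ → List ℕ
  | 0 => [1]
  | k + 1 => (mulL c (powL M c k)).map (· % M)

def beqL : List ℕ → List ℕ → Bool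
  | [], [] => true
  | a :: l, b :: m => Nat.beq a b && beqL l m
  | _, _ => false

def memL (x : List ℕ) : List (List ℕ) → Bool
  | [] => false
  | y :: l => beqL x y || memL x l

/-- prefix sums modulo `M`. -/
def pref (M : ℕ) : ℕ → List ℕ → List ℕ
  | _, [] => []
  | s, a :: l => ((s + a) % M) :: pref M ((s + a) % M) l

def iter (f : List ℕ → List ℕ) : ℕ → List ℕ → List ℕ
  | 0, l => l
  | k + 1, l => iter f k (f l)

def sec (p d L : ℕ) (Q : List ℕ) : List ℕ := (List.range L).map fun i => Q.getD (p * i + d) 0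

lemma ofL_addL (l m : List ℕ) : ofL R (addL l m) = ofL R l + ofL R m := by
  induction l generalizing m with
  | nil => simp [addL, ofL]
  | cons a l ih =>
    cases m with
    | nil => simp [addL, ofL]
    | cons b m => simp only [addL, ofL, ih]; push_cast; ring

lemma ofL_map_mul (a : ℕ) (c : List ℕ) : ofL R (c.map (a * ·)) = a * ofL R c := by
  induction c with
  | nil => simp [ofL]
  | cons b c ih => simp only [List.map_cons, ofL, ih]; push_cast; ring

lemma ofL_mulL (l c : List ℕ) : ofL R (mulL l c) = ofL R l * ofL R c := by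
  induction l with
  | nil => simp [mulL, ofL]
  | cons a l ih => simp only [mulL, ofL_addL, ofL_map_mul, ofL, ih]; push_cast; ring

lemma cast_mod (M : ℕ) (hM : (M : R) = 0) (a : ℕ) : ((a % M : ℕ) : R⟦X⟧) = a := by
  have h : (M : R⟦X⟧) = 0 := by rw [← map_natCast (C (R := R)), hM, map_zero]
  conv_rhs => rw [← Nat.mod_add_div a M]
  push_cast
  rw [h]; ring

lemma ofL_map_mod (M : ℕ) (hM : (M : R) = 0) (c : List ℕ) : ofL R (c.map (· % M)) = ofL R c := by
  induction c with
  | nil => rfl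
  | cons b c ih => simp only [List.map_cons, ofL, ih, cast_mod M hM]

lemma ofL_powL (M : ℕ) (hM : (M : R) = 0) (c : List ℕ) (k : ℕ) :
    ofL R (powL M c k) = ofL R c ^ k := by
  induction k with
  | zero => simp [powL, ofL]
  | succ k ih => rw [powL, ofL_map_mod M hM, ofL_mulL, ih, pow_succ']

lemma ofL_eqL (M : ℕ) (hM : (M : R) = 0) (l m : List ℕ) (h : eqL M l m = true) :
    ofL R l = ofL R m := by
  induction l generalizing m with
  | nil =>
    induction m with
    | nil => rfl
    | cons b m ih =>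
      simp only [eqL, List.all_cons, Bool.and_eq_true, Nat.beq_eq] at h ih
      have h2 := ih h.2
      show (0 : R⟦X⟧) = (b : R⟦X⟧) + X * ofL R m
      rw [← h2, ← cast_mod M hM b, h.1]
      simp [ofL]
  | cons a l ih =>
    cases m with
    | nil =>
      simp only [eqL, Bool.and_eq_true, Nat.beq_eq] at h
      have h2 := ih [] h.2
      show (a : R⟦X⟧) + X * ofL R l = 0
      rw [h2, ← cast_mod M hM a, h.1]
      simp [ofL]
    | cons b m =>
      simp only [eqL, Bool.and_eq_true, Nat.beq_eq] at h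
      have h2 := ih m h.2
      show (a : R⟦X⟧) + X * ofL R l = (b : R⟦X⟧) + X * ofL R m
      rw [h2, ← cast_mod M hM a, h.1, cast_mod M hM]

lemma beqL_eq (l m : List ℕ) (h : beqL l m = true) : l = m := by
  induction l generalizing m with
  | nil => cases m <;> simp_all [beqL]
  | cons a l ih =>
    cases m with
    | nil => simp [beqL] at h
    | cons b m =>
      simp only [beqL, Bool.and_eq_true, Nat.beq_eq] at h
      rw [h.1, ih m h.2]

lemma memL_mem (x : List ℕ) (S : List (List ℕ)) (h : memL x S = true) : x ∈ S := by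
  induction S with
  | nil => simp [memL] at h
  | cons y S ih =>
    simp only [memL, Bool.or_eq_true] at h
    rcases h with h | h
    · rw [beqL_eq _ _ h]; exact List.mem_cons_self
    · exact List.mem_cons_of_mem _ (ih h)

lemma coeff_ofL (l : List ℕ) (n : ℕ) : coeff n (ofL R l) = (l.getD n 0 : R) := by
  induction l generalizing n with
  | nil => simp [ofL]
  | cons a l ih =>
    cases n with
    | zero => simp [ofL]
    | succ n =>
      rw [ofL, map_add, coeff_succ_X_mul, ih, ← map_natCast (C (R := R)), coeff_C]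
      simp

lemma ofL_sec (p d L : ℕ) (Q : List ℕ) (hQ : Q.length ≤ p * L) :
    ofL R (sec p d L Q) = PowerSeries.mk (fun i => coeff (p * i + d) (ofL R Q)) := by
  ext i
  rw [coeff_mk, coeff_ofL, coeff_ofL]
  congr 1
  by_cases h : i < L
  · simp [sec, List.getD_eq_getElem?_getD, h]
  · have : p * L ≤ p * i := Nat.mul_le_mul_left _ (by omega)
    rw [List.getD_eq_default _ _ (by simp [sec]; omega), List.getD_eq_default _ _ (by omega)]

lemma ofL_replicate (j : ℕ) (l : List ℕ) : ofL R (List.replicate j 0 ++ l) = X ^ j * ofL R l := by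
  induction j with
  | zero => simp
  | succ j ih => simp only [List.replicate_succ, List.cons_append, ofL, ih]; push_cast; ring

/-- list of `1 - x^a` modulo `M`. -/
def oneSub (M a : ℕ) : List ℕ := 1 :: (List.replicate (a - 1) 0 ++ [M - 1])

lemma ofL_oneSub (M : ℕ) (hM : (M : R) = 0) (hM1 : 1 ≤ M) (a : ℕ) (ha : 1 ≤ a) :
    ofL R (oneSub M a) = 1 - X ^ a := by
  have h : (M : R⟦X⟧) = 0 := by rw [← map_natCast (C (R := R)), hM, map_zero]
  obtain ⟨a, rfl⟩ : ∃ b, a = b + 1 := ⟨a - 1, by omega⟩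
  simp only [oneSub, ofL, ofL_replicate, Nat.add_sub_cancel]
  rw [Nat.cast_sub hM1, h]
  push_cast
  ring

def checkState (p M e L : ℕ) (c1 c2 : List ℕ) (ok : ℕ → Bool) (St : List (List ℕ))
    (P : List ℕ) : Bool :=
  let t := mulL P c2
  let Q := (iter (pref M 0) e ((t ++ List.replicate (p * L) 0).take (p * L))).take (p * L)
  eqL M (mulL c1 Q) t && (List.range p).all fun d =>
    memL (sec p d L Q) St && (Nat.beq d 0 || ok ((sec p d L Q).getD 0 0))

def check (p k M a L : ℕ) (ok : ℕ → Bool) (St : List (List ℕ)) : Bool :=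
  St.all (checkState p M (a + k) L (powL M (oneSub M 1) (a + k)) (powL M (oneSub M p) a) ok St)

theorem auto (p k M a L : ℕ) (hp : 2 ≤ p) (hM : (M : R) = 0) (hM1 : 1 ≤ M) (ok : ℕ → Bool)
    (St : List (List ℕ)) (h : check p k M a L ok St = true) (n : ℕ) (hn : 1 ≤ n) :
    ∀ P ∈ St, ∃ r, ok r = true ∧ coeff n (ofL R P * (G R 1 ^ a * B R p ^ k)) = (r : R) := by
  induction n using Nat.strong_induction_on with
  | _ n ih =>
    intro P hP
    have hp0 : p ≠ 0 := by omega
    have h1 := List.all_eq_true.1 h P hP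
    simp only [checkState, Bool.and_eq_true, List.all_eq_true, List.mem_range, Bool.or_eq_true,
      Nat.beq_eq] at h1
    set Q := (iter (pref M 0) (a + k) ((mulL P (powL M (oneSub M p) a) ++
      List.replicate (p * L) 0).take (p * L))).take (p * L) with hQ
    obtain ⟨h2, h3⟩ := h1
    have h4 := ofL_eqL M hM _ _ h2
    rw [ofL_mulL, ofL_mulL, ofL_powL M hM, ofL_powL M hM, ofL_oneSub M hM hM1 1 le_rfl,
      ofL_oneSub M hM hM1 p (by omega)] at h4
    have g1 := congrArg (· ^ (a + k)) (one_sub_mul_G (R := R) 1 one_pos)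
    have g2 := congrArg (· ^ a) (one_sub_mul_G (R := R) p (by omega))
    simp only [mul_pow, one_pow] at g1 g2
    have h5 : ofL R P * (G R 1 ^ a * B R p ^ k) =
        ofL R Q * expand p hp0 (G R 1 ^ a * B R p ^ k) := by
      nth_rewrite 1 [B_eq p hp hp0]
      rw [map_mul, map_pow, map_pow, expand_G, mul_one, mul_pow]
      generalize expand p hp0 (B R p) ^ k = E
      rw [pow_add] at g1 h4
      rw [pow_add (G R 1)] at g1
      linear_combination (-(E * G R p ^ a * ofL R Q)) * g1 + (E * G R p ^ a * G R 1 ^ a *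
        G R 1 ^ k) * h4.symm - (ofL R P * E * G R 1 ^ a * G R 1 ^ k) * g2 +
        (2 * (ofL R Q * E * G R p ^ a)) * g1
    have hd : n % p < p := Nat.mod_lt _ (by omega)
    rw [h5, ← Nat.div_add_mod n p, coeff_mul_expand p hp0 _ hd,
      ← ofL_sec p (n % p) L Q (by rw [hQ]; exact List.length_take_le _ _)]
    obtain ⟨h6, h7⟩ := h3 _ hd
    rcases Nat.eq_zero_or_pos (n / p) with h8 | h8
    · have h9 : n % p ≠ 0 := by
        have := Nat.div_add_mod n p
        rw [h8] at this
        omega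
      refine ⟨_, h7.resolve_left h9, ?_⟩
      rw [h8, coeff_zero_eq_constantCoeff_apply, map_mul, map_mul, map_pow, map_pow,
        constantCoeff_G, constantCoeff_B, ← coeff_zero_eq_constantCoeff_apply, coeff_ofL]
      simp
    · exact ih _ (Nat.div_lt_self (by omega) hp) h8 _ (memL_mem _ _ h6)

theorem auto_S (p m k M b L : ℕ) (hp : 2 ≤ p) (hM1 : 1 ≤ M) (ok : ℕ → Bool)
    (St : List (List ℕ)) (h : check p k M (m + b) L ok St = true)
    (h0 : St.any (fun P => eqL M P (powL M (oneSub M 1) b)) = true) (n : ℕ) (hn : 1 ≤ n) :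
    ∃ r, ok r = true ∧ S p m k n % M = r % M := by
  obtain ⟨P, hP, hP'⟩ := List.any_eq_true.1 h0
  have hM : (M : ZMod M) = 0 := ZMod.natCast_self M
  obtain ⟨r, h1, h2⟩ := auto p k M (m + b) L hp hM hM1 ok St h n hn P hP
  refine ⟨r, h1, (ZMod.natCast_eq_natCast_iff' _ _ _).1 ?_⟩
  rw [S_cast p hp, ← h2, ofL_eqL M hM _ _ hP', ofL_powL M hM, ofL_oneSub M hM hM1 1 le_rfl]
  congr 1
  have g1 := congrArg (· ^ b) (one_sub_mul_G (R := ZMod M) 1 one_pos)
  simp only [mul_pow, one_pow] at g1
  rw [pow_add]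
  linear_combination (-(G (ZMod M) 1 ^ m * B (ZMod M) p ^ k)) * g1

end Pool.Agent.H60.PAry
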