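import Mathlib
import Pool.Agent.H60.PAry

namespace Pool.Agent.H60.PAry

open PowerSeries Finset
open Pool.Agent.H60.ColPart (G one_sub_mul_G)

/-- the generating function of `S_{4,1}`. -/
noncomputable def F4 (R : Type*) [CommRing R] : R⟦X⟧ := G R 1 * B R 4 ^ 3

lemma S4_cast (R : Type*) [CommRing R] (t n : ℕ) : (S 4 t (3 * t) n : R) = coeff n (F4 R ^ t) := by
  rw [S_cast 4 (by norm_num), F4, mul_pow, ← pow_mul]

lemma F4_eq (R : Type*) [CommRing R] :
    F4 R = G R 1 ^ 4 * (1 - X ^ 4) * expand 4 (by norm_num) (F4 R) := by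
  have h := one_sub_mul_G (R := R) 4 (by norm_num)
  rw [F4]
  nth_rewrite 1 [B_eq 4 (by norm_num) (by norm_num)]
  rw [map_mul, map_pow, expand_G]
  linear_combination (-(G R 1 ^ 4 * expand 4 (by norm_num) (B R 4) ^ 3)) * h

lemma constantCoeff_F4 (R : Type*) [CommRing R] : constantCoeff (F4 R) = 1 := by
  simp [F4, constantCoeff_G, constantCoeff_B]

/-- the periodic sequence `0, 2, 1, 2, 0, 2, 3, 2`. -/
def vv (n : ℕ) : ℕ := ([0, 2, 1, 2, 0, 2, 3, 2] : List ℕ).getD (n % 8) 0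

lemma vv_gf (R : Type*) [CommRing R] : (1 - X ^ 8) * PowerSeries.mk (fun n => (vv n : R)) =
    ofL R [0, 2, 1, 2, 0, 2, 3, 2] := by
  ext n
  rw [sub_mul, one_mul, map_sub, coeff_X_pow_mul', coeff_mk, coeff_mk, coeff_ofL]
  split_ifs with h
  · obtain ⟨m, rfl⟩ := Nat.exists_eq_add_of_le' h
    rw [List.getD_eq_default _ _ (by simp), Nat.add_sub_cancel, vv, vv, Nat.add_mod_right]
    simp
  · rw [vv, Nat.mod_eq_of_lt (by omega), sub_zero]

lemma w4_eq : (G (ZMod 32) 1 ^ 4 * (1 - X ^ 4)) ^ 4 =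
    1 + 8 * PowerSeries.mk (fun n => (vv n : ZMod 32)) := by
  have hM : ((32 : ℕ) : ZMod 32) = 0 := rfl
  have h1 := ofL_eqL (R := ZMod 32) 32 hM (mulL (powL 32 (oneSub 32 4) 4) (oneSub 32 8))
    (mulL (powL 32 (oneSub 32 1) 16) (addL (oneSub 32 8) (mulL [8] [0, 2, 1, 2, 0, 2, 3, 2])))
    (by decide +kernel)
  rw [ofL_mulL, ofL_mulL, ofL_addL, ofL_mulL, ofL_powL 32 hM, ofL_powL 32 hM,
    ofL_oneSub 32 hM (by norm_num) 4 (by norm_num), ofL_oneSub 32 hM (by norm_num) 8 (by norm_num),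
    ofL_oneSub 32 hM (by norm_num) 1 le_rfl, ← vv_gf] at h1
  have h8 : ofL (ZMod 32) [8] = 8 := by simp [ofL]
  rw [h8] at h1
  have g1 := congrArg (· ^ 16) (one_sub_mul_G (R := ZMod 32) 1 one_pos)
  have g8 := one_sub_mul_G (R := ZMod 32) 8 (by norm_num)
  simp only [mul_pow, one_pow] at g1
  generalize PowerSeries.mk (fun n => (vv n : ZMod 32)) = V at *
  generalize G (ZMod 32) 1 = g at *
  generalize G (ZMod 32) 8 = g' at *
  linear_combination (g ^ 16 * g') * h1 - (g ^ 16 * (1 - X ^ 4) ^ 4) * g8 +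
    ((1 + 8 * V) * (1 - X ^ 8) * g') * g1 + (1 + 8 * V) * g8

/-- the shape of the residue modulo `4`. -/
def Good (n : ℕ) (y : ℤ) : Prop :=
  (Even (padicValNat 2 n) → y % 4 = 2) ∧ (Odd (padicValNat 2 n) → y % 2 = 1)

lemma good_vv (n : ℕ) (h : ¬ 4 ∣ n) : Good n (vv n) := by
  have h0 : n ≠ 0 := by rintro rfl; simp at h
  have h8 := Nat.mod_lt n (show 0 < 8 by norm_num)
  by_cases h2 : 2 ∣ n
  · have hv : padicValNat 2 n = 1 := by
      have a : 1 ≤ padicValNat 2 n := (padicValNat_dvd_iff_le h0).1 (by simpa using h2)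
      have b : ¬ 2 ≤ padicValNat 2 n := fun hb => h ((padicValNat_dvd_iff_le h0).2 hb)
      omega
    refine ⟨fun he => by rw [hv] at he; exact absurd he (by decide), fun _ => ?_⟩
    have : n % 8 = 2 ∨ n % 8 = 6 := by omega
    rcases this with h | h <;> simp [vv, h]
  · rw [Good, padicValNat.eq_zero_of_not_dvd h2]
    refine ⟨fun _ => ?_, fun he => absurd he (by decide)⟩
    have : n % 8 = 1 ∨ n % 8 = 3 ∨ n % 8 = 5 ∨ n % 8 = 7 := by omega
    rcases this with h | h | h | h <;> simp [vv, h]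

lemma base32 (n : ℕ) (hn : 1 ≤ n) :
    ∃ y : ℤ, Good n y ∧ coeff n (F4 (ZMod 32) ^ 4) = 8 * (y : ZMod 32) := by
  induction n using Nat.strong_induction_on with
  | _ n ih =>
    have h1 : F4 (ZMod 32) ^ 4 = (1 + 8 * PowerSeries.mk (fun n => (vv n : ZMod 32))) *
        expand 4 (by norm_num) (F4 (ZMod 32) ^ 4) := by
      nth_rewrite 1 [F4_eq]
      rw [mul_pow, w4_eq, map_pow]
    set E := expand 4 (by norm_num) (F4 (ZMod 32) ^ 4) with hE
    have hE0 : coeff 0 E = 1 := by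
      rw [hE, coeff_zero_eq_constantCoeff_apply, constantCoeff_expand, map_pow, constantCoeff_F4,
        one_pow]
    have hE1 : ∀ j, 1 ≤ j → j ≤ n → 8 * coeff j E = 0 := fun j h1 h2 => by
      by_cases h4 : 4 ∣ j
      · obtain ⟨i, rfl⟩ := h4
        obtain ⟨y, -, hy⟩ := ih i (by omega) (by omega)
        rw [hE, coeff_expand_mul, hy, ← mul_assoc]
        exact mul_eq_zero_of_left (by decide) _
      · rw [hE, coeff_expand_of_not_dvd _ _ _ h4, mul_zero]
    have h2 : coeff n (F4 (ZMod 32) ^ 4) = coeff n E + 8 * (vv n : ZMod 32) := by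
      have h8 : (8 : (ZMod 32)⟦X⟧) = C (8 : ZMod 32) := rfl
      rw [h1, add_mul, one_mul, map_add, mul_assoc, h8, coeff_C_mul, coeff_mul, mul_sum,
        sum_eq_single (n, 0)]
      · simp only [coeff_mk, hE0, mul_one]
      · rintro ⟨i, j⟩ hij hne
        rw [HasAntidiagonal.mem_antidiagonal] at hij
        have : 1 ≤ j := by
          rcases Nat.eq_zero_or_pos j with rfl | h
          · exact absurd (by simpa using hij) hne
          · exact h
        rw [mul_left_comm, hE1 j this (by simp only at hij; omega), mul_zero]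
      · intro h
        exact absurd (HasAntidiagonal.mem_antidiagonal.2 (by simp)) h
    by_cases h4 : 4 ∣ n
    · obtain ⟨i, rfl⟩ := h4
      obtain ⟨y, hy1, hy⟩ := ih i (by omega) (by omega)
      refine ⟨y, ?_, ?_⟩
      · have : padicValNat 2 (4 * i) = padicValNat 2 i + 2 := by
          rw [padicValNat.mul (by norm_num) (by omega), show 4 = 2 ^ 2 from rfl,
            padicValNat.prime_pow, add_comm]
        rw [Good, this]
        exact ⟨fun h => hy1.1 (by simpa [Nat.even_add] using h),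
          fun h => hy1.2 (by simpa [Nat.odd_add] using h)⟩
      · have : vv (4 * i) = 0 := by
          have : 4 * i % 8 = 0 ∨ 4 * i % 8 = 4 := by omega
          rcases this with h | h <;> simp [vv, h]
        rw [h2, hE, coeff_expand_mul, hy, this]
        simp
    · refine ⟨vv n, good_vv n h4, ?_⟩
      rw [h2, hE, coeff_expand_of_not_dvd _ _ _ h4]
      simp

/-- `F4 ^ t = 1 + 2 ^ e W` with `W` of the good shape. -/
def Shape (t e : ℕ) : Prop :=
  ∃ W : ℤ⟦X⟧, F4 ℤ ^ t = 1 + 2 ^ e * W ∧ ∀ n, 1 ≤ n → Good n (coeff n W)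

lemma Good.congr {n : ℕ} {y z : ℤ} (h : Good n y) (u k : ℤ) (hz : z = (2 * u + 1) * y + 4 * k) :
    Good n z := by
  refine ⟨fun he => ?_, fun he => ?_⟩
  · have := h.1 he
    obtain ⟨c, rfl⟩ : ∃ c, y = 4 * c + 2 := ⟨y / 4, by omega⟩
    have : z = 4 * ((2 * u + 1) * c + u + k) + 2 := by rw [hz]; ring
    omega
  · have := h.2 he
    obtain ⟨c, rfl⟩ : ∃ c, y = 2 * c + 1 := ⟨y / 2, by omega⟩
    have : z = 2 * ((2 * u + 1) * c + u + 2 * k) + 1 := by rw [hz]; ring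
    omega

lemma shape_four : Shape 4 3 := by
  have key : ∀ n, 1 ≤ n → ∃ y : ℤ, Good n y ∧ coeff n (F4 ℤ ^ 4) = 8 * y := fun n hn => by
    obtain ⟨y, h1, h2⟩ := base32 n hn
    rw [← S4_cast] at h2
    rw [← S4_cast]
    have h3 : ((S 4 4 (3 * 4) n : ℤ) : ZMod 32) = ((8 * y : ℤ) : ZMod 32) := by
      push_cast; exact h2
    obtain ⟨k, hk⟩ := (ZMod.intCast_eq_intCast_iff_dvd_sub _ _ 32).1 h3
    exact ⟨y - 4 * k, h1.congr 0 (-k) (by ring), by push_cast at hk; linarith⟩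
  refine ⟨PowerSeries.mk fun n => if n = 0 then 0 else coeff n (F4 ℤ ^ 4) / 8, ?_, fun n hn => ?_⟩
  · ext n
    have h8 : (2 ^ 3 : ℤ⟦X⟧) = C (8 : ℤ) := by norm_num
    rw [h8, map_add, coeff_C_mul, coeff_mk, coeff_one]
    split_ifs with h
    · subst h
      simp [constantCoeff_F4]
    · obtain ⟨y, -, hy⟩ := key n (by omega)
      rw [hy, Int.mul_ediv_cancel_left _ (by norm_num), zero_add]
  · obtain ⟨y, h1, hy⟩ := key n hn
    rwa [coeff_mk, if_neg (by omega), hy, Int.mul_ediv_cancel_left _ (by norm_num)]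

lemma coeff_nat_mul (k : ℕ) (Z : ℤ⟦X⟧) (n : ℕ) : coeff n ((k : ℤ⟦X⟧) * Z) = k * coeff n Z := by
  rw [← map_natCast (C (R := ℤ)), coeff_C_mul]

lemma Shape.double {t e : ℕ} (h : Shape t (e + 3)) : Shape (2 * t) (e + 4) := by
  obtain ⟨W, h1, h2⟩ := h
  refine ⟨W + (4 : ℕ) * (2 ^ e * W ^ 2), ?_, fun n hn => ?_⟩
  · rw [mul_comm 2 t, pow_mul, h1]; push_cast; ring
  · exact (h2 n hn).congr 0 (coeff n (2 ^ e * W ^ 2)) (by rw [map_add, coeff_nat_mul]; push_cast; ring)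

lemma Shape.odd {t e : ℕ} (h : Shape t (e + 3)) (m : ℕ) : Shape ((2 * m + 1) * t) (e + 3) := by
  obtain ⟨W, h1, h2⟩ := h
  have key : ∀ j : ℕ, ∃ Z : ℤ⟦X⟧, (1 + 2 ^ (e + 3) * W) ^ j =
      1 + 2 ^ (e + 3) * (j * W + (4 : ℕ) * Z) := fun j => by
    induction j with
    | zero => exact ⟨0, by simp⟩
    | succ j ih =>
      obtain ⟨Z, hZ⟩ := ih
      refine ⟨Z + 2 ^ (e + 1) * W * (j * W + 4 * Z), ?_⟩
      rw [pow_succ, hZ]; push_cast; ring
  obtain ⟨Z, hZ⟩ := key (2 * m + 1)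
  refine ⟨_, by rw [mul_comm, pow_mul, h1, hZ], fun n hn => ?_⟩
  exact (h2 n hn).congr m (coeff n Z) (by rw [map_add, coeff_nat_mul, coeff_nat_mul]; push_cast; ring)

lemma shape_pow (s : ℕ) : Shape (2 ^ (s + 2)) (s + 3) := by
  induction s with
  | zero => exact shape_four
  | succ s ih => rw [pow_succ']; exact ih.double

theorem val_S4 (s m n : ℕ) (hn : 1 ≤ n) :
    padicValNat 2 (S 4 ((2 * m + 1) * 2 ^ (s + 2)) (3 * ((2 * m + 1) * 2 ^ (s + 2))) n) =
      s + 3 + padicValNat 2 (2 * n) % 2 := by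
  obtain ⟨W, h1, h2⟩ := (shape_pow s).odd m
  have h3 := S4_cast ℤ ((2 * m + 1) * 2 ^ (s + 2)) n
  have h4 : (2 ^ (s + 3) : ℤ⟦X⟧) = ((2 ^ (s + 3) : ℕ) : ℤ⟦X⟧) := by push_cast; rfl
  rw [h1, map_add, coeff_one, if_neg (by omega), zero_add, h4, coeff_nat_mul] at h3
  generalize S 4 ((2 * m + 1) * 2 ^ (s + 2)) (3 * ((2 * m + 1) * 2 ^ (s + 2))) n = N at h3
  have h5 := h2 n hn
  generalize coeff n W = y at h3 h5
  have hy : 0 ≤ y := by
    have : (0 : ℤ) < ((2 ^ (s + 3) : ℕ) : ℤ) := by positivity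
    exact (mul_nonneg_iff_of_pos_left this).1 (h3 ▸ Int.natCast_nonneg N)
  obtain ⟨y, rfl⟩ := Int.eq_ofNat_of_zero_le hy
  obtain rfl : N = 2 ^ (s + 3) * y := by exact_mod_cast h3
  rw [padicValNat.mul (by norm_num) (by omega : n ≠ 0), padicValNat_self]
  rcases Nat.even_or_odd (padicValNat 2 n) with he | he
  · have h6 := h5.1 he
    obtain ⟨c, rfl⟩ : ∃ c, y = 2 * (2 * c + 1) := ⟨y / 4, by omega⟩
    rw [← mul_assoc, ← pow_succ, padicValNat.mul (by positivity) (by omega), padicValNat.prime_pow,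
      padicValNat.eq_zero_of_not_dvd (by omega)]
    obtain ⟨k, hk⟩ := he
    omega
  · have h6 := h5.2 he
    rw [padicValNat.mul (by positivity) (by omega), padicValNat.prime_pow,
      padicValNat.eq_zero_of_not_dvd (by omega)]
    obtain ⟨k, hk⟩ := he
    omega

end Pool.Agent.H60.PAry
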