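import Mathlib

set_option autoImplicit false

namespace Pool.Agent.H60.HR

/-- The subgraph of `G` induced on `S` is `a`-regular (recursive definition; the empty graph is
`d`-regular only for `d = 0`). -/
def RegOn {V : Type} (G : SimpleGraph V) : Set V → List ℕ → Prop
  | _, [] => True
  | S, d :: l => (S.Nonempty ∨ d = 0) ∧
      ∀ v ∈ S, (S ∩ G.neighborSet v).ncard = d ∧ RegOn G (S ∩ G.neighborSet v) l

/-- `G` is `a`-regular. -/
def Reg {V : Type} (G : SimpleGraph V) (a : List ℕ) : Prop := RegOn G Set.univ a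

/-- `G` is `a`-connected regular: the sphere of every clique of size `< a.length` is connected. -/
def ConnReg {V : Type} (G : SimpleGraph V) (a : List ℕ) : Prop :=
  Reg G a ∧ ∀ C : Finset V, G.IsClique (C : Set V) → C.card < a.length →
    (G.induce {x | x ∉ C ∧ ∀ c ∈ C, G.Adj c x}).Connected

/-- Number of edges joining `S` to its complement. -/
noncomputable def bdry {V : Type} (G : SimpleGraph V) (S : Set V) : ℕ :=
  {p : V × V | p.1 ∈ S ∧ p.2 ∉ S ∧ G.Adj p.1 p.2}.ncard

/-- Cheeger constant at least `ε`. -/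
def CheegerGe {V : Type} (G : SimpleGraph V) (ε : ℝ) : Prop :=
  ∀ S : Set V, S.Nonempty → S ≠ Set.univ → ε * (min S.ncard Sᶜ.ncard : ℕ) ≤ bdry G S

/-- Some finite graph has property `P`. -/
def One (P : ∀ {V : Type}, SimpleGraph V → Prop) : Prop :=
  ∃ (V : Type) (_ : Finite V) (G : SimpleGraph V), P G

/-- Infinitely many pairwise non-isomorphic finite graphs have property `P`. -/
def Many (P : ∀ {V : Type}, SimpleGraph V → Prop) : Prop :=
  ∃ (V : ℕ → Type) (_ : ∀ i, Finite (V i)) (G : ∀ i, SimpleGraph (V i)),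
    (∀ i j, i ≠ j → IsEmpty (G i ≃g G j)) ∧ ∀ i, P (G i)

def HR (n : ℕ) : Set (List ℕ) := {a | a.length = n ∧ One fun G => G.Connected ∧ Reg G a}
def HRinf (n : ℕ) : Set (List ℕ) := {a | a.length = n ∧ Many fun G => G.Connected ∧ Reg G a}
def HRexp (n : ℕ) : Set (List ℕ) :=
  {a | a.length = n ∧ ∃ ε : ℝ, 0 < ε ∧ Many fun G => Reg G a ∧ CheegerGe G ε}
def HRC (n : ℕ) : Set (List ℕ) := {a | a.length = n ∧ One fun G => ConnReg G a}
def HRCinf (n : ℕ) : Set (List ℕ) := {a | a.length = n ∧ Many fun G => ConnReg G a}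
def HRCexp (n : ℕ) : Set (List ℕ) :=
  {a | a.length = n ∧ ∃ ε : ℝ, 0 < ε ∧ Many fun G => ConnReg G a ∧ CheegerGe G ε}

end Pool.Agent.H60.HR
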