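import Pool.Agent.H60.HRDefs

set_option autoImplicit false

namespace Pool.Agent.H60.HR

open SimpleGraph

def dl : ℕ → ℕ → List ℕ
  | _, 0 => []
  | k, j + 1 => k :: dl (k - 1) j

theorem dl_length (k j : ℕ) : (dl k j).length = j := by
  induction j generalizing k with
  | zero => rfl
  | succ j ih => simp [dl, ih]

theorem top_reg {V : Type} [Finite V] (j k : ℕ) (S : Set V) (hS : S.ncard = k + 1) (hj : j ≤ k + 1) :
    RegOn (⊤ : SimpleGraph V) S (dl k j) := by
  induction j generalizing k S with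
  | zero => trivial
  | succ j ih =>
    refine ⟨Or.inl (Set.nonempty_of_ncard_ne_zero (by omega)), fun v hv => ?_⟩
    have e : S ∩ (⊤ : SimpleGraph V).neighborSet v = S \ {v} := by
      ext x; simp [eq_comm]
    have hc : (S \ {v}).ncard = k := by
      rw [Set.ncard_diff_singleton_of_mem hv]; omega
    rw [e]
    refine ⟨hc, ?_⟩
    cases j with
    | zero => trivial
    | succ j => exact ih (k - 1) _ (by omega) (by omega)

theorem top_connReg (n : ℕ) : ConnReg (⊤ : SimpleGraph (Fin (n + 1))) (dl n n) := by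
  refine ⟨top_reg n n _ (by simp [Set.ncard_univ]) (by omega), fun C _ hC => ?_⟩
  rw [dl_length] at hC
  obtain ⟨x, hx⟩ : ∃ x, x ∉ C := by
    by_contra h
    push Not at h
    have : C = Finset.univ := Finset.eq_univ_iff_forall.mpr h
    rw [this] at hC; simp at hC
  have : Nonempty {x : Fin (n + 1) | x ∉ C ∧ ∀ c ∈ C, (⊤ : SimpleGraph (Fin (n + 1))).Adj c x} :=
    ⟨⟨x, hx, fun c hc h => hx (h ▸ hc)⟩⟩
  refine ⟨fun u v => ?_⟩
  by_cases h : u = v
  · rw [h]
  · exact Adj.reachable (fun h' => h (Subtype.ext h'))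

theorem ConnReg.conn {V : Type} {G : SimpleGraph V} {a : List ℕ} (h : ConnReg G a)
    (ha : 0 < a.length) : G.Connected := by
  have := h.2 ∅ (by simp) (by simpa using ha)
  have e : {x : V | x ∉ (∅ : Finset V) ∧ ∀ c ∈ (∅ : Finset V), G.Adj c x} = Set.univ := by simp
  rw [e] at this
  exact (induceUnivIso G).connected_iff.mp this

theorem eq_top_of_reg {V : Type} [Finite V] {G : SimpleGraph V} (hc : G.Connected) (k : ℕ)
    (l : List ℕ) (h : Reg G ((k + 1) :: k :: l)) : G = ⊤ ∧ Nat.card V = k + 2 := by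
  have tr : ∀ a b c, G.Adj a b → G.Adj a c → b ≠ c → G.Adj b c := by
    intro a b c hab hac hbc
    obtain ⟨h1, -, h2⟩ := h.2 a trivial
    obtain ⟨h3, -⟩ := h2 b ⟨trivial, hab⟩
    have hs : Set.univ ∩ G.neighborSet a ∩ G.neighborSet b ⊆ (Set.univ ∩ G.neighborSet a) \ {b} :=
      fun x hx => ⟨hx.1, fun h' => G.irrefl (h' ▸ hx.2 : G.Adj b b)⟩
    have := Set.eq_of_subset_of_ncard_le hs (by
      rw [Set.ncard_diff_singleton_of_mem (show b ∈ Set.univ ∩ G.neighborSet a from ⟨trivial, hab⟩)]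
      omega)
    have hm : c ∈ (Set.univ ∩ G.neighborSet a) \ {b} := ⟨⟨trivial, hac⟩, fun h' => hbc h'.symm⟩
    rw [← this] at hm
    exact hm.2
  have top : ∀ x y, x ≠ y → G.Adj x y := by
    intro x y hxy
    have hr := (reachable_iff_reflTransGen x y).mp (hc x y)
    have : x = y ∨ G.Adj x y := by
      clear hxy
      induction hr with
      | refl => exact Or.inl rfl
      | @tail b c _ hbc ih =>
        rcases ih with rfl | h'
        · exact Or.inr hbc
        · by_cases hxc : x = c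
          · exact Or.inl hxc
          · exact Or.inr (tr b x c h'.symm hbc hxc)
    exact this.resolve_left hxy
  refine ⟨by ext x y; exact ⟨fun h => h.ne, top x y⟩, ?_⟩
  obtain ⟨v⟩ := hc.nonempty
  obtain ⟨h1, -⟩ := h.2 v trivial
  have e : Set.univ ∩ G.neighborSet v = Set.univ \ {v} := by
    ext x
    simp only [Set.mem_inter_iff, Set.mem_univ, true_and, mem_neighborSet, Set.mem_diff,
      Set.mem_singleton_iff]
    exact ⟨fun h h' => h.ne h'.symm, fun h => top v x (fun h' => h h'.symm)⟩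
  rw [e, Set.ncard_diff_singleton_of_mem (Set.mem_univ v), Set.ncard_univ] at h1
  omega

theorem not_many_top (k : ℕ) (l : List ℕ) :
    ¬ Many fun G => G.Connected ∧ Reg G ((k + 1) :: k :: l) := by
  rintro ⟨V, hV, G, h1, h2⟩
  obtain ⟨a1, a2⟩ := eq_top_of_reg (h2 0).1 k l (h2 0).2
  obtain ⟨b1, b2⟩ := eq_top_of_reg (h2 1).1 k l (h2 1).2
  obtain ⟨e⟩ := Finite.card_eq.mp (a2.trans b2.symm)
  refine (h1 0 1 (by norm_num)).false ?_
  rw [a1, b1]
  exact Iso.completeGraph e

theorem indep_reg {V : Type} (G : SimpleGraph V) (j : ℕ) (S : Set V)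
    (hS : ∀ v ∈ S, S ∩ G.neighborSet v = ∅) : RegOn G S (List.replicate j 0) := by
  induction j generalizing S with
  | zero => trivial
  | succ j ih =>
    refine ⟨Or.inr rfl, fun v hv => ?_⟩
    rw [hS v hv]
    exact ⟨by simp, ih ∅ (by simp)⟩

theorem bip_reg {V : Type} [Nonempty V] (G : SimpleGraph (V × Bool)) (d j : ℕ)
    (hb : ∀ x y, G.Adj x y → x.2 ≠ y.2) (hd : ∀ v, (G.neighborSet v).ncard = d) :
    Reg G (d :: List.replicate j 0) := by
  refine ⟨Or.inl Set.univ_nonempty, fun v _ => ⟨by rw [Set.univ_inter]; exact hd v, ?_⟩⟩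
  apply indep_reg
  intro u hu
  ext w
  simp only [Set.mem_inter_iff, Set.mem_univ, true_and, mem_neighborSet, Set.mem_empty_iff_false,
    iff_false, not_and] at hu ⊢
  intro h1 h2
  have t1 := hb _ _ hu; have t2 := hb _ _ h1; have t3 := hb _ _ h2
  revert t1 t2 t3
  cases v.2 <;> cases u.2 <;> cases w.2 <;> simp

theorem not_connReg {V : Type} [Finite V] (G : SimpleGraph V) (d : ℕ) (l : List ℕ) :
    ¬ ConnReg G ((d + 2) :: 0 :: l) := by
  rintro ⟨h, hc⟩
  obtain ⟨v, -⟩ := h.1.resolve_right (by omega)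
  obtain ⟨h1, -, h2⟩ := h.2 v trivial
  obtain ⟨a, ha, b, hb, hab⟩ := (Set.one_lt_ncard (Set.toFinite _)).mp (by rw [h1]; omega)
  have hcon := hc {v} (by simp) (by simp)
  have ma : a ∈ {x | x ∉ ({v} : Finset V) ∧ ∀ c ∈ ({v} : Finset V), G.Adj c x} := by
    simpa using ⟨fun h' => G.irrefl (h' ▸ ha.2 : G.Adj v v), ha.2⟩
  have mb : b ∈ {x | x ∉ ({v} : Finset V) ∧ ∀ c ∈ ({v} : Finset V), G.Adj c x} := by
    simpa using ⟨fun h' => G.irrefl (h' ▸ hb.2 : G.Adj v v), hb.2⟩
  obtain ⟨w⟩ := hcon ⟨a, ma⟩ ⟨b, mb⟩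
  have hne : (⟨a, ma⟩ : {x | x ∉ ({v} : Finset V) ∧ ∀ c ∈ ({v} : Finset V), G.Adj c x}) ≠ ⟨b, mb⟩ :=
    fun h' => hab (congrArg Subtype.val h')
  obtain ⟨c, hac, -, -⟩ := Walk.exists_eq_cons_of_ne hne w
  obtain ⟨h3, -⟩ := h2 a ha
  have h4 := (Set.ncard_eq_zero (Set.toFinite _)).mp h3
  have : c.1 ∈ Set.univ ∩ G.neighborSet v ∩ G.neighborSet a :=
    ⟨⟨trivial, c.2.2 v (by simp)⟩, hac⟩
  rw [h4] at this
  exact this

def cyc (k : ℕ) : SimpleGraph (ZMod (k + 2) × Bool) where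
  Adj x y := (x.2 = false ∧ y.2 = true ∧ (y.1 = x.1 ∨ y.1 = x.1 + 1)) ∨
    (x.2 = true ∧ y.2 = false ∧ (x.1 = y.1 ∨ x.1 = y.1 + 1))
  symm := ⟨fun x y h => by tauto⟩
  loopless := ⟨fun x h => by rcases h with ⟨h1, h2, _⟩ | ⟨h1, h2, _⟩ <;> simp [h1] at h2⟩

theorem cyc_conn (k : ℕ) : (cyc k).Connected := by
  have h0 : ∀ j : ℕ, (cyc k).Reachable (0, false) ((j : ZMod (k + 2)), false) := by
    intro j
    induction j with
    | zero => simp
    | succ j ih =>
      have a1 : (cyc k).Adj ((j : ZMod (k + 2)), false) ((j : ZMod (k + 2)) + 1, true) :=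
        Or.inl ⟨rfl, rfl, Or.inr rfl⟩
      have a2 : (cyc k).Adj ((j : ZMod (k + 2)) + 1, true) ((j : ZMod (k + 2)) + 1, false) :=
        Or.inr ⟨rfl, rfl, Or.inl rfl⟩
      push_cast
      exact (ih.trans a1.reachable).trans a2.reachable
  have h1 : ∀ x, (cyc k).Reachable (0, false) x := by
    rintro ⟨u, b⟩
    have := h0 u.val
    rw [ZMod.natCast_zmod_val] at this
    cases b
    · exact this
    · exact this.trans (Adj.reachable (Or.inl ⟨rfl, rfl, Or.inl rfl⟩))
  exact ⟨fun x y => (h1 x).symm.trans (h1 y)⟩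

theorem cyc_reg (k j : ℕ) : Reg (cyc k) (2 :: List.replicate j 0) := by
  haveI : Fact (1 < k + 2) := ⟨by omega⟩
  apply bip_reg
  · rintro x y (⟨h1, h2, _⟩ | ⟨h1, h2, _⟩) <;> simp [h1, h2]
  · rintro ⟨u, b⟩
    cases b
    · have : (cyc k).neighborSet (u, false) = {(u, true), (u + 1, true)} := by
        ext ⟨w, c⟩; cases c <;> simp [cyc]
      rw [this, Set.ncard_pair (by simp)]
    · have : (cyc k).neighborSet (u, true) = {(u, false), (u - 1, false)} := by
        ext ⟨w, c⟩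
        cases c
        · simp only [cyc, mem_neighborSet, Set.mem_insert_iff, Set.mem_singleton_iff, Prod.mk.injEq,
            and_true, true_and, Bool.true_eq_false, false_and, false_or, eq_sub_iff_add_eq]
          constructor
          · rintro (h | h)
            · exact Or.inl h.symm
            · exact Or.inr h.symm
          · rintro (h | h)
            · exact Or.inl h.symm
            · exact Or.inr h.symm
        · simp [cyc]
      rw [this, Set.ncard_pair (by simp [eq_sub_iff_add_eq])]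

theorem cyc_many (j : ℕ) : Many fun G => G.Connected ∧ Reg G (2 :: List.replicate j 0) := by
  refine ⟨fun k => ZMod (k + 2) × Bool, inferInstance, cyc, fun i j hij => ⟨fun e => hij ?_⟩,
    fun k => ⟨cyc_conn k, cyc_reg k j⟩⟩
  have := Nat.card_congr e.toEquiv
  simp at this
  omega

theorem Many.unbounded {P : ∀ {V : Type}, SimpleGraph V → Prop} (h : Many P) (N : ℕ) :
    ∃ (V : Type) (_ : Finite V) (G : SimpleGraph V), P G ∧ N ≤ Nat.card V := by
  obtain ⟨V, hV, G, h1, h2⟩ := h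
  by_contra hc
  push Not at hc
  have hlt : ∀ i, Nat.card (V i) < N := fun i => hc _ (hV i) (G i) (h2 i)
  obtain ⟨m, hm⟩ := Finite.exists_infinite_fiber (fun i => (⟨Nat.card (V i), hlt i⟩ : Fin N))
  have hcard : ∀ i : (fun i => (⟨Nat.card (V i), hlt i⟩ : Fin N)) ⁻¹' {m},
      Nat.card (V i.1) = m.val := fun i => congrArg Fin.val i.2
  obtain ⟨i, j, hij, he⟩ := Finite.exists_ne_map_eq_of_infinite
    (fun i : (fun i => (⟨Nat.card (V i), hlt i⟩ : Fin N)) ⁻¹' {m} =>
      (G i.1).comap (Finite.equivFinOfCardEq (hcard i)).symm)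
  refine (h1 i.1 j.1 (fun h => hij (Subtype.ext h))).false ?_
  have e1 := Iso.comap (Finite.equivFinOfCardEq (hcard i)).symm (G i.1)
  have e2 := Iso.comap (Finite.equivFinOfCardEq (hcard j)).symm (G j.1)
  refine e1.symm.trans ?_
  rw [he]
  exact e2

theorem small_bdry {V : Type} [Finite V] (G : SimpleGraph V)
    (hd : ∀ v, (G.neighborSet v).ncard = 2) (s : ℕ) (hs : s ≤ Nat.card V) :
    ∃ S : Set V, S.ncard = s ∧ bdry G S ≤ 2 := by
  induction s with
  | zero => exact ⟨∅, by simp, by simp [bdry]⟩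
  | succ s ih =>
    obtain ⟨S, h1, h2⟩ := ih (by omega)
    by_cases hb : ∃ y x, y ∈ S ∧ x ∉ S ∧ G.Adj y x
    · obtain ⟨y, x, hy, hx, hxy⟩ := hb
      refine ⟨insert x S, by rw [Set.ncard_insert_of_notMem hx, h1], ?_⟩
      have hsub : {p : V × V | p.1 ∈ insert x S ∧ p.2 ∉ insert x S ∧ G.Adj p.1 p.2} ⊆
          ({p : V × V | p.1 ∈ S ∧ p.2 ∉ S ∧ G.Adj p.1 p.2} \ {(y, x)}) ∪
            (fun z => (x, z)) '' (G.neighborSet x \ {y}) := by
        rintro ⟨a, b⟩ ⟨ha, hb, hab⟩
        simp only [Set.mem_insert_iff, not_or] at ha hb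
        rcases ha with rfl | ha
        · exact Or.inr ⟨b, ⟨hab, fun h => hb.2 (h ▸ hy)⟩, rfl⟩
        · exact Or.inl ⟨⟨ha, hb.2, hab⟩, fun h => hb.1 (congrArg Prod.snd h)⟩
      have c1 := (Set.ncard_le_ncard hsub).trans (Set.ncard_union_le _ _)
      have c2 := Set.ncard_image_le (f := fun z => (x, z)) (s := G.neighborSet x \ {y})
      have m1 : (y, x) ∈ {p : V × V | p.1 ∈ S ∧ p.2 ∉ S ∧ G.Adj p.1 p.2} := ⟨hy, hx, hxy⟩
      rw [Set.ncard_diff_singleton_of_mem m1] at c1
      rw [Set.ncard_diff_singleton_of_mem (show y ∈ G.neighborSet x from hxy.symm), hd] at c2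
      unfold bdry at h2 ⊢
      omega
    · obtain ⟨x, hx⟩ : ∃ x, x ∉ S := by
        by_contra h
        push Not at h
        have : S = Set.univ := Set.eq_univ_of_forall h
        rw [this, Set.ncard_univ] at h1
        omega
      refine ⟨insert x S, by rw [Set.ncard_insert_of_notMem hx, h1], ?_⟩
      have hsub : {p : V × V | p.1 ∈ insert x S ∧ p.2 ∉ insert x S ∧ G.Adj p.1 p.2} ⊆
            (fun z => (x, z)) '' (G.neighborSet x) := by
        rintro ⟨a, b⟩ ⟨ha, hb', hab⟩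
        simp only [Set.mem_insert_iff, not_or] at ha hb'
        rcases ha with rfl | ha
        · exact ⟨b, hab, rfl⟩
        · exact absurd ⟨a, b, ha, hb'.2, hab⟩ hb
      have c1 := (Set.ncard_le_ncard hsub).trans (Set.ncard_image_le)
      rw [hd] at c1
      exact c1

theorem not_exp_two (l : List ℕ) (ε : ℝ) (hε : 0 < ε) :
    ¬ Many fun G => Reg G (2 :: l) ∧ CheegerGe G ε := by
  intro h
  obtain ⟨s, hs⟩ := exists_nat_gt (2 / ε)
  obtain ⟨V, hV, G, ⟨h1, h2⟩, h3⟩ := h.unbounded (2 * s + 2)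
  have hd : ∀ v, (G.neighborSet v).ncard = 2 := fun v => by
    have := (h1.2 v trivial).1; rwa [Set.univ_inter] at this
  obtain ⟨S, c1, c2⟩ := small_bdry G hd (s + 1) (by omega)
  have c3 := Set.ncard_add_ncard_compl S
  have c4 := h2 S (Set.nonempty_of_ncard_ne_zero (by omega)) (by
    rintro rfl; rw [Set.ncard_univ] at c1; omega)
  rw [min_eq_left (by omega), c1] at c4
  have c5 : (bdry G S : ℝ) ≤ 2 := by exact_mod_cast c2
  rw [div_lt_iff₀ hε] at hs
  push_cast at c4
  nlinarith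

end Pool.Agent.H60.HR
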