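import Pool.Agent.H60.HRa
import Pool.Agent.H32.RigidExp

set_option autoImplicit false

namespace Pool.Agent.H60.HR

open SimpleGraph Filter

section base
open Pool.Agent.H32.RigidExp Classical

theorem base_exp : ∃ (V : ℕ → Type) (_ : ∀ n, Fintype (V n)) (Γ : ∀ n, SimpleGraph (V n)),
    (∀ n, Nonempty (V n) ∧ ∀ v, ((Γ n).neighborSet v).ncard = 79) ∧
    Tendsto (fun n => Nat.card (V n)) atTop atTop ∧
    (∀ n (S : Set (V n)), 2 * S.ncard ≤ Nat.card (V n) → S.ncard ≤ 32160 * bdry (Γ n) S) := by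
  choose τ hτ using fun n => Pool.Agent.H86.Roe.exists_exp (n + 3) (by omega)
  have hτ' : ∀ n, @Pool.Agent.H86.Roe.Exp _ _ (fun a b => propDecidable (a = b)) (τ n) :=
    fun n => by
      have := hτ n
      rwa [Subsingleton.elim (instDecidableEqFin _) fun a b => propDecidable (a = b)] at this
  refine ⟨fun n => Fin (n + 3) × C, inferInstance, fun n => G (τ n), fun n => ⟨inferInstance, ?_⟩,
    ?_, fun n S hS => ?_⟩
  · intro v
    have := reg (τ n) v
    rw [← SimpleGraph.card_neighborSet_eq_degree, ← Nat.card_eq_fintype_card] at this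
    exact this
  · refine tendsto_atTop_mono (fun n => ?_) tendsto_id
    simp; omega
  · have h := expand (τ n) (hτ' n) S.toFinset (by
      rw [← Set.ncard_eq_toFinset_card', ← Nat.card_eq_fintype_card]; exact hS)
    rw [← Set.ncard_eq_toFinset_card'] at h
    convert h using 2
    unfold bdry bd
    rw [← Set.ncard_coe_finset]
    congr 1
    ext p
    simp

end base

def dbl {V : Type} (G : SimpleGraph V) : SimpleGraph (V × Bool) where
  Adj x y := x.2 ≠ y.2 ∧ (x.1 = y.1 ∨ G.Adj x.1 y.1)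
  symm := ⟨fun x y h => ⟨h.1.symm, h.2.imp Eq.symm Adj.symm⟩⟩
  loopless := ⟨fun x h => h.1 rfl⟩

theorem dbl_deg {V : Type} [Finite V] (G : SimpleGraph V) (d : ℕ)
    (hd : ∀ v, (G.neighborSet v).ncard = d) (x : V × Bool) :
    ((dbl G).neighborSet x).ncard = d + 1 := by
  have : (dbl G).neighborSet x = (fun u => (u, !x.2)) '' (insert x.1 (G.neighborSet x.1)) := by
    obtain ⟨u, b⟩ := x
    ext ⟨w, c⟩
    simp only [dbl, mem_neighborSet, Set.mem_image, Set.mem_insert_iff, Prod.mk.injEq]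
    constructor
    · rintro ⟨h1, h2⟩
      refine ⟨w, h2.imp Eq.symm id, rfl, ?_⟩
      revert h1; cases b <;> cases c <;> simp
    · rintro ⟨z, h1, rfl, rfl⟩
      exact ⟨by cases b <;> simp, h1.imp Eq.symm id⟩
  rw [this, Set.ncard_image_of_injective _ (fun a b h => congrArg Prod.fst h),
    Set.ncard_insert_of_notMem (by simp), hd]

theorem bdry_compl {V : Type} (G : SimpleGraph V) (S : Set V) : bdry G Sᶜ = bdry G S := by
  unfold bdry
  rw [← Set.ncard_image_of_injective _ Prod.swap_injective]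
  congr 1
  ext ⟨a, b⟩
  simp only [Set.mem_image, Set.mem_setOf_eq, Set.mem_compl_iff, not_not, Prod.exists,
    Prod.swap_prod_mk, Prod.mk.injEq]
  constructor
  · rintro ⟨x, y, ⟨h1, h2, h3⟩, rfl, rfl⟩; exact ⟨h2, h1, h3.symm⟩
  · rintro ⟨h1, h2, h3⟩; exact ⟨b, a, ⟨h2, h1, h3.symm⟩, rfl, rfl⟩

theorem dbl_small {V : Type} [Finite V] (G : SimpleGraph V)
    (hd : ∀ v, (G.neighborSet v).ncard = 79)
    (he : ∀ S : Set V, 2 * S.ncard ≤ Nat.card V → S.ncard ≤ 32160 * bdry G S)
    (T : Set (V × Bool)) (hT : T.ncard ≤ Tᶜ.ncard) : T.ncard ≤ 6000000 * bdry (dbl G) T := by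
  classical
  let A : Bool → Set V := fun c => {u | (u, c) ∈ T}
  have h1 : ∀ c, (A c \ A (!c)).ncard ≤ bdry (dbl G) T := by
    intro c
    unfold bdry
    refine Set.ncard_le_ncard_of_injOn (fun u => ((u, c), (u, !c))) ?_ ?_
    · rintro u ⟨a, b⟩
      exact ⟨a, b, by cases c <;> simp, Or.inl rfl⟩
    · intro a _ b _ h; exact congrArg (fun p => p.1.1) h
  have h2 : ∀ c, bdry G (A c) ≤ bdry (dbl G) T + (A (!c) \ A c).ncard * 79 := by
    intro c
    have hs : {p : V × V | p.1 ∈ A c ∧ p.2 ∉ A c ∧ G.Adj p.1 p.2} ⊆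
        {p : V × V | p.1 ∈ A c ∧ p.2 ∉ A (!c) ∧ G.Adj p.1 p.2} ∪
        {p : V × V | p.2 ∈ A (!c) \ A c ∧ G.Adj p.1 p.2} := by
      rintro ⟨a, b⟩ ⟨x1, x2, x3⟩
      by_cases hb : b ∈ A (!c)
      · exact Or.inr ⟨⟨hb, x2⟩, x3⟩
      · exact Or.inl ⟨x1, hb, x3⟩
    have c1 := (Set.ncard_le_ncard hs).trans (Set.ncard_union_le _ _)
    have c2 : {p : V × V | p.1 ∈ A c ∧ p.2 ∉ A (!c) ∧ G.Adj p.1 p.2}.ncard ≤ bdry (dbl G) T := by
      unfold bdry
      refine Set.ncard_le_ncard_of_injOn (fun p => ((p.1, c), (p.2, !c))) ?_ ?_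
      · rintro p ⟨a, b, d⟩
        exact ⟨a, b, by cases c <;> simp, Or.inr d⟩
      · intro a _ b _ h
        exact Prod.ext (congrArg (fun p => p.1.1) h) (congrArg (fun p => p.2.1) h)
    have c3 : {p : V × V | p.2 ∈ A (!c) \ A c ∧ G.Adj p.1 p.2}.ncard ≤ (A (!c) \ A c).ncard * 79 := by
      haveI := Fintype.ofFinite V
      rw [Set.ncard_eq_toFinset_card', Set.ncard_eq_toFinset_card']
      rw [mul_comm]
      apply Finset.card_le_mul_card_image_of_maps_to (f := Prod.snd)
      · intro p hp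
        simp only [Set.mem_toFinset, Set.mem_setOf_eq] at hp ⊢
        exact hp.1
      · intro b _
        rw [← hd b, ← Set.ncard_coe_finset]
        refine Set.ncard_le_ncard_of_injOn Prod.fst ?_ ?_
        · intro p hp
          simp only [Finset.coe_filter, Set.mem_toFinset, Set.mem_setOf_eq] at hp
          rw [← hp.2]; exact hp.1.2.symm
        · intro p hp q hq h
          simp only [Finset.coe_filter, Set.mem_toFinset, Set.mem_setOf_eq] at hp hq
          exact Prod.ext h (hp.2.trans hq.2.symm)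
    unfold bdry at c2 ⊢
    omega
  have h3 : T.ncard = (A false).ncard + (A true).ncard := by
    have : T = (fun u => (u, false)) '' A false ∪ (fun u => (u, true)) '' A true := by
      ext ⟨u, c⟩; cases c <;> simp [A]
    rw [this, Set.ncard_union_eq (by
      rw [Set.disjoint_left]; rintro _ ⟨a, _, rfl⟩ ⟨b, _, h⟩; simp at h),
      Set.ncard_image_of_injective _ (fun a b h => congrArg Prod.fst h),
      Set.ncard_image_of_injective _ (fun a b h => congrArg Prod.fst h)]
  have h4 := Set.ncard_add_ncard_compl T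
  rw [Nat.card_prod] at h4
  simp only [Nat.card_eq_fintype_card, Fintype.card_bool] at h4
  have h5 : ∀ c, (A (!c)).ncard ≤ (A c).ncard + (A (!c) \ A c).ncard := by
    intro c
    refine le_trans (Set.ncard_le_ncard ?_) (Set.ncard_union_le _ _)
    intro u hu
    by_cases h : u ∈ A c
    · exact Or.inl h
    · exact Or.inr ⟨hu, h⟩
  have a1 := h1 false
  have a2 := h1 true
  have b1 := h2 false
  have b2 := h2 true
  have d1 := h5 false
  have d2 := h5 true
  simp only [Bool.not_false, Bool.not_true] at a1 a2 b1 b2 d1 d2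
  rcases le_total (A false).ncard (A true).ncard with h | h
  · have := he (A false) (by omega); omega
  · have := he (A true) (by omega); omega

theorem exp_many (j : ℕ) : ∃ ε : ℝ, 0 < ε ∧
    Many fun G => Reg G (80 :: List.replicate j 0) ∧ CheegerGe G ε := by
  obtain ⟨V, hV, Γ, h1, h2, h3⟩ := base_exp
  obtain ⟨φ, -, hφ⟩ := strictMono_subseq_of_tendsto_atTop h2
  refine ⟨1 / 6000000, by norm_num, fun i => V (φ i) × Bool, inferInstance, fun i => dbl (Γ (φ i)),
    fun i k hik => ⟨fun e => hik ?_⟩, fun i => ⟨?_, fun S _ _ => ?_⟩⟩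
  · have := Nat.card_congr e.toEquiv
    rw [Nat.card_prod, Nat.card_prod] at this
    apply hφ.injective
    simp only [Nat.card_eq_fintype_card, Fintype.card_bool, Function.comp] at this ⊢
    omega
  · haveI := (h1 (φ i)).1
    exact bip_reg _ 80 j (fun x y h => h.1) (dbl_deg _ 79 (h1 (φ i)).2)
  · rcases le_total S.ncard Sᶜ.ncard with h | h
    · have := dbl_small _ (h1 (φ i)).2 (h3 (φ i)) S h
      rw [min_eq_left h]
      have : (S.ncard : ℝ) ≤ 6000000 * bdry (dbl (Γ (φ i))) S := by exact_mod_cast this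
      linarith
    · have := dbl_small _ (h1 (φ i)).2 (h3 (φ i)) Sᶜ (by rwa [compl_compl])
      rw [bdry_compl] at this
      rw [min_eq_right h]
      have : (Sᶜ.ncard : ℝ) ≤ 6000000 * bdry (dbl (Γ (φ i))) S := by exact_mod_cast this
      linarith

end Pool.Agent.H60.HR
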