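import Pool.Agent.H60.HRa

set_option autoImplicit false

namespace Pool.Agent.H60.HR

open SimpleGraph Finset

def D : Finset ℤ := {1, 3, 4, -1, -3, -4}

theorem D_bd : ∀ j ∈ D, -4 ≤ j ∧ j ≤ 4 ∧ j ≠ 0 ∧ -j ∈ D := by decide

theorem cast_inj (k : ℕ) (i j : ℤ) (h1 : -12 ≤ j - i) (h2 : j - i ≤ 12)
    (h : (i : ZMod (k + 13)) = j) : i = j := by
  have h3 := (ZMod.intCast_eq_intCast_iff_dvd_sub i j (k + 13)).mp h
  have h4 := Int.eq_zero_of_abs_lt_dvd h3 (by rw [abs_lt]; push_cast; omega)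
  omega

def tor (k : ℕ) : SimpleGraph (ZMod (k + 13)) where
  Adj x y := ∃ j ∈ D, y = x + (j : ZMod (k + 13))
  symm := ⟨fun x y ⟨j, hj, h⟩ => ⟨-j, (D_bd j hj).2.2.2, by rw [h]; push_cast; ring⟩⟩
  loopless := ⟨fun x ⟨j, hj, h⟩ => by
    obtain ⟨a, b, c, -⟩ := D_bd j hj
    exact c (cast_inj k j 0 (by omega) (by omega) (by simpa using h.symm))⟩

theorem tor_adj (k : ℕ) (x : ZMod (k + 13)) (i j : ℤ) (hi : i ∈ D) (hj : j ∈ D) :
    (tor k).Adj (x + i) (x + j) ↔ j - i ∈ D := by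
  obtain ⟨a, b, -, -⟩ := D_bd i hi
  obtain ⟨a', b', -, -⟩ := D_bd j hj
  constructor
  · rintro ⟨l, hl, h⟩
    obtain ⟨c, d, -, -⟩ := D_bd l hl
    have : j = i + l := cast_inj k j (i + l) (by omega) (by omega) (by
      push_cast; linear_combination h)
    rw [this]; simpa using hl
  · intro h
    exact ⟨j - i, h, by push_cast; ring⟩

theorem tor_injOn (k : ℕ) (x : ZMod (k + 13)) :
    Set.InjOn (fun j : ℤ => x + (j : ZMod (k + 13))) (D : Set ℤ) := by
  intro i hi j hj h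
  obtain ⟨a, b, -, -⟩ := D_bd i hi
  obtain ⟨a', b', -, -⟩ := D_bd j hj
  exact cast_inj k i j (by omega) (by omega) (add_left_cancel h)

theorem tor_nbr (k : ℕ) (x : ZMod (k + 13)) :
    (tor k).neighborSet x = (fun j : ℤ => x + (j : ZMod (k + 13))) '' (D : Set ℤ) := by
  ext y
  exact ⟨fun ⟨j, hj, h⟩ => ⟨j, hj, h.symm⟩, fun ⟨j, hj, h⟩ => ⟨j, hj, h.symm⟩⟩

theorem D_two : ∀ i ∈ D, (D.filter fun j => j - i ∈ D).card = 2 := by decide

theorem tor_reg (k : ℕ) : Reg (tor k) [6, 2] := by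
  refine ⟨Or.inl Set.univ_nonempty, fun v _ => ?_⟩
  rw [Set.univ_inter]
  refine ⟨?_, Or.inl ⟨v + ((1 : ℤ) : ZMod (k + 13)), 1, by decide, rfl⟩, ?_⟩
  · rw [tor_nbr, (tor_injOn k v).ncard_image, Set.ncard_coe_finset]; decide
  · rintro u ⟨i, hi, rfl⟩
    refine ⟨?_, trivial⟩
    have : (tor k).neighborSet v ∩ (tor k).neighborSet (v + (i : ZMod (k + 13))) =
        (fun j : ℤ => v + (j : ZMod (k + 13))) '' ((D.filter fun j => j - i ∈ D : Finset ℤ) : Set ℤ) := by
      ext y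
      constructor
      · rintro ⟨⟨j, hj, rfl⟩, h⟩
        exact ⟨j, by simpa using ⟨hj, (tor_adj k v i j hi hj).mp h⟩, rfl⟩
      · rintro ⟨j, hj, rfl⟩
        have hj' : j ∈ D ∧ j - i ∈ D := by simpa using hj
        exact ⟨⟨j, hj'.1, rfl⟩, (tor_adj k v i j hi hj'.1).mpr hj'.2⟩
    rw [this, ((tor_injOn k v).mono (by intro j hj; exact (Finset.mem_filter.mp hj).1)).ncard_image,
      Set.ncard_coe_finset, D_two i hi]

theorem tor_conn (k : ℕ) : (tor k).Connected := by
  have key : ∀ n : ℕ, (tor k).Reachable 0 (n : ZMod (k + 13)) := by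
    intro n
    induction n with
    | zero => simp
    | succ n ih => exact ih.trans (Adj.reachable ⟨1, by decide, by push_cast; ring⟩)
  have k2 : ∀ x, (tor k).Reachable 0 x := fun x => by
    obtain ⟨n, rfl⟩ := ZMod.natCast_zmod_surjective x
    exact key n
  exact ⟨fun x y => (k2 x).symm.trans (k2 y)⟩

theorem tor_connReg (k : ℕ) : ConnReg (tor k) [6, 2] := by
  refine ⟨tor_reg k, fun C _ hC => ?_⟩
  have hC' : C.card = 0 ∨ C.card = 1 := by simp at hC; omega
  rcases hC' with h | h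
  · rw [Finset.card_eq_zero] at h
    subst h
    have e : {x : ZMod (k + 13) | x ∉ (∅ : Finset _) ∧ ∀ c ∈ (∅ : Finset _), (tor k).Adj c x} =
      Set.univ := by simp
    rw [e]
    exact (induceUnivIso _).connected_iff.mpr (tor_conn k)
  · obtain ⟨v, rfl⟩ := Finset.card_eq_one.mp h
    have e : {x : ZMod (k + 13) | x ∉ ({v} : Finset _) ∧ ∀ c ∈ ({v} : Finset _), (tor k).Adj c x} =
        (tor k).neighborSet v := by
      ext x
      simp only [Finset.mem_singleton, forall_eq, Set.mem_setOf_eq, mem_neighborSet]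
      exact ⟨fun h => h.2, fun h => ⟨h.ne', h⟩⟩
    rw [e]
    let p : ∀ j ∈ D, (tor k).neighborSet v := fun j hj => ⟨v + j, j, hj, rfl⟩
    have st : ∀ i hi j hj, j - i ∈ D →
        ((tor k).induce ((tor k).neighborSet v)).Reachable (p i hi) (p j hj) :=
      fun i hi j hj h => Adj.reachable ((tor_adj k v i j hi hj).mpr h)
    have h1 : (1 : ℤ) ∈ D := by decide
    have r4 := st 1 h1 4 (by decide) (by decide)
    have r3 := r4.trans (st 4 (by decide) 3 (by decide) (by decide))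
    have r1 := r3.trans (st 3 (by decide) (-1) (by decide) (by decide))
    have s4 := r1.trans (st (-1) (by decide) (-4) (by decide) (by decide))
    have s3 := s4.trans (st (-4) (by decide) (-3) (by decide) (by decide))
    have all : ∀ y, ((tor k).induce ((tor k).neighborSet v)).Reachable (p 1 h1) y := by
      rintro ⟨y, j, hj, rfl⟩
      have : j = 1 ∨ j = 3 ∨ j = 4 ∨ j = -1 ∨ j = -3 ∨ j = -4 := by simpa [D] using hj
      rcases this with rfl | rfl | rfl | rfl | rfl | rfl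
      exacts [Reachable.refl _, r3, r4, r1, s3, s4]
    have : Nonempty ((tor k).neighborSet v) := ⟨p 1 h1⟩
    exact ⟨fun x y => (all x).symm.trans (all y)⟩

theorem tor_many : Many fun G => ConnReg G [6, 2] := by
  refine ⟨fun k => ZMod (k + 13), inferInstance, tor, fun i j hij => ⟨fun e => hij ?_⟩,
    tor_connReg⟩
  have := Nat.card_congr e.toEquiv
  simp at this
  omega

end Pool.Agent.H60.HR
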