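import Pool.Agent.H60.HRa

set_option autoImplicit false

namespace Pool.Agent.H60.HR

open SimpleGraph Finset

section
variable {V : Type} [Fintype V] [DecidableEq V] (G : SimpleGraph V) [DecidableRel G.Adj]

/-- closed neighbourhood of `y` in the link of `x` -/
def cl (x y : V) : Finset V := insert y (G.neighborFinset x ∩ G.neighborFinset y)

structure Loc : Prop where
  six : ∀ x, (G.neighborFinset x).card = 6
  two : ∀ x y, G.Adj x y → (G.neighborFinset x ∩ G.neighborFinset y).card = 2
  nt : ∀ x y z, G.Adj x y → G.Adj x z → cl G x y = cl G x z → y = z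

variable {G}

theorem loc_of (h : ConnReg G [6, 2]) : Loc G := by
  have six : ∀ x, (G.neighborFinset x).card = 6 := fun x => by
    have := (h.1.2 x trivial).1
    rw [Set.univ_inter, ← coe_neighborFinset, Set.ncard_coe_finset] at this
    exact this
  have two : ∀ x y, G.Adj x y → (G.neighborFinset x ∩ G.neighborFinset y).card = 2 :=
    fun x y hxy => by
    have := ((h.1.2 x trivial).2.2 y ⟨trivial, hxy⟩).1
    rw [Set.univ_inter, ← coe_neighborFinset G y, ← coe_neighborFinset G x, ← Finset.coe_inter,
      Set.ncard_coe_finset] at this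
    exact this
  refine ⟨six, two, fun x y z hy hz he => ?_⟩
  by_contra hne
  have closed : ∀ t ∈ cl G x y, ∀ u, G.Adj x u → G.Adj t u → u ∈ cl G x y := by
    intro t ht u hxu htu
    by_cases h1 : t = y
    · subst h1; simp [cl, hxu, htu]
    by_cases h2 : t = z
    · subst h2; rw [he]; simp [cl, hxu, htu]
    have a1 : G.Adj x t ∧ G.Adj y t := by simpa [cl, h1] using ht
    have a2 : G.Adj x t ∧ G.Adj z t := by rw [he] at ht; simpa [cl, h2] using ht
    have hs : ({y, z} : Finset V) ⊆ G.neighborFinset x ∩ G.neighborFinset t := by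
      intro w hw
      rcases Finset.mem_insert.mp hw with rfl | hw
      · simp [hy, a1.2.symm]
      · rw [Finset.mem_singleton.mp hw]; simp [hz, a2.2.symm]
    have := Finset.eq_of_subset_of_card_le hs (by rw [two x t a1.1, Finset.card_pair hne])
    have hu : u ∈ ({y, z} : Finset V) := by rw [this]; simp [hxu, htu]
    rcases Finset.mem_insert.mp hu with rfl | hu
    · simp [cl]
    · rw [Finset.mem_singleton.mp hu, he]; simp [cl]
  have hcon := h.2 {x} (by simp) (by simp)
  have walk : ∀ (a b : {w | w ∉ ({x} : Finset V) ∧ ∀ c ∈ ({x} : Finset V), G.Adj c w})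
      (_ : (G.induce _).Walk a b), a.1 ∈ cl G x y → b.1 ∈ cl G x y := by
    intro a b w
    induction w with
    | nil => exact id
    | @cons a c b hac w ih => exact fun ha => ih (closed _ ha _ (c.2.2 x (by simp)) hac)
  have sub : G.neighborFinset x ⊆ cl G x y := by
    intro u hu
    have hu' : G.Adj x u := by simpa using hu
    obtain ⟨w⟩ := hcon.preconnected ⟨y, by simp [hy, hy.ne']⟩ ⟨u, by simp [hu', hu'.ne']⟩
    exact walk _ _ w (by simp [cl])
  have c1 := Finset.card_le_card sub
  have c2 : (cl G x y).card ≤ 3 := (Finset.card_insert_le _ _).trans (by rw [two x y hy])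
  rw [six] at c1
  omega

theorem Loc.cl_card (h : Loc G) {x y : V} (hy : G.Adj x y) : (cl G x y).card = 3 := by
  rw [cl, Finset.card_insert_of_notMem (by simp), h.two x y hy]

theorem cl_sub {x y : V} (hy : G.Adj x y) : cl G x y ⊆ G.neighborFinset x := by
  intro u hu
  rcases Finset.mem_insert.mp hu with rfl | hu
  · simpa using hy
  · exact (Finset.mem_inter.mp hu).1

variable (G) (f : V → ℕ)

def up (x : V) : Finset V := (G.neighborFinset x).filter fun y => f y = f x + 1
def dn (x : V) : Finset V := (G.neighborFinset x).filter fun y => f y + 1 = f x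
def sph (r : ℕ) : Finset V := univ.filter fun x => f x = r
def cor (r : ℕ) : Finset V := (sph f r).filter fun x => (dn G f x).card = 1
def ee (r : ℕ) : ℕ := ∑ x ∈ sph f r, (up G f x).card

theorem ee_eq (r : ℕ) : ee G f r = ∑ z ∈ sph f (r + 1), (dn G f z).card := by
  have a : ∀ x ∈ sph f r, (up G f x).card = ∑ z ∈ sph f (r + 1), if G.Adj x z then 1 else 0 := by
    intro x hx
    have hx' : f x = r := by simpa [sph] using hx
    rw [← Finset.card_filter]
    congr 1; ext z; simp [up, sph, hx', and_comm]
  have b : ∀ z ∈ sph f (r + 1), (dn G f z).card = ∑ x ∈ sph f r, if G.Adj x z then 1 else 0 := by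
    intro z hz
    have hz' : f z = r + 1 := by simpa [sph] using hz
    rw [← Finset.card_filter]
    congr 1; ext x; simp [dn, sph, hz', and_comm, G.adj_comm]
  rw [ee, Finset.sum_congr rfl a, Finset.sum_congr rfl b, Finset.sum_comm]

variable {G f}

theorem up_disj (lip : ∀ x y, G.Adj x y → f y ≤ f x + 1) {x y : V} (hy : y ∈ dn G f x) :
    Disjoint (up G f x) (cl G x y) := by
  rw [Finset.disjoint_left]
  intro u hu hc
  have h1 : f u = f x + 1 := (Finset.mem_filter.mp hu).2
  have h2 : f y + 1 = f x := (Finset.mem_filter.mp hy).2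
  rcases Finset.mem_insert.mp hc with rfl | hc
  · omega
  · have := lip y u (by simpa using (Finset.mem_inter.mp hc).2)
    omega

theorem dn_adj {x y : V} (hy : y ∈ dn G f x) : G.Adj x y := by
  simpa using (Finset.mem_filter.mp hy).1

theorem up_le3 (h : Loc G) (lip : ∀ x y, G.Adj x y → f y ≤ f x + 1) {x y : V}
    (hy : y ∈ dn G f x) : (up G f x).card ≤ 3 := by
  have s : up G f x ∪ cl G x y ⊆ G.neighborFinset x :=
    Finset.union_subset (Finset.filter_subset _ _) (cl_sub (dn_adj hy))
  have := Finset.card_le_card s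
  rw [Finset.card_union_of_disjoint (up_disj lip hy), h.six, h.cl_card (dn_adj hy)] at this
  omega

theorem up_le2 (h : Loc G) (lip : ∀ x y, G.Adj x y → f y ≤ f x + 1) {x : V}
    (hx : 1 < (dn G f x).card) : (up G f x).card ≤ 2 := by
  obtain ⟨y, hy, z, hz, hne⟩ := Finset.one_lt_card.mp hx
  have s : up G f x ∪ (cl G x y ∪ cl G x z) ⊆ G.neighborFinset x :=
    Finset.union_subset (Finset.filter_subset _ _)
      (Finset.union_subset (cl_sub (dn_adj hy)) (cl_sub (dn_adj hz)))
  have := Finset.card_le_card s
  rw [Finset.card_union_of_disjoint (Finset.disjoint_union_right.mpr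
    ⟨up_disj lip hy, up_disj lip hz⟩), h.six] at this
  by_contra hc
  have c3 : (cl G x y ∪ cl G x z).card ≤ 3 := by omega
  have e1 := Finset.eq_of_subset_of_card_le (Finset.subset_union_left (s₂ := cl G x z))
    (c3.trans (h.cl_card (dn_adj hy)).ge)
  have e2 := Finset.eq_of_subset_of_card_le (Finset.subset_union_right (s₁ := cl G x y))
    (c3.trans (h.cl_card (dn_adj hz)).ge)
  exact hne (h.nt x y z (dn_adj hy) (dn_adj hz) (e1.trans e2.symm))

theorem cl_sub_up (lip : ∀ x y, G.Adj x y → f y ≤ f x + 1) {x z : V}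
    (hz : dn G f z = {x}) : cl G x z ⊆ up G f x := by
  have hx : x ∈ dn G f z := by rw [hz]; simp
  have h1 : f x + 1 = f z := (Finset.mem_filter.mp hx).2
  intro u hu
  refine Finset.mem_filter.mpr ⟨cl_sub (dn_adj hx).symm hu, ?_⟩
  rcases Finset.mem_insert.mp hu with rfl | hu
  · omega
  · have a1 : G.Adj x u := by simpa using (Finset.mem_inter.mp hu).1
    have a2 : G.Adj z u := by simpa using (Finset.mem_inter.mp hu).2
    have b1 := lip x u a1
    have b2 := lip u z a2.symm
    by_contra hc
    have : u ∈ dn G f z := Finset.mem_filter.mpr ⟨by simpa using a2, by omega⟩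
    rw [hz, Finset.mem_singleton] at this
    exact a1.ne' this

theorem cor_le (h : Loc G) (lip : ∀ x y, G.Adj x y → f y ≤ f x + 1)
    (dwn : ∀ x, 0 < f x → (dn G f x).Nonempty) (r : ℕ) :
    (cor G f (r + 2)).card ≤ (cor G f (r + 1)).card := by
  have ex : ∀ z : V, ∃ x : V, z ∈ cor G f (r + 2) → dn G f z = {x} := by
    intro z
    by_cases hz : z ∈ cor G f (r + 2)
    · obtain ⟨x, hx⟩ := Finset.card_eq_one.mp (Finset.mem_filter.mp hz).2
      exact ⟨x, fun _ => hx⟩
    · exact ⟨z, fun h => absurd h hz⟩
  choose g hg using ex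
  have fact : ∀ z ∈ cor G f (r + 2), G.Adj (g z) z ∧ f (g z) = r + 1 ∧ cl G (g z) z = up G f (g z) := by
    intro z hz
    have hx : g z ∈ dn G f z := by rw [hg z hz]; simp
    have h1 : f (g z) + 1 = f z := (Finset.mem_filter.mp hx).2
    have h2 : f z = r + 2 := by simpa [sph] using (Finset.mem_filter.mp hz).1
    obtain ⟨y, hy⟩ := dwn (g z) (by omega)
    exact ⟨(dn_adj hx).symm, by omega, Finset.eq_of_subset_of_card_le (cl_sub_up lip (hg z hz))
      ((up_le3 h lip hy).trans (h.cl_card (dn_adj hx).symm).ge)⟩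
  refine Finset.card_le_card_of_injOn g (fun z hz => ?_) (fun z hz w hw he => ?_)
  · obtain ⟨a, b, c⟩ := fact z hz
    refine Finset.mem_filter.mpr ⟨by simp [sph, b], ?_⟩
    have p1 := (dwn (g z) (by omega)).card_pos
    by_contra hc
    have := up_le2 h lip (x := g z) (by omega)
    rw [← c, h.cl_card a] at this
    omega
  · obtain ⟨a, -, c⟩ := fact z hz
    obtain ⟨a', -, c'⟩ := fact w hw
    rw [← he] at a' c'
    exact h.nt _ _ _ a a' (c.trans c'.symm)

theorem ee_le (h : Loc G) (lip : ∀ x y, G.Adj x y → f y ≤ f x + 1)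
    (dwn : ∀ x, 0 < f x → (dn G f x).Nonempty) (v : V) (h0 : ∀ x, f x = 0 → x = v) (r : ℕ) :
    ee G f r ≤ 12 * r + 6 := by
  have c6 : ∀ r, (cor G f (r + 1)).card ≤ 6 := by
    intro r
    induction r with
    | zero =>
      rw [← h.six v]
      refine Finset.card_le_card fun x hx => ?_
      have h2 : f x = 0 + 1 := by simpa [sph] using (Finset.mem_filter.mp hx).1
      obtain ⟨y, hy⟩ := dwn x (by omega)
      have h1 : f y + 1 = f x := (Finset.mem_filter.mp hy).2
      rw [← h0 y (by omega)]
      simpa using (dn_adj hy).symm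
    | succ r ih => exact (cor_le h lip dwn r).trans ih
  induction r with
  | zero =>
    have s : sph f 0 ⊆ {v} := fun x hx => by
      rw [Finset.mem_singleton]; exact h0 x (by simpa [sph] using hx)
    refine (Finset.sum_le_sum_of_subset s).trans ?_
    rw [Finset.sum_singleton]
    exact (Finset.card_filter_le _ _).trans (h.six v).le
  | succ r ih =>
    have k : ee G f (r + 1) ≤ ∑ x ∈ sph f (r + 1),
        ((dn G f x).card + 2 * if (dn G f x).card = 1 then 1 else 0) := by
      refine Finset.sum_le_sum fun x hx => ?_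
      have h2 : f x = r + 1 := by simpa [sph] using hx
      obtain ⟨y, hy⟩ := dwn x (by omega)
      have p1 := (dwn x (by omega)).card_pos
      split_ifs with hc
      · have := up_le3 h lip hy; omega
      · have := up_le2 h lip (x := x) (by omega); omega
    rw [Finset.sum_add_distrib, ← ee_eq, ← Finset.mul_sum, ← Finset.card_filter] at k
    have := c6 r
    unfold cor at this
    omega

def ball (f : V → ℕ) (r : ℕ) : Finset V := univ.filter fun x => f x ≤ r

theorem ball_succ (r : ℕ) : (ball f (r + 1)).card = (ball f r).card + (sph f (r + 1)).card := by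
  rw [← Finset.card_union_of_disjoint]
  · congr 1; ext x; simp [ball, sph]; omega
  · rw [Finset.disjoint_left]; intro x h1 h2; simp [ball, sph] at h1 h2; omega

theorem bdry_ball (lip : ∀ x y, G.Adj x y → f y ≤ f x + 1) (r : ℕ) :
    bdry G (ball f r : Set V) ≤ ee G f r := by
  have s : {p : V × V | p.1 ∈ (ball f r : Set V) ∧ p.2 ∉ (ball f r : Set V) ∧ G.Adj p.1 p.2} ⊆
      (((sph f r).biUnion fun x => (up G f x).image fun y => (x, y) : Finset (V × V)) :
        Set (V × V)) := by
    rintro ⟨x, y⟩ ⟨h1, h2, h3⟩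
    have a1 : f x ≤ r := by simpa [ball] using h1
    have a2 : r < f y := by simpa [ball] using h2
    have a3 := lip x y h3
    simp only [Finset.coe_biUnion, Set.mem_iUnion, Finset.mem_coe, Finset.mem_image]
    exact ⟨x, by simp [sph]; omega, y,
      Finset.mem_filter.mpr ⟨by simpa using h3, by omega⟩, rfl⟩
  refine (Set.ncard_le_ncard s).trans ?_
  rw [Set.ncard_coe_finset]
  exact Finset.card_biUnion_le.trans (Finset.sum_le_sum fun x _ => Finset.card_image_le)

end

theorem not_exp_six (ε : ℝ) (hε : 0 < ε) :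
    ¬ Many fun G => ConnReg G [6, 2] ∧ CheegerGe G ε := by
  intro h
  have c1 : (1 : ℝ) < 1 + ε / 6 := by linarith
  obtain ⟨R, hR⟩ := (((tendsto_pow_const_div_const_pow_of_one_lt 2 c1).eventually
    (gt_mem_nhds (show (0 : ℝ) < 1 / 7 by norm_num))).and (Filter.eventually_ge_atTop 1)).exists
  obtain ⟨V, hV, G, ⟨h1, h2⟩, h3⟩ := h.unbounded (2 * (6 * R ^ 2 + 1))
  classical
  have := Fintype.ofFinite V
  have L := loc_of h1
  have hc : G.Connected := h1.conn (by simp)
  obtain ⟨v⟩ := hc.nonempty
  let f : V → ℕ := fun x => G.dist v x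
  have lip : ∀ x y, G.Adj x y → f y ≤ f x + 1 := fun x y hxy => by
    have := hc.dist_triangle (u := v) (v := x) (w := y)
    rw [dist_eq_one_iff_adj.mpr hxy] at this
    exact this
  have h0 : ∀ x, f x = 0 → x = v := fun x hx => (hc.dist_eq_zero_iff.mp hx).symm
  have dwn : ∀ x, 0 < f x → (dn G f x).Nonempty := fun x hx => by
    obtain ⟨w, hw⟩ := hc.exists_walk_length_eq_dist x v
    cases w with
    | nil => simp [f] at hx
    | @cons _ y _ hxy w =>
      have a1 := dist_le w
      have a2 := lip y x hxy.symm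
      rw [Walk.length_cons, dist_comm] at hw
      rw [dist_comm] at a1
      exact ⟨y, Finset.mem_filter.mpr ⟨by simpa using hxy, by simp only [f] at a2 ⊢; omega⟩⟩
  have upb : ∀ r, (ball f r).card ≤ 6 * r ^ 2 + 1 := by
    intro r
    induction r with
    | zero =>
      have s : ball f 0 ⊆ {v} := fun x hx => by
        rw [Finset.mem_singleton]; exact h0 x (by simpa [ball] using hx)
      simpa using Finset.card_le_card s
    | succ r ih =>
      have a1 := ee_le L lip dwn v h0 r
      have a2 : (sph f (r + 1)).card ≤ ee G f r := by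
        rw [ee_eq, Finset.card_eq_sum_ones]
        refine Finset.sum_le_sum fun x hx => (dwn x ?_).card_pos
        have : f x = r + 1 := by simpa [sph] using hx
        omega
      rw [ball_succ]; nlinarith
  have vin : ∀ r, v ∈ ball f r := fun r => by simp [ball, f]
  have low : ∀ r, r ≤ R → (1 + ε / 6) ^ r ≤ (ball f r).card := by
    intro r
    induction r with
    | zero => intro _; simpa using Finset.card_pos.mpr ⟨v, vin 0⟩
    | succ r ih =>
      intro hr
      have a0 := ih (by omega)
      have a1 : (ball f r).card ≤ 6 * R ^ 2 + 1 := (upb r).trans (by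
        have := Nat.pow_le_pow_left (show r ≤ R by omega) 2; omega)
      have a2 : (ball f r : Set V).ncard + (ball f r : Set V)ᶜ.ncard = Nat.card V :=
        Set.ncard_add_ncard_compl _
      rw [Set.ncard_coe_finset] at a2
      have a3 := h2 (ball f r) ⟨v, vin r⟩ (fun he => by
        rw [he] at a2; simp only [Set.compl_univ, Set.ncard_empty] at a2; omega)
      rw [Set.ncard_coe_finset, min_eq_left (by omega)] at a3
      have a4 : ee G f r ≤ 6 * (sph f (r + 1)).card := by
        rw [ee_eq, mul_comm, ← smul_eq_mul]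
        exact Finset.sum_le_card_nsmul _ _ _ fun x _ =>
          (Finset.card_filter_le _ _).trans (L.six x).le
      have a5 : (bdry G (ball f r : Set V) : ℝ) ≤ 6 * (sph f (r + 1)).card := by
        exact_mod_cast (bdry_ball lip r).trans a4
      rw [ball_succ, pow_succ]
      push_cast
      nlinarith
  have b1 := low R le_rfl
  have b2 : ((ball f R).card : ℝ) ≤ 6 * R ^ 2 + 1 := by exact_mod_cast upb R
  have b3 : (1 : ℝ) ≤ R := by exact_mod_cast hR.2
  have b4 := hR.1
  rw [div_lt_iff₀ (by positivity)] at b4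
  nlinarith

end Pool.Agent.H60.HR
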