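import Mathlib

set_option autoImplicit false

namespace Pool.Agent.H60.HS

open Set MeasureTheory Metric Real Filter Topology

abbrev E3 := EuclideanSpace ℝ (Fin 3)

lemma ker_int0 (r : ℝ) : IntegrableOn (fun z : E3 => ‖z‖⁻¹) (ball 0 r) :=
  integrableOn_ball_of_norm_le_rpow (C := 1) (α := 1) (by simp) (by simp)
    (ae_of_all _ fun x => by simp [Real.rpow_neg_one]) (by fun_prop)

lemma ker_int (x y : E3) (r : ℝ) : IntegrableOn (fun z : E3 => ‖z - y‖⁻¹) (ball x r) := by
  have h := (measurePreserving_sub_right volume y).integrableOn_comp_preimage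
    (measurableEmbedding_subRight y) (f := fun z : E3 => ‖z‖⁻¹) (s := ball 0 (r + ‖x - y‖))
  refine (h.2 (ker_int0 _)).mono_set fun z hz => ?_
  simp only [mem_preimage, mem_ball_iff_norm, sub_zero] at hz ⊢
  have := norm_add_le (z - x) (x - y)
  rw [sub_add_sub_cancel] at this
  linarith

lemma disc {b h : ℝ} (hb : b ≠ 0) (h0 : 0 ≤ h) :
    ∫ a : ℂ, (Iio h).indicator (fun ρ => (√(b ^ 2 + ρ ^ 2))⁻¹) ‖a‖ =
      2 * π * (√(b ^ 2 + h ^ 2) - |b|) := by
  rw [integral_fun_norm_addHaar volume]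
  have e : ∫ y in Ioi (0 : ℝ), y ^ (Module.finrank ℝ ℂ - 1) •
      (Iio h).indicator (fun ρ => (√(b ^ 2 + ρ ^ 2))⁻¹) y =
      ∫ y in (0 : ℝ)..h, y * (√(b ^ 2 + y ^ 2))⁻¹ := by
    rw [intervalIntegral.integral_of_le h0, integral_Ioc_eq_integral_Ioo, ← Ioi_inter_Iio,
      ← setIntegral_indicator measurableSet_Iio]
    congr 1; funext y
    by_cases hy : y ∈ Iio h <;> simp [hy]
  have p : ∀ y : ℝ, 0 < b ^ 2 + y ^ 2 := fun y => by positivity
  rw [e, intervalIntegral.integral_eq_sub_of_hasDerivAt (f := fun y => √(b ^ 2 + y ^ 2))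
    (fun y _ => (((hasDerivAt_pow 2 y).const_add (b ^ 2)).sqrt (p y).ne').congr_deriv (by
      simp; field_simp))
    (f' := fun y => y * (√(b ^ 2 + y ^ 2))⁻¹)
    (Continuous.intervalIntegrable (continuous_id.mul (Continuous.inv₀ (by fun_prop)
      fun y => (sqrt_pos.2 (p y)).ne')) _ _)]
  simp [Measure.real, sqrt_sq_eq_abs, pi_pos.le]
  ring

lemma cyl (y : E3) {r : ℝ} (hr : 0 ≤ r) : ∫ z in ball (0 : E3) r, ‖z - y‖⁻¹ =
    ∫ t in (-r)..r, 2 * π * (√(r ^ 2 + ‖y‖ ^ 2 - 2 * t * ‖y‖) - |t - ‖y‖|) := by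
  let W := WithLp 2 (ℝ × ℂ)
  have hW : Module.finrank ℝ W = 3 := by
    rw [(WithLp.linearEquiv 2 ℝ (ℝ × ℂ)).finrank_eq]; simp
  let ψ : W ≃ₗᵢ[ℝ] E3 := ((stdOrthonormalBasis ℝ W).reindex (finCongr hW)).repr
  let w : W := WithLp.toLp 2 (‖y‖, 0)
  have hw : ‖ψ w‖ = ‖y‖ := by rw [ψ.norm_map, WithLp.prod_norm_eq_of_L2]; simp [w]
  let φ := ψ.trans (Submodule.reflection (ℝ ∙ (ψ w - y))ᗮ)
  have hφ : φ w = y := Submodule.reflection_sub hw
  have mp : MeasurePreserving (fun p : ℝ × ℂ => φ (WithLp.toLp 2 p)) :=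
    φ.measurePreserving.comp (WithLp.volume_preserving_toLp ℝ ℂ)
  have me : MeasurableEmbedding (fun p : ℝ × ℂ => φ (WithLp.toLp 2 p)) :=
    φ.toHomeomorph.measurableEmbedding.comp (MeasurableEquiv.toLp 2 _).measurableEmbedding
  have hi := (mp.integrable_comp_emb me).2
    ((integrable_indicator_iff measurableSet_ball).2 (ker_int 0 y r))
  rw [← integral_indicator measurableSet_ball, ← mp.integral_comp me]
  erw [integral_prod _ hi]
  rw [intervalIntegral.integral_of_le (by linarith), integral_Ioc_eq_integral_Ioo,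
    ← integral_indicator measurableSet_Ioo]
  refine integral_congr_ae ?_
  filter_upwards [compl_mem_ae_iff.2 (measure_singleton ‖y‖)] with t ht
  have e : ∀ a : ℂ, ‖φ (WithLp.toLp 2 (t, a)) - y‖ = √((t - ‖y‖) ^ 2 + ‖a‖ ^ 2) := fun a => by
    conv_lhs => rw [← hφ, ← map_sub, φ.norm_map, WithLp.prod_norm_eq_of_L2]
    simp [w, W]
  have e' : ∀ a : ℂ, φ (WithLp.toLp 2 (t, a)) ∈ ball (0 : E3) r ↔ t ^ 2 + ‖a‖ ^ 2 < r ^ 2 :=
    fun a => by
      rw [mem_ball_zero_iff, φ.norm_map, WithLp.prod_norm_eq_of_L2,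
        ← sqrt_lt_sqrt_iff (x := t ^ 2 + ‖a‖ ^ 2) (by positivity), sqrt_sq hr]
      simp
  by_cases h : t ∈ Ioo (-r) r
  · have h2 : 0 ≤ r ^ 2 - t ^ 2 := by nlinarith [h.1, h.2]
    rw [indicator_of_mem h, show r ^ 2 + ‖y‖ ^ 2 - 2 * t * ‖y‖ =
      (t - ‖y‖) ^ 2 + √(r ^ 2 - t ^ 2) ^ 2 by rw [sq_sqrt h2]; ring,
      ← disc (sub_ne_zero.2 ht) (sqrt_nonneg _)]
    congr 1; funext a
    simp only [Function.comp, indicator, e, e', mem_Iio, lt_sqrt (norm_nonneg a), lt_sub_iff_add_lt']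
  · rw [indicator_of_notMem h]
    refine integral_eq_zero_of_ae (ae_of_all _ fun a => indicator_of_notMem ?_ _)
    rw [e']
    intro h'
    exact h (abs_lt.1 (abs_lt_of_sq_lt_sq (by nlinarith [sq_nonneg ‖a‖]) hr))

lemma line {r s : ℝ} (hr : 0 ≤ r) (hs : 0 < s) :
    ∫ t in (-r)..r, √(r ^ 2 + s ^ 2 - 2 * t * s) = ((r + s) ^ 3 - |r - s| ^ 3) / (3 * s) := by
  rw [intervalIntegral.integral_eq_sub_of_hasDerivAt_of_le (by linarith)
    (f := fun t => -(√(r ^ 2 + s ^ 2 - 2 * t * s)) ^ 3 / (3 * s)) (by fun_prop) (fun t ht => ?_)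
    (Continuous.intervalIntegrable (by fun_prop) _ _)]
  · rw [show r ^ 2 + s ^ 2 - 2 * r * s = (r - s) ^ 2 by ring,
      show r ^ 2 + s ^ 2 - 2 * -r * s = (r + s) ^ 2 by ring, sqrt_sq_eq_abs, sqrt_sq (by linarith)]
    ring
  · have q : 0 < r ^ 2 + s ^ 2 - 2 * t * s := by nlinarith [ht.2, sq_nonneg (r - s)]
    have := sqrt_pos.2 q
    refine (((((((hasDerivAt_id t).const_mul 2).mul_const s).const_sub (r ^ 2 + s ^ 2)).sqrt
      q.ne').pow 3).neg.div_const (3 * s)).congr_deriv ?_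
    simp; field_simp

lemma newton_in {y : E3} {r : ℝ} (h : ‖y‖ ≤ r) :
    ∫ z in ball (0 : E3) r, ‖z - y‖⁻¹ = 2 * π * r ^ 2 - 2 * π / 3 * ‖y‖ ^ 2 := by
  have s0 := norm_nonneg y
  have hr : 0 ≤ r := s0.trans h
  rw [cyl y hr, intervalIntegral.integral_const_mul, intervalIntegral.integral_sub
    (Continuous.intervalIntegrable (by fun_prop) _ _) (Continuous.intervalIntegrable (by fun_prop) _ _)]
  set s := ‖y‖
  have e : ∫ t in (-r)..r, |t - s| = r ^ 2 + s ^ 2 := by
    rw [← intervalIntegral.integral_add_adjacent_intervals (b := s)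
      (Continuous.intervalIntegrable (by fun_prop) _ _) (Continuous.intervalIntegrable (by fun_prop) _ _),
      intervalIntegral.integral_congr (g := fun t => s - t) (fun t ht => by
        rw [uIcc_of_le (by linarith)] at ht
        simp only; rw [abs_sub_comm, abs_of_nonneg (by linarith [ht.2])]),
      intervalIntegral.integral_congr (a := s) (g := fun t => t - s) (fun t ht => by
        rw [uIcc_of_le h] at ht
        exact abs_of_nonneg (by linarith [ht.1])),
      intervalIntegral.integral_sub (by simp) (by simp),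
      intervalIntegral.integral_sub (by simp) (by simp)]
    simp; ring
  rw [e]
  rcases s0.eq_or_lt with e0 | e0
  · simp only [← e0]
    simp [sqrt_sq hr]; ring
  · rw [line hr e0, abs_of_nonneg (by linarith)]
    field_simp; ring

lemma newton_out {y : E3} {r : ℝ} (hr : 0 < r) (h : r ≤ ‖y‖) :
    ∫ z in ball (0 : E3) r, ‖z - y‖⁻¹ = 4 * π / 3 * r ^ 3 * ‖y‖⁻¹ := by
  rw [cyl y hr.le, intervalIntegral.integral_const_mul, intervalIntegral.integral_sub
    (Continuous.intervalIntegrable (by fun_prop) _ _) (Continuous.intervalIntegrable (by fun_prop) _ _)]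
  set s := ‖y‖
  have s0 : 0 < s := by linarith
  have e : ∫ t in (-r)..r, |t - s| = 2 * r * s := by
    rw [intervalIntegral.integral_congr (g := fun t => s - t) (fun t ht => by
        rw [uIcc_of_le (by linarith)] at ht
        simp only; rw [abs_sub_comm, abs_of_nonneg (by linarith [ht.2])]),
      intervalIntegral.integral_sub (by simp) (by simp), integral_id, intervalIntegral.integral_const,
      smul_eq_mul]
    ring
  rw [e, line hr.le s0, abs_of_nonpos (by linarith)]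
  field_simp; ring

lemma ball_shift (x y : E3) (r : ℝ) :
    ∫ z in ball x r, ‖z - y‖⁻¹ = ∫ z in ball (0 : E3) r, ‖z - (y - x)‖⁻¹ := by
  rw [← integral_indicator measurableSet_ball, ← integral_indicator measurableSet_ball,
    ← integral_add_right_eq_self _ x]
  congr 1; funext z
  simp only [indicator, mem_ball_iff_norm, add_sub_cancel_right, sub_zero]
  congr 3; abel

lemma vol_ball (x : E3) {r : ℝ} (hr : 0 ≤ r) : volume.real (ball x r) = 4 * π / 3 * r ^ 3 := by
  rw [Measure.real, EuclideanSpace.volume_ball_fin_three, ENNReal.toReal_mul, ENNReal.toReal_pow,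
    ENNReal.toReal_ofReal hr, ENNReal.toReal_ofReal (by positivity)]
  ring

/-- the defect kernel -/
noncomputable def df (x : E3) (r : ℝ) (y : E3) : ℝ :=
  4 * π / 3 * r ^ 3 * ‖x - y‖⁻¹ - ∫ z in ball x r, ‖z - y‖⁻¹

lemma df_out {x y : E3} {r : ℝ} (hr : 0 < r) (h : y ∉ ball x r) : df x r y = 0 := by
  rw [df, ball_shift, newton_out hr (by rwa [mem_ball_iff_norm, not_lt] at h), norm_sub_rev]; ring

lemma df_in {x y : E3} {r : ℝ} (h : y ∈ ball x r) (h' : y ≠ x) : 0 < df x r y := by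
  rw [mem_ball_iff_norm] at h
  rw [df, ball_shift, newton_in h.le, norm_sub_rev]
  have s0 : 0 < ‖y - x‖ := norm_pos_iff.2 (sub_ne_zero.2 h')
  set s := ‖y - x‖
  have : 4 * π / 3 * r ^ 3 * s⁻¹ - (2 * π * r ^ 2 - 2 * π / 3 * s ^ 2) =
      2 * π / 3 * ((r - s) ^ 2 * (s + 2 * r)) / s := by field_simp; ring
  rw [this]
  have := sub_pos.2 h
  have : 0 < r := by linarith
  have := pi_pos
  positivity

end Pool.Agent.H60.HS
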