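import Pool.Agent.H60.HSa

set_option autoImplicit false

namespace Pool.Agent.H60.HS

open Set MeasureTheory Metric Real Filter Topology

noncomputable def V (f : E3 → ℝ) (x : E3) : ℝ := ∫ y, f y * ‖x - y‖⁻¹

structure Den (L : ℝ) (f : E3 → ℝ) : Prop where
  m : Measurable f
  bd : ∀ y, |f y| ≤ 1
  sp : ∀ y, y ∉ ball (0 : E3) L → f y = 0

lemma ker_int' (x y : E3) (r : ℝ) : IntegrableOn (fun z : E3 => ‖y - z‖⁻¹) (ball x r) := by
  simpa only [norm_sub_rev y] using ker_int x y r

lemma inv_diff {α β δ ε : ℝ} (a0 : 0 < α) (b0 : 0 < β) (e0 : 0 < ε) (h : |α - β| ≤ δ) :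
    |α⁻¹ - β⁻¹| ≤ (if α < ε then α⁻¹ else 0) + (if β < ε then β⁻¹ else 0) + δ / ε ^ 2 := by
  have d0 : 0 ≤ δ / ε ^ 2 := div_nonneg ((abs_nonneg _).trans h) (by positivity)
  have a1 := inv_pos.2 a0
  have b1 := inv_pos.2 b0
  split_ifs with h1 h2 h2
  · rw [abs_le]; constructor <;> linarith
  · have := inv_anti₀ a0 (show α ≤ β by linarith)
    rw [abs_le]; constructor <;> linarith
  · have := inv_anti₀ b0 (show β ≤ α by linarith)
    rw [abs_le]; constructor <;> linarith
  · rw [inv_sub_inv a0.ne' b0.ne', abs_div, abs_sub_comm, zero_add, zero_add,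
      abs_of_pos (mul_pos a0 b0)]
    exact div_le_div₀ ((abs_nonneg _).trans h) h (by positivity) (by nlinarith)

lemma small (x : E3) {ε : ℝ} (e0 : 0 < ε) :
    ∫ y, (ball x ε).indicator (fun y => ‖x - y‖⁻¹) y = 2 * π * ε ^ 2 := by
  rw [integral_indicator measurableSet_ball]
  simp only [norm_sub_rev x]
  rw [ball_shift, newton_in (by simpa using e0.le)]; simp

namespace Den
variable {L : ℝ} {f g : E3 → ℝ} (h : Den L f)
include h

lemma mul_int {k : E3 → ℝ} (hk : IntegrableOn k (ball 0 L)) : Integrable fun y => f y * k y := by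
  have : IntegrableOn (fun y => f y * k y) (ball 0 L) :=
    hk.bdd_mul (c := 1) h.m.aestronglyMeasurable (ae_of_all _ h.bd)
  exact this.integrable_of_forall_notMem_eq_zero fun y hy => by simp [h.sp y hy]

lemma cint {k : E3 → ℝ} (hk : Continuous k) : Integrable fun y => f y * k y :=
  h.mul_int ((hk.continuousOn.integrableOn_compact (isCompact_closedBall 0 L)).mono_set
    ball_subset_closedBall)

lemma int : Integrable f := by simpa using h.cint (continuous_const (y := (1 : ℝ)))

lemma kint (x : E3) : Integrable fun y => f y * ‖x - y‖⁻¹ := h.mul_int (ker_int' _ _ _)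

lemma abs : Den L fun y => |f y| :=
  ⟨continuous_abs.measurable.comp h.m, fun y => by simpa using h.bd y, fun y hy => by simp [h.sp y hy]⟩

lemma mono {L' : ℝ} (hL : L ≤ L') : Den L' f :=
  ⟨h.m, h.bd, fun y hy => h.sp y fun h' => hy (ball_subset_ball hL h')⟩

lemma modulus (x x' : E3) {ε : ℝ} (e0 : 0 < ε) :
    |V f x - V f x'| ≤ 4 * π * ε ^ 2 + (∫ y, |f y|) * (‖x - x'‖ / ε ^ 2) := by
  have i1 := (integrable_indicator_iff measurableSet_ball).2 (ker_int' x x ε)
  have i2 := (integrable_indicator_iff measurableSet_ball).2 (ker_int' x' x' ε)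
  have i3 := h.abs.int.mul_const (‖x - x'‖ / ε ^ 2)
  rw [V, V, ← integral_sub (h.kint x) (h.kint x'), ← integral_mul_const,
    show 4 * π * ε ^ 2 = 2 * π * ε ^ 2 + 2 * π * ε ^ 2 by ring]
  nth_rewrite 1 [← small x e0]
  rw [← small x' e0, ← integral_add i1 i2, ← integral_add (i1.fun_add i2) i3, ← Real.norm_eq_abs]
  refine norm_integral_le_of_norm_le ((i1.add i2).add i3) ?_
  filter_upwards [compl_mem_ae_iff.2 (measure_singleton x),
    compl_mem_ae_iff.2 (measure_singleton x')] with y h1 h2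
  have a := norm_pos_iff.2 (sub_ne_zero.2 (Ne.symm h1))
  have b := norm_pos_iff.2 (sub_ne_zero.2 (Ne.symm h2))
  have := inv_diff a b e0 ((abs_norm_sub_norm_le _ _).trans_eq (by rw [sub_sub_sub_cancel_right]))
  rw [← mul_sub, norm_mul, Real.norm_eq_abs, Real.norm_eq_abs]
  refine (mul_le_mul_of_nonneg_left this (abs_nonneg _)).trans ?_
  rw [mul_add]
  refine add_le_add ((mul_le_of_le_one_left (by positivity) (h.bd y)).trans_eq ?_) le_rfl
  simp only [indicator, mem_ball_iff_norm', Pi.add_apply]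

lemma cont : Continuous (V f) := by
  rw [Metric.continuous_iff]
  intro x η η0
  have m0 : 0 ≤ ∫ y, |f y| := integral_nonneg fun y => abs_nonneg _
  set m := ∫ y, |f y|
  have p := pi_lt_four
  have p0 := pi_pos
  refine ⟨η / 32 * (η / 2 / (m + 1)), by positivity, fun a ha => ?_⟩
  have := h.modulus a x (ε := √(η / 32)) (by positivity)
  rw [sq_sqrt (by positivity)] at this
  rw [dist_eq_norm] at ha
  have k : ‖a - x‖ / (η / 32) ≤ η / 2 / (m + 1) := by
    rw [div_le_iff₀ (by positivity)]; linarith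
  have k2 : m * (η / 2 / (m + 1)) ≤ η / 2 := by
    rw [← mul_div_assoc, div_le_iff₀ (by positivity)]; nlinarith
  have := mul_le_mul_of_nonneg_left k m0
  rw [Real.dist_eq]
  nlinarith

lemma prod_int {L' : ℝ} (hg : Den L' g) :
    Integrable (fun p : E3 × E3 => g p.1 * (f p.2 * ‖p.1 - p.2‖⁻¹)) (volume.prod volume) := by
  have := h.m
  have := hg.m
  rw [integrable_prod_iff (by fun_prop)]
  refine ⟨ae_of_all _ fun x => (h.kint x).const_mul (g x), ?_⟩
  refine (hg.abs.cint h.abs.cont).congr (ae_of_all _ fun x => ?_)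
  simp only [V, ← integral_const_mul, norm_mul, Real.norm_eq_abs, abs_inv, abs_norm]

lemma symm {L' : ℝ} (hg : Den L' g) : ∫ x, g x * V f x = ∫ y, f y * V g y := by
  simp only [V, ← integral_const_mul]
  rw [integral_integral_swap (h.prod_int hg)]
  congr 1; funext y; congr 1; funext x
  rw [norm_sub_rev]; ring

lemma far {x x' : E3} {d m : ℝ} (d0 : 0 < d) (hm : ∫ y, |f y| ≤ m)
    (hd : ∀ y, f y ≠ 0 → d ≤ ‖x - y‖ ∧ d ≤ ‖x' - y‖) :
    |V f x| ≤ m / d ∧ |V f x - V f x'| ≤ m * (‖x - x'‖ / d ^ 2) := by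
  constructor
  · refine le_trans ?_ (div_le_div_of_nonneg_right hm d0.le)
    rw [← integral_div, V, ← Real.norm_eq_abs]
    refine norm_integral_le_of_norm_le (h.abs.int.div_const d) (ae_of_all _ fun y => ?_)
    by_cases e : f y = 0
    · simp [e]
    · rw [norm_mul, Real.norm_eq_abs, norm_inv, norm_norm, div_eq_mul_inv]
      exact mul_le_mul_of_nonneg_left (inv_anti₀ d0 (hd y e).1) (abs_nonneg _)
  · refine le_trans ?_ (mul_le_mul_of_nonneg_right hm (by positivity))
    rw [V, V, ← integral_sub (h.kint x) (h.kint x'), ← integral_mul_const, ← Real.norm_eq_abs]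
    refine norm_integral_le_of_norm_le (h.abs.int.mul_const _) (ae_of_all _ fun y => ?_)
    by_cases e : f y = 0
    · simp [e]
    · obtain ⟨a, b⟩ := hd y e
      have := inv_diff (d0.trans_le a) (d0.trans_le b) d0
        ((abs_norm_sub_norm_le _ _).trans_eq (by rw [sub_sub_sub_cancel_right]))
      rw [if_neg (not_lt.2 a), if_neg (not_lt.2 b), zero_add, zero_add] at this
      rw [← mul_sub, norm_mul, Real.norm_eq_abs, Real.norm_eq_abs]
      exact mul_le_mul_of_nonneg_left this (abs_nonneg _)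

omit h in
lemma ind {A : Set E3} (hA : MeasurableSet A) (hs : A ⊆ ball 0 L) : Den L (A.indicator 1) :=
  ⟨measurable_one.indicator hA, fun y => by by_cases e : y ∈ A <;> simp [e],
    fun y hy => indicator_of_notMem (fun e => hy (hs e)) _⟩

lemma defect (x : E3) (r : ℝ) : Integrable (fun y => f y * df x r y) ∧
    4 * π / 3 * r ^ 3 * V f x - ∫ z in ball x r, V f z = ∫ y, f y * df x r y := by
  have hg : Den (r + ‖x‖) ((ball x r).indicator 1) := ind measurableSet_ball
    (ball_subset_ball' (by simp))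
  have e : ∀ F : E3 → ℝ, ∫ z in ball x r, F z = ∫ z, (ball x r).indicator 1 z * F z := fun F => by
    rw [← integral_indicator measurableSet_ball]
    congr 1; funext z; by_cases e : z ∈ ball x r <;> simp [e]
  have e2 : ∀ y, f y * df x r y =
      4 * π / 3 * r ^ 3 * (f y * ‖x - y‖⁻¹) - f y * V ((ball x r).indicator 1) y := fun y => by
    simp only [df, V, e, norm_sub_rev y]; ring
  simp only [e2]
  refine ⟨((h.kint x).const_mul _).sub (h.cint hg.cont), ?_⟩
  rw [integral_sub ((h.kint x).const_mul _) (h.cint hg.cont), integral_const_mul, e, h.symm hg]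
  rfl

lemma df_ae {x : E3} {r : ℝ} (hr : 0 < r) (hf : ∀ᵐ y, y ∈ ball x r → 0 ≤ f y) :
    ∀ᵐ y, 0 ≤ f y * df x r y := by
  filter_upwards [hf, compl_mem_ae_iff.2 (measure_singleton x)] with y a b
  by_cases e : y ∈ ball x r
  · exact mul_nonneg (a e) (df_in e b).le
  · simp [df_out hr e]

lemma mean {x : E3} {r : ℝ} (hr : 0 < r) (hf : ∀ᵐ y, y ∈ ball x r → 0 ≤ f y) :
    ∫ z in ball x r, V f z ≤ 4 * π / 3 * r ^ 3 * V f x := by
  have := integral_nonneg_of_ae (h.df_ae hr hf)
  linarith [(h.defect x r).2]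

lemma mean_eq {x : E3} {r c : ℝ} (hr : 0 < r) (hf : ∀ y, 0 ≤ f y)
    (hc : ∀ z ∈ ball x r, V f z = c) : ∀ᵐ y, y ∈ ball x r → f y = 0 := by
  have h1 := (h.defect x r).2
  rw [setIntegral_congr_fun measurableSet_ball hc, hc x (mem_ball_self hr), setIntegral_const,
    vol_ball x hr.le, smul_eq_mul, sub_self, eq_comm, integral_eq_zero_iff_of_nonneg_ae
    (h.df_ae hr (ae_of_all _ fun y _ => hf y)) (h.defect x r).1] at h1
  filter_upwards [h1, compl_mem_ae_iff.2 (measure_singleton x)] with y a b e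
  exact (mul_eq_zero.1 a).resolve_right (df_in e b).ne'

theorem minp {R c : ℝ} (hb : ∀ x, ‖x‖ = R → 0 ≤ c + V f x)
    (hf : ∀ᵐ y, ‖y‖ < R → c + V f y < 0 → 0 ≤ f y) : ∀ x, ‖x‖ ≤ R → 0 ≤ c + V f x := by
  by_contra hc
  push Not at hc
  obtain ⟨x₀, h0, h1⟩ := hc
  have cd : Continuous fun x => c + V f x := continuous_const.add h.cont
  obtain ⟨x₁, k0, k1⟩ := (isCompact_closedBall (0 : E3) R).exists_isMinOn
    ⟨x₀, mem_closedBall_zero_iff.2 h0⟩ cd.continuousOn
  obtain ⟨x, ⟨k2, k3⟩, k4⟩ := ((isCompact_closedBall (0 : E3) R).inter_right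
    (isClosed_eq cd (continuous_const (y := c + V f x₁)))).exists_isMaxOn ⟨x₁, k0, rfl⟩
    continuous_norm.continuousOn
  simp only [mem_setOf_eq] at k3
  have m0 : c + V f x < 0 := by
    have := k1 (mem_closedBall_zero_iff.2 h0)
    simp only [mem_setOf_eq] at this
    linarith
  rw [mem_closedBall_zero_iff] at k2
  have xR : ‖x‖ < R := lt_of_le_of_ne k2 fun e => by linarith [hb x e]
  obtain ⟨r, r0, hr⟩ := Metric.isOpen_iff.1 ((isOpen_lt continuous_norm continuous_const).inter
    (isOpen_lt cd continuous_const)) x ⟨xR, m0⟩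
  have a := h.mean r0 (by
    filter_upwards [hf] with y hy e using hy (hr e).1 (hr e).2)
  have ge : ∀ z ∈ ball x r, 0 ≤ V f z - V f x := fun z hz => by
    have := k1 (mem_closedBall_zero_iff.2 (hr hz).1.le)
    simp only [mem_setOf_eq] at this
    linarith
  have iV : IntegrableOn (V f) (ball x r) :=
    (h.cont.continuousOn.integrableOn_compact (isCompact_closedBall x r)).mono_set
      ball_subset_closedBall
  have ic : IntegrableOn (fun _ => V f x) (ball x r) := integrableOn_const measure_ball_lt_top.ne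
  have z0 : ∫ z in ball x r, (V f z - V f x) = 0 := by
    refine le_antisymm ?_ (setIntegral_nonneg measurableSet_ball ge)
    rw [integral_sub iV ic, setIntegral_const, vol_ball x r0.le, smul_eq_mul]
    linarith
  rw [setIntegral_eq_zero_iff_of_nonneg_ae (ae_restrict_of_forall_mem measurableSet_ball ge)
    (iV.sub ic)] at z0
  have eq := Measure.eqOn_open_of_ae_eq z0 isOpen_ball
    (h.cont.sub continuous_const).continuousOn continuousOn_const
  obtain ⟨v, hv⟩ := exists_norm_eq E3 (half_pos r0).le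
  have in1 : x + v ∈ ball x r := by simp [hv, r0]
  have in2 : x - v ∈ ball x r := by simp [hv, r0]
  have f1 : ∀ z ∈ ball x r, ‖z‖ ≤ ‖x‖ := fun z hz =>
    k4 ⟨mem_closedBall_zero_iff.2 (hr hz).1.le, by
      have := eq hz
      simp only [Pi.zero_apply, mem_setOf_eq] at this ⊢
      linarith⟩
  have pl := parallelogram_law_with_norm ℝ x v
  have a1 := mul_self_le_mul_self (norm_nonneg _) (f1 _ in1)
  have a2 := mul_self_le_mul_self (norm_nonneg _) (f1 _ in2)
  rw [hv] at pl
  nlinarith

end Den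

lemma V_lin {L L' : ℝ} {f g : E3 → ℝ} (hf : Den L f) (hg : Den L' g) (t : ℝ) (x : E3) :
    V (fun y => f y + t * g y) x = V f x + t * V g x := by
  simp only [V, add_mul, mul_assoc]
  rw [integral_add (hf.kint x) ((hg.kint x).const_mul t), integral_const_mul]

lemma V_scale (f : E3 → ℝ) (y x : E3) {l : ℝ} (hl : 0 < l) :
    V f (y + l • (x - y)) = l ^ 2 * V (fun w => f (y + l • (w - y))) x := by
  have h1 := Measure.integral_comp_smul volume
    (fun z : E3 => f (y + z) * ‖l • (x - y) - z‖⁻¹) l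
  have h2 := integral_add_left_eq_self (μ := volume)
    (fun z : E3 => f z * ‖y + l • (x - y) - z‖⁻¹) y
  have h3 := integral_sub_right_eq_self (μ := volume)
    (fun w : E3 => f (y + l • w) * ‖l • (x - y) - l • w‖⁻¹) y
  simp only [add_sub_add_left_eq_sub] at h2
  rw [h2, ← h3] at h1
  simp only [← smul_sub, sub_sub_sub_cancel_right, norm_smul, Real.norm_of_nonneg hl.le, mul_inv,
    mul_left_comm _ l⁻¹, integral_const_mul, finrank_euclideanSpace_fin, smul_eq_mul] at h1
  rw [abs_of_pos (by positivity)] at h1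
  simp only [V, smul_sub] at h1 ⊢
  field_simp at h1 ⊢
  linarith

end Pool.Agent.H60.HS
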