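import Pool.Agent.H60.HSb

set_option autoImplicit false

namespace Pool.Agent.H60.HS

open Set MeasureTheory Metric Real Filter Topology

lemma weak_sub {X : Type*} [MeasurableSpace X] (μ : Measure X) [IsFiniteMeasure μ] [IsSeparable μ]
    (ρ : ℕ → X → ℝ) (hm : ∀ n, Measurable (ρ n)) (hb : ∀ n x, 0 ≤ ρ n x ∧ ρ n x ≤ 1) :
    ∃ (σ : X → ℝ) (ψ : ℕ → ℕ), Measurable σ ∧ (∀ x, 0 ≤ σ x ∧ σ x ≤ 1) ∧ StrictMono ψ ∧
      ∀ g : X → ℝ, MemLp g 2 μ →
        Tendsto (fun n => ∫ x, ρ (ψ n) x * g x ∂μ) atTop (𝓝 (∫ x, σ x * g x ∂μ)) := by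
  have hn : ∀ n x, ‖ρ n x‖ ≤ 1 := fun n x => by
    rw [Real.norm_of_nonneg (hb n x).1]; exact (hb n x).2
  have hL : ∀ n, MemLp (ρ n) 2 μ := fun n =>
    MemLp.of_bound (hm n).aestronglyMeasurable 1 (ae_of_all _ (hn n))
  haveI : Fact ((2 : ENNReal) ≠ ⊤) := ⟨by simp⟩
  let T : ℕ → WeakDual ℝ (Lp ℝ 2 μ) := fun n =>
    StrongDual.toWeakDual (InnerProductSpace.toDual ℝ _ ((hL n).toLp _))
  obtain ⟨Λ, -, ψ, hψ, hl⟩ := WeakDual.isSeqCompact_closedBall ℝ (Lp ℝ 2 μ) 0
    ((measureUnivNNReal μ : ℝ) ^ (2 : ENNReal).toReal⁻¹ * 1) (x := T) fun n => by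
      simp only [mem_preimage, mem_closedBall_zero_iff, T, StrongDual.toStrongDual_toWeakDual,
        LinearIsometryEquiv.norm_map]
      refine Lp.norm_le_of_ae_bound zero_le_one ?_
      filter_upwards [(hL n).coeFn_toLp] with x hx
      rw [hx]; exact hn n x
  let s := (InnerProductSpace.toDual ℝ (Lp ℝ 2 μ)).symm (WeakDual.toStrongDual Λ)
  have key : ∀ g : X → ℝ, MemLp g 2 μ →
      Tendsto (fun n => ∫ x, ρ (ψ n) x * g x ∂μ) atTop (𝓝 (∫ x, s x * g x ∂μ)) := by
    intro g hg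
    have := ((WeakDual.eval_continuous (hg.toLp g)).tendsto Λ).comp hl
    have e1 : Λ (hg.toLp g) = ∫ x, s x * g x ∂μ := by
      rw [show Λ (hg.toLp g) = inner ℝ s (hg.toLp g) from
        (InnerProductSpace.toDual_symm_apply).symm, L2.inner_def]
      refine integral_congr_ae ?_
      filter_upwards [hg.coeFn_toLp] with x hx
      simp [hx, mul_comm]
    rw [e1] at this
    refine this.congr fun n => ?_
    change inner ℝ ((hL (ψ n)).toLp _) (hg.toLp g) = _
    rw [L2.inner_def]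
    refine integral_congr_ae ?_
    filter_upwards [hg.coeFn_toLp, (hL (ψ n)).coeFn_toLp] with x hx hx'
    simp [hx, hx', mul_comm]
  have si : Integrable s μ := (Lp.memLp s).integrable one_le_two
  have ks : ∀ A, MeasurableSet A →
      Tendsto (fun n => ∫ x in A, ρ (ψ n) x ∂μ) atTop (𝓝 (∫ x in A, s x ∂μ)) := fun A hA => by
    have := key (A.indicator 1) ((memLp_const 1).indicator hA)
    simpa only [← integral_indicator hA, ← indicator_mul_right, Pi.one_apply, mul_one] using this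
  have s0 : 0 ≤ᵐ[μ] s := ae_nonneg_of_forall_setIntegral_nonneg si fun A hA _ =>
    ge_of_tendsto' (ks A hA) fun n => integral_nonneg fun x => (hb _ x).1
  have s1 : s ≤ᵐ[μ] fun _ => (1 : ℝ) := ae_le_of_forall_setIntegral_le si (integrable_const _)
    fun A hA _ => le_of_tendsto' (ks A hA) fun n => integral_mono
      ((hL _).integrable one_le_two).integrableOn (integrable_const _) fun x => (hb _ x).2
  refine ⟨fun x => max 0 (min 1 (s x)), ψ, measurable_const.max (measurable_const.min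
    (Lp.stronglyMeasurable s).measurable), fun x => ⟨le_max_left _ _, by simp⟩, hψ, fun g hg => ?_⟩
  convert key g hg using 2
  refine integral_congr_ae ?_
  filter_upwards [s0, s1] with x a b
  rw [min_eq_right b, max_eq_right (show (0 : ℝ) ≤ s x from a)]

structure KK (f : E3 → ℝ) : Prop where
  d : Den 2 f
  n : ∀ y, 0 ≤ f y

noncomputable def En (φ f : E3 → ℝ) : ℝ := (∫ x, f x * V f x) / 2 - ∫ x, f x * φ x

lemma KK.le {f : E3 → ℝ} (h : KK f) (y : E3) : f y ≤ 1 := (le_abs_self _).trans (h.d.bd y)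

lemma V_nonneg {f : E3 → ℝ} (h : ∀ y, 0 ≤ f y) (x : E3) : 0 ≤ V f x :=
  integral_nonneg fun y => mul_nonneg (h y) (by positivity)

lemma Den.setI {L : ℝ} {f : E3 → ℝ} (h : Den L f) (k : E3 → ℝ) :
    ∫ y in ball 0 L, f y * k y = ∫ y, f y * k y :=
  setIntegral_eq_integral_of_forall_compl_eq_zero fun y hy => by simp [h.sp y hy]

lemma cont_memLp {g : E3 → ℝ} (hg : Continuous g) : MemLp g 2 (volume.restrict (ball 0 2)) := by
  obtain ⟨C, hC⟩ := (isCompact_closedBall (0 : E3) 2).exists_bound_of_continuousOn hg.continuousOn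
  haveI : IsFiniteMeasure (volume.restrict (ball (0 : E3) 2)) :=
    isFiniteMeasure_restrict.2 measure_ball_lt_top.ne
  exact MemLp.of_bound hg.aestronglyMeasurable C
    (ae_restrict_of_forall_mem measurableSet_ball fun x hx => hC x (ball_subset_closedBall hx))

lemma ker_memLp (x : E3) : MemLp (fun y => ‖x - y‖⁻¹) 2 (volume.restrict (ball 0 2)) := by
  rw [memLp_two_iff_integrable_sq (by fun_prop)]
  have h0 : IntegrableOn (fun z : E3 => ‖z‖⁻¹ ^ 2) (ball 0 (2 + ‖x‖)) :=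
    integrableOn_ball_of_norm_le_rpow (C := 1) (α := 2) (by simp) (by simp; norm_num)
      (ae_of_all _ fun x => by simp [Real.rpow_neg]) (by fun_prop)
  have h := ((measurePreserving_sub_right volume x).integrableOn_comp_preimage
    (measurableEmbedding_subRight x)).2 h0
  simp only [norm_sub_rev x]
  refine h.mono_set fun z hz => ?_
  simp only [mem_preimage, mem_ball_iff_norm, sub_zero] at hz ⊢
  linarith [norm_sub_le z x]

lemma exists_minimiser {φ : E3 → ℝ} (hφ : Continuous φ) :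
    ∃ ρ, KK ρ ∧ ∀ σ, KK σ → En φ ρ ≤ En φ σ := by
  let χ : E3 → ℝ := (ball 0 2).indicator 1
  have hχ : Den 2 χ := Den.ind measurableSet_ball subset_rfl
  have lχ : ∀ f, KK f → ∀ y, f y ≤ χ y := fun f hf y => by
    by_cases e : y ∈ ball (0 : E3) 2
    · simpa [χ, e] using hf.le y
    · simp [χ, e, hf.d.sp y e]
  have bdd : BddBelow (En φ '' {f | KK f}) := by
    refine ⟨-∫ x, χ x * |φ x|, ?_⟩
    rintro _ ⟨f, hf, rfl⟩
    have a : 0 ≤ ∫ x, f x * V f x := integral_nonneg fun x => mul_nonneg (hf.n x) (V_nonneg hf.n x)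
    have b : ∫ x, f x * φ x ≤ ∫ x, χ x * |φ x| := integral_mono (hf.d.cint hφ) (hχ.cint hφ.abs)
      fun x => (mul_le_mul_of_nonneg_left (le_abs_self _) (hf.n x)).trans
        (mul_le_mul_of_nonneg_right (lχ f hf x) (abs_nonneg _))
    unfold En; linarith
  obtain ⟨u, -, hu, hm⟩ := exists_seq_tendsto_sInf (S := En φ '' {f | KK f})
    ⟨_, χ, ⟨hχ, fun y => indicator_nonneg (fun _ _ => zero_le_one) y⟩, rfl⟩ bdd
  choose ρ hρ eρ using hm
  haveI : IsFiniteMeasure (volume.restrict (ball (0 : E3) 2)) :=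
    isFiniteMeasure_restrict.2 measure_ball_lt_top.ne
  obtain ⟨s, ψ, s1, s2, hψ, hl⟩ := weak_sub (volume.restrict (ball (0 : E3) 2)) ρ
    (fun n => (hρ n).d.m) fun n x => ⟨(hρ n).n x, (hρ n).le x⟩
  have hσ : KK ((ball 0 2).indicator s) := ⟨⟨s1.indicator measurableSet_ball, fun y => by
    by_cases e : y ∈ ball (0 : E3) 2
    · rw [indicator_of_mem e, abs_of_nonneg (s2 y).1]; exact (s2 y).2
    · simp [e], fun y hy => indicator_of_notMem hy _⟩, indicator_nonneg fun y _ => (s2 y).1⟩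
  set σ := (ball (0 : E3) 2).indicator s with hσ'
  have hl' : ∀ g : E3 → ℝ, MemLp g 2 (volume.restrict (ball 0 2)) →
      Tendsto (fun n => ∫ x, ρ (ψ n) x * g x) atTop (𝓝 (∫ x, σ x * g x)) := fun g hg => by
    have := hl g hg
    simp only [fun n => (hρ n).d.setI g] at this
    rwa [← integral_indicator measurableSet_ball, funext fun i => indicator_mul_left (i := i) _ s g] at this
  refine ⟨σ, hσ, fun τ hτ => le_trans (le_of_eq ?_) (csInf_le bdd ⟨τ, hτ, rfl⟩)⟩
  refine tendsto_nhds_unique ?_ (hu.comp hψ.tendsto_atTop)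
  have le : ∀ f, KK f → ∀ x, V f x ≤ V χ x := fun f hf x => integral_mono (hf.d.kint x)
    (hχ.kint x) fun y => mul_le_mul_of_nonneg_right (lχ f hf y) (by positivity)
  have t1 : Tendsto (fun n => ∫ x, ρ (ψ n) x * (V (ρ (ψ n)) x - V σ x)) atTop (𝓝 0) := by
    have := tendsto_integral_of_dominated_convergence (μ := volume) (f := fun _ => (0 : ℝ))
      (F := fun n x => ρ (ψ n) x * (V (ρ (ψ n)) x - V σ x)) (fun x => χ x * V χ x)
      (fun n => ((hρ _).d.cint ((hρ _).d.cont.sub hσ.d.cont)).aestronglyMeasurable)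
      (hχ.cint hχ.cont) (fun n => ae_of_all _ fun x => ?_) (ae_of_all _ fun x => ?_)
    · simpa using this
    · rw [norm_mul, Real.norm_of_nonneg ((hρ _).n x), Real.norm_eq_abs]
      refine mul_le_mul (lχ _ (hρ _) x) (abs_le.2 ⟨?_, ?_⟩) (abs_nonneg _)
        (((hρ 0).n x).trans (lχ _ (hρ _) x))
      · linarith [le _ hσ x, V_nonneg (hρ (ψ n)).n x]
      · linarith [le _ (hρ (ψ n)) x, V_nonneg hσ.n x]
    · exact bdd_le_mul_tendsto_zero' 1 (Eventually.of_forall fun n => (hρ _).d.bd x)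
        (tendsto_sub_nhds_zero_iff.2 (hl' _ (ker_memLp x)))
  have := ((t1.add (hl' _ (cont_memLp hσ.d.cont))).div_const 2).sub (hl' _ (cont_memLp hφ))
  rw [zero_add] at this
  refine this.congr fun n => ?_
  rw [Function.comp, ← eρ, En, ← integral_add ((hρ _).d.cint ((hρ _).d.cont.fun_sub hσ.d.cont))
    ((hρ _).d.cint hσ.d.cont)]
  congr 3; funext x; ring

theorem obstacle {φ : E3 → ℝ} (hφ : Continuous φ) : ∃ ρ, KK ρ ∧
    ∀ᵐ y, (φ y < V ρ y → ρ y = 0) ∧ (y ∈ ball (0 : E3) 2 → V ρ y < φ y → ρ y = 1) := by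
  obtain ⟨ρ, hρ, hm⟩ := exists_minimiser hφ
  refine ⟨ρ, hρ, ?_⟩
  let A := ball (0 : E3) 2 ∩ {y | V ρ y < φ y}
  have hA : Den 2 (A.indicator 1) := Den.ind
    (measurableSet_ball.inter (isOpen_lt hρ.d.cont hφ).measurableSet) inter_subset_left
  let δ := fun y => A.indicator (1 : E3 → ℝ) y - ρ y
  have a01 : ∀ y, 0 ≤ A.indicator (1 : E3 → ℝ) y ∧ A.indicator (1 : E3 → ℝ) y ≤ 1 := fun y => by
    by_cases e : y ∈ A <;> simp [e]
  have hδ : Den 2 δ := ⟨hA.m.sub hρ.d.m, fun y => abs_le.2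
    ⟨by simp only [δ]; linarith [(a01 y).1, hρ.le y], by simp only [δ]; linarith [(a01 y).2, hρ.n y]⟩,
    fun y hy => by simp only [δ, hA.sp y hy, hρ.d.sp y hy, sub_zero]⟩
  have cu := hρ.d.cont.sub hφ
  have key : ∀ t : ℝ, 0 < t → t ≤ 1 →
      0 ≤ (∫ x, δ x * (V ρ x - φ x)) + t * ((∫ x, δ x * V δ x) / 2) := fun t t0 t1 => by
    have n0 : ∀ y, 0 ≤ ρ y + t * δ y := fun y => by
      simp only [δ]; nlinarith [(a01 y).1, hρ.n y]
    have := hm (fun y => ρ y + t * δ y) ⟨⟨hρ.d.m.add (hδ.m.const_mul t), fun y => by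
      rw [abs_of_nonneg (n0 y)]; simp only [δ]; nlinarith [(a01 y).2, hρ.le y],
      fun y hy => by simp only [hδ.sp y hy, hρ.d.sp y hy, mul_zero, add_zero]⟩, n0⟩
    simp only [En, V_lin hρ.d hδ] at this
    have e1 : ∫ x, (ρ x + t * δ x) * (V ρ x + t * V δ x) = (∫ x, ρ x * V ρ x) +
        2 * t * (∫ x, δ x * V ρ x) + t ^ 2 * ∫ x, δ x * V δ x := by
      rw [two_mul, add_mul]
      nth_rewrite 1 [hρ.d.symm hδ]
      have i1 := hρ.d.cint hρ.d.cont
      have i2 := (hρ.d.cint hδ.cont).const_mul t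
      have i3 := (hδ.cint hρ.d.cont).const_mul t
      have i4 := (hδ.cint hδ.cont).const_mul (t ^ 2)
      simp only [← integral_const_mul]
      rw [← integral_add i2 i3, ← integral_add i1 (i2.fun_add i3),
        ← integral_add (i1.fun_add (i2.fun_add i3)) i4]
      congr 1; funext x; ring
    have e2 : ∫ x, (ρ x + t * δ x) * φ x = (∫ x, ρ x * φ x) + t * ∫ x, δ x * φ x := by
      rw [← integral_const_mul, ← integral_add (hρ.d.cint hφ) ((hδ.cint hφ).const_mul t)]
      congr 1; funext x; ring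
    have e3 : ∫ x, δ x * (V ρ x - φ x) = (∫ x, δ x * V ρ x) - ∫ x, δ x * φ x := by
      rw [← integral_sub (hδ.cint hρ.d.cont) (hδ.cint hφ)]
      congr 1; funext x; ring
    rw [e1, e2] at this
    rw [e3]
    refine le_of_mul_le_mul_left ?_ t0
    linarith
  have k2 : 0 ≤ ∫ x, δ x * (V ρ x - φ x) := by
    have c : Continuous fun t : ℝ => (∫ x, δ x * (V ρ x - φ x)) + t * ((∫ x, δ x * V δ x) / 2) := by
      fun_prop
    have := ge_of_tendsto ((c.tendsto 0).mono_left (nhdsWithin_le_nhds (s := Ioi 0))) (by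
      filter_upwards [Ioc_mem_nhdsGT zero_lt_one] with t ht using key t ht.1 ht.2)
    simpa using this
  have k3 : ∀ x, δ x * (V ρ x - φ x) ≤ 0 := fun x => by
    by_cases e : x ∈ A
    · exact mul_nonpos_of_nonneg_of_nonpos (by simpa [δ, e] using hρ.le x) (sub_nonpos.2 e.2.le)
    · by_cases e' : x ∈ ball (0 : E3) 2
      · exact mul_nonpos_of_nonpos_of_nonneg (by simpa [δ, e] using hρ.n x)
          (sub_nonneg.2 (not_lt.1 fun h => e ⟨e', h⟩))
      · simp [hδ.sp x e']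
  have k4 := (integral_eq_zero_iff_of_nonneg (f := fun x => -(δ x * (V ρ x - φ x)))
    (fun x => neg_nonneg.2 (k3 x)) (hδ.cint cu).neg).1 (by
      rw [integral_neg, neg_eq_zero]; exact le_antisymm (integral_nonpos k3) k2)
  filter_upwards [k4] with y hy
  simp only [Pi.zero_apply, neg_eq_zero, mul_eq_zero] at hy
  refine ⟨fun h => ?_, fun h h' => ?_⟩
  · have := hy.resolve_right (by linarith)
    have e : y ∉ A := fun e => lt_asymm h e.2
    simpa [δ, e] using this
  · have := hy.resolve_right (by linarith)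
    have e : y ∈ A := ⟨h, h'⟩
    simp only [δ, indicator_of_mem e, Pi.one_apply] at this
    linarith

end Pool.Agent.H60.HS
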