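import Pool.Agent.H60.HSc

set_option autoImplicit false

namespace Pool.Agent.H60.HS

open Set MeasureTheory Metric Real Filter Topology

structure Star (D : Set E3) (δ : ℝ) : Prop where
  cp : IsCompact D
  ne : D.Nonempty
  d0 : 0 < δ
  st : ∀ p ∈ D, ∀ y : E3, ‖y‖ < δ → ∀ t : ℝ, 0 ≤ t → t ≤ 1 → y + t • (p - y) ∈ D

namespace Star
variable {D : Set E3} {δ : ℝ} (h : Star D δ)
include h

lemma key {p : E3} (hp : p ∈ D) {t : ℝ} (t0 : 0 ≤ t) (t1 : t < 1) : t • p ∈ interior D := by
  have s0 : 0 < 1 - t := by linarith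
  refine mem_interior.2 ⟨ball (t • p) ((1 - t) * δ), fun z hz => ?_, isOpen_ball,
    mem_ball_self (mul_pos s0 h.d0)⟩
  have := h.st p hp ((1 - t)⁻¹ • (z - t • p)) (by
    rw [norm_smul, norm_inv, Real.norm_of_nonneg s0.le, inv_mul_lt_iff₀ s0]
    exact mem_ball_iff_norm.1 hz) t t0 t1.le
  convert this using 1
  match_scalars <;> field_simp <;> ring

lemma zero : (0 : E3) ∈ interior D := by
  obtain ⟨p, hp⟩ := h.ne
  simpa using h.key hp le_rfl zero_lt_one

lemma clo : closure (interior D) = D := by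
  refine (closure_minimal interior_subset h.cp.isClosed).antisymm fun p hp => ?_
  have c : Continuous fun t : ℝ => t • p := by fun_prop
  refine mem_closure_of_tendsto ((c.tendsto' 1 p (one_smul _ _)).mono_left
    (nhdsWithin_le_nhds (s := Iio 1))) ?_
  filter_upwards [Ioo_mem_nhdsLT zero_lt_one] with t ht using h.key hp ht.1.le ht.2

lemma fr : frontier (interior D) = D \ interior D := by
  rw [isOpen_interior.frontier_eq, h.clo]

lemma conn : IsConnected (interior D) := by
  refine (StarConvex.isPathConnected (a := 0) ?_ h.zero).isConnected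
  rw [starConvex_zero_iff]
  intro x hx a a0 a1
  rcases a1.eq_or_lt with rfl | e
  · simpa
  · exact h.key (interior_subset hx) a0 e

lemma null : volume (D \ interior D) = 0 := by
  have fin : volume D ≠ ⊤ := h.cp.measure_lt_top.ne
  have : volume D ≤ volume (interior D) := by
    have c : Tendsto (fun t : ℝ => ENNReal.ofReal |t ^ Module.finrank ℝ E3| * volume D) (𝓝[<] 1)
        (𝓝 (ENNReal.ofReal |(1 : ℝ) ^ Module.finrank ℝ E3| * volume D)) :=
      ENNReal.Tendsto.mul_const (ENNReal.tendsto_ofReal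
        ((Continuous.tendsto (by fun_prop) 1).mono_left nhdsWithin_le_nhds)) (Or.inr fin)
    simp only [one_pow, abs_one, ENNReal.ofReal_one, one_mul] at c
    refine le_of_tendsto c ?_
    filter_upwards [Ioo_mem_nhdsLT zero_lt_one] with t ht
    rw [← Measure.addHaar_smul]
    refine measure_mono ?_
    rintro _ ⟨p, hp, rfl⟩
    exact h.key hp ht.1.le ht.2
  rw [measure_diff interior_subset isOpen_interior.nullMeasurableSet
    (ne_top_of_le_ne_top fin (measure_mono interior_subset)), tsub_eq_zero_iff_le]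
  exact this

lemma homeo : Nonempty (frontier (interior D) ≃ₜ sphere (0 : E3) 1) := by
  rw [h.fr]
  have n0 : ∀ p : (D \ interior D : Set E3), ‖(p : E3)‖ ≠ 0 := fun p e =>
    p.2.2 (by rw [norm_eq_zero.1 e]; exact h.zero)
  let F : (D \ interior D : Set E3) → sphere (0 : E3) 1 := fun p =>
    ⟨‖(p : E3)‖⁻¹ • p, by simp [norm_smul, inv_mul_cancel₀ (n0 p)]⟩
  have cF : Continuous F :=
    ((continuous_subtype_val.norm.inv₀ n0).smul continuous_subtype_val).subtype_mk _
  have lt : ∀ p q, F p = F q → ¬ ‖(p : E3)‖ < ‖(q : E3)‖ := fun p q e hl => by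
    have e1 : ‖(p : E3)‖⁻¹ • (p : E3) = ‖(q : E3)‖⁻¹ • (q : E3) := congrArg Subtype.val e
    have := h.key q.2.1 (t := ‖(p : E3)‖ * ‖(q : E3)‖⁻¹) (by positivity) (by
      rwa [← div_eq_mul_inv, div_lt_one ((norm_nonneg _).trans_lt hl)])
    rw [mul_smul, ← e1, smul_inv_smul₀ (n0 p)] at this
    exact p.2.2 this
  have bij : Function.Bijective F := by
    refine ⟨fun p q e => ?_, fun v => ?_⟩
    · have e1 : ‖(p : E3)‖⁻¹ • (p : E3) = ‖(q : E3)‖⁻¹ • (q : E3) := congrArg Subtype.val e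
      rw [le_antisymm (not_lt.1 (lt q p e.symm)) (not_lt.1 (lt p q e))] at e1
      exact Subtype.ext (smul_right_injective _ (inv_ne_zero (n0 q)) e1)
    · have hv : ‖(v : E3)‖ = 1 := by simpa using v.2
      obtain ⟨R, hR⟩ := h.cp.isBounded.exists_norm_le
      have c : Continuous fun s : ℝ => s • (v : E3) := by fun_prop
      obtain ⟨s, ⟨s1, s2⟩, s3⟩ := ((isCompact_Icc (a := 0) (b := R)).inter_right
        (h.cp.isClosed.preimage c)).exists_isGreatest ⟨0, ⟨le_rfl, by
          simpa using hR 0 (interior_subset h.zero)⟩, by simpa using interior_subset h.zero⟩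
      have ns : ∀ s : ℝ, 0 ≤ s → ‖s • (v : E3)‖ = s := fun s s0 => by
        rw [norm_smul, hv, mul_one, Real.norm_of_nonneg s0]
      have ni : s • (v : E3) ∉ interior D := fun hi => by
        obtain ⟨s', a, b⟩ := (((c.tendsto s).eventually (isOpen_interior.mem_nhds hi)).filter_mono
          (nhdsWithin_le_nhds (s := Ioi s))).and self_mem_nhdsWithin |>.exists
        have b' : s < s' := b
        have s0 : 0 ≤ s' := s1.1.trans b'.le
        have := s3 ⟨⟨s0, by simpa [ns s' s0] using hR _ (interior_subset a)⟩,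
          (interior_subset (s := D) a :)⟩
        linarith
      refine ⟨⟨_, s2, ni⟩, Subtype.ext ?_⟩
      have := n0 ⟨_, s2, ni⟩
      simp only [F, ns s s1.1] at this ⊢
      exact inv_smul_smul₀ this _
  haveI : CompactSpace (D \ interior D : Set E3) :=
    isCompact_iff_compactSpace.1 (h.cp.diff isOpen_interior)
  exact ⟨Continuous.homeoOfEquivCompactToT2 (f := Equiv.ofBijective F bij) cF⟩

end Star

lemma bdry_ineq {g : E3 → ℝ} (hg : Den 1000 g) (hm : ∫ y, |g y| ≤ 40)
    (hs : ∀ z, g z ≠ 0 → ‖z‖ < 2 ∨ 999 ≤ ‖z‖) {x y : E3} (hx : ‖x‖ = 100) (hy : ‖y‖ < 1 / 1000)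
    {l : ℝ} (l1 : 1 ≤ l) (l2 : l ≤ 2) :
    l ^ 2 * (V g x + 2 * π / 3 * ‖x‖ ^ 2 - 2) ≤
      V g (y + l • (x - y)) + 2 * π / 3 * ‖y + l • (x - y)‖ ^ 2 - 2 := by
  set x' := y + l • (x - y) with hx'
  have y0 := norm_nonneg y
  have e1 : ‖x' - l • x‖ = (l - 1) * ‖y‖ := by
    rw [show x' - l • x = -((l - 1) • y) by rw [hx']; module, norm_neg, norm_smul,
      Real.norm_of_nonneg (by linarith)]
  have e2 : ‖l • x‖ = 100 * l := by rw [norm_smul, Real.norm_of_nonneg (by linarith), hx]; ring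
  have e3 := abs_norm_sub_norm_le x' (l • x)
  rw [e1, e2, abs_le] at e3
  have e4 : ‖x - x'‖ ≤ (l - 1) * 101 := by
    rw [show x - x' = -((l - 1) • (x - y)) by rw [hx']; module, norm_neg, norm_smul,
      Real.norm_of_nonneg (by linarith)]
    exact mul_le_mul_of_nonneg_left (by linarith [norm_sub_le x y]) (by linarith)
  have q : (l - 1) * ‖y‖ ≤ (l - 1) / 1000 := by nlinarith
  obtain ⟨a, b⟩ := hg.far (x := x) (x' := x') (d := 90) (by norm_num) hm fun z hz => by
    have := abs_le.1 (abs_norm_sub_norm_le x z)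
    have := abs_le.1 (abs_norm_sub_norm_le x' z)
    rcases hs z hz with e | e <;> constructor <;> linarith
  rw [abs_le] at a b
  have p := pi_lt_d2
  have p0 := pi_pos
  have k1 : 100 * l - (l - 1) / 1000 ≤ ‖x'‖ := by linarith
  have k2 : l ^ 2 * 100 ^ 2 - 2 / 5 * (l - 1) ≤ ‖x'‖ ^ 2 := by
    have := pow_le_pow_left₀ (by linarith) k1 2
    nlinarith
  have k3 : (l ^ 2 - 1) * V g x ≤ (l ^ 2 - 1) * (40 / 90) :=
    mul_le_mul_of_nonneg_left a.2 (by nlinarith)
  have k4 := mul_le_mul_of_nonneg_left k2 p0.le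
  have k5 : π * (l - 1) ≤ 3.15 * (l - 1) := mul_le_mul_of_nonneg_right p.le (by linarith)
  rw [hx]
  nlinarith [b.2]

end Pool.Agent.H60.HS
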