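import Pool.Agent.H60.HSd

set_option autoImplicit false

namespace Pool.Agent.H60.HS

open Set MeasureTheory Metric Real Filter Topology

noncomputable def DU : Set E3 := closedBall 0 1000 ∩ {z | z 0 ≤ 1000 - 1 / 2000}

lemma DU_closed : IsClosed {z : E3 | z 0 ≤ 1000 - 1 / 2000} := isClosed_le (by fun_prop) continuous_const

lemma DU_star : Star DU 1 := by
  have cv : Convex ℝ DU := (convex_closedBall _ _).inter
    (convex_halfSpace_le (EuclideanSpace.projₗ (𝕜 := ℝ) (0 : Fin 3)).isLinear _)
  have hy : ∀ y : E3, ‖y‖ < 1 → y ∈ DU := fun y hy =>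
    ⟨mem_closedBall_zero_iff.2 (by linarith), by
      have := (le_abs_self _).trans (PiLp.norm_apply_le y 0)
      simp only [mem_setOf_eq]; linarith⟩
  exact ⟨(isCompact_closedBall _ _).inter_right DU_closed, ⟨0, hy 0 (by simp)⟩, one_pos,
    fun p hp y h t t0 t1 => cv.add_smul_sub_mem (hy y h) hp ⟨t0, t1⟩⟩

lemma U_sub : interior DU ⊆ ball 0 1000 := by
  rw [← interior_closedBall (0 : E3) (by norm_num)]
  exact interior_mono inter_subset_left

lemma sub_U {z : E3} (h1 : z ∈ ball (0 : E3) 1000) (h2 : z 0 < 1000 - 1 / 2000) :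
    z ∈ interior DU :=
  mem_interior.2 ⟨ball 0 1000 ∩ {z | z 0 < 1000 - 1 / 2000},
    fun _ hw => ⟨ball_subset_closedBall hw.1, (le_of_lt (α := ℝ) hw.2 :)⟩,
    isOpen_ball.inter (isOpen_lt (by fun_prop) continuous_const), h1, h2⟩

lemma in_U {z : E3} (h : ‖z‖ < 999) : z ∈ interior DU :=
  sub_U (mem_ball_zero_iff.2 (by linarith)) (by
    have := (le_abs_self _).trans (PiLp.norm_apply_le z 0)
    linarith)

lemma cap_sub : ball 0 1000 \ interior DU ⊆ ball (EuclideanSpace.single 0 1000 : E3) 1 := by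
  rintro z ⟨h1, h2⟩
  have h3 : 1000 - 1 / 2000 ≤ z 0 := not_lt.1 fun e => h2 (sub_U h1 e)
  rw [mem_ball_zero_iff, ← sq_lt_sq₀ (norm_nonneg _) (by norm_num)] at h1
  rw [mem_ball_iff_norm, ← sq_lt_sq₀ (norm_nonneg _) zero_le_one, norm_sub_sq_real,
    EuclideanSpace.inner_single_right]
  simp
  linarith

lemma not_ell (f : E3 ≃ᵃ[ℝ] E3) : frontier (interior DU) ≠ f '' sphere 0 1 := by
  intro e
  let q : ℝ → E3 := fun s => !₂[1000 - 1 / 2000, s, 0]
  have hq : ∀ s : ℝ, s ^ 2 ≤ 1 / 4 → q s ∈ f '' sphere 0 1 := fun s hs => by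
    rw [← e, DU_star.fr]
    refine ⟨⟨?_, by simp [q]⟩, fun hi => ?_⟩
    · rw [mem_closedBall_zero_iff, ← sq_le_sq₀ (norm_nonneg _) (by norm_num),
        EuclideanSpace.real_norm_sq_eq]
      simp [q, Fin.sum_univ_three]
      linarith
    · have c : Continuous fun t : ℝ => q s + t • EuclideanSpace.single 0 1 := by fun_prop
      obtain ⟨t, a, b⟩ := (((c.tendsto' 0 (q s) (by simp)).eventually
        (isOpen_interior.mem_nhds hi)).filter_mono
          (nhdsWithin_le_nhds (s := Ioi 0))).and self_mem_nhdsWithin |>.exists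
      have := (interior_subset (s := DU) a).2
      have b' : 0 < t := b
      simp [q] at this
      linarith
  obtain ⟨u, hu, eu⟩ := hq (1 / 2) (by norm_num)
  obtain ⟨v, hv, ev⟩ := hq (-1 / 2) (by norm_num)
  obtain ⟨w, hw, ew⟩ := hq 0 (by norm_num)
  have m : w = midpoint ℝ u v := by
    apply f.injective
    rw [f.map_midpoint, eu, ev, ew, midpoint_eq_smul_add]
    ext i; fin_cases i <;> simp [q] <;> norm_num
  have ne : u ≠ v := fun h => by
    have := congrArg (fun z : E3 => z 1) (eu.symm.trans (h ▸ ev))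
    simp [q] at this
    linarith
  rw [mem_sphere_zero_iff_norm] at hu hv hw
  have := norm_midpoint_lt_iff (x := u) (y := v) (hu.trans hv.symm)
  rw [m, midpoint_eq_smul_add] at hw
  simp only [invOf_eq_inv, one_div] at this hw
  rw [hw, hu] at this
  exact lt_irrefl _ (this.2 ne)

theorem main : ∃ D : Set E3, Star D (1 / 1000) ∧ D ⊆ interior DU ∧
    ∃ c : ℝ, ∀ P ∈ D, ∫ M in interior DU \ D, (dist P M)⁻¹ = c := by
  set U := interior DU with hU
  have mU : MeasurableSet U := isOpen_interior.measurableSet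
  let b : E3 → ℝ := (ball 0 1000 \ U).indicator 1
  have hb : Den 1000 b := Den.ind (measurableSet_ball.diff mU) diff_subset
  have bf : ∀ z, b z ≠ 0 → 999 ≤ ‖z‖ := fun z hz => not_lt.1 fun e =>
    hz (indicator_of_notMem (fun h => h.2 (in_U e)) _)
  have b01 : ∀ z, 0 ≤ b z ∧ b z ≤ 1 := fun z => ⟨indicator_nonneg (fun _ _ => zero_le_one) z,
    (le_abs_self _).trans (hb.bd z)⟩
  have p3 := pi_gt_three
  have p4 := pi_lt_d2
  have bm : ∫ z, b z ≤ 5 := by
    rw [integral_indicator_one (measurableSet_ball.diff mU)]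
    refine (measureReal_mono cap_sub measure_ball_lt_top.ne).trans ?_
    rw [vol_ball _ zero_le_one]; linarith
  obtain ⟨ρ, hρ, hae⟩ := obstacle (φ := fun x => 2 - 2 * π / 3 * ‖x‖ ^ 2 - V b x)
    (by have := hb.cont; fun_prop)
  have ρ2 : ∀ z, ρ z ≠ 0 → ‖z‖ < 2 := fun z hz => by
    by_contra e; exact hz (hρ.d.sp z (by simpa using e))
  have ρm : ∫ z, ρ z ≤ 35 := by
    have : ∫ z, ρ z ≤ ∫ z, (ball (0 : E3) 2).indicator 1 z := integral_mono hρ.d.int
      (Den.ind (L := 2) measurableSet_ball subset_rfl).int fun y => by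
        by_cases e : y ∈ ball (0 : E3) 2
        · simpa [e] using hρ.le y
        · simp [e, hρ.d.sp y e]
    rw [integral_indicator_one measurableSet_ball, vol_ball _ zero_le_two] at this
    linarith
  let g : E3 → ℝ := fun z => ρ z + 1 * b z
  have g0 : ∀ z, 0 ≤ g z := fun z => by simp only [g]; linarith [hρ.n z, (b01 z).1]
  have hg : Den 1000 g := ⟨hρ.d.m.add (hb.m.const_mul 1), fun z => by
    rw [abs_of_nonneg (g0 z)]
    by_cases e : ρ z = 0
    · simpa [g, e] using (b01 z).2
    · have : b z = 0 := by by_contra e'; linarith [bf z e', ρ2 z e]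
      simpa [g, this] using hρ.le z,
    fun z hz => by simp only [g, hb.sp z hz, (hρ.d.mono (by norm_num)).sp z hz]; simp⟩
  have gm : ∫ z, |g z| ≤ 40 := by
    simp only [fun z => abs_of_nonneg (g0 z)]
    simp only [g, one_mul]
    rw [integral_add hρ.d.int hb.int]; linarith
  have gs : ∀ z, g z ≠ 0 → ‖z‖ < 2 ∨ 999 ≤ ‖z‖ := fun z hz => by
    by_cases e : ρ z = 0
    · exact Or.inr (bf z (by simpa [g, e] using hz))
    · exact Or.inl (ρ2 z e)
  let τ : E3 → ℝ := fun z => (ball (0 : E3) 1000).indicator 1 z + -1 * g z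
  have τU : ∀ z ∈ U, τ z = 1 - ρ z := fun z hz => by
    simp [τ, g, b, hz, U_sub hz]; ring
  have τN : ∀ z ∉ U, τ z = 0 := fun z hz => by
    have : ρ z = 0 := by by_contra e; exact hz (in_U (by linarith [ρ2 z e]))
    by_cases e : z ∈ ball (0 : E3) 1000 <;> simp [τ, g, b, hz, this, e]
  have τ01 : ∀ z, 0 ≤ τ z ∧ τ z ≤ 1 := fun z => by
    by_cases e : z ∈ U
    · rw [τU z e]; constructor <;> linarith [hρ.n z, hρ.le z]
    · simp [τN z e]
  have hχ : Den 1000 ((ball (0 : E3) 1000).indicator 1) := Den.ind measurableSet_ball subset_rfl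
  have hτ : Den 1000 τ := ⟨hχ.m.add (hg.m.const_mul _), fun z => by
    rw [abs_of_nonneg (τ01 z).1]; exact (τ01 z).2, fun z hz => τN z fun e => hz (U_sub e)⟩
  set c := 2 * π * 1000 ^ 2 - 2 with hc
  have uf : ∀ x, ‖x‖ ≤ 1000 → c - V τ x = V g x + 2 * π / 3 * ‖x‖ ^ 2 - 2 := fun x hx => by
    have : V ((ball (0 : E3) 1000).indicator 1) x = ∫ z in ball (0 : E3) 1000, ‖z - x‖⁻¹ := by
      rw [V, ← integral_indicator measurableSet_ball]
      congr 1; funext z; by_cases e : z ∈ ball (0 : E3) 1000 <;> simp [e, norm_sub_rev]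
    rw [V_lin hχ hg, this, newton_in hx]; ring
  have hae' : ∀ᵐ y, ‖y‖ < 999 → (0 < c - V τ y → τ y = 1) ∧ (‖y‖ < 2 → c - V τ y < 0 → τ y = 0) := by
    filter_upwards [hae] with y hy e
    rw [uf y (by linarith), V_lin hρ.d hb, τU y (in_U e)]
    exact ⟨fun a => by rw [hy.1 (by linarith)]; simp,
      fun a a' => by rw [hy.2 (by simpa using a) (by linarith)]; simp⟩
  have big : ∀ x : E3, ‖x‖ ≤ 1000 → 2 * (‖x‖ ^ 2 - 1) ≤ c - V τ x := fun x hx => by
    rw [uf x hx]; nlinarith [V_nonneg g0 x, sq_nonneg ‖x‖]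
  have neg : ∀ x, V (fun z => -τ z) x = -V τ x := fun x => by simp [V, integral_neg]
  have u0 : ∀ x : E3, ‖x‖ ≤ 1000 → 0 ≤ c - V τ x := fun x hx => by
    rcases le_total ‖x‖ 1 with e | e
    · have hn : Den 1000 fun z => -τ z := ⟨hτ.m.neg, fun z => by simpa using hτ.bd z,
        fun z hz => by simp [hτ.sp z hz]⟩
      have := hn.minp (R := 1) (c := c) (fun x hx => by
        have := big x (by linarith); rw [hx] at this; rw [neg]; linarith) (by
        filter_upwards [hae'] with y hy a a'
        rw [neg] at a'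
        rw [(hy (by linarith)).2 (by linarith) (by linarith)]; simp) x e
      rw [neg] at this; linarith
    · nlinarith [big x hx]
  let D := closedBall (0 : E3) 100 ∩ {x | V τ x = c}
  have D1 : ∀ p ∈ D, ‖p‖ ≤ 1 := fun p hp => by
    have a := mem_closedBall_zero_iff.1 hp.1
    have := big p (by linarith)
    rw [hp.2] at this
    nlinarith [norm_nonneg p]
  have cD : IsCompact D := (isCompact_closedBall _ _).inter_right (isClosed_eq hτ.cont continuous_const)
  have half : ∀ p ∈ D, ∀ y : E3, ‖y‖ < 1 / 1000 → ∀ t : ℝ, 1 / 2 ≤ t → t ≤ 1 →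
      y + t • (p - y) ∈ D := by
    intro p hp y hy t t0 t1
    have tp : 0 < t := by linarith
    set l := t⁻¹ with hl
    have l1 : 1 ≤ l := (one_le_inv₀ tp).2 t1
    have l2 : l ≤ 2 := by rw [hl, inv_le_comm₀ tp two_pos]; linarith
    have l0 : 0 < l := by linarith
    have nl : ∀ w : E3, ‖w‖ ≤ 100 → ‖y + l • (w - y)‖ ≤ 1000 := fun w hw => by
      have := norm_add_le y (l • (w - y))
      rw [norm_smul, Real.norm_of_nonneg l0.le] at this
      nlinarith [norm_sub_le w y, norm_nonneg (w - y)]
    have hl' : Den 1001 fun w => τ (y + l • (w - y)) := ⟨hτ.m.comp (by fun_prop),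
      fun w => hτ.bd _, fun w hw => hτ.sp _ fun e => hw (by
        rw [mem_ball_zero_iff] at e ⊢
        have a := norm_sub_le (y + l • (w - y)) y
        rw [add_sub_cancel_left, norm_smul, Real.norm_of_nonneg l0.le] at a
        have := norm_add_le (w - y) y
        rw [sub_add_cancel] at this
        nlinarith [norm_nonneg (w - y)])⟩
    have hd : Den 1001 fun w => τ w + -1 * τ (y + l • (w - y)) :=
      ⟨hτ.m.add (hl'.m.const_mul _), fun w => abs_le.2
        ⟨by linarith [(τ01 w).1, (τ01 (y + l • (w - y))).2],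
          by linarith [(τ01 w).2, (τ01 (y + l • (w - y))).1]⟩,
        fun w hw => by rw [hl'.sp w hw, (hτ.mono (by norm_num)).sp w hw]; simp⟩
    have ed : ∀ x, l ^ 2 * (c / l ^ 2 - c + V (fun w => τ w + -1 * τ (y + l • (w - y))) x) =
        (c - V τ (y + l • (x - y))) - l ^ 2 * (c - V τ x) := fun x => by
      rw [V_lin hτ hl', V_scale τ y x l0]; field_simp; ring
    have l3 : 0 < l ^ 2 := by positivity
    have nx : ‖y + t • (p - y)‖ ≤ 100 := by
      have := norm_add_le y (t • (p - y))
      rw [norm_smul, Real.norm_of_nonneg tp.le] at this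
      nlinarith [norm_sub_le p y, norm_nonneg (p - y), D1 p hp]
    have := hd.minp (R := 100) (c := c / l ^ 2 - c) (fun x hx => by
      refine le_of_mul_le_mul_left ?_ l3
      rw [ed, uf x (by linarith), uf _ (nl x hx.le)]
      linarith [bdry_ineq hg gm gs hx hy l1 l2]) (by
      filter_upwards [hae'] with w hw a a'
      have a2 := mul_neg_of_pos_of_neg l3 a'
      rw [ed] at a2
      have := u0 _ (nl w a.le)
      rw [(hw (by linarith)).1 ((mul_pos_iff_of_pos_left l3).1 (by linarith))]
      linarith [(τ01 (y + l • (w - y))).2]) _ nx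
    have k := mul_nonneg l3.le this
    rw [ed, add_sub_cancel_left, smul_smul, hl, inv_mul_cancel₀ tp.ne', one_smul,
      add_sub_cancel, hp.2, sub_self, zero_sub, neg_nonneg] at k
    refine ⟨mem_closedBall_zero_iff.2 nx, ?_⟩
    have := u0 _ (nx.trans (by norm_num))
    have := nonpos_of_mul_nonpos_right k l3
    simp only [mem_setOf_eq]
    linarith
  have hS : Star D (1 / 1000) := by
    refine ⟨cD, ?_, by norm_num, fun p hp y hy => ?_⟩
    · by_contra hne
      have z : ∀ᵐ y, ρ y = 0 := by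
        filter_upwards [hae'] with y hy
        by_contra e
        have y2 := ρ2 y e
        have := (hy (by linarith)).1 ((u0 y (by linarith)).lt_of_ne fun e' =>
          hne ⟨y, mem_closedBall_zero_iff.2 (by linarith), by simp only [mem_setOf_eq]; linarith⟩)
        rw [τU y (in_U (by linarith))] at this
        exact e (by linarith)
      have a := u0 0 (by simp)
      rw [uf 0 (by simp), V_lin hρ.d hb, show V ρ 0 = 0 from integral_eq_zero_of_ae (by
        filter_upwards [z] with y hy; simp [hy])] at a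
      have := (hb.far (x := 0) (x' := 0) (d := 999) (m := 5) (by norm_num)
        (by simpa only [fun z => abs_of_nonneg (b01 z).1] using bm)
        fun z hz => by simpa using bf z hz).1
      simp only [norm_zero] at a
      linarith [(abs_le.1 this).2]
    · have ind : ∀ n : ℕ, ∀ t : ℝ, (1 / 2) ^ n ≤ t → t ≤ 1 → y + t • (p - y) ∈ D := by
        intro n
        induction n with
        | zero => exact fun t a a' => half p hp y hy t (by simp at a; linarith) a'
        | succ n ih =>
          intro t a a'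
          rcases le_total (1 / 2) t with e | e
          · exact half p hp y hy t e a'
          · have := half _ (ih (2 * t) (by rw [pow_succ] at a; linarith) (by linarith)) y hy
              (1 / 2) le_rfl (by norm_num)
            rwa [add_sub_cancel_left, smul_smul, show 1 / 2 * (2 * t) = t by ring] at this
      have pos : ∀ t : ℝ, 0 < t → t ≤ 1 → y + t • (p - y) ∈ D := fun t a a' => by
        obtain ⟨n, hn⟩ := exists_pow_lt_of_lt_one a (show (1 / 2 : ℝ) < 1 by norm_num)
        exact ind n t hn.le a'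
      intro t t0 t1
      rcases t0.eq_or_lt with rfl | e
      · have cc : Continuous fun t : ℝ => y + t • (p - y) := by fun_prop
        refine cD.isClosed.mem_of_tendsto ((cc.tendsto 0).mono_left
          (nhdsWithin_le_nhds (s := Ioi 0))) ?_
        filter_upwards [Ioc_mem_nhdsGT zero_lt_one] with t ht using pos t ht.1 ht.2
      · exact pos t e t1
  have DU' : D ⊆ U := fun p hp => in_U (by linarith [D1 p hp])
  refine ⟨D, hS, DU', c, fun P hP => ?_⟩
  have z : volume {y | y ∈ interior D ∧ τ y ≠ 0} = 0 := by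
    refine measure_null_of_locally_null _ fun x hx => ?_
    obtain ⟨r, r0, hr⟩ := Metric.isOpen_iff.1 isOpen_interior x hx.1
    have := hτ.mean_eq r0 (fun y => (τ01 y).1) fun z hz => (interior_subset (hr hz)).2
    refine ⟨{y | y ∈ interior D ∧ τ y ≠ 0} ∩ ball x r, inter_mem_nhdsWithin _ (ball_mem_nhds x r0),
      measure_mono_null (fun y hy => ?_) this⟩
    exact fun e => hy.1.2 (e hy.2)
  rw [← hP.2, V, ← integral_indicator (mU.diff cD.measurableSet)]
  refine integral_congr_ae ?_
  filter_upwards [compl_mem_ae_iff.2 z, compl_mem_ae_iff.2 hS.null, hae'] with y a1 a2 a3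
  by_cases e : y ∈ U \ D
  · rw [indicator_of_mem e, dist_eq_norm, show τ y = 1 from ?_, one_mul]
    by_cases e' : ρ y = 0
    · rw [τU y e.1, e', sub_zero]
    · have y2 := ρ2 y e'
      exact (a3 (by linarith)).1 ((u0 y (by linarith)).lt_of_ne fun e'' =>
        e.2 ⟨mem_closedBall_zero_iff.2 (by linarith), by simp only [mem_setOf_eq]; linarith⟩)
  · rw [indicator_of_notMem e, show τ y = 0 from ?_, zero_mul]
    by_cases e' : y ∈ U
    · have yD : y ∈ D := by by_contra e2; exact e ⟨e', e2⟩
      by_contra e3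
      exact a1 ⟨by by_contra e4; exact a2 ⟨yD, e4⟩, e3⟩
    · exact τN y e'

end Pool.Agent.H60.HS
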