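import Mathlib

namespace Pool.Agent.H60.Hess

def Nf {R : Type*} [CommRing R] (a b x y z : R) : R :=
  x * ((x + b * z) * (x + b * z + a * (y + a * z)) - (y + a * z) * (z + b * (y + a * z)))
  - y * (z * (x + b * z + a * (y + a * z)) - (y + a * z) * (y + a * z))
  + z * (z * (z + b * (y + a * z)) - (x + b * z) * (y + a * z))

def E (a b : ℤ) : ℤ := -(a ^ 2 * b ^ 2 + 4 * b ^ 3 - 4 * a ^ 3 - 27 - 18 * a * b)

structure H (a b : ℤ) (r s p : ℝ) : Prop where
  ha : (a : ℝ) = r + s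
  hb : (b : ℝ) = -(r * s + p)
  hp : r * p = 1
  hd : s ^ 2 < 4 * p

def V (a b : ℤ) (r : ℝ) : Set ℝ :=
  {β | ∃ x y z : ℤ, Odd x ∧ Odd y ∧ Odd z ∧ Nf a b x y z = 4 ∧ β = x + y * r + z * r ^ 2}

def Win (e R : ℝ) : Prop := ∀ μ > 0, ∃ A, μ ≤ A ∧ A < μ * R ∧ (A < 1 → A * (1 - A) ^ 2 * e ≤ 16)

variable {a b : ℤ} {r s p : ℝ}

theorem H.p_pos (h : H a b r s p) : 0 < p := by nlinarith [h.hd, sq_nonneg s]
theorem H.r_pos (h : H a b r s p) : 0 < r := by
  have := h.p_pos
  by_contra hc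
  have : r * p ≤ 0 := mul_nonpos_of_nonpos_of_nonneg (le_of_not_gt hc) this.le
  linarith [h.hp]
theorem H.quad_pos (h : H a b r s p) (t : ℝ) : 0 < t ^ 2 - s * t + p := by
  nlinarith [h.hd, sq_nonneg (2 * t - s)]
theorem H.E_eq (h : H a b r s p) : (E a b : ℝ) = (r ^ 2 - s * r + p) ^ 2 * (4 * p - s ^ 2) := by
  unfold E
  push_cast
  rw [h.ha, h.hb]
  have := h.hp
  linear_combination (4 * (r + s) ^ 3 - 18 * (r + s) * (r * s + p) + 27 * (r * p + 1)) * (-1) * this
theorem H.root (h : H a b r s p) : r ^ 3 = a * r ^ 2 + b * r + 1 := by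
  rw [h.ha, h.hb]; linear_combination h.hp
theorem H.symm (h : H a b r s p) : H (-b) (-a) p (r * s) r := by
  refine ⟨?_, ?_, by rw [mul_comm]; exact h.hp, ?_⟩
  · push_cast; rw [h.hb]; ring
  · push_cast; rw [h.ha]; linear_combination s * h.hp
  · have h1 := h.r_pos
    have h2 := mul_lt_mul_of_pos_left h.hd (pow_pos h1 2)
    have h3 : r ^ 2 * (4 * p) = 4 * r := by linear_combination 4 * r * h.hp
    nlinarith

theorem key (h : H a b r s p) (x y z : ℝ) :
    4 * Nf (a : ℝ) b x y z * (r ^ 2 - s * r + p) = (x + y * r + z * r ^ 2) *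
      ((4 * p - s ^ 2) * (z * (r ^ 2 - s * r + p) - (x + y * r + z * r ^ 2)) ^ 2 +
        (x * (s - 2 * r) + y * (2 * p - r * s) + z * (p * s - r * (s ^ 2 - 2 * p))) ^ 2) := by
  have hr := h.r_pos.ne'
  have hp : p = 1 / r := by rw [eq_div_iff hr, mul_comm]; exact h.hp
  unfold Nf
  rw [h.ha, h.hb, hp]
  field_simp
  ring

theorem V_ineq (h : H a b r s p) {β : ℝ} (hβ : β ∈ V a b r) :
    0 < β ∧ (β / (r ^ 2 - s * r + p) < 1 → β / (r ^ 2 - s * r + p) *
      (1 - β / (r ^ 2 - s * r + p)) ^ 2 * (E a b : ℝ) ≤ 16) := by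
  obtain ⟨x, y, z, -, -, hz, hN, hb⟩ := hβ
  have hk := key h x y z
  have hN' : Nf (a : ℝ) b x y z = 4 := by
    have : ((Nf a b x y z : ℤ) : ℝ) = 4 := by rw [hN]; norm_num
    unfold Nf at this ⊢
    push_cast at this
    exact this
  rw [hN', ← hb] at hk
  have hF := h.quad_pos r
  set F := r ^ 2 - s * r + p with hFd
  set δ := 4 * p - s ^ 2 with hδ
  have hδ0 : 0 < δ := by rw [hδ]; linarith [h.hd]
  set R := x * (s - 2 * r) + y * (2 * p - r * s) + z * (p * s - r * (s ^ 2 - 2 * p))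
  have h0 : 0 ≤ δ * (z * F - β) ^ 2 + R ^ 2 := by positivity
  have hβ0 : 0 < β := by
    by_contra hc
    have : β * (δ * (z * F - β) ^ 2 + R ^ 2) ≤ 0 := mul_nonpos_of_nonpos_of_nonneg (le_of_not_gt hc) h0
    linarith
  refine ⟨hβ0, fun hA => ?_⟩
  rw [div_lt_one hF] at hA
  have h1 : (F - β) ^ 2 ≤ (z * F - β) ^ 2 := by
    have hz0 : z ≠ 0 := by rintro rfl; simp at hz
    rcases lt_or_gt_of_ne hz0 with h2 | h2
    · have : (z : ℝ) ≤ -1 := by exact_mod_cast (show z ≤ -1 by omega)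
      have h3 : z * F ≤ -F := by nlinarith
      nlinarith
    · have : (1 : ℝ) ≤ z := by exact_mod_cast (show 1 ≤ z by omega)
      have h3 : F ≤ z * F := by nlinarith
      nlinarith
  have h2 : β * (δ * (F - β) ^ 2) ≤ 16 * F := by
    have : δ * (F - β) ^ 2 ≤ δ * (z * F - β) ^ 2 + R ^ 2 := by
      nlinarith [mul_le_mul_of_nonneg_left h1 hδ0.le, sq_nonneg R]
    nlinarith [mul_le_mul_of_nonneg_left this hβ0.le]
  rw [h.E_eq, ← hFd, ← hδ]
  have h3 : β / F * (1 - β / F) ^ 2 * (F ^ 2 * δ) = β * (δ * (F - β) ^ 2) / F := by field_simp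
  rw [h3, div_le_iff₀ hF]
  exact h2

theorem V_r (h : H a b r s p) (ha : Even a) (hb : Even b) {β : ℝ} (hβ : β ∈ V a b r) :
    β * r ∈ V a b r := by
  obtain ⟨x, y, z, hx, hy, hz, hN, rfl⟩ := hβ
  refine ⟨z, x + b * z, y + a * z, hz, hx.add_even (hb.mul_right _), hy.add_even (ha.mul_right _), ?_, ?_⟩
  · rw [← hN]; unfold Nf; ring
  · push_cast; linear_combination z * h.root

theorem V_p (h : H a b r s p) (ha : Even a) (hb : Even b) {β : ℝ} (hβ : β ∈ V a b r) :
    β * p ∈ V a b r := by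
  obtain ⟨x, y, z, hx, hy, hz, hN, rfl⟩ := hβ
  refine ⟨y - b * x, z - a * x, x, hy.sub_even (hb.mul_right _), hz.sub_even (ha.mul_right _), hx, ?_, ?_⟩
  · rw [← hN]; unfold Nf; ring
  · push_cast; linear_combination (-x * p) * h.root + (y + z * r + x * r ^ 2 - x * a * r - x * b) * h.hp

theorem V_cp {c : ℤ} (h : H (c ^ 2) (2 * c) r s p) (hc : Even c) {β : ℝ}
    (hβ : β ∈ V (c ^ 2) (2 * c) r) : β * (c + p) ∈ V (c ^ 2) (2 * c) r := by
  obtain ⟨x, y, z, hx, hy, hz, hN, rfl⟩ := hβ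
  have h2 : Even (c ^ 2) := by rw [sq]; exact hc.mul_right _
  refine ⟨c * x + (y - 2 * c * x), c * y + (z - c ^ 2 * x), c * z + x,
    (hc.mul_right _).add_odd (hy.sub_even ((even_two.mul_right _).mul_right _)),
    (hc.mul_right _).add_odd (hz.sub_even (h2.mul_right _)), (hc.mul_right _).add_odd hx, ?_, ?_⟩
  · rw [← hN]; unfold Nf; ring
  · have h1 := h.root
    push_cast at h1 ⊢
    linear_combination (-x * p) * h1 + (y + z * r + x * r ^ 2 - x * c ^ 2 * r - x * (2 * c)) * h.hp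

theorem V_cr {c : ℤ} (h : H (-(2 * c)) (-c ^ 2) r s p) (hc : Even c) {β : ℝ}
    (hβ : β ∈ V (-(2 * c)) (-c ^ 2) r) : β * (c + r) ∈ V (-(2 * c)) (-c ^ 2) r := by
  obtain ⟨x, y, z, hx, hy, hz, hN, rfl⟩ := hβ
  have h2 : Even (c ^ 2) := by rw [sq]; exact hc.mul_right _
  refine ⟨c * x + z, c * y + (x - c ^ 2 * z), c * z + (y - 2 * c * z),
    (hc.mul_right _).add_odd hz,
    (hc.mul_right _).add_odd (hx.sub_even (h2.mul_right _)),
    (hc.mul_right _).add_odd (hy.sub_even ((even_two.mul_right _).mul_right _)), ?_, ?_⟩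
  · rw [← hN]; unfold Nf; ring
  · have h1 := h.root
    push_cast at h1 ⊢
    linear_combination z * h1

theorem win_of (h : H a b r s p) (hne : (V a b r).Nonempty) (R : ℝ) (hR : 1 < R)
    (h1 : ∀ β ∈ V a b r, β * R ∈ V a b r) (h2 : ∀ β ∈ V a b r, β * R⁻¹ ∈ V a b r) :
    Win (E a b) R := by
  intro μ hμ
  obtain ⟨β, hβ⟩ := hne
  have hF := h.quad_pos r
  have hz : ∀ n : ℤ, β * R ^ n ∈ V a b r := by
    intro n
    induction n using Int.induction_on with
    | zero => simpa using hβ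
    | succ n ih => rw [zpow_add_one₀ (by linarith), ← mul_assoc]; exact h1 _ ih
    | pred n ih => rw [zpow_sub_one₀ (by linarith), ← mul_assoc]; exact h2 _ ih
  have hβ0 := (V_ineq h hβ).1
  obtain ⟨n, hn1, hn2⟩ := exists_mem_Ico_zpow
    (show 0 < β / (r ^ 2 - s * r + p) / μ by positivity) hR
  have hRn : 0 < R ^ n := zpow_pos (by linarith) n
  refine ⟨β * R ^ (-n) / (r ^ 2 - s * r + p), ?_, ?_, (V_ineq h (hz (-n))).2⟩
  · rw [le_div_iff₀ hμ] at hn1
    have : β * R ^ (-n) / (r ^ 2 - s * r + p) = β / (r ^ 2 - s * r + p) / R ^ n := by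
      rw [zpow_neg]; field_simp
    rw [this, le_div_iff₀ hRn]; linarith
  · rw [div_lt_iff₀ hμ, zpow_add_one₀ (by linarith)] at hn2
    have : β * R ^ (-n) / (r ^ 2 - s * r + p) = β / (r ^ 2 - s * r + p) / R ^ n := by
      rw [zpow_neg]; field_simp
    rw [this, div_lt_iff₀ hRn]; linarith

theorem noWin {e R : ℝ} (μ hi : ℝ) (hμ : 0 < μ) (hR : R ≤ hi) (h1 : μ * hi ≤ 1)
    (h2 : 16 < μ * (1 - μ) ^ 2 * e) (h3 : 16 < μ * hi * (1 - μ * hi) ^ 2 * e) : ¬ Win e R := by
  intro hW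
  obtain ⟨A, hA1, hA2, hA3⟩ := hW μ hμ
  have hA4 : A < μ * hi := hA2.trans_le (mul_le_mul_of_nonneg_left hR hμ.le)
  have hA5 := hA3 (by linarith)
  have he : 0 < e := by
    by_contra hc
    have : μ * (1 - μ) ^ 2 * e ≤ 0 := mul_nonpos_of_nonneg_of_nonpos (by positivity) (le_of_not_gt hc)
    linarith
  rcases le_total A (1 / 3) with h | h
  · have : μ * (1 - μ) ^ 2 ≤ A * (1 - A) ^ 2 := by
      have e1 : A * (1 - A) ^ 2 - μ * (1 - μ) ^ 2 = (A - μ) * ((1 / 3 - A) + (1 / 3 - μ) +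
        (1 / 3 - A) ^ 2 + (1 / 3 - A) * (1 / 3 - μ) + (1 / 3 - μ) ^ 2) := by ring
      have e2 : 0 ≤ 1 / 3 - A := by linarith
      have e3 : 0 ≤ 1 / 3 - μ := by linarith
      have e4 : 0 ≤ A - μ := by linarith
      have : 0 ≤ (A - μ) * ((1 / 3 - A) + (1 / 3 - μ) +
        (1 / 3 - A) ^ 2 + (1 / 3 - A) * (1 / 3 - μ) + (1 / 3 - μ) ^ 2) := by positivity
      linarith
    nlinarith
  · set ν := μ * hi
    have : ν * (1 - ν) ^ 2 ≤ A * (1 - A) ^ 2 := by
      have e1 : A * (1 - A) ^ 2 - ν * (1 - ν) ^ 2 = (ν - A) * ((A - 1 / 3) * (1 - A) +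
        (ν - 1 / 3) * (1 - ν) + ((A - 1 / 3) * (1 - ν) + (ν - 1 / 3) * (1 - A)) / 2) := by ring
      have e2 : 0 ≤ A - 1 / 3 := by linarith
      have e3 : 0 ≤ ν - 1 / 3 := by linarith
      have e4 : 0 ≤ ν - A := by linarith
      have e5 : 0 ≤ 1 - A := by linarith
      have e6 : 0 ≤ 1 - ν := by linarith
      have : 0 ≤ (ν - A) * ((A - 1 / 3) * (1 - A) +
        (ν - 1 / 3) * (1 - ν) + ((A - 1 / 3) * (1 - ν) + (ν - 1 / 3) * (1 - A)) / 2) := by positivity
      linarith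
    nlinarith

def L6 : List (ℤ × ℤ) := [(2, 0), (2, 2), (4, -2), (4, 4), (6, -4), (10, -6)]

theorem box : ∀ i ∈ List.range 9, ∀ j ∈ List.range 8,
    0 < E (2 * i) (2 * j - 8) → 0 < 2 * (i : ℤ) + (2 * j - 8) → ((2 * i : ℤ), (2 * j - 8 : ℤ)) ∈ L6 ∨
      ∃ u ∈ List.range 200, 0 ≤ (u : ℤ) ^ 3 - (2 * i) * u ^ 2 * 10 - (2 * j - 8) * u * 100 - 1000 ∧
        ∃ w ∈ List.range 100, 0 < w ∧ w * u ≤ 1000 ∧
        16 * 100 ^ 3 < (w : ℤ) * (100 - w) ^ 2 * E (2 * i) (2 * j - 8) ∧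
        16 * 1000 ^ 3 < (w : ℤ) * u * (1000 - w * u) ^ 2 * E (2 * i) (2 * j - 8) := by
  decide +kernel

theorem main (h : H a b r s p) (ha : Even a) (hb : Even b) (hr : 1 < r) (hW : Win (E a b) r)
    (hW2 : ∀ c : ℤ, b = 2 * c → a = c ^ 2 → 0 < c → Win (E a b) (c + p)) : (a, b) ∈ L6 := by
  have hp0 := h.p_pos
  have hp1 : p < 1 := by
    by_contra hc
    nlinarith [h.hp]
  have hE := h.E_eq
  rcases lt_or_ge r 16 with h16 | h16
  · have hs : s ^ 2 < 4 := by linarith [h.hd]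
    have hs1 : -2 < s := by nlinarith
    have hs2 : s < 2 := by nlinarith
    have hrs : (r * s) ^ 2 < 64 := by
      have := h.symm.hd; linarith
    have hrs1 : -8 < r * s := by nlinarith
    have hrs2 : r * s < 8 := by nlinarith
    have a1 : (-1 : ℤ) < a := by
      have : (-1 : ℝ) < a := by rw [h.ha]; linarith
      exact_mod_cast this
    have a2 : a < 18 := by
      have : (a : ℝ) < 18 := by rw [h.ha]; linarith
      exact_mod_cast this
    have b1 : (-9 : ℤ) < b := by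
      have : (-9 : ℝ) < b := by rw [h.hb]; linarith
      exact_mod_cast this
    have b2 : b < 8 := by
      have : (b : ℝ) < 8 := by rw [h.hb]; linarith
      exact_mod_cast this
    obtain ⟨i, rfl⟩ : ∃ i : ℕ, a = 2 * i := by
      obtain ⟨k, hk⟩ := ha
      exact ⟨k.toNat, by omega⟩
    obtain ⟨j, rfl⟩ : ∃ j : ℕ, b = 2 * j - 8 := by
      obtain ⟨k, hk⟩ := hb
      exact ⟨(k + 4).toNat, by omega⟩
    have hE0 : 0 < E (2 * i) (2 * j - 8) := by
      have : (0 : ℝ) < E (2 * i) (2 * j - 8) := by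
        rw [hE]; exact mul_pos (pow_pos (h.quad_pos r) 2) (by linarith [h.hd])
      exact_mod_cast this
    have hf : ∀ t : ℝ, t ^ 3 - ((2 * i : ℤ) : ℝ) * t ^ 2 - ((2 * j - 8 : ℤ) : ℝ) * t - 1 =
        (t - r) * (t ^ 2 - s * t + p) := fun t => by
      rw [h.ha, h.hb]; linear_combination h.hp
    have hab : 0 < 2 * (i : ℤ) + (2 * j - 8) := by
      have h1 := hf 1
      have h2 := mul_pos (sub_pos.2 hr) (h.quad_pos 1)
      have : (0 : ℝ) < ((2 * i : ℤ) : ℝ) + ((2 * j - 8 : ℤ) : ℝ) := by nlinarith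
      exact_mod_cast this
    rcases box i (List.mem_range.2 (by omega)) j (List.mem_range.2 (by omega)) hE0 hab with
      h1 | ⟨u, -, hu, w, -, hw0, hw1, hw2, hw3⟩
    · exact h1
    · exfalso
      have hu' : (0 : ℝ) ≤ (u : ℝ) ^ 3 - ((2 * i : ℤ) : ℝ) * u ^ 2 * 10 - ((2 * j - 8 : ℤ) : ℝ) * u * 100
          - 1000 := by exact_mod_cast hu
      have hw0' : (0 : ℝ) < w := by exact_mod_cast hw0
      have hw1' : (w : ℝ) * u ≤ 1000 := by exact_mod_cast hw1
      have hw2' : (16 * 100 ^ 3 : ℝ) < (w : ℝ) * (100 - w) ^ 2 * E (2 * i) (2 * j - 8) := by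
        exact_mod_cast hw2
      have hw3' : (16 * 1000 ^ 3 : ℝ) < (w : ℝ) * u * (1000 - w * u) ^ 2 * E (2 * i) (2 * j - 8) := by
        exact_mod_cast hw3
      refine noWin (w / 100) (u / 10) (by positivity) ?_ (by linarith) (by linarith) (by linarith) hW
      by_contra hc
      have h2 := mul_pos (sub_pos.2 (lt_of_not_ge hc)) (h.quad_pos (u / 10))
      have h3 := hf (u / 10)
      linarith
  · exfalso
    have hp16 : p ≤ 1 / 16 := by
      by_contra hc
      nlinarith [h.hp]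
    have hs : s ^ 2 < 1 / 4 := by linarith [h.hd]
    have hs1 : -1 / 2 < s := by nlinarith
    have hs2 : s < 1 / 2 := by nlinarith
    have hδ : 0 < 4 * p - s ^ 2 := by linarith [h.hd]
    obtain ⟨c, hc⟩ := hb
    have hk : r ^ 2 * (4 * p - s ^ 2) = 4 * ((a - c ^ 2 : ℤ) : ℝ) - 2 * s + p ^ 2 := by
      have h1 := h.hb
      rw [hc] at h1
      push_cast at h1 ⊢
      rw [h.ha]
      linear_combination (4 * r + 2 * s) * h.hp + (2 * c - r * s - p) * h1
    have hk0 : 0 < r ^ 2 * (4 * p - s ^ 2) := by positivity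
    have hk1 : -1 < a - c ^ 2 := by
      have : (-1 : ℝ) < ((a - c ^ 2 : ℤ) : ℝ) := by nlinarith
      exact_mod_cast this
    rcases (show a - c ^ 2 = 0 ∨ 1 ≤ a - c ^ 2 by omega) with h0 | h1
    · rw [h0] at hk
      have hb' : (c : ℝ) + c = -(r * s + p) := by rw [← h.hb, hc]; push_cast; ring
      have ha' : (c : ℝ) ^ 2 = r + s := by
        rw [← h.ha]; exact_mod_cast (show c ^ 2 = a by omega)
      have hc0 : 0 < c := by
        by_contra hcc
        have h2 : (c : ℝ) ≤ 0 := by exact_mod_cast (le_of_not_gt hcc)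
        have h3 : (c : ℝ) ≤ -1 := by nlinarith
        have h4 : 2 * s < p ^ 2 := by push_cast at hk; linarith
        have h5 : r * (2 * s) < r * p ^ 2 := mul_lt_mul_of_pos_left h4 (by linarith)
        have h6 : r * p ^ 2 = p := by linear_combination p * h.hp
        linarith
      have hc4 : 4 ≤ c := by
        by_contra hcc
        have h2 : (c : ℝ) ≤ 3 := by exact_mod_cast (show c ≤ 3 by omega)
        have h3 : (0 : ℝ) < c := by exact_mod_cast hc0
        nlinarith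
      have hc4' : (4 : ℝ) ≤ c := by exact_mod_cast hc4
      have hEc : (E a b : ℝ) = 4 * c ^ 3 + 27 := by
        rw [hc, show a = c ^ 2 by omega]; unfold E; push_cast; ring
      have hW3 := hW2 c (by omega) (by omega) hc0
      rw [hEc] at hW3
      have hc3 : (64 : ℝ) ≤ c ^ 3 := by nlinarith
      refine noWin (1 / (2 * (c + 1))) (c + 1) (by positivity) (by linarith) ?_ ?_ ?_ hW3
      · rw [div_mul_eq_mul_div, div_le_one (by positivity)]; linarith
      · have e1 : (1 : ℝ) / (2 * (c + 1)) ≤ 1 / 10 := one_div_le_one_div_of_le (by norm_num) (by linarith)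
        have e2 : (81 : ℝ) / 100 ≤ (1 - 1 / (2 * (c + 1))) ^ 2 := by nlinarith
        have e3 : (20 : ℝ) ≤ 1 / (2 * (c + 1)) * (4 * c ^ 3 + 27) := by
          rw [div_mul_eq_mul_div, le_div_iff₀ (by positivity)]; nlinarith
        nlinarith
      · have e1 : (1 : ℝ) / (2 * (c + 1)) * (c + 1) = 1 / 2 := by field_simp
        rw [e1]; linarith
    · have h2 : (1 : ℝ) ≤ ((a - c ^ 2 : ℤ) : ℝ) := by exact_mod_cast h1
      have h3 : 3 ≤ r ^ 2 * (4 * p - s ^ 2) := by nlinarith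
      have h4 : 31 / 32 * r ^ 2 ≤ r ^ 2 - s * r + p := by nlinarith
      have h5 : (31 / 32 * r ^ 2) ^ 2 ≤ (r ^ 2 - s * r + p) ^ 2 := pow_le_pow_left₀ (by positivity) h4 2
      have h6 : 14 / 5 * r ^ 2 ≤ (E a b : ℝ) := by
        rw [hE]
        have e1 := mul_le_mul_of_nonneg_right h5 hδ.le
        have e2 := mul_le_mul_of_nonneg_left h3 (sq_nonneg r)
        nlinarith
      refine noWin (1 / (2 * r)) r (by positivity) le_rfl ?_ ?_ ?_ hW
      · rw [div_mul_eq_mul_div, div_le_one (by positivity)]; linarith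
      · have e1 : (1 : ℝ) / (2 * r) ≤ 1 / 32 := one_div_le_one_div_of_le (by norm_num) (by linarith)
        have e2 : (9 : ℝ) / 10 ≤ (1 - 1 / (2 * r)) ^ 2 := by nlinarith
        have e3 : (20 : ℝ) ≤ 1 / (2 * r) * (E a b : ℝ) := by
          rw [div_mul_eq_mul_div, le_div_iff₀ (by positivity)]; nlinarith
        nlinarith
      · have e1 : (1 : ℝ) / (2 * r) * r = 1 / 2 := by field_simp
        rw [e1]; nlinarith

theorem classify (h : H a b r s p) (ha : Even a) (hb : Even b) (hab : a + b ≠ 0)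
    (hne : (V a b r).Nonempty) : (a, b) ∈ L6 ∨ (-b, -a) ∈ L6 := by
  have hr0 := h.r_pos
  have hp0 := h.p_pos
  have hpr : r⁻¹ = p := inv_eq_of_mul_eq_one_right h.hp
  have hrp : p⁻¹ = r := inv_eq_of_mul_eq_one_left h.hp
  rcases lt_trichotomy r 1 with h1 | h1 | h1
  · right
    have hp1 : 1 < p := by
      by_contra hc
      nlinarith [h.hp]
    have hEE : E (-b) (-a) = E a b := by unfold E; ring
    apply main h.symm hb.neg ha.neg hp1
    · rw [hEE]
      exact win_of h hne p hp1 (fun β => V_p h ha hb) (fun β hβ => by rw [hrp]; exact V_r h ha hb hβ)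
    · intro c h2 h3 hc
      rw [hEE]
      obtain rfl : a = -(2 * c) := by omega
      obtain rfl : b = -c ^ 2 := by omega
      have hce : Even c := by
        have := hb.neg
        rw [neg_neg] at this
        exact (Int.even_pow.1 this).1
      have hc1 : (1 : ℝ) ≤ c := by exact_mod_cast hc
      have hroot := h.root
      push_cast at hroot
      have hinv : ((c : ℝ) + r)⁻¹ = (c + r) * r :=
        inv_eq_of_mul_eq_one_right (by linear_combination hroot)
      exact win_of h hne _ (by linarith) (fun β => V_cr h hce)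
        (fun β hβ => by rw [hinv, ← mul_assoc]; exact V_r h ha hb (V_cr h hce hβ))
  · exfalso
    have := h.root
    rw [h1] at this
    apply hab
    have h2 : ((a + b : ℤ) : ℝ) = 0 := by push_cast; linarith
    exact_mod_cast h2
  · left
    apply main h ha hb h1
    · exact win_of h hne r h1 (fun β => V_r h ha hb) (fun β hβ => by rw [hpr]; exact V_p h ha hb hβ)
    · intro c h2 h3 hc
      subst h2 h3
      have hce : Even c := (Int.even_pow.1 ha).1
      have hc1 : (1 : ℝ) ≤ c := by exact_mod_cast hc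
      have hroot := h.root
      push_cast at hroot
      have hinv : ((c : ℝ) + p)⁻¹ = (c + p) * p := by
        apply inv_eq_of_mul_eq_one_right
        have hp := h.hp
        linear_combination (-p ^ 3) * hroot +
          ((r * p) ^ 2 + r * p + 1 - c ^ 2 * p * (r * p + 1) - 2 * c * p ^ 2) * hp
      exact win_of h hne _ (by linarith) (fun β => V_cp h hce)
        (fun β hβ => by rw [hinv, ← mul_assoc]; exact V_p h ha hb (V_cp h hce hβ))

end Pool.Agent.H60.Hess
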