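import Mathlib
import Pool.Agent.H60.Hess

namespace Pool.Agent.H60.Hess

/-- a set of coordinate triples closed under `±`, `θ`, `θ⁻¹` and meeting `ℤ·1` inside `Dℤ` -/
structure Lat (a b D : ℤ) (L : ℤ → ℤ → ℤ → Prop) : Prop where
  lin : ∀ c x y z x' y' z', L x y z → L x' y' z' → L (x + c * x') (y + c * y') (z + c * z')
  up : ∀ x y z, L x y z → L z (x + b * z) (y + a * z)
  down : ∀ x y z, L x y z → L (y - b * x) (z - a * x) x
  one : ∀ x, L x 0 0 → D ∣ x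

variable {a b D : ℤ} {r s p : ℝ} {L : ℤ → ℤ → ℤ → Prop}

theorem Lat.symm (h : Lat a b D L) : Lat (-b) (-a) D (fun x y z => L z y x) := by
  refine ⟨fun c x y z x' y' z' h1 h2 => h.lin c _ _ _ _ _ _ h1 h2, fun x y z h1 => ?_,
    fun x y z h1 => ?_, fun x h1 => ?_⟩
  · have := h.down _ _ _ h1
    convert this using 1 <;> ring
  · have := h.up _ _ _ h1
    convert this using 1 <;> ring
  · have h2 := h.down _ _ _ (h.down _ _ _ h1)
    simp only [mul_zero, sub_zero] at h2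
    exact h.one x h2

theorem Nf_symm (a b x y z : ℤ) : Nf (-b) (-a) z y x = Nf a b x y z := by unfold Nf; ring

theorem Nf_cast (a b x y z : ℤ) : ((Nf a b x y z : ℤ) : ℝ) = Nf (a : ℝ) b x y z := by
  unfold Nf; push_cast; ring

theorem beta_pos (h : H a b r s p) {x y z : ℤ} (hN : 0 < Nf a b x y z) :
    0 < (x : ℝ) + y * r + z * r ^ 2 := by
  have hk := key h x y z
  rw [← Nf_cast] at hk
  have hF := h.quad_pos r
  have hδ : 0 < 4 * p - s ^ 2 := by linarith [h.hd]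
  have hN' : (0 : ℝ) < Nf a b x y z := by exact_mod_cast hN
  by_contra hc
  have h0 : 0 ≤ (4 * p - s ^ 2) * (z * (r ^ 2 - s * r + p) - (x + y * r + z * r ^ 2)) ^ 2 +
    (x * (s - 2 * r) + y * (2 * p - r * s) + z * (p * s - r * (s ^ 2 - 2 * p))) ^ 2 := by positivity
  have := mul_nonpos_of_nonpos_of_nonneg (le_of_not_gt hc) h0
  have := mul_pos hN' hF
  linarith

theorem window (h : H a b r s p) (hL : Lat a b D L) (hr : 1 < r) {x y z : ℤ} (hx : L x y z)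
    (hN : 0 < Nf a b x y z) (t : ℝ) (ht : 0 < t) :
    ∃ x' y' z', L x' y' z' ∧ Nf a b x' y' z' = Nf a b x y z ∧
      t ≤ x' + y' * r + z' * r ^ 2 ∧ x' + y' * r + z' * r ^ 2 < t * r := by
  have hβ := beta_pos h hN
  have hpr : r⁻¹ = p := inv_eq_of_mul_eq_one_right h.hp
  have hz : ∀ n : ℤ, ∃ x' y' z', L x' y' z' ∧ Nf a b x' y' z' = Nf a b x y z ∧
      (x' : ℝ) + y' * r + z' * r ^ 2 = (x + y * r + z * r ^ 2) * r ^ n := by
    intro n
    induction n using Int.induction_on with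
    | zero => exact ⟨x, y, z, hx, rfl, by simp⟩
    | succ n ih =>
      obtain ⟨x', y', z', h1, h2, h3⟩ := ih
      refine ⟨_, _, _, hL.up _ _ _ h1, by rw [← h2]; unfold Nf; ring, ?_⟩
      rw [zpow_add_one₀ (by linarith), ← mul_assoc, ← h3]
      push_cast; linear_combination -z' * h.root
    | pred n ih =>
      obtain ⟨x', y', z', h1, h2, h3⟩ := ih
      refine ⟨_, _, _, hL.down _ _ _ h1, by rw [← h2]; unfold Nf; ring, ?_⟩
      rw [zpow_sub_one₀ (by linarith), ← mul_assoc, ← h3, hpr]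
      push_cast
      linear_combination (x' * p) * h.root - (y' + z' * r + x' * r ^ 2 - x' * a * r - x' * b) * h.hp
  obtain ⟨n, hn1, hn2⟩ := exists_mem_Ico_zpow
    (show 0 < ((x : ℝ) + y * r + z * r ^ 2) / t by positivity) hr
  have hRn : 0 < r ^ n := zpow_pos (by linarith) n
  obtain ⟨x', y', z', h1, h2, h3⟩ := hz (-n)
  refine ⟨x', y', z', h1, h2, ?_, ?_⟩
  · rw [le_div_iff₀ ht] at hn1
    rw [h3, zpow_neg, ← div_eq_mul_inv, le_div_iff₀ hRn]; linarith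
  · rw [div_lt_iff₀ ht, zpow_add_one₀ (by linarith)] at hn2
    rw [h3, zpow_neg, ← div_eq_mul_inv, div_lt_iff₀ hRn]; linarith

theorem E_low (h : H a b r s p) (hr : 64 ≤ r) {ρ : ℝ} (hρ : 0 < ρ) (hρ2 : ρ ^ 2 = r) :
    0 ≤ 4 * a - b ^ 2 ∧ ρ ^ 3 ≤ (E a b : ℝ) := by
  have hp0 := h.p_pos
  have hp1 : p ≤ 1 / 64 := by
    by_contra hc
    nlinarith [h.hp]
  have hs : s ^ 2 < 1 / 16 := by linarith [h.hd]
  have hs1 : -1 / 4 < s := by nlinarith
  have hs2 : s < 1 / 4 := by nlinarith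
  have hδ : 0 < 4 * p - s ^ 2 := by linarith [h.hd]
  have hρ8 : 8 ≤ ρ := by nlinarith
  have hk : r ^ 2 * (4 * p - s ^ 2) = ((4 * a - b ^ 2 : ℤ) : ℝ) - 2 * s + p ^ 2 := by
    push_cast
    rw [h.ha, h.hb]
    linear_combination (4 * r + 2 * s) * h.hp
  have hk0 : 0 < r ^ 2 * (4 * p - s ^ 2) := by positivity
  have hk1 : -1 < 4 * a - b ^ 2 := by
    have : (-1 : ℝ) < ((4 * a - b ^ 2 : ℤ) : ℝ) := by nlinarith
    exact_mod_cast this
  refine ⟨by omega, ?_⟩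
  rcases (show 4 * a - b ^ 2 = 0 ∨ 1 ≤ 4 * a - b ^ 2 by omega) with h0 | h1
  · rw [h0] at hk
    have hb2 : (b : ℝ) ^ 2 = 4 * (r + s) := by
      rw [← h.ha]; exact_mod_cast (show b ^ 2 = 4 * a by omega)
    have hb0 : (0 : ℝ) < b := by
      by_contra hcc
      have h2 : (b : ℝ) ≤ 0 := le_of_not_gt hcc
      have h3 : (b : ℝ) ≤ -2 := by nlinarith
      have h4 : 2 * s < p ^ 2 := by push_cast at hk; linarith
      have h5 : r * (2 * s) < r * p ^ 2 := mul_lt_mul_of_pos_left h4 (by linarith)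
      have h6 : r * p ^ 2 = p := by linear_combination p * h.hp
      linarith [h.hb]
    have hE : (E a b : ℝ) = b ^ 3 / 2 + 27 := by
      have : (a : ℝ) = b ^ 2 / 4 := by rw [hb2, h.ha]; ring
      unfold E; push_cast; rw [this]; ring
    have h3 : 3 / 2 * ρ ≤ b := by
      by_contra hc
      nlinarith
    have h4 := pow_le_pow_left₀ (by positivity) h3 3
    rw [hE]; nlinarith
  · have h2 : (1 : ℝ) ≤ ((4 * a - b ^ 2 : ℤ) : ℝ) := by exact_mod_cast h1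
    have h3 : 1 / 2 ≤ r ^ 2 * (4 * p - s ^ 2) := by nlinarith
    have h4 : 31 / 32 * r ^ 2 ≤ r ^ 2 - s * r + p := by nlinarith
    have h5 : (31 / 32 * r ^ 2) ^ 2 ≤ (r ^ 2 - s * r + p) ^ 2 := pow_le_pow_left₀ (by positivity) h4 2
    have h6 : 2 / 5 * r ^ 2 ≤ (E a b : ℝ) := by
      rw [h.E_eq]
      have e1 := mul_le_mul_of_nonneg_right h5 hδ.le
      have e2 := mul_le_mul_of_nonneg_left h3 (sq_nonneg r)
      nlinarith
    have h7 : r ^ 2 = ρ * ρ ^ 3 := by rw [← hρ2]; ring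
    have h8 : 0 < ρ ^ 3 := by positivity
    nlinarith

theorem cube_ne {D k : ℤ} (hD : 0 < D) (h0 : 0 < D ^ 3 * k ^ 3) (h1 : D ^ 3 * k ^ 3 < D ^ 3) :
    False := by
  have hD3 : 0 < D ^ 3 := by positivity
  have h8 : 0 < k ^ 3 := (mul_pos_iff_of_pos_left hD3).1 h0
  have := mul_le_mul_of_nonneg_left (show 1 ≤ k ^ 3 by omega) hD3.le
  linarith

theorem final_int (hL : Lat a b D L) {x y X : ℤ} (hxy : L x y 0) (hk : 0 ≤ 4 * a - b ^ 2)
    (hN0 : 0 < Nf a b x y 0) (hN : Nf a b x y 0 < D ^ 3) (hD : 0 < D) (hx0 : x ≠ 0) (hy : 1 ≤ y)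
    (hX : |x| ≤ X) : a ≤ (4 * D ^ 3 + 4 * X ^ 3) + 9 * (4 * D ^ 3 + 4 * X ^ 3) ^ 2 := by
  set Y := 4 * D ^ 3 + 4 * X ^ 3 with hY
  have e : 4 * Nf a b x y 0 = 4 * x ^ 3 + y * ((2 * y - b * x) ^ 2 + (4 * a - b ^ 2) * x ^ 2) := by
    unfold Nf; ring
  have hx3 : -x ^ 3 ≤ X ^ 3 := by
    have h1 : |x| ^ 3 ≤ X ^ 3 := pow_le_pow_left₀ (abs_nonneg _) hX 3
    have h2 : -x ^ 3 ≤ |x| ^ 3 := by rw [← abs_pow]; exact neg_le_abs _
    linarith
  have hx2 : 1 ≤ x ^ 2 := by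
    have := sq_pos_of_ne_zero hx0; omega
  set W := (2 * y - b * x) ^ 2 + (4 * a - b ^ 2) * x ^ 2 with hW
  have hW0 : 0 ≤ (4 * a - b ^ 2) * x ^ 2 := by positivity
  have hyW : y * W ≤ Y := by omega
  rcases (show W = 0 ∨ 1 ≤ W by have := sq_nonneg (2 * y - b * x); omega) with h0 | h1
  · exfalso
    have h1 : (2 * y - b * x) ^ 2 = 0 := by have := sq_nonneg (2 * y - b * x); omega
    have h2 : (4 * a - b ^ 2) * x ^ 2 = 0 := by have := sq_nonneg (2 * y - b * x); omega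
    have h3 : 4 * a = b ^ 2 := by
      rcases mul_eq_zero.1 h2 with h | h <;> omega
    obtain ⟨c, rfl⟩ : ∃ c, b = 2 * c := by
      have : Even (b ^ 2) := ⟨2 * a, by omega⟩
      obtain ⟨c, hc⟩ := (Int.even_pow.1 this).1
      exact ⟨c, by omega⟩
    obtain rfl : a = c ^ 2 := by nlinarith
    obtain rfl : y = c * x := by
      have := pow_eq_zero_iff (n := 2) (by norm_num) |>.1 h1
      linarith
    have h4 := hL.lin c _ _ _ _ _ _ hxy (hL.up _ _ _ hxy)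
    have h5 := hL.down _ _ _ (hL.down _ _ _ (hL.down _ _ _ h4))
    have h6 : L x 0 0 := by convert h5 using 1 <;> ring
    obtain ⟨k, rfl⟩ := hL.one x h6
    rw [h0] at e
    have h7 : Nf (c ^ 2) (2 * c) (D * k) (c * (D * k)) 0 = D ^ 3 * k ^ 3 := by linarith
    rw [h7] at hN hN0
    exact cube_ne hD hN0 hN
  · have h2 : y ≤ Y := by nlinarith
    have h3 : W ≤ Y := by nlinarith
    have h4 : 4 * a - b ^ 2 ≤ Y := by nlinarith [sq_nonneg (2 * y - b * x)]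
    have h5 : (2 * y - b * x) ^ 2 ≤ Y := by linarith
    have h6 : |2 * y - b * x| ≤ Y := by
      have := Int.natAbs_le_self_sq (2 * y - b * x)
      have h7 : |2 * y - b * x| ≤ (2 * y - b * x) ^ 2 := by
        rw [Int.abs_eq_natAbs]; exact this
      linarith
    have h7 : (b * x) ^ 2 ≤ (3 * Y) ^ 2 := by
      apply sq_le_sq'
      · linarith [(abs_le.1 h6).2]
      · linarith [(abs_le.1 h6).1]
    have h8 : b ^ 2 ≤ (b * x) ^ 2 := by nlinarith [sq_nonneg b]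
    nlinarith

theorem caseZ {F δ β N r ρ e d z R : ℝ} (hF : 0 < F) (hδ : 0 < δ) (hρ : 0 < ρ) (hρ2 : ρ ^ 2 = r)
    (hz : z ≤ -1 ∨ 1 ≤ z) (hw1 : F ≤ β * (2 * r)) (hw2 : β < F / 2)
    (hk : 4 * N * F = β * (δ * (z * F - β) ^ 2 + R ^ 2)) (hE : e = F ^ 2 * δ) (hE2 : ρ ^ 3 ≤ e)
    (hN : N < d) (hρ3 : 32 * d ≤ ρ) : False := by
  have hr : 0 < r := by rw [← hρ2]; positivity
  have hβ0 : 0 < β := by
    by_contra hcc
    have := mul_nonpos_of_nonpos_of_nonneg (le_of_not_gt hcc) (show 0 ≤ 2 * r by linarith)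
    linarith
  have h1 : (F / 2) ^ 2 ≤ (z * F - β) ^ 2 := by
    rcases hz with h2 | h2
    · have h3 : z * F ≤ -1 * F := mul_le_mul_of_nonneg_right h2 hF.le
      rw [← neg_sq (z * F - β)]
      exact pow_le_pow_left₀ (by linarith) (by linarith) 2
    · have h3 : 1 * F ≤ z * F := mul_le_mul_of_nonneg_right h2 hF.le
      exact pow_le_pow_left₀ (by linarith) (by linarith) 2
  have h2 : δ * (F / 2) ^ 2 ≤ δ * (z * F - β) ^ 2 + R ^ 2 := by
    linarith [mul_le_mul_of_nonneg_left h1 hδ.le, sq_nonneg R]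
  have h3 := mul_le_mul hw1 h2 (by positivity) (by linarith)
  have h4 : β * (2 * r) * (δ * (z * F - β) ^ 2 + R ^ 2) = 8 * r * N * F := by
    linear_combination (-2 * r) * hk
  have h5 : F * (e / 4) ≤ F * (8 * r * N) := by
    rw [hE]; linarith
  have h6 := le_of_mul_le_mul_left h5 hF
  have h7 : 8 * r * N < 8 * r * d := mul_lt_mul_of_pos_left hN (by linarith)
  have h8 : ρ ^ 2 * (32 * d) ≤ ρ ^ 2 * ρ := mul_le_mul_of_nonneg_left hρ3 (by positivity)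
  rw [← hρ2] at h7 h6
  linarith

theorem case0 {F δ N r ρ s p x y D : ℝ} (hF : 0 < F) (hδ : 0 < δ) (hρ : 0 < ρ) (hρ2 : ρ ^ 2 = r)
    (hr : 64 ≤ r) (hD : 1 ≤ D) (hrD : 4 * D ^ 3 ≤ r) (_hs1 : -1 / 4 < s) (hs2 : s < 1 / 4)
    (hsp : s ^ 2 < 4 * p) (hp : r * p = 1) (hF1 : r ^ 2 / 2 ≤ F) (hF2 : F ≤ 2 * r ^ 2)
    (hy : y ≤ -1 ∨ 1 ≤ y) (hw1 : F ≤ (x + y * r) * (2 * r))
    (hNQ : N = (x + y * r) * ((x + s * y / 2) ^ 2 + δ * y ^ 2 / 4)) (hE2 : ρ ^ 3 ≤ F ^ 2 * δ)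
    (hN : N < D ^ 3) : 1 ≤ y ∧ |x| ≤ 4 * D + 1 := by
  have hr0 : 0 < r := by linarith
  have hβ : r / 4 ≤ x + y * r := by
    apply le_of_mul_le_mul_right _ (show 0 < 2 * r by linarith)
    linarith
  have hq0 : 0 ≤ δ * y ^ 2 / 4 := by positivity
  have hq1 : (x + s * y / 2) ^ 2 < 1 := by
    by_contra hcc
    have h1 : 1 ≤ (x + s * y / 2) ^ 2 + δ * y ^ 2 / 4 := by linarith
    have h2 := mul_le_mul hβ h1 zero_le_one (by linarith)
    linarith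
  obtain ⟨hq2, hq3⟩ := abs_lt.1 ((sq_lt_one_iff_abs_lt_one _).1 hq1)
  have hy2 : 1 ≤ y := by
    rcases hy with h | h
    · exfalso
      have e1 : 0 ≤ (1 / 4 - s) * -y := mul_nonneg (by linarith) (by linarith)
      have e2 : 0 ≤ (r - 64) * -y := mul_nonneg (by linarith) (by linarith)
      linarith
    · exact h
  have hβ2 : y * r / 2 ≤ x + y * r := by
    have e1 : 0 ≤ (1 / 4 - s) * y := mul_nonneg (by linarith) (by linarith)
    have e2 : 0 ≤ (r - 64) * y := mul_nonneg (by linarith) (by linarith)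
    linarith
  have h1 : y * r / 2 * (δ * y ^ 2 / 4) < D ^ 3 := by
    have := mul_le_mul hβ2 (show δ * y ^ 2 / 4 ≤ (x + s * y / 2) ^ 2 + δ * y ^ 2 / 4 by
      linarith [sq_nonneg (x + s * y / 2)]) hq0 (by linarith)
    linarith
  have h2 : ρ ^ 3 ≤ 4 * r ^ 4 * δ := by
    have : F ^ 2 ≤ (2 * r ^ 2) ^ 2 := pow_le_pow_left₀ hF.le hF2 2
    linarith [mul_le_mul_of_nonneg_right this hδ.le]
  have hy0 : 0 < y := by linarith
  have hD0 : 0 < D := by linarith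
  have h3 : y < 4 * D * ρ := by
    apply lt_of_pow_lt_pow_left₀ 3 (by positivity)
    have e1 : y ^ 3 * ρ ^ 3 ≤ y ^ 3 * (4 * r ^ 4 * δ) := mul_le_mul_of_nonneg_left h2 (by positivity)
    have e2 : y ^ 3 * (4 * r ^ 4 * δ) = 32 * r ^ 3 * (y * r / 2 * (δ * y ^ 2 / 4)) := by ring
    have e3 : 32 * r ^ 3 * (y * r / 2 * (δ * y ^ 2 / 4)) < 32 * r ^ 3 * D ^ 3 :=
      mul_lt_mul_of_pos_left h1 (by positivity)
    have e4 : 32 * r ^ 3 * D ^ 3 = (32 * D ^ 3 * ρ ^ 3) * ρ ^ 3 := by rw [← hρ2]; ring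
    have e5 : y ^ 3 * ρ ^ 3 < (32 * D ^ 3 * ρ ^ 3) * ρ ^ 3 := by linarith
    have e6 := lt_of_mul_lt_mul_right e5 (by positivity)
    have e7 : 0 < D ^ 3 * ρ ^ 3 := by positivity
    linarith
  have h4 : (s * ρ) ^ 2 < 4 := by
    have := mul_lt_mul_of_pos_left hsp hr0
    rw [mul_pow, hρ2]; linarith
  have h5 : (s * y) ^ 2 ≤ (8 * D) ^ 2 := by
    have e1 : y ^ 2 ≤ (4 * D * ρ) ^ 2 := pow_le_pow_left₀ (by linarith) h3.le 2
    have e2 := mul_le_mul_of_nonneg_left e1 (sq_nonneg s)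
    have e4 : 16 * D ^ 2 * (s * ρ) ^ 2 ≤ 16 * D ^ 2 * 4 :=
      mul_le_mul_of_nonneg_left h4.le (by positivity)
    linarith
  have h6 := abs_le_of_sq_le_sq' h5 (by positivity)
  exact ⟨hy2, abs_le.2 ⟨by linarith [h6.2], by linarith [h6.1]⟩⟩

theorem small (h : H a b r s p) (hr : 64 ≤ r) : -1 / 4 < s ∧ s < 1 / 4 ∧
    r ^ 2 / 2 ≤ r ^ 2 - s * r + p ∧ r ^ 2 - s * r + p ≤ 2 * r ^ 2 := by
  have hp0 := h.p_pos
  have hp1 : p ≤ 1 / 64 := by
    by_contra hc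
    nlinarith [h.hp]
  have hs : s ^ 2 < 1 / 16 := by linarith [h.hd]
  have hs1 : -1 / 4 < s := by nlinarith
  have hs2 : s < 1 / 4 := by nlinarith
  exact ⟨hs1, hs2, by nlinarith, by nlinarith⟩

theorem int_cases {z : ℤ} (hz : z ≠ 0) : (z : ℝ) ≤ -1 ∨ 1 ≤ (z : ℝ) := by
  rcases lt_or_gt_of_ne hz with h | h
  · left; exact_mod_cast (show z ≤ -1 by omega)
  · right; exact_mod_cast (show 1 ≤ z by omega)

theorem bound (D : ℤ) (hD : 0 < D) : ∃ R0 : ℝ, ∀ (a b : ℤ) (r s p : ℝ) (L : ℤ → ℤ → ℤ → Prop),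
    H a b r s p → Lat a b D L → ∀ x y z, L x y z → 0 < Nf a b x y z → Nf a b x y z < D ^ 3 →
      r ≤ R0 := by
  obtain ⟨Y, hY⟩ : ∃ Y : ℤ, Y = (4 * D ^ 3 + 4 * (4 * D + 1) ^ 3) +
    9 * (4 * D ^ 3 + 4 * (4 * D + 1) ^ 3) ^ 2 := ⟨_, rfl⟩
  refine ⟨64 + (32 * D ^ 3) ^ 2 + Y, ?_⟩
  intro a b r s p L h hL x0 y0 z0 hx0 hN0 hN1
  by_contra hc
  have hc := lt_of_not_ge hc
  have hY0 : (0 : ℝ) ≤ Y := by rw [hY]; positivity
  have hD1 : (1 : ℝ) ≤ D := by exact_mod_cast hD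
  have hD3 : (1 : ℝ) ≤ D ^ 3 := one_le_pow₀ hD1
  have hsq := sq_nonneg (32 * (D : ℝ) ^ 3)
  have hr : 64 ≤ r := by linarith
  have hρ : 0 < √r := Real.sqrt_pos.2 (by linarith)
  have hρ2 : √r ^ 2 = r := Real.sq_sqrt (by linarith)
  have hρ3 : 32 * (D : ℝ) ^ 3 ≤ √r := Real.le_sqrt_of_sq_le (by linarith)
  have hrD : 4 * (D : ℝ) ^ 3 ≤ r := by
    have := mul_le_mul_of_nonneg_left hD3 (show (0 : ℝ) ≤ D ^ 3 by linarith)
    linarith
  obtain ⟨hk, hE⟩ := E_low h hr hρ hρ2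
  obtain ⟨hs1, hs2, hF1, hF2⟩ := small h hr
  have hδ : 0 < 4 * p - s ^ 2 := by linarith [h.hd]
  have hF := h.quad_pos r
  obtain ⟨x, y, z, hx, hN, hw1, hw2⟩ := window h hL (by linarith) hx0 hN0
    ((r ^ 2 - s * r + p) / (2 * r)) (by positivity)
  rw [← hN] at hN0 hN1
  have hN1' : ((Nf a b x y z : ℤ) : ℝ) < D ^ 3 := by exact_mod_cast hN1
  have hw3 : (r ^ 2 - s * r + p) / (2 * r) * r = (r ^ 2 - s * r + p) / 2 := by field_simp
  rw [hw3] at hw2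
  rw [div_le_iff₀ (by positivity)] at hw1
  by_cases hz : z = 0
  · subst hz
    simp only [Int.cast_zero, zero_mul, add_zero] at hw1 hw2
    have hNQ : ((Nf a b x y 0 : ℤ) : ℝ) =
        (x + y * r) * ((x + s * y / 2) ^ 2 + (4 * p - s ^ 2) * y ^ 2 / 4) := by
      rw [Nf_cast]; unfold Nf; rw [h.ha, h.hb]
      push_cast
      linear_combination (-(y : ℝ) ^ 3) * h.hp
    have hx1 : x ≠ 0 := by
      rintro rfl
      have h1 := hL.down _ _ _ hx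
      simp only [mul_zero, sub_zero] at h1
      obtain ⟨k, rfl⟩ := hL.one _ h1
      have h7 : Nf a b 0 (D * k) 0 = D ^ 3 * k ^ 3 := by unfold Nf; ring
      rw [h7] at hN0 hN1
      exact cube_ne hD hN0 hN1
    have hy1 : y ≠ 0 := by
      rintro rfl
      obtain ⟨k, rfl⟩ := hL.one _ hx
      have h7 : Nf a b (D * k) 0 0 = D ^ 3 * k ^ 3 := by unfold Nf; ring
      rw [h7] at hN0 hN1
      exact cube_ne hD hN0 hN1
    obtain ⟨h1, h2⟩ := case0 hF hδ hρ hρ2 hr hD1 hrD hs1 hs2 h.hd h.hp hF1 hF2 (int_cases hy1) hw1 hNQ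
      (h.E_eq ▸ hE) hN1'
    have h8 := final_int hL hx hk hN0 hN1 hD hx1 (by exact_mod_cast h1)
      (show |x| ≤ 4 * D + 1 by exact_mod_cast h2)
    rw [← hY] at h8
    have h9 : (a : ℝ) ≤ Y := by exact_mod_cast h8
    linarith [h.ha]
  · have hk' := key h x y z
    rw [← Nf_cast] at hk'
    exact caseZ hF hδ hρ hρ2 (int_cases hz) hw1 hw2 hk' h.E_eq hE hN1' hρ3

theorem bound2 (D : ℤ) (hD : 0 < D) : ∃ B : ℤ, ∀ (a b : ℤ) (r s p : ℝ) (L : ℤ → ℤ → ℤ → Prop),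
    H a b r s p → Lat a b D L → ∀ x y z, L x y z → 0 < Nf a b x y z → Nf a b x y z < D ^ 3 →
      |a| ≤ B ∧ |b| ≤ B := by
  obtain ⟨R0, hR⟩ := bound D hD
  obtain ⟨B, hB⟩ := exists_int_gt (5 * R0 + 1)
  have aux : ∀ (a b : ℤ) (r s p : ℝ), H a b r s p → r ≤ R0 → p ≤ R0 → |a| ≤ B := by
    intro a b r s p h h1 h2
    have h3 := h.r_pos
    have h4 := h.hd
    have : |(a : ℝ)| ≤ B := by
      rw [h.ha, abs_le]
      constructor <;> nlinarith [sq_nonneg (s - 1), sq_nonneg (s + 1)]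
    exact_mod_cast this
  refine ⟨B, fun a b r s p L h hL x y z hx h0 h1 => ?_⟩
  have e1 := hR a b r s p L h hL x y z hx h0 h1
  have e2 := hR _ _ _ _ _ _ h.symm hL.symm z y x hx (by rwa [Nf_symm]) (by rwa [Nf_symm])
  exact ⟨aux _ _ _ _ _ h e1 e2, by simpa using aux _ _ _ _ _ h.symm e2 e1⟩

theorem H_of_root (a b : ℤ) (z : ℂ) (hz : z.im ≠ 0) (hz0 : z ^ 3 - a * z ^ 2 - b * z - 1 = 0) :
    H a b (a - 2 * z.re) (2 * z.re) (z.re ^ 2 + z.im ^ 2) := by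
  have hre := congrArg Complex.re hz0
  have him := congrArg Complex.im hz0
  simp [pow_succ] at hre him
  have hb' : (b : ℝ) = 3 * z.re ^ 2 - z.im ^ 2 - 2 * a * z.re := by
    apply mul_left_cancel₀ hz
    linear_combination -him
  refine ⟨by ring, by rw [hb']; ring, ?_, ?_⟩
  · rw [hb'] at hre; linear_combination hre
  · have := sq_pos_of_ne_zero hz
    nlinarith

end Pool.Agent.H60.Hess
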