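import Mathlib

namespace Pool.Agent.H60.HessD

open Polynomial Matrix

/-- NRS-matrix: characteristic polynomial irreducible over `ℚ` with a non-real complex root
(for a real cubic: one real root and two non-real conjugate roots). -/
def NRS (A : Matrix (Fin 3) (Fin 3) ℤ) : Prop :=
  Irreducible (A.charpoly.map (Int.castRingHom ℚ)) ∧ ∃ z : ℂ, z.im ≠ 0 ∧ aeval z A.charpoly = 0

/-- `det(x, Ax, A²x)` -/
def Dt (A : Matrix (Fin 3) (Fin 3) ℤ) (x : Fin 3 → ℤ) : ℤ :=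
  (Matrix.of ![x, A *ᵥ x, (A ^ 2) *ᵥ x]).det

/-- Hessenberg complexity `|m₂₁² m₃₂|` -/
def cx (A : Matrix (Fin 3) (Fin 3) ℤ) : ℤ := |A 1 0 ^ 2 * A 2 1|

/-- `ς`-reduced: `|det(x, Ax, A²x)| ≥ ς(A)` whenever this determinant is nonzero -/
def Reduced (A : Matrix (Fin 3) (Fin 3) ℤ) : Prop :=
  ∀ x : Fin 3 → ℤ, Dt A x ≠ 0 → cx A ≤ |Dt A x|

end Pool.Agent.H60.HessD
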