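import Mathlib
import Pool.Agent.H60.Hess2
import Pool.Agent.H60.HessDefs

namespace Pool.Agent.H60.Hess

open Polynomial Matrix Pool.Agent.H60.HessD

variable (a11 a21 a12 a22 a32 c1 c2 c3 : ℤ)

def tr : ℤ := a11 + a22 + c3
def mb : ℤ := -((a11 * a22 - a12 * a21) + a11 * c3 + (a22 * c3 - c2 * a32))
def dt : ℤ := a11 * (a22 * c3 - c2 * a32) - a21 * (a12 * c3 - c1 * a32)

def LL (x y z : ℤ) : Prop := ∃ v1 v2 v3 : ℤ,
  x = a21 * a32 * v1 - a32 * a11 * v2 + (a11 * a22 - a12 * a21) * v3 ∧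
  y = a32 * v2 - (a11 + a22) * v3 ∧ z = v3

theorem charpoly_H : (!![a11, a12, c1; a21, a22, c2; 0, a32, c3] : Matrix (Fin 3) (Fin 3) ℤ).charpoly
    = X ^ 3 - C (tr a11 a22 c3) * X ^ 2 - C (mb a11 a21 a12 a22 a32 c2 c3) * X
      - C (dt a11 a21 a12 a22 a32 c1 c2 c3) := by
  unfold Matrix.charpoly
  rw [Matrix.det_fin_three]
  simp [tr, mb, dt]
  ring

theorem lat (h32 : a32 ≠ 0) (hd : dt a11 a21 a12 a22 a32 c1 c2 c3 = 1) :
    Lat (tr a11 a22 c3) (mb a11 a21 a12 a22 a32 c2 c3) (a21 * a32) (LL a11 a21 a12 a22 a32) := by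
  unfold dt at hd
  refine ⟨?_, ?_, ?_, ?_⟩
  · rintro c x y z x' y' z' ⟨v1, v2, v3, rfl, rfl, rfl⟩ ⟨w1, w2, w3, rfl, rfl, rfl⟩
    exact ⟨v1 + c * w1, v2 + c * w2, _, by ring, by ring, rfl⟩
  · rintro x y z ⟨v1, v2, v3, rfl, rfl, rfl⟩
    refine ⟨a11 * v1 + a12 * v2 + c1 * z, a21 * v1 + a22 * v2 + c2 * z, a32 * v2 + c3 * z, ?_, ?_, ?_⟩
    · linear_combination (-z) * hd
    · unfold mb; ring
    · unfold tr; ring
  · rintro x y z ⟨v1, v2, v3, rfl, rfl, rfl⟩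
    obtain ⟨w1, hw1⟩ : ∃ w, w = (a22 * c3 - c2 * a32) * v1 + (c1 * a32 - a12 * c3) * v2 +
      (a12 * c2 - c1 * a22) * z := ⟨_, rfl⟩
    obtain ⟨w2, hw2⟩ : ∃ w, w = (-(a21 * c3)) * v1 + (a11 * c3) * v2 + (c1 * a21 - a11 * c2) * z :=
      ⟨_, rfl⟩
    obtain ⟨w3, hw3⟩ : ∃ w, w = (a21 * a32) * v1 - (a11 * a32) * v2 + (a11 * a22 - a12 * a21) * z :=
      ⟨_, rfl⟩
    have e1 : v1 = a11 * w1 + a12 * w2 + c1 * w3 := by
      rw [hw1, hw2, hw3]; linear_combination (-v1) * hd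
    have e2 : v2 = a21 * w1 + a22 * w2 + c2 * w3 := by
      rw [hw1, hw2, hw3]; linear_combination (-v2) * hd
    have e3 : z = a32 * w2 + c3 * w3 := by
      rw [hw2, hw3]; linear_combination (-z) * hd
    clear hw1 hw2 hw3
    subst e1 e2 e3
    refine ⟨w1, w2, w3, ?_, ?_, ?_⟩
    · unfold mb; linear_combination (-(-((a11 * a22 - a12 * a21) + a11 * c3 + (a22 * c3 - c2 * a32))) * w3) * hd
    · unfold tr; linear_combination (-(a11 + a22 + c3) * w3) * hd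
    · linear_combination w3 * hd
  · rintro x ⟨v1, v2, v3, rfl, h2, rfl⟩
    have : v2 = 0 := by
      rcases mul_eq_zero.1 (show a32 * v2 = 0 by linarith) with h | h
      · exact absurd h h32
      · exact h
    subst this
    exact ⟨v1, by ring⟩

theorem Nf_det {a b x y z x1 y1 z1 x2 y2 z2 : ℤ} (h1 : x1 = z) (h2 : y1 = x + b * z)
    (h3 : z1 = y + a * z) (h4 : x2 = z1) (h5 : y2 = x1 + b * z1) (h6 : z2 = y1 + a * z1) :
    Nf a b x y z = x * (y1 * z2 - z1 * y2) - y * (x1 * z2 - z1 * x2) + z * (x1 * y2 - y1 * x2) := by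
  subst h4 h5 h6
  subst h1 h2 h3
  unfold Nf; ring

theorem Nf_Dt (hd : dt a11 a21 a12 a22 a32 c1 c2 c3 = 1) (v : Fin 3 → ℤ) :
    Nf (tr a11 a22 c3) (mb a11 a21 a12 a22 a32 c2 c3)
      (a21 * a32 * v 0 - a32 * a11 * v 1 + (a11 * a22 - a12 * a21) * v 2)
      (a32 * v 1 - (a11 + a22) * v 2) (v 2) =
    a21 * a32 ^ 2 * Dt !![a11, a12, c1; a21, a22, c2; 0, a32, c3] v := by
  unfold dt at hd
  obtain ⟨u0, hu0⟩ : ∃ u, u = a11 * v 0 + a12 * v 1 + c1 * v 2 := ⟨_, rfl⟩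
  obtain ⟨u1, hu1⟩ : ∃ u, u = a21 * v 0 + a22 * v 1 + c2 * v 2 := ⟨_, rfl⟩
  obtain ⟨u2, hu2⟩ : ∃ u, u = a32 * v 1 + c3 * v 2 := ⟨_, rfl⟩
  obtain ⟨w0, hw0⟩ : ∃ u, u = a11 * u0 + a12 * u1 + c1 * u2 := ⟨_, rfl⟩
  obtain ⟨w1, hw1⟩ : ∃ u, u = a21 * u0 + a22 * u1 + c2 * u2 := ⟨_, rfl⟩
  obtain ⟨w2, hw2⟩ : ∃ u, u = a32 * u1 + c3 * u2 := ⟨_, rfl⟩
  have e : Dt !![a11, a12, c1; a21, a22, c2; 0, a32, c3] v =
      v 0 * (u1 * w2 - u2 * w1) - v 1 * (u0 * w2 - u2 * w0) + v 2 * (u0 * w1 - u1 * w0) := by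
    unfold Dt
    rw [sq, ← Matrix.mulVec_mulVec, Matrix.det_fin_three, hw0, hw1, hw2, hu0, hu1, hu2]
    simp [dotProduct, Fin.sum_univ_three]
    ring
  rw [e, Nf_det (x1 := a21 * a32 * u0 - a32 * a11 * u1 + (a11 * a22 - a12 * a21) * u2)
    (y1 := a32 * u1 - (a11 + a22) * u2) (z1 := u2)
    (x2 := a21 * a32 * w0 - a32 * a11 * w1 + (a11 * a22 - a12 * a21) * w2)
    (y2 := a32 * w1 - (a11 + a22) * w2) (z2 := w2)]
  · ring
  · rw [hu0, hu1, hu2]; linear_combination (v 2) * hd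
  · rw [hu1, hu2]; unfold mb; ring
  · rw [hu2]; unfold tr; ring
  · rw [hw0, hw1, hw2]; linear_combination u2 * hd
  · rw [hw1, hw2]; unfold mb; ring
  · rw [hw2]; unfold tr; ring

/-- a non-reduced matrix gives an element of the lattice of small positive norm -/
theorem small_elt (h21 : 1 ≤ a21) (h32 : 1 ≤ a32) (hd : dt a11 a21 a12 a22 a32 c1 c2 c3 = 1)
    (h : ¬ Reduced !![a11, a12, c1; a21, a22, c2; 0, a32, c3]) :
    ∃ x y z, LL a11 a21 a12 a22 a32 x y z ∧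
      0 < Nf (tr a11 a22 c3) (mb a11 a21 a12 a22 a32 c2 c3) x y z ∧
      Nf (tr a11 a22 c3) (mb a11 a21 a12 a22 a32 c2 c3) x y z < (a21 * a32) ^ 3 := by
  unfold Reduced at h
  push Not at h
  obtain ⟨v, h0, h1⟩ := h
  have hc : cx !![a11, a12, c1; a21, a22, c2; 0, a32, c3] = a21 ^ 2 * a32 := by
    unfold cx
    rw [abs_of_nonneg] <;> simp
    positivity
  rw [hc] at h1
  have hk : 0 < a21 * a32 ^ 2 := by positivity
  have e := Nf_Dt a11 a21 a12 a22 a32 c1 c2 c3 hd v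
  have e3 : (a21 * a32) ^ 3 = a21 * a32 ^ 2 * (a21 ^ 2 * a32) := by ring
  obtain ⟨h2, h3⟩ := abs_lt.1 h1
  rcases lt_or_gt_of_ne h0 with h4 | h4
  · refine ⟨_, _, _, ⟨-v 0, -v 1, -v 2, rfl, rfl, rfl⟩, ?_⟩
    have : Nf (tr a11 a22 c3) (mb a11 a21 a12 a22 a32 c2 c3)
      (a21 * a32 * -v 0 - a32 * a11 * -v 1 + (a11 * a22 - a12 * a21) * -v 2)
      (a32 * -v 1 - (a11 + a22) * -v 2) (-v 2) = a21 * a32 ^ 2 * -Dt !![a11, a12, c1; a21, a22, c2; 0, a32, c3] v := by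
      rw [mul_neg (a21 * a32 ^ 2), ← e]; unfold Nf; ring
    rw [this, e3]
    exact ⟨mul_pos hk (by linarith), mul_lt_mul_of_pos_left (by linarith) hk⟩
  · refine ⟨_, _, _, ⟨v 0, v 1, v 2, rfl, rfl, rfl⟩, ?_⟩
    rw [e, e3]
    exact ⟨mul_pos hk h4, mul_lt_mul_of_pos_left h3 hk⟩

theorem H_of_NRS (hd : dt a11 a21 a12 a22 a32 c1 c2 c3 = 1)
    (h : NRS !![a11, a12, c1; a21, a22, c2; 0, a32, c3]) :
    ∃ r s p, H (tr a11 a22 c3) (mb a11 a21 a12 a22 a32 c2 c3) r s p := by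
  obtain ⟨-, z, hz, hz0⟩ := h
  rw [charpoly_H, hd] at hz0
  simp only [map_sub, map_pow, map_mul, aeval_X, map_one, eq_intCast, map_intCast] at hz0
  exact ⟨_, _, _, H_of_root _ _ z hz hz0⟩

end Pool.Agent.H60.Hess
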