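import Mathlib

namespace Pool.Agent.H60.Lam

/-- `Λ_n`: weakly decreasing `n`-tuples of natural numbers with sum `n` (index `i : Fin n` stands
for `i + 1`). -/
def Lam (n : ℕ) : Finset (Fin n → ℕ) :=
  (Finset.Nat.antidiagonalTuple n n).filter fun l => ∀ i j : Fin n, i ≤ j → l j ≤ l i

/-- the tuple extended by zeros: `ext l i = λ_{i+1}`. -/
def ext {n : ℕ} (l : Fin n → ℕ) (i : ℕ) : ℕ := if h : i < n then l ⟨i, h⟩ else 0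

/-- `C(λ) = ∏_{i=1}^{n} binom(λ_i, λ_{i+1})`. -/
def Cf {n : ℕ} (l : Fin n → ℕ) : ℕ := ∏ i ∈ Finset.range n, (ext l i).choose (ext l (i + 1))

/-- `u(λ) = ∏ (a_i / i) ^ {λ_i}` with `a_1 = 1`, `a_i = 2 i - 3`. -/
def u {n : ℕ} (l : Fin n → ℕ) : ℚ :=
  ∏ i ∈ Finset.range n, ((if i = 0 then 1 else 2 * ((i : ℚ) + 1) - 3) / ((i : ℚ) + 1)) ^ ext l i

/-- `v(λ) = ∏ ((2 i - 1) / i) ^ {λ_i}`. -/
def v {n : ℕ} (l : Fin n → ℕ) : ℚ :=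
  ∏ i ∈ Finset.range n, ((2 * ((i : ℚ) + 1) - 1) / ((i : ℚ) + 1)) ^ ext l i

def A (n : ℕ) : ℚ := ∑ l ∈ Lam n, (1 + (ext l 0 : ℚ)) * Cf l * u l

def B (n : ℕ) : ℚ := ∑ l ∈ Lam n, (-1) ^ (1 + ext l 0) * (1 + (ext l 0 : ℚ)) * Cf l * v l

end Pool.Agent.H60.Lam
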