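import Mathlib
import Pool.Agent.H60.LamDefs

namespace Pool.Agent.H60.Lam

open Finset PowerSeries

lemma sum_tuple_succ (r N : ℕ) (f : (Fin (r + 1) → ℕ) → ℚ) :
    ∑ l ∈ Finset.Nat.antidiagonalTuple (r + 1) N, f l =
      ∑ p ∈ antidiagonal N, ∑ l ∈ Finset.Nat.antidiagonalTuple r p.2, f (Fin.cons p.1 l) := by
  rw [sum_sigma']
  symm
  refine sum_bij' (fun q _ => Fin.cons q.1.1 q.2)
    (fun l _ => ⟨(l 0, ∑ i, Fin.tail l i), Fin.tail l⟩) ?_ ?_ ?_ ?_ ?_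
  · rintro ⟨⟨a, b⟩, l⟩ h
    simp only [mem_sigma, HasAntidiagonal.mem_antidiagonal, Finset.Nat.mem_antidiagonalTuple] at h ⊢
    rw [Fin.sum_cons, h.2, h.1]
  · intro l h
    simp only [mem_sigma, HasAntidiagonal.mem_antidiagonal, Finset.Nat.mem_antidiagonalTuple,
      and_true] at h ⊢
    rw [← h, Fin.sum_univ_succ]; rfl
  · rintro ⟨⟨a, b⟩, l⟩ h
    simp only [mem_sigma, HasAntidiagonal.mem_antidiagonal, Finset.Nat.mem_antidiagonalTuple] at h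
    obtain ⟨-, rfl⟩ := h
    simp
  · intro l _
    exact Fin.cons_self_tail l
  · intro _ _; rfl

lemma ext_cons_zero {r : ℕ} (a : ℕ) (l : Fin r → ℕ) : ext (Fin.cons a l : Fin (r + 1) → ℕ) 0 = a := by
  simp [ext]

lemma ext_cons_succ {r : ℕ} (a : ℕ) (l : Fin r → ℕ) (i : ℕ) :
    ext (Fin.cons a l : Fin (r + 1) → ℕ) (i + 1) = ext l i := by
  unfold ext
  by_cases h : i < r
  · rw [dif_pos h, dif_pos (by omega)]; rfl
  · rw [dif_neg h, dif_neg (by omega)]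

def Sg (r : ℕ) (x φ : ℕ → ℚ) (N : ℕ) : ℚ :=
  ∑ l ∈ Finset.Nat.antidiagonalTuple r N, φ (ext l 0) *
    (∏ i ∈ range r, ((ext l i).choose (ext l (i + 1)) : ℚ)) * ∏ i ∈ range r, x i ^ ext l i

lemma Sg_succ (r : ℕ) (x φ : ℕ → ℚ) (N : ℕ) : Sg (r + 1) x φ N =
    ∑ p ∈ antidiagonal N, φ p.1 * x 0 ^ p.1 *
      Sg r (fun i => x (i + 1)) (fun k => (p.1.choose k : ℚ)) p.2 := by
  rw [Sg, sum_tuple_succ]
  refine sum_congr rfl fun p _ => ?_
  rw [Sg, mul_sum]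
  refine sum_congr rfl fun l _ => ?_
  simp only [prod_range_succ', ext_cons_zero, ext_cons_succ]
  ring

noncomputable def T : ℕ → (ℕ → ℚ) → ℚ⟦X⟧
  | 0, _ => 1
  | r + 1, x => 1 + C (x 0) * X * T r fun i => x (i + 1)

lemma sum_anti (φ : ℕ → ℚ) (c : ℚ) (U : ℚ⟦X⟧) (N : ℕ) :
    ∑ p ∈ antidiagonal N, φ p.1 * c ^ p.1 * coeff p.2 (U ^ p.1) =
      ∑ a ∈ range (N + 1), φ a * coeff N ((C c * X * U) ^ a) := by
  rw [Finset.Nat.sum_antidiagonal_eq_sum_range_succ_mk]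
  refine sum_congr rfl fun a ha => ?_
  rw [mul_pow, mul_pow, ← map_pow, mul_assoc (C _), coeff_C_mul, coeff_X_pow_mul',
    if_pos (Nat.lt_succ_iff.1 (mem_range.1 ha)), mul_assoc]

lemma coeff_pow_zero (c : ℚ) (U : ℚ⟦X⟧) (N a : ℕ) (h : N < a) :
    coeff N ((C c * X * U) ^ a) = 0 := by
  rw [mul_pow, mul_pow, ← map_pow, mul_assoc (C _), coeff_C_mul, coeff_X_pow_mul',
    if_neg (by omega), mul_zero]

lemma Sg_choose (r : ℕ) (x : ℕ → ℚ) (j N : ℕ) :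
    Sg r x (fun k => (j.choose k : ℚ)) N = coeff N (T r x ^ j) := by
  induction r generalizing x j N with
  | zero =>
    rcases N with _ | N
    · simp [Sg, T, ext]
    · simp [Sg, T, coeff_one]
  | succ r ih =>
    simp only [Sg_succ, ih]
    rw [sum_anti (fun k => (j.choose k : ℚ)), T, add_comm 1, add_pow, map_sum]
    simp only [one_pow, mul_one]
    have e : ∀ (a : ℕ) (W : ℚ⟦X⟧), coeff N (W * (j.choose a : ℚ⟦X⟧)) = j.choose a * coeff N W :=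
      fun a W => by rw [← map_natCast (C (R := ℚ)), coeff_mul_C, mul_comm]
    simp only [e]
    rw [sum_subset (range_subset_range.2 (show N + 1 ≤ N + j + 1 by omega)),
      sum_subset (range_subset_range.2 (show j + 1 ≤ N + j + 1 by omega))]
    · intro a _ h
      rw [Nat.choose_eq_zero_of_lt (by simpa using h), Nat.cast_zero, zero_mul]
    · intro a _ h
      rw [coeff_pow_zero _ _ _ _ (by simpa using h), mul_zero]

lemma coeff_T (r : ℕ) (x : ℕ → ℚ) (k : ℕ) (hk : k ≤ r) : coeff k (T r x) = ∏ i ∈ range k, x i := by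
  induction r generalizing x k with
  | zero =>
    obtain rfl : k = 0 := by omega
    simp [T]
  | succ r ih =>
    rcases k with _ | k
    · simp [T]
    · rw [T, map_add, coeff_one, if_neg (by omega), mul_assoc, coeff_C_mul, coeff_succ_X_mul,
        ih _ k (by omega), prod_range_succ', zero_add, mul_comm]

lemma sum_Lam (n : ℕ) (x φ : ℕ → ℚ) :
    ∑ l ∈ Lam n, φ (ext l 0) * Cf l * ∏ i ∈ range n, x i ^ ext l i = Sg n x φ n := by
  rw [Sg, Lam]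
  simp only [Cf, Nat.cast_prod]
  refine sum_filter_of_ne fun l _ h => ?_
  have h1 : ∀ i < n, ext l (i + 1) ≤ ext l i := fun i hi => by
    by_contra h2
    refine h ?_
    rw [prod_eq_zero (mem_range.2 hi) (by rw [Nat.choose_eq_zero_of_lt (by omega), Nat.cast_zero]),
      mul_zero, zero_mul]
  have h2 : ∀ d i, i + d < n → ext l (i + d) ≤ ext l i := fun d => by
    induction d with
    | zero => exact fun _ _ => le_rfl
    | succ d ih => exact fun i hi => (h1 (i + d) (by omega)).trans (ih i (by omega))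
  rintro ⟨i, hi⟩ ⟨j, hj⟩ hij
  obtain ⟨d, rfl⟩ := Nat.exists_eq_add_of_le (show i ≤ j from hij)
  have := h2 d i hj
  rwa [ext, ext, dif_pos hi, dif_pos hj] at this

lemma geom_sq (W : ℚ⟦X⟧) (N : ℕ) : (1 - W) ^ 2 * ∑ a ∈ range N, ((1 + a : ℕ) : ℚ⟦X⟧) * W ^ a =
    1 + W ^ N * (N * W - (N + 1)) := by
  induction N with
  | zero => simp
  | succ N ih => rw [sum_range_succ, mul_add, ih]; push_cast; ring

noncomputable def Y : ℚ⟦X⟧ :=
  PowerSeries.mk fun k => ∏ i ∈ range k, (2 * ((i : ℚ) + 1) - 1) / ((i : ℚ) + 1)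

noncomputable def Z : ℚ⟦X⟧ := 2 - PowerSeries.mk fun k =>
  ∏ i ∈ range k, (if i = 0 then 1 else 2 * ((i : ℚ) + 1) - 3) / ((i : ℚ) + 1)

lemma coeff_two_X_mul (F : ℚ⟦X⟧) (k : ℕ) : coeff k (2 * X * d⁄dX ℚ F) = 2 * k * coeff k F := by
  have h2 : (2 : ℚ⟦X⟧) = C (2 : ℚ) := rfl
  rw [mul_assoc, h2, coeff_C_mul]
  rcases k with _ | k
  · simp
  · rw [coeff_succ_X_mul, coeff_derivative]; push_cast; ring

lemma Y_ode : (1 - 2 * X) * d⁄dX ℚ Y = Y := by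
  ext k
  rw [sub_mul, one_mul, map_sub, coeff_two_X_mul, coeff_derivative, Y, coeff_mk, coeff_mk,
    prod_range_succ]
  field_simp
  ring

lemma Z_ode : (1 - 2 * X) * d⁄dX ℚ Z = -Z := by
  have h2 : (2 : ℚ⟦X⟧) = C (2 : ℚ) := rfl
  ext k
  rw [sub_mul, one_mul, map_sub, coeff_two_X_mul, coeff_derivative, map_neg, Z, map_sub, map_sub,
    coeff_mk, coeff_mk, prod_range_succ, h2, coeff_C, coeff_C, if_neg (by omega)]
  rcases k with _ | k
  · norm_num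
  · rw [if_neg (by omega), if_neg (by omega)]
    field_simp
    ring

lemma d_lin : d⁄dX ℚ (1 - 2 * X : ℚ⟦X⟧) = -2 := by
  have h2 : (2 : ℚ⟦X⟧) = C (2 : ℚ) := rfl
  rw [map_sub, h2, Derivation.leibniz, derivative_C, derivative_X]
  simp

lemma Y_sq : Y ^ 2 * (1 - 2 * X) = 1 := by
  refine derivative.ext ?_ (by simp [Y])
  rw [Derivation.leibniz, d_lin, sq, Derivation.leibniz, Derivation.map_one_eq_zero]
  simp only [smul_eq_mul]
  linear_combination (2 * Y) * Y_ode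

lemma Z_sq : Z ^ 2 = 1 - 2 * X := by
  have h0 : (1 - 2 * X : ℚ⟦X⟧) ≠ 0 := fun h => by simpa using congrArg constantCoeff h
  have h : Z * Y = 1 := by
    refine derivative.ext (mul_left_cancel₀ h0 ?_) ?_
    · rw [Derivation.leibniz, Derivation.map_one_eq_zero]
      simp only [smul_eq_mul]
      linear_combination Z * Y_ode + Y * Z_ode
    · have h2 : (2 : ℚ⟦X⟧) = C (2 : ℚ) := rfl
      simp [Y, Z, h2]
      norm_num
  linear_combination (-Z ^ 2) * Y_sq + (1 - 2 * X) * (Z * Y + 1) * h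

lemma T_congr (r : ℕ) (x : ℕ → ℚ) :
    (X : ℚ⟦X⟧) ^ (r + 1) ∣ T r x - PowerSeries.mk fun k => ∏ i ∈ range k, x i := by
  rw [X_pow_dvd_iff]
  intro m hm
  rw [map_sub, coeff_T r x m (by omega), coeff_mk, sub_self]

lemma top (r : ℕ) (x : ℕ → ℚ) (e : ℚ) :
    Sg (r + 1) x (fun a => e ^ a * (1 + (a : ℚ))) (r + 1) = coeff (r + 1)
      (∑ a ∈ range (r + 2), ((1 + a : ℕ) : ℚ⟦X⟧) * (C e * (T (r + 1) x - 1)) ^ a) := by
  simp only [Sg_succ, Sg_choose]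
  rw [sum_anti (fun a => e ^ a * (1 + (a : ℚ))), map_sum]
  refine sum_congr rfl fun a _ => ?_
  rw [T, add_sub_cancel_left, mul_pow (C e), ← map_pow, ← map_natCast (C (R := ℚ)), coeff_C_mul,
    coeff_C_mul]
  push_cast
  ring

lemma X_dvd (r : ℕ) (x : ℕ → ℚ) (e : ℚ) :
    (X : ℚ⟦X⟧) ^ (r + 2) ∣ (C e * (T (r + 1) x - 1)) ^ (r + 2) :=
  pow_dvd_pow_of_dvd ⟨C e * C (x 0) * T r fun i => x (i + 1), by rw [T]; ring⟩ _

theorem A_eq (r : ℕ) : A (r + 1) = 2 ^ (r + 1) := by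
  set x : ℕ → ℚ := fun i => (if i = 0 then 1 else 2 * ((i : ℚ) + 1) - 3) / ((i : ℚ) + 1) with hx
  have h1 : A (r + 1) = Sg (r + 1) x (fun a => 1 ^ a * (1 + (a : ℚ))) (r + 1) := by
    rw [← sum_Lam]; simp only [A, u, hx, one_pow, one_mul]
  obtain ⟨D, hD⟩ := T_congr (r + 1) x
  obtain ⟨E, hE⟩ := X_dvd r x 1
  have h2 := geom_sq (C 1 * (T (r + 1) x - 1)) (r + 2)
  rw [h1, top]
  rw [hE] at h2
  generalize ∑ a ∈ range (r + 2), ((1 + a : ℕ) : ℚ⟦X⟧) * (C 1 * (T (r + 1) x - 1)) ^ a = P at h2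
  have h3 : (1 - 2 * X : ℚ⟦X⟧) * PowerSeries.mk (fun k => (2 : ℚ) ^ k) = 1 := by
    have h2 : (2 : ℚ⟦X⟧) = C (2 : ℚ) := rfl
    ext k
    rw [sub_mul, one_mul, map_sub, mul_assoc, h2, coeff_C_mul]
    rcases k with _ | k
    · simp
    · simp [coeff_succ_X_mul, coeff_one, pow_succ']
  have h4 : T (r + 1) x = 2 - Z + X ^ (r + 1 + 1) * D := by rw [← hD, Z]; ring
  have h5 : (X : ℚ⟦X⟧) ^ (r + 1 + 1) ∣ P - PowerSeries.mk (fun k => (2 : ℚ) ^ k) := by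
    rw [h4, map_one] at h2
    generalize PowerSeries.mk (fun k => (2 : ℚ) ^ k) = G at *
    refine ⟨G * (E * (((r + 2 : ℕ) : ℚ⟦X⟧) * (1 * (2 - Z + X ^ (r + 1 + 1) * D - 1)) -
      (((r + 2 : ℕ) : ℚ⟦X⟧) + 1)) +
      P * D * (2 * Z - X ^ (r + 1 + 1) * D)), ?_⟩
    linear_combination G * h2 - P * h3 - (G * P) * Z_sq
  have := X_pow_dvd_iff.1 h5 (r + 1) (by omega)
  rwa [map_sub, coeff_mk, sub_eq_zero] at this

theorem B_eq (r : ℕ) : B (r + 2) = 0 := by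
  set x : ℕ → ℚ := fun i => (2 * ((i : ℚ) + 1) - 1) / ((i : ℚ) + 1) with hx
  have h1 : B (r + 2) = -Sg (r + 1 + 1) x (fun a => (-1) ^ a * (1 + (a : ℚ))) (r + 1 + 1) := by
    rw [← sum_Lam, ← sum_neg_distrib]
    refine sum_congr rfl fun l _ => ?_
    simp only [v, hx, pow_add]
    ring
  obtain ⟨D, hD⟩ := T_congr (r + 1 + 1) x
  obtain ⟨E, hE⟩ := X_dvd (r + 1) x (-1)
  have h2 := geom_sq (C (-1) * (T (r + 1 + 1) x - 1)) (r + 1 + 2)
  rw [h1, top, neg_eq_zero]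
  rw [hE] at h2
  generalize ∑ a ∈ range (r + 1 + 2), ((1 + a : ℕ) : ℚ⟦X⟧) *
    (C (-1) * (T (r + 1 + 1) x - 1)) ^ a = P at h2
  have h4 : T (r + 1 + 1) x = Y + X ^ (r + 1 + 1 + 1) * D := by rw [← hD, Y]; ring
  have h5 : (X : ℚ⟦X⟧) ^ (r + 1 + 1 + 1) ∣ P - (1 - 2 * X) := by
    rw [h4, map_neg, map_one] at h2
    refine ⟨(1 - 2 * X) * (E * (((r + 1 + 2 : ℕ) : ℚ⟦X⟧) * (-1 * (Y + X ^ (r + 1 + 1 + 1) * D - 1)) -
      (((r + 1 + 2 : ℕ) : ℚ⟦X⟧) + 1)) - P * D * (2 * Y + X ^ (r + 1 + 1 + 1) * D)), ?_⟩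
    linear_combination (1 - 2 * X) * h2 - P * Y_sq
  have := X_pow_dvd_iff.1 h5 (r + 1 + 1) (by omega)
  have h2' : (2 : ℚ⟦X⟧) = C (2 : ℚ) := rfl
  rw [map_sub, sub_eq_zero] at this
  rw [this, h2']
  simp [coeff_one, coeff_X]

end Pool.Agent.H60.Lam
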