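import Mathlib

set_option autoImplicit false

namespace Pool.Agent.H60.MB

variable {V E : Type} [DecidableEq E]

/-- `y` is joined to `x` by a walk using only edges of `S` (multigraph given by `ends`). -/
def Reach (ends : E → Sym2 V) (S : Set E) (x y : V) : Prop :=
  Relation.ReflTransGen (fun a b => ∃ e ∈ S, ends e = s(a, b)) x y

/-- Edges owned by Maker after the history `h` of Maker moves (latest first), head start `F`. -/
def makerSet (F : Finset E) : List (Finset E) → Finset E
  | [] => F
  | A :: h => makerSet F h ∪ A

/-- Edges owned by Breaker, who answers each Maker move according to the strategy `σ`. -/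
def breakerSet (σ : List (Finset E) → Finset E) : List (Finset E) → Finset E
  | [] => ∅
  | A :: h => breakerSet σ h ∪ σ (A :: h)

/-- Every Maker move in the history consists of `p` edges not yet claimed. -/
def MakerLegal (p : ℕ) (F : Finset E) (σ : List (Finset E) → Finset E) :
    List (Finset E) → Prop
  | [] => True
  | A :: h => MakerLegal p F σ h ∧ A.card = p ∧ Disjoint A (makerSet F h ∪ breakerSet σ h)

/-- The first `n` Maker moves of the play `a`, latest first. -/
def hist (a : ℕ → Finset E) : ℕ → List (Finset E)
  | 0 => []
  | n + 1 => a n :: hist a n

/-- Breaker has a winning strategy in the `(p,q)`-percolation game with root `v₀` and head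
start `F`: a strategy that always answers with `q` unclaimed edges and such that in every play
the component of `v₀` in the non-Breaker edges is finite at some finite stage. -/
def BreakerWins (ends : E → Sym2 V) (v₀ : V) (p q : ℕ) (F : Finset E) : Prop :=
  ∃ σ : List (Finset E) → Finset E,
    (∀ A h, MakerLegal p F σ (A :: h) →
      (σ (A :: h)).card = q ∧ Disjoint (σ (A :: h)) (makerSet F (A :: h) ∪ breakerSet σ h)) ∧
    ∀ a : ℕ → Finset E, (∀ n, MakerLegal p F σ (hist a n)) →
      ∃ n, {y | Reach ends {e | e ∉ breakerSet σ (hist a n)} v₀ y}.Finite

end Pool.Agent.H60.MB
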