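import Pool.Agent.H60.MBDefs

set_option autoImplicit false

namespace Pool.Agent.H60.MB

open Relation

abbrev W := List (Fin 5)
abbrev Ed := W × Fin 256
abbrev Vx := Option Ed

def up (e : Ed) : Vx :=
  if h : e.2.val + 1 < 256 then some (e.1, ⟨e.2.val + 1, h⟩)
  else match e.1 with
    | [] => none
    | _ :: u => some (u, 0)

def ends (e : Ed) : Sym2 Vx := s(some e, up e)

abbrev R (S : Set Ed) (x y : Vx) : Prop := Reach ends S x y

def ht : Vx → ℕ
  | none => 0
  | some e => 256 * e.1.length + (256 - e.2.val)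

theorem ht_up (e : Ed) : ht (up e) < ht (some e) := by
  obtain ⟨w, j⟩ := e
  have := j.2
  unfold up
  split_ifs with h
  · simp only [ht] at h ⊢; omega
  · cases w with
    | nil => simp only [ht]; omega
    | cons c u => simp only [ht, List.length_cons, Fin.val_zero] at h ⊢; omega

theorem up_lt (w : W) (j : ℕ) (h : j + 1 < 256) :
    up (w, ⟨j, by omega⟩) = some (w, ⟨j + 1, h⟩) := by
  unfold up; rw [dif_pos h]

theorem up_last (c : Fin 5) (u : W) : up (c :: u, 255) = some (u, 0) := by
  unfold up; rw [dif_neg (by simp)]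

theorem R.refl (S : Set Ed) (x : Vx) : R S x x := ReflTransGen.refl

theorem R.step_up {S : Set Ed} {x : Vx} {e : Ed} (h : R S x (some e)) (he : e ∈ S) :
    R S x (up e) := ReflTransGen.tail h ⟨e, he, rfl⟩

theorem R.step_down {S : Set Ed} {x : Vx} {e : Ed} (h : R S x (up e)) (he : e ∈ S) :
    R S x (some e) := ReflTransGen.tail h ⟨e, he, Sym2.eq_swap⟩

theorem R.ind {S : Set Ed} {x : Vx} (P : Vx → Prop) (h0 : P x)
    (h1 : ∀ e ∈ S, R S x (some e) → P (some e) → P (up e))
    (h2 : ∀ e ∈ S, R S x (up e) → P (up e) → P (some e)) {y : Vx} (h : R S x y) : P y := by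
  induction h with
  | refl => exact h0
  | tail hab hbc ih =>
    obtain ⟨e, he, h⟩ := hbc
    rcases Sym2.eq_iff.mp h with ⟨rfl, rfl⟩ | ⟨rfl, rfl⟩
    · exact h1 e he hab ih
    · exact h2 e he hab ih

theorem R.mono {S T : Set Ed} (hST : S ⊆ T) {x y : Vx} (h : R S x y) : R T x y :=
  R.ind (fun y => R T x y) (R.refl _ _) (fun _ he _ h => h.step_up (hST he))
    (fun _ he _ h => h.step_down (hST he)) h

theorem R.trans {S : Set Ed} {x y z : Vx} (h : R S x y) (h' : R S y z) : R S x z :=
  ReflTransGen.trans h h'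

theorem R.symm {S : Set Ed} {x y : Vx} (h : R S x y) : R S y x :=
  R.ind (fun y => R S y x) (R.refl _ _)
    (fun e he _ h => ((R.refl S (up e)).step_down he).trans h)
    (fun e he _ h => ((R.refl S (some e)).step_up he).trans h) h

theorem box_up {S : Set Ed} {v : Vx} {w : W} (h : R S v (some (w, 0))) (j : ℕ) (hj : j < 256)
    (hS : ∀ i : Fin 256, i.val < j → (w, i) ∈ S) : R S v (some (w, ⟨j, hj⟩)) := by
  induction j with
  | zero => exact h
  | succ j ih =>
    have := (ih (by omega) (fun i hi => hS i (by omega))).step_up (hS _ (by simp))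
    rwa [up_lt w j hj] at this

theorem box_down {S : Set Ed} {v : Vx} {w : W} (h : R S v (up (w, 255)))
    (hS : ∀ i : Fin 256, (w, i) ∈ S) : R S v (some (w, 0)) := by
  have h1 : R S v (some (w, 255)) := h.step_down (hS _)
  have h2 : R S (some (w, 0)) (some (w, ⟨255, by norm_num⟩)) :=
    box_up (R.refl _ _) 255 (by norm_num) (fun i _ => hS i)
  exact h1.trans h2.symm

theorem conn_root (w : W) : R Set.univ none (some (w, 0)) := by
  induction w with
  | nil => exact box_down (R.refl _ _) (fun _ => trivial)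
  | cons c u ih => exact box_down (by rw [up_last]; exact ih) (fun _ => trivial)

theorem conn (x y : Vx) : R Set.univ x y := by
  have (z : Vx) : R Set.univ none z := by
    cases z with
    | none => exact R.refl _ _
    | some e => exact box_up (conn_root e.1) e.2.val e.2.2 (fun _ _ => trivial)
  exact (this x).symm.trans (this y)

def Climb (S : Set Ed) : Vx → Vx → Prop :=
  ReflTransGen (fun a b => ∃ e ∈ S, a = some e ∧ b = up e)

theorem Climb.ht_le {S : Set Ed} {a b : Vx} (h : Climb S a b) : ht b ≤ ht a := by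
  induction h with
  | refl => exact le_rfl
  | tail _ hbc ih =>
    obtain ⟨e, _, rfl, rfl⟩ := hbc
    exact (ht_up e).le.trans ih

theorem Climb.iff_up {S : Set Ed} {e : Ed} (he : e ∈ S) {t : Vx} (ht : some e ≠ t) :
    Climb S (some e) t ↔ Climb S (up e) t := by
  constructor
  · intro h
    rcases ReflTransGen.cases_head h with h | ⟨c, ⟨e', _, h1, h2⟩, h3⟩
    · exact absurd h ht
    · obtain rfl := Option.some.inj h1
      rw [h2] at h3; exact h3
  · intro h; exact ReflTransGen.head ⟨e, he, rfl, rfl⟩ h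

theorem stuck_unique {S : Set Ed} {v x y : Vx} (hx : R S v x) (hy : R S v y)
    (sx : ∀ e ∈ S, some e ≠ x) (sy : ∀ e ∈ S, some e ≠ y) : x = y := by
  have h : Climb S y x :=
    R.ind (fun z => Climb S z x) ReflTransGen.refl
      (fun e he _ h => (Climb.iff_up he (sx e he)).mp h)
      (fun e he _ h => (Climb.iff_up he (sx e he)).mpr h) (hx.symm.trans hy)
  rcases ReflTransGen.cases_head h with h | ⟨c, ⟨e', he, h1, _⟩, _⟩
  · exact h.symm
  · exact absurd h1.symm (sy e' he)

def side (x : Ed) (z : Vx) : Prop := Climb Set.univ z (some x)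

theorem side_lo (x : Ed) : side x (some x) := ReflTransGen.refl

theorem side_up (x : Ed) : ¬ side x (up x) := fun h => absurd h.ht_le (not_le.mpr (ht_up x))

theorem side_ne {x e : Ed} (h : e ≠ x) : side x (some e) ↔ side x (up e) :=
  Climb.iff_up (Set.mem_univ e) (fun h' => h (Option.some.inj h'))

theorem side_R {S : Set Ed} {x : Ed} (hx : x ∉ S) {a b : Vx} (h : R S a b) :
    side x a ↔ side x b :=
  R.ind (fun z => side x a ↔ side x z) Iff.rfl
    (fun e he _ h => h.trans (side_ne (fun h' : e = x => hx (h' ▸ he))))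
    (fun e he _ h => h.trans (side_ne (fun h' : e = x => hx (h' ▸ he))).symm) h

def Bd (S : Set Ed) (v : Vx) : Set Ed := {e | e ∉ S ∧ (R S v (some e) ∨ R S v (up e))}

theorem sep {S : Set Ed} (v y : Vx) :
    R S v y ∨ ∃ x ∈ Bd S v, ¬ (side x v ↔ side x y) := by
  refine R.ind (fun y => R S v y ∨ ∃ x ∈ Bd S v, ¬ (side x v ↔ side x y)) (Or.inl (R.refl _ _))
    ?_ ?_ (conn v y)
  · rintro e _ _ (h | ⟨x, hx, h⟩)
    · by_cases he : e ∈ S
      · exact Or.inl (h.step_up he)
      · refine Or.inr ⟨e, ⟨he, Or.inl h⟩, fun h' => ?_⟩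
        exact side_up e (h'.mp ((side_R he h).mpr (side_lo e)))
    · by_cases hex : e = x
      · subst hex
        rcases hx.2 with h' | h'
        · exact absurd (side_R hx.1 h') h
        · exact Or.inl h'
      · exact Or.inr ⟨x, hx, fun h' => h (h'.trans (side_ne hex).symm)⟩
  · rintro e _ _ (h | ⟨x, hx, h⟩)
    · by_cases he : e ∈ S
      · exact Or.inl (h.step_down he)
      · refine Or.inr ⟨e, ⟨he, Or.inr h⟩, fun h' => ?_⟩
        exact side_up e ((side_R he h).mp (h'.mpr (side_lo e)))
    · by_cases hex : e = x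
      · subst hex
        rcases hx.2 with h' | h'
        · exact Or.inl h'
        · exact absurd (side_R hx.1 h') h
      · exact Or.inr ⟨x, hx, fun h' => h (h'.trans (side_ne hex))⟩

theorem comp_sub {S T : Set Ed} {v y : Vx} (hT : ∀ e ∈ Bd S v, e ∉ T) (h : R T v y) :
    R S v y := by
  refine R.ind (fun y => R S v y) (R.refl _ _) ?_ ?_ h
  · intro e he _ h
    by_cases h' : e ∈ S
    · exact h.step_up h'
    · exact absurd he (hT e ⟨h', Or.inl h⟩)
  · intro e he _ h
    by_cases h' : e ∈ S
    · exact h.step_down h'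
    · exact absurd he (hT e ⟨h', Or.inr h⟩)

theorem K_finite (A : Finset Ed) (v : Vx) : {y | R A v y}.Finite := by
  apply Set.Finite.subset (s := insert v ((some '' (A : Set Ed)) ∪ (up '' (A : Set Ed))))
  · exact ((A.finite_toSet.image _).union (A.finite_toSet.image _)).insert _
  · intro y hy
    refine R.ind (fun y => y ∈ insert v ((some '' (A : Set Ed)) ∪ (up '' (A : Set Ed))))
      (Set.mem_insert _ _) ?_ ?_ hy
    · intro e he _ _; exact Or.inr (Or.inr ⟨e, he, rfl⟩)
    · intro e he _ _; exact Or.inr (Or.inl ⟨e, he, rfl⟩)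

theorem not_full {S : Set Ed} {v : Vx} {w : W} (h : R S v (some (w, 0)))
    (hn : ¬ ∀ i, (w, i) ∈ S) : ∃ j, (w, j) ∉ S ∧ R S v (some (w, j)) := by
  classical
  have hex : ∃ j : ℕ, ∃ hj : j < 256, (w, (⟨j, hj⟩ : Fin 256)) ∉ S := by
    push Not at hn
    obtain ⟨i, hi⟩ := hn
    exact ⟨i.val, i.2, hi⟩
  obtain ⟨hj, hj2⟩ := Nat.find_spec hex
  refine ⟨_, hj2, box_up h _ hj (fun i hi => ?_)⟩
  by_contra hc
  exact Nat.find_min hex hi ⟨i.2, hc⟩

end Pool.Agent.H60.MB
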