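import Pool.Agent.H60.MBa

set_option autoImplicit false

namespace Pool.Agent.H60.MB

open Finset

noncomputable def KF (A : Finset Ed) (v : Vx) : Finset Vx := (K_finite A v).toFinset

theorem mem_KF {A : Finset Ed} {v y : Vx} : y ∈ KF A v ↔ R A v y := by simp [KF]

noncomputable def NF (A : Finset Ed) (v : Vx) : Finset W :=
  (KF A v).preimage (fun w => some (w, 0)) (fun a _ b _ h => by simpa using h)

theorem mem_NF {A : Finset Ed} {v : Vx} {w : W} : w ∈ NF A v ↔ R A v (some (w, 0)) := by
  exact mem_preimage.trans mem_KF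

def children : Vx → Finset Ed
  | none => {([], 255)}
  | some e => if e.2 = 0 then univ.image (fun c : Fin 5 => (c :: e.1, 255)) else {(e.1, e.2 - 1)}

theorem mem_children (e : Ed) : e ∈ children (up e) := by
  obtain ⟨w, j⟩ := e
  have hj := j.2
  unfold up
  split_ifs with h
  · simp only [children]
    have h0 : (⟨j.val + 1, h⟩ : Fin 256) ≠ 0 := by
      intro h'
      have := congrArg Fin.val h'
      exact absurd this (Nat.succ_ne_zero _)
    rw [if_neg h0, mem_singleton]
    congr 1
    apply Fin.ext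
    simp only [Fin.sub_def]
    simp at h ⊢
    omega
  · have : j = 255 := by apply Fin.ext; simp at h ⊢; omega
    subst this
    cases w with
    | nil => simp [children]
    | cons c u => simp [children]

def isNode : Vx → Prop
  | none => False
  | some e => e.2 = 0

open Classical in
theorem card_children (x : Vx) : (children x).card ≤ 1 + if isNode x then 4 else 0 := by
  cases x with
  | none => simp [children]
  | some e =>
    by_cases h : e.2 = 0
    · simp only [children, isNode, h, if_true]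
      exact card_image_le.trans (by simp)
    · simp [children, isNode, h]

noncomputable def DF (A : Finset Ed) (v : Vx) : Finset Ed := (KF A v).biUnion children

theorem card_DF (A : Finset Ed) (v : Vx) :
    (DF A v).card ≤ (KF A v).card + 4 * (NF A v).card := by
  classical
  have h1 : (DF A v).card ≤ ∑ x ∈ KF A v, (1 + if isNode x then 4 else 0) :=
    card_biUnion_le.trans (sum_le_sum (fun x _ => card_children x))
  rw [sum_add_distrib, ← sum_filter] at h1
  simp only [sum_const, smul_eq_mul, mul_one] at h1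
  have h2 : ((KF A v).filter (fun a => isNode a)).card ≤ (NF A v).card := by
    refine le_trans (card_le_card ?_) (card_image_le (f := fun w : W => (some (w, 0) : Vx)))
    intro x hx
    rw [mem_filter] at hx
    cases x with
    | none => exact absurd hx.2 (by simp [isNode])
    | some e =>
      obtain ⟨w, j⟩ := e
      have : j = 0 := hx.2
      subst this
      exact mem_image.mpr ⟨w, mem_NF.mpr (mem_KF.mp hx.1), rfl⟩
  omega

theorem mem_DF {A : Finset Ed} {v : Vx} {e : Ed} (h : R A v (up e)) : e ∈ DF A v :=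
  mem_biUnion.mpr ⟨_, mem_KF.mpr h, mem_children e⟩

theorem Bd_finite (A : Finset Ed) (v : Vx) : (Bd A v).Finite := by
  apply Set.Finite.subset (s := (DF A v : Set Ed) ∪ some ⁻¹' (KF A v : Set Vx))
  · exact (DF A v).finite_toSet.union
      ((KF A v).finite_toSet.preimage (Option.some_injective _).injOn)
  · rintro e ⟨_, h | h⟩
    · exact Or.inr (mem_KF.mpr h)
    · exact Or.inl (mem_DF h)

noncomputable def BF (A : Finset Ed) (v : Vx) : Finset Ed := (Bd_finite A v).toFinset

theorem mem_BF {A : Finset Ed} {v : Vx} {e : Ed} :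
    e ∈ BF A v ↔ e ∉ A ∧ (R A v (some e) ∨ R A v (up e)) := by simp [BF, Bd]

theorem card_BF (A : Finset Ed) (v : Vx) : (BF A v).card ≤ 4 * (NF A v).card + 2 := by
  classical
  have h1 := card_DF A v
  have h2 : (KF A v).card ≤ (DF A v ∩ A).card + 1 := by
    obtain ⟨T, hT⟩ : ∃ T : Finset Vx, ∀ x, x ∈ T ↔ x ∈ KF A v ∧ ∀ e ∈ A, some e ≠ x :=
      ⟨(KF A v).filter (fun x => ∀ e ∈ A, some e ≠ x), fun x => mem_filter⟩
    have hs : KF A v ⊆ (DF A v ∩ A).image some ∪ T := by
      intro x hx
      by_cases h : ∀ e ∈ A, some e ≠ x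
      · exact mem_union_right _ ((hT x).mpr ⟨hx, h⟩)
      · push Not at h
        obtain ⟨e, he, rfl⟩ := h
        exact mem_union_left _ (mem_image.mpr ⟨e, mem_inter.mpr
          ⟨mem_DF ((mem_KF.mp hx).step_up he), he⟩, rfl⟩)
    have ht : T.card ≤ 1 := by
      rw [card_le_one]
      intro a ha b hb
      rw [hT] at ha hb
      exact stuck_unique (mem_KF.mp ha.1) (mem_KF.mp hb.1) ha.2 hb.2
    have := (card_le_card hs).trans (card_union_le _ _)
    have := card_image_le (s := DF A v ∩ A) (f := (some : Ed → Vx))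
    omega
  have h3 : (BF A v).card ≤ (DF A v \ A).card + 1 := by
    have hs : BF A v ⊆ (DF A v \ A) ∪ (BF A v).filter (fun e => R A v (some e)) := by
      intro e he
      have he' := mem_BF.mp he
      rcases he'.2 with h | h
      · exact mem_union_right _ (mem_filter.mpr ⟨he, h⟩)
      · exact mem_union_left _ (mem_sdiff.mpr ⟨mem_DF h, he'.1⟩)
    have ht : ((BF A v).filter (fun e => R A v (some e))).card ≤ 1 := by
      rw [card_le_one]
      intro a ha b hb
      rw [mem_filter] at ha hb
      apply Option.some.inj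
      refine stuck_unique ha.2 hb.2 ?_ ?_
      · intro e he h; exact (mem_BF.mp ha.1).1 (Option.some.inj h ▸ he)
      · intro e he h; exact (mem_BF.mp hb.1).1 (Option.some.inj h ▸ he)
    have := (card_le_card hs).trans (card_union_le _ _)
    omega
  have h4 := card_sdiff_add_card_inter (DF A v) A
  omega

noncomputable def FF (A : Finset Ed) (v : Vx) : Finset W :=
  (NF A v).filter (fun w => ∀ i, (w, i) ∈ A)

theorem card_NF (A : Finset Ed) (v : Vx) : (NF A v).card ≤ (FF A v).card + 1 := by
  have ht : ((NF A v).filter (fun w => ¬ ∀ i, (w, i) ∈ A)).card ≤ 1 := by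
    rw [card_le_one]
    intro a ha b hb
    rw [mem_filter] at ha hb
    obtain ⟨i, hi, hi2⟩ := not_full (S := A) (mem_NF.mp ha.1) ha.2
    obtain ⟨j, hj, hj2⟩ := not_full (S := A) (mem_NF.mp hb.1) hb.2
    have := stuck_unique hi2 hj2 (fun e he h => hi (Option.some.inj h ▸ he))
      (fun e he h => hj (Option.some.inj h ▸ he))
    exact congrArg Prod.fst (Option.some.inj this)
  have := card_filter_add_card_filter_not (s := NF A v) (fun w => ∀ i, (w, i) ∈ A)
  unfold FF
  omega

theorem FF_sub (A : Finset Ed) (v : Vx) : FF A v ×ˢ (univ : Finset (Fin 256)) ⊆ A := by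
  rintro ⟨w, i⟩ h
  exact (mem_filter.mp (mem_product.mp h).1).2 i

theorem card_box (s : Finset W) : (s ×ˢ (univ : Finset (Fin 256))).card = s.card * 256 := by
  simp

theorem beta_ex (A : Finset Ed) (v : Vx) (e : Ed) : ∃ x : Ed, e.1 ∉ FF A v →
    x ∈ BF A v ∧ ∀ S : Set Ed, R S v (some (e.1, 0)) → (∀ i, (e.1, i) ∈ S) → x ∈ S := by
  by_cases hF : e.1 ∈ FF A v
  · exact ⟨e, fun h => absurd hF h⟩
  rcases sep (S := A) v (some (e.1, 0)) with h | ⟨x, hx, h⟩
  · have : ¬ ∀ i, (e.1, i) ∈ (A : Set Ed) := fun h' => hF (mem_filter.mpr ⟨mem_NF.mpr h, h'⟩)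
    obtain ⟨j, hj, hj2⟩ := not_full h this
    exact ⟨(e.1, j), fun _ => ⟨mem_BF.mpr ⟨hj, Or.inl hj2⟩, fun S _ hS => hS j⟩⟩
  · refine ⟨x, fun _ => ⟨mem_BF.mpr hx, fun S hS _ => ?_⟩⟩
    by_contra hc
    exact h (side_R hc hS)

theorem first_move (A : Finset Ed) (v : Vx) (hA : A.card = 3315) (hB : 51 < (BF A v).card) :
    ∃ C ⊆ BF A v, C.card = 51 ∧ ∀ A2 : Finset Ed, A2.card = 3315 → Disjoint A2 C →
      (BF (A ∪ A2) v \ C).card ≤ 51 := by
  classical
  choose β hβ using beta_ex A v
  have c1 := card_BF A v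
  have c2 := card_NF A v
  have c3 := card_le_card (FF_sub A v)
  rw [card_box] at c3
  set rest := A \ (FF A v ×ˢ (univ : Finset (Fin 256))) with hrest
  have c4 : rest.card ≤ 243 := by
    rw [hrest, card_sdiff_of_subset (FF_sub A v), card_box]; omega
  set heavy := (BF A v).filter (fun x => 5 ≤ (rest.filter (fun e => β e = x)).card) with hheavy
  have c5 : heavy.card * 5 ≤ rest.card := by
    have h1 : ∑ x ∈ heavy, (rest.filter (fun e => β e = x)).card ≤ rest.card := by
      rw [← card_biUnion]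
      · apply card_le_card
        intro e he
        obtain ⟨x, _, hx⟩ := mem_biUnion.mp he
        exact (mem_filter.mp hx).1
      · intro x _ y _ hxy
        simp only [Function.onFun]
        rw [disjoint_left]
        intro e h1 h2
        exact hxy ((mem_filter.mp h1).2.symm.trans (mem_filter.mp h2).2)
    have h2 := card_nsmul_le_sum heavy (fun x => (rest.filter (fun e => β e = x)).card) 5
      (fun x hx => (mem_filter.mp hx).2)
    simp only [smul_eq_mul] at h2
    omega
  obtain ⟨C, hC1, hC2, hC3⟩ := exists_subsuperset_card_eq (n := 51) (filter_subset _ _ : heavy ⊆ BF A v)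
    (show heavy.card ≤ 51 by omega) hB.le
  refine ⟨C, hC2, hC3, fun A2 hA2 hd => ?_⟩
  have hsub : (A : Set Ed) ⊆ (A ∪ A2 : Finset Ed) := by
    intro e he; simp only [coe_union]; exact Or.inl he
  have d1 : C ⊆ BF (A ∪ A2) v := by
    intro x hx
    have h := mem_BF.mp (hC2 hx)
    refine mem_BF.mpr ⟨?_, h.2.imp (R.mono hsub) (R.mono hsub)⟩
    rw [mem_union]; push Not
    exact ⟨h.1, fun h' => disjoint_left.mp hd h' hx⟩
  have d2 : (BF A v \ C).card ≤ 3 := by rw [card_sdiff_of_subset hC2]; omega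
  set G := (BF A v \ C).biUnion (fun x => rest.filter (fun e => β e = x)) with hG
  have d3 : G.card ≤ 12 := by
    refine card_biUnion_le.trans ?_
    have := sum_le_card_nsmul (BF A v \ C) (fun x => (rest.filter (fun e => β e = x)).card) 4
      (fun x hx => by
        rw [mem_sdiff] at hx
        by_contra hc
        exact hx.2 (hC1 (mem_filter.mpr ⟨hx.1, by omega⟩)))
    simp only [smul_eq_mul] at this
    omega
  have d4 : FF (A ∪ A2) v ×ˢ (univ : Finset (Fin 256)) ⊆
      A2 ∪ (FF A v ×ˢ (univ : Finset (Fin 256))) ∪ G := by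
    intro e he
    have he1 := mem_filter.mp (mem_product.mp he).1
    rcases mem_union.mp (FF_sub _ _ he) with h | h
    · by_cases h2 : e ∈ FF A v ×ˢ (univ : Finset (Fin 256))
      · exact mem_union_left _ (mem_union_right _ h2)
      · have h3 : e.1 ∉ FF A v := fun h' => h2 (mem_product.mpr ⟨h', mem_univ _⟩)
        obtain ⟨b1, b2⟩ := hβ e h3
        have b3 := b2 _ (mem_NF.mp he1.1) he1.2
        have b4 : β e ∈ A2 := by
          rcases mem_union.mp b3 with h' | h'
          · exact absurd h' (mem_BF.mp b1).1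
          · exact h'
        refine mem_union_right _ (mem_biUnion.mpr ⟨β e, mem_sdiff.mpr ⟨b1, ?_⟩, ?_⟩)
        · exact disjoint_left.mp hd b4
        · exact mem_filter.mpr ⟨mem_sdiff.mpr ⟨h, h2⟩, rfl⟩
    · exact mem_union_left _ (mem_union_left _ h)
  have d5 := (card_le_card d4).trans ((card_union_le _ _).trans
    (Nat.add_le_add_right (card_union_le _ _) _))
  rw [card_box, card_box] at d5
  have d6 := card_BF (A ∪ A2) v
  have d7 := card_NF (A ∪ A2) v
  rw [card_sdiff_of_subset d1]
  omega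

theorem fill (D U : Finset Ed) (hD : D.card ≤ 51) (hd : Disjoint D U) :
    ∃ C : Finset Ed, D ⊆ C ∧ C.card = 51 ∧ Disjoint C U := by
  obtain ⟨T, hT1, hT2⟩ := Infinite.exists_superset_card_eq (D ∪ U) ((D ∪ U).card + 51) (by omega)
  have h1 : D ⊆ T \ U := fun x hx =>
    mem_sdiff.mpr ⟨hT1 (mem_union_left _ hx), disjoint_left.mp hd hx⟩
  have h2 : 51 ≤ (T \ U).card := by
    rw [card_sdiff_of_subset (subset_union_right.trans hT1)]
    have := card_le_card (subset_union_right : U ⊆ D ∪ U)
    omega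
  obtain ⟨C, h3, h4, h5⟩ := exists_subsuperset_card_eq h1 hD h2
  exact ⟨C, h3, h5, disjoint_left.mpr (fun x hx => (mem_sdiff.mp (h4 hx)).2)⟩

theorem move_ex (v : Vx) (M B : Finset Ed) : ∃ C : Finset Ed, C.card = 51 ∧ Disjoint C (M ∪ B) ∧
    ((BF M v \ B).card ≤ 51 → BF M v \ B ⊆ C) ∧
    (B = ∅ → M.card = 3315 → 51 < (BF M v).card → ∀ A2 : Finset Ed, A2.card = 3315 →
      Disjoint A2 C → (BF (M ∪ A2) v \ C).card ≤ 51) := by
  by_cases h : (BF M v \ B).card ≤ 51
  · obtain ⟨C, h1, h2, h3⟩ := fill (BF M v \ B) (M ∪ B) h (by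
      rw [disjoint_left]
      intro x hx hx'
      rw [mem_sdiff] at hx
      rcases mem_union.mp hx' with h' | h'
      · exact (mem_BF.mp hx.1).1 h'
      · exact hx.2 h')
    refine ⟨C, h2, h3, fun _ => h1, ?_⟩
    rintro rfl _ h4
    simp at h; omega
  by_cases h' : B = ∅ ∧ M.card = 3315 ∧ 51 < (BF M v).card
  · obtain ⟨rfl, h1, h2⟩ := h'
    obtain ⟨C, c1, c2, c3⟩ := first_move M v h1 h2
    refine ⟨C, c2, ?_, fun h'' => absurd h'' h, fun _ _ _ => c3⟩
    rw [union_empty, disjoint_left]
    intro x hx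
    exact (mem_BF.mp (c1 hx)).1
  · obtain ⟨C, _, h2, h3⟩ := fill ∅ (M ∪ B) (by simp) (by simp)
    exact ⟨C, h2, h3, fun h'' => absurd h'' h, fun a b c => absurd ⟨a, b, c⟩ h'⟩

theorem breaker_wins (v : Vx) : BreakerWins ends v 3315 51 ∅ := by
  choose τ h1 h2 h3 h4 using move_ex v
  let Bt : List (Finset Ed) → Finset Ed := fun h =>
    List.rec ∅ (fun A h B => B ∪ τ (makerSet ∅ (A :: h)) B) h
  let σ : List (Finset Ed) → Finset Ed := fun h => τ (makerSet ∅ h) (Bt h.tail)
  have hB : ∀ h, breakerSet σ h = Bt h := by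
    intro h
    induction h with
    | nil => rfl
    | cons A h ih => rw [breakerSet, ih]; rfl
  have hσ : ∀ A h, σ (A :: h) = τ (makerSet ∅ (A :: h)) (breakerSet σ h) := by
    intro A h; rw [hB]; rfl
  have fin : ∀ (M B : Finset Ed), BF M v ⊆ B → {y | Reach ends {e | e ∉ B} v y}.Finite := by
    intro M B hMB
    refine (K_finite M v).subset (fun y hy => comp_sub (T := {e | e ∉ B}) ?_ hy)
    intro e he h
    exact h (hMB (mem_BF.mpr he))
  refine ⟨σ, fun A h _ => ?_, fun a ha => ?_⟩
  · rw [hσ]; exact ⟨h1 _ _, h2 _ _⟩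
  · have l2 := ha 2
    simp only [hist, MakerLegal, makerSet, breakerSet, empty_union, union_empty] at l2
    obtain ⟨⟨_, c0, _⟩, c1, c2⟩ := l2
    have e0 : σ [a 0] = τ (a 0) ∅ := by rw [hσ]; simp [makerSet, breakerSet]
    by_cases hc : (BF (a 0) v).card ≤ 51
    · refine ⟨1, fin (a 0) _ ?_⟩
      simp only [hist, breakerSet, empty_union]
      rw [e0]
      simpa using h3 (a 0) ∅ (by simpa using hc)
    · refine ⟨2, fin (a 0 ∪ a 1) _ ?_⟩
      simp only [hist, breakerSet, empty_union]
      rw [hσ (a 1)]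
      simp only [makerSet, breakerSet, empty_union]
      rw [e0] at c2 ⊢
      have := h3 _ _ (h4 (a 0) ∅ rfl c0 (by omega) (a 1) c1 (disjoint_union_right.mp c2).2)
      intro x hx
      by_cases hx' : x ∈ τ (a 0) ∅
      · exact mem_union_left _ hx'
      · exact mem_union_right _ (this (mem_sdiff.mpr ⟨hx, hx'⟩))

end Pool.Agent.H60.MB
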