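import Pool.Agent.H60.MBa

set_option autoImplicit false

namespace Pool.Agent.H60.MB

open Finset

def root : Vx := some ([], 0)

structure Fr (M B : Finset Ed) (Z Y : Finset W) : Prop where
  sub : Y ⊆ Z
  top : ∀ w ∈ Z, R M root (up (w, 255))
  anti : ∀ w ∈ Z, ∀ w' ∈ Z, w <:+ w' → w = w'
  noB : ∀ w ∈ Z, ∀ e ∈ B, ¬ w <:+ e.1
  noM : ∀ w ∈ Z, ∀ e ∈ M, w <:+ e.1 → e = (w, 0) ∧ w ∈ Y
  prep : ∀ w ∈ Y, (w, 0) ∈ M

theorem Fr.anti' {M B : Finset Ed} {Z Y : Finset W} (h : Fr M B Z Y) {w w' u : W} (hw : w ∈ Z)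
    (hw' : w' ∈ Z) (h1 : w <:+ u) (h2 : w' <:+ u) : w = w' := by
  rcases List.suffix_or_suffix_of_suffix h1 h2 with h3 | h3
  · exact h.anti w hw w' hw' h3
  · exact (h.anti w' hw' w hw h3).symm

theorem Fr.do_prep {M B : Finset Ed} {Z Y : Finset W} (h : Fr M B Z Y) (P : Finset W)
    (hP : P ⊆ Z \ Y) : ∃ A : Finset Ed, A.card = P.card ∧ Disjoint A (M ∪ B) ∧
      Fr (M ∪ A) B Z (Y ∪ P) := by
  have hsub : (M : Set Ed) ⊆ (M ∪ P.image (fun w => ((w, 0) : Ed)) : Finset Ed) := by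
    intro e he; simp only [coe_union]; exact Or.inl he
  refine ⟨P.image (fun w => (w, 0)), card_image_of_injective _ (fun a b h => congrArg Prod.fst h),
    ?_, ?_, ?_, h.anti, h.noB, ?_, ?_⟩
  · rw [disjoint_left]
    intro e he he'
    obtain ⟨w, hw, rfl⟩ := mem_image.mp he
    have hw' := mem_sdiff.mp (hP hw)
    rcases mem_union.mp he' with h1 | h1
    · exact hw'.2 (h.noM w hw'.1 _ h1 (List.suffix_refl _)).2
    · exact h.noB w hw'.1 _ h1 (List.suffix_refl _)
  · exact union_subset h.sub (hP.trans sdiff_subset)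
  · exact fun w hw => (h.top w hw).mono hsub
  · intro w hw e he hs
    rcases mem_union.mp he with h1 | h1
    · exact ⟨(h.noM w hw e h1 hs).1, mem_union_left _ (h.noM w hw e h1 hs).2⟩
    · obtain ⟨w', hw', rfl⟩ := mem_image.mp h1
      obtain rfl := h.anti w hw w' (mem_sdiff.mp (hP hw')).1 hs
      exact ⟨rfl, mem_union_right _ hw'⟩
  · intro w hw
    rcases mem_union.mp hw with h1 | h1
    · exact mem_union_left _ (h.prep w h1)
    · exact mem_union_right _ (mem_image.mpr ⟨w, h1, rfl⟩)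

theorem not_cons_suffix (c : Fin 5) (u : W) : ¬ (c :: u) <:+ u := fun h => by
  have := h.length_le
  simp at this

theorem Fr.do_complete {M B : Finset Ed} {Z Y : Finset W} (h : Fr M B Z Y) (P : Finset W)
    (hP : P ⊆ Y) : ∃ (A : Finset Ed) (Z' : Finset W), A.card = P.card * 255 ∧
      Disjoint A (M ∪ B) ∧ Z'.card = Z.card + 4 * P.card ∧ Fr (M ∪ A) B Z' (Y \ P) := by
  have hPZ : P ⊆ Z := hP.trans h.sub
  obtain ⟨A, hA, hAc⟩ : ∃ A : Finset Ed, (∀ e, e ∈ A ↔ e.1 ∈ P ∧ e.2 ≠ 0) ∧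
      A.card = P.card * 255 :=
    ⟨P ×ˢ (univ.erase 0), fun e => by rw [mem_product, mem_erase]; simp only [mem_univ, and_true],
      by rw [card_product, card_erase_of_mem (mem_univ _), card_univ, Fintype.card_fin]⟩
  obtain ⟨Q, hQ, hQc⟩ : ∃ Q : Finset W, (∀ w, w ∈ Q ↔ ∃ c u, u ∈ P ∧ w = c :: u) ∧
      Q.card = P.card * 5 := by
    refine ⟨(P ×ˢ (univ : Finset (Fin 5))).image (fun x => x.2 :: x.1), fun w => ?_, ?_⟩
    · rw [mem_image]
      constructor
      · rintro ⟨x, hx, rfl⟩; exact ⟨x.2, x.1, (mem_product.mp hx).1, rfl⟩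
      · rintro ⟨c, u, hu, rfl⟩; exact ⟨(u, c), mem_product.mpr ⟨hu, mem_univ _⟩, rfl⟩
    · rw [card_image_of_injective _ (fun a b h => Prod.ext (List.cons.inj h).2 (List.cons.inj h).1)]
      simp
  have hsub : (M : Set Ed) ⊆ (M ∪ A : Finset Ed) := by
    intro e he; simp only [coe_union]; exact Or.inl he
  have hdis : Disjoint (Z \ P) Q := by
    rw [disjoint_left]
    intro w hw hw'
    obtain ⟨c, u, hu, rfl⟩ := (hQ w).mp hw'
    have := h.anti u (hPZ hu) _ (mem_sdiff.mp hw).1 (List.suffix_cons c u)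
    exact not_cons_suffix c u (this ▸ List.suffix_refl _)
  refine ⟨A, (Z \ P) ∪ Q, hAc, ?_, ?_, ?_, ?_, ?_, ?_, ?_, ?_⟩
  · rw [disjoint_left]
    intro e he he'
    obtain ⟨h1, h2⟩ := (hA e).mp he
    rcases mem_union.mp he' with h3 | h3
    · exact h2 (congrArg Prod.snd (h.noM e.1 (hPZ h1) e h3 (List.suffix_refl _)).1)
    · exact h.noB e.1 (hPZ h1) e h3 (List.suffix_refl _)
  · rw [card_union_of_disjoint hdis, card_sdiff_of_subset hPZ, hQc]
    have := card_le_card hPZ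
    omega
  · intro w hw
    rw [mem_sdiff] at hw
    exact mem_union_left _ (mem_sdiff.mpr ⟨h.sub hw.1, hw.2⟩)
  · intro w hw
    rcases mem_union.mp hw with h1 | h1
    · exact (h.top w (mem_sdiff.mp h1).1).mono hsub
    · obtain ⟨c, u, hu, rfl⟩ := (hQ w).mp h1
      rw [up_last]
      refine box_down ((h.top u (hPZ hu)).mono hsub) (fun i => ?_)
      by_cases hi : i = 0
      · subst hi; exact hsub (h.prep u (hP hu))
      · simp only [coe_union]; exact Or.inr ((hA (u, i)).mpr ⟨hu, hi⟩)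
  · intro w hw w' hw' hs
    rcases mem_union.mp hw with h1 | h1 <;> rcases mem_union.mp hw' with h2 | h2
    · exact h.anti w (mem_sdiff.mp h1).1 w' (mem_sdiff.mp h2).1 hs
    · obtain ⟨c, u, hu, rfl⟩ := (hQ w').mp h2
      rcases List.suffix_cons_iff.mp hs with h3 | h3
      · exact h3
      · obtain rfl := h.anti w (mem_sdiff.mp h1).1 u (hPZ hu) h3
        exact absurd hu (mem_sdiff.mp h1).2
    · obtain ⟨c, u, hu, rfl⟩ := (hQ w).mp h1
      obtain rfl := h.anti u (hPZ hu) w' (mem_sdiff.mp h2).1 ((List.suffix_cons c u).trans hs)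
      exact absurd hu (mem_sdiff.mp h2).2
    · obtain ⟨c, u, hu, rfl⟩ := (hQ w).mp h1
      obtain ⟨c', u', hu', rfl⟩ := (hQ w').mp h2
      rcases List.suffix_cons_iff.mp hs with h3 | h3
      · exact h3
      · obtain rfl := h.anti u (hPZ hu) u' (hPZ hu') ((List.suffix_cons c u).trans h3)
        exact absurd h3 (not_cons_suffix c u)
  · intro w hw e he hs
    rcases mem_union.mp hw with h1 | h1
    · exact h.noB w (mem_sdiff.mp h1).1 e he hs
    · obtain ⟨c, u, hu, rfl⟩ := (hQ w).mp h1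
      exact h.noB u (hPZ hu) e he ((List.suffix_cons c u).trans hs)
  · intro w hw e he hs
    rcases mem_union.mp hw with h1 | h1 <;> rcases mem_union.mp he with h2 | h2
    · have := h.noM w (mem_sdiff.mp h1).1 e h2 hs
      exact ⟨this.1, mem_sdiff.mpr ⟨this.2, (mem_sdiff.mp h1).2⟩⟩
    · have h3 := ((hA e).mp h2).1
      have := h.anti w (mem_sdiff.mp h1).1 e.1 (hPZ h3) hs
      exact absurd (this ▸ h3) (mem_sdiff.mp h1).2
    · obtain ⟨c, u, hu, rfl⟩ := (hQ w).mp h1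
      have := (h.noM u (hPZ hu) e h2 ((List.suffix_cons c u).trans hs)).1
      rw [this] at hs
      exact absurd hs (not_cons_suffix c u)
    · obtain ⟨c, u, hu, rfl⟩ := (hQ w).mp h1
      have h3 := ((hA e).mp h2).1
      have := h.anti u (hPZ hu) e.1 (hPZ h3) ((List.suffix_cons c u).trans hs)
      rw [← this] at hs
      exact absurd hs (not_cons_suffix c u)
  · intro w hw
    exact mem_union_left _ (h.prep w (mem_sdiff.mp hw).1)

theorem Fr.do_break {M B : Finset Ed} {Z Y : Finset W} (h : Fr M B Z Y) (C : Finset Ed) :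
    ∃ D : Finset W, D.card ≤ C.card ∧ Fr M (B ∪ C) (Z \ D) (Y \ D) := by
  classical
  refine ⟨Z.filter (fun w => ∃ e ∈ C, w <:+ e.1), ?_, ?_, ?_, ?_, ?_, ?_, ?_⟩
  · have : ∀ w : W, ∃ e : Ed, (∃ e ∈ C, w <:+ e.1) → e ∈ C ∧ w <:+ e.1 := by
      intro w
      by_cases hw : ∃ e ∈ C, w <:+ e.1
      · obtain ⟨e, he⟩ := hw; exact ⟨e, fun _ => he⟩
      · exact ⟨(w, 0), fun h => absurd h hw⟩
    choose f hf using this
    apply card_le_card_of_injOn f
    · intro w hw
      exact (hf w (mem_filter.mp hw).2).1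
    · intro w hw w' hw' he
      have h1 := mem_filter.mp hw
      have h2 := mem_filter.mp hw'
      exact h.anti' h1.1 h2.1 (hf w h1.2).2 (he ▸ (hf w' h2.2).2)
  · exact sdiff_subset_sdiff h.sub subset_rfl
  · exact fun w hw => h.top w (mem_sdiff.mp hw).1
  · exact fun w hw w' hw' => h.anti w (mem_sdiff.mp hw).1 w' (mem_sdiff.mp hw').1
  · intro w hw e he hs
    rw [mem_sdiff] at hw
    rcases mem_union.mp he with h1 | h1
    · exact h.noB w hw.1 e h1 hs
    · exact hw.2 (mem_filter.mpr ⟨hw.1, e, h1, hs⟩)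
  · intro w hw e he hs
    rw [mem_sdiff] at hw
    exact ⟨(h.noM w hw.1 e he hs).1, mem_sdiff.mpr ⟨(h.noM w hw.1 e he hs).2, hw.2⟩⟩
  · exact fun w hw => h.prep w (mem_sdiff.mp hw).1

def Good (M B : Finset Ed) : Prop :=
  Disjoint M B ∧ ∃ Z Y, Fr M B Z Y ∧ 212940 ≤ 64 * Z.card + Y.card

theorem Good.step {M B : Finset Ed} (h : Good M B) : ∃ A : Finset Ed, A.card = 3315 ∧
    Disjoint A (M ∪ B) ∧ ∀ C : Finset Ed, C.card = 51 → Disjoint C (M ∪ A ∪ B) →
      Good (M ∪ A) (B ∪ C) := by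
  obtain ⟨hd, Z, Y, hF, hc⟩ := h
  have key : ∃ A : Finset Ed, A.card = 3315 ∧ Disjoint A (M ∪ B) ∧ ∃ Z' Y', Fr (M ∪ A) B Z' Y' ∧
      212940 + 3315 ≤ 64 * Z'.card + Y'.card := by
    by_cases hY : 13 ≤ Y.card
    · obtain ⟨P, hP, hPc⟩ := exists_subset_card_eq hY
      obtain ⟨A, Z', h1, h2, h3, h4⟩ := hF.do_complete P hP
      refine ⟨A, by omega, h2, Z', _, h4, ?_⟩
      rw [card_sdiff_of_subset hP]; omega
    · have h0 : 3315 ≤ (Z \ Y).card := by rw [card_sdiff_of_subset hF.sub]; omega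
      obtain ⟨P, hP, hPc⟩ := exists_subset_card_eq h0
      obtain ⟨A, h1, h2, h4⟩ := hF.do_prep P hP
      refine ⟨A, by omega, h2, Z, _, h4, ?_⟩
      rw [card_union_of_disjoint
        (disjoint_left.mpr (fun w hw hw' => (mem_sdiff.mp (hP hw')).2 hw))]
      omega
  obtain ⟨A, h1, h2, Z', Y', h3, h4⟩ := key
  refine ⟨A, h1, h2, fun C hC hCd => ⟨?_, ?_⟩⟩
  · rw [disjoint_union_right, disjoint_union_left]
    exact ⟨⟨hd, (disjoint_union_right.mp h2).2⟩, (disjoint_union_right.mp hCd).1.symm⟩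
  · obtain ⟨D, d1, d2⟩ := h3.do_break C
    refine ⟨_, _, d2, ?_⟩
    have := le_card_sdiff D Z'
    have := le_card_sdiff D Y'
    omega

theorem Good.infinite {M B : Finset Ed} (h : Good M B) :
    {y | Reach ends {e | e ∉ B} root y}.Infinite := by
  obtain ⟨hd, Z, Y, hF, hc⟩ := h
  have := card_le_card hF.sub
  obtain ⟨w, hw⟩ : Z.Nonempty := card_pos.mp (by omega)
  have h0 : R {e | e ∉ B} root (up (w, 255)) :=
    (hF.top w hw).mono (fun e he => disjoint_left.mp hd he)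
  have h1 : ∀ n : ℕ, R {e | e ∉ B} root (some (List.replicate n 0 ++ w, 0)) := by
    intro n
    induction n with
    | zero => exact box_down h0 (fun i hi => hF.noB w hw _ hi (List.suffix_refl _))
    | succ n ih =>
      refine box_down ?_ (fun i hi => hF.noB w hw _ hi (List.suffix_append _ _))
      rw [List.replicate_succ, List.cons_append, up_last]; exact ih
  refine Set.infinite_of_injective_forall_mem
    (f := fun n : ℕ => (some (List.replicate n 0 ++ w, 0) : Vx)) ?_ h1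
  intro a b hab
  have := congrArg List.length (congrArg Prod.fst (Option.some.inj hab))
  simpa using this

theorem head_start (n : ℕ) : ∃ (M : Finset Ed) (Z : Finset W), Fr M ∅ Z ∅ ∧ n + 1 ≤ Z.card := by
  induction n with
  | zero =>
    refine ⟨∅, {[0]}, ⟨by simp, ?_, by simp, by simp, by simp, by simp⟩, by simp⟩
    intro w hw
    rw [mem_singleton] at hw
    subst hw
    rw [up_last]; exact R.refl _ _
  | succ n ih =>
    obtain ⟨M, Z, hF, hc⟩ := ih
    obtain ⟨w, hw⟩ : Z.Nonempty := card_pos.mp (by omega)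
    obtain ⟨A, _, _, h1⟩ := hF.do_prep {w} (by simpa using hw)
    obtain ⟨A', Z', _, _, h2, h3⟩ := h1.do_complete {w} (by simp)
    refine ⟨_, Z', by simpa using h3, ?_⟩
    rw [h2, card_singleton]; omega

theorem maker_wins : ∃ F : Finset Ed, ¬ BreakerWins ends root 3315 51 F := by
  obtain ⟨F, Z, hF, hc⟩ := head_start 4000
  refine ⟨F, ?_⟩
  rintro ⟨σ, hσ, hw⟩
  have hstep : ∀ M B : Finset Ed, ∃ A : Finset Ed, Good M B → A.card = 3315 ∧
      Disjoint A (M ∪ B) ∧ ∀ C : Finset Ed, C.card = 51 → Disjoint C (M ∪ A ∪ B) →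
        Good (M ∪ A) (B ∪ C) := by
    intro M B
    by_cases h : Good M B
    · obtain ⟨A, hA⟩ := h.step; exact ⟨A, fun _ => hA⟩
    · exact ⟨∅, fun h' => absurd h' h⟩
  choose f hf using hstep
  let H : ℕ → List (Finset Ed) := fun n =>
    Nat.rec [] (fun _ h => f (makerSet F h) (breakerSet σ h) :: h) n
  let a : ℕ → Finset Ed := fun n => f (makerSet F (H n)) (breakerSet σ (H n))
  have hH : ∀ n, hist a n = H n := by
    intro n
    induction n with
    | zero => rfl
    | succ n ih => rw [hist, ih]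
  have inv : ∀ n, MakerLegal 3315 F σ (H n) ∧ Good (makerSet F (H n)) (breakerSet σ (H n)) := by
    intro n
    induction n with
    | zero => exact ⟨trivial, by simp [H, breakerSet], Z, ∅, hF, by omega⟩
    | succ n ih =>
      obtain ⟨h1, h2, h3⟩ := hf _ _ ih.2
      have hl : MakerLegal 3315 F σ (a n :: H n) := ⟨ih.1, h1, h2⟩
      obtain ⟨s1, s2⟩ := hσ _ _ hl
      exact ⟨hl, h3 _ s1 s2⟩
  obtain ⟨n, hn⟩ := hw a (fun n => by rw [hH]; exact (inv n).1)
  rw [hH] at hn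
  exact (inv n).2.infinite hn

end Pool.Agent.H60.MB
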