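import Mathlib

namespace Pool.Agent.H60.Mirror

open Finset Pointwise

variable {d p : ℕ} {q : Fin p → ℕ}

/-- The index set `I = {(i, j) : 1 ≤ i ≤ p, 1 ≤ j ≤ q_i}`. -/
abbrev I (q : Fin p → ℕ) : Type := Σ i : Fin p, Fin (q i)

/-- The map `V`, sending `k` to `∑ k_{ij} v_{ij}`. -/
def V (v : I q → Fin d → ℤ) (k : I q → ℕ) : Fin d → ℤ := ∑ x, (k x : ℤ) • v x

/-- `C(k) = ∏_l comb(k_{l1}, …, k_{l q_l})`, a product of multinomial coefficients. -/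
def C (k : I q → ℕ) : ℕ := ∏ l, Nat.multinomial univ fun j => k ⟨l, j⟩

/-- `φ₀ = ∑_{k ∈ K₀} C(k) z^k`. -/
def phi0 (v : I q → Fin d → ℤ) : MvPowerSeries (I q) ℚ :=
  fun k => if V v k = 0 then (C k : ℚ) else 0

/-- `φ_{ij} = ∑_{k ∈ K₀} C(k) (H(∑_m k_{im}) - H(k_{ij})) z^k`, for `x = (i, j)`. -/
def phi (v : I q → Fin d → ℤ) (x : I q) : MvPowerSeries (I q) ℚ :=
  fun k => if V v k = 0 then (C k : ℚ) * (harmonic (∑ m, k ⟨x.1, m⟩) - harmonic (k x)) else 0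

/-- `Δ = Δ₁ + … + Δ_p` (Minkowski sum), `Δ_i` the convex hull of `0, v_{i1}, …, v_{i q_i}`. -/
def Delta (v : I q → Fin d → ℤ) : Set (Fin d → ℝ) :=
  ∑ i, convexHull ℝ (insert 0 (Set.range fun (j : Fin (q i)) (c : Fin d) => (v ⟨i, j⟩ c : ℝ)))

end Pool.Agent.H60.Mirror
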