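import Mathlib
import Pool.Agent.H60.MirrorDefs

namespace Pool.Agent.H60.Mirror

open Finset Pointwise

abbrev q0 : Fin 2 → ℕ := fun _ => 3

def v0 : I q0 → Fin 3 → ℤ := fun x =>
  ![![![-1, -1, 0], ![0, 1, 0], ![1, -1, 0]], ![![-1, 0, -1], ![0, 0, 1], ![1, 0, -1]]] x.1 x.2

def mk (t : Fin 2 → Fin 3 → ℕ) : I q0 → ℕ := fun x => t x.1 x.2

def k0 : I q0 → ℕ := mk ![![1, 2, 1], ![1, 2, 1]]

def psi (b : I q0 → ℕ) : ℚ :=
  if b = mk ![![1, 2, 1], ![0, 0, 0]] then 13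
  else if b = mk ![![1, 1, 0], ![0, 1, 1]] then 2
  else if b = mk ![![0, 1, 1], ![1, 1, 0]] then 6
  else if b = k0 then -32 else 0

def c0 (k : I q0 → ℕ) : ℚ := if V v0 k = 0 then (C k : ℚ) else 0

def c1 (k : I q0 → ℕ) : ℚ :=
  if V v0 k = 0 then (C k : ℚ) * (harmonic (∑ m, k ⟨0, m⟩) - harmonic (k ⟨0, 0⟩)) else 0

lemma check : ∀ a ∈ Fintype.piFinset (fun i => range (k0 i + 1)),
    ∑ b ∈ Fintype.piFinset (fun i => range (a i + 1)), psi b * c0 (a - b) = c1 a := by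
  decide +kernel

lemma sum_anti (a : I q0 →₀ ℕ) (F : (I q0 → ℕ) → (I q0 → ℕ) → ℚ) :
    ∑ p ∈ HasAntidiagonal.antidiagonal a, F p.1 p.2 =
      ∑ b ∈ Fintype.piFinset (fun i => range (a i + 1)), F b (a - b) := by
  refine sum_bij' (fun p _ => (p.1 : I q0 → ℕ))
    (fun b _ => (Finsupp.equivFunOnFinite.symm b, Finsupp.equivFunOnFinite.symm (a - b)))
    ?_ ?_ ?_ ?_ ?_
  · intro p hp
    rw [HasAntidiagonal.mem_antidiagonal] at hp
    simp only [Fintype.mem_piFinset, mem_range, ← hp, Finsupp.add_apply]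
    omega
  · intro b hb
    rw [HasAntidiagonal.mem_antidiagonal]
    simp only [Fintype.mem_piFinset, mem_range] at hb
    ext i
    have := hb i
    simp
    omega
  · intro p hp
    rw [HasAntidiagonal.mem_antidiagonal] at hp
    ext i <;> simp [← hp]
  · intro b _
    rfl
  · intro p hp
    rw [HasAntidiagonal.mem_antidiagonal] at hp
    congr 1
    ext i
    simp [← hp]

lemma coeff_neg : MvPowerSeries.coeff (Finsupp.equivFunOnFinite.symm k0)
    (phi v0 ⟨0, 0⟩ * (phi0 v0)⁻¹) = -32 := by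
  set Ψ : MvPowerSeries (I q0) ℚ := fun b => psi b with hΨ
  have h0 : MvPowerSeries.constantCoeff (phi0 v0) ≠ 0 := by
    change phi0 v0 0 ≠ 0
    simp [phi0, V, C, Nat.multinomial]
  have h1 : phi v0 ⟨0, 0⟩ * (phi0 v0)⁻¹ = Ψ - (Ψ * phi0 v0 - phi v0 ⟨0, 0⟩) * (phi0 v0)⁻¹ := by
    rw [sub_mul, mul_assoc, MvPowerSeries.mul_inv_cancel _ h0]
    ring
  rw [h1, map_sub, MvPowerSeries.coeff_mul, sum_eq_zero, sub_zero]
  · change psi k0 = -32
    decide +kernel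
  · intro p hp
    rw [HasAntidiagonal.mem_antidiagonal] at hp
    rw [map_sub, MvPowerSeries.coeff_mul]
    have h2 := sum_anti p.1 (fun b c => psi b * c0 c)
    have h3 := check p.1 (by
      simp only [Fintype.mem_piFinset, mem_range]
      intro i
      have := congrArg (fun f => f i) hp
      simp at this
      omega)
    rw [h3] at h2
    have h4 : (∑ x ∈ HasAntidiagonal.antidiagonal p.1,
        MvPowerSeries.coeff x.1 Ψ * MvPowerSeries.coeff x.2 (phi0 v0)) = c1 p.1 := h2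
    have h5 : MvPowerSeries.coeff p.1 (phi v0 ⟨0, 0⟩) = c1 p.1 := rfl
    rw [h4, h5, sub_self, zero_mul]

lemma V_k0 : V v0 k0 = 0 := by decide +kernel

lemma span_top : Submodule.span ℤ (Set.range v0) = ⊤ := by
  rw [eq_top_iff]
  intro x _
  have e : x = (-x 0) • v0 ⟨0, 0⟩ + (x 1 - x 0) • v0 ⟨0, 1⟩ + x 2 • v0 ⟨1, 1⟩ := by
    ext i
    fin_cases i <;> simp [v0]
  rw [e]
  refine Submodule.add_mem _ (Submodule.add_mem _ ?_ ?_) ?_ <;>
    exact Submodule.smul_mem _ _ (Submodule.subset_span ⟨_, rfl⟩)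

lemma hull_mem (i : Fin 2) (α β γ : ℝ) (hα : 0 ≤ α) (hβ : 0 ≤ β) (hγ : 0 ≤ γ)
    (h : α + β + γ ≤ 1) :
    (fun c => α * v0 ⟨i, 0⟩ c + β * v0 ⟨i, 1⟩ c + γ * v0 ⟨i, 2⟩ c) ∈ convexHull ℝ
      (insert 0 (Set.range fun (j : Fin (q0 i)) (c : Fin 3) => (v0 ⟨i, j⟩ c : ℝ))) := by
  have := (convex_convexHull ℝ (insert 0 (Set.range fun (j : Fin (q0 i)) (c : Fin 3) =>
    (v0 ⟨i, j⟩ c : ℝ)))).sum_mem (t := (univ : Finset (Fin 4))) (w := ![α, β, γ, 1 - α - β - γ])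
    (z := ![fun c => (v0 ⟨i, 0⟩ c : ℝ), fun c => (v0 ⟨i, 1⟩ c : ℝ), fun c => (v0 ⟨i, 2⟩ c : ℝ), 0])
    (by intro j _; fin_cases j <;> simp <;> linarith) (by simp [Fin.sum_univ_four])
    (by
      intro j _
      apply subset_convexHull
      fin_cases j
      · exact Or.inr ⟨0, rfl⟩
      · exact Or.inr ⟨1, rfl⟩
      · exact Or.inr ⟨2, rfl⟩
      · exact Or.inl rfl)
  convert this using 1
  ext c
  simp [Fin.sum_univ_four]

lemma zero_mem : (0 : Fin 3 → ℝ) ∈ interior (Delta v0) := by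
  rw [mem_interior_iff_mem_nhds, Metric.mem_nhds_iff]
  refine ⟨1 / 20, by norm_num, fun x hx => ?_⟩
  rw [mem_ball_zero_iff, pi_norm_lt_iff (by norm_num)] at hx
  have h0 := abs_lt.1 (hx 0)
  have h1 := abs_lt.1 (hx 1)
  have h2 := abs_lt.1 (hx 2)
  rw [Delta, Fin.sum_univ_two]
  refine ⟨_, hull_mem 0 (1 / 5) (x 1 + x 0 + 2 / 5) (1 / 5 + x 0) (by norm_num) (by linarith)
    (by linarith) (by linarith), _, hull_mem 1 (1 / 5) (x 2 + 2 / 5) (1 / 5) (by norm_num)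
    (by linarith) (by norm_num) (by linarith), ?_⟩
  ext c
  fin_cases c <;> simp [v0] <;> ring

lemma bound (a b c m₀ m₁ : ℝ) (h0 : 0 ≤ m₀) (h1 : 0 ≤ m₁)
    (e0 : ∀ j, a * v0 ⟨0, j⟩ 0 + b * v0 ⟨0, j⟩ 1 + c * v0 ⟨0, j⟩ 2 ≤ m₀)
    (e1 : ∀ j, a * v0 ⟨1, j⟩ 0 + b * v0 ⟨1, j⟩ 1 + c * v0 ⟨1, j⟩ 2 ≤ m₁)
    (x : Fin 3 → ℝ) (hx : x ∈ Delta v0) : a * x 0 + b * x 1 + c * x 2 ≤ m₀ + m₁ := by
  have hc : ∀ m : ℝ, Convex ℝ {u : Fin 3 → ℝ | a * u 0 + b * u 1 + c * u 2 ≤ m} := fun m =>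
    convex_halfSpace_le ⟨fun u w => by simp; ring, fun r u => by simp; ring⟩ m
  rw [Delta, Fin.sum_univ_two] at hx
  obtain ⟨y, hy, z, hz, rfl⟩ := hx
  have hy' := convexHull_min (t := {u : Fin 3 → ℝ | a * u 0 + b * u 1 + c * u 2 ≤ m₀})
    (by
      rintro u (rfl | ⟨j, rfl⟩)
      · simpa using h0
      · exact e0 j) (hc m₀) hy
  have hz' := convexHull_min (t := {u : Fin 3 → ℝ | a * u 0 + b * u 1 + c * u 2 ≤ m₁})
    (by
      rintro u (rfl | ⟨j, rfl⟩)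
      · simpa using h1
      · exact e1 j) (hc m₁) hz
  simp only [Set.mem_setOf_eq, Pi.add_apply] at hy' hz' ⊢
  linarith

lemma fano (x : Fin 3 → ℤ) (hx : (fun c => (x c : ℝ)) ∈ interior (Delta v0)) : x = 0 := by
  rw [mem_interior_iff_mem_nhds, Metric.mem_nhds_iff] at hx
  obtain ⟨ε, hε, hb⟩ := hx
  have key : ∀ w : Fin 3 → ℝ, (∀ i, |w i| ≤ 1) →
      (fun c => (x c : ℝ) + ε / 2 * w c) ∈ Delta v0 := by
    intro w hw
    apply hb
    rw [Metric.mem_ball, dist_pi_lt_iff hε]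
    intro i
    rw [Real.dist_eq, add_sub_cancel_left, abs_mul, abs_of_pos (by positivity)]
    nlinarith [hw i]
  have b1 := bound 0 1 0 1 0 (by norm_num) (by norm_num)
    (by intro j; fin_cases j <;> simp [v0]) (by intro j; fin_cases j <;> simp [v0]) _
    (key ![0, 1, 0] (by intro j; fin_cases j <;> simp))
  have b2 := bound 0 (-1) 0 1 0 (by norm_num) (by norm_num)
    (by intro j; fin_cases j <;> simp [v0]) (by intro j; fin_cases j <;> simp [v0]) _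
    (key ![0, -1, 0] (by intro j; fin_cases j <;> simp))
  have b3 := bound 0 0 1 0 1 (by norm_num) (by norm_num)
    (by intro j; fin_cases j <;> simp [v0]) (by intro j; fin_cases j <;> simp [v0]) _
    (key ![0, 0, 1] (by intro j; fin_cases j <;> simp))
  have b4 := bound 0 0 (-1) 0 1 (by norm_num) (by norm_num)
    (by intro j; fin_cases j <;> simp [v0]) (by intro j; fin_cases j <;> simp [v0]) _
    (key ![0, 0, -1] (by intro j; fin_cases j <;> simp))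
  have b5 := bound 2 1 1 1 1 (by norm_num) (by norm_num)
    (by intro j; fin_cases j <;> simp [v0] <;> norm_num)
    (by intro j; fin_cases j <;> simp [v0] <;> norm_num) _
    (key ![1, 0, 0] (by intro j; fin_cases j <;> simp))
  have b6 := bound (-2) 1 1 1 1 (by norm_num) (by norm_num)
    (by intro j; fin_cases j <;> simp [v0] <;> norm_num)
    (by intro j; fin_cases j <;> simp [v0] <;> norm_num) _
    (key ![-1, 0, 0] (by intro j; fin_cases j <;> simp))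
  simp at b1 b2 b3 b4 b5 b6
  have c1 : x 1 < 1 := by exact_mod_cast (by linarith : (x 1 : ℝ) < 1)
  have c2 : -1 < x 1 := by exact_mod_cast (by linarith : (-1 : ℝ) < x 1)
  have c3 : x 2 < 1 := by exact_mod_cast (by linarith : (x 2 : ℝ) < 1)
  have c4 : -1 < x 2 := by exact_mod_cast (by linarith : (-1 : ℝ) < x 2)
  have c5 : 2 * x 0 + x 1 + x 2 < 2 := by
    exact_mod_cast (by linarith : (2 * x 0 + x 1 + x 2 : ℝ) < 2)
  have c6 : -2 * x 0 + x 1 + x 2 < 2 := by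
    exact_mod_cast (by linarith : (-2 * x 0 + x 1 + x 2 : ℝ) < 2)
  ext i
  fin_cases i <;> simp <;> omega

end Pool.Agent.H60.Mirror
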