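import Mathlib

namespace Pool.Agent.H60.Multi

/-- `M n`: the number of distinct integers `n!/(i_1! ⋯ i_k!)` with `k ≥ 1`, `i_j ≥ 0`,
`i_1 + ⋯ + i_k = n`. -/
noncomputable def M (n : ℕ) : ℕ :=
  Set.ncard {m : ℕ | ∃ k : ℕ, 1 ≤ k ∧ ∃ i : Fin k → ℕ, ∑ j, i j = n ∧
    m = n.factorial / ∏ j, (i j).factorial}

end Pool.Agent.H60.Multi
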