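import Mathlib
import Pool.Agent.H60.MultiDefs

namespace Pool.Agent.H60.Multi

open Finset Real

def rk (S : Finset ℕ) (x : ℕ) : ℕ := (S.filter (x ≤ ·)).card

def Good (n : ℕ) (R : ℝ) (S : Finset ℕ) : Prop :=
  (∀ x ∈ S, x * rk S x ≤ n) ∧ (S.card : ℝ) ≤ R

theorem sum_rk (S : Finset ℕ) : ∑ x ∈ S, 1 / √(rk S x : ℝ) ≤ 2 * √(S.card : ℝ) := by
  induction S using Finset.induction_on_min with
  | empty => simp
  | insert a s ha ih =>
    have hna : a ∉ s := fun h => lt_irrefl _ (ha a h)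
    rw [Finset.sum_insert hna, Finset.card_insert_of_notMem hna]
    have e1 : rk (insert a s) a = s.card + 1 := by
      unfold rk
      rw [Finset.filter_true_of_mem, Finset.card_insert_of_notMem hna]
      intro x hx
      rcases Finset.mem_insert.1 hx with rfl | hx
      · exact le_rfl
      · exact (ha x hx).le
    have e2 : ∑ x ∈ s, 1 / √(rk (insert a s) x : ℝ) = ∑ x ∈ s, 1 / √(rk s x : ℝ) := by
      apply Finset.sum_congr rfl
      intro x hx
      have : rk (insert a s) x = rk s x := by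
        unfold rk
        rw [Finset.filter_insert, if_neg (not_le.2 (ha x hx))]
      rw [this]
    rw [e1, e2]
    push_cast
    set r : ℝ := (s.card : ℝ)
    have hr : 0 ≤ r := by positivity
    have h1 := Real.sq_sqrt hr
    have h2 := Real.sq_sqrt (show 0 ≤ r + 1 by linarith)
    have h3 : 0 < √(r + 1) := Real.sqrt_pos.2 (by linarith)
    have h4 : 0 ≤ √r := Real.sqrt_nonneg _
    have h5 : 1 / √(r + 1) ≤ 2 * √(r + 1) - 2 * √r := by
      rw [div_le_iff₀ h3]
      nlinarith [sq_nonneg (√(r + 1) - √r)]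
    linarith

theorem sum_w (s : ℝ) (hs : 0 < s) (N : ℕ) :
    ∑ x ∈ Icc 1 N, 1 / ((x : ℝ) + s) ^ 2 ≤ 1 / s - 1 / (N + s) := by
  induction N with
  | zero => simp
  | succ N ih =>
    rw [Finset.sum_Icc_succ_top (by omega)]
    push_cast
    have h0 : (0 : ℝ) < N + s := by positivity
    have : 1 / ((N : ℝ) + 1 + s) ^ 2 ≤ 1 / (N + s) - 1 / (N + 1 + s) := by
      rw [div_sub_div _ _ (by positivity) (by positivity), div_le_div_iff₀ (by positivity) (by positivity)]
      nlinarith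
    linarith

open Classical in
theorem count (n : ℕ) (hn : 1 ≤ n) (t e : ℝ) (ht : 0 < t) (he : 0 < e) (he1 : e ≤ 1) :
    ((((Icc 1 n).powerset.filter (Good n (e ^ 2 * √(n : ℝ)))).card : ℕ) : ℝ)
      ≤ exp ((4 / t ^ 4 + 8 * t * e) * √(n : ℝ)) := by
  set s := √(n : ℝ) with hsdef
  have hn0 : (0 : ℝ) < n := by exact_mod_cast hn
  have hs : 0 < s := Real.sqrt_pos.2 hn0
  have hss : s ^ 2 = n := Real.sq_sqrt hn0.le
  set w : ℕ → ℝ := fun x => 4 / t ^ 4 * n * (1 / ((x : ℝ) + s) ^ 2) with hw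
  have hw0 : ∀ x, 0 ≤ w x := fun x => by positivity
  have ha : ∑ x ∈ Icc 1 n, w x ≤ 4 / t ^ 4 * s := by
    rw [hw, ← Finset.mul_sum]
    have h1 := sum_w s hs n
    have h2 : (0 : ℝ) ≤ 1 / (n + s) := by positivity
    calc 4 / t ^ 4 * n * ∑ x ∈ Icc 1 n, 1 / ((x : ℝ) + s) ^ 2 ≤ 4 / t ^ 4 * n * (1 / s) :=
          mul_le_mul_of_nonneg_left (by linarith) (by positivity)
      _ = 4 / t ^ 4 * s := by rw [← hss]; field_simp
  have hb : ∀ S ∈ (Icc 1 n).powerset.filter (Good n (e ^ 2 * s)),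
      exp (-(8 * t * e * s)) ≤ ∏ x ∈ S, w x := by
    intro S hS
    obtain ⟨_, h1, h2⟩ := Finset.mem_filter.1 hS
    have hq : 0 < √s := Real.sqrt_pos.2 hs
    have hqq : √s ^ 2 = s := Real.sq_sqrt hs.le
    have hpt : ∀ x ∈ S, exp (-(4 * t * √s * (1 / √(rk S x : ℝ)))) ≤ w x := by
      intro x hx
      have hk1 : 1 ≤ rk S x := Finset.card_pos.2 ⟨x, Finset.mem_filter.2 ⟨hx, le_rfl⟩⟩
      have hk2 : rk S x ≤ S.card := Finset.card_filter_le _ _
      set k : ℝ := (rk S x : ℝ) with hk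
      have hk1' : 1 ≤ k := by rw [hk]; exact_mod_cast hk1
      have hk2' : k ≤ s := by
        have : k ≤ S.card := by rw [hk]; exact_mod_cast hk2
        have h3 : e ^ 2 ≤ 1 := by nlinarith
        nlinarith
      have hxk : (x : ℝ) * k ≤ s ^ 2 := by rw [hss, hk]; exact_mod_cast h1 x hx
      have hsk : 0 < √k := Real.sqrt_pos.2 (by linarith)
      have hkk : √k ^ 2 = k := Real.sq_sqrt (by linarith)
      set y := t * √s * (1 / √k) with hy
      have hy0 : 0 < y := by positivity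
      have hy4 : y ^ 4 = t ^ 4 * s ^ 2 / k ^ 2 := by
        rw [hy]
        have : (t * √s * (1 / √k)) ^ 4 = t ^ 4 * (√s ^ 2) ^ 2 / (√k ^ 2) ^ 2 := by
          field_simp
        rw [this, hqq, hkk]
      have e1 : exp (-(4 * t * √s * (1 / √k))) ≤ 1 / y ^ 4 := by
        have : -(4 * t * √s * (1 / √k)) = -((4 : ℕ) * y) := by rw [hy]; push_cast; ring
        rw [this, Real.exp_neg, Real.exp_nat_mul, one_div]
        apply inv_anti₀ (by positivity)
        apply pow_le_pow_left₀ hy0.le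
        linarith [Real.add_one_le_exp y]
      refine e1.trans ?_
      rw [hy4, hw]
      simp only
      have hx0 : (0 : ℝ) ≤ x := by positivity
      have h5 : ((x : ℝ) + s) * k ≤ 2 * s ^ 2 := by nlinarith
      have h6 : (((x : ℝ) + s) * k) ^ 2 ≤ (2 * s ^ 2) ^ 2 :=
        pow_le_pow_left₀ (by positivity) h5 2
      rw [← hss]
      have : 4 / t ^ 4 * s ^ 2 * (1 / ((x : ℝ) + s) ^ 2) = 1 / (t ^ 4 * (x + s) ^ 2 / (4 * s ^ 2)) := by
        field_simp
      rw [this]
      apply one_div_le_one_div_of_le (by positivity)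
      rw [div_le_div_iff₀ (by positivity) (by positivity)]
      have ht4 : 0 < t ^ 4 := by positivity
      nlinarith
    calc exp (-(8 * t * e * s)) ≤ exp (∑ x ∈ S, -(4 * t * √s * (1 / √(rk S x : ℝ)))) := by
          apply Real.exp_le_exp.2
          rw [Finset.sum_neg_distrib, ← Finset.mul_sum]
          have h3 := sum_rk S
          have h4 : √(S.card : ℝ) ≤ e * √s := by
            rw [Real.sqrt_le_iff]
            refine ⟨by positivity, ?_⟩
            rw [mul_pow, hqq]; exact h2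
          have h5 : 4 * t * √s * ∑ x ∈ S, 1 / √(rk S x : ℝ) ≤ 4 * t * √s * (2 * (e * √s)) :=
            mul_le_mul_of_nonneg_left (by linarith) (by positivity)
          have h6 : 4 * t * √s * (2 * (e * √s)) = 8 * t * e * √s ^ 2 := by ring
          rw [h6, hqq] at h5
          linarith
      _ = ∏ x ∈ S, exp (-(4 * t * √s * (1 / √(rk S x : ℝ)))) := Real.exp_sum _ _
      _ ≤ ∏ x ∈ S, w x := Finset.prod_le_prod (fun _ _ => (Real.exp_pos _).le) hpt
  have hc := Finset.card_nsmul_le_sum _ _ _ hb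
  have hd : ∑ S ∈ (Icc 1 n).powerset.filter (Good n (e ^ 2 * s)), ∏ x ∈ S, w x
      ≤ ∑ S ∈ (Icc 1 n).powerset, ∏ x ∈ S, w x :=
    Finset.sum_le_sum_of_subset_of_nonneg (Finset.filter_subset _ _)
      (fun S _ _ => Finset.prod_nonneg fun x _ => hw0 x)
  rw [← Finset.prod_one_add] at hd
  have he' := Real.prod_one_add_le_exp_sum (Icc 1 n) hw0
  have hf : exp (∑ x ∈ Icc 1 n, w x) ≤ exp (4 / t ^ 4 * s) := Real.exp_le_exp.2 ha
  rw [nsmul_eq_mul] at hc
  have hg : (4 / t ^ 4 + 8 * t * e) * s = 4 / t ^ 4 * s - -(8 * t * e * s) := by ring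
  rw [hg, Real.exp_sub, le_div_iff₀ (Real.exp_pos _)]
  linarith

section code
variable (Q : Finset ℕ) (F : ℕ → ℕ)

def J : Finset ℕ := Q.filter (fun q => 0 < F q ∧ ∀ q' ∈ Q, q < q' → F q' < F q)
def W : Finset ℕ := (J Q F).image F

variable {Q F}

theorem J_anti {x y : ℕ} (hx : x ∈ J Q F) (hy : y ∈ Q) (h : x < y) : F y < F x :=
  (Finset.mem_filter.1 hx).2.2 y hy h

theorem J_sub {x : ℕ} (hx : x ∈ J Q F) : x ∈ Q := (Finset.mem_filter.1 hx).1

theorem J_inj : Set.InjOn F (J Q F) := by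
  intro x hx y hy hxy
  rcases lt_trichotomy x y with h | h | h
  · have := J_anti hx (J_sub hy) h; omega
  · exact h
  · have := J_anti hy (J_sub hx) h; omega

theorem mem_W (hF : ∀ a ∈ Q, ∀ b ∈ Q, a ≤ b → F b ≤ F a) {q : ℕ} (hq : q ∈ Q) (h0 : 0 < F q) :
    F q ∈ W Q F := by
  have hne : (Q.filter (fun a => F a = F q)).Nonempty := ⟨q, by simp [hq]⟩
  have h1 := Finset.max'_mem _ hne
  set x := (Q.filter (fun a => F a = F q)).max' hne
  obtain ⟨hxQ, hxF⟩ := Finset.mem_filter.1 h1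
  refine Finset.mem_image.2 ⟨x, Finset.mem_filter.2 ⟨hxQ, by omega, fun y hy hxy => ?_⟩, hxF⟩
  have h2 := hF x hxQ y hy hxy.le
  rcases Nat.eq_or_lt_of_le h2 with h | h
  · have : y ≤ x := Finset.le_max' _ y (Finset.mem_filter.2 ⟨hy, by omega⟩)
    omega
  · exact h

theorem rk_J (hF : ∀ a ∈ Q, ∀ b ∈ Q, a ≤ b → F b ≤ F a) {q : ℕ} (hq : q ∈ Q) :
    rk (J Q F) q = ((W Q F).filter (· ≤ F q)).card := by
  have : (W Q F).filter (· ≤ F q) = ((J Q F).filter (q ≤ ·)).image F := by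
    ext v
    simp only [W, Finset.mem_filter, Finset.mem_image]
    constructor
    · rintro ⟨⟨x, hx, rfl⟩, hv⟩
      refine ⟨x, ⟨hx, ?_⟩, rfl⟩
      by_contra hc
      have := J_anti hx hq (lt_of_not_ge hc); omega
    · rintro ⟨x, ⟨hx, hqx⟩, rfl⟩
      exact ⟨⟨x, hx, rfl⟩, hF q hq x (J_sub hx) hqx⟩
  rw [this, Finset.card_image_of_injOn (J_inj.mono (by intro x hx; exact (Finset.mem_filter.1 hx).1))]
  rfl

theorem code_le {G : ℕ → ℕ} (hF : ∀ a ∈ Q, ∀ b ∈ Q, a ≤ b → F b ≤ F a)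
    (hG : ∀ a ∈ Q, ∀ b ∈ Q, a ≤ b → G b ≤ G a) (hJ : J Q F = J Q G) (hW : W Q F = W Q G)
    {q : ℕ} (hq : q ∈ Q) : G q ≤ F q := by
  by_contra hc
  have hlt : F q < G q := lt_of_not_ge hc
  have h1 := rk_J hF hq
  have h2 := rk_J hG hq
  rw [hJ, hW, h2] at h1
  have h3 := mem_W hG hq (by omega)
  have : (W Q G).filter (· ≤ F q) ⊂ (W Q G).filter (· ≤ G q) := by
    rw [Finset.ssubset_iff_of_subset (Finset.monotone_filter_right _ (fun v _ hv => by omega))]
    exact ⟨G q, Finset.mem_filter.2 ⟨h3, le_rfl⟩, fun h => by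
      have := (Finset.mem_filter.1 h).2; omega⟩
  have := Finset.card_lt_card this
  omega

theorem W_pos {v : ℕ} (hv : v ∈ W Q F) : 1 ≤ v := by
  obtain ⟨x, hx, rfl⟩ := Finset.mem_image.1 hv
  exact (Finset.mem_filter.1 hx).2.1

theorem J_good {n : ℕ} (hF : ∀ a ∈ Q, ∀ b ∈ Q, a ≤ b → F b ≤ F a) (hn : ∀ a, a * F a ≤ n) :
    ∀ x ∈ J Q F, x * rk (J Q F) x ≤ n := by
  intro x hx
  rw [rk_J hF (J_sub hx)]
  have : (W Q F).filter (· ≤ F x) ⊆ Icc 1 (F x) := fun v hv =>
    Finset.mem_Icc.2 ⟨W_pos (Finset.mem_filter.1 hv).1, (Finset.mem_filter.1 hv).2⟩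
  have h1 := Finset.card_le_card this
  simp only [Nat.card_Icc, Nat.add_sub_cancel] at h1
  exact (Nat.mul_le_mul_left _ h1).trans (hn x)

theorem W_good {n : ℕ} (hQ : ∀ a ∈ Q, 1 ≤ a) (hn : ∀ a, a * F a ≤ n) :
    ∀ v ∈ W Q F, v * rk (W Q F) v ≤ n := by
  intro v hv
  obtain ⟨x, hx, rfl⟩ := Finset.mem_image.1 hv
  have h1 : (W Q F).filter (F x ≤ ·) ⊆ (Icc 1 x).image F := by
    intro u hu
    obtain ⟨hu1, hu2⟩ := Finset.mem_filter.1 hu
    obtain ⟨y, hy, rfl⟩ := Finset.mem_image.1 hu1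
    refine Finset.mem_image.2 ⟨y, Finset.mem_Icc.2 ⟨hQ y (J_sub hy), ?_⟩, rfl⟩
    by_contra hc
    have := J_anti hx (J_sub hy) (lt_of_not_ge hc); omega
  have h2 := (Finset.card_le_card h1).trans Finset.card_image_le
  simp only [Nat.card_Icc, Nat.add_sub_cancel] at h2
  have := hn x
  unfold rk
  calc F x * _ ≤ F x * x := Nat.mul_le_mul_left _ h2
    _ ≤ n := by rw [mul_comm]; exact this

end code

theorem tail_card {n : ℕ} {S : Finset ℕ} (h : ∀ x ∈ S, x * rk S x ≤ n) (Y : ℕ) :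
    Y * (S.filter (Y < ·)).card ≤ n := by
  rcases (S.filter (Y < ·)).eq_empty_or_nonempty with he | hne
  · simp [he]
  · have h1 := Finset.min'_mem _ hne
    set x := (S.filter (Y < ·)).min' hne
    obtain ⟨hx, hY⟩ := Finset.mem_filter.1 h1
    have h2 : (S.filter (Y < ·)).card ≤ rk S x := by
      apply Finset.card_le_card
      intro y hy
      exact Finset.mem_filter.2 ⟨(Finset.mem_filter.1 hy).1, Finset.min'_le _ y hy⟩
    exact (Nat.mul_le_mul hY.le h2).trans (h x hx)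

theorem sq_le_two_pow (k : ℕ) : k ^ 2 ≤ 2 * 2 ^ k := by
  induction k with
  | zero => simp
  | succ k ih =>
    rcases Nat.lt_or_ge k 3 with h | h
    · interval_cases k <;> norm_num
    · rw [pow_succ 2 k]; nlinarith

theorem pp_small (η : ℝ) (hη : 0 < η) :
    ∃ Y0 : ℕ, ∀ Y ≥ Y0, ((((Icc 1 Y).filter IsPrimePow).card : ℕ) : ℝ) ≤ η * Y := by
  obtain ⟨Z, hZ⟩ := exists_nat_ge (exp (2 * (log 4 + 4) / η))
  have hl4 : 0 < log 4 := Real.log_pos (by norm_num)
  have hZ0 : (0 : ℝ) < Z := lt_of_lt_of_le (Real.exp_pos _) hZ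
  have hL : 2 * (log 4 + 4) / η ≤ log Z := by rw [Real.le_log_iff_exp_le hZ0]; exact hZ
  have hL0 : 0 < 2 * (log 4 + 4) / η := by positivity
  obtain ⟨Y0, hY0⟩ := exists_nat_ge ((6 * Z / η) ^ 2 + 1)
  refine ⟨Y0, fun Y hY => ?_⟩
  have hYY : (Y0 : ℝ) ≤ Y := by exact_mod_cast hY
  have hY1 : (1 : ℝ) ≤ Y := by nlinarith [sq_nonneg (6 * Z / η)]
  set P := (Icc 1 Y).filter IsPrimePow with hP
  have hsplit := Finset.card_filter_add_card_filter_not (s := P) (fun q => Z ≤ q.minFac)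
  have hA : ((P.filter (fun q => Z ≤ q.minFac)).card : ℝ) ≤ η / 2 * Y := by
    have h1 : ∀ q ∈ P.filter (fun q => Z ≤ q.minFac), log Z ≤ ArithmeticFunction.vonMangoldt q := by
      intro q hq
      obtain ⟨hq1, hq2⟩ := Finset.mem_filter.1 hq
      rw [ArithmeticFunction.vonMangoldt_apply, if_pos (Finset.mem_filter.1 hq1).2]
      exact Real.log_le_log hZ0 (by exact_mod_cast hq2)
    have h2 := Finset.card_nsmul_le_sum _ _ _ h1
    have h3 : ∑ q ∈ P.filter (fun q => Z ≤ q.minFac), ArithmeticFunction.vonMangoldt q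
        ≤ Chebyshev.psi Y := by
      unfold Chebyshev.psi
      apply Finset.sum_le_sum_of_subset_of_nonneg
      · intro q hq
        have := Finset.mem_Icc.1 (Finset.mem_filter.1 (Finset.mem_filter.1 hq).1).1
        simp only [Nat.floor_natCast, Finset.mem_Ioc]; omega
      · intro _ _ _; exact ArithmeticFunction.vonMangoldt_nonneg
    have h4 := Chebyshev.psi_le_const_mul_self (x := (Y : ℝ)) (by linarith)
    rw [nsmul_eq_mul] at h2
    set c : ℝ := ((P.filter (fun q => Z ≤ q.minFac)).card : ℝ)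
    have hc0 : 0 ≤ c := by positivity
    have h5 : c * (2 * (log 4 + 4) / η) ≤ (log 4 + 4) * Y :=
      (mul_le_mul_of_nonneg_left hL hc0).trans (by linarith)
    have h6 : c * (2 * (log 4 + 4) / η) = (log 4 + 4) * (c * 2 / η) := by field_simp
    rw [h6] at h5
    have h7 := le_of_mul_le_mul_left h5 (by linarith)
    rw [div_le_iff₀ hη] at h7
    linarith
  have hB : ((P.filter (fun q => ¬ Z ≤ q.minFac)).card : ℝ) ≤ η / 2 * Y := by
    have h1 : P.filter (fun q => ¬ Z ≤ q.minFac) ⊆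
        (range Z ×ˢ range (Nat.log 2 Y + 1)).image (fun pk => pk.1 ^ pk.2) := by
      intro q hq
      obtain ⟨hq1, hq2⟩ := Finset.mem_filter.1 hq
      obtain ⟨hq3, hq4⟩ := Finset.mem_filter.1 hq1
      obtain ⟨p, k, hp, hk, rfl⟩ := (isPrimePow_nat_iff _).1 hq4
      rw [Nat.pow_minFac (by omega), hp.minFac_eq] at hq2
      refine Finset.mem_image.2 ⟨(p, k), ?_, rfl⟩
      simp only [Finset.mem_product, Finset.mem_range]
      refine ⟨by omega, Nat.lt_succ_of_le ?_⟩
      apply Nat.le_log_of_pow_le (by norm_num)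
      exact (Nat.pow_le_pow_left hp.two_le k).trans (Finset.mem_Icc.1 hq3).2
    have h2 := (Finset.card_le_card h1).trans Finset.card_image_le
    simp only [Finset.card_product, Finset.card_range] at h2
    have h3 : Nat.log 2 Y ^ 2 ≤ 2 * Y := by
      have hY1' : Y ≠ 0 := by rintro rfl; norm_num at hY1
      exact (sq_le_two_pow _).trans (Nat.mul_le_mul_left _ (Nat.pow_log_le_self 2 hY1'))
    have h3' : (Nat.log 2 Y : ℝ) ^ 2 ≤ 2 * Y := by exact_mod_cast h3
    have h2' : ((P.filter (fun q => ¬ Z ≤ q.minFac)).card : ℝ) ≤ Z * (Nat.log 2 Y + 1) := by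
      exact_mod_cast h2
    have hs := Real.sq_sqrt (show (0 : ℝ) ≤ Y by linarith)
    have hs1 : 1 ≤ √(Y : ℝ) := Real.le_sqrt_of_sq_le (by linarith)
    have hs2 : 6 * Z / η ≤ √(Y : ℝ) := Real.le_sqrt_of_sq_le (by linarith)
    have h4 : (Nat.log 2 Y : ℝ) ≤ 2 * √(Y : ℝ) := by
      by_contra hc
      have hc' := lt_of_not_ge hc
      nlinarith
    rw [div_le_iff₀ hη] at hs2
    have h5 : (Z : ℝ) * (Nat.log 2 Y + 1) ≤ Z * (3 * √(Y : ℝ)) :=
      mul_le_mul_of_nonneg_left (by linarith) hZ0.le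
    nlinarith
  have : (P.card : ℝ) = (P.filter (fun q => Z ≤ q.minFac)).card + (P.filter (fun q => ¬ Z ≤ q.minFac)).card := by
    exact_mod_cast hsplit.symm
  linarith

def FF {k : ℕ} (i : Fin k → ℕ) (q : ℕ) : ℕ := ∑ j, i j / q

theorem FF_le {k : ℕ} (i : Fin k → ℕ) (q : ℕ) : q * FF i q ≤ ∑ j, i j := by
  unfold FF
  rw [Finset.mul_sum]
  exact Finset.sum_le_sum fun j _ => Nat.mul_div_le _ _

theorem FF_anti {k : ℕ} (i : Fin k → ℕ) {a b : ℕ} (ha : 1 ≤ a) (hab : a ≤ b) : FF i b ≤ FF i a :=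
  Finset.sum_le_sum fun _ _ => Nat.div_le_div_left hab ha

theorem fact_prod {k : ℕ} (i : Fin k → ℕ) {n p : ℕ} (hi : ∑ j, i j = n) (hp : p.Prime) :
    (∏ j, (i j).factorial).factorization p = ∑ e ∈ Ico 1 (n + 1), FF i (p ^ e) := by
  rw [Nat.factorization_prod (fun j _ => Nat.factorial_ne_zero _), Finsupp.finsetSum_apply]
  unfold FF
  rw [Finset.sum_comm]
  apply Finset.sum_congr rfl
  intro j _
  apply Nat.factorization_factorial hp
  have h1 : i j ≤ n := hi ▸ Finset.single_le_sum (f := i) (fun _ _ => Nat.zero_le _) (Finset.mem_univ j)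
  have := Nat.log_le_self p (i j)
  omega

theorem prod_eq {k l n : ℕ} (i : Fin k → ℕ) (i' : Fin l → ℕ) (hi : ∑ j, i j = n)
    (hi' : ∑ j, i' j = n) (h : ∀ q ∈ (Icc 1 n).filter IsPrimePow, FF i q = FF i' q) :
    ∏ j, (i j).factorial = ∏ j, (i' j).factorial := by
  apply Nat.eq_of_factorization_eq
  · exact Finset.prod_ne_zero_iff.2 fun j _ => Nat.factorial_ne_zero _
  · exact Finset.prod_ne_zero_iff.2 fun j _ => Nat.factorial_ne_zero _
  intro p
  by_cases hp : p.Prime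
  · rw [fact_prod i hi hp, fact_prod i' hi' hp]
    apply Finset.sum_congr rfl
    intro e he
    have he1 := (Finset.mem_Ico.1 he).1
    have hpos : 0 < p ^ e := pow_pos hp.pos e
    by_cases hle : p ^ e ≤ n
    · exact h _ (Finset.mem_filter.2 ⟨Finset.mem_Icc.2 ⟨hpos, hle⟩,
        (isPrimePow_nat_iff _).2 ⟨p, e, hp, he1, rfl⟩⟩)
    · have a1 := FF_le i (p ^ e)
      have a2 := FF_le i' (p ^ e)
      rw [hi] at a1; rw [hi'] at a2
      have b1 : FF i (p ^ e) = 0 := by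
        by_contra hc
        have : p ^ e * 1 ≤ p ^ e * FF i (p ^ e) := Nat.mul_le_mul_left _ (by omega)
        omega
      have b2 : FF i' (p ^ e) = 0 := by
        by_contra hc
        have : p ^ e * 1 ≤ p ^ e * FF i' (p ^ e) := Nat.mul_le_mul_left _ (by omega)
        omega
      rw [b1, b2]
  · rw [Nat.factorization_eq_zero_of_not_prime _ hp, Nat.factorization_eq_zero_of_not_prime _ hp]

open Classical in
theorem M_le_sq (n : ℕ) (R : ℝ) (Y : ℕ) (hY : 0 < Y)
    (hR : ((((Icc 1 Y).filter IsPrimePow).card : ℕ) : ℝ) + n / Y ≤ R) :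
    M n ≤ ((Icc 1 n).powerset.filter (Good n R)).card ^ 2 := by
  set Q := (Icc 1 n).filter IsPrimePow with hQ
  have hQ1 : ∀ a ∈ Q, 1 ≤ a := fun a ha => (Finset.mem_Icc.1 (Finset.mem_filter.1 ha).1).1
  set G := (Icc 1 n).powerset.filter (Good n R) with hG
  set A := {m : ℕ | ∃ k : ℕ, 1 ≤ k ∧ ∃ i : Fin k → ℕ, ∑ j, i j = n ∧
    m = n.factorial / ∏ j, (i j).factorial} with hA
  have hex : ∀ m : ℕ, ∃ F : ℕ → ℕ, m ∈ A → ∃ k : ℕ, ∃ i : Fin k → ℕ, ∑ j, i j = n ∧
      m = n.factorial / ∏ j, (i j).factorial ∧ F = FF i := by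
    intro m
    by_cases hm : m ∈ A
    · obtain ⟨k, _, i, h1, h2⟩ := hm
      exact ⟨FF i, fun _ => ⟨k, i, h1, h2, rfl⟩⟩
    · exact ⟨fun _ => 0, fun h => absurd h hm⟩
  choose F hF using hex
  have : M n ≤ ((G ×ˢ G : Finset (Finset ℕ × Finset ℕ)) : Set (Finset ℕ × Finset ℕ)).ncard := by
    apply Set.ncard_le_ncard_of_injOn (fun m => (J Q (F m), W Q (F m))) _ _ (Finset.finite_toSet _)
    · intro m hm
      obtain ⟨k, i, h1, _, h3⟩ := hF m hm
      rw [h3]
      have hanti : ∀ a ∈ Q, ∀ b ∈ Q, a ≤ b → FF i b ≤ FF i a :=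
        fun a ha b _ hab => FF_anti i (hQ1 a ha) hab
      have hle : ∀ a, a * FF i a ≤ n := fun a => h1 ▸ FF_le i a
      have hJ := J_good hanti hle
      have hcard : ((J Q (FF i)).card : ℝ) ≤ R := by
        have e1 := Finset.card_filter_add_card_filter_not (s := J Q (FF i)) (fun q => Y < q)
        have e2 := tail_card hJ Y
        have e3 : ((J Q (FF i)).filter (fun q => ¬ Y < q)).card ≤ ((Icc 1 Y).filter IsPrimePow).card := by
          apply Finset.card_le_card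
          intro q hq
          obtain ⟨hq1, hq2⟩ := Finset.mem_filter.1 hq
          have hq3 := J_sub hq1
          exact Finset.mem_filter.2 ⟨Finset.mem_Icc.2 ⟨hQ1 q hq3, by omega⟩, (Finset.mem_filter.1 hq3).2⟩
        have e2' : (((J Q (FF i)).filter (fun q => Y < q)).card : ℝ) ≤ n / Y := by
          rw [le_div_iff₀ (by exact_mod_cast hY), mul_comm]
          exact_mod_cast e2
        have e3' : (((J Q (FF i)).filter (fun q => ¬ Y < q)).card : ℝ) ≤
          (((Icc 1 Y).filter IsPrimePow).card : ℕ) := by exact_mod_cast e3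
        have e1' : ((J Q (FF i)).card : ℝ) = ((J Q (FF i)).filter (fun q => Y < q)).card +
          ((J Q (FF i)).filter (fun q => ¬ Y < q)).card := by exact_mod_cast e1.symm
        linarith
      simp only [Finset.coe_product, Set.mem_prod, Finset.mem_coe, hG, Finset.mem_filter,
        Finset.mem_powerset]
      refine ⟨⟨fun q hq => (Finset.mem_filter.1 (J_sub hq)).1, hJ, hcard⟩, ?_, W_good hQ1 hle, ?_⟩
      · intro v hv
        refine Finset.mem_Icc.2 ⟨W_pos hv, ?_⟩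
        obtain ⟨x, hx, rfl⟩ := Finset.mem_image.1 hv
        have a1 := hle x
        have a2 : 1 * FF i x ≤ x * FF i x := Nat.mul_le_mul_right _ (hQ1 x (J_sub hx))
        omega
      · refine le_trans ?_ hcard
        exact_mod_cast Finset.card_image_le
    · intro m hm m' hm' hmm
      obtain ⟨k, i, h1, h2, h3⟩ := hF m hm
      obtain ⟨k', i', h1', h2', h3'⟩ := hF m' hm'
      simp only [Prod.mk.injEq] at hmm
      rw [h3, h3'] at hmm
      have hanti : ∀ a ∈ Q, ∀ b ∈ Q, a ≤ b → FF i b ≤ FF i a :=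
        fun a ha b _ hab => FF_anti i (hQ1 a ha) hab
      have hanti' : ∀ a ∈ Q, ∀ b ∈ Q, a ≤ b → FF i' b ≤ FF i' a :=
        fun a ha b _ hab => FF_anti i' (hQ1 a ha) hab
      rw [h2, h2', prod_eq i i' h1 h1' (fun q hq => le_antisymm
        (code_le hanti' hanti hmm.1.symm hmm.2.symm hq) (code_le hanti hanti' hmm.1 hmm.2 hq))]
  rw [Set.ncard_coe_finset, Finset.card_product] at this
  rw [sq]; exact this

theorem M_le_exp (c : ℝ) (hc : 0 < c) : ∃ N : ℕ, ∀ n ≥ N, (M n : ℝ) ≤ exp (c * √(n : ℝ)) := by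
  classical
  set t : ℝ := max 1 (16 / c) with ht
  have ht1 : 1 ≤ t := le_max_left _ _
  have ht2 : 16 / c ≤ t := le_max_right _ _
  set e : ℝ := min 1 (c / (32 * t)) with he
  have he1 : e ≤ 1 := min_le_left _ _
  have he2 : e ≤ c / (32 * t) := min_le_right _ _
  have he0 : 0 < e := lt_min one_pos (by positivity)
  set T : ℝ := 2 / e ^ 2 with hT
  have hT1 : 1 ≤ T := by
    rw [hT, le_div_iff₀ (by positivity)]; nlinarith
  obtain ⟨Y0, hY0⟩ := pp_small (e ^ 2 / (2 * (T + 1))) (by positivity)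
  refine ⟨Y0 ^ 2 + 1, fun n hn => ?_⟩
  have hn1 : 1 ≤ n := by omega
  have hn0 : (1 : ℝ) ≤ n := by exact_mod_cast hn1
  set s := √(n : ℝ) with hs
  have hs1 : 1 ≤ s := Real.le_sqrt_of_sq_le (by linarith)
  have hss : s ^ 2 = n := Real.sq_sqrt (by linarith)
  have hsY : (Y0 : ℝ) ≤ s := Real.le_sqrt_of_sq_le (by
    have : Y0 ^ 2 ≤ n := by omega
    exact_mod_cast this)
  set Y := ⌈T * s⌉₊ with hY
  have hY1 : T * s ≤ Y := Nat.le_ceil _
  have hY2 : (Y : ℝ) ≤ T * s + 1 := (Nat.ceil_lt_add_one (by positivity)).le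
  have hY3 : s ≤ Y := by nlinarith
  have hY4 : Y0 ≤ Y := by
    have : (Y0 : ℝ) ≤ Y := by linarith
    exact_mod_cast this
  have hYpos : (0 : ℝ) < Y := by linarith
  have h1 := hY0 Y hY4
  have h2 : e ^ 2 / (2 * (T + 1)) * Y ≤ e ^ 2 / 2 * s := by
    calc e ^ 2 / (2 * (T + 1)) * Y ≤ e ^ 2 / (2 * (T + 1)) * ((T + 1) * s) :=
          mul_le_mul_of_nonneg_left (by linarith) (by positivity)
      _ = e ^ 2 / 2 * s := by field_simp
  have h3 : (n : ℝ) / Y ≤ e ^ 2 / 2 * s := by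
    rw [div_le_iff₀ hYpos, ← hss]
    calc s ^ 2 = e ^ 2 / 2 * s * (T * s) := by rw [hT]; field_simp
      _ ≤ e ^ 2 / 2 * s * Y := mul_le_mul_of_nonneg_left hY1 (by positivity)
  have h4 := M_le_sq n (e ^ 2 * s) Y (by exact_mod_cast hYpos) (by linarith)
  have h5 := count n hn1 t e (by linarith) he0 he1
  rw [← hs] at h5
  have h6 : 4 / t ^ 4 + 8 * t * e ≤ c / 2 := by
    have a1 : t ≤ t ^ 4 := by
      calc t = t ^ 1 := (pow_one t).symm
        _ ≤ t ^ 4 := pow_le_pow_right₀ ht1 (by norm_num)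
    have a2 : 4 / t ^ 4 ≤ c / 4 := by
      rw [div_le_iff₀ hc] at ht2
      rw [div_le_div_iff₀ (by positivity) (by norm_num)]
      nlinarith
    have a3 : 8 * t * e ≤ c / 4 := by
      rw [le_div_iff₀ (by positivity)] at he2
      linarith
    linarith
  have h7 : exp ((4 / t ^ 4 + 8 * t * e) * s) ≤ exp (c / 2 * s) :=
    Real.exp_le_exp.2 (mul_le_mul_of_nonneg_right h6 (by linarith))
  have h8 : (M n : ℝ) ≤ ((((Icc 1 n).powerset.filter (Good n (e ^ 2 * s))).card : ℕ) : ℝ) ^ 2 := by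
    exact_mod_cast h4
  calc (M n : ℝ) ≤ _ := h8
    _ ≤ exp (c / 2 * s) ^ 2 := pow_le_pow_left₀ (by positivity) (h5.trans h7) 2
    _ = exp (c * s) := by rw [← Real.exp_nat_mul]; congr 1; push_cast; ring

/-- lower bound for partitions whose parts satisfy `P`, when `P 1` and `P (3a)` hold -/
theorem part_lower (P : ℕ → Prop) [DecidablePred P] (h1 : P 1) (h3 : ∀ a, P (3 * a)) (n t : ℕ)
    (ht : 3 * t ^ 2 ≤ n) :
    2 ^ t ≤ (Finset.univ.filter (fun l : n.Partition => ∀ a ∈ l.parts, P a)).card := by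
  classical
  have hsum : ∀ A ∈ (Icc 1 t).powerset, ∑ a ∈ A, 3 * a ≤ n := by
    intro A hA
    have hA' := Finset.mem_powerset.1 hA
    have e1 : ∑ a ∈ A, 3 * a ≤ A.card • (3 * t) :=
      Finset.sum_le_card_nsmul _ _ _ fun a ha => by
        have := (Finset.mem_Icc.1 (hA' ha)).2; omega
    have e2 := Finset.card_le_card hA'
    simp only [Nat.card_Icc, Nat.add_sub_cancel, smul_eq_mul] at e1 e2
    nlinarith
  let f : Finset ℕ → Multiset ℕ := fun A =>
    A.val.map (fun a => 3 * a) + Multiset.replicate (n - ∑ a ∈ A, 3 * a) 1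
  have hc : 2 ^ t = (Icc 1 t).powerset.card := by simp
  have hinj : Function.Injective (fun l : n.Partition => l.parts) :=
    fun a b h => Nat.Partition.ext_iff.2 h
  rw [hc, ← Finset.card_image_of_injective
    (Finset.univ.filter (fun l : n.Partition => ∀ a ∈ l.parts, P a)) hinj]
  apply Finset.card_le_card_of_injOn f
  · intro A hA
    have hA' := Finset.mem_powerset.1 hA
    refine Finset.mem_coe.2 (Finset.mem_image.2 ⟨⟨f A, ?_, ?_⟩, ?_, rfl⟩)
    · intro i hi
      rcases Multiset.mem_add.1 hi with h | h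
      · obtain ⟨a, ha, rfl⟩ := Multiset.mem_map.1 h
        have := (Finset.mem_Icc.1 (hA' ha)).1; omega
      · rw [Multiset.eq_of_mem_replicate h]; exact one_pos
    · have := hsum A hA
      simp only [f, Multiset.sum_add, Multiset.sum_replicate, smul_eq_mul, mul_one]
      have e : (A.val.map (fun a => 3 * a)).sum = ∑ a ∈ A, 3 * a := rfl
      omega
    · refine Finset.mem_filter.2 ⟨Finset.mem_univ _, fun i hi => ?_⟩
      rcases Multiset.mem_add.1 hi with h | h
      · obtain ⟨a, ha, rfl⟩ := Multiset.mem_map.1 h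
        exact h3 a
      · rw [Multiset.eq_of_mem_replicate h]; exact h1
  · have key : ∀ A : Finset ℕ, ∀ a, a ∈ A ↔ 3 * a ∈ f A := by
      intro A a
      simp only [f, Multiset.mem_add, Multiset.mem_map, Multiset.mem_replicate, Finset.mem_val]
      constructor
      · intro h; exact Or.inl ⟨a, h, rfl⟩
      · rintro (⟨b, hb, h⟩ | ⟨_, h⟩)
        · have : b = a := by omega
          rwa [← this]
        · omega
    intro A _ B _ hAB
    ext a
    rw [key A, key B, hAB]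

theorem M_lt_part (P : ℕ → Prop) [DecidablePred P] (h1 : P 1) (h3 : ∀ a, P (3 * a)) :
    ∃ N : ℕ, ∀ n ≥ N,
      M n < (Finset.univ.filter (fun l : n.Partition => ∀ a ∈ l.parts, P a)).card := by
  obtain ⟨N, hN⟩ := M_le_exp (1 / 8) (by norm_num)
  refine ⟨max N 100, fun n hn => ?_⟩
  have hn1 : N ≤ n := le_trans (le_max_left _ _) hn
  have hn2 : 100 ≤ n := le_trans (le_max_right _ _) hn
  set t := Nat.sqrt (n / 3) with ht
  have ht1 : 3 * t ^ 2 ≤ n := by
    have := Nat.sqrt_le' (n / 3)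
    rw [← ht] at this; omega
  have ht2 : n < 3 * (t + 1) ^ 2 := by
    have := Nat.lt_succ_sqrt' (n / 3)
    rw [← ht] at this
    simp only [Nat.succ_eq_add_one] at this; omega
  have ht3 : 5 ≤ t := by
    by_contra hc
    have : t ≤ 4 := by omega
    nlinarith
  have h4 := part_lower P h1 h3 n t ht1
  have h5 := hN n hn1
  have h6 : √(n : ℝ) ≤ 4 * t := by
    rw [Real.sqrt_le_iff]
    refine ⟨by positivity, ?_⟩
    have : n ≤ (4 * t) ^ 2 := by nlinarith
    exact_mod_cast this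
  have h7 : exp (1 / 8 * √(n : ℝ)) < (2 : ℝ) ^ t := by
    rw [← Real.exp_log (show (0 : ℝ) < 2 by norm_num), ← Real.exp_nat_mul]
    apply Real.exp_lt_exp.2
    have := Real.log_two_gt_d9
    have : (5 : ℝ) ≤ t := by exact_mod_cast ht3
    nlinarith
  have h8 : (M n : ℝ) < ((2 ^ t : ℕ) : ℝ) := by push_cast; linarith
  have h9 : M n < 2 ^ t := by exact_mod_cast h8
  omega

end Pool.Agent.H60.Multi
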