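import Mathlib

set_option autoImplicit false

namespace Pool.Agent.H60.NB

open Set Metric Filter Topology MeasureTheory
open scoped NNReal BoundedContinuousFunction

section ode
variable {X : Type} [NormedAddCommGroup X] [NormedSpace ℝ X] [CompleteSpace X]

theorem int_cosh {l : ℝ} (hl : 0 < l) (t : ℝ) :
    |∫ s in (0 : ℝ)..t, Real.cosh (l * s)| ≤ Real.cosh (l * t) / l := by
  have h : ∀ s, HasDerivAt (fun s => Real.sinh (l * s) / l) (Real.cosh (l * s)) s := fun s => by
    have := (((hasDerivAt_id s).const_mul l).sinh).div_const l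
    simpa [hl.ne'] using this
  rw [intervalIntegral.integral_eq_sub_of_hasDerivAt (fun s _ => h s)
    (Continuous.intervalIntegrable (by fun_prop) _ _)]
  simp only [mul_zero, Real.sinh_zero, zero_div, sub_zero, abs_div, abs_of_pos hl]
  gcongr
  rw [abs_le]
  have := Real.cosh_add_sinh (l * t)
  have := Real.cosh_sub_sinh (l * t)
  constructor <;> linarith [Real.exp_pos (l * t), Real.exp_pos (-(l * t))]

omit [CompleteSpace X] in
theorem int_le {l : ℝ} (hl : 0 < l) {f : ℝ → X} {C : ℝ} (hC : 0 ≤ C)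
    (h : ∀ s, ‖f s‖ ≤ C * Real.cosh (l * s)) (t : ℝ) :
    ‖(Real.cosh (l * t))⁻¹ • ∫ s in (0 : ℝ)..t, f s‖ ≤ C / l := by
  have h1 := intervalIntegral.norm_integral_le_abs_of_norm_le (μ := volume) (a := 0) (b := t)
    (f := f) (g := fun s => C * Real.cosh (l * s)) (Eventually.of_forall h)
    (Continuous.intervalIntegrable (by fun_prop) _ _)
  rw [intervalIntegral.integral_const_mul, abs_mul, abs_of_nonneg hC] at h1
  have h2 := Real.cosh_pos (l * t)
  rw [norm_smul, Real.norm_of_nonneg (inv_nonneg.mpr h2.le), inv_mul_le_iff₀ h2]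
  refine h1.trans ((mul_le_mul_of_nonneg_left (int_cosh hl t) hC).trans (le_of_eq ?_))
  ring

theorem global {W : X → X} {K : ℝ≥0} (hW : LipschitzWith K W) (x : X) :
    ∃ y : ℝ → X, y 0 = x ∧ ∀ t, HasDerivAt y (W (y t)) t := by
  set l : ℝ := 2 * K + 1 with hl
  have l0 : 0 < l := by positivity
  have c1 : ∀ t, 1 ≤ Real.cosh (l * t) := fun t => Real.one_le_cosh _
  have c0 : ∀ t, 0 < Real.cosh (l * t) := fun t => Real.cosh_pos _
  have hc : ∀ u : ℝ →ᵇ X, Continuous fun s => W (Real.cosh (l * s) • u s) := fun u =>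
    hW.continuous.comp (by fun_prop)
  have hd : ∀ (u : ℝ →ᵇ X) t, HasDerivAt (fun t => x + ∫ s in (0 : ℝ)..t, W (Real.cosh (l * s) • u s))
      (W (Real.cosh (l * t) • u t)) t := fun u t =>
    ((hc u).integral_hasStrictDerivAt 0 t).hasDerivAt.const_add x
  let T : (ℝ →ᵇ X) → ℝ →ᵇ X := fun u => BoundedContinuousFunction.ofNormedAddCommGroup
    (fun t => (Real.cosh (l * t))⁻¹ • (x + ∫ s in (0 : ℝ)..t, W (Real.cosh (l * s) • u s)))
    (Continuous.smul (Continuous.inv₀ (by fun_prop) fun t => (c0 t).ne')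
      (continuous_iff_continuousAt.mpr fun t => (hd u t).continuousAt))
    (‖x‖ + (‖W 0‖ + K * ‖u‖) / l) fun t => by
      rw [smul_add]
      refine norm_add_le_of_le ?_ (int_le l0 (by positivity) (fun s => ?_) t)
      · rw [norm_smul, Real.norm_of_nonneg (inv_nonneg.mpr (c0 t).le)]
        exact mul_le_of_le_one_left (norm_nonneg _) (inv_le_one_of_one_le₀ (c1 t))
      · have h1 := hW.norm_sub_le (Real.cosh (l * s) • u s) 0
        rw [sub_zero, norm_smul, Real.norm_of_nonneg (c0 s).le] at h1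
        have h2 := norm_sub_norm_le (W (Real.cosh (l * s) • u s)) (W 0)
        have h3 := mul_le_mul_of_nonneg_left (u.norm_coe_le_norm s)
          (mul_nonneg K.2 (c0 s).le)
        have h4 := mul_le_mul_of_nonneg_left (c1 s) (norm_nonneg (W 0))
        simp only [NNReal.val_eq_coe] at h3
        nlinarith
  have hT : ContractingWith (1 / 2) T := by
    refine ⟨by norm_num, LipschitzWith.of_dist_le_mul fun u w => ?_⟩
    rw [BoundedContinuousFunction.dist_le (by positivity)]
    intro t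
    rw [dist_eq_norm]
    change ‖(Real.cosh (l * t))⁻¹ • (_ : X) - (Real.cosh (l * t))⁻¹ • (_ : X)‖ ≤ _
    rw [← smul_sub, add_sub_add_left_eq_sub, ← intervalIntegral.integral_sub
      ((hc u).intervalIntegrable _ _) ((hc w).intervalIntegrable _ _)]
    refine (int_le l0 (C := K * dist u w) (by positivity) (fun s => ?_) t).trans ?_
    · refine (hW.norm_sub_le _ _).trans ?_
      rw [← smul_sub, norm_smul, Real.norm_of_nonneg (c0 s).le, ← dist_eq_norm, mul_assoc,
        mul_comm (dist u w)]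
      gcongr
      exact BoundedContinuousFunction.dist_coe_le_dist s
    · rw [div_le_iff₀ l0, hl]
      push_cast
      nlinarith [dist_nonneg (x := u) (y := w)]
  obtain ⟨u, hu⟩ : ∃ u, T u = u := ⟨_, hT.fixedPoint_isFixedPt⟩
  have e : ∀ t, Real.cosh (l * t) • u t = x + ∫ s in (0 : ℝ)..t, W (Real.cosh (l * s) • u s) := by
    intro t
    conv_lhs => rw [← hu]
    exact smul_inv_smul₀ (c0 t).ne' _
  refine ⟨fun t => x + ∫ s in (0 : ℝ)..t, W (Real.cosh (l * s) • u s), by simp, fun t => ?_⟩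
  have := hd u t
  rwa [e t] at this

theorem exists_lim {f f' : ℝ → X} (hf : ∀ t, HasDerivAt f (f' t) t) (hc : Continuous f') {B : ℝ}
    (hb : ∀ t, 1 < t → ‖f' t‖ ≤ B / t ^ 2) : ∃ N, Tendsto f atTop (𝓝 N) := by
  refine ⟨_, tendsto_limUnder_of_hasDerivAt_of_integrableOn_Ioi (a := 1) (fun t _ => hf t) ?_⟩
  refine Integrable.mono' ((integrableOn_Ioi_rpow_of_lt (a := -2) (by norm_num) one_pos).const_mul B)
    hc.aestronglyMeasurable ?_
  filter_upwards [ae_restrict_mem measurableSet_Ioi] with t ht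
  have : (0 : ℝ) < t := one_pos.trans ht
  rw [Real.rpow_neg this.le, ← div_eq_mul_inv]
  simpa using hb t ht

omit [CompleteSpace X] in
theorem lim_div {f f' : ℝ → X} (hf : ∀ t, HasDerivAt f (f' t) t) {N : X}
    (h : Tendsto f' atTop (𝓝 N)) : Tendsto (fun t => t⁻¹ • f t) atTop (𝓝 N) := by
  have key : (fun t => f t - t • N) =o[atTop] fun t : ℝ => t := by
    rw [Asymptotics.isLittleO_iff]
    intro ε hε
    obtain ⟨T, hT⟩ := eventually_atTop.mp ((tendsto_iff_norm_sub_tendsto_zero.mp h).eventually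
      (ge_mem_nhds (half_pos hε)))
    filter_upwards [eventually_ge_atTop (max T 0),
      eventually_ge_atTop (‖f (max T 0) - max T 0 • N‖ / (ε / 2))] with t h1 h2
    have h3 := (convex_Ici (max T 0)).norm_image_sub_le_of_norm_hasDerivWithin_le
      (f := fun t => f t - t • N) (f' := fun t => f' t - N) (C := ε / 2)
      (fun s _ => (((hf s).sub ((hasDerivAt_id s).smul_const N)).congr_deriv
        (by simp)).hasDerivWithinAt)
      (fun s hs => hT s (le_of_max_le_left hs)) self_mem_Ici h1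
    rw [div_le_iff₀ (half_pos hε)] at h2
    have h4 := le_max_right T 0
    rw [Real.norm_of_nonneg (sub_nonneg.mpr h1)] at h3
    rw [Real.norm_of_nonneg (h4.trans h1)]
    nlinarith [norm_sub_norm_le (f t - t • N) (f (max T 0) - max T 0 • N)]
  have := key.tendsto_inv_smul_nhds_zero.add_const N
  rw [zero_add] at this
  refine this.congr' ?_
  filter_upwards [eventually_gt_atTop 0] with t ht
  simp [smul_sub, smul_smul, inv_mul_cancel₀ ht.ne']

omit [CompleteSpace X] in
theorem uniq_loc {W : X → X} {f g : ℝ → X} (hW : ∀ t, ContDiffAt ℝ 1 W (f t))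
    (hf : ∀ t, HasDerivAt f (W (f t)) t) (hg : ∀ t, HasDerivAt g (W (g t)) t) (e : f 0 = g 0) :
    f = g := by
  have cf : Continuous f := continuous_iff_continuousAt.mpr fun t => (hf t).continuousAt
  have cg : Continuous g := continuous_iff_continuousAt.mpr fun t => (hg t).continuousAt
  have h : IsClopen {t | f t = g t} := by
    refine ⟨isClosed_eq cf cg, isOpen_iff_mem_nhds.mpr fun t ht => ?_⟩
    obtain ⟨K, s, hs, hK⟩ := (hW t).exists_lipschitzOnWith
    exact ODE_solution_unique_of_eventually (v := fun _ => W) (s := fun _ => s) (K := K)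
      (Eventually.of_forall fun _ => hK)
      ((cf.continuousAt.eventually hs).mono fun u hu => ⟨hf u, hu⟩)
      ((cg.continuousAt.eventually (by rwa [← show f t = g t from ht])).mono fun u hu => ⟨hg u, hu⟩)
      ht
  funext t
  exact (h.eq_univ ⟨0, e⟩ ▸ mem_univ t : t ∈ {t | f t = g t})

noncomputable def GG (w : X) : X := (1 / max ‖w‖ 1 ^ 3) • w

omit [CompleteSpace X] in
theorem GG_lip : LipschitzWith 4 (GG : X → X) := by
  have key : ∀ w w' : X, ‖w'‖ ≤ ‖w‖ → ‖GG w - GG w'‖ ≤ 4 * ‖w - w'‖ := by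
    intro w w' h
    have e : GG w - GG w' = (1 / max ‖w‖ 1 ^ 3) • (w - w') -
        (1 / max ‖w'‖ 1 ^ 3 - 1 / max ‖w‖ 1 ^ 3) • w' := by
      simp only [GG, smul_sub, sub_smul]; abel
    have h1 : max ‖w'‖ 1 ≤ max ‖w‖ 1 := max_le_max_right _ h
    have h2 : max ‖w‖ 1 - max ‖w'‖ 1 ≤ ‖w - w'‖ :=
      (le_abs_self _).trans ((abs_max_sub_max_le_abs _ _ _).trans (abs_norm_sub_norm_le _ _))
    have h3 : 1 ≤ max ‖w'‖ 1 := le_max_right _ _
    have h4 : ‖w'‖ ≤ max ‖w'‖ 1 := le_max_left _ _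
    generalize max ‖w'‖ 1 = b at *
    generalize max ‖w‖ 1 = a at *
    have b0 : 0 < b := by linarith
    have a0 : 0 < a := by linarith
    have h5 : 0 ≤ 1 / b ^ 3 - 1 / a ^ 3 := sub_nonneg.mpr (by gcongr)
    have h6 : (1 / b ^ 3 - 1 / a ^ 3) * b ≤ 3 * (a - b) := by
      have : (1 / b ^ 3 - 1 / a ^ 3) * b = (a - b) * ((a ^ 2 + a * b + b ^ 2) / (a ^ 3 * b ^ 2)) := by
        field_simp; ring
      rw [this, mul_comm 3]
      refine mul_le_mul_of_nonneg_left ?_ (by linarith)
      rw [div_le_iff₀ (by positivity)]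
      have k1 : 1 ≤ a * b ^ 2 := by nlinarith
      nlinarith [mul_le_mul_of_nonneg_left k1 (sq_nonneg a)]
    rw [e]
    refine (norm_sub_le _ _).trans ?_
    rw [norm_smul, norm_smul, Real.norm_of_nonneg h5, Real.norm_of_nonneg (by positivity)]
    have h7 : 1 / a ^ 3 ≤ 1 := by
      rw [div_le_one (by positivity)]; exact one_le_pow₀ (by linarith)
    nlinarith [mul_le_mul_of_nonneg_left h4 h5, norm_nonneg (w - w')]
  refine LipschitzWith.of_dist_le_mul fun w w' => ?_
  rcases le_total ‖w'‖ ‖w‖ with h | h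
  · simpa [dist_eq_norm] using key w w' h
  · rw [dist_comm, dist_comm w]; simpa [dist_eq_norm] using key w' w h

end ode

theorem mono_d {f f' : ℝ → ℝ} {a b : ℝ} (hab : a ≤ b) (hf : ∀ t ∈ Icc a b, HasDerivAt f (f' t) t)
    (h : ∀ t ∈ Icc a b, 0 ≤ f' t) : f a ≤ f b :=
  monotoneOn_of_hasDerivWithinAt_nonneg (convex_Icc a b)
    (fun t ht => (hf t ht).continuousAt.continuousWithinAt)
    (fun t ht => (hf t (interior_subset ht)).hasDerivWithinAt)
    (fun t ht => h t (interior_subset ht)) (left_mem_Icc.mpr hab) (right_mem_Icc.mpr hab) hab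

theorem boot {g : ℝ → ℝ} (hg : Continuous g) (h0 : 0 ≤ g 0)
    (h : ∀ T, 0 ≤ T → (∀ t ∈ Icc 0 T, 0 ≤ g t) → ∀ᶠ t in 𝓝[>] T, 0 ≤ g t) {t : ℝ} (ht : 0 ≤ t) :
    0 ≤ g t :=
  IsClosed.Icc_subset_of_forall_mem_nhdsGT_of_Icc_subset (s := {t | 0 ≤ g t})
    ((isClosed_le continuous_const hg).inter isClosed_Icc) h0
    (fun T hT h1 => h T hT.1 h1) (right_mem_Icc.mpr ht)

end Pool.Agent.H60.NB
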