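import Pool.Agent.H60.NBa

set_option autoImplicit false

namespace Pool.Agent.H60.NB

open Set Metric Filter Topology

theorem ev_le {g : ℝ → ℝ} {d T : ℝ} (h : HasDerivAt g d T) (hd : 0 < d) :
    ∀ᶠ t in 𝓝[>] T, g T < g t := by
  have := (hasDerivAt_iff_tendsto_slope.mp h).mono_left (nhdsGT_le_nhdsNE T)
  filter_upwards [this.eventually (lt_mem_nhds hd), self_mem_nhdsWithin] with t h1 h2
  rw [slope_def_field, div_pos_iff_of_pos_right (sub_pos.mpr h2)] at h1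
  linarith

theorem sqle {a b : ℝ} (h : a ^ 2 ≤ b ^ 2) (hb : 0 ≤ b) : a ≤ b := abs_le_of_sq_le_sq' h hb |>.2

structure Sc (v s : ℝ) (x y z a b c σ ρ : ℝ → ℝ) : Prop where
  hx : ∀ t, HasDerivAt x (a t) t
  hy : ∀ t, HasDerivAt y (b t) t
  hz : ∀ t, HasDerivAt z (c t) t
  ha : ∀ t, HasDerivAt a (-(x t * (1 / σ t ^ 3 + 1 / 16 / ρ t ^ 3))) t
  hb : ∀ t, HasDerivAt b (-(y t * (1 / σ t ^ 3 + 1 / 16 / ρ t ^ 3))) t
  hc : ∀ t, HasDerivAt c (-(129 / 16 * z t / ρ t ^ 3)) t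
  σ1 : ∀ t, 1 ≤ σ t
  ρ1 : ∀ t, 1 ≤ ρ t
  hσ : ∀ t, 1 ≤ x t ^ 2 + y t ^ 2 → σ t ^ 2 = x t ^ 2 + y t ^ 2
  hρ : ∀ t, 1 ≤ x t ^ 2 + y t ^ 2 → ρ t ^ 2 = x t ^ 2 + y t ^ 2 + z t ^ 2
  x0 : x 0 = 1
  y0 : y 0 = 0
  z0 : z 0 = 0
  a0 : a 0 = 0
  b0 : b 0 = v
  c0 : c 0 = s
  hv : 3 / 2 ≤ v

variable {v s : ℝ} {x y z a b c σ ρ : ℝ → ℝ}

theorem Sc.dq (h : Sc v s x y z a b c σ ρ) (t : ℝ) :
    HasDerivAt (fun t => x t ^ 2 + y t ^ 2) (2 * (x t * a t + y t * b t)) t :=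
  (((h.hx t).pow 2).add ((h.hy t).pow 2)).congr_deriv (by simp; ring)

theorem Sc.dg (h : Sc v s x y z a b c σ ρ) (t : ℝ) :
    HasDerivAt (fun t => x t * a t + y t * b t)
      (a t ^ 2 + b t ^ 2 - (x t ^ 2 + y t ^ 2) * (1 / σ t ^ 3 + 1 / 16 / ρ t ^ 3)) t :=
  (((h.hx t).mul (h.ha t)).add ((h.hy t).mul (h.hb t))).congr_deriv (by ring)

theorem Sc.dv (h : Sc v s x y z a b c σ ρ) (t : ℝ) :
    HasDerivAt (fun t => a t ^ 2 + b t ^ 2)
      (-(2 * (x t * a t + y t * b t) * (1 / σ t ^ 3 + 1 / 16 / ρ t ^ 3))) t :=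
  (((h.ha t).pow 2).add ((h.hb t).pow 2)).congr_deriv (by simp; ring)

theorem Sc.σρ (h : Sc v s x y z a b c σ ρ) {t : ℝ} (hq : 1 ≤ x t ^ 2 + y t ^ 2) : σ t ≤ ρ t := by
  have h1 := h.hσ t hq
  have h2 := h.hρ t hq
  have := h.ρ1 t
  exact sqle (by nlinarith [sq_nonneg (z t)]) (by linarith)

theorem Sc.core (h : Sc v s x y z a b c σ ρ) {T : ℝ} (hT : 0 ≤ T)
    (hg : ∀ t ∈ Icc 0 T, 0 ≤ x t * a t + y t * b t) :
    1 ≤ x T ^ 2 + y T ^ 2 ∧ v ^ 2 - 17 / 8 ≤ a T ^ 2 + b T ^ 2 ∧ v ^ 2 - 17 / 8 ≤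
      a T ^ 2 + b T ^ 2 - (x T ^ 2 + y T ^ 2) * (1 / σ T ^ 3 + 1 / 16 / ρ T ^ 3) := by
  have h1 : ∀ t ∈ Icc 0 T, 1 ≤ x t ^ 2 + y t ^ 2 := by
    intro t ht
    have := mono_d ht.1 (fun u _ => h.dq u) fun u hu => by
      have := hg u ⟨hu.1, hu.2.trans ht.2⟩
      linarith
    simpa [h.x0, h.y0] using this
  have h2 : ∀ t ∈ Icc 0 T, √(x t ^ 2 + y t ^ 2) = σ t := fun t ht => by
    rw [← h.hσ t (h1 t ht), Real.sqrt_sq (by linarith [h.σ1 t])]
  have h3 := mono_d (f := fun t => (a t ^ 2 + b t ^ 2) - 17 / 8 * (√(x t ^ 2 + y t ^ 2))⁻¹)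
    (f' := fun t => (x t * a t + y t * b t) / 8 * (1 / σ t ^ 3 - 1 / ρ t ^ 3)) hT
    (fun t ht => by
      have k1 := h.σ1 t
      have k2 := h.ρ1 t
      refine ((h.dv t).sub ((((h.dq t).sqrt (by linarith [h1 t ht])).inv
        (by rw [h2 t ht]; linarith)).const_mul _)).congr_deriv ?_
      rw [h2 t ht]; field_simp; ring)
    (fun t ht => by
      have k1 := h.σ1 t
      have k2 := h.σρ (h1 t ht)
      refine mul_nonneg (by linarith [hg t ht]) (sub_nonneg.mpr ?_)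
      gcongr)
  have hT' := right_mem_Icc.mpr hT
  simp only [h2 T hT', h.x0, h.y0, h.a0, h.b0] at h3
  norm_num at h3
  have k1 := h.σ1 T
  have k2 := h.σρ (h1 T hT')
  have k3 : (x T ^ 2 + y T ^ 2) * (1 / σ T ^ 3 + 1 / 16 / ρ T ^ 3) ≤ 17 / 16 * (σ T)⁻¹ := by
    rw [← h.hσ T (h1 T hT')]
    calc _ ≤ σ T ^ 2 * (1 / σ T ^ 3 + 1 / 16 / σ T ^ 3) := by gcongr
      _ = _ := by field_simp; ring
  have k4 : 0 < (σ T)⁻¹ := by positivity
  exact ⟨h1 T hT', by linarith, by linarith⟩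

theorem Sc.g0 (h : Sc v s x y z a b c σ ρ) {t : ℝ} (ht : 0 ≤ t) : 0 ≤ x t * a t + y t * b t := by
  refine boot (g := fun t => x t * a t + y t * b t)
    (continuous_iff_continuousAt.mpr fun t => (h.dg t).continuousAt) (by simp [h.a0, h.y0])
    (fun T hT hg => ?_) ht
  have := (h.core hT hg).2.2
  filter_upwards [ev_le (h.dg T) (by nlinarith [h.hv])] with t h1
  exact (hg T (right_mem_Icc.mpr hT)).trans h1.le

theorem Sc.q1 (h : Sc v s x y z a b c σ ρ) {t : ℝ} (ht : 0 ≤ t) : 1 ≤ x t ^ 2 + y t ^ 2 :=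
  (h.core ht fun _ hu => h.g0 hu.1).1

theorem Sc.v1 (h : Sc v s x y z a b c σ ρ) {t : ℝ} (ht : 0 ≤ t) : 1 / 8 ≤ a t ^ 2 + b t ^ 2 := by
  have := (h.core ht fun _ hu => h.g0 hu.1).2.1
  nlinarith [h.hv]

theorem Sc.q2 (h : Sc v s x y z a b c σ ρ) {t : ℝ} (ht : 0 ≤ t) :
    1 + (v ^ 2 - 17 / 8) * t ^ 2 ≤ x t ^ 2 + y t ^ 2 := by
  have h1 : ∀ t, 0 ≤ t → (v ^ 2 - 17 / 8) * t ≤ x t * a t + y t * b t := by
    intro t ht
    have := mono_d ht (fun u _ => (h.dg u).sub ((hasDerivAt_id u).const_mul (v ^ 2 - 17 / 8)))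
      fun u hu => by
        have := (h.core hu.1 fun _ hu => h.g0 hu.1).2.2
        linarith
    simp [h.a0, h.y0] at this
    linarith
  have := mono_d ht (fun u _ => (h.dq u).sub (((hasDerivAt_id u).pow 2).const_mul (v ^ 2 - 17 / 8)))
    fun u hu => by
      have := h1 u hu.1
      simp; linarith
  simp [h.x0, h.y0] at this
  linarith

theorem Sc.v2 (h : Sc v s x y z a b c σ ρ) {t : ℝ} (ht : 0 ≤ t) : a t ^ 2 + b t ^ 2 ≤ v ^ 2 := by
  have := mono_d ht (fun u _ => (h.dv u).neg) fun u hu => by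
    have := h.g0 hu.1
    have := h.σ1 u
    have := h.ρ1 u
    rw [neg_neg]; positivity
  simp [h.a0, h.b0] at this
  linarith

theorem Sc.tail (h : Sc v s x y z a b c σ ρ) {T t : ℝ} (hT : 0 < T) (ht : T ≤ t) :
    c T - 65 / T ≤ c t := by
  have := mono_d (f := fun t => c t - 65 * t⁻¹) ht
    (fun u hu => (h.hc u).sub ((hasDerivAt_inv (by linarith [hu.1])).const_mul 65)) fun u hu => by
    have u0 : 0 < u := by linarith [hu.1]
    have k1 := h.q2 u0.le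
    have k2 := h.hρ u (h.q1 u0.le)
    have k3 := h.ρ1 u
    have k4 : z u ≤ ρ u := sqle (by nlinarith [h.q1 u0.le]) (by linarith)
    have k5 : u ^ 2 ≤ 8 * ρ u ^ 2 := by
      have : 1 / 8 ≤ v ^ 2 - 17 / 8 := by nlinarith [h.hv]
      nlinarith [mul_le_mul_of_nonneg_right this (sq_nonneg u), sq_nonneg (z u)]
    have k6 : 129 / 16 * z u / ρ u ^ 3 ≤ 65 * (u ^ 2)⁻¹ := by
      rw [← div_eq_mul_inv, div_le_div_iff₀ (by positivity) (by positivity)]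
      nlinarith [mul_le_mul k4 k5 (sq_nonneg u) (by linarith)]
    linarith
  have k : 0 < t⁻¹ := inv_pos.mpr (by linarith)
  simp only [div_eq_mul_inv] at *
  linarith

theorem Sc.zc (h : Sc v s x y z a b c σ ρ) {T : ℝ} (hg : ∀ t ∈ Icc 0 T, 0 ≤ c t) :
    ∀ t ∈ Icc 0 T, 0 ≤ z t ∧ ∀ u ∈ Icc t T, c u ≤ c t := by
  have h1 : ∀ t ∈ Icc 0 T, 0 ≤ z t := fun t ht => by
    have := mono_d ht.1 (fun u _ => h.hz u) fun u hu => hg u ⟨hu.1, hu.2.trans ht.2⟩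
    rwa [h.z0] at this
  refine fun t ht => ⟨h1 t ht, fun u hu => ?_⟩
  have := mono_d hu.1 (fun w _ => (h.hc w).neg) fun w hw => by
    have := h1 w ⟨ht.1.trans hw.1, hw.2.trans hu.2⟩
    have := h.ρ1 w
    rw [neg_neg]; positivity
  simpa using this

theorem Sc.fast (h : Sc 6 s x y z a b c σ ρ) (hs : 0 < s) {t : ℝ} (ht : 0 ≤ t) : 0 ≤ c t := by
  refine boot (continuous_iff_continuousAt.mpr fun t => (h.hc t).continuousAt)
    (by rw [h.c0]; exact hs.le) (fun T hT hg => ?_) ht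
  have h1 := h.zc hg
  have h2 : ∀ t ∈ Icc 0 T, z t ≤ s * t := fun t ht => by
    have := mono_d ht.1 (fun u _ => ((hasDerivAt_id u).const_mul s).sub (h.hz u)) fun u hu => by
      have := (h1 0 (left_mem_Icc.mpr hT)).2 u ⟨hu.1, hu.2.trans ht.2⟩
      rw [h.c0] at this; linarith
    simp [h.z0] at this
    exact this
  have h3 := mono_d (f := fun t => c t - 7 / 10 * s * (1 + 5 * t)⁻¹) hT
    (fun u hu => (h.hc u).sub (((((hasDerivAt_id u).const_mul 5).const_add 1).inv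
      (by simp only [id]; linarith [hu.1])).const_mul _)) fun u hu => by
    have k1 := h.q2 hu.1
    have k2 := h.hρ u (h.q1 hu.1)
    have k3 := h.ρ1 u
    have u0 := hu.1
    have k4 : 5 * u ≤ ρ u := sqle (by nlinarith [sq_nonneg (z u)]) (by linarith)
    have k5 : (1 + 5 * u) ^ 2 ≤ 2 * ρ u ^ 2 := by
      nlinarith [sq_nonneg (z u), sq_nonneg (1 - 5 * u)]
    have k6 : 129 / 16 * z u / ρ u ^ 3 ≤ 7 / 2 * s / (1 + 5 * u) ^ 2 := by
      rw [div_le_div_iff₀ (by positivity) (by positivity)]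
      have k7 := mul_le_mul k4 k5 (sq_nonneg _) (by linarith)
      have k8 := mul_le_mul_of_nonneg_right (h2 u hu) (sq_nonneg (1 + 5 * u))
      have k9 := mul_le_mul_of_nonneg_left k7 hs.le
      have : 0 ≤ s * ρ u ^ 3 := by positivity
      nlinarith
    simp only [id]
    have : 7 / 10 * s * (-(5 * 1) / (1 + 5 * u) ^ 2) = -(7 / 2 * s / (1 + 5 * u) ^ 2) := by ring
    linarith
  have h4 : 0 < c T := by
    have : 0 < 7 / 10 * s * (1 + 5 * T)⁻¹ := by positivity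
    simp only [h.c0, mul_zero, add_zero, inv_one] at h3
    linarith
  exact nhdsWithin_le_nhds (((h.hc T).continuousAt.eventually (lt_mem_nhds h4)).mono
    fun _ => le_of_lt)

theorem Sc.slow (h : Sc (3 / 2) s x y z a b c σ ρ) (hs : 0 < s) (hs' : s ≤ 1 / 4)
    (hg : ∀ t, 0 ≤ t → 0 ≤ c t) : False := by
  have h1 := h.zc (T := 1) fun t ht => hg t ht.1
  have dz : ∀ t, HasDerivAt (fun t => z t * c t) (c t ^ 2 - z t ^ 2 * (129 / 16 / ρ t ^ 3)) t :=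
    fun t => ((h.hz t).mul (h.hc t)).congr_deriv (by ring)
  have h2 : ∀ t ∈ Icc (0 : ℝ) 1, x t * a t + y t * b t + z t * c t ≤ 7 / 3 * t := fun t ht => by
    have := mono_d ht.1 (fun u _ => ((hasDerivAt_id u).const_mul (7 / 3)).sub ((h.dg u).add (dz u)))
      fun u hu => by
      have k1 := (h1 0 (by simp)).2 u ⟨hu.1, hu.2.trans ht.2⟩
      rw [h.c0] at k1
      have k2 := h.v2 hu.1
      have k3 := hg u hu.1
      have := h.σ1 u
      have := h.ρ1 u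
      have k4 : 0 ≤ (x u ^ 2 + y u ^ 2) * (1 / σ u ^ 3 + 1 / 16 / ρ u ^ 3) := by positivity
      have k5 : 0 ≤ z u ^ 2 * (129 / 16 / ρ u ^ 3) := by positivity
      nlinarith
    simp [h.a0, h.y0, h.z0] at this
    linarith
  have h3 : ∀ t ∈ Icc (0 : ℝ) 1, ρ t ^ 2 ≤ 1 + 7 / 3 * t ^ 2 := fun t ht => by
    have := mono_d ht.1 (fun u _ => (((hasDerivAt_id u).pow 2).const_mul (7 / 3)).sub
      ((h.dq u).add ((h.hz u).pow 2))) fun u hu => by
      have := h2 u ⟨hu.1, hu.2.trans ht.2⟩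
      simp; linarith
    simp [h.x0, h.y0, h.z0] at this
    rw [h.hρ t (h.q1 ht.1)]
    linarith
  have dD : ∀ t : ℝ, HasDerivAt (fun t : ℝ => 1 + 7 / 6 * t ^ 2) (7 / 3 * t) t := fun t =>
    ((((hasDerivAt_id t).pow 2).const_mul (7 / 6)).const_add 1).congr_deriv (by simp; ring)
  have h4 := mono_d (f := fun t => z t * ((1 - 7 / 6 * t ^ 2) / (1 + 7 / 6 * t ^ 2) ^ 2) -
      c t * (t / (1 + 7 / 6 * t ^ 2)))
    (f' := fun t => z t * t / (1 + 7 / 6 * t ^ 2) * (129 / 16 / ρ t ^ 3 -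
      7 / 3 * (3 - 7 / 6 * t ^ 2) / (1 + 7 / 6 * t ^ 2) ^ 2)) zero_le_one
    (fun t _ => by
      have k : (1 + 7 / 6 * t ^ 2) ≠ 0 := by positivity
      have k3 := h.ρ1 t
      refine (((h.hz t).mul ((((((hasDerivAt_id t).pow 2).const_mul (7 / 6)).const_sub 1).div
        ((dD t).pow 2) (pow_ne_zero 2 k)))).sub ((h.hc t).mul
        ((hasDerivAt_id t).div (dD t) k))).congr_deriv ?_
      simp only [id, Pi.pow_apply, Pi.div_apply]
      field_simp; ring)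
    fun t ht => by
      have k1 := (h1 t ht).1
      have k2 := h3 t ht
      have k3 := h.ρ1 t
      have t0 := ht.1
      refine mul_nonneg (by positivity) (sub_nonneg.mpr ?_)
      rw [div_le_div_iff₀ (by positivity) (by positivity)]
      have k4 : ρ t ≤ 1 + 7 / 6 * t ^ 2 :=
        sqle (by nlinarith [sq_nonneg (t ^ 2)]) (by positivity)
      have k5 := mul_le_mul k2 k4 (by linarith) (by positivity)
      have k6 : t ^ 2 ≤ 1 := pow_le_one₀ t0 ht.2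
      have k7 := mul_le_mul_of_nonneg_left k5 (show 0 ≤ 7 / 3 * (3 - 7 / 6 * t ^ 2) by linarith)
      have k8 : 7 / 3 * (3 - 7 / 6 * t ^ 2) * (1 + 7 / 3 * t ^ 2) ≤ 8 * (1 + 7 / 6 * t ^ 2) := by
        nlinarith [sq_nonneg (t ^ 2 - 1 / 3)]
      have k9 := mul_le_mul_of_nonneg_right k8 (show 0 ≤ 1 + 7 / 6 * t ^ 2 by positivity)
      nlinarith
  obtain ⟨t, t1, t2⟩ := ((ev_le (h.hz 0) (by rwa [h.c0])).and
    (Ioc_mem_nhdsGT zero_lt_one)).exists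
  have h5 := mono_d t2.2 (fun u _ => h.hz u) fun u hu => hg u (t2.1.le.trans hu.1)
  have h6 := hg 1 zero_le_one
  rw [h.z0] at t1
  simp only [h.z0] at h4
  norm_num at h4
  linarith

end Pool.Agent.H60.NB
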