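import Pool.Agent.H60.NBb

set_option autoImplicit false

namespace Pool.Agent.H60.NB

open Set Metric Filter Topology
open scoped NNReal

abbrev E3 := EuclideanSpace ℝ (Fin 3)

noncomputable def dg (a b c : ℝ) : E3 →L[ℝ] E3 :=
  LinearMap.toContinuousLinearMap
    { toFun := fun w => !₂[a * w 0, b * w 1, c * w 2]
      map_add' := fun u w => by ext i; fin_cases i <;> simp [mul_add]
      map_smul' := fun r w => by ext i; fin_cases i <;> simp [mul_left_comm] }

@[simp] theorem dg0 (a b c : ℝ) (w : E3) : dg a b c w 0 = a * w 0 := rfl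
@[simp] theorem dg1 (a b c : ℝ) (w : E3) : dg a b c w 1 = b * w 1 := rfl
@[simp] theorem dg2 (a b c : ℝ) (w : E3) : dg a b c w 2 = c * w 2 := rfl

theorem ext3 {u w : E3} (h0 : u 0 = w 0) (h1 : u 1 = w 1) (h2 : u 2 = w 2) : u = w := by
  ext i; fin_cases i <;> assumption

theorem nsq (w : E3) : ‖w‖ ^ 2 = w 0 ^ 2 + w 1 ^ 2 + w 2 ^ 2 := by
  rw [EuclideanSpace.real_norm_sq_eq, Fin.sum_univ_three]

theorem neq {u w : E3} (h : u 0 ^ 2 + u 1 ^ 2 + u 2 ^ 2 = w 0 ^ 2 + w 1 ^ 2 + w 2 ^ 2) :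
    ‖u‖ = ‖w‖ := by
  rw [← nsq, ← nsq] at h
  exact (pow_left_inj₀ (norm_nonneg _) (norm_nonneg _) two_ne_zero).mp h

noncomputable def FF (w : E3) : E3 := -GG (dg 1 1 0 w) - dg (1 / 16) (1 / 16) (129 / 16) (GG w)

noncomputable def WW (p : E3 × E3) : E3 × E3 := (p.2, FF p.1)

theorem WW_lip : ∃ K, LipschitzWith K WW :=
  ⟨_, LipschitzWith.prod_snd.prodMk (((GG_lip.comp (dg 1 1 0).lipschitz).neg.sub
    ((dg _ _ _).lipschitz.comp GG_lip)).comp LipschitzWith.prod_fst)⟩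

noncomputable def sol (v s : ℝ) : ℝ → E3 × E3 :=
  (global WW_lip.choose_spec (!₂[1, 0, 0], !₂[0, v, s])).choose

theorem sol0 (v s : ℝ) : sol v s 0 = (!₂[1, 0, 0], !₂[0, v, s]) :=
  (global WW_lip.choose_spec _).choose_spec.1

theorem sold (v s t : ℝ) : HasDerivAt (sol v s) (WW (sol v s t)) t :=
  (global WW_lip.choose_spec _).choose_spec.2 t

theorem sol1 (v s t : ℝ) : HasDerivAt (fun t => (sol v s t).1) (sol v s t).2 t :=
  (ContinuousLinearMap.fst ℝ E3 E3).hasFDerivAt.comp_hasDerivAt t (sold v s t)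

theorem sol2 (v s t : ℝ) : HasDerivAt (fun t => (sol v s t).2) (FF (sol v s t).1) t :=
  (ContinuousLinearMap.snd ℝ E3 E3).hasFDerivAt.comp_hasDerivAt t (sold v s t)

theorem dco {f : ℝ → E3} {f' : E3} {t : ℝ} (h : HasDerivAt f f' t) (i : Fin 3) :
    HasDerivAt (fun t => f t i) (f' i) t :=
  (EuclideanSpace.proj i : E3 →L[ℝ] ℝ).hasFDerivAt.comp_hasDerivAt t h

theorem msq {w : E3} (h : 1 ≤ ‖w‖ ^ 2) : max ‖w‖ 1 = ‖w‖ :=
  max_eq_left (sqle (by simpa using h) (norm_nonneg _))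

theorem sc {v : ℝ} (hv : 3 / 2 ≤ v) (s : ℝ) : Sc v s (fun t => (sol v s t).1 0)
    (fun t => (sol v s t).1 1) (fun t => (sol v s t).1 2) (fun t => (sol v s t).2 0)
    (fun t => (sol v s t).2 1) (fun t => (sol v s t).2 2)
    (fun t => max ‖dg 1 1 0 (sol v s t).1‖ 1) (fun t => max ‖(sol v s t).1‖ 1) where
  hx t := dco (sol1 v s t) 0
  hy t := dco (sol1 v s t) 1
  hz t := dco (sol1 v s t) 2
  ha t := (dco (sol2 v s t) 0).congr_deriv (by simp [FF, GG]; ring)
  hb t := (dco (sol2 v s t) 1).congr_deriv (by simp [FF, GG]; ring)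
  hc t := (dco (sol2 v s t) 2).congr_deriv (by simp [FF, GG]; ring)
  σ1 _ := le_max_right _ _
  ρ1 _ := le_max_right _ _
  hσ t h := by rw [msq (by rw [nsq]; simpa using h), nsq]; simp
  hρ t h := by rw [msq (by rw [nsq]; nlinarith [sq_nonneg ((sol v s t).1 2)]), nsq]
  x0 := by simp [sol0]
  y0 := by simp [sol0]
  z0 := by simp [sol0]
  a0 := by simp [sol0]
  b0 := by simp [sol0]
  c0 := by simp [sol0]
  hv := hv

theorem sol_cont (s : ℝ) : ∃ K : ℝ, 0 ≤ K ∧ ∀ v v' t, 0 ≤ t →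
    |(sol v s t).2 2 - (sol v' s t).2 2| ≤ |v - v'| * Real.exp (K * t) := by
  obtain ⟨K, hK⟩ := WW_lip
  refine ⟨K, K.2, fun v v' t ht => ?_⟩
  have h1 := dist_le_of_trajectories_ODE (v := fun _ => WW) (fun _ => hK) (a := 0) (b := t)
    (f := sol v s) (g := sol v' s) (δ := |v - v'|)
    (fun u _ => (sold v s u).continuousAt.continuousWithinAt)
    (fun u _ => (sold v s u).hasDerivWithinAt)
    (fun u _ => (sold v' s u).continuousAt.continuousWithinAt)
    (fun u _ => (sold v' s u).hasDerivWithinAt) (by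
      rw [sol0, sol0, Prod.dist_eq, dist_self, max_eq_right dist_nonneg, dist_eq_norm]
      refine sqle (le_of_eq ?_) (abs_nonneg _)
      simp [nsq]) t (right_mem_Icc.mpr ht)
  rw [sub_zero] at h1
  refine le_trans ?_ h1
  rw [← Real.dist_eq]
  exact (PiLp.dist_apply_le _ _ 2).trans (le_max_right _ _)

theorem GG_le {w : E3} {t : ℝ} (ht : 0 < t) (h : t ^ 2 ≤ 8 * max ‖w‖ 1 ^ 2) :
    ‖GG w‖ ≤ 8 / t ^ 2 := by
  have h1 := le_max_left ‖w‖ 1
  have h2 := le_max_right ‖w‖ 1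
  rw [GG, norm_smul, Real.norm_of_nonneg (by positivity), one_div_mul_eq_div,
    div_le_div_iff₀ (by positivity) (by positivity)]
  nlinarith [mul_le_mul h1 h (sq_nonneg _) (by linarith)]

theorem sol_lim {v : ℝ} (hv : 3 / 2 ≤ v) (s : ℝ) :
    ∃ N : E3, Tendsto (fun t => (sol v s t).2) atTop (𝓝 N) ∧ 1 / 8 ≤ N 0 ^ 2 + N 1 ^ 2 := by
  have h := sc hv s
  obtain ⟨K, hK⟩ := WW_lip
  obtain ⟨N, hN⟩ := exists_lim (sol2 v s)
    (continuous_snd.comp (hK.continuous.comp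
      (continuous_iff_continuousAt.mpr fun t => (sold v s t).continuousAt)))
    (B := 8 + ‖dg (1 / 16) (1 / 16) (129 / 16)‖ * 8) fun t ht => by
    have t0 : 0 < t := by linarith
    have k1 := h.q2 t0.le
    have k2 := h.hσ t (h.q1 t0.le)
    have k3 := h.hρ t (h.q1 t0.le)
    have k4 : 1 / 8 ≤ v ^ 2 - 17 / 8 := by nlinarith
    have k5 := mul_le_mul_of_nonneg_right k4 (sq_nonneg t)
    rw [add_div, mul_div_assoc]
    refine norm_sub_le_of_le (by rw [norm_neg]; exact GG_le t0 (by linarith)) ?_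
    refine (ContinuousLinearMap.le_opNorm _ _).trans (mul_le_mul_of_nonneg_left
      (GG_le t0 (by linarith [sq_nonneg ((sol v s t).1 2)])) (norm_nonneg _))
  refine ⟨N, hN, ge_of_tendsto ((by fun_prop : Continuous fun w : E3 => w 0 ^ 2 + w 1 ^ 2).tendsto N
    |>.comp hN) ?_⟩
  filter_upwards [eventually_ge_atTop 0] with t ht using h.v1 ht

theorem sol_zero {s : ℝ} (hs : 0 < s) (hs' : s ≤ 1 / 4) :
    ∃ v ∈ Icc (3 / 2 : ℝ) 6, Tendsto (fun t => (sol v s t).2 2) atTop (𝓝 0) := by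
  by_contra hc
  push Not at hc
  obtain ⟨K, K0, hK⟩ := sol_cont s
  let C : Set ℝ := {v | ∀ t, 0 ≤ t → 0 ≤ (sol v s t).2 2}
  have h1 : ∀ v ∈ closure (interior C), v ∈ C := by
    intro v hv t ht
    have : Continuous fun v => (sol v s t).2 2 := by
      refine (LipschitzWith.of_dist_le_mul (K := ⟨Real.exp (K * t), (Real.exp_pos _).le⟩)
        fun v v' => ?_).continuous
      rw [Real.dist_eq, Real.dist_eq, mul_comm]; exact hK v v' t ht
    exact closure_minimal (fun u hu => (interior_subset hu : u ∈ C) t ht)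
      (isClosed_le continuous_const this) hv
  have h0 : (3 / 2 : ℝ) ∉ C := (sc le_rfl s).slow hs hs'
  have h2 : ∀ v ∈ Icc (3 / 2 : ℝ) 6, v ∈ C → v ∈ interior C := by
    intro v hv hC
    obtain ⟨N, hN, -⟩ := sol_lim hv.1 s
    have k1 : Tendsto (fun t => (sol v s t).2 2) atTop (𝓝 (N 2)) :=
      ((by fun_prop : Continuous fun w : E3 => w 2).tendsto N).comp hN
    have k2 : ∀ t, 0 ≤ t → N 2 ≤ (sol v s t).2 2 := fun t ht =>
      le_of_tendsto k1 ((eventually_ge_atTop t).mono fun u hu =>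
        ((sc hv.1 s).zc (T := u) (fun r hr => hC r hr.1) t ⟨ht, hu⟩).2 u ⟨hu, le_rfl⟩)
    have k3 : 0 < N 2 := lt_of_le_of_ne
      (ge_of_tendsto k1 ((eventually_ge_atTop 0).mono hC)) fun e => hc v hv (e ▸ k1)
    have k4 : 0 < 130 / N 2 := by positivity
    rw [mem_interior_iff_mem_nhds]
    filter_upwards [ball_mem_nhds v (ε := N 2 / 2 / Real.exp (K * (130 / N 2))) (by positivity),
      lt_mem_nhds (lt_of_le_of_ne hv.1 fun e => h0 (e ▸ hC))] with u hu u1 t ht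
    rw [mem_ball, Real.dist_eq, lt_div_iff₀ (Real.exp_pos _)] at hu
    have k5 : ∀ t ∈ Icc 0 (130 / N 2), N 2 / 2 ≤ (sol u s t).2 2 := fun t ht => by
      have := (hK u v t ht.1).trans (mul_le_mul_of_nonneg_left (Real.exp_le_exp.mpr
        (mul_le_mul_of_nonneg_left ht.2 K0)) (abs_nonneg _))
      linarith [(abs_le.mp this).1, k2 t ht.1]
    rcases le_total t (130 / N 2) with h3 | h3
    · linarith [k5 t ⟨ht, h3⟩]
    · have := (sc u1.le s).tail k4 h3
      have e : 65 / (130 / N 2) = N 2 / 2 := by field_simp; ring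
      linarith [k5 _ ⟨k4.le, le_rfl⟩]
  have h3 : (6 : ℝ) ∈ C := fun t ht => (sc (by norm_num) s).fast hs ht
  exact h0 (interior_subset ((isPreconnected_Icc (a := 3 / 2) (b := 6)).subset_of_closure_inter_subset
    isOpen_interior ⟨6, by norm_num, h2 6 (by norm_num) h3⟩
    (fun u hu => h2 u hu.2 (h1 u hu.1)) (by norm_num)))

theorem FF_dg {a b c : ℝ} (ha : a ^ 2 = 1) (hb : b ^ 2 = 1) (hc : c ^ 2 = 1) (w : E3) :
    FF (dg a b c w) = dg a b c (FF w) := by
  have h1 : ‖dg a b c w‖ = ‖w‖ := neq (by simp [mul_pow, ha, hb, hc])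
  have h2 : ‖dg 1 1 0 (dg a b c w)‖ = ‖dg 1 1 0 w‖ := neq (by simp [mul_pow, ha, hb])
  unfold FF GG
  rw [h1, h2]
  generalize 1 / max ‖w‖ 1 ^ 3 = p
  generalize 1 / max ‖dg 1 1 0 w‖ 1 ^ 3 = q
  apply ext3 <;> simp <;> exact Or.inl (by ring)

theorem sol_neg (v s t : ℝ) :
    sol v s (-t) = (dg 1 (-1) (-1) (sol v s t).1, -dg 1 (-1) (-1) (sol v s t).2) := by
  obtain ⟨K, hK⟩ := WW_lip
  have := ODE_solution_unique_univ (v := fun _ => WW) (s := fun _ => univ) (K := K) (t₀ := 0)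
    (f := sol v s) (g := fun t => (dg 1 (-1) (-1) (sol v s (-t)).1, -dg 1 (-1) (-1) (sol v s (-t)).2))
    (fun _ => hK.lipschitzOnWith) (fun t => ⟨sold v s t, trivial⟩) (fun t => ⟨by
      have h1 := (dg 1 (-1) (-1)).hasFDerivAt.comp_hasDerivAt t
        ((sol1 v s (-t)).scomp t (hasDerivAt_neg t))
      have h2 := ((dg 1 (-1) (-1)).hasFDerivAt.comp_hasDerivAt t
        ((sol2 v s (-t)).scomp t (hasDerivAt_neg t))).neg
      refine (h1.prodMk h2).congr_deriv ?_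
      simp [WW, FF_dg], trivial⟩) (by
      simp only [neg_zero, sol0]
      congr 1 <;> apply ext3 <;> simp)
  simpa using congrFun this (-t)

end Pool.Agent.H60.NB
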