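import Pool.Agent.H60.NBc

set_option autoImplicit false

namespace Pool.Agent.H60.NB

open Set Metric Filter Topology

abbrev C3 := Fin 3 → E3

noncomputable def mm : Fin 3 → ℝ := ![4, 4, 1 / 16]

noncomputable def AA : E3 →L[ℝ] C3 :=
  ContinuousLinearMap.pi ![dg 1 1 (1 / 129), dg (-1) (-1) (1 / 129), dg 0 0 (-128 / 129)]

theorem AA0 (w : E3) : AA w 0 = dg 1 1 (1 / 129) w := rfl
theorem AA1 (w : E3) : AA w 1 = dg (-1) (-1) (1 / 129) w := rfl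
theorem AA2 (w : E3) : AA w 2 = dg 0 0 (-128 / 129) w := rfl

noncomputable def frc (x : C3) : C3 :=
  fun i => ∑ j ∈ Finset.univ.erase i, (mm j / ‖x j - x i‖ ^ 3) • (x j - x i)

def Om : Set C3 := {x | ∀ i j, i ≠ j → x i ≠ x j}

theorem AA_mem {w : E3} (h : 0 < w 0 ^ 2 + w 1 ^ 2) : AA w ∈ Om := by
  intro i j hij e
  have e0 := congrArg (fun u : E3 => u 0) e
  have e1 := congrArg (fun u : E3 => u 1) e
  fin_cases i <;> fin_cases j <;> simp [AA0, AA1, AA2] at hij e0 e1 <;> nlinarith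

theorem frc_AA {w : E3} (h : 1 ≤ w 0 ^ 2 + w 1 ^ 2) : frc (AA w) = AA (FF w) := by
  have h1 : max ‖dg 1 1 0 w‖ 1 = ‖dg 1 1 0 w‖ := msq (by rw [nsq]; simpa using h)
  have h2 : max ‖w‖ 1 = ‖w‖ := msq (by rw [nsq]; nlinarith [sq_nonneg (w 2)])
  have n01 : ‖AA w 0 - AA w 1‖ = 2 * ‖dg 1 1 0 w‖ := by
    rw [show AA w 0 - AA w 1 = (2 : ℝ) • dg 1 1 0 w by
      apply ext3 <;> simp [AA0, AA1] <;> ring, norm_smul]; simp
  have n02 : ‖AA w 0 - AA w 2‖ = ‖w‖ := neq (by simp [AA0, AA2]; ring)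
  have n12 : ‖AA w 1 - AA w 2‖ = ‖w‖ := neq (by simp [AA1, AA2]; ring)
  have s0 : (Finset.univ : Finset (Fin 3)).erase 0 = {1, 2} := by decide
  have s1 : (Finset.univ : Finset (Fin 3)).erase 1 = {0, 2} := by decide
  have s2 : (Finset.univ : Finset (Fin 3)).erase 2 = {0, 1} := by decide
  have n10 := (norm_sub_rev _ _).trans n01
  have n20 := (norm_sub_rev _ _).trans n02
  have n21 := (norm_sub_rev _ _).trans n12
  have e : ∀ i, i = 0 ∨ i = 1 ∨ i = 2 → frc (AA w) i = AA (FF w) i := by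
    rintro i (rfl | rfl | rfl)
    · rw [frc, s0, Finset.sum_pair (by decide), n10, n20, FF, GG, GG, h1, h2]
      apply ext3 <;> simp [AA0, AA1, AA2, mm] <;> ring
    · rw [frc, s1, Finset.sum_pair (by decide), n01, n21, FF, GG, GG, h1, h2]
      apply ext3 <;> simp [AA0, AA1, AA2, mm] <;> ring
    · rw [frc, s2, Finset.sum_pair (by decide), n02, n12, FF, GG, GG, h1, h2]
      apply ext3 <;> simp [AA0, AA1, AA2, mm] <;> ring
  funext i
  exact e i (by fin_cases i <;> simp)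

def Good (γ γ' : ℝ → C3) (a b : C3) : Prop :=
  (∀ t, γ t ∈ Om) ∧ (∀ t, HasDerivAt γ (γ' t) t) ∧ (∀ t, HasDerivAt γ' (frc (γ t)) t) ∧
    a ∈ Om ∧ b ∈ Om ∧ Tendsto (fun t : ℝ => t⁻¹ • γ t) atTop (𝓝 b) ∧
    Tendsto (fun t : ℝ => |t|⁻¹ • γ t) atBot (𝓝 a)

theorem Good.uniq {γ γ' δ δ' : ℝ → C3} {a b c d : C3} (h : Good γ γ' a b) (h' : Good δ δ' c d)
    (e : γ 0 = δ 0) (e' : γ' 0 = δ' 0) : (a, b) = (c, d) := by
  have := uniq_loc (W := fun p : C3 × C3 => (p.2, frc p.1)) (f := fun t => (γ t, γ' t))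
    (g := fun t => (δ t, δ' t)) (fun t => by
      refine contDiffAt_snd.prodMk (ContDiffAt.comp (g := frc) _ ?_ contDiffAt_fst)
      refine contDiffAt_pi.mpr fun i => ContDiffAt.sum fun j hj => ?_
      have k : γ t j - γ t i ≠ 0 := sub_ne_zero.mpr (h.1 t j i (Finset.ne_of_mem_erase hj))
      have k1 : ContDiffAt ℝ 1 (fun x : C3 => x j - x i) (γ t) := by fun_prop
      exact (contDiffAt_const.div ((k1.norm ℝ k).pow 3) (pow_ne_zero 3 (norm_ne_zero_iff.mpr k))).smul k1)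
    (fun t => (h.2.1 t).prodMk (h.2.2.1 t)) (fun t => (h'.2.1 t).prodMk (h'.2.2.1 t))
    (by rw [e, e'])
  obtain rfl : γ = δ := funext fun t => congrArg Prod.fst (congrFun this t)
  rw [tendsto_nhds_unique h.2.2.2.2.2.1 h'.2.2.2.2.2.1,
    tendsto_nhds_unique h.2.2.2.2.2.2 h'.2.2.2.2.2.2]

open Classical in
noncomputable def SS (p : C3 × C3) : C3 × C3 :=
  if h : ∃ q : C3 × C3, ∃ γ γ' : ℝ → C3, γ 0 = p.1 ∧ γ' 0 = p.2 ∧ Good γ γ' q.1 q.2 then h.choose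
  else 0

theorem Good.SS {γ γ' : ℝ → C3} {a b : C3} (h : Good γ γ' a b) : SS (γ 0, γ' 0) = (a, b) := by
  have k : ∃ q : C3 × C3, ∃ δ δ' : ℝ → C3, δ 0 = (γ 0, γ' 0).1 ∧ δ' 0 = (γ 0, γ' 0).2 ∧
    Good δ δ' q.1 q.2 := ⟨(a, b), γ, γ', rfl, rfl, h⟩
  rw [NB.SS, dif_pos k]
  obtain ⟨δ, δ', e, e', h'⟩ := k.choose_spec
  exact h'.uniq h e e'

noncomputable def pp (v s : ℝ) : C3 × C3 := (AA !₂[1, 0, 0], AA !₂[0, v, s])

theorem good_sol {v : ℝ} (hv : 3 / 2 ≤ v) (s : ℝ) {ε : ℝ} (hε : ε ^ 2 = 1) {N : E3}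
    (hN : Tendsto (fun t => (sol v s t).2) atTop (𝓝 N)) (hN' : 1 / 8 ≤ N 0 ^ 2 + N 1 ^ 2) :
    ∃ γ γ' : ℝ → C3, (γ 0, γ' 0) = pp v (ε * s) ∧
      Good γ γ' (AA (dg 1 1 ε (dg 1 (-1) (-1) N))) (AA (dg 1 1 ε N)) := by
  have q : ∀ t, 1 ≤ (sol v s t).1 0 ^ 2 + (sol v s t).1 1 ^ 2 := by
    intro t
    rcases le_total 0 t with ht | ht
    · exact (sc hv s).q1 ht
    · have := (sc hv s).q1 (neg_nonneg.mpr ht)
      simpa [sol_neg] using this
  let B := AA.comp (dg 1 1 ε)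
  have l1 := lim_div (sol1 v s) hN
  refine ⟨fun t => B (sol v s t).1, fun t => B (sol v s t).2, ?_, fun t => AA_mem ?_,
    fun t => B.hasFDerivAt.comp_hasDerivAt t (sol1 v s t),
    fun t => (B.hasFDerivAt.comp_hasDerivAt t (sol2 v s t)).congr_deriv ?_, AA_mem ?_, AA_mem ?_,
    ?_, ?_⟩
  · simp only [sol0, pp, B, ContinuousLinearMap.comp_apply]
    congr 2 <;> apply ext3 <;> simp
  · simpa using one_pos.trans_le (q t)
  · simp only [B, ContinuousLinearMap.comp_apply]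
    rw [frc_AA (by simpa using q t), FF_dg (by simp) (by simp) hε]
  · simp; linarith
  · simp; linarith
  · exact ((B.continuous.tendsto N).comp l1).congr fun t => by simp
  · refine (((B.comp (dg 1 (-1) (-1))).continuous.tendsto N).comp
      (l1.comp tendsto_neg_atBot_atTop)).congr' ?_
    filter_upwards [eventually_lt_atBot 0] with t ht
    have := sol_neg v s (-t)
    rw [neg_neg] at this
    simp [abs_of_neg ht, this]

theorem pp_good {v : ℝ} (hv : 3 / 2 ≤ v) (s : ℝ) :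
    ∃ γ γ' a b, γ 0 = (pp v s).1 ∧ γ' 0 = (pp v s).2 ∧ Good γ γ' a b := by
  obtain ⟨N, h1, h2⟩ := sol_lim hv s
  obtain ⟨γ, γ', e, h⟩ := good_sol hv s (ε := 1) (by simp) h1 h2
  rw [one_mul] at e
  exact ⟨γ, γ', _, _, congrArg Prod.fst e, congrArg Prod.snd e, h⟩

theorem SS_eq {s : ℝ} (hs : 0 < s) (hs' : s ≤ 1 / 4) :
    ∃ v ∈ Icc (3 / 2 : ℝ) 6, SS (pp v s) = SS (pp v (-s)) := by
  obtain ⟨v, hv, h0⟩ := sol_zero hs hs'
  obtain ⟨N, h1, h2⟩ := sol_lim hv.1 s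
  have h3 : N 2 = 0 := tendsto_nhds_unique
    (((by fun_prop : Continuous fun w : E3 => w 2).tendsto N).comp h1) h0
  obtain ⟨γ, γ', e, h⟩ := good_sol hv.1 s (ε := 1) (by simp) h1 h2
  obtain ⟨δ, δ', e', h'⟩ := good_sol hv.1 s (ε := -1) (by simp) h1 h2
  rw [one_mul] at e
  rw [neg_one_mul] at e'
  refine ⟨v, hv, ?_⟩
  rw [← e, ← e', h.SS, h'.SS]
  congr 2 <;> apply ext3 <;> simp [h3]

theorem com (w : E3) : ∑ i, mm i • AA w i = 0 := by
  rw [Fin.sum_univ_three]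
  apply ext3 <;> simp [AA0, AA1, AA2, mm] <;> ring

theorem orth (v s : ℝ) : ∑ i, mm i * inner ℝ ((pp v s).1 i) ((pp v s).2 i) = 0 := by
  simp [Fin.sum_univ_three, pp, AA0, AA1, AA2, PiLp.inner_apply]

theorem final (P : Set (C3 × C3)) (hP : ∀ v s, 3 / 2 ≤ v → pp v s ∈ P)
    (h : ∀ p ∈ P, ∃ U, IsOpen U ∧ p ∈ U ∧ ∃ T : C3 × C3 → C3 × C3, ∀ q ∈ P ∩ U, T (SS q) = q) :
    False := by
  have c : Continuous fun z : ℝ × ℝ => pp z.2 z.1 := by unfold pp; fun_prop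
  have h1 := (isCompact_Icc (a := (3 / 2 : ℝ)) (b := 6)).eventually_forall_of_forall_eventually
    (x₀ := (0 : ℝ)) (P := fun s v => 3 / 2 ≤ v → SS (pp v s) = SS (pp v (-s)) → pp v s = pp v (-s))
    fun v hv => by
      obtain ⟨U, hU, h0, T, hT⟩ := h _ (hP v 0 hv.1)
      have c' : Continuous fun z : ℝ × ℝ => pp z.2 (-z.1) := by unfold pp; fun_prop
      filter_upwards [c.continuousAt.eventually (hU.mem_nhds (x := pp v 0) h0),
        c'.continuousAt.eventually (hU.mem_nhds (by simpa using h0))] with z h2 h3 h4 e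
      rw [← hT _ ⟨hP _ _ h4, h2⟩, e, hT _ ⟨hP _ _ h4, h3⟩]
  obtain ⟨s, h2, h3⟩ := ((h1.filter_mono nhdsWithin_le_nhds).and
    (Ioc_mem_nhdsGT (show (0 : ℝ) < 1 / 4 by norm_num))).exists
  obtain ⟨v, hv, e⟩ := SS_eq h3.1 h3.2
  have := congrArg (fun p : C3 × C3 => p.2 0 2) (h2 v hv hv.1 e)
  simp [pp, AA0] at this
  linarith [h3.1]

end Pool.Agent.H60.NB
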