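import Mathlib

set_option autoImplicit false

namespace Pool.Agent.H60.NDens

open Filter Topology

/-- Number of elements of `S` in `[1, N]`. -/
noncomputable def cnt (S : Set ℕ) (N : ℕ) : ℕ := (S ∩ Set.Icc 1 N).ncard

/-- `S` has natural density `d`. -/
def HasDens (S : Set ℕ) (d : ℝ) : Prop :=
  Tendsto (fun N : ℕ => (cnt S N : ℝ) / (N : ℝ)) atTop (𝓝 d)

lemma fin (S : Set ℕ) (N : ℕ) : (S ∩ Set.Icc 1 N).Finite :=
  (Set.finite_Icc 1 N).subset Set.inter_subset_right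

lemma cnt_union {S T : Set ℕ} (h : Disjoint S T) (N : ℕ) :
    cnt (S ∪ T) N = cnt S N + cnt T N := by
  unfold cnt
  rw [Set.union_inter_distrib_right]
  exact Set.ncard_union_eq (h.mono Set.inter_subset_left Set.inter_subset_left) (fin S N) (fin T N)

lemma cnt_mono {S T : Set ℕ} (h : S ⊆ T) (N : ℕ) : cnt S N ≤ cnt T N :=
  Set.ncard_le_ncard (Set.inter_subset_inter_left _ h) (fin T N)

lemma cnt_union_le (S T : Set ℕ) (N : ℕ) : cnt (S ∪ T) N ≤ cnt S N + cnt T N := by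
  unfold cnt
  rw [Set.union_inter_distrib_right]
  exact Set.ncard_union_le _ _

lemma cnt_biUnion_le {ι : Type*} (s : Finset ι) (f : ι → Set ℕ) (N : ℕ) :
    cnt (⋃ i ∈ s, f i) N ≤ ∑ i ∈ s, cnt (f i) N := by
  classical
  induction s using Finset.induction_on with
  | empty => simp [cnt]
  | insert a s ha ih =>
    rw [Finset.sum_insert ha, Finset.set_biUnion_insert]
    exact (cnt_union_le _ _ N).trans (by omega)

lemma cnt_diff {S T : Set ℕ} (h : T ⊆ S) (N : ℕ) : cnt (S \ T) N + cnt T N = cnt S N := by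
  rw [← cnt_union Set.disjoint_sdiff_left, Set.diff_union_of_subset h]

lemma HasDens.union {S T : Set ℕ} {d e : ℝ} (hS : HasDens S d) (hT : HasDens T e)
    (h : Disjoint S T) : HasDens (S ∪ T) (d + e) := by
  have := Tendsto.add hS hT
  refine this.congr fun N => ?_
  rw [cnt_union h]; push_cast; ring

lemma HasDens.diff {S T : Set ℕ} {d e : ℝ} (hS : HasDens S d) (hT : HasDens T e)
    (h : T ⊆ S) : HasDens (S \ T) (d - e) := by
  have := Tendsto.sub hS hT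
  refine this.congr fun N => ?_
  rw [← cnt_diff h N]; push_cast; ring

lemma hasDens_empty : HasDens ∅ 0 := by
  unfold HasDens cnt
  simp

lemma HasDens.biUnion {ι : Type*} (s : Finset ι) (f : ι → Set ℕ) (d : ι → ℝ)
    (hd : ∀ i ∈ s, HasDens (f i) (d i))
    (hdis : ∀ i ∈ s, ∀ j ∈ s, i ≠ j → Disjoint (f i) (f j)) :
    HasDens (⋃ i ∈ s, f i) (∑ i ∈ s, d i) := by
  classical
  induction s using Finset.induction_on with
  | empty => simpa using hasDens_empty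
  | insert a s ha ih =>
    rw [Finset.sum_insert ha, Finset.set_biUnion_insert]
    refine HasDens.union (hd a (by simp)) (ih (fun i hi => hd i (by simp [hi]))
      (fun i hi j hj => hdis i (by simp [hi]) j (by simp [hj]))) ?_
    rw [Set.disjoint_iUnion₂_right]
    intro i hi
    exact hdis a (by simp) i (by simp [hi]) (fun h => ha (h ▸ hi))

lemma cnt_dil (H : Set ℕ) {s : ℕ} (hs : 0 < s) (N : ℕ) :
    cnt ((fun m => s * m) '' H) N = cnt H (N / s) := by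
  unfold cnt
  have : ((fun m => s * m) '' H) ∩ Set.Icc 1 N = (fun m => s * m) '' (H ∩ Set.Icc 1 (N / s)) := by
    ext n
    constructor
    · rintro ⟨⟨m, hm, rfl⟩, h1, h2⟩
      refine ⟨m, ⟨hm, ?_, ?_⟩, rfl⟩
      · rcases Nat.eq_zero_or_pos m with h | h
        · subst h; simp at h1
        · exact h
      · rw [Nat.le_div_iff_mul_le hs]; simpa [mul_comm] using h2
    · rintro ⟨m, ⟨hm, h1, h2⟩, rfl⟩
      refine ⟨⟨m, hm, rfl⟩, Nat.mul_pos hs h1, ?_⟩
      rw [Nat.le_div_iff_mul_le hs] at h2; simpa [mul_comm] using h2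
  rw [this, Set.ncard_image_of_injective _ (mul_right_injective₀ hs.ne')]

lemma tendsto_div_nat {s : ℕ} (hs : 0 < s) :
    Tendsto (fun N : ℕ => ((N / s : ℕ) : ℝ) / (N : ℝ)) atTop (𝓝 (1 / (s : ℝ))) := by
  have hs' : (0 : ℝ) < s := by exact_mod_cast hs
  have h1 : Tendsto (fun N : ℕ => 1 / (s : ℝ) - 1 / (N : ℝ)) atTop (𝓝 (1 / (s : ℝ))) := by
    simpa using (tendsto_const_nhds (x := 1 / (s : ℝ))).sub tendsto_one_div_atTop_nhds_zero_nat
  refine tendsto_of_tendsto_of_tendsto_of_le_of_le' h1 tendsto_const_nhds ?_ ?_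
  · filter_upwards [eventually_gt_atTop 0] with N hN
    have hN' : (0 : ℝ) < N := by exact_mod_cast hN
    have h2 : N < s * (N / s) + s := by
      have := Nat.div_add_mod N s
      have := Nat.mod_lt N hs
      omega
    have h3 : (N : ℝ) ≤ s * ((N / s : ℕ) : ℝ) + s := by exact_mod_cast h2.le
    rw [le_div_iff₀ hN', sub_mul, one_div_mul_cancel hN'.ne', sub_le_iff_le_add,
      one_div, inv_mul_le_iff₀ hs']
    linarith
  · filter_upwards [eventually_gt_atTop 0] with N hN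
    have hN' : (0 : ℝ) < N := by exact_mod_cast hN
    rw [div_le_div_iff₀ hN' hs']
    have h3 : ((N / s : ℕ) : ℝ) * s ≤ N := by exact_mod_cast Nat.div_mul_le_self N s
    linarith

lemma HasDens.dil {H : Set ℕ} {η : ℝ} (h : HasDens H η) {s : ℕ} (hs : 0 < s) :
    HasDens ((fun m => s * m) '' H) (η / s) := by
  have h1 : Tendsto (fun N : ℕ => N / s) atTop atTop :=
    Nat.tendsto_div_const_atTop hs.ne'
  have h2 := (h.comp h1).mul (tendsto_div_nat hs)
  rw [mul_one_div] at h2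
  refine h2.congr' ?_
  filter_upwards [eventually_ge_atTop s] with N hN
  have : (0 : ℝ) < ((N / s : ℕ) : ℝ) := by exact_mod_cast Nat.div_pos hN hs
  simp only [Function.comp]
  rw [cnt_dil H hs]
  field_simp

lemma cnt_le (S : Set ℕ) (N : ℕ) : cnt S N ≤ N := by
  have : cnt S N ≤ (Set.Icc 1 N).ncard :=
    Set.ncard_le_ncard Set.inter_subset_right (Set.finite_Icc 1 N)
  simpa using this

lemma cnt_add_period {S : Set ℕ} {L : ℕ} (hp : ∀ n, n + L ∈ S ↔ n ∈ S) (N : ℕ) :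
    cnt S (N + L) = cnt S N + cnt S L := by
  unfold cnt
  have h1 : S ∩ Set.Icc 1 (N + L) = (S ∩ Set.Icc 1 L) ∪ (fun n => n + L) '' (S ∩ Set.Icc 1 N) := by
    ext n
    constructor
    · rintro ⟨hn, h1, h2⟩
      by_cases h : n ≤ L
      · exact Or.inl ⟨hn, h1, h⟩
      · refine Or.inr ⟨n - L, ⟨?_, by omega, by omega⟩, by simp; omega⟩
        rw [← hp]; rwa [Nat.sub_add_cancel (by omega)]
    · rintro (⟨hn, h1, h2⟩ | ⟨m, ⟨hm, h1, h2⟩, rfl⟩)
      · exact ⟨hn, h1, by omega⟩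
      · exact ⟨(hp m).2 hm, by simp; omega, by simp; omega⟩
  rw [h1, Set.ncard_union_eq _ (fin S L) ((fin S N).image _),
    Set.ncard_image_of_injective _ (add_left_injective L), add_comm]
  rw [Set.disjoint_left]
  rintro n ⟨_, _, h2⟩ ⟨m, ⟨_, h1, _⟩, rfl⟩
  simp at h2; omega

lemma periodic_dens {S : Set ℕ} {L : ℕ} (hL : 0 < L) (hp : ∀ n, n + L ∈ S ↔ n ∈ S) :
    HasDens S ((cnt S L : ℝ) / L) := by
  have key : ∀ t r, cnt S (r + t * L) = cnt S r + t * cnt S L := by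
    intro t r
    induction t with
    | zero => simp
    | succ t ih => rw [Nat.succ_mul, ← add_assoc, cnt_add_period hp, ih]; ring
  have h0 : Tendsto (fun N : ℕ => (L : ℝ) / (N : ℝ)) atTop (𝓝 0) :=
    tendsto_const_div_atTop_nhds_zero_nat _
  have h1 := (tendsto_div_nat hL).mul_const (cnt S L : ℝ)
  rw [one_div_mul_eq_div] at h1
  have h2 := h1.add h0
  rw [add_zero] at h2
  refine tendsto_of_tendsto_of_tendsto_of_le_of_le' h1 h2 ?_ ?_
  · filter_upwards [eventually_gt_atTop 0] with N hN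
    have hN' : (0 : ℝ) < N := by exact_mod_cast hN
    have e := key (N / L) (N % L)
    rw [Nat.mod_add_div'] at e
    rw [e, div_mul_eq_mul_div]
    gcongr
    push_cast
    have : (0 : ℝ) ≤ cnt S (N % L) := by positivity
    linarith
  · filter_upwards [eventually_gt_atTop 0] with N hN
    have hN' : (0 : ℝ) < N := by exact_mod_cast hN
    have e := key (N / L) (N % L)
    rw [Nat.mod_add_div'] at e
    rw [e, div_mul_eq_mul_div, ← add_div]
    gcongr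
    push_cast
    have h3 : cnt S (N % L) ≤ L := (cnt_le S _).trans (Nat.mod_lt N hL).le
    have : (cnt S (N % L) : ℝ) ≤ L := by exact_mod_cast h3
    linarith

lemma approx_dens {S : Set ℕ}
    (h : ∀ ε : ℝ, 0 < ε → ∃ (T : Set ℕ) (d : ℝ), HasDens T d ∧ S ⊆ T ∧
      ∀ N, (cnt (T \ S) N : ℝ) ≤ ε * N) : ∃ d, HasDens S d := by
  apply cauchySeq_tendsto_of_complete
  rw [Metric.cauchySeq_iff]
  intro ε hε
  obtain ⟨T, d, hT, hST, hc⟩ := h (ε / 4) (by positivity)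
  obtain ⟨N₀, hN₀⟩ := (Metric.tendsto_atTop.1 hT) (ε / 4) (by positivity)
  have key : ∀ N, N₀ + 1 ≤ N → |(cnt S N : ℝ) / N - d| < ε / 2 := by
    intro N hN
    have hN' : (0 : ℝ) < N := by exact_mod_cast (by omega : 0 < N)
    have h1 := hN₀ N (by omega)
    rw [Real.dist_eq, ← cnt_diff hST N] at h1
    push_cast at h1
    have h2 : (cnt (T \ S) N : ℝ) / N ≤ ε / 4 := by rw [div_le_iff₀ hN']; exact hc N
    have h3 : 0 ≤ (cnt (T \ S) N : ℝ) / N := by positivity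
    rw [add_div] at h1
    rw [abs_lt] at h1 ⊢
    constructor <;> linarith [h1.1, h1.2]
  refine ⟨N₀ + 1, fun m hm n hn => ?_⟩
  have h1 := key m hm
  have h2 := key n hn
  rw [Real.dist_eq]
  rw [abs_lt] at h1 h2 ⊢
  constructor <;> linarith [h1.1, h1.2, h2.1, h2.2]

lemma cnt_le_of_modEq {S : Set ℕ} {L : ℕ} (h : ∀ a ∈ S, ∀ b ∈ S, a ≡ b [MOD L]) (N : ℕ) :
    cnt S N ≤ N / L + 1 := by
  unfold cnt
  have : (S ∩ Set.Icc 1 N).ncard ≤ (Set.Iio (N / L + 1)).ncard := by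
    refine Set.ncard_le_ncard_of_injOn (fun m => m / L) ?_ ?_ (Set.finite_Iio _)
    · rintro m ⟨_, _, h2⟩
      exact Nat.lt_succ_of_le (Nat.div_le_div_right h2)
    · rintro a ⟨ha, _⟩ b ⟨hb, _⟩ hab
      have h1 := h a ha b hb
      unfold Nat.ModEq at h1
      simp only at hab
      rw [← Nat.div_add_mod a L, ← Nat.div_add_mod b L, h1, hab]
  simpa using this

lemma cnt_mult_le {k : ℕ} (hk : 0 < k) (N : ℕ) : cnt {m | k ∣ m} N ≤ N / k := by
  have : {m | k ∣ m} = (fun m => k * m) '' Set.univ := by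
    ext m; simp [Dvd.dvd, eq_comm]
  rw [this, cnt_dil _ hk]
  exact cnt_le _ _

lemma cnt_one_mod_ge {q : ℕ} (hq : 0 < q) (N : ℕ) : N / q ≤ cnt {m | m ≡ 1 [MOD q]} N := by
  unfold cnt
  have : (Set.Iio (N / q)).ncard ≤ ({m | m ≡ 1 [MOD q]} ∩ Set.Icc 1 N).ncard := by
    refine Set.ncard_le_ncard_of_injOn (fun j => q * j + 1) ?_ ?_ (fin _ _)
    · intro j hj
      refine ⟨?_, by omega, ?_⟩
      · show q * j + 1 ≡ 1 [MOD q]
        unfold Nat.ModEq
        rw [Nat.mul_add_mod]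
      · have h1 : j + 1 ≤ N / q := hj
        rw [Nat.le_div_iff_mul_le hq] at h1
        nlinarith
    · intro a _ b _ hab
      simp only [add_left_inj] at hab
      exact Nat.eq_of_mul_eq_mul_left hq hab
  simpa using this

/-- Squarefree numbers that are `1` modulo `q`. -/
def SF (q : ℕ) : Set ℕ := {m | m ≡ 1 [MOD q] ∧ Squarefree m}

lemma tail_le (Y N : ℕ) (hY : 0 < Y) :
    (cnt (⋃ k ∈ Finset.Ioc Y N, {m | k * k ∣ m}) N : ℝ) ≤ N / Y := by
  have h1 := cnt_biUnion_le (Finset.Ioc Y N) (fun k => {m | k * k ∣ m}) N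
  have h2 : (cnt (⋃ k ∈ Finset.Ioc Y N, {m | k * k ∣ m}) N : ℝ)
      ≤ ∑ k ∈ Finset.Ioc Y N, (N : ℝ) * ((k : ℝ) ^ 2)⁻¹ := by
    refine le_trans (Nat.cast_le.2 h1) ?_
    push_cast
    refine Finset.sum_le_sum fun k hk => ?_
    have hk0 : 0 < k := by have := (Finset.mem_Ioc.1 hk).1; omega
    have h3 : (cnt {m | k * k ∣ m} N : ℝ) ≤ ((N / (k * k) : ℕ) : ℝ) := by
      exact_mod_cast cnt_mult_le (Nat.mul_pos hk0 hk0) N
    refine h3.trans (Nat.cast_div_le.trans (le_of_eq ?_))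
    push_cast; rw [div_eq_mul_inv, sq]
  rw [← Finset.mul_sum] at h2
  refine h2.trans ?_
  by_cases hYN : Y ≤ N
  · have h4 := sum_Ioc_inv_sq_le_sub (α := ℝ) hY.ne' hYN
    have h5 : (0 : ℝ) ≤ (N : ℝ)⁻¹ := by positivity
    rw [div_eq_mul_inv]
    gcongr
    linarith
  · rw [Finset.Ioc_eq_empty (by omega)]
    simp only [Finset.sum_empty, mul_zero]
    positivity

lemma exists_sq_of_not_squarefree {m : ℕ} (h : ¬ Squarefree m) : ∃ k, 2 ≤ k ∧ k * k ∣ m := by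
  rw [Nat.squarefree_iff_prime_squarefree] at h
  push Not at h
  obtain ⟨p, hp, hd⟩ := h
  exact ⟨p, hp.two_le, hd⟩

lemma SF_exists (q : ℕ) (hq : 0 < q) : ∃ d, HasDens (SF q) d := by
  apply approx_dens
  intro ε hε
  obtain ⟨Y, hY⟩ := exists_nat_gt (1 / ε)
  have hY0' : (0 : ℝ) < Y := lt_trans (by positivity) hY
  have hY0 : 0 < Y := by exact_mod_cast hY0'
  refine ⟨{m | m ≡ 1 [MOD q] ∧ ∀ k, 2 ≤ k → k ≤ Y → ¬ k * k ∣ m}, _,
    periodic_dens (L := q * (Y.factorial * Y.factorial)) (by positivity) ?_, ?_, ?_⟩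
  · intro n
    have h1 : n + q * (Y.factorial * Y.factorial) ≡ n [MOD q] := by
      unfold Nat.ModEq; rw [Nat.add_mul_mod_self_left]
    have h2 : ∀ k, 2 ≤ k → k ≤ Y → (k * k ∣ n + q * (Y.factorial * Y.factorial) ↔ k * k ∣ n) := by
      intro k hk hkY
      have : k ∣ Y.factorial := Nat.dvd_factorial (by omega) hkY
      exact (Nat.dvd_add_iff_left ((Nat.mul_dvd_mul this this).mul_left q)).symm
    constructor
    · rintro ⟨a, b⟩
      exact ⟨h1.symm.trans a, fun k hk hkY hd => b k hk hkY ((h2 k hk hkY).2 hd)⟩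
    · rintro ⟨a, b⟩
      exact ⟨h1.trans a, fun k hk hkY hd => b k hk hkY ((h2 k hk hkY).1 hd)⟩
  · rintro m ⟨a, b⟩
    refine ⟨a, fun k hk _ hd => ?_⟩
    have := b k hd
    rw [Nat.isUnit_iff] at this
    omega
  · intro N
    have h1 : cnt ({m | m ≡ 1 [MOD q] ∧ ∀ k, 2 ≤ k → k ≤ Y → ¬ k * k ∣ m} \ SF q) N
        ≤ cnt (⋃ k ∈ Finset.Ioc Y N, {m | k * k ∣ m}) N := by
      refine Set.ncard_le_ncard ?_ (fin _ _)
      rintro m ⟨⟨⟨a, b⟩, c⟩, h1, h2⟩
      refine ⟨?_, h1, h2⟩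
      obtain ⟨k, hk, hd⟩ := exists_sq_of_not_squarefree (m := m) (fun h => c ⟨a, h⟩)
      simp only [Set.mem_iUnion, Finset.mem_Ioc, Set.mem_setOf_eq]
      refine ⟨k, ⟨?_, ?_⟩, hd⟩
      · by_contra h
        exact b k hk (by omega) hd
      · have := Nat.le_of_dvd h1 hd
        nlinarith
    have h2 := tail_le Y N hY0
    have h3 : (N : ℝ) / Y ≤ ε * N := by
      rw [div_le_iff₀ hY0']
      rw [div_lt_iff₀ hε] at hY
      have : (0 : ℝ) ≤ N := by positivity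
      nlinarith
    exact le_trans (by exact_mod_cast h1) (h2.trans h3)

lemma SF_lower (q : ℕ) (hq : 0 < q) (N : ℕ) :
    (N : ℝ) / (8 * q) - (8 * q + 1) ≤ cnt (SF q) N := by
  set Y := 8 * q with hY
  have hq' : (0 : ℝ) < q := by exact_mod_cast hq
  have hsub : {m | m ≡ 1 [MOD q]} ∩ Set.Icc 1 N ⊆
      (SF q ∪ ((⋃ k ∈ Finset.Ioc 1 Y, {m | m ≡ 1 [MOD q] ∧ k * k ∣ m}) ∪
        ⋃ k ∈ Finset.Ioc Y N, {m | k * k ∣ m})) ∩ Set.Icc 1 N := by
    rintro m ⟨a, h1, h2⟩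
    refine ⟨?_, h1, h2⟩
    by_cases hs : Squarefree m
    · exact Or.inl ⟨a, hs⟩
    · obtain ⟨k, hk, hd⟩ := exists_sq_of_not_squarefree hs
      right
      simp only [Set.mem_union, Set.mem_iUnion, Finset.mem_Ioc, Set.mem_setOf_eq]
      by_cases hkY : k ≤ Y
      · exact Or.inl ⟨k, ⟨by omega, hkY⟩, a, hd⟩
      · refine Or.inr ⟨k, ⟨by omega, ?_⟩, hd⟩
        have := Nat.le_of_dvd h1 hd
        nlinarith
  have h1 : cnt {m | m ≡ 1 [MOD q]} N ≤ _ := Set.ncard_le_ncard hsub (fin _ _)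
  have h2 := cnt_union_le (SF q) ((⋃ k ∈ Finset.Ioc 1 Y, {m | m ≡ 1 [MOD q] ∧ k * k ∣ m}) ∪
        ⋃ k ∈ Finset.Ioc Y N, {m | k * k ∣ m}) N
  have h3 := cnt_union_le (⋃ k ∈ Finset.Ioc 1 Y, {m | m ≡ 1 [MOD q] ∧ k * k ∣ m})
        (⋃ k ∈ Finset.Ioc Y N, {m | k * k ∣ m}) N
  have h4 := tail_le Y N (by omega)
  have h5 := cnt_biUnion_le (Finset.Ioc 1 Y) (fun k => {m | m ≡ 1 [MOD q] ∧ k * k ∣ m}) N
  have h6 : ∀ k ∈ Finset.Ioc 1 Y, (cnt {m | m ≡ 1 [MOD q] ∧ k * k ∣ m} N : ℝ)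
      ≤ (N : ℝ) / q * ((k : ℝ) ^ 2)⁻¹ + 1 := by
    intro k hk
    have hk0 : 0 < k := by have := (Finset.mem_Ioc.1 hk).1; omega
    have h7 := cnt_le_of_modEq (S := {m | m ≡ 1 [MOD q] ∧ k * k ∣ m}) (L := q * (k * k)) (by
      rintro a ⟨ha, ha'⟩ b ⟨hb, hb'⟩
      have hc : Nat.Coprime q (k * k) := by
        have : Nat.Coprime a q := by
          have := ha.gcd_eq
          unfold Nat.Coprime
          rw [this]; simp
        exact (Nat.Coprime.coprime_dvd_left ha' this).symm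
      rw [← Nat.modEq_and_modEq_iff_modEq_mul hc]
      exact ⟨ha.trans hb.symm, ((Nat.modEq_zero_iff_dvd.2 ha').trans
        (Nat.modEq_zero_iff_dvd.2 hb').symm)⟩) N
    have h8 : (cnt {m | m ≡ 1 [MOD q] ∧ k * k ∣ m} N : ℝ) ≤ ((N / (q * (k * k)) : ℕ) : ℝ) + 1 := by
      exact_mod_cast h7
    refine h8.trans ?_
    have h9 : ((N / (q * (k * k)) : ℕ) : ℝ) ≤ (N : ℝ) / q * ((k : ℝ) ^ 2)⁻¹ := by
      refine Nat.cast_div_le.trans (le_of_eq ?_)
      push_cast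
      have : (0 : ℝ) < k := by exact_mod_cast hk0
      field_simp
    linarith
  have h10 : ∑ k ∈ Finset.Ioc 1 Y, ((k : ℝ) ^ 2)⁻¹ ≤ 3 / 4 := by
    have hY2 : 2 ≤ Y := by omega
    rw [← Finset.sum_Ioc_consecutive _ (by norm_num : 1 ≤ 2) hY2]
    have h11 := sum_Ioc_inv_sq_le_sub (α := ℝ) (k := 2) (by norm_num) hY2
    have h12 : (0 : ℝ) ≤ (Y : ℝ)⁻¹ := by positivity
    have h13 : ∑ k ∈ Finset.Ioc (1 : ℕ) 2, ((k : ℝ) ^ 2)⁻¹ = 1 / 4 := by
      rw [show Finset.Ioc (1 : ℕ) 2 = {2} by decide]; norm_num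
    push_cast at h11
    linarith
  have h14 : (cnt (⋃ k ∈ Finset.Ioc 1 Y, {m | m ≡ 1 [MOD q] ∧ k * k ∣ m}) N : ℝ)
      ≤ (N : ℝ) / q * (3 / 4) + Y := by
    refine le_trans (Nat.cast_le.2 h5) ?_
    push_cast
    refine (Finset.sum_le_sum h6).trans ?_
    rw [Finset.sum_add_distrib, ← Finset.mul_sum]
    simp only [Finset.sum_const, Nat.card_Ioc, nsmul_eq_mul, mul_one]
    have h15 : ((Y - 1 : ℕ) : ℝ) ≤ Y := by exact_mod_cast Nat.sub_le Y 1
    have h16 : (0 : ℝ) ≤ (N : ℝ) / q := by positivity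
    nlinarith
  have h17 : (N : ℝ) / q - 1 ≤ ((N / q : ℕ) : ℝ) := by
    have h2 : N < q * (N / q) + q := by
      have := Nat.div_add_mod N q
      have := Nat.mod_lt N hq
      omega
    have h3 : (N : ℝ) ≤ q * ((N / q : ℕ) : ℝ) + q := by exact_mod_cast h2.le
    rw [sub_le_iff_le_add, div_le_iff₀ hq']
    linarith
  have h18 : ((N / q : ℕ) : ℝ) ≤ cnt {m | m ≡ 1 [MOD q]} N := by
    exact_mod_cast cnt_one_mod_ge hq N
  have h19 : (cnt {m | m ≡ 1 [MOD q]} N : ℝ) ≤ cnt (SF q) N +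
      (cnt (⋃ k ∈ Finset.Ioc 1 Y, {m | m ≡ 1 [MOD q] ∧ k * k ∣ m}) N +
        cnt (⋃ k ∈ Finset.Ioc Y N, {m | k * k ∣ m}) N) := by
    have : cnt {m | m ≡ 1 [MOD q]} N ≤ cnt (SF q) N +
      (cnt (⋃ k ∈ Finset.Ioc 1 Y, {m | m ≡ 1 [MOD q] ∧ k * k ∣ m}) N +
        cnt (⋃ k ∈ Finset.Ioc Y N, {m | k * k ∣ m}) N) := le_trans h1 (le_trans h2 (by omega))
    exact_mod_cast this
  have hYc : (Y : ℝ) = 8 * q := by rw [hY]; push_cast; ring
  rw [hYc] at h4 h14
  have e1 : (N : ℝ) / (8 * q) = (N : ℝ) / q / 8 := by field_simp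
  rw [e1] at h4 ⊢
  linarith

theorem SF_dens (q : ℕ) (hq : 0 < q) : ∃ η, 0 < η ∧ HasDens (SF q) η := by
  obtain ⟨d, hd⟩ := SF_exists q hq
  have hq' : (0 : ℝ) < q := by exact_mod_cast hq
  refine ⟨d, lt_of_lt_of_le (by positivity : (0 : ℝ) < 1 / (8 * q)) ?_, hd⟩
  have h0 : Tendsto (fun N : ℕ => 1 / (8 * (q : ℝ)) - (8 * q + 1) / (N : ℝ)) atTop
      (𝓝 (1 / (8 * (q : ℝ)))) := by
    simpa using (tendsto_const_nhds (x := 1 / (8 * (q : ℝ)))).sub
      (tendsto_const_div_atTop_nhds_zero_nat (8 * (q : ℝ) + 1))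
  refine le_of_tendsto_of_tendsto h0 hd ?_
  filter_upwards [eventually_gt_atTop 0] with N hN
  have hN' : (0 : ℝ) < N := by exact_mod_cast hN
  have := SF_lower q hq N
  rw [le_div_iff₀ hN', sub_mul, div_mul_cancel₀ _ hN'.ne', one_div_mul_eq_div]
  exact this

end Pool.Agent.H60.NDens
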