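import Mathlib
import Pool.Prelude.Def_F_09379136
import Pool.Agent.H60.ExpDD

namespace Pool.Agent.H60.NewPrimes

open Finset N129f076f

lemma card_primeFactors_lt (m e : ℕ) (hm : m ≠ 0) (h : m < 2 ^ e) : m.primeFactors.card < e := by
  have h1 : 2 ^ m.primeFactors.card ≤ ∏ p ∈ m.primeFactors, p :=
    Finset.pow_card_le_prod _ _ _ fun p hp => (Nat.prime_of_mem_primeFactors hp).two_le
  have h2 := Nat.le_of_dvd (Nat.pos_of_ne_zero hm) (Nat.prod_primeFactors_dvd m)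
  exact (Nat.pow_lt_pow_iff_right (by norm_num)).1 (h1.trans h2 |>.trans_lt h)

lemma pi_lower (Y ℓ : ℕ) (hY : 1 ≤ Y) (h : Y + 1 ≤ 2 ^ ℓ) :
    Y ≤ ℓ * ((Nat.primesLE Y).card + 1) := by
  have h1 := Chebyshev.two_pow_le_mul_lcmUpto Y
  have h2 : Nat.lcmUpto Y ≤ (2 ^ ℓ) ^ (Nat.primesLE Y).card := by
    rw [Nat.lcmUpto_eq_prod_pow_log]
    exact Finset.prod_le_pow_card _ _ _ fun p _ =>
      (Nat.pow_log_le_self p (by omega)).trans (by omega)
  have h3 : 2 ^ Y ≤ 2 ^ (ℓ * ((Nat.primesLE Y).card + 1)) := by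
    calc 2 ^ Y ≤ 2 ^ ℓ * (2 ^ ℓ) ^ (Nat.primesLE Y).card := h1.trans (Nat.mul_le_mul h h2)
      _ = _ := by rw [← pow_mul, ← pow_add]; congr 1; ring
  exact (Nat.pow_le_pow_iff_right (by norm_num)).1 h3

/-- A large set of smooth numbers in the window. -/
lemma exists_smooth (l n Y E : ℕ) (hn : 1 ≤ n) (hE : n + l ≤ 2 ^ E)
    (hv : ∀ k, l ≤ k → v n k ≤ 1) :
    ∃ T : Finset ℕ, (Nat.primesLE Y).card ≤ T.card + l * E ∧ (∀ k ∈ T, k < Y) ∧
      ∀ k ∈ T, ∀ p, p.Prime → p ∣ n + k → p ∈ Nat.primesLE Y := by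
  classical
  have hex : ∀ q : ℕ, ∃ k : ℕ, q.Prime → (q ∣ n + k ∧ k < q ∧ ∀ i < k, ¬ q ∣ n + i) := by
    intro q
    by_cases hq : q.Prime
    · have h1 : ∃ k, q ∣ n + k := ⟨n * (q - 1), ⟨n, by
        obtain ⟨q', rfl⟩ : ∃ q', q = q' + 1 := ⟨q - 1, by have := hq.pos; omega⟩
        simp; ring⟩⟩
      refine ⟨Nat.find h1, fun _ => ⟨Nat.find_spec h1, ?_, fun i hi => Nat.find_min h1 hi⟩⟩
      by_contra hc
      push Not at hc
      have h2 := Nat.find_spec h1
      have h3 : q ∣ n + (Nat.find h1 - q) := by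
        have : n + Nat.find h1 = n + (Nat.find h1 - q) + q := by omega
        rw [this] at h2
        exact (Nat.dvd_add_left dvd_rfl).1 h2
      exact Nat.find_min h1 (by have := hq.pos; omega) h3
    · exact ⟨0, fun h => absurd h hq⟩
  choose kq hkq using hex
  set Q := (Nat.primesLE Y).filter (fun q => ∀ i < l, ¬ q ∣ n + i) with hQ
  have hQp : ∀ q ∈ Q, q.Prime ∧ q ≤ Y ∧ l ≤ kq q := by
    intro q hq
    rw [hQ, mem_filter] at hq
    have hp := Nat.prime_of_mem_primesLE hq.1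
    refine ⟨hp, Nat.le_of_mem_primesLE hq.1, ?_⟩
    by_contra hc
    exact hq.2 _ (by omega) (hkq q hp).1
  have huniq : ∀ q ∈ Q, ∀ p, p.Prime → p ∣ n + kq q → (∀ i < kq q, ¬ p ∣ n + i) → p = q := by
    intro q hq p hp h1 h2
    obtain ⟨hqp, -, hl⟩ := hQp q hq
    have := hv _ hl
    unfold v at this
    refine card_le_one.1 this p ?_ q ?_
    · rw [mem_filter]
      exact ⟨Nat.mem_primeFactors.2 ⟨hp, h1, by omega⟩, fun i hi => h2 i (mem_range.1 hi)⟩
    · rw [mem_filter]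
      exact ⟨Nat.mem_primeFactors.2 ⟨hqp, (hkq q hqp).1, by omega⟩,
        fun i hi => (hkq q hqp).2.2 i (mem_range.1 hi)⟩
  refine ⟨Q.image kq, ?_, ?_, ?_⟩
  · rw [card_image_of_injOn]
    · have h1 : Nat.primesLE Y ⊆ Q ∪ (range l).biUnion (fun i => (n + i).primeFactors) := by
        intro q hq
        rw [mem_union, hQ, mem_filter, mem_biUnion]
        by_cases h : ∀ i < l, ¬ q ∣ n + i
        · exact Or.inl ⟨hq, h⟩
        · push Not at h
          obtain ⟨i, hi, hd⟩ := h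
          exact Or.inr ⟨i, mem_range.2 hi,
            Nat.mem_primeFactors.2 ⟨Nat.prime_of_mem_primesLE hq, hd, by omega⟩⟩
      refine (card_le_card h1).trans ((card_union_le _ _).trans (Nat.add_le_add_left ?_ _))
      refine (card_biUnion_le_card_mul _ _ E fun i hi => ?_).trans (by rw [card_range])
      rw [mem_range] at hi
      exact (card_primeFactors_lt _ _ (by omega) (by omega)).le
    · intro q hq q' hq' h
      have hp := (hQp q hq).1
      exact huniq q' hq' q hp (h ▸ (hkq q hp).1) (h ▸ (hkq q hp).2.2)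
  · intro k hk
    obtain ⟨q, hq, rfl⟩ := mem_image.1 hk
    have := hQp q hq
    have := (hkq q this.1).2.1
    omega
  · intro k hk p hp hd
    obtain ⟨q, hq, rfl⟩ := mem_image.1 hk
    have h1 := hQp q hq
    have h2 := (hkq q h1.1).2.1
    rw [Nat.mem_primesLE]
    refine ⟨?_, hp⟩
    by_cases h3 : p ≤ kq q
    · omega
    · rw [huniq q hq p hp hd fun i hi hc => ?_]
      · exact h1.2.1
      · have : p ∣ kq q - i := by
          have := Nat.dvd_sub hd hc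
          rwa [show n + kq q - (n + i) = kq q - i by omega] at this
        have := Nat.le_of_dvd (by omega) this
        omega

/-- Many members of a smooth window are a small cofactor times a prime power. -/
lemma exists_good (n Y ℓ H : ℕ) (hn : 2 ^ H ≤ n) (hY : Y ≤ 2 ^ ℓ) (T : Finset ℕ)
    (hT : T.Nonempty) (hTY : ∀ k ∈ T, k < Y)
    (hsm : ∀ k ∈ T, ∀ p, p.Prime → p ∣ n + k → p ∈ Nat.primesLE Y) :
    ∃ (G : Finset ℕ) (b : ℕ), H * b ≤ 2 * ℓ * Y ∧
      2 * T.card ≤ (Nat.primesLE Y).card + G.card + 2 * b ∧ G ⊆ Nat.primesLE Y ∧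
      ∀ p ∈ G, ∃ k a c, k < Y ∧ a < 2 ^ H ∧ n + k = a * p ^ c := by
  classical
  set P := Nat.primesLE Y with hP
  have hn0 : 0 < n := lt_of_lt_of_le (by positivity) hn
  have hown : ∀ p : ℕ, ∃ o ∈ T, ∀ k ∈ T, (n + k).factorization p ≤ (n + o).factorization p :=
    fun p => exists_max_image T _ hT
  choose own hown1 hown2 using hown
  set a : ℕ → ℕ := fun k => ∏ p ∈ P.filter (fun p => own p ≠ k), p ^ (n + k).factorization p
    with ha
  have hab : ∀ k ∈ T, n + k =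
      a k * ∏ p ∈ P.filter (fun p => own p = k), p ^ (n + k).factorization p := by
    intro k hk
    rw [ha, mul_comm]
    simp only
    rw [prod_filter_mul_prod_filter_not]
    conv_lhs => rw [← Nat.prod_factorization_pow_eq_self (show n + k ≠ 0 by omega)]
    refine prod_subset (fun p hp => ?_) fun p _ hp => ?_
    · rw [Nat.support_factorization, Nat.mem_primeFactors] at hp
      exact hsm k hk p hp.1 hp.2.1
    · rw [Finsupp.notMem_support_iff.1 hp]; exact pow_zero _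
  have ha1 : ∀ k, 1 ≤ a k := fun k =>
    prod_pos fun p hp => pow_pos (Nat.prime_of_mem_primesLE (mem_filter.1 hp).1).pos _
  have hprod : ∏ k ∈ T, a k ≤ 2 ^ (2 * ℓ * Y) := by
    set z : ℤ := ∏ t ∈ (Icc (-(Y : ℤ)) Y).erase 0, t with hz
    have hz0 : z ≠ 0 := prod_ne_zero_iff.2 fun t ht => ne_of_mem_erase ht
    have hzle : |z| ≤ ((2 ^ (2 * ℓ * Y) : ℕ) : ℤ) := by
      rw [hz, Finset.abs_prod]
      calc ∏ t ∈ (Icc (-(Y : ℤ)) Y).erase 0, |t| ≤ ∏ t ∈ (Icc (-(Y : ℤ)) Y).erase 0, (2 ^ ℓ : ℤ) :=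
            prod_le_prod (fun _ _ => abs_nonneg _) fun t ht => by
              have := mem_Icc.1 (mem_of_mem_erase ht)
              have h2 : (Y : ℤ) ≤ 2 ^ ℓ := by exact_mod_cast hY
              exact (abs_le.2 this).trans h2
        _ = _ := by
          rw [prod_const, card_erase_of_mem (by simp), Int.card_Icc,
            show ((Y : ℤ) + 1 - -(Y : ℤ)).toNat - 1 = 2 * Y by omega, ← pow_mul]
          push_cast
          congr 1
          ring
    have hcomm : ∏ k ∈ T, a k =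
        ∏ p ∈ P, ∏ k ∈ T.filter (fun k => own p ≠ k), p ^ (n + k).factorization p := by
      rw [ha]
      exact prod_comm' (by simp [mem_filter]; tauto)
    have hdvd : ((∏ k ∈ T, a k : ℕ) : ℤ) ∣ z := by
      rw [hcomm]
      push_cast
      refine prod_dvd_of_coprime (fun p hp q hq hpq => ?_) fun p hp => ?_
      · simp only [Function.onFun, prod_pow_eq_pow_sum]
        exact IsCoprime.pow (Nat.isCoprime_iff_coprime.2 ((Nat.coprime_primes
          (Nat.prime_of_mem_primesLE hp) (Nat.prime_of_mem_primesLE hq)).2 hpq))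
      · have h1 : ∏ k ∈ T.filter (fun k => own p ≠ k), (p : ℤ) ^ (n + k).factorization p ∣
            ∏ k ∈ T.filter (fun k => own p ≠ k), ((k : ℤ) - own p) := by
          refine prod_dvd_prod_of_dvd _ _ fun k hk => ?_
          have e1 : p ^ (n + k).factorization p ∣ n + k := Nat.ordProj_dvd _ _
          have e2 : p ^ (n + k).factorization p ∣ n + own p :=
            (pow_dvd_pow _ (hown2 p k (mem_filter.1 hk).1)).trans (Nat.ordProj_dvd _ _)
          have e3 := dvd_sub (Int.natCast_dvd_natCast.2 e1) (Int.natCast_dvd_natCast.2 e2)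
          push_cast at e3
          rwa [add_sub_add_left_eq_sub] at e3
        refine h1.trans ?_
        rw [← prod_image (s := T.filter (fun k => own p ≠ k)) (g := fun k : ℕ => (k : ℤ) - own p)
          (f := fun t => t) (fun a _ b _ h => by simpa using h)]
        refine prod_dvd_prod_of_subset _ _ _ fun t ht => ?_
        obtain ⟨k, hk, rfl⟩ := mem_image.1 ht
        rw [mem_filter] at hk
        have e1 := hTY k hk.1
        have e2 := hTY _ (hown1 p)
        have e3 := hk.2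
        rw [mem_erase, mem_Icc]
        omega
    have := (Int.le_of_dvd (abs_pos.2 hz0) ((dvd_abs _ _).2 hdvd)).trans hzle
    exact_mod_cast this
  set Big := T.filter (fun k => 2 ^ H ≤ a k) with hBig
  have hBigc : H * Big.card ≤ 2 * ℓ * Y := by
    have h1 : (2 ^ H) ^ Big.card ≤ ∏ k ∈ Big, a k :=
      Finset.pow_card_le_prod _ _ _ fun k hk => (mem_filter.1 hk).2
    have h2 : ∏ k ∈ Big, a k ≤ ∏ k ∈ T, a k :=
      prod_le_prod_of_subset_of_one_le' (filter_subset _ _) fun k _ _ => ha1 k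
    rw [← pow_mul] at h1
    exact (Nat.pow_le_pow_iff_right (by norm_num)).1 (h1.trans (h2.trans hprod))
  set Sm := T.filter (fun k => ¬ 2 ^ H ≤ a k) with hSm
  set cnt : ℕ → ℕ := fun k => (P.filter (fun p => own p = k)).card with hcnt
  set G0 := Sm.filter (fun k => cnt k = 1) with hG0
  have hsum : P.card = ∑ k ∈ T, cnt k := card_eq_sum_card_fiberwise fun p _ => hown1 p
  have hcnt1 : ∀ k ∈ Sm, 1 ≤ cnt k := by
    intro k hk
    rw [hSm, mem_filter] at hk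
    by_contra hc
    have h1 : P.filter (fun p => own p = k) = ∅ := card_eq_zero.1 (by simp only [hcnt] at hc; omega)
    have h2 := hab k hk.1
    rw [h1, prod_empty, mul_one] at h2
    omega
  have h2Sm : 2 * Sm.card ≤ P.card + G0.card := by
    have h1 : ∑ k ∈ Sm, 2 ≤ ∑ k ∈ Sm, (cnt k + if cnt k = 1 then 1 else 0) := by
      refine sum_le_sum fun k hk => ?_
      have := hcnt1 k hk
      split_ifs <;> omega
    rw [sum_add_distrib, sum_const, smul_eq_mul, ← card_filter] at h1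
    have h2 : ∑ k ∈ Sm, cnt k ≤ ∑ k ∈ T, cnt k := sum_le_sum_of_subset (filter_subset _ _)
    rw [hG0]
    omega
  have hsplit : Big.card + Sm.card = T.card := card_filter_add_card_filter_not _
  refine ⟨P.filter (fun p => own p ∈ G0), Big.card, hBigc, ?_, filter_subset _ _, ?_⟩
  · have : G0.card ≤ (P.filter (fun p => own p ∈ G0)).card := by
      refine card_le_card_of_surjOn own fun k hk => ?_
      have hk' := mem_filter.1 (mem_coe.1 hk)
      obtain ⟨p, hp⟩ := card_eq_one.1 hk'.2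
      have : p ∈ P.filter (fun p => own p = k) := by rw [hp]; exact mem_singleton_self _
      rw [mem_filter] at this
      exact ⟨p, by rw [mem_coe, mem_filter, this.2]; exact ⟨this.1, hk⟩, this.2⟩
    omega
  · intro p hp
    rw [mem_filter, hG0, mem_filter, hSm, mem_filter] at hp
    obtain ⟨q, hq⟩ := card_eq_one.1 hp.2.2
    have h1 : p ∈ P.filter (fun p' => own p' = own p) := mem_filter.2 ⟨hp.1, rfl⟩
    have h2 := hab _ (hown1 p)
    rw [hq] at h1 h2
    rw [← mem_singleton.1 h1, prod_singleton] at h2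
    exact ⟨own p, a (own p), _, hTY _ (hown1 p), by have := hp.2.1.2; omega, h2⟩

lemma two_pows (n L Y ℓ H g r p1 p2 k1 k2 a1 a2 c1 c2 : ℕ) (hn1 : 2 ^ L ≤ n) (hn2 : n < 2 ^ (L + 1))
    (hYn : Y ≤ n) (hY : Y ≤ 2 ^ ℓ) (hp2 : 2 ≤ p2) (h12 : p2 < p1) (hg : p1 ≤ p2 + g) (hp1 : p1 ≤ Y)
    (hk1 : k1 < Y) (hk2 : k2 < Y) (ha1 : a1 < 2 ^ H) (ha2 : a2 < 2 ^ H)
    (e1 : n + k1 = a1 * p1 ^ c1) (e2 : n + k2 = a2 * p2 ^ c2) (hr : r = H + 4)
    (hrY : 2 * r + 1 ≤ Y) (hL : H + ℓ * (2 * ℓ + r + 2 * ℓ * (2 * r + 1)) ≤ L)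
    (hZ : 2 * (2 * (L + 1)) ^ 6 * g ^ 2 ≤ p2) : False := by
  have hn0 : 0 < n := lt_of_lt_of_le (by positivity) hn1
  have hc : ∀ k a p c, k < Y → a < 2 ^ H → 2 ≤ p → p ≤ Y → n + k = a * p ^ c →
      2 * ℓ + r + 2 * ℓ * (2 * r + 1) < c ∧ c ≤ L + 1 ∧ 1 ≤ a := by
    intro k a p c hk ha hp hpY e
    have ha0 : 1 ≤ a := by
      rcases Nat.eq_zero_or_pos a with rfl | h
      · omega
      · exact h
    refine ⟨?_, ?_, ha0⟩
    · have h1 : 2 ^ L < 2 ^ (H + ℓ * c) := by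
        calc 2 ^ L ≤ a * p ^ c := by omega
          _ < 2 ^ H * p ^ c := by gcongr
          _ ≤ 2 ^ H * (2 ^ ℓ) ^ c := by gcongr; omega
          _ = _ := by rw [← pow_mul, ← pow_add]
      have h2 := (Nat.pow_lt_pow_iff_right (by norm_num)).1 h1
      exact Nat.lt_of_mul_lt_mul_left (a := ℓ) (by omega)
    · have h1 : 2 ^ c < 2 ^ (L + 2) := by
        calc 2 ^ c ≤ p ^ c := by gcongr
          _ ≤ a * p ^ c := Nat.le_mul_of_pos_left _ ha0
          _ < 2 ^ (L + 2) := by rw [← e, pow_succ]; omega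
      have h2 := (Nat.pow_lt_pow_iff_right (by norm_num)).1 h1
      omega
  obtain ⟨l1, u1, ha1'⟩ := hc k1 a1 p1 c1 hk1 ha1 (by omega) hp1 e1
  obtain ⟨l2, u2, ha2'⟩ := hc k2 a2 p2 c2 hk2 ha2 hp2 (by omega) e2
  set k := min c1 c2 with hk
  have f1 : n + k1 = a1 * p1 ^ (c1 - k) * p1 ^ k := by
    rw [e1, mul_assoc, ← pow_add]; congr 2; omega
  have f2 : n + k2 = a2 * p2 ^ (c2 - k) * p2 ^ k := by
    rw [e2, mul_assoc, ← pow_add]; congr 2; omega
  have hA : a1 * p1 ^ (c1 - k) ≤ 2 ^ (H + 1) := by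
    rcases le_total c1 c2 with h | h
    · rw [show c1 - k = 0 by omega, pow_zero, mul_one, pow_succ]; omega
    · rw [show c2 - k = 0 by omega, pow_zero, mul_one] at f2
      have : a1 * p1 ^ (c1 - k) * p2 ^ k ≤ 2 * a2 * p2 ^ k := by
        calc a1 * p1 ^ (c1 - k) * p2 ^ k ≤ a1 * p1 ^ (c1 - k) * p1 ^ k := by gcongr
          _ ≤ 2 * (a2 * p2 ^ k) := by omega
          _ = _ := by ring
      have := Nat.le_of_mul_le_mul_right this (by positivity)
      rw [pow_succ]; omega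
  have hrk : r < k := by omega
  have hK : k + r ≤ 2 * (L + 1) := by omega
  have hg1 : 1 ≤ g := by omega
  refine ExpDD.pade p1 p2 k r (a1 * p1 ^ (c1 - k)) (a2 * p2 ^ (c2 - k)) Y g ((k1 : ℤ) - k2)
    (by omega) h12 hg hrk (Nat.mul_pos ha1' (pow_pos (by omega) _)) ?_ (by rw [abs_le]; omega)
    ?_ ?_ ?_
  · have g1 : ((n + k1 : ℕ) : ℤ) = ((a1 * p1 ^ (c1 - k) * p1 ^ k : ℕ) : ℤ) := by rw [f1]
    have g2 : ((n + k2 : ℕ) : ℤ) = ((a2 * p2 ^ (c2 - k) * p2 ^ k : ℕ) : ℤ) := by rw [f2]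
    push_cast at g1 g2 ⊢
    linarith
  · refine le_trans ?_ hZ
    calc (k + r) * g ≤ (2 * (L + 1)) * g := by gcongr
      _ ≤ (2 * (L + 1)) ^ 6 * g ^ 2 :=
        Nat.mul_le_mul (Nat.le_self_pow (by norm_num) _) (Nat.le_self_pow (by norm_num) _)
      _ ≤ _ := by rw [mul_assoc]; omega
  · calc Y * (r + 1) * 2 ^ r * (2 * r + 1).factorial * p1 ^ (2 * r + 1)
        ≤ 2 ^ ℓ * 2 ^ ℓ * 2 ^ r * (2 ^ ℓ) ^ (2 * r + 1) * (2 ^ ℓ) ^ (2 * r + 1) := by
          gcongr
          · omega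
          · exact (Nat.factorial_le_pow _).trans (Nat.pow_le_pow_left (by omega) _)
          · omega
      _ = 2 ^ (2 * ℓ + r + 2 * ℓ * (2 * r + 1)) := by
          simp only [← pow_mul, ← pow_add]; congr 1; ring
      _ < 2 ^ k := Nat.pow_lt_pow_right (by norm_num) (by omega)
      _ ≤ p2 ^ k := by gcongr
  · calc 6 * (a1 * p1 ^ (c1 - k)) * (k + r) ^ (6 * r + 2) * g ^ (2 * r + 1)
        ≤ 2 ^ (r + 1) * (2 * (L + 1)) ^ (6 * (r + 1)) * g ^ (2 * (r + 1)) := by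
          refine Nat.mul_le_mul (Nat.mul_le_mul ?_ ?_) (Nat.pow_le_pow_right hg1 (by omega))
          · rw [hr, show H + 4 + 1 = (H + 1) + 4 by ring, pow_add 2 (H + 1) 4]; omega
          · exact (Nat.pow_le_pow_left hK _).trans (Nat.pow_le_pow_right (by omega) (by omega))
      _ = (2 * (2 * (L + 1)) ^ 6 * g ^ 2) ^ (r + 1) := by
          rw [mul_pow (2 * (2 * (L + 1)) ^ 6), mul_pow 2 ((2 * (L + 1)) ^ 6), ← pow_mul, ← pow_mul]
      _ ≤ _ := by gcongr

lemma params (L : ℕ) (hL : 2 ^ 100 ≤ L) : ∃ ℓ, 1 ≤ ℓ ∧ L ^ 8 + 1 ≤ 2 ^ ℓ ∧ 2 ^ 24 * ℓ ^ 4 ≤ L := by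
  have key : ∀ m, 100 ≤ m → 2 ^ 37 * m ^ 4 ≤ 2 ^ m := by
    intro m hm
    induction m, hm using Nat.le_induction with
    | base => norm_num
    | succ m hm ih =>
      have : (m + 1) ^ 4 ≤ 2 * m ^ 4 := by
        have h1 : 100 * (m + 1) ≤ 101 * m := by omega
        have h2 := Nat.pow_le_pow_left h1 4
        rw [mul_pow, mul_pow] at h2
        omega
      rw [pow_succ 2 m]
      omega
  have h1 : L < 2 ^ (Nat.log 2 L + 1) := Nat.lt_pow_succ_log_self (by norm_num) L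
  have h2 : 2 ^ Nat.log 2 L ≤ L := Nat.pow_log_le_self 2 (by omega)
  have h3 : 100 ≤ Nat.log 2 L + 1 :=
    ((Nat.pow_lt_pow_iff_right (by norm_num)).1 (hL.trans_lt h1)).le
  refine ⟨8 * (Nat.log 2 L + 1), by omega, ?_, ?_⟩
  · rw [mul_comm, pow_mul]
    exact Nat.pow_lt_pow_left h1 (by norm_num)
  · have := key _ h3
    rw [pow_succ 2 (Nat.log 2 L)] at this
    rw [mul_pow]
    omega

theorem main (l : ℕ) : ∃ N, ∀ n, N ≤ n → ∃ k, l ≤ k ∧ 2 ≤ v n k := by
  classical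
  refine ⟨2 ^ (2 ^ 100 + l), fun n hn => ?_⟩
  by_contra hcon
  push Not at hcon
  have hn0 : 0 < n := lt_of_lt_of_le (by positivity) hn
  set L := Nat.log 2 n with hLdef
  have hn1 : 2 ^ L ≤ n := Nat.pow_log_le_self 2 (by omega)
  have hn2 : n < 2 ^ (L + 1) := Nat.lt_pow_succ_log_self (by norm_num) n
  have hL : 2 ^ 100 + l ≤ L := Nat.le_log_of_pow_le (by norm_num) hn
  clear hn
  obtain ⟨ℓ, hℓ1, hℓ2, hℓ3⟩ := params L (by omega)
  have hL2 : 2 ≤ L := by omega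
  have p2 : ℓ ≤ ℓ ^ 2 := Nat.le_self_pow (by norm_num) _
  have p3 : ℓ ^ 2 ≤ ℓ ^ 3 := Nat.pow_le_pow_right hℓ1 (by norm_num)
  have p4 : ℓ ^ 3 ≤ ℓ ^ 4 := Nat.pow_le_pow_right hℓ1 (by norm_num)
  set Y := L ^ 8 with hY
  have hLY : L ≤ Y := Nat.le_self_pow (by norm_num) _
  have hYn : Y ≤ n := by
    have : 2 ^ ℓ ≤ 2 ^ L := Nat.pow_le_pow_right (by norm_num) (by omega)
    omega
  obtain ⟨T, hT1, hT2, hT3⟩ := exists_smooth l n Y (L + 2) hn0 (by rw [pow_succ]; omega)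
    (fun k hk => by have := hcon k hk; omega)
  have hpi := pi_lower Y ℓ (by omega) hℓ2
  have hc1 : 32 * ℓ + 32 * (ℓ * (l * (L + 2))) < 9 * Y := by
    have e1 : ℓ * (l * (L + 2)) ≤ L * (L * (2 * L)) := by gcongr <;> omega
    have e2 : L * (L * (2 * L)) = 2 * L ^ 3 := by ring
    have e3 : 2 ^ 5 * L ^ 3 ≤ L ^ 5 * L ^ 3 := by gcongr
    have e4 : L ^ 5 * L ^ 3 = Y := by rw [hY]; ring
    have e5 : L ≤ L ^ 3 := Nat.le_self_pow (by norm_num) _
    omega
  set N := (Nat.primesLE Y).card with hN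
  have hTne : T.Nonempty := by
    rw [← card_pos]
    by_contra hc
    have e1 : N ≤ l * (L + 2) := by omega
    have e2 : ℓ * (N + 1) ≤ ℓ * (l * (L + 2) + 1) := by gcongr
    rw [mul_add ℓ (l * (L + 2))] at e2
    omega
  obtain ⟨G, b, hb, hG1, hG2, hG3⟩ := exists_good n Y ℓ (16 * ℓ ^ 2)
    ((Nat.pow_le_pow_right (by norm_num) (by omega)).trans hn1) (by omega) T hTne hT2 hT3
  rw [← hN] at hG1
  have hb' : 8 * (ℓ * b) ≤ Y := by
    refine Nat.le_of_mul_le_mul_left (c := 2 * ℓ) ?_ (by omega)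
    calc 2 * ℓ * (8 * (ℓ * b)) = 16 * ℓ ^ 2 * b := by ring
      _ ≤ _ := hb
  set g := 16 * ℓ with hg
  set Z := 2 * (2 * (L + 1)) ^ 6 * g ^ 2 with hZ
  have hZ' : 8 * (ℓ * Z) ≤ Y := by
    calc 8 * (ℓ * Z) = 2 ^ 18 * ℓ ^ 3 * (L + 1) ^ 6 := by rw [hZ, hg]; ring
      _ ≤ 2 ^ 18 * ℓ ^ 4 * (2 * L) ^ 6 := by gcongr; omega
      _ = (2 ^ 24 * ℓ ^ 4) * L ^ 6 := by ring
      _ ≤ L * L ^ 6 := by gcongr
      _ = L ^ 7 := by ring
      _ ≤ Y := Nat.pow_le_pow_right (by omega) (by norm_num)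
  set G' := G.filter (fun p => Z ≤ p) with hG'
  have hG'c : G.card ≤ G'.card + Z := by
    have e1 : (G.filter (fun p => ¬ Z ≤ p)).card ≤ (range Z).card :=
      card_le_card fun p hp => mem_range.2 (by have := (mem_filter.1 hp).2; omega)
    have e2 : G'.card + (G.filter (fun p => ¬ Z ≤ p)).card = G.card :=
      card_filter_add_card_filter_not _
    rw [card_range] at e1
    omega
  have hlt : (range (Y / g + 1)).card < G'.card := by
    rw [card_range]
    have e1 : 16 * (ℓ * (Y / g)) ≤ Y := by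
      have := Nat.mul_div_le Y g
      rwa [hg, mul_assoc] at this
    have e2 : N ≤ G'.card + Z + 2 * b + 2 * (l * (L + 2)) := by omega
    have e3 : ℓ * N ≤ ℓ * (G'.card + Z + 2 * b + 2 * (l * (L + 2))) := by gcongr
    refine Nat.lt_of_mul_lt_mul_left (a := ℓ) ?_
    have e4 : ℓ * (G'.card + Z + 2 * b + 2 * (l * (L + 2))) =
      ℓ * G'.card + ℓ * Z + 2 * (ℓ * b) + 2 * (ℓ * (l * (L + 2))) := by ring
    rw [mul_add, mul_one] at hpi ⊢
    omega
  obtain ⟨p, hp, q, hq, hpq, hdiv⟩ := exists_ne_map_eq_of_card_lt_of_maps_to hlt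
    (f := fun p => p / g) fun p hp => by
      have := Nat.le_of_mem_primesLE (hG2 (mem_filter.1 hp).1)
      exact mem_range.2 (Nat.lt_succ_of_le (Nat.div_le_div_right this))
  wlog hlt' : q < p generalizing p q
  · exact this q hq p hp hpq.symm hdiv.symm (by omega)
  rw [mem_filter] at hp hq
  obtain ⟨k1, a1, c1, h1, h2, h3⟩ := hG3 p hp.1
  obtain ⟨k2, a2, c2, h4, h5, h6⟩ := hG3 q hq.1
  have hgap : p ≤ q + g := by
    have e1 := Nat.div_add_mod p g
    have e2 := Nat.div_add_mod q g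
    have e3 := Nat.mod_lt p (show 0 < g by omega)
    rw [hdiv] at e1
    omega
  refine two_pows n L Y ℓ (16 * ℓ ^ 2) g (16 * ℓ ^ 2 + 4) p q k1 k2 a1 a2 c1 c2 hn1 hn2 hYn
    (by omega) (Nat.prime_of_mem_primesLE (hG2 hq.1)).two_le hlt' hgap
    (Nat.le_of_mem_primesLE (hG2 hp.1)) h1 h4 h2 h5 h3 h6 rfl (by omega) ?_ hq.2
  have : 16 * ℓ ^ 2 + ℓ * (2 * ℓ + (16 * ℓ ^ 2 + 4) + 2 * ℓ * (2 * (16 * ℓ ^ 2 + 4) + 1)) =
      64 * ℓ ^ 4 + 16 * ℓ ^ 3 + 36 * ℓ ^ 2 + 4 * ℓ := by ring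
  omega

end Pool.Agent.H60.NewPrimes
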