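import Mathlib
import Pool.Agent.H60.PAry

namespace Pool.Agent.H60.PAry

def st11 : List (List ℕ) :=
  [[1, 2, 13, 0, 0, 0, 0, 0, 0, 0, 0, 0, 0, 0],
   [1, 18, 13, 0, 0, 0, 0, 0, 0, 0, 0, 0, 0, 0],
   [1, 19, 14, 2, 11, 25, 20, 12, 7, 21, 30, 18, 13, 31],
   [1, 20, 30, 4, 9, 0, 0, 0, 0, 0, 0, 0, 0, 0],
   [1, 21, 29, 17, 19, 15, 15, 11, 0, 0, 0, 0, 0, 0],
   [1, 28, 19, 0, 0, 0, 0, 0, 0, 0, 0, 0, 0, 0],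
   [1, 29, 11, 23, 0, 0, 0, 0, 0, 0, 0, 0, 0, 0],
   [2, 14, 0, 0, 0, 0, 0, 0, 0, 0, 0, 0, 0, 0],
   [2, 30, 0, 0, 0, 0, 0, 0, 0, 0, 0, 0, 0, 0],
   [4, 8, 20, 0, 0, 0, 0, 0, 0, 0, 0, 0, 0, 0],
   [4, 12, 0, 0, 0, 0, 0, 0, 0, 0, 0, 0, 0, 0],
   [4, 16, 12, 0, 0, 0, 0, 0, 0, 0, 0, 0, 0, 0],
   [4, 28, 0, 0, 0, 0, 0, 0, 0, 0, 0, 0, 0, 0],
   [6, 10, 0, 0, 0, 0, 0, 0, 0, 0, 0, 0, 0, 0],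
   [6, 26, 0, 0, 0, 0, 0, 0, 0, 0, 0, 0, 0, 0],
   [8, 24, 0, 0, 0, 0, 0, 0, 0, 0, 0, 0, 0, 0],
   [10, 6, 0, 0, 0, 0, 0, 0, 0, 0, 0, 0, 0, 0],
   [10, 22, 0, 0, 0, 0, 0, 0, 0, 0, 0, 0, 0, 0],
   [11, 6, 15, 0, 0, 0, 0, 0, 0, 0, 0, 0, 0, 0],
   [11, 12, 26, 28, 19, 0, 0, 0, 0, 0, 0, 0, 0, 0],
   [11, 15, 15, 19, 17, 29, 21, 1, 0, 0, 0, 0, 0, 0],
   [11, 15, 25, 13, 0, 0, 0, 0, 0, 0, 0, 0, 0, 0],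
   [11, 20, 17, 0, 0, 0, 0, 0, 0, 0, 0, 0, 0, 0],
   [11, 22, 15, 0, 0, 0, 0, 0, 0, 0, 0, 0, 0, 0],
   [12, 4, 0, 0, 0, 0, 0, 0, 0, 0, 0, 0, 0, 0],
   [12, 16, 4, 0, 0, 0, 0, 0, 0, 0, 0, 0, 0, 0],
   [12, 20, 0, 0, 0, 0, 0, 0, 0, 0, 0, 0, 0, 0],
   [12, 24, 28, 0, 0, 0, 0, 0, 0, 0, 0, 0, 0, 0],
   [13, 4, 6, 20, 21, 0, 0, 0, 0, 0, 0, 0, 0, 0],
   [13, 10, 9, 0, 0, 0, 0, 0, 0, 0, 0, 0, 0, 0],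
   [13, 12, 23, 0, 0, 0, 0, 0, 0, 0, 0, 0, 0, 0],
   [13, 25, 15, 11, 0, 0, 0, 0, 0, 0, 0, 0, 0, 0],
   [13, 26, 9, 0, 0, 0, 0, 0, 0, 0, 0, 0, 0, 0],
   [14, 2, 0, 0, 0, 0, 0, 0, 0, 0, 0, 0, 0, 0],
   [14, 18, 0, 0, 0, 0, 0, 0, 0, 0, 0, 0, 0, 0],
   [16, 16, 0, 0, 0, 0, 0, 0, 0, 0, 0, 0, 0, 0],
   [17, 10, 21, 0, 0, 0, 0, 0, 0, 0, 0, 0, 0, 0],
   [17, 20, 11, 0, 0, 0, 0, 0, 0, 0, 0, 0, 0, 0],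
   [17, 26, 21, 0, 0, 0, 0, 0, 0, 0, 0, 0, 0, 0],
   [18, 14, 0, 0, 0, 0, 0, 0, 0, 0, 0, 0, 0, 0],
   [18, 30, 0, 0, 0, 0, 0, 0, 0, 0, 0, 0, 0, 0],
   [19, 14, 31, 0, 0, 0, 0, 0, 0, 0, 0, 0, 0, 0],
   [19, 28, 1, 0, 0, 0, 0, 0, 0, 0, 0, 0, 0, 0],
   [19, 30, 31, 0, 0, 0, 0, 0, 0, 0, 0, 0, 0, 0],
   [20, 8, 4, 0, 0, 0, 0, 0, 0, 0, 0, 0, 0, 0],
   [20, 12, 0, 0, 0, 0, 0, 0, 0, 0, 0, 0, 0, 0],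
   [20, 16, 28, 0, 0, 0, 0, 0, 0, 0, 0, 0, 0, 0],
   [20, 28, 0, 0, 0, 0, 0, 0, 0, 0, 0, 0, 0, 0],
   [21, 2, 9, 0, 0, 0, 0, 0, 0, 0, 0, 0, 0, 0],
   [21, 4, 23, 0, 0, 0, 0, 0, 0, 0, 0, 0, 0, 0],
   [21, 18, 9, 0, 0, 0, 0, 0, 0, 0, 0, 0, 0, 0],
   [22, 10, 0, 0, 0, 0, 0, 0, 0, 0, 0, 0, 0, 0],
   [22, 26, 0, 0, 0, 0, 0, 0, 0, 0, 0, 0, 0, 0],
   [23, 4, 21, 0, 0, 0, 0, 0, 0, 0, 0, 0, 0, 0],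
   [23, 6, 19, 0, 0, 0, 0, 0, 0, 0, 0, 0, 0, 0],
   [23, 11, 29, 1, 0, 0, 0, 0, 0, 0, 0, 0, 0, 0],
   [23, 12, 13, 0, 0, 0, 0, 0, 0, 0, 0, 0, 0, 0],
   [23, 14, 11, 0, 0, 0, 0, 0, 0, 0, 0, 0, 0, 0],
   [23, 22, 19, 0, 0, 0, 0, 0, 0, 0, 0, 0, 0, 0],
   [23, 28, 2, 12, 31, 0, 0, 0, 0, 0, 0, 0, 0, 0],
   [23, 30, 11, 0, 0, 0, 0, 0, 0, 0, 0, 0, 0, 0],
   [24, 8, 0, 0, 0, 0, 0, 0, 0, 0, 0, 0, 0, 0],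
   [26, 6, 0, 0, 0, 0, 0, 0, 0, 0, 0, 0, 0, 0],
   [26, 22, 0, 0, 0, 0, 0, 0, 0, 0, 0, 0, 0, 0],
   [28, 4, 0, 0, 0, 0, 0, 0, 0, 0, 0, 0, 0, 0],
   [28, 16, 20, 0, 0, 0, 0, 0, 0, 0, 0, 0, 0, 0],
   [28, 20, 0, 0, 0, 0, 0, 0, 0, 0, 0, 0, 0, 0],
   [28, 24, 12, 0, 0, 0, 0, 0, 0, 0, 0, 0, 0, 0],
   [30, 2, 0, 0, 0, 0, 0, 0, 0, 0, 0, 0, 0, 0],
   [30, 18, 0, 0, 0, 0, 0, 0, 0, 0, 0, 0, 0, 0]]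


lemma check11 : check 2 11 32 (0 + 13) 14 (fun r => !(Nat.beq (r % 32) 0)) st11 = true := by
  decide +kernel

lemma not_dvd11 (n : ℕ) : ¬ 2 ^ 5 ∣ S 2 0 11 n := by
  rcases Nat.eq_zero_or_pos n with rfl | hn
  · rw [S_zero]; norm_num
  · obtain ⟨r, h1, h2⟩ := auto_S 2 0 11 32 13 14 le_rfl (by norm_num) _ st11 check11
      (by decide +kernel) n hn
    intro h
    have h3 : S 2 0 11 n % 32 = 0 := Nat.mod_eq_zero_of_dvd h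
    rw [h3] at h2
    rw [← h2] at h1
    simp at h1

lemma val_le_of_not_dvd (p e N : ℕ) (h : ¬ p ^ (e + 1) ∣ N) : padicValNat p N ≤ e := by
  by_contra h'
  exact h ((pow_dvd_pow p (by omega)).trans pow_padicValNat_dvd)

lemma val11 (n : ℕ) : padicValNat 2 (S 2 0 11 n) ≤ 4 := val_le_of_not_dvd 2 4 _ (not_dvd11 n)

def st3 : List (List ℕ) :=
  [[1, 15, 15, 1],
   [1, 61, 3, 63],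
   [6, 4, 22, 0],
   [6, 20, 6, 0],
   [6, 36, 54, 0],
   [10, 28, 58, 0],
   [10, 60, 26, 0],
   [22, 4, 6, 0],
   [22, 36, 38, 0],
   [24, 0, 40, 0],
   [24, 16, 24, 0],
   [26, 28, 42, 0],
   [26, 60, 10, 0],
   [38, 4, 54, 0],
   [38, 36, 22, 0],
   [40, 48, 40, 0],
   [42, 28, 26, 0],
   [42, 60, 58, 0],
   [54, 4, 38, 0],
   [54, 36, 6, 0],
   [58, 28, 10, 0],
   [58, 60, 42, 0]]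


lemma check3 : check 2 3 64 (3 + 3) 4
    (fun r => ([6, 10, 22, 24, 26, 38, 40, 42, 54, 58] : List ℕ).any (Nat.beq r)) st3 = true := by
  decide +kernel

lemma mod3 (n : ℕ) (hn : 1 ≤ n) :
    S 2 3 3 n % 64 ∈ ([6, 10, 22, 24, 26, 38, 40, 42, 54, 58] : List ℕ) := by
  obtain ⟨r, h1, h2⟩ := auto_S 2 3 3 64 3 4 le_rfl (by norm_num) _ st3 check3
    (by decide +kernel) n hn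
  simp only [List.any_eq_true, Nat.beq_eq] at h1
  obtain ⟨x, hx, rfl⟩ := h1
  rw [h2]
  revert hx
  simp only [List.mem_cons, List.not_mem_nil, or_false]
  rintro (h | h | h | h | h | h | h | h | h | h) <;> subst h <;> decide

end Pool.Agent.H60.PAry
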