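import Mathlib
import Pool.Agent.H60.PAry

namespace Pool.Agent.H60.PAry

open PowerSeries Finset
open Pool.Agent.H60.ColPart (G one_sub_mul_G)

lemma coeff_G_one_pow {R : Type*} [CommRing R] (k i : ℕ) :
    coeff i (G R 1 ^ (k + 1)) = ((k + i).choose i : R) := by
  have : G R 1 = PowerSeries.mk 1 := by
    ext n; simp [G]
  rw [this, mk_one_pow_eq_mk_choose_add, coeff_mk, Nat.choose_symm_add]

/-- the basic recursion. -/
lemma S_rec (p m k c : ℕ) (hp : 2 ≤ p) (hc : m + k = c + 1) (n : ℕ) :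
    S p m k n = ∑ j ∈ range (n / p + 1), (c + (n - p * j)).choose (n - p * j) * S p 0 k j := by
  have hp0 : p ≠ 0 := by omega
  have hd : n % p < p := Nat.mod_lt _ (by omega)
  have h : G ℤ 1 ^ m * B ℤ p ^ k = G ℤ 1 ^ (c + 1) * expand p hp0 (B ℤ p ^ k) := by
    nth_rewrite 1 [B_eq p hp hp0]
    rw [← hc, map_pow]; ring
  zify
  rw [S_cast p hp, h]
  conv_lhs => rw [← Nat.div_add_mod n p]
  rw [coeff_mul_expand p hp0 _ hd, mul_comm, coeff_mul,
    Finset.Nat.sum_antidiagonal_eq_sum_range_succ_mk]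
  refine sum_congr rfl fun j hj => ?_
  have hj' : j ≤ n / p := Nat.lt_succ_iff.1 (mem_range.1 hj)
  have e : p * (n / p - j) + n % p = n - p * j := by
    have := Nat.div_add_mod n p
    have h2 : p * j ≤ p * (n / p) := Nat.mul_le_mul_left _ hj'
    rw [Nat.mul_sub]; omega
  rw [coeff_mk, coeff_G_one_pow, e, S_cast p hp, pow_zero, one_mul, mul_comm]

def sumTo (f : ℕ → ℕ) : ℕ → ℕ
  | 0 => 0
  | k + 1 => sumTo f k + f k

lemma sumTo_eq (f : ℕ → ℕ) (k : ℕ) : sumTo f k = ∑ j ∈ range k, f j := by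
  induction k with
  | zero => rfl
  | succ k ih => rw [sumTo, ih, sum_range_succ]

def ch (c i : ℕ) : ℕ := (c + i).descFactorial i / i.factorial

lemma ch_eq (c i : ℕ) : ch c i = (c + i).choose i :=
  (Nat.choose_eq_descFactorial_div_factorial _ _).symm

def Arec (p c : ℕ) : ℕ → ℕ → ℕ
  | 0, _ => 1
  | f + 1, n => sumTo (fun j => ch c (n - p * j) * Arec p c f j) (n / p + 1)

lemma S_eq_Arec (p c : ℕ) (hp : 2 ≤ p) (f n : ℕ) (hn : n < p ^ f) :
    S p 0 (c + 1) n = Arec p c f n := by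
  induction f generalizing n with
  | zero =>
    obtain rfl : n = 0 := by simpa using hn
    rw [S_zero]; rfl
  | succ f ih =>
    rw [S_rec p 0 (c + 1) c hp (by omega), Arec, sumTo_eq]
    refine sum_congr rfl fun j hj => ?_
    have hj' : j ≤ n / p := Nat.lt_succ_iff.1 (mem_range.1 hj)
    rw [ch_eq, ih j (hj'.trans_lt (Nat.div_lt_of_lt_mul (by rwa [← pow_succ'])))]

end Pool.Agent.H60.PAry
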