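import Mathlib
import Pool.Agent.H60.PAry

namespace Pool.Agent.H60.PAry

/-- continuation-style evaluation of a number. -/
def forceN {α : Type} (n : ℕ) (f : ℕ → α) : α :=
  match n with
  | 0 => f 0
  | k + 1 => f (k + 1)

lemma forceN_eq {α : Type} (n : ℕ) (f : ℕ → α) : forceN n f = f n := by
  cases n <;> rfl

def forceL {α : Type} : List ℕ → (List ℕ → α) → α
  | [], f => f []
  | a :: l, f => forceN a fun a' => forceL l fun l' => f (a' :: l')

lemma forceL_eq {α : Type} (l : List ℕ) (f : List ℕ → α) : forceL l f = f l := by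
  induction l generalizing f with
  | nil => rfl
  | cons a l ih => rw [forceL, forceN_eq, ih]

def prefF (M : ℕ) : ℕ → List ℕ → List ℕ
  | _, [] => []
  | s, a :: l => forceN ((s + a) % M) fun s' => s' :: prefF M s' l

lemma prefF_eq (M s : ℕ) (l : List ℕ) : prefF M s l = pref M s l := by
  induction l generalizing s with
  | nil => rfl
  | cons a l ih => rw [prefF, forceN_eq, ih, pref]

def iterF {α : Type} (M : ℕ) : ℕ → List ℕ → (List ℕ → α) → α
  | 0, l, f => f l
  | k + 1, l, f => forceL (prefF M 0 l) fun l' => iterF M k l' f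

lemma iterF_eq {α : Type} (M k : ℕ) (l : List ℕ) (f : List ℕ → α) :
    iterF M k l f = f (iter (pref M 0) k l) := by
  induction k generalizing l with
  | zero => rfl
  | succ k ih => rw [iterF, forceL_eq, ih, prefF_eq, iter]

def checkStateF (p M e L : ℕ) (c1 c2 : List ℕ) (ok : ℕ → Bool) (St : List (List ℕ))
    (P : List ℕ) : Bool :=
  forceL (mulL P c2) fun t =>
    iterF M e ((t ++ List.replicate (p * L) 0).take (p * L)) fun Q0 =>
      forceL (Q0.take (p * L)) fun Q =>
        eqL M (mulL c1 Q) t && (List.range p).all fun d =>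
          forceL (sec p d L Q) fun s => memL s St && (Nat.beq d 0 || ok (s.getD 0 0))

lemma checkStateF_eq (p M e L : ℕ) (c1 c2 : List ℕ) (ok : ℕ → Bool) (St : List (List ℕ))
    (P : List ℕ) : checkStateF p M e L c1 c2 ok St P = checkState p M e L c1 c2 ok St P := by
  simp only [checkStateF, checkState, forceL_eq, iterF_eq]

/-- check of the states in positions `i, …, i + j - 1`, given the two auxiliary lists. -/
def checkPart (p M e L : ℕ) (c1 c2 : List ℕ) (ok : ℕ → Bool) (St : List (List ℕ)) (i j : ℕ) :
    Bool :=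
  ((St.drop i).take j).all (checkStateF p M e L c1 c2 ok St)

lemma check_of_parts (p k M a L : ℕ) (ok : ℕ → Bool) (St : List (List ℕ)) (c1 c2 : List ℕ)
    (h1 : beqL (powL M (oneSub M 1) (a + k)) c1 = true)
    (h2 : beqL (powL M (oneSub M p) a) c2 = true) (j N : ℕ) (hN : St.length ≤ N * j)
    (h : ∀ i < N, checkPart p M (a + k) L c1 c2 ok St (i * j) j = true) :
    check p k M a L ok St = true := by
  rw [check, beqL_eq _ _ h1, beqL_eq _ _ h2, List.all_eq_true]
  intro P hP
  obtain ⟨n, hn, rfl⟩ := List.getElem_of_mem hP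
  have hj : 0 < j := by
    rcases Nat.eq_zero_or_pos j with rfl | h
    · omega
    · exact h
  have h3 : n / j < N := by
    rw [Nat.div_lt_iff_lt_mul hj]; omega
  have h4 := List.all_eq_true.1 (h _ h3) St[n] (by
    rw [List.mem_iff_getElem]
    have h5 := Nat.div_add_mod n j
    have h6 := Nat.mod_lt n hj
    rw [mul_comm] at h5
    refine ⟨n % j, by simp; omega, ?_⟩
    simp [h5])
  rwa [checkStateF_eq] at h4

end Pool.Agent.H60.PAry
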