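import Mathlib
import Pool.Agent.H60.PAry
import Pool.Agent.H60.PAryF

namespace Pool.Agent.H60.PAry

open Finset
open Pool.Agent.H60.ColPart (G one_sub_mul_G)

/-! ### Kronecker packing -/

def packF (B : ℕ) (f : ℕ → ℕ) : ℕ → ℕ
  | 0 => 0
  | k + 1 => Nat.add (packF B f k) (Nat.mul (f k) (Nat.pow B k))

noncomputable def polyF (f : ℕ → ℕ) (k : ℕ) : Polynomial ℕ :=
  ∑ i ∈ range k, Polynomial.monomial i (f i)

lemma eval_polyF (B : ℕ) (f : ℕ → ℕ) (k : ℕ) : (polyF f k).eval B = packF B f k := by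
  induction k with
  | zero => simp [polyF, packF]
  | succ k ih =>
    rw [polyF, sum_range_succ, Polynomial.eval_add, ← polyF, ih, Polynomial.eval_monomial]
    rfl

lemma coeff_polyF (f : ℕ → ℕ) (k i : ℕ) : (polyF f k).coeff i = if i < k then f i else 0 := by
  simp only [polyF, Polynomial.finset_sum_coeff, Polynomial.coeff_monomial]
  rw [sum_ite_eq' (range k) i f]
  simp

def dig (B N i : ℕ) : ℕ := Nat.mod (Nat.div N (Nat.pow B i)) B

lemma dig_eq (B N i : ℕ) : dig B N i = N / B ^ i % B := rfl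

lemma dig_eval (B : ℕ) (i : ℕ) (f : Polynomial ℕ) (h : ∀ j, f.coeff j < B) :
    dig B (f.eval B) i = f.coeff i := by
  rw [dig_eq]
  have hB : 0 < B := lt_of_le_of_lt (Nat.zero_le _) (h 0)
  induction i generalizing f with
  | zero =>
    conv_lhs => rw [← Polynomial.divX_mul_X_add f]
    simp [Nat.mod_eq_of_lt (h 0)]
  | succ i ih =>
    have e : f.eval B / B = f.divX.eval B := by
      conv_lhs => rw [← Polynomial.divX_mul_X_add f]
      simp only [Polynomial.eval_add, Polynomial.eval_mul, Polynomial.eval_X, Polynomial.eval_C]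
      rw [add_comm, Nat.add_mul_div_right _ _ hB, Nat.div_eq_of_lt (h 0), zero_add]
    rw [pow_succ', ← Nat.div_div_eq_div_mul, e, ih _ (fun j => by
      rw [Polynomial.coeff_divX]; exact h _), Polynomial.coeff_divX]

lemma coeff_le_eval_one (f : Polynomial ℕ) (i : ℕ) : f.coeff i ≤ f.eval 1 := by
  by_cases h : i ∈ f.support
  · rw [Polynomial.eval_eq_sum, Polynomial.sum]
    simp only [one_pow, mul_one]
    exact single_le_sum (f := fun j => f.coeff j) (fun _ _ => Nat.zero_le _) h
  · rw [Polynomial.notMem_support_iff.1 h]; exact Nat.zero_le _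

lemma packF_one_le (f : ℕ → ℕ) (M k : ℕ) (h : ∀ i, f i ≤ M) : packF 1 f k ≤ k * M := by
  induction k with
  | zero => simp [packF]
  | succ k ih =>
    have : packF 1 f (k + 1) = packF 1 f k + f k * 1 ^ k := rfl
    rw [this, one_pow, mul_one, add_mul, one_mul]
    exact add_le_add ih (h k)

lemma dig_mul (B : ℕ) (f g : Polynomial ℕ) (h : f.eval 1 * g.eval 1 < B) (i : ℕ) :
    dig B (f.eval B * g.eval B) i = (f * g).coeff i := by
  rw [← Polynomial.eval_mul]
  refine dig_eval B i _ fun j => lt_of_le_of_lt (coeff_le_eval_one _ j) ?_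
  rwa [Polynomial.eval_mul]

def cmpD (B M D1 D2 : ℕ) : ℕ → Bool
  | 0 => true
  | k + 1 => Nat.beq (Nat.mod (dig B D1 k) M) (Nat.mod (dig B D2 k) M) && cmpD B M D1 D2 k

lemma cmpD_spec (B M D1 D2 K : ℕ) (h : cmpD B M D1 D2 K = true) (i : ℕ) (hi : i < K) :
    dig B D1 i % M = dig B D2 i % M := by
  induction K with
  | zero => omega
  | succ K ih =>
    simp only [cmpD, Bool.and_eq_true, Nat.beq_eq] at h
    rcases Nat.lt_succ_iff_lt_or_eq.1 hi with h' | rfl
    · exact ih h.2 h'
    · exact h.1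

lemma dig_of_lt (B N K i : ℕ) (hB : 0 < B) (h : N < B ^ K) (hi : K ≤ i) : dig B N i = 0 := by
  rw [dig_eq, Nat.div_eq_of_lt (h.trans_le (Nat.pow_le_pow_right hB hi)), Nat.zero_mod]

inductive Tr : Type
  | nil : Tr
  | node : Tr → ℕ → Tr → Tr

def Tr.mem (N : ℕ) : Tr → Bool
  | .nil => false
  | .node l v r => cond (Nat.beq N v) true (cond (Nat.ble N v) (l.mem N) (r.mem N))

def Tr.all (f : ℕ → Bool) : Tr → Bool
  | .nil => true
  | .node l v r => f v && (l.all f && r.all f)

lemma Tr.all_mem (f : ℕ → Bool) (N : ℕ) (t : Tr) (h : t.all f = true) (hm : t.mem N = true) :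
    f N = true := by
  induction t with
  | nil => simp [Tr.mem] at hm
  | node l v r ihl ihr =>
    simp only [Tr.all, Bool.and_eq_true] at h
    rw [Tr.mem] at hm
    cases h1 : Nat.beq N v
    · rw [h1] at hm
      cases h2 : Nat.ble N v
      · rw [h2] at hm; exact ihr h.2.2 hm
      · rw [h2] at hm; exact ihl h.2.1 hm
    · rw [Nat.eq_of_beq_eq_true h1]; exact h.1

def allLt (f : ℕ → Bool) : ℕ → Bool
  | 0 => true
  | k + 1 => f k && allLt f k

lemma allLt_spec (f : ℕ → Bool) (K : ℕ) (h : allLt f K = true) (i : ℕ) (hi : i < K) :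
    f i = true := by
  induction K with
  | zero => omega
  | succ K ih =>
    simp only [allLt, Bool.and_eq_true] at h
    rcases Nat.lt_succ_iff_lt_or_eq.1 hi with h' | rfl
    · exact ih h.2 h'
    · exact h.1

def stepK (p M L B K C1 C2 W : ℕ) (ok : ℕ → Bool) (T : Tr) (N : ℕ) : Bool :=
  forceN (packF B (dig M N) L) fun PB =>
    forceN (Nat.mul PB W) fun H =>
      forceN (Nat.mul C1 (packF B (fun j => Nat.mod (dig B H j) M) (Nat.mul p L))) fun D1 =>
        forceN (Nat.mul PB C2) fun D2 =>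
          (Nat.ble (Nat.succ D1) (Nat.pow B K) && Nat.ble (Nat.succ D2) (Nat.pow B K)) &&
            (cmpD B M D1 D2 K && allLt (fun d =>
              forceN (packF M (fun i => Nat.mod (dig B H (Nat.add (Nat.mul p i) d)) M) L) fun N' =>
                T.mem N' && (Nat.beq d 0 || ok (Nat.mod (dig B H d) M))) p)

variable {R : Type*} [CommRing R]

/-- the power series over `R` attached to a polynomial over `ℕ`. -/
noncomputable def toPS (R : Type*) [CommRing R] : Polynomial ℕ →+* PowerSeries R :=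
  (Polynomial.coeToPowerSeries.ringHom).comp (Polynomial.mapRingHom (Nat.castRingHom R))

lemma coeff_toPS (f : Polynomial ℕ) (i : ℕ) :
    PowerSeries.coeff i (toPS R f) = (f.coeff i : R) := by
  simp [toPS]

lemma toPS_list (l : List ℕ) : toPS R (polyF (fun i => l.getD i 0) l.length) = ofL R l := by
  ext i
  rw [coeff_toPS, coeff_polyF, coeff_ofL]
  split_ifs with h
  · rfl
  · rw [List.getD_eq_default _ _ (by omega)]

def packL (B : ℕ) (l : List ℕ) : ℕ := packF B (fun i => l.getD i 0) l.length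

def checkK (p k M a L B K C1 C2 W : ℕ) (ok : ℕ → Bool) (T : Tr) : Bool :=
  (forceL (powL M (oneSub M 1) (a + k)) fun c1 =>
    Nat.beq (packL B c1) C1 && Nat.ble (packL 1 c1 * (p * L * M) + 1) B) &&
  ((forceL (powL M (oneSub M p) a) fun c2 =>
    Nat.beq (packL B c2) C2 && Nat.ble (L * M * packL 1 c2 + 1) B) &&
  T.all (stepK p M L B K C1 C2 W ok T))

open PowerSeries in
theorem autoK (p k M a L B K C1 C2 W : ℕ) (hp : 2 ≤ p) (hL : 1 ≤ L) (hM : (M : R) = 0)
    (hM1 : 1 ≤ M) (ok : ℕ → Bool) (T : Tr) (h : checkK p k M a L B K C1 C2 W ok T = true)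
    (n : ℕ) (hn : 1 ≤ n) :
    ∀ N, T.mem N = true → ∃ r, ok r = true ∧
      coeff n (toPS R (polyF (dig M N) L) * (G R 1 ^ a * PAry.B R p ^ k)) = (r : R) := by
  simp only [checkK, forceL_eq, Bool.and_eq_true, Nat.beq_eq, Nat.ble_eq] at h
  obtain ⟨⟨hC1, hS1⟩, ⟨hC2, hS2⟩, hT⟩ := h
  have hB : 0 < B := by omega
  have castM : ∀ x : ℕ, ((x % M : ℕ) : R) = x := fun x => by
    conv_rhs => rw [← Nat.mod_add_div x M]
    push_cast
    rw [hM]; ring
  induction n using Nat.strong_induction_on with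
  | _ n ih =>
    intro N hN
    have hp0 : p ≠ 0 := by omega
    have h1 := Tr.all_mem _ N T hT hN
    simp only [stepK, forceN_eq, Bool.and_eq_true, Nat.ble_eq] at h1
    set PB := packF B (dig M N) L with hPB
    set H := Nat.mul PB W with hH
    set q : ℕ → ℕ := fun j => Nat.mod (dig B H j) M with hq
    obtain ⟨⟨hD1, hD2⟩, hcmp, hall⟩ := h1
    have hqM : ∀ j, q j < M := fun j => Nat.mod_lt _ hM1
    have hdM : ∀ j, dig M N j < M := fun j => Nat.mod_lt _ hM1
    set c1 := powL M (oneSub M 1) (a + k) with hc1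
    set c2 := powL M (oneSub M p) a with hc2
    have e1 : ∀ i, dig B (Nat.mul C1 (packF B q (Nat.mul p L))) i =
        (polyF (fun i => c1.getD i 0) c1.length * polyF q (p * L)).coeff i := fun i => by
      rw [← dig_mul B, eval_polyF, eval_polyF, ← hC1]
      · rfl
      · rw [eval_polyF, eval_polyF]
        have := packF_one_le q M (p * L) fun i => (hqM i).le
        exact lt_of_le_of_lt (Nat.mul_le_mul_left _ this) hS1
    have e2 : ∀ i, dig B (Nat.mul PB C2) i =
        (polyF (dig M N) L * polyF (fun i => c2.getD i 0) c2.length).coeff i := fun i => by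
      rw [← dig_mul B, eval_polyF, eval_polyF, ← hC2]
      · rfl
      · rw [eval_polyF, eval_polyF]
        have := packF_one_le (dig M N) M L fun i => (hdM i).le
        exact lt_of_le_of_lt (Nat.mul_le_mul_right _ this) hS2
    have h4 : toPS R (polyF (fun i => c1.getD i 0) c1.length * polyF q (p * L)) =
        toPS R (polyF (dig M N) L * polyF (fun i => c2.getD i 0) c2.length) := by
      ext i
      rw [coeff_toPS, coeff_toPS, ← e1, ← e2]
      rcases Nat.lt_or_ge i K with hi | hi
      · rw [← castM, cmpD_spec B M _ _ K hcmp i hi, castM]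
      · rw [dig_of_lt B _ K i hB hD1 hi, dig_of_lt B _ K i hB hD2 hi]
    rw [map_mul, map_mul, toPS_list, toPS_list, hc1, hc2, ofL_powL M hM, ofL_powL M hM,
      ofL_oneSub M hM hM1 1 le_rfl, ofL_oneSub M hM hM1 p (by omega)] at h4
    set Pp := toPS R (polyF (dig M N) L) with hPp
    set Qp := toPS R (polyF q (p * L)) with hQp
    have g1 := congrArg (· ^ (a + k)) (one_sub_mul_G (R := R) 1 one_pos)
    have g2 := congrArg (· ^ a) (one_sub_mul_G (R := R) p (by omega))
    simp only [mul_pow, one_pow] at g1 g2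
    have h5 : Pp * (G R 1 ^ a * PAry.B R p ^ k) =
        Qp * expand p hp0 (G R 1 ^ a * PAry.B R p ^ k) := by
      nth_rewrite 1 [B_eq p hp hp0]
      rw [map_mul, map_pow, map_pow, expand_G, mul_one, mul_pow]
      generalize expand p hp0 (PAry.B R p) ^ k = E
      rw [pow_add] at g1 h4
      rw [pow_add (G R 1)] at g1
      linear_combination (-(E * G R p ^ a * Qp)) * g1 + (E * G R p ^ a * G R 1 ^ a *
        G R 1 ^ k) * h4.symm - (Pp * E * G R 1 ^ a * G R 1 ^ k) * g2 +
        (2 * (Qp * E * G R p ^ a)) * g1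
    have hd : n % p < p := Nat.mod_lt _ (by omega)
    have h6 := allLt_spec _ p hall _ hd
    simp only [Bool.and_eq_true, Bool.or_eq_true, Nat.beq_eq] at h6
    obtain ⟨h6, h7⟩ := h6
    set N' := packF M (fun i => Nat.mod (dig B H (Nat.add (Nat.mul p i) (n % p))) M) L with hN'
    have h8 : PowerSeries.mk (fun i => coeff (p * i + n % p) Qp) =
        toPS R (polyF (dig M N') L) := by
      ext i
      rw [coeff_mk, hQp, coeff_toPS, coeff_toPS, coeff_polyF, coeff_polyF]
      by_cases hi : i < L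
      · have : p * (i + 1) ≤ p * L := Nat.mul_le_mul_left _ hi
        rw [mul_add] at this
        rw [if_pos hi, if_pos (by omega), hN', ← eval_polyF, dig_eval, coeff_polyF, if_pos hi]
        · rfl
        · intro j
          rw [coeff_polyF]
          split_ifs
          · exact hqM _
          · exact hM1
      · have : p * L ≤ p * i := Nat.mul_le_mul_left _ (by omega)
        rw [if_neg hi, if_neg (by omega)]
    rw [h5, ← Nat.div_add_mod n p, coeff_mul_expand p hp0 _ hd]
    rcases Nat.eq_zero_or_pos (n / p) with h9 | h9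
    · have h10 : n % p ≠ 0 := by
        have := Nat.div_add_mod n p
        rw [h9] at this
        omega
      refine ⟨_, h7.resolve_left h10, ?_⟩
      rw [h9, coeff_zero_eq_constantCoeff_apply, map_mul, map_mul, map_pow, map_pow,
        constantCoeff_G, constantCoeff_B, ← coeff_zero_eq_constantCoeff_apply, coeff_mk, hQp,
        coeff_toPS, coeff_polyF, if_pos (by nlinarith)]
      simp [hq]
    · rw [h8]
      exact ih _ (Nat.div_lt_self (by omega) hp) h9 _ h6

open PowerSeries in
theorem autoK_S (p m k M b L B K C1 C2 W N : ℕ) (hp : 2 ≤ p) (hL : b + 1 ≤ L) (hM1 : 1 ≤ M)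
    (ok : ℕ → Bool) (T : Tr) (h : checkK p k M (m + b) L B K C1 C2 W ok T = true)
    (h0 : T.mem N = true)
    (h1 : eqL M ((List.range L).map (dig M N)) (powL M (oneSub M 1) b) = true)
    (n : ℕ) (hn : 1 ≤ n) : ∃ r, ok r = true ∧ S p m k n % M = r % M := by
  have hM : (M : ZMod M) = 0 := ZMod.natCast_self M
  obtain ⟨r, h2, h3⟩ := autoK p k M (m + b) L B K C1 C2 W hp (by omega) hM hM1 ok T h n hn N h0
  refine ⟨r, h2, (ZMod.natCast_eq_natCast_iff' _ _ _).1 ?_⟩
  have h4 : toPS (ZMod M) (polyF (dig M N) L) = ofL (ZMod M) ((List.range L).map (dig M N)) := by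
    ext i
    rw [coeff_toPS, coeff_polyF, coeff_ofL]
    split_ifs with hi
    · simp [List.getD_eq_getElem?_getD, hi]
    · rw [List.getD_eq_default _ _ (by simp; omega)]
  rw [S_cast p hp, ← h3, h4, ofL_eqL M hM _ _ h1, ofL_powL M hM, ofL_oneSub M hM hM1 1 le_rfl]
  congr 1
  have g1 := congrArg (· ^ b) (one_sub_mul_G (R := ZMod M) 1 one_pos)
  simp only [mul_pow, one_pow] at g1
  rw [pow_add]
  linear_combination (-(G (ZMod M) 1 ^ m * PAry.B (ZMod M) p ^ k)) * g1

end Pool.Agent.H60.PAry
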