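import Mathlib

set_option autoImplicit false

namespace Pool.Agent.H60.PD

open Real MeasureTheory Set intervalIntegral Filter Topology

noncomputable def II (α ω : ℝ) : ℝ := ∫ t in (0:ℝ)..ω, t ^ (α - 2) * Real.cos t

theorem intInt {α : ℝ} (hα : 1 < α) (g : ℝ → ℝ) (hg : Continuous g) (a b : ℝ) :
    IntervalIntegrable (fun t : ℝ => t ^ (α - 2) * g t) volume a b :=
  (intervalIntegrable_rpow' (by linarith)).mul_continuousOn hg.continuousOn

theorem cont_rpow {α : ℝ} (hα : 0 ≤ α) : Continuous (fun t : ℝ => t ^ α) :=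
  continuous_id.rpow_const (fun _ => Or.inr hα)

theorem main_coeff {α ω : ℝ} (hα : 1 < α) (hω : 0 < ω) (hc : Real.cos ω = 0) :
    ∫ x in (0:ℝ)..1, (1 - x ^ α) * Real.cos (ω * x)
      = α * (α - 1) / ω ^ 2 * ∫ x in (0:ℝ)..1, x ^ (α - 2) * Real.cos (ω * x) := by
  have c1 : Continuous (fun t : ℝ => t ^ α) := cont_rpow (by linarith)
  have c2 : Continuous (fun t : ℝ => t ^ (α - 1)) := cont_rpow (by linarith)
  have i1 : IntervalIntegrable (fun x : ℝ => (1 - x ^ α) * Real.cos (ω * x)) volume 0 1 := by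
    apply Continuous.intervalIntegrable; fun_prop
  have i2 : IntervalIntegrable (fun x : ℝ => x ^ (α - 2) * Real.cos (ω * x)) volume 0 1 :=
    intInt hα _ (by fun_prop) 0 1
  have key : ∫ x in (0:ℝ)..1, ((1 - x ^ α) * Real.cos (ω * x)
      - α * (α - 1) / ω ^ 2 * (x ^ (α - 2) * Real.cos (ω * x)))
      = (fun x : ℝ => (1 - x ^ α) * Real.sin (ω * x) / ω
          - α * (x ^ (α - 1) * Real.cos (ω * x)) / ω ^ 2) 1
        - (fun x : ℝ => (1 - x ^ α) * Real.sin (ω * x) / ω
          - α * (x ^ (α - 1) * Real.cos (ω * x)) / ω ^ 2) 0 := by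
    refine integral_eq_sub_of_hasDerivAt_of_le (f := fun x : ℝ => (1 - x ^ α) * Real.sin (ω * x) / ω
          - α * (x ^ (α - 1) * Real.cos (ω * x)) / ω ^ 2) zero_le_one ?_ ?_ ?_
    · apply Continuous.continuousOn; fun_prop
    · intro x hx
      have hx0 : x ≠ 0 := ne_of_gt hx.1
      have d1 : HasDerivAt (fun x : ℝ => x ^ α) (α * x ^ (α - 1)) x :=
        Real.hasDerivAt_rpow_const (Or.inl hx0)
      have d2 : HasDerivAt (fun x : ℝ => x ^ (α - 1)) ((α - 1) * x ^ (α - 1 - 1)) x :=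
        Real.hasDerivAt_rpow_const (Or.inl hx0)
      have d3 : HasDerivAt (fun x : ℝ => ω * x) ω x := by
        simpa using (hasDerivAt_id x).const_mul ω
      have d4 := d3.sin
      have d5 := d3.cos
      have e : α - 1 - 1 = α - 2 := by ring
      rw [e] at d2
      have d6 := ((((hasDerivAt_const x (1:ℝ)).sub d1).mul d4).div_const ω).sub
        (((d2.mul d5).const_mul α).div_const (ω ^ 2))
      refine HasDerivAt.congr_deriv d6 ?_
      simp only [Pi.sub_apply]
      field_simp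
      ring
    · exact i1.sub (i2.const_mul _)
  rw [integral_sub i1 (i2.const_mul _), intervalIntegral.integral_const_mul] at key
  have h0 : (0:ℝ) ^ (α - 1) = 0 := Real.zero_rpow (by linarith)
  simp only [Real.one_rpow, mul_one, hc, mul_zero, Real.sin_zero, h0] at key
  simp at key
  linarith

theorem J_eq {α ω : ℝ} (hω : 0 < ω) :
    ∫ x in (0:ℝ)..1, x ^ (α - 2) * Real.cos (ω * x) = ω ^ (1 - α) * II α ω := by
  have h := intervalIntegral.smul_integral_comp_mul_left
    (fun t : ℝ => t ^ (α - 2) * Real.cos t) (a := 0) (b := 1) ω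
  simp only [mul_zero, mul_one, smul_eq_mul] at h
  unfold II
  rw [← h]
  have h2 : ∫ x in (0:ℝ)..1, (ω * x) ^ (α - 2) * Real.cos (ω * x)
      = ω ^ (α - 2) * ∫ x in (0:ℝ)..1, x ^ (α - 2) * Real.cos (ω * x) := by
    rw [← intervalIntegral.integral_const_mul]
    apply integral_congr
    intro x hx
    rw [uIcc_of_le zero_le_one] at hx
    simp only
    rw [Real.mul_rpow hω.le hx.1]; ring
  rw [h2, ← mul_assoc, ← mul_assoc]
  have h3 : ω ^ (1 - α) * ω * ω ^ (α - 2) = 1 := by
    have : ω ^ (1 - α) * ω ^ (1:ℝ) * ω ^ (α - 2) = ω ^ (0:ℝ) := by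
      rw [← Real.rpow_add hω, ← Real.rpow_add hω]; congr 1; ring
    simpa using this
  rw [h3, one_mul]

theorem J_bound {α ω : ℝ} (hα : 1 < α) :
    |∫ x in (0:ℝ)..1, x ^ (α - 2) * Real.cos (ω * x)| ≤ 1 / (α - 1) := by
  have h1 : ∫ x in (0:ℝ)..1, x ^ (α - 2) = 1 / (α - 1) := by
    rw [integral_rpow (Or.inl (by linarith))]
    have e : α - 2 + 1 = α - 1 := by ring
    rw [e, Real.one_rpow, Real.zero_rpow (by linarith)]; simp
  rw [← h1, ← Real.norm_eq_abs]
  apply intervalIntegral.norm_integral_le_of_norm_le zero_le_one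
  · refine Eventually.of_forall (fun t ht => ?_)
    rw [Real.norm_eq_abs, abs_mul, abs_of_nonneg (Real.rpow_nonneg ht.1.le _)]
    exact mul_le_of_le_one_right (Real.rpow_nonneg ht.1.le _) (Real.abs_cos_le_one _)
  · exact intervalIntegrable_rpow' (by linarith)

theorem shift_int {α a : ℝ} :
    ∫ t in (a + π)..(a + π + π), t ^ (α - 2) * Real.cos t
      = - ∫ t in a..(a + π), (t + π) ^ (α - 2) * Real.cos t := by
  rw [← intervalIntegral.integral_comp_add_right (fun t : ℝ => t ^ (α - 2) * Real.cos t) π,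
    ← intervalIntegral.integral_neg]
  apply integral_congr
  intro x _
  simp only [Real.cos_add_pi]; ring

theorem II_add {α : ℝ} (hα : 1 < α) (a b : ℝ) :
    II α b = II α a + ∫ t in a..b, t ^ (α - 2) * Real.cos t := by
  unfold II
  rw [integral_add_adjacent_intervals (intInt hα _ Real.continuous_cos _ _)
    (intInt hα _ Real.continuous_cos _ _)]

theorem intInt2 {α a : ℝ} (ha : 0 < a) :
    IntervalIntegrable (fun t : ℝ => (t + π) ^ (α - 2) * Real.cos t) volume a (a + π) := by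
  apply ContinuousOn.intervalIntegrable
  rw [uIcc_of_le (by linarith [Real.pi_pos])]
  apply ContinuousOn.mul _ Real.continuous_cos.continuousOn
  apply ContinuousOn.rpow_const (by fun_prop)
  intro x hx; left; linarith [hx.1, Real.pi_pos]

theorem II_two {α a : ℝ} (hα : 1 < α) (ha : 0 < a) :
    II α (a + π + π) = II α a
      + ∫ t in a..(a + π), (t ^ (α - 2) * Real.cos t - (t + π) ^ (α - 2) * Real.cos t) := by
  rw [II_add hα (a + π) (a + π + π), II_add hα a (a + π), shift_int,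
    integral_sub (intInt hα _ Real.continuous_cos _ _) (intInt2 ha)]
  ring

theorem II_step1 {α a : ℝ} (hα : 1 < α) (hα2 : α < 2) (ha : 0 < a)
    (hc : ∀ t ∈ Icc a (a + π), 0 ≤ Real.cos t) : II α a ≤ II α (a + π + π) := by
  rw [II_two hα ha]
  have : 0 ≤ ∫ t in a..(a + π), (t ^ (α - 2) * Real.cos t - (t + π) ^ (α - 2) * Real.cos t) := by
    apply integral_nonneg (by linarith [Real.pi_pos])
    intro t ht
    have h1 : (t + π) ^ (α - 2) ≤ t ^ (α - 2) :=
      Real.rpow_le_rpow_of_nonpos (by linarith [ht.1]) (by linarith [Real.pi_pos]) (by linarith)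
    nlinarith [hc t ht]
  linarith

theorem II_step1' {α a : ℝ} (hα : 1 < α) (hα2 : α < 2) (ha : 0 < a)
    (hc : ∀ t ∈ Ioo a (a + π), 0 < Real.cos t) : II α a < II α (a + π + π) := by
  rw [II_two hα ha]
  have : 0 < ∫ t in a..(a + π), (t ^ (α - 2) * Real.cos t - (t + π) ^ (α - 2) * Real.cos t) := by
    apply intervalIntegral_pos_of_pos_on
      ((intInt hα _ Real.continuous_cos _ _).sub (intInt2 ha)) _ (by linarith [Real.pi_pos])
    intro t ht
    have h1 : (t + π) ^ (α - 2) < t ^ (α - 2) :=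
      Real.rpow_lt_rpow_of_neg (by linarith [ht.1]) (by linarith [Real.pi_pos]) (by linarith)
    nlinarith [hc t ht]
  linarith

theorem II_step2 {α a : ℝ} (hα : 1 < α) (ha : 0 < a)
    (hc : ∀ t ∈ Icc a (a + π), 0 ≤ Real.cos t) : II α (a + π + π) ≤ II α (a + π) := by
  rw [II_add hα (a + π) (a + π + π), shift_int]
  have : 0 ≤ ∫ t in a..(a + π), (t + π) ^ (α - 2) * Real.cos t := by
    apply integral_nonneg (by linarith [Real.pi_pos])
    intro t ht
    exact mul_nonneg (Real.rpow_nonneg (by linarith [ht.1, Real.pi_pos]) _) (hc t ht)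
  linarith

theorem cos_nonneg_on (j : ℕ) (t : ℝ)
    (ht : t ∈ Icc (3 * π / 2 + 2 * π * j) (3 * π / 2 + 2 * π * j + π)) : 0 ≤ Real.cos t := by
  have h := Real.cos_sub_nat_mul_two_pi t (j + 1)
  rw [← h]
  apply Real.cos_nonneg_of_mem_Icc
  push_cast
  constructor <;> nlinarith [ht.1, ht.2]

theorem II_odd_mono {α : ℝ} (hα : 1 < α) (hα2 : α < 2) (j : ℕ) :
    II α (7 * π / 2) ≤ II α (3 * π / 2 + 2 * π * (j + 1 : ℕ)) := by
  induction j with
  | zero => apply le_of_eq; congr 1; push_cast; ring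
  | succ j ih =>
    have hp : 0 < 3 * π / 2 + 2 * π * ((j + 1 : ℕ) : ℝ) := by positivity
    have h := II_step1 hα hα2 hp (cos_nonneg_on (j + 1))
    have e : 3 * π / 2 + 2 * π * ((j + 1 + 1 : ℕ) : ℝ)
        = 3 * π / 2 + 2 * π * ((j + 1 : ℕ) : ℝ) + π + π := by push_cast; ring
    rw [e]; linarith

theorem II_ge {α : ℝ} (hα : 1 < α) (hα2 : α < 2) (k : ℕ) (hk : 2 ≤ k) :
    II α (7 * π / 2) ≤ II α ((2 * k + 1) * π / 2) := by
  rcases Nat.even_or_odd' k with ⟨j, rfl | rfl⟩
  · obtain ⟨i, rfl⟩ : ∃ i, j = i + 1 := ⟨j - 1, by omega⟩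
    have hp : 0 < 3 * π / 2 + 2 * π * ((i : ℕ) : ℝ) := by positivity
    have h := II_step2 hα hp (cos_nonneg_on i)
    have h2 := II_odd_mono hα hα2 i
    have e : 3 * π / 2 + 2 * π * ((i + 1 : ℕ) : ℝ)
        = 3 * π / 2 + 2 * π * ((i : ℕ) : ℝ) + π + π := by push_cast; ring
    have e2 : (2 * ((2 * (i + 1) : ℕ) : ℝ) + 1) * π / 2
        = 3 * π / 2 + 2 * π * ((i : ℕ) : ℝ) + π := by push_cast; ring
    rw [e] at h2; rw [e2]; linarith
  · obtain ⟨i, rfl⟩ : ∃ i, j = i + 1 := ⟨j - 1, by omega⟩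
    have h2 := II_odd_mono hα hα2 i
    have e2 : (2 * ((2 * (i + 1) + 1 : ℕ) : ℝ) + 1) * π / 2
        = 3 * π / 2 + 2 * π * ((i + 1 : ℕ) : ℝ) := by push_cast; ring
    rw [e2]; exact h2

theorem II_7 {α : ℝ} (hα : 1 < α) (hα2 : α < 2) : II α (3 * π / 2) < II α (7 * π / 2) := by
  have hp : 0 < 3 * π / 2 := by positivity
  have h := II_step1' hα hα2 hp (fun t ht => by
    rw [← Real.cos_sub_two_pi t]
    apply Real.cos_pos_of_mem_Ioo
    constructor <;> linarith [ht.1, ht.2])
  have e : 3 * π / 2 + π + π = 7 * π / 2 := by ring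
  rwa [e] at h

theorem II_1 {α : ℝ} (hα : 1 < α) : 0 < II α (π / 2) := by
  unfold II
  apply intervalIntegral_pos_of_pos_on (intInt hα _ Real.continuous_cos _ _) _ (by positivity)
  intro t ht
  apply mul_pos (Real.rpow_pos_of_pos ht.1 _)
  apply Real.cos_pos_of_mem_Ioo
  constructor <;> linarith [ht.1, ht.2, Real.pi_pos]

theorem II_cont {α ω : ℝ} (hα : 1 < α) (hα3 : α < 3) (hω : 0 < ω) :
    ContinuousAt (fun β => II β ω) α := by
  unfold II
  set α1 := (1 + α) / 2 with h1
  apply intervalIntegral.continuousAt_of_dominated_interval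
    (bound := fun t : ℝ => t ^ (α1 - 2) + t)
  · refine Eventually.of_forall (fun β => ?_)
    apply Measurable.aestronglyMeasurable
    fun_prop
  · have : Ioo α1 3 ∈ 𝓝 α := Ioo_mem_nhds (by linarith) hα3
    filter_upwards [this] with β hβ
    refine Eventually.of_forall (fun t ht => ?_)
    rw [uIoc_of_le hω.le] at ht
    have ht0 := ht.1
    rw [Real.norm_eq_abs, abs_mul, abs_of_nonneg (Real.rpow_nonneg ht0.le _)]
    have b1 : t ^ (β - 2) * |Real.cos t| ≤ t ^ (β - 2) :=
      mul_le_of_le_one_right (Real.rpow_nonneg ht0.le _) (Real.abs_cos_le_one _)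
    have b0 := Real.rpow_nonneg ht0.le (α1 - 2)
    rcases le_total t 1 with h | h
    · have : t ^ (β - 2) ≤ t ^ (α1 - 2) :=
        Real.rpow_le_rpow_of_exponent_ge ht0 h (by linarith [hβ.1])
      linarith
    · have : t ^ (β - 2) ≤ t ^ (1:ℝ) :=
        Real.rpow_le_rpow_of_exponent_le h (by linarith [hβ.2])
      rw [Real.rpow_one] at this
      linarith
  · exact (intervalIntegrable_rpow' (by linarith)).add (continuous_id.intervalIntegrable _ _)
  · refine Eventually.of_forall (fun t ht => ?_)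
    rw [uIoc_of_le hω.le] at ht
    apply ContinuousAt.mul _ continuousAt_const
    apply ContinuousAt.rpow continuousAt_const (by fun_prop)
    left; exact ne_of_gt ht.1

theorem D_eq {ω : ℝ} (h0 : ω ≠ 0) (h1 : 3 * π + ω ≠ 0) (h2 : 3 * π - ω ≠ 0) :
    ∫ x in (0:ℝ)..1, (1 + Real.cos (3 * π * x)) * Real.cos (ω * x)
      = Real.sin ω * (9 * π ^ 2) / (ω * ((3 * π + ω) * (3 * π - ω))) := by
  have key : ∫ x in (0:ℝ)..1, (1 + Real.cos (3 * π * x)) * Real.cos (ω * x)
      = (fun x : ℝ => Real.sin (ω * x) / ω + Real.sin ((3 * π + ω) * x) / (3 * π + ω) / 2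
          + Real.sin ((3 * π - ω) * x) / (3 * π - ω) / 2) 1
        - (fun x : ℝ => Real.sin (ω * x) / ω + Real.sin ((3 * π + ω) * x) / (3 * π + ω) / 2
          + Real.sin ((3 * π - ω) * x) / (3 * π - ω) / 2) 0 := by
    refine integral_eq_sub_of_hasDerivAt (f := fun x : ℝ => Real.sin (ω * x) / ω
          + Real.sin ((3 * π + ω) * x) / (3 * π + ω) / 2
          + Real.sin ((3 * π - ω) * x) / (3 * π - ω) / 2) ?_ ?_
    · intro x _
      have d (c : ℝ) : HasDerivAt (fun x : ℝ => c * x) c x := by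
        simpa using (hasDerivAt_id x).const_mul c
      have d6 := (((d ω).sin.div_const ω).add
        (((d (3 * π + ω)).sin.div_const (3 * π + ω)).div_const 2)).add
        (((d (3 * π - ω)).sin.div_const (3 * π - ω)).div_const 2)
      refine HasDerivAt.congr_deriv d6 ?_
      rw [add_mul (3 * π) ω x, sub_mul (3 * π) ω x, Real.cos_add, Real.cos_sub]
      field_simp
      ring
    · apply Continuous.intervalIntegrable; fun_prop
  rw [key]
  have s1 : Real.sin (3 * π + ω) = - Real.sin ω := by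
    have : 3 * π + ω = ω + π + 2 * π := by ring
    rw [this, Real.sin_add_two_pi, Real.sin_add_pi]
  have s2 : Real.sin (3 * π - ω) = Real.sin ω := by
    have : 3 * π - ω = π - ω + 2 * π := by ring
    rw [this, Real.sin_add_two_pi, Real.sin_pi_sub]
  simp only [mul_one, mul_zero, Real.sin_zero, s1, s2]
  field_simp
  ring

end Pool.Agent.H60.PD
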