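import Mathlib

set_option autoImplicit false

namespace Pool.Agent.H60.PD

open Real MeasureTheory Set intervalIntegral Filter Topology

def PDc (τ : ℝ → ℝ) : Prop :=
  ∃ μ : Measure ℝ, IsFiniteMeasure μ ∧
    ∀ ξ ∈ Set.Icc (-1 : ℝ) 1, ∫ x, Complex.exp (Complex.I * ξ * x) ∂μ = (τ ξ : ℂ)

theorem exp_integrable (μ : Measure ℝ) [IsFiniteMeasure μ] (ξ : ℝ) :
    Integrable (fun x : ℝ => Complex.exp (Complex.I * ξ * x)) μ := by
  apply Integrable.of_bound (C := 1)
  · apply Continuous.aestronglyMeasurable; fun_prop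
  · refine Eventually.of_forall (fun x => ?_)
    have : Complex.I * ξ * x = ((ξ * x : ℝ) : ℂ) * Complex.I := by push_cast; ring
    rw [this, Complex.norm_exp_ofReal_mul_I]

theorem PDc.add {f g : ℝ → ℝ} (hf : PDc f) (hg : PDc g) : PDc (fun x => f x + g x) := by
  obtain ⟨μ, hμ, h1⟩ := hf
  obtain ⟨ν, hν, h2⟩ := hg
  refine ⟨μ + ν, inferInstance, fun ξ hξ => ?_⟩
  rw [integral_add_measure (exp_integrable μ ξ) (exp_integrable ν ξ), h1 ξ hξ, h2 ξ hξ]
  push_cast; rfl

theorem PDc.congr {f g : ℝ → ℝ} (hf : PDc f) (h : ∀ x ∈ Set.Icc (-1 : ℝ) 1, f x = g x) :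
    PDc g := by
  obtain ⟨μ, hμ, h1⟩ := hf
  exact ⟨μ, hμ, fun ξ hξ => by rw [h1 ξ hξ, h ξ hξ]⟩

theorem PDc_cos {ε : ℝ} (hε : 0 ≤ ε) (c : ℝ) : PDc (fun x => ε * Real.cos (c * x)) := by
  refine ⟨ENNReal.ofReal (ε / 2) • Measure.dirac c + ENNReal.ofReal (ε / 2) • Measure.dirac (-c),
    ?_, fun ξ _ => ?_⟩
  · have (y : ℝ) : IsFiniteMeasure (ENNReal.ofReal (ε / 2) • Measure.dirac y) :=
      ⟨by simp⟩
    infer_instance
  · have (y : ℝ) : IsFiniteMeasure (ENNReal.ofReal (ε / 2) • Measure.dirac y) :=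
      ⟨by simp⟩
    rw [integral_add_measure (exp_integrable _ ξ) (exp_integrable _ ξ),
      MeasureTheory.integral_smul_measure, MeasureTheory.integral_smul_measure,
      integral_dirac, integral_dirac, ENNReal.toReal_ofReal (by linarith)]
    simp only [Complex.real_smul]
    push_cast
    rw [Complex.cos]
    have e1 : Complex.I * ξ * c = c * ξ * Complex.I := by ring
    have e2 : Complex.I * ξ * -c = -(c * ξ) * Complex.I := by ring
    rw [e1, e2]; ring

theorem PDc_series (c : ℤ → ℝ) (hc : ∀ n, 0 ≤ c n) (hs : Summable c) (w : ℤ → ℝ) (f : ℝ → ℝ)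
    (h : ∀ ξ ∈ Set.Icc (-1 : ℝ) 1,
      HasSum (fun n => (c n : ℂ) * Complex.exp (Complex.I * ξ * w n)) (f ξ)) : PDc f := by
  have hfin : IsFiniteMeasure
      (Measure.sum (fun n : ℤ => ENNReal.ofReal (c n) • Measure.dirac (w n))) := by
    constructor
    rw [Measure.sum_apply _ MeasurableSet.univ]
    simp only [Measure.smul_apply, measure_univ, smul_eq_mul, mul_one]
    rw [← ENNReal.ofReal_tsum_of_nonneg hc hs]
    exact ENNReal.ofReal_lt_top
  refine ⟨_, hfin, fun ξ hξ => ?_⟩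
  have h1 := hasSum_integral_measure (exp_integrable
    (Measure.sum (fun n : ℤ => ENNReal.ofReal (c n) • Measure.dirac (w n))) ξ)
  refine h1.unique ?_
  have e : (fun i : ℤ => ∫ x : ℝ, Complex.exp (Complex.I * ξ * x)
      ∂(ENNReal.ofReal (c i) • Measure.dirac (w i)))
      = fun n => (c n : ℂ) * Complex.exp (Complex.I * ξ * w n) := by
    funext n
    rw [MeasureTheory.integral_smul_measure, integral_dirac, ENNReal.toReal_ofReal (hc n),
      Complex.real_smul]
  rw [e]; exact h ξ hξ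

noncomputable def psi (φ : ℝ → ℝ) (r : ℝ) : ℝ := φ (min r 1) - φ (min (2 - r) 1)

theorem even_int (g : ℝ → ℝ) (hg : Continuous g) (ω : ℝ) :
    ∫ x in (-2:ℝ)..2, Complex.exp (-(ω * x) * Complex.I) * (g |x| : ℂ)
      = ((2 * ∫ x in (0:ℝ)..2, g x * Real.cos (ω * x) : ℝ) : ℂ) := by
  have hc : Continuous (fun x : ℝ => Complex.exp (-(ω * x) * Complex.I) * (g |x| : ℂ)) := by
    fun_prop
  rw [← integral_add_adjacent_intervals (b := 0) (hc.intervalIntegrable _ _)
    (hc.intervalIntegrable _ _)]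
  have h1 : ∫ x in (-2:ℝ)..0, Complex.exp (-(ω * x) * Complex.I) * (g |x| : ℂ)
      = ∫ x in (0:ℝ)..2, Complex.exp ((ω * x) * Complex.I) * (g |x| : ℂ) := by
    have := intervalIntegral.integral_comp_neg (a := 0) (b := 2)
      (fun x : ℝ => Complex.exp (-(ω * x) * Complex.I) * (g |x| : ℂ))
    rw [neg_zero] at this
    rw [← this]
    apply integral_congr
    intro x _
    simp
  rw [h1, ← intervalIntegral.integral_add (by apply Continuous.intervalIntegrable; fun_prop)
    (hc.intervalIntegrable _ _), ← intervalIntegral.integral_const_mul,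
    ← intervalIntegral.integral_ofReal]
  apply integral_congr
  intro x hx
  rw [uIcc_of_le (by norm_num)] at hx
  simp only [abs_of_nonneg hx.1]
  push_cast
  rw [Complex.cos]; ring

theorem psi_int (φ : ℝ → ℝ) (hφ : Continuous φ) (h1 : φ 1 = 0) (n : ℤ) :
    ∫ x in (0:ℝ)..2, psi φ x * Real.cos (n * π / 2 * x)
      = (1 - Real.cos (n * π)) * ∫ x in (0:ℝ)..1, φ x * Real.cos (n * π / 2 * x) := by
  have hc : Continuous (fun x : ℝ => psi φ x * Real.cos (n * π / 2 * x)) := by
    unfold psi; fun_prop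
  rw [← integral_add_adjacent_intervals (b := 1) (hc.intervalIntegrable _ _)
    (hc.intervalIntegrable _ _)]
  have e1 : ∫ x in (0:ℝ)..1, psi φ x * Real.cos (n * π / 2 * x)
      = ∫ x in (0:ℝ)..1, φ x * Real.cos (n * π / 2 * x) := by
    apply integral_congr
    intro x hx
    rw [uIcc_of_le zero_le_one] at hx
    simp only [psi]
    rw [min_eq_left hx.2, min_eq_right (by linarith [hx.2]), h1, sub_zero]
  have e2 : ∫ x in (1:ℝ)..2, psi φ x * Real.cos (n * π / 2 * x)
      = - Real.cos (n * π) * ∫ x in (0:ℝ)..1, φ x * Real.cos (n * π / 2 * x) := by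
    have := intervalIntegral.integral_comp_sub_left (a := 0) (b := 1)
      (fun x : ℝ => psi φ x * Real.cos (n * π / 2 * x)) 2
    have e3 : (2:ℝ) - 1 = 1 := by norm_num
    rw [e3, sub_zero] at this
    rw [← this, ← intervalIntegral.integral_const_mul]
    apply integral_congr
    intro x hx
    rw [uIcc_of_le zero_le_one] at hx
    simp only [psi]
    have e4 : (n:ℝ) * π / 2 * (2 - x) = n * π - n * π / 2 * x := by ring
    rw [min_eq_right (by linarith [hx.2]), h1, sub_sub_cancel, min_eq_left hx.2, e4,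
      Real.cos_sub, Real.sin_int_mul_pi]
    ring
  rw [e1, e2]; ring

theorem PDc_of_coeff (φ : ℝ → ℝ) (hφ : Continuous φ) (h1 : φ 1 = 0) (C : ℝ)
    (hpos : ∀ n : ℤ, Odd n → 0 ≤ ∫ x in (0:ℝ)..1, φ x * Real.cos (n * π / 2 * x))
    (hb : ∀ n : ℤ, Odd n → ∫ x in (0:ℝ)..1, φ x * Real.cos (n * π / 2 * x) ≤ C * (1 / (n:ℝ) ^ 2))
    (hC : 0 ≤ C) : PDc (fun x => φ |x|) := by
  haveI : Fact ((0:ℝ) < 4) := ⟨by norm_num⟩
  have hpsi : Continuous (psi φ) := by unfold psi; fun_prop
  let G : C(AddCircle (4:ℝ), ℂ) := ⟨fun z => (psi φ ‖z‖ : ℂ), by fun_prop⟩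
  set c : ℤ → ℝ := fun n =>
    (1 - Real.cos (n * π)) / 2 * ∫ x in (0:ℝ)..1, φ x * Real.cos (n * π / 2 * x) with hcdef
  have hnorm : ∀ x : ℝ, |x| ≤ 2 → ‖(x : AddCircle (4:ℝ))‖ = |x| := by
    intro x hx
    rw [AddCircle.norm_coe_eq_abs_iff _ (by norm_num)]
    rw [abs_of_pos (by norm_num : (0:ℝ) < 4)]; linarith
  have hco : ∀ n, fourierCoeff G n = (c n : ℂ) := by
    intro n
    rw [fourierCoeff_eq_intervalIntegral _ _ (-2)]
    have e0 : (-2:ℝ) + 4 = 2 := by norm_num
    rw [e0]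
    have e1 : ∫ x in (-2:ℝ)..2, @fourier 4 (-n) x • G x
        = ∫ x in (-2:ℝ)..2, Complex.exp (-(((n * π / 2 : ℝ) : ℂ) * x) * Complex.I)
          * (psi φ |x| : ℂ) := by
      apply integral_congr
      intro x hx
      rw [uIcc_of_le (by norm_num)] at hx
      simp only [fourier_coe_apply, smul_eq_mul, G, ContinuousMap.coe_mk]
      rw [hnorm x (abs_le.mpr hx)]
      congr 2
      push_cast; ring
    rw [e1, even_int _ hpsi, psi_int φ hφ h1 n, Complex.real_smul, hcdef]
    push_cast; ring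
  have hev : ∀ n : ℤ, Even n → c n = 0 := by
    rintro n ⟨k, rfl⟩
    have : ((k + k : ℤ) : ℝ) * π = k * (2 * π) := by push_cast; ring
    simp only [hcdef]
    rw [this, Real.cos_int_mul_two_pi]; simp
  have hod : ∀ n : ℤ, Odd n → c n = ∫ x in (0:ℝ)..1, φ x * Real.cos (n * π / 2 * x) := by
    rintro n ⟨k, rfl⟩
    have : ((2 * k + 1 : ℤ) : ℝ) * π = k * (2 * π) + π := by push_cast; ring
    simp only [hcdef]
    rw [this, Real.cos_int_mul_two_pi_add_pi]; norm_num
  have hc0 : ∀ n, 0 ≤ c n := by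
    intro n
    rcases Int.even_or_odd n with h | h
    · rw [hev n h]
    · rw [hod n h]; exact hpos n h
  have hsum : Summable c := by
    refine Summable.of_nonneg_of_le hc0 (fun n => ?_)
      ((Real.summable_one_div_int_pow.mpr (by norm_num : 1 < 2)).mul_left C)
    rcases Int.even_or_odd n with h | h
    · rw [hev n h]; positivity
    · rw [hod n h]; exact hb n h
  have hsumC : Summable (fourierCoeff G) := by
    have : fourierCoeff G = fun n => (c n : ℂ) := funext hco
    rw [this]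
    exact Complex.summable_ofReal.mpr hsum
  apply PDc_series c hc0 hsum (fun n => n * π / 2)
  intro ξ hξ
  have h2 := has_pointwise_sum_fourier_series_of_summable hsumC (ξ : AddCircle (4:ℝ))
  have ha : |ξ| ≤ 1 := abs_le.mpr hξ
  have e5 : G (ξ : AddCircle (4:ℝ)) = (φ |ξ| : ℂ) := by
    simp only [G, ContinuousMap.coe_mk]
    rw [hnorm ξ (by linarith), psi, min_eq_left ha, min_eq_right (by linarith), h1, sub_zero]
  rw [e5] at h2
  convert h2 using 2 with n
  rw [hco, fourier_coe_apply, smul_eq_mul]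
  congr 2
  push_cast; ring

theorem PDc_le_two {α : ℝ} (hα : 0 < α) (h : PDc (fun ξ => 1 - |ξ| ^ α)) : α ≤ 2 := by
  obtain ⟨μ, hμ, h⟩ := h
  have hre : ∀ ξ ∈ Set.Icc (-1 : ℝ) 1, ∫ x, Real.cos (ξ * x) ∂μ = 1 - |ξ| ^ α := by
    intro ξ hξ
    have h1 := congrArg Complex.re (h ξ hξ)
    rw [Complex.ofReal_re] at h1
    simp only at h1
    rw [← h1]
    have := (Complex.reCLM.integral_comp_comm (exp_integrable μ ξ))
    simp only [Complex.reCLM_apply] at this
    rw [← this]
    congr 1; funext x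
    have : Complex.I * ξ * x = ((ξ * x : ℝ) : ℂ) * Complex.I := by push_cast; ring
    rw [this, Complex.exp_ofReal_mul_I_re]
  have hi : ∀ ξ : ℝ, Integrable (fun x => Real.cos (ξ * x)) μ := by
    intro ξ
    apply Integrable.of_bound (C := 1)
    · apply Continuous.aestronglyMeasurable; fun_prop
    · exact Eventually.of_forall (fun x => Real.abs_cos_le_one _)
  have a0 := hre 0 (by norm_num)
  have a1 := hre 1 (by norm_num)
  have a2 := hre (1 / 2) (by norm_num)
  rw [abs_zero, Real.zero_rpow hα.ne'] at a0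
  rw [abs_one, Real.one_rpow] at a1
  rw [abs_of_pos (by norm_num : (0:ℝ) < 1 / 2)] at a2
  have key : ∫ x, (Real.cos (0 * x) - Real.cos (1 * x)) ∂μ
      ≤ ∫ x, 4 * (Real.cos (0 * x) - Real.cos (1 / 2 * x)) ∂μ := by
    apply MeasureTheory.integral_mono ((hi 0).sub (hi 1)) (((hi 0).sub (hi _)).const_mul 4)
    intro x
    have e : (1:ℝ) * x = 2 * (1 / 2 * x) := by ring
    simp only [zero_mul, Real.cos_zero, Pi.sub_apply]
    rw [e, Real.cos_two_mul]
    nlinarith [sq_nonneg (1 - Real.cos (1 / 2 * x))]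
  rw [MeasureTheory.integral_const_mul, MeasureTheory.integral_sub (hi 0) (hi 1),
    MeasureTheory.integral_sub (hi 0) (hi _), a0, a1, a2] at key
  by_contra hlt
  push Not at hlt
  have : (1 / 2 : ℝ) ^ α < (1 / 2 : ℝ) ^ (2:ℝ) :=
    Real.rpow_lt_rpow_of_exponent_gt (by norm_num) (by norm_num) hlt
  rw [Real.rpow_two] at this
  linarith

end Pool.Agent.H60.PD
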