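import Pool.Agent.H60.PDa
import Pool.Agent.H60.PDb

set_option autoImplicit false

namespace Pool.Agent.H60.PD

open Real MeasureTheory Set intervalIntegral Filter Topology

noncomputable def DD (ω : ℝ) : ℝ := ∫ x in (0:ℝ)..1, (1 + Real.cos (3 * π * x)) * Real.cos (ω * x)

theorem DD_bound (k : ℕ) :
    |DD ((2 * k + 1) * π / 2)| ≤ 36 * π ^ 2 / ((2 * k + 1) * π / 2) ^ 3 := by
  set ω : ℝ := (2 * k + 1) * π / 2 with hω
  have hp := Real.pi_pos
  have h0 : 0 < ω := by positivity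
  have hq : ω ^ 2 / 4 ≤ |(3 * π + ω) * (3 * π - ω)| := by
    rcases le_or_gt k 2 with h | h
    · have : (k:ℝ) ≤ 2 := by exact_mod_cast h
      have h1 : ω ≤ 5 * π / 2 := by rw [hω]; nlinarith
      refine le_trans ?_ (le_abs_self _)
      nlinarith
    · have : (3:ℝ) ≤ k := by exact_mod_cast h
      have h1 : 7 * π / 2 ≤ ω := by rw [hω]; nlinarith
      refine le_trans ?_ (neg_le_abs _)
      nlinarith
  have hq0 : 0 < |(3 * π + ω) * (3 * π - ω)| := lt_of_lt_of_le (by positivity) hq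
  have hne := abs_pos.mp hq0
  unfold DD
  rw [D_eq h0.ne' (left_ne_zero_of_mul hne) (right_ne_zero_of_mul hne), abs_div, abs_mul,
    abs_mul ω,
    abs_of_pos h0, abs_of_pos (by positivity : 0 < 9 * π ^ 2),
    div_le_div_iff₀ (by positivity) (by positivity)]
  have hs := Real.abs_sin_le_one ω
  have hs0 := abs_nonneg (Real.sin ω)
  calc |Real.sin ω| * (9 * π ^ 2) * ω ^ 3 ≤ 1 * (9 * π ^ 2) * ω ^ 3 := by gcongr
    _ = 36 * π ^ 2 * (ω * (ω ^ 2 / 4)) := by ring
    _ ≤ _ := by gcongr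

theorem DD_neg : DD (3 * π / 2) < 0 := by
  have hp := Real.pi_pos
  unfold DD
  rw [D_eq (by positivity) (by positivity) (by intro h; linarith)]
  have : Real.sin (3 * π / 2) = -1 := by
    have : 3 * π / 2 = π / 2 + π := by ring
    rw [this, Real.sin_add_pi, Real.sin_pi_div_two]
  rw [this]
  apply div_neg_of_neg_of_pos (by nlinarith [sq_pos_of_pos hp])
  have : 0 < 3 * π - 3 * π / 2 := by linarith
  positivity

noncomputable def phi (α ε : ℝ) (x : ℝ) : ℝ := 1 - x ^ α - ε * (1 + Real.cos (3 * π * x))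

theorem cos_half_odd (k : ℕ) : Real.cos ((2 * k + 1) * π / 2) = 0 := by
  rw [Real.cos_eq_zero_iff]; exact ⟨k, by push_cast; ring⟩

theorem coeff_split {α ε ω : ℝ} (hα : 1 < α) :
    ∫ x in (0:ℝ)..1, phi α ε x * Real.cos (ω * x)
      = (∫ x in (0:ℝ)..1, (1 - x ^ α) * Real.cos (ω * x)) - ε * DD ω := by
  have c1 : Continuous (fun t : ℝ => t ^ α) := cont_rpow (by linarith)
  unfold DD
  rw [← intervalIntegral.integral_const_mul, ← intervalIntegral.integral_sub
    (by apply Continuous.intervalIntegrable; fun_prop)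
    (by apply Continuous.intervalIntegrable; fun_prop)]
  congr 1; funext x; unfold phi; ring

theorem exists_above {α0 : ℝ} (h1 : 1 < α0) (h2 : α0 < 2) (h0 : II α0 (3 * π / 2) = 0) :
    ∃ α, α0 < α ∧ PDc (fun ξ => 1 - |ξ| ^ α) := by
  have hp := Real.pi_pos
  have hp3 := Real.pi_gt_three
  have p1 := II_1 h1
  have p7 := II_7 h1 h2
  rw [h0] at p7
  set δ : ℝ := min (II α0 (π / 2)) (II α0 (7 * π / 2)) / 2 with hδ
  have hm : 0 < min (II α0 (π / 2)) (II α0 (7 * π / 2)) := lt_min p1 p7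
  have hδ0 : 0 < δ := by positivity
  have hδ1 : δ < II α0 (π / 2) := by
    have := min_le_left (II α0 (π / 2)) (II α0 (7 * π / 2)); linarith
  have hδ7 : δ < II α0 (7 * π / 2) := by
    have := min_le_right (II α0 (π / 2)) (II α0 (7 * π / 2)); linarith
  set ε : ℝ := (α0 - 1) * δ / (36 * π ^ 2) with hε
  have ha : 0 < α0 - 1 := by linarith
  have hε0 : 0 < ε := by positivity
  have ev1 : ∀ᶠ β in 𝓝 α0, δ < II β (π / 2) :=
    (II_cont h1 (by linarith) (by positivity)).eventually (lt_mem_nhds hδ1)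
  have ev7 : ∀ᶠ β in 𝓝 α0, δ < II β (7 * π / 2) :=
    (II_cont h1 (by linarith) (by positivity)).eventually (lt_mem_nhds hδ7)
  have hg : ContinuousAt (fun β : ℝ => β * (β - 1) / (3 * π / 2) ^ 2
      * ((3 * π / 2) ^ (1 - β) * II β (3 * π / 2))) α0 := by
    apply ContinuousAt.mul (by fun_prop)
    apply ContinuousAt.mul _ (II_cont h1 (by linarith) (by positivity))
    apply ContinuousAt.rpow continuousAt_const (by fun_prop)
    left; positivity
  have ev3 : ∀ᶠ β in 𝓝 α0, ε * DD (3 * π / 2) < β * (β - 1) / (3 * π / 2) ^ 2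
      * ((3 * π / 2) ^ (1 - β) * II β (3 * π / 2)) := by
    apply hg.eventually (lt_mem_nhds _)
    simp only [h0, mul_zero]
    exact mul_neg_of_pos_of_neg hε0 DD_neg
  have ev2 : ∀ᶠ β in 𝓝 α0, β < 2 := gt_mem_nhds h2
  have evall := (ev1.and (ev7.and (ev3.and ev2))).filter_mono (nhdsWithin_le_nhds (s := Ioi α0))
  obtain ⟨α, ⟨e1, e7, e3, e2⟩, hα⟩ := (evall.and self_mem_nhdsWithin).exists
  have hα' : α0 < α := hα
  have hα1 : 1 < α := by linarith
  refine ⟨α, hα', ?_⟩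
  have c1 : Continuous (fun t : ℝ => t ^ α) := cont_rpow (by linarith)
  have hcos3 : Real.cos (3 * π) = -1 := by
    have : 3 * π = π + 2 * π := by ring
    rw [this, Real.cos_add_two_pi, Real.cos_pi]
  -- natural number version
  have hk : ∀ k : ℕ, 0 ≤ ∫ x in (0:ℝ)..1, phi α ε x * Real.cos ((2 * k + 1) * π / 2 * x) ∧
      ∫ x in (0:ℝ)..1, phi α ε x * Real.cos ((2 * k + 1) * π / 2 * x)
        ≤ (2 + ε * (36 * π ^ 2)) * (1 / (2 * k + 1 : ℝ) ^ 2) := by
    intro k
    have hD := DD_bound k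
    have hc := cos_half_odd k
    have hII : k ≠ 1 → δ ≤ II α ((2 * k + 1) * π / 2) := by
      intro hk1
      rcases Nat.eq_zero_or_pos k with rfl | hk0
      · have : (2 * ((0:ℕ):ℝ) + 1) * π / 2 = π / 2 := by simp
        rw [this]; exact e1.le
      · exact e7.le.trans (II_ge hα1 e2 k (by omega))
    have hk1 : k = 1 → (2 * (k:ℝ) + 1) * π / 2 = 3 * π / 2 := by
      rintro rfl; push_cast; ring
    have hkk : (0:ℝ) ≤ k := Nat.cast_nonneg k
    have hm1 : (2 * (k:ℝ) + 1) ≤ (2 * k + 1) * π / 2 := by nlinarith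
    generalize hω : (2 * (k:ℝ) + 1) * π / 2 = ω at *
    have hω1 : 1 ≤ ω := by linarith
    have hω0 : 0 < ω := by linarith
    rw [coeff_split hα1, main_coeff hα1 hω0 hc]
    have hDa := abs_le.mp hD
    constructor
    · rw [J_eq hω0]
      by_cases hk' : k = 1
      · rw [hk1 hk']; linarith
      · have b1 := hII hk'
        have b2 : ω ^ (-1:ℝ) ≤ ω ^ (1 - α) :=
          Real.rpow_le_rpow_of_exponent_le hω1 (by linarith)
        rw [Real.rpow_neg_one] at b2
        have b3 : α0 - 1 ≤ α * (α - 1) := by nlinarith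
        have b4 : (α0 - 1) / ω ^ 2 * (ω⁻¹ * δ) ≤ α * (α - 1) / ω ^ 2 * (ω ^ (1 - α) * II α ω) := by
          have : 0 ≤ α * (α - 1) / ω ^ 2 := by
            have : 0 ≤ α * (α - 1) := by linarith
            positivity
          gcongr
        have b5 : ε * DD ω ≤ ε * (36 * π ^ 2 / ω ^ 3) := by gcongr; exact hDa.2
        have b6 : ε * (36 * π ^ 2 / ω ^ 3) = (α0 - 1) / ω ^ 2 * (ω⁻¹ * δ) := by
          rw [hε]; field_simp
        linarith
    · have b1 := (abs_le.mp (J_bound (ω := ω) hα1)).2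
      have hα2 : 0 < α - 1 := by linarith
      have b2 : α * (α - 1) / ω ^ 2 * ∫ x in (0:ℝ)..1, x ^ (α - 2) * Real.cos (ω * x)
          ≤ α * (α - 1) / ω ^ 2 * (1 / (α - 1)) := by gcongr
      have b3 : α * (α - 1) / ω ^ 2 * (1 / (α - 1)) = α * (1 / ω ^ 2) := by field_simp
      have b4 : 1 / ω ^ 2 ≤ 1 / (2 * (k:ℝ) + 1) ^ 2 := by gcongr
      have b5 : 1 / ω ^ 3 ≤ 1 / ω ^ 2 := by gcongr; norm_num
      have b6 : -(ε * DD ω) ≤ ε * (36 * π ^ 2) * (1 / ω ^ 3) := by
        have : ε * (-DD ω) ≤ ε * (36 * π ^ 2 / ω ^ 3) := by gcongr; linarith [hDa.1]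
        have e : ε * (36 * π ^ 2 / ω ^ 3) = ε * (36 * π ^ 2) * (1 / ω ^ 3) := by ring
        linarith
      have b7 : ε * (36 * π ^ 2) * (1 / ω ^ 3) ≤ ε * (36 * π ^ 2) * (1 / (2 * (k:ℝ) + 1) ^ 2) := by
        gcongr ?_ * ?_; linarith
      have b8 : α * (1 / ω ^ 2) ≤ 2 * (1 / (2 * (k:ℝ) + 1) ^ 2) := by gcongr
      nlinarith
  have hz : ∀ n : ℤ, Odd n → ∃ k : ℕ, (n:ℝ) ^ 2 = (2 * k + 1) ^ 2 ∧
      ∀ x : ℝ, Real.cos (n * π / 2 * x) = Real.cos ((2 * k + 1) * π / 2 * x) := by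
    intro n hn
    obtain ⟨k, hk⟩ := Int.natAbs_odd.mpr hn
    rcases Int.natAbs_eq n with h | h
    · have : (n:ℝ) = 2 * k + 1 := by rw [h, hk]; push_cast; ring
      exact ⟨k, by rw [this], fun x => by rw [this]⟩
    · have : (n:ℝ) = -(2 * k + 1) := by rw [h, hk]; push_cast; ring
      refine ⟨k, by rw [this]; ring, fun x => ?_⟩
      rw [this, ← Real.cos_neg]; congr 1; ring
  have P1 : PDc (fun x => phi α ε |x|) := by
    apply PDc_of_coeff (phi α ε) (by unfold phi; fun_prop) _ (2 + ε * (36 * π ^ 2))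
    · intro n hn
      obtain ⟨k, _, hk2⟩ := hz n hn
      simp only [hk2]; exact (hk k).1
    · intro n hn
      obtain ⟨k, hk1, hk2⟩ := hz n hn
      simp only [hk2, hk1]; exact (hk k).2
    · positivity
    · simp [phi, hcos3]
  refine ((P1.add (PDc_cos hε0.le 0)).add (PDc_cos hε0.le (3 * π))).congr (fun x _ => ?_)
  have : Real.cos (3 * π * |x|) = Real.cos (3 * π * x) := by
    rcases abs_choice x with h | h
    · rw [h]
    · rw [h, mul_neg, Real.cos_neg]
  simp only [phi, this, zero_mul, Real.cos_zero]; ring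

theorem II_two_neg : II 2 (3 * π / 2) < 0 := by
  unfold II
  have : 3 * π / 2 = π / 2 + π := by ring
  simp only [sub_self, Real.rpow_zero, one_mul, integral_cos, Real.sin_zero]
  rw [this, Real.sin_add_pi, Real.sin_pi_div_two]; norm_num

theorem II_pos_near : 0 < II (11 / 10) (3 * π / 2) := by
  have hp3 := Real.pi_gt_three
  have hp4 := Real.pi_lt_d2
  have hα : (1:ℝ) < 11 / 10 := by norm_num
  rw [II_add hα 1]
  have a1 : 5 ≤ II (11 / 10) 1 := by
    have h1 : ∫ x in (0:ℝ)..1, x ^ ((11:ℝ) / 10 - 2) * (1 / 2) = 5 := by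
      rw [intervalIntegral.integral_mul_const, integral_rpow (Or.inl (by norm_num))]
      rw [Real.one_rpow, Real.zero_rpow (by norm_num)]; norm_num
    rw [← h1]
    unfold II
    apply intervalIntegral.integral_mono_on zero_le_one
      (intInt hα (fun _ => 1 / 2) continuous_const _ _) (intInt hα _ Real.continuous_cos _ _)
    intro x hx
    have := Real.one_sub_sq_div_two_le_cos (x := x)
    have h2 : 1 / 2 ≤ Real.cos x := by nlinarith [hx.1, hx.2]
    exact mul_le_mul_of_nonneg_left h2 (Real.rpow_nonneg hx.1 _)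
  have a2 : ∫ _x in (1:ℝ)..(3 * π / 2), (-1:ℝ)
      ≤ ∫ t in (1:ℝ)..(3 * π / 2), t ^ ((11:ℝ) / 10 - 2) * Real.cos t := by
    apply intervalIntegral.integral_mono_on (by linarith) (by simp)
      (intInt hα _ Real.continuous_cos _ _)
    intro x hx
    have b1 : x ^ ((11:ℝ) / 10 - 2) ≤ 1 := Real.rpow_le_one_of_one_le_of_nonpos hx.1 (by norm_num)
    have b2 : 0 ≤ x ^ ((11:ℝ) / 10 - 2) := Real.rpow_nonneg (by linarith [hx.1]) _
    nlinarith [Real.neg_one_le_cos x]
  simp only [intervalIntegral.integral_const, smul_eq_mul] at a2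
  linarith

theorem exists_root : ∃ α ∈ Ioo (1:ℝ) 2, II α (3 * π / 2) = 0 := by
  have hc : ContinuousOn (fun β => II β (3 * π / 2)) (Icc (11 / 10) 2) := fun β hβ =>
    (II_cont (by linarith [hβ.1]) (by linarith [hβ.2]) (by positivity)).continuousWithinAt
  obtain ⟨α, hα, h⟩ := intermediate_value_Ioo' (by norm_num) hc ⟨II_two_neg, II_pos_near⟩
  exact ⟨α, ⟨by linarith [hα.1], hα.2⟩, h⟩

end Pool.Agent.H60.PD
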