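import Mathlib
import Pool.Agent.H60.PrimeWalk

namespace Pool.Agent.H60.PrimeWalk

lemma step0 (h : Inv2 4 1 2 4294967297) : Inv2 12 1 16 25769803780 :=
  seg_spec 4 3 2 8 1 1 2 4294967297 1 16 25769803780 h (by decide +kernel)

lemma step1 (h : Inv2 12 1 16 25769803780) : Inv2 140 1 4 150323855393 :=
  seg_spec 12 7 10 128 1 1 16 25769803780 1 4 150323855393 h (by decide +kernel)

lemma step2 (h : Inv2 140 1 4 150323855393) : Inv2 16524 16 67108864 8366596294520 :=
  seg_spec 140 14 138 256 64 1 4 150323855393 16 67108864 8366596294520 h (by decide +kernel)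

lemma step3 (h : Inv2 16524 16 67108864 8366596294520) : Inv2 147596 4096 4096 58884001641801 :=
  seg_spec 16524 17 383 256 512 16 67108864 8366596294520 4096 4096 58884001641801 h (by decide +kernel)

lemma step4 (h : Inv2 147596 4096 4096 58884001641801) : Inv2 278668 65536 4096 104556683878155 :=
  seg_spec 147596 17 526 256 512 4096 4096 58884001641801 65536 4096 104556683878155 h (by decide +kernel)

lemma step5 (h : Inv2 278668 65536 4096 104556683878155) : Inv2 409740 64 16 148674587952924 :=
  seg_spec 278668 17 639 256 512 65536 4096 104556683878155 64 16 148674587952924 h (by decide +kernel)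

lemma step6 (h : Inv2 409740 64 16 148674587952924) : Inv2 540812 4 64 191796059614811 :=
  seg_spec 409740 17 734 256 512 64 16 148674587952924 4 64 191796059614811 h (by decide +kernel)

lemma step7 (h : Inv2 540812 4 64 191796059614811) : Inv2 671884 4294967296 16384 234054242849965 :=
  seg_spec 540812 17 818 256 512 4 64 191796059614811 4294967296 16384 234054242849965 h (by decide +kernel)

end Pool.Agent.H60.PrimeWalk
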