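import Mathlib
import Pool.Agent.H60.PrimeWalk

namespace Pool.Agent.H60.PrimeWalk

lemma step8 (h : Inv2 671884 4294967296 16384 234054242849965) : Inv2 802956 16 262144 275852864584360 :=
  seg_spec 671884 17 895 256 512 4294967296 16384 234054242849965 16 262144 275852864584360 h (by decide +kernel)

lemma step9 (h : Inv2 802956 16 262144 275852864584360) : Inv2 934028 262144 256 317054485864477 :=
  seg_spec 802956 17 965 256 512 16 262144 275852864584360 262144 256 317054485864477 h (by decide +kernel)

lemma step10 (h : Inv2 934028 262144 256 317054485864477) : Inv2 1065100 256 4 357684876494076 :=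
  seg_spec 934028 17 1031 256 512 262144 256 317054485864477 256 4 357684876494076 h (by decide +kernel)

lemma step11 (h : Inv2 1065100 256 4 357684876494076) : Inv2 1196172 1073741824 262144 398478475880949 :=
  seg_spec 1065100 17 1092 256 512 256 4 357684876494076 1073741824 262144 398478475880949 h (by decide +kernel)

lemma step12 (h : Inv2 1196172 1073741824 262144 398478475880949) : Inv2 1327244 64 64 438541930827338 :=
  seg_spec 1196172 17 1151 256 512 1073741824 262144 398478475880949 64 64 438541930827338 h (by decide +kernel)

lemma step13 (h : Inv2 1327244 64 64 438541930827338) : Inv2 1458316 4194304 1024 478218838717044 :=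
  seg_spec 1327244 17 1206 256 512 64 64 438541930827338 4194304 1024 478218838717044 h (by decide +kernel)

lemma step14 (h : Inv2 1458316 4194304 1024 478218838717044) : Inv2 1589388 1 1024 517277271316051 :=
  seg_spec 1458316 17 1259 256 512 4194304 1024 478218838717044 1 1024 517277271316051 h (by decide +kernel)

lemma step15 (h : Inv2 1589388 1 1024 517277271316051) : Inv2 1720460 4 268435456 556327113980438 :=
  seg_spec 1589388 17 1310 256 512 1 1024 517277271316051 4 268435456 556327113980438 h (by decide +kernel)

end Pool.Agent.H60.PrimeWalk
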