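import Mathlib
import Pool.Agent.H60.PrimeWalk

namespace Pool.Agent.H60.PrimeWalk

lemma step16 (h : Inv2 1720460 4 268435456 556327113980438) : Inv2 1851532 1048576 256 595127848541583 :=
  seg_spec 1720460 17 1359 256 512 4 268435456 556327113980438 1048576 256 595127848541583 h (by decide +kernel)

lemma step17 (h : Inv2 1851532 1048576 256 595127848541583) : Inv2 1982604 16 4096 634160511336708 :=
  seg_spec 1851532 17 1407 256 512 1048576 256 595127848541583 16 4096 634160511336708 h (by decide +kernel)

lemma step18 (h : Inv2 1982604 16 4096 634160511336708) : Inv2 2113676 64 4 672621943481420 :=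
  seg_spec 1982604 17 1452 256 512 16 4096 634160511336708 64 4 672621943481420 h (by decide +kernel)

lemma step19 (h : Inv2 2113676 64 4 672621943481420) : Inv2 2244748 16384 4096 711139210200917 :=
  seg_spec 2113676 17 1497 256 512 64 4 672621943481420 16384 4096 711139210200917 h (by decide +kernel)

lemma step20 (h : Inv2 2244748 16384 4096 711139210200917) : Inv2 2375820 1 4194304 749415958751785 :=
  seg_spec 2244748 17 1540 256 512 16384 4096 711139210200917 1 4194304 749415958751785 h (by decide +kernel)

lemma step21 (h : Inv2 2375820 1 4194304 749415958751785) : Inv2 2506892 256 1024 787306160246009 :=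
  seg_spec 2375820 17 1582 256 512 1 4194304 749415958751785 256 1024 787306160246009 h (by decide +kernel)

lemma step22 (h : Inv2 2506892 256 1024 787306160246009) : Inv2 2637964 4 4 825217836576688 :=
  seg_spec 2506892 17 1623 256 512 256 1024 787306160246009 4 4 825217836576688 h (by decide +kernel)

lemma step23 (h : Inv2 2637964 4 4 825217836576688) : Inv2 2769036 16 1073741824 863438750552646 :=
  seg_spec 2637964 17 1663 256 512 4 4 825217836576688 16 1073741824 863438750552646 h (by decide +kernel)

end Pool.Agent.H60.PrimeWalk
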