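import Mathlib
import Pool.Agent.H60.PrimeWalk

namespace Pool.Agent.H60.PrimeWalk

lemma step24 (h : Inv2 2769036 16 1073741824 863438750552646) : Inv2 2900108 256 65536 901440621196485 :=
  seg_spec 2769036 17 1701 256 512 16 1073741824 863438750552646 256 65536 901440621196485 h (by decide +kernel)

lemma step25 (h : Inv2 2900108 256 65536 901440621196485) : Inv2 3031180 4 256 939201973671692 :=
  seg_spec 2900108 17 1740 256 512 256 65536 901440621196485 4 256 939201973671692 h (by decide +kernel)

lemma step26 (h : Inv2 3031180 4 256 939201973671692) : Inv2 3162252 19342813113834066795298816 1024 976920376473916 :=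
  seg_spec 3031180 17 1777 256 512 4 256 939201973671692 19342813113834066795298816 1024 976920376473916 h (by decide +kernel)

lemma step27 (h : Inv2 3162252 19342813113834066795298816 1024 976920376473916) : Inv2 3293324 16384 1024 1014879297444794 :=
  seg_spec 3162252 17 1813 256 512 19342813113834066795298816 1024 976920376473916 16384 1024 1014879297444794 h (by decide +kernel)

lemma step28 (h : Inv2 3293324 16384 1024 1014879297444794) : Inv2 3424396 16384 262144 1052215448157621 :=
  seg_spec 3293324 17 1849 256 512 16384 1024 1014879297444794 16384 262144 1052215448157621 h (by decide +kernel)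

lemma step29 (h : Inv2 3424396 16384 262144 1052215448157621) : Inv2 3555468 16 16384 1089452814622539 :=
  seg_spec 3424396 17 1884 256 512 16384 262144 1052215448157621 16 16384 1089452814622539 h (by decide +kernel)

lemma step30 (h : Inv2 3555468 16 16384 1089452814622539) : Inv2 3666572 4294967296 1024 1121626414644253 :=
  seg_spec 3555468 17 1919 256 434 16 16384 1089452814622539 4294967296 1024 1121626414644253 h (by decide +kernel)

lemma step31 (h : Inv2 3666572 4294967296 1024 1121626414644253) : Inv2 3666582 1 4398046511104 1121635004578846 :=
  seg_spec 3666572 10 1914 10 1 4294967296 1024 1121626414644253 1 4398046511104 1121635004578846 h (by decide +kernel)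

end Pool.Agent.H60.PrimeWalk
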