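import Mathlib
import Pool.Agent.H60.PrimeWalkR0
import Pool.Agent.H60.PrimeWalkR1
import Pool.Agent.H60.PrimeWalkR2
import Pool.Agent.H60.PrimeWalkR3

namespace Pool.Agent.H60.PrimeWalk

theorem inv_final : Inv2 3666582 1 4398046511104 1121635004578846 := by
  have h0 := inv_start
  have h1 := step0 h0
  have h2 := step1 h1
  have h3 := step2 h2
  have h4 := step3 h3
  have h5 := step4 h4
  have h6 := step5 h5
  have h7 := step6 h6
  have h8 := step7 h7
  have h9 := step8 h8
  have h10 := step9 h9
  have h11 := step10 h10
  have h12 := step11 h11
  have h13 := step12 h12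
  have h14 := step13 h13
  have h15 := step14 h14
  have h16 := step15 h15
  have h17 := step16 h16
  have h18 := step17 h17
  have h19 := step18 h18
  have h20 := step19 h19
  have h21 := step20 h20
  have h22 := step21 h21
  have h23 := step22 h22
  have h24 := step23 h23
  have h25 := step24 h24
  have h26 := step25 h25
  have h27 := step26 h26
  have h28 := step27 h27
  have h29 := step28 h28
  have h30 := step29 h29
  have h31 := step30 h30
  have h32 := step31 h31
  exact h32

end Pool.Agent.H60.PrimeWalk
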