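import Mathlib

namespace Pool.Agent.H60.QDens

/-- `μ` is an upper quasi-density on `H ⊆ ℕ` (only its values on subsets of `H` matter). -/
def IsUQD (H : Set ℕ) (μ : Set ℕ → ℝ) : Prop :=
  μ H = 1 ∧ (∀ X ⊆ H, ∀ Y ⊆ H, μ (X ∪ Y) ≤ μ X + μ Y) ∧
    (∀ X ⊆ H, ∀ h k : ℕ, 1 ≤ h → 1 ≤ k → μ ((fun x => k * x + h) '' X) = 1 / (k : ℝ) * μ X) ∧
    ∀ X ⊆ H, μ X ≤ 1

end Pool.Agent.H60.QDens
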