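import Mathlib

/-! Quantum torus calculus: a commuting pair `Z, W` with an elliptic relation. -/

set_option autoImplicit false

namespace Pool.Agent.H60.QT

section calc1
variable {A : Type*} [Ring A] [Algebra ℂ A]

/-- the monomial `x^i y^j` -/
def mm (x y : Aˣ) (i j : ℤ) : A := ((x ^ i * y ^ j : Aˣ) : A)

lemma swap (q : ℂ) (hq : q ≠ 0) (x y : Aˣ) (h : (x : A) * y = q • ((y : A) * x)) (j k : ℤ) :
    ((y ^ j * x ^ k : Aˣ) : A) = (q ^ (-(j * k))) • ((x ^ k * y ^ j : Aˣ) : A) := by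
  set c : Aˣ := Units.map (algebraMap ℂ A : ℂ →* A) (Units.mk0 q hq) with hc
  have hcen : ∀ z : Aˣ, Commute c z := by
    intro z
    apply Units.ext
    simp [hc, Algebra.commutes]
  have h1 : x * y * x⁻¹ = c * y := by
    rw [mul_inv_eq_iff_eq_mul]
    apply Units.ext
    simp [hc, h, Algebra.smul_def, mul_assoc]
  have h2 : ∀ k : ℤ, x ^ k * y * (x ^ k)⁻¹ = c ^ k * y := by
    intro k
    induction k using Int.induction_on with
    | zero => simp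
    | succ k ih =>
      have : x ^ ((k : ℤ) + 1) * y * (x ^ ((k : ℤ) + 1))⁻¹
          = x ^ (k : ℤ) * (x * y * x⁻¹) * (x ^ (k : ℤ))⁻¹ := by group
      rw [this, h1, ← mul_assoc, ← ((hcen _).eq), mul_assoc c, mul_assoc c, ih, ← mul_assoc,
        zpow_add_one, (Commute.refl c).zpow_left]
    | pred k ih =>
      have h3 : x⁻¹ * y * x = c⁻¹ * y := by
        have : y = x⁻¹ * (c * y) * x := by rw [← h1]; group
        rw [eq_inv_mul_iff_mul_eq]
        conv_rhs => rw [this]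
        rw [← mul_assoc x⁻¹ c, ← (hcen x⁻¹).eq]; group
      have : x ^ (-(k : ℤ) - 1) * y * (x ^ (-(k : ℤ) - 1))⁻¹
          = x ^ (-(k : ℤ)) * (x⁻¹ * y * x) * (x ^ (-(k : ℤ)))⁻¹ := by group
      rw [this, h3, ← mul_assoc, ← ((hcen _).inv_left.eq), mul_assoc c⁻¹, mul_assoc c⁻¹, ih]
      group
  have h3 : x ^ k * y ^ j * (x ^ k)⁻¹ = c ^ (j * k) * y ^ j := by
    rw [← conj_zpow, h2, ((hcen y).zpow_left k).mul_zpow, ← zpow_mul, mul_comm k j]
  have h4 : y ^ j * x ^ k = c ^ (-(j * k)) * (x ^ k * y ^ j) := by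
    rw [mul_inv_eq_iff_eq_mul] at h3
    rw [h3]; group
  rw [h4, Units.val_mul, Algebra.smul_def]
  congr 1
  rw [hc, ← map_zpow, Units.coe_map, Units.val_zpow_eq_zpow_val]
  rfl

lemma mm_mul (q : ℂ) (hq : q ≠ 0) (x y : Aˣ) (h : (x : A) * y = q • ((y : A) * x))
    (i j k l : ℤ) : mm x y i j * mm x y k l = (q ^ (-(j * k))) • mm x y (i + k) (j + l) := by
  have := swap q hq x y h j k
  unfold mm
  have e1 : ((x ^ i * y ^ j : Aˣ) : A) * ((x ^ k * y ^ l : Aˣ) : A)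
      = (x ^ i : Aˣ) * ((y ^ j * x ^ k : Aˣ) : A) * (y ^ l : Aˣ) := by
    simp only [Units.val_mul, mul_assoc]
  rw [e1, this, zpow_add, zpow_add]
  simp only [Units.val_mul, mul_assoc, mul_smul_comm, smul_mul_assoc]

/-- the element `Z` -/
noncomputable def ZZ (q : ℂ) (m : ℤ → ℤ → A) : A :=
  m 2 0 + m 0 2 + (q + 1 / q ^ 2) • m 1 1 + (1 + q) • m 0 (-1) + (1 + q) • m (-1) 0
    + (1 / q) • m (-2) (-2)

/-- the element `Y` -/
noncomputable def YY (q : ℂ) (m : ℤ → ℤ → A) : A :=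
  m 3 0 + m 0 3 + (1 / q ^ 3) • m (-3) (-3) + ((1 + q + q ^ 2) / q) • m (-2) (-1)
    + ((1 + q + q ^ 2) / q) • m (-1) (-2) + (1 + q + q ^ 2) • m (-1) 1
    + (1 + q + q ^ 2) • m 1 (-1) + ((q ^ 4 + q ^ 2 + 1) / q ^ 3) • m 1 2
    + ((q ^ 4 + q ^ 2 + 1) / q ^ 3) • m 2 1 + (3 * (q + 1) * (q ^ 2 + 1) / (2 * q)) • m 0 0

lemma ZY_comm (q : ℂ) (hq : q ≠ 0) (m : ℤ → ℤ → A)
    (hm : ∀ i j k l : ℤ, m i j * m k l = (q ^ (-(j * k))) • m (i + k) (j + l)) :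
    ZZ q m * YY q m = YY q m * ZZ q m := by
  unfold ZZ YY
  simp only [mul_add, add_mul, smul_mul_assoc, mul_smul_comm, hm, smul_smul]
  norm_num
  match_scalars <;> (field_simp; try ring)

lemma Y_sq (q : ℂ) (hq : q ≠ 0) (m : ℤ → ℤ → A)
    (hm : ∀ i j k l : ℤ, m i j * m k l = (q ^ (-(j * k))) • m (i + k) (j + l)) :
    YY q m * YY q m = ZZ q m * (ZZ q m * ZZ q m) + ((q - 1) ^ 6 / (4 * q ^ 2)) • m 0 0 := by
  unfold ZZ YY
  simp only [mul_add, add_mul, smul_mul_assoc, mul_smul_comm, hm, smul_smul]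
  norm_num
  match_scalars <;> (field_simp; try ring)

lemma Z_reg (q : ℂ) (hq : q ≠ 0) (m : ℤ → ℤ → A)
    (hm : ∀ i j k l : ℤ, m i j * m k l = (q ^ (-(j * k))) • m (i + k) (j + l)) (c : ℂ) :
    (1 / q ^ 3) • (m 2 2 * (ZZ q m - c • m 0 0)) = m 0 0 + ((1 / q ^ 7) • m 4 2
      + (1 / q ^ 3) • m 2 4 + ((q + 1 / q ^ 2) / q ^ 5) • m 3 3 + ((1 + q) / q ^ 3) • m 2 1
      + ((1 + q) / q) • m 1 2 + (- c / q ^ 3) • m 2 2) := by
  unfold ZZ
  simp only [mul_add, mul_sub, add_mul, mul_smul_comm, hm, smul_smul]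
  norm_num
  match_scalars <;> (field_simp; try ring)

end calc1

end Pool.Agent.H60.QT
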