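import Mathlib

/-! The function field of `Y² = Z³ + D` and its embedding in a noncommutative algebra. -/

set_option autoImplicit false

namespace Pool.Agent.H60.QT

open Polynomial

lemma not_rat (D : ℂ) (hD : D ≠ 0) (Z Y : RatFunc ℂ) (h : Y ^ 2 = Z ^ 3 + RatFunc.C D) :
    ∃ c : ℂ, Z = RatFunc.C c := by
  set P := Z.num
  set Q := Z.denom
  set R := Y.num
  set S := Y.denom
  have hQ : Q ≠ 0 := Z.denom_ne_zero
  have hS : S ≠ 0 := Y.denom_ne_zero
  have hPQ : IsCoprime P Q := Z.isCoprime_num_denom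
  have hRS : IsCoprime R S := Y.isCoprime_num_denom
  have hQ' : algebraMap ℂ[X] (RatFunc ℂ) Q ≠ 0 := by simpa using hQ
  have hS' : algebraMap ℂ[X] (RatFunc ℂ) S ≠ 0 := by simpa using hS
  have eZ : Z = algebraMap ℂ[X] (RatFunc ℂ) P / algebraMap ℂ[X] (RatFunc ℂ) Q :=
    (RatFunc.num_div_denom Z).symm
  have eY : Y = algebraMap ℂ[X] (RatFunc ℂ) R / algebraMap ℂ[X] (RatFunc ℂ) S :=
    (RatFunc.num_div_denom Y).symm
  have key : R ^ 2 * Q ^ 3 = S ^ 2 * (P ^ 3 + C D * Q ^ 3) := by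
    apply IsFractionRing.injective ℂ[X] (RatFunc ℂ)
    rw [eZ, eY] at h
    simp only [map_mul, map_pow, map_add, RatFunc.algebraMap_C]
    field_simp at h
    linear_combination h
  have c1 : IsCoprime (Q ^ 3) (P ^ 3 + C D * Q ^ 3) :=
    (IsCoprime.pow hPQ.symm).add_mul_right_right _
  have d1 : Q ^ 3 ∣ S ^ 2 := c1.dvd_of_dvd_mul_right ⟨R ^ 2, by rw [← key]; ring⟩
  have d2 : S ^ 2 ∣ Q ^ 3 :=
    (IsCoprime.pow hRS.symm : IsCoprime (S ^ 2) (R ^ 2)).dvd_of_dvd_mul_left ⟨_, key⟩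
  have e1 : Q ^ 3 = S ^ 2 :=
    eq_of_monic_of_associated (Z.monic_denom.pow 3) (Y.monic_denom.pow 2)
      (associated_of_dvd_dvd d1 d2)
  have d3 : Q ∣ S := by
    have : Q ^ 2 ∣ S ^ 2 := ⟨Q, by rw [← e1]; ring⟩
    exact (UniqueFactorizationMonoid.pow_dvd_pow_iff_dvd (by norm_num)).1 this
  obtain ⟨T, hT⟩ := d3
  have e2 : Q = T ^ 2 := by
    have : Q ^ 2 * Q = Q ^ 2 * T ^ 2 := by rw [← mul_pow, ← hT, ← e1]; ring
    exact mul_left_cancel₀ (pow_ne_zero 2 hQ) this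
  have hT0 : T ≠ 0 := by rintro rfl; simp at e2; exact hQ e2
  have e3 : R ^ 2 = P ^ 3 + C D * T ^ 6 := by
    rw [e1, mul_comm] at key
    have := mul_left_cancel₀ (pow_ne_zero 2 hS) key
    rw [this, ← e1, e2]; ring
  have hPT : IsCoprime P T := by
    rw [e2] at hPQ; exact (IsCoprime.pow_right_iff (by norm_num)).1 hPQ
  have fin : P.natDegree = 0 → T.natDegree = 0 → ∃ c : ℂ, Z = RatFunc.C c := by
    intro h1 h2
    rw [natDegree_eq_zero] at h1 h2
    obtain ⟨a, ha⟩ := h1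
    obtain ⟨b, hb⟩ := h2
    refine ⟨a / b ^ 2, ?_⟩
    rw [eZ, e2, ← ha, ← hb]
    simp
  by_cases hP : P = 0
  · exact ⟨0, by rw [eZ, hP]; simp⟩
  by_cases hR : R = 0
  · have e4 : P ^ 3 = -(C D * T ^ 6) := by rw [hR] at e3; linear_combination -e3
    have u1 : IsUnit T := by
      have : T ∣ P ^ 3 := ⟨-(C D * T ^ 5), by rw [e4]; ring⟩
      exact (IsCoprime.pow_right hPT.symm : IsCoprime T (P ^ 3)).isUnit_of_dvd this
    have u2 : T.natDegree = 0 := natDegree_eq_zero_of_isUnit u1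
    refine fin ?_ u2
    have := congrArg natDegree e4
    rw [natDegree_pow, natDegree_neg, natDegree_C_mul hD, natDegree_pow, u2] at this
    omega
  have := Polynomial.flt_catalan (k := ℂ) (p := 3) (q := 6) (r := 2) (by norm_num) (by norm_num)
    (by norm_num) (by norm_num) (by norm_num) (by norm_num) (by norm_num) hP hT0 hR hPT
    (u := 1) (v := D) (w := -1) one_ne_zero hD (by norm_num) (by rw [e3]; simp)
  exact fin this.1 this.2.1

lemma irr (D : ℂ) :
    Irreducible (X ^ 2 - C (RatFunc.X ^ 3 + RatFunc.C D) : (RatFunc ℂ)[X]) := by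
  apply X_pow_sub_C_irreducible_of_prime Nat.prime_two
  intro b hb
  have e : (RatFunc.X ^ 3 + RatFunc.C D : RatFunc ℂ)
      = algebraMap ℂ[X] (RatFunc ℂ) (X ^ 3 + C D) := by simp
  have h3 : (RatFunc.X ^ 3 + RatFunc.C D : RatFunc ℂ).intDegree = 3 := by
    rw [e, RatFunc.intDegree_polynomial, natDegree_X_pow_add_C]; rfl
  have hb0 : b ≠ 0 := by
    rintro rfl
    rw [← hb] at h3; simp at h3
  rw [← hb, pow_two, RatFunc.intDegree_mul hb0 hb0] at h3
  omega

theorem embed {A : Type} [Ring A] [Algebra ℂ A] [Nontrivial A] (D : ℂ) (hD : D ≠ 0) (Z Y : A)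
    (hc : Z * Y = Y * Z) (hY : Y * Y = Z * (Z * Z) + algebraMap ℂ A D)
    (hu : ∀ c : ℂ, IsUnit (Z - algebraMap ℂ A c)) :
    ∃ (L : Type) (_ : Field L) (_ : Algebra ℂ L) (f : L →ₐ[ℂ] A),
      Function.Injective f ∧ Algebra.trdeg ℂ L = 1 ∧ IsEmpty (L ≃ₐ[ℂ] RatFunc ℂ) := by
  classical
  let S : Subalgebra ℂ A := Subalgebra.centralizer ℂ (Set.centralizer {Z, Y})
  have hsub : ({Z, Y} : Set A) ⊆ Set.centralizer {Z, Y} := by
    intro a ha b hb
    rcases ha with rfl | rfl <;> rcases hb with rfl | rfl <;> simp [hc]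
  have hcomm : ∀ a b : S, a * b = b * a := by
    intro a b
    apply Subtype.ext
    have h1 : (a : A) ∈ Set.centralizer ({Z, Y} : Set A) := fun m hm => a.2 m (hsub hm)
    exact b.2 a h1
  letI : CommRing S := { (inferInstance : Ring S) with mul_comm := hcomm }
  let z : S := ⟨Z, fun m hm => (hm Z (by simp)).symm⟩
  let y : S := ⟨Y, fun m hm => (hm Y (by simp)).symm⟩
  have hunit : ∀ a : S, IsUnit (a : A) → IsUnit a := by
    intro a ha
    obtain ⟨w, hw⟩ := ha
    have hm : ((w⁻¹ : Aˣ) : A) ∈ S := by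
      intro m hm
      have : m * w = w * m := by rw [hw]; exact a.2 m hm
      exact (Commute.units_inv_right this : Commute m ((w⁻¹ : Aˣ) : A))
    refine IsUnit.of_mul_eq_one (⟨_, hm⟩ : S) ?_
    apply Subtype.ext
    simp [← hw]
  have hp : ∀ p : ℂ[X], p ≠ 0 → IsUnit (aeval z p) := by
    intro p hp0
    have hs : p.Splits := IsAlgClosed.splits p
    rw [hs.eq_prod_roots, map_mul, aeval_C, map_multiset_prod]
    refine IsUnit.mul ((IsUnit.mk0 _ (leadingCoeff_ne_zero.2 hp0)).map _) ?_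
    rw [Multiset.map_map]
    refine Multiset.prod_induction _ _ (fun a b => IsUnit.mul) isUnit_one ?_
    intro a ha
    obtain ⟨c, -, rfl⟩ := Multiset.mem_map.1 ha
    apply hunit
    simpa using hu c
  let g0 : RatFunc ℂ →+* S :=
    IsLocalization.lift (M := nonZeroDivisors ℂ[X]) (g := (aeval z : ℂ[X] →ₐ[ℂ] S).toRingHom)
      (fun p => hp p (nonZeroDivisors.ne_zero p.2))
  have hg0 : ∀ p : ℂ[X], g0 (algebraMap _ _ p) = aeval z p := fun p => IsLocalization.lift_eq _ p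
  let g : RatFunc ℂ →ₐ[ℂ] S :=
    { g0 with
      commutes' := fun c => by
        have := hg0 (C c)
        simpa [RatFunc.algebraMap_eq_C] using this }
  have hg : ∀ p : ℂ[X], g (algebraMap _ _ p) = aeval z p := hg0
  let f0 : (RatFunc ℂ)[X] := X ^ 2 - C (RatFunc.X ^ 3 + RatFunc.C D)
  haveI : Fact (Irreducible f0) := ⟨irr D⟩
  have hroot : f0.eval₂ (g : RatFunc ℂ →+* S) y = 0 := by
    have e : (RatFunc.X ^ 3 + RatFunc.C D : RatFunc ℂ)
      = algebraMap ℂ[X] (RatFunc ℂ) (X ^ 3 + C D) := by simp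
    simp only [f0, eval₂_sub, eval₂_X_pow, eval₂_C]
    rw [e, RingHom.coe_coe, hg, sub_eq_zero]
    apply Subtype.ext
    simp [y, z, pow_succ, hY, mul_assoc]
  let f1 : AdjoinRoot f0 →ₐ[ℂ] S := AdjoinRoot.liftAlgHom f0 g y hroot
  refine ⟨AdjoinRoot f0, inferInstance, inferInstance, S.val.comp f1,
    (S.val.comp f1).toRingHom.injective, ?_, ⟨fun e => ?_⟩⟩
  · haveI : Module.Finite (RatFunc ℂ) (AdjoinRoot f0) :=
      (AdjoinRoot.powerBasis (irr D).ne_zero).finite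
    rw [← trdeg_add_eq ℂ (RatFunc ℂ), trdeg_eq_zero (R := RatFunc ℂ), add_zero,
      ← trdeg_add_eq ℂ ℂ[X], Polynomial.trdeg_of_isDomain]
    haveI : Algebra.IsAlgebraic ℂ[X] (RatFunc ℂ) :=
      IsLocalization.isAlgebraic _ (nonZeroDivisors ℂ[X])
    rw [trdeg_eq_zero, add_zero]
  · have h1 : (AdjoinRoot.root f0) ^ 2
        = (AdjoinRoot.of f0 RatFunc.X) ^ 3 + algebraMap ℂ _ D := by
      have := AdjoinRoot.eval₂_root f0
      simp only [f0, eval₂_sub, eval₂_X_pow, eval₂_C, sub_eq_zero] at this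
      rw [this, map_add, map_pow]
      rfl
    have h2 := congrArg e h1
    rw [map_pow, map_add, map_pow, AlgEquiv.commutes] at h2
    obtain ⟨c, hc⟩ := not_rat D hD _ _ h2
    have h3 : AdjoinRoot.of f0 RatFunc.X = AdjoinRoot.of f0 (RatFunc.C c) := by
      apply e.injective
      rw [hc]
      exact (e.commutes c).symm
    have h4 := (AdjoinRoot.of f0).injective h3
    have h5 := congrArg RatFunc.intDegree h4
    simp at h5

end Pool.Agent.H60.QT
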