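import Mathlib

/-! A representation of the cyclic algebra `(u,v)_n`, independence and spanning of monomials. -/

set_option autoImplicit false

namespace Pool.Agent.H60.QT

open MvPolynomial

abbrev R0 := MvPolynomial (Fin 2) ℂ
abbrev FF := FractionRing R0
abbrev R1 := MvPolynomial Bool ℂ
abbrev EE := FractionRing R1

section lin
variable {K B : Type*} [Field K] [Ring B] [Algebra K B]

lemma swapN (q : K) (x y : B) (h : x * y = q • (y * x)) (i j : ℕ) :
    x ^ i * y ^ j = (q ^ (i * j)) • (y ^ j * x ^ i) := by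
  have h1 : ∀ j : ℕ, x * y ^ j = (q ^ j) • (y ^ j * x) := by
    intro j
    induction j with
    | zero => simp
    | succ j ih =>
      rw [pow_succ, ← mul_assoc, ih, smul_mul_assoc, mul_assoc, h, mul_smul_comm, smul_smul,
        pow_succ, mul_assoc]
  induction i with
  | zero => simp
  | succ i ih =>
    rw [pow_succ' x, mul_assoc, ih, mul_smul_comm, ← mul_assoc, h1, smul_mul_assoc, smul_smul,
      mul_assoc, ← pow_add, add_mul, one_mul]

lemma indep [Nontrivial B] (n : ℕ) (hn : 0 < n) (q u v : K) (hq : q ^ n = 1) (hu : u ≠ 0)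
    (hv : v ≠ 0)
    (hinj : Function.Injective fun p : Fin n × Fin n =>
      u * q ^ (p.2 : ℕ) + v * (q ^ (p.1 : ℕ))⁻¹)
    (x y : B) (hx : x ^ n = algebraMap K B u) (hy : y ^ n = algebraMap K B v)
    (h : x * y = q • (y * x)) :
    LinearIndependent K fun p : Fin n × Fin n => x ^ (p.1 : ℕ) * y ^ (p.2 : ℕ) := by
  have hq0 : q ≠ 0 := by rintro rfl; simp [hn.ne'] at hq
  obtain ⟨m, rfl⟩ : ∃ m, n = m + 1 := ⟨n - 1, by omega⟩
  have ux : IsUnit x := by
    have : IsUnit (x ^ (m + 1)) := by rw [hx]; exact (IsUnit.mk0 u hu).map _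
    exact (isUnit_pow_iff (by omega)).1 this
  have uy : IsUnit y := by
    have : IsUnit (y ^ (m + 1)) := by rw [hy]; exact (IsUnit.mk0 v hv).map _
    exact (isUnit_pow_iff (by omega)).1 this
  let T : Module.End K B := (LinearMap.mulLeft K x).comp (LinearMap.mulRight K (x ^ m))
    + (LinearMap.mulLeft K y).comp (LinearMap.mulRight K (y ^ m))
  refine Module.End.eigenvectors_linearIndependent' T _ hinj _ ?_
  rintro ⟨i, j⟩
  refine ⟨?_, ((ux.pow _).mul (uy.pow _)).ne_zero⟩
  rw [Module.End.mem_eigenspace_iff]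
  have e1 : x * (x ^ (i : ℕ) * y ^ (j : ℕ) * x ^ m)
      = (u * q ^ (j : ℕ)) • (x ^ (i : ℕ) * y ^ (j : ℕ)) := by
    have a1 : x * (x ^ (i : ℕ) * y ^ (j : ℕ) * x ^ m) = x ^ (i : ℕ) * (x ^ 1 * y ^ (j : ℕ)) * x ^ m := by
      rw [pow_one, ← mul_assoc, ← mul_assoc, ← mul_assoc, ← pow_succ', ← pow_succ]
    rw [a1, swapN q x y h 1, one_mul, mul_smul_comm, smul_mul_assoc, mul_assoc, mul_assoc,
      ← pow_add, add_comm 1 m, hx, ← mul_assoc, ← Algebra.commutes, ← Algebra.smul_def, smul_smul,
      mul_comm u]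
  have e2 : y * (x ^ (i : ℕ) * y ^ (j : ℕ) * y ^ m)
      = (v * (q ^ (i : ℕ))⁻¹) • (x ^ (i : ℕ) * y ^ (j : ℕ)) := by
    have a0 : y * x ^ (i : ℕ) = (q ^ (i : ℕ))⁻¹ • (x ^ (i : ℕ) * y) := by
      have := swapN q x y h i 1
      rw [pow_one, mul_one] at this
      rw [this, smul_smul, inv_mul_cancel₀ (pow_ne_zero _ hq0), one_smul]
    have a1 : y * (y ^ (j : ℕ) * y ^ m) = y ^ (j : ℕ) * y ^ (m + 1) := by
      rw [← pow_add, ← pow_succ', ← pow_add, add_assoc]
    rw [mul_assoc, ← mul_assoc y, a0, smul_mul_assoc, mul_assoc, a1, hy, ← mul_assoc,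
      ← Algebra.commutes, ← Algebra.smul_def, smul_smul, mul_comm v]
  simp only [T, LinearMap.add_apply, LinearMap.comp_apply, LinearMap.mulLeft_apply,
    LinearMap.mulRight_apply]
  rw [e1, e2, add_smul]

lemma span_top (n : ℕ) (hn : 0 < n) (q u v : K) (hq0 : q ≠ 0)
    (x y : B) (hx : x ^ n = algebraMap K B u) (hy : y ^ n = algebraMap K B v)
    (h : x * y = q • (y * x)) (hadj : Algebra.adjoin K {x, y} = ⊤) :
    Submodule.span K (Set.range fun p : Fin n × Fin n => x ^ (p.1 : ℕ) * y ^ (p.2 : ℕ)) = ⊤ := by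
  set S := Submodule.span K (Set.range fun p : Fin n × Fin n => x ^ (p.1 : ℕ) * y ^ (p.2 : ℕ))
  have h1 : ∀ i j : ℕ, x ^ i * y ^ j ∈ S := by
    intro i j
    have e : x ^ i * y ^ j = (u ^ (i / n) * v ^ (j / n)) • (x ^ (i % n) * y ^ (j % n)) := by
      conv_lhs => rw [← Nat.div_add_mod i n, ← Nat.div_add_mod j n, pow_add, pow_add, pow_mul,
        pow_mul, hx, hy, ← map_pow, ← map_pow, ← Algebra.smul_def, ← Algebra.smul_def]
      rw [smul_mul_assoc, mul_smul_comm, smul_smul]
    rw [e]
    exact S.smul_mem _ (Submodule.subset_span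
      ⟨(⟨i % n, Nat.mod_lt _ hn⟩, ⟨j % n, Nat.mod_lt _ hn⟩), rfl⟩)
  have h2 : ∀ a ∈ Algebra.adjoin K ({x, y} : Set B), ∀ s ∈ S, a * s ∈ S := by
    intro a ha
    induction ha using Algebra.adjoin_induction with
    | mem a ha =>
      intro s hs
      induction hs using Submodule.span_induction with
      | mem s hs =>
        obtain ⟨⟨i, j⟩, rfl⟩ := hs
        rcases ha with rfl | rfl
        · simp only [← mul_assoc, ← pow_succ']; exact h1 _ _
        · have a0 : a * x ^ (i : ℕ) = (q ^ (i : ℕ))⁻¹ • (x ^ (i : ℕ) * a) := by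
            have := swapN q x a h i 1
            rw [pow_one, mul_one] at this
            rw [this, smul_smul, inv_mul_cancel₀ (pow_ne_zero _ hq0), one_smul]
          simp only
          rw [← mul_assoc, a0, smul_mul_assoc, mul_assoc, ← pow_succ']
          exact S.smul_mem _ (h1 _ _)
      | zero => simp
      | add s t _ _ hs ht => rw [mul_add]; exact S.add_mem hs ht
      | smul c s _ hs => rw [mul_smul_comm]; exact S.smul_mem _ hs
    | algebraMap r => intro s hs; rw [← Algebra.smul_def]; exact S.smul_mem _ hs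
    | add a b _ _ ha hb => intro s hs; rw [add_mul]; exact S.add_mem (ha s hs) (hb s hs)
    | mul a b _ _ ha hb => intro s hs; rw [mul_assoc]; exact ha _ (hb s hs)
  rw [eq_top_iff]
  intro a _
  have := h2 a (by rw [hadj]; trivial) 1 (by simpa using h1 0 0)
  simpa using this

end lin

/-- `a ↦ ζ⁻¹ a`, `b ↦ b` -/
noncomputable def sig0 (ζ : ℂ) : R1 →ₐ[ℂ] R1 :=
  aeval fun i => if i then X true else C ζ⁻¹ * X false

lemma sig0_pow (ζ : ℂ) (k : ℕ) :
    (sig0 ζ) ^ k = aeval fun i => if i then X true else C (ζ⁻¹ ^ k) * X false := by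
  induction k with
  | zero => ext i : 1; cases i <;> simp
  | succ k ih =>
    rw [pow_succ', ih]
    ext i : 1
    cases i
    · simp [sig0, pow_succ, mul_assoc]
    · simp [sig0]

lemma sig0_n (n : ℕ) (ζ : ℂ) (h : ζ ^ n = 1) : (sig0 ζ) ^ n = 1 := by
  rw [sig0_pow]
  ext i : 1
  cases i <;> simp [h]

lemma sig0_inj (n : ℕ) (hn : 0 < n) (ζ : ℂ) (h : ζ ^ n = 1) : Function.Injective (sig0 ζ) := by
  obtain ⟨m, rfl⟩ : ∃ m, n = m + 1 := ⟨n - 1, by omega⟩
  intro a b hab
  have := congrArg ((sig0 ζ) ^ m) hab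
  rwa [← AlgHom.mul_apply, ← AlgHom.mul_apply, ← pow_succ, sig0_n _ _ h] at this

theorem exists_rep (n : ℕ) (hn : 0 < n) (ζ : ℂ) (hζ : ζ ^ n = 1) :
    ∃ (B : Type) (_ : Ring B) (_ : Nontrivial B) (_ : Algebra FF B) (x y : B),
      x ^ n = algebraMap FF B (algebraMap R0 FF (X 0)) ∧
      y ^ n = algebraMap FF B (algebraMap R0 FF (X 1)) ∧
      x * y = (algebraMap ℂ FF ζ) • (y * x) ∧
      ∀ (l : List (ℂ × ℕ × ℕ)) (β : B),
        (1 + (l.map fun t => (algebraMap ℂ FF t.1) • (x ^ t.2.1 * y ^ (t.2.2 + 1))).sum) * β = 0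
          → β = 0 := by
  have hζ0 : ζ ≠ 0 := by rintro rfl; simp [hn.ne'] at hζ
  let φ0 : R0 →ₐ[ℂ] R1 := (expand n).comp (rename finTwoEquiv)
  have hφ0 : Function.Injective φ0 :=
    (expand_injective hn).comp (rename_injective _ finTwoEquiv.injective)
  let ι : R1 →ₐ[ℂ] EE := IsScalarTower.toAlgHom ℂ R1 EE
  have hι : Function.Injective ι := IsFractionRing.injective R1 EE
  let φ : FF →ₐ[ℂ] EE := IsFractionRing.liftAlgHom (g := ι.comp φ0) (hι.comp hφ0)
  have hφ : ∀ r : R0, φ (algebraMap R0 FF r) = ι (φ0 r) := by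
    intro r
    exact IsFractionRing.lift_algebraMap (g := (ι.comp φ0).toRingHom) (hι.comp hφ0) r
  let σ : EE →ₐ[ℂ] EE :=
    IsFractionRing.liftAlgHom (g := ι.comp (sig0 ζ)) (hι.comp (sig0_inj n hn ζ hζ))
  have hσ : ∀ r : R1, σ (ι r) = ι (sig0 ζ r) := by
    intro r
    exact IsFractionRing.lift_algebraMap (g := (ι.comp (sig0 ζ)).toRingHom)
      (hι.comp (sig0_inj n hn ζ hζ)) r
  have hσφ0 : (sig0 ζ).comp φ0 = φ0 := by
    ext i : 1
    have hC : (C ζ⁻¹ : R1) ^ n = 1 := by rw [← map_pow, inv_pow, hζ]; simp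
    fin_cases i <;> simp [φ0, sig0, finTwoEquiv, mul_pow, hC]
  have hσφ : ∀ r : FF, σ (φ r) = φ r := by
    intro r
    obtain ⟨p, d, hd, rfl⟩ := IsFractionRing.div_surjective (A := R0) r
    rw [map_div₀, map_div₀, hφ, hφ, hσ, hσ]
    have := fun z => congrArg (fun g : R0 →ₐ[ℂ] R1 => g z) hσφ0
    simp only [AlgHom.comp_apply] at this
    rw [this, this]
  let _ : Algebra FF EE := φ.toRingHom.toAlgebra
  have hsm : ∀ (r : FF) (e : EE), r • e = φ r * e := fun _ _ => rfl
  let a : EE := ι (X false)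
  let b : EE := ι (X true)
  have hσa : σ a = algebraMap ℂ EE ζ⁻¹ * a := by
    simp only [a]; rw [hσ]; simp [sig0, ← algebraMap_eq]
  have hσb : σ b = b := by
    simp only [b]; rw [hσ]; simp [sig0]
  let x : Module.End FF EE := LinearMap.mulLeft FF a
  let y : Module.End FF EE :=
    { toFun := fun e => b * σ e
      map_add' := fun e f => by rw [map_add, mul_add]
      map_smul' := fun r e => by rw [hsm, RingHom.id_apply, hsm, map_mul, hσφ]; ring }
  have hx : ∀ (i : ℕ) (e : EE), (x ^ i) e = a ^ i * e := by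
    intro i e; simp [x]
  have hy : ∀ (j : ℕ) (e : EE), (y ^ j) e = b ^ j * (σ ^ j) e := by
    intro j
    induction j with
    | zero => simp
    | succ j ih =>
      intro e
      rw [pow_succ', Module.End.mul_apply, ih]
      show b * σ (b ^ j * (σ ^ j) e) = _
      rw [map_mul, map_pow, hσb, pow_succ' σ, AlgHom.mul_apply]; ring
  have hσp : ∀ (j : ℕ) (r : R1), (σ ^ j) (ι r) = ι (((sig0 ζ) ^ j) r) := by
    intro j
    induction j with
    | zero => simp
    | succ j ih => intro r; rw [pow_succ, pow_succ, AlgHom.mul_apply, AlgHom.mul_apply, hσ, ih]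
  have hσn : ∀ e : EE, (σ ^ n) e = e := by
    intro e
    obtain ⟨p, d, hd, rfl⟩ := IsFractionRing.div_surjective (A := R1) e
    rw [map_div₀]
    have := hσp n
    rw [sig0_n n ζ hζ] at this
    exact congrArg₂ (· / ·) (this p) (this d)
  refine ⟨Module.End FF EE, inferInstance, inferInstance, inferInstance, x, y, ?_, ?_, ?_, ?_⟩
  · ext e
    rw [hx, Module.algebraMap_end_apply, hsm, hφ]
    simp [φ0, a, finTwoEquiv]
  · ext e
    rw [hy, Module.algebraMap_end_apply, hsm, hφ, hσn]
    simp [φ0, b, finTwoEquiv]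
  · ext e
    rw [LinearMap.smul_apply, hsm, AlgHom.commutes]
    show a * (b * σ e) = _ * (b * σ (a * e))
    rw [map_mul, hσa]
    have : algebraMap ℂ EE ζ * algebraMap ℂ EE ζ⁻¹ = 1 := by
      rw [← map_mul, mul_inv_cancel₀ hζ0, map_one]
    linear_combination (-(a * b * σ e)) * this
  · intro l β hβ
    set N : Module.End FF EE :=
      (l.map fun t => (algebraMap ℂ FF t.1) • (x ^ t.2.1 * y ^ (t.2.2 + 1))).sum with hN
    have N1 : ∀ w e : EE, σ w = w → N (w * e) = w * N e := by
      intro w e hw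
      have hwj : ∀ j : ℕ, (σ ^ j) w = w := by
        intro j
        induction j with
        | zero => simp
        | succ j ih => rw [pow_succ, AlgHom.mul_apply, hw, ih]
      rw [hN]
      clear hβ hN
      induction l with
      | nil => simp
      | cons t l ih =>
        simp only [List.map_cons, List.sum_cons, LinearMap.add_apply, LinearMap.smul_apply,
          Module.End.mul_apply, hsm, hx, hy, map_mul, hwj, ih]
        ring
    have N2 : ∀ P : R1, ∃ P' : R1, N (ι P) = b * ι P' := by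
      intro P
      rw [hN]
      clear hβ N1 hN
      induction l with
      | nil => exact ⟨0, by simp⟩
      | cons t l ih =>
        obtain ⟨P', hP'⟩ := ih
        refine ⟨C t.1 * X false ^ t.2.1 * X true ^ t.2.2 * ((sig0 ζ) ^ (t.2.2 + 1)) P + P', ?_⟩
        simp only [List.map_cons, List.sum_cons, LinearMap.add_apply, LinearMap.smul_apply,
          Module.End.mul_apply, hsm, hx, hy, hP', hσp, AlgHom.commutes, map_add, map_mul, map_pow,
          ← algebraMap_eq, a, b]
        ring
    have hb0 : b ≠ 0 := by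
      simp only [b]; rw [map_ne_zero_iff _ hι]; exact X_ne_zero _
    have K1 : ∀ (k : ℕ) (P : R1), ι P + N (ι P) = 0 → X true ^ k ∣ P := by
      intro k
      induction k with
      | zero => intro P _; simp
      | succ k ih =>
        intro P hP
        obtain ⟨P', hP'⟩ := N2 P
        have e1 : P = X true * (-P') := by
          apply hι
          rw [map_mul, map_neg]
          rw [hP'] at hP
          linear_combination hP
        have e2 : ι (-P') + N (ι (-P')) = 0 := by
          apply mul_left_cancel₀ hb0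
          rw [mul_add, ← N1 b _ hσb, mul_zero]
          have : b * ι (-P') = ι P := by rw [e1, map_mul]
          rw [this, hP]
        rw [e1, pow_succ']
        exact mul_dvd_mul_left _ (ih _ e2)
    have K2 : ∀ P : R1, ι P + N (ι P) = 0 → P = 0 := by
      intro P hP
      by_contra h0
      have hnu : ¬ IsUnit (X true : R1) := (X_prime (R := ℂ) (i := true)).not_isUnit
      obtain ⟨k, hk⟩ := FiniteMultiplicity.of_not_isUnit hnu h0
      exact hk (K1 _ P hP)
    have K3 : ∀ e : EE, e + N e = 0 → e = 0 := by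
      intro e he
      obtain ⟨p, d, hd, rfl⟩ := IsFractionRing.div_surjective (A := R1) e
      obtain ⟨m, rfl⟩ : ∃ m, n = m + 1 := ⟨n - 1, by omega⟩
      have hd0 : ι d ≠ 0 := by rw [map_ne_zero_iff _ hι]; exact nonZeroDivisors.ne_zero hd
      let G : R1 := ∏ k ∈ Finset.range m, ((sig0 ζ) ^ (k + 1)) d
      have hG : ι G = ∏ k ∈ Finset.range m, (σ ^ (k + 1)) (ι d) := by
        simp only [G, map_prod, hσp]
      have hG0 : ι G ≠ 0 := by
        rw [hG, Finset.prod_ne_zero_iff]
        intro k _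
        exact (map_ne_zero_iff _ (σ ^ (k + 1)).toRingHom.injective).2 hd0
      have hinv : σ (ι G * ι d) = ι G * ι d := by
        have t1 : ι G * ι d = ∏ k ∈ Finset.range (m + 1), (σ ^ k) (ι d) := by
          rw [Finset.prod_range_succ', hG]; simp
        have t2 : σ (ι G * ι d) = ∏ k ∈ Finset.range (m + 1), (σ ^ (k + 1)) (ι d) := by
          rw [t1, map_prod]
          refine Finset.prod_congr rfl fun k _ => ?_
          rw [pow_succ', AlgHom.mul_apply]
        rw [t2, Finset.prod_range_succ, hσn, hG]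
      have e1 : ι G * ι d * (ι p / ι d) = ι (G * p) := by
        rw [map_mul]; field_simp
      have e2 : ι (G * p) + N (ι (G * p)) = 0 := by
        rw [← e1, N1 _ _ hinv, ← mul_add]
        have he' : ι p / ι d + N (ι p / ι d) = 0 := he
        rw [he', mul_zero]
      have e3 := K2 _ e2
      have e4 : ι G * ι p = 0 := by rw [← map_mul, e3, map_zero]
      have e5 : ι p = 0 := (mul_eq_zero.1 e4).resolve_left hG0
      show ι p / ι d = 0
      rw [e5, zero_div]
    ext e
    apply K3
    have := congrArg (fun g : Module.End FF EE => g e) hβ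
    simpa using this

end Pool.Agent.H60.QT
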