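import Pool.Agent.H60.QTa
import Pool.Agent.H60.QTb
import Pool.Agent.H60.QTc

/-! The cyclic algebra contains an elliptic function field. -/

set_option autoImplicit false

namespace Pool.Agent.H60.QT

open MvPolynomial

lemma eig_inj (n : ℕ) (ζ : ℂ) (hζ : IsPrimitiveRoot ζ n) :
    Function.Injective fun p : Fin n × Fin n =>
      algebraMap R0 FF (X 0) * (algebraMap ℂ FF ζ) ^ (p.2 : ℕ)
        + algebraMap R0 FF (X 1) * ((algebraMap ℂ FF ζ) ^ (p.1 : ℕ))⁻¹ := by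
  rintro ⟨i, j⟩ ⟨k, l⟩ h
  have e : ∀ i j : ℕ, algebraMap R0 FF (X 0) * (algebraMap ℂ FF ζ) ^ j
        + algebraMap R0 FF (X 1) * ((algebraMap ℂ FF ζ) ^ i)⁻¹
        = algebraMap R0 FF (X 0 * C (ζ ^ j) + X 1 * C (ζ ^ i)⁻¹) := by
    intro i j
    rw [map_add, map_mul, map_mul, ← algebraMap_eq, ← IsScalarTower.algebraMap_apply,
      ← IsScalarTower.algebraMap_apply, map_inv₀, map_pow, map_pow]
  simp only [e] at h
  have h2 := IsFractionRing.injective R0 FF h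
  have h3 := congrArg (eval ![1, 0]) h2
  have h4 := congrArg (eval ![0, 1]) h2
  simp at h3 h4
  exact Prod.ext (Fin.ext (hζ.pow_inj i.2 k.2 h4)) (Fin.ext (hζ.pow_inj j.2 l.2 h3))

theorem main_abs (n : ℕ) (hn : 2 ≤ n) (ζ : ℂ) (hζ : IsPrimitiveRoot ζ n)
    {A : Type} [Ring A] [Algebra ℂ A] [Algebra FF A] [IsScalarTower ℂ FF A] (x y : A)
    (hx : x ^ n = algebraMap FF A (algebraMap R0 FF (X 0)))
    (hy : y ^ n = algebraMap FF A (algebraMap R0 FF (X 1)))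
    (h : x * y = (algebraMap ℂ FF ζ) • (y * x)) (hadj : Algebra.adjoin FF {x, y} = ⊤)
    (univ : ∀ (B : Type) [Ring B] [Algebra FF B] (x' y' : B),
      x' ^ n = algebraMap FF B (algebraMap R0 FF (X 0)) →
      y' ^ n = algebraMap FF B (algebraMap R0 FF (X 1)) →
      x' * y' = (algebraMap ℂ FF ζ) • (y' * x') → ∃ ρ : A →ₐ[FF] B, ρ x = x' ∧ ρ y = y') :
    ∃ (L : Type) (_ : Field L) (_ : Algebra ℂ L) (f : L →ₐ[ℂ] A),
      Function.Injective f ∧ Algebra.trdeg ℂ L = 1 ∧ IsEmpty (L ≃ₐ[ℂ] RatFunc ℂ) := by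
  have hn0 : 0 < n := by omega
  have hζ0 : ζ ≠ 0 := hζ.ne_zero hn0.ne'
  have hζ1 : ζ ≠ 1 := hζ.ne_one (by omega)
  have hu : algebraMap R0 FF (X 0) ≠ 0 := by
    rw [map_ne_zero_iff _ (IsFractionRing.injective R0 FF)]; exact X_ne_zero _
  have hv : algebraMap R0 FF (X 1) ≠ 0 := by
    rw [map_ne_zero_iff _ (IsFractionRing.injective R0 FF)]; exact X_ne_zero _
  have hq : (algebraMap ℂ FF ζ) ^ n = 1 := by rw [← map_pow, hζ.pow_eq_one, map_one]
  have hq0 : algebraMap ℂ FF ζ ≠ 0 := by simpa using hζ0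
  obtain ⟨B, _, _, _, x', y', hx', hy', h', hreg⟩ := exists_rep n hn0 ζ hζ.pow_eq_one
  obtain ⟨ρ, hρx, hρy⟩ := univ B x' y' hx' hy' h'
  have hli := indep n hn0 _ _ _ hq hu hv (eig_inj n ζ hζ) x' y' hx' hy' h'
  have hsp := span_top n hn0 _ _ _ hq0 x y hx hy h hadj
  have hinj : ∀ a : A, ρ a = 0 → a = 0 := by
    intro a ha
    have : a ∈ Submodule.span FF
      (Set.range fun p : Fin n × Fin n => x ^ (p.1 : ℕ) * y ^ (p.2 : ℕ)) := by rw [hsp]; trivial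
    obtain ⟨c, rfl⟩ := (Submodule.mem_span_range_iff_exists_fun FF).1 this
    simp only [map_sum, map_smul, map_mul, map_pow, hρx, hρy] at ha
    have := Fintype.linearIndependent_iff.1 hli c ha
    simp [this]
  have : Nontrivial A := ρ.toRingHom.domain_nontrivial
  have : Module.Finite FF A := ⟨by rw [← hsp]; exact Submodule.fg_span (Set.finite_range _)⟩
  have ux : IsUnit x := by
    have : IsUnit (x ^ n) := by rw [hx]; exact (IsUnit.mk0 _ hu).map _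
    exact (isUnit_pow_iff hn0.ne').1 this
  have uy : IsUnit y := by
    have : IsUnit (y ^ n) := by rw [hy]; exact (IsUnit.mk0 _ hv).map _
    exact (isUnit_pow_iff hn0.ne').1 this
  obtain ⟨xu, rfl⟩ := ux
  obtain ⟨yu, rfl⟩ := uy
  have hc : (xu : A) * yu = ζ • ((yu : A) * xu) := by rw [h, algebraMap_smul]
  have hm := mm_mul ζ hζ0 xu yu hc
  have m00 : mm xu yu 0 0 = 1 := by simp [mm]
  have mN : ∀ i j : ℕ, mm xu yu i j = (xu : A) ^ i * (yu : A) ^ j := by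
    intro i j; simp [mm]
  refine embed ((ζ - 1) ^ 6 / (4 * ζ ^ 2))
    (div_ne_zero (pow_ne_zero _ (sub_ne_zero.2 hζ1)) (by simpa using hζ0))
    (ZZ ζ (mm xu yu)) (YY ζ (mm xu yu)) (ZY_comm ζ hζ0 _ hm) ?_ ?_
  · rw [Y_sq ζ hζ0 _ hm, m00, Algebra.algebraMap_eq_smul_one]
  · intro c
    set w := ZZ ζ (mm xu yu) - algebraMap ℂ A c with hw
    have hr : ∀ a : A, w * a = 0 → a = 0 := by
      intro a ha
      apply hinj
      have e1 := Z_reg ζ hζ0 _ hm c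
      rw [m00, ← Algebra.algebraMap_eq_smul_one, ← hw] at e1
      have e2 := congrArg (· * a) e1
      simp only [smul_mul_assoc, mul_assoc, ha, mul_zero, smul_zero] at e2
      have e3 := congrArg ρ e2
      apply hreg [(1 / ζ ^ 7, 4, 1), (1 / ζ ^ 3, 2, 3), ((ζ + 1 / ζ ^ 2) / ζ ^ 5, 3, 2),
        ((1 + ζ) / ζ ^ 3, 2, 0), ((1 + ζ) / ζ, 1, 1), (- c / ζ ^ 3, 2, 1)]
      have m1 : mm xu yu 4 2 = _ := mN 4 2
      have m2 : mm xu yu 2 4 = _ := mN 2 4
      have m3 : mm xu yu 3 3 = _ := mN 3 3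
      have m4 : mm xu yu 2 1 = _ := mN 2 1
      have m5 : mm xu yu 1 2 = _ := mN 1 2
      have m6 : mm xu yu 2 2 = _ := mN 2 2
      rw [m1, m2, m3, m4, m5, m6] at e3
      have hs : ∀ (r : ℂ) (z : A), ρ (r • z) = (algebraMap ℂ FF r) • ρ z := by
        intro r z; rw [← map_smul, algebraMap_smul]
      simp only [hs, map_zero, map_mul, map_add, map_one, map_pow, hρx, hρy] at e3
      rw [e3]
      simp only [List.map_cons, List.sum_cons, List.map_nil, List.sum_nil, add_zero, add_assoc]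
    have hi : Function.Injective (LinearMap.mulLeft FF w) :=
      (injective_iff_map_eq_zero _).2 hr
    obtain ⟨b, hb⟩ := LinearMap.injective_iff_surjective.1 hi 1
    have hb' : w * b = 1 := hb
    have hb2 : b * w = 1 := by
      rw [← sub_eq_zero]
      apply hr
      rw [mul_sub, ← mul_assoc, hb', one_mul, mul_one, sub_self]
    exact ⟨⟨w, b, hb', hb2⟩, rfl⟩

/-- the defining relations of the cyclic algebra -/
abbrev rel (n : ℕ) (ζ : ℂ) : FreeAlgebra FF (Fin 2) → FreeAlgebra FF (Fin 2) → Prop :=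
  fun a b =>
    (a = FreeAlgebra.ι FF (0 : Fin 2) ^ n ∧
      b = algebraMap FF (FreeAlgebra FF (Fin 2)) (algebraMap R0 FF (X (0 : Fin 2)))) ∨
    (a = FreeAlgebra.ι FF (1 : Fin 2) ^ n ∧
      b = algebraMap FF (FreeAlgebra FF (Fin 2)) (algebraMap R0 FF (X (1 : Fin 2)))) ∨
    (a = FreeAlgebra.ι FF (0 : Fin 2) * FreeAlgebra.ι FF (1 : Fin 2) ∧
      b = algebraMap ℂ (FreeAlgebra FF (Fin 2)) ζ *
        (FreeAlgebra.ι FF (1 : Fin 2) * FreeAlgebra.ι FF (0 : Fin 2)))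

theorem final (n : ℕ) (hn : 2 ≤ n) (ζ : ℂ) (hζ : IsPrimitiveRoot ζ n) :
    ∃ (L : Type) (_ : Field L) (_ : Algebra ℂ L) (f : L →ₐ[ℂ] RingQuot (rel n ζ)),
      Function.Injective f ∧ Algebra.trdeg ℂ L = 1 ∧ IsEmpty (L ≃ₐ[ℂ] RatFunc ℂ) := by
  refine main_abs n hn ζ hζ
    (RingQuot.mkAlgHom FF (rel n ζ) (FreeAlgebra.ι _ (0 : Fin 2)))
    (RingQuot.mkAlgHom FF (rel n ζ) (FreeAlgebra.ι _ (1 : Fin 2))) ?_ ?_ ?_ ?_ ?_
  · rw [← map_pow, ← AlgHom.commutes (RingQuot.mkAlgHom FF (rel n ζ))]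
    exact RingQuot.mkAlgHom_rel _ (Or.inl ⟨rfl, rfl⟩)
  · rw [← map_pow, ← AlgHom.commutes (RingQuot.mkAlgHom FF (rel n ζ))]
    exact RingQuot.mkAlgHom_rel _ (Or.inr (Or.inl ⟨rfl, rfl⟩))
  · rw [← map_mul, ← map_mul, ← map_smul, Algebra.smul_def, ← IsScalarTower.algebraMap_apply]
    exact RingQuot.mkAlgHom_rel _ (Or.inr (Or.inr ⟨rfl, rfl⟩))
  · rw [← Set.image_pair, ← AlgHom.map_adjoin]
    have : ({FreeAlgebra.ι FF (0 : Fin 2), FreeAlgebra.ι _ (1 : Fin 2)} : Set _)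
        = Set.range (FreeAlgebra.ι FF) := by
      ext z
      simp [Fin.exists_fin_two, eq_comm]
    rw [this, FreeAlgebra.adjoin_range_ι, Algebra.map_top, AlgHom.range_eq_top]
    exact RingQuot.mkAlgHom_surjective _ _
  · intro B _ _ x' y' hx hy h
    refine ⟨RingQuot.liftAlgHom FF ⟨FreeAlgebra.lift FF ![x', y'], ?_⟩, ?_, ?_⟩
    · rintro a b (⟨rfl, rfl⟩ | ⟨rfl, rfl⟩ | ⟨rfl, rfl⟩)
      · rw [AlgHom.commutes, map_pow, FreeAlgebra.lift_ι_apply]; exact hx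
      · rw [AlgHom.commutes, map_pow, FreeAlgebra.lift_ι_apply]; exact hy
      · rw [IsScalarTower.algebraMap_apply ℂ FF, ← Algebra.smul_def, map_smul,
          map_mul, map_mul, FreeAlgebra.lift_ι_apply, FreeAlgebra.lift_ι_apply]
        exact h
    · simp
    · simp

end Pool.Agent.H60.QT
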