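import Mathlib

open Set Complex Topology Filter

namespace H60.RG

noncomputable section

/-- `γ` has winding number `n` about `0` over a period `2π`. -/
def IsWind (γ : ℝ → ℂ) (n : ℤ) : Prop :=
  ∃ L : ℝ → ℂ, Continuous L ∧ (∀ θ, exp (L θ) = γ θ) ∧
    ∀ θ, L (θ + 2 * Real.pi) = L θ + n * (2 * Real.pi * I)

lemma exists_log {T : Type*} [TopologicalSpace T] [LocallyPathConnectedSpace T]
    [SimplyConnectedSpace T] {G : T → ℂ} (hG : Continuous G) (h0 : ∀ t, G t ≠ 0) :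
    ∃ L : T → ℂ, Continuous L ∧ ∀ t, exp (L t) = G t := by
  obtain ⟨t₀⟩ : Nonempty T := inferInstance
  rcases isCoveringMapOn_exp.existsUnique_continuousMap_lifts
    (⟨G, hG⟩ : C(T, ℂ)) (a₀ := t₀) (e₀ := log (G t₀)) (exp_log (h0 t₀))
    (fun x ↦ h0 x) with ⟨f, ⟨-, hf⟩, -⟩
  exact ⟨f, f.continuous, fun t => by simpa using congr($hf t)⟩

lemma const_of_exp_one {T : Type*} [TopologicalSpace T] [PreconnectedSpace T] {D : T → ℂ}
    (hD : Continuous D) (h1 : ∀ t, exp (D t) = 1) (s t : T) : D s = D t := by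
  choose k hk using fun t => exp_eq_one_iff.mp (h1 t)
  have h2 : (2 * Real.pi * I : ℂ) ≠ 0 := by simp [Real.pi_ne_zero]
  have hk' : ∀ t, ((k t : ℝ)) = (D t / (2 * Real.pi * I)).re := by
    intro t
    rw [hk t, mul_div_assoc, div_self h2]; simp
  have hc : Continuous fun t => ((k t : ℝ)) := by
    simp only [hk']; fun_prop
  have hc' : Continuous k := by
    rw [Int.isClosedEmbedding_coe_real.isEmbedding.continuous_iff]; exact hc
  have := PreconnectedSpace.constant (inferInstance : PreconnectedSpace T) hc' (x := s) (y := t)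
  rw [hk s, hk t, this]

lemma exists_int_of_exp_one {T : Type*} [TopologicalSpace T] [PreconnectedSpace T] [Nonempty T]
    {D : T → ℂ} (hD : Continuous D) (h1 : ∀ t, exp (D t) = 1) :
    ∃ n : ℤ, ∀ t, D t = n * (2 * Real.pi * I) := by
  obtain ⟨t₀⟩ : Nonempty T := inferInstance
  obtain ⟨n, hn⟩ := exp_eq_one_iff.mp (h1 t₀)
  exact ⟨n, fun t => by rw [const_of_exp_one hD h1 t t₀, hn]⟩

lemma IsWind.unique {γ : ℝ → ℂ} {n m : ℤ} (h1 : IsWind γ n) (h2 : IsWind γ m) : n = m := by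
  obtain ⟨L, hL, he, hp⟩ := h1
  obtain ⟨M, hM, he', hp'⟩ := h2
  have hc := const_of_exp_one (D := fun θ => L θ - M θ) (by fun_prop)
    (fun θ => by
      rw [exp_sub, he, he']
      exact div_self (by rw [← he]; exact exp_ne_zero _)) (0 + 2 * Real.pi) 0
  simp only [hp, hp'] at hc
  have h2 : (2 * Real.pi * I : ℂ) ≠ 0 := by simp [Real.pi_ne_zero]
  have : (n : ℂ) * (2 * Real.pi * I) = m * (2 * Real.pi * I) := by linear_combination hc
  exact_mod_cast mul_right_cancel₀ h2 this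

lemma exists_isWind {γ : ℝ → ℂ} (hγ : Continuous γ) (h0 : ∀ θ, γ θ ≠ 0)
    (hp : ∀ θ, γ (θ + 2 * Real.pi) = γ θ) : ∃ n, IsWind γ n := by
  obtain ⟨L, hL, he⟩ := exists_log hγ h0
  obtain ⟨n, hn⟩ := exists_int_of_exp_one (D := fun θ => L (θ + 2 * Real.pi) - L θ) (by fun_prop)
    (fun θ => by rw [exp_sub, he, he, hp]; exact div_self (h0 θ))
  exact ⟨n, L, hL, he, fun θ => by linear_combination hn θ⟩

lemma IsWind.homotopy {G : ℝ × ℝ → ℂ} (hG : Continuous G) (h0 : ∀ p, G p ≠ 0)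
    (hp : ∀ t θ, G (t, θ + 2 * Real.pi) = G (t, θ)) {s t : ℝ} {n : ℤ}
    (h : IsWind (fun θ => G (s, θ)) n) : IsWind (fun θ => G (t, θ)) n := by
  obtain ⟨L, hL, he⟩ := exists_log hG h0
  obtain ⟨m, hm⟩ := exists_int_of_exp_one
    (D := fun p : ℝ × ℝ => L (p.1, p.2 + 2 * Real.pi) - L p) (by fun_prop)
    (fun p => by rw [exp_sub, he, he, hp]; exact div_self (h0 _))
  have hw : ∀ u, IsWind (fun θ => G (u, θ)) m := fun u =>
    ⟨fun θ => L (u, θ), by fun_prop, fun θ => he _, fun θ => by linear_combination hm (u, θ)⟩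
  rw [h.unique (hw s)]; exact hw t

lemma IsWind.torus {G : ℝ × ℝ → ℂ} (hG : Continuous G) (h0 : ∀ p, G p ≠ 0)
    (hp1 : ∀ θ φ, G (θ + 2 * Real.pi, φ) = G (θ, φ))
    (hp2 : ∀ θ φ, G (θ, φ + 2 * Real.pi) = G (θ, φ)) {a b : ℤ}
    (ha : IsWind (fun θ => G (θ, 0)) a) (hb : IsWind (fun φ => G (0, φ)) b) :
    IsWind (fun θ => G (θ, θ + Real.pi)) (a + b) := by
  obtain ⟨L, hL, he⟩ := exists_log hG h0
  obtain ⟨m, hm⟩ := exists_int_of_exp_one
    (D := fun p : ℝ × ℝ => L (p.1 + 2 * Real.pi, p.2) - L p) (by fun_prop)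
    (fun p => by rw [exp_sub, he, he, hp1]; exact div_self (h0 _))
  obtain ⟨k, hk⟩ := exists_int_of_exp_one
    (D := fun p : ℝ × ℝ => L (p.1, p.2 + 2 * Real.pi) - L p) (by fun_prop)
    (fun p => by rw [exp_sub, he, he, hp2]; exact div_self (h0 _))
  have ha' : a = m := ha.unique
    ⟨fun θ => L (θ, 0), by fun_prop, fun θ => he _, fun θ => by linear_combination hm (θ, 0)⟩
  have hb' : b = k := hb.unique
    ⟨fun φ => L (0, φ), by fun_prop, fun θ => he _, fun θ => by linear_combination hk (0, θ)⟩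
  refine ⟨fun θ => L (θ, θ + Real.pi), by fun_prop, fun θ => he _, fun θ => ?_⟩
  have e1 := hm (θ, θ + Real.pi + 2 * Real.pi)
  have e2 := hk (θ, θ + Real.pi)
  simp only at e1 e2 ⊢
  rw [show θ + 2 * Real.pi + Real.pi = θ + Real.pi + 2 * Real.pi by ring, ha', hb']
  push_cast
  linear_combination e1 + e2

lemma IsWind.neg {γ : ℝ → ℂ} {n : ℤ} (h : IsWind γ n) : IsWind (fun θ => -γ θ) n := by
  obtain ⟨L, hL, he, hp⟩ := h
  refine ⟨fun θ => L θ + Real.pi * I, by fun_prop, fun θ => ?_, fun θ => ?_⟩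
  · rw [exp_add, he, exp_pi_mul_I]; ring
  · simp only [hp]; ring

lemma IsWind.odd {γ : ℝ → ℂ} {n : ℤ} (h : IsWind γ n) (ho : ∀ θ, γ (θ + Real.pi) = -γ θ) :
    Odd n := by
  obtain ⟨L, hL, he, hp⟩ := h
  obtain ⟨k, hk⟩ := exists_int_of_exp_one
    (D := fun θ : ℝ => L (θ + Real.pi) - L θ + Real.pi * I) (by fun_prop)
    (fun θ => by
      have : γ θ ≠ 0 := by rw [← he]; exact exp_ne_zero _
      rw [exp_add, exp_sub, he, he, ho, exp_pi_mul_I]; field_simp)
  have e1 := hk 0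
  have e2 := hk (0 + Real.pi)
  have e3 := hp 0
  rw [show (0 : ℝ) + Real.pi + Real.pi = 0 + 2 * Real.pi by ring] at e2
  have h2 : (2 * Real.pi * I : ℂ) ≠ 0 := by simp [Real.pi_ne_zero]
  have : (n : ℂ) * (2 * Real.pi * I) = (2 * (k - 1) + 1) * (2 * Real.pi * I) := by
    linear_combination e1 + e2 - e3
  have h3 : n = 2 * (k - 1) + 1 := by exact_mod_cast mul_right_cancel₀ h2 this
  exact ⟨k - 1, h3⟩

/-- Clamp to `[0,1]`. -/
def cl (t : ℝ) : ℝ := max 0 (min 1 t)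

lemma cl_cont : Continuous cl := by unfold cl; fun_prop
lemma cl_nonneg (t : ℝ) : 0 ≤ cl t := le_max_left _ _
lemma cl_le_one (t : ℝ) : cl t ≤ 1 := max_le zero_le_one (min_le_left _ _)
lemma cl_zero : cl 0 = 0 := by simp [cl]
lemma cl_one : cl 1 = 1 := by simp [cl]

/-- The winding number about `p` is locally constant off the curve. -/
lemma IsWind.local_const {γ : ℝ → ℂ} (hγ : Continuous γ)
    (hp : ∀ θ, γ (θ + 2 * Real.pi) = γ θ) {p : ℂ} {n : ℤ} (h : IsWind (fun θ => γ θ - p) n) :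
    ∃ ε > 0, ∀ q, dist q p < ε → IsWind (fun θ => γ θ - q) n := by
  have h0 : ∀ θ, γ θ ≠ p := by
    obtain ⟨L, -, he, -⟩ := h
    intro θ hθ
    have := he θ
    simp only [hθ, sub_self] at this
    exact exp_ne_zero _ this
  have hper : Function.Periodic γ (2 * Real.pi) := hp
  have hK : IsCompact (range γ) := hper.compact_of_continuous (by positivity) hγ
  have hpK : p ∈ (range γ)ᶜ := by rintro ⟨θ, hθ⟩; exact h0 θ hθ
  obtain ⟨ε, hε, hb⟩ := Metric.isOpen_iff.mp hK.isClosed.isOpen_compl p hpK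
  refine ⟨ε, hε, fun q hq => ?_⟩
  have hcl := cl_cont
  have := IsWind.homotopy (G := fun x : ℝ × ℝ => γ x.2 - (p + (cl x.1 : ℂ) * (q - p)))
    (by fun_prop) ?_ (fun t θ => by simp only [hp]) (s := 0) (t := 1) (n := n)
    (by simpa [cl_zero] using h)
  · simpa [cl_one] using this
  · rintro ⟨t, θ⟩ hh
    have hm : p + (cl t : ℂ) * (q - p) ∈ Metric.ball p ε := by
      rw [Metric.mem_ball, dist_eq_norm, add_sub_cancel_left, norm_mul, Complex.norm_real,
        Real.norm_eq_abs, abs_of_nonneg (cl_nonneg t)]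
      rw [dist_eq_norm] at hq
      nlinarith [cl_nonneg t, cl_le_one t, norm_nonneg (q - p)]
    exact hb hm ⟨θ, sub_eq_zero.mp hh⟩

/-- The winding number about `g u` is constant for `u` in a preconnected set. -/
lemma IsWind.const_on {γ : ℝ → ℂ} (hγ : Continuous γ)
    (hp : ∀ θ, γ (θ + 2 * Real.pi) = γ θ) {S : Set ℂ} (hS : IsPreconnected S) {g : ℂ → ℂ}
    (hg : ContinuousOn g S) (h0 : ∀ u ∈ S, ∀ θ, γ θ ≠ g u) {u v : ℂ} (hu : u ∈ S) (hv : v ∈ S)
    {n : ℤ} (h : IsWind (fun θ => γ θ - g u) n) : IsWind (fun θ => γ θ - g v) n := by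
  have key := hS.induction₂' (fun x y => ∀ n, IsWind (fun θ => γ θ - g x) n →
    IsWind (fun θ => γ θ - g y) n) ?_ ?_ hu hv
  · exact key n h
  · intro x hx
    obtain ⟨m, hm⟩ := exists_isWind (γ := fun θ => γ θ - g x) (by fun_prop)
      (fun θ => sub_ne_zero.mpr (h0 x hx θ)) (fun θ => by simp only [hp])
    obtain ⟨ε, hε, hb⟩ := IsWind.local_const hγ hp hm
    have := (hg x hx).tendsto.eventually (Metric.ball_mem_nhds (g x) hε)
    filter_upwards [this] with y hy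
    have hy' := hb (g y) hy
    exact ⟨fun k hk => by rw [hk.unique hm]; exact hy', fun k hk => by rw [hk.unique hy']; exact hm⟩
  · first
      | exact fun x y z _ _ _ h1 h2 k hk => h2 k (h1 k hk)
      | exact fun x y z h1 h2 k hk => h2 k (h1 k hk)
      | exact ⟨fun x y z h1 h2 k hk => h2 k (h1 k hk)⟩

end

end H60.RG
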