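import Pool.Agent.H60.RGa

open Set Complex Topology Filter

namespace H60.RG

noncomputable section

/-- Circle parametrisation. -/
def ci (r θ : ℝ) : ℂ := r * exp (θ * I)

lemma ci_cont : Continuous fun p : ℝ × ℝ => ci p.1 p.2 := by unfold ci; fun_prop

lemma norm_ci {r : ℝ} (hr : 0 ≤ r) (θ : ℝ) : ‖ci r θ‖ = r := by
  rw [ci, norm_mul, norm_exp_ofReal_mul_I, mul_one, Complex.norm_real, Real.norm_eq_abs,
    abs_of_nonneg hr]

lemma ci_pi (r θ : ℝ) : ci r (θ + Real.pi) = -ci r θ := by
  simp only [ci]; push_cast; rw [add_mul, exp_add, exp_pi_mul_I]; ring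

lemma ci_two_pi (r θ : ℝ) : ci r (θ + 2 * Real.pi) = ci r θ := by
  rw [show θ + 2 * Real.pi = θ + Real.pi + Real.pi by ring, ci_pi, ci_pi, neg_neg]

lemma ci_zero (r : ℝ) : ci r 0 = r := by simp [ci]

lemma ci_ne_neg {r s : ℝ} (hr : 0 < r) (hs : 0 < s) (θ : ℝ) : ci r θ ≠ -ci s θ := by
  intro h
  have h1 : ((r + s : ℝ) : ℂ) * exp (θ * I) = 0 := by
    simp only [ci] at h; push_cast; linear_combination h
  rcases mul_eq_zero.mp h1 with h2 | h2
  · have : r + s = 0 := by exact_mod_cast h2
    linarith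
  · exact exp_ne_zero _ h2

lemma isPreconnected_ext (r : ℝ) (hr : 0 ≤ r) : IsPreconnected {v : ℂ | r < ‖v‖} := by
  have h1 : IsPreconnected ((Ioi r) ×ˢ (univ : Set ℝ)) :=
    isPreconnected_Ioi.prod isPreconnected_univ
  have h2 := h1.image (fun p : ℝ × ℝ => ci p.1 p.2) ci_cont.continuousOn
  convert h2 using 1
  ext v
  constructor
  · intro hv
    refine ⟨(‖v‖, arg v), ⟨hv, trivial⟩, ?_⟩
    simp only [ci]; exact norm_mul_exp_arg_mul_I v
  · rintro ⟨⟨t, θ⟩, ⟨ht, -⟩, rfl⟩
    simp only [mem_Ioi] at ht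
    simp only [mem_setOf_eq]
    rw [norm_ci (by linarith)]; exact ht

lemma isPreconnected_inter {X : Set ℂ} (hX : IsPreconnected X) {s : ℝ} (hs : 0 < s)
    (hR : ∀ z : ℂ, s ≤ ‖z‖ → z ∈ X) : IsPreconnected (X ∩ Metric.closedBall 0 s) := by
  have hc : Continuous fun z : ℂ => ((s / max ‖z‖ s : ℝ) : ℂ) * z := by
    refine Continuous.mul (continuous_ofReal.comp ?_) continuous_id
    exact continuous_const.div (by fun_prop) (fun z => (lt_of_lt_of_le hs (le_max_right _ _)).ne')
  have h2 := hX.image _ hc.continuousOn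
  convert h2 using 1
  ext v
  constructor
  · rintro ⟨hv, hv'⟩
    rw [mem_closedBall_zero_iff] at hv'
    refine ⟨v, hv, ?_⟩
    simp only [max_eq_right hv', div_self hs.ne']; simp
  · rintro ⟨z, hz, rfl⟩
    rcases le_total ‖z‖ s with h | h
    · simp only [max_eq_right h, div_self hs.ne']
      exact ⟨by simpa using hz, by simpa using h⟩
    · have hz0 : 0 < ‖z‖ := lt_of_lt_of_le hs h
      have hn : ‖((s / max ‖z‖ s : ℝ) : ℂ) * z‖ = s := by
        rw [max_eq_left h, norm_mul, Complex.norm_real, Real.norm_eq_abs,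
          abs_of_pos (div_pos hs hz0)]
        field_simp
      exact ⟨hR _ hn.ge, by rw [mem_closedBall_zero_iff]; exact hn.le⟩

/-- Separation: far points are not mapped close to `g x`. -/
lemma far_sep {X : Set ℂ} (hX : IsPreconnected X) {R : ℝ} (hR0 : 0 < R)
    (hR : ∀ z : ℂ, R ≤ ‖z‖ → z ∈ X) {g : ℂ → ℂ} (hg : ContinuousOn g X) (hi : InjOn g X)
    {x : ℂ} (hx : x ∈ X) : ∃ r ε : ℝ, 0 < ε ∧ ∀ v : ℂ, r < ‖v‖ → ε ≤ dist (g v) (g x) := by
  set s := max R ‖x‖ with hs
  have hsR : R ≤ s := le_max_left _ _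
  have hsx : ‖x‖ ≤ s := le_max_right _ _
  have hs0 : 0 < s := by linarith
  set r := s + 1 with hr
  have hmem : ∀ t θ, R ≤ t → ci t θ ∈ X := fun t θ ht =>
    hR _ (by rw [norm_ci (by linarith)]; exact ht)
  have hcomp : ∀ {T : Type} [TopologicalSpace T] (a b : T → ℝ), Continuous a → Continuous b →
      (∀ t, R ≤ a t) → Continuous fun t => g (ci (a t) (b t)) := by
    intro T _ a b ha hb hab
    exact hg.comp_continuous (ci_cont.comp (ha.prodMk hb)) (fun t => hmem _ _ (hab t))
  have hne : ∀ t θ (u : ℂ), R ≤ t → u ∈ X → ‖u‖ ≠ t → g (ci t θ) ≠ g u := by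
    intro t θ u ht hu hut h
    have := hi (hmem t θ ht) hu h
    rw [← this, norm_ci (by linarith)] at hut
    exact hut rfl
  have hγ : Continuous fun θ => g (ci r θ) :=
    hcomp (fun _ => r) id continuous_const continuous_id (fun _ => by linarith)
  have hγp : ∀ θ, g (ci r (θ + 2 * Real.pi)) = g (ci r θ) := fun θ => by rw [ci_two_pi]
  have hcl := cl_cont
  -- winding numbers
  obtain ⟨a, ha⟩ := exists_isWind (γ := fun θ => g (ci r θ) - g x) (hγ.sub continuous_const)
    (fun θ => sub_ne_zero.mpr (hne r θ x (by linarith) hx (by linarith)))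
    (fun θ => by simp only [hγp])
  have hsX : ci s 0 ∈ X := hmem s 0 hsR
  have ha1 : IsWind (fun θ => g (ci r θ) - g (ci s 0)) a := by
    refine IsWind.const_on hγ hγp (isPreconnected_inter hX hs0 (fun z hz => hR z (by linarith)))
      (hg.mono inter_subset_left) ?_ ⟨hx, by simpa using hsx⟩
      ⟨hsX, by rw [mem_closedBall_zero_iff, norm_ci hs0.le]⟩ ha
    rintro u ⟨hu, hu'⟩ θ
    rw [mem_closedBall_zero_iff] at hu'
    exact hne r θ u (by linarith) hu (by linarith)
  have ha2 : IsWind (fun θ => g (ci (r + 1) θ) - g (ci r 0)) a := by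
    have := IsWind.homotopy
      (G := fun p : ℝ × ℝ => g (ci (r + cl p.1) p.2) - g (ci (s + cl p.1) 0))
      ((hcomp _ _ (by fun_prop) continuous_snd (fun p => by linarith [cl_nonneg p.1])).sub
        (hcomp _ (fun _ => 0) (by fun_prop) continuous_const
          (fun p => by linarith [cl_nonneg p.1])))
      (fun p => sub_ne_zero.mpr (hne _ _ _ (by linarith [cl_nonneg p.1])
        (hmem _ _ (by linarith [cl_nonneg p.1]))
        (by rw [norm_ci (by linarith [cl_nonneg p.1])]; linarith)))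
      (fun t θ => by simp only [ci_two_pi]) (s := 0) (t := 1) (n := a)
      (by simpa only [cl_zero, add_zero] using ha1)
    simpa only [cl_one] using this
  obtain ⟨b, hb⟩ := exists_isWind (γ := fun θ => g (ci r θ) - g (ci (r + 1) 0))
    (hγ.sub continuous_const)
    (fun θ => sub_ne_zero.mpr (hne r θ _ (by linarith) (hmem _ _ (by linarith))
      (by rw [norm_ci (by linarith)]; linarith)))
    (fun θ => by simp only [hγp])
  have hb1 : IsWind (fun φ => g (ci (r + 1) 0) - g (ci r φ)) b := by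
    simpa only [neg_sub] using hb.neg
  have hab : IsWind (fun θ => g (ci (r + 1) θ) - g (ci r (θ + Real.pi))) (a + b) :=
    IsWind.torus (G := fun p : ℝ × ℝ => g (ci (r + 1) p.1) - g (ci r p.2))
      ((hcomp (fun _ => r + 1) _ continuous_const continuous_fst (fun p => by linarith)).sub
        (hcomp (fun _ => r) _ continuous_const continuous_snd (fun p => by linarith)))
      (fun p => sub_ne_zero.mpr (hne _ _ _ (by linarith) (hmem _ _ (by linarith))
        (by rw [norm_ci (by linarith)]; linarith)))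
      (fun θ φ => by simp only [ci_two_pi]) (fun θ φ => by simp only [ci_two_pi]) ha2 hb1
  have hab0 : IsWind (fun θ => g (ci r θ) - g (ci r (θ + Real.pi))) (a + b) := by
    have := IsWind.homotopy
      (G := fun p : ℝ × ℝ => g (ci (r + cl p.1) p.2) - g (ci r (p.2 + Real.pi)))
      ((hcomp _ _ (by fun_prop) continuous_snd (fun p => by linarith [cl_nonneg p.1])).sub
        (hcomp (fun _ => r) _ continuous_const (by fun_prop) (fun p => by linarith)))
      (fun p => sub_ne_zero.mpr (fun h => by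
        have := hi (hmem _ _ (by linarith [cl_nonneg p.1])) (hmem _ _ (by linarith)) h
        rw [ci_pi] at this
        exact ci_ne_neg (by linarith [cl_nonneg p.1]) (by linarith) _ this))
      (fun t θ => by
        simp only [ci_two_pi]
        rw [show θ + 2 * Real.pi + Real.pi = θ + Real.pi + 2 * Real.pi by ring, ci_two_pi])
      (s := 1) (t := 0) (n := a + b)
      (by simpa only [cl_one] using hab)
    simpa only [cl_zero, add_zero] using this
  have hodd : Odd (a + b) := hab0.odd (fun θ => by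
    rw [show θ + Real.pi + Real.pi = θ + 2 * Real.pi by ring, ci_two_pi]; ring)
  obtain ⟨ε, hε, hball⟩ := IsWind.local_const hγ hγp ha
  refine ⟨r, ε, hε, fun v hv => ?_⟩
  by_contra hlt
  push Not at hlt
  have h1 := hball _ hlt
  have h2 : IsWind (fun θ => g (ci r θ) - g v) b := by
    refine IsWind.const_on hγ hγp (isPreconnected_ext r (by linarith))
      (hg.mono (fun z hz => hR z (by simp only [mem_setOf_eq] at hz; linarith))) ?_
      (u := ci (r + 1) 0) (by simp only [mem_setOf_eq]; rw [norm_ci (by linarith)]; linarith)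
      hv hb
    intro u hu θ
    simp only [mem_setOf_eq] at hu
    exact hne r θ u (by linarith) (hR u (by linarith)) (by linarith)
  have := h1.unique h2
  rw [this] at hodd
  exact (Int.not_odd_iff_even.mpr ⟨b, rfl⟩) hodd

theorem rigid_of {X : Set ℂ} (hc : IsClosed X) (hX : IsPreconnected X)
    (hb : Bornology.IsBounded Xᶜ) (f : X → ℂ) (hf : Continuous f) (hi : Function.Injective f) :
    IsEmbedding f := by
  classical
  obtain ⟨R, hR0, hR⟩ := hb.subset_ball_lt 0 0
  have hR' : ∀ z : ℂ, R ≤ ‖z‖ → z ∈ X := by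
    intro z hz
    by_contra h
    have := hR h
    rw [mem_ball_zero_iff] at this
    linarith
  set g : ℂ → ℂ := fun z => if h : z ∈ X then f ⟨z, h⟩ else 0 with hgdef
  have hgf : ∀ z : X, g z = f z := fun z => by simp [hgdef]
  have hg : ContinuousOn g X := by
    rw [continuousOn_iff_continuous_domRestrict]
    convert hf using 1
    ext z; exact hgf z
  have hgi : InjOn g X := by
    intro z hz w hw h
    have h1 := hgf ⟨z, hz⟩
    have h2 := hgf ⟨w, hw⟩
    simp only at h1 h2
    rw [h1, h2] at h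
    exact congrArg Subtype.val (hi h)
  refine ⟨isInducing_iff_nhds.mpr fun x => le_antisymm hf.continuousAt.tendsto.le_comap ?_, hi⟩
  obtain ⟨r, ε, hε, hfar⟩ := far_sep hX hR0 hR' hg hgi x.2
  intro N hN
  rw [nhds_subtype] at hN
  obtain ⟨O, hO, hON⟩ := hN
  obtain ⟨O', hO'O, hO'o, hxO'⟩ := mem_nhds_iff.mp hO
  have hK : IsCompact ((X ∩ Metric.closedBall 0 r) \ O') :=
    ((isCompact_closedBall 0 r).inter_left hc).diff hO'o
  have hK' : IsCompact (g '' ((X ∩ Metric.closedBall 0 r) \ O')) :=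
    hK.image_of_continuousOn (hg.mono (fun z hz => hz.1.1))
  have hxK : g x ∈ (g '' ((X ∩ Metric.closedBall 0 r) \ O'))ᶜ := by
    rintro ⟨z, hz, hzx⟩
    have := hgi hz.1.1 x.2 hzx
    exact hz.2 (this ▸ hxO')
  refine ⟨Metric.ball (g x) ε ∩ (g '' ((X ∩ Metric.closedBall 0 r) \ O'))ᶜ, ?_, ?_⟩
  · rw [← hgf]
    exact inter_mem (Metric.ball_mem_nhds _ hε) (hK'.isClosed.isOpen_compl.mem_nhds hxK)
  · rintro y ⟨hy1, hy2⟩
    rw [← hgf] at hy1 hy2
    apply hON
    apply hO'O
    by_contra hyO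
    have hyr : ‖(y : ℂ)‖ ≤ r := by
      by_contra h
      push Not at h
      have := hfar _ h
      rw [Metric.mem_ball] at hy1
      linarith
    exact hy2 ⟨y, ⟨⟨y.2, by rwa [mem_closedBall_zero_iff]⟩, hyO⟩, rfl⟩

end

end H60.RG
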