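import Pool.Agent.H60.RGb

open Set Complex Topology Filter
open scoped NNReal

namespace H60.RG

noncomputable section

/-- `a` can be moved to `b` by a homeomorphism of the plane supported in `O`. -/
def Mov (O : Set ℂ) (a b : ℂ) : Prop := ∃ h : ℂ ≃ₜ ℂ, h a = b ∧ ∀ z, z ∉ O → h z = z

lemma Mov.symm {O : Set ℂ} {a b : ℂ} (h : Mov O a b) : Mov O b a := by
  obtain ⟨h, h1, h2⟩ := h
  refine ⟨h.symm, by rw [← h1]; simp, fun z hz => ?_⟩
  rw [Homeomorph.symm_apply_eq]; exact (h2 z hz).symm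

lemma Mov.trans {O : Set ℂ} {a b c : ℂ} (h : Mov O a b) (h' : Mov O b c) : Mov O a c := by
  obtain ⟨h, h1, h2⟩ := h
  obtain ⟨k, k1, k2⟩ := h'
  exact ⟨h.trans k, by simp [h1, k1], fun z hz => by simp [h2 z hz, k2 z hz]⟩

lemma mov_local {O : Set ℂ} {a b : ℂ} {r : ℝ} (hr : 0 < r) (hO : Metric.ball a r ⊆ O)
    (hb : dist b a < r / 2) : Mov O a b := by
  set φ : ℂ → ℝ := fun z => max 0 (1 - ‖z - a‖ / r) with hφ
  set F : ℂ → ℂ := fun z => z + (φ z : ℂ) * (b - a) with hF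
  have hφl : ∀ x y, |φ x - φ y| ≤ ‖x - y‖ / r := by
    intro x y
    have h1 : |φ x - φ y| ≤ |(1 - ‖x - a‖ / r) - (1 - ‖y - a‖ / r)| := by
      simp only [hφ]
      rw [max_comm 0, max_comm 0]
      exact abs_max_sub_max_le_abs _ _ _
    have h2 : (1 - ‖x - a‖ / r) - (1 - ‖y - a‖ / r) = (‖y - a‖ - ‖x - a‖) / r := by ring
    rw [h2, abs_div, abs_of_pos hr] at h1
    refine h1.trans (div_le_div_of_nonneg_right ?_ hr.le)
    have := abs_norm_sub_norm_le (y - a) (x - a)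
    rwa [show y - a - (x - a) = -(x - y) by ring, norm_neg] at this
  have happ : ApproximatesLinearOn F
      ((ContinuousLinearEquiv.refl ℝ ℂ : ℂ ≃L[ℝ] ℂ) : ℂ →L[ℝ] ℂ) univ (1 / 2 : ℝ≥0) := by
    intro x _ y _
    have e : F x - F y - ((ContinuousLinearEquiv.refl ℝ ℂ : ℂ ≃L[ℝ] ℂ) : ℂ →L[ℝ] ℂ) (x - y)
        = ((φ x - φ y : ℝ) : ℂ) * (b - a) := by
      simp only [hF]; simp; ring
    rw [e, norm_mul, Complex.norm_real, Real.norm_eq_abs]
    rw [dist_eq_norm] at hb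
    have h3 := hφl x y
    have h4 : |φ x - φ y| * ‖b - a‖ ≤ ‖x - y‖ / r * (r / 2) :=
      mul_le_mul h3 hb.le (norm_nonneg _) (by positivity)
    have h5 : ‖x - y‖ / r * (r / 2) = 1 / 2 * ‖x - y‖ := by field_simp
    rw [h5] at h4
    simpa using h4
  have hc : Subsingleton ℂ ∨ (1 / 2 : ℝ≥0) <
      ‖(((ContinuousLinearEquiv.refl ℝ ℂ : ℂ ≃L[ℝ] ℂ).symm : ℂ ≃L[ℝ] ℂ) : ℂ →L[ℝ] ℂ)‖₊⁻¹ := by
    right
    simp only [ContinuousLinearEquiv.refl_symm, ContinuousLinearEquiv.coe_refl,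
      ContinuousLinearMap.nnnorm_id, inv_one]
    norm_num
  have hH : ∀ z, happ.toHomeomorph F hc z = F z := fun z => rfl
  refine ⟨happ.toHomeomorph F hc, ?_, fun z hz => ?_⟩
  · rw [hH]; simp [hF, hφ]
  · rw [hH]
    have hz' : r ≤ ‖z - a‖ := by
      by_contra h
      push Not at h
      exact hz (hO (by rwa [Metric.mem_ball, dist_eq_norm]))
    have : φ z = 0 := by
      simp only [hφ]
      apply max_eq_left
      rw [sub_nonpos, le_div_iff₀ hr]; linarith
    simp [hF, this]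

lemma mov_of_preconnected {O : Set ℂ} (ho : IsOpen O) (hc : IsPreconnected O) {a b : ℂ}
    (ha : a ∈ O) (hb : b ∈ O) : Mov O a b := by
  refine hc.induction₂ (Mov O) ?_ (fun x y z _ _ _ h1 h2 => h1.trans h2)
    (fun x y _ _ h => h.symm) ha hb
  intro x hx
  obtain ⟨r, hr, hO⟩ := Metric.isOpen_iff.mp ho x hx
  filter_upwards [nhdsWithin_le_nhds (Metric.ball_mem_nhds x (half_pos hr))] with y hy
  exact mov_local hr hO hy

/-- The tongue lemma. -/
theorem not_rigid_of {X W : Set ℂ} (hWo : IsOpen W) (hWc : IsPreconnected W)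
    (hWX : ∀ z ∈ W, z ∉ X) {x : ℂ} (hx : x ∈ X) (hxW : x ∈ closure W)
    (U : ℕ → Set ℂ) (hUo : ∀ k, IsOpen (U k)) (hUc : ∀ k, IsPreconnected (U k))
    (hUa : Antitone U) (hUW : ∀ k, (U k ∩ W).Nonempty) (hUX : ∀ k, (U k ∩ X).Nonempty)
    (hloc : ∀ y ∈ X, ∃ k, ∀ᶠ y' in 𝓝 y, y' ∉ U k) :
    ∃ f : X → ℂ, Continuous f ∧ Function.Injective f ∧ ¬ IsEmbedding f := by
  classical
  choose! κ hκ using hloc
  choose z hz using hUX
  -- indices
  let k : ℕ → ℕ := fun n => Nat.rec (κ x) (fun _ m => max (m + 1) (κ (z m))) n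
  have hk0 : k 0 = κ x := rfl
  have hks : ∀ n, k (n + 1) = max (k n + 1) (κ (z (k n))) := fun n => rfl
  have hkmono : StrictMono k := strictMono_nat_of_lt_succ fun n => by
    rw [hks]; exact lt_of_lt_of_le (Nat.lt_succ_self _) (le_max_left _ _)
  have hnot : ∀ y ∈ X, ∀ m, κ y ≤ m → y ∉ U m := fun y hy m hm h =>
    (hκ y hy).self_of_nhds (hUa hm h)
  -- one step
  have step : ∀ (n : ℕ) (H : ℂ ≃ₜ ℂ), ∃ G : ℂ ≃ₜ ℂ,
      (∀ y ∈ X, y ∉ U (k n) → G y = H y) ∧ dist (G (z (k n))) (H x) < 1 / ((n : ℝ) + 1) := by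
    intro n H
    have hN : H ⁻¹' Metric.ball (H x) (1 / ((n : ℝ) + 1)) ∈ 𝓝 x :=
      H.continuous.continuousAt.preimage_mem_nhds (Metric.ball_mem_nhds _ (by positivity))
    obtain ⟨w, hw1, hw2⟩ := mem_closure_iff_nhds.mp hxW _ hN
    obtain ⟨q, hq1, hq2⟩ := hUW (k n)
    obtain ⟨g, hg1, hg2⟩ := mov_of_preconnected ((hUo (k n)).union hWo)
      ((hUc (k n)).union q hq1 hq2 hWc) (Or.inl (hz (k n)).1) (Or.inr hw2)
    refine ⟨g.trans H, fun y hy hyU => ?_, ?_⟩
    · rw [Homeomorph.trans_apply, hg2 y]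
      rintro (h | h)
      · exact hyU h
      · exact hWX y h hy
    · rw [Homeomorph.trans_apply, hg1]; exact hw1
  choose S hS1 hS2 using step
  let H : ℕ → (ℂ ≃ₜ ℂ) := fun n => Nat.rec (Homeomorph.refl ℂ) (fun m G => S m G) n
  have hHs : ∀ n, H (n + 1) = S n (H n) := fun n => rfl
  have hstab : ∀ y ∈ X, ∀ n m, n ≤ m → (∀ j, n ≤ j → y ∉ U (k j)) → H m y = H n y := by
    intro y hy n m hnm hj
    induction m, hnm using Nat.le_induction with
    | base => rfl
    | succ m hm ih => rw [hHs, hS1 m (H m) y hy (hj m hm), ih]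
  have hkge : ∀ n, n ≤ k n := fun n => hkmono.le_apply
  let f : X → ℂ := fun y => H (κ y) y
  have hf : ∀ (y : X) (n : ℕ), (∀ j, n ≤ j → (y : ℂ) ∉ U (k j)) → f y = H n y := by
    intro y n hn
    have h1 := hstab y y.2 n (max n (κ y)) (le_max_left _ _) hn
    have h2 := hstab y y.2 (κ y) (max n (κ y)) (le_max_right _ _)
      (fun j hj => hnot y y.2 _ (hj.trans (hkge j)))
    simp only [f]; rw [← h1, ← h2]
  have hf' : ∀ (y : X) (n : ℕ), κ y ≤ n → f y = H n y := fun y n hn =>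
    hf y n (fun j hj => hnot y y.2 _ (hn.trans (hj.trans (hkge j))))
  have hx0 : ∀ n, H n x = x := fun n =>
    hstab x hx 0 n (Nat.zero_le _) (fun j hj => hnot x hx _ (hk0 ▸ hkmono.monotone hj))
  refine ⟨f, ?_, ?_, ?_⟩
  · rw [continuous_iff_continuousAt]
    intro y
    have h1 : ∀ᶠ y' : X in 𝓝 y, (y' : ℂ) ∉ U (κ y) :=
      continuous_subtype_val.continuousAt.tendsto.eventually (hκ y y.2)
    have h2 : (fun y' : X => H (κ y) y') =ᶠ[𝓝 y] f := by
      filter_upwards [h1] with y' hy'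
      exact (hf y' (κ y) (fun j hj h => hy' (hUa (hj.trans (hkge j)) h))).symm
    exact ((H (κ y)).continuous.comp continuous_subtype_val).continuousAt.congr h2
  · intro y y' h
    rw [hf' y (max (κ y) (κ y')) (le_max_left _ _), hf' y' (max (κ y) (κ y')) (le_max_right _ _)]
      at h
    exact Subtype.ext ((H _).injective h)
  · intro he
    let zz : ℕ → X := fun n => ⟨z (k n), (hz (k n)).2⟩
    have h1 : ∀ n, dist (f (zz n)) (f ⟨x, hx⟩) < 1 / ((n : ℝ) + 1) := by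
      intro n
      have e1 : f (zz n) = H (n + 1) (z (k n)) := by
        refine hf (zz n) (n + 1) (fun j hj => hnot _ (hz (k n)).2 _ ?_)
        exact (le_max_right _ _).trans ((hks n).ge.trans (hkmono.monotone hj))
      have e2 : f ⟨x, hx⟩ = H n x := by
        rw [hx0 n]; exact hx0 _
      rw [e1, e2, hHs]; exact hS2 n (H n)
    have h2 : Tendsto (fun n => f (zz n)) atTop (𝓝 (f ⟨x, hx⟩)) := by
      rw [tendsto_iff_dist_tendsto_zero]
      exact squeeze_zero (fun n => dist_nonneg) (fun n => (h1 n).le)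
        tendsto_one_div_add_atTop_nhds_zero_nat
    have h3 : Tendsto zz atTop (𝓝 ⟨x, hx⟩) := he.tendsto_nhds_iff.mpr h2
    have h4 : Tendsto (fun n => z (k n)) atTop (𝓝 x) :=
      (continuous_subtype_val.tendsto _).comp h3
    obtain ⟨n, hn⟩ := (h4.eventually (hκ x hx)).exists
    exact hn (hUa (hk0 ▸ hkmono.monotone (Nat.zero_le n)) (hz (k n)).1)

theorem not_rigid_finite {X W : Set ℂ} (hWo : IsOpen W) (hWc : IsPreconnected W)
    (hWX : ∀ z ∈ W, z ∉ X) {x : ℂ} (hx : x ∈ X) (hxW : x ∈ closure W)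
    {p : ℂ} (hp : p ∉ X) (hpX : p ∈ closure X) (hpW : p ∈ closure W) :
    ∃ f : X → ℂ, Continuous f ∧ Function.Injective f ∧ ¬ IsEmbedding f := by
  refine not_rigid_of hWo hWc hWX hx hxW (fun k => Metric.ball p (1 / ((k : ℝ) + 1)))
    (fun k => Metric.isOpen_ball) (fun k => (convex_ball _ _).isPreconnected) ?_
    (fun k => mem_closure_iff_nhds.mp hpW _ (Metric.ball_mem_nhds _ (by positivity)))
    (fun k => mem_closure_iff_nhds.mp hpX _ (Metric.ball_mem_nhds _ (by positivity))) ?_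
  · intro a b hab
    exact Metric.ball_subset_ball (Nat.one_div_le_one_div hab)
  · intro y hy
    have hd : 0 < dist y p := dist_pos.mpr (fun h => hp (h ▸ hy))
    obtain ⟨k, hk⟩ := exists_nat_one_div_lt hd
    refine ⟨k, ?_⟩
    have : ∀ᶠ y' in 𝓝 y, 1 / ((k : ℝ) + 1) < dist y' p :=
      (continuous_id.dist continuous_const).continuousAt.eventually (lt_mem_nhds hk)
    filter_upwards [this] with y' hy' h
    rw [Metric.mem_ball] at h
    linarith

lemma unbounded_ext {A : Set ℂ} (hA : ¬ Bornology.IsBounded A) (r : ℝ) :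
    ({v : ℂ | r < ‖v‖} ∩ A).Nonempty := by
  by_contra h
  apply hA
  refine (Metric.isBounded_closedBall (x := (0 : ℂ)) (r := r)).subset (fun z hz => ?_)
  rw [mem_closedBall_zero_iff]
  by_contra h'
  push Not at h'
  exact h ⟨z, h', hz⟩

theorem not_rigid_infty {X W : Set ℂ} (hWo : IsOpen W) (hWc : IsPreconnected W)
    (hWX : ∀ z ∈ W, z ∉ X) {x : ℂ} (hx : x ∈ X) (hxW : x ∈ closure W)
    (hXb : ¬ Bornology.IsBounded X) (hWb : ¬ Bornology.IsBounded W) :
    ∃ f : X → ℂ, Continuous f ∧ Function.Injective f ∧ ¬ IsEmbedding f := by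
  refine not_rigid_of hWo hWc hWX hx hxW (fun k => {v : ℂ | (k : ℝ) < ‖v‖})
    (fun k => isOpen_lt continuous_const continuous_norm)
    (fun k => isPreconnected_ext k (Nat.cast_nonneg k)) ?_
    (fun k => unbounded_ext hWb k) (fun k => unbounded_ext hXb k) ?_
  · intro a b hab v hv
    simp only [mem_setOf_eq] at hv ⊢
    have : (a : ℝ) ≤ b := by exact_mod_cast hab
    linarith
  · intro y _
    obtain ⟨k, hk⟩ := exists_nat_gt ‖y‖
    refine ⟨k, ?_⟩
    have : ∀ᶠ y' in 𝓝 y, ‖y'‖ < (k : ℝ) :=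
      continuous_norm.continuousAt.eventually (gt_mem_nhds hk)
    filter_upwards [this] with y' hy' h
    have h' : (k : ℝ) < ‖y'‖ := h
    linarith

end

end H60.RG
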