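import Pool.Agent.H60.RGc

open Set Complex Topology Filter

namespace H60.RG

noncomputable section

lemma loc_closed {X : Set ℂ} (h : LocallyCompactSpace X) {y : ℂ} (hy : y ∈ X) :
    ∃ r > 0, Metric.ball y r ∩ closure X ⊆ X := by
  obtain ⟨K, hK, hKy⟩ := exists_compact_mem_nhds (⟨y, hy⟩ : X)
  rw [nhds_subtype] at hKy
  obtain ⟨O, hO, hOK⟩ := hKy
  obtain ⟨r, hr, hb⟩ := Metric.mem_nhds_iff.mp hO
  have hK' : IsCompact ((↑) '' K : Set ℂ) := hK.image continuous_subtype_val
  refine ⟨r, hr, ?_⟩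
  have h1 : Metric.ball y r ∩ X ⊆ (↑) '' K := by
    rintro z ⟨hz1, hz2⟩
    exact ⟨⟨z, hz2⟩, hOK (hb hz1), rfl⟩
  intro z hz
  have h2 : z ∈ closure (Metric.ball y r ∩ X) := Metric.isOpen_ball.inter_closure hz
  obtain ⟨w, -, rfl⟩ := hK'.isClosed.closure_subset_iff.mpr h1 h2
  exact w.2

lemma exists_comp {X : Set ℂ} (h : LocallyCompactSpace X) (ho : ¬ IsOpen X) :
    ∃ W : Set ℂ, IsOpen W ∧ IsPreconnected W ∧ W.Nonempty ∧ W ⊆ (closure X)ᶜ ∧
      (∀ q ∈ closure W, q ∉ closure X → q ∈ W) ∧ ∃ x ∈ X, x ∈ closure W := by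
  rw [isOpen_iff_mem_nhds] at ho
  push Not at ho
  obtain ⟨x0, hx0, hn⟩ := ho
  obtain ⟨r, hr, hb⟩ := loc_closed h hx0
  obtain ⟨w, hw1, hw2⟩ : ∃ w ∈ Metric.ball x0 r, w ∉ X := by
    by_contra hh
    push Not at hh
    exact hn (mem_of_superset (Metric.ball_mem_nhds x0 hr) hh)
  have hw3 : w ∈ (closure X)ᶜ := fun hh => hw2 (hb ⟨hw1, hh⟩)
  have hVo : IsOpen (closure X)ᶜ := isClosed_closure.isOpen_compl
  set W := connectedComponentIn (closure X)ᶜ w with hW
  have hWo : IsOpen W := hVo.connectedComponentIn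
  have hWs : W ⊆ (closure X)ᶜ := connectedComponentIn_subset _ _
  have hcl : ∀ q ∈ closure W, q ∉ closure X → q ∈ W := by
    intro q hq hqX
    have hq' : q ∈ connectedComponentIn (closure X)ᶜ q := mem_connectedComponentIn hqX
    obtain ⟨t, ht1, ht2⟩ := mem_closure_iff_nhds.mp hq _
      (hVo.connectedComponentIn.mem_nhds hq')
    rw [hW, connectedComponentIn_eq ht2, ← connectedComponentIn_eq ht1]
    exact hq'
  refine ⟨W, hWo, isPreconnected_connectedComponentIn, ⟨w, mem_connectedComponentIn hw3⟩, hWs,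
    hcl, ?_⟩
  by_contra hh
  push Not at hh
  have := (convex_ball x0 r).isPreconnected.subset_of_closure_inter_subset hWo
    ⟨w, hw1, mem_connectedComponentIn hw3⟩ (by
      rintro q ⟨hq1, hq2⟩
      exact hcl q hq1 (fun hq3 => hh q (hb ⟨hq2, hq3⟩) hq1))
  exact hWs (this (Metric.mem_ball_self hr)) (subset_closure hx0)

/-- The sphere reading: never rigid. -/
theorem sphere_not_rigid {X : Set ℂ} (h : LocallyCompactSpace X)
    (hS : IsPreconnected (((↑) '' X : Set (OnePoint ℂ))ᶜ)) (hc : ¬ IsCompact X)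
    (ho : ¬ IsOpen X) :
    ∃ f : X → ℂ, Continuous f ∧ Function.Injective f ∧ ¬ IsEmbedding f := by
  obtain ⟨W, hWo, hWc, ⟨w, hw⟩, hWs, hcl, x, hx, hxW⟩ := exists_comp h ho
  have hWX : ∀ z ∈ W, z ∉ X := fun z hz hz' => hWs hz (subset_closure hz')
  by_cases h1 : ∃ p, p ∉ X ∧ p ∈ closure X ∧ p ∈ closure W
  · obtain ⟨p, hp1, hp2, hp3⟩ := h1
    exact not_rigid_finite hWo hWc hWX hx hxW hp1 hp2 hp3
  push Not at h1
  have hcl' : ∀ q ∈ closure W, q ∉ X → q ∈ W := fun q hq hqX =>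
    hcl q hq (fun hh => h1 q hqX hh hq)
  have hmem : ∀ (A : Set ℂ) (q : ℂ), (q : OnePoint ℂ) ∈ ((↑) '' A : Set (OnePoint ℂ)) ↔ q ∈ A :=
    fun A q => OnePoint.coe_injective.mem_set_image
  by_cases hWb : Bornology.IsBounded W
  · exfalso
    have hu : IsOpen ((↑) '' W : Set (OnePoint ℂ)) := OnePoint.isOpen_image_coe.mpr hWo
    have hv : IsOpen (((↑) '' closure W : Set (OnePoint ℂ))ᶜ) :=
      OnePoint.isOpen_compl_image_coe.mpr ⟨isClosed_closure, hWb.isCompact_closure⟩
    have := hS.subset_left_of_subset_union hu hv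
      (disjoint_left.mpr fun q hq hq' => hq' (image_mono subset_closure hq))
      (by
        intro q hq
        induction q using OnePoint.rec with
        | infty => exact Or.inr OnePoint.infty_notMem_image_coe
        | coe q =>
          rw [mem_compl_iff, hmem] at hq
          by_cases hqW : q ∈ closure W
          · exact Or.inl ((hmem _ _).mpr (hcl' q hqW hq))
          · exact Or.inr (by rw [mem_compl_iff, hmem]; exact hqW))
      ⟨w, by rw [mem_compl_iff, hmem]; exact hWX w hw, (hmem _ _).mpr hw⟩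
    exact OnePoint.infty_notMem_image_coe (this OnePoint.infty_notMem_image_coe)
  by_cases hXb : Bornology.IsBounded X
  swap
  · exact not_rigid_infty hWo hWc hWX hx hxW hXb hWb
  exfalso
  obtain ⟨p, hp1, hp2⟩ : ∃ p ∈ closure X, p ∉ X := by
    by_contra hh
    push Not at hh
    exact hc (Metric.isCompact_of_isClosed_isBounded (closure_subset_iff_isClosed.mp hh) hXb)
  obtain ⟨R, hR0, hR⟩ := hXb.closure.subset_ball_lt 0 0
  have hext : {v : ℂ | R < ‖v‖} ⊆ W :=
    (isPreconnected_ext R hR0.le).subset_of_closure_inter_subset hWo (unbounded_ext hWb R) (by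
      rintro q ⟨hq1, hq2⟩
      refine hcl q hq1 (fun hq3 => ?_)
      have h3 := hR hq3
      rw [mem_ball_zero_iff] at h3
      have h4 : R < ‖q‖ := hq2
      linarith)
  have hWcb : Bornology.IsBounded Wᶜ := by
    refine (Metric.isBounded_closedBall (x := (0 : ℂ)) (r := R)).subset (fun z hz => ?_)
    rw [mem_closedBall_zero_iff]
    by_contra h'
    push Not at h'
    exact hz (hext h')
  have hu : IsOpen (((↑) '' Wᶜ : Set (OnePoint ℂ))ᶜ) :=
    OnePoint.isOpen_compl_image_coe.mpr ⟨hWo.isClosed_compl,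
      Metric.isCompact_of_isClosed_isBounded hWo.isClosed_compl hWcb⟩
  have hv : IsOpen ((↑) '' (closure W)ᶜ : Set (OnePoint ℂ)) :=
    OnePoint.isOpen_image_coe.mpr isClosed_closure.isOpen_compl
  have := hS.subset_left_of_subset_union hu hv
    (disjoint_left.mpr fun q hq hq' =>
      hq (image_mono (compl_subset_compl.mpr subset_closure) hq'))
    (by
      intro q hq
      induction q using OnePoint.rec with
      | infty => exact Or.inl OnePoint.infty_notMem_image_coe
      | coe q =>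
        rw [mem_compl_iff, hmem] at hq
        by_cases hqW : q ∈ closure W
        · exact Or.inl (by rw [mem_compl_iff, hmem]; exact fun hh => hh (hcl' q hqW hq))
        · exact Or.inr ((hmem _ _).mpr hqW))
    ⟨OnePoint.infty, OnePoint.infty_notMem_image_coe, OnePoint.infty_notMem_image_coe⟩
  have h5 := this (a := (p : OnePoint ℂ)) (by rw [mem_compl_iff, hmem]; exact hp2)
  rw [mem_compl_iff, hmem] at h5
  exact h5 (fun hpW => hWs hpW hp1)

lemma not_rigid_split {X u v : Set ℂ} (hX : IsClosed X) (hu : IsClosed u) (hv : IsClosed v)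
    (huv : X ⊆ u ∪ v) (hd : X ∩ (u ∩ v) = ∅) (hne : ¬ X ⊆ v) {R : ℝ} (hR0 : 0 ≤ R)
    (hRX : {z : ℂ | R < ‖z‖} ⊆ X) (hRv : {z : ℂ | R < ‖z‖} ⊆ v) :
    ∃ f : X → ℂ, Continuous f ∧ Function.Injective f ∧ ¬ IsEmbedding f := by
  classical
  have hdis : ∀ z ∈ X, z ∈ u → z ∈ v → False := fun z h1 h2 h3 => by
    have : z ∈ X ∩ (u ∩ v) := ⟨h1, h2, h3⟩
    rw [hd] at this; exact this
  have hA : IsCompact (X ∩ u) := by
    refine Metric.isCompact_of_isClosed_isBounded (hX.inter hu) ?_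
    refine (Metric.isBounded_closedBall (x := (0 : ℂ)) (r := R)).subset (fun z hz => ?_)
    rw [mem_closedBall_zero_iff]
    by_contra h'
    push Not at h'
    exact hdis z hz.1 hz.2 (hRv h')
  have hAne : (X ∩ u).Nonempty := by
    obtain ⟨z, hz1, hz2⟩ := not_subset.mp hne
    exact ⟨z, hz1, (huv hz1).resolve_right hz2⟩
  obtain ⟨a, ha, hmin⟩ := hA.exists_isMinOn hAne continuous_re.continuousOn
  set c : ℂ → ℂ := fun z => z / ((1 + ‖z‖ : ℝ) : ℂ) with hcdef
  have hpos : ∀ z : ℂ, 0 < 1 + ‖z‖ := fun z => by positivity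
  have hcn : ∀ z, ‖c z‖ = ‖z‖ / (1 + ‖z‖) := fun z => by
    simp only [hcdef]
    rw [norm_div, Complex.norm_real, Real.norm_eq_abs, abs_of_pos (hpos z)]
  have hc1 : ∀ z, ‖c z‖ < 1 := fun z => by
    rw [hcn, div_lt_one (hpos z)]; linarith
  have hcc : Continuous c := by
    refine continuous_id.div (by fun_prop) (fun z => ?_)
    exact_mod_cast (hpos z).ne'
  have hci : Function.Injective c := by
    intro z w h
    have h1 : ‖z‖ = ‖w‖ := by
      have := congrArg norm h
      rw [hcn, hcn, div_eq_div_iff (hpos z).ne' (hpos w).ne'] at this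
      linarith
    simp only [hcdef, h1] at h
    have h2 : (((1 + ‖w‖ : ℝ)) : ℂ) ≠ 0 := by exact_mod_cast (hpos w).ne'
    exact (div_left_inj' h2).mp h
  set g : ℂ → ℂ := fun z => if z ∈ u then z - a + 1 else c z with hg
  have hg1 : ∀ z ∈ X ∩ u, g z = z - a + 1 := fun z hz => by simp [hg, hz.2]
  have hg2 : ∀ z ∈ X ∩ v, g z = c z := fun z hz => by
    have : z ∉ u := fun hh => hdis z hz.1 hh hz.2
    simp [hg, this]
  have hgc : ContinuousOn g X := by
    have e : X = (X ∩ u) ∪ (X ∩ v) := by rw [← inter_union_distrib_left, inter_eq_left.mpr huv]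
    rw [e]
    refine ContinuousOn.union_of_isClosed ?_ ?_ (hX.inter hu) (hX.inter hv)
    · exact ContinuousOn.congr (f := fun z => z - a + 1) (by fun_prop) hg1
    · exact ContinuousOn.congr hcc.continuousOn hg2
  have hcross : ∀ z ∈ X ∩ u, ∀ w ∈ X ∩ v, g z ≠ g w := by
    intro z hz w hw h
    rw [hg1 z hz, hg2 w hw] at h
    have h1 : a.re ≤ z.re := hmin hz
    have h2 := congrArg re h
    have h3 := (re_le_norm (c w)).trans_lt (hc1 w)
    simp at h2
    linarith
  refine ⟨fun z => g z, hgc.restrict, ?_, fun he => ?_⟩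
  · intro z w h
    apply Subtype.ext
    simp only at h
    rcases huv z.2 with hz | hz <;> rcases huv w.2 with hw | hw
    · rw [hg1 z ⟨z.2, hz⟩, hg1 w ⟨w.2, hw⟩] at h
      linear_combination h
    · exact absurd h (hcross z ⟨z.2, hz⟩ w ⟨w.2, hw⟩)
    · exact absurd h.symm (hcross w ⟨w.2, hw⟩ z ⟨z.2, hz⟩)
    · rw [hg2 z ⟨z.2, hz⟩, hg2 w ⟨w.2, hw⟩] at h
      exact hci h
  · have hn : ∀ n : ℕ, ‖((R + 1 + n : ℝ) : ℂ)‖ = R + 1 + n := fun n => by
      rw [Complex.norm_real, Real.norm_eq_abs, abs_of_nonneg (by positivity)]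
    have hm : ∀ n : ℕ, ((R + 1 + n : ℝ) : ℂ) ∈ {z : ℂ | R < ‖z‖} := fun n => by
      have : (0 : ℝ) ≤ n := Nat.cast_nonneg n
      simp only [mem_setOf_eq, hn]; linarith
    let zz : ℕ → X := fun n => ⟨((R + 1 + n : ℝ) : ℂ), hRX (hm n)⟩
    have h2 : Tendsto (fun n => g (zz n)) atTop (𝓝 (g a)) := by
      rw [hg1 a ha, sub_self, zero_add, tendsto_iff_dist_tendsto_zero]
      refine squeeze_zero (fun n => dist_nonneg) (fun n => ?_)
        tendsto_one_div_add_atTop_nhds_zero_nat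
      have hn0 : (0 : ℝ) ≤ n := Nat.cast_nonneg n
      rw [hg2 _ ⟨hRX (hm n), hRv (hm n)⟩]
      simp only [hcdef, hn]
      rw [← ofReal_div, ← ofReal_one, dist_eq_norm, ← ofReal_sub, Complex.norm_real,
        Real.norm_eq_abs]
      have e : (R + 1 + n) / (1 + (R + 1 + n)) - 1 = -(1 / (1 + (R + 1 + n))) := by
        field_simp; ring
      rw [e, abs_neg, abs_of_nonneg (by positivity)]
      exact one_div_le_one_div_of_le (by positivity) (by linarith)
    have h3 : Tendsto zz atTop (𝓝 ⟨a, ha.1⟩) := he.tendsto_nhds_iff.mpr h2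
    have h4 : Tendsto (fun n => (zz n : ℂ)) atTop (𝓝 a) :=
      (continuous_subtype_val.tendsto _).comp h3
    have h5 : a ∈ v := hv.mem_of_tendsto h4 (Eventually.of_forall fun n => hRv (hm n))
    exact hdis a ha.1 ha.2 h5

/-- The plane reading: necessary conditions for rigidity. -/
theorem of_rigid {X : Set ℂ} (h : LocallyCompactSpace X) (hS : IsPreconnected Xᶜ)
    (hc : ¬ IsCompact X) (ho : ¬ IsOpen X)
    (hr : ∀ f : X → ℂ, Continuous f → Function.Injective f → IsEmbedding f) :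
    IsClosed X ∧ IsConnected X ∧ Bornology.IsBounded Xᶜ := by
  have hno : ¬ ∃ f : X → ℂ, Continuous f ∧ Function.Injective f ∧ ¬ IsEmbedding f :=
    fun ⟨f, h1, h2, h3⟩ => h3 (hr f h1 h2)
  obtain ⟨W, hWo, hWc, ⟨w, hw⟩, hWs, hcl, x, hx, hxW⟩ := exists_comp h ho
  have hWX : ∀ z ∈ W, z ∉ X := fun z hz hz' => hWs hz (subset_closure hz')
  have h1 : ∀ p, p ∉ X → p ∈ closure X → p ∉ closure W := fun p hp1 hp2 hp3 =>
    hno (not_rigid_finite hWo hWc hWX hx hxW hp1 hp2 hp3)
  have hsub : Xᶜ ⊆ W := hS.subset_of_closure_inter_subset hWo ⟨w, hWX w hw, hw⟩ (by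
    rintro q ⟨hq1, hq2⟩
    exact hcl q hq1 (fun hh => h1 q hq2 hh hq1))
  have hcX : IsClosed X := by
    rw [← closure_subset_iff_isClosed]
    intro q hq
    by_contra hqX
    exact hWs (hsub hqX) hq
  have hXb : ¬ Bornology.IsBounded X := fun hb =>
    hc (Metric.isCompact_of_isClosed_isBounded hcX hb)
  have hWb : Bornology.IsBounded W := by
    by_contra hWb
    exact hno (not_rigid_infty hWo hWc hWX hx hxW hXb hWb)
  have hb : Bornology.IsBounded Xᶜ := hWb.subset hsub
  refine ⟨hcX, ⟨⟨x, hx⟩, ?_⟩, hb⟩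
  obtain ⟨R, hR0, hR⟩ := hb.subset_ball_lt 0 0
  have hRX : {z : ℂ | R < ‖z‖} ⊆ X := by
    intro z hz
    by_contra hh
    have h3 := hR hh
    rw [mem_ball_zero_iff] at h3
    have h4 : R < ‖z‖ := hz
    linarith
  rw [isPreconnected_iff_subset_of_disjoint_closed]
  intro u v hu hv huv hd
  by_contra hh
  push Not at hh
  have := isPreconnected_iff_subset_of_disjoint_closed.mp (isPreconnected_ext R hR0.le) u v hu hv
    (hRX.trans huv) (by
      rw [eq_empty_iff_forall_notMem] at hd ⊢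
      exact fun z hz => hd z ⟨hRX hz.1, hz.2⟩)
  rcases this with h2 | h2
  · exact hno (not_rigid_split hcX hv hu (by rwa [union_comm]) (by rwa [inter_comm v u]) hh.1
      hR0.le hRX h2)
  · exact hno (not_rigid_split hcX hu hv huv hd hh.2 hR0.le hRX h2)

theorem example_props :
    let X : Set ℂ := {z | 1 ≤ ‖z‖}
    LocallyCompactSpace X ∧ IsConnected Xᶜ ∧ ¬ IsCompact X ∧ ¬ IsOpen X ∧
      IsClosed X ∧ IsPreconnected X ∧ Bornology.IsBounded Xᶜ := by
  intro X
  have hcl : IsClosed X := isClosed_le continuous_const continuous_norm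
  have hco : Xᶜ = Metric.ball 0 1 := by
    ext z; simp [X]
  have hpre : IsPreconnected X := by
    refine (isPreconnected_ext 1 zero_le_one).subset_closure (fun z hz => (le_of_lt hz : 1 ≤ ‖z‖)) ?_
    intro z hz
    have hz' : 1 ≤ ‖z‖ := hz
    have ht : Tendsto (fun t : ℝ => (t : ℂ) * z) (𝓝[>] 1) (𝓝 z) := by
      have : Continuous fun t : ℝ => (t : ℂ) * z := by fun_prop
      have h2 := (this.tendsto 1).mono_left (nhdsWithin_le_nhds (s := Ioi 1))
      simpa using h2
    refine mem_closure_of_tendsto ht ?_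
    filter_upwards [self_mem_nhdsWithin] with t ht
    have ht' : 1 < t := ht
    change 1 < ‖(t : ℂ) * z‖
    rw [norm_mul, Complex.norm_real, Real.norm_eq_abs, abs_of_pos (by linarith)]
    nlinarith
  refine ⟨hcl.locallyCompactSpace, ?_, ?_, ?_, hcl, hpre, ?_⟩
  · rw [hco]; exact (convex_ball _ _).isConnected ⟨0, by simp⟩
  · intro hK
    obtain ⟨R, hR0, hR⟩ := hK.isBounded.subset_ball_lt 1 0
    have h1 : ((R : ℝ) : ℂ) ∈ X := by
      change 1 ≤ ‖((R : ℝ) : ℂ)‖
      rw [Complex.norm_real, Real.norm_eq_abs, abs_of_pos (by linarith)]; exact hR0.le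
    have h2 := hR h1
    rw [mem_ball_zero_iff, Complex.norm_real, Real.norm_eq_abs, abs_of_pos (by linarith)] at h2
    exact lt_irrefl _ h2
  · intro hop
    rcases isClopen_iff.mp ⟨hcl, hop⟩ with h | h
    · have : (1 : ℂ) ∈ X := by simp [X]
      rw [h] at this; exact this
    · have : (0 : ℂ) ∈ X := by rw [h]; trivial
      simp only [X, mem_setOf_eq, norm_zero] at this
      linarith
  · rw [hco]; exact Metric.isBounded_ball

end

end H60.RG
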