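import Mathlib
import Pool.Agent.H60.NDens

set_option autoImplicit false

namespace Pool.Agent.H60.Rankin

open Pool.Agent.H60.NDens Filter Topology

/-- All base-3 digits are at most `1`. -/
def inA (e : ℕ) : Prop := ∀ d ∈ Nat.digits 3 e, d ≤ 1

lemma inA_zero : inA 0 := by simp [inA]

lemma inA_iff (e : ℕ) : inA e ↔ e % 3 ≤ 1 ∧ inA (e / 3) := by
  rcases Nat.eq_zero_or_pos e with h | h
  · subst h; simp [inA]
  · unfold inA
    rw [Nat.digits_def' (by norm_num) h]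
    simp

lemma inA_one : inA 1 := by rw [inA_iff]; exact ⟨by norm_num, inA_zero⟩
lemma inA_three : inA 3 := by rw [inA_iff]; exact ⟨by norm_num, inA_one⟩
lemma inA_four : inA 4 := by rw [inA_iff]; exact ⟨by norm_num, inA_one⟩
lemma inA_ne_two {e : ℕ} (h : inA e) : e ≠ 2 := by
  rintro rfl
  rw [inA_iff] at h
  omega

lemma inA_of_le {e : ℕ} (h : e ≤ 1) : inA e := by
  interval_cases e
  exacts [inA_zero, inA_one]

lemma inA_AP (y : ℕ) : ∀ x z, inA x → inA y → inA z → x + z = 2 * y → x = y := by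
  induction y using Nat.strong_induction_on with
  | _ y ih =>
    intro x z hx hy hz h
    rcases Nat.eq_zero_or_pos y with h0 | h0
    · omega
    rw [inA_iff] at hx hy hz
    have := ih (y / 3) (by omega) (x / 3) (z / 3) hx.2 hy.2 hz.2 (by omega)
    have h1 : x % 3 = y % 3 := by
      have := hx.1; have := hy.1; have := hz.1
      have h2 : (x % 3 + z % 3) % 3 = (2 * (y % 3)) % 3 := by omega
      omega
    omega

lemma inA_end {v w : ℕ} (hv : inA v) (hw : inA w) (h : 2 + w = 2 * v) : v = 1 ∨ v = 3 := by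
  rw [inA_iff] at hv hw
  by_cases h1 : v % 3 = 1
  · have := inA_AP (v / 3) 0 (w / 3) inA_zero hv.2 hw.2 (by omega)
    omega
  · have := inA_AP (v / 3) 1 (w / 3) inA_one hv.2 hw.2 (by omega)
    omega

/-- Rankin's set. -/
def G : Set ℕ := {n | 1 ≤ n ∧ ∀ p, inA (n.factorization p)}

section
variable (P : Finset ℕ)

/-- Product of the primes of `P`. -/
def bb : ℕ := ∏ p ∈ P, p

/-- The smooth numbers used in the modification. -/
def el (i t : ℕ) : ℕ := 2 ^ i * bb P * t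

/-- Prescribed shape of the factorization of `n`. -/
def Shape (n i p j m : ℕ) : Prop :=
  n ≠ 0 ∧ n.factorization 2 = i ∧ n.factorization p = 1 + j ∧
    (∀ r ∈ P, r ≠ p → n.factorization r = 1) ∧
    ∀ r, r ≠ 2 → r ∉ P → n.factorization r = m.factorization r

/-- The odd parts of the removed numbers. -/
def TT : Finset ℕ := insert 1 (P.image (fun p => p ^ 2) ∪ P.image (fun p => p ^ 3))

/-- Removed smooth parts. -/
def DD : Finset ℕ := (({0, 1, 3, 4} : Finset ℕ) ×ˢ TT P).image (fun x => el P x.1 x.2)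

/-- Added smooth parts. -/
def CC : Finset ℕ := P.image (fun p => el P 2 p)

/-- Rough parts. -/
def HH : Set ℕ := SF (2 * bb P)

/-- The improved set. -/
def AA : Set ℕ :=
  (G \ ⋃ d ∈ DD P, (fun m => d * m) '' HH P) ∪ ⋃ c ∈ CC P, (fun m => c * m) '' HH P

variable {P}

lemma bb_pos (hP : ∀ p ∈ P, p.Prime ∧ p ≠ 2) : 0 < bb P :=
  Finset.prod_pos fun p hp => (hP p hp).1.pos

lemma bb_fact (hP : ∀ p ∈ P, p.Prime ∧ p ≠ 2) (r : ℕ) :
    (bb P).factorization r = if r ∈ P then 1 else 0 := by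
  unfold bb
  rw [Nat.factorization_prod (fun p hp => (hP p hp).1.ne_zero), Finsupp.finset_sum_apply]
  rw [Finset.sum_congr rfl (g := fun p => if r = p then 1 else 0)]
  · simp
  · intro p hp
    rw [(hP p hp).1.factorization, Finsupp.single_apply]
    simp [eq_comm]

lemma HH_cop {m : ℕ} (hm : m ∈ HH P) : Nat.Coprime m (2 * bb P) := by
  have := hm.1.gcd_eq
  unfold Nat.Coprime
  rw [this]; simp

lemma HH_ne {m : ℕ} (hm : m ∈ HH P) : m ≠ 0 := hm.2.ne_zero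

lemma HH_le {m : ℕ} (hm : m ∈ HH P) (r : ℕ) : m.factorization r ≤ 1 :=
  hm.2.natFactorization_le_one r

lemma HH_cop_two {m : ℕ} (hm : m ∈ HH P) : Nat.Coprime m 2 :=
  Nat.Coprime.coprime_dvd_right (Dvd.intro _ rfl) (HH_cop hm)

lemma HH_cop_bb {m : ℕ} (hm : m ∈ HH P) : Nat.Coprime m (bb P) :=
  Nat.Coprime.coprime_dvd_right (Dvd.intro_left _ rfl) (HH_cop hm)

lemma HH_cop_p {m p : ℕ} (hm : m ∈ HH P) (hp : p ∈ P) : Nat.Coprime m p :=
  Nat.Coprime.coprime_dvd_right (Finset.dvd_prod_of_mem _ hp) (HH_cop_bb hm)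

lemma fact_zero_of_cop {m r : ℕ} (hr : r.Prime) (h : Nat.Coprime m r) : m.factorization r = 0 :=
  Nat.factorization_eq_zero_of_not_dvd fun hd => hr.one_lt.ne' (Nat.eq_one_of_self_dvd_coprime hd h)
where Nat.eq_one_of_self_dvd_coprime {m r : ℕ} (hd : r ∣ m) (h : Nat.Coprime m r) : r = 1 :=
  Nat.eq_one_of_dvd_coprimes h hd dvd_rfl

lemma shape_el (hP : ∀ p ∈ P, p.Prime ∧ p ≠ 2) {p m : ℕ} (hp : p ∈ P) (hm : m ∈ HH P)
    (i j : ℕ) : Shape P (el P i (p ^ j) * m) i p j m := by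
  have hb := (bb_pos hP).ne'
  have hp0 := (hP p hp).1.ne_zero
  have hm0 := HH_ne hm
  have h2P : 2 ∉ P := fun h => (hP 2 h).2 rfl
  have key : ∀ r, (el P i (p ^ j) * m).factorization r =
      (if r = 2 then i else 0) + (if r ∈ P then 1 else 0) + (if r = p then j else 0) +
        m.factorization r := by
    intro r
    unfold el
    rw [Nat.factorization_mul (by positivity) hm0, Nat.factorization_mul (by positivity)
      (by positivity), Nat.factorization_mul (by positivity) hb, Nat.prime_two.factorization_pow,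
      (hP p hp).1.factorization_pow]
    simp only [Finsupp.add_apply, Finsupp.single_apply, bb_fact hP, eq_comm]
  refine ⟨by unfold el; positivity, ?_, ?_, ?_, ?_⟩
  · rw [key, fact_zero_of_cop Nat.prime_two (HH_cop_two hm)]
    simp [h2P, (hP p hp).2.symm]
  · rw [key, fact_zero_of_cop (hP p hp).1 (HH_cop_p hm hp)]
    simp [hp, (hP p hp).2]
  · intro r hr hrp
    rw [key, fact_zero_of_cop (hP r hr).1 (HH_cop_p hm hr)]
    simp [hr, hrp, (hP r hr).2]
  · intro r hr2 hr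
    have : r ≠ p := fun h => hr (h ▸ hp)
    rw [key]
    simp [hr2, hr, this]

lemma shape_inj {n n' i p j m : ℕ} (h : Shape P n i p j m) (h' : Shape P n' i p j m) : n = n' := by
  refine Nat.eq_of_factorization_eq h.1 h'.1 fun r => ?_
  by_cases h2 : r = 2
  · rw [h2, h.2.1, h'.2.1]
  by_cases hp : r = p
  · rw [hp, h.2.2.1, h'.2.2.1]
  by_cases hr : r ∈ P
  · rw [h.2.2.2.1 r hr hp, h'.2.2.2.1 r hr hp]
  · rw [h.2.2.2.2 r h2 hr, h'.2.2.2.2 r h2 hr]

lemma removed_of_shape (hP : ∀ p ∈ P, p.Prime ∧ p ≠ 2) {n i p j m : ℕ} (hp : p ∈ P)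
    (hm : m ∈ HH P) (hi : i = 0 ∨ i = 1 ∨ i = 3 ∨ i = 4) (hj : j = 0 ∨ j = 2 ∨ j = 3)
    (h : Shape P n i p j m) : n ∈ ⋃ d ∈ DD P, (fun m => d * m) '' HH P := by
  simp only [Set.mem_iUnion]
  refine ⟨el P i (p ^ j), ?_, m, hm, shape_inj (shape_el hP hp hm i j) h⟩
  refine Finset.mem_image.2 ⟨(i, p ^ j), Finset.mem_product.2 ⟨by simpa using hi, ?_⟩, rfl⟩
  simp only [TT, Finset.mem_insert, Finset.mem_union, Finset.mem_image]
  rcases hj with rfl | rfl | rfl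
  · left; simp
  · right; left; exact ⟨p, hp, rfl⟩
  · right; right; exact ⟨p, hp, rfl⟩

lemma classify (hP : ∀ p ∈ P, p.Prime ∧ p ≠ 2) {n : ℕ} (hn : n ∈ AA P) :
    (n ∈ G ∧ n ∉ ⋃ d ∈ DD P, (fun m => d * m) '' HH P) ∨
      ∃ p ∈ P, ∃ m ∈ HH P, Shape P n 2 p 1 m := by
  rcases hn with h | h
  · exact Or.inl h
  · right
    simp only [Set.mem_iUnion, CC, Finset.mem_image] at h
    obtain ⟨c, ⟨p, hp, rfl⟩, m, hm, rfl⟩ := h
    refine ⟨p, hp, m, hm, ?_⟩
    simpa using shape_el hP hp hm 2 1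

lemma end_case (hP : ∀ p ∈ P, p.Prime ∧ p ≠ 2) {x y z p m : ℕ} (hp : p ∈ P) (hm : m ∈ HH P)
    (hx : Shape P x 2 p 1 m) (hy : y ∈ G) (hz : z ∈ G)
    (h : ∀ r, x.factorization r + z.factorization r = 2 * y.factorization r) :
    y ∈ ⋃ d ∈ DD P, (fun m => d * m) '' HH P := by
  have h2 := inA_end (hy.2 2) (hz.2 2) (by rw [← h 2, hx.2.1])
  have h3 := inA_end (hy.2 p) (hz.2 p) (by rw [← h p, hx.2.2.1])
  refine removed_of_shape hP (i := y.factorization 2) (j := y.factorization p - 1) hp hm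
    (by omega) (by omega) ⟨by have := hy.1; omega, rfl, by omega, fun r hr hrp => ?_,
      fun r hr2 hr => ?_⟩
  · have e := hx.2.2.2.1 r hr hrp
    exact (inA_AP _ 1 _ inA_one (hy.2 r) (hz.2 r) (by rw [← h r, e])).symm
  · have e := hx.2.2.2.2 r hr2 hr
    exact (inA_AP _ _ _ (inA_of_le (HH_le hm r)) (hy.2 r) (hz.2 r) (by rw [← h r, e])).symm

lemma mid_case (hP : ∀ p ∈ P, p.Prime ∧ p ≠ 2) {x y z p m : ℕ} (hp : p ∈ P) (hm : m ∈ HH P)
    (hy : Shape P y 2 p 1 m) (hx : x ∈ G) (hz : z ∈ G) (h3 : 3 ≤ x.factorization p)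
    (h : ∀ r, x.factorization r + z.factorization r = 2 * y.factorization r) :
    x ∈ ⋃ d ∈ DD P, (fun m => d * m) '' HH P := by
  have h2 := h 2
  have h4 := h p
  rw [hy.2.1] at h2
  rw [hy.2.2.1] at h4
  have h5 := inA_ne_two (hx.2 2)
  refine removed_of_shape hP (i := x.factorization 2) (j := x.factorization p - 1) hp hm
    (by omega) (by omega) ⟨by have := hx.1; omega, rfl, by omega, fun r hr hrp => ?_,
      fun r hr2 hr => ?_⟩
  · have e := hy.2.2.2.1 r hr hrp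
    exact inA_AP 1 _ _ (hx.2 r) inA_one (hz.2 r) (by rw [h r, e])
  · have e := hy.2.2.2.2 r hr2 hr
    exact inA_AP _ _ _ (hx.2 r) (inA_of_le (HH_le hm r)) (hz.2 r) (by rw [h r, e])

lemma AA_ap (hP : ∀ p ∈ P, p.Prime ∧ p ≠ 2) {x y z : ℕ} (hx : x ∈ AA P) (hy : y ∈ AA P)
    (hz : z ∈ AA P) (h : ∀ r, x.factorization r + z.factorization r = 2 * y.factorization r) :
    x = y := by
  have h' : ∀ r, z.factorization r + x.factorization r = 2 * y.factorization r := fun r => by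
    rw [add_comm, h]
  have h2 := h 2
  rcases classify hP hx with hx | ⟨p, hp, m, hm, hx⟩ <;>
    rcases classify hP hy with hy | ⟨p', hp', m', hm', hy⟩ <;>
    rcases classify hP hz with hz | ⟨p'', hp'', m'', hm'', hz⟩
  · refine Nat.eq_of_factorization_eq (by have := hx.1.1; omega) (by have := hy.1.1; omega)
      fun r => inA_AP _ _ _ (hx.1.2 r) (hy.1.2 r) (hz.1.2 r) (h r)
  · exact (hy.2 (end_case hP hp'' hm'' hz hy.1 hx.1 h')).elim
  · have h4 := h p'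
    rw [hy.2.2.1] at h4
    have h5 := inA_ne_two (hx.1.2 p')
    by_cases h3 : 3 ≤ x.factorization p'
    · exact (hx.2 (mid_case hP hp' hm' hy hx.1 hz.1 h3 h)).elim
    · exact (hz.2 (mid_case hP hp' hm' hy hz.1 hx.1 (by omega) h')).elim
  · have := inA_ne_two (hx.1.2 2)
    rw [hy.2.1, hz.2.1] at h2
    omega
  · exact (hy.2 (end_case hP hp hm hx hy.1 hz.1 h)).elim
  · have := inA_ne_two (hy.1.2 2)
    rw [hx.2.1, hz.2.1] at h2
    omega
  · have := inA_ne_two (hz.1.2 2)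
    rw [hx.2.1, hy.2.1] at h2
    omega
  · have hpp : p = p' := by
      by_contra hne
      have h4 := h p
      rw [hx.2.2.1, hy.2.2.2.1 p hp hne] at h4
      by_cases e : p = p''
      · rw [e, hz.2.2.1] at h4; omega
      · rw [hz.2.2.2.1 p hp e] at h4; omega
    subst hpp
    refine shape_inj hx ⟨hy.1, hy.2.1, hy.2.2.1, hy.2.2.2.1, fun r hr2 hr => ?_⟩
    have h4 := h r
    rw [hx.2.2.2.2 r hr2 hr, hy.2.2.2.2 r hr2 hr, hz.2.2.2.2 r hr2 hr] at h4
    rw [hy.2.2.2.2 r hr2 hr]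
    have := HH_le hm r
    have := HH_le hm' r
    have := HH_le hm'' r
    omega

lemma AA_pos (hP : ∀ p ∈ P, p.Prime ∧ p ≠ 2) {n : ℕ} (hn : n ∈ AA P) : 1 ≤ n := by
  rcases classify hP hn with h | ⟨p, _, m, _, h⟩
  · exact h.1.1
  · exact Nat.pos_of_ne_zero h.1

lemma AA_gp (hP : ∀ p ∈ P, p.Prime ∧ p ≠ 2) :
    ∀ a ∈ AA P, ∀ b ∈ AA P, ∀ c ∈ AA P, a < b → b < c → b ^ 2 ≠ a * c := by
  intro a ha b hb c hc hab _ e
  have ha0 := AA_pos hP ha
  have hc0 := AA_pos hP hc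
  refine hab.ne (AA_ap hP ha hb hc fun r => ?_)
  have := congrArg (fun n => Nat.factorization n r) e
  simp only [Nat.factorization_pow, Nat.factorization_mul (by omega : a ≠ 0) (by omega : c ≠ 0),
    Finsupp.add_apply, Finsupp.smul_apply, smul_eq_mul] at this
  omega

lemma disj_of_cop {s s' : ℕ} (hs : ∀ m ∈ HH P, Nat.Coprime m s)
    (hs' : ∀ m ∈ HH P, Nat.Coprime m s') (hne : s ≠ s') :
    Disjoint ((fun m => s * m) '' HH P) ((fun m => s' * m) '' HH P) := by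
  rw [Set.disjoint_left]
  rintro n ⟨m, hm, rfl⟩ ⟨m', hm', e⟩
  simp only at e
  apply hne
  apply Nat.dvd_antisymm
  · exact (hs m' hm').symm.dvd_of_dvd_mul_right (e ▸ Dvd.intro _ rfl)
  · exact (hs' m hm).symm.dvd_of_dvd_mul_right (e ▸ Dvd.intro _ rfl)

lemma cop_el {m : ℕ} (hm : m ∈ HH P) (i : ℕ) {t : ℕ} (ht : Nat.Coprime m t) :
    Nat.Coprime m (el P i t) :=
  Nat.Coprime.mul_right (Nat.Coprime.mul_right ((HH_cop_two hm).pow_right i) (HH_cop_bb hm)) ht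

lemma DD_elim (hne : P.Nonempty) {d : ℕ} (hd : d ∈ DD P) :
    ∃ i, (i = 0 ∨ i = 1 ∨ i = 3 ∨ i = 4) ∧ ∃ p ∈ P, ∃ j, (j = 0 ∨ j = 2 ∨ j = 3) ∧
      d = el P i (p ^ j) := by
  obtain ⟨⟨i, t⟩, hit, rfl⟩ := Finset.mem_image.1 hd
  obtain ⟨hi, ht⟩ := Finset.mem_product.1 hit
  refine ⟨i, by simpa using hi, ?_⟩
  simp only [TT, Finset.mem_insert, Finset.mem_union, Finset.mem_image] at ht
  rcases ht with rfl | ⟨p, hp, rfl⟩ | ⟨p, hp, rfl⟩
  · obtain ⟨p, hp⟩ := hne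
    exact ⟨p, hp, 0, by simp, by simp⟩
  · exact ⟨p, hp, 2, by simp, rfl⟩
  · exact ⟨p, hp, 3, by simp, rfl⟩

lemma AA_dens (hP : ∀ p ∈ P, p.Prime ∧ p ≠ 2) (hne : P.Nonempty) {δ η : ℝ}
    (hG : HasDens G δ) (hH : HasDens (HH P) η) :
    HasDens (AA P) (δ - ∑ d ∈ DD P, η / (d : ℝ) + ∑ c ∈ CC P, η / (c : ℝ)) := by
  have hb := bb_pos hP
  refine HasDens.union (HasDens.diff hG (HasDens.biUnion _ _ _ ?_ ?_) ?_)
    (HasDens.biUnion _ _ _ ?_ ?_) ?_
  · intro d hd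
    obtain ⟨i, _, p, hp, j, _, rfl⟩ := DD_elim hne hd
    have := (hP p hp).1.pos
    exact hH.dil (by unfold el; positivity)
  · intro d hd d' hd' hdd
    obtain ⟨i, _, p, hp, j, _, rfl⟩ := DD_elim hne hd
    obtain ⟨i', _, p', hp', j', _, rfl⟩ := DD_elim hne hd'
    exact disj_of_cop (fun m hm => cop_el hm _ ((HH_cop_p hm hp).pow_right _))
      (fun m hm => cop_el hm _ ((HH_cop_p hm hp').pow_right _)) hdd
  · intro n hn
    simp only [Set.mem_iUnion] at hn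
    obtain ⟨d, hd, m, hm, rfl⟩ := hn
    obtain ⟨i, hi, p, hp, j, hj, rfl⟩ := DD_elim hne hd
    have hs := shape_el hP hp hm i j
    refine ⟨Nat.pos_of_ne_zero hs.1, fun r => ?_⟩
    by_cases h2 : r = 2
    · simp only [h2, hs.2.1]
      rcases hi with rfl | rfl | rfl | rfl
      exacts [inA_zero, inA_one, inA_three, inA_four]
    by_cases hrp : r = p
    · simp only [hrp, hs.2.2.1]
      rcases hj with rfl | rfl | rfl
      exacts [inA_one, inA_three, inA_four]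
    by_cases hr : r ∈ P
    · simp only [hs.2.2.2.1 r hr hrp]; exact inA_one
    · simp only [hs.2.2.2.2 r h2 hr]; exact inA_of_le (HH_le hm r)
  · intro c hc
    obtain ⟨p, hp, rfl⟩ := Finset.mem_image.1 hc
    have := (hP p hp).1.pos
    exact hH.dil (by unfold el; positivity)
  · intro c hc c' hc' hcc
    obtain ⟨p, hp, rfl⟩ := Finset.mem_image.1 hc
    obtain ⟨p', hp', rfl⟩ := Finset.mem_image.1 hc'
    exact disj_of_cop (fun m hm => cop_el hm _ (HH_cop_p hm hp))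
      (fun m hm => cop_el hm _ (HH_cop_p hm hp')) hcc
  · rw [Set.disjoint_left]
    rintro n ⟨hn, _⟩ hn'
    simp only [Set.mem_iUnion, CC, Finset.mem_image] at hn'
    obtain ⟨c, ⟨p, hp, rfl⟩, m, hm, rfl⟩ := hn'
    have hs := shape_el hP hp hm 2 1
    rw [pow_one] at hs
    exact inA_ne_two (hn.2 2) hs.2.1

lemma sum_sq_le (hP : ∀ p ∈ P, p.Prime ∧ p ≠ 2) : ∑ p ∈ P, ((p : ℝ) ^ 2)⁻¹ ≤ 1 := by
  have h1 : P ⊆ Finset.Ioc 1 (P.sup id + 1) := fun p hp =>
    Finset.mem_Ioc.2 ⟨(hP p hp).1.one_lt, Nat.le_succ_of_le (Finset.le_sup (f := id) hp)⟩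
  have h2 := sum_Ioc_inv_sq_le_sub (α := ℝ) (k := 1) (n := P.sup id + 1) (by norm_num) (by omega)
  have h3 : (0 : ℝ) ≤ (((P.sup id + 1 : ℕ) : ℝ))⁻¹ := by positivity
  refine (Finset.sum_le_sum_of_subset_of_nonneg h1 fun _ _ _ => by positivity).trans ?_
  simp only [Nat.cast_one, inv_one] at h2
  linarith

lemma sum_TT_le (hP : ∀ p ∈ P, p.Prime ∧ p ≠ 2) : ∑ t ∈ TT P, (t : ℝ)⁻¹ ≤ 3 := by
  have h0 : ∀ (A B : Finset ℕ), ∑ t ∈ A ∪ B, (t : ℝ)⁻¹ ≤ ∑ t ∈ A, (t : ℝ)⁻¹ + ∑ t ∈ B, (t : ℝ)⁻¹ := by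
    intro A B
    rw [← Finset.sum_union_inter]
    have : (0 : ℝ) ≤ ∑ t ∈ A ∩ B, (t : ℝ)⁻¹ := Finset.sum_nonneg fun _ _ => by positivity
    linarith
  have h1 : ∑ t ∈ P.image (fun p : ℕ => p ^ 2), ((t : ℕ) : ℝ)⁻¹ ≤ 1 := by
    refine (Finset.sum_image_le_of_nonneg fun _ _ => by positivity).trans ?_
    simpa using sum_sq_le hP
  have h2 : ∑ t ∈ P.image (fun p : ℕ => p ^ 3), ((t : ℕ) : ℝ)⁻¹ ≤ 1 := by
    refine (Finset.sum_image_le_of_nonneg fun _ _ => by positivity).trans ?_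
    refine le_trans (Finset.sum_le_sum fun p hp => ?_) (sum_sq_le hP)
    have : (1 : ℝ) ≤ p := by exact_mod_cast (hP p hp).1.one_le
    push_cast
    exact inv_anti₀ (by positivity) (pow_le_pow_right₀ this (by norm_num))
  have h3 := h0 {1} (P.image (fun p => p ^ 2) ∪ P.image (fun p => p ^ 3))
  have h4 := h0 (P.image (fun p => p ^ 2)) (P.image (fun p => p ^ 3))
  rw [← Finset.insert_eq] at h3
  simp only [Finset.sum_singleton, Nat.cast_one, inv_one] at h3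
  unfold TT
  linarith

lemma sum_DD_le (hP : ∀ p ∈ P, p.Prime ∧ p ≠ 2) {η : ℝ} (hη : 0 < η) :
    ∑ d ∈ DD P, η / (d : ℝ) ≤ 12 * (η / bb P) := by
  have hb : (0 : ℝ) < bb P := by exact_mod_cast bb_pos hP
  refine (Finset.sum_image_le_of_nonneg fun _ _ => by positivity).trans ?_
  rw [Finset.sum_product]
  have h1 : ∀ i ∈ ({0, 1, 3, 4} : Finset ℕ), ∑ t ∈ TT P, η / (el P (i, t).1 (i, t).2 : ℝ)
      ≤ 3 * (η / bb P) := by
    intro i _
    have h2 : ∑ t ∈ TT P, η / (el P (i, t).1 (i, t).2 : ℝ) ≤ ∑ t ∈ TT P, (t : ℝ)⁻¹ * (η / bb P) := by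
      refine Finset.sum_le_sum fun t _ => ?_
      unfold el
      push_cast
      have h3 : (1 : ℝ) ≤ 2 ^ i := one_le_pow₀ (by norm_num)
      have h4 : η / (2 ^ i * (bb P : ℝ) * t) = (2 ^ i)⁻¹ * ((t : ℝ)⁻¹ * (η / bb P)) := by
        rw [div_eq_mul_inv, div_eq_mul_inv, mul_inv, mul_inv]; ring
      rw [h4]
      exact mul_le_of_le_one_left (by positivity) (inv_le_one_of_one_le₀ h3)
    rw [← Finset.sum_mul] at h2
    exact h2.trans (mul_le_mul_of_nonneg_right (sum_TT_le hP) (by positivity))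
  refine (Finset.sum_le_sum h1).trans ?_
  rw [Finset.sum_const, show ({0, 1, 3, 4} : Finset ℕ).card = 4 by decide]
  simp only [nsmul_eq_mul, Nat.cast_ofNat]
  linarith

lemma sum_CC (hP : ∀ p ∈ P, p.Prime ∧ p ≠ 2) (η : ℝ) :
    ∑ c ∈ CC P, η / (c : ℝ) = (∑ p ∈ P, 1 / (p : ℝ)) / 4 * (η / bb P) := by
  have hb := bb_pos hP
  unfold CC
  rw [Finset.sum_image, Finset.sum_div, Finset.sum_mul]
  · refine Finset.sum_congr rfl fun p _ => ?_
    unfold el
    push_cast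
    rw [div_eq_mul_inv, mul_inv, mul_inv]; ring
  · intro p _ p' _ e
    exact Nat.eq_of_mul_eq_mul_left (by positivity) e

end

lemma exists_primes : ∃ P : Finset ℕ, (∀ p ∈ P, p.Prime ∧ p ≠ 2) ∧ 48 < ∑ p ∈ P, 1 / (p : ℝ) := by
  have h := not_summable_one_div_on_primes
  rw [not_summable_iff_tendsto_nat_atTop_of_nonneg
    (fun n => Set.indicator_nonneg (fun _ _ => by positivity) n)] at h
  obtain ⟨n, hn⟩ := (h.eventually_gt_atTop 49).exists
  refine ⟨((Finset.range n).filter Nat.Prime).erase 2, fun p hp => ?_, ?_⟩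
  · rw [Finset.mem_erase, Finset.mem_filter] at hp
    exact ⟨hp.2.2, hp.1⟩
  · have h1 : ∑ i ∈ Finset.range n, Set.indicator {p : ℕ | p.Prime} (fun n : ℕ => (1 : ℝ) / n) i
        = ∑ p ∈ (Finset.range n).filter Nat.Prime, 1 / (p : ℝ) := by
      rw [Finset.sum_filter]
      refine Finset.sum_congr rfl fun i _ => ?_
      by_cases hi : i.Prime <;> simp [Set.indicator, hi]
    rw [h1] at hn
    by_cases h2 : 2 ∈ (Finset.range n).filter Nat.Prime
    · rw [← Finset.add_sum_erase _ _ h2] at hn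
      push_cast at hn
      linarith
    · rw [Finset.erase_eq_of_notMem h2]
      linarith

theorem better (δ : ℝ) (hG : HasDens G δ) : ∃ (A : Set ℕ) (d : ℝ), (∀ n ∈ A, 1 ≤ n) ∧
    (∀ a ∈ A, ∀ b ∈ A, ∀ c ∈ A, a < b → b < c → b ^ 2 ≠ a * c) ∧ HasDens A d ∧ δ < d := by
  obtain ⟨P, hP, hs⟩ := exists_primes
  have hne : P.Nonempty := by
    rw [Finset.nonempty_iff_ne_empty]
    rintro rfl
    norm_num at hs
  have hb := bb_pos hP
  obtain ⟨η, hη, hH⟩ := SF_dens (2 * bb P) (by omega)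
  refine ⟨AA P, _, fun n hn => AA_pos hP hn, AA_gp hP, AA_dens hP hne hG hH, ?_⟩
  have h1 := sum_DD_le hP hη
  rw [sum_CC hP]
  have hb' : (0 : ℝ) < η / bb P := by
    have : (0 : ℝ) < bb P := by exact_mod_cast hb
    positivity
  nlinarith

end Pool.Agent.H60.Rankin
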