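import Mathlib

set_option autoImplicit false

namespace Pool.Agent.H60.SF

variable {S : Type} [Semigroup S]

/-- The ordered product `a 0 * a 1 * ... * a (h-1)`, computed in `S` with a unit adjoined. -/
def pr {h : ℕ} (a : Fin h → S) : WithOne S := (List.ofFn fun i => (a i : WithOne S)).prod

/-- The product set `A^h`. -/
def pw (A : Set S) (h : ℕ) : Set S := {x | ∃ a : Fin h → S, (∀ i, a i ∈ A) ∧ pr a = (x : WithOne S)}

/-- The ordered `h`-fold factorisations of `x` in `S`. -/
def facs (h : ℕ) (x : S) : Set (Fin h → S) := {a | pr a = (x : WithOne S)}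

/-- Asymptotically strictly decreasing sequences. -/
def AsymDec (A : ℕ → Set S) : Prop :=
  (∀ q, A (q + 1) ⊆ A q) ∧ {q | A (q + 1) ≠ A q}.Infinite

/-- The intersection set `H(A_q)`. -/
def HH (A : ℕ → Set S) : Set ℕ := {h | 1 ≤ h ∧ pw (⋂ q, A q) h = ⋂ q, pw (A q) h}

variable (S)

def Prop1 : Prop := ∃ h₀ : ℕ, 1 ≤ h₀ ∧ ∀ h, h₀ ≤ h → ∃ x : S, (facs h x).Infinite

def Prop2 : Prop := {H | ∃ A : ℕ → Set S, AsymDec A ∧ H = HH A} = {{h : ℕ | 1 ≤ h}}

/-- Whenever `x` has a sequence of `h`-fold factorisations in which every coordinate is constant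
or injective, `x` is a product of `h` values of constant coordinates. -/
def Sunflower : Prop :=
  ∀ (h : ℕ) (x : S) (t : ℕ → Fin h → S), (∀ k, t k ∈ facs h x) →
    (∀ i, (∀ k, t k i = t 0 i) ∨ Function.Injective fun k => t k i) →
    x ∈ pw {c | ∃ i, ∀ k, t k i = c} h

end Pool.Agent.H60.SF
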