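import Pool.Agent.H60.SFDefs

set_option autoImplicit false

namespace Pool.Agent.H60.SF

variable {S : Type} [Semigroup S]

theorem pw_mono {A B : Set S} (h : A ⊆ B) (n : ℕ) : pw A n ⊆ pw B n :=
  fun _ ⟨a, ha, e⟩ => ⟨a, fun i => h (ha i), e⟩

theorem pr_succ {h : ℕ} (a : Fin (h + 1) → S) : pr a = (a 0 : WithOne S) * pr (Fin.tail a) := by
  simp [pr, List.ofFn_succ, Fin.tail]

theorem pr_coe {h : ℕ} (a : Fin (h + 1) → S) : ∃ y : S, pr a = y := by
  induction h with
  | zero => exact ⟨a 0, by simp [pr]⟩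
  | succ h ih =>
    obtain ⟨y, hy⟩ := ih (Fin.tail a)
    exact ⟨a 0 * y, by rw [pr_succ, hy]; simp⟩

theorem subseq {α : Type} {h : ℕ} (t : ℕ → Fin h → α) (s : Finset (Fin h)) :
    ∃ φ : ℕ → ℕ, StrictMono φ ∧ ∀ i ∈ s, (∀ k, t (φ k) i = t (φ 0) i) ∨
      Function.Injective fun k => t (φ k) i := by
  induction s using Finset.induction_on with
  | empty => exact ⟨id, strictMono_id, by simp⟩
  | insert j s _ ih =>
    obtain ⟨φ, hφ, H⟩ := ih
    obtain ⟨g, hg⟩ := exists_increasing_or_nonincreasing_subseq (· = ·) fun k => t (φ k) j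
    refine ⟨φ ∘ g, hφ.comp g.strictMono, fun i hi => ?_⟩
    rcases Finset.mem_insert.mp hi with rfl | hi
    · rcases hg with hg | hg
      · left
        intro k
        rcases Nat.eq_zero_or_pos k with rfl | hk
        · rfl
        · exact (hg 0 k hk).symm
      · right
        intro m n e
        by_contra hne
        rcases lt_or_gt_of_ne hne with h1 | h1
        · exact hg m n h1 e
        · exact hg n m h1 e.symm
    · rcases H i hi with h1 | h1
      · left; intro k; exact (h1 _).trans (h1 _).symm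
      · right; exact h1.comp g.injective

theorem anti {A : ℕ → Set S} (h : ∀ q, A (q + 1) ⊆ A q) : Antitone A :=
  antitone_nat_of_succ_le h

theorem HH_of_sun (hs : Sunflower S) {A : ℕ → Set S} (hA : ∀ q, A (q + 1) ⊆ A q) :
    HH A = {h : ℕ | 1 ≤ h} := by
  ext h
  refine ⟨fun H => H.1, fun H => ⟨H, Set.Subset.antisymm
    (Set.subset_iInter fun q => pw_mono (Set.iInter_subset _ q) h) fun x hx => ?_⟩⟩
  choose t ht he using Set.mem_iInter.mp hx
  obtain ⟨φ, hφ, H2⟩ := subseq t Finset.univ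
  refine pw_mono ?_ h (hs h x (fun k => t (φ k)) (fun k => he _) fun i => H2 i (Finset.mem_univ _))
  rintro c ⟨i, hi⟩
  refine Set.mem_iInter.mpr fun q => ?_
  rw [← hi q]
  exact anti hA (hφ.id_le q) (ht _ i)

theorem asym_of {A : ℕ → Set S} (hA : ∀ q, A (q + 1) ⊆ A q) (hi : ∀ q, (A q).Infinite)
    (hf : (⋂ q, A q).Finite) : AsymDec A := by
  refine ⟨hA, fun hfin => ?_⟩
  obtain ⟨N, hN⟩ := hfin.bddAbove
  have st : ∀ k, A (N + 1 + k) = A (N + 1) := by
    intro k
    induction k with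
    | zero => rfl
    | succ k ih =>
      rw [← ih]
      by_contra hc
      have : N + 1 + k ≤ N := hN hc
      omega
  refine hi (N + 1) (hf.subset (Set.subset_iInter fun q => ?_))
  rw [← st q]
  exact anti hA (by omega)

theorem sun_of (h2 : Prop2 S) : Sunflower S := by
  intro h x t ht hc
  by_cases hall : ∀ i k, t k i = t 0 i
  · exact ⟨t 0, fun i => ⟨i, hall i⟩, ht 0⟩
  push Not at hall
  obtain ⟨i0, k0, hk0⟩ := hall
  have inj0 : Function.Injective fun k => t k i0 := (hc i0).resolve_left fun h => hk0 (h k0)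
  let A : ℕ → Set S := fun q => {c | ∃ i k, q ≤ k ∧ t k i = c}
  have hA : ∀ q, A (q + 1) ⊆ A q := fun q c ⟨i, k, a, b⟩ => ⟨i, k, by omega, b⟩
  have hI : (⋂ q, A q) ⊆ {c | ∃ i, ∀ k, t k i = c} := by
    intro c hcm
    by_contra hn
    have fin : ∀ i, {k | t k i = c}.Finite := by
      intro i
      rcases hc i with h1 | h1
      · convert Set.finite_empty
        ext k
        simp only [Set.mem_setOf_eq, Set.mem_empty_iff_false, iff_false]
        exact fun e => hn ⟨i, fun k' => (h1 k').trans ((h1 k).symm.trans e)⟩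
      · exact Set.Subsingleton.finite fun a ha b hb => h1 (ha.trans hb.symm)
    obtain ⟨N, hN⟩ := (Set.finite_iUnion fin).bddAbove
    obtain ⟨i, k, a, b⟩ := Set.mem_iInter.mp hcm (N + 1)
    have : k ≤ N := hN (Set.mem_iUnion.mpr ⟨i, b⟩)
    omega
  have hf : (⋂ q, A q).Finite :=
    (Set.finite_range (t 0)).subset fun c hc => by
      obtain ⟨i, hi⟩ := hI hc
      exact ⟨i, hi 0⟩
  have hi : ∀ q, (A q).Infinite := fun q =>
    Set.infinite_of_injective_forall_mem (f := fun k => t (q + k) i0)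
      (fun a b e => by have := inj0 e; omega) fun k => ⟨i0, q + k, by omega, rfl⟩
  have hH : HH A ∈ ({{h : ℕ | 1 ≤ h}} : Set (Set ℕ)) := by
    rw [← h2]; exact ⟨A, asym_of hA hi hf, rfl⟩
  have h1 : h ∈ HH A := by
    rw [Set.mem_singleton_iff.mp hH]
    exact i0.pos
  refine pw_mono hI h ?_
  rw [h1.2]
  exact Set.mem_iInter.mpr fun q => ⟨t q, fun i => ⟨i, q, le_rfl, rfl⟩, ht q⟩

theorem prop2_of [Infinite S] (hs : Sunflower S) : Prop2 S := by
  ext H
  refine ⟨fun ⟨A, hA, e⟩ => e.trans (HH_of_sun hs hA.1), fun e => ?_⟩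
  let u := Infinite.natEmbedding S
  let A : ℕ → Set S := fun q => {c | ∃ k, q ≤ k ∧ u k = c}
  have hA : ∀ q, A (q + 1) ⊆ A q := fun q c ⟨k, a, b⟩ => ⟨k, by omega, b⟩
  refine ⟨A, ⟨hA, ?_⟩, (Set.mem_singleton_iff.mp e).trans (HH_of_sun hs hA).symm⟩
  convert Set.infinite_univ (α := ℕ)
  ext q
  simp only [Set.mem_setOf_eq, Set.mem_univ, iff_true]
  intro he
  have : u q ∈ A (q + 1) := by rw [he]; exact ⟨q, le_rfl, rfl⟩
  obtain ⟨k, a, b⟩ := this
  have := u.injective b
  omega

theorem fin_facs (hf : ∀ y : S, {p : S × S | p.1 * p.2 = y}.Finite) (h : ℕ) (x : S) :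
    (facs (h + 1) x).Finite := by
  induction h generalizing x with
  | zero =>
    refine Set.Subsingleton.finite fun a ha b hb => ?_
    have e1 : a 0 = x := by simpa [facs, pr] using ha
    have e2 : b 0 = x := by simpa [facs, pr] using hb
    funext i
    rw [Fin.fin_one_eq_zero i, e1, e2]
  | succ h ih =>
    refine ((hf x).biUnion fun p _ => (ih p.2).image fun b => (Fin.cons p.1 b : Fin (h + 2) → S)).subset ?_
    intro a ha
    obtain ⟨y, hy⟩ := pr_coe (Fin.tail a)
    have e : pr a = x := ha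
    rw [pr_succ, hy, ← WithOne.coe_mul, WithOne.coe_inj] at e
    exact Set.mem_biUnion (x := (a 0, y)) e ⟨Fin.tail a, hy, Fin.cons_self_tail a⟩

theorem inf_facs (y : S) (hy : {p : S × S | p.1 * p.2 = y}.Infinite) (h : ℕ) :
    ∃ x : S, (facs (h + 2) x).Infinite := by
  induction h with
  | zero =>
    refine ⟨y, (hy.image (f := fun p => ![p.1, p.2]) fun p _ q _ e => ?_).mono ?_⟩
    · exact Prod.ext (congrFun e 0) (congrFun e 1)
    · rintro _ ⟨p, hp, rfl⟩
      have : p.1 * p.2 = y := hp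
      simp [facs, pr, ← this]
  | succ h ih =>
    obtain ⟨x, hx⟩ := ih
    refine ⟨y * x, (hx.image (f := fun b => (Fin.cons y b : Fin (h + 3) → S))
      fun p _ q _ e => ?_).mono ?_⟩
    · simpa using congrArg Fin.tail e
    · rintro _ ⟨b, hb, rfl⟩
      have e : pr b = x := hb
      show pr _ = _
      rw [pr_succ]
      simp [e]

theorem prop1_iff : Prop1 S ↔ ∃ y : S, {p : S × S | p.1 * p.2 = y}.Infinite := by
  constructor
  · rintro ⟨h₀, h1, H⟩
    by_contra hc
    push Not at hc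
    obtain ⟨x, hx⟩ := H h₀ le_rfl
    obtain ⟨m, rfl⟩ : ∃ m, h₀ = m + 1 := ⟨h₀ - 1, by omega⟩
    exact hx (fin_facs hc m x)
  · rintro ⟨y, hy⟩
    refine ⟨2, by norm_num, fun h hh => ?_⟩
    obtain ⟨m, rfl⟩ : ∃ m, h = m + 2 := ⟨h - 2, by omega⟩
    exact inf_facs y hy m

end Pool.Agent.H60.SF
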