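import Pool.Agent.H60.SFa

set_option autoImplicit false

namespace Pool.Agent.H60.SF

variable {S : Type} [Semigroup S]

theorem pr_snoc {h : ℕ} (a : Fin (h + 1) → S) :
    pr a = pr (Fin.init a) * (a (Fin.last h) : WithOne S) := by
  rw [pr, List.ofFn_succ', List.prod_concat]; rfl

theorem pw_cons {C : Set S} {c y : S} {m : ℕ} (hc : c ∈ C) (hy : y ∈ pw C m) :
    c * y ∈ pw C (m + 1) := by
  obtain ⟨a, ha, e⟩ := hy
  refine ⟨Fin.cons c a, fun i => Fin.cases hc ha i, ?_⟩
  rw [pr_succ]; simp [e]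

theorem pw_snoc {C : Set S} {c y : S} {m : ℕ} (hc : c ∈ C) (hy : y ∈ pw C m) :
    y * c ∈ pw C (m + 1) := by
  obtain ⟨a, ha, e⟩ := hy
  refine ⟨Fin.snoc a c, fun i => Fin.lastCases (by simpa using hc) (fun j => by simpa using ha j) i,
    ?_⟩
  rw [pr_snoc]; simp [e]

theorem pump {C : Set S} {c : S} (hc : c ∈ C) (h3 : c * (c * c) = c * c) (m : ℕ) :
    c * c ∈ pw C (m + 2) := by
  induction m with
  | zero => exact ⟨![c, c], fun i => by fin_cases i <;> exact hc, by simp [pr]⟩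
  | succ m ih => rw [← h3]; exact pw_cons hc ih

theorem sub1 (u : ℕ → S) : ∃ φ : ℕ → ℕ, Function.Injective φ ∧
    ((∃ y, ∀ k, u (φ k) = y) ∨ Function.Injective fun k => u (φ k)) := by
  obtain ⟨φ, hφ, H⟩ := subseq (fun k (_ : Fin 1) => u k) Finset.univ
  exact ⟨φ, hφ.injective, (H 0 (Finset.mem_univ _)).imp_left fun h => ⟨_, h⟩⟩

section
variable (c1 : ∀ (x : S) (a b : ℕ → S), Function.Injective a → Function.Injective b →
    ¬ ∀ k, a k * b k = x)
  (c2 : ∀ a x : S, {b | a * b = x}.Infinite → x = a * a)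
  (c3 : ∀ a x : S, {b | b * a = x}.Infinite → x = a * a)

include c1 c2 in
theorem left_case {a x : S} {b : ℕ → S} (hb : Function.Injective b) (e : ∀ k, a * b k = x) :
    x = a * a ∧ a * (a * a) = a * a := by
  have h1 := c2 a x (Set.infinite_of_injective_forall_mem hb e)
  refine ⟨h1, ?_⟩
  obtain ⟨φ, hφ, ⟨y, hy⟩ | H⟩ := sub1 fun k => b k * b k
  · exact absurd hy (c1 y _ _ (hb.comp hφ) (hb.comp hφ))
  · refine c2 a _ (Set.infinite_of_injective_forall_mem H fun k => ?_)
    show a * (b (φ k) * b (φ k)) = _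
    rw [← mul_assoc, e, h1, mul_assoc, e, h1]

include c1 c3 in
theorem right_case {a x : S} {b : ℕ → S} (hb : Function.Injective b) (e : ∀ k, b k * a = x) :
    x = a * a ∧ a * (a * a) = a * a := by
  have h1 := c3 a x (Set.infinite_of_injective_forall_mem hb e)
  refine ⟨h1, ?_⟩
  obtain ⟨φ, hφ, ⟨y, hy⟩ | H⟩ := sub1 fun k => b k * b k
  · exact absurd hy (c1 y _ _ (hb.comp hφ) (hb.comp hφ))
  · refine c3 a _ (Set.infinite_of_injective_forall_mem H fun k => ?_)
    show (b (φ k) * b (φ k)) * a = _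
    rw [mul_assoc, e, h1, ← mul_assoc, e, h1, mul_assoc]

include c1 c2 in
theorem idem_last (n : ℕ) (y : S) (t : ℕ → Fin (n + 1) → S) (ht : ∀ k, pr (t k) = y)
    (hi : Function.Injective fun k => t k (Fin.last n)) : y * y = y := by
  cases n with
  | zero =>
    have e : ∀ k, t k 0 = y := fun k => by simpa [pr] using ht k
    exact absurd (hi (show t 0 0 = t 1 0 from (e 0).trans (e 1).symm)) (by norm_num)
  | succ n =>
    choose w hw using fun k => pr_coe (Fin.init (t k))
    have e : ∀ k, w k * t k (Fin.last _) = y := fun k => by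
      have := ht k
      rwa [pr_snoc, hw, ← WithOne.coe_mul, WithOne.coe_inj] at this
    obtain ⟨φ, hφ, ⟨z, hz⟩ | H⟩ := sub1 w
    · obtain ⟨a1, a2⟩ := left_case c1 c2 (a := z) (x := y) (hi.comp hφ) fun k => by
        rw [← hz k]; exact e _
      rw [a1, mul_assoc, a2, a2]
    · exact absurd (fun k => e (φ k)) (c1 y _ _ H (hi.comp hφ))

include c1 c2 c3 in
theorem main (C : Set S) (n : ℕ) : ∀ (x : S) (t : ℕ → Fin (n + 1) → S), (∀ k, pr (t k) = x) →
    (∀ i, (∃ c ∈ C, ∀ k, t k i = c) ∨ Function.Injective fun k => t k i) →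
    (∃ i, Function.Injective fun k => t k i) → ∀ m, n ≤ m → x ∈ pw C (m + 1) := by
  induction n with
  | zero =>
    rintro x t ht - ⟨i, hi⟩
    have e : ∀ k, t k 0 = x := fun k => by simpa [pr] using ht k
    rw [Fin.fin_one_eq_zero i] at hi
    exact absurd (hi (show t 0 0 = t 1 0 from (e 0).trans (e 1).symm)) (by norm_num)
  | succ n ih =>
    rintro x t ht hc ⟨i, hi⟩ m hm
    obtain ⟨m, rfl⟩ : ∃ m', m = m' + 1 := ⟨m - 1, by omega⟩
    choose y hy using fun k => pr_coe (Fin.tail (t k))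
    choose w hw using fun k => pr_coe (Fin.init (t k))
    have ey : ∀ k, t k 0 * y k = x := fun k => by
      have := ht k
      rwa [pr_succ, hy, ← WithOne.coe_mul, WithOne.coe_inj] at this
    have ew : ∀ k, w k * t k (Fin.last _) = x := fun k => by
      have := ht k
      rwa [pr_snoc, hw, ← WithOne.coe_mul, WithOne.coe_inj] at this
    have sub : ∀ φ : ℕ → ℕ, Function.Injective φ → ∀ j, (∃ c ∈ C, ∀ k, t (φ k) j = c) ∨
        Function.Injective fun k => t (φ k) j := fun φ hφ j =>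
      (hc j).imp (fun ⟨c, h1, h2⟩ => ⟨c, h1, fun k => h2 _⟩) fun h => h.comp hφ
    rcases hc 0 with ⟨c, hcC, h0⟩ | h0
    · obtain ⟨φ, hφ, ⟨z, hz⟩ | H⟩ := sub1 y
      · have hx : x = c * z := by rw [← ey (φ 0), h0, hz]
        rw [hx]
        refine pw_cons hcC (ih z (fun k => Fin.tail (t (φ k))) (fun k => by rw [hy, hz])
          (fun j => sub φ hφ j.succ) ?_ m (by omega))
        cases i using Fin.cases with
        | zero => exact absurd (hi (show t 0 0 = t 1 0 from (h0 0).trans (h0 1).symm)) (by norm_num)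
        | succ j => exact ⟨j, hi.comp hφ⟩
      · obtain ⟨a1, a2⟩ := left_case c1 c2 (a := c) (x := x) H fun k => by
          rw [← h0 (φ k)]; exact ey _
        rw [a1]; exact pump hcC a2 m
    rcases hc (Fin.last _) with ⟨c, hcC, h1⟩ | h1
    · obtain ⟨φ, hφ, ⟨z, hz⟩ | H⟩ := sub1 w
      · have hx : x = z * c := by rw [← ew (φ 0), h1, hz]
        rw [hx]
        exact pw_snoc hcC (ih z (fun k => Fin.init (t (φ k))) (fun k => by rw [hw, hz])
          (fun j => sub φ hφ j.castSucc) ⟨0, h0.comp hφ⟩ m (by omega))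
      · obtain ⟨a1, a2⟩ := right_case c1 c3 (a := c) (x := x) H fun k => by
          rw [← h1 (φ k)]; exact ew _
        rw [a1]; exact pump hcC a2 m
    obtain ⟨φ, hφ, ⟨z, hz⟩ | H⟩ := sub1 y
    · obtain ⟨a1, -⟩ := right_case c1 c3 (a := z) (x := x) (h0.comp hφ) fun k => by
        rw [← hz k]; exact ey _
      have p : ∀ k, pr (Fin.tail (t (φ k))) = z := fun k => by rw [hy, hz]
      rw [a1, idem_last c1 c2 n z _ p (h1.comp hφ)]
      exact ih z (fun k => Fin.tail (t (φ k))) p (fun j => sub φ hφ j.succ)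
        ⟨Fin.last n, h1.comp hφ⟩ (m + 1) (by omega)
    · exact absurd (fun k => ey (φ k)) (c1 x _ _ (h0.comp hφ) H)

include c1 c2 c3 in
theorem sun_of_cond : Sunflower S := by
  intro h x t ht hc
  by_cases hall : ∀ i k, t k i = t 0 i
  · exact ⟨t 0, fun i => ⟨i, hall i⟩, ht 0⟩
  push Not at hall
  obtain ⟨i0, k0, hk0⟩ := hall
  have inj0 : Function.Injective fun k => t k i0 := (hc i0).resolve_left fun h => hk0 (h k0)
  obtain ⟨n, rfl⟩ : ∃ n, h = n + 1 := ⟨h - 1, by have := i0.pos; omega⟩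
  exact main c1 c2 c3 {c | ∃ i, ∀ k, t k i = c} n x t ht (fun i => (hc i).imp_left fun e => ⟨t 0 i, ⟨i, e⟩, e⟩)
    ⟨i0, inj0⟩ n le_rfl

end

theorem pw_two {C : Set S} {x : S} (h : x ∈ pw C 2) : ∃ a ∈ C, ∃ b ∈ C, x = a * b := by
  obtain ⟨s, hs, e⟩ := h
  refine ⟨s 0, hs 0, s 1, hs 1, ?_⟩
  have : ((s 0 * s 1 : S) : WithOne S) = x := by simpa [pr] using e
  exact (WithOne.coe_inj.mp this).symm

theorem mem2 {a b x : S} (e : a * b = x) : ![a, b] ∈ facs 2 x := by
  simp [facs, pr, ← e]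

theorem cond1 (hs : Sunflower S) (x : S) (a b : ℕ → S) (ha : Function.Injective a)
    (hb : Function.Injective b) : ¬ ∀ k, a k * b k = x := by
  intro e
  obtain ⟨c, ⟨i, hi⟩, -⟩ := pw_two (hs 2 x (fun k => ![a k, b k]) (fun k => mem2 (e k))
    fun i => Or.inr (by fin_cases i; exacts [ha, hb]))
  have := (hi 0).trans (hi 1).symm
  fin_cases i
  · exact absurd (ha this) (by norm_num)
  · exact absurd (hb this) (by norm_num)

theorem cond2 (hs : Sunflower S) (a x : S) (h : {b | a * b = x}.Infinite) : x = a * a := by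
  let b : ℕ → S := fun k => (h.natEmbedding _ k).1
  have hb : Function.Injective b := fun i j e => (h.natEmbedding _).injective (Subtype.ext e)
  have key : ∀ c ∈ {c | ∃ i, ∀ k, (![a, b k] : Fin 2 → S) i = c}, c = a := by
    rintro c ⟨i, hi⟩
    fin_cases i
    · exact (hi 0).symm
    · exact absurd (hb ((hi 0).trans (hi 1).symm)) (by norm_num)
  obtain ⟨c, hc, d, hd, e⟩ := pw_two (hs 2 x (fun k => ![a, b k])
    (fun k => mem2 (h.natEmbedding _ k).2)
    fun i => by fin_cases i; exacts [Or.inl fun _ => rfl, Or.inr hb])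
  rw [e, key c hc, key d hd]

theorem cond3 (hs : Sunflower S) (a x : S) (h : {b | b * a = x}.Infinite) : x = a * a := by
  let b : ℕ → S := fun k => (h.natEmbedding _ k).1
  have hb : Function.Injective b := fun i j e => (h.natEmbedding _).injective (Subtype.ext e)
  have key : ∀ c ∈ {c | ∃ i, ∀ k, (![b k, a] : Fin 2 → S) i = c}, c = a := by
    rintro c ⟨i, hi⟩
    fin_cases i
    · exact absurd (hb ((hi 0).trans (hi 1).symm)) (by norm_num)
    · exact (hi 0).symm
  obtain ⟨c, hc, d, hd, e⟩ := pw_two (hs 2 x (fun k => ![b k, a])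
    (fun k => mem2 (h.natEmbedding _ k).2)
    fun i => by fin_cases i; exacts [Or.inr hb, Or.inl fun _ => rfl])
  rw [e, key c hc, key d hd]

end Pool.Agent.H60.SF
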