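import Mathlib

set_option autoImplicit false
open Set Filter Topology MeasureTheory
open scoped ENNReal

namespace H60.SM

lemma sub_or_disj {K S : Set ℝ} (hS : IsPreconnected S) (h : ∀ x ∈ S, x ∉ frontier K) :
    S ⊆ K ∨ Disjoint S K := by
  have hcov : S ⊆ interior K ∪ (closure K)ᶜ := by
    intro x hx
    by_cases h1 : x ∈ closure K
    · left
      by_contra h2
      exact h x hx ⟨h1, h2⟩
    · right; exact h1
  have hd : Disjoint (interior K) (closure K)ᶜ :=
    Set.disjoint_left.mpr fun x hx hx' => hx' (subset_closure (interior_subset hx))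
  rcases hS.subset_or_subset isOpen_interior isClosed_closure.isOpen_compl hd hcov with h1 | h1
  · left; exact h1.trans interior_subset
  · right; exact Set.disjoint_left.mpr fun x hx hxK => h1 hx (subset_closure hxK)

lemma oneD_aux (K : Set ℝ) (hK : MeasurableSet K) (lo : ℝ) (hlo : ∀ x ∈ K, lo ≤ x) (f f' : ℝ → ℝ)
    (hf : ∀ a b, ∫ x in a..b, f' x = f b - f a) (hi : IntegrableOn f' K) (N : Finset ℝ) :
    ∀ b, (∀ n ∈ N, n ≤ b) → (∀ x ∈ frontier K, x < b → x ∈ N) →
      ∃ σ : ℝ, (σ = 0 ∨ (σ = 1 ∧ b ∈ closure K)) ∧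
        |(∫ x in K ∩ Iic b, f' x) - σ * f b| ≤ ∑ n ∈ N, |f n| := by
  classical
  induction N using Finset.induction_on_max with
  | empty =>
    intro b _ hfr
    refine ⟨0, Or.inl rfl, ?_⟩
    have hd : Disjoint (Iio b) K := by
      rcases sub_or_disj (K := K) (S := Iio b) isPreconnected_Iio
        (fun x hx hx' => by simpa using hfr x hx' hx) with h | h
      · exfalso
        have h1 : min b lo - 1 ∈ Iio b := by
          show min b lo - 1 < b
          linarith [min_le_left b lo]
        have := hlo _ (h h1)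
        linarith [min_le_right b lo]
      · exact h
    have hsub : K ∩ Iic b ⊆ {b} := by
      rintro x ⟨hxK, hxb⟩
      by_contra hne
      exact Set.disjoint_left.mp hd (lt_of_le_of_ne hxb hne) hxK
    have h0 : volume (K ∩ Iic b) = 0 := measure_mono_null hsub (by simp)
    rw [setIntegral_measure_zero _ h0]; simp
  | insert m N' hm ih =>
    intro b hb hfr
    have hmb : m ≤ b := hb m (Finset.mem_insert_self _ _)
    have hmN : m ∉ N' := fun h => lt_irrefl _ (hm m h)
    obtain ⟨σ, hσ, hbd⟩ := ih m (fun n hn => (hm n hn).le) (fun x hx hxm => by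
      have := hfr x hx (lt_of_lt_of_le hxm hmb)
      rcases Finset.mem_insert.mp this with h | h
      · exact absurd h (ne_of_lt hxm)
      · exact h)
    rw [Finset.sum_insert hmN]
    have hsplit : ∫ x in K ∩ Iic b, f' x = (∫ x in K ∩ Iic m, f' x) + ∫ x in K ∩ Ioc m b, f' x := by
      rw [← setIntegral_union]
      · congr 2
        rw [← inter_union_distrib_left, Iic_union_Ioc_eq_Iic hmb]
      · exact Set.disjoint_left.mpr fun x hx hx' => absurd hx.2 (not_le.mpr hx'.2.1)
      · exact hK.inter measurableSet_Ioc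
      · exact hi.mono_set inter_subset_left
      · exact hi.mono_set inter_subset_left
    have hσ' : σ = 0 ∨ σ = 1 := hσ.imp id fun h => h.1
    have hnf : ∀ x ∈ Ioo m b, x ∉ frontier K := by
      intro x hx hx'
      rcases Finset.mem_insert.mp (hfr x hx' hx.2) with h | h
      · exact absurd h (ne_of_gt hx.1)
      · exact absurd (hm x h) (not_lt.mpr hx.1.le)
    by_cases hc : m < b ∧ Ioo m b ⊆ K
    · refine ⟨1, Or.inr ⟨rfl, ?_⟩, ?_⟩
      · have : b ∈ closure (Ioo m b) := by
          rw [closure_Ioo (ne_of_lt hc.1)]; exact ⟨hc.1.le, le_rfl⟩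
        exact closure_mono hc.2 this
      · have h1 : ∫ x in K ∩ Ioc m b, f' x = f b - f m := by
          rw [← hf m b, intervalIntegral.integral_of_le hmb]
          apply setIntegral_congr_set
          have e1 : (K ∩ Ioc m b : Set ℝ) =ᵐ[volume] (K ∩ Ioo m b : Set ℝ) :=
            (ae_eq_refl K).inter Ioo_ae_eq_Ioc.symm
          rw [inter_eq_right.mpr hc.2] at e1
          exact e1.trans Ioo_ae_eq_Ioc
        rw [hsplit, h1]
        rw [abs_le] at hbd ⊢
        rcases hσ' with h | h <;> rw [h] at hbd <;>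
          constructor <;> nlinarith [hbd.1, hbd.2, le_abs_self (f m), neg_abs_le (f m), abs_nonneg (f m)]
    · refine ⟨0, Or.inl rfl, ?_⟩
      have hd : Disjoint (Ioo m b) K := by
        rcases sub_or_disj (K := K) (S := Ioo m b) isPreconnected_Ioo hnf with h | h
        · have : ¬ m < b := fun h' => hc ⟨h', h⟩
          rw [Ioo_eq_empty this]; exact empty_disjoint _
        · exact h
      have hsub : K ∩ Ioc m b ⊆ {b} := by
        rintro x ⟨hxK, hx1, hx2⟩
        by_contra hne
        exact Set.disjoint_left.mp hd ⟨hx1, lt_of_le_of_ne hx2 hne⟩ hxK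
      have h0 : volume (K ∩ Ioc m b) = 0 := measure_mono_null hsub (by simp)
      rw [hsplit, setIntegral_measure_zero _ h0]
      rw [abs_le] at hbd ⊢
      rcases hσ' with h | h <;> rw [h] at hbd <;>
        constructor <;> nlinarith [hbd.1, hbd.2, le_abs_self (f m), neg_abs_le (f m), abs_nonneg (f m)]

lemma oneD (K : Set ℝ) (hK : IsCompact K) (f f' : ℝ → ℝ)
    (hf : ∀ a b, ∫ x in a..b, f' x = f b - f a) (hi : IntegrableOn f' K) (N : Finset ℝ)
    (hN : frontier K ⊆ N) : |∫ x in K, f' x| ≤ ∑ n ∈ N, |f n| := by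
  obtain ⟨lo, hlo⟩ := hK.bddBelow
  obtain ⟨hi1, hhi1⟩ := hK.bddAbove
  obtain ⟨hi2, hhi2⟩ := N.finite_toSet.bddAbove
  obtain ⟨σ, hσ, hbd⟩ := oneD_aux K hK.measurableSet lo (fun x hx => hlo hx) f f' hf hi N
    (max hi1 hi2 + 1) (fun n hn => by
      have := hhi2 (Finset.mem_coe.mpr hn); linarith [le_max_right hi1 hi2])
    (fun x hx _ => hN hx)
  have hσ0 : σ = 0 := by
    rcases hσ with h | ⟨_, h⟩
    · exact h
    · rw [hK.isClosed.closure_eq] at h
      have := hhi1 h
      linarith [le_max_left hi1 hi2]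
  have : K ∩ Iic (max hi1 hi2 + 1) = K := inter_eq_left.mpr fun x hx => by
    have := hhi1 hx
    show x ≤ _
    linarith [le_max_left hi1 hi2]
  rw [this, hσ0] at hbd
  simpa using hbd

/-- Eilenberg's inequality for a 1-Lipschitz function, with a measurable majorant. -/
lemma eil {X : Type} [MetricSpace X] [MeasurableSpace X] [BorelSpace X] (π ρ : X → ℝ)
    (hπ : LipschitzWith 1 π) (hρ : Measurable ρ) (F : Set X) (hF : MeasurableSet F)
    (g : X → ℝ≥0∞) (hg : Measurable g) :
    ∃ h : ℝ → ℝ≥0∞, Measurable h ∧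
      (∀ t, ∀ N : Finset X, (∀ z ∈ N, z ∈ F ∧ π z = t) → Set.InjOn ρ N → ∑ z ∈ N, g z ≤ h t) ∧
      ∫⁻ t, h t ≤ ∫⁻ z in F, g z ∂μH[1] := by
  classical
  refine Measurable.ennreal_induction (motive := fun g => ∃ h : ℝ → ℝ≥0∞, Measurable h ∧
      (∀ t, ∀ N : Finset X, (∀ z ∈ N, z ∈ F ∧ π z = t) → Set.InjOn ρ N → ∑ z ∈ N, g z ≤ h t) ∧
      ∫⁻ t, h t ≤ ∫⁻ z in F, g z ∂μH[1]) ?_ ?_ ?_ hg
  · intro c A hA
    set B : ℕ → ℤ → Set X := fun n k => (A ∩ F) ∩ {z | ⌊(n : ℝ) * ρ z⌋ = k} with hB
    have hBm : ∀ n k, MeasurableSet (B n k) := fun n k =>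
      (hA.inter hF).inter ((Int.measurable_floor.comp (hρ.const_mul _)) (measurableSet_singleton k))
    set T : ℕ → ℤ → Set ℝ := fun n k => toMeasurable volume (π '' B n k) with hT
    set H : ℕ → ℝ → ℝ≥0∞ := fun n t => ∑' k : ℤ, (T n k).indicator (fun _ => c) t with hH
    have hTm : ∀ n k, Measurable ((T n k).indicator (fun _ => c)) := fun n k =>
      measurable_const.indicator (measurableSet_toMeasurable _ _)
    have hHm : ∀ n, Measurable (H n) := fun n => Measurable.ennreal_tsum fun k => hTm n k
    refine ⟨fun t => liminf (fun n => H n t) atTop, Measurable.liminf hHm, ?_, ?_⟩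
    · intro t N hN hinj
      have hev : ∀ᶠ n : ℕ in atTop, ∀ z ∈ N, ∀ w ∈ N, z ≠ w →
          ⌊(n : ℝ) * ρ z⌋ ≠ ⌊(n : ℝ) * ρ w⌋ := by
        rw [Filter.eventually_all_finset]
        intro z hz
        rw [Filter.eventually_all_finset]
        intro w hw
        by_cases hzw : z = w
        · exact Eventually.of_forall fun n h => absurd hzw h
        have hne : ρ z ≠ ρ w := fun h => hzw (hinj hz hw h)
        have hpos : 0 < |ρ z - ρ w| := abs_pos.mpr (sub_ne_zero.mpr hne)
        obtain ⟨n0, hn0⟩ := exists_nat_ge (1 / |ρ z - ρ w|)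
        filter_upwards [eventually_ge_atTop n0] with n hn _ heq
        have h1 := Int.abs_sub_lt_one_of_floor_eq_floor heq
        rw [← mul_sub, abs_mul, abs_of_nonneg (Nat.cast_nonneg n)] at h1
        have h2 : (n0 : ℝ) ≤ n := by exact_mod_cast hn
        rw [div_le_iff₀ hpos] at hn0
        nlinarith
      refine le_liminf_of_le (by isBoundedDefault) ?_
      filter_upwards [hev] with n hn
      calc ∑ z ∈ N, A.indicator (fun _ => c) z
          ≤ ∑ z ∈ N, (T n ⌊(n : ℝ) * ρ z⌋).indicator (fun _ => c) t := by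
            refine Finset.sum_le_sum fun z hz => ?_
            by_cases hzA : z ∈ A
            · have : t ∈ T n ⌊(n : ℝ) * ρ z⌋ :=
                subset_toMeasurable _ _ ⟨z, ⟨⟨hzA, (hN z hz).1⟩, rfl⟩, (hN z hz).2⟩
              rw [indicator_of_mem hzA, indicator_of_mem this]
            · rw [indicator_of_notMem hzA]; exact zero_le
        _ = ∑ k ∈ N.image (fun z => ⌊(n : ℝ) * ρ z⌋), (T n k).indicator (fun _ => c) t := by
            rw [Finset.sum_image]
            intro z hz w hw h
            by_contra hne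
            exact hn z hz w hw hne h
        _ ≤ H n t := ENNReal.sum_le_tsum _
    · refine (lintegral_liminf_le hHm).trans ?_
      refine liminf_le_of_frequently_le' (Eventually.frequently (Eventually.of_forall fun n => ?_))
      rw [lintegral_indicator_const hA, Measure.restrict_apply hA]
      simp only [hH]
      rw [lintegral_tsum fun k => (hTm n k).aemeasurable]
      have h1 : ∀ k, ∫⁻ t, (T n k).indicator (fun _ => c) t ≤ c * μH[1] (B n k) := by
        intro k
        rw [lintegral_indicator_const (measurableSet_toMeasurable _ _), measure_toMeasurable]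
        have := hπ.hausdorffMeasure_image_le (d := 1) zero_le_one (B n k)
        rw [hausdorffMeasure_real] at this
        simp only [ENNReal.coe_one, ENNReal.one_rpow, one_mul] at this
        gcongr
      refine (ENNReal.tsum_le_tsum h1).trans ?_
      rw [ENNReal.tsum_mul_left, ← measure_iUnion _ (hBm n)]
      · gcongr
        exact iUnion_subset fun k => inter_subset_left
      · intro k l hkl
        exact Set.disjoint_left.mpr fun z hz hz' => hkl (hz.2.symm.trans hz'.2)
  · rintro g1 g2 _ hg1 hg2 ⟨h1, hm1, hs1, hi1⟩ ⟨h2, hm2, hs2, hi2⟩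
    refine ⟨h1 + h2, hm1.add hm2, fun t N hN hinj => ?_, ?_⟩
    · simp only [Pi.add_apply, Finset.sum_add_distrib]
      exact add_le_add (hs1 t N hN hinj) (hs2 t N hN hinj)
    · simp only [Pi.add_apply]
      rw [lintegral_add_left hm1, lintegral_add_left hg1]
      exact add_le_add hi1 hi2
  · intro G hGm hGmono hG
    choose h hm hs hi using hG
    refine ⟨fun t => liminf (fun n => h n t) atTop, Measurable.liminf hm, ?_, ?_⟩
    · intro t N hN hinj
      have ht : Tendsto (fun n => ∑ z ∈ N, G n z) atTop (𝓝 (∑ z ∈ N, ⨆ n, G n z)) :=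
        tendsto_finset_sum _ fun z _ => tendsto_atTop_iSup fun a b hab => hGmono hab z
      rw [← ht.liminf_eq]
      exact liminf_le_liminf (Eventually.of_forall fun n => hs n t N hN hinj)
    · refine (lintegral_liminf_le hm).trans ?_
      refine liminf_le_of_frequently_le' (Eventually.frequently (Eventually.of_forall fun n => ?_))
      exact (hi n).trans (lintegral_mono fun z => le_iSup (fun n => G n z) n)

end H60.SM
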