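import Pool.Agent.H60.SMa

set_option autoImplicit false
open Set Filter Topology MeasureTheory
open scoped ENNReal

namespace H60.SM

abbrev E2 := EuclideanSpace ℝ (Fin 2)

noncomputable def pt (p : ℝ × ℝ) : E2 := !₂[p.1, p.2]

@[simp] lemma pt0 (p : ℝ × ℝ) : pt p 0 = p.1 := rfl
@[simp] lemma pt1 (p : ℝ × ℝ) : pt p 1 = p.2 := rfl

lemma pt_cont : Continuous pt := by
  unfold pt
  refine (PiLp.continuous_toLp 2 _).comp ?_
  refine continuous_pi fun i => ?_
  fin_cases i
  · exact continuous_fst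
  · exact continuous_snd

lemma pt_mp : MeasurePreserving pt (volume : Measure (ℝ × ℝ)) volume := by
  have h1 := (volume_preserving_finTwoArrow ℝ).symm
  have h2 := PiLp.volume_preserving_toLp (Fin 2)
  have h3 := h2.comp h1
  have e : pt = WithLp.toLp 2 ∘ ⇑(MeasurableEquiv.finTwoArrow (α := ℝ)).symm := by
    funext p; ext i; fin_cases i <;> rfl
  rw [e]; exact h3

noncomputable def e0 : E2 := EuclideanSpace.single 0 1
noncomputable def e1 : E2 := EuclideanSpace.single 1 1

@[simp] lemma e00 : e0 0 = 1 := by simp [e0]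
@[simp] lemma e01 : e0 1 = 0 := by simp [e0]
@[simp] lemma e10 : e1 0 = 0 := by simp [e1]
@[simp] lemma e11 : e1 1 = 1 := by simp [e1]
lemma e0_norm : ‖e0‖ = 1 := by simp [e0]
lemma e1_norm : ‖e1‖ = 1 := by simp [e1]

lemma ext2 {z w : E2} (h0 : z 0 = w 0) (h1 : z 1 = w 1) : z = w := by
  ext i; fin_cases i
  · exact h0
  · exact h1

def Reg (v : E2) (φ D : E2 → ℝ) : Prop :=
  ∀ (z : E2) (a b : ℝ), IntervalIntegrable (fun s => D (z + s • v)) volume a b ∧
    ∫ s in a..b, D (z + s • v) = φ (z + b • v) - φ (z + a • v)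

lemma Reg.sub {v : E2} {φ D φ' D' : E2 → ℝ} (h : Reg v φ D) (h' : Reg v φ' D') :
    Reg v (fun z => φ z - φ' z) (fun z => D z - D' z) := by
  intro z a b
  refine ⟨(h z a b).1.sub (h' z a b).1, ?_⟩
  rw [intervalIntegral.integral_sub (h z a b).1 (h' z a b).1, (h z a b).2, (h' z a b).2]; ring

lemma cont_fderiv {ψ : E2 → ℝ} (hψ : ContDiff ℝ 1 ψ) (v : E2) :
    Continuous fun z => fderiv ℝ ψ z v :=
  (hψ.continuous_fderiv one_ne_zero).clm_apply continuous_const

lemma Reg.of_contDiff {ψ : E2 → ℝ} (hψ : ContDiff ℝ 1 ψ) (v : E2) :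
    Reg v ψ (fun z => fderiv ℝ ψ z v) := by
  intro z a b
  have hc : Continuous fun s : ℝ => fderiv ℝ ψ (z + s • v) v :=
    (cont_fderiv hψ v).comp (by fun_prop)
  refine ⟨hc.intervalIntegrable _ _, ?_⟩
  refine intervalIntegral.integral_eq_sub_of_hasDerivAt (f := fun s => ψ (z + s • v))
    (fun s _ => ?_) (hc.intervalIntegrable _ _)
  have h1 : HasDerivAt (fun s : ℝ => z + s • v) v s := by
    simpa using ((hasDerivAt_id s).smul_const v).const_add z
  exact ((hψ.differentiable one_ne_zero) _).hasFDerivAt.comp_hasDerivAt s h1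

lemma dir (v : E2) (hv : ‖v‖ = 1) (K : Set E2) (hK : IsCompact K)
    (hfin : μH[1] (frontier K) ≠ ⊤) (φ D : E2 → ℝ) (hφ : Measurable φ)
    (hD : IntegrableOn D K) (hreg : Reg v φ D) :
    ‖∫ z in K, D z‖ₑ ≤ ∫⁻ z in frontier K, ‖φ z‖ₑ ∂μH[1] := by
  classical
  set L : E2 ≃ₗᵢ[ℝ] E2 := Submodule.reflection (ℝ ∙ (e0 - v))ᗮ with hL
  have hLe : L e0 = v := Submodule.reflection_sub (e0_norm.trans hv.symm)
  set Φ : ℝ × ℝ → E2 := fun p => L (pt p) with hΦ
  have hΦc : Continuous Φ := L.continuous.comp pt_cont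
  have hΦm : MeasurePreserving Φ volume volume := L.measurePreserving.comp pt_mp
  have hΦs : ∀ s t, Φ (s, t) = Φ (0, t) + s • v := by
    intro s t
    simp only [hΦ]
    rw [← hLe, ← map_smul, ← map_add]
    congr 1
    apply ext2 <;> simp
  set π : E2 → ℝ := fun z => L.symm z 1 with hπ
  set ρ : E2 → ℝ := fun z => L.symm z 0 with hρ
  have hπΦ : ∀ s t, π (Φ (s, t)) = t := fun s t => by simp [hπ, hΦ]
  have hρΦ : ∀ s t, ρ (Φ (s, t)) = s := fun s t => by simp [hρ, hΦ]
  have hπL : LipschitzWith 1 π := by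
    refine LipschitzWith.of_dist_le_mul fun z w => ?_
    rw [NNReal.coe_one, one_mul, ← L.symm.dist_map z w]
    exact PiLp.dist_apply_le _ _ 1
  have hρm : Measurable ρ := by
    have : Continuous ρ := by simp only [hρ]; fun_prop
    exact this.measurable
  have hFm : MeasurableSet (frontier K) := isClosed_frontier.measurableSet
  obtain ⟨h, hm, hs, hi⟩ := eil π ρ hπL hρm _ hFm (fun z => ‖φ z‖ₑ) hφ.enorm
  obtain ⟨h1, hm1, hs1, hi1⟩ := eil π ρ hπL hρm _ hFm (fun _ => 1) measurable_const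
  have hfin1 : ∀ᵐ t, h1 t < ⊤ := by
    refine ae_lt_top hm1 (ne_top_of_le_ne_top ?_ hi1)
    simpa using hfin
  set G : ℝ × ℝ → ℝ := fun p => K.indicator D (Φ p) with hG
  have hGi : Integrable G (volume.prod volume) := by
    have : Integrable (K.indicator D) volume := (integrable_indicator_iff hK.measurableSet).mpr hD
    exact hΦm.integrable_comp_of_integrable this
  have hemb : MeasurableEmbedding Φ := by
    have hinj : Function.Injective Φ := by
      rintro ⟨s, t⟩ ⟨s', t'⟩ hh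
      have a1 := congrArg π hh
      have a2 := congrArg ρ hh
      rw [hπΦ, hπΦ] at a1
      rw [hρΦ, hρΦ] at a2
      rw [a1, a2]
    exact hΦc.measurableEmbedding hinj
  have e1' : ∫ z in K, D z = ∫ t, ∫ s, G (s, t) := by
    rw [← integral_indicator hK.measurableSet, ← hΦm.integral_comp hemb, ← integral_prod_symm G hGi]
    rfl
  rw [e1']
  refine (enorm_integral_le_lintegral_enorm _).trans (le_trans (lintegral_mono_ae ?_) hi)
  filter_upwards [hfin1, hGi.prod_left_ae] with t ht hint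
  set Kt : Set ℝ := (fun s => Φ (s, t)) ⁻¹' K with hKt
  have hc : Continuous fun s => Φ (s, t) := hΦc.comp (by fun_prop)
  have hinjs : Function.Injective fun s => Φ (s, t) := by
    intro s s' hh
    have a2 := congrArg ρ hh
    simpa only [hρΦ] using a2
  have hKtc : IsCompact Kt := by
    have hsub : Kt ⊆ ρ '' K := fun s hs => ⟨_, hs, hρΦ s t⟩
    have hρc : Continuous ρ := by simp only [hρ]; fun_prop
    exact (hK.image hρc).of_isClosed_subset (hK.isClosed.preimage hc) hsub
  have hkey : ∀ (g : E2 → ℝ≥0∞) (H : ℝ → ℝ≥0∞),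
      (∀ t, ∀ N : Finset E2, (∀ z ∈ N, z ∈ frontier K ∧ π z = t) → Set.InjOn ρ N →
        ∑ z ∈ N, g z ≤ H t) → ∀ M : Finset ℝ, (∀ s ∈ M, Φ (s, t) ∈ frontier K) →
        ∑ s ∈ M, g (Φ (s, t)) ≤ H t := by
    intro g H hH M hM
    have := hH t (M.image fun s => Φ (s, t)) (fun z hz => by
      obtain ⟨s, hs, rfl⟩ := Finset.mem_image.mp hz
      exact ⟨hM s hs, hπΦ s t⟩) (by
      intro z hz w hw hzw
      obtain ⟨s, hs, rfl⟩ := Finset.mem_image.mp (Finset.mem_coe.mp hz)
      obtain ⟨s', hs', rfl⟩ := Finset.mem_image.mp (Finset.mem_coe.mp hw)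
      rw [hρΦ, hρΦ] at hzw
      rw [hzw])
    rwa [Finset.sum_image fun a _ b _ hab => hinjs hab] at this
  have hfinite : ((fun s => Φ (s, t)) ⁻¹' frontier K).Finite := by
    by_contra hinf
    obtain ⟨n, hn⟩ := ENNReal.exists_nat_gt ht.ne
    obtain ⟨M, hM, hcard⟩ := Set.Infinite.exists_subset_card_eq hinf n
    have := hkey (fun _ => 1) h1 hs1 M (fun s hs => hM hs)
    simp only [Finset.sum_const, hcard, nsmul_eq_mul, mul_one] at this
    exact absurd this (not_le.mpr hn)
  have hiK : IntegrableOn (fun s => D (Φ (s, t))) Kt := by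
    rw [← integrable_indicator_iff hKtc.measurableSet]
    exact hint
  have h2 := oneD Kt hKtc (fun s => φ (Φ (s, t))) (fun s => D (Φ (s, t)))
    (fun a b => by
      have := (hreg (Φ (0, t)) a b).2
      simp only [← hΦs] at this
      exact this) hiK hfinite.toFinset (by
      intro s hs
      have := hc.frontier_preimage_subset K hs
      simpa using this)
  have h3 : ∫ s, G (s, t) = ∫ s in Kt, D (Φ (s, t)) := by
    rw [← integral_indicator hKtc.measurableSet]; rfl
  rw [h3]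
  refine le_trans ?_ (hkey (fun z => ‖φ z‖ₑ) h hs hfinite.toFinset (fun s hs => by simpa using hs))
  rw [← ofReal_norm_eq_enorm, Real.norm_eq_abs]
  refine (ENNReal.ofReal_le_ofReal h2).trans ?_
  rw [ENNReal.ofReal_sum_of_nonneg fun _ _ => abs_nonneg _]
  refine le_of_eq (Finset.sum_congr rfl fun s _ => ?_)
  rw [← ofReal_norm_eq_enorm, Real.norm_eq_abs]

lemma dirR (v : E2) (hv : ‖v‖ = 1) (K : Set E2) (hK : IsCompact K)
    (hfin : μH[1] (frontier K) ≠ ⊤) (φ D : E2 → ℝ) (hφ : Measurable φ)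
    (hφi : Integrable φ ((μH[1] : Measure E2).restrict (frontier K)))
    (hD : IntegrableOn D K) (hreg : Reg v φ D) :
    ∫ z in K, D z ≤ ∫ z in frontier K, |φ z| ∂μH[1] := by
  have h := dir v hv K hK hfin φ D hφ hD hreg
  rw [← ofReal_integral_norm_eq_lintegral_enorm hφi, ← ofReal_norm_eq_enorm,
    ENNReal.ofReal_le_ofReal_iff (integral_nonneg fun _ => norm_nonneg _)] at h
  exact (le_abs_self _).trans h

end H60.SM
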