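import Pool.Agent.H60.SMb

set_option autoImplicit false
open Set Filter Topology MeasureTheory
open scoped ENNReal

namespace H60.SM

lemma int_cont (K : Set E2) (hK : IsCompact K) (hfin : μH[1] (frontier K) ≠ ⊤) (ψ : E2 → ℝ)
    (hψ : Continuous ψ) : Integrable ψ ((μH[1] : Measure E2).restrict (frontier K)) := by
  have hF : IsCompact (frontier K) :=
    hK.of_isClosed_subset isClosed_frontier hK.isClosed.frontier_subset
  obtain ⟨C, hC⟩ := hF.exists_bound_of_continuousOn hψ.continuousOn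
  exact IntegrableOn.of_bound hfin.lt_top hψ.aestronglyMeasurable C
    ((ae_restrict_iff' isClosed_frontier.measurableSet).mpr (Eventually.of_forall hC))

lemma coord_le (z : E2) (i : Fin 2) : |z i| ≤ ‖z‖ := by
  simpa using PiLp.norm_apply_le z i

lemma int_coord {μ : Measure E2} {Y : E2 → E2} (hY : Integrable Y μ) (i : Fin 2) :
    Integrable (fun z => Y z i) μ :=
  (EuclideanSpace.proj i : E2 →L[ℝ] ℝ).integrable_comp hY

def PP (K : Set E2) (Y : E2 → E2) : Prop :=
  ∀ ε > 0, ∃ Z0 Z1 : E2 → ℝ, ContDiff ℝ 1 Z0 ∧ ContDiff ℝ 1 Z1 ∧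
    ∫ z in frontier K, |Y z 0 - Z0 z| ∂μH[1] ≤ ε ∧ ∫ z in frontier K, |Y z 1 - Z1 z| ∂μH[1] ≤ ε ∧
    ∫ z in K, (fderiv ℝ Z0 z e0 + fderiv ℝ Z1 z e1) ≤ (∫ z in frontier K, ‖Y z‖ ∂μH[1]) + ε

lemma smooth_dir (K : Set E2) (hK : IsCompact K) (hfin : μH[1] (frontier K) ≠ ⊤) (ψ : E2 → ℝ)
    (hψ : ContDiff ℝ 1 ψ) (c : E2) :
    ∫ z in K, fderiv ℝ ψ z c ≤ ‖c‖ * ∫ z in frontier K, |ψ z| ∂μH[1] := by
  by_cases hc : c = 0
  · simp [hc]
  have hn : 0 < ‖c‖ := norm_pos_iff.mpr hc
  set v : E2 := ‖c‖⁻¹ • c with hv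
  have hv1 : ‖v‖ = 1 := by rw [hv, norm_smul, norm_inv, norm_norm, inv_mul_cancel₀ hn.ne']
  have hcv : c = ‖c‖ • v := by rw [hv, smul_smul, mul_inv_cancel₀ hn.ne', one_smul]
  have h := dirR v hv1 K hK hfin ψ _ hψ.continuous.measurable (int_cont K hK hfin ψ hψ.continuous)
    ((cont_fderiv hψ v).continuousOn.integrableOn_compact hK) (Reg.of_contDiff hψ v)
  have : ∫ z in K, fderiv ℝ ψ z c = ‖c‖ * ∫ z in K, fderiv ℝ ψ z v := by
    rw [← integral_const_mul]
    congr 1; funext z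
    conv_lhs => rw [hcv, map_smul, smul_eq_mul]
  rw [this]
  exact mul_le_mul_of_nonneg_left h hn.le

lemma PP_all (K : Set E2) (hK : IsCompact K) (hfin : μH[1] (frontier K) ≠ ⊤) (Y : E2 → E2)
    (hY : Integrable Y ((μH[1] : Measure E2).restrict (frontier K))) : PP K Y := by
  set μ : Measure E2 := (μH[1] : Measure E2).restrict (frontier K) with hμ
  haveI : IsFiniteMeasure μ := isFiniteMeasure_restrict.mpr hfin
  refine Integrable.induction (μ := μ) (PP K) ?_ ?_ ?_ ?_ hY
  · intro c A hA _ ε hε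
    set δ : ℝ := ε / (‖c‖ + 1) with hδ
    have hδ0 : 0 < δ := by positivity
    have hδc : ‖c‖ * δ ≤ ε := by
      rw [hδ, mul_div_assoc', div_le_iff₀ (by positivity)]; nlinarith [norm_nonneg c]
    set χ : E2 → ℝ := A.indicator fun _ => 1 with hχ
    have hχi : Integrable χ μ := (integrable_const (1 : ℝ)).indicator hA
    obtain ⟨ψ, _, hψ, hle⟩ := (memLp_one_iff_integrable.mpr hχi).exist_eLpNorm_sub_le
      ENNReal.one_ne_top le_rfl hδ0
    have hψ1 : ContDiff ℝ 1 ψ := hψ.of_le (by exact_mod_cast le_top)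
    have hψi : Integrable ψ μ := int_cont K hK hfin ψ hψ1.continuous
    have hle' : ∫ z, |χ z - ψ z| ∂μ ≤ δ := by
      rw [eLpNorm_one_eq_lintegral_enorm, ← ofReal_integral_norm_eq_lintegral_enorm (hχi.sub hψi),
        ENNReal.ofReal_le_ofReal_iff hδ0.le] at hle
      exact hle
    have hY : ∀ z i, (A.indicator (fun _ => c) z) i = c i * χ z := by
      intro z i
      by_cases hz : z ∈ A <;> simp [hχ, hz]
    have hYn : ∀ z, ‖A.indicator (fun _ => c) z‖ = ‖c‖ * |χ z| := by
      intro z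
      by_cases hz : z ∈ A <;> simp [hχ, hz]
    have hco : ∀ i, ∫ z, |(A.indicator (fun _ => c) z) i - c i * ψ z| ∂μ ≤ ε := by
      intro i
      simp only [hY, ← mul_sub, abs_mul]
      rw [integral_const_mul]
      calc |c i| * ∫ z, |χ z - ψ z| ∂μ ≤ ‖c‖ * δ :=
            mul_le_mul (coord_le c i) hle' (integral_nonneg fun _ => abs_nonneg _) (norm_nonneg _)
        _ ≤ ε := hδc
    refine ⟨fun z => c 0 * ψ z, fun z => c 1 * ψ z, contDiff_const.mul hψ1, contDiff_const.mul hψ1,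
      hco 0, hco 1, ?_⟩
    have hd : ∀ z, fderiv ℝ (fun z => c 0 * ψ z) z e0 + fderiv ℝ (fun z => c 1 * ψ z) z e1
        = fderiv ℝ ψ z c := by
      intro z
      have hz := (hψ1.differentiable one_ne_zero) z
      rw [fderiv_const_mul hz, fderiv_const_mul hz]
      have hc : c = c 0 • e0 + c 1 • e1 := by apply ext2 <;> simp
      conv_rhs => rw [hc, map_add, map_smul, map_smul]
      simp
    simp only [hd, hYn]
    rw [integral_const_mul]
    refine (smooth_dir K hK hfin ψ hψ1 c).trans ?_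
    have h1 : ∫ z, |ψ z| ∂μ ≤ (∫ z, |χ z| ∂μ) + ∫ z, |χ z - ψ z| ∂μ := by
      have i2 : Integrable (fun z => |χ z - ψ z|) μ := (hχi.sub hψi).abs
      rw [← integral_add hχi.abs i2]
      refine integral_mono hψi.abs (hχi.abs.add i2) fun z => ?_
      have := abs_sub (χ z) (χ z - ψ z)
      simpa using this
    have h2 : ‖c‖ * ∫ z, |ψ z| ∂μ ≤ ‖c‖ * ((∫ z, |χ z| ∂μ) + δ) :=
      mul_le_mul_of_nonneg_left (by linarith) (norm_nonneg _)
    show ‖c‖ * ∫ z, |ψ z| ∂μ ≤ ‖c‖ * (∫ z, |χ z| ∂μ) + ε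
    linarith
  · intro f g hfg hf hg Pf Pg ε hε
    obtain ⟨A0, A1, hA0, hA1, a0, a1, a2⟩ := Pf (ε / 2) (by positivity)
    obtain ⟨B0, B1, hB0, hB1, b0, b1, b2⟩ := Pg (ε / 2) (by positivity)
    have hco : ∀ (i : Fin 2) (A B : E2 → ℝ), ContDiff ℝ 1 A → ContDiff ℝ 1 B →
        ∫ z, |f z i - A z| ∂μ ≤ ε / 2 → ∫ z, |g z i - B z| ∂μ ≤ ε / 2 →
        ∫ z, |(f + g) z i - (A z + B z)| ∂μ ≤ ε := by
      intro i A B hA hB ha hb
      have i1 : Integrable (fun z => |f z i - A z|) μ :=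
        ((int_coord hf i).sub (int_cont K hK hfin A hA.continuous)).abs
      have i2 : Integrable (fun z => |g z i - B z|) μ :=
        ((int_coord hg i).sub (int_cont K hK hfin B hB.continuous)).abs
      have : ∫ z, |(f + g) z i - (A z + B z)| ∂μ ≤ ∫ z, (|f z i - A z| + |g z i - B z|) ∂μ := by
        refine integral_mono_of_nonneg (Eventually.of_forall fun _ => abs_nonneg _) (i1.add i2)
          (Eventually.of_forall fun z => ?_)
        have := abs_add_le (f z i - A z) (g z i - B z)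
        show |(f + g) z i - (A z + B z)| ≤ |f z i - A z| + |g z i - B z|
        have e : (f + g) z i - (A z + B z) = f z i - A z + (g z i - B z) := by
          simp only [Pi.add_apply, PiLp.add_apply]; ring
        rw [e]; exact this
      rw [integral_add i1 i2] at this
      linarith
    refine ⟨fun z => A0 z + B0 z, fun z => A1 z + B1 z, hA0.add hB0, hA1.add hB1,
      hco 0 _ _ hA0 hB0 a0 b0, hco 1 _ _ hA1 hB1 a1 b1, ?_⟩
    have hd : ∀ z, fderiv ℝ (fun z => A0 z + B0 z) z e0 + fderiv ℝ (fun z => A1 z + B1 z) z e1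
        = (fderiv ℝ A0 z e0 + fderiv ℝ A1 z e1) + (fderiv ℝ B0 z e0 + fderiv ℝ B1 z e1) := by
      intro z
      rw [fderiv_fun_add ((hA0.differentiable one_ne_zero) z) ((hB0.differentiable one_ne_zero) z),
        fderiv_fun_add ((hA1.differentiable one_ne_zero) z) ((hB1.differentiable one_ne_zero) z)]
      simp only [ContinuousLinearMap.add_apply]; ring
    have hn : ∀ z, ‖(f + g) z‖ = ‖f z‖ + ‖g z‖ := by
      intro z
      by_cases h1 : f z = 0
      · simp [h1]
      · have h2 : g z = 0 := by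
          by_contra h2
          exact Set.disjoint_left.mp hfg h1 h2
        simp [h2]
    simp only [hd, hn]
    have j1 : IntegrableOn (fun z => fderiv ℝ A0 z e0 + fderiv ℝ A1 z e1) K :=
      ((cont_fderiv hA0 e0).add (cont_fderiv hA1 e1)).continuousOn.integrableOn_compact hK
    have j2 : IntegrableOn (fun z => fderiv ℝ B0 z e0 + fderiv ℝ B1 z e1) K :=
      ((cont_fderiv hB0 e0).add (cont_fderiv hB1 e1)).continuousOn.integrableOn_compact hK
    rw [integral_add j1 j2, integral_add hf.norm hg.norm]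
    linarith
  · refine isClosed_of_closure_subset fun f hf ε hε => ?_
    obtain ⟨g, hg, hd⟩ := Metric.mem_closure_iff.mp hf (ε / 2) (by positivity)
    obtain ⟨A0, A1, hA0, hA1, a0, a1, a2⟩ := hg (ε / 2) (by positivity)
    rw [L1.dist_eq_integral_dist] at hd
    simp only [dist_eq_norm] at hd
    have hfi := L1.integrable_coeFn f
    have hgi := L1.integrable_coeFn g
    have hco : ∀ (i : Fin 2) (A : E2 → ℝ), ContDiff ℝ 1 A →
        ∫ z, |g z i - A z| ∂μ ≤ ε / 2 → ∫ z, |f z i - A z| ∂μ ≤ ε := by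
      intro i A hA ha
      have i1 : Integrable (fun z => |g z i - A z|) μ :=
        ((int_coord hgi i).sub (int_cont K hK hfin A hA.continuous)).abs
      have i2 : Integrable (fun z => ‖f z - g z‖) μ := (hfi.sub hgi).norm
      have : ∫ z, |f z i - A z| ∂μ ≤ ∫ z, (|g z i - A z| + ‖f z - g z‖) ∂μ := by
        refine integral_mono_of_nonneg (Eventually.of_forall fun _ => abs_nonneg _) (i1.add i2)
          (Eventually.of_forall fun z => ?_)
        have h1 := abs_add_le (g z i - A z) ((f z - g z) i)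
        have h2 := coord_le (f z - g z) i
        show |f z i - A z| ≤ |g z i - A z| + ‖f z - g z‖
        have e : f z i - A z = g z i - A z + (f z - g z) i := by
          simp only [PiLp.sub_apply]; ring
        rw [e]; linarith
      rw [integral_add i1 i2] at this
      linarith
    refine ⟨A0, A1, hA0, hA1, hco 0 _ hA0 a0, hco 1 _ hA1 a1, ?_⟩
    have : ∫ z, ‖g z‖ ∂μ ≤ ∫ z, (‖f z‖ + ‖f z - g z‖) ∂μ := by
      refine integral_mono_of_nonneg (Eventually.of_forall fun _ => norm_nonneg _)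
        (hfi.norm.add (hfi.sub hgi).norm) (Eventually.of_forall fun z => ?_)
      have := norm_sub_le (f z) (f z - g z)
      simpa using this
    have i2 : Integrable (fun z => ‖f z - g z‖) μ := (hfi.sub hgi).norm
    rw [integral_add hfi.norm i2] at this
    show _ ≤ (∫ z, ‖f z‖ ∂μ) + ε
    have a2' : ∫ z in K, (fderiv ℝ A0 z e0 + fderiv ℝ A1 z e1) ≤ (∫ z, ‖g z‖ ∂μ) + ε / 2 := a2
    linarith
  · intro f g hfg _ Pf ε hε
    obtain ⟨A0, A1, hA0, hA1, a0, a1, a2⟩ := Pf ε hε
    refine ⟨A0, A1, hA0, hA1, ?_, ?_, ?_⟩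
    · refine le_trans (le_of_eq (integral_congr_ae ?_)) a0
      filter_upwards [hfg] with z hz using by rw [hz]
    · refine le_trans (le_of_eq (integral_congr_ae ?_)) a1
      filter_upwards [hfg] with z hz using by rw [hz]
    · refine a2.trans (le_of_eq ?_)
      congr 1
      refine integral_congr_ae ?_
      filter_upwards [hfg] with z hz using by rw [hz]

/-- Divergence inequality for an arbitrary compact set. -/
theorem div_le (K : Set E2) (hK : IsCompact K) (hfin : μH[1] (frontier K) ≠ ⊤)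
    (X0 X1 D0 D1 : E2 → ℝ) (hX0 : Measurable X0) (hX1 : Measurable X1)
    (hb : ∀ z ∈ frontier K, X0 z ^ 2 + X1 z ^ 2 ≤ 1)
    (hD0 : IntegrableOn D0 K) (hD1 : IntegrableOn D1 K) (r0 : Reg e0 X0 D0) (r1 : Reg e1 X1 D1) :
    ∫ z in K, (D0 z + D1 z) ≤ (μH[1] (frontier K)).toReal := by
  set μ : Measure E2 := (μH[1] : Measure E2).restrict (frontier K) with hμ
  haveI : IsFiniteMeasure μ := isFiniteMeasure_restrict.mpr hfin
  set Y : E2 → E2 := fun z => pt (X0 z, X1 z) with hY
  have hYm : Measurable Y := pt_cont.measurable.comp (hX0.prodMk hX1)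
  have hYb : ∀ᵐ z ∂μ, ‖Y z‖ ≤ 1 := by
    refine (ae_restrict_iff' isClosed_frontier.measurableSet).mpr (Eventually.of_forall ?_)
    intro z hz
    rw [EuclideanSpace.norm_eq, Real.sqrt_le_one, Fin.sum_univ_two]
    simpa [hY] using hb z hz
  have hYi : Integrable Y μ := Integrable.of_bound hYm.aestronglyMeasurable 1 hYb
  have hYn : ∫ z, ‖Y z‖ ∂μ ≤ (μH[1] (frontier K)).toReal := by
    have := integral_mono_ae hYi.norm (integrable_const (1 : ℝ)) hYb
    refine this.trans (le_of_eq ?_)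
    simp [hμ, Measure.real]
  refine le_of_forall_pos_le_add fun ε hε => ?_
  obtain ⟨A0, A1, hA0, hA1, a0, a1, a2⟩ := PP_all K hK hfin Y hYi (ε / 3) (by positivity)
  have c0 := (cont_fderiv hA0 e0).continuousOn.integrableOn_compact (μ := volume) hK
  have c1 := (cont_fderiv hA1 e1).continuousOn.integrableOn_compact (μ := volume) hK
  have b0 := dirR e0 e0_norm K hK hfin _ _ (hX0.sub hA0.continuous.measurable)
    ((int_coord hYi 0).sub (int_cont K hK hfin A0 hA0.continuous)) (hD0.sub c0)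
    (r0.sub (Reg.of_contDiff hA0 e0))
  have b1 := dirR e1 e1_norm K hK hfin _ _ (hX1.sub hA1.continuous.measurable)
    ((int_coord hYi 1).sub (int_cont K hK hfin A1 hA1.continuous)) (hD1.sub c1)
    (r1.sub (Reg.of_contDiff hA1 e1))
  simp only [Pi.sub_apply] at b0 b1
  rw [integral_sub hD0 c0] at b0
  rw [integral_sub hD1 c1] at b1
  rw [integral_add c0 c1] at a2
  rw [integral_add hD0 hD1]
  have a0' : ∫ z, |X0 z - A0 z| ∂μ ≤ ε / 3 := a0
  have a1' : ∫ z, |X1 z - A1 z| ∂μ ≤ ε / 3 := a1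
  have a2' : (∫ z in K, fderiv ℝ A0 z e0) + ∫ z in K, fderiv ℝ A1 z e1 ≤ (∫ z, ‖Y z‖ ∂μ) + ε / 3 := a2
  linarith

end H60.SM
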