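import Pool.Agent.H60.SMc

set_option autoImplicit false
open Set Filter Topology MeasureTheory Real
open scoped ENNReal

namespace H60.SM

noncomputable def cl (x : ℝ) : ℝ := max (-1) (min 1 x)
noncomputable def chi (x : ℝ) : ℝ := if |x| ≤ 1 then 1 else 0
noncomputable def sq1 (y : ℝ) : ℝ := √(1 - y ^ 2)
noncomputable def be : ℝ := 4 / (π + 4)
noncomputable def GG (y : ℝ) : ℝ := ∫ u in (0 : ℝ)..y, sq1 u
noncomputable def hh (y : ℝ) : ℝ := (2 - be) * y - be * GG y
def CC : Set E2 := {z | (z 0 - cl (z 0)) ^ 2 + (z 1) ^ 2 ≤ 1}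

lemma cl_cont : Continuous cl := by unfold cl; fun_prop
lemma sq1_cont : Continuous sq1 := by unfold sq1; fun_prop
lemma chi_meas : Measurable chi :=
  Measurable.ite (measurableSet_le measurable_abs measurable_const) measurable_const measurable_const
lemma cl_abs (x : ℝ) : |cl x| ≤ 1 := by
  rw [abs_le]; unfold cl
  exact ⟨le_max_left _ _, max_le (by norm_num) (min_le_left _ _)⟩
lemma cl_of_abs {x : ℝ} (h : |x| ≤ 1) : cl x = x := by
  rw [abs_le] at h; unfold cl; rw [min_eq_right h.2, max_eq_right h.1]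
lemma cl_of_ge {x : ℝ} (h : 1 ≤ x) : cl x = 1 := by
  unfold cl; rw [min_eq_left h, max_eq_right (by norm_num)]
lemma cl_of_le {x : ℝ} (h : x ≤ -1) : cl x = -1 := by
  unfold cl; rw [min_eq_right (by linarith), max_eq_left h]
lemma chi_abs (x : ℝ) : |chi x| ≤ 1 := by unfold chi; split_ifs <;> simp
lemma sq1_nonneg (y : ℝ) : 0 ≤ sq1 y := Real.sqrt_nonneg _
lemma sq1_le (y : ℝ) : sq1 y ≤ 1 := Real.sqrt_le_one.mpr (by nlinarith [sq_nonneg y])
lemma be_pos : 0 < be := by unfold be; have := pi_pos; positivity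
lemma be_lt : be < 1 := by unfold be; rw [div_lt_one (by have := pi_pos; positivity)]; linarith [pi_pos]
lemma be_eq : be * (π + 4) = 4 := by unfold be; have := pi_pos; field_simp

lemma chi_ii (a b : ℝ) : IntervalIntegrable chi volume a b := by
  refine (intervalIntegrable_const (c := (1 : ℝ))).mono_fun chi_meas.aestronglyMeasurable
    (Eventually.of_forall fun x => ?_)
  simpa using chi_abs x

lemma chi_int (a b : ℝ) : ∫ x in a..b, chi x = cl b - cl a := by
  refine integral_eq_of_hasDerivAt_off_countable cl chi (s := {-1, 1})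
    (Set.toFinite _).countable cl_cont.continuousOn (fun x hx => ?_) (chi_ii a b)
  have h1 : x ≠ -1 := fun h => hx.2 (by simp [h])
  have h2 : x ≠ 1 := fun h => hx.2 (by simp [h])
  rcases lt_or_gt_of_ne h1 with h3 | h3
  · have : chi x = 0 := if_neg (by rw [abs_le]; intro h; linarith [h.1])
    rw [this]
    refine (hasDerivAt_const x (-1 : ℝ)).congr_of_eventuallyEq ?_
    filter_upwards [Iio_mem_nhds h3] with y hy using cl_of_le (le_of_lt hy)
  rcases lt_or_gt_of_ne h2 with h4 | h4
  · have : chi x = 1 := if_pos (abs_le.mpr ⟨h3.le, h4.le⟩)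
    rw [this]
    refine (hasDerivAt_id x).congr_of_eventuallyEq ?_
    filter_upwards [Ioo_mem_nhds h3 h4] with y hy using cl_of_abs (abs_le.mpr ⟨hy.1.le, hy.2.le⟩)
  · have : chi x = 0 := if_neg (by rw [abs_le]; intro h; linarith [h.2])
    rw [this]
    refine (hasDerivAt_const x (1 : ℝ)).congr_of_eventuallyEq ?_
    filter_upwards [Ioi_mem_nhds h4] with y hy using cl_of_ge (le_of_lt hy)

lemma sq1_int : ∫ u in (0 : ℝ)..1, sq1 u = π / 4 := by
  have h1 : ∫ u in (-1 : ℝ)..1, sq1 u = π / 2 := integral_sqrt_one_sub_sq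
  have h2 : ∫ u in (-1 : ℝ)..0, sq1 u = ∫ u in (0 : ℝ)..1, sq1 u := by
    have := intervalIntegral.integral_comp_neg (a := (0 : ℝ)) (b := 1) sq1
    rw [neg_zero] at this
    rw [← this]
    congr 1; funext u; simp [sq1]
  rw [← intervalIntegral.integral_add_adjacent_intervals (b := 0) (sq1_cont.intervalIntegrable _ _)
    (sq1_cont.intervalIntegrable _ _), h2] at h1
  linarith

lemma GG_deriv (y : ℝ) : HasDerivAt GG (sq1 y) y :=
  (sq1_cont.integral_hasStrictDerivAt 0 y).hasDerivAt

lemma hh_deriv (y : ℝ) : HasDerivAt hh ((2 - be) - be * sq1 y) y := by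
  have := ((hasDerivAt_id y).const_mul (2 - be)).sub ((GG_deriv y).const_mul be)
  rw [mul_one] at this
  exact this

lemma hh_cont : Continuous hh := continuous_iff_continuousAt.mpr fun y => (hh_deriv y).continuousAt

lemma hh_sq {y : ℝ} (hy : y ^ 2 ≤ 1) : hh y ^ 2 ≤ y ^ 2 := by
  set I : ℝ := ∫ u in (0 : ℝ)..1, sq1 (y * u) with hI
  have hc : Continuous fun u => sq1 (y * u) := sq1_cont.comp (by fun_prop)
  have hG : GG y = y * I := by
    have := intervalIntegral.smul_integral_comp_mul_left (a := (0 : ℝ)) (b := 1) sq1 y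
    simpa [GG, hI] using this.symm
  have h1 : I ≤ 1 := by
    have := intervalIntegral.integral_mono_on (μ := volume) zero_le_one (hc.intervalIntegrable 0 1)
      (intervalIntegrable_const (c := (1 : ℝ))) (fun u _ => sq1_le _)
    simpa using this
  have h2 : π / 4 ≤ I := by
    rw [← sq1_int]
    refine intervalIntegral.integral_mono_on zero_le_one (sq1_cont.intervalIntegrable 0 1)
      (hc.intervalIntegrable 0 1) (fun u _ => ?_)
    apply Real.sqrt_le_sqrt
    nlinarith [sq_nonneg u]
  have e : hh y = y * (2 - be - be * I) := by unfold hh; rw [hG]; ring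
  have b1 := be_pos
  have b2 := be_lt
  have b3 := be_eq
  have h3 : 0 ≤ 2 - be - be * I := by nlinarith
  have h4 : 2 - be - be * I ≤ 1 := by nlinarith
  rw [e, mul_pow]
  have : (2 - be - be * I) ^ 2 ≤ 1 := by nlinarith
  nlinarith [sq_nonneg y]

noncomputable def X0 (z : E2) : ℝ := (1 - be) * z 0 + (be * sq1 (z 1) - (1 - be)) * cl (z 0)
noncomputable def D0 (z : E2) : ℝ := (1 - be) + (be * sq1 (z 1) - (1 - be)) * chi (z 0)
noncomputable def X1 (z : E2) : ℝ := chi (z 0) * hh (z 1) + (1 - chi (z 0)) * z 1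
noncomputable def D1 (z : E2) : ℝ := chi (z 0) * ((2 - be) - be * sq1 (z 1)) + (1 - chi (z 0))

lemma D_sum (z : E2) : D0 z + D1 z = 2 - be := by unfold D0 D1; ring

lemma m0 : Measurable fun z : E2 => z 0 := (by fun_prop : Continuous fun z : E2 => z 0).measurable
lemma m1 : Measurable fun z : E2 => z 1 := (by fun_prop : Continuous fun z : E2 => z 1).measurable

lemma X0_meas : Measurable X0 :=
  (m0.const_mul _).add ((((sq1_cont.measurable.comp m1).const_mul _).sub_const _).mul
    (cl_cont.measurable.comp m0))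
lemma D0_meas : Measurable D0 :=
  measurable_const.add ((((sq1_cont.measurable.comp m1).const_mul _).sub_const _).mul
    (chi_meas.comp m0))
lemma X1_meas : Measurable X1 :=
  ((chi_meas.comp m0).mul (hh_cont.measurable.comp m1)).add
    ((measurable_const.sub (chi_meas.comp m0)).mul m1)

lemma D0_bd (z : E2) : ‖D0 z‖ ≤ 1 := by
  have b1 := be_pos
  have b2 := be_lt
  have s1 := sq1_nonneg (z 1)
  have s2 := sq1_le (z 1)
  rw [Real.norm_eq_abs, abs_le]
  unfold D0 chi
  split_ifs <;> constructor <;> nlinarith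

lemma reg0 : Reg e0 X0 D0 := by
  intro z a b
  have hi : IntervalIntegrable (fun s => chi (z 0 + s)) volume a b := by
    have := (chi_ii (z 0 + a) (z 0 + b)).comp_add_left (z 0)
    simpa using this
  have hv : ∫ s in a..b, chi (z 0 + s) = cl (z 0 + b) - cl (z 0 + a) := by
    rw [intervalIntegral.integral_comp_add_left, chi_int]
  simp only [X0, D0, PiLp.add_apply, PiLp.smul_apply, e00, e01, smul_eq_mul, mul_one, mul_zero,
    add_zero]
  refine ⟨intervalIntegrable_const.add (hi.const_mul _), ?_⟩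
  rw [intervalIntegral.integral_add intervalIntegrable_const (hi.const_mul _),
    intervalIntegral.integral_const_mul, hv]
  simp only [intervalIntegral.integral_const, smul_eq_mul]; ring

lemma reg1 : Reg e1 X1 D1 := by
  intro z a b
  simp only [X1, D1, PiLp.add_apply, PiLp.smul_apply, e10, e11, smul_eq_mul, mul_one, mul_zero,
    add_zero]
  have hc : Continuous fun s : ℝ => chi (z 0) * ((2 - be) - be * sq1 (z 1 + s)) + (1 - chi (z 0)) := by
    have := sq1_cont
    fun_prop
  refine ⟨hc.intervalIntegrable _ _, ?_⟩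
  refine intervalIntegral.integral_eq_sub_of_hasDerivAt
    (f := fun s => chi (z 0) * hh (z 1 + s) + (1 - chi (z 0)) * (z 1 + s))
    (fun s _ => ?_) (hc.intervalIntegrable _ _)
  have h1 : HasDerivAt (fun s : ℝ => z 1 + s) 1 s := (hasDerivAt_id s).const_add _
  have h2 := (hh_deriv (z 1 + s)).comp s h1
  have := (h2.const_mul (chi (z 0))).add (h1.const_mul (1 - chi (z 0)))
  rw [mul_one, mul_one] at this
  exact this

lemma X_bd {z : E2} (hz : z ∈ CC) : X0 z ^ 2 + X1 z ^ 2 ≤ 1 := by
  have hz' : (z 0 - cl (z 0)) ^ 2 + (z 1) ^ 2 ≤ 1 := hz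
  have hy : (z 1) ^ 2 ≤ 1 := by nlinarith [sq_nonneg (z 0 - cl (z 0))]
  have h1 : X1 z ^ 2 ≤ (z 1) ^ 2 := by
    unfold X1 chi
    split_ifs
    · simpa using hh_sq hy
    · simp
  have hs : sq1 (z 1) ^ 2 = 1 - (z 1) ^ 2 := Real.sq_sqrt (by linarith)
  have s0 := sq1_nonneg (z 1)
  have hd : |z 0 - cl (z 0)| ≤ sq1 (z 1) := abs_le_of_sq_le_sq' (by linarith) s0 |> abs_le.mpr
  have h0 : |X0 z| ≤ sq1 (z 1) := by
    have e : X0 z = (1 - be) * (z 0 - cl (z 0)) + be * (sq1 (z 1) * cl (z 0)) := by unfold X0; ring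
    have b1 := be_pos
    have b2 := be_lt
    have c1 := abs_le.mp (cl_abs (z 0))
    have c2 : |sq1 (z 1) * cl (z 0)| ≤ sq1 (z 1) := by
      rw [abs_le]; constructor <;> nlinarith [c1.1, c1.2]
    rw [e, abs_le]
    rw [abs_le] at hd c2
    constructor <;> nlinarith [hd.1, hd.2, c2.1, c2.2]
  have : X0 z ^ 2 ≤ sq1 (z 1) ^ 2 := by
    rw [← sq_abs]; exact pow_le_pow_left₀ (abs_nonneg _) h0 2
  linarith

/-- Cheeger inequality for compact subsets of the stadium. -/
theorem cheeger (K : Set E2) (hK : IsCompact K) (hKC : K ⊆ CC) :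
    ENNReal.ofReal (2 - be) * volume K ≤ μH[1] (frontier K) := by
  by_cases hfin : μH[1] (frontier K) = ⊤
  · rw [hfin]; exact le_top
  have hv : volume K < ⊤ := hK.measure_lt_top
  have hD0 : IntegrableOn D0 K :=
    IntegrableOn.of_bound hv D0_meas.aestronglyMeasurable 1 (Eventually.of_forall D0_bd)
  have hD1 : IntegrableOn D1 K := by
    have : D1 = fun z => (2 - be) - D0 z := by funext z; linarith [D_sum z]
    rw [this]
    exact (integrableOn_const hv.ne).sub hD0
  have h := div_le K hK hfin X0 X1 D0 D1 X0_meas X1_meas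
    (fun z hz => X_bd (hKC (hK.isClosed.frontier_subset hz))) hD0 hD1 reg0 reg1
  simp only [D_sum, integral_const, smul_eq_mul, MeasurableSet.univ, measureReal_restrict_apply,
    univ_inter] at h
  rw [← ENNReal.ofReal_toReal hfin, ← ENNReal.ofReal_toReal hv.ne,
    ← ENNReal.ofReal_mul (by linarith [be_lt])]
  refine ENNReal.ofReal_le_ofReal ?_
  rw [mul_comm]; exact h

end H60.SM
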