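import Pool.Agent.H60.SMd

set_option autoImplicit false
open Set Filter Topology MeasureTheory Real
open scoped ENNReal

namespace H60.SM

lemma q_cont : Continuous fun z : E2 => (z 0 - cl (z 0)) ^ 2 + (z 1) ^ 2 := by
  have := cl_cont
  fun_prop

lemma CC_closed : IsClosed CC := isClosed_le q_cont continuous_const

lemma CC_bd {z : E2} (hz : z ∈ CC) : |z 0| ≤ 2 ∧ |z 1| ≤ 1 := by
  have hz' : (z 0 - cl (z 0)) ^ 2 + (z 1) ^ 2 ≤ 1 := hz
  have c := abs_le.mp (cl_abs (z 0))
  have h1 : |z 0 - cl (z 0)| ≤ 1 := by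
    rw [← sq_le_one_iff_abs_le_one]; nlinarith [sq_nonneg (z 1)]
  have h2 : |z 1| ≤ 1 := by
    rw [← sq_le_one_iff_abs_le_one]; nlinarith [sq_nonneg (z 0 - cl (z 0))]
  rw [abs_le] at h1
  exact ⟨abs_le.mpr ⟨by linarith [h1.1, c.1], by linarith [h1.2, c.2]⟩, h2⟩

lemma CC_compact : IsCompact CC := by
  refine Metric.isCompact_of_isClosed_isBounded CC_closed ?_
  refine (Metric.isBounded_closedBall (x := (0 : E2)) (r := 3)).subset fun z hz => ?_
  obtain ⟨h0, h1⟩ := CC_bd hz
  rw [mem_closedBall_zero_iff, EuclideanSpace.norm_eq, Fin.sum_univ_two]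
  refine Real.sqrt_le_iff.mpr ⟨by norm_num, ?_⟩
  simp only [Real.norm_eq_abs]
  nlinarith [abs_nonneg (z 0), abs_nonneg (z 1)]

lemma cl_min (x a : ℝ) (ha : |a| ≤ 1) : (x - cl x) ^ 2 ≤ (x - a) ^ 2 := by
  rw [abs_le] at ha
  rcases le_total x (-1) with h | h
  · rw [cl_of_le h]; nlinarith [ha.1, ha.2]
  rcases le_total x 1 with h' | h'
  · rw [cl_of_abs (abs_le.mpr ⟨h, h'⟩)]; nlinarith [sq_nonneg (x - a)]
  · rw [cl_of_ge h']; nlinarith [ha.1, ha.2]

lemma CC_convex : Convex ℝ CC := by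
  intro z hz w hw a b ha hb hab
  have hz' : (z 0 - cl (z 0)) ^ 2 + (z 1) ^ 2 ≤ 1 := hz
  have hw' : (w 0 - cl (w 0)) ^ 2 + (w 1) ^ 2 ≤ 1 := hw
  have c1 := abs_le.mp (cl_abs (z 0))
  have c2 := abs_le.mp (cl_abs (w 0))
  have hm : |a * cl (z 0) + b * cl (w 0)| ≤ 1 := by
    rw [abs_le]; constructor <;> nlinarith [c1.1, c1.2, c2.1, c2.2]
  have := cl_min (a * z 0 + b * w 0) _ hm
  show ((a • z + b • w) 0 - cl ((a • z + b • w) 0)) ^ 2 + ((a • z + b • w) 1) ^ 2 ≤ 1
  simp only [PiLp.add_apply, PiLp.smul_apply, smul_eq_mul]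
  set p := z 0 - cl (z 0)
  set q := w 0 - cl (w 0)
  have e : a * z 0 + b * w 0 - (a * cl (z 0) + b * cl (w 0)) = a * p + b * q := by
    simp only [p, q]; ring
  rw [e] at this
  have hb' : b = 1 - a := by linarith
  have k1 : (a * p + b * q) ^ 2 ≤ a * p ^ 2 + b * q ^ 2 := by
    rw [hb'] at hb ⊢; nlinarith [mul_nonneg ha hb, sq_nonneg (p - q), mul_nonneg (mul_nonneg ha hb) (sq_nonneg (p - q))]
  have k2 : (a * z 1 + b * w 1) ^ 2 ≤ a * (z 1) ^ 2 + b * (w 1) ^ 2 := by
    rw [hb'] at hb ⊢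
    nlinarith [mul_nonneg (mul_nonneg ha hb) (sq_nonneg (z 1 - w 1))]
  nlinarith [mul_le_mul_of_nonneg_left hz' ha, mul_le_mul_of_nonneg_left hw' hb]

lemma CC_int : (interior CC).Nonempty := by
  refine ⟨0, mem_interior.mpr ⟨Metric.ball 0 1, fun z hz => ?_, Metric.isOpen_ball, by simp⟩⟩
  rw [mem_ball_zero_iff] at hz
  have h0 := coord_le z 0
  have h1 := coord_le z 1
  show (z 0 - cl (z 0)) ^ 2 + (z 1) ^ 2 ≤ 1
  rw [cl_of_abs (by linarith)]
  have : (z 1) ^ 2 ≤ 1 := by rw [sq_le_one_iff_abs_le_one]; linarith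
  linarith

lemma CC_ne (x : E2) (r : ℝ) : CC ≠ Metric.closedBall x r := by
  intro h
  have p1 : pt (2, 0) ∈ CC := by
    show ((2 : ℝ) - cl 2) ^ 2 + (0 : ℝ) ^ 2 ≤ 1
    rw [cl_of_ge (by norm_num)]; norm_num
  have p2 : pt (-2, 0) ∈ CC := by
    show ((-2 : ℝ) - cl (-2)) ^ 2 + (0 : ℝ) ^ 2 ≤ 1
    rw [cl_of_le (by norm_num)]; norm_num
  rw [h, Metric.mem_closedBall, dist_eq_norm] at p1 p2
  have a1 := abs_le.mp ((coord_le _ 0).trans p1)
  have a2 := abs_le.mp ((coord_le _ 0).trans p2)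
  simp only [PiLp.sub_apply, pt0] at a1 a2
  have hr : 2 ≤ r := by linarith [a1.2, a2.1]
  have q1 : x + r • e1 ∈ CC := by
    rw [h, Metric.mem_closedBall, dist_eq_norm, add_sub_cancel_left, norm_smul, e1_norm,
      Real.norm_eq_abs, abs_of_nonneg (by linarith), mul_one]
  have q2 : x + (-r) • e1 ∈ CC := by
    rw [h, Metric.mem_closedBall, dist_eq_norm, add_sub_cancel_left, norm_smul, e1_norm,
      Real.norm_eq_abs, abs_neg, abs_of_nonneg (by linarith), mul_one]
  have b1 := abs_le.mp (CC_bd q1).2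
  have b2 := abs_le.mp (CC_bd q2).2
  simp only [PiLp.add_apply, PiLp.smul_apply, e11, smul_eq_mul, mul_one] at b1 b2
  linarith [b1.2, b2.1]

lemma lip_img (γ : ℝ → E2) (hγ : ∀ s t, (γ s 0 - γ t 0) ^ 2 + (γ s 1 - γ t 1) ^ 2 ≤ (s - t) ^ 2)
    (a b : ℝ) : μH[1] (γ '' Icc a b) ≤ ENNReal.ofReal (b - a) := by
  have hL : LipschitzWith 1 γ := by
    refine LipschitzWith.of_dist_le_mul fun s t => ?_
    rw [NNReal.coe_one, one_mul, EuclideanSpace.dist_eq, Fin.sum_univ_two, Real.dist_eq,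
      Real.dist_eq, Real.dist_eq, sq_abs, sq_abs, ← Real.sqrt_sq_eq_abs]
    exact Real.sqrt_le_sqrt (hγ s t)
  have := hL.hausdorffMeasure_image_le (d := 1) zero_le_one (Icc a b)
  rw [hausdorffMeasure_real] at this
  simpa using this

lemma trig_lip (s t : ℝ) : (cos s - cos t) ^ 2 + (sin s - sin t) ^ 2 ≤ (s - t) ^ 2 := by
  have h1 := Real.one_sub_sq_div_two_le_cos (x := s - t)
  rw [Real.cos_sub] at h1
  nlinarith [Real.sin_sq_add_cos_sq s, Real.sin_sq_add_cos_sq t]

lemma CC_perim : μH[1] (frontier CC) ≤ ENNReal.ofReal (2 * π + 4) := by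
  set g1 : ℝ → E2 := fun t => pt (t, 1)
  set g2 : ℝ → E2 := fun t => pt (t, -1)
  set g3 : ℝ → E2 := fun t => pt (1 + cos t, sin t)
  set g4 : ℝ → E2 := fun t => pt (-(1 + cos t), sin t)
  have hsub : frontier CC ⊆ (g1 '' Icc (-1) 1 ∪ g2 '' Icc (-1) 1) ∪
      (g3 '' Icc (-(π / 2)) (π / 2) ∪ g4 '' Icc (-(π / 2)) (π / 2)) := by
    intro z hz
    have hq : (z 0 - cl (z 0)) ^ 2 + (z 1) ^ 2 = 1 := frontier_le_subset_eq q_cont continuous_const hz
    have hy : |z 1| ≤ 1 := by
      rw [← sq_le_one_iff_abs_le_one]; nlinarith [sq_nonneg (z 0 - cl (z 0))]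
    rw [abs_le] at hy
    have hθ : arcsin (z 1) ∈ Icc (-(π / 2)) (π / 2) := arcsin_mem_Icc _
    have hs : sin (arcsin (z 1)) = z 1 := sin_arcsin hy.1 hy.2
    rcases le_total (z 0) (-1) with h | h
    · right; right
      refine ⟨_, hθ, ext2 ?_ hs⟩
      show -(1 + cos (arcsin (z 1))) = z 0
      rw [cl_of_le h] at hq
      have : 1 - (z 1) ^ 2 = (-(z 0 + 1)) ^ 2 := by linarith
      rw [cos_arcsin, this, Real.sqrt_sq (by linarith)]; ring
    rcases le_total (z 0) 1 with h' | h'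
    · left
      rw [cl_of_abs (abs_le.mpr ⟨h, h'⟩)] at hq
      have : (z 1 - 1) * (z 1 + 1) = 0 := by linarith
      rcases mul_eq_zero.mp this with h2 | h2
      · left; exact ⟨z 0, ⟨h, h'⟩, ext2 rfl (by show (1 : ℝ) = z 1; linarith)⟩
      · right; exact ⟨z 0, ⟨h, h'⟩, ext2 rfl (by show (-1 : ℝ) = z 1; linarith)⟩
    · right; left
      refine ⟨_, hθ, ext2 ?_ hs⟩
      show 1 + cos (arcsin (z 1)) = z 0
      rw [cl_of_ge h'] at hq
      have : 1 - (z 1) ^ 2 = (z 0 - 1) ^ 2 := by linarith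
      rw [cos_arcsin, this, Real.sqrt_sq (by linarith)]; ring
  have l1 := lip_img g1 (fun s t => by simp [g1]) (-1) 1
  have l2 := lip_img g2 (fun s t => by simp [g2]) (-1) 1
  have l3 := lip_img g3 (fun s t => by
    have := trig_lip s t
    simp only [g3, pt0, pt1]; linarith) (-(π / 2)) (π / 2)
  have l4 := lip_img g4 (fun s t => by
    have := trig_lip s t
    simp only [g4, pt0, pt1]; linarith) (-(π / 2)) (π / 2)
  refine (measure_mono hsub).trans ((measure_union_le _ _).trans ?_)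
  refine (add_le_add (measure_union_le _ _) (measure_union_le _ _)).trans ?_
  refine (add_le_add (add_le_add l1 l2) (add_le_add l3 l4)).trans (le_of_eq ?_)
  have := pi_pos
  rw [← ENNReal.ofReal_add (by norm_num) (by norm_num), ← ENNReal.ofReal_add (by linarith) (by linarith),
    ← ENNReal.ofReal_add (by norm_num) (by linarith)]
  congr 1; ring

lemma CC_area : ENNReal.ofReal (π + 4) ≤ volume CC := by
  have hmp : MeasurePreserving (fun p : ℝ × ℝ => pt p.swap) volume volume :=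
    pt_mp.comp (Measure.measurePreserving_swap (μ := volume) (ν := volume))
  rw [← hmp.measure_preimage CC_closed.measurableSet.nullMeasurableSet]
  have c1 : Continuous fun y => -(1 + sq1 y) := by have := sq1_cont; fun_prop
  have c2 : Continuous fun y => 1 + sq1 y := by have := sq1_cont; fun_prop
  have h := volume_regionBetween_eq_integral (μ := volume) (s := Icc (-1 : ℝ) 1)
    (c1.continuousOn.integrableOn_Icc) (c2.continuousOn.integrableOn_Icc) measurableSet_Icc
    (fun y _ => by linarith [sq1_nonneg y])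
  have hi : ∫ y in Icc (-1 : ℝ) 1, ((fun y => 1 + sq1 y) - fun y => -(1 + sq1 y)) y = π + 4 := by
    rw [integral_Icc_eq_integral_Ioc, ← intervalIntegral.integral_of_le (by norm_num)]
    have : ((fun y => 1 + sq1 y) - fun y => -(1 + sq1 y)) = fun y => 2 + 2 * sq1 y := by
      funext y; simp only [Pi.sub_apply]; ring
    rw [this, intervalIntegral.integral_add intervalIntegrable_const
      ((sq1_cont.intervalIntegrable _ _).const_mul _), intervalIntegral.integral_const_mul]
    have h1 : ∫ u in (-1 : ℝ)..1, sq1 u = π / 2 := integral_sqrt_one_sub_sq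
    rw [h1]; simp; ring
  rw [hi] at h
  rw [← h]
  refine measure_mono ?_
  rintro ⟨y, x⟩ ⟨hy, hx⟩
  show (x - cl x) ^ 2 + y ^ 2 ≤ 1
  simp only [mem_Icc, mem_Ioo] at hy hx
  have hs : sq1 y ^ 2 = 1 - y ^ 2 := Real.sq_sqrt (by nlinarith [hy.1, hy.2])
  have s0 := sq1_nonneg y
  rcases le_total x (-1) with h | h
  · rw [cl_of_le h]; nlinarith [hx.1]
  rcases le_total x 1 with h' | h'
  · rw [cl_of_abs (abs_le.mpr ⟨h, h'⟩)]; nlinarith [hy.1, hy.2]
  · rw [cl_of_ge h']; nlinarith [hx.2]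

lemma CC_ratio : μH[1] (frontier CC) ≤ ENNReal.ofReal (2 - be) * volume CC := by
  refine CC_perim.trans (le_trans (le_of_eq ?_) (mul_le_mul_right CC_area _))
  rw [← ENNReal.ofReal_mul (by linarith [be_lt])]
  congr 1
  linarith [be_eq]

lemma iso_vol (f : E2 ≃ᵢ E2) (S : Set E2) : volume (f '' S) = volume S := by
  rw [← EuclideanSpace.euclideanHausdorffMeasure_eq_volume]
  exact f.isometry.euclideanHausdorffMeasure_image S

lemma iso_per (f : E2 ≃ᵢ E2) (S : Set E2) : μH[1] (frontier (f '' S)) = μH[1] (frontier S) := by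
  have : frontier (f '' S) = f '' frontier S := (f.toHomeomorph.image_frontier S).symm
  rw [this, f.hausdorffMeasure_image]

lemma cheeger' (f : E2 ≃ᵢ E2) (K : Set E2) (hK : IsCompact K) (hKC : K ⊆ f '' CC) :
    ENNReal.ofReal (2 - be) * volume K ≤ μH[1] (frontier K) := by
  rw [← iso_vol f.symm K, ← iso_per f.symm K]
  refine cheeger _ (hK.image f.symm.continuous) ?_
  rintro _ ⟨z, hz, rfl⟩
  obtain ⟨w, hw, rfl⟩ := hKC hz
  simpa using hw

lemma submod (A B : Set E2) (hA : IsClosed A) (hB : IsClosed B) :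
    μH[1] (frontier (A ∪ B)) + μH[1] (frontier (A ∩ B)) ≤
      μH[1] (frontier A) + μH[1] (frontier B) := by
  rw [← measure_union_add_inter _ isClosed_frontier.measurableSet,
    ← measure_union_add_inter (frontier A) isClosed_frontier.measurableSet]
  refine add_le_add (measure_mono (union_subset ?_ ?_)) (measure_mono ?_)
  · exact (frontier_union_subset A B).trans (union_subset_union inter_subset_left inter_subset_right)
  · exact (frontier_inter_subset A B).trans (union_subset_union inter_subset_left inter_subset_right)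
  · rintro z ⟨h1, h2⟩
    have h3 : z ∈ A ∩ B := (hA.inter hB).frontier_subset h2
    exact ⟨⟨subset_closure h3.1, fun h => h1.2 (interior_mono subset_union_left h)⟩,
      ⟨subset_closure h3.2, fun h => h1.2 (interior_mono subset_union_right h)⟩⟩

lemma union_bd {ι : Type} (f : ι → (E2 ≃ᵢ E2)) (s : Finset ι) :
    μH[1] (frontier (⋃ i ∈ s, f i '' CC)) ≤
      ENNReal.ofReal (2 - be) * volume (⋃ i ∈ s, f i '' CC) := by
  classical
  induction s using Finset.induction_on with
  | empty => simp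
  | insert j s _ ih =>
    rw [Finset.set_biUnion_insert]
    set A := ⋃ i ∈ s, f i '' CC with hA
    set B := f j '' CC with hB
    have hBc : IsCompact B := CC_compact.image (f j).continuous
    have hAc : IsCompact A := s.isCompact_biUnion fun i _ => CC_compact.image (f i).continuous
    have h1 := submod B A hBc.isClosed hAc.isClosed
    have h2 : μH[1] (frontier B) ≤ ENNReal.ofReal (2 - be) * volume B := by
      rw [hB, iso_per, iso_vol]; exact CC_ratio
    have h3 := cheeger' (f j) (B ∩ A) (hBc.inter hAc) inter_subset_left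
    have h4 : μH[1] (frontier B) + μH[1] (frontier A) ≤
        ENNReal.ofReal (2 - be) * (volume B + volume A) := by
      rw [mul_add]; exact add_le_add h2 ih
    have hfin : μH[1] (frontier (B ∩ A)) ≠ ⊤ := by
      refine ne_top_of_le_ne_top ?_ (le_add_self.trans (h1.trans h4))
      exact ENNReal.mul_ne_top ENNReal.ofReal_ne_top
        (ENNReal.add_ne_top.mpr ⟨hBc.measure_lt_top.ne, hAc.measure_lt_top.ne⟩)
    rw [← measure_union_add_inter B hAc.measurableSet, mul_add] at h4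
    exact (ENNReal.add_le_add_iff_right hfin).mp ((h1.trans h4).trans (add_le_add le_rfl h3))

theorem main (n : ℕ) (f : Fin n → (E2 ≃ᵢ E2)) :
    μH[1] (frontier (⋃ i, (f i) '' CC)) * volume CC
      ≤ μH[1] (frontier CC) * volume (⋃ i, (f i) '' CC) := by
  have h1 := union_bd f Finset.univ
  simp only [Finset.mem_univ, iUnion_true] at h1
  have h2 := cheeger CC CC_compact subset_rfl
  calc μH[1] (frontier (⋃ i, (f i) '' CC)) * volume CC
      ≤ ENNReal.ofReal (2 - be) * volume (⋃ i, (f i) '' CC) * volume CC := by gcongr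
    _ = ENNReal.ofReal (2 - be) * volume CC * volume (⋃ i, (f i) '' CC) := by ring
    _ ≤ _ := by gcongr

end H60.SM
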