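import Mathlib

set_option autoImplicit false
open Set Filter Topology MeasureTheory
open scoped ENNReal

namespace H60.ST

variable {X : Type} [MetricSpace X] {ι : Type} [Fintype ι]

open Classical in
/-- number of distinct positions -/
noncomputable def npos (p : ι → X) : ℕ := (Finset.univ.image p).card

open Classical in
theorem move (φ : ι → X → ℝ) (κ : ℝ) (hκ : 0 ≤ κ)
    (hL : ∀ S : Finset ι, ∀ x y, ∑ j ∈ S, φ j x - ∑ j ∈ S, φ j y ≤ κ * dist x y)
    (p : ι → X) (T : Finset ι) (z : X) (d D : ℝ) (hd0 : 0 ≤ d) (hdD : d ≤ D)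
    (hT : ∀ j ∈ T, dist (p j) z ≤ d) (hcl : ∀ j k, j ∈ T → p j = p k → k ∈ T) :
    ∑ j, φ j (p j) - κ * (npos p) * D ≤
      ∑ j, φ j ((fun j => if j ∈ T then z else p j) j)
        - κ * (npos (fun j => if j ∈ T then z else p j)) * D + κ * d := by
  set p' : ι → X := fun j => if j ∈ T then z else p j with hp'
  rcases T.eq_empty_or_nonempty with hE | hne
  · have : p' = p := by funext j; simp [hp', hE]
    rw [this]; nlinarith [mul_nonneg hκ hd0]
  set r := (T.image p).card with hr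
  have hr1 : 1 ≤ r := Finset.card_pos.mpr (hne.image p)
  have h1 : ∑ j, φ j (p j) - ∑ j, φ j (p' j) = ∑ j ∈ T, (φ j (p j) - φ j z) := by
    rw [← Finset.sum_sub_distrib, ← Finset.sum_subset (Finset.subset_univ T)]
    · exact Finset.sum_congr rfl fun j hj => by simp [hp', hj]
    · intro j _ hj; simp [hp', hj]
  have h2 : ∑ j ∈ T, (φ j (p j) - φ j z) ≤ r * (κ * d) := by
    rw [← Finset.sum_fiberwise_of_maps_to (g := p) (t := T.image p)
      (fun j hj => Finset.mem_image_of_mem p hj)]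
    have : ∀ x ∈ T.image p, ∑ j ∈ T with p j = x, (φ j (p j) - φ j z) ≤ κ * d := by
      intro x hx
      obtain ⟨j0, hj0, rfl⟩ := Finset.mem_image.mp hx
      have e : ∑ j ∈ T with p j = p j0, (φ j (p j) - φ j z)
          = ∑ j ∈ T with p j = p j0, φ j (p j0) - ∑ j ∈ T with p j = p j0, φ j z := by
        rw [← Finset.sum_sub_distrib]
        exact Finset.sum_congr rfl fun j hj => by rw [(Finset.mem_filter.mp hj).2]
      rw [e]
      exact (hL _ _ _).trans (mul_le_mul_of_nonneg_left (hT j0 hj0) hκ)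
    calc _ ≤ ∑ _x ∈ T.image p, κ * d := Finset.sum_le_sum this
      _ = r * (κ * d) := by simp [hr]
  have h3 : npos p' + r ≤ npos p + 1 := by
    have hsub : Finset.univ.image p' ⊆ insert z (Finset.univ.image p \ T.image p) := by
      intro x hx
      obtain ⟨j, _, rfl⟩ := Finset.mem_image.mp hx
      by_cases hj : j ∈ T
      · simp [hp', hj]
      · have : p' j = p j := by simp [hp', hj]
        rw [this]
        refine Finset.mem_insert_of_mem (Finset.mem_sdiff.mpr ⟨Finset.mem_image_of_mem _ (Finset.mem_univ _), ?_⟩)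
        intro h
        obtain ⟨k, hk, hk2⟩ := Finset.mem_image.mp h
        exact hj (hcl k j hk hk2)
    have hs2 : T.image p ⊆ Finset.univ.image p := Finset.image_subset_image (Finset.subset_univ _)
    have := Finset.card_le_card hsub
    have h5 := Finset.card_insert_le z (Finset.univ.image p \ T.image p)
    have h6 := Finset.card_sdiff_add_card_eq_card hs2
    unfold npos
    omega
  have h3' : (npos p' : ℝ) + r ≤ npos p + 1 := by exact_mod_cast h3
  have hr1' : (1 : ℝ) ≤ r := by exact_mod_cast hr1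
  have h4 : (r - 1) * (κ * d) ≤ (r - 1) * (κ * D) :=
    mul_le_mul_of_nonneg_left (mul_le_mul_of_nonneg_left hdD hκ) (by linarith)
  have h5 : (r - 1) * (κ * D) ≤ ((npos p : ℝ) - npos p') * (κ * D) :=
    mul_le_mul_of_nonneg_right (by linarith) (mul_nonneg hκ (hd0.trans hdD))
  nlinarith

inductive Good (U : ℕ → Set X) (i0 : ℕ) : Finset ℕ → Prop
  | base : Good U i0 {i0}
  | step (V : Finset ℕ) (i k : ℕ) (z : X) : Good U i0 V → k ∈ V → z ∈ U k → z ∈ U i →
      Good U i0 (insert i V)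

theorem Good.mem {U : ℕ → Set X} {i0 : ℕ} {V : Finset ℕ} (h : Good U i0 V) : i0 ∈ V := by
  induction h with
  | base => simp
  | step V i k z _ _ _ _ ih => exact Finset.mem_insert_of_mem ih

theorem Good.union {U : ℕ → Set X} {i0 : ℕ} {V W : Finset ℕ} (h : Good U i0 V)
    (h' : Good U i0 W) : Good U i0 (V ∪ W) := by
  induction h' with
  | base =>
    have : V ∪ {i0} = V := by
      ext x; simp only [Finset.mem_union, Finset.mem_singleton]
      constructor
      · rintro (h1 | rfl); exacts [h1, h.mem]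
      · exact Or.inl
    rw [this]; exact h
  | step W i k z _ hk h1 h2 ih =>
    rw [Finset.union_insert]
    exact Good.step _ i k z ih (Finset.mem_union_right _ hk) h1 h2

open Classical in
theorem good_bound [Nonempty ι] (φ : ι → X → ℝ) (κ : ℝ) (hκ : 0 ≤ κ)
    (hL : ∀ S : Finset ι, ∀ x y, ∑ j ∈ S, φ j x - ∑ j ∈ S, φ j y ≤ κ * dist x y)
    (h0 : ∀ x, ∑ j, φ j x = 0)
    (U : ℕ → Set X) (d : ℕ → ℝ) (D : ℝ) (hd0 : ∀ i, 0 ≤ d i) (hdD : ∀ i, d i ≤ D)
    (hU : ∀ i, ∀ x ∈ U i, ∀ y ∈ U i, dist x y ≤ d i) (i0 : ℕ) (V : Finset ℕ) (hV : Good U i0 V) :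
    ∀ p : ι → X, (∀ j, ∃ i ∈ V, p j ∈ U i) →
      ∑ j, φ j (p j) - κ * (npos p) * D ≤ κ * ∑ i ∈ V, d i - κ * D := by
  induction hV with
  | base =>
    intro p hp
    obtain ⟨j0⟩ := (inferInstance : Nonempty ι)
    have hp' : ∀ j, p j ∈ U i0 := fun j => by
      obtain ⟨i, hi, h⟩ := hp j
      rw [Finset.mem_singleton] at hi; rwa [hi] at h
    have := move φ κ hκ hL p Finset.univ (p j0) (d i0) D (hd0 _) (hdD _)
      (fun j _ => hU _ _ (hp' j) _ (hp' j0)) (fun _ _ _ _ => Finset.mem_univ _)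
    simp only [Finset.mem_univ, if_true] at this
    have e : npos (fun _ : ι => p j0) = 1 := by
      unfold npos
      rw [Finset.image_const Finset.univ_nonempty]; simp
    rw [e, h0] at this
    simp only [Finset.sum_singleton]
    push_cast at this
    linarith
  | step V i k z hV hk hz1 hz2 ih =>
    intro p hp
    by_cases hi : i ∈ V
    · rw [Finset.insert_eq_of_mem hi] at hp ⊢
      exact ih p hp
    set T : Finset ι := Finset.univ.filter (fun j => ¬ ∃ i ∈ V, p j ∈ U i) with hT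
    have hTi : ∀ j ∈ T, p j ∈ U i := by
      intro j hj
      obtain ⟨i', hi', h⟩ := hp j
      rcases Finset.mem_insert.mp hi' with rfl | h2
      · exact h
      · exact absurd ⟨i', h2, h⟩ (Finset.mem_filter.mp hj).2
    have h1 := move φ κ hκ hL p T z (d i) D (hd0 _) (hdD _)
      (fun j hj => hU _ _ (hTi j hj) _ hz2)
      (fun j k hj e => Finset.mem_filter.mpr ⟨Finset.mem_univ _, e ▸ (Finset.mem_filter.mp hj).2⟩)
    have h2 := ih (fun j => if j ∈ T then z else p j) (by
      intro j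
      by_cases hj : j ∈ T
      · exact ⟨k, hk, by simp [hj, hz1]⟩
      · have : ∃ i ∈ V, p j ∈ U i := by
          by_contra hc
          exact hj (Finset.mem_filter.mpr ⟨Finset.mem_univ _, hc⟩)
        simpa [hj] using this)
    rw [Finset.sum_insert hi]
    linarith

theorem exists_good (U : ℕ → Set X) (hU : ∀ i, IsOpen (U i)) (S : Set X) (hS : IsConnected S)
    (hcov : S ⊆ ⋃ i, U i) (p : ι → X) (hp : ∀ j, p j ∈ S) :
    ∃ i0 V, Good U i0 V ∧ ∀ j, ∃ i ∈ V, p j ∈ U i := by
  classical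
  obtain ⟨x0, hx0⟩ := hS.nonempty
  obtain ⟨i0, hi0⟩ := mem_iUnion.mp (hcov hx0)
  set W : Set X := ⋃ i ∈ {i | ∃ V, Good U i0 V ∧ i ∈ V}, U i with hW
  set W' : Set X := ⋃ i ∈ {i | ¬ ∃ V, Good U i0 V ∧ i ∈ V}, U i with hW'
  have hWo : IsOpen W := isOpen_biUnion fun i _ => hU i
  have hWo' : IsOpen W' := isOpen_biUnion fun i _ => hU i
  have hdis : Disjoint W W' := by
    rw [Set.disjoint_left]
    intro z hz hz'
    simp only [hW, hW', mem_iUnion, mem_setOf_eq] at hz hz'
    obtain ⟨k, ⟨V, hV, hk⟩, h1⟩ := hz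
    obtain ⟨i, hi, h2⟩ := hz'
    exact hi ⟨insert i V, Good.step V i k z hV hk h1 h2, Finset.mem_insert_self _ _⟩
  have hsub : S ⊆ W ∪ W' := by
    intro x hx
    obtain ⟨i, hi⟩ := mem_iUnion.mp (hcov hx)
    by_cases h : ∃ V, Good U i0 V ∧ i ∈ V
    · left; simp only [hW, mem_iUnion, mem_setOf_eq]; exact ⟨i, h, hi⟩
    · right; simp only [hW', mem_iUnion, mem_setOf_eq]; exact ⟨i, h, hi⟩
  have hx0W : x0 ∈ W := by
    simp only [hW, mem_iUnion, mem_setOf_eq]
    exact ⟨i0, ⟨{i0}, Good.base, by simp⟩, hi0⟩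
  have hSW : S ⊆ W := hS.isPreconnected.subset_left_of_subset_union hWo hWo' hdis hsub ⟨x0, hx0, hx0W⟩
  have hj : ∀ j, ∃ V, Good U i0 V ∧ ∃ i ∈ V, p j ∈ U i := by
    intro j
    have := hSW (hp j)
    simp only [hW, mem_iUnion, mem_setOf_eq] at this
    obtain ⟨i, ⟨V, hV, hi⟩, h⟩ := this
    exact ⟨V, hV, i, hi, h⟩
  have : ∀ s : Finset ι, ∃ V, Good U i0 V ∧ ∀ j ∈ s, ∃ i ∈ V, p j ∈ U i := by
    intro s
    induction s using Finset.induction_on with
    | empty => exact ⟨{i0}, Good.base, by simp⟩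
    | insert a s _ ih =>
      obtain ⟨V, hV, h⟩ := ih
      obtain ⟨V', hV', i, hi, h'⟩ := hj a
      refine ⟨V ∪ V', hV.union hV', ?_⟩
      intro j hj
      rcases Finset.mem_insert.mp hj with rfl | hj
      · exact ⟨i, Finset.mem_union_right _ hi, h'⟩
      · obtain ⟨i, hi, h⟩ := h j hj
        exact ⟨i, Finset.mem_union_left _ hi, h⟩
  obtain ⟨V, hV, h⟩ := this Finset.univ
  exact ⟨i0, V, hV, fun j => h j (Finset.mem_univ _)⟩

theorem tree_bound [Nonempty ι] [MeasurableSpace X] [BorelSpace X]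
    (φ : ι → X → ℝ) (κ : ℝ) (hκ : 0 ≤ κ)
    (hL : ∀ S : Finset ι, ∀ x y, ∑ j ∈ S, φ j x - ∑ j ∈ S, φ j y ≤ κ * dist x y)
    (h0 : ∀ x, ∑ j, φ j x = 0) (S : Set X) (hS : IsConnected S) (p : ι → X) (hp : ∀ j, p j ∈ S)
    (L : ℝ) (hL0 : 0 ≤ L) (hH : Measure.hausdorffMeasure 1 S ≤ ENNReal.ofReal L) :
    ∑ j, φ j (p j) ≤ κ * L := by
  have key : ∀ η : ℝ, 0 < η → ∑ j, φ j (p j) ≤ κ * L + κ * (5 + 3 * npos p) * η := by
    intro η hη
    have h1 : Measure.hausdorffMeasure 1 S < ENNReal.ofReal (L + η) :=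
      hH.trans_lt ((ENNReal.ofReal_lt_ofReal_iff (by linarith)).mpr (by linarith))
    rw [Measure.hausdorffMeasure_apply] at h1
    have h2 := lt_of_le_of_lt (le_iSup₂ (f := fun (r : ℝ≥0∞) (_ : 0 < r) =>
      ⨅ (t : ℕ → Set X) (_ : S ⊆ ⋃ n, t n) (_ : ∀ n, Metric.ediam (t n) ≤ r),
          ∑' n, ⨆ _ : (t n).Nonempty, Metric.ediam (t n) ^ (1 : ℝ))
      (ENNReal.ofReal η) (ENNReal.ofReal_pos.mpr hη)) h1
    simp only [iInf_lt_iff] at h2
    obtain ⟨t, hcov, hdi, hsum⟩ := h2
    have hsum' : ∑' n, Metric.ediam (t n) < ENNReal.ofReal (L + η) := by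
      refine lt_of_le_of_lt (ENNReal.tsum_le_tsum fun n => ?_) hsum
      rcases (t n).eq_empty_or_nonempty with h | h
      · simp [h]
      · simp [h]
    have hfin : ∀ n, Metric.ediam (t n) ≠ ⊤ := fun n =>
      ne_top_of_le_ne_top ENNReal.ofReal_ne_top (hdi n)
    set ρ : ℕ → ℝ := fun n => η * (1 / 2) ^ n with hρ
    have hρ0 : ∀ n, 0 < ρ n := fun n => by positivity
    have hρ1 : ∀ n, ρ n ≤ η := fun n => by
      have : (1 / 2 : ℝ) ^ n ≤ 1 := pow_le_one₀ (by norm_num) (by norm_num)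
      simp only [hρ]; nlinarith
    set U : ℕ → Set X := fun n => Metric.thickening (ρ n) (t n) with hU
    set d : ℕ → ℝ := fun n => (Metric.ediam (t n)).toReal + 2 * ρ n with hd
    have hd0 : ∀ n, 0 ≤ d n := fun n => by
      have := hρ0 n; simp only [hd]; positivity
    have hdη : ∀ n, (Metric.ediam (t n)).toReal ≤ η := fun n =>
      ENNReal.toReal_le_of_le_ofReal hη.le (hdi n)
    have hdD : ∀ n, d n ≤ 3 * η := fun n => by
      have := hρ1 n; have := hdη n; simp only [hd]; linarith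
    have hUd : ∀ i, ∀ x ∈ U i, ∀ y ∈ U i, dist x y ≤ d i := by
      intro i x hx y hy
      obtain ⟨x', hx', h1⟩ := Metric.mem_thickening_iff.mp hx
      obtain ⟨y', hy', h2⟩ := Metric.mem_thickening_iff.mp hy
      have h3 : dist x' y' ≤ (Metric.ediam (t i)).toReal :=
        Metric.dist_le_diam_of_mem' (hfin i) hx' hy'
      have h4 := dist_triangle4 x x' y' y
      rw [dist_comm y' y] at h4
      simp only [hd]; linarith
    obtain ⟨i0, V, hV, hpV⟩ := exists_good U (fun i => Metric.isOpen_thickening) S hS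
      (hcov.trans (iUnion_mono fun i => Metric.self_subset_thickening (hρ0 i) _)) p hp
    have hb := good_bound φ κ hκ hL h0 U d (3 * η) hd0 hdD hUd i0 V hV p hpV
    have hs1 : ∑ i ∈ V, (Metric.ediam (t i)).toReal ≤ L + η := by
      rw [← ENNReal.toReal_sum (fun i _ => hfin i)]
      exact ENNReal.toReal_le_of_le_ofReal (by linarith)
        ((ENNReal.sum_le_tsum V).trans hsum'.le)
    have hs2 : ∑ i ∈ V, ρ i ≤ 2 * η := by
      simp only [hρ]
      rw [← Finset.mul_sum]
      have : ∑ i ∈ V, (1 / 2 : ℝ) ^ i ≤ 2 := by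
        have := (hasSum_geometric_two).summable.sum_le_tsum V (fun i _ => by positivity)
        rwa [hasSum_geometric_two.tsum_eq] at this
      nlinarith
    have hs3 : ∑ i ∈ V, d i ≤ L + 5 * η := by
      simp only [hd]
      rw [Finset.sum_add_distrib, ← Finset.mul_sum]
      linarith
    have := mul_le_mul_of_nonneg_left hs3 hκ
    have h7 : 0 ≤ κ * (3 * η) := by positivity
    nlinarith
  refine le_of_forall_pos_le_add fun ε hε => ?_
  set M := κ * (5 + 3 * npos p) with hM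
  have hM0 : 0 ≤ M := by positivity
  have := key (ε / (M + 1)) (by positivity)
  have h2 : M * (ε / (M + 1)) ≤ ε := by
    rw [← mul_div_assoc, div_le_iff₀ (by positivity)]; nlinarith
  linarith

end H60.ST
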