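import Pool.Agent.H60.STa

set_option autoImplicit false
open Set Filter Topology MeasureTheory

namespace H60.ST

noncomputable def clamp (lo hi u : ℝ) : ℝ := max lo (min u hi)

theorem clamp_cont (lo hi : ℝ) : Continuous (clamp lo hi) := by
  unfold clamp; fun_prop

theorem clamp_ev (lo hi a b t : ℝ) (h : lo < hi) :
    ∀ᶠ z in 𝓝[>] t, (lo < a + z * b ∧ a + z * b < hi ∧
      clamp lo hi (a + z * b) - clamp lo hi (a + t * b) = (z - t) * b) ∨
      clamp lo hi (a + z * b) = clamp lo hi (a + t * b) := by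
  have hc : Tendsto (fun z => a + z * b) (𝓝[>] t) (𝓝 (a + t * b)) :=
    ((by fun_prop : Continuous fun z : ℝ => a + z * b).tendsto t).mono_left nhdsWithin_le_nhds
  have hz : ∀ᶠ z in 𝓝[>] t, t < z := self_mem_nhdsWithin
  set u := a + t * b with hu
  have hdiff : ∀ z, a + z * b = u + (z - t) * b := fun z => by rw [hu]; ring
  rcases lt_trichotomy u lo with h1 | h1 | h1
  · filter_upwards [hc.eventually (gt_mem_nhds h1)] with z h2
    right; unfold clamp
    rw [max_eq_left ((min_le_left _ _).trans h2.le), max_eq_left ((min_le_left _ _).trans h1.le)]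
  · filter_upwards [hc.eventually (gt_mem_nhds (h1 ▸ h : u < hi)), hz] with z h2 h3
    rcases lt_or_ge lo (a + z * b) with h4 | h4
    · left; refine ⟨h4, h2, ?_⟩
      unfold clamp
      rw [min_eq_left h2.le, max_eq_right h4.le, min_eq_left (h1 ▸ h.le), h1, max_self, hdiff, h1]
      ring
    · right; unfold clamp
      rw [max_eq_left ((min_le_left _ _).trans h4), max_eq_left ((min_le_left _ _).trans h1.le)]
  rcases lt_trichotomy u hi with h5 | h5 | h5
  · filter_upwards [hc.eventually (gt_mem_nhds h5), hc.eventually (lt_mem_nhds h1)] with z h2 h3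
    left; refine ⟨h3, h2, ?_⟩
    unfold clamp
    rw [min_eq_left h2.le, max_eq_right h3.le, min_eq_left h5.le, max_eq_right h1.le, hdiff]
    ring
  · filter_upwards [hc.eventually (lt_mem_nhds h1), hz] with z h2 h3
    rcases lt_or_ge (a + z * b) hi with h4 | h4
    · left; refine ⟨h2, h4, ?_⟩
      unfold clamp
      rw [min_eq_left h4.le, max_eq_right h2.le, min_eq_left h5.le, max_eq_right h1.le, hdiff]
      ring
    · right; unfold clamp
      rw [min_eq_right h4, min_eq_right h5.ge]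
  · filter_upwards [hc.eventually (lt_mem_nhds h5)] with z h2
    right; unfold clamp
    rw [min_eq_right h2.le, min_eq_right h5.le]

theorem alt_sum (S : Finset ℕ) (v : ℕ → ℝ) (m : ℕ) (C : ℝ)
    (hv : ∀ j, j ≠ m + 1 → j ≠ m + 2 → v j = 0)
    (h1 : |v (m + 1)| ≤ C) (h2 : |v (m + 2)| ≤ C) (h3 : |v (m + 1) - v (m + 2)| ≤ C) :
    ∑ j ∈ S, (v j - v (j + 1)) ≤ C := by
  have e : ∀ j, v j - v (j + 1) = (if j = m then - v (m + 1) else 0)
      + (if j = m + 1 then v (m + 1) - v (m + 2) else 0) + (if j = m + 2 then v (m + 2) else 0) := by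
    intro j
    by_cases a : j = m
    · subst a; simp [hv j (by omega) (by omega)]
    by_cases b : j = m + 1
    · subst b; simp
    by_cases c : j = m + 2
    · subst c; simp [hv (m + 2 + 1) (by omega) (by omega)]
    simp [a, b, c, hv j b c, hv (j + 1) (by omega) (by omega)]
  rw [Finset.sum_congr rfl (fun j _ => e j)]
  simp only [Finset.sum_add_distrib, Finset.sum_ite_eq']
  rw [abs_le] at h1 h2 h3
  split_ifs <;> linarith [h1.1, h1.2, h2.1, h2.2, h3.1, h3.2]

noncomputable def al (j : ℕ) : ℝ := if j = 1 then 4 / 5 else if j = 2 then 11 / 10 else 1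
noncomputable def be (j : ℕ) : ℝ :=
  if j = 1 then 7 / 5 else if j = 2 then -1 / 2 else if j % 2 = 1 then 1 else -1
noncomputable def lo (j : ℕ) : ℝ :=
  if j = 1 then 0 else if j = 2 then -1 / 2 else if j % 2 = 1 then j - 1 else j - 2
noncomputable def hi (j : ℕ) : ℝ :=
  if j = 1 then 7 / 5 else if j = 2 then 11 / 5 else if j % 2 = 1 then j + 1 else j

theorem lo_lt_hi (j : ℕ) : lo j < hi j := by
  unfold lo hi; split_ifs <;> linarith

theorem nb1 (j : ℕ) : 3 * al j ^ 2 + be j ^ 2 ≤ 4 := by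
  unfold al be; split_ifs <;> norm_num

theorem nb2 (j : ℕ) (hj : 1 ≤ j) :
    3 * (al j - al (j + 1)) ^ 2 + (be j - be (j + 1)) ^ 2 ≤ 4 := by
  unfold al be; split_ifs <;> first | omega | norm_num

theorem act (i j : ℕ) (hi1 : 1 ≤ i) (hij : i + 2 ≤ j) (x Y : ℝ) (h0 : 0 ≤ Y) (h1 : Y ≤ 1)
    (hA : al i * x + be i * Y < hi i) (hB : lo j < al j * x + be j * Y) : False := by
  have hj3 : (i : ℝ) + 2 ≤ j := by exact_mod_cast hij
  have hi1' : (1 : ℝ) ≤ i := by exact_mod_cast hi1
  unfold al be lo at hB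
  unfold al be hi at hA
  have hj1 : j ≠ 1 := by omega
  have hj2 : j ≠ 2 := by omega
  simp only [hj1, hj2, if_false] at hB
  by_cases a : i = 1
  · subst a
    simp only [if_true] at hA
    push_cast at hj3
    by_cases b : j % 2 = 1
    · simp only [b, if_true] at hB; linarith
    · simp only [b, if_false] at hB
      have : (4 : ℝ) ≤ j := by exact_mod_cast (by omega : 4 ≤ j)
      linarith
  by_cases a2 : i = 2
  · subst a2
    norm_num at hA
    by_cases b : j % 2 = 1
    · simp only [b, if_true] at hB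
      have : (5 : ℝ) ≤ j := by exact_mod_cast (by omega : 5 ≤ j)
      linarith
    · simp only [b, if_false] at hB
      have : (4 : ℝ) ≤ j := by exact_mod_cast (by omega : 4 ≤ j)
      linarith
  simp only [a, a2, if_false] at hA
  by_cases c : i % 2 = 1
  · simp only [c, if_true] at hA
    by_cases b : j % 2 = 1
    · simp only [b, if_true] at hB; linarith
    · simp only [b, if_false] at hB
      have : (i : ℝ) + 3 ≤ j := by exact_mod_cast (by omega : i + 3 ≤ j)
      linarith
  · simp only [c, if_false] at hA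
    by_cases b : j % 2 = 1
    · simp only [b, if_true] at hB
      have : (i : ℝ) + 3 ≤ j := by exact_mod_cast (by omega : i + 3 ≤ j)
      linarith
    · simp only [b, if_false] at hB; linarith

noncomputable def Ps (n j : ℕ) (x Y : ℝ) : ℝ :=
  if 1 ≤ j ∧ j < n then clamp (lo j) (hi j) (al j * x + be j * Y) else 0

theorem lin_bd (a b dx dY C : ℝ) (hC : 0 ≤ C) (h : 3 * a ^ 2 + b ^ 2 ≤ 4)
    (h2 : 4 * (dx ^ 2 / 3 + dY ^ 2) ≤ C ^ 2) : |a * dx + b * dY| ≤ C := by
  apply abs_le_of_sq_le_sq' _ hC |> fun h => abs_le.mpr h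
  have : (a * dx + b * dY) ^ 2 ≤ (3 * a ^ 2 + b ^ 2) * (dx ^ 2 / 3 + dY ^ 2) := by
    nlinarith [sq_nonneg (3 * a * dY - b * dx)]
  have h3 : (3 * a ^ 2 + b ^ 2) * (dx ^ 2 / 3 + dY ^ 2) ≤ 4 * (dx ^ 2 / 3 + dY ^ 2) :=
    mul_le_mul_of_nonneg_right h (by positivity)
  linarith

theorem lip (n : ℕ) (S : Finset ℕ) (x Y x' Y' C : ℝ) (h0 : 0 ≤ Y) (h1 : Y ≤ 1)
    (h0' : 0 ≤ Y') (h1' : Y' ≤ 1) (hC : 0 ≤ C)
    (h2 : 4 * ((x' - x) ^ 2 / 3 + (Y' - Y) ^ 2) ≤ C ^ 2) :
    ∑ j ∈ S, (Ps n j x' Y' - Ps n (j + 1) x' Y') - ∑ j ∈ S, (Ps n j x Y - Ps n (j + 1) x Y) ≤ C := by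
  classical
  set a : ℕ → ℝ := fun j => al j * x + be j * Y with ha
  set b : ℕ → ℝ := fun j => al j * (x' - x) + be j * (Y' - Y) with hb
  set G : ℕ → ℝ → ℝ := fun j t =>
    if 1 ≤ j ∧ j < n then clamp (lo j) (hi j) (a j + t * b j) else 0 with hG
  have hGc : ∀ j, Continuous (G j) := by
    intro j
    simp only [hG]
    split_ifs
    · exact (clamp_cont _ _).comp (by fun_prop)
    · exact continuous_const
  set F : ℝ → ℝ := fun t => ∑ j ∈ S, (G j t - G (j + 1) t) with hF
  have hFc : Continuous F := continuous_finset_sum _ fun j _ => (hGc j).sub (hGc _)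
  have hG0 : ∀ j, G j 0 = Ps n j x Y := fun j => by simp [hG, Ps, ha]
  have hG1 : ∀ j, G j 1 = Ps n j x' Y' := fun j => by
    simp only [hG, Ps, ha, hb]
    congr 2; ring
  have hb1 : ∀ j, |b j| ≤ C := fun j => lin_bd _ _ _ _ _ hC (nb1 j) h2
  have hb2 : ∀ j, 1 ≤ j → |b j - b (j + 1)| ≤ C := fun j hj => by
    have := lin_bd _ _ _ _ _ hC (nb2 j hj) h2
    convert this using 2; simp only [hb]; ring
  have main := image_le_of_liminf_slope_right_le_deriv_boundary (f := F) (a := 0) (b := 1)
    hFc.continuousOn (B := fun t => F 0 + C * t) (B' := fun _ => C) (by simp)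
    (by fun_prop) (fun t _ => by
      simpa using ((hasDerivAt_id t).const_mul C).const_add (F 0) |>.hasDerivWithinAt)
    (fun t ht r hr => by
      apply Eventually.frequently
      have hall : ∀ᶠ z in 𝓝[>] t, ∀ j ∈ Finset.range n,
          (lo j < a j + z * b j ∧ a j + z * b j < hi j ∧
          clamp (lo j) (hi j) (a j + z * b j) - clamp (lo j) (hi j) (a j + t * b j) = (z - t) * b j) ∨
          clamp (lo j) (hi j) (a j + z * b j) = clamp (lo j) (hi j) (a j + t * b j) :=
        (Finset.eventually_all _).mpr fun j _ => clamp_ev _ _ _ _ _ (lo_lt_hi j)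
      have hz : ∀ᶠ z in 𝓝[>] t, z ∈ Ioo t 1 := Ioo_mem_nhdsGT ht.2
      filter_upwards [hall, hz] with z hz1 hz2
      have hzt : 0 < z - t := by linarith [hz2.1]
      set A : ℕ → Prop := fun j => (1 ≤ j ∧ j < n) ∧ lo j < a j + z * b j ∧ a j + z * b j < hi j ∧
          G j z - G j t = (z - t) * b j with hA
      set v : ℕ → ℝ := fun j => if A j then b j else 0 with hv
      have hGv : ∀ j, G j z - G j t = (z - t) * v j := by
        intro j
        by_cases h : A j
        · simp only [hv, if_pos h]; exact h.2.2.2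
        · simp only [hv, if_neg h, mul_zero]
          by_cases h' : 1 ≤ j ∧ j < n
          · rcases hz1 j (Finset.mem_range.mpr h'.2) with h3 | h3
            · exact absurd ⟨h', h3.1, h3.2.1, by simp only [hG, if_pos h']; exact h3.2.2⟩ h
            · simp only [hG, if_pos h', h3, sub_self]
          · simp only [hG, if_neg h', sub_self]
      have hclose : ∀ i j, A i → A j → j ≤ i + 1 := by
        intro i j hi' hj'
        by_contra hc
        have e : ∀ k, a k + z * b k = al k * (x + z * (x' - x)) + be k * (Y + z * (Y' - Y)) :=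
          fun k => by simp only [ha, hb]; ring
        have hz0 : 0 ≤ z := ht.1.trans hz2.1.le
        refine act i j hi'.1.1 (by omega) (x + z * (x' - x)) (Y + z * (Y' - Y)) ?_ ?_
          (e i ▸ hi'.2.2.1) (e j ▸ hj'.2.1)
        · nlinarith [hz2.2]
        · nlinarith [hz2.2]
      obtain ⟨m, hm⟩ : ∃ m, ∀ j, A j → j = m + 1 ∨ j = m + 2 := by
        by_cases hex : ∃ j, A j
        · have h5 := Nat.find_spec hex
          refine ⟨Nat.find hex - 1, fun j hj => ?_⟩
          have h6 := Nat.find_min' hex hj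
          have h7 := hclose _ _ h5 hj
          have h8 := h5.1.1
          omega
        · exact ⟨0, fun j hj => absurd ⟨j, hj⟩ hex⟩
      have hs := alt_sum S v m C (fun j h1 h2 => by
          simp only [hv]; rw [if_neg]; intro h; rcases hm j h with h | h <;> contradiction)
        (by simp only [hv]; split_ifs; exacts [hb1 _, by simpa using hC])
        (by simp only [hv]; split_ifs; exacts [hb1 _, by simpa using hC])
        (by
          simp only [hv]; split_ifs
          · exact hb2 _ (by omega)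
          · simpa using hb1 _
          · simpa using hb1 _
          · simpa using hC)
      have hFd : F z - F t = (z - t) * ∑ j ∈ S, (v j - v (j + 1)) := by
        simp only [hF]
        rw [← Finset.sum_sub_distrib, Finset.mul_sum]
        refine Finset.sum_congr rfl fun j _ => ?_
        have := hGv j; have := hGv (j + 1); linarith
      rw [slope_def_field, hFd, mul_div_cancel_left₀ _ hzt.ne']
      exact hs.trans_lt hr)
  have := main (x := 1) ⟨zero_le_one, le_rfl⟩
  simp only [hF, hG0, hG1] at this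
  linarith

/-- positions -/
noncomputable def px (j : ℕ) : ℝ := if j = 1 then 0 else j
noncomputable def pY (j : ℕ) : ℝ := if j % 2 = 1 then 1 else 0

theorem val_hi (j : ℕ) (hj : 1 ≤ j) : al j * px j + be j * pY j = hi j := by
  unfold al be hi px pY
  split_ifs <;> first | omega | (simp_all; done) | (subst_vars; norm_num) | ring

theorem val_lo (j : ℕ) : al (j + 1) * px j + be (j + 1) * pY j = lo (j + 1) := by
  unfold al be lo px pY
  split_ifs <;> first | omega | (push_cast; ring; done) | (have : j = 0 := by omega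
                                                           subst this; norm_num)

theorem obj (n : ℕ) (hn : 3 ≤ n) :
    ∑ j ∈ Finset.range n, (Ps n j (px j) (pY j) - Ps n (j + 1) (px j) (pY j))
      = 2 * ((n : ℝ) - 1) + 1 / 10 := by
  have e1 : ∀ j ∈ Finset.range n, Ps n j (px j) (pY j) = if 1 ≤ j then hi j else 0 := by
    intro j hj
    have := Finset.mem_range.mp hj
    unfold Ps
    by_cases h : 1 ≤ j
    · rw [if_pos ⟨h, this⟩, if_pos h, val_hi j h]
      unfold clamp; rw [min_self, max_eq_right (lo_lt_hi j).le]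
    · rw [if_neg (fun h' => h h'.1), if_neg h]
  have e2 : ∀ j, Ps n (j + 1) (px j) (pY j) = if j + 1 < n then lo (j + 1) else 0 := by
    intro j
    unfold Ps
    by_cases h : j + 1 < n
    · rw [if_pos ⟨by omega, h⟩, if_pos h, val_lo j]
      unfold clamp; rw [min_eq_left (lo_lt_hi _).le, max_self]
    · rw [if_neg (fun h' => h h'.2), if_neg h]
  rw [Finset.sum_sub_distrib, Finset.sum_congr rfl e1, Finset.sum_congr rfl (fun j _ => e2 j)]
  obtain ⟨m, rfl⟩ : ∃ m, n = m + 1 := ⟨n - 1, by omega⟩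
  rw [Finset.sum_range_succ', Finset.sum_range_succ _ m]
  have e3 : ∑ j ∈ Finset.range m, (if j + 1 < m + 1 then lo (j + 1) else 0)
      = ∑ j ∈ Finset.range m, lo (j + 1) :=
    Finset.sum_congr rfl fun j hj => by rw [if_pos (by have := Finset.mem_range.mp hj; omega)]
  rw [e3]
  simp only [le_add_iff_nonneg_left, zero_le, if_true, lt_self_iff_false, if_false, add_zero,
    show ¬ (1 ≤ 0) by omega]
  rw [← Finset.sum_sub_distrib]
  obtain ⟨k, rfl⟩ : ∃ k, m = k + 2 := ⟨m - 2, by omega⟩
  rw [Finset.sum_range_succ', Finset.sum_range_succ']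
  have e4 : ∀ j ∈ Finset.range k, hi (j + 1 + 1 + 1) - lo (j + 1 + 1 + 1) = 2 := by
    intro j _
    unfold hi lo
    split_ifs <;> first | omega | ring
  rw [Finset.sum_congr rfl e4]
  simp [hi, lo]
  ring

abbrev E := EuclideanSpace ℝ (Fin 2)

noncomputable def Yc (p : E) : ℝ := clamp 0 1 (p 0 / √3)

theorem Yc0 (p : E) : 0 ≤ Yc p := le_max_left _ _
theorem Yc1 (p : E) : Yc p ≤ 1 := max_le zero_le_one (min_le_right _ _)

theorem clamp_lip (lo hi u v : ℝ) : |clamp lo hi u - clamp lo hi v| ≤ |u - v| := by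
  unfold clamp
  refine (abs_max_sub_max_le_max _ _ _ _).trans ?_
  rw [sub_self, abs_zero]
  refine max_le (abs_nonneg _) ((abs_min_sub_min_le_max _ _ _ _).trans ?_)
  rw [sub_self, abs_zero]
  exact max_le le_rfl (abs_nonneg _)

theorem main (n : ℕ) (hn : 3 ≤ n) : ∃ P : Fin n → E,
    (∀ i, 0 ≤ P i 0 ∧ P i 0 ≤ √3 ∧ 0 ≤ P i 1 ∧ P i 1 ≤ (n : ℝ) - 1) ∧
    ∀ S : Set E, IsConnected S → (∀ i, P i ∈ S) → ∀ L : ℝ, 0 ≤ L →
      Measure.hausdorffMeasure 1 S ≤ ENNReal.ofReal L →
      2 * ((n : ℝ) - 1) + 1 / 10 ≤ 2 / √3 * L := by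
  classical
  have h3 : (0 : ℝ) < √3 := by positivity
  have h33 : (√3 : ℝ) ^ 2 = 3 := Real.sq_sqrt (by norm_num)
  set P : Fin n → E := fun i => !₂[√3 * pY i, px i] with hP
  have hP0 : ∀ i, P i 0 = √3 * pY i := fun i => by simp [hP]
  have hP1 : ∀ i, P i 1 = px i := fun i => by simp [hP]
  refine ⟨P, fun i => ?_, fun S hS hPS L hL0 hH => ?_⟩
  · rw [hP0, hP1]
    have hi : ((i : ℕ) : ℝ) + 1 ≤ n := by exact_mod_cast i.2
    have hi0 : (0 : ℝ) ≤ (i : ℕ) := by positivity
    unfold px pY
    refine ⟨?_, ?_, ?_, ?_⟩ <;> split_ifs <;> nlinarith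
  haveI : Nonempty (Fin n) := ⟨⟨0, by omega⟩⟩
  set φ : Fin n → E → ℝ := fun j p => Ps n j (p 1) (Yc p) - Ps n (j + 1) (p 1) (Yc p) with hφ
  have hb := tree_bound φ (2 / √3) (by positivity) (fun T p q => by
      have := lip n (T.map Fin.valEmbedding) (q 1) (Yc q) (p 1) (Yc p) (2 / √3 * dist p q)
        (Yc0 _) (Yc1 _) (Yc0 _) (Yc1 _) (by positivity) (by
          rw [mul_pow, div_pow, h33, EuclideanSpace.dist_eq, Real.sq_sqrt (by positivity)]
          simp only [Fin.sum_univ_two, Real.dist_eq, sq_abs]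
          have h1 := clamp_lip 0 1 (p 0 / √3) (q 0 / √3)
          have h2 : (Yc p - Yc q) ^ 2 ≤ (p 0 / √3 - q 0 / √3) ^ 2 := sq_le_sq.mpr h1
          have h4 : (p 0 / √3 - q 0 / √3) ^ 2 = (p 0 - q 0) ^ 2 / 3 := by
            rw [← sub_div, div_pow, h33]
          linarith)
      simpa [Finset.sum_map, hφ] using this)
    (fun p => by
      simp only [hφ]
      rw [Fin.sum_univ_eq_sum_range (fun j => Ps n j (p 1) (Yc p) - Ps n (j + 1) (p 1) (Yc p)),
        Finset.sum_range_sub']
      simp [Ps]) S hS P hPS L hL0 hH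
  have hY : ∀ i, Yc (P i) = pY i := fun i => by
    unfold Yc; rw [hP0, mul_div_cancel_left₀ _ h3.ne']
    unfold clamp pY; split_ifs <;> simp
  simp only [hφ, hY, hP1] at hb
  rw [Fin.sum_univ_eq_sum_range (fun j => Ps n j (px j) (pY j) - Ps n (j + 1) (px j) (pY j)),
    obj n hn] at hb
  exact hb

end H60.ST
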