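import Mathlib

namespace Pool.Agent.H60.SZ

open Polynomial

/-- The power-sum polynomial `s_j(x) = (B_{j+1}(x+1) - B_{j+1}) / (j+1)`, so that
`s_j(N) = 1^j + … + N^j`. -/
noncomputable def s (j : ℕ) : ℚ[X] :=
  C (1 / (j + 1 : ℚ)) * ((Polynomial.bernoulli (j + 1)).comp (X + 1) - C (_root_.bernoulli (j + 1)))

/-- The series `∑_{j=1}^r (-1)^{j+1} B_j / (j · j!) · (s_j(x) - x) z^j` in `ℚ[x]⟦z⟧`. -/
noncomputable def A (r : ℕ) : PowerSeries ℚ[X] :=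
  ∑ j ∈ Finset.Icc 1 r,
    PowerSeries.C (C ((-1) ^ (j + 1) * _root_.bernoulli j / (j * j.factorial : ℚ)) * (s j - X)) *
      PowerSeries.X ^ j

/-- `P_{01r}(x) = (-4)^r r! [z^r] e^z β(z)^{r+1} exp(A_r(z))`, where `β(z) = ∑ B_j z^j / j!`. -/
noncomputable def P (r : ℕ) : ℚ[X] :=
  C ((-4) ^ r * r.factorial : ℚ) *
    PowerSeries.coeff r (PowerSeries.exp ℚ[X] * bernoulliPowerSeries ℚ[X] ^ (r + 1) *
      (PowerSeries.exp ℚ[X]).subst (A r))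

end Pool.Agent.H60.SZ
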