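import Mathlib
import Pool.Agent.H60.SZDefs

namespace Pool.Agent.H60.SZ

open Polynomial

lemma s_eval (j : ℕ) (hj : 1 ≤ j) (N : ℕ) :
    (s j).eval (N : ℚ) = ∑ i ∈ Finset.Icc 1 N, (i : ℚ) ^ j := by
  have h := Polynomial.sum_range_pow_eq_bernoulli_sub (N + 1) j
  have h2 : ∑ i ∈ Finset.range (N + 1), (i : ℚ) ^ j = ∑ i ∈ Finset.Icc 1 N, (i : ℚ) ^ j := by
    rw [Finset.range_eq_Ico, Finset.sum_eq_sum_Ico_succ_bot (by omega), Nat.cast_zero,
      zero_pow (by omega), zero_add]
    rfl
  rw [h2] at h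
  simp only [s, eval_mul, eval_C, eval_sub, eval_comp, eval_add, eval_X, eval_one]
  push_cast at h
  rw [← h]
  field_simp

noncomputable def F (r : ℕ) : PowerSeries ℚ[X] :=
  PowerSeries.exp ℚ[X] * bernoulliPowerSeries ℚ[X] ^ (r + 1) * (PowerSeries.exp ℚ[X]).subst (A r)

noncomputable def M (r : ℕ) : PowerSeries ℚ[X] :=
  PowerSeries.X + PowerSeries.C (C (r + 1 : ℚ)) * (1 - bernoulliPowerSeries ℚ[X] - PowerSeries.X) +
    PowerSeries.X * PowerSeries.derivative ℚ[X] (A r)

lemma A_const (r : ℕ) : PowerSeries.constantCoeff (A r) = 0 := by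
  simp only [A, map_sum, map_mul, map_pow, PowerSeries.constantCoeff_X]
  refine Finset.sum_eq_zero fun j hj => ?_
  rw [zero_pow (by have := (Finset.mem_Icc.1 hj).1; omega), mul_zero]

lemma ode_gen (R : Type*) [CommRing R] [Algebra ℚ R] (A : PowerSeries R)
    (hA : PowerSeries.constantCoeff A = 0) (r : ℕ) :
    PowerSeries.X * PowerSeries.derivative R
      (PowerSeries.exp R * bernoulliPowerSeries R ^ (r + 1) * (PowerSeries.exp R).subst A) =
    (PowerSeries.X + ((r : PowerSeries R) + 1) * (1 - bernoulliPowerSeries R - PowerSeries.X) +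
      PowerSeries.X * PowerSeries.derivative R A) *
      (PowerSeries.exp R * bernoulliPowerSeries R ^ (r + 1) * (PowerSeries.exp R).subst A) := by
  have hs := PowerSeries.HasSubst.of_constantCoeff_zero' hA
  have h1 := bernoulliPowerSeries_mul_exp_sub_one R
  have h2 := congrArg (PowerSeries.derivative R) h1
  rw [Derivation.leibniz, map_sub, PowerSeries.derivative_exp, PowerSeries.derivative_X,
    Derivation.map_one_eq_zero] at h2
  simp only [smul_eq_mul] at h2
  have h3 : PowerSeries.X * PowerSeries.derivative R (bernoulliPowerSeries R) =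
      bernoulliPowerSeries R * (1 - bernoulliPowerSeries R - PowerSeries.X) := by
    linear_combination bernoulliPowerSeries R * h2 -
      (PowerSeries.derivative R (bernoulliPowerSeries R) + bernoulliPowerSeries R) * h1
  rw [Derivation.leibniz, Derivation.leibniz, Derivation.leibniz_pow,
    PowerSeries.derivative_subst hs, PowerSeries.derivative_exp]
  simp only [smul_eq_mul, nsmul_eq_mul, Nat.add_sub_cancel]
  push_cast
  linear_combination ((PowerSeries.exp R).subst A * PowerSeries.exp R *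
    ((r : PowerSeries R) + 1) * bernoulliPowerSeries R ^ r) * h3

lemma ode (r : ℕ) : PowerSeries.X * PowerSeries.derivative ℚ[X] (F r) = M r * F r := by
  have h4 : (PowerSeries.C (C (r + 1 : ℚ)) : PowerSeries ℚ[X]) = (r : PowerSeries ℚ[X]) + 1 := by
    simp
  unfold F M
  rw [h4]
  exact ode_gen ℚ[X] (A r) (A_const r) r

noncomputable def f (r : ℕ) (x : ℚ) (n : ℕ) : ℚ := (PowerSeries.coeff n (F r)).eval x

noncomputable def m (r : ℕ) (x : ℚ) (n : ℕ) : ℚ := (PowerSeries.coeff n (M r)).eval x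

lemma recur (r : ℕ) (x : ℚ) (n : ℕ) :
    f r x (n + 1) * (n + 1) = ∑ i ∈ Finset.range (n + 2), m r x i * f r x (n + 1 - i) := by
  have := congrArg (fun g => (PowerSeries.coeff (n + 1) g).eval x) (ode r)
  simp only [PowerSeries.coeff_succ_X_mul, PowerSeries.coeff_derivative] at this
  rw [PowerSeries.coeff_mul, Finset.Nat.sum_antidiagonal_eq_sum_range_succ_mk] at this
  simpa [eval_finset_sum, f, m] using this

lemma f_zero (r : ℕ) (x : ℚ) : f r x 0 = 1 := by
  have hs := PowerSeries.HasSubst.of_constantCoeff_zero' (A_const r)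
  have h1 : PowerSeries.constantCoeff ((PowerSeries.exp ℚ[X]).subst (A r)) = 1 := by
    rw [← PowerSeries.coeff_zero_eq_constantCoeff_apply, PowerSeries.coeff_subst' hs,
      finsum_eq_single _ 0]
    · simp
    · intro d hd
      simp [A_const, hd]
  have h2 : PowerSeries.constantCoeff (bernoulliPowerSeries ℚ[X]) = 1 := by
    simp [bernoulliPowerSeries]
  simp [f, F, h1, h2]

lemma m_zero (r : ℕ) (x : ℚ) : m r x 0 = 0 := by
  simp [m, M, bernoulliPowerSeries]

lemma m_eq (r N j : ℕ) (h1 : 1 ≤ j) (h2 : j ≤ r) :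
    m r (N : ℚ) j = (if j = 1 then 1 else 0) +
      (r + 1) * (-(_root_.bernoulli j / j.factorial) - if j = 1 then 1 else 0) +
      (-1) ^ (j + 1) * _root_.bernoulli j / (j * j.factorial) *
        (∑ i ∈ Finset.Icc 1 N, (i : ℚ) ^ j - N) * j := by
  obtain ⟨j, rfl⟩ : ∃ i, j = i + 1 := ⟨j - 1, by omega⟩
  have hA : PowerSeries.coeff (j + 1) (A r) =
      C ((-1) ^ (j + 1 + 1) * _root_.bernoulli (j + 1) /
        ((j + 1 : ℕ) * (j + 1).factorial : ℚ)) * (s (j + 1) - X) := by
    simp only [A, map_sum, PowerSeries.coeff_C_mul, PowerSeries.coeff_X_pow]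
    rw [Finset.sum_eq_single (j + 1)]
    · simp
    · intro b _ hb
      rw [if_neg (Ne.symm hb), mul_zero]
    · intro h
      exact absurd (Finset.mem_Icc.2 ⟨h1, h2⟩) h
  simp only [m, M]
  rw [map_add, map_add, PowerSeries.coeff_C_mul]
  simp only [map_sub, PowerSeries.coeff_succ_X_mul,
    PowerSeries.coeff_derivative, hA, PowerSeries.coeff_X, PowerSeries.coeff_one,
    bernoulliPowerSeries, PowerSeries.coeff_mk, eval_add, eval_mul, eval_sub, eval_C, eval_X,
    s_eval (j + 1) h1 N, Polynomial.algebraMap_apply]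
  simp [apply_ite (eval (N : ℚ))]

lemma P_eval (r : ℕ) (x : ℚ) : (P r).eval x = (-4) ^ r * r.factorial * f r x r := by
  simp only [P, f, F, eval_mul, eval_C]

lemma b0 : _root_.bernoulli 0 = 1 := _root_.bernoulli_zero

lemma b1 : _root_.bernoulli 1 = -1 / 2 := _root_.bernoulli_one

lemma b2 : _root_.bernoulli 2 = 1 / 6 := by rw [_root_.bernoulli_two]; norm_num

lemma b3 : _root_.bernoulli 3 = 0 := bernoulli_eq_zero_of_odd (by decide) (by norm_num)

lemma b4 : _root_.bernoulli 4 = (-1 / 30 : ℚ) := by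
  have := _root_.sum_bernoulli 5
  simp only [Finset.sum_range_succ, Finset.range_zero, Finset.sum_empty, b0, b1, b2, b3] at this
  norm_num [Nat.choose] at this
  linarith

lemma b5 : _root_.bernoulli 5 = 0 := bernoulli_eq_zero_of_odd (by decide) (by norm_num)

lemma b6 : _root_.bernoulli 6 = (1 / 42 : ℚ) := by
  have := _root_.sum_bernoulli 7
  simp only [Finset.sum_range_succ, Finset.range_zero, Finset.sum_empty, b0, b1, b2, b3, b4, b5] at this
  norm_num [Nat.choose] at this
  linarith

lemma b7 : _root_.bernoulli 7 = 0 := bernoulli_eq_zero_of_odd (by decide) (by norm_num)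

lemma b8 : _root_.bernoulli 8 = (-1 / 30 : ℚ) := by
  have := _root_.sum_bernoulli 9
  simp only [Finset.sum_range_succ, Finset.range_zero, Finset.sum_empty, b0, b1, b2, b3, b4, b5, b6, b7] at this
  norm_num [Nat.choose] at this
  linarith

lemma eval_1 : (P 8).eval (1 : ℚ) = (0 / 1 : ℚ) := by
  have hrec := recur 8 (1 : ℚ)
  have m0 := m_zero 8 (1 : ℚ)
  have m1 : m 8 (1 : ℚ) 1 = (-7 / 2 : ℚ) := by
    have := m_eq 8 1 1 (by norm_num) (by norm_num)
    push_cast at this
    rw [this, b1]
    norm_num [Finset.sum_Icc_succ_top, Nat.factorial]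
  have m2 : m 8 (1 : ℚ) 2 = (-3 / 4 : ℚ) := by
    have := m_eq 8 1 2 (by norm_num) (by norm_num)
    push_cast at this
    rw [this, b2]
    norm_num [Finset.sum_Icc_succ_top, Nat.factorial]
  have m3 : m 8 (1 : ℚ) 3 = (0 / 1 : ℚ) := by
    have := m_eq 8 1 3 (by norm_num) (by norm_num)
    push_cast at this
    rw [this, b3]
    norm_num [Finset.sum_Icc_succ_top, Nat.factorial]
  have m4 : m 8 (1 : ℚ) 4 = (1 / 80 : ℚ) := by
    have := m_eq 8 1 4 (by norm_num) (by norm_num)
    push_cast at this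
    rw [this, b4]
    norm_num [Finset.sum_Icc_succ_top, Nat.factorial]
  have m5 : m 8 (1 : ℚ) 5 = (0 / 1 : ℚ) := by
    have := m_eq 8 1 5 (by norm_num) (by norm_num)
    push_cast at this
    rw [this, b5]
    norm_num [Finset.sum_Icc_succ_top, Nat.factorial]
  have m6 : m 8 (1 : ℚ) 6 = (-1 / 3360 : ℚ) := by
    have := m_eq 8 1 6 (by norm_num) (by norm_num)
    push_cast at this
    rw [this, b6]
    norm_num [Finset.sum_Icc_succ_top, Nat.factorial]
  have m7 : m 8 (1 : ℚ) 7 = (0 / 1 : ℚ) := by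
    have := m_eq 8 1 7 (by norm_num) (by norm_num)
    push_cast at this
    rw [this, b7]
    norm_num [Finset.sum_Icc_succ_top, Nat.factorial]
  have m8 : m 8 (1 : ℚ) 8 = (1 / 134400 : ℚ) := by
    have := m_eq 8 1 8 (by norm_num) (by norm_num)
    push_cast at this
    rw [this, b8]
    norm_num [Finset.sum_Icc_succ_top, Nat.factorial]
  have f0 := f_zero 8 (1 : ℚ)
  have f1 : f 8 (1 : ℚ) 1 = (-7 / 2 : ℚ) := by
    have := hrec 0
    simp only [Finset.sum_range_succ, Finset.range_zero, Finset.sum_empty, Nat.reduceAdd, Nat.reduceSub, m0, m1, f0] at this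
    norm_num at this
    linarith
  have f2 : f 8 (1 : ℚ) 2 = (23 / 4 : ℚ) := by
    have := hrec 1
    simp only [Finset.sum_range_succ, Finset.range_zero, Finset.sum_empty, Nat.reduceAdd, Nat.reduceSub, m0, m1, m2, f0, f1] at this
    norm_num at this
    linarith
  have f3 : f 8 (1 : ℚ) 3 = (-35 / 6 : ℚ) := by
    have := hrec 2
    simp only [Finset.sum_range_succ, Finset.range_zero, Finset.sum_empty, Nat.reduceAdd, Nat.reduceSub, m0, m1, m2, m3, f0, f1, f2] at this
    norm_num at this
    linarith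
  have f4 : f 8 (1 : ℚ) 4 = (967 / 240 : ℚ) := by
    have := hrec 3
    simp only [Finset.sum_range_succ, Finset.range_zero, Finset.sum_empty, Nat.reduceAdd, Nat.reduceSub, m0, m1, m2, m3, m4, f0, f1, f2, f3] at this
    norm_num at this
    linarith
  have f5 : f 8 (1 : ℚ) 5 = (-469 / 240 : ℚ) := by
    have := hrec 4
    simp only [Finset.sum_range_succ, Finset.range_zero, Finset.sum_empty, Nat.reduceAdd, Nat.reduceSub, m0, m1, m2, m3, m4, m5, f0, f1, f2, f3, f4] at this
    norm_num at this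
    linarith
  have f6 : f 8 (1 : ℚ) 6 = (363 / 560 : ℚ) := by
    have := hrec 5
    simp only [Finset.sum_range_succ, Finset.range_zero, Finset.sum_empty, Nat.reduceAdd, Nat.reduceSub, m0, m1, m2, m3, m4, m5, m6, f0, f1, f2, f3, f4, f5] at this
    norm_num at this
    linarith
  have f7 : f 8 (1 : ℚ) 7 = (-1 / 8 : ℚ) := by
    have := hrec 6
    simp only [Finset.sum_range_succ, Finset.range_zero, Finset.sum_empty, Nat.reduceAdd, Nat.reduceSub, m0, m1, m2, m3, m4, m5, m6, m7, f0, f1, f2, f3, f4, f5, f6] at this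
    norm_num at this
    linarith
  have f8 : f 8 (1 : ℚ) 8 = (0 / 1 : ℚ) := by
    have := hrec 7
    simp only [Finset.sum_range_succ, Finset.range_zero, Finset.sum_empty, Nat.reduceAdd, Nat.reduceSub, m0, m1, m2, m3, m4, m5, m6, m7, m8, f0, f1, f2, f3, f4, f5, f6, f7] at this
    norm_num at this
    linarith
  rw [P_eval, f8]
  norm_num [Nat.factorial]

lemma eval_2 : (P 8).eval (2 : ℚ) = (10321920 / 1 : ℚ) := by
  have hrec := recur 8 (2 : ℚ)
  have m0 := m_zero 8 (2 : ℚ)
  have m1 : m 8 (2 : ℚ) 1 = (-4 / 1 : ℚ) := by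
    have := m_eq 8 2 1 (by norm_num) (by norm_num)
    push_cast at this
    rw [this, b1]
    norm_num [Finset.sum_Icc_succ_top, Nat.factorial]
  have m2 : m 8 (2 : ℚ) 2 = (-1 / 1 : ℚ) := by
    have := m_eq 8 2 2 (by norm_num) (by norm_num)
    push_cast at this
    rw [this, b2]
    norm_num [Finset.sum_Icc_succ_top, Nat.factorial]
  have m3 : m 8 (2 : ℚ) 3 = (0 / 1 : ℚ) := by
    have := m_eq 8 2 3 (by norm_num) (by norm_num)
    push_cast at this
    rw [this, b3]
    norm_num [Finset.sum_Icc_succ_top, Nat.factorial]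
  have m4 : m 8 (2 : ℚ) 4 = (1 / 30 : ℚ) := by
    have := m_eq 8 2 4 (by norm_num) (by norm_num)
    push_cast at this
    rw [this, b4]
    norm_num [Finset.sum_Icc_succ_top, Nat.factorial]
  have m5 : m 8 (2 : ℚ) 5 = (0 / 1 : ℚ) := by
    have := m_eq 8 2 5 (by norm_num) (by norm_num)
    push_cast at this
    rw [this, b5]
    norm_num [Finset.sum_Icc_succ_top, Nat.factorial]
  have m6 : m 8 (2 : ℚ) 6 = (-1 / 420 : ℚ) := by
    have := m_eq 8 2 6 (by norm_num) (by norm_num)
    push_cast at this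
    rw [this, b6]
    norm_num [Finset.sum_Icc_succ_top, Nat.factorial]
  have m7 : m 8 (2 : ℚ) 7 = (0 / 1 : ℚ) := by
    have := m_eq 8 2 7 (by norm_num) (by norm_num)
    push_cast at this
    rw [this, b7]
    norm_num [Finset.sum_Icc_succ_top, Nat.factorial]
  have m8 : m 8 (2 : ℚ) 8 = (11 / 50400 : ℚ) := by
    have := m_eq 8 2 8 (by norm_num) (by norm_num)
    push_cast at this
    rw [this, b8]
    norm_num [Finset.sum_Icc_succ_top, Nat.factorial]
  have f0 := f_zero 8 (2 : ℚ)
  have f1 : f 8 (2 : ℚ) 1 = (-4 / 1 : ℚ) := by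
    have := hrec 0
    simp only [Finset.sum_range_succ, Finset.range_zero, Finset.sum_empty, Nat.reduceAdd, Nat.reduceSub, m0, m1, f0] at this
    norm_num at this
    linarith
  have f2 : f 8 (2 : ℚ) 2 = (15 / 2 : ℚ) := by
    have := hrec 1
    simp only [Finset.sum_range_succ, Finset.range_zero, Finset.sum_empty, Nat.reduceAdd, Nat.reduceSub, m0, m1, m2, f0, f1] at this
    norm_num at this
    linarith
  have f3 : f 8 (2 : ℚ) 3 = (-26 / 3 : ℚ) := by
    have := hrec 2
    simp only [Finset.sum_range_succ, Finset.range_zero, Finset.sum_empty, Nat.reduceAdd, Nat.reduceSub, m0, m1, m2, m3, f0, f1, f2] at this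
    norm_num at this
    linarith
  have f4 : f 8 (2 : ℚ) 4 = (34 / 5 : ℚ) := by
    have := hrec 3
    simp only [Finset.sum_range_succ, Finset.range_zero, Finset.sum_empty, Nat.reduceAdd, Nat.reduceSub, m0, m1, m2, m3, m4, f0, f1, f2, f3] at this
    norm_num at this
    linarith
  have f5 : f 8 (2 : ℚ) 5 = (-56 / 15 : ℚ) := by
    have := hrec 4
    simp only [Finset.sum_range_succ, Finset.range_zero, Finset.sum_empty, Nat.reduceAdd, Nat.reduceSub, m0, m1, m2, m3, m4, m5, f0, f1, f2, f3, f4] at this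
    norm_num at this
    linarith
  have f6 : f 8 (2 : ℚ) 6 = (88 / 63 : ℚ) := by
    have := hrec 5
    simp only [Finset.sum_range_succ, Finset.range_zero, Finset.sum_empty, Nat.reduceAdd, Nat.reduceSub, m0, m1, m2, m3, m4, m5, m6, f0, f1, f2, f3, f4, f5] at this
    norm_num at this
    linarith
  have f7 : f 8 (2 : ℚ) 7 = (-32 / 105 : ℚ) := by
    have := hrec 6
    simp only [Finset.sum_range_succ, Finset.range_zero, Finset.sum_empty, Nat.reduceAdd, Nat.reduceSub, m0, m1, m2, m3, m4, m5, m6, m7, f0, f1, f2, f3, f4, f5, f6] at this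
    norm_num at this
    linarith
  have f8 : f 8 (2 : ℚ) 8 = (1 / 256 : ℚ) := by
    have := hrec 7
    simp only [Finset.sum_range_succ, Finset.range_zero, Finset.sum_empty, Nat.reduceAdd, Nat.reduceSub, m0, m1, m2, m3, m4, m5, m6, m7, m8, f0, f1, f2, f3, f4, f5, f6, f7] at this
    norm_num at this
    linarith
  rw [P_eval, f8]
  norm_num [Nat.factorial]

lemma eval_3 : (P 8).eval (3 : ℚ) = (-308510720 / 9 : ℚ) := by
  have hrec := recur 8 (3 : ℚ)
  have m0 := m_zero 8 (3 : ℚ)
  have m1 : m 8 (3 : ℚ) 1 = (-5 / 1 : ℚ) := by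
    have := m_eq 8 3 1 (by norm_num) (by norm_num)
    push_cast at this
    rw [this, b1]
    norm_num [Finset.sum_Icc_succ_top, Nat.factorial]
  have m2 : m 8 (3 : ℚ) 2 = (-5 / 3 : ℚ) := by
    have := m_eq 8 3 2 (by norm_num) (by norm_num)
    push_cast at this
    rw [this, b2]
    norm_num [Finset.sum_Icc_succ_top, Nat.factorial]
  have m3 : m 8 (3 : ℚ) 3 = (0 / 1 : ℚ) := by
    have := m_eq 8 3 3 (by norm_num) (by norm_num)
    push_cast at this
    rw [this, b3]
    norm_num [Finset.sum_Icc_succ_top, Nat.factorial]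
  have m4 : m 8 (3 : ℚ) 4 = (13 / 90 : ℚ) := by
    have := m_eq 8 3 4 (by norm_num) (by norm_num)
    push_cast at this
    rw [this, b4]
    norm_num [Finset.sum_Icc_succ_top, Nat.factorial]
  have m5 : m 8 (3 : ℚ) 5 = (0 / 1 : ℚ) := by
    have := m_eq 8 3 5 (by norm_num) (by norm_num)
    push_cast at this
    rw [this, b5]
    norm_num [Finset.sum_Icc_succ_top, Nat.factorial]
  have m6 : m 8 (3 : ℚ) 6 = (-5 / 189 : ℚ) := by
    have := m_eq 8 3 6 (by norm_num) (by norm_num)
    push_cast at this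
    rw [this, b6]
    norm_num [Finset.sum_Icc_succ_top, Nat.factorial]
  have m7 : m 8 (3 : ℚ) 7 = (0 / 1 : ℚ) := by
    have := m_eq 8 3 7 (by norm_num) (by norm_num)
    push_cast at this
    rw [this, b7]
    norm_num [Finset.sum_Icc_succ_top, Nat.factorial]
  have m8 : m 8 (3 : ℚ) 8 = (853 / 151200 : ℚ) := by
    have := m_eq 8 3 8 (by norm_num) (by norm_num)
    push_cast at this
    rw [this, b8]
    norm_num [Finset.sum_Icc_succ_top, Nat.factorial]
  have f0 := f_zero 8 (3 : ℚ)
  have f1 : f 8 (3 : ℚ) 1 = (-5 / 1 : ℚ) := by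
    have := hrec 0
    simp only [Finset.sum_range_succ, Finset.range_zero, Finset.sum_empty, Nat.reduceAdd, Nat.reduceSub, m0, m1, f0] at this
    norm_num at this
    linarith
  have f2 : f 8 (3 : ℚ) 2 = (35 / 3 : ℚ) := by
    have := hrec 1
    simp only [Finset.sum_range_succ, Finset.range_zero, Finset.sum_empty, Nat.reduceAdd, Nat.reduceSub, m0, m1, m2, f0, f1] at this
    norm_num at this
    linarith
  have f3 : f 8 (3 : ℚ) 3 = (-50 / 3 : ℚ) := by
    have := hrec 2
    simp only [Finset.sum_range_succ, Finset.range_zero, Finset.sum_empty, Nat.reduceAdd, Nat.reduceSub, m0, m1, m2, m3, f0, f1, f2] at this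
    norm_num at this
    linarith
  have f4 : f 8 (3 : ℚ) 4 = (1921 / 120 : ℚ) := by
    have := hrec 3
    simp only [Finset.sum_range_succ, Finset.range_zero, Finset.sum_empty, Nat.reduceAdd, Nat.reduceSub, m0, m1, m2, m3, m4, f0, f1, f2, f3] at this
    norm_num at this
    linarith
  have f5 : f 8 (3 : ℚ) 5 = (-763 / 72 : ℚ) := by
    have := hrec 4
    simp only [Finset.sum_range_succ, Finset.range_zero, Finset.sum_empty, Nat.reduceAdd, Nat.reduceSub, m0, m1, m2, m3, m4, m5, f0, f1, f2, f3, f4] at this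
    norm_num at this
    linarith
  have f6 : f 8 (3 : ℚ) 6 = (261 / 56 : ℚ) := by
    have := hrec 5
    simp only [Finset.sum_range_succ, Finset.range_zero, Finset.sum_empty, Nat.reduceAdd, Nat.reduceSub, m0, m1, m2, m3, m4, m5, m6, f0, f1, f2, f3, f4, f5] at this
    norm_num at this
    linarith
  have f7 : f 8 (3 : ℚ) 7 = (-95 / 84 : ℚ) := by
    have := hrec 6
    simp only [Finset.sum_range_succ, Finset.range_zero, Finset.sum_empty, Nat.reduceAdd, Nat.reduceSub, m0, m1, m2, m3, m4, m5, m6, m7, f0, f1, f2, f3, f4, f5, f6] at this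
    norm_num at this
    linarith
  have f8 : f 8 (3 : ℚ) 8 = (-269 / 20736 : ℚ) := by
    have := hrec 7
    simp only [Finset.sum_range_succ, Finset.range_zero, Finset.sum_empty, Nat.reduceAdd, Nat.reduceSub, m0, m1, m2, m3, m4, m5, m6, m7, m8, f0, f1, f2, f3, f4, f5, f6, f7] at this
    norm_num at this
    linarith
  rw [P_eval, f8]
  norm_num [Nat.factorial]

theorem main : ∃ x : ℝ, aeval x (derivative (derivative (P 8))) < 0 := by
  by_contra hc
  push Not at hc
  have hd : ∀ p : ℚ[X], deriv (fun x : ℝ => aeval x p) = fun x => aeval x (derivative p) := by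
    intro p
    ext x
    exact (Polynomial.hasDerivAt_aeval p x).deriv
  have hconv : ConvexOn ℝ Set.univ (fun x : ℝ => aeval x (P 8)) := by
    refine convexOn_univ_of_deriv2_nonneg (Polynomial.differentiable_aeval _) ?_ fun x => ?_
    · rw [hd]; exact Polynomial.differentiable_aeval _
    · simp only [Function.iterate_succ, Function.iterate_zero, Function.comp_apply, id, hd]
      exact hc x
  have := hconv.2 (Set.mem_univ (1 : ℝ)) (Set.mem_univ (3 : ℝ)) (show (0 : ℝ) ≤ 1 / 2 by norm_num)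
    (show (0 : ℝ) ≤ 1 / 2 by norm_num) (by norm_num)
  have e : ∀ q : ℚ, aeval (q : ℝ) (P 8) = (((P 8).eval q : ℚ) : ℝ) := fun q =>
    Polynomial.aeval_algebraMap_apply_eq_algebraMap_eval q (P 8)
  have e1 := e 1
  have e2 := e 2
  have e3 := e 3
  rw [eval_1] at e1
  rw [eval_2] at e2
  rw [eval_3] at e3
  push_cast at e1 e2 e3
  simp only [smul_eq_mul] at this
  rw [show (1 / 2 * 1 + 1 / 2 * 3 : ℝ) = 2 by norm_num, e1, e2, e3] at this
  norm_num at this

end Pool.Agent.H60.SZ
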