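import Mathlib

namespace Pool.Agent.H60.TMFib

/-- the Prouhet–Thue–Morse sequence `t_n = (-1) ^ {s_2(n)}`. -/
def t (n : ℕ) : ℤ := (-1) ^ (Nat.digits 2 n).sum

/-- `h_0 = 0`, `h_1 = 1`, `h_n = t_n h_{n-1} + h_{n-2}`. -/
def h : ℕ → ℤ
  | 0 => 0
  | 1 => 1
  | n + 2 => t (n + 2) * h (n + 1) + h n

end Pool.Agent.H60.TMFib
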