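import Mathlib
import Pool.Agent.H60.TMFibDefs

namespace Pool.Agent.H60.TMFib

lemma t_zero : t 0 = 1 := by simp [t]

lemma t_even (n : ℕ) : t (2 * n) = t n := by
  rcases Nat.eq_zero_or_pos n with rfl | hn
  · rfl
  · rw [t, Nat.digits_def' (by norm_num) (by omega), List.sum_cons, Nat.mul_mod_right,
      Nat.mul_div_cancel_left _ (by norm_num), zero_add, t]

lemma t_odd (n : ℕ) : t (2 * n + 1) = -t n := by
  rw [t, Nat.digits_def' (by norm_num) (by omega), List.sum_cons, Nat.mul_add_mod,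
    show (2 * n + 1) / 2 = n by omega, pow_add, t]
  simp

lemma t_add (k n : ℕ) (hn : n < 2 ^ k) : t (2 ^ k + n) = -t n := by
  induction k generalizing n with
  | zero =>
    obtain rfl : n = 0 := by simpa using hn
    simpa using t_odd 0
  | succ k ih =>
    rw [pow_succ'] at hn ⊢
    obtain ⟨m, rfl | rfl⟩ := Nat.even_or_odd' n
    · rw [← mul_add, t_even, t_even, ih m (by omega)]
    · rw [← add_assoc, ← mul_add, t_odd, t_odd, ih m (by omega)]

lemma t_pred (k : ℕ) : t (2 ^ k - 1) = (-1) ^ k := by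
  induction k with
  | zero => simp [t]
  | succ k ih =>
    have : 0 < 2 ^ k := by positivity
    rw [show 2 ^ (k + 1) - 1 = 2 * (2 ^ k - 1) + 1 by rw [pow_succ']; omega, t_odd, ih]
    ring

def f (σ : ℤ) (v : ℤ × ℤ) : ℕ → ℤ × ℤ
  | 0 => v
  | n + 1 => (σ * t n * (f σ v n).1 + (f σ v n).2, (f σ v n).1)

lemma f_add (σ : ℤ) (v : ℤ × ℤ) (k n : ℕ) (hn : n ≤ 2 ^ k) :
    f σ v (2 ^ k + n) = f (-σ) (f σ v (2 ^ k)) n := by
  induction n with
  | zero => rfl
  | succ n ih =>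
    rw [← add_assoc, f, f, ih (by omega), t_add k n (by omega)]
    congr 1
    ring

lemma f_h (n : ℕ) : f 1 (1, -1) (n + 2) = (h (n + 1), h n) := by
  induction n with
  | zero =>
    have := t_odd 0
    simp only [mul_zero, zero_add, t_zero] at this
    simp [f, h, t_zero, this]
  | succ n ih => rw [f, ih, h]; simp

lemma block (k : ℕ) : ∃ a b c : ℤ, a * c - (-1) ^ (k + 1) * b ^ 2 = 1 ∧ ∀ σ x y : ℤ, σ ^ 2 = 1 →
    f σ (x, y) (2 ^ (k + 1)) = (a * x + σ * (-1) ^ (k + 1) * b * y, σ * b * x + c * y) := by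
  induction k with
  | zero =>
    refine ⟨0, 1, 1, by simp, fun σ x y hσ => ?_⟩
    have := t_odd 0
    simp only [mul_zero, zero_add, t_zero] at this
    simp only [zero_add, pow_one, f, t_zero, this]
    congr 1
    · linear_combination (-x) * hσ
    · ring
  | succ k ih =>
    obtain ⟨a, b, c, h1, h2⟩ := ih
    have he : ((-1 : ℤ) ^ (k + 1)) ^ 2 = 1 := by rw [← pow_mul, mul_comm, pow_mul]; simp
    rw [pow_succ (-1 : ℤ) (k + 1)]
    generalize (-1 : ℤ) ^ (k + 1) = e at *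
    refine ⟨a ^ 2 - e * b ^ 2, b * (c - a), c ^ 2 - e * b ^ 2, ?_, fun σ x y hσ => ?_⟩
    · linear_combination (a * c - e * b ^ 2 + 1) * h1
    · rw [pow_succ' 2 (k + 1), two_mul, f_add _ _ _ _ le_rfl, h2 σ x y hσ,
        h2 (-σ) _ _ (by linear_combination hσ)]
      congr 1
      · linear_combination (-(e * b ^ 2 * x)) * hσ
      · linear_combination (-(e * b ^ 2 * y)) * hσ

theorem key (k : ℕ) : ∃ a b c : ℤ, a * c - (-1) ^ k * b ^ 2 = 1 ∧
    h (2 ^ (k + 2) - 3) = a - 2 * (-1) ^ k * b + (-1) ^ k * c ∧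
    h (2 * (2 ^ (k + 2) - 3)) = b * (c - a) - (c ^ 2 - (-1) ^ k * b ^ 2) +
      (-1) ^ k * (a ^ 2 - (-1) ^ k * b ^ 2 + (-1) ^ k * (b * (c - a))) := by
  obtain ⟨a, b, c, h1, h2⟩ := block (k + 1)
  have he : ((-1 : ℤ) ^ k) ^ 2 = 1 := by rw [← pow_mul, mul_comm, pow_mul]; simp
  have e0 : (-1 : ℤ) ^ (k + 1 + 1) = (-1) ^ k := by ring
  rw [e0] at h1 h2
  obtain ⟨r, hr⟩ : ∃ r, 2 ^ k = r + 1 := ⟨2 ^ k - 1, by have : 0 < 2 ^ k := by positivity
                                                        omega⟩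
  have ht : t r = (-1) ^ k := by rw [← t_pred, hr, Nat.add_sub_cancel]
  have hN : 2 ^ (k + 1 + 1) = 4 * r + 2 + 2 := by rw [pow_succ, pow_succ, hr]; ring
  have h3 := h2 1 1 (-1) (by norm_num)
  have h4 := f_add 1 (1, -1) (k + 1 + 1) _ le_rfl
  rw [h3, h2 (-1) _ _ (by norm_num), hN,
    show 4 * r + 2 + 2 + (4 * r + 2 + 2) = 8 * r + 6 + 2 by ring, f_h] at h4
  rw [hN, f_h] at h3
  simp only [Prod.mk.injEq] at h3 h4
  have t1 : t (4 * r + 1 + 2) = t r := by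
    rw [show 4 * r + 1 + 2 = 2 * (2 * r + 1) + 1 by ring, t_odd, t_odd, neg_neg]
  have t7 : t (8 * r + 5 + 2) = -t r := by
    rw [show 8 * r + 5 + 2 = 2 * (2 * (2 * r + 1) + 1) + 1 by ring, t_odd, t_odd, t_odd, neg_neg]
  have t6 : t (8 * r + 4 + 2) = t r := by
    rw [show 8 * r + 4 + 2 = 2 * (2 * (2 * r + 1) + 1) by ring, t_even, t_odd, t_odd, neg_neg]
  have t5 : t (8 * r + 3 + 2) = t r := by
    rw [show 8 * r + 3 + 2 = 2 * (2 * (2 * r + 1)) + 1 by ring, t_odd, t_even, t_odd, neg_neg]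
  have t4 : t (8 * r + 2 + 2) = -t r := by
    rw [show 8 * r + 2 + 2 = 2 * (2 * (2 * r + 1)) by ring, t_even, t_even, t_odd]
  have r1 : h (4 * r + 2 + 1) = t (4 * r + 1 + 2) * h (4 * r + 2) + h (4 * r + 1) := rfl
  have r7 : h (8 * r + 6 + 1) = t (8 * r + 5 + 2) * h (8 * r + 6) + h (8 * r + 5) := rfl
  have r6 : h (8 * r + 6) = t (8 * r + 4 + 2) * h (8 * r + 5) + h (8 * r + 4) := rfl
  have r5 : h (8 * r + 5) = t (8 * r + 3 + 2) * h (8 * r + 4) + h (8 * r + 3) := rfl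
  have r4 : h (8 * r + 4) = t (8 * r + 2 + 2) * h (8 * r + 3) + h (8 * r + 2) := rfl
  rw [t1, ht] at r1
  rw [t7, ht] at r7
  rw [t6, ht] at r6
  rw [t5, ht] at r5
  rw [t4, ht] at r4
  rw [show 2 ^ (k + 2) - 3 = 4 * r + 1 by rw [show k + 2 = k + 1 + 1 from rfl, hN]; omega,
    show 2 * (4 * r + 1) = 8 * r + 2 by ring]
  generalize (-1 : ℤ) ^ k = e at *
  refine ⟨a, b, c, h1, ?_, ?_⟩
  · linear_combination h3.1 - e * h3.2 - r1
  · linear_combination h4.2 + e * h4.1 - e * r7 - r4 - e * r5 +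
      (h (8 * r + 6) - h (8 * r + 4)) * he

end Pool.Agent.H60.TMFib
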