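import Mathlib
import Pool.Agent.H60.TMFib

namespace Pool.Agent.H60.TMFib

open Filter Topology

lemma t_mul (k m j : ℕ) (hj : j < 2 ^ k) : t (2 ^ k * m + j) = t m * t j := by
  induction k generalizing j with
  | zero =>
    obtain rfl : j = 0 := by simpa using hj
    simp [t_zero]
  | succ k ih =>
    rw [pow_succ'] at hj ⊢
    obtain ⟨i, rfl | rfl⟩ := Nat.even_or_odd' j
    · rw [mul_assoc, ← mul_add, t_even, t_even, ih i (by omega)]
    · rw [mul_assoc, ← add_assoc, ← mul_add, t_odd, t_odd, ih i (by omega), mul_neg]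

lemma t_cases (n : ℕ) : t n = 1 ∨ t n = -1 := neg_one_pow_eq_or ℤ _

lemma f_mul (σ : ℤ) (v : ℤ × ℤ) (k m n : ℕ) (hn : n ≤ 2 ^ k) :
    f σ v (2 ^ k * m + n) = f (σ * t m) (f σ v (2 ^ k * m)) n := by
  induction n with
  | zero => rfl
  | succ n ih => rw [← add_assoc, f, f, ih (by omega), t_mul k m n (by omega), ← mul_assoc σ]

def Cone (v : ℤ × ℤ) : Prop := 100 * v.1.natAbs ≤ 31 * v.2.natAbs ∧ v.2 ≠ 0

lemma t_vals : t 0 = 1 ∧ t 1 = -1 ∧ t 2 = -1 ∧ t 3 = 1 ∧ t 4 = -1 ∧ t 5 = 1 ∧ t 6 = 1 ∧ t 7 = -1 ∧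
    t 8 = -1 ∧ t 9 = 1 ∧ t 10 = 1 ∧ t 11 = -1 ∧ t 12 = 1 ∧ t 13 = -1 ∧ t 14 = -1 ∧ t 15 = 1 := by
  simp [t]

lemma blk16 (σ : ℤ) (hσ : σ = 1 ∨ σ = -1) (v : ℤ × ℤ) (hv : Cone v) :
    Cone (f σ v 16) ∧ ∀ j < 16, (f σ v (j + 1)).1 ≠ 0 ∧
      29 * (f σ v (j + 1)).2.natAbs ≤ 100 * (f σ v (j + 1)).1.natAbs := by
  obtain ⟨x, y⟩ := v
  obtain ⟨t0, t1, t2, t3, t4, t5, t6, t7, t8, t9, t10, t11, t12, t13, t14, t15⟩ := t_vals
  simp only [Cone] at hv ⊢
  refine ⟨?_, fun j hj => ?_⟩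
  · rcases hσ with rfl | rfl <;>
      simp only [f, t0, t1, t2, t3, t4, t5, t6, t7, t8, t9, t10, t11, t12, t13, t14, t15] <;>
      ring_nf <;> omega
  · rcases hσ with rfl | rfl <;> interval_cases j <;>
      simp only [f, t0, t1, t2, t3, t4, t5, t6, t7, t8, t9, t10, t11, t12, t13, t14, t15] <;>
      ring_nf <;> omega

lemma cone_mul (σ : ℤ) (hσ : σ = 1 ∨ σ = -1) (v : ℤ × ℤ) (m₀ : ℕ) (hv : Cone (f σ v (16 * m₀)))
    (m : ℕ) (hm : m₀ ≤ m) : Cone (f σ v (16 * m)) := by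
  induction m, hm using Nat.le_induction with
  | base => exact hv
  | succ m _ ih =>
    have := f_mul σ v 4 m 16 le_rfl
    rw [mul_add, mul_one, show (16 : ℕ) * m = 2 ^ 4 * m from rfl, this]
    refine (blk16 _ ?_ _ ih).1
    rcases hσ with rfl | rfl <;> rcases t_cases m with h | h <;> simp [h]

lemma cone_h (m : ℕ) (hm : 1 ≤ m) : Cone (f 1 (1, -1) (16 * m)) := by
  refine cone_mul 1 (Or.inl rfl) _ 1 ?_ m hm
  obtain ⟨t0, t1, t2, t3, t4, t5, t6, t7, t8, t9, t10, t11, t12, t13, t14, t15⟩ := t_vals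
  simp [Cone, f, t0, t1, t2, t3, t4, t5, t6, t7, t8, t9, t10, t11, t12, t13, t14, t15]

theorem ratio (n : ℕ) (hn : 15 ≤ n) :
    h (n + 1) ≠ 0 ∧ 29 * (h n).natAbs ≤ 100 * (h (n + 1)).natAbs := by
  have h1 := f_mul 1 (1, -1) 4 ((n + 1) / 16) ((n + 1) % 16 + 1) (by omega)
  have h2 := (blk16 (1 * t ((n + 1) / 16)) (by simpa using t_cases _) _
    (cone_h ((n + 1) / 16) (by omega))).2 ((n + 1) % 16) (by omega)
  rw [show (16 : ℕ) * ((n + 1) / 16) = 2 ^ 4 * ((n + 1) / 16) from rfl, ← h1,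
    show 2 ^ 4 * ((n + 1) / 16) + ((n + 1) % 16 + 1) = n + 2 by omega, f_h] at h2
  exact h2

lemma h_vals : h 3 = 0 ∧ h 4 = -1 ∧ h 5 = -1 ∧ h 6 = -2 ∧ h 7 = 1 ∧ h 8 = -3 ∧ h 9 = -2 ∧
    h 10 = -5 ∧ h 11 = 3 ∧ h 12 = -2 ∧ h 13 = 5 ∧ h 14 = -7 ∧ h 15 = -2 := by
  obtain ⟨t0, t1, t2, t3, t4, t5, t6, t7, t8, t9, t10, t11, t12, t13, t14, t15⟩ := t_vals
  simp [h, t2, t3, t4, t5, t6, t7, t8, t9, t10, t11, t12, t13, t14, t15]

theorem ratio27 (n : ℕ) (hn : 3 ≤ n) : 2 * (h n).natAbs ≤ 7 * (h (n + 1)).natAbs := by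
  by_cases h15 : 15 ≤ n
  · have := (ratio n h15).2
    omega
  · obtain ⟨a3, a4, a5, a6, a7, a8, a9, a10, a11, a12, a13, a14, a15⟩ := h_vals
    have : n < 15 := by omega
    interval_cases n <;> simp [*]

lemma ratio_up (n : ℕ) (hn : 16 ≤ n) : (h (n + 1)).natAbs ≤ 5 * (h n).natAbs := by
  obtain ⟨m, rfl⟩ : ∃ m, n = m + 1 := ⟨n - 1, by omega⟩
  have h1 := (ratio m (by omega)).2
  rw [h]
  rcases t_cases (m + 2) with e | e <;> rw [e] <;> omega

/-! ### Growth rate -/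

def abc : ℕ → ℤ × ℤ × ℤ
  | 0 => (0, 1, 1)
  | k + 1 => ((abc k).1 ^ 2 - (-1) ^ (k + 1) * (abc k).2.1 ^ 2,
      (abc k).2.1 * ((abc k).2.2 - (abc k).1),
      (abc k).2.2 ^ 2 - (-1) ^ (k + 1) * (abc k).2.1 ^ 2)

lemma block' (k : ℕ) (σ x y : ℤ) (hσ : σ ^ 2 = 1) : f σ (x, y) (2 ^ (k + 1)) =
    ((abc k).1 * x + σ * (-1) ^ (k + 1) * (abc k).2.1 * y, σ * (abc k).2.1 * x + (abc k).2.2 * y) := by
  induction k generalizing σ x y with
  | zero =>
    have := t_odd 0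
    simp only [mul_zero, zero_add, t_zero] at this
    simp only [zero_add, pow_one, f, t_zero, this, abc]
    congr 1
    · linear_combination (-x) * hσ
    · ring
  | succ k ih =>
    rw [pow_succ' 2 (k + 1), two_mul, f_add _ _ _ _ le_rfl, ih σ x y hσ,
      ih (-σ) _ _ (by linear_combination hσ), pow_succ (-1 : ℤ) (k + 1)]
    simp only [abc]
    generalize (-1 : ℤ) ^ (k + 1) = e at *
    congr 1
    · linear_combination (-(e * (abc k).2.1 ^ 2 * x)) * hσ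
    · linear_combination (-(e * (abc k).2.1 ^ 2 * y)) * hσ

lemma abc_cone (k : ℕ) : 100 * (abc (k + 3)).2.1.natAbs ≤ 31 * (abc (k + 3)).2.2.natAbs ∧
    (abc (k + 3)).2.2 ≠ 0 := by
  have h1 := cone_mul 1 (Or.inl rfl) (0, 1) 0 (by simp [f, Cone]) (2 ^ k) (Nat.zero_le _)
  rw [show 16 * 2 ^ k = 2 ^ (k + 3 + 1) by ring, block' _ _ _ _ (by norm_num)] at h1
  simpa [Cone, Int.natAbs_mul, Int.natAbs_pow] using h1

/-- growth along a block of length `2 ^ (k + 4)`. -/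
lemma grow (k m : ℕ) (hm : 1 ≤ m) :
    9 * ((abc (k + 3)).2.2.natAbs * (h (2 ^ (k + 4) * m - 2)).natAbs) ≤
        10 * (h (2 ^ (k + 4) * (m + 1) - 2)).natAbs ∧
      10 * (h (2 ^ (k + 4) * (m + 1) - 2)).natAbs ≤
        11 * ((abc (k + 3)).2.2.natAbs * (h (2 ^ (k + 4) * m - 2)).natAbs) := by
  have hp : 1 ≤ 2 ^ k * m := Nat.mul_pos (by positivity) hm
  have e1 : 2 ^ (k + 4) * m = 16 * (2 ^ k * m) := by ring
  have h1 := cone_h _ hp
  have h2 := f_mul 1 (1, -1) (k + 4) m _ le_rfl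
  have e2 : 2 ^ (k + 4) * m + 2 ^ (k + 4) = 2 ^ (k + 4) * (m + 1) - 2 + 2 := by
    have : 2 ≤ 2 ^ (k + 4) * m := by omega
    rw [mul_add, mul_one]
    exact (Nat.sub_add_cancel (this.trans (Nat.le_add_right _ _))).symm
  have e3 : 2 ^ (k + 4) * m = 2 ^ (k + 4) * m - 2 + 2 := by omega
  rw [← e1, e3, f_h] at h1
  rw [e2, e3, f_h, f_h, show k + 4 = k + 3 + 1 from rfl, block' _ _ _ _ (by
    rcases t_cases m with e | e <;> simp [e])] at h2
  have h3 := (Prod.mk.inj h2).2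
  obtain ⟨h4, -⟩ := abc_cone k
  obtain ⟨h5, -⟩ := h1
  simp only at h5
  rw [show k + 4 = k + 3 + 1 from rfl] at h5 ⊢
  rw [h3, ← Int.natAbs_mul]
  have h6 : 10000 * (1 * t m * (abc (k + 3)).2.1 * h (2 ^ (k + 3 + 1) * m - 2 + 1)).natAbs ≤
      961 * ((abc (k + 3)).2.2 * h (2 ^ (k + 3 + 1) * m - 2)).natAbs := by
    have : (t m).natAbs = 1 := by rcases t_cases m with e | e <;> simp [e]
    rw [Int.natAbs_mul, Int.natAbs_mul, Int.natAbs_mul, Int.natAbs_mul, this]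
    have := Nat.mul_le_mul h4 h5
    simp only [Int.natAbs_one, one_mul]
    nlinarith
  omega

noncomputable def L (n : ℕ) : ℝ := Real.log ((h n).natAbs : ℝ)

lemma h_pos (n : ℕ) (hn : 16 ≤ n) : (0 : ℝ) < (h n).natAbs := by
  obtain ⟨m, rfl⟩ : ∃ m, n = m + 1 := ⟨n - 1, by omega⟩
  exact_mod_cast Int.natAbs_pos.2 (ratio m (by omega)).1

lemma L_step (n : ℕ) (hn : 16 ≤ n) : |L (n + 1) - L n| ≤ 4 := by
  have h1 := h_pos n hn
  have h2 := h_pos (n + 1) (by omega)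
  have h3 : ((h (n + 1)).natAbs : ℝ) ≤ 5 * (h n).natAbs := by exact_mod_cast ratio_up n hn
  have h4 : ((h n).natAbs : ℝ) ≤ 5 * (h (n + 1)).natAbs := by
    have := (ratio n (by omega)).2
    exact_mod_cast (show (h n).natAbs ≤ 5 * (h (n + 1)).natAbs by omega)
  have h5 : Real.log 5 ≤ 4 := by
    have := Real.log_le_sub_one_of_pos (show (0 : ℝ) < 5 by norm_num)
    linarith
  have h6 := Real.log_le_log h2 h3
  have h7 := Real.log_le_log h1 h4
  rw [Real.log_mul (by norm_num) h1.ne'] at h6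
  rw [Real.log_mul (by norm_num) h2.ne'] at h7
  rw [abs_le, L, L]
  constructor <;> linarith

lemma L_steps (n j : ℕ) (hn : 16 ≤ n) : |L (n + j) - L n| ≤ 4 * j := by
  induction j with
  | zero => simp
  | succ j ih =>
    have := L_step (n + j) (by omega)
    rw [abs_le] at *
    push_cast
    rw [← add_assoc]
    constructor <;> linarith [ih.1, ih.2, this.1, this.2]

lemma L_block (k m : ℕ) (hm : 2 ≤ m) :
    Real.log (9 / 10 * (abc (k + 3)).2.2.natAbs) ≤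
        L (2 ^ (k + 4) * (m + 1) - 2) - L (2 ^ (k + 4) * m - 2) ∧
      L (2 ^ (k + 4) * (m + 1) - 2) - L (2 ^ (k + 4) * m - 2) ≤
        Real.log (11 / 10 * (abc (k + 3)).2.2.natAbs) := by
  obtain ⟨g1, g2⟩ := grow k m (by omega)
  have hK : 16 ≤ 2 ^ (k + 4) := by
    rw [pow_add]; have : 0 < 2 ^ k := by positivity
    omega
  have h0 : 16 * 2 ≤ 2 ^ (k + 4) * m := Nat.mul_le_mul hK hm
  have p1 := h_pos (2 ^ (k + 4) * m - 2) (by omega)
  have p2 := h_pos (2 ^ (k + 4) * (m + 1) - 2) (by rw [mul_add]; omega)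
  have p3 : (0 : ℝ) < (abc (k + 3)).2.2.natAbs := by
    exact_mod_cast Int.natAbs_pos.2 (abc_cone k).2
  have g1' := (Nat.cast_le (α := ℝ)).2 g1
  have g2' := (Nat.cast_le (α := ℝ)).2 g2
  simp only [Nat.cast_mul, Nat.cast_ofNat] at g1' g2'
  rw [L, L, ← Real.log_div p2.ne' p1.ne']
  constructor
  · refine Real.log_le_log (by positivity) ?_
    rw [le_div_iff₀ p1]; linarith
  · refine Real.log_le_log (by positivity) ?_
    rw [div_le_iff₀ p1]; linarith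

lemma L_bounds (k : ℕ) : ∃ C : ℝ, ∀ n, 2 ^ (k + 4) * 2 ≤ n →
    n * (Real.log (9 / 10 * (abc (k + 3)).2.2.natAbs) / 2 ^ (k + 4)) - C ≤ L n ∧
      L n ≤ n * (Real.log (11 / 10 * (abc (k + 3)).2.2.natAbs) / 2 ^ (k + 4)) + C := by
  set α := Real.log (9 / 10 * (abc (k + 3)).2.2.natAbs) with hα
  set β := Real.log (11 / 10 * (abc (k + 3)).2.2.natAbs) with hβ
  set K := 2 ^ (k + 4) with hK
  have hK16 : 16 ≤ K := by
    rw [hK, pow_add]; have : 0 < 2 ^ k := by positivity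
    omega
  have key : ∀ m : ℕ, 2 ≤ m → (m - 2 : ℝ) * α ≤ L (K * m - 2) - L (K * 2 - 2) ∧
      L (K * m - 2) - L (K * 2 - 2) ≤ (m - 2 : ℝ) * β := fun m hm => by
    induction m, hm using Nat.le_induction with
    | base => simp
    | succ m hm ih =>
      have := L_block k m hm
      push_cast
      constructor <;> linarith [ih.1, ih.2, this.1, this.2]
  refine ⟨|L (K * 2 - 2)| + 4 * (K + 2) + 3 * (|α| + |β|), fun n hn => ?_⟩
  have h1 := Nat.div_add_mod n K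
  have h2 := Nat.mod_lt n (show 0 < K by omega)
  have h3 : 2 ≤ n / K := (Nat.le_div_iff_mul_le (by omega)).2 (by omega)
  have h4 : K * 2 ≤ K * (n / K) := Nat.mul_le_mul_left _ h3
  obtain ⟨k1, k2⟩ := key _ h3
  have h5 := L_steps (K * (n / K) - 2) (n % K + 2) (by omega)
  rw [show K * (n / K) - 2 + (n % K + 2) = n by omega, abs_le] at h5
  have hKr : ((2 : ℝ) ^ (k + 4)) = (K : ℝ) := by rw [hK]; push_cast; rfl
  have hK0 : (0 : ℝ) < K := by exact_mod_cast (show 0 < K by omega)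
  have h6 : (n : ℝ) / K = (n / K : ℕ) + (n % K : ℕ) / K := by
    field_simp
    exact_mod_cast h1.symm
  have h7 : ((n % K : ℕ) : ℝ) / K ≤ 1 := by
    rw [div_le_one hK0]; exact_mod_cast h2.le
  have h8 : (0 : ℝ) ≤ ((n % K : ℕ) : ℝ) / K := by positivity
  have h9 : ((n % K : ℕ) : ℝ) ≤ K := by exact_mod_cast h2.le
  have e : ∀ γ : ℝ, n * (γ / K) = (n / K : ℕ) * γ + (n % K : ℕ) / K * γ := fun γ => by
    rw [← add_mul, ← h6]; ring
  rw [hKr, e, e]
  push_cast at h5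
  have a1 := le_abs_self α
  have a2 := neg_abs_le β
  have a3 := le_abs_self (L (K * 2 - 2))
  have a4 := neg_abs_le (L (K * 2 - 2))
  have a5 := abs_nonneg α
  have a6 := abs_nonneg β
  constructor <;> nlinarith [h5.1, h5.2]

lemma ev_bounds (k : ℕ) (ε : ℝ) (hε : 0 < ε) : ∀ᶠ n : ℕ in atTop,
    Real.log (9 / 10 * (abc (k + 3)).2.2.natAbs) / 2 ^ (k + 4) - ε ≤ L n / n ∧
      L n / n ≤ Real.log (11 / 10 * (abc (k + 3)).2.2.natAbs) / 2 ^ (k + 4) + ε := by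
  obtain ⟨C, hC⟩ := L_bounds k
  filter_upwards [eventually_ge_atTop (2 ^ (k + 4) * 2), eventually_gt_atTop 0,
    tendsto_natCast_atTop_atTop.eventually_ge_atTop (C / ε)] with n h1 h2 h3
  have hn : (0 : ℝ) < n := by exact_mod_cast h2
  obtain ⟨b1, b2⟩ := hC n h1
  rw [div_le_iff₀ hε] at h3
  rw [le_div_iff₀ hn, div_le_iff₀ hn]
  constructor <;> linarith

lemma width (k : ℕ) : Real.log (11 / 10 * (abc (k + 3)).2.2.natAbs) / 2 ^ (k + 4) -
    Real.log (9 / 10 * (abc (k + 3)).2.2.natAbs) / 2 ^ (k + 4) ≤ (1 / 2) ^ k := by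
  have p3 : (0 : ℝ) < (abc (k + 3)).2.2.natAbs := by
    exact_mod_cast Int.natAbs_pos.2 (abc_cone k).2
  have h1 := Real.log_le_sub_one_of_pos (show (0 : ℝ) < 11 / 9 by norm_num)
  rw [← sub_div, ← Real.log_div (by positivity) (by positivity), mul_div_mul_right _ _ p3.ne',
    div_le_iff₀ (by positivity), one_div, inv_pow, pow_add, inv_mul_cancel_left₀ (by positivity)]
  norm_num at h1 ⊢
  linarith

theorem limit : ∃ g : ℝ, 1.152 < g ∧ g < 1.153 ∧
    Tendsto (fun n : ℕ => |(h n : ℝ)| ^ (1 / (n : ℝ))) atTop (𝓝 g) := by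
  have hc : CauchySeq fun n : ℕ => L n / n := by
    rw [Metric.cauchySeq_iff]
    intro ε hε
    obtain ⟨k, hk⟩ := exists_pow_lt_of_lt_one (show 0 < ε / 2 by positivity)
      (show (1 / 2 : ℝ) < 1 by norm_num)
    obtain ⟨N, hN⟩ := eventually_atTop.1 (ev_bounds k (ε / 4) (by positivity))
    refine ⟨N, fun m hm n hn => ?_⟩
    have a := hN m hm
    have b := hN n hn
    have c := width k
    rw [Real.dist_eq, abs_lt]
    constructor <;> linarith [a.1, a.2, b.1, b.2]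
  obtain ⟨l, hl⟩ := cauchySeq_tendsto_of_complete hc
  have hv : (abc (6 + 3)).2.2.natAbs =
      1144597269393702667106867243857062437540529970218305487613880770 := by decide +kernel
  have lo : Real.log (9 / 10 * (abc (6 + 3)).2.2.natAbs) / 2 ^ (6 + 4) ≤ l :=
    le_of_forall_pos_le_add fun ε hε => by
      have := ge_of_tendsto hl ((ev_bounds 6 ε hε).mono fun n h => h.1)
      linarith
  have hi : l ≤ Real.log (11 / 10 * (abc (6 + 3)).2.2.natAbs) / 2 ^ (6 + 4) :=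
    le_of_forall_pos_le_add fun ε hε => le_of_tendsto hl ((ev_bounds 6 ε hε).mono fun n h => h.2)
  rw [hv] at lo hi
  refine ⟨Real.exp l, ?_, ?_, ?_⟩
  · rw [← Real.log_lt_iff_lt_exp (by norm_num)]
    refine lt_of_lt_of_le ?_ lo
    rw [lt_div_iff₀ (by positivity), mul_comm, show ((2 : ℝ) ^ (6 + 4)) = ((1024 : ℕ) : ℝ) by norm_num,
      ← Real.log_pow]
    refine Real.log_lt_log (by positivity) ?_
    have : (1152 : ℕ) ^ 1024 * 10 <
      9 * 1144597269393702667106867243857062437540529970218305487613880770 * 1000 ^ 1024 := by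
      decide +kernel
    have h2 := (Nat.cast_lt (α := ℝ)).2 this
    rw [show (1.152 : ℝ) = (1152 : ℕ) / (1000 : ℕ) by norm_num, div_pow, div_lt_iff₀ (by positivity)]
    simp only [Nat.cast_mul, Nat.cast_pow] at h2
    generalize ((1152 : ℕ) : ℝ) ^ 1024 = A at *
    generalize ((1000 : ℕ) : ℝ) ^ 1024 = B at *
    push_cast at h2 ⊢
    linarith
  · rw [← Real.lt_log_iff_exp_lt (by norm_num)]
    refine lt_of_le_of_lt hi ?_
    rw [div_lt_iff₀ (by positivity), mul_comm (Real.log 1.153),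
      show ((2 : ℝ) ^ (6 + 4)) = ((1024 : ℕ) : ℝ) by norm_num, ← Real.log_pow]
    refine Real.log_lt_log (by positivity) ?_
    have : 11 * 1144597269393702667106867243857062437540529970218305487613880770 * 1000 ^ 1024 <
      (1153 : ℕ) ^ 1024 * 10 := by
      decide +kernel
    have h2 := (Nat.cast_lt (α := ℝ)).2 this
    rw [show (1.153 : ℝ) = (1153 : ℕ) / (1000 : ℕ) by norm_num, div_pow, lt_div_iff₀ (by positivity)]
    simp only [Nat.cast_mul, Nat.cast_pow] at h2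
    generalize ((1153 : ℕ) : ℝ) ^ 1024 = A at *
    generalize ((1000 : ℕ) : ℝ) ^ 1024 = B at *
    push_cast at h2 ⊢
    linarith
  · refine ((Real.continuous_exp.tendsto l).comp hl).congr' ?_
    filter_upwards [eventually_ge_atTop 16] with n hn
    have h1 := h_pos n hn
    have h2 : ((h n).natAbs : ℝ) = |(h n : ℝ)| := by rw [Nat.cast_natAbs, Int.cast_abs]
    rw [← h2, Real.rpow_def_of_pos h1, Function.comp, L, mul_one_div]

end Pool.Agent.H60.TMFib
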