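import Mathlib

namespace Pool.Agent.H60.Tern

open Polynomial

open Classical in
/-- The ternary partitions of `n`: all parts are powers of `3`. -/
noncomputable def T (n : ℕ) : Finset (Nat.Partition n) :=
  Finset.univ.filter fun l => ∀ i ∈ l.parts, ∃ j : ℕ, i = 3 ^ j

/-- `h_λ(x) = ∏_{i=1}^{n} (1 + x^i)^{⌊n/i⌋ - m_λ(i)}`. -/
noncomputable def h {n : ℕ} (l : Nat.Partition n) : ℤ[X] :=
  ∏ i ∈ Finset.Icc 1 n, (1 + X ^ i) ^ (n / i - l.parts.count i)

end Pool.Agent.H60.Tern
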