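import Mathlib
import Pool.Agent.H60.TernDefs

namespace Pool.Agent.H60.Tern

open Polynomial Finset

noncomputable def φ : ℕ → ℤ[X]
  | 0 => 1 + X
  | t + 1 => X ^ (2 * 3 ^ t) - X ^ 3 ^ t + 1

lemma prod_φ (j : ℕ) : ∏ t ∈ range (j + 1), φ t = 1 + X ^ 3 ^ j := by
  induction j with
  | zero => simp [φ]
  | succ j ih =>
    rw [prod_range_succ, ih, φ, pow_succ 3 j, mul_comm 2, pow_mul, pow_mul]
    ring

lemma monic_one_add (i : ℕ) (hi : 1 ≤ i) : (1 + X ^ i : ℤ[X]).Monic := by
  rw [add_comm, ← C_1]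
  exact monic_X_pow_add_C _ (by omega)

lemma φ_dvd (t j : ℕ) (h : t ≤ j) : φ t ∣ 1 + X ^ 3 ^ j := by
  rw [← prod_φ]
  exact dvd_prod_of_mem _ (mem_range.2 (by omega))

lemma φ_monic (t : ℕ) : (φ t).Monic := by
  cases t with
  | zero => simpa [φ] using monic_one_add 1 le_rfl
  | succ t =>
    have h1 := monic_one_add (3 ^ (t + 1)) (Nat.one_le_pow _ _ (by norm_num))
    rw [← prod_φ, prod_range_succ, prod_φ] at h1
    exact (monic_one_add _ (Nat.one_le_pow _ _ (by norm_num))).of_mul_monic_left h1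

lemma φ_coprime (π : ℤ[X]) (s t : ℕ) (hst : s < t) (h1 : π ∣ φ s) (h2 : π ∣ φ t) : IsUnit π := by
  obtain ⟨t, rfl⟩ : ∃ u, t = u + 1 := ⟨t - 1, by omega⟩
  have h3 : π ∣ 1 + X ^ 3 ^ t := h1.trans (φ_dvd s t (by omega))
  have h4 : π ∣ C 3 := by
    have : (C 3 : ℤ[X]) = φ (t + 1) - (1 + X ^ 3 ^ t) * (X ^ 3 ^ t - 2) := by
      rw [φ, mul_comm 2, pow_mul]
      simp only [map_ofNat]
      ring
    rw [this]
    exact dvd_sub h2 (h3.mul_right _)
  have h5 : π.natDegree = 0 := by
    have := natDegree_le_of_dvd h4 (by simp)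
    rw [natDegree_C] at this
    omega
  have h6 : IsUnit π.leadingCoeff := (φ_monic s).isUnit_leadingCoeff_of_dvd h1
  rw [eq_C_of_natDegree_eq_zero h5, isUnit_C]
  rwa [leadingCoeff, h5] at h6

/-- number of parts at least `3^t`. -/
def e (s : Multiset ℕ) (t : ℕ) : ℕ := (s.filter fun i => 3 ^ t ≤ i).card

lemma sp_eq (n : ℕ) (s : Multiset ℕ) (hs : ∀ i ∈ s, ∃ j, j < n ∧ i = 3 ^ j) :
    (s.map fun i => (1 + X ^ i : ℤ[X])).prod = ∏ t ∈ range n, φ t ^ e s t := by
  induction s using Multiset.induction_on with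
  | empty => simp [e]
  | cons a s ih =>
    obtain ⟨j, hj, rfl⟩ := hs a (Multiset.mem_cons_self _ _)
    rw [Multiset.map_cons, Multiset.prod_cons, ih fun i hi => hs i (Multiset.mem_cons_of_mem hi)]
    have h1 : (1 + X ^ 3 ^ j : ℤ[X]) = ∏ t ∈ range n, φ t ^ (if 3 ^ t ≤ 3 ^ j then 1 else 0) := by
      rw [← prod_φ]
      simp only [pow_ite, pow_one, pow_zero]
      rw [← prod_filter]
      congr 1
      ext t
      simp only [mem_range, mem_filter, Nat.pow_le_pow_iff_right (show 1 < 3 by norm_num)]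
      omega
    rw [h1, ← prod_mul_distrib]
    refine prod_congr rfl fun t _ => ?_
    rw [← pow_add]
    congr 1
    unfold e
    rw [Multiset.filter_cons]
    split_ifs <;> simp [add_comm]

lemma sum_le_of_le {s t : Multiset ℕ} (h : s ≤ t) : s.sum ≤ t.sum := by
  obtain ⟨u, rfl⟩ := Multiset.le_iff_exists_add.1 h
  simp

lemma e_le {n : ℕ} (l : Nat.Partition n) (t : ℕ) : e l.parts t ≤ n / 3 ^ t := by
  rw [Nat.le_div_iff_mul_le (by positivity)]
  have h1 := Multiset.card_nsmul_le_sum (s := l.parts.filter fun i => 3 ^ t ≤ i) (a := 3 ^ t)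
    fun x hx => (Multiset.mem_filter.1 hx).2
  have h2 := sum_le_of_le (Multiset.filter_le (fun i => 3 ^ t ≤ i) l.parts)
  rw [l.parts_sum] at h2
  exact h1.trans h2

lemma count_le {n : ℕ} (l : Nat.Partition n) (i : ℕ) (hi : 1 ≤ i) : l.parts.count i ≤ n / i := by
  rw [Nat.le_div_iff_mul_le hi]
  have h2 := sum_le_of_le (Multiset.le_count_iff_replicate_le.1
    (le_refl (l.parts.count i)))
  rwa [l.parts_sum, Multiset.sum_replicate] at h2

lemma h_mul_sp {n : ℕ} (l : Nat.Partition n) :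
    h l * (l.parts.map fun i => (1 + X ^ i : ℤ[X])).prod =
      ∏ i ∈ Icc 1 n, (1 + X ^ i) ^ (n / i) := by
  rw [prod_multiset_map_count, prod_subset (s₂ := Icc 1 n), h, ← prod_mul_distrib]
  · refine prod_congr rfl fun i hi => ?_
    rw [← pow_add, Nat.sub_add_cancel (count_le l i (mem_Icc.1 hi).1)]
  · intro i hi
    rw [Multiset.mem_toFinset] at hi
    exact mem_Icc.2 ⟨l.parts_pos hi, l.le_of_mem_parts hi⟩
  · intro i _ hi
    rw [Multiset.mem_toFinset] at hi
    rw [Multiset.count_eq_zero_of_notMem hi, pow_zero]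

lemma L_dvd (n : ℕ) :
    ∏ t ∈ range n, φ t ^ (n / 3 ^ t) ∣ ∏ i ∈ Icc 1 n, (1 + X ^ i : ℤ[X]) ^ (n / i) := by
  have h1 : ∏ t ∈ range n, φ t ^ (n / 3 ^ t) =
      ∏ t ∈ (range n).filter (fun t => 3 ^ t ≤ n), φ t ^ (n / 3 ^ t) := by
    refine (prod_filter_of_ne fun t _ ht => ?_).symm
    by_contra hc
    rw [Nat.div_eq_of_lt (by omega), pow_zero] at ht
    exact ht rfl
  rw [h1]
  refine (prod_dvd_prod_of_dvd _ (fun t => (1 + X ^ 3 ^ t : ℤ[X]) ^ (n / 3 ^ t))
    fun t _ => pow_dvd_pow_of_dvd (φ_dvd t t le_rfl) _).trans ?_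
  rw [← prod_image (g := fun t => 3 ^ t) (f := fun i => (1 + X ^ i : ℤ[X]) ^ (n / i))
    (fun a _ b _ h => Nat.pow_right_injective (by norm_num) h)]
  refine prod_dvd_prod_of_subset _ _ _ fun i hi => ?_
  obtain ⟨t, ht, rfl⟩ := mem_image.1 hi
  exact mem_Icc.2 ⟨Nat.one_le_pow _ _ (by norm_num), (mem_filter.1 ht).2⟩

/-- The extremal partitions. -/
def ext (n t : ℕ) : Nat.Partition n where
  parts := Multiset.replicate (n / 3 ^ t) (3 ^ t) + Multiset.replicate (n % 3 ^ t) 1
  parts_pos := by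
    intro i hi
    rcases Multiset.mem_add.1 hi with h | h <;> rw [Multiset.eq_of_mem_replicate h]
    · positivity
    · norm_num
  parts_sum := by
    simp only [Multiset.sum_add, Multiset.sum_replicate, smul_eq_mul, mul_one]
    exact Nat.div_add_mod' n _

lemma ext_mem (n t : ℕ) : ext n t ∈ T n := by
  simp only [T, mem_filter, mem_univ, true_and]
  intro i hi
  rcases Multiset.mem_add.1 hi with h | h
  · exact ⟨t, Multiset.eq_of_mem_replicate h⟩
  · exact ⟨0, Multiset.eq_of_mem_replicate h⟩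

lemma e_ext (n t : ℕ) : n / 3 ^ t ≤ e (ext n t).parts t := by
  unfold e ext
  simp only [Multiset.filter_add, Multiset.card_add]
  rw [Multiset.filter_eq_self.2 fun a ha => (Multiset.eq_of_mem_replicate ha).ge]
  simp

lemma all_one (s : Multiset ℕ) (hs : ∀ x ∈ s, 1 ≤ x) :
    s.card ≤ s.sum ∧ (s.sum ≤ s.card → ∀ x ∈ s, x = 1) := by
  induction s using Multiset.induction_on with
  | empty => simp
  | cons a s ih =>
    have h1 := ih fun x hx => hs x (Multiset.mem_cons_of_mem hx)
    have h2 := hs a (Multiset.mem_cons_self _ _)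
    rw [Multiset.card_cons, Multiset.sum_cons]
    refine ⟨by omega, fun h x hx => ?_⟩
    rcases Multiset.mem_cons.1 hx with rfl | hx
    · omega
    · exact h1.2 (by omega) x hx

theorem main (n : ℕ) (hn : 1 ≤ n) :
    ∃ G num : ℤ[X], G.Monic ∧ (∀ D : ℤ[X], D ∣ G ↔ ∀ l ∈ T n, D ∣ h l) ∧
      ∑ l ∈ T n, h l = G * num ∧ num.eval (-1) = 3 ^ padicValNat 3 (3 * (n / 3)).factorial := by
  classical
  obtain ⟨G, hG⟩ := L_dvd n
  set c : Nat.Partition n → ℤ[X] := fun l => ∏ t ∈ range n, φ t ^ (n / 3 ^ t - e l.parts t) with hc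
  have hhc : ∀ l ∈ T n, h l = G * c l := by
    intro l hl
    simp only [T, mem_filter, mem_univ, true_and] at hl
    have h1 := h_mul_sp l
    rw [sp_eq n _ fun i hi => ?_, hG] at h1
    · have h2 : ∏ t ∈ range n, φ t ^ (n / 3 ^ t) = c l * ∏ t ∈ range n, φ t ^ e l.parts t := by
        rw [hc, ← prod_mul_distrib]
        refine prod_congr rfl fun t _ => ?_
        rw [← pow_add, Nat.sub_add_cancel (e_le l t)]
      rw [h2] at h1
      refine mul_right_cancel₀ (b := ∏ t ∈ range n, φ t ^ e l.parts t)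
        (monic_prod_of_monic _ _ fun t _ => (φ_monic t).pow _).ne_zero ?_
      rw [h1]; ring
    · obtain ⟨j, rfl⟩ := hl i hi
      exact ⟨j, lt_of_lt_of_le (Nat.lt_pow_self (by norm_num)) (l.le_of_mem_parts hi), rfl⟩
  have hGm : G.Monic := by
    refine (monic_prod_of_monic (range n) (fun t => φ t ^ (n / 3 ^ t))
      fun t _ => (φ_monic t).pow _).of_mul_monic_left ?_
    rw [← hG]
    exact monic_prod_of_monic _ _ fun i hi => (monic_one_add i (mem_Icc.1 hi).1).pow _
  refine ⟨G, ∑ l ∈ T n, c l, hGm, fun D => ⟨fun hD l hl => ?_, fun hD => ?_⟩, ?_, ?_⟩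
  · rw [hhc l hl]; exact hD.mul_right _
  · have h1 : D ∣ (T n).gcd fun l => G * c l := dvd_gcd fun l hl => hhc l hl ▸ hD l hl
    rw [Finset.gcd_mul_left] at h1
    have h2 : IsUnit ((T n).gcd c) := by
      by_contra hu
      have hne : (T n).gcd c ≠ 0 := by
        intro h0
        have := gcd_eq_zero_iff.1 h0 _ (ext_mem n 0)
        exact (monic_prod_of_monic _ _ fun t _ => (φ_monic t).pow _).ne_zero this
      obtain ⟨π, hπ, hd⟩ := WfDvdMonoid.exists_irreducible_factor hu hne
      have hp : Prime π := hπ.prime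
      have key : ∀ t, ∃ s, s ≠ t ∧ π ∣ φ s := by
        intro t
        have h3 : π ∣ c (ext n t) := hd.trans (gcd_dvd (ext_mem n t))
        obtain ⟨s, -, hs⟩ := (Prime.dvd_finset_prod_iff hp _).1 h3
        refine ⟨s, ?_, hp.dvd_of_dvd_pow hs⟩
        rintro rfl
        rw [Nat.sub_eq_zero_of_le (e_ext n s), pow_zero] at hs
        exact hp.not_unit (isUnit_of_dvd_one hs)
      obtain ⟨t, -, ht⟩ := key 0
      obtain ⟨s, hst, hs⟩ := key t
      rcases lt_or_gt_of_ne hst with h | h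
      · exact hp.not_unit (φ_coprime π s t h hs ht)
      · exact hp.not_unit (φ_coprime π t s h ht hs)
    exact (h2.dvd_mul_right.1 h1).trans (normalize_dvd_iff.2 dvd_rfl)
  · rw [mul_sum]
    exact sum_congr rfl hhc
  · obtain ⟨m, rfl⟩ : ∃ m, n = m + 1 := ⟨n - 1, by omega⟩
    rw [eval_finset_sum, sum_eq_single (ext (m + 1) 0)]
    · rw [padicValNat_factorial (b := m + 1)
        (lt_of_le_of_lt (Nat.log_mono_right (Nat.mul_div_le _ _)) (Nat.log_lt_self 3 (by omega))),
        hc]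
      simp only
      rw [prod_range_succ', Nat.sub_eq_zero_of_le (e_ext _ 0), pow_zero, mul_one, eval_prod,
        sum_Ico_eq_sum_range, ← prod_pow_eq_pow_sum]
      refine prod_congr rfl fun t _ => ?_
      have h1 : e (ext (m + 1) 0).parts (t + 1) = 0 := by
        unfold e
        rw [Multiset.card_eq_zero, Multiset.filter_eq_nil]
        intro a ha
        have h3 : 1 < 3 ^ (t + 1) := Nat.one_lt_pow (by omega) (by norm_num)
        rcases Multiset.mem_add.1 ha with h | h <;> rw [Multiset.eq_of_mem_replicate h] <;> omega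
      have h2 : (φ (t + 1)).eval (-1) = 3 := by
        have : Odd (3 ^ t) := Odd.pow (by decide)
        simp [φ, pow_mul, this.neg_one_pow]
      rw [h1, eval_pow, h2]
      congr 1
      rw [Nat.sub_zero, add_comm 1 t, pow_succ', Nat.mul_div_mul_left _ _ (by norm_num),
        Nat.div_div_eq_div_mul]
    · intro l _ hl
      rw [hc]
      simp only
      rw [prod_range_succ', eval_mul, eval_pow]
      have h1 : (m + 1) / 3 ^ 0 - e l.parts 0 ≠ 0 := by
        intro h0
        apply hl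
        have h2 : e l.parts 0 = l.parts.card := by
          unfold e
          rw [Multiset.filter_eq_self.2 fun a ha => (by have := l.parts_pos ha; omega : 3 ^ 0 ≤ a)]
        have h3 := all_one l.parts fun x hx => l.parts_pos hx
        rw [l.parts_sum] at h3
        rw [h2, pow_zero, Nat.div_one] at h0
        ext1
        simp only [ext, pow_zero, Nat.div_one, Nat.mod_one, Multiset.replicate_zero, add_zero]
        exact Multiset.eq_replicate.2 ⟨by omega, h3.2 (by omega)⟩
      rw [show (φ 0).eval (-1) = 0 by simp [φ], zero_pow h1, mul_zero]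
    · intro h; exact absurd (ext_mem _ 0) h

end Pool.Agent.H60.Tern
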