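import Mathlib

set_option autoImplicit false

namespace Pool.Agent.H60.TrdegLe

open Cardinal

/-- If every generator is algebraic over the ring generated by a finite set `T`, the field has
transcendence degree at most `T.card`. -/
theorem trdeg_adjoin_le (T : Finset ℂ) (S : Set ℂ)
    (h : ∀ z ∈ S, IsAlgebraic (Algebra.adjoin ℚ (T : Set ℂ)) z) :
    Algebra.trdeg ℚ (IntermediateField.adjoin ℚ S) ≤ (T.card : Cardinal) := by
  set A : Subalgebra ℚ ℂ := Algebra.adjoin ℚ (T : Set ℂ) with hA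
  let B : Subalgebra A ℂ := Subalgebra.algebraicClosure A ℂ
  have hinj : Function.Injective (algebraMap ℚ A) := (algebraMap ℚ A).injective
  let B' : Subalgebra ℚ ℂ := B.restrictScalars ℚ
  let L : IntermediateField ℚ ℂ := B'.toIntermediateField (fun x hx => IsAlgebraic.inv hx)
  have hle : IntermediateField.adjoin ℚ S ≤ L := by
    rw [IntermediateField.adjoin_le_iff]
    intro z hz
    exact h z hz
  have h1 : Algebra.trdeg ℚ (IntermediateField.adjoin ℚ S) ≤ Algebra.trdeg ℚ B := by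
    let f : (IntermediateField.adjoin ℚ S) →ₐ[ℚ] B :=
      { toFun := fun x => ⟨x.1, hle x.2⟩
        map_one' := rfl
        map_mul' := fun _ _ => rfl
        map_zero' := rfl
        map_add' := fun _ _ => rfl
        commutes' := fun _ => rfl }
    refine trdeg_le_of_injective f ?_
    intro x y hxy
    have := congrArg (fun t : B => (t : ℂ)) hxy
    exact Subtype.ext this
  have h2 : Algebra.trdeg ℚ A + Algebra.trdeg A B = Algebra.trdeg ℚ B := trdeg_add_eq ℚ A
  have h3 : Algebra.trdeg A B = 0 := trdeg_eq_zero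
  have h4 : Algebra.trdeg ℚ A ≤ (T.card : Cardinal) := by
    have htop : Algebra.adjoin ℚ (((↑) : A → ℂ) ⁻¹' (T : Set ℂ)) = ⊤ :=
      Algebra.adjoin_adjoin_coe_preimage
    have : Algebra.IsAlgebraic (Algebra.adjoin ℚ (((↑) : A → ℂ) ⁻¹' (T : Set ℂ))) A := by
      constructor
      intro x
      have hx : x ∈ Algebra.adjoin ℚ (((↑) : A → ℂ) ⁻¹' (T : Set ℂ)) := by rw [htop]; trivial
      exact isAlgebraic_algebraMap (⟨x, hx⟩ : Algebra.adjoin ℚ (((↑) : A → ℂ) ⁻¹' (T : Set ℂ)))
    refine (Algebra.IsAlgebraic.trdeg_le_cardinalMk ℚ (((↑) : A → ℂ) ⁻¹' (T : Set ℂ))).trans ?_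
    refine (Cardinal.mk_preimage_of_injective _ _ Subtype.val_injective).trans ?_
    simp
  rw [h3, add_zero] at h2
  exact h1.trans (h2 ▸ h4)

theorem alg_mem (T : Finset ℂ) {z : ℂ} (hz : z ∈ T) :
    IsAlgebraic (Algebra.adjoin ℚ (T : Set ℂ)) z :=
  isAlgebraic_algebraMap (⟨z, Algebra.subset_adjoin hz⟩ : Algebra.adjoin ℚ (T : Set ℂ))

theorem alg_of_rat (T : Finset ℂ) {z : ℂ} (hz : IsAlgebraic ℚ z) :
    IsAlgebraic (Algebra.adjoin ℚ (T : Set ℂ)) z :=
  hz.extendScalars (algebraMap ℚ (Algebra.adjoin ℚ (T : Set ℂ))).injective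

end Pool.Agent.H60.TrdegLe
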