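import Mathlib

namespace Pool.Agent.H60.TrinOrder

open Polynomial Finset

abbrev K := AlgebraicClosure (ZMod 2)

lemma two_eq : (2 : K) = 0 := CharTwo.two_eq_zero

lemma dvd_of_roots (f : (ZMod 2)[X]) (hf : f.Separable) (e : ℕ) (he : 0 < e)
    (h : ∀ α : K, aeval α f = 0 → α ^ e = 1) : f ∣ 1 + X ^ e := by
  classical
  rw [← map_dvd_map' (algebraMap (ZMod 2) K)]
  have hf' : (f.map (algebraMap (ZMod 2) K)).Separable := hf.map
  have hne : ((1 + X ^ e : (ZMod 2)[X]).map (algebraMap (ZMod 2) K)) ≠ 0 := by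
    intro h0
    have := congrArg (fun p => coeff p e) h0
    simp [coeff_one, he.ne'] at this
  refine Splits.dvd_of_roots_le_roots (IsAlgClosed.splits _) hf'.ne_zero ?_
  rw [Multiset.le_iff_subset (nodup_roots hf')]
  intro α hα
  rw [mem_roots hf'.ne_zero, IsRoot.def, eval_map_algebraMap] at hα
  rw [mem_roots hne, IsRoot.def, eval_map_algebraMap]
  simp only [map_add, map_one, map_pow, aeval_X, h α hα]
  linear_combination two_eq

lemma pow_of_dvd (f : (ZMod 2)[X]) (e : ℕ) (h : f ∣ 1 + X ^ e) (α : K) (hα : aeval α f = 0) :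
    α ^ e = 1 := by
  obtain ⟨g, hg⟩ := h
  have := congrArg (aeval α) hg
  simp only [map_add, map_one, map_pow, aeval_X, map_mul, hα, zero_mul] at this
  linear_combination this - two_eq

lemma upper (r : ℕ) (α : K) (h : α ^ (2 ^ r + 1) + α + 1 = 0) :
    α ^ (4 ^ r + 2 ^ r + 1) = 1 := by
  have h1 : α ^ (2 ^ r + 1) = α + 1 := by linear_combination h - (α + 1) * two_eq
  have h2 : (α ^ (2 ^ r + 1)) ^ 2 ^ r = α ^ 2 ^ r + 1 := by
    rw [h1, add_pow_char_pow, one_pow]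
  have h3 : α ^ (4 ^ r + 2 ^ r + 1) = (α ^ (2 ^ r + 1)) ^ 2 ^ r * α := by
    rw [← pow_mul, ← pow_succ, show (4 : ℕ) ^ r = 2 ^ r * 2 ^ r from by rw [← mul_pow]; rfl]
    congr 1
    ring
  rw [h3, h2]
  linear_combination h - two_eq

lemma lower (r : ℕ) (hr : 1 ≤ r) (e : ℕ) (he : 0 < e)
    (h : ∀ α : K, α ^ (2 ^ r + 1) + α + 1 = 0 → α ^ e = 1) : 4 ^ r + 2 ^ r + 1 ≤ e := by
  classical
  set g : K[X] := X ^ (2 ^ r + 1) + X + 1 with hg
  have hq : ((2 ^ r : ℕ) : K) = 0 := by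
    push_cast
    rw [two_eq, zero_pow (by omega)]
  have hsep : g.Separable := by
    refine ⟨1, -X, ?_⟩
    simp only [hg, derivative_add, derivative_X_pow, derivative_X, derivative_one, Nat.cast_add,
      hq, Nat.add_sub_cancel, zero_add, Nat.cast_one, map_one]
    ring
  have hq1 : 1 ≤ 2 ^ r := Nat.one_le_two_pow
  have hdeg : g.natDegree = 2 ^ r + 1 := by
    rw [hg]
    compute_degree!
  set S := g.roots.toFinset with hS
  have hcard : S.card = 2 ^ r + 1 := by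
    rw [hS, Multiset.toFinset_card_of_nodup (nodup_roots hsep), ← hdeg]
    exact (IsAlgClosed.splits g).natDegree_eq_card_roots.symm
  have hmem : ∀ α ∈ S, α ^ (2 ^ r + 1) + α + 1 = 0 := by
    intro α hα
    rw [hS, Multiset.mem_toFinset, mem_roots hsep.ne_zero] at hα
    simpa [hg] using hα
  have hne0 : ∀ α ∈ S, α ≠ 0 := by
    intro α hα h0
    have := hmem α hα
    simp [h0] at this
  have hmaps : ∀ x ∈ S.offDiag, x.1 / x.2 ∈ (nthRoots e (1 : K)).toFinset.erase 1 := by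
    intro x hx
    rw [mem_offDiag] at hx
    rw [mem_erase, Multiset.mem_toFinset, mem_nthRoots he, div_pow, h _ (hmem _ hx.1),
      h _ (hmem _ hx.2.1), div_one]
    exact ⟨fun h1 => hx.2.2 ((div_eq_one_iff_eq (hne0 _ hx.2.1)).1 h1), rfl⟩
  have hinj : Set.InjOn (fun x : K × K => x.1 / x.2) S.offDiag := by
    rintro ⟨α, β⟩ hx ⟨γ, δ⟩ hy hxy
    simp only [coe_offDiag, Set.mem_offDiag, mem_coe] at hx hy hxy
    set t := γ / δ with ht
    have hα : α = t * β := by rw [← hxy, div_mul_cancel₀ _ (hne0 _ hx.2.1)]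
    have hγ : γ = t * δ := by rw [ht, div_mul_cancel₀ _ (hne0 _ hy.2.1)]
    have ht0 : t ≠ 0 := div_ne_zero (hne0 _ hy.1) (hne0 _ hy.2.1)
    have ht1 : t ≠ 1 := by
      intro h1
      exact hy.2.2 (by rw [hγ, h1, one_mul])
    have htq : t ^ 2 ^ r - 1 ≠ 0 := by
      have := sub_pow_char_pow t 1 r
      rw [one_pow] at this
      rw [← this]
      exact pow_ne_zero _ (sub_ne_zero.2 ht1)
    have e1 := hmem _ hx.1
    have e2 := hmem _ hx.2.1
    have e3 := hmem _ hy.1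
    have e4 := hmem _ hy.2.1
    rw [hα, mul_pow] at e1
    rw [hγ, mul_pow] at e3
    have : (t * (t ^ 2 ^ r - 1)) * (β - δ) = 0 := by
      linear_combination t ^ (2 ^ r + 1) * (e2 - e4) - (e1 - e3)
    have hβ : β = δ := sub_eq_zero.1 ((mul_eq_zero.1 this).resolve_left (mul_ne_zero ht0 htq))
    rw [hα, hγ, hβ]
  have hle := card_le_card_of_injOn _ hmaps hinj
  have h1 : (1 : K) ∈ (nthRoots e (1 : K)).toFinset := by
    rw [Multiset.mem_toFinset, mem_nthRoots he, one_pow]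
  rw [offDiag_card, hcard, card_erase_of_mem h1] at hle
  have h2 : (nthRoots e (1 : K)).toFinset.card ≤ e :=
    (Multiset.toFinset_card_le _).trans (card_nthRoots e 1)
  have h3 : (2 ^ r + 1) * (2 ^ r + 1) = 4 ^ r + 2 ^ r + (2 ^ r + 1) := by
    rw [show (4 : ℕ) ^ r = 2 ^ r * 2 ^ r from by rw [← mul_pow]; rfl]
    ring
  omega

lemma cast_q (r : ℕ) (hr : 1 ≤ r) : ((2 ^ r : ℕ) : ZMod 2) = 0 := by
  rw [ZMod.natCast_eq_zero_iff]
  exact dvd_pow_self 2 (by omega)

theorem order_f (r : ℕ) (hr : 1 ≤ r) :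
    IsLeast {e : ℕ | 0 < e ∧ (1 + X + X ^ 2 ^ r + X ^ (2 ^ r + 2) : (ZMod 2)[X]) ∣ 1 + X ^ e}
      (4 ^ r + 2 ^ r + 1) := by
  refine ⟨⟨by positivity, dvd_of_roots _ ?_ _ (by positivity) fun α hα => ?_⟩,
    fun e he => lower r hr e he.1 fun α hα => ?_⟩
  · refine ⟨0, 1, ?_⟩
    simp only [derivative_add, derivative_X_pow, derivative_X, derivative_one, Nat.cast_add,
      cast_q r hr, Nat.cast_ofNat, show (2 : ZMod 2) = 0 from rfl]
    simp
  · simp only [map_add, map_one, map_pow, aeval_X] at hα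
    have h0 : α ≠ 0 := by
      rintro rfl
      simp at hα
    have e1 : α * α⁻¹ = 1 := mul_inv_cancel₀ h0
    have e2 : α ^ 2 ^ r * α⁻¹ ^ 2 ^ r = 1 := by rw [← mul_pow, e1, one_pow]
    have : (α - 1) * (1 + α ^ 2 ^ r + α ^ 2 ^ r * α) = 0 := by
      linear_combination hα - (1 + α ^ 2 ^ r) * two_eq
    rcases mul_eq_zero.1 this with h | h
    · rw [sub_eq_zero.1 h, one_pow]
    · have := upper r α⁻¹ (by
        rw [pow_succ]
        generalize α⁻¹ = β at *
        linear_combination (β ^ 2 ^ r * β) * h - β * e2 - α * β * e2 - e1)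
      rwa [inv_pow, inv_eq_one] at this
  · have h0 : α ≠ 0 := by
      rintro rfl
      simp at hα
    have e1 : α * α⁻¹ = 1 := mul_inv_cancel₀ h0
    have e2 : α ^ 2 ^ r * α⁻¹ ^ 2 ^ r = 1 := by rw [← mul_pow, e1, one_pow]
    have := pow_of_dvd _ e he.2 α⁻¹ (by
      simp only [map_add, map_one, map_pow, aeval_X]
      generalize α⁻¹ = β at *
      have h1 : 1 + β ^ 2 ^ r + β ^ 2 ^ r * β = 0 := by
        linear_combination (β ^ 2 ^ r * β) * hα - α * β * e2 - e1 - β ^ 2 ^ r * e1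
      linear_combination (1 + β) * h1 - β ^ 2 ^ r * β * two_eq)
    rwa [inv_pow, inv_eq_one] at this

theorem order_fR (r : ℕ) (hr : 1 ≤ r) :
    IsLeast {e : ℕ | 0 < e ∧
      (1 + X ^ 2 + X ^ (2 ^ r + 1) + X ^ (2 ^ r + 2) : (ZMod 2)[X]) ∣ 1 + X ^ e}
      (4 ^ r + 2 ^ r + 1) := by
  refine ⟨⟨by positivity, dvd_of_roots _ ?_ _ (by positivity) fun α hα => ?_⟩,
    fun e he => lower r hr e he.1 fun α hα => ?_⟩
  · have hd : derivative (1 + X ^ 2 + X ^ (2 ^ r + 1) + X ^ (2 ^ r + 2) : (ZMod 2)[X]) =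
        X ^ 2 ^ r := by
      simp only [derivative_add, derivative_X_pow, derivative_one, Nat.cast_add,
        cast_q r hr, Nat.cast_ofNat, show (2 : ZMod 2) = 0 from rfl]
      simp
    rw [Separable, hd]
    refine IsCoprime.pow_right ⟨1, -(X + X ^ 2 ^ r + X ^ (2 ^ r + 1)), ?_⟩
    ring
  · simp only [map_add, map_one, map_pow, aeval_X] at hα
    have : (α - 1) * (α ^ (2 ^ r + 1) + α + 1) = 0 := by
      linear_combination hα - (1 + α ^ (2 ^ r + 1)) * two_eq
    rcases mul_eq_zero.1 this with h | h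
    · rw [sub_eq_zero.1 h, one_pow]
    · exact upper r _ h
  · exact pow_of_dvd _ e he.2 α (by
      simp only [map_add, map_one, map_pow, aeval_X]
      linear_combination (α + 1) * hα - α * two_eq)

end Pool.Agent.H60.TrinOrder
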