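import Mathlib

set_option autoImplicit false

namespace Pool.Agent.H60.UP

open Polynomial Set

open Classical in
/-- number of roots (with multiplicity) in a set -/
noncomputable def cnt (p : ℂ[X]) (E : Set ℂ) : ℕ := (p.roots.filter (· ∈ E)).card

lemma exists_vec (p : ℂ[X]) {d : ℕ} (hd : p.natDegree = d) :
    ∃ v : Fin d → ℂ, p = C p.leadingCoeff * ∏ i, (X - C (v i)) := by
  have hc : p.roots.card = p.natDegree := IsAlgClosed.card_roots_eq_natDegree
  have key : ∀ l : List ℂ, l.length = d → ∃ v : Fin d → ℂ,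
      (l.map fun a => (X - C a : ℂ[X])).prod = ∏ i, (X - C (v i)) := by
    intro l hl
    subst hl
    refine ⟨l.get, ?_⟩
    conv_lhs => rw [← List.ofFn_get l]
    rw [List.map_ofFn, List.prod_ofFn]
    rfl
  obtain ⟨v, hv⟩ := key p.roots.toList (by rw [Multiset.length_toList, hc, hd])
  refine ⟨v, ?_⟩
  conv_lhs => rw [← C_leadingCoeff_mul_prod_multiset_X_sub_C hc]
  congr 1
  conv_lhs => rw [← Multiset.coe_toList p.roots]
  rw [Multiset.map_coe, Multiset.prod_coe, hv]

open Classical in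
lemma cnt_vec {d : ℕ} {a : ℂ} (ha : a ≠ 0) (v : Fin d → ℂ) (E : Set ℂ) :
    cnt (C a * ∏ i, (X - C (v i))) E = ∑ i, if v i ∈ E then 1 else 0 := by
  unfold cnt
  rw [roots_C_mul _ ha]
  have : (∏ i, (X - C (v i)) : ℂ[X]) = ((Finset.univ.val.map v).map fun a => X - C a).prod := by
    rw [Multiset.map_map]; rfl
  rw [this, roots_multiset_prod_X_sub_C, Multiset.filter_map, Multiset.card_map]
  rw [Finset.sum_boole]
  simp only [Nat.cast_id]
  rfl

/-- constancy of the number of roots in a relatively clopen piece -/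
theorem cnt_const (A P : ℂ[X]) (hdeg : P.degree < A.degree) {c₀ : ℝ} (hc₀ : 0 ≤ c₀)
    {E E' : Set ℂ} (hE : IsOpen E) (hE' : IsOpen E') (hd : Disjoint E E')
    (hb : Bornology.IsBounded (E ∪ E'))
    (hr : ∀ c : ℝ, 0 ≤ c → c ≤ c₀ → ∀ z, A.eval z - c * P.eval z = 0 → z ∈ E ∪ E') :
    cnt (A - C (c₀ : ℂ) * P) E = cnt A E := by
  classical
  have hA : A ≠ 0 := by rintro rfl; simp at hdeg
  have ha : A.leadingCoeff ≠ 0 := leadingCoeff_ne_zero.2 hA
  have hlt : ∀ c : ℂ, (C c * P).degree < A.degree := fun c =>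
    (degree_mul_le _ _).trans_lt (by
      refine lt_of_le_of_lt ?_ hdeg
      have := degree_C_le (a := c)
      calc (C c).degree + P.degree ≤ 0 + P.degree := by gcongr
        _ = P.degree := zero_add _)
  have hnd : ∀ c : ℂ, (A - C c * P).natDegree = A.natDegree := fun c =>
    natDegree_eq_of_degree_eq (degree_sub_eq_left_of_degree_lt (hlt c))
  have hlc : ∀ c : ℂ, (A - C c * P).leadingCoeff = A.leadingCoeff := fun c =>
    leadingCoeff_sub_of_degree_lt (hlt c)
  set d := A.natDegree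
  have hvec : ∀ c : ℂ, ∃ v : Fin d → ℂ, A - C c * P = C A.leadingCoeff * ∏ i, (X - C (v i)) := by
    intro c
    obtain ⟨v, hv⟩ := exists_vec (A - C c * P) (hnd c)
    rw [hlc] at hv
    exact ⟨v, hv⟩
  let R : Set (ℝ × (Fin d → ℂ)) := {x | x.1 ∈ Icc 0 c₀ ∧
    ∀ z, A.leadingCoeff * ∏ i, (z - x.2 i) = A.eval z - x.1 * P.eval z}
  have hRp : ∀ x ∈ R, A - C (x.1 : ℂ) * P = C A.leadingCoeff * ∏ i, (X - C (x.2 i)) := by
    intro x hx
    apply Polynomial.funext
    intro z
    simp [eval_prod, hx.2 z]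
  have hRm : ∀ x ∈ R, ∀ i, x.2 i ∈ E ∪ E' := by
    intro x hx i
    apply hr x.1 hx.1.1 hx.1.2
    rw [← hx.2, Finset.prod_eq_zero (Finset.mem_univ i) (sub_self _), mul_zero]
  have hRc : IsClosed R := by
    have : R = (Prod.fst ⁻¹' Icc 0 c₀) ∩ ⋂ z : ℂ, {x : ℝ × (Fin d → ℂ) |
        A.leadingCoeff * ∏ i, (z - x.2 i) = A.eval z - x.1 * P.eval z} := by
      ext x; simp [R]
    rw [this]
    exact (isClosed_Icc.preimage continuous_fst).inter
      (isClosed_iInter fun z => isClosed_eq (by fun_prop) (by fun_prop))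
  obtain ⟨ρ, hρ⟩ := hb.exists_norm_le
  have hRk : IsCompact R := by
    refine ((isCompact_Icc (a := 0) (b := c₀)).prod (isCompact_univ_pi
      fun _ : Fin d => isCompact_closedBall (0 : ℂ) ρ)).of_isClosed_subset hRc ?_
    intro x hx
    exact ⟨hx.1, fun i _ => by simpa using hρ _ (hRm x hx i)⟩
  haveI : CompactSpace R := isCompact_iff_compactSpace.1 hRk
  let π : R → Icc (0 : ℝ) c₀ := fun x => ⟨x.1.1, x.2.1⟩
  have hπc : Continuous π := by fun_prop
  have hπs : Function.Surjective π := by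
    intro c
    obtain ⟨v, hv⟩ := hvec (c.1 : ℂ)
    refine ⟨⟨(c.1, v), c.2, fun z => ?_⟩, rfl⟩
    have := congrArg (eval z) hv
    simpa [eval_prod] using this.symm
  have hq : Topology.IsQuotientMap π := hπc.isClosedMap.isQuotientMap hπc hπs
  let n : Icc (0 : ℝ) c₀ → ℕ := fun c => cnt (A - C (c.1 : ℂ) * P) E
  have hn : Continuous n := by
    rw [hq.continuous_iff]
    have : n ∘ π = fun x : R => ∑ i, if x.1.2 i ∈ E then 1 else 0 := by
      funext x
      simp only [n, π, Function.comp]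
      rw [hRp x.1 x.2, cnt_vec ha]
    rw [this]
    refine continuous_finset_sum _ fun i _ => ?_
    have hcl : IsClopen {x : R | x.1.2 i ∈ E} := by
      constructor
      · rw [← isOpen_compl_iff]
        have : {x : R | x.1.2 i ∈ E}ᶜ = {x : R | x.1.2 i ∈ E'} := by
          ext x
          simp only [mem_compl_iff, mem_setOf_eq]
          constructor
          · intro h; exact (hRm x.1 x.2 i).resolve_left h
          · intro h h'; exact Set.disjoint_left.1 hd h' h
        rw [this]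
        exact hE'.preimage (by fun_prop)
      · exact hE.preimage (by fun_prop)
    refine continuous_if' ?_ ?_ continuousOn_const continuousOn_const <;>
      simp [hcl.frontier_eq]
  haveI : PreconnectedSpace (Icc (0 : ℝ) c₀) := isPreconnected_iff_preconnectedSpace.1 isPreconnected_Icc
  have := PreconnectedSpace.constant (inferInstance) hn (x := ⟨c₀, hc₀, le_rfl⟩)
    (y := ⟨0, le_rfl, hc₀⟩)
  simpa [n] using this

open Classical in
lemma sum_cnt_le (m : Multiset ℂ) (F : Finset (Set ℂ))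
    (hF : ∀ E ∈ F, ∀ E' ∈ F, ∀ x, x ∈ E → x ∈ E' → E = E') :
    ∑ E ∈ F, (m.filter (· ∈ E)).card ≤ m.card := by
  induction m using Multiset.induction_on with
  | empty => simp
  | cons a m ih =>
    have : ∀ E ∈ F, ((a ::ₘ m).filter (· ∈ E)).card =
        (m.filter (· ∈ E)).card + if a ∈ E then 1 else 0 := by
      intro E _
      by_cases h : a ∈ E
      · rw [Multiset.filter_cons_of_pos _ h]; simp [h]
      · rw [Multiset.filter_cons_of_neg _ h]; simp [h]
    rw [Finset.sum_congr rfl this, Finset.sum_add_distrib, Multiset.card_cons, Finset.sum_boole]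
    have : (F.filter (a ∈ ·)).card ≤ 1 := by
      rw [Finset.card_le_one]
      intro E hE E' hE'
      rw [Finset.mem_filter] at hE hE'
      exact hF E hE.1 E' hE'.1 a hE.2 hE'.2
    simp only [Nat.cast_id]
    omega

open Classical in
lemma card_le_cnt {p : ℂ[X]} (hp : p ≠ 0) (E : Set ℂ) (s : Finset ℂ)
    (hs : ∀ z ∈ s, z ∈ E ∧ p.eval z = 0) : s.card ≤ cnt p E := by
  unfold cnt
  refine Multiset.card_le_card (s := s.val) ?_
  rw [Finset.val_le_iff_val_subset]
  intro z hz
  rw [Multiset.mem_filter, mem_roots hp]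
  exact ⟨(hs z hz).2, (hs z hz).1⟩

lemma cnt_mul {p q : ℂ[X]} (h : p * q ≠ 0) (E : Set ℂ) : cnt (p * q) E = cnt p E + cnt q E := by
  unfold cnt
  rw [roots_mul h, Multiset.filter_add, Multiset.card_add]

lemma cnt_eq_zero {p : ℂ[X]} (E : Set ℂ) (h : ∀ z ∈ E, p.eval z ≠ 0) : cnt p E = 0 := by
  classical
  unfold cnt
  rw [Multiset.card_eq_zero, Multiset.filter_eq_nil]
  intro a ha haE
  exact h a haE (isRoot_of_mem_roots ha)

/-- minimum modulus: a root in a small disc -/
lemma exists_root_disc {h : ℂ → ℂ} {ζ : ℂ} {κ m : ℝ} (hκ : 0 < κ)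
    (hd : ∀ z ∈ Metric.closedBall ζ κ, DifferentiableAt ℂ h z)
    (hs : ∀ z ∈ Metric.sphere ζ κ, m ≤ ‖h z‖) (hc : ‖h ζ‖ < m) :
    ∃ z ∈ Metric.closedBall ζ κ, h z = 0 := by
  by_contra hne
  push_neg at hne
  have hm : 0 < m := (norm_nonneg _).trans_lt hc
  have hdc : DiffContOnCl ℂ (fun z => (h z)⁻¹) (Metric.ball ζ κ) := by
    refine ⟨fun z hz => ((hd z (Metric.ball_subset_closedBall hz)).inv
      (hne z (Metric.ball_subset_closedBall hz))).differentiableWithinAt, fun z hz => ?_⟩
    rw [closure_ball _ hκ.ne'] at hz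
    exact ((hd z hz).inv (hne z hz)).continuousAt.continuousWithinAt
  have := Complex.norm_le_of_forall_mem_frontier_norm_le Metric.isBounded_ball hdc (C := m⁻¹)
    (fun z hz => by
      rw [frontier_ball _ hκ.ne'] at hz
      rw [norm_inv]
      exact inv_anti₀ hm (hs z hz)) (subset_closure (Metric.mem_ball_self hκ))
  rw [norm_inv] at this
  have h0 : 0 < ‖h ζ‖ := norm_pos_iff.2 (hne ζ (Metric.mem_closedBall_self hκ.le))
  have := (inv_le_inv₀ h0 hm).1 this
  linarith

end Pool.Agent.H60.UP
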