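import Pool.Agent.H60.UPa
import Pool.Agent.H60.UPb

set_option autoImplicit false

namespace Pool.Agent.H60.UP

open Polynomial Set Complex ComplexConjugate

noncomputable def fold (z : ℂ) : ℂ := (z.re : ℂ) + ((|z.im| : ℝ) : ℂ) * Complex.I

@[simp] lemma fold_re (z : ℂ) : (fold z).re = z.re := by simp [fold]
@[simp] lemma fold_im (z : ℂ) : (fold z).im = |z.im| := by simp [fold]
lemma continuous_fold : Continuous fold := by unfold fold; fun_prop
lemma fold_eq (z : ℂ) : fold z = z ∨ fold z = conj z := by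
  rcases le_total 0 z.im with h | h
  · left; apply Complex.ext <;> simp [abs_of_nonneg h]
  · right; apply Complex.ext <;> simp [abs_of_nonpos h]
lemma fold_conj (z : ℂ) : fold (conj z) = fold z := by apply Complex.ext <;> simp
lemma eq_of_fold {z z' : ℂ} (h : fold z = fold z') : z' = z ∨ z' = conj z := by
  have h1 := congrArg Complex.re h
  have h2 := congrArg Complex.im h
  simp only [fold_re, fold_im] at h1 h2
  rcases abs_eq_abs.1 h2 with h3 | h3
  · left; apply Complex.ext <;> simp [h1, h3]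
  · right; apply Complex.ext <;> simp [h1, h3]
lemma norm_fold_sub (z z' : ℂ) : ‖fold z - fold z'‖ ≤ ‖z - z'‖ := by
  rw [← sq_le_sq₀ (norm_nonneg _) (norm_nonneg _), Complex.sq_norm, Complex.sq_norm,
    normSq_apply, normSq_apply]
  simp only [sub_re, sub_im, fold_re, fold_im]
  have := abs_abs_sub_abs_le_abs_sub z.im z'.im
  have h2 := sq_le_sq.2 this
  nlinarith

lemma norm_one_of {M : ℕ} (hM : 2 ≤ M) {σ : ℝ} (hσ : σ = 1 ∨ σ = -1) {a : ℂ}
    (ha : σ * a ^ M = -1) : ‖a‖ = 1 := by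
  have := congrArg norm ha
  rw [norm_mul, norm_pow, norm_neg, norm_one] at this
  have h1 : ‖(σ : ℂ)‖ = 1 := by rcases hσ with rfl | rfl <;> simp
  rw [h1, one_mul] at this
  exact (pow_eq_one_iff_of_nonneg (norm_nonneg _) (by omega)).1 this

lemma sector {M : ℕ} (hM : 2 ≤ M) {σ : ℝ} (hσ : σ = 1 ∨ σ = -1) {a a' : ℂ}
    (ha : σ * a ^ M = -1) (ha' : σ * a' ^ M = -1) (hi : 0 ≤ a.im) (hlt : arg a < arg a') :
    ∃ w : ℂ, ‖w‖ = 1 ∧ σ * w ^ M = 1 ∧ 0 < w.im ∧ (a / w).im ≤ -Real.sin (Real.pi / M) ∧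
      Real.sin (Real.pi / M) ≤ (a' / w).im := by
  have e1 : a = exp (arg a * Complex.I) := by
    conv_lhs => rw [← norm_mul_exp_arg_mul_I a, norm_one_of hM hσ ha]
    simp
  have e2 : a' = exp (arg a' * Complex.I) := by
    conv_lhs => rw [← norm_mul_exp_arg_mul_I a', norm_one_of hM hσ ha']
    simp
  have h0 : 0 ≤ arg a := arg_nonneg_iff.2 hi
  have h1 : arg a' ≤ Real.pi := arg_le_pi _
  generalize arg a = θ at *
  generalize arg a' = θ' at *
  have hMp : (0 : ℝ) < M := by exact_mod_cast (by omega : 0 < M)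
  have hM2 : (2 : ℝ) ≤ M := by exact_mod_cast hM
  have hσ0 : (σ : ℂ) ≠ 0 := by rcases hσ with rfl | rfl <;> simp
  have hpow : a' ^ M = a ^ M := mul_left_cancel₀ hσ0 (ha'.trans ha.symm)
  rw [e1, e2, ← exp_nat_mul, ← exp_nat_mul, exp_eq_exp_iff_exists_int] at hpow
  obtain ⟨k, hk⟩ := hpow
  have hk' := congrArg Complex.im hk
  simp at hk'
  have hk1 : (1 : ℝ) ≤ k := by
    have : (0 : ℝ) < k := by
      by_contra hle
      push_neg at hle
      nlinarith [Real.pi_pos, mul_pos hMp (sub_pos.2 hlt)]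
    exact_mod_cast (show (0 : ℤ) < k by exact_mod_cast this)
  have hgap : 2 * (Real.pi / M) ≤ θ' - θ := by
    rw [← mul_div_assoc, div_le_iff₀ hMp]
    nlinarith [Real.pi_pos]
  have hp0 : 0 < Real.pi / M := div_pos Real.pi_pos hMp
  have hp2 : Real.pi / M ≤ Real.pi / 2 := div_le_div_of_nonneg_left Real.pi_pos.le (by norm_num) hM2
  refine ⟨exp ((θ + Real.pi / M : ℝ) * Complex.I), norm_exp_ofReal_mul_I _, ?_, ?_, ?_, ?_⟩
  · have : exp ((θ + Real.pi / M : ℝ) * Complex.I) ^ M = a ^ M * exp (Real.pi * Complex.I) := by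
      rw [e1, ← exp_nat_mul, ← exp_nat_mul, ← exp_add]
      congr 1
      have : (M : ℂ) ≠ 0 := by exact_mod_cast hMp.ne'
      push_cast; field_simp
    rw [this, exp_pi_mul_I, ← mul_assoc, ha]; ring
  · rw [exp_ofReal_mul_I_im]
    exact Real.sin_pos_of_pos_of_lt_pi (by linarith) (by linarith)
  · have : a / exp ((θ + Real.pi / M : ℝ) * Complex.I) =
        exp ((-(Real.pi / M) : ℝ) * Complex.I) := by
      rw [e1, ← exp_sub]; congr 1; push_cast; ring
    rw [this, exp_ofReal_mul_I_im, Real.sin_neg]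
  · have : a' / exp ((θ + Real.pi / M : ℝ) * Complex.I) =
        exp ((θ' - θ - Real.pi / M : ℝ) * Complex.I) := by
      rw [e2, ← exp_sub]; congr 1; push_cast; ring
    rw [this, exp_ofReal_mul_I_im]
    rcases le_total (θ' - θ - Real.pi / M) (Real.pi / 2) with h | h
    · exact Real.sin_le_sin_of_le_of_le_pi_div_two (by linarith) h (by linarith)
    · rw [← Real.sin_pi_sub (θ' - θ - Real.pi / M)]
      exact Real.sin_le_sin_of_le_of_le_pi_div_two (by linarith) (by linarith) (by linarith)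

lemma exists_consts {M : ℕ} (hM : 2 ≤ M) {σ : ℝ} (hσ : σ = 1 ∨ σ = -1) :
    ∃ (Z : Finset ℂ) (κ ε : ℝ), Z.card = M ∧ (∀ ζ ∈ Z, σ * ζ ^ M = -1) ∧ 0 < κ ∧ κ ≤ 1 ∧
      κ < Real.sin (Real.pi / M) ∧ (∀ ζ ∈ Z, ∀ ζ' ∈ Z, ζ ≠ ζ' → 2 * κ < ‖ζ - ζ'‖) ∧ 0 < ε ∧
      ε < 1 / 2 ∧ ∀ ζ ∈ Z, ∀ z ∈ Metric.sphere ζ κ, 3 * ε ≤ ‖σ * z ^ M + 1‖ := by
  classical
  have hM0 : 0 < M := by omega
  have hσ0 : (σ : ℂ) ≠ 0 := by rcases hσ with rfl | rfl <;> simp
  have hσ2 : (σ : ℂ) * σ = 1 := by rcases hσ with rfl | rfl <;> simp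
  have hprim := Complex.isPrimitiveRoot_exp M hM0.ne'
  let Z : Finset ℂ := (nthRoots M (-(σ : ℂ))).toFinset
  have hZ : ∀ ζ, ζ ∈ Z ↔ σ * ζ ^ M = -1 := by
    intro ζ
    simp only [Z, Multiset.mem_toFinset, mem_nthRoots hM0]
    constructor
    · intro h; rw [h]; linear_combination -hσ2
    · intro h; linear_combination σ * h - ζ ^ M * hσ2
  have hcard : Z.card = M := by
    rw [Multiset.toFinset_card_of_nodup (hprim.nthRoots_nodup (neg_ne_zero.2 hσ0)),
      hprim.card_nthRoots, if_pos (IsAlgClosed.exists_pow_nat_eq _ hM0)]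
  have hsin : 0 < Real.sin (Real.pi / M) := by
    have hM2 : (2 : ℝ) ≤ M := by exact_mod_cast hM
    apply Real.sin_pos_of_pos_of_lt_pi (div_pos Real.pi_pos (by linarith))
    rw [div_lt_iff₀ (by linarith)]; nlinarith [Real.pi_pos]
  have ev : ∀ᶠ κ : ℝ in nhdsWithin 0 (Ioi 0), 0 < κ ∧ κ ≤ 1 ∧ κ < Real.sin (Real.pi / M) ∧
      ∀ ζ ∈ Z, ∀ ζ' ∈ Z, ζ ≠ ζ' → 2 * κ < ‖ζ - ζ'‖ := by
    refine Filter.Eventually.and self_mem_nhdsWithin (Filter.Eventually.filter_mono
      nhdsWithin_le_nhds ?_)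
    refine (eventually_le_nhds one_pos).and ((eventually_lt_nhds hsin).and ?_)
    simp only [Filter.eventually_all_finset]
    intro ζ _ ζ' _
    by_cases h : ζ = ζ'
    · exact Filter.Eventually.of_forall fun _ h' => absurd h h'
    · have : 0 < ‖ζ - ζ'‖ / 2 := by have := norm_pos_iff.2 (sub_ne_zero.2 h); positivity
      filter_upwards [eventually_lt_nhds this] with κ hκ _
      linarith
  obtain ⟨κ, k0, k1, k2, k3⟩ := ev.exists
  have hK : IsCompact (⋃ ζ ∈ Z, Metric.sphere ζ κ) :=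
    Z.isCompact_biUnion fun ζ _ => isCompact_sphere ζ κ
  have hne : ∀ z ∈ ⋃ ζ ∈ Z, Metric.sphere ζ κ, 0 < ‖(σ : ℂ) * z ^ M + 1‖ := by
    intro z hz
    simp only [mem_iUnion] at hz
    obtain ⟨ζ, hζ, hz⟩ := hz
    rw [norm_pos_iff]
    intro h0
    have hzZ : z ∈ Z := (hZ z).2 (by linear_combination h0)
    rw [Metric.mem_sphere, dist_eq_norm] at hz
    by_cases h : z = ζ
    · rw [h, sub_self, norm_zero] at hz; linarith
    · have := k3 z hzZ ζ hζ h; linarith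
  obtain ⟨m, hm0, hm⟩ := hK.exists_forall_le' (f := fun z => ‖(σ : ℂ) * z ^ M + 1‖)
    (by fun_prop) hne
  refine ⟨Z, κ, min (m / 3) (1 / 4), hcard, fun ζ h => (hZ ζ).1 h, k0, k1, k2, k3,
    by positivity, (min_le_right _ _).trans_lt (by norm_num), fun ζ hζ z hz => ?_⟩
  have := hm z (by simp only [mem_iUnion]; exact ⟨ζ, hζ, hz⟩)
  have h2 := min_le_left (m / 3) (1 / 4)
  linarith

end Pool.Agent.H60.UP
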