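import Pool.Agent.H60.UPc

set_option autoImplicit false

namespace Pool.Agent.H60.UP

open Polynomial Set Complex ComplexConjugate

/-- the symmetric path class of `x` in `O` -/
def cls (O : Set ℂ) (x : ℂ) : Set ℂ := pathComponentIn O x ∪ pathComponentIn O (conj x)

section
variable {O : Set ℂ} (hO : ∀ z ∈ O, conj z ∈ O)
include hO

lemma joined_conj {x y : ℂ} (h : JoinedIn O x y) : JoinedIn O (conj x) (conj y) :=
  (h.map continuous_conj).mono (by rintro _ ⟨z, hz, rfl⟩; exact hO z hz)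

lemma cls_conj {x y : ℂ} (h : y ∈ cls O x) : conj y ∈ cls O x := by
  rcases h with h | h
  · exact Or.inr (joined_conj hO h)
  · left
    have := joined_conj hO h
    rwa [conj_conj] at this

lemma cls_sub {x y : ℂ} (h : y ∈ cls O x) : cls O y ⊆ cls O x := by
  have h' := cls_conj hO h
  rintro z (hz | hz)
  · rcases h with h | h
    · exact Or.inl (JoinedIn.trans h hz)
    · exact Or.inr (JoinedIn.trans h hz)
  · rcases h' with h' | h'
    · exact Or.inl (JoinedIn.trans h' hz)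
    · exact Or.inr (JoinedIn.trans h' hz)

lemma cls_symm {x y : ℂ} (h : y ∈ cls O x) : x ∈ cls O y := by
  rcases h with h | h
  · exact Or.inl (JoinedIn.symm h)
  · right
    have := joined_conj hO (JoinedIn.symm h)
    rwa [conj_conj] at this

lemma cls_eq {x y : ℂ} (h : y ∈ cls O x) : cls O y = cls O x :=
  subset_antisymm (cls_sub hO h) (cls_sub hO (cls_symm hO h))

lemma cls_fold {x y : ℂ} (h : y ∈ cls O x) : ∃ γ : unitInterval → ℂ, Continuous γ ∧
    γ 0 = fold x ∧ γ 1 = fold y ∧ ∀ t, γ t ∈ O ∧ 0 ≤ (γ t).im := by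
  have key : ∀ x', JoinedIn O x' y → ∃ γ : unitInterval → ℂ, Continuous γ ∧
      γ 0 = fold x' ∧ γ 1 = fold y ∧ ∀ t, γ t ∈ O ∧ 0 ≤ (γ t).im := by
    rintro x' ⟨p, hp⟩
    refine ⟨fun t => fold (p t), continuous_fold.comp p.continuous, by simp, by simp,
      fun t => ⟨?_, by simp⟩⟩
    rcases fold_eq (p t) with h | h <;> simp only [h]
    · exact hp t
    · exact hO _ (hp t)
  rcases h with h | h
  · exact key x h
  · simpa [fold_conj] using key _ h

lemma cls_compl_open (ho : IsOpen O) (x : ℂ) : IsOpen (O \ cls O x) := by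
  rw [isOpen_iff_mem_nhds]
  intro y hy
  refine Filter.mem_of_superset ((ho.pathComponentIn y).mem_nhds (mem_pathComponentIn_self hy.1)) ?_
  intro z hz
  refine ⟨pathComponentIn_subset hz, fun h => hy.2 ?_⟩
  exact cls_sub hO h (Or.inl (JoinedIn.symm hz))

end

theorem core_coprime {M : ℕ} (hM : 2 ≤ M) {σ : ℝ} (hσ : σ = 1 ∨ σ = -1) :
    ∃ ε : ℝ, 0 < ε ∧ ∀ (T S P : ℂ[X]) (n : ℕ) (b : ℝ), 0 < b → b ≤ 1 →
      (∀ z, ‖T.eval (conj z)‖ = ‖T.eval z‖) → (∀ z, ‖S.eval (conj z)‖ = ‖S.eval z‖) →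
      (∀ z, ‖P.eval (conj z)‖ = ‖P.eval z‖) → S ≠ 0 → (∀ z, S.eval z = 0 → z.im ≠ 0) →
      (∀ z, P.eval z = 0 → z.im = 0) → P.degree < (T * S ^ n).degree →
      (∀ z : ℂ, ‖z‖ ≤ 2 → P.eval z ≠ 0 ∧
        ‖T.eval z * S.eval z ^ n / P.eval z - 1 - σ * b * z ^ M‖ ≤ b * ε) →
      (∀ z, P.eval z = 0 → T.eval z ≠ 0) → M ≤ T.natDegree + S.natDegree := by
  classical
  obtain ⟨Z, κ, ε, hcard, hZ, k0, k1, k2, k3, e0, e1, hsph⟩ := exists_consts hM hσ
  refine ⟨ε, e0, fun T S P n b b0 b1 hT hS hP S0 Sim Pim hdeg happ hcop => ?_⟩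
  set A := T * S ^ n with hA
  have hAe : ∀ z, A.eval z = T.eval z * S.eval z ^ n := fun z => by simp [hA]
  have hA0 : A ≠ 0 := by intro h; rw [h] at hdeg; simp at hdeg
  have T0 : T ≠ 0 := left_ne_zero_of_mul hA0
  have hAs : ∀ z, ‖A.eval (conj z)‖ = ‖A.eval z‖ := fun z => by
    rw [hAe, hAe, norm_mul, norm_mul, norm_pow, norm_pow, hT, hS]
  let G : ℂ → ℂ := fun z => A.eval z / P.eval z
  have hGd : ∀ z, P.eval z ≠ 0 → DifferentiableAt ℂ G z := fun z hz =>
    (A.differentiableAt).div (P.differentiableAt) hz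
  have hap : ∀ z : ℂ, ‖z‖ ≤ 2 → ‖G z - 1 - σ * b * z ^ M‖ ≤ b * ε := fun z hz => by
    simpa only [G, hAe] using (happ z hz).2
  let O : Set ℂ := {z | ‖A.eval z‖ < (1 - b / 2) * ‖P.eval z‖}
  have hO : ∀ z ∈ O, conj z ∈ O := fun z hz => by
    simp only [O, mem_setOf_eq, hAs, hP]; exact hz
  have ho : IsOpen O := isOpen_lt (by fun_prop) (by fun_prop)
  have hOP : ∀ z ∈ O, P.eval z ≠ 0 := fun z hz h => by
    simp only [O, mem_setOf_eq, h, norm_zero, mul_zero] at hz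
    exact absurd hz (not_lt.2 (norm_nonneg _))
  have hOG : ∀ z ∈ O, ‖G z‖ < 1 - b / 2 := fun z hz => by
    simp only [G, norm_div]
    rw [div_lt_iff₀ (norm_pos_iff.2 (hOP z hz))]; exact hz
  have hOb : Bornology.IsBounded O := by
    have h1 := (isLittleO_cobounded_of_degree_lt hdeg).def one_pos
    rw [Filter.eventually_iff, ← Bornology.isCobounded_def, ← Bornology.isBounded_compl_iff] at h1
    refine h1.subset fun z hz h => ?_
    simp only [O, mem_setOf_eq] at hz h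
    nlinarith [norm_nonneg (P.eval z)]
  have hroot : ∀ c : ℝ, 0 ≤ c → c ≤ 1 - b → ∀ z, A.eval z - c * P.eval z = 0 → z ∈ O := by
    intro c c0 c1 z hz
    have hPz : P.eval z ≠ 0 := by
      intro h
      rw [h, mul_zero, sub_zero, hAe] at hz
      rcases mul_eq_zero.1 hz with h' | h'
      · exact hcop z h h'
      · exact Sim z (eq_zero_of_pow_eq_zero h') (Pim z h)
    simp only [O, mem_setOf_eq]
    rw [sub_eq_zero.1 hz, norm_mul, Complex.norm_real, Real.norm_of_nonneg c0]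
    exact mul_lt_mul_of_pos_right (by linarith) (norm_pos_iff.2 hPz)
  have hZn : ∀ ζ ∈ Z, ‖ζ‖ = 1 := fun ζ h => norm_one_of hM hσ (hZ ζ h)
  have hball : ∀ ζ ∈ Z, ∀ z ∈ Metric.closedBall ζ κ, ‖z‖ ≤ 2 := by
    intro ζ hζ z hz
    rw [Metric.mem_closedBall, dist_eq_norm] at hz
    have := norm_le_norm_add_norm_sub' z ζ
    linarith [hZn ζ hζ]
  have hex : ∀ ζ ∈ Z, ∃ z ∈ Metric.closedBall ζ κ, G z - (1 - b) = 0 := by
    intro ζ hζ
    refine exists_root_disc (h := fun z => G z - (1 - b)) (m := 2 * (b * ε)) k0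
      (fun z hz => (hGd z (happ z (hball ζ hζ z hz)).1).sub_const _) (fun z hz => ?_) ?_
    · have h1 := hap z (hball ζ hζ z (Metric.sphere_subset_closedBall hz))
      have h2 := hsph ζ hζ z hz
      have h3 : ‖(b : ℂ) * (σ * z ^ M + 1)‖ ≤ ‖G z - (1 - b)‖ + ‖G z - 1 - σ * b * z ^ M‖ := by
        refine le_trans (le_of_eq ?_) (norm_sub_le _ _)
        congr 1; ring
      rw [norm_mul, Complex.norm_real, Real.norm_of_nonneg b0.le] at h3
      nlinarith
    · have h1 := hap ζ (by rw [hZn ζ hζ]; norm_num)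
      have : G ζ - 1 - σ * b * ζ ^ M = G ζ - (1 - b) := by linear_combination -(b : ℂ) * hZ ζ hζ
      rw [this] at h1
      have := mul_pos b0 e0
      linarith
  choose! zr hzb hzr using hex
  have hzroot : ∀ ζ ∈ Z, A.eval (zr ζ) - ((1 - b : ℝ) : ℂ) * P.eval (zr ζ) = 0 := by
    intro ζ hζ
    have h1 := hzr ζ hζ
    have h2 := (happ _ (hball ζ hζ _ (hzb ζ hζ))).1
    simp only [G] at h1
    rw [sub_eq_zero, div_eq_iff h2] at h1
    rw [h1]; push_cast; ring
  have hzO : ∀ ζ ∈ Z, zr ζ ∈ O := fun ζ hζ => hroot _ (by linarith) le_rfl _ (hzroot ζ hζ)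
  have hzinj : ∀ ζ ∈ Z, ∀ ζ' ∈ Z, zr ζ = zr ζ' → ζ = ζ' := by
    intro ζ hζ ζ' hζ' h
    by_contra hne
    have h1 := k3 ζ hζ ζ' hζ' hne
    have h2 := hzb ζ hζ
    have h3 := hzb ζ' hζ'
    rw [Metric.mem_closedBall, dist_eq_norm] at h2 h3
    rw [h, norm_sub_rev] at h2
    have := norm_sub_le_norm_sub_add_norm_sub ζ (zr ζ') ζ'
    linarith
  have hfz : ∀ ζ ∈ Z, σ * (fold ζ) ^ M = -1 := by
    intro ζ hζ
    rcases fold_eq ζ with h | h <;> rw [h]
    · exact hZ ζ hζ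
    · have := congrArg conj (hZ ζ hζ)
      simpa using this
  have hclose : ∀ ζ ∈ Z, ‖(σ : ℂ) * (fold (zr ζ)) ^ M + 1‖ ≤ ε := by
    intro ζ hζ
    have h1 := hap _ (hball ζ hζ _ (hzb ζ hζ))
    have h2 : G (zr ζ) - 1 - σ * b * zr ζ ^ M = -((b : ℂ) * (σ * zr ζ ^ M + 1)) := by
      linear_combination hzr ζ hζ
    rw [h2, norm_neg, norm_mul, Complex.norm_real, Real.norm_of_nonneg b0.le] at h1
    have h3 := le_of_mul_le_mul_left h1 b0
    rcases fold_eq (zr ζ) with h | h <;> rw [h]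
    · exact h3
    · rw [← Complex.norm_conj]; simpa using h3
  have hseg : ∀ ζ ∈ Z, ∀ τ : ℝ, 0 ≤ τ → τ ≤ 1 → ContinuousAt G (τ * fold (zr ζ)) ∧
      ‖G (τ * fold (zr ζ))‖ ≤ 1 + b * ε := by
    intro ζ hζ τ t0 t1
    have hn : ‖fold (zr ζ)‖ ≤ 2 := by
      have := hball ζ hζ _ (hzb ζ hζ)
      rcases fold_eq (zr ζ) with h | h <;> rw [h]
      · exact this
      · simpa using this
    have hn' : ‖(τ : ℂ) * fold (zr ζ)‖ ≤ 2 := by
      rw [norm_mul, Complex.norm_real, Real.norm_of_nonneg t0]; nlinarith [norm_nonneg (fold (zr ζ))]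
    refine ⟨(hGd _ (happ _ hn').1).continuousAt, ?_⟩
    have h1 := hap _ hn'
    have h2 := hclose ζ hζ
    set u := fold (zr ζ)
    have hτ : 0 ≤ τ ^ M := pow_nonneg t0 _
    have hτ1 : τ ^ M ≤ 1 := pow_le_one₀ t0 t1
    have h3 : G (τ * u) = (G (τ * u) - 1 - σ * b * (τ * u) ^ M) + (((1 - b * τ ^ M : ℝ) : ℂ) +
        ((b * τ ^ M : ℝ) : ℂ) * (σ * u ^ M + 1)) := by push_cast; ring
    have h4 : ‖(((1 - b * τ ^ M : ℝ) : ℂ) + ((b * τ ^ M : ℝ) : ℂ) * (σ * u ^ M + 1))‖ ≤ 1 := by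
      refine (norm_add_le _ _).trans ?_
      rw [norm_mul, Complex.norm_real, Complex.norm_real, Real.norm_of_nonneg (by nlinarith),
        Real.norm_of_nonneg (by positivity)]
      have : b * τ ^ M * ‖(σ : ℂ) * u ^ M + 1‖ ≤ b * τ ^ M * 1 :=
        mul_le_mul_of_nonneg_left (by linarith) (by positivity)
      linarith
    rw [h3]
    refine (norm_add_le _ _).trans ?_
    linarith
  have hside : ∀ ζ ∈ Z, ∀ w : ℂ, ‖w‖ = 1 → |(fold (zr ζ) / w).im - (fold ζ / w).im| ≤ κ := by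
    intro ζ hζ w hw
    rw [← sub_im, ← sub_div]
    refine (abs_im_le_norm _).trans ?_
    rw [norm_div, hw, div_one]
    refine (norm_fold_sub _ _).trans ?_
    have := hzb ζ hζ
    rwa [Metric.mem_closedBall, dist_eq_norm] at this
  have htop0 : ∀ ζ ∈ Z, ∀ ζ' ∈ Z, zr ζ' ∈ cls O (zr ζ) → ¬ arg (fold ζ) < arg (fold ζ') := by
    intro ζ hζ ζ' hζ' hc hlt
    obtain ⟨w, w1, w2, w3, w4, w5⟩ := sector hM hσ (hfz ζ hζ) (hfz ζ' hζ') (by simp) hlt
    obtain ⟨γ, hγ, g0, g1, hg⟩ := cls_fold hO hc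
    have hlow : ∀ τ : ℝ, 0 ≤ τ → τ ≤ 1 → 1 + b * τ ^ M - b * ε ≤ ‖G (τ * w)‖ := by
      intro τ t0 t1
      have h1 := hap (τ * w) (by
        rw [norm_mul, Complex.norm_real, Real.norm_of_nonneg t0, w1]; linarith)
      have h2 : ((1 + b * τ ^ M : ℝ) : ℂ) = G (τ * w) - (G (τ * w) - 1 - σ * b * (τ * w) ^ M) := by
        push_cast; rw [mul_pow]; linear_combination -(b : ℂ) * τ ^ M * w2
      have h3 := norm_sub_le (G (τ * w)) (G (τ * w) - 1 - σ * b * (τ * w) ^ M)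
      rw [← h2, Complex.norm_real, Real.norm_of_nonneg (by positivity)] at h3
      linarith
    refine no_loop (G := G) (B := 1 + b * ε) (w := w) hγ (fun t => (hg t).2)
      (fun z hz => hGd z fun h => hz.ne' (Pim z h)) (fun t => ⟨(hGd _ (hOP _ (hg t).1)).continuousAt,
        by have := hOG _ (hg t).1; nlinarith⟩) (by rw [g0]; exact hseg ζ hζ)
      (by rw [g1]; exact hseg ζ' hζ') w3 ?_ ?_ ?_ ?_
    · have := hlow 1 zero_le_one le_rfl
      simp only [one_pow, mul_one, ofReal_one, one_mul] at this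
      nlinarith
    · intro t τ t0 t1 h
      have h1 := hOG _ (hg t).1
      have h2 := hlow τ t0 t1
      rw [h] at h1
      have : 0 ≤ b * τ ^ M := by positivity
      nlinarith
    · rw [g0]
      have := (abs_le.1 (hside ζ hζ w w1)).2
      linarith
    · rw [g1]
      have := (abs_le.1 (hside ζ' hζ' w w1)).1
      linarith
  have htop : ∀ ζ ∈ Z, ∀ ζ' ∈ Z, zr ζ' ∈ cls O (zr ζ) → ζ' = ζ ∨ ζ' = conj ζ := by
    intro ζ hζ ζ' hζ' hc
    apply eq_of_fold
    apply Complex.ext_norm_arg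
    · rw [norm_one_of hM hσ (hfz ζ hζ), norm_one_of hM hσ (hfz ζ' hζ')]
    · exact le_antisymm (not_lt.1 (htop0 ζ' hζ' ζ hζ (cls_symm hO hc)))
        (not_lt.1 (htop0 ζ hζ ζ' hζ' hc))
  have hTS : T * S ≠ 0 := mul_ne_zero T0 S0
  have hfib : ∀ ζ ∈ Z, (Z.filter fun ζ' => cls O (zr ζ') = cls O (zr ζ)).card ≤
      cnt (T * S) (cls O (zr ζ)) := by
    intro ζ hζ
    set E := cls O (zr ζ) with hE
    have hmem : ∀ ζ' ∈ Z.filter fun ζ' => cls O (zr ζ') = E, ζ' ∈ Z ∧ zr ζ' ∈ E := by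
      intro ζ' h
      rw [Finset.mem_filter] at h
      exact ⟨h.1, h.2 ▸ Or.inl (mem_pathComponentIn_self (hzO ζ' h.1))⟩
    by_cases hSE : ∃ x ∈ E, S.eval x = 0
    · obtain ⟨x, hx, hSx⟩ := hSE
      have h2 : (Z.filter fun ζ' => cls O (zr ζ') = E).card ≤ 2 := by
        refine (Finset.card_le_card (t := {ζ, conj ζ}) fun ζ' h => ?_).trans Finset.card_le_two
        simpa using htop ζ hζ ζ' (hmem ζ' h).1 (hmem ζ' h).2
      refine h2.trans ?_
      have hne : x ≠ conj x := by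
        intro h
        have := congrArg Complex.im h
        simp at this
        exact Sim x hSx (by linarith)
      rw [← Finset.card_pair hne]
      refine card_le_cnt hTS E _ fun z hz => ?_
      simp only [Finset.mem_insert, Finset.mem_singleton] at hz
      rcases hz with rfl | rfl
      · exact ⟨hx, by simp [hSx]⟩
      · refine ⟨cls_conj hO hx, ?_⟩
        have := hS x
        rw [hSx, norm_zero, norm_eq_zero] at this
        simp [this]
    · push_neg at hSE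
      have hEo : IsOpen E := (ho.pathComponentIn _).union (ho.pathComponentIn _)
      have hEO : E ⊆ O := union_subset pathComponentIn_subset pathComponentIn_subset
      have hc := cnt_const A P hdeg (c₀ := 1 - b) (by linarith) hEo (cls_compl_open hO ho (zr ζ))
        disjoint_sdiff_right (by rw [union_diff_cancel hEO]; exact hOb)
        (by rw [union_diff_cancel hEO]; exact hroot)
      have hA1 : A - C ((1 - b : ℝ) : ℂ) * P ≠ 0 := by
        intro h
        rw [h] at hc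
        have h1 : (C ((1 - b : ℝ) : ℂ) * P).degree < A.degree :=
          lt_of_le_of_lt (by rw [← smul_eq_C_mul]; exact degree_smul_le _ _) hdeg
        rw [sub_eq_zero] at h
        rw [← h] at h1
        exact lt_irrefl _ h1
      have h1 : ((Z.filter fun ζ' => cls O (zr ζ') = E).image zr).card ≤
          cnt (A - C ((1 - b : ℝ) : ℂ) * P) E := by
        refine card_le_cnt hA1 E _ fun z hz => ?_
        rw [Finset.mem_image] at hz
        obtain ⟨ζ', h, rfl⟩ := hz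
        exact ⟨(hmem ζ' h).2, by simpa using hzroot ζ' (hmem ζ' h).1⟩
      rw [Finset.card_image_of_injOn fun a ha a' ha' h =>
        hzinj a (hmem a ha).1 a' (hmem a' ha').1 h, hc, hA, cnt_mul hA0,
        cnt_eq_zero (p := S ^ n) E (fun z hz => by simpa using fun h => absurd h (hSE z hz))] at h1
      rw [cnt_mul hTS]
      omega
  rw [← hcard, Finset.card_eq_sum_card_image (fun ζ => cls O (zr ζ)) Z]
  calc _ ≤ ∑ E ∈ Z.image fun ζ => cls O (zr ζ), ((T * S).roots.filter (· ∈ E)).card := by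
        refine Finset.sum_le_sum fun E hE => ?_
        obtain ⟨ζ, hζ, rfl⟩ := Finset.mem_image.1 hE
        exact hfib ζ hζ
    _ ≤ (T * S).roots.card := by
        convert sum_cnt_le (T * S).roots _ ?_
        intro E hE E' hE' x hx hx'
        obtain ⟨ζ, hζ, rfl⟩ := Finset.mem_image.1 hE
        obtain ⟨ζ', hζ', rfl⟩ := Finset.mem_image.1 hE'
        rw [← cls_eq hO hx, ← cls_eq hO hx']
    _ ≤ (T * S).natDegree := card_roots' _
    _ ≤ _ := natDegree_mul_le

theorem core {M : ℕ} (hM : 2 ≤ M) {σ : ℝ} (hσ : σ = 1 ∨ σ = -1) :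
    ∃ ε : ℝ, 0 < ε ∧ ∀ (S : ℂ[X]) (n : ℕ) (b : ℝ), 0 < b → b ≤ 1 →
      (∀ z, ‖S.eval (conj z)‖ = ‖S.eval z‖) → S ≠ 0 → (∀ z, S.eval z = 0 → z.im ≠ 0) →
      ∀ (N : ℕ) (T P : ℂ[X]), T.natDegree = N → (∀ z, ‖T.eval (conj z)‖ = ‖T.eval z‖) →
      (∀ z, ‖P.eval (conj z)‖ = ‖P.eval z‖) →
      (∀ z, P.eval z = 0 → z.im = 0) → P.degree < (T * S ^ n).degree →
      (∀ z : ℂ, ‖z‖ ≤ 2 → P.eval z ≠ 0 ∧
        ‖T.eval z * S.eval z ^ n / P.eval z - 1 - σ * b * z ^ M‖ ≤ b * ε) →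
      M ≤ N + S.natDegree := by
  obtain ⟨ε, e0, h⟩ := core_coprime hM hσ
  refine ⟨ε, e0, fun S n b b0 b1 hS S0 Sim N => ?_⟩
  induction N using Nat.strong_induction_on with
  | _ N ih =>
  intro T P hN hT hP Pim hdeg happ
  by_cases hcop : ∀ z, P.eval z = 0 → T.eval z ≠ 0
  · exact hN ▸ h T S P n b b0 b1 hT hS hP S0 Sim Pim hdeg happ hcop
  · push_neg at hcop
    obtain ⟨x, hPx, hTx⟩ := hcop
    have hx : conj x = x := conj_eq_iff_im.2 (Pim x hPx)
    obtain ⟨T₁, rfl⟩ := dvd_iff_isRoot.2 hTx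
    obtain ⟨P₁, rfl⟩ := dvd_iff_isRoot.2 hPx
    have hX : (X - C x : ℂ[X]) ≠ 0 := X_sub_C_ne_zero x
    have T0 : T₁ ≠ 0 := by rintro rfl; simp at hdeg
    have sym : ∀ Q : ℂ[X], (∀ z, ‖((X - C x) * Q).eval (conj z)‖ = ‖((X - C x) * Q).eval z‖) →
        ∀ z, ‖Q.eval (conj z)‖ = ‖Q.eval z‖ := by
      intro Q hQ z
      by_cases hz : z = x
      · rw [hz, hx]
      · have := hQ z
        simp only [eval_mul, eval_sub, eval_X, eval_C, norm_mul] at this
        have h2 : ‖conj z - x‖ = ‖z - x‖ := by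
          conv_lhs => rw [← hx, ← map_sub, Complex.norm_conj]
        rw [h2] at this
        exact mul_left_cancel₀ (norm_ne_zero_iff.2 (sub_ne_zero.2 hz)) this
    rw [natDegree_mul hX T0, natDegree_X_sub_C] at hN
    have := ih T₁.natDegree (by omega) T₁ P₁ rfl (sym _ hT) (sym _ hP)
      (fun z hz => Pim z (by simp [hz])) (by
        rw [mul_assoc, degree_mul, degree_mul (p := X - C x), degree_X_sub_C] at hdeg
        exact lt_of_add_lt_add_left hdeg) (fun z hz => by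
        obtain ⟨h1, h2⟩ := happ z hz
        simp only [eval_mul, eval_sub, eval_X, eval_C] at h1 h2
        refine ⟨right_ne_zero_of_mul h1, ?_⟩
        rwa [mul_assoc, mul_div_mul_left _ _ (left_ne_zero_of_mul h1)] at h2)
    omega

end Pool.Agent.H60.UP
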