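import Pool.Agent.H60.UPd

set_option autoImplicit false

namespace Pool.Agent.H60.UP

open Polynomial Set Complex ComplexConjugate Filter Topology

/-- Weierstrass elementary factor -/
noncomputable def El (d : ℕ) (u : ℂ) : ℂ :=
  (1 - u) * exp (∑ j ∈ Finset.Icc 1 d, u ^ j / (j : ℂ))

noncomputable def ell (d : ℕ) (u : ℂ) : ℂ := log (1 + -u) - logTaylor (d + 1) (-u)

lemma logTaylor_neg (d : ℕ) (u : ℂ) :
    logTaylor (d + 1) (-u) = -∑ j ∈ Finset.Icc 1 d, u ^ j / (j : ℂ) := by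
  induction d with
  | zero => simp [logTaylor]
  | succ d ih =>
    rw [logTaylor_succ, Pi.add_apply, ih, Finset.sum_Icc_succ_top (by omega), neg_pow u,
      ← mul_assoc, ← pow_add, Odd.neg_one_pow ⟨d + 1, by ring⟩]
    ring

lemma El_eq (d : ℕ) {u : ℂ} (hu : ‖u‖ < 1) : El d u = exp (ell d u) := by
  have h : 1 + -u ≠ 0 := slitPlane_ne_zero (mem_slitPlane_of_norm_lt_one (by simpa using hu))
  rw [ell, logTaylor_neg, sub_neg_eq_add, exp_add, exp_log h, El, sub_eq_add_neg]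

lemma norm_ell (d : ℕ) {u : ℂ} (hu : ‖u‖ ≤ 1 / 2) : ‖ell d u‖ ≤ 2 * ‖u‖ ^ (d + 1) := by
  have := norm_log_sub_logTaylor_le d (z := -u) (by rw [norm_neg]; linarith)
  refine this.trans ?_
  rw [norm_neg]
  have h1 : (1 - ‖u‖)⁻¹ ≤ 2 := by rw [inv_le_comm₀ (by linarith) (by norm_num)]; linarith
  have h2 : (1 : ℝ) ≤ d + 1 := by linarith [(Nat.cast_nonneg d : (0 : ℝ) ≤ d)]
  refine (div_le_self (by have : 0 < 1 - ‖u‖ := by linarith
                          positivity) h2).trans ?_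
  rw [mul_comm]
  exact mul_le_mul_of_nonneg_right h1 (by positivity)

lemma ell_diff (d : ℕ) {u : ℂ} (hu : ‖u‖ < 1) : DifferentiableAt ℂ (ell d) u := by
  have := (hasDerivAt_log_sub_logTaylor d (z := -u)
    (mem_slitPlane_of_norm_lt_one (by simpa using hu))).differentiableAt
  exact this.comp u (differentiableAt_id.neg)

lemma tail {d : ℕ} {y : ℕ → ℝ} (hy : Summable fun n => |y n| ^ (d + 1)) {R : ℝ} (hR : 0 < R) :
    ∀ᶠ K in atTop, ∃ t : ℂ → ℂ, DifferentiableOn ℂ t (Metric.ball 0 R) ∧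
      ∀ z ∈ Metric.ball (0 : ℂ) R, ‖t z‖ ≤ 2 * R ^ (d + 1) * ∑' n, |y (n + K)| ^ (d + 1) ∧
        ∏' n, El d (y n * z) = (∏ k ∈ Finset.range K, El d (y k * z)) * exp (t z) := by
  have h0 := hy.tendsto_atTop_zero.eventually
    (eventually_lt_nhds (show (0 : ℝ) < (1 / (2 * R)) ^ (d + 1) by positivity))
  obtain ⟨K₀, hK₀⟩ := eventually_atTop.1 h0
  filter_upwards [eventually_ge_atTop K₀] with K hK
  have hs : Summable fun n => |y (n + K)| ^ (d + 1) := (summable_nat_add_iff K).2 hy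
  have hsm : ∀ n, ∀ z ∈ Metric.ball (0 : ℂ) R, ‖(y (n + K) : ℂ) * z‖ ≤ |y (n + K)| * R ∧
      ‖(y (n + K) : ℂ) * z‖ ≤ 1 / 2 := by
    intro n z hz
    have h1 : |y (n + K)| < 1 / (2 * R) :=
      lt_of_pow_lt_pow_left₀ _ (by positivity) (hK₀ (n + K) (by omega))
    have h2 : ‖(y (n + K) : ℂ) * z‖ ≤ |y (n + K)| * R := by
      rw [norm_mul, Complex.norm_real, Real.norm_eq_abs]
      exact mul_le_mul_of_nonneg_left (mem_ball_zero_iff.1 hz).le (abs_nonneg _)
    refine ⟨h2, h2.trans ?_⟩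
    rw [lt_div_iff₀ (by positivity)] at h1
    linarith
  have hb : ∀ n, ∀ z ∈ Metric.ball (0 : ℂ) R,
      ‖ell d (y (n + K) * z)‖ ≤ 2 * R ^ (d + 1) * |y (n + K)| ^ (d + 1) := by
    intro n z hz
    refine (norm_ell d (hsm n z hz).2).trans ?_
    rw [mul_assoc, ← mul_pow, mul_comm R]
    gcongr
    exact (hsm n z hz).1
  have hs' := hs.mul_left (2 * R ^ (d + 1))
  refine ⟨fun z => ∑' n, ell d (y (n + K) * z), ?_, fun z hz => ⟨?_, ?_⟩⟩
  · refine differentiableOn_tsum_of_summable_norm hs' (fun n z hz => ?_) Metric.isOpen_ball hb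
    exact ((ell_diff d ((hsm n z hz).2.trans_lt (by norm_num))).comp z
      (by fun_prop)).differentiableWithinAt
  · rw [← tsum_mul_left]
    exact tsum_of_norm_bounded hs'.hasSum fun n => hb n z hz
  · have h1 : Summable fun n => ell d (y (n + K) * z) :=
      Summable.of_norm_bounded hs' fun n => hb n z hz
    have h2 := h1.hasSum.cexp
    have h3 : (exp ∘ fun n => ell d (y (n + K) * z)) = fun n => El d (y (n + K) * z) := by
      funext n
      exact (El_eq d ((hsm n z hz).2.trans_lt (by norm_num))).symm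
    rw [h3] at h2
    rw [← h2.tprod_eq]
    exact (Multipliable.prod_mul_tprod_nat_mul' (f := fun n => El d (y n * z))
      h2.multipliable).symm

lemma El_conj (d : ℕ) (u : ℂ) : El d (conj u) = conj (El d u) := by
  simp [El, ← exp_conj, map_sum]

lemma tprod_conj (d : ℕ) (y : ℕ → ℝ) (z : ℂ) :
    ∏' n, El d (y n * conj z) = conj (∏' n, El d (y n * z)) := by
  rw [Function.LeftInverse.map_tprod (g := starRingEnd ℂ) _ continuous_conj continuous_conj
    (fun x => conj_conj x)]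
  congr 1
  funext n
  rw [← El_conj]; simp

lemma tprod_diff {d : ℕ} {y : ℕ → ℝ} (hy : Summable fun n => |y n| ^ (d + 1)) :
    Differentiable ℂ fun z : ℂ => ∏' n, El d (y n * z) := by
  intro z
  obtain ⟨K, t, ht, h⟩ := (tail hy (R := ‖z‖ + 1) (by positivity)).exists
  have hz : Metric.ball (0 : ℂ) (‖z‖ + 1) ∈ 𝓝 z := Metric.isOpen_ball.mem_nhds (by simp)
  have h1 : DifferentiableAt ℂ
      (fun z : ℂ => (∏ k ∈ Finset.range K, El d (y k * z)) * exp (t z)) z := by
    refine DifferentiableAt.mul (DifferentiableAt.fun_finset_prod fun k _ => ?_)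
      (ht.differentiableAt hz).cexp
    unfold El
    fun_prop
  exact h1.congr_of_eventuallyEq (by filter_upwards [hz] with w hw using (h w hw).2)

lemma tprod_ne {d : ℕ} {y : ℕ → ℝ} (hy : Summable fun n => |y n| ^ (d + 1)) {z : ℂ}
    (hz : ∏' n, El d (y n * z) = 0) : z.im = 0 := by
  obtain ⟨K, t, -, h⟩ := (tail hy (R := ‖z‖ + 1) (by positivity)).exists
  rw [(h z (by simp)).2, mul_eq_zero, Finset.prod_eq_zero_iff] at hz
  rcases hz with ⟨k, -, hk⟩ | hz
  · rw [El, mul_eq_zero] at hk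
    rcases hk with hk | hk
    · have h1 := congrArg Complex.im hk
      have h2 := congrArg Complex.re hk
      simp at h1 h2
      rcases h1 with h1 | h1
      · rw [h1] at h2; simp at h2
      · exact h1
    · exact absurd hk (exp_ne_zero _)
  · exact absurd hz (exp_ne_zero _)

lemma lower_bound {d : ℕ} (hd : Even (d + 1)) {a : ℝ} (ha : 0 < a) (Q : ℝ[X])
    (hQ : Q.natDegree ≤ d) : ∃ c : ℝ, ∀ x : ℝ, -c ≤ a * x ^ (d + 1) - Q.eval x := by
  have h1 := (isLittleO_cobounded_of_degree_lt (P := Q) (Q := X ^ (d + 1)) (by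
    rw [degree_X_pow]
    exact (degree_le_of_natDegree_le hQ).trans_lt (by exact_mod_cast Nat.lt_succ_self d))).def ha
  rw [Filter.eventually_iff, ← Bornology.isCobounded_def, ← Bornology.isBounded_compl_iff] at h1
  obtain ⟨ρ, hρ⟩ := h1.exists_norm_le
  obtain ⟨c, hc⟩ := (isCompact_closedBall (0 : ℝ) ρ).exists_bound_of_continuousOn
    (f := fun x => a * x ^ (d + 1) - Q.eval x) (by fun_prop)
  refine ⟨|c|, fun x => ?_⟩
  by_cases hx : ‖x‖ ≤ ρ
  · have := hc x (by simpa using hx)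
    rw [Real.norm_eq_abs] at this
    linarith [neg_abs_le (a * x ^ (d + 1) - Q.eval x), le_abs_self c]
  · have : ‖Q.eval x‖ ≤ a * ‖(X ^ (d + 1) : ℝ[X]).eval x‖ := by
      by_contra h
      exact hx (hρ x h)
    rw [eval_pow, eval_X, Real.norm_eq_abs, Real.norm_eq_abs,
      abs_of_nonneg (hd.pow_nonneg x)] at this
    linarith [le_abs_self (Q.eval x), abs_nonneg c]

lemma approx {d : ℕ} (hd : Even (d + 1)) {y : ℕ → ℝ} (hy : Summable fun n => |y n| ^ (d + 1))
    {a : ℝ} (ha : 0 ≤ a) {β : ℝ[X]} (hβ : β.natDegree ≤ d) {f : ℂ → ℂ}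
    (hf : ∀ z, f z = exp (-(a : ℂ) * z ^ (d + 1) + aeval z β) * ∏' n, El d (y n * z))
    {R δ : ℝ} (hR : 0 < R) (hδ : 0 < δ) (hne : ∀ z : ℂ, ‖z‖ ≤ R → f z ≠ 0) :
    ∃ (S P : ℝ[X]) (n : ℕ), S.natDegree = d + 1 ∧ (∀ x : ℝ, S.eval x ≠ 0) ∧ P ≠ 0 ∧
      (∀ z : ℂ, aeval z P = 0 → z.im = 0) ∧ P.natDegree < n ∧ ∀ z : ℂ, ‖z‖ ≤ R →
        aeval z P ≠ 0 ∧ ∃ x : ℂ, ‖x‖ ≤ δ ∧ (aeval z S) ^ n / aeval z P = exp x / f z := by
  have h1 := tail hy (R := R + 1) (by positivity)
  have h2 : Tendsto (fun K => 2 * (R + 1) ^ (d + 1) * ∑' n, |y (n + K)| ^ (d + 1)) atTop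
      (𝓝 (2 * (R + 1) ^ (d + 1) * 0)) :=
    (tendsto_sum_nat_add fun n => |y n| ^ (d + 1)).const_mul _
  rw [mul_zero] at h2
  obtain ⟨K, ⟨t, -, ht⟩, hK⟩ :=
    (h1.and (h2.eventually (eventually_lt_nhds (show 0 < δ / 3 by positivity)))).exists
  set η := δ / 3 / R ^ (d + 1) with hη
  have η0 : 0 < η := by positivity
  let P : ℝ[X] := ∏ k ∈ Finset.range K, (1 - C (y k) * X)
  let Q : ℝ[X] := β + ∑ k ∈ Finset.range K, ∑ j ∈ Finset.Icc 1 d, C (y k ^ j / j) * X ^ j
  have hQ : Q.natDegree ≤ d := by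
    refine (natDegree_add_le _ _).trans (max_le hβ ?_)
    refine natDegree_sum_le_of_forall_le _ _ fun k _ => ?_
    refine natDegree_sum_le_of_forall_le _ _ fun j hj => ?_
    exact (natDegree_C_mul_X_pow_le _ _).trans (Finset.mem_Icc.1 hj).2
  have hPe : ∀ z : ℂ, aeval z P = ∏ k ∈ Finset.range K, (1 - (y k : ℂ) * z) := by
    intro z; simp [P, map_prod]
  let q : ℂ → ℂ := fun z => -((a + η : ℝ) : ℂ) * z ^ (d + 1) + aeval z Q
  have hfz : ∀ z : ℂ, ‖z‖ ≤ R → f z = exp (q z + η * z ^ (d + 1) + t z) * aeval z P := by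
    intro z hz
    rw [hf, (ht z (by simp; linarith)).2, hPe]
    simp only [El, Finset.prod_mul_distrib, ← exp_sum, q, Q, map_add, map_sum, map_mul, aeval_C,
      map_pow, aeval_X]
    have aux : ∀ a b c p : ℂ, exp a * (p * exp b * exp c) = exp (a + b + c) * p := by
      intro a b c p; rw [exp_add, exp_add]; ring
    rw [aux]
    congr 2
    simp only [coe_algebraMap, mul_pow]
    push_cast
    simp only [div_mul_eq_mul_div]
    ring
  obtain ⟨c, hc⟩ := lower_bound hd (show 0 < a + η by positivity) Q hQ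
  obtain ⟨B, hB⟩ := (isCompact_closedBall (0 : ℂ) R).exists_bound_of_continuousOn
    (f := q) (by
      refine Continuous.continuousOn ?_
      exact (by fun_prop : Continuous fun z : ℂ => -((a + η : ℝ) : ℂ) * z ^ (d + 1)).add
        (Q.continuous_aeval))
  have B0 : 0 ≤ B := (norm_nonneg _).trans (hB 0 (by simp [hR.le]))
  obtain ⟨n, hn⟩ := exists_nat_gt (|c| + 2 * B + B ^ 2 / (δ / 3) + P.natDegree)
  have e1 : 0 ≤ B ^ 2 / (δ / 3) := by positivity
  have e2 : (0 : ℝ) ≤ P.natDegree := Nat.cast_nonneg _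
  have n0 : (0 : ℝ) < n := by linarith [abs_nonneg c]
  let S : ℝ[X] := C ((a + η) / n) * X ^ (d + 1) + (1 - C (1 / n : ℝ) * Q)
  have hSd : S.natDegree = d + 1 := by
    have h3 : (C ((a + η) / n) * X ^ (d + 1) : ℝ[X]).natDegree = d + 1 :=
      natDegree_C_mul_X_pow _ _ (by positivity)
    rw [natDegree_add_eq_left_of_natDegree_lt, h3]
    rw [h3, Nat.lt_succ_iff]
    refine (natDegree_sub_le _ _).trans (max_le (by simp) ?_)
    exact (natDegree_C_mul_le _ _).trans hQ
  have hP0 : aeval (0 : ℂ) P = 1 := by simp [hPe]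
  refine ⟨S, P, n, hSd, fun x => ?_, by rintro h; simp [h] at hP0, fun z hz => ?_,
    by exact_mod_cast (show (P.natDegree : ℝ) < n by linarith [abs_nonneg c]), fun z hz => ?_⟩
  · have h3 : S.eval x = (n + ((a + η) * x ^ (d + 1) - Q.eval x)) / n := by
      simp [S]; field_simp; ring
    rw [h3]
    have := hc x
    exact (div_pos (by linarith [le_abs_self c]) n0).ne'
  · rw [hPe, Finset.prod_eq_zero_iff] at hz
    obtain ⟨k, -, hk⟩ := hz
    have h1 := congrArg Complex.im hk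
    have h2 := congrArg Complex.re hk
    simp at h1 h2
    rcases h1 with h1 | h1
    · rw [h1] at h2; simp at h2
    · exact h1
  · have hPz : aeval z P ≠ 0 := by
      have := hne z hz
      rw [hfz z hz] at this
      exact right_ne_zero_of_mul this
    have hq := hB z (by simpa using hz)
    have nc : (n : ℂ) ≠ 0 := by exact_mod_cast n0.ne'
    set u := -q z / n with hu
    have hun : ‖u‖ = ‖q z‖ / n := by simp [hu]
    have hu2 : ‖u‖ ≤ 1 / 2 := by
      rw [hun, div_le_iff₀ n0]; linarith [abs_nonneg c]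
    have hSz : aeval z S = 1 + u := by
      simp only [S, hu, q, map_add, map_mul, map_sub, aeval_C, map_pow, aeval_X, map_one,
        coe_algebraMap]
      push_cast
      field_simp
      ring
    have h1u : 1 + u ≠ 0 := slitPlane_ne_zero (mem_slitPlane_of_norm_lt_one (by linarith))
    refine ⟨hPz, n * (log (1 + u) - u) + η * z ^ (d + 1) + t z, ?_, ?_⟩
    · have a1 : ‖(n : ℂ) * (log (1 + u) - u)‖ ≤ δ / 3 := by
        have h3 := norm_log_one_add_sub_self_le (z := u) (by linarith)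
        have h4 : (1 - ‖u‖)⁻¹ ≤ 2 := by rw [inv_le_comm₀ (by linarith) (by norm_num)]; linarith
        have h5 : ‖log (1 + u) - u‖ ≤ ‖u‖ ^ 2 := by nlinarith [sq_nonneg ‖u‖]
        rw [norm_mul, Complex.norm_natCast]
        refine (mul_le_mul_of_nonneg_left h5 n0.le).trans ?_
        have h6 : B ^ 2 / (δ / 3) ≤ n := by linarith [abs_nonneg c]
        rw [div_le_iff₀ (by positivity)] at h6
        have h7 : (n : ℝ) * ‖u‖ ^ 2 = ‖q z‖ ^ 2 / n := by rw [hun]; field_simp
        rw [h7, div_le_iff₀ n0]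
        nlinarith [norm_nonneg (q z)]
      have a2 : ‖(η : ℂ) * z ^ (d + 1)‖ ≤ δ / 3 := by
        rw [norm_mul, norm_pow, Complex.norm_real, Real.norm_of_nonneg η0.le]
        calc η * ‖z‖ ^ (d + 1) ≤ η * R ^ (d + 1) := by gcongr
          _ = δ / 3 := by rw [hη]; field_simp
      have a3 := (ht z (by simp; linarith)).1
      refine (norm_add₃_le).trans ?_
      linarith
    · rw [hSz, hfz z hz, ← div_div, ← exp_sub]
      congr 1
      conv_lhs => rw [← exp_log h1u, ← exp_nat_mul]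
      congr 1
      rw [hu]; field_simp; ring

end Pool.Agent.H60.UP
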