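import Pool.Agent.H60.UPe

set_option autoImplicit false

namespace Pool.Agent.H60.UP

open Polynomial Set Complex ComplexConjugate Filter Topology

lemma contra {d : ℕ} (hd : Even (d + 1)) {y : ℕ → ℝ} (hy : Summable fun n => |y n| ^ (d + 1))
    {a : ℝ} (ha : 0 ≤ a) {β : ℝ[X]} (hβ : β.natDegree ≤ d) {f : ℂ → ℂ}
    (hf : ∀ z, f z = exp (-(a : ℂ) * z ^ (d + 1) + aeval z β) * ∏' n, El d (y n * z))
    (hfc : ContinuousAt f 0) (hfs : ∀ z, f (conj z) = conj (f z)) (hf0 : f 0 = 1)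
    {T : ℂ[X]} (hT : ∀ z, T.eval (conj z) = conj (T.eval z)) {M : ℕ} (hM : 2 ≤ M) {F : ℂ → ℂ}
    (hF : ContinuousAt F 0) (hF0 : F 0 ≠ 0) (he : ∀ᶠ z in 𝓝 0, f z = T.eval z + z ^ M * F z) :
    M ≤ T.natDegree + (d + 1) := by
  let h : ℂ → ℂ := fun z => -F z / f z
  have hc : ContinuousAt h 0 := hF.neg.div hfc (by simp [hf0])
  have ev : ∀ᶠ z in 𝓝 0, f z ≠ 0 ∧ T.eval z / f z = 1 + z ^ M * h z := by
    filter_upwards [he, hfc.eventually_ne (show f 0 ≠ 0 by simp [hf0])] with z h1 h2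
    refine ⟨h2, ?_⟩
    simp only [h]
    field_simp
    linear_combination -h1
  have hT0 : T.eval 0 = 1 := by
    have := he.self_of_nhds
    rw [hf0, zero_pow (by omega), zero_mul, add_zero] at this
    exact this.symm
  have him : (h 0).im = 0 := by
    have t1 : Tendsto (fun x : ℝ => (x : ℂ)) (𝓝[≠] 0) (𝓝 0) := by
      have : Tendsto (fun x : ℝ => (x : ℂ)) (𝓝 0) (𝓝 ((0 : ℝ) : ℂ)) := continuous_ofReal.tendsto 0
      simpa using this.mono_left nhdsWithin_le_nhds
    have t2 : Tendsto (fun x : ℝ => (h x).im) (𝓝[≠] 0) (𝓝 (h 0).im) :=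
      (continuous_im.tendsto _).comp (hc.tendsto.comp t1)
    have t3 : ∀ᶠ x : ℝ in 𝓝[≠] 0, (h x).im = 0 := by
      filter_upwards [t1.eventually ev, self_mem_nhdsWithin] with x hx hx0
      have hx1 : (x : ℂ) ≠ 0 := by exact_mod_cast hx0
      have : h x = (T.eval (x : ℂ) / f x - 1) / (x : ℂ) ^ M := by rw [hx.2]; field_simp; ring
      rw [← conj_eq_iff_im, this]
      simp only [map_div₀, map_sub, map_pow, map_one, ← hT, ← hfs, conj_ofReal]
    exact tendsto_nhds_unique t2 (tendsto_const_nhds.congr' (by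
      filter_upwards [t3] with x hx using hx.symm))
  set c := (h 0).re with hcdef
  have hc0 : h 0 = c := by apply Complex.ext <;> simp [hcdef, him]
  have c0 : c ≠ 0 := by
    intro h0
    rw [h0] at hc0
    simp [h, hf0, hF0] at hc0
  have cp : 0 < |c| := abs_pos.2 c0
  obtain ⟨σ, hσ, hσc⟩ : ∃ σ : ℝ, (σ = 1 ∨ σ = -1) ∧ σ * |c| = c := by
    rcases le_total 0 c with h | h
    · exact ⟨1, Or.inl rfl, by rw [abs_of_nonneg h, one_mul]⟩
    · exact ⟨-1, Or.inr rfl, by rw [abs_of_nonpos h]; ring⟩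
  obtain ⟨ε, e0, hcore⟩ := core hM hσ
  have ev2 : ∀ᶠ z in 𝓝 (0 : ℂ), ‖h z - c‖ ≤ ε * |c| / 2 ^ (M + 1) := by
    have := Metric.tendsto_nhds.1 hc.tendsto (ε * |c| / 2 ^ (M + 1)) (by positivity)
    filter_upwards [this] with z hz
    rw [dist_eq_norm, hc0] at hz
    exact hz.le
  obtain ⟨r, r0, hr⟩ := Metric.eventually_nhds_iff.1 (ev.and ev2)
  set ρ := min (r / 3) (1 / (|c| + 1)) with hρ
  have ρ0 : 0 < ρ := by positivity
  have ρ1 : ρ ≤ r / 3 := min_le_left _ _
  have ρ2 : ρ * (|c| + 1) ≤ 1 := by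
    rw [← le_div_iff₀ (by positivity)]; exact min_le_right _ _
  set b := ρ ^ M * |c| with hb
  have b0 : 0 < b := by positivity
  have b1 : b ≤ 1 := by
    have : ρ ^ M ≤ ρ := pow_le_of_le_one ρ0.le (by nlinarith) (by omega)
    nlinarith
  have hr' : ∀ z : ℂ, ‖z‖ ≤ 2 * ρ → (f z ≠ 0 ∧ T.eval z / f z = 1 + z ^ M * h z) ∧
      ‖h z - c‖ ≤ ε * |c| / 2 ^ (M + 1) := fun z hz => hr (by rw [dist_zero_right]; linarith)
  set B := 1 + b * 2 ^ M + b * ε / 2 with hB
  have B0 : 0 < B := by positivity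
  obtain ⟨S, P, n, hSd, hS, hP0, hP, hn, happ⟩ := approx hd hy ha hβ hf (R := 2 * ρ)
    (δ := min 1 (b * ε / (4 * B))) (by positivity) (by positivity) fun z hz => (hr' z hz).1.1
  have ρc : (ρ : ℂ) ≠ 0 := by exact_mod_cast ρ0.ne'
  have hl : (C (ρ : ℂ) * X).natDegree = 1 := natDegree_C_mul_X _ ρc
  let sc : ℝ[X] → ℂ[X] := fun p => (p.map (algebraMap ℝ ℂ)).comp (C (ρ : ℂ) * X)
  have sce : ∀ p z, (sc p).eval z = aeval (ρ * z) p := by
    intro p z; simp [sc, eval_comp, eval_map_algebraMap]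
  have scd : ∀ p, (sc p).natDegree = p.natDegree := by
    intro p; simp only [sc]
    rw [natDegree_comp, hl, mul_one, natDegree_map_eq_of_injective (algebraMap ℝ ℂ).injective]
  have scs : ∀ p z, ‖(sc p).eval (conj z)‖ = ‖(sc p).eval z‖ := by
    intro p z
    rw [sce, sce, ← Complex.norm_conj (aeval _ p), ← aeval_conj]
    simp
  have Sim : ∀ z, (sc S).eval z = 0 → z.im ≠ 0 := by
    intro z hz h0
    have : (ρ : ℂ) * z = ((ρ * z.re : ℝ) : ℂ) := by apply Complex.ext <;> simp [h0]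
    rw [sce, this] at hz
    have h3 := aeval_ofReal (K := ℂ) S (ρ * z.re)
    erw [h3] at hz
    exact hS (ρ * z.re) (RCLike.ofReal_eq_zero.1 hz)
  have S0 : sc S ≠ 0 := fun h => Sim 0 (by simp [h]) (by simp)
  let T' : ℂ[X] := T.comp (C (ρ : ℂ) * X)
  have Te : ∀ z, T'.eval z = T.eval (ρ * z) := by intro z; simp [T', eval_comp]
  have Td : T'.natDegree = T.natDegree := by simp only [T']; rw [natDegree_comp, hl, mul_one]
  have T0 : T' ≠ 0 := by
    intro h
    have := Te 0
    rw [h] at this; simp [hT0] at this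
  have := hcore (sc S) n b b0 b1 (scs S) S0 Sim _ T' (sc P) Td (fun z => by
      rw [Te, Te, ← Complex.norm_conj (T.eval (ρ * z)), ← hT]; simp) (scs P) (fun z hz => by
      rw [sce] at hz
      have := hP _ hz
      simpa [ρ0.ne'] using this) (by
      apply degree_lt_degree
      rw [natDegree_mul T0 (pow_ne_zero _ S0), natDegree_pow, scd, scd, hSd]
      nlinarith) (fun z hz => by
      have hz' : ‖(ρ : ℂ) * z‖ ≤ 2 * ρ := by
        rw [norm_mul, Complex.norm_real, Real.norm_of_nonneg ρ0.le]; nlinarith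
      obtain ⟨h1, x, hx, h2⟩ := happ _ hz'
      obtain ⟨⟨h3, h4⟩, h5⟩ := hr' _ hz'
      rw [Te, sce, sce]
      refine ⟨h1, ?_⟩
      have hzM : ‖z‖ ^ M ≤ 2 ^ M := pow_le_pow_left₀ (norm_nonneg _) hz _
      have a1 : ‖((ρ : ℂ) * z) ^ M * (h (ρ * z) - c)‖ ≤ b * ε / 2 := by
        rw [norm_mul, norm_pow, norm_mul, Complex.norm_real, Real.norm_of_nonneg ρ0.le, mul_pow]
        calc ρ ^ M * ‖z‖ ^ M * ‖h (ρ * z) - c‖ ≤ ρ ^ M * 2 ^ M * (ε * |c| / 2 ^ (M + 1)) := by
              gcongr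
          _ = b * ε / 2 := by rw [hb]; field_simp; ring
      have a2 : (σ : ℂ) * b * z ^ M = ((ρ : ℂ) * z) ^ M * c := by
        conv_rhs => rw [← hσc]
        rw [hb]; push_cast; ring
      have a3 : ‖1 + ((ρ : ℂ) * z) ^ M * h (ρ * z)‖ ≤ B := by
        have : 1 + ((ρ : ℂ) * z) ^ M * h (ρ * z) =
            1 + (σ : ℂ) * b * z ^ M + ((ρ : ℂ) * z) ^ M * (h (ρ * z) - c) := by rw [a2]; ring
        rw [this]
        refine norm_add₃_le.trans ?_
        have h6 : ‖(σ : ℂ) * b * z ^ M‖ ≤ b * 2 ^ M := by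
          have : ‖(σ : ℂ)‖ = 1 := by rcases hσ with rfl | rfl <;> simp
          rw [norm_mul, norm_mul, this, one_mul, Complex.norm_real, Real.norm_of_nonneg b0.le,
            norm_pow]
          gcongr
        rw [norm_one]; linarith
      have a4 : ‖exp x - 1‖ ≤ 2 * (b * ε / (4 * B)) :=
        (Complex.norm_exp_sub_one_le (hx.trans (min_le_left _ _))).trans
          (by have := hx.trans (min_le_right _ _); linarith)
      have a5 : T.eval ((ρ : ℂ) * z) * (aeval ((ρ : ℂ) * z) S) ^ n / aeval ((ρ : ℂ) * z) P - 1 -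
          σ * b * z ^ M = (1 + ((ρ : ℂ) * z) ^ M * h (ρ * z)) * (exp x - 1) +
            ((ρ : ℂ) * z) ^ M * (h (ρ * z) - c) := by
        rw [mul_div_assoc, h2, a2, mul_div_left_comm, h4]
        ring
      rw [a5]
      refine (norm_add_le _ _).trans ?_
      rw [norm_mul]
      have : ‖1 + ((ρ : ℂ) * z) ^ M * h (ρ * z)‖ * ‖exp x - 1‖ ≤ B * (2 * (b * ε / (4 * B))) := by
        gcongr
      have h7 : B * (2 * (b * ε / (4 * B))) = b * ε / 2 := by field_simp; ring
      linarith)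
  rwa [scd, hSd] at this

lemma poly_real (N : ℕ) : ∀ T : ℂ[X], T.natDegree = N → T.eval 0 = 1 →
    (∀ z, T.eval z = 0 → z.im = 0) →
    ∃ y : ℕ → ℝ, (∀ n, N ≤ n → y n = 0) ∧
      ∀ z, T.eval z = ∏ i ∈ Finset.range N, (1 - (y i : ℂ) * z) := by
  induction N with
  | zero =>
    intro T h h0 _
    refine ⟨0, fun _ _ => rfl, fun z => ?_⟩
    rw [eq_C_of_natDegree_eq_zero h] at h0 ⊢
    simpa using h0
  | succ N ih =>
    intro T h h0 hr
    obtain ⟨x, hx⟩ := IsAlgClosed.exists_root T (by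
      intro hd
      rw [natDegree_eq_of_degree_eq_some (n := 0) hd] at h
      omega)
    have x0 : x ≠ 0 := by rintro rfl; rw [IsRoot, h0] at hx; exact one_ne_zero hx
    have xr : x = (x.re : ℂ) := by apply Complex.ext <;> simp [hr x hx]
    obtain ⟨T₁, rfl⟩ := dvd_iff_isRoot.2 hx
    have T0 : T₁ ≠ 0 := by rintro rfl; simp at h0
    rw [natDegree_mul (X_sub_C_ne_zero x) T0, natDegree_X_sub_C] at h
    obtain ⟨y, hy0, hy⟩ := ih (C (-x) * T₁) (by
      rw [natDegree_C_mul (neg_ne_zero.2 x0)]; omega) (by simpa using h0) (fun z hz => hr z (by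
        simp only [eval_mul, eval_C, mul_eq_zero, neg_eq_zero, x0, false_or] at hz
        simp [hz]))
    refine ⟨Function.update y N (x.re)⁻¹, fun n hn => by
      rw [Function.update_of_ne (by omega)]; exact hy0 n (by omega), fun z => ?_⟩
    rw [Finset.prod_range_succ, Function.update_self, Finset.prod_congr rfl (fun i hi => by
      rw [Function.update_of_ne (Finset.mem_range.1 hi).ne]), ← hy]
    push_cast
    rw [← xr]
    simp only [eval_mul, eval_sub, eval_X, eval_C]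
    field_simp
    ring

lemma iter_conj {f : ℂ → ℂ} (hfs : ∀ z, f (conj z) = conj (f z)) (k : ℕ) :
    ∀ z, iteratedDeriv k f (conj z) = conj (iteratedDeriv k f z) := by
  induction k with
  | zero => simpa using hfs
  | succ k ih =>
    intro z
    have : conj ∘ iteratedDeriv k f ∘ conj = iteratedDeriv k f := by
      funext w; simp [ih]
    have h2 := congrFun (deriv_conj_conj (f := iteratedDeriv k f)) (conj z)
    rw [this] at h2
    rw [iteratedDeriv_succ, h2]
    simp

theorem main {d : ℕ} (hd : Even (d + 1)) {y : ℕ → ℝ} (hy : Summable fun n => |y n| ^ (d + 1))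
    {a : ℝ} (ha : 0 ≤ a) {β : ℝ[X]} (hβ : β.natDegree ≤ d) {f : ℂ → ℂ}
    (hf : ∀ z, f z = exp (-(a : ℂ) * z ^ (d + 1) + aeval z β) * ∏' n, El d (y n * z))
    (hf0 : f 0 = 1) {n : ℕ} (hn : ∀ j, j < d + 1 → iteratedDeriv (n + j) f 0 = 0) :
    ∃ (N : ℕ) (y' : ℕ → ℝ), (∀ n, N ≤ n → y' n = 0) ∧
      ∀ z, f z = ∏ i ∈ Finset.range N, (1 - (y' i : ℂ) * z) := by
  have hdiff : Differentiable ℂ f := by
    rw [funext hf]
    refine Differentiable.mul (Differentiable.cexp ?_) (tprod_diff hy)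
    exact (by fun_prop : Differentiable ℂ fun z : ℂ => -(a : ℂ) * z ^ (d + 1)).add
      (β.differentiable_aeval)
  have hfs : ∀ z, f (conj z) = conj (f z) := by
    intro z
    rw [hf, hf, tprod_conj, map_mul, ← exp_conj, aeval_conj]
    simp
  have n0 : 0 < n := by
    rcases Nat.eq_zero_or_pos n with rfl | h
    · have := hn 0 (by omega)
      simp [hf0] at this
    · exact h
  let T : ℂ[X] := ∑ i ∈ Finset.range n, C (iteratedDeriv i f 0 / i.factorial) * X ^ i
  have hTd : T.natDegree ≤ n - 1 := natDegree_sum_le_of_forall_le _ _ fun i hi =>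
    (natDegree_C_mul_X_pow_le _ _).trans (by have := Finset.mem_range.1 hi; omega)
  have hTe : ∀ z, T.eval z = ∑ i ∈ Finset.range n, iteratedDeriv i f 0 / i.factorial * z ^ i := by
    intro z; simp [T, eval_finset_sum]
  have hT : ∀ z, T.eval (conj z) = conj (T.eval z) := by
    intro z
    rw [hTe, hTe, map_sum]
    refine Finset.sum_congr rfl fun i _ => ?_
    have := iter_conj hfs i 0
    rw [map_zero] at this
    rw [map_mul, map_div₀, ← this]; simp
  have han : AnalyticAt ℂ f 0 := hdiff.analyticAt 0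
  obtain ⟨F, hF, he⟩ := han.exists_eq_sum_add_pow_mul (n + (d + 1))
  have he' : ∀ z, f z = T.eval z + z ^ (n + (d + 1)) * F z := by
    intro z
    conv_lhs => rw [he z]
    rw [Finset.sum_range_add, Finset.sum_eq_zero (s := Finset.range (d + 1))
      (fun j hj => by rw [hn j (Finset.mem_range.1 hj), smul_zero]), add_zero, hTe]
    simp only [smul_eq_mul]
    congr 1
    exact Finset.sum_congr rfl fun i _ => by ring
  by_cases hz : ∀ᶠ z in 𝓝 0, F z = 0
  · have hfT : f = fun z => T.eval z := by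
      refine AnalyticOnNhd.eq_of_eventuallyEq (z₀ := 0) (fun z _ => hdiff.analyticAt z)
        (fun z _ => T.differentiable.analyticAt z) ?_
      filter_upwards [hz] with z h
      rw [he', h]; simp
    obtain ⟨y', h1, h2⟩ := poly_real _ T rfl (by rw [← hf0, hfT]) (fun z h => by
      have : f z = 0 := by rw [hfT]; exact h
      rw [hf, mul_eq_zero] at this
      exact tprod_ne hy (this.resolve_left (exp_ne_zero _)))
    exact ⟨_, y', h1, fun z => by rw [hfT]; exact h2 z⟩
  · obtain ⟨k, g, hg, g0, hgk⟩ := hF.exists_eventuallyEq_pow_smul_nonzero_iff.2 hz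
    have := contra hd hy ha hβ hf hdiff.continuous.continuousAt hfs hf0 hT
      (M := n + (d + 1) + k) (by omega) hg.continuousAt g0 (by
        filter_upwards [hgk] with z h
        rw [he', h]; simp only [sub_zero, smul_eq_mul]; ring)
    omega

end Pool.Agent.H60.UP
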