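import Mathlib

/-! Modules over systems of universal direct-sum decompositions: extension theorem. -/

namespace H60.VR
open Finset
universe u v

section LA
variable {W T : Type*} [AddCommGroup W] [Module ℚ W] [AddCommGroup T] [Module ℚ T]

theorem graph_ext (Γ : Submodule ℚ (W × T)) (h : ∀ p ∈ Γ, p.1 = 0 → p.2 = 0) :
    ∃ g : W →ₗ[ℚ] T, ∀ p ∈ Γ, g p.1 = p.2 := by
  obtain ⟨r, hr⟩ := LinearMap.exists_leftInverse_of_injective
    ((LinearMap.fst ℚ W T).comp Γ.subtype) (LinearMap.ker_eq_bot'.2 fun p hp =>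
      Subtype.ext (Prod.ext hp (h p.1 p.2 hp)))
  refine ⟨(LinearMap.snd ℚ W T).comp (Γ.subtype.comp r), fun p hp => ?_⟩
  have := LinearMap.congr_fun hr ⟨p, hp⟩
  simp only [LinearMap.comp_apply, Submodule.subtype_apply, LinearMap.fst_apply,
    LinearMap.id_apply] at this
  simp [this]

theorem glue {I : Type*} (U : Submodule ℚ W) (Us : I → Submodule ℚ W) (f : W →ₗ[ℚ] T)
    (fs : I → W →ₗ[ℚ] T) (h1 : ∀ i, ∀ x ∈ U, x ∈ Us i → f x = fs i x)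
    (h2 : ∀ i, ∀ x ∈ Us i, x ∈ U ⊔ ⨆ j, ⨆ _ : j ≠ i, Us j → x ∈ U) :
    ∃ g : W →ₗ[ℚ] T, (∀ x ∈ U, g x = f x) ∧ ∀ i, ∀ x ∈ Us i, g x = fs i x := by
  classical
  obtain ⟨g, hg⟩ := graph_ext (U.map (LinearMap.id.prod f) ⊔
    ⨆ i, (Us i).map (LinearMap.id.prod (fs i))) (by
      intro p hp hp0
      obtain ⟨_, ⟨a, ha, rfl⟩, q, hq, rfl⟩ := Submodule.mem_sup.1 hp
      obtain ⟨c, hc, rfl⟩ := (Submodule.mem_iSup_iff_exists_finsupp _ _).1 hq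
      choose x hx hx' using hc
      have e1 : ∀ i, (c i).1 = x i := fun i => by rw [← hx' i]; rfl
      have e2 : ∀ i, (c i).2 = fs i (x i) := fun i => by rw [← hx' i]; rfl
      simp only [Finsupp.sum, Prod.fst_add, Prod.snd_add, Prod.fst_sum, Prod.snd_sum, e1, e2,
        LinearMap.prod_apply, Function.prod, LinearMap.id_apply] at hp0 ⊢
      have h3 : ∀ i ∈ c.support, x i ∈ U := by
        intro i hi
        refine h2 i _ (hx i) ?_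
        rw [← Finset.add_sum_erase _ _ hi] at hp0
        have : x i = -a + -∑ j ∈ c.support.erase i, x j := by
          rw [← neg_add, eq_neg_iff_add_eq_zero, ← hp0]; abel
        rw [this]
        refine Submodule.add_mem_sup (U.neg_mem ha) (Submodule.neg_mem _
          (Submodule.sum_mem _ fun j hj => ?_))
        exact Submodule.mem_iSup_of_mem j (Submodule.mem_iSup_of_mem (ne_of_mem_erase hj) (hx j))
      rw [← Finset.sum_congr rfl fun i hi => h1 i _ (h3 i hi) (hx i), ← map_sum, ← map_add, hp0,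
        map_zero])
  exact ⟨g, fun x hx => hg (x, f x) (Submodule.mem_sup_left ⟨x, hx, rfl⟩), fun i x hx =>
    hg (x, fs i x) (Submodule.mem_sup_right (Submodule.mem_iSup_of_mem i ⟨x, hx, rfl⟩))⟩

end LA

theorem exists_rel {W : Type u} [AddCommGroup W] [Module ℚ W] (U U' : Submodule ℚ W) :
    ∃ β : Set W, U ≤ U' → β ⊆ U' ∧ U' ≤ U ⊔ Submodule.span ℚ β ∧
      ∀ (T : Type u) [AddCommGroup T] [Module ℚ T] (f : W →ₗ[ℚ] T) (y : W → T),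
        ∃ g : W →ₗ[ℚ] T, (∀ x ∈ U, g x = f x) ∧ ∀ x ∈ β, g x = y x := by
  obtain ⟨C, hC⟩ := U.exists_isCompl
  obtain ⟨β, h1, h2, h3⟩ := exists_linearIndependent ℚ ((C ⊓ U' : Submodule ℚ W) : Set W)
  rw [Submodule.span_eq] at h2
  refine ⟨β, fun hU => ⟨fun x hx => (h1 hx).2, ?_, fun T _ _ f y => ?_⟩⟩
  · rw [h2, ← sup_inf_assoc_of_le _ hU, hC.sup_eq_top, top_inf_eq]
  · obtain ⟨h, hh⟩ := LinearMap.exists_extend
      ((Module.Basis.span h3).constr ℚ fun b : β => y b)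
    refine ⟨LinearMap.ofIsCompl hC (f.domRestrict U) (h.domRestrict C), fun x hx => ?_,
      fun x hx => ?_⟩
    · exact LinearMap.ofIsCompl_apply_left hC ⟨x, hx⟩
    · have h5 := LinearMap.congr_fun hh (Module.Basis.span h3 ⟨x, hx⟩)
      rw [Module.Basis.constr_basis] at h5
      simp only [LinearMap.comp_apply, Submodule.subtype_apply, Module.Basis.span_apply] at h5
      exact (LinearMap.ofIsCompl_apply_right hC ⟨x, (h1 hx).1⟩).trans h5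

/-- a basis of `U'` modulo `U` -/
def rel {W : Type u} [AddCommGroup W] [Module ℚ W] (U U' : Submodule ℚ W) : Set W :=
  (exists_rel U U').choose

structure Sys where
  V : Type u
  Λ : Type u
  w : Λ → V
  S : Λ → Finset V
  live : V → Prop
  hw : ∀ l, w l ∉ S l
  hlive : ∀ l, live (w l) ↔ ∃ u ∈ S l, live u

open Classical in
structure Mod (Y : Sys.{u}) where
  W : Type u
  [acg : AddCommGroup W]
  [mod : Module ℚ W]
  sub : Y.V → Submodule ℚ W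
  π : Y.Λ → Y.V → W →ₗ[ℚ] W
  ι : Y.Λ → Y.V → W →ₗ[ℚ] W
  dead : ∀ v, ¬ Y.live v → sub v = ⊥
  π_mem : ∀ l, ∀ u ∈ Y.S l, ∀ x ∈ sub (Y.w l), π l u x ∈ sub u
  ι_mem : ∀ l, ∀ u ∈ Y.S l, ∀ y ∈ sub u, ι l u y ∈ sub (Y.w l)
  πι : ∀ l, ∀ u ∈ Y.S l, ∀ u' ∈ Y.S l, ∀ y ∈ sub u', π l u (ι l u' y) = if u = u' then y else 0
  sum : ∀ l, ∀ x ∈ sub (Y.w l), ∑ u ∈ Y.S l, ι l u (π l u x) = x

attribute [instance] Mod.acg Mod.mod

variable {X : Sys.{u}}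

/-- partial homomorphisms -/
structure PHom (M T : Mod X) (E : X.V → Submodule ℚ M.W) (Y : X.Λ → X.V → Submodule ℚ M.W)
    (φ : X.V → M.W →ₗ[ℚ] T.W) : Prop where
  mem : ∀ v, ∀ x ∈ E v, φ v x ∈ T.sub v
  π : ∀ l, ∀ u ∈ X.S l, ∀ x ∈ Y l (X.w l), φ u (M.π l u x) = T.π l u (φ (X.w l) x)
  ι : ∀ l, ∀ u ∈ X.S l, ∀ y ∈ Y l u, φ (X.w l) (M.ι l u y) = T.ι l u (φ u y)

/-- designated partial submodules -/
structure IsPar (M : Mod X) (E : X.V → Submodule ℚ M.W) (Y : X.Λ → X.V → Submodule ℚ M.W) :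
    Prop where
  le : ∀ v, E v ≤ M.sub v
  Yle : ∀ l v, Y l v ≤ E v
  off : ∀ l v, v ∉ X.S l → v ≠ X.w l → Y l v = ⊥
  π : ∀ l, ∀ u ∈ X.S l, ∀ x ∈ Y l (X.w l), M.π l u x ∈ Y l u
  ι : ∀ l, ∀ u ∈ X.S l, ∀ y ∈ Y l u, M.ι l u y ∈ Y l (X.w l)

structure Filt (M : Mod X) where
  F : X.V → ℕ → Submodule ℚ M.W
  G : X.Λ → X.V → ℕ → Submodule ℚ M.W
  G0 : ∀ l v, ∀ x ∈ M.sub v, x ∈ G l v 0 → x = 0
  GF : ∀ l v n, G l v n ≤ F v n
  FG : ∀ l v n, F v n ≤ G l v (n + 1)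
  mono : ∀ v n, F v n ≤ F v (n + 1)
  π : ∀ l, ∀ u ∈ X.S l, ∀ n, ∀ x ∈ M.sub (X.w l), x ∈ G l (X.w l) n → M.π l u x ∈ G l u n
  ι : ∀ l, ∀ u ∈ X.S l, ∀ n, ∀ y ∈ M.sub u, y ∈ G l u n → M.ι l u y ∈ G l (X.w l) n
  K1 : ∀ l, ∀ u ∈ X.S l, X.live u → ∀ n, ∀ a ∈ M.sub (X.w l), a ∈ F (X.w l) n →
    M.π l u a ∈ F u n → a ∈ G l (X.w l) n
  K2 : ∀ l v n, ∀ x ∈ G l v (n + 1), x ∈ F v n ⊔ (⨆ j, ⨆ _ : j ≠ l, G j v (n + 1)) → x ∈ F v n
  exh : ∀ v, ∀ x ∈ M.sub v, ∃ n, x ∈ F v n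

variable {M : Mod X} (Φ : Filt M) (E : X.V → Submodule ℚ M.W) (Y : X.Λ → X.V → Submodule ℚ M.W)

def lowC (l : X.Λ) (u : X.V) (n : ℕ) : Submodule ℚ M.W :=
  Y l u ⊓ Φ.F u n ⊔ (Y l (X.w l) ⊓ Φ.F (X.w l) n).map (M.π l u)

def lowZ (v : X.V) : ℕ → Submodule ℚ M.W
  | 0 => ⊥
  | n + 1 => E v ⊓ Φ.F v n ⊔ ⨆ l, Y l v ⊓ Φ.G l v (n + 1)

def βC (l : X.Λ) (u : X.V) (n : ℕ) : Set M.W := rel (lowC Φ Y l u n) (Y l u ⊓ Φ.G l u (n + 1))

def βZ (v : X.V) (n : ℕ) : Set M.W := rel (lowZ Φ E Y v n) (E v ⊓ Φ.F v n)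

variable {E Y}

theorem lowC_le (hP : IsPar M E Y) {l : X.Λ} {u : X.V} (hu : u ∈ X.S l) (n : ℕ) :
    lowC Φ Y l u n ≤ Y l u ⊓ Φ.G l u (n + 1) := by
  refine sup_le (inf_le_inf_left _ (Φ.FG l u n)) ?_
  rintro _ ⟨a, ha, rfl⟩
  exact ⟨hP.π l u hu a ha.1, Φ.π l u hu _ a (hP.le _ (hP.Yle _ _ ha.1)) (Φ.FG l _ n ha.2)⟩

theorem lowZ_le (hP : IsPar M E Y) (v : X.V) : ∀ n, lowZ Φ E Y v n ≤ E v ⊓ Φ.F v n
  | 0 => bot_le
  | n + 1 => sup_le (inf_le_inf_left _ (Φ.mono v n))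
      (iSup_le fun l => inf_le_inf (hP.Yle l v) (Φ.GF l v _))

theorem par_level (hP : IsPar M E Y) (n : ℕ) :
    IsPar M (fun v => E v ⊓ Φ.F v n) (fun l v => Y l v ⊓ Φ.G l v n) where
  le v := inf_le_left.trans (hP.le v)
  Yle l v := inf_le_inf (hP.Yle l v) (Φ.GF l v n)
  off l v h1 h2 := by rw [hP.off l v h1 h2, bot_inf_eq]
  π l u hu x hx := ⟨hP.π l u hu x hx.1, Φ.π l u hu n x (hP.le _ (hP.Yle _ _ hx.1)) hx.2⟩
  ι l u hu x hx := ⟨hP.ι l u hu x hx.1, Φ.ι l u hu n x (hP.le _ (hP.Yle _ _ hx.1)) hx.2⟩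

theorem ext_step (hP : IsPar M E Y) (T : Mod X) (n : ℕ) (yC : X.Λ → X.V → M.W → T.W)
    (yZ : X.V → M.W → T.W) (hC : ∀ l u x, yC l u x ∈ T.sub u) (hZ : ∀ v x, yZ v x ∈ T.sub v)
    (φ : X.V → M.W →ₗ[ℚ] T.W)
    (hφ : PHom M T (fun v => E v ⊓ Φ.F v n) (fun l v => Y l v ⊓ Φ.G l v n) φ) :
    ∃ φ' : X.V → M.W →ₗ[ℚ] T.W,
      PHom M T (fun v => E v ⊓ Φ.F v (n + 1)) (fun l v => Y l v ⊓ Φ.G l v (n + 1)) φ' ∧
      (∀ v, ∀ x ∈ E v ⊓ Φ.F v n, φ' v x = φ v x) ∧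
      (∀ l, ∀ u ∈ X.S l, ∀ x ∈ βC Φ Y l u n, φ' u x = yC l u x) ∧
      ∀ v, ∀ x ∈ βZ Φ E Y v (n + 1), φ' v x = yZ v x := by
  classical
  have hP1 := par_level Φ hP (n + 1)
  have hA : ∀ l u, ∃ ψ : M.W →ₗ[ℚ] T.W, u ∈ X.S l → (∀ b ∈ Y l u ⊓ Φ.F u n, ψ b = φ u b) ∧
      (∀ a ∈ Y l (X.w l) ⊓ Φ.F (X.w l) n, ψ (M.π l u a) = T.π l u (φ (X.w l) a)) ∧
      (∀ x ∈ βC Φ Y l u n, ψ x = yC l u x) ∧ ∀ x ∈ Y l u ⊓ Φ.G l u (n + 1), ψ x ∈ T.sub u := by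
    intro l u
    by_cases hu : u ∈ X.S l
    swap
    · exact ⟨0, fun h => absurd h hu⟩
    have m1 : ∀ b ∈ Y l u ⊓ Φ.F u n, φ u b ∈ T.sub u := fun b hb =>
      hφ.mem u b ⟨hP.Yle _ _ hb.1, hb.2⟩
    have m2 : ∀ a ∈ Y l (X.w l) ⊓ Φ.F (X.w l) n, T.π l u (φ (X.w l) a) ∈ T.sub u := fun a ha =>
      T.π_mem l u hu _ (hφ.mem _ a ⟨hP.Yle _ _ ha.1, ha.2⟩)
    obtain ⟨g, hg⟩ := graph_ext ((Y l u ⊓ Φ.F u n).map (LinearMap.id.prod (φ u)) ⊔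
      (Y l (X.w l) ⊓ Φ.F (X.w l) n).map ((M.π l u).prod (T.π l u ∘ₗ φ (X.w l)))) (by
        intro p hp hp0
        obtain ⟨_, ⟨b, hb, rfl⟩, _, ⟨a, ha, rfl⟩, rfl⟩ := Submodule.mem_sup.1 hp
        change b + M.π l u a = 0 at hp0
        change φ u b + T.π l u (φ (X.w l) a) = 0
        by_cases hl : X.live u
        · have h1 : M.π l u a = -b := eq_neg_of_add_eq_zero_right hp0
          have h2 := Φ.K1 l u hu hl n a (hP.le _ (hP.Yle _ _ ha.1)) ha.2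
            (h1 ▸ Submodule.neg_mem _ hb.2)
          rw [← hφ.π l u hu a ⟨ha.1, h2⟩, ← map_add, hp0, map_zero]
        · have := (T.sub u).add_mem (m1 b hb) (m2 a ha)
          rwa [T.dead u hl, Submodule.mem_bot] at this)
    have g1 : ∀ b ∈ Y l u ⊓ Φ.F u n, g b = φ u b := fun b hb =>
      hg (b, φ u b) (Submodule.mem_sup_left ⟨b, hb, rfl⟩)
    have g2 : ∀ a ∈ Y l (X.w l) ⊓ Φ.F (X.w l) n, g (M.π l u a) = T.π l u (φ (X.w l) a) :=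
      fun a ha => hg (M.π l u a, T.π l u (φ (X.w l) a)) (Submodule.mem_sup_right ⟨a, ha, rfl⟩)
    obtain ⟨-, r2, r3⟩ := (exists_rel _ _).choose_spec (lowC_le Φ hP hu n)
    obtain ⟨ψ, p1, p2⟩ := r3 T.W g (yC l u)
    have q1 : ∀ b ∈ Y l u ⊓ Φ.F u n, ψ b = φ u b := fun b hb =>
      (p1 b (Submodule.mem_sup_left hb)).trans (g1 b hb)
    have q2 : ∀ a ∈ Y l (X.w l) ⊓ Φ.F (X.w l) n, ψ (M.π l u a) = T.π l u (φ (X.w l) a) :=
      fun a ha => (p1 _ (Submodule.mem_sup_right ⟨a, ha, rfl⟩)).trans (g2 a ha)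
    refine ⟨ψ, fun _ => ⟨q1, q2, p2, fun x hx => ?_⟩⟩
    have : lowC Φ Y l u n ⊔ Submodule.span ℚ (βC Φ Y l u n) ≤ (T.sub u).comap ψ := by
      refine sup_le (sup_le (fun b hb => ?_) ?_) (Submodule.span_le.2 fun b hb => ?_)
      · rw [Submodule.mem_comap, q1 b hb]; exact m1 b hb
      · rintro _ ⟨a, ha, rfl⟩; rw [Submodule.mem_comap, q2 a ha]; exact m2 a ha
      · change ψ b ∈ T.sub u; rw [p2 b hb]; exact hC _ _ _
    exact this (r2 hx)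
  choose ψ hψ using hA
  let ψ' : X.Λ → X.V → M.W →ₗ[ℚ] T.W := fun l v =>
    if v = X.w l then ∑ u ∈ X.S l, T.ι l u ∘ₗ ψ l u ∘ₗ M.π l u else ψ l v
  have e1 : ∀ l x, ψ' l (X.w l) x = ∑ u ∈ X.S l, T.ι l u (ψ l u (M.π l u x)) := by
    intro l x; simp [ψ', LinearMap.sum_apply]
  have e2 : ∀ l, ∀ u ∈ X.S l, ψ' l u = ψ l u := fun l u hu =>
    if_neg fun h : u = X.w l => X.hw l (h ▸ hu)
  have hB : ∀ v, ∃ g : M.W →ₗ[ℚ] T.W, (∀ x ∈ E v ⊓ Φ.F v n, g x = φ v x) ∧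
      (∀ l, ∀ x ∈ Y l v ⊓ Φ.G l v (n + 1), g x = ψ' l v x) ∧
      (∀ x ∈ βZ Φ E Y v (n + 1), g x = yZ v x) ∧ ∀ x ∈ E v ⊓ Φ.F v (n + 1), g x ∈ T.sub v := by
    intro v
    have c1 : ∀ l, ∀ x ∈ E v ⊓ Φ.F v n, x ∈ Y l v ⊓ Φ.G l v (n + 1) → φ v x = ψ' l v x := by
      intro l x h1 h2
      by_cases h3 : v = X.w l
      · subst h3
        rw [e1, Finset.sum_congr rfl fun u hu => congrArg (T.ι l u)
          ((hψ l u hu).2.1 x ⟨h2.1, h1.2⟩), T.sum l _ (hφ.mem _ x h1)]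
      by_cases h4 : v ∈ X.S l
      · rw [e2 l v h4, (hψ l v h4).1 x ⟨h2.1, h1.2⟩]
      · have : x = 0 := by have := h2.1; rwa [hP.off l v h4 h3] at this
        rw [this, map_zero, map_zero]
    have c2 : ∀ l, ∀ x ∈ Y l v ⊓ Φ.G l v (n + 1), x ∈ E v ⊓ Φ.F v n ⊔
        ⨆ j, ⨆ _ : j ≠ l, Y j v ⊓ Φ.G j v (n + 1) → x ∈ E v ⊓ Φ.F v n := by
      intro l x h1 h2
      refine ⟨hP.Yle _ _ h1.1, Φ.K2 l v n x h1.2 ?_⟩
      have : (E v ⊓ Φ.F v n ⊔ ⨆ j, ⨆ _ : j ≠ l, Y j v ⊓ Φ.G j v (n + 1)) ≤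
          Φ.F v n ⊔ ⨆ j, ⨆ _ : j ≠ l, Φ.G j v (n + 1) :=
        sup_le_sup inf_le_right (iSup₂_mono fun j _ => inf_le_right)
      exact this h2
    obtain ⟨g, g1, g2⟩ := glue (E v ⊓ Φ.F v n) (fun l => Y l v ⊓ Φ.G l v (n + 1)) (φ v)
      (fun l => ψ' l v) c1 c2
    · obtain ⟨-, r2, r3⟩ := (exists_rel _ _).choose_spec (lowZ_le Φ hP v (n + 1))
      obtain ⟨g', p1, p2⟩ := r3 T.W g (yZ v)
      have q1 : ∀ x ∈ E v ⊓ Φ.F v n, g' x = φ v x := fun x hx =>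
        (p1 x (Submodule.mem_sup_left hx)).trans (g1 x hx)
      have q2 : ∀ l, ∀ x ∈ Y l v ⊓ Φ.G l v (n + 1), g' x = ψ' l v x := fun l x hx =>
        (p1 x (Submodule.mem_sup_right (Submodule.mem_iSup_of_mem l hx))).trans (g2 l x hx)
      refine ⟨g', q1, q2, p2, fun x hx => ?_⟩
      have : lowZ Φ E Y v (n + 1) ⊔ Submodule.span ℚ (βZ Φ E Y v (n + 1)) ≤ (T.sub v).comap g' := by
        refine sup_le (sup_le (fun b hb => ?_) (iSup_le fun l b hb => ?_))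
          (Submodule.span_le.2 fun b hb => ?_)
        · rw [Submodule.mem_comap, q1 b hb]; exact hφ.mem v b hb
        · rw [Submodule.mem_comap, q2 l b hb]
          by_cases h1 : v = X.w l
          · subst h1
            rw [e1]
            exact Submodule.sum_mem _ fun u hu =>
              T.ι_mem l u hu _ ((hψ l u hu).2.2.2 _ (hP1.π l u hu b hb))
          by_cases h2 : v ∈ X.S l
          · rw [e2 l v h2]; exact (hψ l v h2).2.2.2 _ hb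
          · have : b = 0 := by have := hb.1; rwa [hP.off l v h2 h1] at this
            rw [this, map_zero]; exact Submodule.zero_mem _
        · change g' b ∈ T.sub v; rw [p2 b hb]; exact hZ _ _
      exact this (r2 hx)
  choose g hg using hB
  refine ⟨g, ⟨fun v => (hg v).2.2.2, fun l u hu x hx => ?_, fun l u hu x hx => ?_⟩,
    fun v => (hg v).1, fun l u hu x hx => ?_, fun v => (hg v).2.2.1⟩
  · rw [(hg u).2.1 l _ (hP1.π l u hu x hx), (hg _).2.1 l _ hx, e1, e2 l u hu, map_sum,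
      Finset.sum_congr rfl fun u' hu' =>
        T.πι l u hu u' hu' _ ((hψ l u' hu').2.2.2 _ (hP1.π l u' hu' x hx))]
    simp [hu]
  · rw [(hg _).2.1 l _ (hP1.ι l u hu x hx), (hg _).2.1 l _ hx, e1, e2 l u hu,
      Finset.sum_eq_single_of_mem u hu fun u' hu' hne => ?_]
    · rw [M.πι l u hu u hu x (hP1.le _ (hP1.Yle _ _ hx)), if_pos rfl]
    · rw [M.πι l u' hu' u hu x (hP1.le _ (hP1.Yle _ _ hx)), if_neg hne, map_zero, map_zero]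
  · rw [(hg u).2.1 l x (((exists_rel _ _).choose_spec (lowC_le Φ hP hu n)).1 hx), e2 l u hu,
      (hψ l u hu).2.2.1 x hx]

theorem F_mono (v : X.V) : Monotone (Φ.F v) := monotone_nat_of_le_succ (Φ.mono v)

theorem G_mono (l : X.Λ) (v : X.V) : Monotone (Φ.G l v) :=
  monotone_nat_of_le_succ fun n => (Φ.GF l v n).trans (Φ.FG l v n)

/-- the extension theorem -/
theorem ext_thm (hP : IsPar M E Y) (T : Mod X) (yC : ℕ → X.Λ → X.V → M.W → T.W)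
    (yZ : ℕ → X.V → M.W → T.W) (hC : ∀ n l u x, yC n l u x ∈ T.sub u)
    (hZ : ∀ n v x, yZ n v x ∈ T.sub v) :
    ∃ φ : X.V → M.W →ₗ[ℚ] T.W, PHom M T E Y φ ∧
      (∀ n l, ∀ u ∈ X.S l, ∀ x ∈ βC Φ Y l u n, φ u x = yC n l u x) ∧
      ∀ n v, ∀ x ∈ βZ Φ E Y v n, φ v x = yZ n v x := by
  have h0 : ∀ v, ∃ g : M.W →ₗ[ℚ] T.W, (∀ x ∈ βZ Φ E Y v 0, g x = yZ 0 v x) ∧
      ∀ x ∈ E v ⊓ Φ.F v 0, g x ∈ T.sub v := by
    intro v
    obtain ⟨-, r2, r3⟩ := (exists_rel _ _).choose_spec (lowZ_le Φ hP v 0)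
    obtain ⟨g, -, p2⟩ := r3 T.W 0 (yZ 0 v)
    refine ⟨g, p2, fun x hx => ?_⟩
    have : lowZ Φ E Y v 0 ⊔ Submodule.span ℚ (βZ Φ E Y v 0) ≤ (T.sub v).comap g :=
      sup_le bot_le (Submodule.span_le.2 fun b hb => by
        change g b ∈ T.sub v; rw [p2 b hb]; exact hZ _ _ _)
    exact this (r2 hx)
  choose g0 hg0 using h0
  have hg : PHom M T (fun v => E v ⊓ Φ.F v 0) (fun l v => Y l v ⊓ Φ.G l v 0) g0 := by
    refine ⟨fun v => (hg0 v).2, fun l u _ x hx => ?_, fun l u _ x hx => ?_⟩ <;>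
    · rw [Φ.G0 l _ x (hP.le _ (hP.Yle _ _ hx.1)) hx.2]; simp
  choose nx hnx using fun n φ h => ext_step Φ hP T n (yC n) (yZ (n + 1)) (hC n) (hZ (n + 1)) φ h
  let s : ∀ n, {φ // PHom M T (fun v => E v ⊓ Φ.F v n) (fun l v => Y l v ⊓ Φ.G l v n) φ} :=
    fun n => Nat.rec ⟨g0, hg⟩ (fun n p => ⟨nx n p.1 p.2, (hnx n p.1 p.2).1⟩) n
  have hs : ∀ n m, n ≤ m → ∀ v, ∀ x ∈ E v ⊓ Φ.F v n, (s m).1 v x = (s n).1 v x := by
    intro n m h v x hx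
    induction m, h using Nat.le_induction with
    | base => rfl
    | succ m h ih =>
      exact ((hnx m (s m).1 (s m).2).2.1 v x ⟨hx.1, F_mono Φ v h hx.2⟩).trans ih
  have hL : ∀ v, ∃ g : M.W →ₗ[ℚ] T.W, ∀ n, ∀ x ∈ E v ⊓ Φ.F v n, g x = (s n).1 v x := by
    intro v
    obtain ⟨g, hg⟩ := graph_ext (⨆ n, (E v ⊓ Φ.F v n).map (LinearMap.id.prod ((s n).1 v))) (by
      intro p hp hp0
      have hm : Monotone fun n => (E v ⊓ Φ.F v n).map (LinearMap.id.prod ((s n).1 v)) := by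
        rintro n m h _ ⟨x, hx, rfl⟩
        exact ⟨x, ⟨hx.1, F_mono Φ v h hx.2⟩, Prod.ext rfl (hs n m h v x hx)⟩
      obtain ⟨n, x, hx, rfl⟩ := (Submodule.mem_iSup_of_directed _ hm.directed_le).1 hp
      change x = 0 at hp0
      change (s n).1 v x = 0
      rw [hp0, map_zero])
    exact ⟨g, fun n x hx => hg (x, (s n).1 v x) (Submodule.mem_iSup_of_mem n ⟨x, hx, rfl⟩)⟩
  choose φ hφ using hL
  refine ⟨φ, ⟨fun v x hx => ?_, fun l u hu x hx => ?_, fun l u hu x hx => ?_⟩,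
    fun n l u hu x hx => ?_, fun n v x hx => ?_⟩
  · obtain ⟨n, hn⟩ := Φ.exh v x (hP.le v hx)
    rw [hφ v n x ⟨hx, hn⟩]; exact (s n).2.mem v x ⟨hx, hn⟩
  · obtain ⟨n, hn⟩ := Φ.exh _ x (hP.le _ (hP.Yle _ _ hx))
    have h1 : x ∈ Y l (X.w l) ⊓ Φ.G l (X.w l) (n + 1) := ⟨hx, Φ.FG _ _ _ hn⟩
    have hP1 := par_level Φ hP (n + 1)
    rw [hφ u (n + 1) _ (hP1.Yle _ _ (hP1.π l u hu x h1)), hφ _ (n + 1) x (hP1.Yle _ _ h1),
      (s (n + 1)).2.π l u hu x h1]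
  · obtain ⟨n, hn⟩ := Φ.exh _ x (hP.le _ (hP.Yle _ _ hx))
    have h1 : x ∈ Y l u ⊓ Φ.G l u (n + 1) := ⟨hx, Φ.FG _ _ _ hn⟩
    have hP1 := par_level Φ hP (n + 1)
    rw [hφ _ (n + 1) _ (hP1.Yle _ _ (hP1.ι l u hu x h1)), hφ _ (n + 1) x (hP1.Yle _ _ h1),
      (s (n + 1)).2.ι l u hu x h1]
  · have h1 := ((exists_rel _ _).choose_spec (lowC_le Φ hP hu n)).1 hx
    rw [hφ u (n + 1) x ((par_level Φ hP (n + 1)).Yle _ _ h1)]
    exact (hnx n (s n).1 (s n).2).2.2.1 l u hu x hx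
  · rw [hφ v n x (((exists_rel _ _).choose_spec (lowZ_le Φ hP v n)).1 hx)]
    cases n with
    | zero => exact (hg0 v).1 x hx
    | succ n => exact (hnx n (s n).1 (s n).2).2.2.2 v x hx

theorem gen_thm (hP : IsPar M E Y) (H : X.V → Submodule ℚ M.W)
    (hC : ∀ n l, ∀ u ∈ X.S l, βC Φ Y l u n ⊆ H u) (hZ : ∀ n v, βZ Φ E Y v n ⊆ H v)
    (hπ : ∀ l, ∀ u ∈ X.S l, ∀ x ∈ Y l (X.w l), x ∈ H (X.w l) → M.π l u x ∈ H u)
    (hι : ∀ l, ∀ u ∈ X.S l, ∀ x ∈ Y l u, x ∈ H u → M.ι l u x ∈ H (X.w l)) (v : X.V) :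
    E v ≤ H v := by
  have key : ∀ n v, E v ⊓ Φ.F v n ≤ H v := by
    intro n
    induction n with
    | zero =>
      intro v
      exact ((exists_rel _ _).choose_spec (lowZ_le Φ hP v 0)).2.1.trans
        (sup_le bot_le (Submodule.span_le.2 (hZ 0 v)))
    | succ n ih =>
      have h1 : ∀ l, ∀ u ∈ X.S l, Y l u ⊓ Φ.G l u (n + 1) ≤ H u := by
        intro l u hu
        refine ((exists_rel _ _).choose_spec (lowC_le Φ hP hu n)).2.1.trans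
          (sup_le (sup_le (fun b hb => ih u ⟨hP.Yle _ _ hb.1, hb.2⟩) ?_)
            (Submodule.span_le.2 (hC n l u hu)))
        rintro _ ⟨a, ha, rfl⟩
        exact hπ l u hu a ha.1 (ih _ ⟨hP.Yle _ _ ha.1, ha.2⟩)
      intro v
      refine ((exists_rel _ _).choose_spec (lowZ_le Φ hP v (n + 1))).2.1.trans
        (sup_le (sup_le (ih v) (iSup_le fun l x hx => ?_)) (Submodule.span_le.2 (hZ _ v)))
      by_cases h2 : v = X.w l
      · subst h2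
        rw [← M.sum l x (hP.le _ (hP.Yle _ _ hx.1))]
        refine Submodule.sum_mem _ fun u hu => ?_
        have := (par_level Φ hP (n + 1)).π l u hu x hx
        exact hι l u hu _ this.1 (h1 l u hu this)
      by_cases h3 : v ∈ X.S l
      · exact h1 l v h3 hx
      · have : x = 0 := by have := hx.1; rwa [hP.off l v h3 h2] at this
        rw [this]; exact Submodule.zero_mem _
  intro x hx
  obtain ⟨n, hn⟩ := Φ.exh v x (hP.le v hx)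
  exact key n v ⟨hx, hn⟩

/-- vanishing of the higher generators -/
theorem vanish (hP : IsPar M E Y) (T : Mod X) (hT : ∀ v, X.live v → T.sub v ≠ ⊥)
    (h : ∀ φ, PHom M T E Y φ → (∀ v, ∀ x ∈ E v ⊓ Φ.F v 0, φ v x = 0) → ∀ v, ∀ x ∈ E v, φ v x = 0) :
    (∀ n l, ∀ u ∈ X.S l, Y l u ⊓ Φ.G l u (n + 1) ≤ lowC Φ Y l u n) ∧
      ∀ n v, E v ⊓ Φ.F v (n + 1) ≤ lowZ Φ E Y v (n + 1) := by
  have hτ : ∀ v, ∃ τ ∈ T.sub v, X.live v → τ ≠ 0 := by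
    intro v
    by_cases hv : X.live v
    · obtain ⟨τ, h1, h2⟩ := (Submodule.ne_bot_iff _).1 (hT v hv)
      exact ⟨τ, h1, fun _ => h2⟩
    · exact ⟨0, Submodule.zero_mem _, fun h => absurd h hv⟩
  choose τ h1 h2 using hτ
  obtain ⟨φ, p1, p2, p3⟩ := ext_thm Φ hP T (fun _ _ u _ => τ u)
    (fun n v _ => if n = 0 then 0 else τ v) (fun _ _ u _ => h1 u) (fun n v _ => by
      split_ifs
      exacts [Submodule.zero_mem _, h1 v])
  have h3 := h φ p1 fun v x hx => by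
    have : lowZ Φ E Y v 0 ⊔ Submodule.span ℚ (βZ Φ E Y v 0) ≤ LinearMap.ker (φ v) :=
      sup_le bot_le (Submodule.span_le.2 fun b hb => p3 0 v b hb)
    exact this (((exists_rel _ _).choose_spec (lowZ_le Φ hP v 0)).2.1 hx)
  have hd : ∀ v, ¬ X.live v → ∀ U, E v ≤ U := fun v hv U =>
    (hP.le v).trans (by rw [M.dead v hv]; exact bot_le)
  refine ⟨fun n l u hu => ?_, fun n v => ?_⟩
  · by_cases hl : X.live u
    · obtain ⟨r1, r2, -⟩ := (exists_rel _ _).choose_spec (lowC_le Φ hP hu n)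
      refine r2.trans (sup_le le_rfl (Submodule.span_le.2 fun b hb => ?_))
      exact absurd ((p2 n l u hu b hb).symm.trans (h3 u b (hP.Yle _ _ (r1 hb).1))) (h2 u hl)
    · exact inf_le_left.trans ((hP.Yle _ _).trans (hd u hl _))
  · by_cases hl : X.live v
    · obtain ⟨r1, r2, -⟩ := (exists_rel _ _).choose_spec (lowZ_le Φ hP v (n + 1))
      refine r2.trans (sup_le le_rfl (Submodule.span_le.2 fun b hb => ?_))
      exact absurd ((p3 (n + 1) v b hb).symm.trans (h3 v b (r1 hb).1)) (h2 v hl)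
    · exact inf_le_left.trans (hd v hl _)

end H60.VR
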