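import Pool.Agent.H60.VRa

/-! Free families, the structure theorem and dimension counting. -/

namespace H60.VR
open Finset
universe u v

variable {X : Sys.{u}}

def Hom (M T : Mod X) (L : X.V → Submodule ℚ M.W) (φ : X.V → M.W →ₗ[ℚ] T.W) : Prop :=
  PHom M T L (fun _ => L) φ

structure Cl (M : Mod X) (L : X.V → Submodule ℚ M.W) : Prop where
  le : ∀ v, L v ≤ M.sub v
  π : ∀ l, ∀ u ∈ X.S l, ∀ x ∈ L (X.w l), M.π l u x ∈ L u
  ι : ∀ l, ∀ u ∈ X.S l, ∀ y ∈ L u, M.ι l u y ∈ L (X.w l)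

theorem cl_sub (M : Mod X) : Cl M M.sub := ⟨fun _ => le_rfl, M.π_mem, M.ι_mem⟩

structure Free (M : Mod X) (L : X.V → Submodule ℚ M.W) {A : Type v} (t : A → X.V) (z : A → M.W) :
    Prop where
  mem : ∀ a, z a ∈ L (t a)
  ex : ∀ (T : Mod X) (y : A → T.W), (∀ a, y a ∈ T.sub (t a)) →
    ∃ φ, Hom M T L φ ∧ ∀ a, φ (t a) (z a) = y a
  gen : ∀ H : X.V → Submodule ℚ M.W, (∀ a, z a ∈ H (t a)) →
    (∀ l, ∀ u ∈ X.S l, ∀ x ∈ L (X.w l), x ∈ H (X.w l) → M.π l u x ∈ H u) →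
    (∀ l, ∀ u ∈ X.S l, ∀ x ∈ L u, x ∈ H u → M.ι l u x ∈ H (X.w l)) → ∀ v, L v ≤ H v

variable {M T T' : Mod X} {L : X.V → Submodule ℚ M.W} {A : Type v} {t : A → X.V} {z : A → M.W}

theorem Free.uniq (h : Free M L t z) {φ ψ : X.V → M.W →ₗ[ℚ] T.W} (h1 : Hom M T L φ)
    (h2 : Hom M T L ψ) (h3 : ∀ a, φ (t a) (z a) = ψ (t a) (z a)) :
    ∀ v, ∀ x ∈ L v, φ v x = ψ v x :=
  h.gen (fun v => LinearMap.eqLocus (φ v) (ψ v)) h3
    (fun l u hu x hx h' => by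
      rw [LinearMap.mem_eqLocus] at h' ⊢; rw [h1.π l u hu x hx, h2.π l u hu x hx, h'])
    (fun l u hu x hx h' => by
      rw [LinearMap.mem_eqLocus] at h' ⊢; rw [h1.ι l u hu x hx, h2.ι l u hu x hx, h'])

theorem Free.maps (h : Free M L t z) {φ : X.V → M.W →ₗ[ℚ] T.W} (h1 : Hom M T L φ)
    {L' : X.V → Submodule ℚ T.W} (hL : Cl T L') (h3 : ∀ a, φ (t a) (z a) ∈ L' (t a)) :
    ∀ v, ∀ x ∈ L v, φ v x ∈ L' v :=
  h.gen (fun v => (L' v).comap (φ v)) h3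
    (fun l u hu x hx h' => by
      rw [Submodule.mem_comap] at h' ⊢; rw [h1.π l u hu x hx]; exact hL.π l u hu _ h')
    (fun l u hu x hx h' => by
      rw [Submodule.mem_comap] at h' ⊢; rw [h1.ι l u hu x hx]; exact hL.ι l u hu _ h')

theorem hom_id (hL : Cl M L) : Hom M M L fun _ => LinearMap.id :=
  ⟨fun v _ hx => hL.le v hx, fun _ _ _ _ _ => rfl, fun _ _ _ _ _ => rfl⟩

theorem hom_zero : Hom M T L fun _ => 0 :=
  ⟨fun _ _ _ => Submodule.zero_mem _, fun _ _ _ _ _ => by simp, fun _ _ _ _ _ => by simp⟩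

theorem Hom.comp {φ : X.V → M.W →ₗ[ℚ] T.W} {ψ : X.V → T.W →ₗ[ℚ] T'.W}
    {L' : X.V → Submodule ℚ T.W} (h1 : Hom M T L φ) (h2 : Hom T T' L' ψ)
    (h3 : ∀ v, ∀ x ∈ L v, φ v x ∈ L' v) : Hom M T' L fun v => ψ v ∘ₗ φ v :=
  ⟨fun v x hx => h2.mem v _ (h3 v x hx), fun l u hu x hx => by
    simp only [LinearMap.comp_apply]; rw [h1.π l u hu x hx, h2.π l u hu _ (h3 _ x hx)],
    fun l u hu x hx => by
    simp only [LinearMap.comp_apply]; rw [h1.ι l u hu x hx, h2.ι l u hu _ (h3 _ x hx)]⟩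

theorem Hom.mono {φ : X.V → M.W →ₗ[ℚ] T.W} {L' : X.V → Submodule ℚ M.W} (h1 : Hom M T L φ)
    (h : ∀ v, L' v ≤ L v) : Hom M T L' φ :=
  ⟨fun v x hx => h1.mem v x (h v hx), fun l u hu x hx => h1.π l u hu x (h _ hx),
    fun l u hu x hx => h1.ι l u hu x (h _ hx)⟩

/-- mutually inverse homomorphisms -/
structure Iso (M T : Mod X) (L : X.V → Submodule ℚ M.W) (L' : X.V → Submodule ℚ T.W)
    (φ : X.V → M.W →ₗ[ℚ] T.W) (ψ : X.V → T.W →ₗ[ℚ] M.W) : Prop where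
  h1 : Hom M T L φ
  h2 : Hom T M L' ψ
  m1 : ∀ v, ∀ x ∈ L v, φ v x ∈ L' v
  m2 : ∀ v, ∀ x ∈ L' v, ψ v x ∈ L v
  i1 : ∀ v, ∀ x ∈ L v, ψ v (φ v x) = x
  i2 : ∀ v, ∀ x ∈ L' v, φ v (ψ v x) = x

theorem Free.iso {L' : X.V → Submodule ℚ T.W} {z' : A → T.W} (h : Free M L t z)
    (h' : Free T L' t z') (hL : Cl M L) (hL' : Cl T L') :
    ∃ φ ψ, Iso M T L L' φ ψ ∧ ∀ a, φ (t a) (z a) = z' a := by
  obtain ⟨φ, p1, p2⟩ := h.ex T z' fun a => hL'.le _ (h'.mem a)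
  obtain ⟨ψ, q1, q2⟩ := h'.ex M z fun a => hL.le _ (h.mem a)
  have m1 := h.maps p1 hL' fun a => p2 a ▸ h'.mem a
  have m2 := h'.maps q1 hL fun a => q2 a ▸ h.mem a
  exact ⟨φ, ψ, ⟨p1, q1, m1, m2, h.uniq (p1.comp q1 m1) (hom_id hL) fun a => by simp [p2, q2],
    h'.uniq (q1.comp p1 m2) (hom_id hL') fun a => by simp [p2, q2]⟩, p2⟩

theorem Free.trans {L' : X.V → Submodule ℚ T.W} {φ ψ} (h : Free M L t z) (hI : Iso M T L L' φ ψ) :
    Free T L' t fun a => φ (t a) (z a) := by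
  refine ⟨fun a => hI.m1 _ _ (h.mem a), fun T' y hy => ?_, fun H h1 h2 h3 v x hx => ?_⟩
  · obtain ⟨χ, p1, p2⟩ := h.ex T' y hy
    exact ⟨_, hI.h2.comp p1 hI.m2, fun a => by simp [hI.i1 _ _ (h.mem a), p2]⟩
  · rw [← hI.i2 v x hx]
    refine h.gen (fun v => (H v).comap (φ v)) h1 (fun l u hu x hx h' => ?_)
      (fun l u hu x hx h' => ?_) v (hI.m2 v x hx)
    · rw [Submodule.mem_comap, hI.h1.π l u hu x hx]; exact h2 l u hu _ (hI.m1 _ _ hx) h'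
    · rw [Submodule.mem_comap, hI.h1.ι l u hu x hx]; exact h3 l u hu _ (hI.m1 _ _ hx) h'

theorem Iso.symm {L' : X.V → Submodule ℚ T.W} {φ ψ} (h : Iso M T L L' φ ψ) : Iso T M L' L ψ φ :=
  ⟨h.h2, h.h1, h.m2, h.m1, h.i2, h.i1⟩

theorem Free.live (h : Free M L t z) (hL : Cl M L) :
    Free M L (fun a : {a // X.live (t a)} => t a) fun a => z a := by
  classical
  refine ⟨fun a => h.mem a, fun T y hy => ?_, fun H h1 => h.gen H fun a => ?_⟩
  · obtain ⟨φ, p1, p2⟩ := h.ex T (fun a => if h : X.live (t a) then y ⟨a, h⟩ else 0) fun a => by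
      split_ifs with h
      exacts [hy ⟨a, h⟩, Submodule.zero_mem _]
    exact ⟨φ, p1, fun a => by rw [p2, dif_pos a.2]⟩
  · by_cases ha : X.live (t a)
    · exact h1 ⟨a, ha⟩
    · have := hL.le _ (h.mem a)
      rw [M.dead _ ha, Submodule.mem_bot] at this
      rw [this]; exact Submodule.zero_mem _

theorem Free.finite (h : Free M L t z) (hl : ∀ a, X.live (t a)) (T : Mod X)
    (hT : ∀ v, X.live v → T.sub v ≠ ⊥) {B : Type} [Finite B] (s : B → X.V) (g : B → M.W)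
    (hg : ∀ b, g b ∈ L (s b))
    (hv : ∀ φ, Hom M T L φ → (∀ b, φ (s b) (g b) = 0) → ∀ v, ∀ x ∈ L v, φ v x = 0) :
    Finite A := by
  classical
  let H : X.V → Submodule ℚ M.W := fun v =>
    { carrier := {x | ∃ s : Finset A, ∀ φ, Hom M T L φ → (∀ a ∈ s, φ (t a) (z a) = 0) → φ v x = 0}
      zero_mem' := ⟨∅, fun φ _ _ => map_zero _⟩
      add_mem' := by
        rintro x y ⟨s, hs⟩ ⟨s', hs'⟩
        exact ⟨s ∪ s', fun φ h1 h2 => by
          rw [map_add, hs φ h1 fun a ha => h2 a (mem_union_left _ ha),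
            hs' φ h1 fun a ha => h2 a (mem_union_right _ ha), add_zero]⟩
      smul_mem' := by
        rintro c x ⟨s, hs⟩
        exact ⟨s, fun φ h1 h2 => by rw [map_smul, hs φ h1 h2, smul_zero]⟩ }
  have h1 := h.gen H (fun a => ⟨{a}, fun φ _ h2 => h2 a (mem_singleton_self a)⟩)
    (fun l u hu x hx ⟨s, hs⟩ => ⟨s, fun φ h1 h2 => by rw [h1.π l u hu x hx, hs φ h1 h2, map_zero]⟩)
    (fun l u hu x hx ⟨s, hs⟩ => ⟨s, fun φ h1 h2 => by rw [h1.ι l u hu x hx, hs φ h1 h2, map_zero]⟩)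
  choose σ hσ using fun b => h1 _ (hg b)
  have := Fintype.ofFinite B
  refine Finite.of_surjective (fun a : (univ.biUnion σ) => (a : A)) fun a => ?_
  by_contra ha
  obtain ⟨τ, t1, t2⟩ := (Submodule.ne_bot_iff _).1 (hT _ (hl a))
  obtain ⟨φ, p1, p2⟩ := h.ex T (fun a' => if a' = a then τ else 0) fun a' => by
    split_ifs with h
    exacts [h ▸ t1, Submodule.zero_mem _]
  have := hv φ p1 (fun b => hσ b φ p1 fun a' ha' => by
    rw [p2, if_neg]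
    rintro rfl
    exact ha ⟨⟨a', mem_biUnion.2 ⟨b, mem_univ _, ha'⟩⟩, rfl⟩) _ _ (h.mem a)
  rw [p2, if_pos rfl] at this
  exact t2 this

open Classical in
noncomputable def YY (L : X.V → Submodule ℚ M.W) (Λ0 : Set X.Λ) (l : X.Λ) (v : X.V) :
    Submodule ℚ M.W := if l ∈ Λ0 ∧ (v ∈ X.S l ∨ v = X.w l) then L v else ⊥

theorem YY_le (Λ0 : Set X.Λ) (l : X.Λ) (v : X.V) : YY L Λ0 l v ≤ L v := by
  unfold YY; split_ifs; exacts [le_rfl, bot_le]

theorem YY_w {Λ0 : Set X.Λ} {l : X.Λ} (h : l ∈ Λ0) : YY L Λ0 l (X.w l) = L (X.w l) :=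
  if_pos ⟨h, Or.inr rfl⟩

theorem YY_S {Λ0 : Set X.Λ} {l : X.Λ} (h : l ∈ Λ0) {u : X.V} (hu : u ∈ X.S l) :
    YY L Λ0 l u = L u := if_pos ⟨h, Or.inl hu⟩

theorem YY_off {Λ0 : Set X.Λ} {l : X.Λ} (h : l ∉ Λ0) (v : X.V) : YY L Λ0 l v = ⊥ :=
  if_neg fun h' => h h'.1

theorem YY_par (Λ0 : Set X.Λ) (hle : ∀ v, L v ≤ M.sub v)
    (hπ : ∀ l ∈ Λ0, ∀ u ∈ X.S l, ∀ x ∈ L (X.w l), M.π l u x ∈ L u)
    (hι : ∀ l ∈ Λ0, ∀ u ∈ X.S l, ∀ y ∈ L u, M.ι l u y ∈ L (X.w l)) : IsPar M L (YY L Λ0) := by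
  refine ⟨hle, YY_le Λ0, fun l v h1 h2 => if_neg fun h => h.2.elim h1 h2, fun l u hu x hx => ?_,
    fun l u hu x hx => ?_⟩ <;> by_cases h : l ∈ Λ0
  · rw [YY_w h] at hx; rw [YY_S h hu]; exact hπ l h u hu x hx
  · rw [YY_off h, Submodule.mem_bot] at hx; rw [hx, map_zero]; exact Submodule.zero_mem _
  · rw [YY_S h hu] at hx; rw [YY_w h]; exact hι l h u hu x hx
  · rw [YY_off h, Submodule.mem_bot] at hx; rw [hx, map_zero]; exact Submodule.zero_mem _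

/-- structure theorem: closed subfamilies of filtered modules are free -/
theorem struct_thm (Φ : Filt M) (hL : Cl M L) :
    ∃ (A : Type u) (t : A → X.V) (z : A → M.W), Free M L t z := by
  classical
  have hP : IsPar M L (YY L Set.univ) := YY_par _ hL.le (fun l _ => hL.π l) fun l _ => hL.ι l
  refine ⟨{p : (ULift.{u} ℕ × X.Λ × X.V) × M.W // p.1.2.2 ∈ X.S p.1.2.1 ∧
      p.2 ∈ βC Φ (YY L Set.univ) p.1.2.1 p.1.2.2 p.1.1.down} ⊕
    {p : (ULift.{u} ℕ × X.V) × M.W // p.2 ∈ βZ Φ L (YY L Set.univ) p.1.2 p.1.1.down},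
    Sum.elim (fun p => p.1.1.2.2) (fun p => p.1.1.2), Sum.elim (fun p => p.1.2) (fun p => p.1.2),
    ?_, fun T y hy => ?_, fun H h1 h2 h3 => ?_⟩
  · rintro (⟨p, h1, h2⟩ | ⟨p, h⟩)
    · exact hP.Yle _ _ (((exists_rel _ _).choose_spec (lowC_le Φ hP h1 _)).1 h2).1
    · exact (((exists_rel _ _).choose_spec (lowZ_le Φ hP _ _)).1 h).1
  · obtain ⟨φ, p1, p2, p3⟩ := ext_thm Φ hP T
      (fun n l u x => if h : u ∈ X.S l ∧ x ∈ βC Φ (YY L Set.univ) l u n then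
        y (.inl ⟨((⟨n⟩, l, u), x), h⟩) else 0)
      (fun n v x => if h : x ∈ βZ Φ L (YY L Set.univ) v n then y (.inr ⟨((⟨n⟩, v), x), h⟩) else 0)
      (fun n l u x => by
        split_ifs with h
        exacts [hy (.inl ⟨((⟨n⟩, l, u), x), h⟩), Submodule.zero_mem _])
      (fun n v x => by
        split_ifs with h
        exacts [hy (.inr ⟨((⟨n⟩, v), x), h⟩), Submodule.zero_mem _])
    refine ⟨φ, ⟨p1.mem, fun l u hu x hx => p1.π l u hu x ?_, fun l u hu x hx => p1.ι l u hu x ?_⟩,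
      ?_⟩
    · rwa [YY_w (Set.mem_univ _)]
    · rwa [YY_S (Set.mem_univ _) hu]
    · rintro (⟨p, h⟩ | ⟨p, h⟩)
      · exact (p2 _ _ _ h.1 _ h.2).trans (dif_pos h)
      · exact (p3 _ _ _ h).trans (dif_pos h)
  · exact gen_thm Φ hP H (fun n l u hu x hx => h1 (.inl ⟨((⟨n⟩, l, u), x), hu, hx⟩))
      (fun n v x hx => h1 (.inr ⟨((⟨n⟩, v), x), hx⟩))
      (fun l u hu x hx => h2 l u hu x (YY_le _ _ _ hx)) fun l u hu x hx => h3 l u hu x (YY_le _ _ _ hx)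

/-- pull back a filtration along an isomorphism -/
def Filt.pull (Φ : Filt T) {φ ψ} (h : Iso M T M.sub T.sub φ ψ) : Filt M where
  F v n := (Φ.F v n).comap (φ v)
  G l v n := (Φ.G l v n).comap (φ v)
  G0 l v x hx h' := by rw [← h.i1 v x hx, Φ.G0 l v _ (h.m1 v x hx) h', map_zero]
  GF l v n := Submodule.comap_mono (Φ.GF l v n)
  FG l v n := Submodule.comap_mono (Φ.FG l v n)
  mono v n := Submodule.comap_mono (Φ.mono v n)
  π l u hu n x hx h' := by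
    rw [Submodule.mem_comap, h.h1.π l u hu x hx]; exact Φ.π l u hu n _ (h.m1 _ x hx) h'
  ι l u hu n x hx h' := by
    rw [Submodule.mem_comap, h.h1.ι l u hu x hx]; exact Φ.ι l u hu n _ (h.m1 _ x hx) h'
  K1 l u hu hl n a ha h1 h2 := by
    rw [Submodule.mem_comap, h.h1.π l u hu a ha] at h2
    exact Φ.K1 l u hu hl n _ (h.m1 _ a ha) h1 h2
  K2 l v n x h1 h2 := by
    have : (Φ.F v n).comap (φ v) ⊔ (⨆ j, ⨆ _ : j ≠ l, (Φ.G j v (n + 1)).comap (φ v)) ≤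
        (Φ.F v n ⊔ (⨆ j, ⨆ _ : j ≠ l, Φ.G j v (n + 1))).comap (φ v) :=
      sup_le (Submodule.comap_mono le_sup_left) (iSup₂_le fun j hj => Submodule.comap_mono
        (le_sup_of_le_right (le_iSup₂_of_le j hj le_rfl)))
    exact Φ.K2 l v n _ h1 (this h2)
  exh v x hx := Φ.exh v _ (h.m1 v x hx)

section Count
variable {W : Type u} [AddCommGroup W] [Module ℚ W]

/-- dimension -/
noncomputable def d (U : Submodule ℚ W) : ℤ := Module.finrank ℚ U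

theorem d_mono {U U' : Submodule ℚ W} [FiniteDimensional ℚ U'] (h : U ≤ U') : d U ≤ d U' := by
  unfold d; exact_mod_cast Submodule.finrank_mono h

theorem d_bot : d (⊥ : Submodule ℚ W) = 0 := by simp [d]

theorem d_map (U : Submodule ℚ W) [FiniteDimensional ℚ U] (f : W →ₗ[ℚ] W) :
    d (U.map f) + d (U ⊓ LinearMap.ker f) = d U := by
  have := (f.domRestrict U).finrank_range_add_finrank_ker
  rw [LinearMap.range_domRestrict, LinearMap.ker_domRestrict,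
    ← Submodule.finrank_map_subtype_eq, Submodule.map_comap_subtype] at this
  unfold d; exact_mod_cast this

theorem d_sup (U U' : Submodule ℚ W) [FiniteDimensional ℚ U] [FiniteDimensional ℚ U'] :
    d (U ⊔ U') + d (U ⊓ U') = d U + d U' := by
  unfold d; exact_mod_cast Submodule.finrank_sup_add_finrank_inf_eq U U'

theorem d_sup_map (U U' : Submodule ℚ W) [FiniteDimensional ℚ U] [FiniteDimensional ℚ U']
    (f : W →ₗ[ℚ] W) : d (U ⊔ U'.map f) + d (U' ⊓ U.comap f) = d U + d U' := by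
  have h1 := d_sup U (U'.map f)
  have h2 := d_map U' f
  have h3 := d_map (U' ⊓ U.comap f) f
  have h5 : (U' ⊓ U.comap f).map f = U ⊓ U'.map f := by
    apply le_antisymm
    · rintro _ ⟨x, hx, rfl⟩; exact ⟨hx.2, x, hx.1, rfl⟩
    · rintro _ ⟨h, x, hx, rfl⟩; exact ⟨x, ⟨hx, h⟩, rfl⟩
  have h4 : U' ⊓ U.comap f ⊓ LinearMap.ker f = U' ⊓ LinearMap.ker f := by
    rw [inf_assoc, inf_eq_right.2 (LinearMap.ker_le_comap f)]
  rw [h4, h5] at h3
  linarith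

end Count

end H60.VR
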