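import Pool.Agent.H60.VRb

/-! Invariance of the class of a free module. -/

namespace H60.VR
open Finset
universe u v

variable {X : Sys.{u}} {M : Mod X} (Φ : Filt M) {E : X.V → Submodule ℚ M.W}
  {Y : X.Λ → X.V → Submodule ℚ M.W}

theorem fd_le {W : Type u} [AddCommGroup W] [Module ℚ W] {U U' : Submodule ℚ W}
    (h : FiniteDimensional ℚ U') (h' : U ≤ U') : FiniteDimensional ℚ U :=
  Submodule.finiteDimensional_of_le h'

theorem dimC (hP : IsPar M E Y) {l : X.Λ} {u : X.V} (hu : u ∈ X.S l) (hl : X.live u) (n : ℕ)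
    (f1 : FiniteDimensional ℚ ↥(Y l u ⊓ Φ.F u n))
    (f2 : FiniteDimensional ℚ ↥(Y l (X.w l) ⊓ Φ.F (X.w l) n)) :
    d (lowC Φ Y l u n) = d (Y l u ⊓ Φ.F u n) + d (Y l (X.w l) ⊓ Φ.F (X.w l) n) -
      d (Y l (X.w l) ⊓ Φ.G l (X.w l) n) := by
  have h := d_sup_map (Y l u ⊓ Φ.F u n) (Y l (X.w l) ⊓ Φ.F (X.w l) n) (M.π l u)
  have e : Y l (X.w l) ⊓ Φ.F (X.w l) n ⊓ (Y l u ⊓ Φ.F u n).comap (M.π l u) =
      Y l (X.w l) ⊓ Φ.G l (X.w l) n := by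
    apply le_antisymm
    · rintro a ⟨⟨h1, h2⟩, h3⟩
      exact ⟨h1, Φ.K1 l u hu hl n a (hP.le _ (hP.Yle _ _ h1)) h2 h3.2⟩
    · rintro a ⟨h1, h2⟩
      exact ⟨⟨h1, Φ.GF _ _ _ h2⟩, hP.π l u hu a h1,
        Φ.GF _ _ _ (Φ.π l u hu n a (hP.le _ (hP.Yle _ _ h1)) h2)⟩
  rw [e] at h
  rw [lowC]; linarith

theorem dimZ (hP : IsPar M E Y) (v : X.V) (n : ℕ)
    (f1 : FiniteDimensional ℚ ↥(E v ⊓ Φ.F v (n + 1))) (s : Finset X.Λ) :
    d (E v ⊓ Φ.F v n ⊔ ⨆ l ∈ s, Y l v ⊓ Φ.G l v (n + 1)) =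
      d (E v ⊓ Φ.F v n) + ∑ l ∈ s, (d (Y l v ⊓ Φ.G l v (n + 1)) - d (Y l v ⊓ Φ.F v n)) := by
  classical
  have g1 : ∀ l, Y l v ⊓ Φ.G l v (n + 1) ≤ E v ⊓ Φ.F v (n + 1) := fun l =>
    inf_le_inf (hP.Yle l v) (Φ.GF l v _)
  induction s using Finset.induction_on with
  | empty => simp
  | insert l s hl ih =>
    have := fd_le f1 (g1 l)
    have := fd_le f1 (show E v ⊓ Φ.F v n ⊔ ⨆ l ∈ s, Y l v ⊓ Φ.G l v (n + 1) ≤ _ from
      sup_le (inf_le_inf_left _ (Φ.mono v n)) (iSup₂_le fun l _ => g1 l))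
    have h := d_sup (E v ⊓ Φ.F v n ⊔ ⨆ l ∈ s, Y l v ⊓ Φ.G l v (n + 1)) (Y l v ⊓ Φ.G l v (n + 1))
    have e : (E v ⊓ Φ.F v n ⊔ ⨆ l ∈ s, Y l v ⊓ Φ.G l v (n + 1)) ⊓ (Y l v ⊓ Φ.G l v (n + 1)) =
        Y l v ⊓ Φ.F v n := by
      apply le_antisymm
      · rintro a ⟨h1, h2⟩
        have : (E v ⊓ Φ.F v n ⊔ ⨆ l ∈ s, Y l v ⊓ Φ.G l v (n + 1)) ≤
            Φ.F v n ⊔ ⨆ j, ⨆ _ : j ≠ l, Φ.G j v (n + 1) :=
          sup_le_sup inf_le_right (iSup₂_le fun j hj =>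
            le_iSup₂_of_le j (fun h => hl (h ▸ hj)) inf_le_right)
        exact ⟨h2.1, Φ.K2 l v n a h2.2 (this h1)⟩
      · rintro a ⟨h1, h2⟩
        exact ⟨Submodule.mem_sup_left ⟨hP.Yle _ _ h1, h2⟩, h1, Φ.FG _ _ _ h2⟩
    rw [e] at h
    rw [Finset.iSup_insert, Finset.sum_insert hl, sup_comm (Y l v ⊓ _), ← sup_assoc]
    linarith

variable (E Y) in
noncomputable def top (K : ℕ) (l : X.Λ) (v : X.V) : ℤ :=
  ∑ n ∈ range K, (d (Y l v ⊓ Φ.G l v (n + 1)) - d (Y l v ⊓ Φ.F v n))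

variable (E Y) in
noncomputable def Zc (K : ℕ) (Λ0 : Finset X.Λ) (v : X.V) : ℤ := d (E v) - ∑ l ∈ Λ0, top Φ Y K l v

variable (Y) in
noncomputable def Cc (K : ℕ) (l : X.Λ) (u : X.V) : ℤ :=
  top Φ Y K l u + top Φ Y K l (X.w l) - d (Y l (X.w l))

theorem lowZ_eq {Λ0 : Finset X.Λ} (h0 : ∀ l ∉ Λ0, ∀ v, Y l v = ⊥) (v : X.V) (n : ℕ) :
    lowZ Φ E Y v (n + 1) = E v ⊓ Φ.F v n ⊔ ⨆ l ∈ Λ0, Y l v ⊓ Φ.G l v (n + 1) := by
  rw [lowZ]
  congr 1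
  refine iSup_congr fun l => ?_
  by_cases h : l ∈ Λ0
  · simp [h]
  · simp [h, h0 l h]

theorem Zc_eq (hP : IsPar M E Y) {Λ0 : Finset X.Λ} (h0 : ∀ l ∉ Λ0, ∀ v, Y l v = ⊥) (v : X.V)
    (f1 : FiniteDimensional ℚ (E v)) {K : ℕ} (hK : E v ≤ Φ.F v K) :
    Zc Φ E Y K Λ0 v = d (E v ⊓ Φ.F v 0) +
      ∑ n ∈ range K, (d (E v ⊓ Φ.F v (n + 1)) - d (lowZ Φ E Y v (n + 1))) := by
  have h1 := Finset.sum_range_sub (fun n => d (E v ⊓ Φ.F v n)) K
  rw [inf_eq_left.2 hK] at h1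
  simp only [Zc, top, lowZ_eq Φ h0, fun n => dimZ Φ hP v n (fd_le f1 inf_le_left) Λ0]
  rw [Finset.sum_comm]
  simp only [← sub_sub]
  rw [Finset.sum_sub_distrib (f := fun n => d (E v ⊓ Φ.F v (n + 1)) - d (E v ⊓ Φ.F v n)), h1]
  ring

theorem Cc_eq (hP : IsPar M E Y) {l : X.Λ} {u : X.V} (hu : u ∈ X.S l) (hl : X.live u)
    (f1 : FiniteDimensional ℚ (E u)) (f2 : FiniteDimensional ℚ (E (X.w l))) {K : ℕ}
    (h1 : E u ≤ Φ.F u K) (h2 : E (X.w l) ≤ Φ.F (X.w l) K) :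
    Cc Φ Y K l u = ∑ n ∈ range (K + 1), (d (Y l u ⊓ Φ.G l u (n + 1)) - d (lowC Φ Y l u n)) := by
  have e1 : Y l u ⊓ Φ.G l u (K + 1) = Y l u :=
    inf_eq_left.2 ((hP.Yle _ _).trans (h1.trans (Φ.FG _ _ _)))
  have e2 : Y l u ⊓ Φ.F u K = Y l u := inf_eq_left.2 ((hP.Yle _ _).trans h1)
  have e3 : Y l (X.w l) ⊓ Φ.F (X.w l) K = Y l (X.w l) := inf_eq_left.2 ((hP.Yle _ _).trans h2)
  have e4 : Y l (X.w l) ⊓ Φ.G l (X.w l) 0 = ⊥ :=
    eq_bot_iff.2 fun x hx => Φ.G0 l _ x (hP.le _ (hP.Yle _ _ hx.1)) hx.2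
  have h3 := Finset.sum_range_sub (fun n => d (Y l (X.w l) ⊓ Φ.G l (X.w l) n)) K
  rw [e4, d_bot] at h3
  simp only [fun n => dimC Φ hP hu hl n (fd_le f1 (inf_le_left.trans (hP.Yle _ _)))
    (fd_le f2 (inf_le_left.trans (hP.Yle _ _)))]
  rw [Finset.sum_range_succ, e1, e2, e3]
  simp only [Cc, top, Finset.sum_sub_distrib, Finset.sum_add_distrib] at h3 ⊢
  linarith

theorem Zc_nonneg (hP : IsPar M E Y) {Λ0 : Finset X.Λ} (h0 : ∀ l ∉ Λ0, ∀ v, Y l v = ⊥) (v : X.V)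
    (f1 : FiniteDimensional ℚ (E v)) {K : ℕ} (hK : E v ≤ Φ.F v K) : 0 ≤ Zc Φ E Y K Λ0 v := by
  rw [Zc_eq Φ hP h0 v f1 hK]
  refine add_nonneg (Int.natCast_nonneg _) (Finset.sum_nonneg fun n _ => sub_nonneg.2 ?_)
  have := fd_le f1 (inf_le_left (b := Φ.F v (n + 1)))
  exact d_mono (lowZ_le Φ hP v _)

theorem Cc_nonneg (hP : IsPar M E Y) {l : X.Λ} {u : X.V} (hu : u ∈ X.S l) (hl : X.live u)
    (f1 : FiniteDimensional ℚ (E u)) (f2 : FiniteDimensional ℚ (E (X.w l))) {K : ℕ}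
    (h1 : E u ≤ Φ.F u K) (h2 : E (X.w l) ≤ Φ.F (X.w l) K) : 0 ≤ Cc Φ Y K l u := by
  rw [Cc_eq Φ hP hu hl f1 f2 h1 h2]
  refine Finset.sum_nonneg fun n _ => sub_nonneg.2 ?_
  have := fd_le f1 ((inf_le_left (b := Φ.G l u (n + 1))).trans (hP.Yle l u))
  exact d_mono (lowC_le Φ hP hu _)

section cls
variable {N : Type*} [AddCommMonoid N] (val : X.V → N) (V0 : Finset X.V) (Λ0 : Finset X.Λ)

/-- the class -/
def cls (Z : X.V → ℤ) (C : X.Λ → X.V → ℤ) : N :=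
  ∑ v ∈ V0, (Z v).toNat • val v + ∑ l ∈ Λ0, ∑ u ∈ X.S l, (C l u).toNat • val u

theorem cls_eq (hv : ∀ l, val (X.w l) = ∑ u ∈ X.S l, val u) (hd : ∀ v, ¬ X.live v → val v = 0)
    {Z Z' : X.V → ℤ} {C C' : X.Λ → X.V → ℤ} {l : X.Λ} (hl : l ∈ Λ0) (hS : X.S l ⊆ V0)
    (hw : X.w l ∈ V0) (z1 : ∀ v ∈ V0, 0 ≤ Z v) (z2 : ∀ v ∈ V0, 0 ≤ Z' v)
    (c1 : ∀ u ∈ X.S l, X.live u → 0 ≤ C l u) (c2 : ∀ u ∈ X.S l, X.live u → 0 ≤ C' l u)
    (h1 : ∀ j, j ≠ l → C j = C' j) (h2 : ∀ v, v ∉ X.S l → v ≠ X.w l → Z v = Z' v)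
    (h3 : ∀ u ∈ X.S l, X.live u → Z u + C l u + Z (X.w l) = Z' u + C' l u + Z' (X.w l)) :
    cls val V0 Λ0 Z C = cls val V0 Λ0 Z' C' := by
  classical
  have key : ∀ (Z : X.V → ℤ) (C : X.Λ → X.V → ℤ), cls val V0 Λ0 Z C =
      (∑ v ∈ (V0 \ X.S l).erase (X.w l), (Z v).toNat • val v +
        ∑ j ∈ Λ0.erase l, ∑ u ∈ X.S j, (C j u).toNat • val u) +
      ∑ u ∈ X.S l, ((Z u).toNat + (C l u).toNat + (Z (X.w l)).toNat) • val u := by
    intro Z C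
    rw [cls, ← Finset.sum_sdiff hS, ← Finset.add_sum_erase _ _ hl,
      ← Finset.add_sum_erase _ _ (mem_sdiff.2 ⟨hw, X.hw l⟩), hv, Finset.smul_sum]
    simp only [add_smul, Finset.sum_add_distrib]
    abel
  rw [key, key]
  congr 1
  · congr 1
    · refine Finset.sum_congr rfl fun v hv => ?_
      rw [h2 v (mem_sdiff.1 (mem_of_mem_erase hv)).2 (ne_of_mem_erase hv)]
    · exact Finset.sum_congr rfl fun j hj => by rw [h1 j (ne_of_mem_erase hj)]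
  · refine Finset.sum_congr rfl fun u hu => ?_
    by_cases h : X.live u
    · have := h3 u hu h
      have := z1 u (hS hu); have := z2 u (hS hu); have := z1 _ hw; have := z2 _ hw
      have := c1 u hu h; have := c2 u hu h
      congr 1
      omega
    · rw [hd u h, smul_zero, smul_zero]

end cls

/-- the submodule generated using the relations in `Λ0` -/
def Q {A : Type v} (t : A → X.V) (z : A → M.W) (Λ0 : Finset X.Λ) (v : X.V) : Submodule ℚ M.W :=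
  ⨅ H : {H : X.V → Submodule ℚ M.W // (∀ a, z a ∈ H (t a)) ∧
    (∀ l ∈ Λ0, ∀ u ∈ X.S l, ∀ x ∈ H (X.w l), M.π l u x ∈ H u) ∧
    ∀ l ∈ Λ0, ∀ u ∈ X.S l, ∀ y ∈ H u, M.ι l u y ∈ H (X.w l)}, H.1 v

section
variable {A : Type v} {t : A → X.V} {z : A → M.W}

theorem Q_mem (Λ0 : Finset X.Λ) (a : A) : z a ∈ Q t z Λ0 (t a) :=
  (Submodule.mem_iInf _).2 fun H => H.2.1 a

theorem Q_π (Λ0 : Finset X.Λ) : ∀ l ∈ Λ0, ∀ u ∈ X.S l, ∀ x ∈ Q t z Λ0 (X.w l),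
    M.π l u x ∈ Q t z Λ0 u := fun l hl u hu x hx =>
  (Submodule.mem_iInf _).2 fun H => H.2.2.1 l hl u hu x ((Submodule.mem_iInf _).1 hx H)

theorem Q_ι (Λ0 : Finset X.Λ) : ∀ l ∈ Λ0, ∀ u ∈ X.S l, ∀ x ∈ Q t z Λ0 u,
    M.ι l u x ∈ Q t z Λ0 (X.w l) := fun l hl u hu x hx =>
  (Submodule.mem_iInf _).2 fun H => H.2.2.2 l hl u hu x ((Submodule.mem_iInf _).1 hx H)

theorem Q_le (Λ0 : Finset X.Λ) (H : X.V → Submodule ℚ M.W) (h1 : ∀ a, z a ∈ H (t a))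
    (h2 : ∀ l ∈ Λ0, ∀ u ∈ X.S l, ∀ x ∈ H (X.w l), M.π l u x ∈ H u)
    (h3 : ∀ l ∈ Λ0, ∀ u ∈ X.S l, ∀ y ∈ H u, M.ι l u y ∈ H (X.w l)) (v : X.V) :
    Q t z Λ0 v ≤ H v := iInf_le_of_le ⟨H, h1, h2, h3⟩ le_rfl

theorem Q_mono (v : X.V) : Monotone fun Λ0 => Q t z Λ0 v := fun _ Λ1 h =>
  Q_le _ _ (Q_mem Λ1) (fun l hl => Q_π Λ1 l (h hl)) (fun l hl => Q_ι Λ1 l (h hl)) v

theorem Q_exh (h : Free M M.sub t z) (v : X.V) (x : M.W) (hx : x ∈ M.sub v) :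
    ∃ Λ0, x ∈ Q t z Λ0 v := by
  classical
  have e : ∀ v x, x ∈ ⨆ Λ0, Q t z Λ0 v ↔ ∃ Λ0, x ∈ Q t z Λ0 v := fun v x =>
    Submodule.mem_iSup_of_directed _ (Q_mono v).directed_le
  refine (e v x).1 (h.gen (fun v => ⨆ Λ0, Q t z Λ0 v) (fun a => (e _ _).2 ⟨∅, Q_mem _ a⟩)
    (fun l u hu x _ h' => ?_) (fun l u hu x _ h' => ?_) v hx) <;>
  obtain ⟨s, hs⟩ := (e _ _).1 h'
  · exact (e _ _).2 ⟨insert l s, Q_π _ l (mem_insert_self _ _) u hu x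
      (Q_mono _ (subset_insert _ _) hs)⟩
  · exact (e _ _).2 ⟨insert l s, Q_ι _ l (mem_insert_self _ _) u hu x
      (Q_mono _ (subset_insert _ _) hs)⟩

end

theorem exists_level (v : X.V) (U : Submodule ℚ M.W) (f : FiniteDimensional ℚ U)
    (h : U ≤ M.sub v) : ∃ K, U ≤ Φ.F v K := by
  obtain ⟨s, rfl⟩ := (Submodule.fg_iff_finiteDimensional U).2 f
  choose n hn using fun x : s => Φ.exh v x (h (Submodule.subset_span x.2))
  exact ⟨univ.sup n, Submodule.span_le.2 fun x hx =>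
    F_mono Φ v (le_sup (f := n) (mem_univ ⟨x, hx⟩)) (hn ⟨x, hx⟩)⟩

/-- invariance of the class of a free module on one generator -/
theorem inj_thm (Φ₁ Φ₂ : Filt M) {v₁ v₂ : X.V} {z₁ z₂ : M.W} (l1 : X.live v₁) (l2 : X.live v₂)
    (h₁ : Free M M.sub (fun _ : PUnit.{u+1} => v₁) fun _ => z₁)
    (h₂ : Free M M.sub (fun _ : PUnit.{u+1} => v₂) fun _ => z₂)
    (k₁ : ∀ v, M.sub v ⊓ Φ₁.F v 0 = ⨆ _ : v = v₁, Submodule.span ℚ {z₁})
    (k₂ : ∀ v, M.sub v ⊓ Φ₂.F v 0 = ⨆ _ : v = v₂, Submodule.span ℚ {z₂})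
    (T : Mod X) (hT : ∀ v, X.live v → T.sub v ≠ ⊥)
    {N : Type*} [AddCommMonoid N] (val : X.V → N)
    (hv : ∀ l, val (X.w l) = ∑ u ∈ X.S l, val u) (hd : ∀ v, ¬ X.live v → val v = 0) :
    val v₁ = val v₂ := by
  classical
  obtain ⟨Λ0, hΛ⟩ := Q_exh h₁ v₂ z₂ (h₂.mem ⟨⟩)
  obtain ⟨R, hR⟩ := Φ₁.exh v₂ z₂ (h₂.mem ⟨⟩)
  set q := Q (fun _ : PUnit.{u+1} => v₁) (fun _ => z₁) Λ0 with hq
  have qle : ∀ v, q v ≤ M.sub v := Q_le _ _ h₁.mem (fun l _ => M.π_mem l) fun l _ => M.ι_mem l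
  set y := YY q (Λ0 : Set X.Λ) with hy
  have hP : IsPar M q y := YY_par _ qle (Q_π Λ0) (Q_ι Λ0)
  have y0 : ∀ l ∉ Λ0, ∀ v, y l v = ⊥ := fun l hl => YY_off hl
  have z1 : z₁ ∈ Φ₁.F v₁ 0 := by
    have : z₁ ∈ M.sub v₁ ⊓ Φ₁.F v₁ 0 := by rw [k₁]; simp
    exact this.2
  have z2 : z₂ ∈ Φ₂.F v₂ 0 := by
    have : z₂ ∈ M.sub v₂ ⊓ Φ₂.F v₂ 0 := by rw [k₂]; simp
    exact this.2
  have q0 : ∀ v, q v ⊓ Φ₁.F v 0 = ⨆ _ : v = v₁, Submodule.span ℚ {z₁} := by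
    intro v
    refine le_antisymm (k₁ v ▸ inf_le_inf_right _ (qle v)) (iSup_le ?_)
    rintro rfl
    exact (Submodule.span_singleton_le_iff_mem _ _).2 ⟨Q_mem Λ0 ⟨⟩, z1⟩
  obtain ⟨x1, x2⟩ := vanish Φ₁ hP T hT fun φ hφ h0 v x hx =>
    (Q_le Λ0 (fun v => q v ⊓ LinearMap.ker (φ v))
      (fun a => ⟨Q_mem Λ0 a, h0 _ _ ⟨Q_mem Λ0 a, z1⟩⟩)
      (fun l hl u hu x hx => ⟨Q_π Λ0 l hl u hu x hx.1, by
        have h3 : φ _ x = 0 := hx.2
        change φ u _ = 0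
        rw [hφ.π l u hu x (by rw [hy, YY_w (mem_coe.2 hl)]; exact hx.1), h3, map_zero]⟩)
      (fun l hl u hu x hx => ⟨Q_ι Λ0 l hl u hu x hx.1, by
        have h3 : φ _ x = 0 := hx.2
        change φ _ _ = 0
        rw [hφ.ι l u hu x (by rw [hy, YY_S (mem_coe.2 hl) hu]; exact hx.1), h3, map_zero]⟩) v hx).2
  have fd : ∀ n v, FiniteDimensional ℚ ↥(q v ⊓ Φ₁.F v n) := by
    intro n
    induction n with
    | zero =>
      intro v; rw [q0]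
      exact fd_le (U' := Submodule.span ℚ {z₁}) inferInstance (iSup_le fun _ => le_rfl)
    | succ n ih =>
      have g1 : ∀ l, ∀ u ∈ X.S l, FiniteDimensional ℚ ↥(y l u ⊓ Φ₁.G l u (n + 1)) := by
        intro l u hu
        have := fd_le (ih u) (inf_le_inf_right (Φ₁.F u n) (hP.Yle l u))
        have := fd_le (ih _) (inf_le_inf_right (Φ₁.F (X.w l) n) (hP.Yle l _))
        refine fd_le ?_ (x1 n l u hu)
        unfold lowC; infer_instance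
      have g2 : ∀ l v, FiniteDimensional ℚ ↥(y l v ⊓ Φ₁.G l v (n + 1)) := by
        intro l v
        by_cases h2 : v = X.w l
        · subst h2
          have := fun u : X.S l => g1 l u u.2
          refine fd_le (U' := ⨆ u : X.S l, (y l u ⊓ Φ₁.G l u (n + 1)).map (M.ι l u))
            inferInstance fun x hx => ?_
          rw [← M.sum l x (hP.le _ (hP.Yle _ _ hx.1))]
          exact Submodule.sum_mem _ fun u hu => Submodule.mem_iSup_of_mem ⟨u, hu⟩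
            ⟨_, (par_level Φ₁ hP (n + 1)).π l u hu x hx, rfl⟩
        by_cases h3 : v ∈ X.S l
        · exact g1 l v h3
        · rw [hP.off l v h3 h2, bot_inf_eq]; infer_instance
      intro v
      refine fd_le ?_ (x2 n v)
      rw [lowZ_eq Φ₁ y0]
      have := ih v
      exact fd_le (U' := q v ⊓ Φ₁.F v n ⊔ ⨆ l : Λ0, y l v ⊓ Φ₁.G l v (n + 1)) inferInstance
        (sup_le_sup_left (iSup₂_le fun l hl =>
          le_iSup (fun l : Λ0 => y l v ⊓ Φ₁.G l v (n + 1)) ⟨l, hl⟩) _)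
  let V0 : Finset X.V := insert v₁ (insert v₂ (Λ0.biUnion fun l => insert (X.w l) (X.S l)))
  have hVw : ∀ l ∈ Λ0, X.w l ∈ V0 := fun l hl => mem_insert_of_mem (mem_insert_of_mem
    (mem_biUnion.2 ⟨l, hl, mem_insert_self _ _⟩))
  have hVS : ∀ l ∈ Λ0, X.S l ⊆ V0 := fun l hl u hu => mem_insert_of_mem (mem_insert_of_mem
    (mem_biUnion.2 ⟨l, hl, mem_insert_of_mem hu⟩))
  choose κ hκ using fun v => exists_level Φ₂ v _ (fd R v) (inf_le_left.trans (qle v))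
  have hK : ∀ v ∈ V0, q v ⊓ Φ₁.F v R ≤ Φ₂.F v (V0.sup κ) := fun v hv =>
    (hκ v).trans (F_mono Φ₂ v (le_sup hv))
  set K := V0.sup κ
  let Er : ℕ → Finset X.Λ → X.V → Submodule ℚ M.W := fun r s v =>
    q v ⊓ Φ₁.F v r ⊔ ⨆ l ∈ s, y l v ⊓ Φ₁.G l v (r + 1)
  let Yr : ℕ → Finset X.Λ → X.Λ → X.V → Submodule ℚ M.W := fun r s l v =>
    y l v ⊓ Φ₁.G l v (if l ∈ s then r + 1 else r)
  have Ele : ∀ r s v, Er r s v ≤ q v ⊓ Φ₁.F v (r + 1) := fun r s v =>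
    sup_le (inf_le_inf_left _ (Φ₁.mono v r)) (iSup₂_le fun l _ =>
      inf_le_inf (hP.Yle l v) (Φ₁.GF l v _))
  have hPr : ∀ r s, IsPar M (Er r s) (Yr r s) := fun r s =>
    ⟨fun v => (Ele r s v).trans (inf_le_left.trans (qle v)), fun l v => by
      simp only [Yr]
      split_ifs with h
      · exact le_sup_of_le_right (le_iSup₂_of_le l h le_rfl)
      · exact le_sup_of_le_left ((par_level Φ₁ hP r).Yle l v),
      fun l => (par_level Φ₁ hP _).off l, fun l => (par_level Φ₁ hP _).π l,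
      fun l => (par_level Φ₁ hP _).ι l⟩
  have Y0 : ∀ r s, ∀ l ∉ Λ0, ∀ v, Yr r s l v = ⊥ := fun r s l hl v => by
    simp only [Yr, y0 l hl, bot_inf_eq]
  let c : ℕ → Finset X.Λ → N := fun r s =>
    cls val V0 Λ0 (Zc Φ₂ (Er r s) (Yr r s) K Λ0) (Cc Φ₂ (Yr r s) K)
  have hstep : ∀ r, r < R → ∀ s ⊆ Λ0, c r s = c r ∅ := by
    intro r hr s
    have EK : ∀ s, ∀ v ∈ V0, Er r s v ≤ Φ₂.F v K := fun s v hv =>
      (Ele r s v).trans ((inf_le_inf_left _ (F_mono Φ₁ v hr)).trans (hK v hv))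
    have fE : ∀ s v, FiniteDimensional ℚ (Er r s v) := fun s v => fd_le (fd _ v) (Ele r s v)
    induction s using Finset.induction_on with
    | empty => intro _; rfl
    | insert l s hl ih =>
      intro hs
      have hl0 : l ∈ Λ0 := hs (mem_insert_self _ _)
      refine Eq.trans ?_ (ih ((subset_insert _ _).trans hs))
      have eY : ∀ j, j ≠ l → Yr r (insert l s) j = Yr r s j := fun j hj => by
        funext v; simp only [Yr, mem_insert, hj, false_or]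
      have eT : ∀ j, j ≠ l → ∀ v, top Φ₂ (Yr r (insert l s)) K j v = top Φ₂ (Yr r s) K j v :=
        fun j hj v => by simp only [top, eY j hj]
      have eZ : ∀ v, Zc Φ₂ (Er r (insert l s)) (Yr r (insert l s)) K Λ0 v +
          top Φ₂ (Yr r (insert l s)) K l v = Zc Φ₂ (Er r s) (Yr r s) K Λ0 v +
            top Φ₂ (Yr r s) K l v + (d (y l v ⊓ Φ₁.G l v (r + 1)) - d (y l v ⊓ Φ₁.F v r)) := by
        intro v
        simp only [Zc, Er]
        rw [dimZ Φ₁ hP v r (fd _ v), dimZ Φ₁ hP v r (fd _ v), Finset.sum_insert hl,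
          ← Finset.add_sum_erase _ _ hl0, ← Finset.add_sum_erase _ _ hl0,
          Finset.sum_congr rfl fun j hj => eT j (ne_of_mem_erase hj) v]
        ring
      refine cls_eq val V0 Λ0 hv hd hl0 (hVS l hl0) (hVw l hl0)
        (fun v hv => Zc_nonneg Φ₂ (hPr _ _) (Y0 _ _) v (fE _ v) (EK _ v hv))
        (fun v hv => Zc_nonneg Φ₂ (hPr _ _) (Y0 _ _) v (fE _ v) (EK _ v hv))
        (fun u hu h => Cc_nonneg Φ₂ (hPr _ _) hu h (fE _ _) (fE _ _) (EK _ _ (hVS l hl0 hu))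
          (EK _ _ (hVw l hl0)))
        (fun u hu h => Cc_nonneg Φ₂ (hPr _ _) hu h (fE _ _) (fE _ _) (EK _ _ (hVS l hl0 hu))
          (EK _ _ (hVw l hl0)))
        (fun j hj => ?_) (fun v h1 h2 => ?_) fun u hu h => ?_
      · funext u; simp only [Cc, eT j hj, eY j hj]
      · have := eZ v
        simp only [top, (hPr _ _).off l v h1 h2, hP.off l v h1 h2, bot_inf_eq, sub_self,
          Finset.sum_const_zero, add_zero] at this
        exact this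
      · have h1 := eZ u
        have h2 := eZ (X.w l)
        have h3 := dimC Φ₁ hP hu h r (fd_le (fd r u) (inf_le_inf_right _ (hP.Yle l u)))
          (fd_le (fd r _) (inf_le_inf_right _ (hP.Yle l _)))
        rw [le_antisymm (lowC_le Φ₁ hP hu r) (x1 r l u hu)] at h3
        have h4 : Yr r (insert l s) l (X.w l) = y l (X.w l) ⊓ Φ₁.G l (X.w l) (r + 1) := by
          simp only [Yr, mem_insert_self, if_true]
        have h5 : Yr r s l (X.w l) = y l (X.w l) ⊓ Φ₁.G l (X.w l) r := by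
          simp only [Yr, hl, if_false]
        simp only [Cc, h4, h5]
        linarith
  have E0 : ∀ r, Er r ∅ = fun v => q v ⊓ Φ₁.F v r := fun r => by funext v; simp [Er]
  have Yz : ∀ r, Yr r ∅ = fun l v => y l v ⊓ Φ₁.G l v r := fun r => by funext l v; simp [Yr]
  have hnext : ∀ r, c r Λ0 = c (r + 1) ∅ := by
    intro r
    have e1 : Er r Λ0 = Er (r + 1) ∅ := by
      rw [E0]; funext v
      exact (lowZ_eq Φ₁ y0 v r).symm.trans (le_antisymm (lowZ_le Φ₁ hP v _) (x2 r v))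
    have e2 : Yr r Λ0 = Yr (r + 1) ∅ := by
      funext l v
      by_cases h : l ∈ Λ0
      · simp [Yr, h]
      · rw [Y0 _ _ l h, Y0 _ _ l h]
    simp only [c, e1, e2]
  have hall : ∀ r ≤ R, c r ∅ = c 0 ∅ := by
    intro r hr
    induction r with
    | zero => rfl
    | succ r ih => rw [← hnext, hstep r hr _ subset_rfl, ih (by omega)]
  have nz : ∀ {v : X.V} {z : M.W}, X.live v →
      Free M M.sub (fun _ : PUnit.{u+1} => v) (fun _ => z) → z ≠ 0 := by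
    intro v z hl h h0
    obtain ⟨τ, t1, t2⟩ := (Submodule.ne_bot_iff _).1 (hT _ hl)
    obtain ⟨φ, -, p⟩ := h.ex T (fun _ => τ) fun _ => t1
    exact t2 ((p ⟨⟩).symm.trans (by rw [h0, map_zero]))
  have fin : ∀ {v : X.V} {z : M.W}, v ∈ V0 → z ≠ 0 → ∀ (Z : X.V → ℤ) (C : X.Λ → X.V → ℤ),
      (∀ v' ∈ V0, Z v' = d (⨆ _ : v' = v, Submodule.span ℚ {z})) →
      (∀ l ∈ Λ0, ∀ u ∈ X.S l, X.live u → C l u = 0) → cls val V0 Λ0 Z C = val v := by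
    intro v z hv0 hz Z C h1 h2
    rw [cls, Finset.sum_eq_single_of_mem v hv0, Finset.sum_eq_zero fun l hl =>
      Finset.sum_eq_zero fun u hu => ?_, h1 v hv0]
    · rw [iSup_pos rfl, d, finrank_span_singleton hz]; simp
    · by_cases h : X.live u
      · rw [h2 l hl u hu h]; simp
      · rw [hd u h, smul_zero]
    · intro v' hv' hne
      rw [h1 v' hv', iSup_neg hne, d_bot]; simp
  have c0 : c 0 ∅ = val v₁ := by
    have e : Yr 0 ∅ = fun _ _ => ⊥ := by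
      rw [Yz]; funext l v
      exact eq_bot_iff.2 fun x hx => Φ₁.G0 l _ x (hP.le _ (hP.Yle _ _ hx.1)) hx.2
    refine fin (mem_insert_self _ _) (nz l1 h₁) _ _ (fun v _ => ?_) fun l _ u _ _ => ?_
    · simp only [Zc, top, e, E0, q0, bot_inf_eq, sub_self, Finset.sum_const_zero, sub_zero]
    · simp [Cc, top, e, d_bot]
  have cR : c R ∅ = val v₂ := by
    have fE : ∀ v, FiniteDimensional ℚ (Er R ∅ v) := fun v => by rw [E0]; exact fd R v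
    have EK : ∀ v ∈ V0, Er R ∅ v ≤ Φ₂.F v K := fun v hv => by rw [E0]; exact hK v hv
    obtain ⟨w1, w2⟩ := vanish Φ₂ (hPr R ∅) T hT fun φ hφ h0 => by
      rw [E0, Yz] at hφ
      rw [E0] at h0 ⊢
      obtain ⟨ψ, p1, p2⟩ := h₁.ex T (fun _ => φ v₁ z₁) fun _ =>
        hφ.mem _ _ ⟨Q_mem Λ0 ⟨⟩, F_mono Φ₁ _ (Nat.zero_le R) z1⟩
      have ag : ∀ j ≤ R, ∀ v, q v ⊓ Φ₁.F v j ≤ LinearMap.eqLocus (φ v) (ψ v) := by
        intro j hj
        induction j with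
        | zero =>
          intro v; rw [q0]
          refine iSup_le ?_
          rintro rfl
          exact (Submodule.span_singleton_le_iff_mem _ _).2 (p2 ⟨⟩).symm
        | succ j ih =>
          have g1 : ∀ l, ∀ u ∈ X.S l, y l u ⊓ Φ₁.G l u (j + 1) ≤ LinearMap.eqLocus (φ u) (ψ u) := by
            intro l u hu
            refine (x1 j l u hu).trans (sup_le
              ((inf_le_inf_right _ (hP.Yle l u)).trans (ih (by omega) u)) ?_)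
            rintro _ ⟨a, ha, rfl⟩
            have h3 : φ _ a = ψ _ a := ih (by omega) _ ⟨hP.Yle _ _ ha.1, ha.2⟩
            rw [LinearMap.mem_eqLocus, hφ.π l u hu a ⟨ha.1, G_mono Φ₁ l _ hj (Φ₁.FG _ _ _ ha.2)⟩,
              p1.π l u hu a (qle _ (hP.Yle _ _ ha.1)), h3]
          intro v
          refine (x2 j v).trans (sup_le (ih (by omega) v) (iSup_le fun l x hx => ?_))
          by_cases h2 : v = X.w l
          · subst h2
            rw [← M.sum l x (hP.le _ (hP.Yle _ _ hx.1))]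
            refine Submodule.sum_mem _ fun u hu => ?_
            have h3 := (par_level Φ₁ hP (j + 1)).π l u hu x hx
            have h4 : φ u _ = ψ u _ := g1 l u hu h3
            rw [LinearMap.mem_eqLocus, hφ.ι l u hu _ ⟨h3.1, G_mono Φ₁ l _ hj h3.2⟩,
              p1.ι l u hu _ (qle _ (hP.Yle _ _ h3.1)), h4]
          by_cases h3 : v ∈ X.S l
          · exact g1 l v h3 hx
          · have : x = 0 := by have := hx.1; rwa [hP.off l v h3 h2] at this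
            rw [this]; exact Submodule.zero_mem _
      have hz := h₂.uniq p1 hom_zero fun _ =>
        (ag R le_rfl v₂ ⟨hΛ, hR⟩).symm.trans (h0 v₂ z₂ ⟨⟨hΛ, hR⟩, z2⟩)
      exact fun v x hx => (ag R le_rfl v hx).trans (hz v x (qle v hx.1))
    refine fin (mem_insert_of_mem (mem_insert_self _ _)) (nz l2 h₂) _ _ (fun v hv => ?_)
      fun l hl u hu h => ?_
    · rw [Zc_eq Φ₂ (hPr R ∅) (Y0 _ _) v (fE v) (EK v hv), Finset.sum_eq_zero fun n _ => by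
        rw [le_antisymm (lowZ_le Φ₂ (hPr R ∅) v _) (w2 n v), sub_self], add_zero]
      congr 1
      refine le_antisymm (k₂ v ▸ inf_le_inf_right _ ((hPr R ∅).le v)) (iSup_le ?_)
      rintro rfl
      rw [E0]
      exact (Submodule.span_singleton_le_iff_mem _ _).2 ⟨⟨hΛ, hR⟩, z2⟩
    · rw [Cc_eq Φ₂ (hPr R ∅) hu h (fE _) (fE _) (EK _ (hVS l hl hu)) (EK _ (hVw l hl))]
      exact Finset.sum_eq_zero fun n _ => by
        rw [le_antisymm (lowC_le Φ₂ (hPr R ∅) hu _) (w1 n l u hu), sub_self]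
  rw [← c0, ← cR, hall R le_rfl]

end H60.VR
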