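import Pool.Agent.H60.VRc

/-! The standard (free) modules, via normal forms. -/

namespace H60.VR
open Finset Finsupp
universe u v

noncomputable section
open Classical

variable {X : Sys.{u}} {B : Type u} (t : B → X.V)

inductive Kd | P | I | R

abbrev Lt (X : Sys.{u}) := X.Λ × X.V × Kd

def u0 (l : X.Λ) : X.V := if h : X.live (X.w l) then ((X.hlive l).1 h).choose else X.w l

theorem u0_spec {l : X.Λ} (h : X.live (X.w l)) : u0 l ∈ X.S l ∧ X.live (u0 l) := by
  rw [u0, dif_pos h]; exact ((X.hlive l).1 h).choose_spec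

def Sl (l : X.Λ) : Finset X.V := ((X.S l).filter X.live).erase (u0 l)

def typ (b : B) : List (Lt X) → X.V
  | [] => t b
  | (_, u, .P) :: _ => u
  | (l, _, .I) :: _ => X.w l
  | (l, _, .R) :: _ => X.w l

def ends (l : X.Λ) : List (Lt X) → Prop
  | [] => False
  | x :: _ => x.1 = l

def valid (b : B) : List (Lt X) → Prop
  | [] => X.live (t b)
  | (l, u, .P) :: g => valid b g ∧ ¬ ends l g ∧ u ∈ X.S l ∧ X.live u ∧ typ t b g = X.w l
  | (l, u, .I) :: g => valid b g ∧ ¬ ends l g ∧ u ∈ X.S l ∧ X.live u ∧ typ t b g = u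
  | (l, u, .R) :: g => valid b g ∧ ¬ ends l g ∧ u ∈ X.S l ∧ X.live u ∧ typ t b g = X.w l ∧ u ≠ u0 l

theorem valid_live (b : B) : ∀ g, valid t b g → X.live (typ t b g)
  | [], h => h
  | (_, _, .P) :: _, h => h.2.2.2.1
  | (l, u, .I) :: _, h => (X.hlive l).2 ⟨u, h.2.2.1, h.2.2.2.1⟩
  | (l, u, .R) :: _, h => (X.hlive l).2 ⟨u, h.2.2.1, h.2.2.2.1⟩

theorem case_S {b : B} {l : X.Λ} {u : X.V} (hu : u ∈ X.S l) : ∀ {g}, valid t b g → typ t b g = u →
    ¬ ends l g ∨ ∃ g', g = (l, u, .P) :: g' ∧ valid t b g' ∧ ¬ ends l g' ∧ typ t b g' = X.w l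
  | [], _, _ => Or.inl id
  | (l', u', .P) :: g, h, h' => by
    by_cases e : l' = l
    · subst e; obtain rfl : u' = u := h'
      exact Or.inr ⟨g, rfl, h.1, h.2.1, h.2.2.2.2⟩
    · exact Or.inl e
  | (l', _, .I) :: _, _, h' => Or.inl fun e : l' = l => X.hw l (by
      have : X.w l' = u := h'
      rw [e] at this; rwa [this])
  | (l', _, .R) :: _, _, h' => Or.inl fun e : l' = l => X.hw l (by
      have : X.w l' = u := h'
      rw [e] at this; rwa [this])

theorem case_w {b : B} {l : X.Λ} : ∀ {g}, valid t b g → typ t b g = X.w l →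
    ¬ ends l g ∨ (∃ u g', g = (l, u, .I) :: g') ∨ ∃ u g', g = (l, u, .R) :: g'
  | [], _, _ => Or.inl id
  | (l', u', .P) :: _, h, h' => Or.inl fun e : l' = l => X.hw l (by
      have : u' = X.w l := h'
      rw [← this, ← e]; exact h.2.2.1)
  | (l', u', .I) :: g, _, _ => by
    by_cases e : l' = l
    · subst e; exact Or.inr (Or.inl ⟨u', g, rfl⟩)
    · exact Or.inl e
  | (l', u', .R) :: g, _, _ => by
    by_cases e : l' = l
    · subst e; exact Or.inr (Or.inr ⟨u', g, rfl⟩)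
    · exact Or.inl e

abbrev Wd (X : Sys.{u}) (B : Type u) := B × List (Lt X)

/-- basis vector -/
abbrev sg (b : B) (g : List (Lt X)) : Wd X B →₀ ℚ := single (b, g) 1

def πe (l : X.Λ) (u : X.V) (b : B) : List (Lt X) → (Wd X B →₀ ℚ)
  | (_, u', .I) :: g => if u = u' then sg b g else 0
  | (_, u', .R) :: g => if u = u' then sg b ((l, u, .P) :: g) else 0
  | _ => 0

def ιe (l : X.Λ) (u : X.V) (b : B) : List (Lt X) → (Wd X B →₀ ℚ)
  | (_, _, .P) :: g => if u = u0 l then sg b g - ∑ u' ∈ Sl l, sg b ((l, u', .R) :: g)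
      else sg b ((l, u, .R) :: g)
  | _ => 0

def πm (l : X.Λ) (u : X.V) : (Wd X B →₀ ℚ) →ₗ[ℚ] (Wd X B →₀ ℚ) :=
  linearCombination ℚ fun ω => if X.live u then
    (if ends l ω.2 then πe l u ω.1 ω.2 else sg ω.1 ((l, u, .P) :: ω.2)) else 0

def ιm (l : X.Λ) (u : X.V) : (Wd X B →₀ ℚ) →ₗ[ℚ] (Wd X B →₀ ℚ) :=
  linearCombination ℚ fun ω => if ends l ω.2 then ιe l u ω.1 ω.2 else sg ω.1 ((l, u, .I) :: ω.2)

variable {l : X.Λ} {u u' : X.V} {b : B} {g : List (Lt X)}

theorem π_dead (h : ¬ X.live u) (x : Wd X B →₀ ℚ) : πm l u x = 0 := by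
  simp [πm, h, linearCombination_apply]

theorem π_ne (h : X.live u) (h' : ¬ ends l g) : πm l u (sg b g) = sg b ((l, u, .P) :: g) := by
  simp [πm, h, h']

theorem π_I (h : X.live u) : πm l u (sg b ((l, u', .I) :: g)) = if u = u' then sg b g else 0 := by
  simp [πm, h, ends, πe]

theorem π_R (h : X.live u) : πm l u (sg b ((l, u', .R) :: g)) =
    if u = u' then sg b ((l, u, .P) :: g) else 0 := by
  simp [πm, h, ends, πe]

theorem ι_ne (h' : ¬ ends l g) : ιm l u (sg b g) = sg b ((l, u, .I) :: g) := by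
  simp [ιm, h']

theorem ι_P : ιm l u (sg b ((l, u', .P) :: g)) = if u = u0 l then
    sg b g - ∑ u' ∈ Sl l, sg b ((l, u', .R) :: g) else sg b ((l, u, .R) :: g) := by
  simp [ιm, ends, ιe]

theorem sup_ind {α : Type*} {s : Set α} (H : Submodule ℚ (α →₀ ℚ)) (h : ∀ a ∈ s, single a 1 ∈ H) :
    supported ℚ ℚ s ≤ H := by
  rw [supported_eq_span_single]
  exact Submodule.span_le.2 (by rintro _ ⟨a, ha, rfl⟩; exact h a ha)

theorem mem_Sl : u ∈ Sl l ↔ u ≠ u0 l ∧ u ∈ X.S l ∧ X.live u := by simp [Sl]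

def vs (v : X.V) : Set (Wd X B) := {ω | valid t ω.1 ω.2 ∧ typ t ω.1 ω.2 = v}

theorem π_in {s s' : Set (Wd X B)} (hs : s ⊆ vs t (X.w l))
    (h1 : ∀ b g, (b, g) ∈ s → X.live u → ¬ ends l g → (b, (l, u, .P) :: g) ∈ s')
    (h2 : ∀ b g, (b, (l, u, .I) :: g) ∈ s → (b, g) ∈ s')
    (h3 : ∀ b g, (b, (l, u, .R) :: g) ∈ s → (b, (l, u, .P) :: g) ∈ s') :
    ∀ x ∈ supported ℚ ℚ s, πm l u x ∈ supported ℚ ℚ s' := by
  by_cases hl : X.live u
  swap
  · intro x _; rw [π_dead hl]; exact Submodule.zero_mem _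
  refine sup_ind ((supported ℚ ℚ s').comap (πm l u)) ?_
  rintro ⟨b, g⟩ h
  rw [Submodule.mem_comap]
  rcases case_w t (hs h).1 (hs h).2 with e | ⟨u', g', rfl⟩ | ⟨u', g', rfl⟩
  · rw [π_ne hl e]; exact single_mem_supported _ _ (h1 b g h hl e)
  · rw [π_I hl]
    split_ifs with e
    · subst e; exact single_mem_supported _ _ (h2 b g' h)
    · exact Submodule.zero_mem _
  · rw [π_R hl]
    split_ifs with e
    · subst e; exact single_mem_supported _ _ (h3 b g' h)
    · exact Submodule.zero_mem _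

theorem ι_in {s s' : Set (Wd X B)} (hu : u ∈ X.S l) (hs : s ⊆ vs t u)
    (h1 : ∀ b g, (b, g) ∈ s → ¬ ends l g → (b, (l, u, .I) :: g) ∈ s')
    (h2 : ∀ b g, (b, (l, u, .P) :: g) ∈ s → (b, g) ∈ s')
    (h3 : ∀ b g, (b, (l, u, .P) :: g) ∈ s → ∀ u' ∈ Sl l, (b, (l, u', .R) :: g) ∈ s') :
    ∀ x ∈ supported ℚ ℚ s, ιm l u x ∈ supported ℚ ℚ s' := by
  refine sup_ind ((supported ℚ ℚ s').comap (ιm l u)) ?_
  rintro ⟨b, g⟩ h
  rw [Submodule.mem_comap]
  rcases case_S t hu (hs h).1 (hs h).2 with e | ⟨g', rfl, -⟩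
  · rw [ι_ne e]; exact single_mem_supported _ _ (h1 b g h e)
  · rw [ι_P]
    split_ifs with e
    · exact Submodule.sub_mem _ (single_mem_supported _ _ (h2 b g' h))
        (Submodule.sum_mem _ fun u' hu' => single_mem_supported _ _ (h3 b g' h u' hu'))
    · exact single_mem_supported _ _ (h3 b g' h u (mem_Sl.2 ⟨e, hu, (hs h).1.2.2.2.1⟩))

theorem sum_split {N : Type*} [AddCommMonoid N] (hl : X.live (X.w l)) (f : X.V → N)
    (hf : ∀ u, ¬ X.live u → f u = 0) : ∑ u ∈ X.S l, f u = f (u0 l) + ∑ u ∈ Sl l, f u := by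
  rw [Sl, Finset.add_sum_erase _ _ (mem_filter.2 (u0_spec hl)), Finset.sum_filter_of_ne]
  intro x _ h
  by_contra h'
  exact h (hf x h')

/-- the standard module -/
def Std : Mod X where
  W := Wd X B →₀ ℚ
  sub v := supported ℚ ℚ (vs t v)
  π := πm
  ι := ιm
  dead v hv := by
    have : vs t v = ∅ := Set.eq_empty_of_forall_notMem fun ω h => hv (h.2 ▸ valid_live t _ _ h.1)
    rw [this, supported_empty]
  π_mem l u hu := π_in t subset_rfl (fun b g h hl e => ⟨⟨h.1, e, hu, hl, h.2⟩, rfl⟩)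
    (fun b g h => ⟨h.1.1, h.1.2.2.2.2⟩)
    fun b g h => ⟨⟨h.1.1, h.1.2.1, hu, h.1.2.2.2.1, h.1.2.2.2.2.1⟩, rfl⟩
  ι_mem l u hu := ι_in t hu subset_rfl
    (fun b g h e => ⟨⟨h.1, e, hu, h.2 ▸ valid_live t _ _ h.1, h.2⟩, rfl⟩)
    (fun b g h => ⟨h.1.1, h.1.2.2.2.2⟩) fun b g h u' hu' => ⟨⟨h.1.1, h.1.2.1, (mem_Sl.1 hu').2.1,
      (mem_Sl.1 hu').2.2, h.1.2.2.2.2, (mem_Sl.1 hu').1⟩, rfl⟩
  πι l u hu u' hu' y hy := by
    have : supported ℚ ℚ (vs t u') ≤ LinearMap.eqLocus (πm l u ∘ₗ ιm l u')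
        (if u = u' then LinearMap.id else 0) := by
      refine sup_ind _ ?_
      rintro ⟨b, g⟩ h
      have hl' : X.live u' := h.2 ▸ valid_live t _ _ h.1
      rw [LinearMap.mem_eqLocus, LinearMap.comp_apply]
      by_cases hl : X.live u
      swap
      · rw [π_dead hl, if_neg (by rintro rfl; exact hl hl')]; rfl
      rcases case_S t hu' h.1 h.2 with e | ⟨g', rfl, -, e, -⟩
      · rw [ι_ne e, π_I hl]; split_ifs <;> rfl
      · rw [ι_P]
        by_cases e0 : u' = u0 l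
        · rw [if_pos e0, map_sub, map_sum, π_ne hl e]
          simp only [π_R hl, Finset.sum_ite_eq, mem_Sl, hu, hl, and_true]
          by_cases e1 : u = u'
          · subst e1; simp [← e0]
          · rw [if_pos (e0 ▸ e1), if_neg e1]; simp
        · rw [if_neg e0, π_R hl]
          split_ifs with e1
          · subst e1; rfl
          · rfl
    have h := this hy
    rw [LinearMap.mem_eqLocus] at h
    refine h.trans ?_
    split_ifs <;> rfl
  sum l x hx := by
    have : supported ℚ ℚ (vs t (X.w l)) ≤ LinearMap.eqLocus (∑ u ∈ X.S l, ιm l u ∘ₗ πm l u)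
        LinearMap.id := by
      refine sup_ind _ ?_
      rintro ⟨b, g⟩ h
      have hl : X.live (X.w l) := h.2 ▸ valid_live t _ _ h.1
      rw [LinearMap.mem_eqLocus, LinearMap.sum_apply]
      simp only [LinearMap.comp_apply, LinearMap.id_apply]
      rcases case_w t h.1 h.2 with e | ⟨u', g', rfl⟩ | ⟨u', g', rfl⟩
      · have e2 : ∀ u ∈ Sl l, ιm l u (πm l u (sg b g)) = sg b ((l, u, .R) :: g) := fun u hu => by
          rw [π_ne (mem_Sl.1 hu).2.2 e, ι_P, if_neg (mem_Sl.1 hu).1]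
        rw [sum_split hl _ fun u hu => by rw [π_dead hu, map_zero], Finset.sum_congr rfl e2,
          π_ne (u0_spec hl).2 e, ι_P, if_pos rfl]
        simp
      · rw [Finset.sum_eq_single_of_mem u' h.1.2.2.1, π_I h.1.2.2.2.1, if_pos rfl, ι_ne h.1.2.1]
        intro u _ hne
        by_cases hu : X.live u
        · rw [π_I hu, if_neg hne, map_zero]
        · rw [π_dead hu, map_zero]
      · rw [Finset.sum_eq_single_of_mem u' h.1.2.2.1, π_R h.1.2.2.2.1, if_pos rfl, ι_P,
          if_neg h.1.2.2.2.2.2]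
        intro u _ hne
        by_cases hu : X.live u
        · rw [π_R hu, if_neg hne, map_zero]
        · rw [π_dead hu, map_zero]
    have h := this hx
    rw [LinearMap.mem_eqLocus, LinearMap.sum_apply] at h
    exact h

def evw (T : Mod X) (y : T.W) : List (Lt X) → T.W
  | [] => y
  | (l, u, .P) :: g => T.π l u (evw T y g)
  | (l, u, .I) :: g => T.ι l u (evw T y g)
  | (l, u, .R) :: g => T.ι l u (T.π l u (evw T y g))

theorem evw_mem (T : Mod X) (b : B) (y : T.W) (hy : y ∈ T.sub (t b)) :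
    ∀ g, valid t b g → evw T y g ∈ T.sub (typ t b g)
  | [], _ => hy
  | (l, u, .P) :: g, h => T.π_mem l u h.2.2.1 _ (h.2.2.2.2 ▸ evw_mem T b y hy g h.1)
  | (l, u, .I) :: g, h => T.ι_mem l u h.2.2.1 _ (h.2.2.2.2 ▸ evw_mem T b y hy g h.1)
  | (l, u, .R) :: g, h => T.ι_mem l u h.2.2.1 _
      (T.π_mem l u h.2.2.1 _ (h.2.2.2.2.1 ▸ evw_mem T b y hy g h.1))

/-- generators -/
def gn (b : B) : (Std t).W := sg b []

theorem Std_free (hl : ∀ b, X.live (t b)) : Free (Std t) (Std t).sub t (gn t) := by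
  refine ⟨fun b => single_mem_supported _ _ ⟨hl b, rfl⟩, fun T y hy => ?_, fun H h1 h2 h3 v => ?_⟩
  · let φ : (Wd X B →₀ ℚ) →ₗ[ℚ] T.W := linearCombination ℚ fun ω => evw T (y ω.1) ω.2
    have e : ∀ b g, φ (sg b g) = evw T (y b) g := fun b g => by simp [φ]
    have m := fun b => evw_mem t T b (y b) (hy b)
    refine ⟨fun _ => φ, ⟨fun v => sup_ind ((T.sub v).comap φ) ?_,
      fun l u hu => sup_ind (LinearMap.eqLocus (φ ∘ₗ πm l u) (T.π l u ∘ₗ φ)) ?_,
      fun l u hu => sup_ind (LinearMap.eqLocus (φ ∘ₗ ιm l u) (T.ι l u ∘ₗ φ)) ?_⟩, fun b => e b []⟩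
    · rintro ⟨b, g⟩ h
      rw [Submodule.mem_comap, e, ← h.2]; exact m b g h.1
    · rintro ⟨b, g⟩ h
      rw [LinearMap.mem_eqLocus, LinearMap.comp_apply, LinearMap.comp_apply, e]
      by_cases hl : X.live u
      swap
      · have := T.π_mem l u hu _ (h.2 ▸ m b g h.1)
        rw [T.dead u hl, Submodule.mem_bot] at this
        rw [π_dead hl, map_zero, this]
      rcases case_w t h.1 h.2 with e' | ⟨u', g', rfl⟩ | ⟨u', g', rfl⟩
      · rw [π_ne hl e', e]; rfl
      · rw [π_I hl, evw, T.πι l u hu u' h.1.2.2.1 _ (h.1.2.2.2.2 ▸ m b g' h.1.1)]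
        split_ifs
        exacts [e _ _, map_zero _]
      · rw [π_R hl, evw, T.πι l u hu u' h.1.2.2.1 _
          (T.π_mem l u' h.1.2.2.1 _ (h.1.2.2.2.2.1 ▸ m b g' h.1.1))]
        split_ifs with e1
        · subst e1; exact e _ _
        · exact map_zero _
    · rintro ⟨b, g⟩ h
      rw [LinearMap.mem_eqLocus, LinearMap.comp_apply, LinearMap.comp_apply, e]
      rcases case_S t hu h.1 h.2 with e' | ⟨g', rfl, v1, -, v2⟩
      · rw [ι_ne e', e]; rfl
      · rw [ι_P]
        split_ifs with e1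
        · have hw : X.live (X.w l) := v2 ▸ valid_live t _ _ v1
          have m1 : evw T (y b) g' ∈ T.sub (X.w l) := v2 ▸ m b g' v1
          have := T.sum l _ m1
          rw [← Finset.sum_filter_of_ne (p := X.live) fun u hu h0 => ?_,
            ← Finset.add_sum_erase _ _ (mem_filter.2 (u0_spec hw))] at this
          · rw [map_sub, map_sum, e, Finset.sum_congr rfl fun u _ => e b _, e1]
            exact (eq_sub_of_add_eq this).symm
          · by_contra h1
            have h2 := T.π_mem l u hu _ m1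
            rw [T.dead u h1, Submodule.mem_bot] at h2
            exact h0 (by rw [h2, map_zero])
        · exact e _ _
  · have key : ∀ b g, valid t b g → sg b g ∈ H (typ t b g) := by
      intro b g
      induction g with
      | nil => exact fun _ => h1 b
      | cons x g ih =>
        obtain ⟨l, u, _ | _ | _⟩ := x <;> intro h
        · have := h2 l u h.2.2.1 _ (single_mem_supported _ _ ⟨h.1, h.2.2.2.2⟩) (h.2.2.2.2 ▸ ih h.1)
          rwa [show (Std t).π l u (sg b g) = _ from π_ne h.2.2.2.1 h.2.1] at this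
        · have := h3 l u h.2.2.1 _ (single_mem_supported _ _ ⟨h.1, h.2.2.2.2⟩) (h.2.2.2.2 ▸ ih h.1)
          rwa [show (Std t).ι l u (sg b g) = _ from ι_ne h.2.1] at this
        · have h4 := h2 l u h.2.2.1 _ (single_mem_supported _ _ ⟨h.1, h.2.2.2.2.1⟩)
            (h.2.2.2.2.1 ▸ ih h.1)
          rw [show (Std t).π l u (sg b g) = _ from π_ne h.2.2.2.1 h.2.1] at h4
          have := h3 l u h.2.2.1 _ (single_mem_supported _ (a := (b, (l, u, Kd.P) :: g)) _
            ⟨⟨h.1, h.2.1, h.2.2.1, h.2.2.2.1, h.2.2.2.2.1⟩, rfl⟩) h4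
          rwa [show (Std t).ι l u (sg b ((l, u, .P) :: g)) = _ from ι_P,
            if_neg h.2.2.2.2.2] at this
    refine sup_ind _ ?_
    rintro ⟨b, g⟩ h
    exact h.2 ▸ key b g h.1

def fs (n : ℕ) : Set (Wd X B) := {ω | ω.2.length ≤ n}

def gs (l : X.Λ) (n : ℕ) : Set (Wd X B) := {ω | ω.2.length < n ∨ (ω.2.length = n ∧ ends l ω.2)}

theorem ends_uniq {l l' : X.Λ} : ∀ {g : List (Lt X)}, ends l g → ends l' g → l = l'
  | [], h, _ => h.elim
  | _ :: _, h, h' => h.symm.trans h'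

theorem mem_both {α : Type*} {s s' : Set α} {x : α →₀ ℚ} (h : x ∈ supported ℚ ℚ s)
    (h' : x ∈ supported ℚ ℚ s') : x ∈ supported ℚ ℚ (s ∩ s') :=
  Set.subset_inter h h'

/-- the length filtration -/
def StdF : Filt (Std t) where
  F _ n := supported ℚ ℚ (fs n)
  G l _ n := supported ℚ ℚ (gs l n)
  G0 l v x _ h := by
    have : (gs l 0 : Set (Wd X B)) = ∅ := Set.eq_empty_of_forall_notMem (by
      rintro ⟨b, _ | _⟩ h
      · exact h.elim (lt_irrefl _) fun h => h.2
      · simp [gs] at h)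
    rwa [this, supported_empty] at h
  GF l v n := supported_mono fun ω h => h.elim le_of_lt fun h => h.1.le
  FG l v n := supported_mono fun ω h => Or.inl (Nat.lt_succ_of_le h)
  mono v n := supported_mono fun ω h => Nat.le_succ_of_le h
  π l u hu n x h1 h2 := π_in t Set.inter_subset_left
    (fun b g h _ e => by
      have := h.2
      simp only [gs, Set.mem_ofPred_eq, e, and_false, or_false] at this
      simp only [gs, Set.mem_ofPred_eq, List.length_cons, ends, and_true]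
      omega)
    (fun b g h => by
      have := h.2
      simp only [gs, Set.mem_ofPred_eq, List.length_cons] at this ⊢
      omega)
    (fun b g h => h.2) x (mem_both h1 h2)
  ι l u hu n x h1 h2 := ι_in t hu Set.inter_subset_left
    (fun b g h e => by
      have := h.2
      simp only [gs, Set.mem_ofPred_eq, e, and_false, or_false] at this
      simp only [gs, Set.mem_ofPred_eq, List.length_cons, ends, and_true]
      omega)
    (fun b g h => by
      have := h.2
      simp only [gs, Set.mem_ofPred_eq, List.length_cons] at this ⊢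
      omega)
    (fun b g h _ _ => h.2) x (mem_both h1 h2)
  K1 l u hu hl n (a : Wd X B →₀ ℚ) h1 h2 h3 := by
    rintro ⟨b, g⟩ hω
    by_contra hg
    have hn : g.length = n ∧ ¬ ends l g := by
      have := h2 hω
      simp only [gs, fs, Set.mem_ofPred_eq, not_or, not_and] at this hg
      exact ⟨by omega, hg.2 (by omega)⟩
    have : supported ℚ ℚ (vs t (X.w l) ∩ fs n) ≤ LinearMap.eqLocus
        (lapply (b, (l, u, Kd.P) :: g) ∘ₗ πm l u) (lapply (b, g)) := by
      refine sup_ind _ ?_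
      rintro ⟨b', g'⟩ h
      have hlen : g'.length ≤ n := h.2
      rw [LinearMap.mem_eqLocus, LinearMap.comp_apply, lapply_apply, lapply_apply]
      rcases case_w t h.1.1 h.1.2 with e | ⟨u', g'', rfl⟩ | ⟨u', g'', rfl⟩
      · rw [π_ne hl e]; simp [single_apply]
      · rw [π_I hl, single_eq_of_ne' (by rintro ⟨⟩; exact hn.2 rfl)]
        split_ifs
        · exact single_eq_of_ne' (by rintro ⟨⟩; simp at hlen; omega)
        · rfl
      · rw [π_R hl, single_eq_of_ne' (by rintro ⟨⟩; exact hn.2 rfl)]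
        split_ifs
        · exact single_eq_of_ne' (by rintro ⟨⟩; simp at hlen; omega)
        · rfl
    have h4 : πm l u a (b, (l, u, Kd.P) :: g) = a (b, g) := this (mem_both h1 h2)
    have h5 := h3 (mem_support_iff.2 (h4 ▸ mem_support_iff.1 hω))
    simp only [fs, Set.mem_ofPred_eq, List.length_cons] at h5
    omega
  K2 l v n x h1 h2 := by
    have : supported ℚ ℚ (fs n) ⊔ (⨆ j, ⨆ _ : j ≠ l, supported ℚ ℚ (gs j (n + 1))) ≤
        supported ℚ ℚ ({ω | ω.2.length ≤ n ∨ ¬ ends l ω.2} : Set (Wd X B)) :=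
      sup_le (supported_mono fun ω h => Or.inl h) (iSup₂_le fun j hj => supported_mono fun ω h =>
        h.elim (fun h => Or.inl (Nat.le_of_lt_succ h)) fun h => Or.inr fun e => hj (ends_uniq h.2 e))
    intro ω hω
    rcases this h2 hω with h | h
    · exact h
    · exact (h1 hω).elim Nat.le_of_lt_succ fun h' => absurd h'.2 h
  exh v x _ := ⟨x.support.sup fun ω => ω.2.length, fun ω h => le_sup (f := fun ω => ω.2.length) h⟩

end

variable {X : Sys.{u}}

theorem Std_lev (v₁ : X.V) (hl : X.live v₁) (v : X.V) :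
    (Std fun _ : PUnit.{u+1} => v₁).sub v ⊓ (StdF fun _ : PUnit.{u+1} => v₁).F v 0 =
      ⨆ _ : v = v₁, Submodule.span ℚ {gn (fun _ : PUnit.{u+1} => v₁) ⟨⟩} := by
  apply le_antisymm
  · intro x hx
    refine sup_ind _ ?_ (mem_both hx.1 hx.2)
    rintro ⟨b, g⟩ ⟨h1, h2⟩
    obtain rfl : g = [] := List.length_eq_zero_iff.1 (Nat.le_zero.1 h2)
    have h3 : v = v₁ := h1.2.symm
    have h4 : gn (fun _ : PUnit.{u+1} => v₁) ⟨⟩ ∈ ⨆ _ : v = v₁,
        Submodule.span ℚ {gn (fun _ : PUnit.{u+1} => v₁) ⟨⟩} :=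
      Submodule.mem_iSup_of_mem h3 (Submodule.mem_span_singleton_self _)
    exact h4
  · refine iSup_le ?_
    rintro rfl
    exact (Submodule.span_singleton_le_iff_mem _ _).2 ⟨single_mem_supported _ _ ⟨hl, rfl⟩,
      single_mem_supported _ _ (le_refl 0)⟩

theorem exists_T (X : Sys.{u}) : ∃ T : Mod X, ∀ v, X.live v → T.sub v ≠ ⊥ :=
  ⟨Std id, fun v hv => (Submodule.ne_bot_iff _).2
    ⟨sg v [], single_mem_supported _ _ ⟨hv, rfl⟩, single_ne_zero.2 one_ne_zero⟩⟩

/-- a module free on one generator determines the class of its type -/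
theorem free_inj {M : Mod X} {L : X.V → Submodule ℚ M.W} (hL : Cl M L) {v₁ v₂ : X.V}
    {z₁ z₂ : M.W} (l1 : X.live v₁) (l2 : X.live v₂)
    (h₁ : Free M L (fun _ : PUnit.{u+1} => v₁) fun _ => z₁)
    (h₂ : Free M L (fun _ : PUnit.{u+1} => v₂) fun _ => z₂)
    {N : Type*} [AddCommMonoid N] (val : X.V → N)
    (hv : ∀ l, val (X.w l) = ∑ u ∈ X.S l, val u) (hd : ∀ v, ¬ X.live v → val v = 0) :
    val v₁ = val v₂ := by
  have f1 := Std_free (fun _ : PUnit.{u+1} => v₁) fun _ => l1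
  have f2 := Std_free (fun _ : PUnit.{u+1} => v₂) fun _ => l2
  obtain ⟨φ, ψ, i1, -⟩ := h₁.iso f1 hL (cl_sub _)
  have f3 := h₂.trans i1
  obtain ⟨φ', ψ', i2, e⟩ := f3.iso f2 (cl_sub _) (cl_sub _)
  obtain ⟨T, hT⟩ := exists_T X
  refine inj_thm (StdF _) ((StdF _).pull i2) l1 l2 f1 f3 (Std_lev v₁ l1) (fun v => ?_) T hT val hv hd
  apply le_antisymm
  · intro x hx
    have h1 := (Std_lev v₂ l2 v).le (show φ' v x ∈ _ from ⟨i2.m1 v x hx.1, hx.2⟩)
    by_cases h : v = v₂
    · subst h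
      rw [iSup_pos rfl] at h1 ⊢
      obtain ⟨c, hc⟩ := Submodule.mem_span_singleton.1 h1
      rw [← i2.i1 v x hx.1, ← hc, ← e ⟨⟩, map_smul, i2.i1 v _ (f3.mem ⟨⟩)]
      exact Submodule.smul_mem _ _ (Submodule.mem_span_singleton_self _)
    · rw [iSup_neg h, Submodule.mem_bot] at h1 ⊢
      rw [← i2.i1 v x hx.1, h1, map_zero]
  · refine iSup_le ?_
    rintro rfl
    refine (Submodule.span_singleton_le_iff_mem _ _).2 ⟨f3.mem ⟨⟩, ?_⟩
    have : φ' v (φ v z₂) ∈ (StdF fun _ : PUnit.{u+1} => v).F v 0 := by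
      rw [e ⟨⟩]
      exact single_mem_supported _ _ (le_refl 0)
    exact this

end H60.VR
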