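import Mathlib

/-! Nonstable K-theory `V(R)` of a (non-unital) ring. -/

namespace H60.VR
universe u

/-- `e = xy`, `f = yx` for some rectangular matrices `x`, `y` -/
def Eqv {R : Type u} [NonUnitalRing R] {n m : Type} [Fintype n] [Fintype m]
    (e : Matrix n n R) (f : Matrix m m R) : Prop :=
  ∃ (x : Matrix n m R) (y : Matrix m n R), e = x * y ∧ f = y * x

/-- idempotent square matrices of all sizes -/
def Idm (R : Type u) [NonUnitalRing R] := Σ n : ℕ, {e : Matrix (Fin n) (Fin n) R // e * e = e}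

variable {R S : Type u} [NonUnitalRing R] [NonUnitalRing S]

theorem Eqv.symm {n m : Type} [Fintype n] [Fintype m] {e : Matrix n n R} {f : Matrix m m R}
    (h : Eqv e f) : Eqv f e := let ⟨x, y, h1, h2⟩ := h; ⟨y, x, h2, h1⟩

theorem Eqv.trans {n m k : Type} [Fintype n] [Fintype m] [Fintype k] {e : Matrix n n R}
    {f : Matrix m m R} {g : Matrix k k R} (he : e * e = e) (hg : g * g = g) (h : Eqv e f)
    (h' : Eqv f g) : Eqv e g := by
  obtain ⟨x, y, h1, h2⟩ := h
  obtain ⟨x', y', h3, h4⟩ := h'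
  refine ⟨x * x', y' * y, ?_, ?_⟩
  · rw [Matrix.mul_assoc, ← Matrix.mul_assoc x', ← h3, h2, Matrix.mul_assoc, ← Matrix.mul_assoc,
      ← h1, he]
  · rw [Matrix.mul_assoc, ← Matrix.mul_assoc y, ← h2, h3, Matrix.mul_assoc, ← Matrix.mul_assoc,
      ← h4, hg]

theorem eqv_equivalence : Equivalence fun e f : Idm R => Eqv e.2.1 f.2.1 :=
  ⟨fun e => ⟨e.2.1, e.2.1, e.2.2.symm, e.2.2.symm⟩, Eqv.symm,
    fun {e _ g} h h' => h.trans e.2.2 g.2.2 h'⟩

/-- equivalence of idempotents -/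
def eqvSetoid (R : Type u) [NonUnitalRing R] : Setoid (Idm R) :=
  ⟨fun e f => Eqv e.2.1 f.2.1, eqv_equivalence⟩

/-- the set `V(R)` -/
def VV (R : Type u) [NonUnitalRing R] := Quotient (eqvSetoid R)

/-- block diagonal matrix -/
def blk {n m n' m' : ℕ} (e : Matrix (Fin n) (Fin n') R) (f : Matrix (Fin m) (Fin m') R) :
    Matrix (Fin (n + m)) (Fin (n' + m')) R :=
  (Matrix.fromBlocks e 0 0 f).submatrix finSumFinEquiv.symm finSumFinEquiv.symm

theorem blk_mul {n m n' m' n'' m'' : ℕ} (e : Matrix (Fin n) (Fin n') R)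
    (f : Matrix (Fin m) (Fin m') R) (e' : Matrix (Fin n') (Fin n'') R)
    (f' : Matrix (Fin m') (Fin m'') R) : blk e f * blk e' f' = blk (e * e') (f * f') := by
  rw [blk, blk, Matrix.submatrix_mul_equiv, Matrix.fromBlocks_multiply, blk]
  simp

theorem blk_idem (e f : Idm R) : blk e.2.1 f.2.1 * blk e.2.1 f.2.1 = blk e.2.1 f.2.1 := by
  rw [blk_mul, e.2.2, f.2.2]

/-- block sum of idempotents -/
def dsum (e f : Idm R) : Idm R := ⟨e.1 + f.1, blk e.2.1 f.2.1, blk_idem e f⟩

theorem dsum_eqv ⦃e e' : Idm R⦄ (h : (eqvSetoid R).r e e') ⦃f f' : Idm R⦄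
    (h' : (eqvSetoid R).r f f') : (eqvSetoid R).r (dsum e f) (dsum e' f') := by
  obtain ⟨x, y, h1, h2⟩ := h
  obtain ⟨x', y', h3, h4⟩ := h'
  exact ⟨blk x x', blk y y', (congrArg₂ blk h1 h3).trans (blk_mul x x' y y').symm,
    (congrArg₂ blk h2 h4).trans (blk_mul y y' x x').symm⟩

/-- addition in `V(R)` -/
def VV.add : VV R → VV R → VV R := Quotient.map₂ dsum dsum_eqv

/-- neutral element of `V(R)` -/
def VV.zero (R : Type u) [NonUnitalRing R] : VV R := Quotient.mk _ ⟨1, 0, mul_zero 0⟩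

theorem map_idem (φ : R →ₙ+* S) (e : Idm R) : e.2.1.map φ * e.2.1.map φ = e.2.1.map φ := by
  rw [← Matrix.map_mul, e.2.2]

/-- entrywise image -/
def Idm.map (φ : R →ₙ+* S) (e : Idm R) : Idm S := ⟨e.1, e.2.1.map φ, map_idem φ e⟩

theorem map_eqv (φ : R →ₙ+* S) ⦃e e' : Idm R⦄ (h : (eqvSetoid R).r e e') :
    (eqvSetoid S).r (e.map φ) (e'.map φ) := by
  obtain ⟨x, y, h1, h2⟩ := h
  exact ⟨x.map φ, y.map φ, (congrArg (Matrix.map · φ) h1).trans Matrix.map_mul,
    (congrArg (Matrix.map · φ) h2).trans Matrix.map_mul⟩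

/-- `V(φ)` -/
def VV.map (φ : R →ₙ+* S) : VV R → VV S := Quotient.map (Idm.map φ) (map_eqv φ)

/-- a conical commutative monoid -/
structure CM where
  carrier : Type u
  [inst : AddCommMonoid carrier]
  conical : ∀ x y : carrier, x + y = 0 → x = 0 ∧ y = 0

/-- an associative, not necessarily unital ring -/
structure Rng where
  carrier : Type u
  [inst : NonUnitalRing carrier]

attribute [instance] CM.inst Rng.inst

theorem diag_eqv {M : Type*} [AddCommMonoid M] (η : M → R) (h0 : η 0 = 0)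
    (hi : ∀ x, η x * η x = η x)
    (ha : ∀ x y, ∃ X₁ X₂ Y₁ Y₂ : R, X₁ * Y₁ = η x ∧ X₂ * Y₂ = η y ∧ X₁ * Y₂ = 0 ∧ X₂ * Y₁ = 0 ∧
      Y₁ * X₁ + Y₂ * X₂ = η (x + y) ∧ Y₂ * η y = Y₂)
    {n : Type} [Fintype n] [DecidableEq n] (x : n → M) :
    Eqv (Matrix.diagonal fun a => η (x a)) (Matrix.diagonal fun _ : Fin 1 => η (∑ a, x a)) := by
  have key : ∀ s : Finset n, ∃ X Y : n → R,
      (∀ a ∈ s, ∀ b ∈ s, X a * Y b = if a = b then η (x a) else 0) ∧
      ∑ a ∈ s, Y a * X a = η (∑ a ∈ s, x a) := by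
    intro s
    induction s using Finset.induction_on with
    | empty => exact ⟨0, 0, by simp, by simp [h0]⟩
    | insert c s hc ih =>
      obtain ⟨X, Y, h1, h2⟩ := ih
      obtain ⟨X₁, X₂, Y₁, Y₂, p1, p2, p3, p4, p5, p6⟩ := ha (x c) (∑ a ∈ s, x a)
      have ne : ∀ a ∈ s, a ≠ c := fun a h e => hc (e ▸ h)
      refine ⟨fun a => if a = c then X₁ else X a * X₂, fun a => if a = c then Y₁ else Y₂ * Y a,
        fun a k b k' => ?_, ?_⟩
      · rcases Finset.mem_insert.1 k with rfl | h <;> rcases Finset.mem_insert.1 k' with rfl | h'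
        · simp [p1]
        · simp [ne b h', (ne b h').symm, ← mul_assoc, p3]
        · simp [ne a h, mul_assoc, p4]
        · simp only [ne a h, ne b h', if_false]
          rw [mul_assoc, ← mul_assoc X₂, p2, ← h2, Finset.sum_mul, Finset.mul_sum,
            Finset.sum_eq_single_of_mem a h]
          · rw [mul_assoc, ← mul_assoc (X a), h1 a h a h, h1 a h b h', if_pos rfl]
            split_ifs <;> simp [hi]
          · intro d hd hne
            rw [mul_assoc, ← mul_assoc (X a), h1 a h d hd, if_neg hne.symm, zero_mul]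
      · rw [Finset.sum_insert hc, Finset.sum_insert hc, ← p5]
        simp only [if_true]
        congr 1
        rw [show Y₂ * X₂ = Y₂ * η (∑ a ∈ s, x a) * X₂ by rw [p6], ← h2, Finset.mul_sum,
          Finset.sum_mul]
        refine Finset.sum_congr rfl fun a h => ?_
        simp only [ne a h, if_false, mul_assoc]
  obtain ⟨X, Y, h1, h2⟩ := key Finset.univ
  refine ⟨Matrix.of fun a _ => X a, Matrix.of fun _ a => Y a, ?_, ?_⟩
  · ext a b
    simp [Matrix.mul_apply, Matrix.diagonal_apply, h1]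
  · ext a b
    simp [Matrix.mul_apply, Matrix.diagonal_apply, h2, Subsingleton.elim a b]

end H60.VR
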