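import Pool.Agent.H60.VRd
import Pool.Agent.H60.VRe

/-! The ring attached to a pointed system, and matrices over it. -/

namespace H60.VR
open Finset
universe u v

noncomputable section

variable {X : Sys.{u}}

theorem Hom.add {M T : Mod X} {L : X.V → Submodule ℚ M.W} {φ ψ : X.V → M.W →ₗ[ℚ] T.W}
    (h1 : Hom M T L φ) (h2 : Hom M T L ψ) : Hom M T L fun v => φ v + ψ v :=
  ⟨fun v x hx => (T.sub v).add_mem (h1.mem v x hx) (h2.mem v x hx), fun l u hu x hx => by
    simp only [LinearMap.add_apply, map_add, h1.π l u hu x hx, h2.π l u hu x hx],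
    fun l u hu x hx => by
    simp only [LinearMap.add_apply, map_add, h1.ι l u hu x hx, h2.ι l u hu x hx]⟩

theorem Hom.sum {M T : Mod X} {L : X.V → Submodule ℚ M.W} {I : Type*} (s : Finset I)
    {φ : I → X.V → M.W →ₗ[ℚ] T.W} (h : ∀ i, Hom M T L (φ i)) : Hom M T L fun v => ∑ i ∈ s, φ i v :=
  ⟨fun v x hx => by
    rw [LinearMap.sum_apply]; exact Submodule.sum_mem _ fun i _ => (h i).mem v x hx,
    fun l u hu x hx => by simp only [LinearMap.sum_apply, map_sum, (h _).π l u hu x hx],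
    fun l u hu x hx => by simp only [LinearMap.sum_apply, map_sum, (h _).ι l u hu x hx]⟩

theorem Hom.cp {M T T' : Mod X} {L : X.V → Submodule ℚ M.W} {φ : X.V → M.W →ₗ[ℚ] T.W}
    {ψ : X.V → T.W →ₗ[ℚ] T'.W} (h1 : Hom M T L φ) (h2 : Hom T T' T.sub ψ) :
    Hom M T' L fun v => ψ v ∘ₗ φ v := h1.comp h2 h1.mem

theorem Free.reindex {M : Mod X} {L : X.V → Submodule ℚ M.W} {A : Type v} {A' : Type*}
    {t : A → X.V} {z : A → M.W} (h : Free M L t z) (e : A' ≃ A) : Free M L (t ∘ e) (z ∘ e) := by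
  refine ⟨fun a => h.mem _, fun T y hy => ?_, fun H h1 => h.gen H fun a => ?_⟩
  · obtain ⟨φ, p1, p2⟩ := h.ex T (y ∘ e.symm) fun a => by simpa using hy (e.symm a)
    exact ⟨φ, p1, fun a => by simpa using p2 (e a)⟩
  · simpa using h1 (e.symm a)

/-- powers -/
def Pw (M : Mod X) (n : Type) : Mod X where
  W := n → M.W
  sub v := Submodule.pi Set.univ fun _ => M.sub v
  π l u := (M.π l u).compLeft n
  ι l u := (M.ι l u).compLeft n
  dead v hv := eq_bot_iff.2 fun x hx => funext fun i => by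
    have := hx i trivial
    rwa [M.dead v hv] at this
  π_mem l u hu x hx i _ := M.π_mem l u hu _ (hx i trivial)
  ι_mem l u hu x hx i _ := M.ι_mem l u hu _ (hx i trivial)
  πι l u hu u' hu' y hy := funext fun i => (M.πι l u hu u' hu' _ (hy i trivial)).trans (by
    split_ifs <;> rfl)
  sum l x hx := funext fun i => (Finset.sum_apply _ _ _).trans (M.sum l _ (hx i trivial))

def Filt.pw {M : Mod X} (Φ : Filt M) (n : Type) [Fintype n] : Filt (Pw M n) where
  F v k := Submodule.pi Set.univ fun _ => Φ.F v k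
  G l v k := Submodule.pi Set.univ fun _ => Φ.G l v k
  G0 l v x hx h := funext fun i => Φ.G0 l v _ (hx i trivial) (h i trivial)
  GF l v k x hx i _ := Φ.GF l v k (hx i trivial)
  FG l v k x hx i _ := Φ.FG l v k (hx i trivial)
  mono v k x hx i _ := Φ.mono v k (hx i trivial)
  π l u hu k x hx h i _ := Φ.π l u hu k _ (hx i trivial) (h i trivial)
  ι l u hu k x hx h i _ := Φ.ι l u hu k _ (hx i trivial) (h i trivial)
  K1 l u hu hl k a h1 h2 h3 i _ := Φ.K1 l u hu hl k _ (h1 i trivial) (h2 i trivial) (h3 i trivial)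
  K2 l v k x h1 h2 i _ := by
    have : (Submodule.pi Set.univ fun _ => Φ.F v k) ⊔
        (⨆ j, ⨆ _ : j ≠ l, Submodule.pi Set.univ fun _ : n => Φ.G j v (k + 1)) ≤
        (Φ.F v k ⊔ (⨆ j, ⨆ _ : j ≠ l, Φ.G j v (k + 1))).comap (LinearMap.proj i) :=
      sup_le (fun y hy => Submodule.mem_sup_left (hy i trivial)) (iSup₂_le fun j hj y hy =>
        Submodule.mem_sup_right (Submodule.mem_iSup_of_mem j
          (Submodule.mem_iSup_of_mem hj (hy i trivial))))
    exact Φ.K2 l v k _ (h1 i trivial) (this h2)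
  exh v x hx := by
    choose k hk using fun i => Φ.exh v _ (hx i trivial)
    exact ⟨univ.sup k, fun i _ => F_mono Φ v (le_sup (mem_univ i)) (hk i)⟩

section
variable {M : Mod X} {n : Type}

def prj (M : Mod X) (i : n) : (Pw M n).W →ₗ[ℚ] M.W := LinearMap.proj i

def inc (M : Mod X) [DecidableEq n] (i : n) : M.W →ₗ[ℚ] (Pw M n).W :=
  LinearMap.single ℚ (fun _ => M.W) i

theorem prj_hom (i : n) : Hom (Pw M n) M (Pw M n).sub fun _ => prj M i :=
  ⟨fun _ _ hx => hx i trivial, fun _ _ _ _ _ => rfl, fun _ _ _ _ _ => rfl⟩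

theorem pw_ext {x y : (Pw M n).W} (h : ∀ i, prj M i x = prj M i y) : x = y := funext h

variable [DecidableEq n]

theorem prj_inc (i j : n) (x : M.W) : prj M i (inc M j x) = if i = j then x else 0 :=
  Pi.single_apply (M := M.W) j x i

theorem inc_hom (j : n) : Hom M (Pw M n) M.sub fun _ => inc M j := by
  refine ⟨fun v x hx i _ => ?_, fun l u _ x _ => pw_ext fun i => ?_,
    fun l u _ x _ => pw_ext fun i => ?_⟩
  · change prj M i (inc M j x) ∈ _
    rw [prj_inc]; split_ifs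
    exacts [hx, Submodule.zero_mem _]
  · change _ = M.π l u (prj M i (inc M j x))
    rw [prj_inc, prj_inc]; split_ifs <;> simp
  · change _ = M.ι l u (prj M i (inc M j x))
    rw [prj_inc, prj_inc]; split_ifs <;> simp

theorem sum_inc [Fintype n] (x : (Pw M n).W) : ∑ j, inc M j (prj M j x) = x :=
  pw_ext fun i => by simp [map_sum, prj_inc]

theorem pw_free [Fintype n] {o : X.V} {g : M.W}
    (h : Free M M.sub (fun _ : PUnit.{u+1} => o) fun _ => g) :
    Free (Pw M n) (Pw M n).sub (fun _ : n => o) fun j => inc M j g := by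
  refine ⟨fun j => (inc_hom j).mem _ _ (h.mem ⟨⟩), fun T y hy => ?_, fun H h1 h2 h3 v x hx => ?_⟩
  · choose φ p1 p2 using fun j => h.ex T (fun _ => y j) fun _ => hy j
    refine ⟨_, Hom.sum univ fun j => (prj_hom j).cp (p1 j), fun j => ?_⟩
    simp only [LinearMap.sum_apply, LinearMap.comp_apply, prj_inc]
    rw [Finset.sum_eq_single j, if_pos rfl, p2 j ⟨⟩]
    · intro i _ hi; rw [if_neg hi, map_zero]
    · simp
  · rw [← sum_inc x]
    refine Submodule.sum_mem _ fun j _ => h.gen (fun v => (H v).comap (inc M j)) (fun _ => h1 j)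
      (fun l u hu x hx h' => ?_) (fun l u hu x hx h' => ?_) v (hx j trivial)
    · rw [Submodule.mem_comap, (inc_hom j).π l u hu x hx]
      exact h2 l u hu _ ((inc_hom j).mem _ _ hx) h'
    · rw [Submodule.mem_comap, (inc_hom j).ι l u hu x hx]
      exact h3 l u hu _ ((inc_hom j).mem _ _ hx) h'

end

/-- operators given by paths -/
structure Pth (X : Sys.{u}) (a b : X.V) where
  f : ∀ T : Mod X, T.W →ₗ[ℚ] T.W
  cl : ∀ T H, Cl T H → ∀ y ∈ H a, f T y ∈ H b
  nat : ∀ T T' φ, Hom T T' T.sub φ → ∀ y ∈ T.sub a, φ b (f T y) = f T' (φ a y)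

def Pth.id (a : X.V) : Pth X a a := ⟨fun _ => LinearMap.id, fun _ _ _ _ h => h, fun _ _ _ _ _ _ => rfl⟩

def Pth.cp {a b c : X.V} (p : Pth X b c) (q : Pth X a b) : Pth X a c :=
  ⟨fun T => p.f T ∘ₗ q.f T, fun T H h y hy => p.cl T H h _ (q.cl T H h y hy),
    fun T T' φ h y hy => by
      simp only [LinearMap.comp_apply]
      rw [p.nat T T' φ h _ (q.cl T _ (cl_sub T) y hy), q.nat T T' φ h y hy]⟩

def Pth.π (l : X.Λ) (u : X.V) (hu : u ∈ X.S l) : Pth X (X.w l) u :=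
  ⟨fun T => T.π l u, fun _ _ h => h.π l u hu, fun _ _ _ h => h.π l u hu⟩

def Pth.ι (l : X.Λ) (u : X.V) (hu : u ∈ X.S l) : Pth X u (X.w l) :=
  ⟨fun T => T.ι l u, fun _ _ h => h.ι l u hu, fun _ _ _ h => h.ι l u hu⟩

theorem Pth.mem {a b : X.V} (p : Pth X a b) (T : Mod X) {y : T.W} (hy : y ∈ T.sub a) :
    p.f T y ∈ T.sub b := p.cl T _ (cl_sub T) y hy

/-- a pointed system with an augmentation module -/
structure PS where
  X : Sys.{u}
  o : X.V
  ho : X.live o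
  E : Mod X

variable (D : PS.{u})

def PS.P : Mod D.X := Std fun _ : PUnit.{u+1} => D.o

def PS.g : D.P.W := gn (fun _ : PUnit.{u+1} => D.o) ⟨⟩

theorem PS.free : Free D.P D.P.sub (fun _ : PUnit.{u+1} => D.o) fun _ => D.g :=
  Std_free _ fun _ => D.ho

theorem PS.g_mem : D.g ∈ D.P.sub D.o := D.free.mem ⟨⟩

theorem PS.ex (T : Mod D.X) (y : T.W) : ∃ φ, y ∈ T.sub D.o → Hom D.P T D.P.sub φ ∧ φ D.o D.g = y := by
  by_cases h : y ∈ T.sub D.o
  · obtain ⟨φ, p1, p2⟩ := D.free.ex T (fun _ => y) fun _ => h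
    exact ⟨φ, fun _ => ⟨p1, p2 ⟨⟩⟩⟩
  · exact ⟨0, fun h' => absurd h' h⟩

def PS.lift (T : Mod D.X) (y : T.W) : D.X.V → D.P.W →ₗ[ℚ] T.W := (D.ex T y).choose

variable {D}

theorem lift_hom {T : Mod D.X} {y : T.W} (h : y ∈ T.sub D.o) : Hom D.P T D.P.sub (D.lift T y) :=
  ((D.ex T y).choose_spec h).1

theorem lift_g {T : Mod D.X} {y : T.W} (h : y ∈ T.sub D.o) : D.lift T y D.o D.g = y :=
  ((D.ex T y).choose_spec h).2

theorem P_ext {T : Mod D.X} {φ ψ} (h1 : Hom D.P T D.P.sub φ) (h2 : Hom D.P T D.P.sub ψ)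
    (h : φ D.o D.g = ψ D.o D.g) : ∀ v, ∀ x ∈ D.P.sub v, φ v x = ψ v x :=
  D.free.uniq h1 h2 fun _ => h

variable (D) in
/-- the augmentation ideal -/
def PS.I : Submodule ℚ D.P.W where
  carrier := {x | x ∈ D.P.sub D.o ∧ ∀ ψ, Hom D.P D.E D.P.sub ψ → ψ D.o x = 0}
  zero_mem' := ⟨Submodule.zero_mem _, fun _ _ => map_zero _⟩
  add_mem' h h' := ⟨Submodule.add_mem _ h.1 h'.1, fun ψ hψ => by
    rw [map_add, h.2 ψ hψ, h'.2 ψ hψ, add_zero]⟩
  smul_mem' c x h := ⟨Submodule.smul_mem _ c h.1, fun ψ hψ => by rw [map_smul, h.2 ψ hψ, smul_zero]⟩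

variable (D) in
/-- the ring -/
def PS.R : Type u := D.I

instance : AddCommGroup D.R := inferInstanceAs (AddCommGroup D.I)

def val (x : D.R) : D.P.W := Subtype.val (p := fun x => x ∈ D.I) x

theorem val_I (x : D.R) : val x ∈ D.I := Subtype.property (p := fun x => x ∈ D.I) x

theorem val_mem (x : D.R) : val x ∈ D.P.sub D.o := (val_I x).1

theorem val_ext {x y : D.R} (h : val x = val y) : x = y := Subtype.ext h

def mkR (x : D.P.W) (h : x ∈ D.I) : D.R := Subtype.mk (p := fun x => x ∈ D.I) x h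

def valH : D.R →+ D.P.W := ⟨⟨val, rfl⟩, fun _ _ => rfl⟩

def act (x : D.R) : D.X.V → D.P.W →ₗ[ℚ] D.P.W := D.lift D.P (val x)

theorem act_hom (x : D.R) : Hom D.P D.P D.P.sub (act x) := lift_hom (val_mem x)

theorem act_g (x : D.R) : act x D.o D.g = val x := lift_g (val_mem x)

instance : Mul D.R := ⟨fun x y => mkR (act x D.o (val y)) ⟨(act_hom x).mem _ _ (val_mem y),
  fun _ h => (val_I y).2 _ ((act_hom x).cp h)⟩⟩

theorem val_mul (x y : D.R) : val (x * y) = act x D.o (val y) := rfl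

instance : NonUnitalRing D.R where
  left_distrib x y z := val_ext (map_add (act x D.o) (val y) (val z))
  right_distrib x y z := val_ext (P_ext (act_hom (x + y)) ((act_hom x).add (act_hom y))
    (by rw [act_g, LinearMap.add_apply, act_g, act_g]; rfl) _ _ (val_mem z))
  zero_mul x := val_ext (P_ext (act_hom 0) hom_zero (act_g 0) _ _ (val_mem x))
  mul_zero x := val_ext (map_zero (act x D.o))
  mul_assoc x y z := val_ext (P_ext (act_hom (x * y)) ((act_hom y).cp (act_hom x))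
    (by rw [act_g, LinearMap.comp_apply, act_g]; rfl) _ _ (val_mem z))

theorem mul_pth (x y : D.R) (p : Pth D.X D.o D.o) (h : val y = p.f _ D.g) :
    val (x * y) = p.f _ (val x) := by
  rw [val_mul, h, p.nat _ _ _ (act_hom x) _ D.g_mem, act_g]

theorem pth_I {v : D.X.V} (hv : D.E.sub v = ⊥) (s : Pth D.X v D.o) {y : D.P.W}
    (hy : y ∈ D.P.sub v) : s.f _ y ∈ D.I := ⟨s.mem _ hy, fun ψ h => by
  have := h.mem v y hy
  rw [hv, Submodule.mem_bot] at this
  rw [s.nat _ _ _ h y hy, this, map_zero]⟩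

variable {n m k : Type} [Fintype n] [Fintype m] [Fintype k] [DecidableEq n] [DecidableEq m]
  [DecidableEq k]

/-- the homomorphism of a matrix -/
def hat (e : Matrix n m D.R) (v : D.X.V) : (Pw D.P m).W →ₗ[ℚ] (Pw D.P n).W :=
  ∑ i, ∑ j, inc D.P i ∘ₗ act (e i j) v ∘ₗ prj D.P j

omit [DecidableEq m] in
theorem hat_hom (e : Matrix n m D.R) : Hom (Pw D.P m) (Pw D.P n) (Pw D.P m).sub (hat e) :=
  Hom.sum univ fun i => Hom.sum univ fun j => ((prj_hom j).cp (act_hom _)).cp (inc_hom i)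

omit [DecidableEq m] in
theorem prj_hat (e : Matrix n m D.R) (v : D.X.V) (i : n) (x : (Pw D.P m).W) :
    prj D.P i (hat e v x) = ∑ j, act (e i j) v (prj D.P j x) := by
  simp only [hat, LinearMap.sum_apply, LinearMap.comp_apply, map_sum, prj_inc]
  rw [Finset.sum_eq_single i] <;> simp +contextual [eq_comm]

theorem hat_g (e : Matrix n m D.R) (i : n) (j : m) :
    prj D.P i (hat e D.o (inc D.P j D.g)) = val (e i j) := by
  rw [prj_hat, Finset.sum_eq_single j, prj_inc, if_pos rfl, act_g]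
  · intro i _ hi; rw [prj_inc, if_neg hi, map_zero]
  · simp

omit [Fintype m] in
theorem g_mem (j : m) : inc D.P j D.g ∈ (Pw D.P m).sub D.o := (inc_hom j).mem _ _ D.g_mem

theorem Pw_ext {T : Mod D.X} {φ ψ} (h1 : Hom (Pw D.P m) T (Pw D.P m).sub φ)
    (h2 : Hom (Pw D.P m) T (Pw D.P m).sub ψ)
    (h : ∀ j, φ D.o (inc D.P j D.g) = ψ D.o (inc D.P j D.g)) :
    ∀ v, ∀ x ∈ (Pw D.P m).sub v, φ v x = ψ v x := (pw_free D.free).uniq h1 h2 h

theorem hat_mul (e : Matrix n m D.R) (f : Matrix m k D.R) :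
    ∀ v, ∀ x ∈ (Pw D.P k).sub v, hat (e * f) v x = hat e v (hat f v x) :=
  Pw_ext (hat_hom _) ((hat_hom f).cp (hat_hom e)) fun j => pw_ext fun i => by
    rw [hat_g, LinearMap.comp_apply, prj_hat, Matrix.mul_apply]
    simp only [hat_g]
    exact map_sum valH _ _

theorem hat_inj {e f : Matrix n m D.R}
    (h : ∀ j, hat e D.o (inc D.P j D.g) = hat f D.o (inc D.P j D.g)) : e = f := by
  ext i j
  exact val_ext (by rw [← hat_g, h, hat_g])

theorem kill (f : Matrix n m D.R) {ρ} (h : Hom (Pw D.P n) D.E (Pw D.P n).sub ρ) (j : m) :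
    ρ D.o (hat f D.o (inc D.P j D.g)) = 0 := by
  rw [← sum_inc (hat f D.o _), map_sum]
  exact Finset.sum_eq_zero fun i _ => by
    rw [hat_g]; exact (val_I _).2 _ ((inc_hom i).cp h)

/-- fixed points -/
def Fix (e : Matrix n n D.R) (v : D.X.V) : Submodule ℚ (Pw D.P n).W :=
  (Pw D.P n).sub v ⊓ LinearMap.eqLocus (hat e v) LinearMap.id

theorem Fix_cl (e : Matrix n n D.R) : Cl (Pw D.P n) (Fix e) :=
  ⟨fun _ => inf_le_left, fun l u hu x hx => ⟨(Pw D.P n).π_mem l u hu x hx.1,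
    ((hat_hom e).π l u hu x hx.1).trans (congrArg _ hx.2)⟩, fun l u hu x hx =>
    ⟨(Pw D.P n).ι_mem l u hu x hx.1, ((hat_hom e).ι l u hu x hx.1).trans (congrArg _ hx.2)⟩⟩

theorem hat_Fix {e : Matrix n n D.R} (he : e * e = e) :
    ∀ v, ∀ x ∈ (Pw D.P n).sub v, hat e v x ∈ Fix e v := fun v x hx =>
  ⟨(hat_hom e).mem v x hx, (hat_mul e e v x hx).symm.trans (by rw [he]; rfl)⟩

theorem exists_mat {f : Matrix m m D.R} (hf : f * f = f) {ψ}
    (h : Hom (Pw D.P m) (Pw D.P n) (Fix f) ψ) :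
    ∃ x : Matrix n m D.R, ∀ v, ∀ a ∈ (Pw D.P m).sub v, hat x v a = ψ v (hat f v a) := by
  have h1 := (hat_hom f).comp h (hat_Fix hf)
  refine ⟨fun i j => mkR (prj D.P i (ψ D.o (hat f D.o (inc D.P j D.g))))
    ⟨(h1.cp (prj_hom i)).mem _ _ (g_mem j), fun χ hχ => ?_⟩,
    Pw_ext (hat_hom _) h1 fun j => pw_ext fun i => hat_g _ i j⟩
  have := kill f ((h1.cp (prj_hom i)).cp hχ) j
  simp only [LinearMap.comp_apply] at this
  rwa [show hat f D.o (hat f D.o (inc D.P j D.g)) = _ from (hat_Fix hf _ _ (g_mem j)).2] at this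

theorem eqv_of_iso {e : Matrix n n D.R} {f : Matrix m m D.R} (he : e * e = e) (hf : f * f = f)
    {φ ψ} (h : Iso (Pw D.P n) (Pw D.P m) (Fix e) (Fix f) φ ψ) : Eqv e f := by
  obtain ⟨x, hx⟩ := exists_mat hf h.h2
  obtain ⟨y, hy⟩ := exists_mat he h.h1
  refine ⟨x, y, hat_inj fun j => ?_, hat_inj fun j => ?_⟩
  · have h1 := hat_Fix he _ _ (g_mem (D := D) j)
    have h2 := h.m1 _ _ h1
    rw [hat_mul _ _ _ _ (g_mem j), hy _ _ (g_mem j), hx _ _ h2.1,
      show hat f D.o _ = _ from h2.2, LinearMap.id_apply, h.i1 _ _ h1]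
  · have h1 := hat_Fix hf _ _ (g_mem (D := D) j)
    have h2 := h.m2 _ _ h1
    rw [hat_mul _ _ _ _ (g_mem j), hx _ _ (g_mem j), hy _ _ h2.1,
      show hat e D.o _ = _ from h2.2, LinearMap.id_apply, h.i2 _ _ h1]

theorem iso_of_eqv {e : Matrix n n D.R} {f : Matrix m m D.R} (h : Eqv e f) :
    ∃ φ ψ, Iso (Pw D.P n) (Pw D.P m) (Fix e) (Fix f) φ ψ := by
  obtain ⟨x, y, rfl, rfl⟩ := h
  have i1 : ∀ v, ∀ a ∈ Fix (x * y) v, hat x v (hat y v a) = a := fun v a ha =>
    (hat_mul x y v a ha.1).symm.trans ha.2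
  have i2 : ∀ v, ∀ a ∈ Fix (y * x) v, hat y v (hat x v a) = a := fun v a ha =>
    (hat_mul y x v a ha.1).symm.trans ha.2
  exact ⟨hat y, hat x, (hat_hom y).mono fun _ => inf_le_left, (hat_hom x).mono fun _ => inf_le_left,
    fun v a ha => ⟨(hat_hom y).mem v a ha.1, (hat_mul y x v _ ((hat_hom y).mem v a ha.1)).trans
      (congrArg _ (i1 v a ha))⟩,
    fun v a ha => ⟨(hat_hom x).mem v a ha.1, (hat_mul x y v _ ((hat_hom x).mem v a ha.1)).trans
      (congrArg _ (i2 v a ha))⟩, i1, i2⟩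

theorem diag_free (t : n → D.X.V) (s : ∀ a, Pth D.X (t a) D.o) (r : ∀ a, Pth D.X D.o (t a))
    (hrs : ∀ a T, ∀ y ∈ T.sub (t a), (r a).f T ((s a).f T y) = y) (ε : n → D.R)
    (hε : ∀ a, val (ε a) = (s a).f _ ((r a).f _ D.g)) :
    Free (Pw D.P n) (Fix (Matrix.diagonal ε)) t fun a => inc D.P a ((r a).f _ D.g) := by
  have e1 : ∀ a, hat (Matrix.diagonal ε) D.o (inc D.P a D.g) = inc D.P a (val (ε a)) := fun a =>
    pw_ext fun i => by
      rw [hat_g, prj_inc, Matrix.diagonal_apply]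
      split_ifs with h
      · rw [h]
      · rfl
  have m1 : ∀ a, (r a).f _ D.g ∈ D.P.sub (t a) := fun a => (r a).mem _ D.g_mem
  have m : ∀ a, inc D.P a ((r a).f _ D.g) ∈ Fix (Matrix.diagonal ε) (t a) := fun a =>
    ⟨(inc_hom a).mem _ _ (m1 a), by
      have := (r a).nat _ _ _ ((inc_hom a).cp (hat_hom (Matrix.diagonal ε))) _ D.g_mem
      simp only [LinearMap.comp_apply] at this
      change hat _ _ _ = _
      rw [this, e1, ← (r a).nat _ _ _ (inc_hom a) _ (val_mem _), hε,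
        hrs a _ _ (m1 a)]
      rfl⟩
  have hi : Matrix.diagonal ε * Matrix.diagonal ε = Matrix.diagonal ε := by
    rw [Matrix.diagonal_mul_diagonal]
    congr 1; funext a
    refine val_ext ((mul_pth _ _ ((s a).cp (r a)) (hε a)).trans ?_)
    change (s a).f _ ((r a).f _ _) = _
    rw [hε, hrs a _ _ (m1 a)]
  refine ⟨m, fun T y hy => ?_, fun H h1 h2 h3 v x hx => ?_⟩
  · obtain ⟨φ, p1, p2⟩ := (pw_free (n := n) D.free).ex T (fun a => (s a).f T (y a))
      fun a => (s a).mem T (hy a)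
    refine ⟨φ, p1.mono fun _ => inf_le_left, fun a => ?_⟩
    have := (r a).nat _ _ _ ((inc_hom a).cp p1) _ D.g_mem
    simp only [LinearMap.comp_apply] at this
    rw [this, p2, hrs a T _ (hy a)]
  · have hc : Cl (Pw D.P n) fun v => Fix (Matrix.diagonal ε) v ⊓ H v :=
      ⟨fun _ => inf_le_left.trans inf_le_left,
        fun l u hu x hx => ⟨(Fix_cl _).π l u hu x hx.1, h2 l u hu x hx.1 hx.2⟩,
        fun l u hu x hx => ⟨(Fix_cl _).ι l u hu x hx.1, h3 l u hu x hx.1 hx.2⟩⟩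
    have := (pw_free (n := n) D.free).maps (hat_hom (Matrix.diagonal ε)) hc (fun a => by
      rw [e1, hε, (s a).nat _ _ _ (inc_hom a) _ (m1 a)]
      exact (s a).cl _ _ hc _ ⟨m a, h1 a⟩) v x hx.1
    rw [show hat (Matrix.diagonal ε) v x = x from hx.2] at this
    exact this.2

theorem idem_free {e : Matrix n n D.R} (he : e * e = e) :
    ∃ (k : ℕ) (t : Fin k → D.X.V) (z : Fin k → (Pw D.P n).W), Free (Pw D.P n) (Fix e) t z ∧
      ∀ a, D.E.sub (t a) = ⊥ := by
  classical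
  obtain ⟨A, t, z, h⟩ := struct_thm (M := Pw D.P n) (Filt.pw (M := D.P) (StdF _) n) (Fix_cl e)
  have h' := h.live (Fix_cl e)
  obtain ⟨T, hT⟩ := exists_T D.X
  have van : ∀ (T : Mod D.X) φ, Hom (Pw D.P n) T (Fix e) φ →
      (∀ j, φ D.o (hat e D.o (inc D.P j D.g)) = 0) → ∀ v, ∀ x ∈ Fix e v, φ v x = 0 := by
    intro T φ hφ h0 v x hx
    have := Pw_ext ((hat_hom e).comp hφ (hat_Fix he)) hom_zero h0 v x hx.1
    rwa [LinearMap.comp_apply, show hat e v x = x from hx.2] at this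
  have := h'.finite (fun a => a.2) T hT (fun _ : n => D.o) (fun j => hat e D.o (inc D.P j D.g))
    (fun j => hat_Fix he _ _ (g_mem j)) (van T)
  obtain ⟨k, ⟨σ⟩⟩ := Finite.exists_equiv_fin {a // D.X.live (t a)}
  refine ⟨k, _, _, h'.reindex σ.symm, fun a => eq_bot_iff.2 fun τ hτ => ?_⟩
  obtain ⟨φ, p1, p2⟩ := h.ex D.E (fun a' => if a' = (σ.symm a).1 then τ else 0) fun a' => by
    split_ifs with h
    exacts [h ▸ hτ, Submodule.zero_mem _]
  have := van _ φ p1 (fun j => by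
    have := kill e ((hat_hom e).comp p1 (hat_Fix he)) j
    rwa [LinearMap.comp_apply, show hat e D.o (hat e D.o _) = _ from
      (hat_Fix he _ _ (g_mem j)).2] at this) _ _ (h.mem (σ.symm a).1)
  rwa [p2, if_pos rfl] at this

theorem free_inj' {M : Mod X} {L : X.V → Submodule ℚ M.W} (hL : Cl M L) {v₁ v₂ : X.V}
    {z₁ z₂ : Fin 1 → M.W} (h₁ : Free M L (fun _ : Fin 1 => v₁) z₁)
    (h₂ : Free M L (fun _ : Fin 1 => v₂) z₂)
    {N : Type*} [AddCommMonoid N] (val : X.V → N)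
    (hv : ∀ l, val (X.w l) = ∑ u ∈ X.S l, val u) (hd : ∀ v, ¬ X.live v → val v = 0) :
    val v₁ = val v₂ := by
  have key : ∀ {v₁ v₂ : X.V} {z₁ z₂ : Fin 1 → M.W}, Free M L (fun _ : Fin 1 => v₁) z₁ →
      Free M L (fun _ : Fin 1 => v₂) z₂ → X.live v₂ → X.live v₁ := by
    intro v₁ v₂ z₁ z₂ h₁ h₂ l2
    by_contra l1
    obtain ⟨T, hT⟩ := exists_T X
    obtain ⟨τ, t1, t2⟩ := (Submodule.ne_bot_iff _).1 (hT _ l2)
    obtain ⟨φ, p1, p2⟩ := h₂.ex T (fun _ => τ) fun _ => t1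
    refine t2 ((p2 0).symm.trans (h₁.uniq p1 hom_zero (fun a => ?_) _ _ (h₂.mem 0)))
    have := hL.le _ (h₁.mem a)
    rw [M.dead _ l1, Submodule.mem_bot] at this
    rw [this, map_zero, map_zero]
  by_cases l1 : X.live v₁
  · exact free_inj (z₁ := z₁ 0) (z₂ := z₂ 0) hL l1 (key h₂ h₁ l1)
      (h₁.reindex (Equiv.ofUnique PUnit.{u+1} _)) (h₂.reindex (Equiv.ofUnique PUnit.{u+1} _))
      val hv hd
  · rw [hd _ l1, hd _ fun l2 => l1 (key h₁ h₂ l2)]

end

end H60.VR
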