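import Pool.Agent.H60.VRf

/-! The functor from conical commutative monoids to rings. -/

namespace H60.VR
open Finset
universe u

noncomputable section
open Classical

inductive Vx (M : Type u) : Type u
  | o | q (x : M) | p (x : M) (i : Fin 3)

inductive Lx (M : Type u) : Type u
  | c (x : M) | a (x : M) (i : Fin 2) | s (x y : M)

variable (M : CM.{u})

def wx : Lx M.carrier → Vx M.carrier
  | .c _ => .o
  | .a x i => .p x i.succ
  | .s x y => .p (x + y) 2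

def Sx : Lx M.carrier → Finset (Vx M.carrier)
  | .c x => {.q x, .p x 0}
  | .a x _ => {.p x 0}
  | .s x y => {.p x 0, .p y 1}

def lv : Vx M.carrier → Prop
  | .p x _ => x ≠ 0
  | _ => True

abbrev sys : Sys.{u} where
  V := Vx M.carrier
  Λ := Lx M.carrier
  w := wx M
  S := Sx M
  live := lv M
  hw := by rintro (x | ⟨x, i⟩ | ⟨x, y⟩) <;> simp [wx, Sx, Fin.succ_ne_zero]
  hlive := by
    rintro (x | ⟨x, i⟩ | ⟨x, y⟩)
    · simp [wx, Sx, lv]
    · simp [wx, Sx, lv]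
    · simp only [wx, Sx, lv, mem_insert, mem_singleton, exists_eq_or_imp, exists_eq_left]
      constructor
      · intro h
        by_contra h'
        push Not at h'
        exact h (by rw [h'.1, h'.2, add_zero])
      · rintro (h | h) h'
        exacts [h (M.conical x y h').1, h (M.conical x y h').2]

def eS {M : Type u} : Vx M → Submodule ℚ (ULift.{u} ℚ)
  | .p _ _ => ⊥
  | _ => ⊤

def eP {M : Type u} : Vx M → ULift.{u} ℚ →ₗ[ℚ] ULift.{u} ℚ
  | .q _ => LinearMap.id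
  | _ => 0

def aug : Mod (sys M) where
  W := ULift.{u} ℚ
  sub := eS
  π _ := eP
  ι _ := eP
  dead := by rintro (_ | x | ⟨x, i⟩) h <;> first | rfl | exact absurd trivial h
  π_mem := by rintro l (_ | x | ⟨x, i⟩) _ y _ <;> simp [eS, eP]
  ι_mem := by
    rintro (x | ⟨x, i⟩ | ⟨x, y⟩) (_ | x | ⟨x, i⟩) h y _ <;> simp [Sx, wx, eS, eP] at h ⊢
  πι := by
    rintro (x | ⟨x, i⟩ | ⟨x, y⟩) (_ | x | ⟨x, i⟩) h (_ | x | ⟨x, i⟩) h' y hy <;>
      simp_all [Sx, eS, eP]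
  sum := by
    rintro (x | ⟨x, i⟩ | ⟨x, y⟩) z hz
    · exact (Finset.sum_pair (by simp)).trans (by simp [eP])
    · obtain rfl : z = 0 := hz
      simp
    · obtain rfl : z = 0 := hz
      simp

abbrev ps : PS.{u} := ⟨sys M, .o, trivial, aug M⟩

variable {M}

theorem m1 (x : M.carrier) : Vx.p x 0 ∈ (sys M).S (.c x) := by simp [Sx]
theorem m2 (x : M.carrier) (i : Fin 2) : Vx.p x 0 ∈ (sys M).S (.a x i) := by simp [Sx]
theorem m3 (x y : M.carrier) : Vx.p x 0 ∈ (sys M).S (.s x y) := by simp [Sx]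
theorem m4 (x y : M.carrier) : Vx.p y 1 ∈ (sys M).S (.s x y) := by simp [Sx]

def s0 (x : M.carrier) : Pth (sys M) (.p x 0) .o := Pth.ι (X := sys M) (.c x) _ (m1 x)
def r0 (x : M.carrier) : Pth (sys M) .o (.p x 0) := Pth.π (X := sys M) (.c x) _ (m1 x)
def dn (x : M.carrier) (i : Fin 2) : Pth (sys M) (.p x i.succ) (.p x 0) := Pth.π (X := sys M) (.a x i) _ (m2 x i)
def up (x : M.carrier) (i : Fin 2) : Pth (sys M) (.p x 0) (.p x i.succ) := Pth.ι (X := sys M) (.a x i) _ (m2 x i)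

theorem r0s0 (T : Mod (sys M)) (x : M.carrier) {y : T.W} (hy : y ∈ T.sub (.p x 0)) :
    (r0 x).f T ((s0 x).f T y) = y := (T.πι _ _ (m1 x) _ (m1 x) y hy).trans (if_pos rfl)

theorem dnup (T : Mod (sys M)) (x : M.carrier) (i : Fin 2) {y : T.W} (hy : y ∈ T.sub (.p x 0)) :
    (dn x i).f T ((up x i).f T y) = y := (T.πι _ _ (m2 x i) _ (m2 x i) y hy).trans (if_pos rfl)

theorem updn (T : Mod (sys M)) (x : M.carrier) (i : Fin 2) {y : T.W}
    (hy : y ∈ T.sub (.p x i.succ)) : (up x i).f T ((dn x i).f T y) = y :=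
  (Finset.sum_singleton (fun u => T.ι (.a x i) u (T.π (.a x i) u y)) _).symm.trans
    (T.sum (.a x i) y hy)

/-- ring element of a path through `p x 0` -/
def el (x : M.carrier) (ω : Pth (sys M) .o (.p x 0)) : (ps M).R :=
  mkR ((s0 x).f _ (ω.f _ (ps M).g)) (pth_I (D := ps M) rfl (s0 x) (ω.mem _ (ps M).g_mem))

def η (x : M.carrier) : (ps M).R := el x (r0 x)

theorem el_mul (x y : M.carrier) (ω : Pth (sys M) .o (.p x 0)) (ω' : Pth (sys M) .o (.p y 0)) :
    val (el x ω * el y ω') = (s0 y).f _ (ω'.f _ ((s0 x).f _ (ω.f _ (ps M).g))) :=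
  mul_pth (D := ps M) _ _ ((s0 y).cp ω') rfl

theorem η_idem (x : M.carrier) : η x * η x = η x := val_ext (by
  rw [η, el_mul, r0s0 _ _ ((r0 x).mem _ (ps M).g_mem)]; rfl)

theorem η_zero : η (0 : M.carrier) = 0 := val_ext (by
  have := (r0 (0 : M.carrier)).mem _ (ps M).g_mem
  rw [Mod.dead _ _ (by simp [lv]), Submodule.mem_bot] at this
  change (s0 0).f _ ((r0 0).f _ _) = 0
  rw [this, map_zero])

theorem η_add (x y : M.carrier) : ∃ X₁ X₂ Y₁ Y₂ : (ps M).R, X₁ * Y₁ = η x ∧ X₂ * Y₂ = η y ∧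
    X₁ * Y₂ = 0 ∧ X₂ * Y₁ = 0 ∧ Y₁ * X₁ + Y₂ * X₂ = η (x + y) ∧ Y₂ * η y = Y₂ := by
  let i₁ : Pth (sys M) (.p x 0) (.p (x + y) 2) := Pth.ι (X := sys M) (.s x y) _ (m3 x y)
  let i₂ : Pth (sys M) (.p y 1) (.p (x + y) 2) := Pth.ι (X := sys M) (.s x y) _ (m4 x y)
  let p₁ : Pth (sys M) (.p (x + y) 2) (.p x 0) := Pth.π (X := sys M) (.s x y) _ (m3 x y)
  let p₂ : Pth (sys M) (.p (x + y) 2) (.p y 1) := Pth.π (X := sys M) (.s x y) _ (m4 x y)
  let a₁ := (dn (x + y) 1).cp (i₁.cp (r0 x))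
  let a₂ := (dn (x + y) 1).cp (i₂.cp ((up y 0).cp (r0 y)))
  let b₁ := p₁.cp ((up (x + y) 1).cp (r0 (x + y)))
  let b₂ := (dn y 0).cp (p₂.cp ((up (x + y) 1).cp (r0 (x + y))))
  have hg := (ps M).g_mem
  have c1 := (r0 x).mem _ hg
  have c2 := (up y 0).mem _ ((r0 y).mem _ hg)
  have c3 := (up (x + y) 1).mem _ ((r0 (x + y)).mem _ hg)
  have k1 : (up (x + y) 1).f _ ((r0 (x + y)).f _ ((s0 (x + y)).f _ (a₁.f _ (ps M).g))) =
      i₁.f _ ((r0 x).f _ (ps M).g) := by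
    rw [r0s0 _ _ (a₁.mem _ hg)]; exact updn _ _ _ (i₁.mem _ c1)
  have k2 : (up (x + y) 1).f _ ((r0 (x + y)).f _ ((s0 (x + y)).f _ (a₂.f _ (ps M).g))) =
      i₂.f _ ((up y 0).f _ ((r0 y).f _ (ps M).g)) := by
    rw [r0s0 _ _ (a₂.mem _ hg)]; exact updn _ _ _ (i₂.mem _ c2)
  refine ⟨el _ a₁, el _ a₂, el _ b₁, el _ b₂, val_ext ?_, val_ext ?_, val_ext ?_, val_ext ?_,
    val_ext ?_, val_ext ?_⟩
  · rw [el_mul]
    change (s0 x).f _ (p₁.f _ ((up (x + y) 1).f _ ((r0 (x + y)).f _ _))) = _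
    rw [k1, show p₁.f _ (i₁.f _ _) = _ from
      (Mod.πι _ _ _ (m3 x y) _ (m3 x y) _ c1).trans (if_pos rfl)]
    rfl
  · rw [el_mul]
    change (s0 y).f _ ((dn y 0).f _ (p₂.f _ ((up (x + y) 1).f _ ((r0 (x + y)).f _ _)))) = _
    rw [k2, show p₂.f _ (i₂.f _ _) = _ from
      (Mod.πι _ _ _ (m4 x y) _ (m4 x y) _ c2).trans (if_pos rfl), dnup _ _ _ ((r0 y).mem _ hg)]
    rfl
  · rw [el_mul]
    change (s0 y).f _ ((dn y 0).f _ (p₂.f _ ((up (x + y) 1).f _ ((r0 (x + y)).f _ _)))) = _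
    rw [k1, show p₂.f _ (i₁.f _ _) = _ from
      (Mod.πι _ _ _ (m4 x y) _ (m3 x y) _ c1).trans (if_neg (by simp)), map_zero, map_zero]
    rfl
  · rw [el_mul]
    change (s0 x).f _ (p₁.f _ ((up (x + y) 1).f _ ((r0 (x + y)).f _ _))) = _
    rw [k2, show p₁.f _ (i₂.f _ _) = _ from
      (Mod.πι _ _ _ (m3 x y) _ (m4 x y) _ c2).trans (if_neg (by simp)), map_zero]
    rfl
  · change val _ + val _ = _
    rw [el_mul, el_mul]
    change (s0 _).f _ ((dn _ 1).f _ (i₁.f _ ((r0 x).f _ _))) +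
      (s0 _).f _ ((dn _ 1).f _ (i₂.f _ ((up y 0).f _ ((r0 y).f _ _)))) = _
    rw [r0s0 _ _ (b₁.mem _ hg), r0s0 _ _ (b₂.mem _ hg), ← map_add, ← map_add]
    change (s0 _).f _ ((dn _ 1).f _ (i₁.f _ (p₁.f _ _) + i₂.f _ ((up y 0).f _ ((dn y 0).f _
      (p₂.f _ _))))) = _
    have k3 : ∀ z ∈ (ps M).P.sub (.p (x + y) 2),
        i₁.f (ps M).P (p₁.f (ps M).P z) + i₂.f (ps M).P (p₂.f (ps M).P z) = z := fun z hz =>
      (Finset.sum_pair (f := fun u => (ps M).P.ι (.s x y) u ((ps M).P.π (.s x y) u z))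
        (by simp)).symm.trans ((ps M).P.sum (.s x y) z hz)
    rw [updn _ _ _ (p₂.mem _ c3)]
    exact (congrArg (fun z => (s0 _).f _ ((dn _ 1).f _ z)) (k3 _ c3)).trans
      (congrArg ((s0 _).f _) (dnup _ _ _ ((r0 _).mem _ hg)))
  · rw [η, el_mul, r0s0 _ _ (b₂.mem _ hg)]; rfl

theorem diag_idem {n : Type} [Fintype n] [DecidableEq n] (x : n → M.carrier) :
    (Matrix.diagonal fun a => η (x a)) * (Matrix.diagonal fun a => η (x a)) =
      Matrix.diagonal fun a => η (x a) := by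
  rw [Matrix.diagonal_mul_diagonal]; simp only [η_idem]

def ηI (x : M.carrier) : Idm (ps M).R := ⟨1, Matrix.diagonal fun _ => η x, diag_idem fun _ => x⟩

def sV (x : M.carrier) : ∀ i : Fin 3, Pth (sys M) (.p x i) .o :=
  Fin.cases (s0 x) fun i => (s0 x).cp (dn x i)

def rV (x : M.carrier) : ∀ i : Fin 3, Pth (sys M) .o (.p x i) :=
  Fin.cases (r0 x) fun i => (up x i).cp (r0 x)

theorem η_free {n : Type} [Fintype n] [DecidableEq n] (x : n → M.carrier) (i : n → Fin 3) :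
    ∃ z, Free (Pw (ps M).P n) (Fix (Matrix.diagonal fun a => η (x a)))
      (fun a => Vx.p (x a) (i a)) z := by
  refine ⟨_, diag_free (D := ps M) _ (fun a => sV (x a) (i a)) (fun a => rV (x a) (i a))
    (fun a T y => ?_) _ fun a => ?_⟩
  · induction i a using Fin.cases with
    | zero => exact r0s0 T _
    | succ j =>
      intro hy
      change (up _ j).f T ((r0 _).f T ((s0 _).f T ((dn _ j).f T y))) = y
      rw [r0s0 T _ ((dn _ j).mem T hy), updn T _ _ hy]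
  · induction i a using Fin.cases with
    | zero => rfl
    | succ j =>
      change _ = (s0 _).f _ ((dn _ j).f _ ((up _ j).f _ ((r0 _).f _ _)))
      rw [dnup _ _ _ ((r0 _).mem _ (ps M).g_mem)]; rfl

def vl : Vx M.carrier → WithTop M.carrier
  | .p x _ => x
  | _ => ⊤

theorem η_inj {x y : M.carrier} (h : Eqv (ηI x).2.1 (ηI y).2.1) : x = y := by
  obtain ⟨φ, ψ, hI⟩ := iso_of_eqv (D := ps M) h
  obtain ⟨z, h1⟩ := η_free (fun _ : Fin 1 => x) fun _ => 0
  obtain ⟨z', h2⟩ := η_free (fun _ : Fin 1 => y) fun _ => 0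
  have := free_inj' (Fix_cl _) (h1.trans hI) h2 vl ?_ ?_
  · exact WithTop.coe_injective this
  · rintro (x | ⟨x, i⟩ | ⟨x, y⟩)
    · exact ((Finset.sum_pair (by simp)).trans (by simp [vl]; rfl)).symm
    · exact (Finset.sum_singleton _ _).symm
    · exact ((Finset.sum_pair (by simp)).trans (by simp [vl]; rfl)).symm
  · rintro (_ | x | ⟨x, i⟩) h
    · exact absurd trivial h
    · exact absurd trivial h
    · obtain rfl : x = 0 := not_not.1 h
      rfl

theorem η_surj (e : Idm (ps M).R) : ∃ x, Eqv e.2.1 (ηI x).2.1 := by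
  obtain ⟨k, t, z, h1, h2⟩ := idem_free e.2.2
  have : ∀ a, ∃ x i, t a = Vx.p x i := fun a => by
    have := h2 a
    rcases h : t a with _ | x | ⟨x, i⟩
    · rw [h] at this; exact absurd this (top_ne_bot (α := Submodule ℚ (ULift.{u} ℚ)))
    · rw [h] at this; exact absurd this (top_ne_bot (α := Submodule ℚ (ULift.{u} ℚ)))
    · exact ⟨x, i, rfl⟩
  choose x i hx using this
  obtain rfl : t = fun a => Vx.p (x a) (i a) := funext hx
  obtain ⟨z', h3⟩ := η_free x i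
  obtain ⟨φ, ψ, hI, -⟩ := h1.iso h3 (Fix_cl _) (Fix_cl _)
  exact ⟨∑ a, x a, (eqv_of_iso e.2.2 (diag_idem x) hI).trans e.2.2 (ηI _).2.2
    (diag_eqv η η_zero η_idem η_add x)⟩

def ηE (M : CM.{u}) : M.carrier ≃ VV (ps M).R :=
  Equiv.ofBijective (fun x => Quotient.mk _ (ηI x)) ⟨fun _ _ h => η_inj (Quotient.exact h), by
    rintro ⟨e⟩
    obtain ⟨x, hx⟩ := η_surj e
    exact ⟨x, Quotient.sound hx.symm⟩⟩

theorem ηE_zero : ηE M 0 = VV.zero _ := Quotient.sound ⟨0, 0,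
  Eq.trans (by simp [ηI, η_zero]; rfl) (Matrix.zero_mul _).symm, (Matrix.zero_mul _).symm⟩

theorem ηE_add (x y : M.carrier) : ηE M (x + y) = VV.add (ηE M x) (ηE M y) := by
  refine Quotient.sound (Eqv.symm ?_)
  have := diag_eqv η η_zero η_idem η_add
    (Sum.elim (fun _ : Fin 1 => x) (fun _ : Fin 1 => y) ∘ finSumFinEquiv.symm)
  rw [show ∑ a, (Sum.elim (fun _ : Fin 1 => x) (fun _ : Fin 1 => y) ∘ finSumFinEquiv.symm) a = x + y
    from (Equiv.sum_comp finSumFinEquiv.symm _).trans (by simp)] at this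
  have e : blk (Matrix.diagonal fun _ : Fin 1 => η x) (Matrix.diagonal fun _ : Fin 1 => η y) =
      Matrix.diagonal fun a => η ((Sum.elim (fun _ : Fin 1 => x) (fun _ : Fin 1 => y) ∘
        finSumFinEquiv.symm) a) := by
    rw [blk, Matrix.fromBlocks_diagonal, Matrix.submatrix_diagonal_equiv]
    congr 1
    funext a
    simp only [Function.comp]
    rcases finSumFinEquiv.symm a with b | b <;> rfl
  rw [← e] at this
  exact this

section functor
variable {N K : CM.{u}} (f : M.carrier →+ N.carrier)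

def fV : Vx M.carrier → Vx N.carrier
  | .o => .o
  | .q x => .q (f x)
  | .p x i => .p (f x) i

def fL : Lx M.carrier → Lx N.carrier
  | .c x => .c (f x)
  | .a x i => .a (f x) i
  | .s x y => .s (f x) (f y)

theorem f_w (l : Lx M.carrier) : (sys N).w (fL f l) = fV f ((sys M).w l) := by
  rcases l with x | ⟨x, i⟩ | ⟨x, y⟩ <;> simp [wx, fL, fV]

theorem f_S (l : Lx M.carrier) : (sys N).S (fL f l) = ((sys M).S l).image (fV f) := by
  rcases l with x | ⟨x, i⟩ | ⟨x, y⟩ <;> simp [Sx, fL, fV]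

theorem f_mem {l : Lx M.carrier} {u : Vx M.carrier} (h : u ∈ (sys M).S l) :
    fV f u ∈ (sys N).S (fL f l) := by rw [f_S]; exact mem_image_of_mem _ h

theorem f_inj (l : Lx M.carrier) : ∀ u ∈ (sys M).S l, ∀ u' ∈ (sys M).S l, fV f u = fV f u' → u = u' := by
  rcases l with x | ⟨x, i⟩ | ⟨x, y⟩ <;> simp [Sx, fV]

def res (T : Mod (sys N)) : Mod (sys M) where
  W := T.W
  sub v := T.sub (fV f v)
  π l u := T.π (fL f l) (fV f u)
  ι l u := T.ι (fL f l) (fV f u)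
  dead v hv := T.dead _ (by
    rcases v with _ | x | ⟨x, i⟩
    · exact hv
    · exact hv
    · obtain rfl : x = 0 := not_not.1 hv
      exact not_not.2 (map_zero f))
  π_mem l u hu x hx := T.π_mem _ _ (f_mem f hu) x (f_w f l ▸ hx)
  ι_mem l u hu x hx := f_w f l ▸ T.ι_mem _ _ (f_mem f hu) x hx
  πι l u hu u' hu' y hy := (T.πι _ _ (f_mem f hu) _ (f_mem f hu') y hy).trans (by
    by_cases h : u = u'
    · rw [if_pos h, if_pos (congrArg _ h)]
    · rw [if_neg h, if_neg fun h' => h (f_inj f l u hu u' hu' h')])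
  sum l x hx := by
    have := T.sum (fL f l) x (f_w f l ▸ hx)
    rwa [f_S, Finset.sum_image (f_inj f l)] at this

theorem res_hom {T T' : Mod (sys N)} {ψ} (h : Hom T T' T.sub ψ) :
    Hom (res f T) (res f T') (res f T).sub fun v => ψ (fV f v) :=
  ⟨fun v => h.mem _, fun l u hu x hx => by
    have := h.π _ _ (f_mem f hu) x (f_w f l ▸ hx)
    rwa [f_w] at this, fun l u hu x hx => by
    have := h.ι _ _ (f_mem f hu) x hx
    rwa [f_w] at this⟩

def Φ : Vx M.carrier → (ps M).P.W →ₗ[ℚ] (ps N).P.W := (ps M).lift (res f (ps N).P) (ps N).g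

theorem Φ_hom : Hom (ps M).P (res f (ps N).P) (ps M).P.sub (Φ f) := lift_hom (ps N).g_mem

theorem Φ_g : Φ f .o (ps M).g = (ps N).g := lift_g (D := ps M) (T := res f (ps N).P) (ps N).g_mem

theorem aug_res {T : Mod (sys M)} {ψ} (h : Hom T (res f (aug N)) T.sub ψ) :
    Hom T (aug M) T.sub ψ := by
  have e1 : ∀ v, (eS (fV f v) : Submodule ℚ (ULift.{u} ℚ)) = eS v := by rintro (_ | _ | _) <;> rfl
  have e2 : ∀ v, (eP (fV f v) : ULift.{u} ℚ →ₗ[ℚ] ULift.{u} ℚ) = eP v := by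
    rintro (_ | _ | _) <;> rfl
  exact ⟨fun v x hx => (e1 v).le (h.mem v x hx),
    fun l u hu x hx => (h.π l u hu x hx).trans (LinearMap.congr_fun (e2 u) _),
    fun l u hu x hx => (h.ι l u hu x hx).trans (LinearMap.congr_fun (e2 u) _)⟩

def Fm : (ps M).R →ₙ+* (ps N).R where
  toFun x := mkR (Φ f .o (val x)) ⟨(Φ_hom f).mem _ _ (val_mem x), fun _ h =>
    (val_I x).2 _ (aug_res f ((Φ_hom f).cp (res_hom f h)))⟩
  map_zero' := val_ext (map_zero (Φ f .o))
  map_add' x y := val_ext (map_add (Φ f .o) (val x) (val y))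
  map_mul' x y := val_ext (P_ext ((act_hom x).cp (Φ_hom f)) ((Φ_hom f).cp (res_hom f (act_hom _)))
    (by
      change Φ f .o (act x _ _) = act _ _ (Φ f .o _)
      rw [act_g, Φ_g]; exact (act_g (D := ps N) (mkR _ _)).symm) _ _ (val_mem y))

theorem Fm_id : Fm (AddMonoidHom.id M.carrier) = NonUnitalRingHom.id _ := by
  have e1 : ∀ v, fV (AddMonoidHom.id M.carrier) v = v := by rintro (_ | _ | _) <;> rfl
  have e2 : ∀ v, fL (AddMonoidHom.id M.carrier) v = v := by rintro (_ | _ | _) <;> rfl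
  have h : Hom (ps M).P (res (AddMonoidHom.id M.carrier) (ps M).P) (ps M).P.sub
      fun _ => LinearMap.id :=
    ⟨fun v x hx => show x ∈ (ps M).P.sub (fV _ v) by rwa [e1],
      fun l u _ x _ => show _ = (ps M).P.π (fL _ l) (fV _ u) x by rw [e1, e2]; rfl,
      fun l u _ x _ => show _ = (ps M).P.ι (fL _ l) (fV _ u) x by rw [e1, e2]; rfl⟩
  ext x
  exact val_ext (P_ext (Φ_hom _) h (Φ_g _) _ _ (val_mem x))

theorem Fm_comp (g : N.carrier →+ K.carrier) : Fm (g.comp f) = (Fm g).comp (Fm f) := by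
  have e1 : ∀ v, fV (g.comp f) v = fV g (fV f v) := by rintro (_ | _ | _) <;> rfl
  have e2 : ∀ v, fL (g.comp f) v = fL g (fL f v) := by rintro (_ | _ | _) <;> rfl
  have h0 := (Φ_hom f).cp (res_hom f (Φ_hom g))
  have h : Hom (ps M).P (res (g.comp f) (ps K).P) (ps M).P.sub fun v => Φ g (fV f v) ∘ₗ Φ f v :=
    ⟨fun v x hx => show _ ∈ (ps K).P.sub (fV _ v) by rw [e1]; exact h0.mem v x hx,
      fun l u hu x hx => show _ = (ps K).P.π (fL _ l) (fV _ u) _ by
        rw [e1, e2]; exact h0.π l u hu x hx,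
      fun l u hu x hx => show _ = (ps K).P.ι (fL _ l) (fV _ u) _ by
        rw [e1, e2]; exact h0.ι l u hu x hx⟩
  ext x
  exact val_ext (P_ext (Φ_hom _) h ((Φ_g _).trans (by
    change _ = Φ g .o (Φ f .o _)
    rw [Φ_g, Φ_g])) _ _ (val_mem x))

theorem Fm_η (x : M.carrier) : Fm f (η x) = η (f x) := val_ext (by
  have h1 := (s0 x).nat _ _ _ (Φ_hom f) _ ((r0 x).mem _ (ps M).g_mem)
  rw [(r0 x).nat _ _ _ (Φ_hom f) _ (ps M).g_mem] at h1
  exact h1.trans (congrArg (fun z => (s0 (f x)).f _ ((r0 (f x)).f _ z)) (Φ_g f)))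

theorem ηE_nat (x : M.carrier) : VV.map (Fm f) (ηE M x) = ηE N (f x) := by
  refine congrArg (Quotient.mk _) (Sigma.ext rfl (heq_of_eq (Subtype.ext ?_)))
  change (Matrix.diagonal fun _ => η x).map (Fm f) = Matrix.diagonal fun _ => η (f x)
  rw [Matrix.diagonal_map (map_zero _)]
  simp only [Fm_η]

end functor

end

end H60.VR
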