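import Mathlib

namespace Pool.Agent.H60.Walk

/-- `w α β a₁ a₂ k` is the term `w_{k+1}` of the `(α, β)`-walk with `w_1 = a₁`, `w_2 = a₂`. -/
def w (α β a₁ a₂ : ℕ) : ℕ → ℕ
  | 0 => a₁
  | 1 => a₂
  | k + 2 => α * w α β a₁ a₂ (k + 1) + β * w α β a₁ a₂ k

/-- `s α β n`: the largest index `k ≥ 1` with `w_k = n` for some walk with positive starting
values. -/
noncomputable def s (α β n : ℕ) : ℕ :=
  sSup {k | 1 ≤ k ∧ ∃ a₁ a₂, 1 ≤ a₁ ∧ 1 ≤ a₂ ∧ w α β a₁ a₂ (k - 1) = n}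

/-- the larger root of `x ^ 2 = α x + β`. -/
noncomputable def gam (α β : ℕ) : ℝ := ((α : ℝ) + Real.sqrt ((α : ℝ) ^ 2 + 4 * β)) / 2

/-- the pairs in `T` attaining the maximum of `s α β n` over `T`. -/
def slowest (T : Set (ℕ × ℕ)) (n : ℕ) : Set (ℕ × ℕ) :=
  {P | P ∈ T ∧ ∀ Q ∈ T, s Q.1 Q.2 n ≤ s P.1 P.2 n}

/-- `g α β k = g_k`: `g_0 = 0`, `g_1 = 1`, `g_2 = α`, `g_{k+2} = α g_{k+1} + β g_k`. -/
def g (α β : ℕ) : ℕ → ℕ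
  | 0 => 0
  | 1 => 1
  | k + 2 => α * g α β (k + 1) + β * g α β k

end Pool.Agent.H60.Walk
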