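import Mathlib
import Pool.Agent.H60.WalkDefs

namespace Pool.Agent.H60.Walk

lemma w_eq (α β a₁ a₂ k : ℕ) :
    w α β a₁ a₂ (k + 1) = a₂ * g α β (k + 1) + β * a₁ * g α β k := by
  induction k using Nat.twoStepInduction with
  | zero => simp [w, g]
  | one => simp only [w, g]; ring
  | more k h1 h2 =>
    rw [w, h1, h2, show g α β (k + 2 + 1) = α * g α β (k + 2) + β * g α β (k + 1) from rfl,
      show g α β (k + 2) = α * g α β (k + 1) + β * g α β k from rfl]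
    ring

lemma w_pos {α β a₁ a₂ : ℕ} (hα : 1 ≤ α) (h1 : 1 ≤ a₁) (h2 : 1 ≤ a₂) (k : ℕ) :
    1 ≤ w α β a₁ a₂ k := by
  induction k using Nat.twoStepInduction with
  | zero => exact h1
  | one => exact h2
  | more k _ h => rw [w]; nlinarith [Nat.zero_le (β * w α β a₁ a₂ k)]

lemma w_ge {α β a₁ a₂ : ℕ} (hα : 1 ≤ α) (hβ : 1 ≤ β) (h1 : 1 ≤ a₁) (h2 : 1 ≤ a₂) (k : ℕ) :
    k ≤ w α β a₁ a₂ k := by
  induction k using Nat.twoStepInduction with
  | zero => exact Nat.zero_le _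
  | one => exact h2
  | more k _ h =>
    have := w_pos (β := β) hα h1 h2 k
    rw [w]; nlinarith

lemma w_shift (α β a₁ a₂ j k : ℕ) :
    w α β a₁ a₂ (j + k) = w α β (w α β a₁ a₂ j) (w α β a₁ a₂ (j + 1)) k := by
  induction k using Nat.twoStepInduction with
  | zero => rfl
  | one => rfl
  | more k h1 h2 => rw [w, ← h1, ← h2]; rfl

lemma le_s {α β a₁ a₂ : ℕ} (hα : 1 ≤ α) (hβ : 1 ≤ β) (h1 : 1 ≤ a₁) (h2 : 1 ≤ a₂) (k : ℕ) :
    k + 1 ≤ s α β (w α β a₁ a₂ k) := by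
  refine le_csSup ⟨w α β a₁ a₂ k + 1, ?_⟩ ⟨by omega, a₁, a₂, h1, h2, rfl⟩
  rintro j ⟨_, b₁, b₂, h3, h4, h5⟩
  have := w_ge hα hβ h3 h4 (j - 1)
  omega

lemma s_le {α β n k : ℕ} (hα : 1 ≤ α)
    (h : ∀ a₁ a₂, 1 ≤ a₁ → 1 ≤ a₂ → w α β a₁ a₂ k ≠ n) : s α β n ≤ k := by
  refine csSup_le' ?_
  rintro j ⟨_, b₁, b₂, h3, h4, h5⟩
  by_contra hj
  obtain ⟨i, hi⟩ : ∃ i, j - 1 = i + k := ⟨j - 1 - k, by omega⟩
  rw [hi, w_shift] at h5
  exact h _ _ (w_pos hα h3 h4 _) (w_pos hα h3 h4 _) h5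

/-- closed form when the roots are the integers `x` and `-y`. -/
lemma g_closed (α β x y : ℕ) (h1 : α + y = x) (h2 : β = x * y) (k : ℕ) :
    ((x : ℤ) + y) * g α β k = x ^ k - (-(y : ℤ)) ^ k := by
  induction k using Nat.twoStepInduction with
  | zero => simp [g]
  | one => simp [g]
  | more k a b =>
    have h3 : (α : ℤ) = x - y := by omega
    rw [g]; push_cast
    rw [h2, h3]; push_cast
    rw [h2] at a b
    linear_combination ((x : ℤ) - y) * b + x * y * a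

lemma gam_eq (α β x y : ℕ) (h1 : α + y = x) (h2 : β = x * y) : gam α β = x := by
  have h3 : (α : ℝ) = x - y := by rw [← h1]; push_cast; ring
  have : (α : ℝ) ^ 2 + 4 * β = ((x : ℝ) + y) ^ 2 := by rw [h2, h3]; push_cast; ring
  rw [gam, this, Real.sqrt_sq (by positivity), h3]
  ring

lemma g_strict {α β : ℕ} (hα : 1 ≤ α) (hβ : 1 ≤ β) (k : ℕ) :
    g α β (k + 1) + β * g α β k < g α β (k + 2) + β * g α β (k + 1) := by
  have h1 := w_eq α β 1 1 k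
  have h2 := w_eq α β 1 1 (k + 1)
  have h3 := w_pos (β := β) hα le_rfl le_rfl k
  have h4 : w α β 1 1 (k + 1 + 1) = α * w α β 1 1 (k + 1) + β * w α β 1 1 k := rfl
  simp only [one_mul, mul_one] at h1 h2
  rw [← h1, ← h2, h4]
  nlinarith

lemma s_le_self {α β : ℕ} (hα : 1 ≤ α) (hβ : 1 ≤ β) (k : ℕ) :
    s α β (g α β (k + 1) + β * g α β k) ≤ k + 2 := by
  refine s_le hα fun a₁ a₂ h1 h2 => ?_
  have h3 := g_strict hα hβ k
  rw [w_eq]
  have h4 : g α β (k + 2) ≤ a₂ * g α β (k + 1 + 1) := Nat.le_mul_of_pos_left _ h2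
  have h5 : β * g α β (k + 1) ≤ β * a₁ * g α β (k + 1) := by
    rw [mul_assoc]; exact Nat.mul_le_mul_left _ (Nat.le_mul_of_pos_left _ h1)
  omega

end Pool.Agent.H60.Walk
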