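import Mathlib
import Pool.Agent.H60.PAryE
import Pool.Agent.H60.PrimeWalk

namespace Pool.Agent.H60.PAry

open Finset
open Pool.Agent.H60.PrimeWalk (frc frc_eq)

/-- the four lowest coefficients of `∏_{t = 1}^{T} (y + t)` modulo `M`, passed on to `k`. -/
noncomputable def stir (M : ℕ) (k : ℕ → ℕ → ℕ → Bool) (T : ℕ) : ℕ → ℕ → ℕ → ℕ → Bool :=
  Nat.rec (fun _ a1 a2 a3 => k a1 a2 a3) (fun t ih a0 a1 a2 a3 =>
    frc (Nat.mod (Nat.mul (Nat.succ t) a0) M) fun b0 =>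
      frc (Nat.mod (Nat.add (Nat.mul (Nat.succ t) a1) a0) M) fun b1 =>
        frc (Nat.mod (Nat.add (Nat.mul (Nat.succ t) a2) a1) M) fun b2 =>
          frc (Nat.mod (Nat.add (Nat.mul (Nat.succ t) a3) a2) M) fun b3 => ih b0 b1 b2 b3) T

lemma stir_spec (M : ℕ) (k : ℕ → ℕ → ℕ → Bool) (T a0 a1 a2 a3 : ℕ)
    (h : stir M k T a0 a1 a2 a3 = true) :
    ∃ b0 b1 b2 b3 : ℕ, k b1 b2 b3 = true ∧ ∀ y : ZMod M, y ^ 4 = 0 →
      (a0 + a1 * y + a2 * y ^ 2 + a3 * y ^ 3) * ∏ t ∈ range T, (y + (t + 1 : ℕ)) =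
        b0 + b1 * y + b2 * y ^ 2 + b3 * y ^ 3 := by
  induction T generalizing a0 a1 a2 a3 with
  | zero => exact ⟨a0, a1, a2, a3, h, fun y _ => by simp⟩
  | succ T ih =>
    have e : stir M k (T + 1) a0 a1 a2 a3 = frc ((T + 1) * a0 % M) fun b0 =>
        frc (((T + 1) * a1 + a0) % M) fun b1 => frc (((T + 1) * a2 + a1) % M) fun b2 =>
          frc (((T + 1) * a3 + a2) % M) fun b3 => stir M k T b0 b1 b2 b3 := rfl
    rw [e] at h
    simp only [frc_eq] at h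
    obtain ⟨b0, b1, b2, b3, h1, h2⟩ := ih _ _ _ _ h
    refine ⟨b0, b1, b2, b3, h1, fun y hy => ?_⟩
    rw [← h2 y hy, prod_range_succ]
    simp only [ZMod.natCast_mod]
    push_cast
    linear_combination (a3 * ∏ t ∈ range T, (y + ((t : ZMod M) + 1))) * hy

lemma stir_run : stir (16843 ^ 4) (fun a1 a2 a3 => Nat.beq (a1 % 16843 ^ 3) 0 &&
    (Nat.beq (a2 % 16843 ^ 2) 0 && Nat.beq (a3 % 16843) 0)) 16842 1 0 0 0 = true := by
  decide +kernel

lemma choose_one_gen (p c : ℕ) (hp : p.Prime) (hc : c < p)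
    (h : stir (p ^ 4) (fun a1 a2 a3 => Nat.beq (a1 % p ^ 3) 0 &&
      (Nat.beq (a2 % p ^ 2) 0 && Nat.beq (a3 % p) 0)) c 1 0 0 0 = true) (i : ℕ) :
    (((c + p * i).choose (p * i) : ℕ) : ZMod (p ^ 4)) = 1 := by
  obtain ⟨b0, b1, b2, b3, h1, h2⟩ := stir_spec _ _ _ _ _ _ _ h
  simp only [Bool.and_eq_true, Nat.beq_eq] at h1
  obtain ⟨c1, rfl⟩ := Nat.dvd_of_mod_eq_zero h1.1
  obtain ⟨c2, rfl⟩ := Nat.dvd_of_mod_eq_zero h1.2.1
  obtain ⟨c3, rfl⟩ := Nat.dvd_of_mod_eq_zero h1.2.2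
  have hp4 : (p : ZMod (p ^ 4)) ^ 4 = 0 := by
    rw [← Nat.cast_pow, ZMod.natCast_self]
  have key : ∀ j : ℕ, (((p * j + 1).ascFactorial c : ℕ) : ZMod (p ^ 4)) = b0 := by
    intro j
    have h3 := h2 (p * j) (by rw [mul_pow, hp4, zero_mul])
    rw [Nat.ascFactorial_eq_prod_range, Nat.cast_prod]
    simp only [Nat.cast_one, Nat.cast_zero, zero_mul, add_zero, one_mul] at h3
    have e : ∀ t : ℕ, ((p * j + 1 + t : ℕ) : ZMod (p ^ 4)) =
        (p : ZMod (p ^ 4)) * j + ((t + 1 : ℕ) : ZMod (p ^ 4)) := fun t => by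
      push_cast; ring
    simp only [e]
    rw [h3]
    push_cast
    linear_combination (c1 * j + c2 * j ^ 2 + c3 * j ^ 3 : ZMod (p ^ 4)) * hp4
  have h4 := key i
  have h5 := key 0
  rw [Nat.ascFactorial_eq_factorial_mul_choose] at h4 h5
  rw [mul_zero, zero_add, Nat.choose_self, mul_one] at h5
  have hu : IsUnit ((Nat.factorial c : ℕ) : ZMod (p ^ 4)) := by
    rw [ZMod.isUnit_iff_coprime]
    refine Nat.Coprime.pow_right _ (Nat.Coprime.symm ?_)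
    exact (Nat.Prime.coprime_iff_not_dvd hp).2 fun h => by
      have := (Nat.Prime.dvd_factorial hp).1 h
      omega
  rw [Nat.cast_mul, ← h5] at h4
  rw [add_comm, Nat.choose_symm_add]
  exact hu.mul_left_cancel (by rw [h4, mul_one])

lemma choose_one (i : ℕ) :
    (((16842 + 16843 * i).choose (16843 * i) : ℕ) : ZMod (16843 ^ 4)) = 1 :=
  choose_one_gen 16843 16842 (by norm_num) (by norm_num) stir_run i

open PowerSeries in
lemma S_one_eq_sum (p k : ℕ) (hp : 2 ≤ p) (n : ℕ) :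
    S p 1 k n = ∑ j ∈ range (n + 1), S p 0 k j := by
  zify
  rw [S_cast p hp, pow_one, mul_comm, coeff_mul, Finset.Nat.sum_antidiagonal_eq_sum_range_succ_mk]
  refine sum_congr rfl fun j _ => ?_
  rw [S_cast p hp]
  simp [Pool.Agent.H60.ColPart.G]

lemma d_mul (n : ℕ) : (S 16843 1 16842 (16843 * n) : ZMod (16843 ^ 4)) = S 16843 1 16842 n := by
  rw [S_rec 16843 1 16842 16842 (by norm_num) rfl, S_one_eq_sum _ _ (by norm_num),
    Nat.mul_div_cancel_left _ (by norm_num), Nat.cast_sum, Nat.cast_sum]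
  refine sum_congr rfl fun j _ => ?_
  rw [← Nat.mul_sub, Nat.cast_mul, choose_one, one_mul]

theorem d_sq (n : ℕ) :
    (16843 : ℤ) ^ 4 ∣ (S 16843 1 16842 (16843 ^ 2 * n) : ℤ) - S 16843 1 16842 n := by
  have h : (S 16843 1 16842 (16843 ^ 2 * n) : ZMod (16843 ^ 4)) = S 16843 1 16842 n := by
    rw [sq, mul_assoc, d_mul, d_mul]
  have := (ZMod.natCast_eq_natCast_iff _ _ _).1 h
  exact_mod_cast this.symm.dvd

end Pool.Agent.H60.PAry
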